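import Mathlib

/-! An explicit series for `(s - 1) ζ(s)` in the half plane `re s > 0` and consequences. -/

set_option autoImplicit false

namespace Pool.Agent.H59.Zt

open Finset Filter Topology Complex

/-- The terms of the series. -/
noncomputable def tm (n : ℕ) (s : ℂ) : ℂ :=
  (s - 1) * ((n : ℂ) + 1) ^ (-s) - ((n : ℂ) + 1) ^ (1 - s) + ((n : ℂ) + 2) ^ (1 - s)

lemma hd (w : ℂ) (y : ℝ) (hy : 0 < y) :
    HasDerivAt (fun y : ℝ => (y : ℂ) ^ w) (w * (y : ℂ) ^ (w - 1)) y :=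
  (Complex.hasStrictDerivAt_cpow_const (ofReal_mem_slitPlane.2 hy)).hasDerivAt.comp_ofReal

lemma tm_bound (n : ℕ) (s : ℂ) (hs : 0 < s.re) :
    ‖tm n s‖ ≤ ‖s‖ * ‖s - 1‖ * ((n : ℝ) + 1) ^ (-s.re - 1) := by
  set a : ℝ := n + 1 with ha
  have a0 : 0 < a := by positivity
  set C := ‖s‖ * a ^ (-s.re - 1) with hC
  have h1 : ∀ y ∈ Set.Icc a (a + 1), ‖(y : ℂ) ^ (-s) - (a : ℂ) ^ (-s)‖ ≤ C * (y - a) := by
    refine norm_image_sub_le_of_norm_deriv_le_segment' (f := fun y : ℝ => (y : ℂ) ^ (-s))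
      (f' := fun y => -s * (y : ℂ) ^ (-s - 1))
      (fun y hy => (hd (-s) y (a0.trans_le hy.1)).hasDerivWithinAt) (fun y hy => ?_)
    rw [norm_mul, norm_neg, norm_cpow_eq_rpow_re_of_pos (a0.trans_le hy.1)]
    refine mul_le_mul_of_nonneg_left ?_ (norm_nonneg _)
    simp only [sub_re, neg_re, one_re]
    exact Real.rpow_le_rpow_of_nonpos a0 hy.1 (by linarith)
  have h2 := norm_image_sub_le_of_norm_deriv_le_segment'
    (f := fun y : ℝ => (y : ℂ) ^ (1 - s) - (1 - s) * (a : ℂ) ^ (-s) * y)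
    (f' := fun y => (1 - s) * ((y : ℂ) ^ (-s) - (a : ℂ) ^ (-s))) (a := a) (b := a + 1)
    (C := ‖s - 1‖ * C) (fun y hy => by
      have b1 := (hd (1 - s) y (a0.trans_le hy.1)).sub
        ((Complex.ofRealCLM.hasDerivAt (x := y)).const_mul ((1 - s) * (a : ℂ) ^ (-s)))
      refine HasDerivAt.hasDerivWithinAt (HasDerivAt.congr_deriv b1 ?_)
      simp only [ofRealCLM_apply, ofReal_one, sub_sub_cancel_left]; ring)
    (fun y hy => by
      rw [norm_mul, norm_sub_rev]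
      refine mul_le_mul_of_nonneg_left ((h1 y ⟨hy.1, hy.2.le⟩).trans ?_) (norm_nonneg _)
      exact mul_le_of_le_one_right (by positivity) (by linarith [hy.2]))
    (a + 1) ⟨by linarith, le_rfl⟩
  have e : tm n s = (((a + 1 : ℝ) : ℂ) ^ (1 - s) - (1 - s) * (a : ℂ) ^ (-s) * (a + 1 : ℝ)) -
      ((a : ℂ) ^ (1 - s) - (1 - s) * (a : ℂ) ^ (-s) * a) := by
    unfold tm
    have e1 : ((a + 1 : ℝ) : ℂ) = n + 2 := by rw [ha]; push_cast; ring
    have e2 : (a : ℂ) = n + 1 := by rw [ha]; push_cast; ring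
    rw [e1, e2]; ring
  rw [e]
  refine h2.trans_eq ?_
  rw [hC]; ring

lemma sum_tm (N : ℕ) (s : ℂ) : ∑ n ∈ range N, tm n s =
    (s - 1) * ∑ n ∈ range N, ((n : ℂ) + 1) ^ (-s) - 1 + ((N : ℂ) + 1) ^ (1 - s) := by
  induction N with
  | zero => simp
  | succ N ih =>
    rw [Finset.sum_range_succ, Finset.sum_range_succ, ih]
    unfold tm
    push_cast
    rw [show (N : ℂ) + 1 + 1 = N + 2 by ring]; ring

lemma summ (a : ℝ) (ha : 0 < a) : Summable (fun n : ℕ => ((n : ℝ) + 1) ^ (-a - 1)) := by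
  have := (summable_nat_add_iff 1).2 (Real.summable_nat_rpow.2 (by linarith : -a - 1 < -1))
  simpa using this

lemma summ_tm (s : ℂ) (hs : 0 < s.re) : Summable (fun n => tm n s) :=
  Summable.of_norm_bounded ((summ s.re hs).mul_left _) (fun n => tm_bound n s hs)

lemma tm_diff (n : ℕ) : Differentiable ℂ (tm n) := by
  unfold tm
  have h1 : (n : ℂ) + 1 ≠ 0 := by exact_mod_cast Nat.succ_ne_zero n
  have h2 : (n : ℂ) + 2 ≠ 0 := by exact_mod_cast Nat.succ_ne_zero (n + 1)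
  refine Differentiable.add (Differentiable.sub (Differentiable.mul (by fun_prop) ?_) ?_) ?_
  · exact Differentiable.const_cpow (by fun_prop) (Or.inl h1)
  · exact Differentiable.const_cpow (by fun_prop) (Or.inl h1)
  · exact Differentiable.const_cpow (by fun_prop) (Or.inl h2)

theorem zeta1_eq (s : ℂ) (hs : 0 < s.re) : riemannZeta₁ s = 1 + ∑' n, tm n s := by
  set U : Set ℂ := {z | 0 < z.re} with hU
  have hUo : IsOpen U := isOpen_lt continuous_const continuous_re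
  have h1 : DifferentiableOn ℂ (fun z => 1 + ∑' n, tm n z) U := by
    intro z hz
    have hz0 : 0 < z.re := hz
    set W : Set ℂ := {w | z.re / 2 < w.re} ∩ Metric.ball 0 (‖z‖ + 1) with hW
    have hWo : IsOpen W := (isOpen_lt continuous_const continuous_re).inter Metric.isOpen_ball
    have hzW : z ∈ W := ⟨by show z.re / 2 < z.re; linarith, by simp⟩
    have := differentiableOn_tsum_of_summable_norm (F := tm)
      ((summ (z.re / 2) (by linarith)).mul_left ((‖z‖ + 1) * (‖z‖ + 2)))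
      (fun n => (tm_diff n).differentiableOn) hWo (fun n w hw => by
        have a1 : z.re / 2 < w.re := hw.1
        have a2 : ‖w‖ < ‖z‖ + 1 := by simpa using hw.2
        have a3 : ‖w - 1‖ ≤ ‖z‖ + 2 := by
          have := norm_sub_le w 1
          rw [norm_one] at this; linarith
        refine (tm_bound n w (by linarith)).trans ?_
        refine mul_le_mul (mul_le_mul a2.le a3 (norm_nonneg _) (by positivity)) ?_ (by positivity)
          (by positivity)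
        exact Real.rpow_le_rpow_of_exponent_le (by linarith [Nat.cast_nonneg (α := ℝ) n])
          (by linarith))
    exact ((this.differentiableAt (hWo.mem_nhds hzW)).const_add 1).differentiableWithinAt
  have h2 : AnalyticOnNhd ℂ riemannZeta₁ U :=
    differentiable_riemannZeta₁.differentiableOn.analyticOnNhd hUo
  refine h2.eqOn_of_preconnected_of_eventuallyEq (h1.analyticOnNhd hUo)
    (convex_halfSpace_re_gt 0).isPreconnected (z₀ := 2) (by simp [hU]) ?_ hs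
  have h3 : {z : ℂ | 1 < z.re} ∈ 𝓝 (2 : ℂ) :=
    (isOpen_lt continuous_const continuous_re).mem_nhds (by simp)
  filter_upwards [h3] with z hz
  have hz1 : z ≠ 1 := by rintro rfl; simp at hz
  have a1 := (summ_tm z (by linarith)).hasSum.tendsto_sum_nat
  simp only [sum_tm] at a1
  have a2 : Tendsto (fun N => ∑ n ∈ range N, ((n : ℂ) + 1) ^ (-z)) atTop (𝓝 (riemannZeta z)) := by
    rw [zeta_eq_tsum_one_div_nat_add_one_cpow hz]
    have := (summable_nat_add_iff 1).2 (Complex.summable_one_div_nat_cpow.2 hz)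
    simp only [Nat.cast_add, Nat.cast_one] at this
    simpa only [cpow_neg, one_div] using this.hasSum.tendsto_sum_nat
  have a3 : Tendsto (fun N : ℕ => ((N : ℂ) + 1) ^ (1 - z)) atTop (𝓝 0) := by
    rw [tendsto_zero_iff_norm_tendsto_zero]
    have : ∀ N : ℕ, ‖((N : ℂ) + 1) ^ (1 - z)‖ = ((N : ℝ) + 1) ^ (-(z.re - 1)) := by
      intro N
      rw [show (N : ℂ) + 1 = ((N : ℝ) + 1 : ℝ) by push_cast; ring,
        norm_cpow_eq_rpow_re_of_pos (by positivity)]
      simp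
    simp only [this]
    exact (tendsto_rpow_neg_atTop (by linarith)).comp
      (tendsto_atTop_add_const_right _ _ tendsto_natCast_atTop_atTop)
  have a4 := tendsto_nhds_unique a1 (((a2.const_mul (z - 1)).sub_const 1).add a3)
  rw [a4, riemannZeta_eq_inv_sub_mul hz1, mul_inv_cancel_left₀ (sub_ne_zero.2 hz1)]; ring

theorem zeta1_bound : ∃ C : ℝ, 0 < C ∧ ∀ s : ℂ, 1 / 2 ≤ s.re →
    ‖riemannZeta₁ s‖ ≤ C * (‖s‖ + 1) ^ 2 := by
  set K := ∑' n : ℕ, ((n : ℝ) + 1) ^ (-(1 / 2 : ℝ) - 1) with hK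
  have K0 : 0 ≤ K := tsum_nonneg (fun n => by positivity)
  refine ⟨1 + K, by linarith, fun s hs => ?_⟩
  rw [zeta1_eq s (by linarith)]
  have h1 : ‖∑' n, tm n s‖ ≤ (‖s‖ + 1) ^ 2 * K :=
    tsum_of_norm_bounded ((summ (1 / 2) (by norm_num)).hasSum.mul_left _) (fun n => by
      refine (tm_bound n s (by linarith)).trans ?_
      have a3 : ‖s - 1‖ ≤ ‖s‖ + 1 := by simpa using norm_sub_le s 1
      refine mul_le_mul (by nlinarith [norm_nonneg s, norm_nonneg (s - 1)]) ?_ (by positivity)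
        (by positivity)
      exact Real.rpow_le_rpow_of_exponent_le (by linarith [Nat.cast_nonneg (α := ℝ) n])
        (by linarith))
  have h2 := norm_add_le 1 (∑' n, tm n s)
  rw [norm_one] at h2
  nlinarith [norm_nonneg s]

lemma tail_bound (s : ℂ) (a : ℝ) (ha0 : 0 ≤ a) (ha : a < s.re) (hz : riemannZeta₁ s = 0) :
    ∃ C : ℝ, 0 ≤ C ∧ ∀ N : ℕ, ‖(s - 1) * ∑ n ∈ range N, ((n : ℂ) + 1) ^ (-s) +
      ((N : ℂ) + 1) ^ (1 - s)‖ ≤ C * ((N : ℝ) + 1) ^ (-a) := by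
  have hs : 0 < s.re := by linarith
  have h0 := summ (s.re - a) (by linarith)
  set K := ∑' n : ℕ, ((n : ℝ) + 1) ^ (-(s.re - a) - 1) with hK
  have K0 : 0 ≤ K := tsum_nonneg (fun n => by positivity)
  refine ⟨‖s‖ * ‖s - 1‖ * K, by positivity, fun N => ?_⟩
  have h1 := (summ_tm s hs).sum_add_tsum_nat_add N
  rw [zeta1_eq s hs, ← h1, sum_tm] at hz
  have e : (s - 1) * ∑ n ∈ range N, ((n : ℂ) + 1) ^ (-s) + ((N : ℂ) + 1) ^ (1 - s) =
      -∑' n, tm (n + N) s := by linear_combination hz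
  rw [e, norm_neg]
  refine (tsum_of_norm_bounded (h0.hasSum.mul_left (‖s‖ * ‖s - 1‖ * ((N : ℝ) + 1) ^ (-a)))
    (fun n => ?_)).trans_eq (by rw [← hK]; ring)
  refine (tm_bound _ s hs).trans ?_
  rw [mul_assoc (‖s‖ * ‖s - 1‖)]
  refine mul_le_mul_of_nonneg_left ?_ (by positivity)
  have n0 : (0 : ℝ) ≤ n := Nat.cast_nonneg n
  have N0 : (0 : ℝ) ≤ N := Nat.cast_nonneg N
  push_cast
  rw [show -s.re - 1 = -a + (-(s.re - a) - 1) by ring, Real.rpow_add (by positivity)]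
  exact mul_le_mul (Real.rpow_le_rpow_of_nonpos (by positivity) (by linarith) (by linarith))
    (Real.rpow_le_rpow_of_nonpos (by positivity) (by linarith) (by linarith)) (by positivity)
    (by positivity)

/-- The alternating function attached to a zero. -/
noncomputable def alt (ρ : ℂ) (n : ℕ) : ℂ := (if 2 ∣ n then -1 else 1) * (n : ℂ) ^ (-ρ)

lemma alt_sum (ρ : ℂ) (M : ℕ) : ∑ n ∈ Icc 1 (2 * M + 1), alt ρ n =
    ∑ n ∈ range (2 * M + 1), ((n : ℂ) + 1) ^ (-ρ) -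
      2 * (2 : ℂ) ^ (-ρ) * ∑ n ∈ range M, ((n : ℂ) + 1) ^ (-ρ) := by
  induction M with
  | zero => simp [alt]
  | succ M ih =>
    rw [show 2 * (M + 1) + 1 = 2 * M + 1 + 1 + 1 by ring, Finset.sum_Icc_succ_top (by omega),
      Finset.sum_Icc_succ_top (by omega), ih, Finset.sum_range_succ _ (2 * M + 1 + 1),
      Finset.sum_range_succ _ (2 * M + 1), Finset.sum_range_succ _ M]
    unfold alt
    rw [if_pos (by omega), if_neg (by omega)]
    have e : ((2 * M + 1 + 1 : ℕ) : ℂ) ^ (-ρ) = (2 : ℂ) ^ (-ρ) * ((M : ℂ) + 1) ^ (-ρ) := by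
      have := natCast_mul_natCast_cpow 2 (M + 1) (-ρ)
      push_cast at this ⊢
      rw [← this]; congr 1; ring
    have e2 : (((2 * M + 1 : ℕ) : ℂ) + 1) = ((2 * M + 1 + 1 : ℕ) : ℂ) := by push_cast; ring
    have e3 : (((2 * M + 1 + 1 : ℕ) : ℂ) + 1) = ((2 * M + 1 + 1 + 1 : ℕ) : ℂ) := by
      push_cast; ring
    rw [e2, e3, e]; ring

theorem alt_bound (ρ : ℂ) (a : ℝ) (ha0 : 0 ≤ a) (ha : a < ρ.re) (h1 : ρ ≠ 1)
    (hz : riemannZeta ρ = 0) :
    ∃ C : ℝ, ∀ N : ℕ, ‖∑ n ∈ Icc 1 N, alt ρ n‖ ≤ C * ((N : ℝ) + 1) ^ (-a) := by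
  have h2 := sub_ne_zero.2 h1
  have hz1 : riemannZeta₁ ρ = 0 := by
    rw [riemannZeta_eq_inv_sub_mul h1] at hz
    exact (mul_eq_zero.1 hz).resolve_left (inv_ne_zero h2)
  obtain ⟨C, C0, hC⟩ := tail_bound ρ a ha0 ha hz1
  set K := (C + ‖2 * (2 : ℂ) ^ (-ρ)‖ * (C * 2 ^ a)) / ‖ρ - 1‖ with hK
  have K0 : 0 ≤ K := by positivity
  have odd : ∀ M : ℕ, ‖∑ n ∈ Icc 1 (2 * M + 1), alt ρ n‖ ≤ K * (2 * (M : ℝ) + 2) ^ (-a) := by
    intro M
    have e : (((2 * M + 1 : ℕ) : ℂ) + 1) ^ (1 - ρ) =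
        2 * (2 : ℂ) ^ (-ρ) * ((M : ℂ) + 1) ^ (1 - ρ) := by
      have := natCast_mul_natCast_cpow 2 (M + 1) (1 - ρ)
      push_cast at this ⊢
      rw [show (2 : ℂ) * M + 1 + 1 = 2 * (M + 1) by ring, this, sub_eq_add_neg,
        cpow_add _ _ two_ne_zero, cpow_one]
    have e2 : (ρ - 1) * ∑ n ∈ Icc 1 (2 * M + 1), alt ρ n =
        ((ρ - 1) * ∑ n ∈ range (2 * M + 1), ((n : ℂ) + 1) ^ (-ρ) +
          (((2 * M + 1 : ℕ) : ℂ) + 1) ^ (1 - ρ)) - 2 * (2 : ℂ) ^ (-ρ) *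
        ((ρ - 1) * ∑ n ∈ range M, ((n : ℂ) + 1) ^ (-ρ) + ((M : ℂ) + 1) ^ (1 - ρ)) := by
      rw [alt_sum, e]; ring
    have b1 := hC (2 * M + 1)
    have b2 := hC M
    have b3 := congrArg norm e2
    rw [norm_mul] at b3
    have b4 : ((M : ℝ) + 1) ^ (-a) = 2 ^ a * (2 * (M : ℝ) + 2) ^ (-a) := by
      rw [show 2 * (M : ℝ) + 2 = 2 * (M + 1) by ring, Real.mul_rpow (by norm_num) (by positivity),
        ← mul_assoc, ← Real.rpow_add (by norm_num)]
      simp
    have b5 : (((2 * M + 1 : ℕ) : ℝ) + 1) = 2 * (M : ℝ) + 2 := by push_cast; ring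
    rw [b5] at b1
    rw [b4] at b2
    rw [hK, div_mul_eq_mul_div, le_div_iff₀ (norm_pos_iff.2 h2), mul_comm, b3]
    refine (norm_sub_le _ _).trans ?_
    rw [norm_mul]
    have := mul_le_mul_of_nonneg_left b2 (norm_nonneg (2 * (2 : ℂ) ^ (-ρ)))
    linarith
  refine ⟨K + 1, fun N => ?_⟩
  obtain ⟨M, rfl | rfl⟩ := Nat.even_or_odd' N
  · have b1 := odd M
    rw [Finset.sum_Icc_succ_top (by omega)] at b1
    have M0 : (0 : ℝ) ≤ M := Nat.cast_nonneg M
    have b2 : ‖alt ρ (2 * M + 1)‖ ≤ (2 * (M : ℝ) + 1) ^ (-a) := by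
      unfold alt
      rw [if_neg (by omega), one_mul, norm_natCast_cpow_of_pos (by omega)]
      push_cast
      exact Real.rpow_le_rpow_of_exponent_le (by linarith) (by simp; linarith)
    have b3 : (2 * (M : ℝ) + 2) ^ (-a) ≤ (2 * (M : ℝ) + 1) ^ (-a) :=
      Real.rpow_le_rpow_of_nonpos (by positivity) (by linarith) (by linarith)
    have b4 := norm_sub_le (∑ n ∈ Icc 1 (2 * M), alt ρ n + alt ρ (2 * M + 1)) (alt ρ (2 * M + 1))
    rw [add_sub_cancel_right] at b4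
    push_cast
    nlinarith
  · have b1 := odd M
    have : 0 ≤ (2 * (M : ℝ) + 2) ^ (-a) := by positivity
    push_cast
    rw [show 2 * (M : ℝ) + 1 + 1 = 2 * M + 2 by ring]
    linarith

lemma alt_mul (ρ : ℂ) (m n : ℕ) (h : Nat.Coprime m n) : alt ρ (m * n) = alt ρ m * alt ρ n := by
  unfold alt
  rw [Nat.cast_mul, natCast_mul_natCast_cpow]
  have h2 := Nat.prime_two.dvd_mul (m := m) (n := n)
  by_cases h3 : 2 ∣ m <;> by_cases h4 : 2 ∣ n
  · have := Nat.dvd_gcd h3 h4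
    rw [h] at this; omega
  all_goals simp only [h2, h3, h4, or_false, or_true, if_true, if_false]; ring

lemma alt_loc (ρ : ℂ) (h0 : 0 < ρ.re) (h1 : ρ.re < 1) (p : ℕ) (hp : p.Prime) :
    ∃ c : ℂ, c ≠ 0 ∧ Tendsto (fun K : ℕ => ∑ k ∈ range K, alt ρ (p ^ k)) atTop (𝓝 c) := by
  set z : ℂ := (p : ℂ) ^ (-ρ) with hz
  have hn : ‖z‖ = (p : ℝ) ^ (-ρ.re) := by rw [hz, norm_natCast_cpow_of_pos hp.pos]; simp
  have p1 : (1 : ℝ) < p := by exact_mod_cast hp.one_lt
  have z1 : ‖z‖ < 1 := by rw [hn]; exact Real.rpow_lt_one_of_one_lt_of_neg p1 (by linarith)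
  have z2 : 1 - z ≠ 0 := by
    intro h
    rw [← sub_eq_zero.1 h] at z1; simp at z1
  have hg := (hasSum_geometric_of_norm_lt_one z1)
  have e : ∀ k : ℕ, ((p ^ k : ℕ) : ℂ) ^ (-ρ) = z ^ k := by
    intro k
    rw [hz, Nat.cast_pow, ← natCast_cpow_natCast_mul, mul_comm, cpow_mul_nat]
  by_cases h2 : p = 2
  · refine ⟨2 - (1 - z)⁻¹, fun h => ?_, ?_⟩
    · have b1 : 2 * z = 1 := by
        field_simp at h
        linear_combination -h
      have b2 := congrArg norm b1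
      rw [norm_mul, hn, h2] at b2
      have b3 : (2 : ℝ) ^ (-1 : ℝ) < 2 ^ (-ρ.re) :=
        Real.rpow_lt_rpow_of_exponent_lt (by norm_num) (by linarith)
      rw [Real.rpow_neg_one] at b3
      simp only [Complex.norm_ofNat, Nat.cast_ofNat, norm_one] at b2
      linarith
    · refine ((hasSum_ite_eq 0 (2 : ℂ)).sub hg).tendsto_sum_nat.congr
        (fun K => Finset.sum_congr rfl (fun k _ => Eq.symm ?_))
      unfold alt
      rw [e]
      rcases Nat.eq_zero_or_pos k with rfl | hk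
      · simp; norm_num
      · rw [if_pos (h2 ▸ dvd_pow_self p hk.ne'), if_neg hk.ne']; ring
  · refine ⟨(1 - z)⁻¹, inv_ne_zero z2, hg.tendsto_sum_nat.congr
      (fun K => Finset.sum_congr rfl (fun k _ => Eq.symm ?_))⟩
    unfold alt
    rw [e, if_neg, one_mul]
    intro h
    exact h2 ((Nat.prime_dvd_prime_iff_eq Nat.prime_two hp).1
      (Nat.prime_two.dvd_of_dvd_pow h)).symm

end Pool.Agent.H59.Zt
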