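import Mathlib
import Pool.Agent.H59.Zt1

/-! The logarithmic derivative of `ζ` under the Riemann hypothesis, Gaussian integrals, a contour
shift and a dual large sieve inequality. -/

set_option autoImplicit false

namespace Pool.Agent.H59.Zt

open Finset Filter Topology Complex MeasureTheory

/-- No zeros in the right half of the critical strip. -/
def RH : Prop := ∀ s : ℂ, 1 / 2 < s.re → s.re < 1 → riemannZeta s ≠ 0

/-- The logarithmic derivative of `(s - 1) ζ(s)`. -/
noncomputable def LD (s : ℂ) : ℂ := deriv riemannZeta₁ s / riemannZeta₁ s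

lemma z1_ne (h : RH) (s : ℂ) (hs : 1 / 2 < s.re) : riemannZeta₁ s ≠ 0 := by
  by_cases h1 : s = 1
  · rw [h1]; simp
  intro h0
  have h2 := riemannZeta_eq_inv_sub_mul h1
  rw [h0, mul_zero] at h2
  by_cases h3 : s.re < 1
  · exact h s hs h3 h2
  · exact riemannZeta_ne_zero_of_one_le_re (not_lt.1 h3) h2

lemma LD_diff (h : RH) (s : ℂ) (hs : 1 / 2 < s.re) : DifferentiableAt ℂ LD s :=
  (differentiable_riemannZeta₁.deriv s).div (differentiable_riemannZeta₁ s) (z1_ne h s hs)

lemma z1_low (s : ℂ) (hs : s.re = 2) : 1 / 3 ≤ ‖riemannZeta₁ s‖ := by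
  have h1 : s ≠ 1 := by rintro rfl; norm_num at hs
  have h2 : riemannZeta₁ s = (s - 1) * riemannZeta s := by
    rw [riemannZeta_eq_inv_sub_mul h1, mul_inv_cancel_left₀ (sub_ne_zero.2 h1)]
  have h3 : 1 ≤ ‖s - 1‖ := by
    have := re_le_norm (s - 1)
    simp only [sub_re, one_re, hs] at this; linarith
  have h4 := Complex.summable_one_div_nat_cpow.2 (show 1 < s.re by linarith)
  have h5 := h4.sum_add_tsum_nat_add 2
  rw [← zeta_eq_tsum_one_div_nat_cpow (by linarith)] at h5
  have s0 : s ≠ 0 := by rintro rfl; norm_num at hs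
  simp only [Finset.sum_range_succ, Finset.sum_range_zero, Nat.cast_zero, Nat.cast_one, one_cpow,
    zero_cpow s0, div_zero, zero_add, div_one] at h5
  have h6 := (hasSum_nat_add_iff' 2).2 hasSum_zeta_two
  have h7 : ‖∑' i : ℕ, 1 / ((i + 2 : ℕ) : ℂ) ^ s‖ ≤ _ := tsum_of_norm_bounded h6 (fun n => by
    rw [norm_div, norm_one, norm_natCast_cpow_of_pos (by omega), hs, Real.rpow_two])
  simp only [Finset.sum_range_succ, Finset.sum_range_zero] at h7
  have h8 := norm_sub_le (riemannZeta s) (∑' i : ℕ, 1 / ((i + 2 : ℕ) : ℂ) ^ s)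
  rw [← h5, add_sub_cancel_right, norm_one, h5] at h8
  have h9 := Real.pi_lt_d2
  have h10 := Real.pi_pos
  have h11 : 1 / 3 ≤ ‖riemannZeta s‖ := by norm_num at h7 h8 ⊢; nlinarith
  rw [h2, norm_mul]
  nlinarith

theorem LD_bound (h : RH) (ε : ℝ) (hε : 0 < ε) : ∃ C : ℝ, 0 < C ∧ ∀ x t : ℝ, 1 / 2 + ε ≤ x →
    x ≤ 2 → ‖LD (x + t * I)‖ ≤ C * Real.log (|t| + 5) := by
  obtain ⟨C, C0, hC⟩ := zeta1_bound
  refine ⟨12 * (|Real.log (3 * C)| + 2) / ε ^ 2, by positivity, fun x t hx hx2 => ?_⟩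
  set s0 : ℂ := 2 + t * I with hs0
  have re0 : s0.re = 2 := by simp [hs0]
  have hb : ∀ z ∈ Metric.ball s0 (3 / 2), 1 / 2 < z.re ∧ ‖z‖ ≤ |t| + 4 := by
    intro z hz
    rw [mem_ball_iff_norm] at hz
    have a1 := (abs_le.1 (abs_re_le_norm (z - s0))).1
    rw [sub_re, re0] at a1
    have a2 : ‖s0‖ ≤ 2 + |t| := by
      refine (norm_add_le _ _).trans ?_
      simp
    have a3 := norm_add_le (z - s0) s0
    rw [sub_add_cancel] at a3
    constructor <;> linarith
  obtain ⟨g, g0, hg⟩ := (DifferentiableOn.isExactOn_ball (f := LD) (c := s0) (r := 3 / 2)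
    (fun z hz => (LD_diff h z (hb z hz).1).differentiableWithinAt)).with_val_at s0 0
  have gd : DifferentiableOn ℂ g (Metric.ball s0 (3 / 2)) :=
    fun z hz => (hg z hz).differentiableAt.differentiableWithinAt
  have hc : ∀ z ∈ Metric.ball s0 (3 / 2), riemannZeta₁ z * cexp (-g z) = riemannZeta₁ s0 := by
    intro z hz
    have a1 : ∀ w ∈ Metric.ball s0 (3 / 2),
        HasDerivAt (fun w => riemannZeta₁ w * cexp (-g w)) 0 w := by
      intro w hw
      refine ((differentiable_riemannZeta₁ w).hasDerivAt.mul (hg w hw).neg.cexp).congr_deriv ?_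
      have := z1_ne h w (hb w hw).1
      simp only [LD, Pi.neg_apply]; field_simp; ring
    have := Metric.isOpen_ball.is_const_of_deriv_eq_zero (convex_ball s0 (3 / 2)).isPreconnected
      (fun w hw => (a1 w hw).differentiableAt.differentiableWithinAt)
      (fun w hw => (a1 w hw).deriv) hz (Metric.mem_ball_self (by norm_num))
    simpa [g0] using this
  have l1 : 1 ≤ Real.log (|t| + 5) := by
    rw [Real.le_log_iff_exp_le (by positivity)]
    linarith [Real.exp_one_lt_d9, abs_nonneg t]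
  set M := (|Real.log (3 * C)| + 2) * Real.log (|t| + 5) with hM
  have M0 : 0 < M := by positivity
  have hre : ∀ z ∈ Metric.ball s0 (3 / 2), (g z).re ≤ M := by
    intro z hz
    have a1 := congrArg norm (hc z hz)
    rw [norm_mul, norm_exp, neg_re, Real.exp_neg] at a1
    have a2 := z1_low s0 re0
    have a3 := hC z (hb z hz).1.le
    have a4 : (‖z‖ + 1) ^ 2 ≤ (|t| + 5) ^ 2 := by
      exact pow_le_pow_left₀ (by positivity) (by linarith [(hb z hz).2]) 2
    have a5 := Real.exp_pos (g z).re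
    have a6 : Real.exp (g z).re ≤ 3 * C * (|t| + 5) ^ 2 := by
      rw [← a1, ← div_eq_mul_inv, le_div_iff₀ a5] at a2
      nlinarith
    have a7 := (Real.le_log_iff_exp_le (by positivity)).2 a6
    rw [Real.log_mul (by positivity) (by positivity), Real.log_pow] at a7
    have a8 := le_abs_self (Real.log (3 * C))
    have a9 := abs_nonneg (Real.log (3 * C))
    push_cast at a7
    nlinarith
  have hBC : ∀ z, ‖z - s0‖ ≤ 3 / 2 - ε / 2 → ‖g z‖ ≤ 6 * M / ε := by
    intro z hz
    have m : ∀ w ∈ Metric.ball (0 : ℂ) (3 / 2), s0 + w ∈ Metric.ball s0 (3 / 2) := by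
      intro w hw; simpa using hw
    have := Complex.borelCaratheodory_zero (f := fun w => g (s0 + w)) (R := 3 / 2) (z := z - s0) M0
      (fun w hw => ((hg _ (m w hw)).differentiableAt.comp w
        (by fun_prop)).differentiableWithinAt)
      (fun w hw => hre _ (m w hw)) (by norm_num) (by rw [mem_ball_zero_iff]; linarith)
      (by simp [g0])
    simp only [add_sub_cancel] at this
    refine this.trans ?_
    rw [div_le_div_iff₀ (by linarith) hε]
    have := norm_nonneg (z - s0)
    nlinarith [mul_pos M0 hε]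
  have hs : ‖(x + t * I) - s0‖ ≤ 3 / 2 - ε := by
    rw [show (x + t * I) - s0 = ((x - 2 : ℝ) : ℂ) by rw [hs0]; push_cast; ring, norm_real,
      Real.norm_eq_abs, abs_le]
    constructor <;> linarith
  have hcl : ∀ z ∈ Metric.closedBall ((x : ℂ) + t * I) (ε / 2), ‖z - s0‖ ≤ 3 / 2 - ε / 2 := by
    intro z hz
    rw [mem_closedBall_iff_norm] at hz
    have := norm_add_le (z - (x + t * I)) ((x + t * I) - s0)
    rw [sub_add_sub_cancel] at this
    linarith
  have hd := Complex.norm_deriv_le_of_forall_mem_sphere_norm_le (f := g) (c := x + t * I)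
    (R := ε / 2) (by positivity) (gd.diffContOnCl_ball (fun z hz => by
      rw [mem_ball_iff_norm]; linarith [hcl z hz]))
    (fun z hz => hBC z (hcl z (Metric.sphere_subset_closedBall hz)))
  rw [(hg _ (by rw [mem_ball_iff_norm]; linarith)).deriv] at hd
  refine hd.trans_eq ?_
  rw [hM]; field_simp; ring

lemma gauss (b : ℝ) (hb : 0 < b) (v : ℝ) (d : ℂ) :
    ∫ t : ℝ, cexp (-b * t ^ 2 + v * I * t + d) =
      (√(Real.pi / b) * Real.exp (-v ^ 2 / (4 * b)) : ℝ) * cexp d := by
  have b0 : (b : ℂ) ≠ 0 := by exact_mod_cast hb.ne'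
  rw [integral_cexp_quadratic (by simpa using hb), neg_neg, Real.sqrt_eq_rpow]
  push_cast
  rw [ofReal_cpow (by positivity), mul_assoc, ← Complex.exp_add]
  push_cast
  congr 2
  field_simp
  linear_combination (v : ℂ) ^ 2 * I_sq

lemma gauss_int (b : ℝ) (hb : 0 < b) (v : ℝ) (d : ℂ) :
    Integrable (fun t : ℝ => cexp (-b * t ^ 2 + v * I * t + d)) :=
  integrable_cexp_quadratic (by simpa using hb) _ _

lemma shift (H : ℂ → ℂ) (a b C k : ℝ) (hab : a ≤ b) (hk : 0 < k)
    (hd : ∀ s : ℂ, a ≤ s.re → s.re ≤ b → DifferentiableAt ℂ H s)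
    (hb : ∀ x t : ℝ, a ≤ x → x ≤ b → ‖H (x + t * I)‖ ≤ C * Real.exp (-k * t ^ 2)) :
    ∫ t : ℝ, H (a + t * I) = ∫ t : ℝ, H (b + t * I) := by
  have hi : ∀ x : ℝ, a ≤ x → x ≤ b → Integrable (fun t : ℝ => H (x + t * I)) := by
    intro x h1 h2
    refine ((integrable_exp_neg_mul_sq hk).const_mul C).mono' ?_
      (Eventually.of_forall (fun t => hb x t h1 h2))
    refine Continuous.aestronglyMeasurable (continuous_iff_continuousAt.2 (fun t => ?_))
    exact ContinuousAt.comp (f := fun t : ℝ => (x : ℂ) + t * I)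
      (hd _ (by simpa using h1) (by simpa using h2)).continuousAt (by fun_prop)
  have t0 : Tendsto (fun T : ℝ => C * Real.exp (-k * T ^ 2) * |b - a|) atTop (𝓝 0) := by
    have := ((Real.tendsto_exp_atBot.comp ((tendsto_pow_atTop two_ne_zero).const_mul_atTop_of_neg
      (neg_lt_zero.2 hk))).const_mul C).mul_const |b - a|
    simpa using this
  have hz : ∀ σ : ℝ, σ ^ 2 = 1 →
      Tendsto (fun T : ℝ => ∫ x in a..b, H (x + (σ * T : ℝ) * I)) atTop (𝓝 0) := by
    intro σ hσ
    refine squeeze_zero_norm (fun T => ?_) t0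
    refine intervalIntegral.norm_integral_le_of_norm_le_const (fun x hx => ?_)
    rw [Set.uIoc_of_le hab] at hx
    have := hb x (σ * T) hx.1.le hx.2
    rwa [mul_pow, hσ, one_mul] at this
  have h1 := intervalIntegral_tendsto_integral (hi a le_rfl hab) tendsto_neg_atTop_atBot tendsto_id
  have h2 := intervalIntegral_tendsto_integral (hi b hab le_rfl) tendsto_neg_atTop_atBot tendsto_id
  have h3 := (((hz (-1) (by norm_num)).sub (hz 1 (by norm_num))).add (h2.const_smul I)).sub
    (h1.const_smul I)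
  have h4 := tendsto_nhds_unique h3 (tendsto_const_nhds (x := (0 : ℂ)) |>.congr (fun T => by
    have := integral_boundary_rect_eq_zero_of_differentiableOn H (a + (-T : ℝ) * I) (b + T * I)
      (fun z hz => by
        have h5 := hz.1
        simp only [add_re, ofReal_re, mul_re, I_re, mul_zero, ofReal_im, I_im, mul_one, sub_self,
          add_zero, Set.uIcc_of_le hab, Set.mem_preimage] at h5
        exact (hd z h5.1 h5.2).differentiableWithinAt)
    simpa using this.symm))
  simp only [sub_self, zero_add, smul_eq_mul] at h4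
  exact (mul_left_cancel₀ I_ne_zero (sub_eq_zero.1 h4)).symm

lemma lattice (S : Finset ℤ) (y : ℝ) : ∑ l ∈ S, Real.exp (-(y - l) ^ 2 / 4) ≤ 24 := by
  have h1 := hasSum_geometric_two
  have h2 : HasSum (fun k : ℤ => (1 / 2 : ℝ) ^ k.natAbs) (2 + 1 / 2 * 2) := by
    refine HasSum.of_nat_of_neg_add_one (by simpa using h1) ?_
    refine (h1.mul_left (1 / 2)).congr_fun (fun n => ?_)
    rw [Int.natAbs_neg, show ((n : ℤ) + 1).natAbs = n + 1 by omega, pow_succ, mul_comm]
  have h3 := ((Equiv.subRight ⌊y⌋).hasSum_iff.2 h2).mul_left 8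
  refine le_trans (Finset.sum_le_sum (fun l _ => ?_))
    ((sum_le_hasSum S (fun l _ => by simp only [Function.comp]; positivity) h3).trans_eq
      (by norm_num))
  simp only [Function.comp, Equiv.subRight_apply]
  set k := (l - ⌊y⌋).natAbs with hk
  have a1 : (k : ℝ) = |(l : ℝ) - ⌊y⌋| := by
    rw [hk, Nat.cast_natAbs]; push_cast; rfl
  have a2 : (k : ℝ) ≤ |y - l| + 1 := by
    rw [a1, abs_le]
    have := Int.floor_le y
    have := Int.lt_floor_add_one y
    have := le_abs_self (y - l)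
    have := neg_abs_le (y - l)
    constructor <;> linarith
  have a3 : Real.exp (-(y - l) ^ 2 / 4) ≤ Real.exp (2 + k * (-1)) := by
    rw [Real.exp_le_exp, ← sq_abs]
    nlinarith [sq_nonneg (|y - l| - 2)]
  refine a3.trans ?_
  rw [Real.exp_add, Real.exp_nat_mul]
  have a4 : Real.exp 2 ≤ 8 := by
    rw [show (2 : ℝ) = 1 + 1 by norm_num, Real.exp_add]
    nlinarith [Real.exp_one_lt_d9, Real.exp_pos 1]
  have a5 : Real.exp (-1) ≤ 1 / 2 := by
    rw [Real.exp_neg, one_div]
    exact inv_anti₀ (by norm_num) (by linarith [Real.exp_one_gt_d9])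
  gcongr

/-- A dual large sieve inequality for lattice frequencies. -/
lemma dual (F : ℝ → ℂ) (hF : Continuous F) (A0 κ A : ℝ) (hκ : 0 < κ) (hA : 0 < A) (hA0 : 0 < A0)
    (hb : ∀ t, ‖F t‖ ≤ A0 * Real.exp (-(κ ^ 2 / 2) * t ^ 2)) (S : Finset ℤ)
    (hS : ∀ l ∈ S, A ≤ ‖∫ t : ℝ, F t * cexp ((l * κ : ℝ) * I * t)‖) :
    S.card * A ^ 2 ≤ 160 * A0 ^ 2 / κ ^ 2 := by
  choose η h1 h2 using fun l : ℤ =>
    Complex.exists_norm_eq_mul_self (∫ t : ℝ, F t * cexp ((l * κ : ℝ) * I * t))
  set b := κ ^ 2 / 2 with hbd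
  have b0 : 0 < b := by positivity
  set G := √(Real.pi / b) with hG
  have G0 : 0 < G := Real.sqrt_pos.2 (by have := Real.pi_pos; positivity)
  set P : ℝ → ℂ := fun t => ∑ l ∈ S, η l * cexp ((l * κ : ℝ) * I * t) with hP
  have ne : ∀ (l : ℤ) (t : ℝ), ‖cexp ((l * κ : ℝ) * I * t)‖ = 1 := by
    intro l t; rw [norm_exp]; simp
  have i1 : ∀ l : ℤ, Integrable (fun t : ℝ => F t * cexp ((l * κ : ℝ) * I * t)) := fun l =>
    ((integrable_exp_neg_mul_sq b0).const_mul A0).mono'
      (Continuous.aestronglyMeasurable (by fun_prop))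
      (Eventually.of_forall (fun t => by rw [norm_mul, ne, mul_one]; exact hb t))
  have e1 : ∑ l ∈ S, η l * ∫ t : ℝ, F t * cexp ((l * κ : ℝ) * I * t) = ∫ t : ℝ, F t * P t := by
    simp only [hP, Finset.mul_sum, ← integral_const_mul]
    rw [← integral_finsetSum _ (fun l _ => (i1 l).const_mul _)]
    congr 1; ext t
    exact Finset.sum_congr rfl (fun l _ => by ring)
  have e2 : ∀ t : ℝ, ((Real.exp (-b * t ^ 2) * ‖P t‖ ^ 2 : ℝ) : ℂ) = ∑ l ∈ S, ∑ m ∈ S,
      η l * (starRingEnd ℂ) (η m) * cexp (-b * t ^ 2 + ((l - m) * κ : ℝ) * I * t + 0) := by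
    intro t
    rw [ofReal_mul, ofReal_pow, ← Complex.mul_conj']
    simp only [hP, map_sum]
    rw [Finset.sum_mul_sum, Finset.mul_sum]
    refine Finset.sum_congr rfl (fun l _ => ?_)
    rw [Finset.mul_sum]
    refine Finset.sum_congr rfl (fun m _ => ?_)
    rw [map_mul, ← exp_conj, map_mul, map_mul, conj_ofReal, conj_ofReal, conj_I, ofReal_exp]
    have : (-b * t ^ 2 + ((l - m) * κ : ℝ) * I * t + 0 : ℂ) = ((-b * t ^ 2 : ℝ) : ℂ) +
        ((l * κ : ℝ) * I * t + (m * κ : ℝ) * -I * t) := by push_cast; ring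
    rw [this, Complex.exp_add, Complex.exp_add]; ring
  have i2 : Integrable (fun t : ℝ => ∑ l ∈ S, ∑ m ∈ S,
      η l * (starRingEnd ℂ) (η m) * cexp (-b * t ^ 2 + ((l - m) * κ : ℝ) * I * t + 0)) :=
    integrable_finsetSum _ (fun l _ => integrable_finsetSum _
      (fun m _ => (gauss_int b b0 _ 0).const_mul _))
  have i3 : Integrable (fun t : ℝ => Real.exp (-b * t ^ 2) * ‖P t‖ ^ 2) := by
    have := i2.re
    simp only [← e2, RCLike.re_to_complex, ofReal_re] at this
    exact this
  have e3 : ∫ t : ℝ, Real.exp (-b * t ^ 2) * ‖P t‖ ^ 2 ≤ S.card * (G * 24) := by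
    refine (le_abs_self _).trans ?_
    rw [← Real.norm_eq_abs, ← norm_real, ← integral_complex_ofReal]
    simp only [e2]
    rw [integral_finsetSum _ (fun l _ => integrable_finsetSum _
      (fun m _ => (gauss_int b b0 _ 0).const_mul _)), ← nsmul_eq_mul]
    refine (norm_sum_le _ _).trans (Finset.sum_le_card_nsmul _ _ _ (fun l _ => ?_))
    rw [integral_finsetSum _ (fun m _ => (gauss_int b b0 _ 0).const_mul _)]
    refine (norm_sum_le _ _).trans (le_trans ?_ (mul_le_mul_of_nonneg_left (lattice S l) G0.le))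
    rw [Finset.mul_sum]
    refine Finset.sum_le_sum (fun m _ => ?_)
    rw [integral_const_mul, gauss b b0, norm_mul, norm_mul, norm_mul, h1, RCLike.norm_conj, h1,
      Complex.exp_zero, norm_one, norm_real, Real.norm_of_nonneg (by positivity), one_mul, one_mul,
      mul_one]
    refine mul_le_mul_of_nonneg_left (Real.exp_le_exp.2 ?_) G0.le
    rw [hbd, mul_pow]
    field_simp
    nlinarith [sq_nonneg ((l : ℝ) - m)]
  set lam := A0 * G * 24 / A with hlam
  have lam0 : 0 < lam := by positivity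
  have e4 : S.card * A ≤ A0 * (lam / 2 * G + 1 / (2 * lam) * (S.card * (G * 24))) := by
    have a1 : S.card * A ≤ ∑ l ∈ S, ‖∫ t : ℝ, F t * cexp ((l * κ : ℝ) * I * t)‖ := by
      rw [← nsmul_eq_mul]; exact Finset.card_nsmul_le_sum _ _ _ hS
    have a2 : ((∑ l ∈ S, ‖∫ t : ℝ, F t * cexp ((l * κ : ℝ) * I * t)‖ : ℝ) : ℂ) =
        ∫ t : ℝ, F t * P t := by
      rw [← e1, ofReal_sum]; exact Finset.sum_congr rfl (fun l _ => h2 l)
    have a3 := congrArg norm a2
    rw [norm_real, Real.norm_eq_abs] at a3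
    have a4 := norm_integral_le_of_norm_le (f := fun t => F t * P t) (μ := volume)
      ((((integrable_exp_neg_mul_sq b0).const_mul (lam / 2)).add
        (i3.const_mul (1 / (2 * lam)))).const_mul A0) (Eventually.of_forall (fun t => by
          rw [norm_mul]
          refine (mul_le_mul_of_nonneg_right (hb t) (norm_nonneg _)).trans ?_
          rw [mul_assoc]
          refine mul_le_mul_of_nonneg_left ?_ hA0.le
          have c1 : ‖P t‖ ≤ lam / 2 + 1 / (2 * lam) * ‖P t‖ ^ 2 := by
            have : lam / 2 + 1 / (2 * lam) * ‖P t‖ ^ 2 - ‖P t‖ =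
              (‖P t‖ - lam) ^ 2 / (2 * lam) := by field_simp; ring
            have : 0 ≤ (‖P t‖ - lam) ^ 2 / (2 * lam) := by positivity
            linarith
          have := mul_le_mul_of_nonneg_left c1 (Real.exp_pos (-b * t ^ 2)).le
          simp only [Pi.add_apply]
          linarith))
    simp only [Pi.add_apply] at a4
    rw [integral_const_mul, integral_add ((integrable_exp_neg_mul_sq b0).const_mul _)
      (i3.const_mul _), integral_const_mul, integral_const_mul, integral_gaussian, ← a3] at a4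
    refine a1.trans ((le_abs_self _).trans (a4.trans ?_))
    gcongr
  have e5 : A0 * (lam / 2 * G + 1 / (2 * lam) * (S.card * (G * 24))) =
      12 * A0 ^ 2 * G ^ 2 / A + S.card * A / 2 := by
    rw [hlam]; field_simp; ring
  have e6 : G ^ 2 = 2 * Real.pi / κ ^ 2 := by
    rw [hG, Real.sq_sqrt (by have := Real.pi_pos; positivity), hbd]; field_simp
  have e7 : S.card * A ≤ 24 * A0 ^ 2 * G ^ 2 / A := by
    have : 24 * A0 ^ 2 * G ^ 2 / A = 2 * (12 * A0 ^ 2 * G ^ 2 / A) := by ring
    linarith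
  rw [le_div_iff₀ hA, e6] at e7
  have e8 : 24 * A0 ^ 2 * (2 * Real.pi / κ ^ 2) ≤ 160 * A0 ^ 2 / κ ^ 2 := by
    rw [← mul_div_assoc]
    refine div_le_div_of_nonneg_right ?_ (by positivity)
    nlinarith [Real.pi_lt_d2, sq_nonneg A0]
  nlinarith

end Pool.Agent.H59.Zt
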