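import Mathlib
import Pool.Agent.H59.Zt2

/-! A smoothed explicit formula and the number of exceptional centres under the Riemann
hypothesis. -/

set_option autoImplicit false

namespace Pool.Agent.H59.Zt

open Finset Filter Topology Complex MeasureTheory ArithmeticFunction

/-- The Gaussian kernel. -/
noncomputable def E (κ u : ℝ) (s : ℂ) : ℂ := cexp (s * u + κ ^ 2 * s ^ 2)

lemma E_line (κ u c t : ℝ) : E κ u (c + t * I) =
    cexp (-(κ ^ 2 : ℝ) * t ^ 2 + (u + 2 * κ ^ 2 * c : ℝ) * I * t + (c * u + κ ^ 2 * c ^ 2 : ℝ)) := by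
  unfold E
  congr 1
  push_cast
  linear_combination (κ : ℂ) ^ 2 * t ^ 2 * I_sq

lemma E_norm (κ u c t : ℝ) : ‖E κ u (c + t * I)‖ =
    Real.exp (c * u + κ ^ 2 * c ^ 2) * Real.exp (-κ ^ 2 * t ^ 2) := by
  rw [E_line, norm_exp, ← Real.exp_add]
  congr 1
  simp only [← ofReal_pow, ← ofReal_neg, ← ofReal_mul, add_re, ofReal_re, mul_re, I_re, I_im,
    ofReal_im, mul_im]
  ring

lemma E_int (κ u c : ℝ) (hκ : 0 < κ) : Integrable (fun t : ℝ => E κ u (c + t * I)) := by
  simp only [E_line]; exact gauss_int _ (by positivity) _ _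

lemma E_gauss (κ u c : ℝ) (hκ : 0 < κ) : ∫ t : ℝ, E κ u (c + t * I) =
    (√Real.pi / κ * Real.exp (-u ^ 2 / (4 * κ ^ 2)) : ℝ) := by
  simp only [E_line]
  rw [gauss _ (by positivity), ← ofReal_exp, ← ofReal_mul, mul_assoc, ← Real.exp_add,
    Real.sqrt_div Real.pi_pos.le, Real.sqrt_sq hκ.le]
  congr 3
  field_simp; ring

lemma E_cont (κ u : ℝ) : Differentiable ℂ (E κ u) := by unfold E; fun_prop

/-- The smoothed von Mangoldt weights. -/
noncomputable def wt (κ u : ℝ) (n : ℕ) : ℝ := Λ n * Real.exp (-(u - Real.log n) ^ 2 / (4 * κ ^ 2))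

lemma dir_sum (κ u : ℝ) (hκ : 0 < κ) : HasSum (fun n => ((√Real.pi / κ * wt κ u n : ℝ) : ℂ))
    (∫ t : ℝ, LSeries (fun n => (Λ n : ℂ)) ((2 : ℝ) + t * I) * E κ u ((2 : ℝ) + t * I)) := by
  have e1 : ∀ (n : ℕ) (s : ℂ), LSeries.term (fun n => (Λ n : ℂ)) s n * E κ u s =
      (Λ n : ℂ) * E κ (u - Real.log n) s := by
    intro n s
    rcases Nat.eq_zero_or_pos n with rfl | hn
    · simp
    have hn0 : (n : ℂ) ≠ 0 := by exact_mod_cast hn.ne'
    rw [LSeries.term_of_ne_zero hn.ne', cpow_def_of_ne_zero hn0, div_mul_eq_mul_div, mul_div_assoc]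
    unfold E
    rw [← Complex.exp_sub, ← natCast_log]
    congr 2
    push_cast; ring
  have h1 := hasSum_integral_of_summable_integral_norm (μ := volume)
    (F := fun (n : ℕ) (t : ℝ) => LSeries.term (fun n => (Λ n : ℂ)) ((2 : ℝ) + t * I) n *
      E κ u ((2 : ℝ) + t * I))
    (fun n => by simp only [e1]; exact (E_int κ _ 2 hκ).const_mul _) (by
      have a1 := (LSeriesSummable_vonMangoldt (s := 2) (by simp)).norm.mul_right
        (∫ t : ℝ, ‖E κ u ((2 : ℝ) + t * I)‖)
      refine a1.congr (fun n => ?_)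
      rw [← integral_const_mul]
      congr 1; ext t
      rw [norm_mul, LSeries.norm_term_eq, LSeries.norm_term_eq]
      simp)
  simp only [tsum_mul_right] at h1
  refine h1.congr_fun (fun n => ?_)
  simp only [e1]
  rw [integral_const_mul, E_gauss _ _ _ hκ, wt]
  push_cast; ring

lemma pole (κ u : ℝ) (hκ : 0 < κ) (hu : 0 ≤ u) : ∃ M : ℝ, 3 / 4 * √Real.pi * Real.exp u ≤ M ∧
    ∫ t : ℝ, ((2 : ℝ) + t * I - 1)⁻¹ * E κ u ((2 : ℝ) + t * I) = M := by
  set f : ℝ → ℝ → ℂ := fun t y => cexp (-((2 : ℝ) + t * I - 1) * y) * E κ u ((2 : ℝ) + t * I)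
    with hf
  have hi : Integrable (Function.uncurry f) (volume.prod (volume.restrict (Set.Ioi (0 : ℝ)))) := by
    refine ((E_int κ u 2 hκ).norm.mul_prod (integrableOn_exp_mul_Ioi (a := -1) (by norm_num) 0)).mono'
      (Continuous.aestronglyMeasurable ?_) (Eventually.of_forall (fun z => ?_))
    · have := (E_cont κ u).continuous
      simp only [hf]
      unfold Function.uncurry
      fun_prop
    · simp only [hf, Function.uncurry]
      rw [norm_mul, norm_exp, mul_comm]
      refine le_of_eq ?_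
      congr 2
      simp; norm_num
  have e1 : ∀ t : ℝ, ∫ y in Set.Ioi (0 : ℝ), f t y =
      ((2 : ℝ) + t * I - 1)⁻¹ * E κ u ((2 : ℝ) + t * I) := by
    intro t
    simp only [hf]
    rw [integral_mul_const, integral_exp_mul_complex_Ioi (by simp)]
    simp only [ofReal_zero, mul_zero, Complex.exp_zero, neg_div_neg_eq, one_div]
  set φ : ℝ → ℝ := fun y => Real.exp y * (√Real.pi / κ * Real.exp (-(u - y) ^ 2 / (4 * κ ^ 2)))
    with hφ
  have e2 : ∀ y : ℝ, ∫ t, f t y = φ y := by
    intro y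
    have : ∀ t : ℝ, f t y = cexp y * E κ (u - y) ((2 : ℝ) + t * I) := by
      intro t
      simp only [hf, E]
      rw [← Complex.exp_add, ← Complex.exp_add]
      congr 1
      push_cast; ring
    simp only [this]
    rw [integral_const_mul, E_gauss _ _ _ hκ, hφ]
    push_cast; ring
  have h1 := integral_integral_swap hi
  simp only [e1, e2] at h1
  have h2 : IntegrableOn φ (Set.Ioi 0) := by
    have := hi.integral_prod_right.re
    simp only [Function.uncurry, e2, RCLike.re_to_complex, ofReal_re] at this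
    exact this
  refine ⟨∫ y in Set.Ioi (0 : ℝ), φ y, ?_, by rw [h1, integral_complex_ofReal]⟩
  have h3 : Set.Ioc u (u + κ) ⊆ Set.Ioi 0 := fun y hy => lt_of_le_of_lt hu hy.1
  have h4 := setIntegral_mono_set h2 (Eventually.of_forall (fun y => by
    simp only [hφ, Pi.zero_apply]; positivity)) h3.eventuallyLE
  refine le_trans ?_ h4
  have h5 := setIntegral_ge_of_const_le_real (c := Real.exp u * (√Real.pi / κ * (3 / 4)))
    (μ := volume) (measurableSet_Ioc (a := u) (b := u + κ)) (by simp) (fun y hy => by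
      have a1 : Real.exp u ≤ Real.exp y := Real.exp_le_exp.2 hy.1.le
      have a2 : 3 / 4 ≤ Real.exp (-(u - y) ^ 2 / (4 * κ ^ 2)) := by
        refine le_trans ?_ (Real.add_one_le_exp _)
        have : (u - y) ^ 2 / (4 * κ ^ 2) ≤ 1 / 4 := by
          rw [div_le_iff₀ (by positivity)]
          nlinarith [hy.1, hy.2]
        rw [neg_div]; linarith
      show _ ≤ φ y
      simp only [hφ]
      gcongr) (h2.mono_set h3)
  refine le_trans (le_of_eq ?_) h5
  rw [Real.volume_real_Ioc_of_le (by linarith)]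
  field_simp; ring

lemma log_le_gauss (κ t : ℝ) (hκ : 0 < κ) (hκ1 : κ ≤ 1) : Real.log (|t| + 5) ≤
    (Real.log (5 / κ) + 1) * Real.exp (κ ^ 2 / 2 * t ^ 2) := by
  have t0 := abs_nonneg t
  have a1 : |t| + 5 ≤ 5 / κ * (1 + κ * |t|) := by
    rw [div_mul_eq_mul_div, le_div_iff₀ hκ]; nlinarith
  have a2 := Real.log_le_log (by positivity) a1
  rw [Real.log_mul (by positivity) (by positivity)] at a2
  have a3 := Real.log_le_sub_one_of_pos (show 0 < 1 + κ * |t| by positivity)
  have a4 : 0 ≤ Real.log (5 / κ) := Real.log_nonneg (by rw [le_div_iff₀ hκ]; linarith)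
  have a5 := Real.add_one_le_exp (κ ^ 2 / 2 * t ^ 2)
  have a6 : 0 ≤ κ ^ 2 / 2 * t ^ 2 := by positivity
  have a7 : κ * |t| ≤ κ ^ 2 / 2 * t ^ 2 + 1 := by
    rw [← sq_abs t]; nlinarith [sq_nonneg (κ * |t| - 1)]
  nlinarith

theorem centres (h : RH) (ε : ℝ) (hε : 0 < ε) (hε1 : ε ≤ 1 / 2) : ∃ C : ℝ, 0 < C ∧
    ∀ κ U : ℝ, 0 < κ → κ ≤ 1 → 0 ≤ U → ∀ S : Finset ℤ,
      (∀ l ∈ S, U ≤ l * κ ∧ ∑' n, wt κ (l * κ) n < κ * Real.exp (l * κ) / 2) →
      S.card * Real.exp ((1 - 2 * ε) * U) ≤ C * (Real.log (5 / κ) + 1) ^ 2 / κ ^ 2 := by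
  obtain ⟨C, C0, hC⟩ := LD_bound h ε hε
  refine ⟨16 * 160 * (3 * C) ^ 2, by positivity, fun κ U hκ hκ1 hU S hS => ?_⟩
  set σ := 1 / 2 + ε with hσ
  set Lk := Real.log (5 / κ) + 1 with hLk
  have L0 : 0 < Lk := by
    have : 0 ≤ Real.log (5 / κ) := Real.log_nonneg (by rw [le_div_iff₀ hκ]; linarith)
    linarith
  have hb : ∀ u x t : ℝ, σ ≤ x → x ≤ 2 → ‖LD (x + t * I) * E κ u (x + t * I)‖ ≤
      C * Lk * Real.exp (x * u + κ ^ 2 * x ^ 2) * Real.exp (-(κ ^ 2 / 2) * t ^ 2) := by
    intro u x t h1 h2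
    rw [norm_mul, E_norm]
    have a1 := (hC x t h1 h2).trans (mul_le_mul_of_nonneg_left (log_le_gauss κ t hκ hκ1) C0.le)
    refine (mul_le_mul_of_nonneg_right a1 (by positivity)).trans_eq ?_
    have : Real.exp (-(κ ^ 2 / 2) * t ^ 2) =
        Real.exp (κ ^ 2 / 2 * t ^ 2) * Real.exp (-κ ^ 2 * t ^ 2) := by
      rw [← Real.exp_add]; congr 1; ring
    rw [this]; ring
  have hc : ∀ u x : ℝ, σ ≤ x → Continuous (fun t : ℝ => LD (x + t * I) * E κ u (x + t * I)) := by
    intro u x hx
    refine continuous_iff_continuousAt.2 (fun t => ?_)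
    exact ContinuousAt.comp (g := fun s => LD s * E κ u s) (f := fun t : ℝ => (x : ℂ) + t * I)
      ((LD_diff h _ (by simp; linarith)).mul (E_cont κ u _)).continuousAt (by fun_prop)
  have key := dual (fun t => LD (σ + t * I) * E κ 0 (σ + t * I)) (hc 0 σ le_rfl) (3 * C * Lk) κ
    (1 / 4 * Real.exp ((1 / 2 - ε) * U)) hκ (by positivity) (by positivity) (fun t => by
      refine (hb 0 σ t le_rfl (by linarith)).trans
        (mul_le_mul_of_nonneg_right ?_ (by positivity))
      have a1 : κ ^ 2 * σ ^ 2 ≤ 1 := by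
        rw [← mul_pow]; exact pow_le_one₀ (by positivity) (by nlinarith)
      have a2 : Real.exp (σ * 0 + κ ^ 2 * σ ^ 2) ≤ 3 := by
        refine (Real.exp_le_exp.2 (by linarith : σ * 0 + κ ^ 2 * σ ^ 2 ≤ 1)).trans ?_
        linarith [Real.exp_one_lt_d9]
      nlinarith [mul_pos C0 L0]) S (fun l hl => by
      obtain ⟨h1, h2⟩ := hS l hl
      set u : ℝ := l * κ with hu
      obtain ⟨M, m1, m2⟩ := pole κ u hκ (hU.trans h1)
      have a1 := (dir_sum κ u hκ).tsum_eq
      have a2 : ∀ t : ℝ, LSeries (fun n => (Λ n : ℂ)) ((2 : ℝ) + t * I) * E κ u ((2 : ℝ) + t * I) =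
          ((2 : ℝ) + t * I - 1)⁻¹ * E κ u ((2 : ℝ) + t * I) -
            LD ((2 : ℝ) + t * I) * E κ u ((2 : ℝ) + t * I) := by
        intro t
        have b1 : ((2 : ℝ) : ℂ) + t * I ≠ 1 := by
          intro h0
          have := congrArg re h0
          simp at this
        have b2 := z1_ne h ((2 : ℝ) + t * I) (by simp; norm_num)
        have b3 := sub_ne_zero.2 b1
        rw [LSeries_vonMangoldt_eq_deriv_riemannZeta_div (by simp),
          deriv_riemannZeta_eq_neg_inv_sub_sq_mul_add b1, riemannZeta_eq_inv_sub_mul b1, LD]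
        field_simp; ring
      have i1 : Integrable (fun t : ℝ => LD ((2 : ℝ) + t * I) * E κ u ((2 : ℝ) + t * I)) :=
        ((integrable_exp_neg_mul_sq (b := κ ^ 2 / 2) (by positivity)).const_mul _).mono'
          (hc u 2 (by linarith)).aestronglyMeasurable
          (Eventually.of_forall (fun t => hb u 2 t (by linarith) le_rfl))
      have i2 : Integrable (fun t : ℝ => ((2 : ℝ) + t * I - 1)⁻¹ * E κ u ((2 : ℝ) + t * I)) := by
        have b1 : ∀ t : ℝ, 1 ≤ ‖((2 : ℝ) : ℂ) + t * I - 1‖ := fun t => by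
          have := re_le_norm (((2 : ℝ) : ℂ) + t * I - 1)
          simp only [sub_re, add_re, ofReal_re, mul_re, I_re, mul_zero, ofReal_im, I_im, mul_one,
            sub_self, add_zero, one_re] at this
          linarith
        refine (E_int κ u 2 hκ).bdd_mul (c := 1) (Continuous.aestronglyMeasurable
          (Continuous.inv₀ (by fun_prop) (fun t h0 => ?_))) (Eventually.of_forall (fun t => ?_))
        · have := b1 t
          rw [h0] at this; norm_num at this
        · rw [norm_inv]; exact inv_le_one_of_one_le₀ (b1 t)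
      have a3 := shift (fun s => LD s * E κ u s) σ 2
        (C * Lk * Real.exp (2 * |u| + κ ^ 2 * 2 ^ 2)) (κ ^ 2 / 2) (by linarith) (by positivity)
        (fun s h3 _ => (LD_diff h s (by linarith)).mul (E_cont κ u s)) (fun x t h3 h4 => by
          refine (hb u x t h3 h4).trans ?_
          have b1 : x * u ≤ 2 * |u| := by
            have := le_abs_self u
            have := abs_nonneg u
            nlinarith
          have b2 : x ^ 2 ≤ 2 ^ 2 := pow_le_pow_left₀ (by linarith) h4 2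
          gcongr)
      simp only [a2] at a1
      rw [integral_sub i2 i1, m2, ← a3, ← ofReal_tsum, tsum_mul_left] at a1
      have a4 : ∀ t : ℝ, LD (σ + t * I) * E κ u (σ + t * I) = (Real.exp (σ * u) : ℝ) *
          (LD (σ + t * I) * E κ 0 (σ + t * I) * cexp ((u : ℝ) * I * t)) := by
        intro t
        have : E κ u (σ + t * I) = cexp (σ * u) * E κ 0 (σ + t * I) * cexp ((u : ℝ) * I * t) := by
          unfold E
          rw [← Complex.exp_add, ← Complex.exp_add]
          congr 1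
          push_cast; ring
        rw [this]; push_cast; ring
      simp only [a4] at a1
      rw [integral_const_mul] at a1
      set R := ∫ t : ℝ, LD (σ + t * I) * E κ 0 (σ + t * I) * cexp ((u : ℝ) * I * t)
      have a5 : ((M - √Real.pi / κ * ∑' n, wt κ u n : ℝ) : ℂ) = (Real.exp (σ * u) : ℝ) * R := by
        rw [ofReal_sub, a1]; ring
      have a6 := congrArg norm a5
      rw [norm_mul, norm_real, norm_real, Real.norm_of_nonneg (Real.exp_pos _).le,
        Real.norm_eq_abs] at a6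
      have a7 := le_abs_self (M - √Real.pi / κ * ∑' n, wt κ u n)
      have p1 : 1 ≤ √Real.pi := Real.one_le_sqrt.2 (by linarith [Real.pi_gt_three])
      have a8 : √Real.pi / κ * ∑' n, wt κ u n ≤ √Real.pi * Real.exp u / 2 :=
        (mul_le_mul_of_nonneg_left h2.le (by positivity)).trans_eq (by field_simp)
      have a9 : Real.exp (σ * u) * Real.exp ((1 / 2 - ε) * U) ≤ Real.exp u := by
        rw [← Real.exp_add, Real.exp_le_exp]
        nlinarith
      have a10 := Real.exp_pos u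
      refine le_of_mul_le_mul_left ?_ (Real.exp_pos (σ * u))
      nlinarith)
  rw [mul_pow, ← Real.exp_nat_mul] at key
  have e : ((2 : ℕ) : ℝ) * ((1 / 2 - ε) * U) = (1 - 2 * ε) * U := by push_cast; ring
  rw [e] at key
  have e2 : 16 * 160 * (3 * C) ^ 2 * Lk ^ 2 / κ ^ 2 = 16 * (160 * (3 * C * Lk) ^ 2 / κ ^ 2) := by
    ring
  rw [e2]; linarith

end Pool.Agent.H59.Zt
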