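import Mathlib
import Pool.Agent.H59.Zt3

/-! Dirichlet series of bounded completely multiplicative functions with bounded partial sums. -/

set_option autoImplicit false

namespace Pool.Agent.H59.MT

open Finset Filter Topology Complex

/-- Bounded completely multiplicative functions. -/
structure CM (χ : ℕ → ℂ) : Prop where
  one : χ 1 = 1
  mul : ∀ m n, χ (m * n) = χ m * χ n
  le : ∀ n, ‖χ n‖ ≤ 1

/-- Bounded sums. -/
def PS (χ : ℕ → ℂ) (f : ℝ) : Prop := ∀ N : ℕ, ‖∑ n ∈ Ioc 0 N, χ n‖ ≤ f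

/-- Terms of the continuation. -/
noncomputable def tm (χ : ℕ → ℂ) (n : ℕ) (s : ℂ) : ℂ :=
  (∑ m ∈ Ioc 0 (n + 1), χ m) * (((n : ℂ) + 1) ^ (-s) - ((n : ℂ) + 2) ^ (-s))

/-- The continuation. -/
noncomputable def Lc (χ : ℕ → ℂ) (s : ℂ) : ℂ := ∑' n, tm χ n s

lemma PS.nonneg {χ : ℕ → ℂ} {f : ℝ} (h : PS χ f) : 0 ≤ f := (norm_nonneg _).trans (h 0)

lemma tm_bound {χ : ℕ → ℂ} {f : ℝ} (h : PS χ f) (n : ℕ) (s : ℂ) (hs : 0 < s.re) :
    ‖tm χ n s‖ ≤ f * ‖s‖ * ((n : ℝ) + 1) ^ (-s.re - 1) := by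
  set a : ℝ := n + 1 with ha
  have a0 : 0 < a := by positivity
  have h1 := norm_image_sub_le_of_norm_deriv_le_segment' (f := fun y : ℝ => (y : ℂ) ^ (-s))
      (f' := fun y => -s * (y : ℂ) ^ (-s - 1)) (a := a) (b := a + 1) (C := ‖s‖ * a ^ (-s.re - 1))
      (fun y hy => (Zt.hd (-s) y (a0.trans_le hy.1)).hasDerivWithinAt) (fun y hy => by
        rw [norm_mul, norm_neg, norm_cpow_eq_rpow_re_of_pos (a0.trans_le hy.1)]
        refine mul_le_mul_of_nonneg_left ?_ (norm_nonneg _)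
        simp only [sub_re, neg_re, one_re]
        exact Real.rpow_le_rpow_of_nonpos a0 hy.1 (by linarith)) (a + 1) ⟨by linarith, le_rfl⟩
  have e1 : ((a + 1 : ℝ) : ℂ) = n + 2 := by rw [ha]; push_cast; ring
  have e2 : (a : ℂ) = n + 1 := by rw [ha]; push_cast; ring
  rw [e1, e2, norm_sub_rev, add_sub_cancel_left, mul_one] at h1
  rw [tm, norm_mul, mul_assoc]
  exact mul_le_mul (h _) h1 (norm_nonneg _) h.nonneg

lemma sum_tm (χ : ℕ → ℂ) (N : ℕ) (s : ℂ) : ∑ n ∈ range N, tm χ n s =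
    ∑ n ∈ range N, χ (n + 1) * ((n : ℂ) + 1) ^ (-s) -
      (∑ m ∈ Ioc 0 N, χ m) * ((N : ℂ) + 1) ^ (-s) := by
  induction N with
  | zero => simp
  | succ N ih =>
    rw [sum_range_succ, sum_range_succ, ih, tm, sum_Ioc_succ_top (Nat.zero_le N)]
    push_cast
    rw [show (N : ℂ) + 1 + 1 = N + 2 by ring]; ring

lemma summ_tm {χ : ℕ → ℂ} {f : ℝ} (h : PS χ f) (s : ℂ) (hs : 0 < s.re) :
    Summable (fun n => tm χ n s) :=
  Summable.of_norm_bounded ((Zt.summ s.re hs).mul_left _) (fun n => tm_bound h n s hs)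

lemma Lc_diff {χ : ℕ → ℂ} {f : ℝ} (h : PS χ f) (z : ℂ) (hz0 : 0 < z.re) :
    DifferentiableAt ℂ (Lc χ) z := by
  set W : Set ℂ := {w | z.re / 2 < w.re} ∩ Metric.ball 0 (‖z‖ + 1) with hW
  have hWo : IsOpen W := (isOpen_lt continuous_const continuous_re).inter Metric.isOpen_ball
  have hzW : z ∈ W := ⟨by show z.re / 2 < z.re; linarith, by simp⟩
  have f0 := h.nonneg
  have := differentiableOn_tsum_of_summable_norm (F := tm χ)
    ((Zt.summ (z.re / 2) (by linarith)).mul_left (f * (‖z‖ + 1)))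
    (fun n => by
      have h1 : (n : ℂ) + 1 ≠ 0 := by exact_mod_cast Nat.succ_ne_zero n
      have h2 : (n : ℂ) + 2 ≠ 0 := by exact_mod_cast Nat.succ_ne_zero (n + 1)
      exact (((Differentiable.const_cpow (by fun_prop) (Or.inl h1)).sub
        (Differentiable.const_cpow (by fun_prop) (Or.inl h2))).const_mul _).differentiableOn)
    hWo (fun n w hw => by
      have a1 : z.re / 2 < w.re := hw.1
      have a2 : ‖w‖ < ‖z‖ + 1 := by simpa using hw.2
      refine (tm_bound h n w (by linarith)).trans ?_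
      refine mul_le_mul (mul_le_mul_of_nonneg_left a2.le f0) ?_ (by positivity) (by positivity)
      exact Real.rpow_le_rpow_of_exponent_le (by linarith [Nat.cast_nonneg (α := ℝ) n])
        (by linarith))
  exact this.differentiableAt (hWo.mem_nhds hzW)

lemma nrm1 (N : ℕ) (s : ℂ) : ‖((N : ℂ) + 1) ^ (-s)‖ = ((N : ℝ) + 1) ^ (-s.re) := by
  rw [show (N : ℂ) + 1 = ((N : ℝ) + 1 : ℝ) by push_cast; ring,
    norm_cpow_eq_rpow_re_of_pos (by positivity)]
  simp

lemma CM.summ {χ : ℕ → ℂ} (c : CM χ) {s : ℂ} (hs : 1 < s.re) : LSeriesSummable χ s :=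
  LSeriesSummable_of_bounded_of_one_lt_re (m := 1) (fun n _ => c.le n) hs

lemma Lc_eq {χ : ℕ → ℂ} {f : ℝ} (c : CM χ) (h : PS χ f) (z : ℂ) (hz : 1 < z.re) :
    Lc χ z = LSeries χ z := by
  have a1 := (summ_tm h z (by linarith)).hasSum.tendsto_sum_nat
  simp only [sum_tm] at a1
  have a2 := ((hasSum_nat_add_iff' 1).2 (c.summ hz).hasSum).tendsto_sum_nat
  simp only [range_one, sum_singleton, LSeries.term_zero, sub_zero,
    LSeries.term_of_ne_zero (Nat.succ_ne_zero _), div_eq_mul_inv, ← cpow_neg] at a2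
  push_cast at a2
  have a3 : Tendsto (fun N : ℕ => (∑ m ∈ Ioc 0 N, χ m) * ((N : ℂ) + 1) ^ (-z)) atTop (𝓝 0) := by
    refine squeeze_zero_norm (a := fun N : ℕ => f * ((N : ℝ) + 1) ^ (-z.re)) (fun N => ?_) ?_
    · rw [norm_mul, nrm1]
      exact mul_le_mul_of_nonneg_right (h N) (by positivity)
    · simpa using ((tendsto_rpow_neg_atTop (y := z.re) (by linarith)).comp
        (tendsto_atTop_add_const_right _ 1 tendsto_natCast_atTop_atTop)).const_mul f
  have a4 := tendsto_nhds_unique a1 (a2.sub a3)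
  rw [Lc, a4, sub_zero, LSeries]

lemma tail32 (N : ℕ) (hN : 0 < N) (M : ℕ) :
    ∑ n ∈ range M, (((n + N : ℕ) : ℝ) + 1) ^ (-(1 / 2 : ℝ) - 1) ≤
      2 / √N - 2 / √((M + N : ℕ) : ℝ) := by
  induction M with
  | zero => simp
  | succ M ih =>
    rw [sum_range_succ]
    refine (add_le_add_left ih _).trans ?_
    set x : ℝ := ((M + N : ℕ) : ℝ) with hx
    have x0 : 0 < x := by rw [hx]; positivity
    have e : ((M + 1 + N : ℕ) : ℝ) = x + 1 := by rw [hx]; push_cast; ring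
    rw [e, Real.rpow_sub (by linarith), Real.rpow_neg (by linarith), Real.rpow_one,
      ← Real.sqrt_eq_rpow]
    have a0 : 0 < √x := Real.sqrt_pos.2 x0
    have b0 : 0 < √(x + 1) := Real.sqrt_pos.2 (by linarith)
    have a2 := Real.sq_sqrt x0.le
    have b2 := Real.sq_sqrt (show 0 ≤ x + 1 by linarith)
    have ab : √x ≤ √(x + 1) := Real.sqrt_le_sqrt (by linarith)
    generalize √x = a at *
    generalize √(x + 1) = b at *
    have : b⁻¹ / (x + 1) ≤ 2 / a - 2 / b := by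
      rw [← b2, div_sub_div _ _ a0.ne' b0.ne', div_le_div_iff₀ (by positivity) (by positivity)]
      have e1 : b⁻¹ * (a * b) = a := by field_simp
      have e2 : (b - a) * (b + a) = 1 := by nlinarith
      rw [e1]
      have : a * ((b - a) * (b + a)) ≤ (2 * b - b * 0 - 2 * a) * b ^ 2 := by
        have : 0 ≤ (b - a) * (2 * b ^ 2 - a * (b + a)) :=
          mul_nonneg (by linarith) (by nlinarith)
        nlinarith
      nlinarith
    linarith

lemma Lc_bound {χ : ℕ → ℂ} {f : ℝ} (c : CM χ) (h : PS χ f) (s : ℂ) (a : ℝ) (a0 : 0 ≤ a)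
    (a1 : a ≤ 1 / 2) (hs : 1 - a ≤ s.re) (N : ℕ) (hN : 0 < N) :
    ‖Lc χ s‖ ≤ (N : ℝ) ^ a * (1 + Real.log N) + f * (1 + 2 * ‖s‖) / √N := by
  have f0 := h.nonneg
  have hsum := summ_tm h s (by linarith)
  have N0 : (0 : ℝ) < N := by exact_mod_cast hN
  rw [Lc, ← hsum.sum_add_tsum_nat_add N, sum_tm]
  have b1 : ‖∑ n ∈ range N, χ (n + 1) * ((n : ℂ) + 1) ^ (-s)‖ ≤ (N : ℝ) ^ a * (1 + Real.log N) := by
    have hh := harmonic_le_one_add_log N
    rw [harmonic, Rat.cast_sum] at hh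
    refine (norm_sum_le _ _).trans (le_trans ?_ (mul_le_mul_of_nonneg_left hh (by positivity)))
    rw [mul_sum]
    refine sum_le_sum fun n hn => ?_
    have n1 : (n : ℝ) + 1 ≤ N := by exact_mod_cast mem_range.1 hn
    have n0 : (0 : ℝ) ≤ n := Nat.cast_nonneg n
    rw [norm_mul, nrm1]
    refine (mul_le_of_le_one_left (by positivity) (c.le _)).trans ?_
    refine (Real.rpow_le_rpow_of_exponent_le (by linarith) (show -s.re ≤ a - 1 by linarith)).trans ?_
    rw [Real.rpow_sub (by linarith), Real.rpow_one, div_eq_mul_inv]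
    push_cast
    exact mul_le_mul_of_nonneg_right (Real.rpow_le_rpow (by linarith) n1 a0) (by positivity)
  have b2 : ‖(∑ m ∈ Ioc 0 N, χ m) * ((N : ℂ) + 1) ^ (-s)‖ ≤ f / √N := by
    rw [norm_mul, nrm1, div_eq_mul_inv]
    refine mul_le_mul (h N) ?_ (by positivity) f0
    refine (Real.rpow_le_rpow_of_exponent_le (by linarith)
      (show -s.re ≤ -(1 / 2) by linarith)).trans ?_
    rw [Real.sqrt_eq_rpow, ← Real.rpow_neg N0.le]
    exact Real.rpow_le_rpow_of_nonpos N0 (by linarith) (by norm_num)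
  have b3 : ‖∑' n, tm χ (n + N) s‖ ≤ f * ‖s‖ * (2 / √N) := by
    have hb : ∀ n, ‖tm χ (n + N) s‖ ≤ f * ‖s‖ * (((n + N : ℕ) : ℝ) + 1) ^ (-(1 / 2 : ℝ) - 1) :=
      fun n => (tm_bound h _ s (by linarith)).trans (mul_le_mul_of_nonneg_left
        (Real.rpow_le_rpow_of_exponent_le (by linarith [Nat.cast_nonneg (α := ℝ) (n + N)])
          (by linarith)) (by positivity))
    have sm := ((summable_nat_add_iff N).2 (Zt.summ (1 / 2) (by norm_num))).mul_left (f * ‖s‖)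
    refine (tsum_of_norm_bounded sm.hasSum hb).trans ?_
    rw [tsum_mul_left]
    refine mul_le_mul_of_nonneg_left (Real.tsum_le_of_sum_range_le (fun n => by positivity)
      fun M => (tail32 N hN M).trans ?_) (by positivity)
    have : 0 ≤ 2 / √((M + N : ℕ) : ℝ) := by positivity
    linarith
  refine (norm_add_le _ _).trans ((add_le_add ((norm_sub_le _ _).trans (add_le_add b1 b2))
    b3).trans_eq ?_)
  ring

lemma loc_pos {a : ℝ} (ha₀ : 0 ≤ a) (ha₁ : a < 1) {z w : ℂ} (hz : ‖z‖ ≤ 1) (hw : ‖w‖ ≤ 1) :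
    0 ≤ 2 * (-log (1 - a)).re + 2 * (-log (1 - a * z)).re + 2 * (-log (1 - a * w)).re +
      (-log (1 - a * (z * w))).re + (-log (1 - a * (z * (starRingEnd ℂ) w))).re := by
  have g : ∀ v : ℂ, ‖v‖ ≤ 1 → HasSum (fun n : ℕ => a ^ n * (v ^ n).re / n)
      (-log (1 - a * v)).re := by
    intro v hv
    have : ‖(a : ℂ) * v‖ < 1 := by
      rw [norm_mul, Complex.norm_of_nonneg ha₀]
      exact (mul_le_of_le_one_right ha₀ hv).trans_lt ha₁
    refine (hasSum_re <| hasSum_taylorSeries_neg_log this).congr_fun fun n => ?_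
    simp only [← ofReal_pow, div_natCast_re, mul_pow, re_ofReal_mul]
  have g0 := g 1 (by simp)
  rw [mul_one] at g0
  have zw := mul_le_one₀ hz (norm_nonneg _) hw
  refine (((((g0.mul_left 2).add ((g z hz).mul_left 2)).add ((g w hw).mul_left 2)).add
    (g (z * w) (by rwa [norm_mul]))).add
    (g (z * (starRingEnd ℂ) w) (by rwa [norm_mul, norm_conj]))).nonneg fun n => ?_
  have b : ∀ v : ℂ, ‖v‖ ≤ 1 → 0 ≤ 1 + (v ^ n).re := fun v hv => by
    have h1 : ‖v ^ n‖ ≤ 1 := by rw [norm_pow]; exact pow_le_one₀ (norm_nonneg _) hv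
    have := (abs_le.1 ((abs_re_le_norm (v ^ n)).trans h1)).1
    linarith
  have := mul_nonneg (mul_nonneg (pow_nonneg ha₀ n) (mul_nonneg (b z hz) (b w hw)))
    (show (0 : ℝ) ≤ 2 / n by positivity)
  refine this.trans_eq ?_
  simp only [mul_pow, ← map_pow, mul_re, conj_re, conj_im, one_pow, one_re]
  ring

lemma CM.euler {χ : ℕ → ℂ} (c : CM χ) {s : ℂ} (hs : 1 < s.re) :
    ∃ A : ℝ, HasSum (fun p : Nat.Primes => (-log (1 - χ p * (p : ℂ) ^ (-s))).re) A ∧
      ‖LSeries χ s‖ = Real.exp A := by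
  have s0 : -s ≠ 0 := by
    intro h; rw [neg_eq_zero.1 h] at hs; norm_num at hs
  let F : ℕ →*₀ ℂ :=
    { toFun := fun n => χ n * (n : ℂ) ^ (-s)
      map_zero' := by simp [zero_cpow s0]
      map_one' := by simp [c.one]
      map_mul' := fun m n => by
        rw [c.mul, Nat.cast_mul, natCast_mul_natCast_cpow]; ring }
  have e : ∀ n, LSeries.term χ s n = F n := fun n => by
    rw [LSeries.term_of_ne_zero' (neg_ne_zero.1 s0), div_eq_mul_inv, ← cpow_neg]
    rfl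
  have hsum : Summable (‖F ·‖) := by simpa only [e] using (c.summ hs).norm
  have h1 := EulerProduct.exp_tsum_primes_log_eq_tsum hsum
  have h2 : Summable (fun p : Nat.Primes => -log (1 - F p)) :=
    hsum.of_norm.clog_one_sub.neg.subtype Nat.Prime
  refine ⟨_, hasSum_re h2.hasSum, ?_⟩
  rw [LSeries, tsum_congr e, ← h1, norm_exp]

lemma CM.prod {χ ψ : ℕ → ℂ} (c : CM χ) (d : CM ψ) : CM (fun n => χ n * ψ n) :=
  ⟨by simp [c.one, d.one], fun m n => by rw [c.mul, d.mul]; ring,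
    fun n => by rw [norm_mul]; exact mul_le_one₀ (c.le n) (norm_nonneg _) (d.le n)⟩

lemma CM.conj {χ : ℕ → ℂ} (c : CM χ) : CM (fun n => (starRingEnd ℂ) (χ n)) :=
  ⟨by simp [c.one], fun m n => by rw [c.mul, map_mul], fun n => by rw [norm_conj]; exact c.le n⟩

lemma cm_one : CM (fun _ => 1) := ⟨rfl, by simp, by simp⟩

theorem repel {χ ψ : ℕ → ℂ} (c : CM χ) (d : CM ψ) (σ t r : ℝ) (hσ : 1 < σ) :
    1 ≤ ‖LSeries (fun _ => 1) σ‖ ^ 2 * ‖LSeries χ (σ + t * I)‖ ^ 2 * ‖LSeries ψ (σ + r * I)‖ ^ 2 *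
      ‖LSeries (fun n => χ n * ψ n) (σ + (t + r : ℝ) * I)‖ *
      ‖LSeries (fun n => χ n * (starRingEnd ℂ) (ψ n)) (σ + (t - r : ℝ) * I)‖ := by
  have re : ∀ x : ℝ, 1 < ((σ : ℂ) + x * I).re := fun x => by simpa using hσ
  obtain ⟨A0, a0, e0⟩ := cm_one.euler (s := σ) (by simpa using hσ)
  obtain ⟨A1, a1, e1⟩ := c.euler (re t)
  obtain ⟨A2, a2, e2⟩ := d.euler (re r)
  obtain ⟨A3, a3, e3⟩ := (c.prod d).euler (re (t + r))
  obtain ⟨A4, a4, e4⟩ := (c.prod d.conj).euler (re (t - r))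
  rw [e0, e1, e2, e3, e4, ← Real.exp_nat_mul, ← Real.exp_nat_mul, ← Real.exp_nat_mul,
    ← Real.exp_add, ← Real.exp_add, ← Real.exp_add, ← Real.exp_add, Real.one_le_exp_iff]
  refine (((((a0.mul_left _).add (a1.mul_left _)).add (a2.mul_left _)).add a3).add a4).nonneg
    fun p => ?_
  have p1 : (1 : ℝ) < (p : ℕ) := by exact_mod_cast p.2.one_lt
  have p0 : ((p : ℕ) : ℂ) ≠ 0 := by exact_mod_cast p.2.ne_zero
  set l := Real.log (p : ℕ) with hl
  have l0 : 0 < l := Real.log_pos p1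
  have pw : ∀ x : ℝ, ((p : ℕ) : ℂ) ^ (-((σ : ℂ) + x * I)) =
      (Real.exp (-σ * l) : ℝ) * cexp ((-x * l : ℝ) * I) := fun x => by
    rw [cpow_def_of_ne_zero p0, ← natCast_log, ← hl, ofReal_exp, ← Complex.exp_add]
    congr 1; push_cast; ring
  have pw0 := pw 0
  simp only [ofReal_zero, zero_mul, add_zero, neg_zero, Complex.exp_zero, mul_one] at pw0
  have nn : ∀ (g : ℕ → ℂ) (x : ℝ), CM g → ‖g p * cexp ((x : ℝ) * I)‖ ≤ 1 := fun g x h => by
    rw [norm_mul, norm_exp_ofReal_mul_I, mul_one]; exact h.le _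
  have := loc_pos (a := Real.exp (-σ * l)) (Real.exp_pos _).le
    (Real.exp_lt_one_iff.2 (by nlinarith)) (nn χ (-t * l) c) (nn ψ (-r * l) d)
  have q1 : cexp ((-(t + r) * l : ℝ) * I) = cexp ((-t * l : ℝ) * I) * cexp ((-r * l : ℝ) * I) := by
    rw [← Complex.exp_add]; congr 1; push_cast; ring
  have q2 : cexp ((-(t - r) * l : ℝ) * I) =
      cexp ((-t * l : ℝ) * I) * (starRingEnd ℂ) (cexp ((-r * l : ℝ) * I)) := by
    rw [← exp_conj, ← Complex.exp_add, map_mul, conj_ofReal, conj_I]; congr 1; push_cast; ring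
  rw [pw0, pw, pw, pw, pw, q1, q2]
  rw [map_mul] at this
  refine this.trans_eq ?_
  generalize cexp ((-t * l : ℝ) * I) = u
  generalize cexp ((-r * l : ℝ) * I) = v
  generalize ((Real.exp (-σ * l) : ℝ) : ℂ) = a
  rw [one_mul, mul_left_comm a, mul_left_comm a, mul_mul_mul_comm (χ p) u, mul_left_comm a,
    mul_mul_mul_comm (χ p) u, mul_left_comm a (χ p * (starRingEnd ℂ) (ψ p))]
  simp

lemma zeta_le (η σ : ℝ) (h0 : 0 < η) (h1 : η ≤ 1) (h2 : 1 + η ≤ σ) (h3 : σ ≤ 2) :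
    ‖LSeries (fun _ => 1) σ‖ ≤ 7 / η := by
  have hs : 1 < (σ : ℂ).re := by simp; linarith
  have s1 : (σ : ℂ) ≠ 1 := by rintro h; rw [h] at hs; simp at hs
  have e : LSeries (fun _ => 1) σ = riemannZeta σ := LSeries_one_eq_riemannZeta hs
  have n1 : ‖(σ : ℂ) - 1‖ = σ - 1 := by
    rw [← ofReal_one, ← ofReal_sub, Complex.norm_of_nonneg (by linarith)]
  have n2 : ‖(σ : ℂ)‖ = σ := Complex.norm_of_nonneg (by linarith)
  have hb : ∀ n, ‖Zt.tm n σ‖ ≤ 2 * (σ - 1) * ((n : ℝ) + 1) ^ (-(1 / 2 : ℝ) - 1) := fun n => by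
    refine (Zt.tm_bound n σ (by linarith)).trans ?_
    rw [n1, n2, ofReal_re]
    exact mul_le_mul (by nlinarith) (Real.rpow_le_rpow_of_exponent_le
      (by linarith [Nat.cast_nonneg (α := ℝ) n]) (by linarith)) (by positivity) (by nlinarith)
  have sm := Zt.summ (1 / 2) (by norm_num)
  have b := tsum_of_norm_bounded (sm.mul_left (2 * (σ - 1))).hasSum hb
  have b2 : ∑' n : ℕ, ((n : ℝ) + 1) ^ (-(1 / 2 : ℝ) - 1) ≤ 3 := by
    rw [← sm.sum_add_tsum_nat_add 1]
    have := Real.tsum_le_of_sum_range_le (c := 2)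
      (f := fun n : ℕ => (((n + 1 : ℕ) : ℝ) + 1) ^ (-(1 / 2 : ℝ) - 1)) (fun n => by positivity)
      fun M => (tail32 1 one_pos M).trans (by
        have : 0 ≤ 2 / √((M + 1 : ℕ) : ℝ) := by positivity
        simp only [Nat.cast_one, Real.sqrt_one]; linarith)
    simp only [range_one, sum_singleton, Nat.cast_zero, zero_add, Real.one_rpow]
    linarith
  rw [tsum_mul_left] at b
  rw [e, riemannZeta_eq_inv_sub_mul s1, Zt.zeta1_eq _ (by linarith), norm_mul, norm_inv, n1]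
  have b3 := (norm_add_le (1 : ℂ) (∑' n, Zt.tm n σ)).trans (add_le_add_right
    (b.trans (mul_le_mul_of_nonneg_left b2 (by nlinarith))) _)
  rw [norm_one] at b3
  rw [inv_mul_le_iff₀ (by linarith), ← mul_div_assoc, le_div_iff₀ h0]
  nlinarith [mul_le_mul_of_nonneg_right b3 h0.le]

end Pool.Agent.H59.MT
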