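import Mathlib
import Pool.Agent.H59.MT1

/-! Repulsion of small values and a smoothed explicit formula. -/

set_option autoImplicit false

namespace Pool.Agent.H59.MT

open Finset Filter Topology Complex MeasureTheory ArithmeticFunction

lemma ub {χ : ℕ → ℂ} {L : ℝ} (c : CM χ) (h : PS χ (Real.exp (2 * L))) (hL : 1 ≤ L) (s : ℂ)
    (h1 : 1 - 1 / (30 * L) ≤ s.re) (h2 : ‖s‖ ≤ Real.exp (8 * L)) : ‖Lc χ s‖ ≤ 100 * L := by
  set N := ⌈Real.exp (24 * L)⌉₊ with hN
  have e0 := Real.exp_pos (24 * L)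
  have N1 : Real.exp (24 * L) ≤ N := Nat.le_ceil _
  have N0 : (0 : ℝ) < N := e0.trans_le N1
  have N2 : (N : ℝ) ≤ Real.exp (25 * L) := by
    have a := (Nat.ceil_lt_add_one e0.le).le
    have b := Real.add_one_le_exp L
    have b2 := Real.one_le_exp (show 0 ≤ 24 * L by linarith)
    rw [show 25 * L = 24 * L + L by ring, Real.exp_add]
    nlinarith
  have N3 : Real.log N ≤ 25 * L := (Real.log_le_iff_le_exp N0).2 N2
  have N4 : Real.exp (12 * L) ≤ √N := Real.le_sqrt_of_sq_le (by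
    rw [← Real.exp_nat_mul]; exact le_of_eq_of_le (by congr 1; push_cast; ring) N1)
  have a1 : 1 / (30 * L) ≤ 1 / 2 := one_div_le_one_div_of_le (by norm_num) (by linarith)
  refine (Lc_bound c h s _ (by positivity) a1 h1 N (by exact_mod_cast N0)).trans ?_
  have b1 : (N : ℝ) ^ (1 / (30 * L)) ≤ 3 := by
    rw [Real.rpow_def_of_pos N0]
    refine (Real.exp_le_exp.2 (show _ ≤ 1 from ?_)).trans
      (Real.exp_one_lt_d9.le.trans (by norm_num))
    rw [mul_one_div, div_le_one (by linarith)]; linarith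
  have b2 : Real.exp (2 * L) * (1 + 2 * ‖s‖) / √N ≤ 3 := by
    rw [div_le_iff₀ (Real.sqrt_pos.2 N0)]
    have b2 := Real.one_le_exp (show 0 ≤ 8 * L by linarith)
    have b3 : Real.exp (2 * L) * Real.exp (8 * L) ≤ Real.exp (12 * L) := by
      rw [← Real.exp_add]; exact Real.exp_le_exp.2 (by linarith)
    nlinarith [Real.exp_pos (2 * L)]
  have b3 : 0 ≤ Real.log N := Real.log_natCast_nonneg N
  nlinarith [mul_le_mul b1 (show 1 + Real.log N ≤ 26 * L by linarith) (by linarith) (by norm_num)]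

lemma db {χ : ℕ → ℂ} {L : ℝ} (c : CM χ) (h : PS χ (Real.exp (2 * L))) (hL : 1 ≤ L) (s : ℂ)
    (h1 : 1 - 1 / (60 * L) ≤ s.re) (h2 : ‖s‖ ≤ Real.exp (8 * L) - 1) :
    ‖deriv (Lc χ) s‖ ≤ 6000 * L ^ 2 := by
  have r0 : 0 < 1 / (60 * L) := by positivity
  have r1 : 1 / (60 * L) ≤ 1 / 4 := one_div_le_one_div_of_le (by norm_num) (by linarith)
  have k : ∀ z ∈ Metric.closedBall s (1 / (60 * L)), 1 - 1 / (30 * L) ≤ z.re := fun z hz => by
    have := (abs_le.1 ((abs_re_le_norm (z - s)).trans (mem_closedBall_iff_norm.1 hz))).1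
    have e : 1 / (30 * L) = 2 * (1 / (60 * L)) := by field_simp; norm_num
    rw [sub_re] at this; linarith
  have e : 1 / (30 * L) = 2 * (1 / (60 * L)) := by field_simp; norm_num
  have := Complex.norm_deriv_le_of_forall_mem_sphere_norm_le (f := Lc χ) (c := s) r0 (C := 100 * L)
    (DifferentiableOn.diffContOnCl fun z hz => (Lc_diff h z (by
      have := k z (Metric.closure_ball_subset_closedBall hz); linarith)).differentiableWithinAt)
    fun z hz => ub c h hL z (k z (Metric.sphere_subset_closedBall hz)) (by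
      have := norm_le_norm_add_norm_sub' z s
      rw [mem_sphere_iff_norm.1 hz] at this; linarith)
  refine this.trans_eq ?_
  field_simp; norm_num

/-- Width of the region. -/
noncomputable def eta (L : ℝ) : ℝ := 1 / (70 * (6000 * L ^ 2) ^ 2 * (100 * L))

/-- The continuation takes a small value in the region. -/
def Bad (χ : ℕ → ℂ) (L : ℝ) : Prop := ∃ s : ℂ, 1 - eta L ≤ s.re ∧ s.re ≤ 2 ∧
  |s.im| ≤ Real.exp (7 * L) ∧ ‖Lc χ s‖ < eta L / 7

lemma eta_pos {L : ℝ} (hL : 1 ≤ L) : 0 < eta L := by unfold eta; positivity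

lemma eta_le {L : ℝ} (hL : 1 ≤ L) : eta L ≤ 1 / (60 * L) := by
  refine one_div_le_one_div_of_le (by positivity) ?_
  have : 1 ≤ (6000 * L ^ 2) ^ 2 := one_le_pow₀ (by nlinarith)
  nlinarith

lemma nrm_le {L : ℝ} (hL : 1 ≤ L) (s : ℂ) (h0 : 0 ≤ s.re) (h1 : s.re ≤ 2)
    (h2 : |s.im| ≤ 2 * Real.exp (7 * L)) : ‖s‖ ≤ Real.exp (8 * L) - 1 := by
  have a := norm_le_abs_re_add_abs_im s
  rw [abs_of_nonneg h0] at a
  have b : (2.7 : ℝ) ≤ Real.exp L :=
    (le_trans (by norm_num) Real.exp_one_gt_d9.le).trans (Real.exp_le_exp.2 hL)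
  have b2 := Real.add_one_le_exp (7 * L)
  rw [show 8 * L = 7 * L + L by ring, Real.exp_add]
  nlinarith

lemma low {χ : ℕ → ℂ} (c : CM χ) (η σ t : ℝ) (h0 : 0 < η) (h1 : η ≤ 1) (h2 : 1 + η ≤ σ)
    (h3 : σ ≤ 2) : η / 7 ≤ ‖LSeries χ (σ + t * I)‖ := by
  have d : CM LSeries.delta := ⟨by simp [LSeries.delta], fun m n => by
    simp only [LSeries.delta, mul_eq_one]; by_cases a : m = 1 <;> by_cases b : n = 1 <;> simp [a, b],
    fun n => by simp only [LSeries.delta]; split_ifs <;> simp⟩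
  have e1 : (fun n => χ n * LSeries.delta n) = LSeries.delta := by
    ext n; simp only [LSeries.delta]; split_ifs with a <;> simp [*, c.one]
  have e2 : (fun n => χ n * (starRingEnd ℂ) (LSeries.delta n)) = LSeries.delta := by
    ext n; simp only [LSeries.delta]; split_ifs with a <;> simp [*, c.one]
  have a := repel c d σ t 0 (by linarith)
  simp only [e1, e2, LSeries_delta, Pi.one_apply, norm_one, mul_one, one_pow, ← mul_pow] at a
  have b := (one_le_sq_iff₀ (by positivity)).1 a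
  have z := mul_le_mul_of_nonneg_right (zeta_le η σ h0 h1 h2 h3) (norm_nonneg (LSeries χ (σ + t * I)))
  have := b.trans z
  rw [div_mul_eq_mul_div, le_div_iff₀ h0] at this
  linarith

lemma bad_small {χ : ℕ → ℂ} {L : ℝ} (c : CM χ) (h : PS χ (Real.exp (2 * L))) (hL : 1 ≤ L)
    (b : Bad χ L) : ∃ t : ℝ, |t| ≤ Real.exp (7 * L) ∧
      ‖LSeries χ ((1 + eta L : ℝ) + t * I)‖ ≤ 3 * eta L * (6000 * L ^ 2) := by
  obtain ⟨s, h1, h2, h3, h4⟩ := b
  have e0 := eta_pos hL
  have e1 := eta_le hL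
  have r1 : 1 / (60 * L) ≤ 1 / 4 := one_div_le_one_div_of_le (by norm_num) (by linarith)
  have x0 := Real.exp_pos (7 * L)
  have h5 : s.re < 1 + eta L := by
    by_contra h5
    have := low c (eta L) s.re s.im e0 (by linarith) (not_lt.1 h5) h2
    rw [re_add_im, ← Lc_eq c h s (by linarith [not_lt.1 h5])] at this
    linarith
  refine ⟨s.im, h3, ?_⟩
  set z : ℂ := (1 + eta L : ℝ) + s.im * I with hz
  have zr : z.re = 1 + eta L := by simp [hz]
  have zi : z.im = s.im := by simp [hz]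
  have m := Convex.norm_image_sub_le_of_norm_deriv_le (f := Lc χ) (C := 6000 * L ^ 2)
    (s := {w : ℂ | 1 - 1 / (60 * L) ≤ w.re} ∩ Metric.closedBall 0 (Real.exp (8 * L) - 1))
    (x := s) (y := z) (fun w hw => Lc_diff h w (by have : 1 - 1 / (60 * L) ≤ w.re := hw.1; linarith))
    (fun w hw => db c h hL w hw.1 (by simpa using hw.2))
    ((convex_halfSpace_re_ge _).inter (convex_closedBall _ _))
    ⟨by show _ ≤ s.re; linarith, by
      simpa using nrm_le hL s (by linarith) h2 (by linarith)⟩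
    ⟨by show _ ≤ z.re; linarith, by
      simpa using nrm_le hL z (by linarith) (by linarith) (by rw [zi]; linarith)⟩
  have n : ‖z - s‖ ≤ 2 * eta L := by
    refine (norm_le_abs_re_add_abs_im _).trans ?_
    rw [sub_re, sub_im, zr, zi, sub_self, abs_zero, abs_of_nonneg (by linarith)]; linarith
  rw [← Lc_eq c h z (by linarith)]
  have := norm_le_norm_add_norm_sub' (Lc χ z) (Lc χ s)
  have q : 1 ≤ 6000 * L ^ 2 := by nlinarith
  nlinarith [mul_le_mul_of_nonneg_left n (show 0 ≤ 6000 * L ^ 2 by positivity)]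

theorem page {χ ψ : ℕ → ℂ} {L : ℝ} (c : CM χ) (d : CM ψ) (hL : 1 ≤ L)
    (h1 : PS χ (Real.exp (2 * L))) (h2 : PS ψ (Real.exp (2 * L)))
    (h3 : PS (fun n => χ n * ψ n) (Real.exp (2 * L)))
    (h4 : PS (fun n => χ n * (starRingEnd ℂ) (ψ n)) (Real.exp (2 * L)))
    (b1 : Bad χ L) (b2 : Bad ψ L) : False := by
  obtain ⟨t, t1, t2⟩ := bad_small c h1 hL b1
  obtain ⟨r, r1, r2⟩ := bad_small d h2 hL b2
  have e0 := eta_pos hL
  have e1 := eta_le hL
  have r0 : 1 / (60 * L) ≤ 1 / 4 := one_div_le_one_div_of_le (by norm_num) (by linarith)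
  have a := repel c d (1 + eta L) t r (by linarith)
  have z := zeta_le (eta L) (1 + eta L) e0 (by linarith) le_rfl (by linarith)
  have u : ∀ (g : ℕ → ℂ) (x : ℝ), CM g → PS g (Real.exp (2 * L)) → |x| ≤ 2 * Real.exp (7 * L) →
      ‖LSeries g ((1 + eta L : ℝ) + x * I)‖ ≤ 100 * L := fun g x cg hg hx => by
    have zr : (((1 + eta L : ℝ) : ℂ) + x * I).re = 1 + eta L := by simp
    have : 0 < 1 / (30 * L) := by positivity
    rw [← Lc_eq cg hg _ (by linarith)]
    refine ub cg hg hL _ (by linarith) ?_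
    have := nrm_le hL ((1 + eta L : ℝ) + x * I) (by linarith) (by linarith) (by simpa using hx)
    linarith
  have u1 := u _ (t + r) (c.prod d) h3 ((abs_add_le _ _).trans (by linarith))
  have u2 := u _ (t - r) (c.prod d.conj) h4 ((abs_sub _ _).trans (by linarith))
  have := a.trans (mul_le_mul (mul_le_mul (mul_le_mul (mul_le_mul
    (pow_le_pow_left₀ (norm_nonneg _) z 2) (pow_le_pow_left₀ (norm_nonneg _) t2 2) (by positivity)
    (by positivity)) (pow_le_pow_left₀ (norm_nonneg _) r2 2) (by positivity) (by positivity)) u1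
    (by positivity) (by positivity)) u2 (by positivity) (by positivity))
  refine absurd (this.trans_eq (c := 3969 / 4900) ?_) (by norm_num)
  unfold eta
  field_simp
  norm_num

lemma lam_eq {χ : ℕ → ℂ} {f : ℝ} (c : CM χ) (h : PS χ f) (s : ℂ) (hs : 1 < s.re) :
    LSeriesSummable (fun n => χ n * (Λ n : ℝ)) s ∧
      LSeries (fun n => χ n * (Λ n : ℝ)) s * Lc χ s = -deriv (Lc χ) s := by
  have a : LSeriesSummable (fun n => χ n * (Λ n : ℝ)) s := by
    refine (LSeriesSummable_vonMangoldt hs).norm.of_norm_bounded fun n => LSeries.norm_term_le s ?_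
    rw [norm_mul]
    exact mul_le_of_le_one_left (norm_nonneg _) (c.le n)
  refine ⟨a, ?_⟩
  have b : Lc χ =ᶠ[𝓝 s] LSeries χ := by
    filter_upwards [(isOpen_lt continuous_const continuous_re).mem_nhds
      (show s ∈ {z : ℂ | 1 < z.re} from hs)] with z hz using Lc_eq c h z hz
  have ab : LSeries.abscissaOfAbsConv χ < s.re :=
    (LSeries.abscissaOfAbsConv_le_of_le_const ⟨1, fun n _ => c.le n⟩).trans_lt (by exact_mod_cast hs)
  rw [b.deriv_eq, LSeries_deriv ab, neg_neg, Lc_eq c h s hs, ← LSeries_convolution' a (c.summ hs)]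
  refine LSeries_congr (fun {n} hn => ?_) s
  rw [LSeries.convolution_def, LSeries.logMul, ← natCast_log, ← vonMangoldt_sum, ofReal_sum, sum_mul,
    ← Nat.sum_divisorsAntidiagonal (fun a _ => ((Λ a : ℝ) : ℂ) * χ n)]
  refine sum_congr rfl fun x hx => ?_
  rw [← (Nat.mem_divisorsAntidiagonal.1 hx).1, c.mul]; ring

/-- The sum of the von Mangoldt series at two. -/
noncomputable def CL : ℝ := ∑' n, ‖LSeries.term (fun n => ((Λ n : ℝ) : ℂ)) 2 n‖

lemma CL_summ : Summable fun n => ‖LSeries.term (fun n => ((Λ n : ℝ) : ℂ)) 2 n‖ :=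
  (LSeriesSummable_vonMangoldt (s := 2) (by simp)).norm

lemma term_le {χ : ℕ → ℂ} (c : CM χ) (t : ℝ) (n : ℕ) :
    ‖LSeries.term (fun n => χ n * (Λ n : ℝ)) ((2 : ℝ) + t * I) n‖ ≤
      ‖LSeries.term (fun n => ((Λ n : ℝ) : ℂ)) 2 n‖ := by
  refine (LSeries.norm_term_le _ (g := fun n => ((Λ n : ℝ) : ℂ)) ?_).trans_eq ?_
  · rw [norm_mul]; exact mul_le_of_le_one_left (norm_nonneg _) (c.le n)
  · rw [LSeries.norm_term_eq, LSeries.norm_term_eq]; simp

lemma dsum {χ : ℕ → ℂ} (c : CM χ) (κ u : ℝ) (hκ : 0 < κ) :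
    HasSum (fun n => χ n * ((√Real.pi / κ * Zt.wt κ u n : ℝ) : ℂ))
    (∫ t : ℝ, LSeries (fun n => χ n * (Λ n : ℝ)) ((2 : ℝ) + t * I) * Zt.E κ u ((2 : ℝ) + t * I)) := by
  have e1 : ∀ (n : ℕ) (s : ℂ), LSeries.term (fun n => χ n * (Λ n : ℝ)) s n * Zt.E κ u s =
      χ n * (Λ n : ℝ) * Zt.E κ (u - Real.log n) s := by
    intro n s
    rcases Nat.eq_zero_or_pos n with rfl | hn
    · simp
    have hn0 : (n : ℂ) ≠ 0 := by exact_mod_cast hn.ne'
    rw [LSeries.term_of_ne_zero hn.ne', cpow_def_of_ne_zero hn0, div_mul_eq_mul_div, mul_div_assoc]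
    unfold Zt.E
    rw [← Complex.exp_sub, ← natCast_log]
    congr 2
    push_cast; ring
  have h1 := hasSum_integral_of_summable_integral_norm (μ := volume)
    (F := fun (n : ℕ) (t : ℝ) => LSeries.term (fun n => χ n * (Λ n : ℝ)) ((2 : ℝ) + t * I) n *
      Zt.E κ u ((2 : ℝ) + t * I))
    (fun n => by simp only [e1]; exact (Zt.E_int κ _ 2 hκ).const_mul _) (by
      refine (CL_summ.mul_right (∫ t : ℝ, ‖Zt.E κ u ((2 : ℝ) + t * I)‖)).of_nonneg_of_le
        (fun n => integral_nonneg fun t => norm_nonneg _) fun n => ?_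
      rw [← integral_const_mul]
      refine integral_mono_of_nonneg (Eventually.of_forall fun t => norm_nonneg _)
        ((Zt.E_int κ u 2 hκ).norm.const_mul _) (Eventually.of_forall fun t => ?_)
      simp only [norm_mul]
      exact mul_le_mul_of_nonneg_right (term_le c t n) (norm_nonneg _))
  simp only [tsum_mul_right] at h1
  refine h1.congr_fun (fun n => ?_)
  simp only [e1]
  rw [integral_const_mul, Zt.E_gauss _ _ _ hκ, Zt.wt]
  push_cast; ring

end Pool.Agent.H59.MT
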