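import Mathlib
import Pool.Agent.H59.MT2

/-! Cancellation in twisted von Mangoldt sums. -/

set_option autoImplicit false

namespace Pool.Agent.H59.MT

open Finset Filter Topology Complex MeasureTheory ArithmeticFunction

lemma gint (b c : ℝ) (hb : 0 < b) (hc : 0 ≤ c) (h : 4 ≤ b * c ^ 2) :
    ∫ t : ℝ, Real.exp (-b * t ^ 2) ≤ c := by
  rw [integral_gaussian]
  refine Real.sqrt_le_iff.2 ⟨hc, ?_⟩
  rw [div_le_iff₀ hb]; linarith [Real.pi_le_four]

lemma rect (H : ℂ → ℂ) (G : ℝ → ℂ) (a T K C u κ : ℝ) (a0 : 0 ≤ a) (a2 : a ≤ 2) (T0 : 0 ≤ T)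
    (u0 : 0 ≤ u) (k0 : 0 < κ) (k1 : κ ≤ 1) (K0 : 0 ≤ K) (C0 : 0 ≤ C)
    (hG : ∀ t : ℝ, |t| ≤ T → G t = H ((2 : ℝ) + t * I)) (hi : Integrable G)
    (hd : ∀ s : ℂ, a ≤ s.re → s.re ≤ 2 → |s.im| ≤ T → DifferentiableAt ℂ H s)
    (hH : ∀ x t : ℝ, a ≤ x → x ≤ 2 → |t| ≤ T → ‖H (x + t * I)‖ ≤
      K * (Real.exp (x * u + κ ^ 2 * x ^ 2) * Real.exp (-κ ^ 2 * t ^ 2)))
    (hb : ∀ t : ℝ, ‖G t‖ ≤ C * (Real.exp (2 * u + κ ^ 2 * 2 ^ 2) * Real.exp (-κ ^ 2 * t ^ 2))) :
    ‖∫ t, G t‖ ≤ K * Real.exp (a * u + 4) * (2 / κ) +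
      4 * (K * (Real.exp (2 * u + 4) * Real.exp (-κ ^ 2 * T ^ 2))) +
      C * Real.exp (2 * u + 4) * Real.exp (-(κ ^ 2 / 2) * T ^ 2) * (3 / κ) := by
  have k2 : κ ^ 2 ≤ 1 := pow_le_one₀ k0.le k1
  have ex : ∀ x y : ℝ, 0 ≤ x → x ≤ y → y ≤ 2 →
      Real.exp (x * u + κ ^ 2 * x ^ 2) ≤ Real.exp (y * u + 4) := fun x y x0 xy y2 =>
    Real.exp_le_exp.2 (by nlinarith [mul_le_mul_of_nonneg_right xy u0, sq_nonneg x, sq_nonneg κ])
  have hT : -T ≤ T := by linarith
  have R := integral_boundary_rect_eq_zero_of_differentiableOn H (a + (-T : ℝ) * I)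
    ((2 : ℝ) + T * I) (fun z hz => by
      have h5 := hz.1
      have h6 := hz.2
      simp only [add_re, ofReal_re, mul_re, I_re, mul_zero, ofReal_im, I_im, mul_one, sub_self,
        add_zero, Set.uIcc_of_le a2, Set.mem_preimage, add_im, mul_im, zero_add,
        Set.uIcc_of_le hT] at h5 h6
      exact (hd z h5.1 h5.2 (abs_le.2 h6)).differentiableWithinAt)
  simp only [add_re, ofReal_re, mul_re, I_re, mul_zero, ofReal_im, I_im, mul_one, sub_self,
    add_zero, add_im, mul_im, zero_add, smul_eq_mul] at R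
  have hz : ∀ σ : ℝ, |σ| = T → ‖∫ x in a..2, H (x + σ * I)‖ ≤
      2 * (K * (Real.exp (2 * u + 4) * Real.exp (-κ ^ 2 * T ^ 2))) := fun σ hσ => by
    refine (intervalIntegral.norm_integral_le_of_norm_le_const
      (C := K * (Real.exp (2 * u + 4) * Real.exp (-κ ^ 2 * T ^ 2))) (fun x hx => ?_)).trans ?_
    · rw [Set.uIoc_of_le a2] at hx
      refine (hH x σ hx.1.le hx.2 hσ.le).trans ?_
      rw [← sq_abs σ, hσ]
      exact mul_le_mul_of_nonneg_left (mul_le_mul_of_nonneg_right
        (ex x 2 (by linarith [hx.1]) hx.2 le_rfl) (by positivity)) K0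
    · rw [mul_comm, abs_of_nonneg (by linarith)]
      exact mul_le_mul_of_nonneg_right (by linarith) (by positivity)
  have gi : ∀ b : ℝ, 0 < b → Integrable fun t : ℝ => Real.exp (-b * t ^ 2) :=
    fun b hb => integrable_exp_neg_mul_sq hb
  have h3 : ‖∫ y in (-T)..T, H (a + y * I)‖ ≤ K * Real.exp (a * u + 4) * (2 / κ) := by
    rw [intervalIntegral.integral_of_le hT]
    refine (norm_integral_le_of_norm_le (g := fun t => K * Real.exp (a * u + 4) *
      Real.exp (-κ ^ 2 * t ^ 2)) ((gi _ (by positivity)).const_mul _).integrableOn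
      (ae_restrict_of_forall_mem measurableSet_Ioc fun t ht => ?_)).trans ?_
    · refine (hH a t le_rfl a2 (abs_le.2 ⟨ht.1.le, ht.2⟩)).trans ?_
      rw [mul_assoc]
      exact mul_le_mul_of_nonneg_left (mul_le_mul_of_nonneg_right (ex a a a0 le_rfl a2)
        (by positivity)) K0
    · rw [integral_const_mul]
      refine mul_le_mul_of_nonneg_left ((setIntegral_le_integral (gi _ (by positivity))
        (Eventually.of_forall fun t => by positivity)).trans (gint _ _ (by positivity)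
          (by positivity) (le_of_eq (by field_simp; norm_num)))) (by positivity)
  have h4 : ‖∫ t in (Set.Ioc (-T) T)ᶜ, G t‖ ≤
      C * Real.exp (2 * u + 4) * Real.exp (-(κ ^ 2 / 2) * T ^ 2) * (3 / κ) := by
    refine (norm_integral_le_of_norm_le (g := fun t => C * Real.exp (2 * u + 4) *
      Real.exp (-(κ ^ 2 / 2) * T ^ 2) * Real.exp (-(κ ^ 2 / 2) * t ^ 2))
      ((gi _ (by positivity)).const_mul _).integrableOn
      (ae_restrict_of_forall_mem measurableSet_Ioc.compl fun t ht => ?_)).trans ?_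
    · refine (hb t).trans ?_
      have : T ^ 2 ≤ t ^ 2 := by
        simp only [Set.mem_compl_iff, Set.mem_Ioc, not_and_or, not_lt, not_le] at ht
        rcases ht with h | h <;> nlinarith
      rw [mul_assoc, mul_assoc, ← Real.exp_add, ← Real.exp_add, ← Real.exp_add]
      refine mul_le_mul_of_nonneg_left (Real.exp_le_exp.2 ?_) C0
      nlinarith [mul_le_mul_of_nonneg_left this (sq_nonneg κ)]
    · rw [integral_const_mul]
      refine mul_le_mul_of_nonneg_left ((setIntegral_le_integral (gi _ (by positivity))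
        (Eventually.of_forall fun t => by positivity)).trans (gint _ _ (by positivity)
          (by positivity) (by field_simp; norm_num))) (by positivity)
  have h5 : ∫ t in Set.Ioc (-T) T, G t = ∫ y in (-T)..T, H ((2 : ℝ) + y * I) := by
    rw [intervalIntegral.integral_of_le hT]
    exact setIntegral_congr_fun measurableSet_Ioc fun t ht => hG t (abs_le.2 ⟨ht.1.le, ht.2⟩)
  rw [← integral_add_compl (measurableSet_Ioc (a := -T) (b := T)) hi, h5]
  refine (norm_add_le _ _).trans (add_le_add ?_ h4)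
  have e : I * ∫ y in (-T)..T, H ((2 : ℝ) + y * I) = I * (∫ y in (-T)..T, H (a + y * I)) +
      ((∫ x in a..2, H (x + T * I)) - ∫ x in a..2, H (x + (-T : ℝ) * I)) := by
    linear_combination R
  have := (congrArg norm e).le.trans ((norm_add_le _ _).trans (add_le_add_right
    ((norm_sub_le _ _).trans (add_le_add (hz T (abs_of_nonneg T0))
      (hz (-T) (by rw [abs_neg, abs_of_nonneg T0])))) _))
  simp only [norm_mul, norm_I, one_mul] at this
  linarith

lemma CL_nonneg : 0 ≤ CL := tsum_nonneg fun _ => norm_nonneg _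

lemma K_le {L : ℝ} (hL : 10 ^ 13 ≤ L) : 6000 * L ^ 2 / (eta L / 7) ≤ Real.exp L := by
  have L0 : 0 < L := by linarith
  have := Real.pow_div_factorial_le_exp L L0.le 10
  refine le_trans ?_ this
  have e : 6000 * L ^ 2 / (eta L / 7) = 10584000000000000 * L ^ 7 := by
    unfold eta; field_simp; norm_num
  have h3 : (10 ^ 13) ^ 3 ≤ L ^ 3 := pow_le_pow_left₀ (by norm_num) hL 3
  rw [e, le_div_iff₀ (by positivity), show L ^ 10 = L ^ 3 * L ^ 7 by ring]
  norm_num [Nat.factorial] at h3 ⊢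
  nlinarith [pow_pos L0 7]

lemma smooth {χ : ℕ → ℂ} {L : ℝ} (c : CM χ) (h : PS χ (Real.exp (2 * L))) (hL : 10 ^ 13 ≤ L)
    (hC : CL ≤ L) (b : ¬ Bad χ L) (u : ℝ) (u1 : L ^ 7 ≤ u) (u2 : u ≤ Real.exp L) :
    ‖∑' n, χ n * ((√Real.pi / Real.exp (-6 * L) * Zt.wt (Real.exp (-6 * L)) u n : ℝ) : ℂ)‖ ≤
      Real.exp (u - 5 * L) := by
  set κ := Real.exp (-6 * L) with hκ
  have k0 : 0 < κ := Real.exp_pos _
  have L1 : 1 ≤ L := by linarith
  have k1 : κ ≤ 1 := Real.exp_le_one_iff.2 (by linarith)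
  have e0 := eta_pos L1
  have e1 := eta_le L1
  have r1 : 1 / (60 * L) ≤ 1 / 4 := one_div_le_one_div_of_le (by norm_num) (by linarith)
  have u0 : 0 ≤ u := le_trans (by positivity) u1
  have nb : ∀ s : ℂ, 1 - eta L ≤ s.re → s.re ≤ 2 → |s.im| ≤ Real.exp (7 * L) →
      eta L / 7 ≤ ‖Lc χ s‖ := fun s h1 h2 h3 => not_lt.1 fun h4 => b ⟨s, h1, h2, h3, h4⟩
  have r2 : ∀ t : ℝ, 1 < (((2 : ℝ) : ℂ) + t * I).re := fun t => by simp
  have lb : ∀ t : ℝ, ‖LSeries (fun n => χ n * (Λ n : ℝ)) ((2 : ℝ) + t * I)‖ ≤ CL := fun t =>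
    tsum_of_norm_bounded CL_summ.hasSum (term_le c t)
  rw [(dsum c κ u k0).tsum_eq]
  refine (rect (fun s => -deriv (Lc χ) s / Lc χ s * Zt.E κ u s) _ (1 - eta L) (Real.exp (7 * L))
    (Real.exp L) CL u κ (by linarith) (by linarith) (by positivity) u0 k0 k1 (by positivity)
    CL_nonneg (fun t ht => ?_) ?_ (fun s h1 h2 h3 => ?_) (fun x t h1 h2 h3 => ?_)
    (fun t => ?_)).trans ?_
  · have := nb ((2 : ℝ) + t * I) (by linarith [r2 t]) (by simp) (by simpa using ht)
    rw [← (lam_eq c h _ (r2 t)).2, mul_div_cancel_right₀ _ (norm_pos_iff.1 (by linarith))]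
  · refine (Zt.E_int κ u 2 k0).bdd_mul (c := CL) (Continuous.aestronglyMeasurable ?_)
      (Eventually.of_forall lb)
    exact continuous_tsum (fun n => by
      rcases Nat.eq_zero_or_pos n with rfl | hn
      · simp only [LSeries.term_zero]; fun_prop
      · simp only [LSeries.term_of_ne_zero hn.ne']
        exact continuous_const.div (Continuous.const_cpow (by fun_prop)
          (Or.inl (by exact_mod_cast hn.ne'))) fun t => by simp [hn.ne']) CL_summ
      fun n t => term_le c t n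
  · have an : AnalyticOnNhd ℂ (Lc χ) {z | 0 < z.re} := DifferentiableOn.analyticOnNhd
      (fun z hz => (Lc_diff h z hz).differentiableWithinAt)
      (isOpen_lt continuous_const continuous_re)
    have s0 : 0 < s.re := by linarith
    exact (((an.deriv s s0).differentiableAt.neg).div (Lc_diff h s s0)
      (norm_pos_iff.1 (by linarith [nb s h1 h2 h3]))).mul (Zt.E_cont κ u s)
  · rw [norm_mul, Zt.E_norm, norm_div, norm_neg]
    refine mul_le_mul_of_nonneg_right (le_trans ?_ (K_le hL)) (by positivity)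
    have x0 := Real.exp_pos (7 * L)
    have xr : ((x : ℂ) + t * I).re = x := by simp
    exact div_le_div₀ (by positivity) (db c h L1 _ (by linarith)
      (nrm_le L1 _ (by simp; linarith) (by simpa using h2) (by simp; linarith))) (by positivity)
      (nb _ (by simpa using h1) (by simpa using h2) (by simpa using h3))
  · rw [norm_mul, Zt.E_norm]
    exact mul_le_mul_of_nonneg_right (lb t) (by positivity)
  have eu : 13 * L ≤ eta L * u := by
    refine le_trans ?_ (mul_le_mul_of_nonneg_left u1 e0.le)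
    have e : eta L * L ^ 7 = L ^ 2 / 252000000000 := by unfold eta; field_simp; norm_num
    rw [e, le_div_iff₀ (by norm_num)]; nlinarith
  have kT : κ ^ 2 * Real.exp (7 * L) ^ 2 = Real.exp L ^ 2 := by
    rw [← mul_pow, hκ, ← Real.exp_add]; congr 2; ring
  have ki : 1 / κ = Real.exp (6 * L) := by rw [hκ, one_div, ← Real.exp_neg]; congr 1; ring
  have x1 := Real.add_one_le_exp L
  have big : u + 14 * L ≤ Real.exp L ^ 2 / 2 := by nlinarith
  have x12 : 12 ≤ Real.exp (L - 4) := le_trans (by linarith) (Real.add_one_le_exp _)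
  have p := Real.exp_pos (u - 5 * L)
  have t1 : Real.exp L * Real.exp ((1 - eta L) * u + 4) * (2 / κ) * Real.exp (L - 4) ≤
      2 * Real.exp (u - 5 * L) := by
    rw [div_eq_mul_one_div, ki, mul_left_comm, mul_assoc, ← Real.exp_add, ← Real.exp_add,
      ← Real.exp_add]
    exact mul_le_mul_of_nonneg_left (Real.exp_le_exp.2 (by linarith)) (by norm_num)
  have t2 : Real.exp L * (Real.exp (2 * u + 4) * Real.exp (-κ ^ 2 * Real.exp (7 * L) ^ 2)) *
      Real.exp (L - 4) ≤ Real.exp (u - 5 * L) := by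
    rw [← Real.exp_add, ← Real.exp_add, ← Real.exp_add]
    exact Real.exp_le_exp.2 (by linarith)
  have t3 : Real.exp L * Real.exp (2 * u + 4) * Real.exp (-(κ ^ 2 / 2) * Real.exp (7 * L) ^ 2) *
      (3 / κ) * Real.exp (L - 4) ≤ 3 * Real.exp (u - 5 * L) := by
    rw [div_eq_mul_one_div 3, ki, mul_left_comm, mul_assoc, ← Real.exp_add, ← Real.exp_add,
      ← Real.exp_add, ← Real.exp_add]
    exact mul_le_mul_of_nonneg_left (Real.exp_le_exp.2 (by linarith)) (by norm_num)
  have t4 : CL * Real.exp (2 * u + 4) * Real.exp (-(κ ^ 2 / 2) * Real.exp (7 * L) ^ 2) * (3 / κ) ≤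
      Real.exp L * Real.exp (2 * u + 4) * Real.exp (-(κ ^ 2 / 2) * Real.exp (7 * L) ^ 2) *
        (3 / κ) := by gcongr; linarith
  have q : ∀ A B : ℝ, 0 ≤ A → A * Real.exp (L - 4) ≤ B → 12 * A ≤ B := fun A B h0 h1 => by
    nlinarith
  linarith [q _ _ (by positivity) t1, q _ _ (by positivity) t2, q _ _ (by positivity) t3]

lemma gt (κ l ρ : ℝ) (k0 : 0 < κ) (ρ0 : 0 ≤ ρ) (S : Set ℝ) (hm : MeasurableSet S)
    (hS : ∀ u ∈ S, ρ ≤ |u - l|) :
    ∫ u in S, Real.exp (-(u - l) ^ 2 / (4 * κ ^ 2)) ≤ Real.exp (-ρ ^ 2 / (8 * κ ^ 2)) * (6 * κ) := by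
  have gi : Integrable fun u : ℝ => Real.exp (-(1 / (8 * κ ^ 2)) * (u - l) ^ 2) :=
    (integrable_exp_neg_mul_sq (by positivity)).comp_sub_right l
  have := norm_integral_le_of_norm_le (μ := volume.restrict S)
    (f := fun u => Real.exp (-(u - l) ^ 2 / (4 * κ ^ 2)))
    (gi.const_mul (Real.exp (-ρ ^ 2 / (8 * κ ^ 2)))).integrableOn
    (ae_restrict_of_forall_mem hm fun u hu => by
      rw [Real.norm_of_nonneg (by positivity), ← Real.exp_add]
      refine Real.exp_le_exp.2 ?_
      have : ρ ^ 2 ≤ (u - l) ^ 2 := by rw [← sq_abs (u - l)]; exact pow_le_pow_left₀ ρ0 (hS u hu) 2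
      have := div_le_div_of_nonneg_right this (show 0 ≤ 8 * κ ^ 2 by positivity)
      have e : -(u - l) ^ 2 / (4 * κ ^ 2) = -2 * ((u - l) ^ 2 / (8 * κ ^ 2)) := by ring
      rw [e, neg_div, neg_mul (1 / _), one_div_mul_eq_div]; linarith)
  refine (le_abs_self _).trans (this.trans ?_)
  rw [integral_const_mul]
  refine mul_le_mul_of_nonneg_left ((setIntegral_le_integral gi
    (Eventually.of_forall fun t => by positivity)).trans ?_) (by positivity)
  rw [integral_sub_right_eq_self (fun u : ℝ => Real.exp (-(1 / (8 * κ ^ 2)) * u ^ 2))]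
  exact gint _ _ (by positivity) (by positivity) (by field_simp; norm_num)

lemma wapprox (κ : ℝ) (k0 : 0 < κ) (α β l : ℝ) :
    |(if α ≤ l ∧ l < β then 1 else 0) - √Real.pi / κ / (2 * Real.pi) *
      ∫ u in Set.Ioc α β, Real.exp (-(u - l) ^ 2 / (4 * κ ^ 2))| ≤
      2 * (Real.exp (-(α - l) ^ 2 / (8 * κ ^ 2)) + Real.exp (-(β - l) ^ 2 / (8 * κ ^ 2))) := by
  have p3 := Real.pi_gt_three
  have s2 := Real.mul_self_sqrt Real.pi_pos.le
  have s0 := Real.sqrt_pos.2 Real.pi_pos
  have s1 : 3 / 2 ≤ √Real.pi := Real.le_sqrt_of_sq_le (by linarith)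
  set γ := √Real.pi / κ / (2 * Real.pi) with hγ
  have g0 : 0 < γ := by positivity
  have g1 : γ * (6 * κ) ≤ 2 := by
    rw [hγ, div_mul_eq_mul_div, div_le_iff₀ (by positivity)]
    field_simp; nlinarith
  have key : ∀ S : Set ℝ, MeasurableSet S → (∀ u ∈ S, min |α - l| |β - l| ≤ |u - l|) →
      |γ * ∫ u in S, Real.exp (-(u - l) ^ 2 / (4 * κ ^ 2))| ≤
      2 * (Real.exp (-(α - l) ^ 2 / (8 * κ ^ 2)) + Real.exp (-(β - l) ^ 2 / (8 * κ ^ 2))) := by
    intro S hm hS
    rw [abs_of_nonneg (mul_nonneg g0.le (integral_nonneg fun u => by positivity))]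
    refine (mul_le_mul_of_nonneg_left (gt κ l _ k0 (by positivity) S hm hS) g0.le).trans ?_
    rw [mul_left_comm, mul_comm]
    refine mul_le_mul g1 ?_ (by positivity) (by norm_num)
    rcases min_choice |α - l| |β - l| with e | e <;> rw [e, sq_abs] <;> simp [Real.exp_nonneg]
  have gi : Integrable fun u : ℝ => Real.exp (-(u - l) ^ 2 / (4 * κ ^ 2)) := by
    refine ((integrable_exp_neg_mul_sq (b := 1 / (4 * κ ^ 2))
      (by positivity)).comp_sub_right l).congr (Eventually.of_forall fun u => ?_)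
    simp only; congr 1; ring
  split_ifs with hl
  · have e : γ * ∫ u : ℝ, Real.exp (-(u - l) ^ 2 / (4 * κ ^ 2)) = 1 := by
      rw [integral_sub_right_eq_self (fun u : ℝ => Real.exp (-u ^ 2 / (4 * κ ^ 2)))]
      have : ∀ u : ℝ, -u ^ 2 / (4 * κ ^ 2) = -(1 / (2 * κ) ^ 2) * u ^ 2 := fun u => by ring
      simp only [this]
      rw [integral_gaussian, div_div_eq_mul_div, div_one, Real.sqrt_mul Real.pi_pos.le,
        Real.sqrt_sq (by positivity), hγ]
      field_simp; nlinarith
    rw [← e, ← integral_add_compl (measurableSet_Ioc (a := α) (b := β)) gi, mul_add,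
      add_sub_cancel_left]
    refine key _ measurableSet_Ioc.compl fun u hu => ?_
    simp only [Set.mem_compl_iff, Set.mem_Ioc, not_and_or, not_lt, not_le] at hu
    rcases hu with h | h
    · refine (min_le_left _ _).trans ?_
      rw [abs_of_nonpos (by linarith [hl.1]), abs_of_nonpos (by linarith [hl.1])]; linarith
    · refine (min_le_right _ _).trans ?_
      rw [abs_of_nonneg (by linarith [hl.2]), abs_of_nonneg (by linarith [hl.2])]; linarith
  · rw [zero_sub, abs_neg]
    refine key _ measurableSet_Ioc fun u hu => ?_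
    simp only [not_and_or, not_lt, not_le] at hl
    rcases hl with h | h
    · refine (min_le_left _ _).trans ?_
      rw [abs_of_nonneg (by linarith), abs_of_nonneg (by linarith [hu.1])]; linarith [hu.1]
    · refine (min_le_right _ _).trans ?_
      rw [abs_of_nonpos (by linarith), abs_of_nonpos (by linarith [hu.2])]; linarith [hu.2]

lemma lam_g (x b : ℝ) (x0 : 0 < x) (b0 : 0 < b) (n : ℕ) :
    Λ n * Real.exp (-(Real.log x - Real.log n) ^ 2 / b) ≤
      Real.exp b * x ^ 2 * ‖LSeries.term (fun n => ((Λ n : ℝ) : ℂ)) 2 n‖ := by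
  rcases Nat.eq_zero_or_pos n with rfl | hn
  · simp
  have n0 : (0 : ℝ) < n := by exact_mod_cast hn
  have e : Real.exp b * x ^ 2 / (n : ℝ) ^ 2 = Real.exp (b + 2 * (Real.log x - Real.log n)) := by
    rw [← Real.log_div x0.ne' n0.ne', Real.exp_add, mul_comm 2, ← Real.rpow_def_of_pos
      (by positivity), Real.rpow_two, div_pow, mul_div_assoc]
  rw [LSeries.norm_term_eq, if_neg hn.ne', Complex.norm_of_nonneg vonMangoldt_nonneg,
    show (2 : ℂ).re = 2 by simp, Real.rpow_two, mul_div_assoc', mul_comm _ (Λ n), mul_div_assoc, e]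
  refine mul_le_mul_of_nonneg_left (Real.exp_le_exp.2 ?_) vonMangoldt_nonneg
  rw [div_le_iff₀ b0]
  nlinarith [sq_nonneg (b + (Real.log x - Real.log n))]

lemma gs (x κ d : ℝ) (x1 : 1 ≤ x) (k0 : 0 < κ) (d0 : 0 < d) (d1 : d ≤ 1 / 2) :
    ∃ A : ℝ, HasSum (fun n : ℕ => Λ n * Real.exp (-(Real.log x - Real.log n) ^ 2 / (8 * κ ^ 2))) A ∧
      A ≤ (3 * d * x + 1) * Real.log (2 * x) +
        Real.exp (-d ^ 2 / (16 * κ ^ 2)) * (Real.exp (16 * κ ^ 2) * x ^ 2 * CL) := by
  have x0 : 0 < x := by linarith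
  have sm := (CL_summ.mul_left _).of_nonneg_of_le
    (fun n => mul_nonneg vonMangoldt_nonneg (Real.exp_nonneg _))
    (lam_g x (8 * κ ^ 2) x0 (by positivity))
  refine ⟨_, sm.hasSum, ?_⟩
  set J := Icc ⌈x * (1 - d)⌉₊ ⌊x * (1 + 2 * d)⌋₊ with hJ
  have l0 : 0 ≤ Real.log (2 * x) := Real.log_nonneg (by linarith)
  have h1 : HasSum (fun n => if n ∈ J then Real.log (2 * x) else 0) (J.card * Real.log (2 * x)) := by
    have := hasSum_sum_of_ne_finset_zero (s := J) (L := SummationFilter.unconditional ℕ)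
      (f := fun n => if n ∈ J then Real.log (2 * x) else 0) fun n hn => if_neg hn
    rwa [sum_congr rfl fun n hn => if_pos hn, sum_const, nsmul_eq_mul] at this
  have h2 := (CL_summ.hasSum.mul_left (Real.exp (16 * κ ^ 2) * x ^ 2)).mul_left
    (Real.exp (-d ^ 2 / (16 * κ ^ 2)))
  refine (hasSum_le (fun n => ?_) sm.hasSum (h1.add h2)).trans (add_le_add ?_ le_rfl)
  · rcases Nat.eq_zero_or_pos n with rfl | hn
    · simp only [ArithmeticFunction.map_zero, zero_mul]; positivity
    have n0 : (0 : ℝ) < n := by exact_mod_cast hn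
    by_cases hd : |Real.log x - Real.log n| ≤ d
    · have a1 : x * (1 - d) ≤ n := by
        have : Real.log (x / n) ≤ d := by rw [Real.log_div x0.ne' n0.ne']; exact (abs_le.1 hd).2
        have a := Real.add_one_le_exp (-d)
        have b := (Real.log_le_iff_le_exp (by positivity)).1 this
        rw [div_le_iff₀ n0] at b
        have c : Real.exp d * Real.exp (-d) = 1 := by rw [← Real.exp_add]; simp
        nlinarith [mul_le_mul b a (by linarith) (by positivity)]
      have a2 : (n : ℝ) ≤ x * (1 + 2 * d) := by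
        have : Real.log (n / x) ≤ d := by
          rw [Real.log_div n0.ne' x0.ne']; linarith [(abs_le.1 hd).1]
        have b := (Real.log_le_iff_le_exp (by positivity)).1 this
        rw [div_le_iff₀ x0] at b
        have a := (abs_le.1 (Real.abs_exp_sub_one_le (x := d)
          (by rw [abs_of_pos d0]; linarith))).2
        rw [abs_of_pos d0] at a
        nlinarith
      rw [if_pos (mem_Icc.2 ⟨Nat.ceil_le.2 a1, Nat.le_floor a2⟩)]
      refine le_add_of_le_of_nonneg ?_ (by positivity)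
      refine (mul_le_of_le_one_right vonMangoldt_nonneg (Real.exp_le_one_iff.2
        (div_nonpos_of_nonpos_of_nonneg (by simp [sq_nonneg]) (by positivity)))).trans
        (vonMangoldt_le_log.trans (Real.log_le_log n0 (by nlinarith)))
    · refine le_add_of_nonneg_of_le (by positivity) (le_trans ?_ (mul_le_mul_of_nonneg_left
        (lam_g x (16 * κ ^ 2) x0 (by positivity) n) (by positivity)))
      rw [mul_left_comm, ← Real.exp_add]
      refine mul_le_mul_of_nonneg_left (Real.exp_le_exp.2 ?_) vonMangoldt_nonneg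
      have : d ^ 2 ≤ (Real.log x - Real.log n) ^ 2 := by
        rw [← sq_abs (_ - _)]; exact pow_le_pow_left₀ d0.le (not_le.1 hd).le 2
      have := div_le_div_of_nonneg_right this (show 0 ≤ 16 * κ ^ 2 by positivity)
      have e : -(Real.log x - Real.log n) ^ 2 / (8 * κ ^ 2) =
        -2 * ((Real.log x - Real.log n) ^ 2 / (16 * κ ^ 2)) := by ring
      rw [e, neg_div, neg_div]; linarith
  · refine mul_le_mul_of_nonneg_right ?_ l0
    rw [hJ, Nat.card_Icc]
    have a := Nat.le_ceil (x * (1 - d))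
    have b := Nat.floor_le (show 0 ≤ x * (1 + 2 * d) by positivity)
    rcases le_total ⌈x * (1 - d)⌉₊ (⌊x * (1 + 2 * d)⌋₊ + 1) with h | h
    · rw [Nat.cast_sub h]; push_cast; linarith
    · rw [Nat.sub_eq_zero_of_le h, Nat.cast_zero]; positivity

lemma gs' (x L : ℝ) (hL : 10 ^ 13 ≤ L) (hC : CL ≤ L) (x1 : L ^ 7 ≤ Real.log x) (x0 : 1 ≤ x)
    (x2 : Real.log x ≤ Real.exp L) :
    (3 * Real.exp (-5 * L) * x + 1) * Real.log (2 * x) +
      Real.exp (-Real.exp (-5 * L) ^ 2 / (16 * Real.exp (-6 * L) ^ 2)) *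
        (Real.exp (16 * Real.exp (-6 * L) ^ 2) * x ^ 2 * CL) ≤ 9 * (x * Real.exp (-4 * L)) := by
  have y1 := Real.add_one_le_exp L
  have l1 : Real.log (2 * x) ≤ 2 * Real.exp L := by
    rw [Real.log_mul (by norm_num) (by linarith)]; linarith [Real.log_two_lt_d9]
  have ex : x = Real.exp (Real.log x) := (Real.exp_log (by linarith)).symm
  have l2 : 1 ≤ Real.exp (-5 * L) * x := by
    rw [ex, ← Real.exp_add]
    refine Real.one_le_exp ?_
    have : L ^ 2 ≤ L ^ 7 := pow_le_pow_right₀ (by linarith) (by norm_num)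
    nlinarith
  have e1 : Real.exp (-5 * L) * Real.exp L = Real.exp (-4 * L) := by
    rw [← Real.exp_add]; congr 1; ring
  have e2 : -Real.exp (-5 * L) ^ 2 / (16 * Real.exp (-6 * L) ^ 2) = -(Real.exp L ^ 2 / 16) := by
    rw [show -5 * L = L + -6 * L by ring, Real.exp_add]; field_simp
  have k1 : Real.exp (-6 * L) ^ 2 ≤ 1 :=
    pow_le_one₀ (by positivity) (Real.exp_le_one_iff.2 (by linarith))
  have t1 : (3 * Real.exp (-5 * L) * x + 1) * Real.log (2 * x) ≤ 8 * (x * Real.exp (-4 * L)) := by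
    refine (mul_le_mul (show _ ≤ 4 * (Real.exp (-5 * L) * x) by linarith) l1
      (Real.log_nonneg (by linarith)) (by positivity)).trans_eq ?_
    rw [← e1]; ring
  have t2 : Real.exp (-(Real.exp L ^ 2 / 16)) * (Real.exp (16 * Real.exp (-6 * L) ^ 2) * x ^ 2 * CL)
      ≤ Real.exp (-(Real.exp L ^ 2 / 16)) * (Real.exp 16 * (x * Real.exp (Real.exp L)) *
        Real.exp L) := by
    have : x ≤ Real.exp (Real.exp L) := ex.trans_le (Real.exp_le_exp.2 x2)
    have := CL_nonneg
    rw [sq x]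
    gcongr <;> linarith
  rw [e2]
  refine (add_le_add t1 (t2.trans (b := _) (c := x * Real.exp (-4 * L)) ?_)).trans_eq (by ring)
  rw [mul_left_comm (Real.exp 16), mul_assoc x, mul_left_comm, ← Real.exp_add, ← Real.exp_add,
    ← Real.exp_add]
  exact mul_le_mul_of_nonneg_left (Real.exp_le_exp.2 (by nlinarith)) (by linarith)

theorem sw {χ : ℕ → ℂ} {L : ℝ} (c : CM χ) (h : PS χ (Real.exp (2 * L))) (hL : 10 ^ 13 ≤ L)
    (hC : CL ≤ L) (nb : ¬ Bad χ L) (a b : ℕ) (a0 : 0 < a) (ab : a ≤ b) (h1 : L ^ 7 ≤ Real.log a)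
    (h2 : Real.log b ≤ Real.exp L) (h3 : Real.log b - Real.log a ≤ 1) :
    ‖∑ n ∈ Ico a b, χ n * (Λ n : ℝ)‖ ≤ b * Real.exp (-3 * L) := by
  set κ := Real.exp (-6 * L) with hκ
  have k0 : 0 < κ := Real.exp_pos _
  have a1 : (1 : ℝ) ≤ a := by exact_mod_cast a0
  have ab' : (a : ℝ) ≤ b := by exact_mod_cast ab
  have lab := Real.log_le_log (by linarith) ab'
  set α := Real.log a with hα
  set β := Real.log b with hβ
  have p3 := Real.pi_gt_three
  set W : ℕ → ℝ := fun n => √Real.pi / κ / (2 * Real.pi) *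
      ∫ u in Set.Ioc α β, Real.exp (-(u - Real.log n) ^ 2 / (4 * κ ^ 2)) with hW
  set F : ℕ → ℝ → ℂ := fun n u => χ n * ((√Real.pi / κ * Zt.wt κ u n : ℝ) : ℂ) with hF
  have fb : ∀ n, ∀ u ∈ Set.Ioc α β, ‖F n u‖ ≤ √Real.pi / κ * (Real.exp (4 * κ ^ 2) * (b : ℝ) ^ 2 *
      ‖LSeries.term (fun n => ((Λ n : ℝ) : ℂ)) 2 n‖) := fun n u hu => by
    have := lam_g (Real.exp u) (4 * κ ^ 2) (by positivity) (by positivity) n
    rw [Real.log_exp] at this
    have w0 : 0 ≤ Zt.wt κ u n := mul_nonneg vonMangoldt_nonneg (Real.exp_nonneg _)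
    have eu : Real.exp u ≤ b := (Real.exp_le_exp.2 hu.2).trans_eq (Real.exp_log (by linarith))
    rw [hF, norm_mul, Complex.norm_of_nonneg (by positivity)]
    refine (mul_le_of_le_one_left (by positivity) (c.le n)).trans
      (mul_le_mul_of_nonneg_left (this.trans ?_) (by positivity))
    gcongr
  have fi : ∀ n, IntegrableOn (F n) (Set.Ioc α β) := fun n => by
    refine Continuous.integrableOn_Ioc ?_
    simp only [hF, Zt.wt]; fun_prop
  have s1 := hasSum_integral_of_summable_integral_norm (μ := volume.restrict (Set.Ioc α β)) fi (by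
    refine (((CL_summ.mul_left (Real.exp (4 * κ ^ 2) * (b : ℝ) ^ 2)).mul_left
      (√Real.pi / κ)).mul_right (volume.real (Set.Ioc α β))).of_nonneg_of_le
      (fun n => integral_nonneg fun t => norm_nonneg _) fun n => ?_
    exact (le_abs_self _).trans (norm_setIntegral_le_of_norm_le_const measure_Ioc_lt_top
      fun u hu => (norm_norm (F n u)).trans_le (fb n u hu)))
  have s2 : ‖∫ u in Set.Ioc α β, ∑' n, F n u‖ ≤ b * Real.exp (-5 * L) := by
    refine (norm_setIntegral_le_of_norm_le_const (C := b * Real.exp (-5 * L)) measure_Ioc_lt_top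
      fun u hu => ?_).trans ?_
    · refine (smooth c h hL hC nb u (by linarith [hu.1]) (by linarith [hu.2])).trans ?_
      rw [← Real.exp_log (show (0 : ℝ) < b by linarith), ← Real.exp_add]
      exact Real.exp_le_exp.2 (by linarith [hu.2])
    · rw [Real.volume_real_Ioc_of_le lab]
      exact mul_le_of_le_one_right (by positivity) h3
  have e1 : ∀ n, ∫ u in Set.Ioc α β, F n u = (2 * Real.pi : ℝ) * (χ n * (Λ n : ℝ) * W n) := fun n => by
    simp only [hF, hW, Zt.wt]
    rw [integral_const_mul, integral_complex_ofReal, integral_const_mul, integral_const_mul]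
    have : (Real.pi : ℂ) ≠ 0 := by exact_mod_cast Real.pi_pos.ne'
    push_cast; field_simp
  simp only [e1] at s1
  have s3 := s1.mul_left ((2 * Real.pi : ℝ) : ℂ)⁻¹
  simp only [inv_mul_cancel_left₀ (show ((2 * Real.pi : ℝ) : ℂ) ≠ 0 by
    exact_mod_cast (show 2 * Real.pi ≠ 0 by positivity))] at s3
  have s4 := hasSum_sum_of_ne_finset_zero (s := Ico a b) (L := SummationFilter.unconditional ℕ)
    (f := fun n => χ n * (Λ n : ℝ) * ((if α ≤ Real.log n ∧ Real.log n < β then 1 else 0 : ℝ) : ℂ))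
    fun n hn => by
      rcases Nat.eq_zero_or_pos n with rfl | n0
      · simp
      have n0' : (0 : ℝ) < n := by exact_mod_cast n0
      rw [if_neg, ofReal_zero, mul_zero]
      rw [hα, hβ, Real.log_le_log_iff (by linarith) n0', Real.log_lt_log_iff n0' (by linarith)]
      exact_mod_cast (mem_Ico.not.1 hn)
  rw [sum_congr rfl (g := fun n => χ n * (Λ n : ℝ)) fun n hn => by
    have n1 : (a : ℝ) ≤ n := by exact_mod_cast (mem_Ico.1 hn).1
    rw [if_pos ⟨Real.log_le_log (by linarith) n1, Real.log_lt_log (by linarith)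
      (by exact_mod_cast (mem_Ico.1 hn).2)⟩, ofReal_one, mul_one]] at s4
  have d1 : Real.exp (-5 * L) ≤ 1 / 2 := by
    rw [neg_mul, Real.exp_neg, inv_le_comm₀ (by positivity) (by norm_num)]
    linarith [Real.add_one_le_exp (5 * L)]
  obtain ⟨A, A1, A2⟩ := gs a κ _ a1 k0 (Real.exp_pos (-5 * L)) d1
  obtain ⟨B, B1, B2⟩ := gs b κ _ (by linarith) k0 (Real.exp_pos (-5 * L)) d1
  have A3 := A2.trans (gs' a L hL hC h1 a1 (by linarith))
  have B3 := B2.trans (gs' b L hL hC (by linarith) (by linarith) h2)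
  have s5 := HasSum.norm_le_of_bounded (s4.sub s3) ((A1.add B1).mul_left 2) fun n => by
    rw [← mul_sub, ← ofReal_sub, mul_assoc, ← ofReal_mul, norm_mul, norm_real, ← mul_add,
      mul_left_comm, Real.norm_eq_abs, abs_mul, abs_of_nonneg vonMangoldt_nonneg]
    exact (mul_le_of_le_one_left (mul_nonneg vonMangoldt_nonneg (abs_nonneg _)) (c.le n)).trans
      (mul_le_mul_of_nonneg_left (wapprox κ k0 α β _) vonMangoldt_nonneg)
  have s6 : ‖((2 * Real.pi : ℝ) : ℂ)⁻¹ * ∫ u in Set.Ioc α β, ∑' n, F n u‖ ≤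
      b * Real.exp (-5 * L) := by
    rw [norm_mul, norm_inv, Complex.norm_of_nonneg (by positivity)]
    exact (mul_le_of_le_one_left (norm_nonneg _) (inv_le_one_of_one_le₀ (by linarith))).trans s2
  have s7 := norm_le_norm_add_norm_sub' (∑ n ∈ Ico a b, χ n * (Λ n : ℝ))
    (((2 * Real.pi : ℝ) : ℂ)⁻¹ * ∫ u in Set.Ioc α β, ∑' n, F n u)
  have y0 := Real.exp_pos (-4 * L)
  have y1 : Real.exp (-5 * L) ≤ Real.exp (-4 * L) := Real.exp_le_exp.2 (by linarith)
  have y2 : 37 * Real.exp (-4 * L) ≤ Real.exp (-3 * L) := by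
    rw [show -3 * L = L + -4 * L by ring, Real.exp_add]
    exact mul_le_mul_of_nonneg_right (by linarith [Real.add_one_le_exp L]) y0.le
  have b0 : (0 : ℝ) ≤ b := by linarith
  linarith [mul_le_mul_of_nonneg_left y1 b0, mul_le_mul_of_nonneg_left y2 b0,
    mul_le_mul_of_nonneg_right ab' y0.le]

end Pool.Agent.H59.MT
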