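import Mathlib
import Pool.Agent.H55.PNT

set_option autoImplicit false

namespace Pool.Agent.H59.AH

open Finset Filter Topology

def S (n : ℕ) : Finset ℕ := (range (n + 1)).filter Nat.Prime

lemma S_succ (n : ℕ) : S (n + 1) = if (n + 1).Prime then insert (n + 1) (S n) else S n := by
  rw [S, range_add_one, filter_insert]; rfl

lemma not_mem (n : ℕ) : n + 1 ∉ S n := by simp [S]

lemma mem_S {n p : ℕ} : p ∈ S n ↔ p ≤ n ∧ p.Prime := by simp [S, Nat.lt_succ_iff]

noncomputable def th (n : ℕ) : ℝ := ∑ p ∈ S n, Real.log p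

lemma log_prod (n : ℕ) : Real.log ((∏ p ∈ S n, p : ℕ) : ℝ) = th n := by
  rw [th]; push_cast
  exact Real.log_prod (fun p hp => by exact_mod_cast (mem_S.1 hp).2.ne_zero)

lemma th_eq (n : ℕ) : th n = Chebyshev.theta n := by
  rw [Chebyshev.theta_eq_log_primorial, Nat.floor_natCast, ← log_prod]; rfl

lemma th_lim : Tendsto (fun n : ℕ => th n / n) atTop (𝓝 1) := by
  simp only [th_eq]
  exact Pool.Agent.H55.PNT.theta_pnt.comp tendsto_natCast_atTop_atTop

lemma split (T : Finset ℕ) (y : ℕ) (hy : 1 ≤ y) : (∀ p ∈ T, 1 ≤ p ∧ p ≤ y) →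
    ∃ a b : ℕ, a * b = ∏ p ∈ T, p ∧ a ≤ b ∧ b ≤ y * a := by
  induction T using Finset.induction_on with
  | empty => intro _; exact ⟨1, 1, by simp, le_rfl, by omega⟩
  | insert p T hp ih =>
    intro h
    obtain ⟨a, b, h1, h2, h3⟩ := ih (fun q hq => h q (mem_insert_of_mem hq))
    obtain ⟨h4, h5⟩ := h p (mem_insert_self _ _)
    rw [prod_insert hp, ← h1]
    by_cases hc : a * p ≤ b
    · exact ⟨a * p, b, by ring, hc, by nlinarith [Nat.mul_le_mul_left (y * a) h4]⟩
    · exact ⟨b, a * p, by ring, by omega, by nlinarith [Nat.mul_le_mul h5 h2]⟩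

lemma card_le_th {n : ℕ} (hn : 5 ≤ n) : ((S n).card : ℝ) ≤ th n := by
  have h1 : 3 ^ (S n).card ≤ ∏ p ∈ S n, p := by
    induction n, hn using Nat.le_induction with
    | base => decide
    | succ n hn ih =>
      rw [S_succ]
      split_ifs
      · rw [card_insert_of_notMem (not_mem n), prod_insert (not_mem n), pow_succ, mul_comm]
        exact Nat.mul_le_mul (by omega) ih
      · exact ih
  have h2 : ((3 : ℝ)) ^ (S n).card ≤ ((∏ p ∈ S n, p : ℕ) : ℝ) := by exact_mod_cast h1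
  have h3 := Real.log_le_log (by positivity) h2
  rw [log_prod, Real.log_pow] at h3
  have h4 : 1 ≤ Real.log 3 := by
    rw [Real.le_log_iff_exp_le (by norm_num)]; have := Real.exp_one_lt_d9; linarith
  have : (0 : ℝ) ≤ (S n).card := Nat.cast_nonneg _
  nlinarith

lemma th_le (n : ℕ) : th n ≤ (S n).card * Real.log n := by
  rw [th, ← nsmul_eq_mul]
  apply sum_le_card_nsmul
  intro p hp
  obtain ⟨h1, h2⟩ := mem_S.1 hp
  exact Real.log_le_log (by exact_mod_cast h2.pos) (by exact_mod_cast h1)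

lemma D_step {n : ℕ} (hn : 1 ≤ n) : ((S n).card : ℝ) * Real.log n - th n + (S n).card / (n + 1) ≤
    ((S (n + 1)).card : ℝ) * Real.log ((n + 1 : ℕ) : ℝ) - th (n + 1) := by
  have hn' : (0 : ℝ) < n := by exact_mod_cast hn
  have h1 : Real.log n + 1 / (n + 1) ≤ Real.log ((n + 1 : ℕ) : ℝ) := by
    have := Real.log_le_sub_one_of_pos (x := (n : ℝ) / (n + 1)) (by positivity)
    rw [Real.log_div (by positivity) (by positivity)] at this
    have e : (n : ℝ) / (n + 1) - 1 = -(1 / (n + 1)) := by field_simp; ring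
    push_cast; linarith
  have h2 : ((S (n + 1)).card : ℝ) * Real.log ((n + 1 : ℕ) : ℝ) - th (n + 1) =
      ((S n).card : ℝ) * Real.log ((n + 1 : ℕ) : ℝ) - th n := by
    rw [th, th, S_succ]
    split_ifs
    · rw [card_insert_of_notMem (not_mem n), sum_insert (not_mem n)]; push_cast; ring
    · rfl
  rw [h2]
  have := mul_le_mul_of_nonneg_left h1 (Nat.cast_nonneg (α := ℝ) (S n).card)
  rw [mul_add, mul_one_div] at this
  linarith

lemma D_lower {δ : ℝ} (hδ : δ ≤ 1) {n0 : ℕ} (h0 : 2 ≤ n0)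
    (h : ∀ n, n0 ≤ n → (1 - δ) * (n + 1) ≤ th n) {y : ℕ} (n : ℕ) (hn : n0 ≤ n) : n ≤ y →
    (1 - δ) * (n - n0) / Real.log y ≤ ((S n).card : ℝ) * Real.log n - th n := by
  induction n, hn using Nat.le_induction with
  | base => intro _; have := th_le n0; simp; linarith
  | succ n hn ih =>
    intro hy
    have h1 := ih (by omega)
    have h2 := D_step (n := n) (by omega)
    have hn2 : (2 : ℝ) ≤ n := by exact_mod_cast le_trans h0 hn
    have hy' : (n : ℝ) ≤ y := by exact_mod_cast (by omega : n ≤ y)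
    have hl : 0 < Real.log y := Real.log_pos (by linarith)
    have h3 : (1 - δ) / Real.log y ≤ (S n).card / (n + 1) := by
      rw [div_le_div_iff₀ hl (by positivity)]
      have a1 := h n hn
      have a2 := th_le n
      have a3 := mul_le_mul_of_nonneg_left (Real.log_le_log (by linarith) hy')
        (Nat.cast_nonneg (α := ℝ) (S n).card)
      linarith
    have e : (1 - δ) * (((n + 1 : ℕ) : ℝ) - n0) / Real.log y =
        (1 - δ) * (n - n0) / Real.log y + (1 - δ) / Real.log y := by push_cast; ring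
    rw [e]; linarith

/-- the gain -/
lemma gain {δ : ℝ} (h0 : 0 < δ) (h1 : δ ≤ 1 / 4) : ∀ᶠ y : ℕ in atTop,
    (1 - δ) * y ≤ th y ∧ th y ≤ (1 + δ) * y ∧
    ((1 - δ) ^ 2 + (1 - δ) * Real.log (3 / 2 * (1 - δ))) * (y / Real.log y) ≤
      (S y).card * Real.log (3 / 2 * th y) - th y := by
  have a1 : ∀ᶠ n : ℕ in atTop, 1 - δ / 2 < th n / n := th_lim.eventually (lt_mem_nhds (by linarith))
  have a2 : ∀ᶠ n : ℕ in atTop, th n / n < 1 + δ := th_lim.eventually (gt_mem_nhds (by linarith))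
  have a3 : ∀ᶠ n : ℕ in atTop, (2 / δ : ℝ) ≤ n := tendsto_natCast_atTop_atTop.eventually_ge_atTop _
  have a4 : ∀ᶠ n : ℕ in atTop, 2 ≤ n ∧ (1 - δ) * (n + 1) ≤ th n := by
    filter_upwards [a1, a3, eventually_ge_atTop 2] with n b1 b3 b4
    have : (0 : ℝ) < n := by exact_mod_cast (by omega : 0 < n)
    rw [lt_div_iff₀ this] at b1
    rw [div_le_iff₀ h0] at b3
    exact ⟨b4, by nlinarith⟩
  obtain ⟨n0, hn0⟩ := eventually_atTop.1 a4
  have a5 : ∀ᶠ n : ℕ in atTop, (n0 / δ : ℝ) ≤ n := tendsto_natCast_atTop_atTop.eventually_ge_atTop _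
  filter_upwards [a2, a5, eventually_ge_atTop n0] with y b2 b5 b6
  obtain ⟨c1, c2⟩ := hn0 y b6
  have hy : (2 : ℝ) ≤ y := by exact_mod_cast c1
  have hl : 0 < Real.log y := Real.log_pos (by linarith)
  rw [div_lt_iff₀ (by linarith)] at b2
  rw [div_le_iff₀ h0] at b5
  have c3 : (1 - δ) * y ≤ th y := by nlinarith
  refine ⟨c3, b2.le, ?_⟩
  have d1 := D_lower (by linarith) (hn0 n0 le_rfl).1 (fun n hn => (hn0 n hn).2) y b6 (le_refl y)
  have d2 : (1 - δ) ^ 2 * (y / Real.log y) ≤ (1 - δ) * (y - n0) / Real.log y := by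
    rw [← mul_div_assoc]
    apply div_le_div_of_nonneg_right _ hl.le
    have := mul_le_mul_of_nonneg_left (show (1 - δ) * y ≤ y - n0 by linarith)
      (show 0 ≤ 1 - δ by linarith)
    nlinarith
  have d3 : (1 - δ) * (y / Real.log y) ≤ (S y).card := by
    rw [← mul_div_assoc, div_le_iff₀ hl]; have := th_le y; linarith
  have d4 : 0 ≤ Real.log (3 / 2 * (1 - δ)) := Real.log_nonneg (by linarith)
  have d5 : Real.log (3 / 2 * (1 - δ)) + Real.log y ≤ Real.log (3 / 2 * th y) := by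
    rw [← Real.log_mul (by linarith) (by linarith)]
    apply Real.log_le_log (by nlinarith)
    nlinarith
  have d6 := mul_le_mul_of_nonneg_left d5 (Nat.cast_nonneg (α := ℝ) (S y).card)
  have d7 := mul_le_mul_of_nonneg_right d3 d4
  nlinarith

end Pool.Agent.H59.AH
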