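import Mathlib

/-! A Bonferroni (pure Brun) lower bound sieve for periodic functions with prime periods. -/

set_option autoImplicit false

namespace Pool.Agent.H59.PureSieve

open Finset

/-- Truncated inclusion-exclusion sum. -/
noncomputable def T (Q : Finset ℕ) (t : ℕ → ℝ) (r : ℕ) : ℝ :=
  ∑ S ∈ Q.powerset, if S.card ≤ r then (-1) ^ S.card * ∏ q ∈ S, t q else 0

lemma T_zero (Q : Finset ℕ) (t : ℕ → ℝ) : T Q t 0 = 1 := by
  unfold T
  rw [Finset.sum_eq_single ∅]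
  · simp
  · intro S _ hS
    have : ¬ S.card ≤ 0 := by
      have := Finset.card_pos.2 (Finset.nonempty_iff_ne_empty.2 hS)
      omega
    simp only [this, if_false]
  · intro h; simp at h

lemma T_insert (Q : Finset ℕ) (t : ℕ → ℝ) (r a : ℕ) (ha : a ∉ Q) :
    T (insert a Q) t (r + 1) = T Q t (r + 1) - t a * T Q t r := by
  unfold T
  rw [Finset.sum_powerset_insert ha, Finset.mul_sum, sub_eq_add_neg, ← Finset.sum_neg_distrib]
  congr 1
  refine Finset.sum_congr rfl (fun S hS => ?_)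
  have haS : a ∉ S := fun h => ha (Finset.mem_powerset.1 hS h)
  rw [Finset.card_insert_of_notMem haS, Finset.prod_insert haS]
  by_cases h : S.card ≤ r
  · rw [if_pos h, if_pos (by omega)]; ring
  · rw [if_neg h, if_neg (by omega)]; ring

lemma bonferroni (Q : Finset ℕ) (t : ℕ → ℝ) (h0 : ∀ q ∈ Q, 0 ≤ t q) (h1 : ∀ q ∈ Q, t q ≤ 1)
    (r : ℕ) : 0 ≤ (-1) ^ r * (T Q t r - ∏ q ∈ Q, (1 - t q)) := by
  induction Q using Finset.induction_on generalizing r with
  | empty => simp [T]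
  | insert a Q ha ih =>
    have h0' : ∀ q ∈ Q, 0 ≤ t q := fun q hq => h0 q (Finset.mem_insert_of_mem hq)
    have h1' : ∀ q ∈ Q, t q ≤ 1 := fun q hq => h1 q (Finset.mem_insert_of_mem hq)
    cases r with
    | zero =>
      rw [T_zero, pow_zero, one_mul, sub_nonneg]
      exact Finset.prod_le_one (fun q hq => by linarith [h1 q hq])
        (fun q hq => by linarith [h0 q hq])
    | succ r =>
      rw [T_insert Q t r a ha, Finset.prod_insert ha]
      have a1 := ih h0' h1' (r + 1)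
      have a2 := mul_nonneg (h0 a (Finset.mem_insert_self a Q)) (ih h0' h1' r)
      rw [pow_succ] at a1 ⊢
      nlinarith

lemma T_succ (Q : Finset ℕ) (t : ℕ → ℝ) (r : ℕ) :
    T Q t (r + 1) = T Q t r + (-1) ^ (r + 1) *
      ∑ S ∈ Q.powerset, if S.card = r + 1 then ∏ q ∈ S, t q else 0 := by
  unfold T
  rw [Finset.mul_sum, ← Finset.sum_add_distrib]
  refine Finset.sum_congr rfl (fun S _ => ?_)
  by_cases h : S.card ≤ r
  · rw [if_pos h, if_pos (by omega), if_neg (by omega)]; ring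
  · by_cases h2 : S.card = r + 1
    · rw [if_neg h, if_pos (by omega), if_pos h2, h2]; ring
    · rw [if_neg h, if_neg (by omega), if_neg h2]; ring

lemma level_le (Q : Finset ℕ) (t : ℕ → ℝ) (h0 : ∀ q, 0 ≤ t q) (k : ℕ) :
    (2 : ℝ) ^ k * ∑ S ∈ Q.powerset, (if S.card = k then ∏ q ∈ S, t q else 0) ≤
      Real.exp (2 * ∑ q ∈ Q, t q) := by
  rw [Finset.mul_sum, Finset.mul_sum]
  refine le_trans ?_ (Real.prod_one_add_le_exp_sum Q (f := fun q => 2 * t q)
    (fun q => by linarith [h0 q]))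
  rw [Finset.prod_one_add]
  refine Finset.sum_le_sum (fun S _ => ?_)
  split_ifs with h
  · rw [Finset.prod_mul_distrib, Finset.prod_const, h]
  · rw [mul_zero]
    exact Finset.prod_nonneg (fun q _ => by linarith [h0 q])

lemma prod_lower (Q : Finset ℕ) (t : ℕ → ℝ) (h0 : ∀ q ∈ Q, 0 ≤ t q)
    (h1 : ∀ q ∈ Q, t q ≤ 1 / 2) :
    Real.exp (-(2 * ∑ q ∈ Q, t q)) ≤ ∏ q ∈ Q, (1 - t q) := by
  rw [Finset.mul_sum, ← Finset.sum_neg_distrib, Real.exp_sum]
  refine Finset.prod_le_prod (fun q _ => (Real.exp_pos _).le) (fun q hq => ?_)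
  have a0 := h0 q hq
  have a1 := h1 q hq
  have a2 := Real.add_one_le_exp (2 * t q)
  rw [Real.exp_neg, inv_le_iff_one_le_mul₀ (Real.exp_pos _)]
  nlinarith

lemma main_term (Q : Finset ℕ) (t : ℕ → ℝ) (h0 : ∀ q, 0 ≤ t q) (h1 : ∀ q ∈ Q, t q ≤ 1 / 2)
    (w : ℕ) (hw : ∑ q ∈ Q, t q ≤ w) : 1 / (2 * 9 ^ w) ≤ T Q t (6 * w + 1) := by
  have b := bonferroni Q t (fun q _ => h0 q) (fun q hq => by linarith [h1 q hq]) (6 * w + 1 + 1)
  have hev : (-1 : ℝ) ^ (6 * w + 1 + 1) = 1 := Even.neg_one_pow ⟨3 * w + 1, by ring⟩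
  rw [T_succ, hev, one_mul, one_mul] at b
  have l := level_le Q t h0 (6 * w + 1 + 1)
  have p := prod_lower Q t (fun q _ => h0 q) h1
  set E := ∑ S ∈ Q.powerset, (if S.card = 6 * w + 1 + 1 then ∏ q ∈ S, t q else 0) with hE
  have e1 : Real.exp (2 * ∑ q ∈ Q, t q) ≤ Real.exp 1 ^ (2 * w) := by
    rw [← Real.exp_nat_mul, mul_one]
    exact Real.exp_le_exp.2 (by push_cast; linarith)
  have e2 : (Real.exp 1 ^ (2 * w))⁻¹ ≤ Real.exp (-(2 * ∑ q ∈ Q, t q)) := by
    rw [Real.exp_neg]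
    exact inv_anti₀ (Real.exp_pos _) e1
  have hx := Real.exp_one_lt_d9
  have hx0 := Real.exp_pos 1
  have e3 : Real.exp 1 ^ (2 * w) ≤ 8 ^ w := by
    rw [pow_mul]
    exact pow_le_pow_left₀ (by positivity) (by nlinarith) w
  have e4 : (8 : ℝ) ^ w ≤ 9 ^ w := pow_le_pow_left₀ (by norm_num) (by norm_num) w
  have h8 : (0 : ℝ) < 8 ^ w := by positivity
  have e5 : (2 : ℝ) ^ (6 * w + 1 + 1) = 4 * (8 ^ w * 8 ^ w) := by
    rw [← mul_pow, pow_succ, pow_succ, pow_mul]; norm_num; ring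
  have e6 : E ≤ 1 / (4 * 8 ^ w) := by
    rw [le_div_iff₀ (by positivity)]
    rw [e5] at l
    have : (E * (4 * 8 ^ w)) * 8 ^ w ≤ 1 * 8 ^ w := by nlinarith
    exact le_of_mul_le_mul_right this h8
  have e7 : 1 / (8 : ℝ) ^ w ≤ (Real.exp 1 ^ (2 * w))⁻¹ := by
    rw [one_div]
    exact inv_anti₀ (by positivity) e3
  have e8 : 1 / (2 * (9 : ℝ) ^ w) ≤ 1 / (2 * 8 ^ w) :=
    one_div_le_one_div_of_le (by positivity) (by linarith)
  have e9 : 1 / (2 * (8 : ℝ) ^ w) ≤ 1 / 8 ^ w - 1 / (4 * 8 ^ w) := by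
    have : 1 / (8 : ℝ) ^ w - 1 / (4 * 8 ^ w) - 1 / (2 * 8 ^ w) = 1 / (4 * 8 ^ w) := by
      field_simp; ring
    have h2 : 0 ≤ 1 / (4 * (8 : ℝ) ^ w) := by positivity
    linarith
  linarith

lemma periodic_block (f : ℕ → ℝ) (D : ℕ) (hf : Function.Periodic f D) (u v : ℕ) :
    ∑ x ∈ range (u * D + v), f x = u * ∑ x ∈ range D, f x + ∑ x ∈ range v, f x := by
  induction u with
  | zero => simp
  | succ u ih =>
    have e : (u + 1) * D + v = D + (u * D + v) := by ring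
    rw [e, Finset.sum_range_add]
    have : ∀ x, f (D + x) = f x := fun x => by rw [add_comm]; exact hf x
    simp_rw [this]
    rw [ih]; push_cast; ring

lemma periodic_count (f : ℕ → ℝ) (D : ℕ) (hD : 0 < D) (hf : Function.Periodic f D)
    (h0 : ∀ x, 0 ≤ f x) (J : ℕ) :
    |∑ x ∈ range J, f x - J * ((∑ x ∈ range D, f x) / D)| ≤ ∑ x ∈ range D, f x := by
  set c := ∑ x ∈ range D, f x with hc
  have hc0 : 0 ≤ c := Finset.sum_nonneg (fun x _ => h0 x)
  have hJ : J = J / D * D + J % D := (Nat.div_add_mod' J D).symm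
  have hv : J % D < D := Nat.mod_lt _ hD
  have h1 := periodic_block f D hf (J / D) (J % D)
  rw [← hJ] at h1
  have h2 : 0 ≤ ∑ x ∈ range (J % D), f x := Finset.sum_nonneg (fun x _ => h0 x)
  have h3 : ∑ x ∈ range (J % D), f x ≤ c :=
    Finset.sum_le_sum_of_subset_of_nonneg (Finset.range_subset_range.2 hv.le) (fun x _ _ => h0 x)
  have hDr : (0 : ℝ) < D := by exact_mod_cast hD
  have h4 : (J : ℝ) * (c / D) = ((J / D : ℕ) : ℝ) * c + ((J % D : ℕ) : ℝ) / D * c := by
    have : (J : ℝ) = ((J / D : ℕ) : ℝ) * D + ((J % D : ℕ) : ℝ) := by exact_mod_cast hJ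
    rw [this]; field_simp
  have h5 : 0 ≤ ((J % D : ℕ) : ℝ) / D * c := by positivity
  have h6 : ((J % D : ℕ) : ℝ) / D * c ≤ c := by
    refine mul_le_of_le_one_left hc0 ?_
    rw [div_le_one hDr]; exact_mod_cast hv.le
  rw [h1, h4, abs_le]
  constructor <;> linarith

lemma sum_affine (g : ℕ → ℝ) (a b u : ℕ) (hb : 0 < b) (hab : Nat.Coprime b a)
    (hg : Function.Periodic g b) : ∑ v ∈ range b, g (v * a + u) = ∑ v ∈ range b, g v := by
  have hinj : Set.InjOn (fun v => (v * a + u) % b) (range b : Finset ℕ) := by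
    intro v hv v' hv' h
    have h1 : v * a + u ≡ v' * a + u [MOD b] := h
    have h2 : v * a ≡ v' * a [MOD b] := Nat.ModEq.add_right_cancel' u h1
    have h3 : v ≡ v' [MOD b] := Nat.ModEq.cancel_right_of_coprime hab h2
    exact Nat.ModEq.eq_of_lt_of_lt h3 (by simpa using hv) (by simpa using hv')
  have himg : (range b).image (fun v => (v * a + u) % b) = range b := by
    apply Finset.eq_of_subset_of_card_le
    · intro y hy
      obtain ⟨v, _, rfl⟩ := Finset.mem_image.1 hy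
      exact Finset.mem_range.2 (Nat.mod_lt _ hb)
    · rw [Finset.card_image_of_injOn hinj]
  conv_rhs => rw [← himg, Finset.sum_image hinj]
  exact Finset.sum_congr rfl (fun v _ => (hg.map_mod_nat _).symm)

lemma sum_range_mul' (f : ℕ → ℝ) (a b : ℕ) :
    ∑ x ∈ range (b * a), f x = ∑ v ∈ range b, ∑ u ∈ range a, f (v * a + u) := by
  induction b with
  | zero => simp
  | succ b ih => rw [Nat.succ_mul, Finset.sum_range_add, ih, Finset.sum_range_succ]

lemma sum_crt (f g : ℕ → ℝ) (a b : ℕ) (hb : 0 < b) (hab : Nat.Coprime b a)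
    (hf : Function.Periodic f a) (hg : Function.Periodic g b) :
    ∑ x ∈ range (b * a), f x * g x = (∑ x ∈ range a, f x) * ∑ x ∈ range b, g x := by
  rw [sum_range_mul', Finset.sum_comm, Finset.sum_mul]
  refine Finset.sum_congr rfl (fun u _ => ?_)
  rw [← sum_affine g a b u hb hab hg, Finset.mul_sum]
  refine Finset.sum_congr rfl (fun v _ => ?_)
  congr 1
  rw [add_comm]
  exact hf.nat_mul v u

lemma prod_periodic (S : Finset ℕ) (f : ℕ → ℕ → ℝ)
    (hper : ∀ q ∈ S, Function.Periodic (f q) q) :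
    Function.Periodic (fun x => ∏ q ∈ S, f q x) (∏ q ∈ S, q) := by
  intro x
  refine Finset.prod_congr rfl (fun q hq => ?_)
  obtain ⟨c, hc⟩ := Finset.dvd_prod_of_mem (fun q => q) hq
  rw [hc, mul_comm]
  exact (hper q hq).nat_mul c x

lemma sum_prod_crt (S : Finset ℕ) (hS : ∀ q ∈ S, q.Prime) (f : ℕ → ℕ → ℝ)
    (hper : ∀ q ∈ S, Function.Periodic (f q) q) :
    ∑ x ∈ range (∏ q ∈ S, q), ∏ q ∈ S, f q x = ∏ q ∈ S, ∑ x ∈ range q, f q x := by
  induction S using Finset.induction_on with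
  | empty => simp
  | insert a S ha ih =>
    have hS' : ∀ q ∈ S, q.Prime := fun q hq => hS q (Finset.mem_insert_of_mem hq)
    have hper' : ∀ q ∈ S, Function.Periodic (f q) q :=
      fun q hq => hper q (Finset.mem_insert_of_mem hq)
    have hap := hS a (Finset.mem_insert_self a S)
    simp_rw [Finset.prod_insert ha]
    rw [← ih hS' hper', mul_comm a]
    refine sum_crt (f a) (fun x => ∏ q ∈ S, f q x) a _
      (Finset.prod_pos (fun q hq => (hS' q hq).pos)) ?_ (hper a (Finset.mem_insert_self a S))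
      (prod_periodic S f hper')
    refine Nat.Coprime.prod_left (fun q hq => ?_)
    exact (Nat.coprime_primes (hS' q hq) hap).2 (fun h => ha (h ▸ hq))

/-- The pure sieve. -/
theorem sieve (Q : Finset ℕ) (hQ : ∀ q ∈ Q, q.Prime) (f : ℕ → ℕ → ℝ)
    (hf0 : ∀ q x, 0 ≤ f q x) (hf1 : ∀ q x, f q x ≤ 1)
    (hper : ∀ q ∈ Q, Function.Periodic (f q) q)
    (hhalf : ∀ q ∈ Q, (∑ x ∈ range q, f q x) / q ≤ 1 / 2) (w : ℕ)
    (hw : ∑ q ∈ Q, (∑ x ∈ range q, f q x) / q ≤ w) (N : ℝ) (hN : 1 ≤ N)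
    (hc : ∑ q ∈ Q, ∑ x ∈ range q, f q x ≤ N) (J : ℕ)
    (hJ : 6 * 9 ^ w * N ^ (6 * w + 1) < J) : ∃ x < J, ∀ q ∈ Q, f q x ≠ 1 := by
  by_contra hcon
  push Not at hcon
  set c : ℕ → ℝ := fun q => ∑ x ∈ range q, f q x with hcdef
  have hc0 : ∀ q, 0 ≤ c q := fun q => Finset.sum_nonneg (fun x _ => hf0 q x)
  set r := 6 * w + 1 with hr
  have hodd : (-1 : ℝ) ^ r = -1 := Odd.neg_one_pow ⟨3 * w, by rw [hr]; ring⟩
  have h1 : ∑ x ∈ range J, T Q (fun q => f q x) r ≤ 0 := by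
    refine Finset.sum_nonpos (fun x hx => ?_)
    obtain ⟨q, hq, hq1⟩ := hcon x (Finset.mem_range.1 hx)
    have b := bonferroni Q (fun q => f q x) (fun q _ => hf0 q x) (fun q _ => hf1 q x) r
    rw [hodd, Finset.prod_eq_zero hq (by rw [hq1]; ring)] at b
    linarith
  have h2 := main_term Q (fun q => c q / q) (fun q => div_nonneg (hc0 q) (Nat.cast_nonneg q))
    hhalf w hw
  have h3 : (J : ℝ) * T Q (fun q => c q / q) r - N ^ r * ∑ S ∈ Q.powerset, ∏ q ∈ S, c q / N ≤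
      ∑ x ∈ range J, T Q (fun q => f q x) r := by
    unfold T
    rw [Finset.sum_comm, Finset.mul_sum, Finset.mul_sum, ← Finset.sum_sub_distrib]
    refine Finset.sum_le_sum (fun S hS => ?_)
    have hSQ := Finset.mem_powerset.1 hS
    have hp0 : 0 ≤ ∏ q ∈ S, c q / N :=
      Finset.prod_nonneg (fun q _ => div_nonneg (hc0 q) (by linarith))
    split_ifs with h
    · have k1 := periodic_count (fun x => ∏ q ∈ S, f q x) (∏ q ∈ S, q)
        (Finset.prod_pos (fun q hq => (hQ q (hSQ hq)).pos))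
        (prod_periodic S f (fun q hq => hper q (hSQ hq)))
        (fun x => Finset.prod_nonneg (fun q _ => hf0 q x)) J
      rw [sum_prod_crt S (fun q hq => hQ q (hSQ hq)) f (fun q hq => hper q (hSQ hq))] at k1
      have k2 : ∏ q ∈ S, c q / (q : ℝ) = (∏ q ∈ S, c q) / ((∏ q ∈ S, q : ℕ) : ℝ) := by
        rw [Finset.prod_div_distrib]; push_cast; rfl
      have k3 : ∏ q ∈ S, c q ≤ N ^ r * ∏ q ∈ S, c q / N := by
        have : ∏ q ∈ S, c q = N ^ S.card * ∏ q ∈ S, c q / N := by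
          rw [Finset.prod_div_distrib, Finset.prod_const]
          field_simp
        rw [this]
        exact mul_le_mul_of_nonneg_right (pow_le_pow_right₀ hN h) hp0
      rw [← Finset.mul_sum, k2]
      have k4 := abs_le.1 k1
      rcases neg_one_pow_eq_or ℝ S.card with hs | hs
      · rw [hs]; linarith [k4.1]
      · rw [hs]; linarith [k4.2]
    · have : 0 ≤ N ^ r * ∏ q ∈ S, c q / N := mul_nonneg (by positivity) hp0
      simp only [Finset.sum_const_zero, mul_zero]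
      linarith
  have h4 : ∑ S ∈ Q.powerset, ∏ q ∈ S, c q / N ≤ 3 := by
    rw [← Finset.prod_one_add]
    refine (Real.prod_one_add_le_exp_sum Q (f := fun q => c q / N)
      (fun q => div_nonneg (hc0 q) (by linarith))).trans ?_
    refine le_trans (Real.exp_le_exp.2 ?_) Real.exp_one_lt_three.le
    rw [← Finset.sum_div, div_le_one (by linarith)]
    exact hc
  have h5 : (J : ℝ) * (1 / (2 * 9 ^ w)) ≤ J * T Q (fun q => c q / q) r :=
    mul_le_mul_of_nonneg_left h2 (Nat.cast_nonneg J)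
  have h6 : N ^ r * ∑ S ∈ Q.powerset, ∏ q ∈ S, c q / N ≤ N ^ r * 3 :=
    mul_le_mul_of_nonneg_left h4 (by positivity)
  have h7 : N ^ r * 3 < (J : ℝ) * (1 / (2 * 9 ^ w)) := by
    rw [mul_one_div, lt_div_iff₀ (by positivity)]
    linarith
  linarith

end Pool.Agent.H59.PureSieve
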