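import Mathlib
import Pool.Agent.H59.PureSieve

/-! Mertens type bounds and the fundamental lemma of sieve theory (Brun-Hooley form). -/

set_option autoImplicit false

namespace Pool.Agent.H59.BH

open Finset Filter Pool.Agent.H59.PureSieve

lemma sum_log_le (Q : Finset ℕ) (hQ : ∀ q ∈ Q, q.Prime) (n : ℕ) (hn : n ≠ 0) :
    ∑ q ∈ Q, (if q ∣ n then Real.log q else 0) ≤ Real.log n := by
  rw [← Finset.sum_filter, ← Real.log_prod (fun q hq => by
    exact_mod_cast (hQ q (Finset.mem_filter.1 hq).1).ne_zero), ← Nat.cast_prod]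
  have h := Finset.prod_primes_dvd (s := Q.filter (fun q => q ∣ n)) n
    (fun q hq => (hQ q (Finset.mem_filter.1 hq).1).prime) (fun q hq => (Finset.mem_filter.1 hq).2)
  have h0 : 0 < ∏ q ∈ Q.filter (fun q => q ∣ n), q :=
    Finset.prod_pos (fun q hq => (hQ q (Finset.mem_filter.1 hq).1).pos)
  exact Real.log_le_log (by exact_mod_cast h0)
    (by exact_mod_cast Nat.le_of_dvd (Nat.pos_of_ne_zero hn) h)

lemma theta_le (N : ℕ) : ∑ p ∈ N.primesLE, Real.log p ≤ 2 * N := by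
  rw [← Chebyshev.theta_eq_sum_primesLE_log]
  have h1 := Chebyshev.theta_le_log4_mul_x (Nat.cast_nonneg N : (0 : ℝ) ≤ N)
  have h2 : Real.log 4 ≤ 2 := by
    have : Real.log 4 = 2 * Real.log 2 := by
      rw [show (4 : ℝ) = 2 ^ 2 by norm_num, Real.log_pow]; norm_num
    have := Real.log_two_lt_d9
    linarith
  have h3 : (0 : ℝ) ≤ N := Nat.cast_nonneg N
  nlinarith

lemma mertens (N : ℕ) (hN : 1 ≤ N) : ∑ p ∈ N.primesLE, Real.log p / p ≤ Real.log N + 2 := by
  have hN0 : (0 : ℝ) < N := by exact_mod_cast hN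
  have hQ : ∀ q ∈ N.primesLE, q.Prime := fun q hq => (Nat.mem_primesLE.1 hq).2
  have h1 : ∑ n ∈ Ioc 0 N, ∑ q ∈ N.primesLE, (if q ∣ n then Real.log q else 0) ≤
      N * Real.log N := by
    have := Finset.sum_le_card_nsmul (Ioc 0 N)
      (fun n => ∑ q ∈ N.primesLE, (if q ∣ n then Real.log q else 0)) (Real.log N) (fun n hn => by
        obtain ⟨h1, h2⟩ := mem_Ioc.1 hn
        exact (sum_log_le _ hQ n (by omega)).trans
          (Real.log_le_log (by exact_mod_cast h1) (by exact_mod_cast h2)))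
    simpa using this
  rw [Finset.sum_comm] at h1
  have h2 : ∑ q ∈ N.primesLE, (N * (Real.log q / q) - Real.log q) ≤
      ∑ q ∈ N.primesLE, ∑ n ∈ Ioc 0 N, (if q ∣ n then Real.log q else 0) := by
    refine Finset.sum_le_sum (fun q hq => ?_)
    rw [← Finset.sum_filter, Finset.sum_const, Nat.Ioc_filter_dvd_card_eq_div, nsmul_eq_mul]
    have hq0 : (0 : ℝ) < q := by exact_mod_cast (hQ q hq).pos
    have a1 : (N : ℝ) / q - 1 ≤ ((N / q : ℕ) : ℝ) := by
      have := Nat.lt_mul_div_succ N (hQ q hq).pos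
      have a2 : (N : ℝ) < q * (((N / q : ℕ) : ℝ) + 1) := by exact_mod_cast this
      rw [sub_le_iff_le_add, div_le_iff₀ hq0]; linarith
    have a3 := mul_le_mul_of_nonneg_right a1 (Real.log_natCast_nonneg q)
    refine le_trans (le_of_eq ?_) a3
    ring
  rw [Finset.sum_sub_distrib, ← Finset.mul_sum] at h2
  have h3 := theta_le N
  have : N * ∑ p ∈ N.primesLE, Real.log p / p ≤ N * (Real.log N + 2) := by linarith
  exact le_of_mul_le_mul_left this hN0

/-- Indicator of the integers free of the primes in `Q`. -/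
noncomputable def ind (Q : Finset ℕ) (n : ℕ) : ℝ := ∏ q ∈ Q, (1 - if q ∣ n then (1 : ℝ) else 0)

/-- The density of the integers free of the primes in `Q`. -/
noncomputable def V (Q : Finset ℕ) : ℝ := ∏ q ∈ Q, (1 - 1 / (q : ℝ))

lemma ind_eq_one {Q : Finset ℕ} {n : ℕ} (h : ∀ q ∈ Q, ¬ q ∣ n) : ind Q n = 1 :=
  Finset.prod_eq_one (fun q hq => by rw [if_neg (h q hq)]; ring)

lemma ind_eq_zero {Q : Finset ℕ} {n q : ℕ} (hq : q ∈ Q) (h : q ∣ n) : ind Q n = 0 :=
  Finset.prod_eq_zero hq (by rw [if_pos h]; ring)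

lemma ind_nonneg (Q : Finset ℕ) (n : ℕ) : 0 ≤ ind Q n :=
  Finset.prod_nonneg (fun q _ => by split_ifs <;> norm_num)

lemma inv_le_half {q : ℕ} (hq : q.Prime) : 1 / (q : ℝ) ≤ 1 / 2 :=
  one_div_le_one_div_of_le (by norm_num) (by exact_mod_cast hq.two_le)

lemma V_ge (Q : Finset ℕ) (hQ : ∀ q ∈ Q, q.Prime) :
    Real.exp (-(2 * ∑ q ∈ Q, 1 / (q : ℝ))) ≤ V Q :=
  prod_lower Q (fun q => 1 / (q : ℝ)) (fun q _ => by positivity)
    (fun q hq => inv_le_half (hQ q hq))

lemma V_pos (Q : Finset ℕ) (hQ : ∀ q ∈ Q, q.Prime) : 0 < V Q :=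
  lt_of_lt_of_le (Real.exp_pos _) (V_ge Q hQ)

lemma V_le_one (Q : Finset ℕ) (hQ : ∀ q ∈ Q, q.Prime) : V Q ≤ 1 :=
  Finset.prod_le_one (fun q hq => by linarith [inv_le_half (hQ q hq)])
    (fun q _ => by have : (0 : ℝ) ≤ 1 / q := by positivity
                   linarith)

lemma V_harm (Q : Finset ℕ) (hQ : ∀ q ∈ Q, q.Prime) (N : ℕ) :
    V Q * ∑ n ∈ Icc 1 N, 1 / (n : ℝ) ≤ ∑ n ∈ Icc 1 N, ind Q n / n := by
  induction Q using Finset.induction_on with
  | empty => simp [V, ind]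
  | insert p Q hp ih =>
    have hQ' : ∀ q ∈ Q, q.Prime := fun q hq => hQ q (Finset.mem_insert_of_mem hq)
    have hpp := hQ p (Finset.mem_insert_self p Q)
    have h1 := ih hQ'
    have h2 : ∑ n ∈ Icc 1 N, (if p ∣ n then ind Q n / n else 0) ≤
        1 / p * ∑ n ∈ Icc 1 N, ind Q n / n := by
      rw [← Finset.sum_filter, Finset.mul_sum]
      have hsub : (Icc 1 N).filter (fun n => p ∣ n) ⊆ (Icc 1 N).image (fun m => p * m) := by
        intro n hn
        obtain ⟨h3, m, rfl⟩ := Finset.mem_filter.1 hn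
        obtain ⟨h4, h5⟩ := mem_Icc.1 h3
        refine Finset.mem_image.2 ⟨m, mem_Icc.2 ⟨?_, ?_⟩, rfl⟩
        · rcases Nat.eq_zero_or_pos m with rfl | h
          · omega
          · exact h
        · exact (Nat.le_mul_of_pos_left m hpp.pos).trans h5
      refine (Finset.sum_le_sum_of_subset_of_nonneg hsub
        (fun n _ _ => div_nonneg (ind_nonneg Q n) (Nat.cast_nonneg n))).trans ?_
      rw [Finset.sum_image (fun a _ b _ h => Nat.eq_of_mul_eq_mul_left hpp.pos h)]
      refine le_of_eq (Finset.sum_congr rfl (fun m _ => ?_))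
      have : ind Q (p * m) = ind Q m := by
        refine Finset.prod_congr rfl (fun q hq => ?_)
        have hc : Nat.Coprime q p :=
          (Nat.coprime_primes (hQ' q hq) hpp).2 (fun h => hp (h ▸ hq))
        simp only [hc.dvd_mul_left]
      rw [this]; push_cast; ring
    have h3 : ∑ n ∈ Icc 1 N, ind (insert p Q) n / n = ∑ n ∈ Icc 1 N, ind Q n / n -
        ∑ n ∈ Icc 1 N, (if p ∣ n then ind Q n / n else 0) := by
      rw [← Finset.sum_sub_distrib]
      refine Finset.sum_congr rfl (fun n _ => ?_)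
      unfold ind
      rw [Finset.prod_insert hp]
      split_ifs <;> ring
    have h4 : V (insert p Q) = (1 - 1 / p) * V Q := Finset.prod_insert hp
    have h5 := mul_le_mul_of_nonneg_left h1
      (show 0 ≤ 1 - 1 / (p : ℝ) by linarith [inv_le_half hpp])
    rw [h3, h4]
    linarith

lemma V_le (N : ℕ) (hN : 2 ≤ N) : V N.primesLE ≤ 1 / Real.log N := by
  have hQ : ∀ q ∈ N.primesLE, q.Prime := fun q hq => (Nat.mem_primesLE.1 hq).2
  have h1 := V_harm _ hQ N
  have h2 : ∑ n ∈ Icc 1 N, ind N.primesLE n / n = 1 := by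
    rw [Finset.sum_eq_single 1]
    · rw [ind_eq_one (fun q hq h => (hQ q hq).one_lt.ne' (Nat.dvd_one.1 h))]; simp
    · intro n hn hn1
      obtain ⟨h3, h4⟩ := mem_Icc.1 hn
      rw [ind_eq_zero (Nat.mem_primesLE.2 ⟨(Nat.minFac_le (by omega)).trans h4,
        Nat.minFac_prime hn1⟩) (Nat.minFac_dvd n), zero_div]
    · intro h; exact absurd (mem_Icc.2 ⟨le_rfl, by omega⟩) h
  have h3 : Real.log N ≤ ∑ n ∈ Icc 1 N, 1 / (n : ℝ) := by
    have a1 := log_add_one_le_harmonic N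
    have a2 : Real.log N ≤ Real.log ((N + 1 : ℕ) : ℝ) :=
      Real.log_le_log (by exact_mod_cast (by omega : 0 < N)) (by push_cast; linarith)
    rw [harmonic_eq_sum_Icc] at a1
    push_cast at a1 a2
    simpa [one_div] using a2.trans a1
  have h4 : 0 < Real.log N := Real.log_pos (by exact_mod_cast hN)
  rw [le_div_iff₀ h4]
  have := mul_le_mul_of_nonneg_left h3 (V_pos _ hQ).le
  linarith

lemma V_low (a : ℝ) (ha : 0 < a) : ∃ c : ℝ, 0 < c ∧ ∀ N : ℕ, 1 ≤ N →
    c * (N : ℝ) ^ (-a) ≤ V N.primesLE := by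
  obtain ⟨T, hT⟩ := exists_nat_gt (Real.exp (2 / a))
  refine ⟨Real.exp (-(2 * (T + 1) + 2 * a)), Real.exp_pos _, fun N hN => ?_⟩
  have hQ : ∀ q ∈ N.primesLE, q.Prime := fun q hq => (Nat.mem_primesLE.1 hq).2
  refine le_trans ?_ (V_ge _ hQ)
  have hN0 : (0 : ℝ) < N := by exact_mod_cast hN
  rw [Real.rpow_def_of_pos hN0, ← Real.exp_add, Real.exp_le_exp]
  have h1 : ∑ q ∈ N.primesLE, 1 / (q : ℝ) ≤
      ∑ q ∈ N.primesLE, ((if q ∈ range (T + 1) then 1 else 0) + a / 2 * (Real.log q / q)) := by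
    refine Finset.sum_le_sum (fun q hq => ?_)
    have hq0 : (0 : ℝ) < q := by exact_mod_cast (hQ q hq).pos
    have := Real.log_natCast_nonneg q
    split_ifs with h
    · have h2 := inv_le_half (hQ q hq)
      have : 0 ≤ a / 2 * (Real.log q / q) := by positivity
      linarith
    · have h2 : (T : ℝ) ≤ q := by
        have := mem_range.not.1 h
        exact_mod_cast (by omega : T ≤ q)
      have h3 : 2 / a ≤ Real.log q := by
        rw [Real.le_log_iff_exp_le hq0]; linarith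
      rw [zero_add, ← mul_div_assoc]
      refine div_le_div_of_nonneg_right ?_ hq0.le
      rw [div_le_iff₀ ha] at h3; linarith
  rw [Finset.sum_add_distrib, ← Finset.mul_sum, Finset.sum_ite_mem, Finset.sum_const,
    nsmul_eq_mul, mul_one] at h1
  have h2 : ((N.primesLE ∩ range (T + 1)).card : ℝ) ≤ T + 1 := by
    have := Finset.card_le_card (Finset.inter_subset_right (s₁ := N.primesLE) (s₂ := range (T + 1)))
    rw [card_range] at this
    exact_mod_cast this
  have h3 := mul_le_mul_of_nonneg_left (mertens N hN) (by positivity : 0 ≤ a / 2)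
  linarith

/-- A finite linear combination of divisibility conditions. -/
structure DS where
  ι : Type
  s : Finset ι
  d : ι → ℕ
  a : ι → ℝ

namespace DS

/-- The value at `n`. -/
noncomputable def ev (A : DS) (n : ℕ) : ℝ := ∑ i ∈ A.s, if A.d i ∣ n then A.a i else 0

/-- The mean value. -/
noncomputable def mean (A : DS) : ℝ := ∑ i ∈ A.s, A.a i / A.d i

/-- The sum of the absolute values of the coefficients. -/
noncomputable def nrm (A : DS) : ℝ := ∑ i ∈ A.s, |A.a i|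

/-- The moduli are positive, bounded by `D` and composed of primes in `Q`. -/
def ok (A : DS) (Q : Finset ℕ) (D : ℝ) : Prop :=
  ∀ i ∈ A.s, 0 < A.d i ∧ (A.d i : ℝ) ≤ D ∧ ∀ q : ℕ, q.Prime → q ∣ A.d i → q ∈ Q

/-- Product. -/
def mul (A B : DS) : DS :=
  ⟨A.ι × B.ι, A.s ×ˢ B.s, fun x => A.d x.1 * B.d x.2, fun x => A.a x.1 * B.a x.2⟩

/-- Difference. -/
def sub (A B : DS) : DS :=
  ⟨A.ι ⊕ B.ι, A.s.disjSum B.s, Sum.elim A.d B.d, Sum.elim A.a (fun i => -B.a i)⟩

lemma nrm_nonneg (A : DS) : 0 ≤ A.nrm := Finset.sum_nonneg (fun _ _ => abs_nonneg _)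

lemma mean_mul (A B : DS) : (A.mul B).mean = A.mean * B.mean := by
  unfold mean mul
  simp only
  rw [Finset.sum_mul_sum, Finset.sum_product]
  refine Finset.sum_congr rfl (fun i _ => Finset.sum_congr rfl (fun j _ => ?_))
  push_cast; rw [div_mul_div_comm]

lemma nrm_mul (A B : DS) : (A.mul B).nrm = A.nrm * B.nrm := by
  unfold nrm mul
  simp only
  rw [Finset.sum_mul_sum, Finset.sum_product]
  exact Finset.sum_congr rfl (fun i _ => Finset.sum_congr rfl (fun j _ => abs_mul _ _))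

lemma ev_mul {A B : DS} {Q Q' : Finset ℕ} {D D' : ℝ} (hA : A.ok Q D) (hB : B.ok Q' D')
    (h : Disjoint Q Q') (n : ℕ) : (A.mul B).ev n = A.ev n * B.ev n := by
  unfold ev mul
  simp only
  rw [Finset.sum_mul_sum, Finset.sum_product]
  refine Finset.sum_congr rfl (fun i hi => Finset.sum_congr rfl (fun j hj => ?_))
  have hc : Nat.Coprime (A.d i) (B.d j) := by
    rw [Nat.coprime_iff_gcd_eq_one]
    by_contra hne
    have hp := Nat.minFac_prime hne
    exact Finset.disjoint_left.1 h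
      ((hA i hi).2.2 _ hp ((Nat.minFac_dvd _).trans (Nat.gcd_dvd_left _ _)))
      ((hB j hj).2.2 _ hp ((Nat.minFac_dvd _).trans (Nat.gcd_dvd_right _ _)))
  by_cases h1 : A.d i ∣ n
  · by_cases h2 : B.d j ∣ n
    · rw [if_pos h1, if_pos h2, if_pos (hc.mul_dvd_of_dvd_of_dvd h1 h2)]
    · rw [if_neg h2, if_neg (fun h3 => h2 ((Dvd.intro_left _ rfl).trans h3)), mul_zero]
  · rw [if_neg h1, if_neg (fun h3 => h1 ((Dvd.intro _ rfl).trans h3)), zero_mul]

lemma ok_mul {A B : DS} {Q Q' : Finset ℕ} {D D' : ℝ} (hA : A.ok Q D) (hB : B.ok Q' D') :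
    (A.mul B).ok (Q ∪ Q') (D * D') := by
  rintro ⟨i, j⟩ hx
  obtain ⟨hi, hj⟩ := Finset.mem_product.1 hx
  obtain ⟨a1, a2, a3⟩ := hA i hi
  obtain ⟨b1, b2, b3⟩ := hB j hj
  refine ⟨Nat.mul_pos a1 b1, ?_, fun q hq h => ?_⟩
  · show ((A.d i * B.d j : ℕ) : ℝ) ≤ D * D'
    push_cast
    exact mul_le_mul a2 b2 (Nat.cast_nonneg _) ((Nat.cast_nonneg _).trans a2)
  · rcases (Nat.Prime.dvd_mul hq).1 h with h | h
    · exact Finset.mem_union_left _ (a3 q hq h)
    · exact Finset.mem_union_right _ (b3 q hq h)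

lemma ev_sub (A B : DS) (n : ℕ) : (A.sub B).ev n = A.ev n - B.ev n := by
  unfold ev sub
  simp only
  rw [Finset.sum_disjSum, sub_eq_add_neg, ← Finset.sum_neg_distrib]
  congr 1
  refine Finset.sum_congr rfl (fun j _ => ?_)
  show (if B.d j ∣ n then -B.a j else 0) = -(if B.d j ∣ n then B.a j else 0)
  split_ifs <;> simp

lemma mean_sub (A B : DS) : (A.sub B).mean = A.mean - B.mean := by
  unfold mean sub
  simp only
  rw [Finset.sum_disjSum, sub_eq_add_neg, ← Finset.sum_neg_distrib]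
  congr 1
  refine Finset.sum_congr rfl (fun j _ => ?_)
  simp only [Sum.elim_inr]; ring

lemma nrm_sub (A B : DS) : (A.sub B).nrm = A.nrm + B.nrm := by
  unfold nrm sub
  simp only
  rw [Finset.sum_disjSum]
  simp

lemma ok_sub {A B : DS} {Q : Finset ℕ} {D : ℝ} (hA : A.ok Q D) (hB : B.ok Q D) :
    (A.sub B).ok Q D := by
  rintro (i | j) hx
  · exact hA i (Finset.inl_mem_disjSum.1 hx)
  · exact hB j (Finset.inr_mem_disjSum.1 hx)

lemma ok_mono {A : DS} {Q : Finset ℕ} {D D' : ℝ} (hA : A.ok Q D) (h : D ≤ D') : A.ok Q D' :=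
  fun i hi => ⟨(hA i hi).1, (hA i hi).2.1.trans h, (hA i hi).2.2⟩

end DS

end Pool.Agent.H59.BH
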