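import Mathlib
import Pool.Agent.H59.BH1

/-! The fundamental lemma of sieve theory (Brun-Hooley form). -/

set_option autoImplicit false

namespace Pool.Agent.H59.BH

open Finset Filter Pool.Agent.H59.PureSieve

/-- Truncated inclusion-exclusion of a block. -/
noncomputable def blkU (Q : Finset ℕ) (k : ℕ) : DS :=
  ⟨Finset ℕ, Q.powerset.filter (fun S => S.card ≤ k), fun S => ∏ q ∈ S, q,
    fun S => (-1) ^ S.card⟩

/-- The next level of a block. -/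
noncomputable def blkX (Q : Finset ℕ) (k : ℕ) : DS :=
  ⟨Finset ℕ, Q.powerset.filter (fun S => S.card = k + 1), fun S => ∏ q ∈ S, q, fun _ => 1⟩

lemma memU {Q S : Finset ℕ} {k : ℕ} (h : S ∈ (blkU Q k).s) : S ⊆ Q ∧ S.card ≤ k := by
  have h' : S ∈ Q.powerset.filter (fun S => S.card ≤ k) := h
  exact ⟨Finset.mem_powerset.1 (Finset.mem_filter.1 h').1, (Finset.mem_filter.1 h').2⟩

lemma memX {Q S : Finset ℕ} {k : ℕ} (h : S ∈ (blkX Q k).s) : S ⊆ Q ∧ S.card = k + 1 := by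
  have h' : S ∈ Q.powerset.filter (fun S => S.card = k + 1) := h
  exact ⟨Finset.mem_powerset.1 (Finset.mem_filter.1 h').1, (Finset.mem_filter.1 h').2⟩

lemma prod_ind (Q S : Finset ℕ) (hQ : ∀ q ∈ Q, q.Prime) (hS : S ⊆ Q) (n : ℕ) :
    ∏ q ∈ S, (if q ∣ n then (1 : ℝ) else 0) = if (∏ q ∈ S, q) ∣ n then 1 else 0 := by
  split_ifs with h
  · exact Finset.prod_eq_one (fun q hq => if_pos ((Finset.dvd_prod_of_mem _ hq).trans h))
  · by_contra hne
    refine h (Finset.prod_primes_dvd n (fun q hq => (hQ q (hS hq)).prime) (fun q hq => ?_))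
    by_contra h2
    exact hne (Finset.prod_eq_zero hq (if_neg h2))

lemma ev_blkU (Q : Finset ℕ) (hQ : ∀ q ∈ Q, q.Prime) (k n : ℕ) :
    (blkU Q k).ev n = T Q (fun q => if q ∣ n then (1 : ℝ) else 0) k := by
  unfold DS.ev blkU T
  simp only
  rw [Finset.sum_filter]
  refine Finset.sum_congr rfl (fun S hS => ?_)
  rw [prod_ind Q S hQ (Finset.mem_powerset.1 hS)]
  split_ifs <;> simp

lemma ev_blkX (Q : Finset ℕ) (hQ : ∀ q ∈ Q, q.Prime) (k n : ℕ) :
    (blkX Q k).ev n = ∑ S ∈ Q.powerset,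
      if S.card = k + 1 then ∏ q ∈ S, (if q ∣ n then (1 : ℝ) else 0) else 0 := by
  unfold DS.ev blkX
  simp only
  rw [Finset.sum_filter]
  refine Finset.sum_congr rfl (fun S hS => ?_)
  rw [prod_ind Q S hQ (Finset.mem_powerset.1 hS)]

lemma mean_blkU (Q : Finset ℕ) (k : ℕ) : (blkU Q k).mean = T Q (fun q => 1 / (q : ℝ)) k := by
  unfold DS.mean blkU T
  simp only
  rw [Finset.sum_filter]
  refine Finset.sum_congr rfl (fun S _ => ?_)
  split_ifs
  · rw [Finset.prod_div_distrib, Finset.prod_const_one]; push_cast; ring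
  · rfl

lemma mean_blkX (Q : Finset ℕ) (k : ℕ) : (blkX Q k).mean =
    ∑ S ∈ Q.powerset, if S.card = k + 1 then ∏ q ∈ S, 1 / (q : ℝ) else 0 := by
  unfold DS.mean blkX
  simp only
  rw [Finset.sum_filter]
  refine Finset.sum_congr rfl (fun S _ => ?_)
  split_ifs
  · rw [Finset.prod_div_distrib, Finset.prod_const_one]; push_cast; ring
  · rfl

lemma blk_ok (Q : Finset ℕ) (hQ : ∀ q ∈ Q, q.Prime) (z : ℝ) (hz : 1 ≤ z)
    (hQz : ∀ q ∈ Q, (q : ℝ) ≤ z) (k : ℕ) (S : Finset ℕ) (hS : S ⊆ Q) (hk : S.card ≤ k) :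
    0 < ∏ q ∈ S, q ∧ ((∏ q ∈ S, q : ℕ) : ℝ) ≤ z ^ k ∧
      ∀ q : ℕ, q.Prime → q ∣ ∏ q ∈ S, q → q ∈ Q := by
  refine ⟨Finset.prod_pos (fun q hq => (hQ q (hS hq)).pos), ?_, fun q hq h => ?_⟩
  · push_cast
    refine le_trans ?_ (pow_le_pow_right₀ hz hk)
    rw [← Finset.prod_const]
    exact Finset.prod_le_prod (fun q _ => Nat.cast_nonneg q) (fun q hq => hQz q (hS hq))
  · obtain ⟨r, hr, hqr⟩ := (Prime.dvd_finsetProd_iff hq.prime _).1 h
    rw [(Nat.prime_dvd_prime_iff_eq hq (hQ r (hS hr))).1 hqr]; exact hS hr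

lemma card_le_of_inj (Q : Finset ℕ) (hQ : ∀ q ∈ Q, q.Prime) (F : Finset (Finset ℕ))
    (hF : ∀ S ∈ F, S ⊆ Q) (D : ℝ) (hD0 : 0 ≤ D) (hD : ∀ S ∈ F, ((∏ q ∈ S, q : ℕ) : ℝ) ≤ D) :
    (F.card : ℝ) ≤ D := by
  have h1 : F.card ≤ (Icc 1 ⌊D⌋₊).card := by
    refine Finset.card_le_card_of_injOn (fun S => ∏ q ∈ S, q) (fun S hS => ?_) ?_
    · exact mem_coe.2 (mem_Icc.2 ⟨Finset.prod_pos (fun q hq => (hQ q (hF S hS hq)).pos),
        Nat.le_floor (hD S hS)⟩)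
    · intro S hS S' hS' h
      have h' : ∏ q ∈ S, q = ∏ q ∈ S', q := h
      rw [← Nat.primeFactors_prod (fun q hq => hQ q (hF S hS hq)), h',
        Nat.primeFactors_prod (fun q hq => hQ q (hF S' hS' hq))]
  rw [Nat.card_Icc, add_tsub_cancel_right] at h1
  exact (Nat.cast_le.2 h1).trans (Nat.floor_le hD0)

lemma level_le' (Q : Finset ℕ) (k : ℕ) :
    (2 : ℝ) ^ k * ∑ S ∈ Q.powerset, (if S.card = k then ∏ q ∈ S, 1 / (q : ℝ) else 0) ≤
      Real.exp (2 * ∑ q ∈ Q, 1 / (q : ℝ)) :=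
  level_le Q (fun q => 1 / (q : ℝ)) (fun q => by positivity) k

/-- Upper and lower sieve weights with level `D` and relative error `E`. -/
structure SP (Q : Finset ℕ) (D E : ℝ) (U L : DS) : Prop where
  okU : U.ok Q D
  okL : L.ok Q D
  nU : U.nrm ≤ D
  nL : L.nrm ≤ D
  up : ∀ n, ind Q n ≤ U.ev n
  lo : ∀ n, L.ev n ≤ ind Q n
  m1 : V Q ≤ U.mean
  m2 : U.mean ≤ V Q * Real.exp E
  m3 : U.mean - L.mean ≤ V Q * Real.exp E * E

lemma SP.mono {Q : Finset ℕ} {D D' E E' : ℝ} {U L : DS} (h : SP Q D E U L)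
    (hQ : ∀ q ∈ Q, q.Prime) (hD : D ≤ D') (hE0 : 0 ≤ E) (hE : E ≤ E') : SP Q D' E' U L := by
  have hV := (V_pos Q hQ).le
  have h1 : V Q * Real.exp E ≤ V Q * Real.exp E' :=
    mul_le_mul_of_nonneg_left (Real.exp_le_exp.2 hE) hV
  exact ⟨DS.ok_mono h.okU hD, DS.ok_mono h.okL hD, h.nU.trans hD, h.nL.trans hD, h.up, h.lo,
    h.m1, h.m2.trans h1, h.m3.trans (mul_le_mul h1 hE hE0 (by positivity))⟩

lemma SP_empty : SP ∅ 1 0 (blkU ∅ 0) (blkU ∅ 0) := by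
  have e1 : ∀ n, (blkU ∅ 0).ev n = 1 := fun n => by
    rw [ev_blkU ∅ (by simp), T_zero]
  have e2 : (blkU ∅ 0).mean = 1 := by rw [mean_blkU, T_zero]
  have e3 : (blkU ∅ 0).ok ∅ 1 := by
    intro S hS
    have := blk_ok ∅ (by simp) 1 le_rfl (by simp) 0 S
      (memU hS).1 (memU hS).2
    rwa [pow_zero] at this
  have e4 : (blkU ∅ 0).nrm ≤ 1 := by simp [DS.nrm, blkU, Finset.filter_singleton]
  exact ⟨e3, e3, e4, e4, fun n => by simp [e1, ind], fun n => by simp [e1, ind],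
    by simp [e2, V], by simp [e2, V], by simp⟩

lemma SP.step {Q : Finset ℕ} {D E : ℝ} {U L : DS} (h : SP Q D E U L) (hQ : ∀ q ∈ Q, q.Prime)
    (hE : 0 ≤ E) (Q' : Finset ℕ) (hQ' : ∀ q ∈ Q', q.Prime) (hd : Disjoint Q Q') (z : ℝ)
    (hz : 2 ≤ z) (hQz : ∀ q ∈ Q', (q : ℝ) ≤ z) (hs : ∑ q ∈ Q', 1 / (q : ℝ) ≤ 8) (m : ℕ) :
    SP (Q ∪ Q') (D * z ^ (2 * m + 2)) (E + Real.exp 32 / 2 ^ (2 * m + 1))
      (U.mul (blkU Q' (2 * m))) ((L.mul (blkU Q' (2 * m))).sub (U.mul (blkX Q' (2 * m)))) := by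
  have hD : 0 ≤ D := U.nrm_nonneg.trans h.nU
  have hz1 : 1 ≤ z := by linarith
  have p1 : z ^ (2 * m + 1) ≤ z ^ (2 * m + 2) := pow_le_pow_right₀ hz1 (by omega)
  have p2 : 2 * z ^ (2 * m + 1) ≤ z ^ (2 * m + 2) := by
    rw [pow_succ z (2 * m + 1)]
    have : 0 ≤ z ^ (2 * m + 1) := by positivity
    nlinarith
  have okU' : (blkU Q' (2 * m)).ok Q' (z ^ (2 * m + 1)) := fun S hS =>
    blk_ok Q' hQ' z hz1 hQz _ S (memU hS).1 ((memU hS).2.trans (by omega))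
  have okX : (blkX Q' (2 * m)).ok Q' (z ^ (2 * m + 1)) := fun S hS =>
    blk_ok Q' hQ' z hz1 hQz _ S (memX hS).1 (memX hS).2.le
  have nU' : (blkU Q' (2 * m)).nrm ≤ z ^ (2 * m + 1) := by
    have := card_le_of_inj Q' hQ' (blkU Q' (2 * m)).s
      (fun S hS => (memU hS).1) _ (by positivity)
      (fun S hS => (okU' S hS).2.1)
    refine le_trans (le_of_eq ?_) this
    simp [DS.nrm, blkU]
  have nX : (blkX Q' (2 * m)).nrm ≤ z ^ (2 * m + 1) := by
    have := card_le_of_inj Q' hQ' (blkX Q' (2 * m)).s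
      (fun S hS => (memX hS).1) _ (by positivity)
      (fun S hS => (okX S hS).2.1)
    refine le_trans (le_of_eq ?_) this
    simp [DS.nrm, blkX]
  have ev1 : (-1 : ℝ) ^ (2 * m) = 1 := Even.neg_one_pow ⟨m, by ring⟩
  have ev2 : (-1 : ℝ) ^ (2 * m + 1) = -1 := by rw [pow_succ, ev1]; ring
  have up' : ∀ n, ind Q' n ≤ (blkU Q' (2 * m)).ev n := by
    intro n
    have := bonferroni Q' (fun q => if q ∣ n then (1 : ℝ) else 0)
      (fun q _ => by split_ifs <;> norm_num) (fun q _ => by split_ifs <;> norm_num) (2 * m)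
    rw [ev1, one_mul, ← ev_blkU Q' hQ'] at this
    unfold ind; linarith
  have lo' : ∀ n, (blkU Q' (2 * m)).ev n - (blkX Q' (2 * m)).ev n ≤ ind Q' n := by
    intro n
    have := bonferroni Q' (fun q => if q ∣ n then (1 : ℝ) else 0)
      (fun q _ => by split_ifs <;> norm_num) (fun q _ => by split_ifs <;> norm_num) (2 * m + 1)
    rw [T_succ, ev2, ← ev_blkU Q' hQ', ← ev_blkX Q' hQ'] at this
    unfold ind; linarith
  have X0 : ∀ n, 0 ≤ (blkX Q' (2 * m)).ev n := fun n =>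
    Finset.sum_nonneg (fun S _ => by show 0 ≤ ite _ (1 : ℝ) 0; split_ifs <;> norm_num)
  have b0 : ∀ q ∈ Q', 0 ≤ 1 / (q : ℝ) := fun q _ => by positivity
  have b1 : ∀ q ∈ Q', 1 / (q : ℝ) ≤ 1 := fun q hq => by linarith [inv_le_half (hQ' q hq)]
  have mu1 : V Q' ≤ (blkU Q' (2 * m)).mean := by
    have := bonferroni Q' (fun q => 1 / (q : ℝ)) b0 b1 (2 * m)
    rw [ev1, one_mul, ← mean_blkU] at this
    unfold V; linarith
  have mu2 : (blkU Q' (2 * m)).mean - (blkX Q' (2 * m)).mean ≤ V Q' := by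
    have := bonferroni Q' (fun q => 1 / (q : ℝ)) b0 b1 (2 * m + 1)
    rw [T_succ, ev2, ← mean_blkU, ← mean_blkX] at this
    unfold V; linarith
  set ε := Real.exp 32 / 2 ^ (2 * m + 1) with hε
  have ε0 : 0 ≤ ε := by positivity
  have hV := V_pos Q hQ
  have hV' := V_pos Q' hQ'
  have mX0 : 0 ≤ (blkX Q' (2 * m)).mean :=
    Finset.sum_nonneg (fun S _ => div_nonneg zero_le_one (Nat.cast_nonneg _))
  have mX : (blkX Q' (2 * m)).mean ≤ V Q' * ε := by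
    have a1 := level_le' Q' (2 * m + 1)
    rw [← mean_blkX] at a1
    have a2 : Real.exp (2 * ∑ q ∈ Q', 1 / (q : ℝ)) ≤ Real.exp 16 :=
      Real.exp_le_exp.2 (by linarith)
    have a3 : Real.exp (-16) ≤ V Q' :=
      (Real.exp_le_exp.2 (by linarith)).trans (V_ge Q' hQ')
    have a4 : Real.exp 16 = Real.exp (-16) * Real.exp 32 := by rw [← Real.exp_add]; norm_num
    have a5 := mul_le_mul_of_nonneg_right a3 (Real.exp_pos 32).le
    rw [hε, ← mul_div_assoc, le_div_iff₀ (by positivity)]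
    linarith
  have eV : V (Q ∪ Q') = V Q * V Q' := Finset.prod_union hd
  have eI : ∀ n, ind (Q ∪ Q') n = ind Q n * ind Q' n := fun n => Finset.prod_union hd
  have xε : 1 + ε ≤ Real.exp ε := by linarith [Real.add_one_le_exp ε]
  have mu3 : (blkU Q' (2 * m)).mean ≤ V Q' * Real.exp ε := by nlinarith
  have mU0 : 0 ≤ U.mean := hV.le.trans h.m1
  have okA := DS.ok_mono (DS.ok_mul h.okU okU') (mul_le_mul_of_nonneg_left p1 hD)
  refine ⟨okA, DS.ok_sub (DS.ok_mono (DS.ok_mul h.okL okU') (mul_le_mul_of_nonneg_left p1 hD))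
    (DS.ok_mono (DS.ok_mul h.okU okX) (mul_le_mul_of_nonneg_left p1 hD)), ?_, ?_, ?_, ?_, ?_, ?_,
    ?_⟩
  · rw [DS.nrm_mul]
    exact mul_le_mul h.nU (nU'.trans p1) (DS.nrm_nonneg _) hD
  · rw [DS.nrm_sub, DS.nrm_mul, DS.nrm_mul]
    have a1 := mul_le_mul h.nL nU' (DS.nrm_nonneg _) hD
    have a2 := mul_le_mul h.nU nX (DS.nrm_nonneg _) hD
    have a3 := mul_le_mul_of_nonneg_left p2 hD
    linarith
  · intro n
    rw [DS.ev_mul h.okU okU' hd, eI]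
    exact mul_le_mul (h.up n) (up' n) (ind_nonneg _ _) ((ind_nonneg _ _).trans (h.up n))
  · intro n
    rw [DS.ev_sub, DS.ev_mul h.okL okU' hd, DS.ev_mul h.okU okX hd, eI]
    have a1 := mul_le_mul_of_nonneg_left (lo' n) (ind_nonneg Q n)
    have a2 := mul_le_mul_of_nonneg_right (h.lo n) ((ind_nonneg _ _).trans (up' n))
    have a3 := mul_le_mul_of_nonneg_right (h.up n) (X0 n)
    linarith
  · rw [DS.mean_mul, eV]
    exact mul_le_mul h.m1 mu1 hV'.le mU0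
  · rw [DS.mean_mul, eV, Real.exp_add]
    refine (mul_le_mul h.m2 mu3 (hV'.le.trans mu1) (by positivity)).trans_eq (by ring)
  · rw [DS.mean_sub, DS.mean_mul, DS.mean_mul, DS.mean_mul, eV, Real.exp_add]
    have a1 := mul_le_mul h.m3 mu3 (hV'.le.trans mu1) (by positivity)
    have a2 := mul_le_mul h.m2 mX mX0 (by positivity)
    have a3 : V Q * Real.exp E * (V Q' * ε) ≤ V Q * Real.exp E * (V Q' * ε) * Real.exp ε :=
      le_mul_of_one_le_right (by positivity) (by linarith)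
    nlinarith

lemma mem_pr {z : ℝ} (hz : 0 ≤ z) {q : ℕ} : q ∈ ⌊z⌋₊.primesLE ↔ (q : ℝ) ≤ z ∧ q.Prime := by
  rw [Nat.mem_primesLE, Nat.le_floor_iff hz]

lemma brun_aux (K : ℕ) : ∀ r : ℕ, ∀ z : ℝ, 1 ≤ z → z < 2 ^ (2 ^ r) → ∀ j : ℕ,
    ∃ U L : DS, SP ⌊z⌋₊.primesLE (z ^ (4 * K + 4 * j + 8)) (Real.exp 32 / 4 ^ (K + j)) U L := by
  have small : ∀ z : ℝ, 1 ≤ z → z < 2 → ∀ j : ℕ,
      ∃ U L : DS, SP ⌊z⌋₊.primesLE (z ^ (4 * K + 4 * j + 8)) (Real.exp 32 / 4 ^ (K + j)) U L := by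
    intro z hz hz2 j
    have : ⌊z⌋₊.primesLE = ∅ := by
      refine Finset.eq_empty_of_forall_notMem (fun q hq => ?_)
      obtain ⟨h1, h2⟩ := (mem_pr (by linarith)).1 hq
      have : (2 : ℝ) ≤ q := by exact_mod_cast h2.two_le
      linarith
    rw [this]
    exact ⟨_, _, SP_empty.mono (by simp) (one_le_pow₀ hz) le_rfl (by positivity)⟩
  have big : ∀ z : ℝ, 2 ≤ z → ∀ j : ℕ,
      (∃ U L : DS, SP ⌊√z⌋₊.primesLE (√z ^ (4 * K + 4 * (j + 1) + 8))
        (Real.exp 32 / 4 ^ (K + (j + 1))) U L) →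
      ∃ U L : DS, SP ⌊z⌋₊.primesLE (z ^ (4 * K + 4 * j + 8)) (Real.exp 32 / 4 ^ (K + j)) U L := by
    rintro z hz j ⟨U, L, h⟩
    have hz0 : 0 ≤ z := by linarith
    have hs1 : 1 ≤ √z := Real.one_le_sqrt.2 (by linarith)
    have hs2 : √z ≤ z := by nlinarith [Real.mul_self_sqrt hz0]
    have hsub : ⌊√z⌋₊.primesLE ⊆ ⌊z⌋₊.primesLE := fun q hq => by
      obtain ⟨h1, h2⟩ := (mem_pr (by linarith)).1 hq
      exact (mem_pr hz0).2 ⟨h1.trans hs2, h2⟩
    have hQ : ∀ q ∈ ⌊z⌋₊.primesLE, q.Prime := fun q hq => (Nat.mem_primesLE.1 hq).2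
    have hsum : ∑ q ∈ ⌊z⌋₊.primesLE \ ⌊√z⌋₊.primesLE, 1 / (q : ℝ) ≤ 8 := by
      have hl : Real.log 2 ≤ Real.log z := Real.log_le_log (by norm_num) hz
      have l2 := Real.log_two_gt_d9
      have a1 : ∑ q ∈ ⌊z⌋₊.primesLE \ ⌊√z⌋₊.primesLE, 1 / (q : ℝ) ≤
          ∑ q ∈ ⌊z⌋₊.primesLE \ ⌊√z⌋₊.primesLE, 2 / Real.log z * (Real.log q / q) := by
        refine Finset.sum_le_sum (fun q hq => ?_)
        obtain ⟨h1, h2⟩ := Finset.mem_sdiff.1 hq
        have h3 := hQ q h1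
        have h4 : √z < q := by
          by_contra hc
          exact h2 ((mem_pr (by linarith)).2 ⟨not_lt.1 hc, h3⟩)
        have h5 : Real.log √z ≤ Real.log q := Real.log_le_log (by linarith) h4.le
        rw [Real.log_sqrt hz0] at h5
        rw [← mul_div_assoc]
        refine div_le_div_of_nonneg_right ?_ (Nat.cast_nonneg q)
        rw [div_mul_eq_mul_div, le_div_iff₀ (by linarith)]; linarith
      have a2 : ∑ q ∈ ⌊z⌋₊.primesLE \ ⌊√z⌋₊.primesLE, Real.log q / (q : ℝ) ≤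
          ∑ q ∈ ⌊z⌋₊.primesLE, Real.log q / (q : ℝ) :=
        Finset.sum_le_sum_of_subset_of_nonneg Finset.sdiff_subset
          (fun q _ _ => div_nonneg (Real.log_natCast_nonneg q) (Nat.cast_nonneg q))
      have a3 := mertens ⌊z⌋₊ (Nat.le_floor (by push_cast; linarith))
      have a4 : Real.log ⌊z⌋₊ ≤ Real.log z := Real.log_le_log
        (by exact_mod_cast Nat.floor_pos.2 (by linarith)) (Nat.floor_le hz0)
      rw [← Finset.mul_sum] at a1
      refine a1.trans ((mul_le_mul_of_nonneg_left (a2.trans (a3.trans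
        (show _ ≤ Real.log z + 2 by linarith))) (div_nonneg (by norm_num) (by linarith))).trans ?_)
      rw [div_mul_eq_mul_div, div_le_iff₀ (by linarith)]; linarith
    have := h.step (fun q hq => hQ q (hsub hq)) (by positivity) _
      (fun q hq => hQ q (Finset.sdiff_subset hq)) Finset.disjoint_sdiff z hz
      (fun q hq => ((mem_pr hz0).1 (Finset.sdiff_subset hq)).1) hsum (K + j)
    rw [Finset.union_sdiff_of_subset hsub] at this
    refine ⟨_, _, this.mono hQ (le_of_eq ?_) (by positivity) ?_⟩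
    · have e : √z ^ (4 * K + 4 * (j + 1) + 8) = z ^ (2 * K + 2 * j + 6) := by
        rw [show 4 * K + 4 * (j + 1) + 8 = 2 * (2 * K + 2 * j + 6) by ring, pow_mul,
          Real.sq_sqrt hz0]
      rw [e, ← pow_add]; congr 1; ring
    · have e1 : (4 : ℝ) ^ (K + (j + 1)) = 4 ^ (K + j) * 4 := by rw [← add_assoc, pow_succ]
      have e2 : (2 : ℝ) ^ (2 * (K + j) + 1) = 4 ^ (K + j) * 2 := by
        rw [pow_succ, pow_mul]; norm_num
      rw [e1, e2]
      have : 0 < Real.exp 32 / 4 ^ (K + j) := by positivity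
      rw [← div_div, ← div_div]; linarith
  intro r
  induction r with
  | zero =>
    intro z hz hz2 j
    exact small z hz (by simpa using hz2) j
  | succ r ih =>
    intro z hz hz2 j
    by_cases h : z < 2
    · exact small z hz h j
    · refine big z (not_lt.1 h) j (ih _ (Real.one_le_sqrt.2 hz) ?_ _)
      rw [Real.sqrt_lt' (by positivity), ← pow_mul, ← pow_succ]; exact hz2

/-- The fundamental lemma. -/
theorem fundamental : ∃ s : ℕ, 1 ≤ s ∧ ∀ N : ℕ, 1 ≤ N → ∃ U L : DS,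
    U.ok N.primesLE ((N : ℝ) ^ s) ∧ L.ok N.primesLE ((N : ℝ) ^ s) ∧ U.nrm ≤ (N : ℝ) ^ s ∧
    L.nrm ≤ (N : ℝ) ^ s ∧ (∀ n, ind N.primesLE n ≤ U.ev n) ∧ (∀ n, L.ev n ≤ ind N.primesLE n) ∧
    0 ≤ U.mean ∧ U.mean ≤ 101 / 100 * V N.primesLE ∧ 99 / 100 * V N.primesLE ≤ L.mean := by
  obtain ⟨K, hK⟩ := pow_unbounded_of_one_lt (Real.exp 32 * 200) (by norm_num : (1 : ℝ) < 4)
  refine ⟨4 * K + 8, by omega, fun N hN => ?_⟩
  have h1 : (N : ℝ) < 2 ^ (2 ^ N) := by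
    have a1 : N < 2 ^ N := Nat.lt_two_pow_self
    have a2 : 2 ^ N < 2 ^ 2 ^ N := Nat.lt_two_pow_self
    exact_mod_cast a1.trans a2
  obtain ⟨U, L, h⟩ := brun_aux K N N (by exact_mod_cast hN) h1 0
  rw [Nat.floor_natCast, mul_zero, add_zero, add_zero] at h
  have hQ : ∀ q ∈ N.primesLE, q.Prime := fun q hq => (Nat.mem_primesLE.1 hq).2
  have hV := V_pos _ hQ
  have hE : Real.exp 32 / 4 ^ K ≤ 1 / 200 := by
    rw [div_le_iff₀ (by positivity)]; linarith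
  have h' := h.mono hQ le_rfl (by positivity) hE
  have e1 : Real.exp (1 / 200) ≤ 101 / 100 := by
    have h3 := Real.add_one_le_exp (-(1 / 200))
    have h4 : Real.exp (1 / 200) * Real.exp (-(1 / 200)) = 1 := by rw [← Real.exp_add]; simp
    have h5 := Real.exp_pos (1 / 200)
    nlinarith
  have e2 := mul_le_mul_of_nonneg_left e1 hV.le
  refine ⟨U, L, h.okU, h.okL, h.nU, h.nL, h.up, h.lo, hV.le.trans h.m1, ?_, ?_⟩
  · linarith [h'.m2]
  · linarith [h'.m1, h'.m3]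

end Pool.Agent.H59.BH
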