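import Mathlib
import Pool.Agent.H61.SieveG

/-! A Brun-Titchmarsh type bound for progressions whose modulus is a power of ten. -/

set_option autoImplicit false

namespace Pool.Agent.H59.BT10

open Finset Pool.Agent.H61.Sieve

lemma rho_eq (Q c p : ℕ) (hp : p.Prime) (hQ : ¬ p ∣ Q) :
    rho (fun p s => p ∣ c + s * Q) p = 1 := by
  unfold rho
  have := Fact.mk hp
  have hQ0 : (Q : ZMod p) ≠ 0 := fun h => hQ ((ZMod.natCast_eq_zero_iff _ _).1 h)
  rw [Finset.card_eq_one]
  refine ⟨(-(c : ZMod p) / Q).val, ?_⟩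
  ext s
  simp only [Finset.mem_filter, Finset.mem_range, Finset.mem_singleton]
  rw [← ZMod.natCast_eq_zero_iff]
  push_cast
  constructor
  · rintro ⟨h1, h2⟩
    have : -(c : ZMod p) / Q = s := by
      rw [div_eq_iff hQ0]; linear_combination -h2
    rw [this, ZMod.val_natCast, Nat.mod_eq_of_lt h1]
  · rintro rfl
    refine ⟨ZMod.val_lt _, ?_⟩
    rw [ZMod.natCast_zmod_val]
    field_simp
    ring

theorem BT (Q c N y : ℕ) (hQ : ∀ p : ℕ, p.Prime → p ∣ Q → p ∣ 10) (hy : 10 ≤ y)
    (hc : 10 * y < c) :
    (((range N).filter (fun s => (c + s * Q).Prime)).card : ℝ) ≤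
      20 * N / Real.log (10 * y) + 2 * (10 * (y : ℝ)) ^ 4 := by
  classical
  set P := (range (10 * y + 1)).filter (fun p => p.Prime ∧ ¬ p ∣ 10) with hP
  have hPp : ∀ p ∈ P, p.Prime := fun p hp => (Finset.mem_filter.1 hp).2.1
  have hr : ∀ p ∈ P, rho (fun p s => p ∣ c + s * Q) p = 1 := fun p hp =>
    rho_eq Q c p (hPp p hp) (fun h => (Finset.mem_filter.1 hp).2.2 (hQ p (hPp p hp) h))
  have hy' : (10 : ℝ) ≤ y := by exact_mod_cast hy
  have hlog : 0 < Real.log (10 * y) := Real.log_pos (by linarith)
  have h := selberg' (fun p s => p ∣ c + s * Q) P hPp (fun p _ s => by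
      rw [add_mul, ← add_assoc]
      exact (Nat.dvd_add_iff_left (Dvd.intro _ rfl)).symm)
    (fun _ => 1) (fun _ => zero_le_one) (fun p hp => by rw [hr p hp]; norm_num)
    (fun p hp => by rw [hr p hp]; norm_num) (fun p hp => by rw [hr p hp]; exact (hPp p hp).one_lt)
    (10 * y) (by omega) ((range y).image (fun j => 10 * j + 1)) (by
      intro m hm
      obtain ⟨j, hj, rfl⟩ := Finset.mem_image.1 hm
      have hj' := Finset.mem_range.1 hj
      refine ⟨by omega, by omega, fun p hp => ?_⟩
      have hp1 := Nat.prime_of_mem_primeFactors hp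
      have hp2 := Nat.dvd_of_mem_primeFactors hp
      have hp3 := Nat.le_of_dvd (by omega) hp2
      refine Finset.mem_filter.2 ⟨Finset.mem_range.2 (by omega), hp1, fun h => ?_⟩
      have := (Nat.dvd_add_iff_right (Dvd.dvd.mul_right h j)).2 hp2
      exact hp1.one_lt.ne' (Nat.dvd_one.1 this))
    (Real.log (10 * y) / 20) (by positivity) (by
      rw [Finset.sum_image (fun a _ b _ h => by simpa using h)]
      have h1 := log_add_one_le_harmonic y
      have h2 : ((harmonic y : ℚ) : ℝ) / 10 ≤
          ∑ j ∈ range y, cm (fun _ => 1) (10 * j + 1) / ((10 * j + 1 : ℕ) : ℝ) := by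
        unfold harmonic
        push_cast
        rw [Finset.sum_div]
        refine Finset.sum_le_sum (fun j _ => ?_)
        rw [cm_eq]
        simp only [one_pow, Finset.prod_const_one]
        rw [inv_eq_one_div, div_div]
        have : (0 : ℝ) ≤ j := Nat.cast_nonneg j
        exact one_div_le_one_div_of_le (by positivity) (by linarith)
      have h3 : Real.log (10 * y) ≤ 2 * Real.log ((y + 1 : ℕ) : ℝ) := by
        rw [show 2 * Real.log ((y + 1 : ℕ) : ℝ) = Real.log (((y + 1 : ℕ) : ℝ) ^ 2) by
          rw [Real.log_pow]; norm_num]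
        refine Real.log_le_log (by linarith) ?_
        push_cast
        nlinarith
      linarith)
    0 N ((range N).filter (fun s => (c + s * Q).Prime)) (by
      intro s hs
      simpa using (Finset.mem_filter.1 hs).1) (by
      intro s hs p hp hd
      have h1 := (Nat.prime_dvd_prime_iff_eq (hPp p hp) (Finset.mem_filter.1 hs).2).1 hd
      have h2 := Finset.mem_range.1 (Finset.mem_filter.1 hp).1
      omega)
  refine h.trans_eq ?_
  push_cast
  field_simp

end Pool.Agent.H59.BT10
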