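import Mathlib

/-! Second moment computations for additive functions of base `B` digits. -/

set_option autoImplicit false

namespace Pool.Agent.H59.Digits

open Finset

/-- Sum of `φ` over the lowest `t` base `B` digits of `x`. -/
noncomputable def F (B : ℕ) (φ : ℕ → ℝ) (t x : ℕ) : ℝ := ∑ r ∈ range t, φ (x / B ^ r % B)

/-- Centred count of the digit `k` among the lowest `t` base `B` digits of `x`. -/
noncomputable def T (B t x k : ℕ) : ℝ :=
  if k < B then F B (fun y => if y = k then 1 else 0) t x - t / B else 0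

/-- Squared length of the vector of centred digit counts. -/
noncomputable def V (B t x : ℕ) : ℝ := ∑ k ∈ range B, T B t x k ^ 2

lemma F_add (B : ℕ) (φ : ℕ → ℝ) (n k x : ℕ) :
    F B φ (n + k) x = F B φ n x + F B φ k (x / B ^ n) := by
  unfold F
  rw [Finset.sum_range_add]
  congr 1
  refine Finset.sum_congr rfl (fun r _ => ?_)
  rw [pow_add, Nat.div_div_eq_div_mul]

lemma F_mod (B : ℕ) (φ : ℕ → ℝ) (n x : ℕ) : F B φ n (x % B ^ n) = F B φ n x := by
  unfold F
  refine Finset.sum_congr rfl (fun r hr => ?_)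
  have hr := Finset.mem_range.1 hr
  congr 1
  obtain ⟨k, rfl⟩ : ∃ k, n = r + (k + 1) := ⟨n - r - 1, by omega⟩
  rw [pow_add, Nat.mod_mul_right_div_self, pow_succ', Nat.mod_mul_right_mod]

lemma F_succ (B : ℕ) (φ : ℕ → ℝ) (t x β : ℕ) (hβ : β < B) :
    F B φ (t + 1) (x * B + β) = φ β + F B φ t x := by
  rw [add_comm t 1, F_add, pow_one]
  have h1 : (x * B + β) / B = x := by
    rw [add_comm, Nat.add_mul_div_right _ _ (by omega), Nat.div_eq_of_lt hβ, zero_add]
  have h2 : (x * B + β) % B = β := by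
    rw [add_comm, Nat.add_mul_mod_self_right, Nat.mod_eq_of_lt hβ]
  rw [h1]
  simp [F, h2]

lemma sum_range_mul' (f : ℕ → ℝ) (a b : ℕ) :
    ∑ x ∈ range (b * a), f x = ∑ v ∈ range b, ∑ u ∈ range a, f (v * a + u) := by
  induction b with
  | zero => simp
  | succ b ih => rw [Nat.succ_mul, Finset.sum_range_add, ih, Finset.sum_range_succ]

lemma sum_F_sq (B : ℕ) (φ : ℕ → ℝ) (h0 : ∑ k ∈ range B, φ k = 0) (t : ℕ) :
    B * ∑ x ∈ range (B ^ t), F B φ t x ^ 2 = t * B ^ t * ∑ k ∈ range B, φ k ^ 2 := by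
  induction t with
  | zero => simp [F]
  | succ t ih =>
    rw [pow_succ, sum_range_mul']
    have : ∀ x ∈ range (B ^ t), ∑ β ∈ range B, F B φ (t + 1) (x * B + β) ^ 2 =
        ∑ k ∈ range B, φ k ^ 2 + B * F B φ t x ^ 2 := by
      intro x _
      rw [Finset.sum_congr rfl (fun β hβ => by rw [F_succ B φ t x β (Finset.mem_range.1 hβ)])]
      simp only [add_sq, Finset.sum_add_distrib, Finset.sum_const, Finset.card_range,
        nsmul_eq_mul, ← Finset.sum_mul, ← Finset.mul_sum, h0]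
      ring
    rw [Finset.sum_congr rfl this, Finset.sum_add_distrib, ← Finset.mul_sum, ih]
    simp only [Finset.sum_const, Finset.card_range, nsmul_eq_mul]
    push_cast
    ring

lemma sum_abs_F (B : ℕ) (φ : ℕ → ℝ) (h0 : ∑ k ∈ range B, φ k = 0) (t : ℕ) :
    B * (∑ x ∈ range (B ^ t), |F B φ t x|) ^ 2 ≤
      t * ((B : ℝ) ^ t) ^ 2 * ∑ k ∈ range B, φ k ^ 2 := by
  have h := sq_sum_le_card_mul_sum_sq (s := range (B ^ t)) (f := fun x => |F B φ t x|)
  simp only [sq_abs, Finset.card_range] at h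
  have h2 := sum_F_sq B φ h0 t
  push_cast at h
  have hB : (0 : ℝ) ≤ B := Nat.cast_nonneg B
  calc _ ≤ B * ((B : ℝ) ^ t * ∑ x ∈ range (B ^ t), F B φ t x ^ 2) :=
        mul_le_mul_of_nonneg_left h hB
    _ = (B : ℝ) ^ t * (B * ∑ x ∈ range (B ^ t), F B φ t x ^ 2) := by ring
    _ = _ := by rw [h2]; ring

lemma F_eq_sum (B : ℕ) (hB : 0 < B) (φ : ℕ → ℝ) (t x : ℕ) :
    F B φ t x = ∑ k ∈ range B, φ k * F B (fun y => if y = k then 1 else 0) t x := by
  unfold F
  simp only [Finset.mul_sum]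
  rw [Finset.sum_comm]
  refine Finset.sum_congr rfl (fun r _ => ?_)
  rw [Finset.sum_eq_single (x / B ^ r % B)]
  · simp
  · intro k _ hk
    rw [if_neg (Ne.symm hk), mul_zero]
  · intro h
    exact absurd (Finset.mem_range.2 (Nat.mod_lt _ hB)) h

lemma sum_T (B : ℕ) (hB : 0 < B) (t x : ℕ) : ∑ k ∈ range B, T B t x k = 0 := by
  have h := F_eq_sum B hB (fun _ => 1) t x
  have hB' : (B : ℝ) ≠ 0 := by exact_mod_cast hB.ne'
  rw [Finset.sum_congr rfl (fun k hk => by
    rw [T, if_pos (Finset.mem_range.1 hk)]), Finset.sum_sub_distrib]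
  simp only [one_mul] at h
  rw [← h]
  simp [F]
  field_simp
  ring

lemma F_T (B : ℕ) (hB : 0 < B) (t x : ℕ) : F B (T B t x) t x = V B t x := by
  rw [F_eq_sum B hB, V]
  have : ∀ k ∈ range B, T B t x k * F B (fun y => if y = k then 1 else 0) t x =
      T B t x k ^ 2 + T B t x k * (t / B) := by
    intro k hk
    have : F B (fun y => if y = k then 1 else 0) t x = T B t x k + t / B := by
      rw [T, if_pos (Finset.mem_range.1 hk)]; ring
    rw [this]; ring
  rw [Finset.sum_congr rfl this, Finset.sum_add_distrib, ← Finset.sum_mul, sum_T B hB]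
  ring

lemma T_sq_le (B t x k : ℕ) : T B t x k ^ 2 ≤ V B t x := by
  by_cases h : k < B
  · exact Finset.single_le_sum (f := fun k => T B t x k ^ 2) (fun _ _ => sq_nonneg _)
      (Finset.mem_range.2 h)
  · rw [T, if_neg h]
    simp only [ne_eq, OfNat.ofNat_ne_zero, not_false_eq_true, zero_pow]
    exact Finset.sum_nonneg (fun _ _ => sq_nonneg _)

lemma V_mod (B t x : ℕ) : V B t (x % B ^ t) = V B t x := by
  unfold V T
  simp only [F_mod]

lemma V_succ (B t x β : ℕ) (hβ : β < B) :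
    V B (t + 1) (x * B + β) = V B t x + 2 * T B t x β + (1 - 1 / B) := by
  have hB : 0 < B := by omega
  have hB' : (B : ℝ) ≠ 0 := by exact_mod_cast hB.ne'
  have h1 : ∀ k ∈ range B, T B (t + 1) (x * B + β) k ^ 2 =
      T B t x k ^ 2 + 2 * (if β = k then T B t x k else 0) - 2 / B * T B t x k +
        (if β = k then 1 - 2 / (B : ℝ) else 0) + 1 / (B : ℝ) ^ 2 := by
    intro k hk
    have hk' := Finset.mem_range.1 hk
    rw [T, T, if_pos hk', if_pos hk', F_succ B _ t x β hβ]
    push_cast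
    split_ifs <;> ring
  unfold V
  rw [Finset.sum_congr rfl h1]
  simp only [Finset.sum_add_distrib, Finset.sum_sub_distrib, ← Finset.mul_sum, sum_T B hB,
    Finset.sum_ite_eq, Finset.mem_range, hβ, if_true, Finset.sum_const, Finset.card_range,
    nsmul_eq_mul]
  field_simp
  ring

lemma sum_V (B : ℕ) (hB : 0 < B) (t : ℕ) :
    ∑ x ∈ range (B ^ t), V B t x = B ^ t * (t * (1 - 1 / B)) := by
  induction t with
  | zero => simp [V, T, F]
  | succ t ih =>
    rw [pow_succ, sum_range_mul']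
    have : ∀ x ∈ range (B ^ t), ∑ β ∈ range B, V B (t + 1) (x * B + β) =
        B * V B t x + B * (1 - 1 / B) := by
      intro x _
      rw [Finset.sum_congr rfl (fun β hβ => V_succ B t x β (Finset.mem_range.1 hβ))]
      simp only [Finset.sum_add_distrib, Finset.sum_const, Finset.card_range,
        nsmul_eq_mul, ← Finset.mul_sum, sum_T B hB]
      ring
    rw [Finset.sum_congr rfl this, Finset.sum_add_distrib, ← Finset.mul_sum, ih]
    simp only [Finset.sum_const, Finset.card_range, nsmul_eq_mul]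
    push_cast
    ring

lemma sum_W_sq (B : ℕ) (hB : 0 < B) (t : ℕ) :
    (B : ℝ) * ∑ x ∈ range (B ^ t), (V B t x - t * (1 - 1 / B)) ^ 2 ≤
      2 * (t : ℝ) ^ 2 * (B : ℝ) ^ t := by
  induction t with
  | zero => simp [V, T, F]
  | succ t ih =>
    rw [pow_succ B t, sum_range_mul']
    have : ∀ x ∈ range (B ^ t), ∑ β ∈ range B,
        (V B (t + 1) (x * B + β) - ((t + 1 : ℕ) : ℝ) * (1 - 1 / B)) ^ 2 =
        B * (V B t x - t * (1 - 1 / B)) ^ 2 + 4 * V B t x := by
      intro x _
      have e : ∀ β ∈ range B, (V B (t + 1) (x * B + β) - ((t + 1 : ℕ) : ℝ) * (1 - 1 / B)) ^ 2 =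
          (V B t x - t * (1 - 1 / B)) ^ 2 + 4 * (V B t x - t * (1 - 1 / B)) * T B t x β +
            4 * T B t x β ^ 2 := by
        intro β hβ
        rw [V_succ B t x β (Finset.mem_range.1 hβ)]
        push_cast
        ring
      rw [Finset.sum_congr rfl e]
      simp only [Finset.sum_add_distrib, Finset.sum_const, Finset.card_range,
        nsmul_eq_mul, ← Finset.mul_sum, sum_T B hB]
      rw [V]
      ring
    rw [Finset.sum_congr rfl this, Finset.sum_add_distrib, ← Finset.mul_sum, ← Finset.mul_sum,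
      sum_V B hB]
    have hB' : (0 : ℝ) < B := by exact_mod_cast hB
    have h1 : 0 ≤ 1 / (B : ℝ) := by positivity
    have h2 : (0 : ℝ) ≤ t := Nat.cast_nonneg t
    have h3 : (0 : ℝ) < (B : ℝ) ^ t := by positivity
    have h4 := mul_le_mul_of_nonneg_left ih hB'.le
    have h5 : 0 ≤ B * (B : ℝ) ^ t * (t * (1 / B)) := by positivity
    have h6 : 0 ≤ B * (B : ℝ) ^ t := by positivity
    push_cast
    rw [pow_succ (B : ℝ) t]
    nlinarith

/-- Few `x` have a short vector of centred digit counts. -/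
lemma card_small_V (B : ℕ) (hB : 4 ≤ B) (t : ℕ) (ht : 0 < t) (A : ℕ) :
    B * (((range (A * B ^ t)).filter (fun x => V B t x < t / 2)).card : ℝ) ≤ 32 * (A * B ^ t) := by
  have hB' : (4 : ℝ) ≤ B := by exact_mod_cast hB
  have ht' : (0 : ℝ) < t := by exact_mod_cast ht
  have h1 : ∑ x ∈ range (A * B ^ t), (V B t x - t * (1 - 1 / B)) ^ 2 =
      (A : ℝ) * ∑ x ∈ range (B ^ t), (V B t x - t * (1 - 1 / B)) ^ 2 := by
    rw [sum_range_mul']
    have : ∀ v ∈ range A, ∑ u ∈ range (B ^ t), (V B t (v * B ^ t + u) - t * (1 - 1 / B)) ^ 2 =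
        ∑ x ∈ range (B ^ t), (V B t x - t * (1 - 1 / B)) ^ 2 := by
      intro v _
      refine Finset.sum_congr rfl (fun u _ => ?_)
      rw [← V_mod B t (v * B ^ t + u), add_comm, Nat.add_mul_mod_self_right, V_mod]
    rw [Finset.sum_congr rfl this]
    simp
  have h2 : (((range (A * B ^ t)).filter (fun x => V B t x < t / 2)).card : ℝ) * (t / 4) ^ 2 ≤
      ∑ x ∈ range (A * B ^ t), (V B t x - t * (1 - 1 / B)) ^ 2 := by
    rw [← nsmul_eq_mul, ← Finset.sum_const]
    refine le_trans (Finset.sum_le_sum (fun x hx => ?_))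
      (Finset.sum_le_sum_of_subset_of_nonneg (Finset.filter_subset _ _) (fun _ _ _ => sq_nonneg _))
    have h3 := (Finset.mem_filter.1 hx).2
    have h4 : 1 / (B : ℝ) ≤ 1 / 4 := one_div_le_one_div_of_le (by norm_num) hB'
    have h5 : (t : ℝ) / 4 ≤ t * (1 - 1 / B) - V B t x := by nlinarith
    nlinarith
  have h3 := sum_W_sq B (by omega) t
  rw [h1] at h2
  have h4 := mul_le_mul_of_nonneg_left h2 (by linarith : (0 : ℝ) ≤ B)
  have h5 := mul_le_mul_of_nonneg_left h3 (Nat.cast_nonneg A : (0 : ℝ) ≤ A)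
  have h6 : (B * (((range (A * B ^ t)).filter (fun x => V B t x < t / 2)).card : ℝ)) * t ^ 2 ≤
      (32 * (A * B ^ t)) * t ^ 2 := by nlinarith
  exact le_of_mul_le_mul_right h6 (by positivity)

end Pool.Agent.H59.Digits
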