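import Mathlib
import Pool.Agent.H59.Digits
import Pool.Agent.H59.BT10

/-! Auxiliary facts on the stream of decimal digits of the concatenated primes. -/

set_option autoImplicit false

namespace Pool.Agent.H59.CE1

open Finset Filter Pool.Agent.H59.Digits

/-- The `i`-th prime. -/
noncomputable def P (i : ℕ) : ℕ := Nat.nth Nat.Prime i

/-- Number of digits written before the `n`-th prime. -/
noncomputable def pos (n : ℕ) : ℕ :=
  ((List.range n).map (fun i => (Nat.digits 10 (Nat.nth Nat.Prime i)).length)).sum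

/-- The hypothesis that `d` is the digit stream. -/
def Stream (d : ℕ → ℕ) : Prop :=
  ∀ n : ℕ, (List.range (pos n)).map d =
    (List.range n).flatMap (fun i => (Nat.digits 10 (Nat.nth Nat.Prime i)).reverse)

/-- The value of the `j`-th block of length `m`. -/
def blk (d : ℕ → ℕ) (m j : ℕ) : ℕ := ∑ i ∈ range m, d (j * m + i) * 10 ^ (m - 1 - i)

/-- Indicator of primes. -/
noncomputable def ι (n : ℕ) : ℝ := if n.Prime then 1 else 0

lemma ι_nonneg (n : ℕ) : 0 ≤ ι n := by unfold ι; split_ifs <;> norm_num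

lemma pos_succ (n : ℕ) : pos (n + 1) = pos n + (Nat.digits 10 (P n)).length := by
  simp [pos, P, List.range_succ]

lemma P_prime (i : ℕ) : (P i).Prime := Nat.nth_mem_of_infinite Nat.infinite_setOfPred_prime i

lemma le_pos (n : ℕ) : n ≤ pos n := by
  induction n with
  | zero => exact Nat.zero_le _
  | succ n ih =>
    rw [pos_succ, Nat.length_digits 10 _ (by norm_num) (P_prime n).ne_zero]
    omega

lemma len_eq (i L : ℕ) (h1 : 10 ^ L ≤ P i) (h2 : P i < 10 ^ (L + 1)) :
    (Nat.digits 10 (P i)).length = L + 1 := by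
  rw [Nat.length_digits 10 _ (by norm_num) (P_prime i).ne_zero,
    Nat.log_eq_of_pow_le_of_lt_pow h1 h2]

lemma pos_le (L n : ℕ) (hn : n ≤ Nat.count Nat.Prime (10 ^ L)) : pos n ≤ n * L := by
  induction n with
  | zero => simp [pos]
  | succ n ih =>
    rw [pos_succ]
    have h1 : P n < 10 ^ L := Nat.nth_lt_of_lt_count (by omega)
    have h2 := (Nat.digits_length_le_iff (by norm_num : 1 < 10) (P n)).2 h1
    have := ih (by omega)
    rw [Nat.succ_mul]
    omega

lemma dig (d : ℕ → ℕ) (hd : Stream d) (i r : ℕ) (hr : r < (Nat.digits 10 (P i)).length) :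
    d (pos i + r) = P i / 10 ^ ((Nat.digits 10 (P i)).length - 1 - r) % 10 := by
  unfold P at hr
  have h1 := hd (i + 1)
  have h0 := congrArg List.length (hd i)
  rw [List.length_map, List.length_range] at h0
  rw [List.range_succ, List.flatMap_append] at h1
  have h2 := congrArg (fun l => l[pos i + r]?) h1
  simp only [List.flatMap_cons, List.flatMap_nil, List.append_nil] at h2
  rw [List.getElem?_map, List.getElem?_range (by rw [pos_succ, P]; omega),
    List.getElem?_append_right (by omega), ← h0, Nat.add_sub_cancel_left,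
    List.getElem?_reverse hr] at h2
  rw [← Nat.getD_digits _ _ (by norm_num : 2 ≤ 10), List.getD_eq_getElem?_getD]
  unfold P
  rw [← h2]
  rfl

lemma digit_sum (x e m : ℕ) :
    ∑ i ∈ range m, x / 10 ^ (e + i) % 10 * 10 ^ i = x / 10 ^ e % 10 ^ m := by
  induction m with
  | zero => simp [Nat.mod_one]
  | succ m ih =>
    rw [Finset.sum_range_succ, ih, Nat.mod_pow_succ, Nat.div_div_eq_div_mul, ← pow_add, mul_comm]

lemma blk_eq (d : ℕ → ℕ) (hd : Stream d) (i m j r e : ℕ) (hj : j * m = pos i + r)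
    (hlen : (Nat.digits 10 (P i)).length = r + m + e) : blk d m j = P i / 10 ^ e % 10 ^ m := by
  rw [← digit_sum, ← Finset.sum_range_reflect]
  unfold blk
  refine Finset.sum_congr rfl (fun k hk => ?_)
  have hk' := Finset.mem_range.1 hk
  rw [hj, add_assoc, dig d hd i (r + k) (by omega), hlen]
  congr 4
  omega

lemma sum_primes (G : ℕ → ℝ) (a U : ℕ) :
    ∑ i ∈ Ico (Nat.count Nat.Prime a) (Nat.count Nat.Prime (a + U)), G (P i) =
      ∑ x ∈ range U, ι (a + x) * G (a + x) := by
  induction U with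
  | zero => simp
  | succ U ih =>
    rw [Finset.sum_range_succ, ← ih, ← add_assoc, Nat.count_succ]
    unfold ι
    split_ifs with h
    · rw [Finset.sum_Ico_succ_top (Nat.count_monotone _ (by omega)), P, Nat.nth_count h, one_mul]
    · simp

lemma count_diff (a U : ℕ) : (Nat.count Nat.Prime (a + U) : ℝ) - Nat.count Nat.Prime a =
    ∑ x ∈ range U, ι (a + x) := by
  have h := sum_primes (fun _ => 1) a U
  simp only [Finset.sum_const, Nat.card_Ico, nsmul_eq_mul, mul_one] at h
  rw [← h, Nat.cast_sub (Nat.count_monotone _ (by omega))]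

lemma cheb : ∀ᶠ w : ℕ in atTop, 3 * (w : ℝ) / Real.log (10 * w) ≤
    (Nat.count Nat.Prime (10 * w) : ℝ) - Nat.count Nat.Prime w := by
  have h1 := tendsto_natCast_atTop_atTop (R := ℝ) |>.eventually
    (Chebyshev.eventually_primeCounting_le (ε := 0.1) (by norm_num))
  have hl : Tendsto (fun n : ℕ => Real.log n) atTop atTop :=
    Real.tendsto_log_atTop.comp tendsto_natCast_atTop_atTop
  filter_upwards [h1, hl.eventually_ge_atTop 30, eventually_ge_atTop 100] with w hw hw2 hw3
  rw [Nat.floor_natCast] at hw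
  have hwr : (100 : ℝ) ≤ w := by exact_mod_cast hw3
  have h2 := Chebyshev.pi_ge (10 * w)
  push_cast at h2
  have hl10 : Real.log 10 ≤ 3 := by
    have : Real.log 10 ≤ Real.log (2 ^ 4) := Real.log_le_log (by norm_num) (by norm_num)
    rw [Real.log_pow] at this
    have := Real.log_two_lt_d9
    push_cast at *
    linarith
  have hl10' : 0 ≤ Real.log 10 := Real.log_nonneg (by norm_num)
  have e1 : Real.log (10 * w) = Real.log 10 + Real.log w := Real.log_mul (by norm_num) (by linarith)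
  set l := Real.log (10 * w) with hldef
  have hl0 : 0 < l := by linarith
  have h3 : Real.log (10 * w + 1) ≤ 2 * l := by
    rw [hldef, show 2 * Real.log (10 * w) = Real.log ((10 * (w : ℝ)) ^ 2) by
      rw [Real.log_pow]; norm_num]
    exact Real.log_le_log (by linarith) (by nlinarith)
  have hl2 := Real.log_two_gt_d9
  have hl2' := Real.log_two_lt_d9
  have hl4 : Real.log 4 = 2 * Real.log 2 := by
    rw [show (4 : ℝ) = 2 ^ 2 by norm_num, Real.log_pow]; norm_num
  set u := (w : ℝ) / l with hu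
  have hu0 : 0 < u := by positivity
  have hul : u * l = w := div_mul_cancel₀ _ hl0.ne'
  have a1 : 6.9 * u - 2 ≤ (Nat.primeCounting (10 * w) : ℝ) := by
    refine le_trans ?_ h2
    rw [le_div_iff₀ hl0]
    nlinarith
  have a2 : (Nat.primeCounting w : ℝ) ≤ 1.65 * u := by
    refine hw.trans ?_
    rw [div_le_iff₀ (by linarith), hl4]
    have : (w : ℝ) ≤ u * (1.1 * Real.log w) := by
      exact hul.symm.trans_le (mul_le_mul_of_nonneg_left (by linarith) hu0.le)
    nlinarith
  have a3 : 2 ≤ u := by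
    rw [hu, le_div_iff₀ hl0]
    have := Real.log_le_sub_one_of_pos (x := (w : ℝ) / 10) (by positivity)
    rw [Real.log_div (by linarith) (by norm_num)] at this
    linarith
  have a4 : (Nat.primeCounting (10 * w) : ℝ) ≤ Nat.count Nat.Prime (10 * w) + 1 := by
    have : Nat.primeCounting (10 * w) ≤ Nat.count Nat.Prime (10 * w) + 1 := by
      change Nat.count Nat.Prime (10 * w + 1) ≤ _
      rw [Nat.count_succ]
      split_ifs <;> omega
    exact_mod_cast this
  have a5 : (Nat.count Nat.Prime w : ℝ) ≤ Nat.primeCounting w := by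
    have : Nat.count Nat.Prime w ≤ Nat.primeCounting w := Nat.count_monotone _ (Nat.le_succ w)
    exact_mod_cast this
  have : 3 * (w : ℝ) / l = 3 * u := by rw [hu]; ring
  linarith

lemma BT' (Q c N y : ℕ) (hQ : ∀ p : ℕ, p.Prime → p ∣ Q → p ∣ 10) (hy : 10 ≤ y)
    (hc : 10 * y < c) :
    ∑ s ∈ range N, ι (c + s * Q) ≤ 20 * N / Real.log (10 * y) + 2 * (10 * (y : ℝ)) ^ 4 := by
  refine le_trans (le_of_eq ?_) (Pool.Agent.H59.BT10.BT Q c N y hQ hy hc)
  unfold ι
  rw [Finset.sum_boole]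

/-- Lower bound for the sum of the additive function over the primes with a fixed top block. -/
lemma core (B t R τ : ℕ) (hR : 0 < R) (φ : ℕ → ℝ) (K : ℝ)
    (hK1 : ∀ μ, ∑ s ∈ range (B ^ t * R), ι (τ * (B ^ t * (B ^ t * R)) + (μ * (B ^ t * R) + s)) ≤ K)
    (hK2 : ∀ l, ∑ ρ ∈ range R, ∑ μ ∈ range (B ^ t),
      ι (τ * (B ^ t * (B ^ t * R)) + (μ * (B ^ t * R) + (l * R + ρ))) ≤ K) :
    (∑ x ∈ range (B ^ t * (B ^ t * R)), ι (τ * (B ^ t * (B ^ t * R)) + x)) * F B φ t τ -
      2 * K * ∑ μ ∈ range (B ^ t), |F B φ t μ| ≤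
    ∑ x ∈ range (B ^ t * (B ^ t * R)), ι (τ * (B ^ t * (B ^ t * R)) + x) *
      F B φ (3 * t) ((τ * (B ^ t * (B ^ t * R)) + x) / R) := by
  set N := B ^ t with hN
  set c := τ * (N * (N * R)) with hc
  have e : ∀ μ ∈ range N, ∀ l ∈ range N, ∀ ρ ∈ range R,
      F B φ (3 * t) ((c + (μ * (N * R) + (l * R + ρ))) / R) =
        F B φ t l + F B φ t μ + F B φ t τ := by
    intro μ hμ l hl ρ hρ
    have hμ' := Finset.mem_range.1 hμ
    have hl' := Finset.mem_range.1 hl
    have hρ' := Finset.mem_range.1 hρ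
    have e1 : (c + (μ * (N * R) + (l * R + ρ))) / R = l + (μ + τ * N) * N := by
      have : c + (μ * (N * R) + (l * R + ρ)) = ρ + (l + (μ + τ * N) * N) * R := by rw [hc]; ring
      rw [this, Nat.add_mul_div_right _ _ hR, Nat.div_eq_of_lt hρ', zero_add]
    have e2 : (l + (μ + τ * N) * N) / N = μ + τ * N := by
      rw [Nat.add_mul_div_right _ _ (by omega), Nat.div_eq_of_lt hl', zero_add]
    have e3 : (μ + τ * N) / N = τ := by
      rw [Nat.add_mul_div_right _ _ (by omega), Nat.div_eq_of_lt hμ', zero_add]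
    rw [e1, show 3 * t = t + (t + t) by ring, F_add, F_add, ← hN, e2, e3,
      ← F_mod B φ t (l + _), ← F_mod B φ t (μ + _), ← hN, Nat.add_mul_mod_self_right,
      Nat.add_mul_mod_self_right, hN, F_mod, F_mod, add_assoc]
  have s1 : ∑ x ∈ range (N * (N * R)), ι (c + x) * F B φ (3 * t) ((c + x) / R) =
      ∑ μ ∈ range N, ∑ l ∈ range N, ∑ ρ ∈ range R, ι (c + (μ * (N * R) + (l * R + ρ))) *
        (F B φ t l + F B φ t μ + F B φ t τ) := by
    rw [sum_range_mul']
    refine Finset.sum_congr rfl (fun μ hμ => ?_)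
    rw [sum_range_mul']
    refine Finset.sum_congr rfl (fun l hl => Finset.sum_congr rfl (fun ρ hρ => ?_))
    rw [e μ hμ l hl ρ hρ]
  have s2 : ∑ x ∈ range (N * (N * R)), ι (c + x) =
      ∑ μ ∈ range N, ∑ l ∈ range N, ∑ ρ ∈ range R, ι (c + (μ * (N * R) + (l * R + ρ))) := by
    rw [sum_range_mul']
    refine Finset.sum_congr rfl (fun μ _ => ?_)
    rw [sum_range_mul']
  have s3 : -(K * ∑ μ ∈ range N, |F B φ t μ|) ≤ ∑ μ ∈ range N, ∑ l ∈ range N, ∑ ρ ∈ range R,
      ι (c + (μ * (N * R) + (l * R + ρ))) * F B φ t μ := by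
    rw [Finset.mul_sum, ← Finset.sum_neg_distrib]
    refine Finset.sum_le_sum (fun μ _ => ?_)
    simp only [← Finset.sum_mul]
    have h1 := hK1 μ
    rw [sum_range_mul'] at h1
    have h2 : 0 ≤ ∑ l ∈ range N, ∑ ρ ∈ range R, ι (c + (μ * (N * R) + (l * R + ρ))) :=
      Finset.sum_nonneg (fun _ _ => Finset.sum_nonneg (fun _ _ => ι_nonneg _))
    have h3 := neg_abs_le (F B φ t μ)
    have h4 := abs_nonneg (F B φ t μ)
    nlinarith
  have s4 : -(K * ∑ μ ∈ range N, |F B φ t μ|) ≤ ∑ μ ∈ range N, ∑ l ∈ range N, ∑ ρ ∈ range R,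
      ι (c + (μ * (N * R) + (l * R + ρ))) * F B φ t l := by
    rw [Finset.sum_comm, Finset.mul_sum, ← Finset.sum_neg_distrib]
    refine Finset.sum_le_sum (fun l _ => ?_)
    rw [Finset.sum_comm]
    simp only [← Finset.sum_mul]
    have h1 := hK2 l
    have h2 : 0 ≤ ∑ ρ ∈ range R, ∑ μ ∈ range N, ι (c + (μ * (N * R) + (l * R + ρ))) :=
      Finset.sum_nonneg (fun _ _ => Finset.sum_nonneg (fun _ _ => ι_nonneg _))
    have h3 := neg_abs_le (F B φ t l)
    have h4 := abs_nonneg (F B φ t l)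
    nlinarith
  rw [s1, s2]
  simp only [mul_add, Finset.sum_add_distrib, Finset.sum_mul]
  linarith

/-- The blocks covering a run of primes of the same length. -/
lemma stream_sum (d : ℕ → ℕ) (hd : Stream d) (m t a J i₁ k : ℕ) (ha : a ≤ m)
    (hJ : J * m = pos i₁ + a)
    (hlen : ∀ u < k, (Nat.digits 10 (P (i₁ + u))).length = m * (3 * t + 1)) (φ : ℕ → ℝ) (W : ℝ)
    (hW : ∀ y, |φ y| ≤ W) :
    ∑ i ∈ Ico i₁ (i₁ + k), F (10 ^ m) φ (3 * t) (P i / 10 ^ (m - a)) - k * W ≤
      ∑ j ∈ range (J + k * (3 * t + 1)), φ (blk d m j) - ∑ j ∈ range J, φ (blk d m j) := by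
  have hpos : ∀ u ≤ k, pos (i₁ + u) = pos i₁ + u * (m * (3 * t + 1)) := by
    intro u hu
    induction u with
    | zero => simp
    | succ u ih => rw [← add_assoc, pos_succ, ih (by omega), hlen u (by omega)]; ring
  rw [Finset.sum_range_add, add_sub_cancel_left, sum_range_mul', Finset.sum_Ico_eq_sum_range,
    Nat.add_sub_cancel_left]
  have : (k : ℝ) * W = ∑ _u ∈ range k, W := by simp
  rw [this, ← Finset.sum_sub_distrib]
  refine Finset.sum_le_sum (fun u hu => ?_)
  have hu' := Finset.mem_range.1 hu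
  rw [Finset.sum_range_succ]
  have h1 : ∑ r ∈ range (3 * t), φ (blk d m (J + (u * (3 * t + 1) + r))) =
      F (10 ^ m) φ (3 * t) (P (i₁ + u) / 10 ^ (m - a)) := by
    unfold F
    rw [← Finset.sum_range_reflect]
    refine Finset.sum_congr rfl (fun r hr => ?_)
    have hr' := Finset.mem_range.1 hr
    obtain ⟨r', hr''⟩ : ∃ r', 3 * t = r + r' + 1 := ⟨3 * t - 1 - r, by omega⟩
    obtain ⟨a', rfl⟩ : ∃ a', m = a + a' := ⟨m - a, by omega⟩
    rw [blk_eq d hd (i₁ + u) (a + a') _ (a + r' * (a + a')) (a' + (a + a') * r)]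
    · rw [Nat.add_sub_cancel_left, Nat.div_div_eq_div_mul, ← pow_mul, ← pow_add]
    · rw [hpos u hu'.le, show 3 * t - 1 - r = r' by omega, add_mul, hJ]; ring
    · rw [hlen u hu', hr'']; ring
  rw [h1]
  linarith [neg_abs_le (φ (blk d m (J + (u * (3 * t + 1) + 3 * t)))), hW
    (blk d m (J + (u * (3 * t + 1) + 3 * t)))]

lemma total_bound (g : ℕ → ℕ) (B n : ℕ) (φ : ℕ → ℝ) (h0 : ∑ k ∈ range B, φ k = 0)
    (h1 : ∀ k, B ≤ k → φ k = 0) (W E : ℝ) (hW : ∀ y, |φ y| ≤ W)
    (hE : ∀ k < B, |(((range n).filter (fun j => g j = k)).card : ℝ) - n / B| ≤ E) :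
    |∑ j ∈ range n, φ (g j)| ≤ B * (W * E) := by
  have e : ∑ j ∈ range n, φ (g j) =
      ∑ k ∈ range B, φ k * ((((range n).filter (fun j => g j = k)).card : ℝ) - n / B) := by
    simp only [mul_sub, Finset.sum_sub_distrib, ← Finset.sum_mul, h0, zero_mul, sub_zero]
    simp only [Finset.card_filter, Nat.cast_sum, Finset.mul_sum]
    rw [Finset.sum_comm]
    refine Finset.sum_congr rfl (fun j _ => ?_)
    by_cases h : g j < B
    · rw [Finset.sum_eq_single (g j)]
      · simp
      · intro k _ hk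
        simp [Ne.symm hk]
      · intro h'
        exact absurd (Finset.mem_range.2 h) h'
    · rw [h1 _ (not_lt.1 h)]
      refine (Finset.sum_eq_zero (fun k hk => ?_)).symm
      have : g j ≠ k := by have := Finset.mem_range.1 hk; omega
      simp [this]
  rw [e]
  refine (Finset.abs_sum_le_sum_abs _ _).trans ?_
  refine (Finset.sum_le_sum (g := fun _ => W * E) (fun k hk => ?_)).trans_eq (by simp)
  rw [abs_mul]
  exact mul_le_mul (hW k) (hE k (Finset.mem_range.1 hk)) (abs_nonneg _)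
    ((abs_nonneg _).trans (hW k))

end Pool.Agent.H59.CE1
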