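import Mathlib
import Pool.Agent.H59.CE1

/-! The concatenated primes violate the square root bound for blocks of length ten. -/

set_option autoImplicit false

namespace Pool.Agent.H59.CE2

open Finset Filter Pool.Agent.H59.Digits Pool.Agent.H59.CE1

lemma BT2 (Q c n y N : ℕ) (hQ : ∀ p : ℕ, p.Prime → p ∣ Q → p ∣ 10) (hy : 10 ≤ y)
    (hc : 10 * y < c) (hN : N = (10 * y) ^ 5) (hn : N ≤ n) :
    ∑ s ∈ range n, ι (c + s * Q) ≤ 21 * (n / Real.log (10 * y)) := by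
  refine (BT' Q c n y hQ hy hc).trans ?_
  have hy' : (10 : ℝ) ≤ y := by exact_mod_cast hy
  set z : ℝ := 10 * y with hz
  have hz0 : 0 < z := by linarith
  have hlog : 0 < Real.log z := Real.log_pos (by linarith)
  have h1 : 2 * Real.log z ≤ z := by
    have := Real.log_le_sub_one_of_pos (x := z / 4) (by positivity)
    rw [Real.log_div hz0.ne' (by norm_num)] at this
    have h4 : Real.log 4 ≤ 4 - 1 := Real.log_le_sub_one_of_pos (by norm_num)
    linarith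
  have h2 : z ^ 5 ≤ n := by
    have : ((10 * y) ^ 5 : ℕ) ≤ n := hN ▸ hn
    rw [hz]; exact_mod_cast this
  have h3 : 2 * z ^ 4 ≤ n / Real.log z := by
    rw [le_div_iff₀ hlog]
    have : 0 < z ^ 4 := by positivity
    nlinarith
  have : 20 * (n : ℝ) / Real.log z = 20 * (n / Real.log z) := by ring
  linarith

lemma good_tau (B t A' U : ℕ) (hB : 100000 ≤ B) (ht : 0 < t) (X : ℝ) (hX : 0 < X)
    (hup : ∀ τ, A' * B ^ t ≤ τ → ∑ x ∈ range U, ι (τ * U + x) ≤ 21 * X)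
    (hlow : (10 * A' * B ^ t : ℝ) * X / 60 < (Nat.count Nat.Prime (10 * A' * B ^ t * U) : ℝ) -
      Nat.count Nat.Prime (A' * B ^ t * U)) :
    ∃ τ, A' * B ^ t ≤ τ ∧ τ < 10 * A' * B ^ t ∧ (t : ℝ) / 2 ≤ V B t τ ∧
      X / 120 ≤ ∑ x ∈ range U, ι (τ * U + x) := by
  classical
  by_contra hcon
  push Not at hcon
  have hle : A' * B ^ t ≤ 10 * A' * B ^ t := Nat.mul_le_mul_right _ (by omega)
  have h1 : (Nat.count Nat.Prime (10 * A' * B ^ t * U) : ℝ) -
      Nat.count Nat.Prime (A' * B ^ t * U) =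
      ∑ τ ∈ Ico (A' * B ^ t) (10 * A' * B ^ t), ∑ x ∈ range U, ι (τ * U + x) := by
    rw [← Finset.sum_Ico_sub (fun τ => (Nat.count Nat.Prime (τ * U) : ℝ)) hle]
    refine Finset.sum_congr rfl (fun τ _ => ?_)
    rw [← count_diff, Nat.succ_mul]
  have h2 : ∑ τ ∈ Ico (A' * B ^ t) (10 * A' * B ^ t), ∑ x ∈ range U, ι (τ * U + x) ≤
      ∑ τ ∈ range (10 * A' * B ^ t), ((if V B t τ < t / 2 then 21 * X else 0) + X / 120) := by
    refine le_trans (Finset.sum_le_sum (fun τ hτ => ?_))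
      (Finset.sum_le_sum_of_subset_of_nonneg (fun τ hτ => Finset.mem_range.2
        (Finset.mem_Ico.1 hτ).2) (fun τ _ _ => by split_ifs <;> positivity))
    obtain ⟨a1, a2⟩ := Finset.mem_Ico.1 hτ
    split_ifs with h
    · linarith [hup τ a1]
    · linarith [hcon τ a1 a2 (not_lt.1 h)]
  rw [Finset.sum_add_distrib, ← Finset.sum_filter, Finset.sum_const, Finset.sum_const,
    Finset.card_range, nsmul_eq_mul, nsmul_eq_mul] at h2
  have h3 := card_small_V B (by omega) t ht (10 * A')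
  have hB' : (100000 : ℝ) ≤ B := by exact_mod_cast hB
  push_cast at h2 h3
  set C : ℝ := (((range (10 * A' * B ^ t)).filter (fun x => V B t x < t / 2)).card : ℝ) with hC
  have hC0 : 0 ≤ C := Nat.cast_nonneg _
  set M : ℝ := 10 * A' * (B : ℝ) ^ t with hM
  have h4 : 100000 * C ≤ 32 * M := by nlinarith
  have h5 := mul_le_mul_of_nonneg_right h4 hX.le
  have hM0 : 0 ≤ M * X := by positivity
  nlinarith

lemma final_ineq (X Nτ W r σ E b N K S : ℝ) (hX : 0 < X) (hN : X / 120 ≤ Nτ) (hr : 5 ≤ r)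
    (hW0 : 0 ≤ W) (hW : r ^ 2 / 2 ≤ W ^ 2) (hb : b = 100000) (hN0 : 0 < N)
    (hσ : b ^ 2 * σ ^ 2 ≤ r ^ 2 * N ^ 2 * W ^ 2) (hK : K * N = 21 * X)
    (h1 : Nτ * W ^ 2 - 2 * K * σ - Nτ * W ≤ S) (h2 : S ≤ 2 * (b ^ 2 * (W * E))) :
    X ≤ 108 * b ^ 2 * E := by
  have hW1 : 0.7 * r ≤ W := by
    by_contra h
    have : W ^ 2 < (0.7 * r) ^ 2 := pow_lt_pow_left₀ (not_le.1 h) hW0 (by norm_num)
    nlinarith
  have hWp : 0 < W := by linarith
  have hσ1 : b * σ ≤ r * N * W := by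
    refine le_of_sq_le_sq ?_ (by positivity)
    rw [mul_pow, mul_pow, mul_pow]; exact hσ
  have hK0 : 0 < K := by
    by_contra h
    have : K * N ≤ 0 := mul_nonpos_of_nonpos_of_nonneg (not_lt.1 h) hN0.le
    linarith
  have h3 : K * (b * σ) ≤ 21 * X * r * W := by
    calc K * (b * σ) ≤ K * (r * N * W) := mul_le_mul_of_nonneg_left hσ1 hK0.le
      _ = (K * N) * r * W := by ring
      _ = _ := by rw [hK]
  have h4 : X / 120 * (r / 2) ≤ Nτ * (W - 1) :=
    mul_le_mul hN (by linarith) (by linarith) (by linarith)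
  have h5 : (X / 120 * (r / 2)) * W ≤ (Nτ * (W - 1)) * W := mul_le_mul_of_nonneg_right h4 hW0
  have h6 : (X * r / 270) * W ≤ (2 * b ^ 2 * E) * W := by
    subst hb
    have : 0 ≤ X * r * W := by positivity
    nlinarith
  have h7 := le_of_mul_le_mul_right h6 hWp
  nlinarith

lemma E_bound (n L : ℕ) (Z : ℝ) (hZ : Z ^ 2 = 10 ^ L) (hZ0 : 0 ≤ Z) (h3 : 3 ≤ n)
    (hn : n ≤ 10 ^ L * L) : 2 * Real.sqrt (2 * n * Real.log (Real.log n)) ≤ 8 * L * Z := by
  have hn' : (3 : ℝ) ≤ n := by exact_mod_cast h3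
  have h1 : 0 < Real.log n := Real.log_pos (by linarith)
  have h2 : Real.log (Real.log n) ≤ Real.log n := by
    linarith [Real.log_le_sub_one_of_pos h1]
  have hL : L ≤ 10 ^ L := (Nat.lt_pow_self (by norm_num)).le
  have h4 : (n : ℝ) ≤ 16 ^ (2 * L) := by
    have a1 : n ≤ 10 ^ L * 10 ^ L := hn.trans (Nat.mul_le_mul_left _ hL)
    have a2 : 10 ^ L ≤ 16 ^ L := Nat.pow_le_pow_left (by norm_num) L
    have a3 : n ≤ 16 ^ (2 * L) := by
      rw [two_mul, pow_add]; exact a1.trans (Nat.mul_le_mul a2 a2)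
    exact_mod_cast a3
  have h5 : Real.log n ≤ 6 * L := by
    have := Real.log_le_log (by linarith) h4
    rw [Real.log_pow, show (16 : ℝ) = 2 ^ 4 by norm_num, Real.log_pow] at this
    have h2 := Real.log_two_lt_d9
    push_cast at this
    have : (0 : ℝ) ≤ L := Nat.cast_nonneg L
    nlinarith
  have h6 : (n : ℝ) ≤ Z ^ 2 * L := by rw [hZ]; exact_mod_cast hn
  have h7 : Real.sqrt (2 * n * Real.log (Real.log n)) ≤ 4 * L * Z := by
    apply Real.sqrt_le_iff.2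
    refine ⟨by positivity, ?_⟩
    calc 2 * n * Real.log (Real.log n) ≤ 2 * n * (6 * L) :=
          mul_le_mul_of_nonneg_left (h2.trans h5) (by positivity)
      _ ≤ 2 * (Z ^ 2 * L) * (6 * L) := by gcongr
      _ ≤ (4 * L * Z) ^ 2 := by
          have : 0 ≤ (L : ℝ) ^ 2 * Z ^ 2 := by positivity
          nlinarith
  linarith

set_option maxHeartbeats 2000000 in
theorem main (d : ℕ → ℕ) (hd : Stream d) (B : ℕ) (hB : B = 10 ^ 10) (n₀ : ℕ)
    (H : ∀ n, n₀ ≤ n → ∀ k < B, |(((range n).filter (fun j => blk d 10 j = k)).card : ℝ) - n / B| ≤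
      2 * Real.sqrt (2 * n * Real.log (Real.log n))) : False := by
  classical
  obtain ⟨w₀, hw₀⟩ := eventually_atTop.1 cheb
  obtain ⟨w₁, hw₁⟩ := eventually_atTop.1
    (Nat.tendsto_primeCounting'.eventually_ge_atTop (10 * (n₀ + 3)))
  obtain ⟨v, hv⟩ : ∃ v, v = w₀ + w₁ + 4 := ⟨_, rfl⟩
  obtain ⟨t, ht⟩ : ∃ t, t = 5 * (v + 1) := ⟨_, rfl⟩
  obtain ⟨e₁, he₁⟩ : ∃ e, e = 150 * v + 159 := ⟨_, rfl⟩
  obtain ⟨e₂, he₂⟩ : ∃ e, e = 10 * v + 9 := ⟨_, rfl⟩
  obtain ⟨L, hL⟩ : ∃ L, L = 10 * (3 * t + 1) := ⟨_, rfl⟩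
  obtain ⟨w, hw⟩ : ∃ w, w = 10 ^ e₁ := ⟨_, rfl⟩
  have hvw : v ≤ w := by
    have : e₁ < 10 ^ e₁ := Nat.lt_pow_self (by norm_num)
    omega
  set i₀ := Nat.count Nat.Prime w with hi₀
  have hi₀' : 10 * (n₀ + 3) ≤ i₀ := hw₁ w (by omega)
  obtain ⟨a, ha, J₀, hJ₀⟩ : ∃ a, a ≤ 9 ∧ ∃ J₀, J₀ * 10 = pos i₀ + (a + 1) :=
    ⟨9 - pos i₀ % 10, by omega, pos i₀ / 10 + 1, by omega⟩
  obtain ⟨R, hR⟩ : ∃ R, R = 10 ^ (9 - a) := ⟨_, rfl⟩
  obtain ⟨A', hA'⟩ : ∃ A', A' = 10 ^ a := ⟨_, rfl⟩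
  obtain ⟨N, hN⟩ : ∃ N, N = B ^ t := ⟨_, rfl⟩
  obtain ⟨y, hy⟩ : ∃ y, y = 10 ^ e₂ := ⟨_, rfl⟩
  have hy10 : 10 ≤ y := by
    rw [hy]; exact Nat.le_self_pow (by omega) 10
  have hNy : N = (10 * y) ^ 5 := by
    rw [hN, hB, ← pow_mul, hy, ← pow_succ', ← pow_mul]; congr 1; omega
  have hAR : 10 * A' * R = B := by
    rw [hA', hR, hB, mul_assoc, ← pow_add, show a + (9 - a) = 9 by omega]; norm_num
  have hR0 : 0 < R := by rw [hR]; positivity
  have hA0 : 0 < A' := by rw [hA']; positivity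
  have hN0 : 0 < N := by rw [hNy]; positivity
  obtain ⟨U, hU⟩ : ∃ U, U = N * (N * R) := ⟨_, rfl⟩
  have hwU : w = A' * N * U := by
    have : 10 * w = 10 * (A' * N * U) := by
      calc 10 * w = B * N ^ 3 := by
            rw [hw, hN, hB, ← pow_mul, ← pow_mul, ← pow_add, ← pow_succ']; congr 1; omega
        _ = 10 * (A' * N * U) := by rw [← hAR, hU]; ring
    omega
  have hNU : N ≤ U := by rw [hU]; exact Nat.le_mul_of_pos_right _ (by positivity)
  have hyN : 10 * y < N := by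
    rw [hNy]
    exact lt_self_pow₀ (by omega) (by norm_num)
  obtain ⟨Λ, hΛ⟩ : ∃ Λ : ℝ, Λ = Real.log (10 * y) := ⟨_, rfl⟩
  have hΛ1 : Λ = (10 * v + 10) * Real.log 10 := by
    rw [hΛ, hy]; push_cast
    rw [← pow_succ', Real.log_pow, he₂]; push_cast; ring
  have hl10 : 0 < Real.log 10 := Real.log_pos (by norm_num)
  have hl10' : Real.log 10 ≤ 10 - 1 := Real.log_le_sub_one_of_pos (by norm_num)
  have hΛ0 : 0 < Λ := by rw [hΛ1]; positivity
  obtain ⟨X, hX⟩ : ∃ X : ℝ, X = U / Λ := ⟨_, rfl⟩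
  have hU0 : (0 : ℝ) < U := by exact_mod_cast (by omega : 0 < U)
  have hX0 : 0 < X := by rw [hX]; positivity
  have hone : ∀ p : ℕ, p.Prime → p ∣ 1 → p ∣ 10 := fun p _ h => h.trans (one_dvd _)
  have hbig : ∀ τ, A' * N ≤ τ → 10 * y < τ * U := by
    intro τ hτ
    have h1 : 0 < τ := lt_of_lt_of_le (by positivity) hτ
    have := Nat.le_mul_of_pos_left U h1
    omega
  obtain ⟨τ, hτ1, hτ2, hτ3, hτ4⟩ := good_tau B t A' U (by rw [hB]; norm_num) (by omega) X hX0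
    (fun τ hτ => by
      have := BT2 1 (τ * U) U y N hone hy10 (hbig τ (hN ▸ hτ)) hNy hNU
      rw [← hΛ, ← hX] at this
      simpa only [mul_one] using this) (by
      have h1 := hw₀ w (by omega)
      rw [← hN, ← hwU, show 10 * A' * N * U = 10 * w by rw [hwU]; ring]
      refine lt_of_lt_of_le ?_ h1
      have e1 : Real.log (10 * w) = (150 * v + 160) * Real.log 10 := by
        rw [hw]; push_cast
        rw [← pow_succ', Real.log_pow, he₁]; push_cast; ring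
      have e2 : (10 * A' * (B : ℝ) ^ t) * X / 60 = w / (6 * Λ) := by
        rw [hwU, hX, hN]; push_cast; field_simp; ring
      have hw0 : (0 : ℝ) < w := by rw [hw]; positivity
      have hv0 : (0 : ℝ) ≤ v := Nat.cast_nonneg v
      rw [e2, e1, hΛ1, div_lt_div_iff₀ (by positivity) (by positivity)]
      have : 0 < (w : ℝ) * Real.log 10 := by positivity
      nlinarith)
  rw [← hN] at hτ1 hτ2
  set φ := T B t τ with hφ
  set W := Real.sqrt (V B t τ) with hWdef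
  have hV0 : 0 ≤ V B t τ := Finset.sum_nonneg (fun _ _ => sq_nonneg _)
  have hW2 : W ^ 2 = V B t τ := Real.sq_sqrt hV0
  have hW : ∀ k, |φ k| ≤ W := fun k => Real.abs_le_sqrt (T_sq_le B t τ k)
  have hBpos : 0 < B := by rw [hB]; positivity
  have hφ0 : ∑ k ∈ range B, φ k = 0 := sum_T B hBpos t τ
  have hφ1 : ∀ k, B ≤ k → φ k = 0 := fun k hk => by rw [hφ, T, if_neg (by omega)]
  obtain ⟨K, hK⟩ : ∃ K : ℝ, K = 21 * ((N * R : ℕ) / Λ) := ⟨_, rfl⟩
  have hcore := core B t R τ hR0 φ K (fun μ => by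
      have := BT2 1 (τ * U + μ * (N * R)) (N * R) y N hone hy10
        (by have := hbig τ hτ1; omega) hNy (Nat.le_mul_of_pos_right _ hR0)
      rw [← hΛ, ← hK] at this
      rw [← hN, ← hU]
      simpa only [mul_one, add_assoc] using this) (fun l => by
      rw [← hN, ← hU]
      have h1 : ∀ ρ ∈ range R, ∑ μ ∈ range N, ι (τ * U + (μ * (N * R) + (l * R + ρ))) ≤
          21 * (N / Λ) := by
        intro ρ _
        have := BT2 (N * R) (τ * U + (l * R + ρ)) N y N (fun p hp h => by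
          rw [hN, hB, hR, ← pow_mul, ← pow_add] at h
          exact hp.dvd_of_dvd_pow h) hy10 (by have := hbig τ hτ1; omega) hNy le_rfl
        rw [← hΛ] at this
        refine le_trans (le_of_eq (Finset.sum_congr rfl (fun μ _ => ?_))) this
        congr 1; ring
      refine (Finset.sum_le_sum h1).trans_eq ?_
      rw [Finset.sum_const, Finset.card_range, nsmul_eq_mul, hK]
      push_cast; ring)
  rw [← hN, ← hU, hφ, F_T B hBpos, ← hφ, ← hW2,
    ← sum_primes (fun p => F B φ (3 * t) (p / R)) (τ * U) U] at hcore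
  set i₁ := Nat.count Nat.Prime (τ * U) with hi₁
  obtain ⟨k, hk⟩ : ∃ k, Nat.count Nat.Prime (τ * U + U) = i₁ + k :=
    Nat.exists_eq_add_of_le (Nat.count_monotone _ (by omega))
  have hkN : ∑ x ∈ range U, ι (τ * U + x) = k := by
    rw [← count_diff, hk, ← hi₁]; push_cast; ring
  have hwτ : w ≤ τ * U := by rw [hwU]; exact Nat.mul_le_mul_right _ hτ1
  have hτw : τ * U + U ≤ 10 * w := by
    rw [hwU, ← Nat.succ_mul, show 10 * (A' * N * U) = 10 * A' * N * U by ring]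
    exact Nat.mul_le_mul_right _ hτ2
  have h10w : 10 * w = 10 ^ L := by rw [hw, ← pow_succ']; congr 1; omega
  obtain ⟨k₀, hk₀⟩ : ∃ k₀, i₁ = i₀ + k₀ := Nat.exists_eq_add_of_le (Nat.count_monotone _ hwτ)
  have hik : i₁ + k ≤ Nat.count Nat.Prime (10 * w) := hk ▸ Nat.count_monotone _ hτw
  have hlen : ∀ i, i₀ ≤ i → i < Nat.count Nat.Prime (10 * w) →
      (Nat.digits 10 (P i)).length = L := by
    intro i h1 h2
    have a1 : w ≤ P i := (Nat.count_le_iff_le_nth Nat.infinite_setOfPred_prime).1 h1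
    have a2 : P i < 10 * w := Nat.nth_lt_of_lt_count h2
    rw [len_eq i e₁ (hw ▸ a1) (by rw [pow_succ', ← hw]; exact a2)]
    omega
  have hpos : ∀ u, i₀ + u ≤ Nat.count Nat.Prime (10 * w) →
      pos (i₀ + u) = pos i₀ + u * L := by
    intro u hu
    induction u with
    | zero => simp
    | succ u ih =>
      rw [← add_assoc, pos_succ, ih (by omega), hlen (i₀ + u) (by omega) (by omega)]; ring
  obtain ⟨J, hJ⟩ : ∃ J, J = J₀ + k₀ * (3 * t + 1) := ⟨_, rfl⟩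
  have hJ1 : J * 10 = pos i₁ + (a + 1) := by
    rw [hk₀, hpos k₀ (by omega), hJ, add_mul, hJ₀, hL]; ring
  have hstream := stream_sum d hd 10 t (a + 1) J i₁ k (by omega) hJ1
    (fun u hu => hL ▸ hlen _ (by omega) (by omega)) φ W hW
  rw [← hB, show 10 - (a + 1) = 9 - a by omega, ← hR] at hstream
  rw [hk, hkN] at hcore
  obtain ⟨Y, hY⟩ : ∃ Y : ℝ, Y = 10 ^ (25 * (v + 1)) := ⟨_, rfl⟩
  have hY0 : 0 < Y := by rw [hY]; positivity
  have hZ : (100000 * Y ^ 3) ^ 2 = 10 ^ L := by rw [hY, hL, ht]; ring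
  have hJ2 : (J + k * (3 * t + 1)) * 10 = pos (i₁ + k) + (a + 1) := by
    rw [hk₀, add_assoc i₀, hpos (k₀ + k) (by omega), hJ, add_mul, add_mul, hJ₀, hL]; ring
  have hJlo : n₀ + 3 ≤ J := by
    have := le_pos i₁
    omega
  have hJhi : J + k * (3 * t + 1) ≤ 10 ^ L * L := by
    have a1 := pos_le L (i₁ + k) (h10w ▸ hik)
    have a2 : i₁ + k ≤ 10 ^ L := by
      rw [← h10w]; exact hik.trans (Nat.count_le _)
    have a3 := Nat.mul_le_mul_right L a2
    have a4 : 2 ≤ 10 ^ L * L := by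
      have b1 : 1 ≤ 10 ^ L := Nat.one_le_pow _ _ (by norm_num)
      have b2 : 2 ≤ L := by omega
      exact le_trans (by omega) (Nat.mul_le_mul b1 b2)
    omega
  have hE : ∀ n, J ≤ n → n ≤ J + k * (3 * t + 1) →
      |∑ j ∈ range n, φ (blk d 10 j)| ≤ B * (W * (8 * L * (100000 * Y ^ 3))) := by
    intro n h1 h2
    refine total_bound (blk d 10) B n φ hφ0 hφ1 W _ hW (fun k hk => (H n (by omega) k hk).trans ?_)
    exact E_bound n L _ hZ (by positivity) (by omega) (by omega)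
  have hE1 := abs_le.1 (hE J le_rfl (by omega))
  have hE2 := abs_le.1 (hE (J + k * (3 * t + 1)) (by omega) le_rfl)
  have hBr : (B : ℝ) = 100000 ^ 2 := by rw [hB]; norm_num
  have htr : (25 : ℝ) ≤ t := by exact_mod_cast (by omega : 25 ≤ t)
  have hr2 : Real.sqrt t ^ 2 = t := Real.sq_sqrt (by linarith)
  have hfin := final_ineq X k W (Real.sqrt t) (∑ μ ∈ range N, |F B φ t μ|)
    (8 * L * (100000 * Y ^ 3)) 100000 N K
    (∑ j ∈ range (J + k * (3 * t + 1)), φ (blk d 10 j) - ∑ j ∈ range J, φ (blk d 10 j))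
    hX0 (hkN ▸ hτ4) (Real.le_sqrt_of_sq_le (by linarith)) (Real.sqrt_nonneg _)
    (by rw [hr2, hW2]; exact hτ3) rfl (by exact_mod_cast hN0)
    (by
      have := sum_abs_F B φ hφ0 t
      rw [hr2, hW2, ← hBr, hN]
      push_cast
      exact this) (by rw [hK, hX, hU]; push_cast; ring) (by linarith) (by
      rw [← hBr]; linarith [hE1.1, hE2.2])
  have hNY : (N : ℝ) = Y ^ 2 := by
    rw [hN, hB, ← pow_mul, hY, ht]; push_cast; ring
  have hUY : Y ^ 4 ≤ U := by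
    rw [hU]; push_cast; rw [hNY]
    have : (1 : ℝ) ≤ R := by exact_mod_cast hR0
    have h4 : 0 < Y ^ 4 := by positivity
    nlinarith
  rw [hX, div_le_iff₀ hΛ0] at hfin
  have hv1 : (v : ℝ) + 1 ≤ 10 ^ (v + 1) := by
    have : v + 1 < 10 ^ (v + 1) := Nat.lt_pow_self (by norm_num)
    exact_mod_cast this.le
  have hv0 : (0 : ℝ) ≤ v := Nat.cast_nonneg v
  have hLr : (L : ℝ) ≤ 160 * 10 ^ (v + 1) := by
    rw [hL, ht]; push_cast; linarith
  have hΛ2 : Λ ≤ 90 * 10 ^ (v + 1) := by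
    rw [hΛ1]; nlinarith
  have hYbig : 10 ^ 23 * (10 ^ (v + 1) * 10 ^ (v + 1)) ≤ Y := by
    rw [hY, ← pow_add, ← pow_add]
    exact pow_le_pow_right₀ (by norm_num) (by omega)
  have h1 : (L : ℝ) * Λ ≤ (160 * 10 ^ (v + 1)) * (90 * 10 ^ (v + 1)) :=
    mul_le_mul hLr hΛ2 hΛ0.le (by positivity)
  have h2 : Y * Y ^ 3 ≤ (864 * 10 ^ 15 * (L * Λ)) * Y ^ 3 := by nlinarith
  have h3 := le_of_mul_le_mul_right h2 (by positivity)
  have h4 : (0 : ℝ) < 10 ^ (v + 1) * 10 ^ (v + 1) := by positivity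
  nlinarith

end Pool.Agent.H59.CE2
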