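import Mathlib
import Pool.Agent.H39.Equi
import Pool.Agent.H55.PNT

/-! Rationals with a small prime denominator whose Cantor-series orbit has small exponential sums. -/

set_option autoImplicit false

namespace Pool.Agent.H59.CF

open Finset Filter Pool.Agent.H39.Equi

lemma e_int (z : ℤ) : e z = 1 := by
  rw [e, show 2 * Real.pi * Complex.I * ((z : ℝ) : ℂ) = z * (2 * Real.pi * Complex.I) by
    push_cast; ring]
  exact Complex.exp_int_mul_two_pi_mul_I z

lemma e_sub (t : ℝ) : ‖e t - 1‖ = |2 * Real.sin (Real.pi * t)| := by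
  rw [e, show 2 * Real.pi * Complex.I * t = Complex.I * ((2 * Real.pi * t : ℝ) : ℂ) by push_cast; ring,
    Complex.norm_exp_I_mul_ofReal_sub_one, Real.norm_eq_abs]
  congr 3; ring

lemma e_lip (s t : ℝ) : ‖e s - e t‖ ≤ 7 * |s - t| := by
  rw [show e s - e t = e t * (e (s - t) - 1) by rw [mul_sub, ← e_add]; simp, norm_mul, norm_e,
    one_mul, e_sub, abs_mul]
  have := Real.abs_sin_le_abs (x := Real.pi * (s - t))
  rw [abs_mul, abs_of_pos Real.pi_pos] at this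
  have := Real.pi_lt_d2
  have := abs_nonneg (s - t)
  rw [abs_two]; nlinarith

lemma geom (c θ d : ℝ) (d0 : 0 < d) (h : ∀ z : ℤ, d ≤ |θ - z|) (P : ℕ) :
    ‖∑ i ∈ range P, e (θ * (c + i))‖ ≤ 1 / (2 * d) := by
  have a : (e θ - 1) * ∑ i ∈ range P, e (θ * (c + i)) = e (θ * (c + P)) - e (θ * c) := by
    induction P with
    | zero => simp
    | succ P ih =>
      rw [sum_range_succ, mul_add, ih, show θ * (c + (P + 1 : ℕ)) = θ + θ * (c + P) by push_cast; ring,
        e_add θ]; ring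
  have b : 4 * d ≤ ‖e θ - 1‖ := by
    rw [show θ = θ - round θ + (round θ : ℤ) by ring, e_add, e_int, mul_one, e_sub, abs_mul, abs_two]
    have h1 := abs_sub_round θ
    have h2 := Real.mul_abs_le_abs_sin (x := Real.pi * (θ - round θ)) (by
      rw [abs_mul, abs_of_pos Real.pi_pos]; nlinarith [Real.pi_pos])
    rw [abs_mul, abs_of_pos Real.pi_pos, ← mul_assoc, div_mul_cancel₀ _ Real.pi_pos.ne'] at h2
    linarith [h (round θ)]
  have c2 := congrArg norm a
  rw [norm_mul] at c2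
  have := norm_sub_le (e (θ * (c + P))) (e (θ * c))
  rw [norm_e, norm_e] at this
  rw [le_div_iff₀ (by positivity)]
  nlinarith [norm_nonneg (∑ i ∈ range P, e (θ * (c + i)))]

lemma prime_out : ∃ C : ℕ, ∀ D S : ℕ, 0 < D → D ≤ 2 ^ S → ∃ q, q.Prime ∧ ¬ q ∣ D ∧ q ≤ C + 2 * S := by
  obtain ⟨x0, h⟩ := eventually_atTop.1 (H55.PNT.theta_pnt.eventually (lt_mem_nhds
    (show (1 / 2 : ℝ) < 1 by norm_num)))
  obtain ⟨C, hC⟩ := exists_nat_gt |x0|
  refine ⟨C, fun D S D0 hD => ?_⟩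
  by_contra hc
  push Not at hc
  have C0 : (0 : ℝ) < C := (abs_nonneg _).trans_lt hC
  have S0 : (0 : ℝ) ≤ S := by positivity
  have a := h ((C + 2 * S : ℕ) : ℝ) (by push_cast; linarith [le_abs_self x0])
  rw [Chebyshev.theta_eq_log_primorial, Nat.floor_natCast, lt_div_iff₀ (by push_cast; linarith)] at a
  have b : primorial (C + 2 * S) ∣ D := Finset.prod_primes_dvd _
    (fun p hp => (mem_filter.1 hp).2.prime) fun p hp => by
      by_contra c
      have := hc p (mem_filter.1 hp).2 c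
      have := mem_range.1 (mem_filter.1 hp).1
      omega
  have c : Real.log (primorial (C + 2 * S)) ≤ Real.log (2 ^ S) :=
    Real.log_le_log (by exact_mod_cast primorial_pos _)
      (by exact_mod_cast (Nat.le_of_dvd D0 b).trans hD)
  rw [Real.log_pow] at c
  have := Real.log_two_lt_d9
  push_cast at a
  nlinarith

variable {Q : ℕ → ℕ} (hQ : ∀ n, 2 * Q n ≤ Q (n + 1))
include hQ

lemma grow (n d : ℕ) : 2 ^ d * Q n ≤ Q (n + d) := by
  induction d with
  | zero => simp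
  | succ d ih => rw [pow_succ, ← add_assoc]; nlinarith [hQ (n + d)]

lemma moment {q L m0 m1 h R : ℕ} (c : ℝ) (q0 : 2 ^ L ≤ q) (h0 : 1 ≤ h) (hL : 2 ^ L ≤ Q m0)
    (hR : m1 * 2 ^ L ≤ R) (hq : ∀ m < m1, ∀ m' < m, ∀ r : ℤ, |r| ≤ R →
      (q : ℤ) ∣ h * (Q m - Q m') - r → h * (Q m - Q m') = r) (N : ℕ) (h1 : m0 ≤ N) (h2 : N ≤ m1) :
    ∑ i ∈ range (q / 2 ^ L), ‖∑ n ∈ Ico m0 N, e (h * (Q n * ((c + i) / q)))‖ ^ 2 ≤
      7 * (q / 2 ^ L : ℕ) * N := by
  set P := q / 2 ^ L with hP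
  have L0 : (0 : ℝ) < 2 ^ L := by positivity
  have q1 : (0 : ℝ) < q := L0.trans_le (by exact_mod_cast q0)
  have P2 : (q : ℝ) / 2 ^ L ≤ 2 * P := by
    have a := Nat.lt_mul_div_succ q (show 0 < 2 ^ L by positivity)
    have b : 1 ≤ P := (Nat.le_div_iff_mul_le (by positivity)).2 (by omega)
    rw [div_le_iff₀ L0]
    exact_mod_cast (by nlinarith : q ≤ 2 * P * 2 ^ L)
  induction N, h1 using Nat.le_induction with
  | base => simp; positivity
  | succ N hN ih =>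
    have ih := ih (by omega)
    have key : ∀ m ∈ Ico m0 N, ‖∑ i ∈ range P, e (h * (Q N * ((c + i) / q))) *
        (starRingEnd ℂ) (e (h * (Q m * ((c + i) / q))))‖ * (N - m0 : ℕ) ≤ 3 * P := fun m hm => by
      have hm := mem_Ico.1 hm
      set X : ℤ := h * (Q N - Q m) with hX
      have g1 := grow hQ m (N - m)
      have g2 := grow hQ m0 (N - m0)
      rw [Nat.add_sub_cancel' (by omega)] at g1 g2
      have g3 : 2 ^ 1 ≤ 2 ^ (N - m) := Nat.pow_le_pow_right two_pos (by omega)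
      have g4 : N - m0 < 2 ^ (N - m0) := Nat.lt_two_pow_self
      have g5 : (N - m0) * 2 ^ L ≤ Q N := (Nat.mul_le_mul g4.le hL).trans g2
      have g6 : 2 * Q m ≤ Q N := le_trans (Nat.mul_le_mul_right _ g3) g1
      have X1 : ((N - m0 : ℕ) * 2 ^ L : ℤ) ≤ 2 * X := by
        have : ((N - m0 : ℕ) * 2 ^ L : ℤ) ≤ Q N := by exact_mod_cast g5
        have : (2 * Q m : ℤ) ≤ Q N := by exact_mod_cast g6
        have : (1 : ℤ) ≤ h := by exact_mod_cast h0
        nlinarith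
      have n0 : (0 : ℝ) < (N - m0 : ℕ) := Nat.cast_pos.2 (by omega)
      have := geom c (X / q) ((N - m0 : ℕ) * 2 ^ L / (2 * q)) (by positivity) (fun z => by
        rw [show (X : ℝ) / q - z = ((X - z * q : ℤ) : ℝ) / q by push_cast; field_simp, abs_div,
          abs_of_pos q1, div_le_div_iff₀ (by positivity) q1, ← Int.cast_abs]
        have : ((N - m0 : ℕ) * 2 ^ L : ℤ) ≤ 2 * |X - z * q| := by
          by_cases hr : |X - z * q| ≤ R
          · rw [← hq N (by omega) m hm.2 _ hr ⟨z, by ring⟩]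
            exact X1.trans (by linarith [le_abs_self X])
          · have : ((N - m0 : ℕ) * 2 ^ L : ℤ) ≤ R := by
              exact_mod_cast (Nat.mul_le_mul_right _ (by omega)).trans hR
            linarith [abs_nonneg (X - z * q)]
        have : ((N - m0 : ℕ) * 2 ^ L : ℝ) ≤ 2 * ((|X - z * q| : ℤ) : ℝ) := by exact_mod_cast this
        nlinarith) P
      rw [sum_congr rfl (g := fun i : ℕ => e (X / q * (c + i))) fun i _ => by
        rw [← e_neg, ← e_add, hX]; congr 1; push_cast; ring]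
      refine (mul_le_mul_of_nonneg_right this n0.le).trans (le_trans (le_of_eq ?_)
        (P2.trans (by linarith [Nat.cast_nonneg (α := ℝ) P])))
      field_simp
    simp only [sum_Ico_succ_top hN, Complex.sq_norm, Complex.normSq_add] at ih ⊢
    simp only [sum_add_distrib, ← Complex.sq_norm, norm_e] at ih ⊢
    have b : ∑ i ∈ range P, 2 * ((∑ n ∈ Ico m0 N, e (h * (Q n * ((c + i) / q)))) *
        (starRingEnd ℂ) (e (h * (Q N * ((c + i) / q))))).re ≤ 6 * P := by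
      rw [← mul_sum, ← Complex.re_sum]
      simp only [sum_mul]
      rw [sum_comm]
      refine le_trans (mul_le_mul_of_nonneg_left ((Complex.re_le_norm _).trans
        (norm_sum_le _ _)) two_pos.le) ?_
      rcases hN.eq_or_lt with rfl | l
      · simp
      have n0 : (0 : ℝ) < (N - m0 : ℕ) := Nat.cast_pos.2 (by omega)
      have := sum_le_card_nsmul _ _ (3 * P / (N - m0 : ℕ) : ℝ) fun m hm => (le_div_iff₀ n0).2 (key m hm)
      rw [Nat.card_Ico, nsmul_eq_mul, mul_div_cancel₀ _ n0.ne'] at this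
      refine le_trans (mul_le_mul_of_nonneg_left (le_trans (le_of_eq (sum_congr rfl fun m _ => ?_))
        this) two_pos.le) (by linarith)
      rw [← Complex.norm_conj, map_sum]
      simp [mul_comm]
    simp only [one_pow, sum_const, card_range, nsmul_eq_mul, mul_one]
    push_cast
    linarith

omit hQ in
/-- Exponential sums over `[a, N)` are at most `η N` for all `N ∈ [a, b]`. -/
def Good (Q : ℕ → ℕ) (h : ℕ) (x : ℝ) (a b : ℕ) (η : ℝ) : Prop :=
  ∀ N, a ≤ N → N ≤ b → ‖∑ n ∈ Ico a N, e (h * (Q n * x))‖ ≤ η * N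

omit hQ in
lemma triv (h : ℕ) (x : ℝ) (a b : ℕ) : ‖∑ n ∈ Ico a b, e (h * (Q n * x))‖ ≤ (b - a : ℕ) :=
  (norm_sum_le _ _).trans (by simp [norm_e])

theorem pick (k K : ℕ) (K0 : 0 < K) : ∃ M0 : ℕ, ∀ L : ℕ, ∃ F : ℕ, ∀ (α : ℝ) (m0 m1 T : ℕ),
    M0 ≤ m0 → 2 ^ L ≤ Q m0 → (∀ n < m1, Q n ≤ 2 ^ T) → m1 ≤ T + 1 → ∃ (q : ℕ) (p : ℤ), q.Prime ∧
    q ≤ F * (T + 1) ^ 5 ∧ α ≤ p / q ∧ (p / q : ℝ) ≤ α + 1 / 2 ^ L ∧
    ∀ h, 1 ≤ h → h ≤ k → Good Q h (p / q) m0 m1 (1 / K) := by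
  obtain ⟨C, hC⟩ := prime_out
  set j0 := 28 * k * K ^ 2 + 4 * K with hj0
  refine ⟨(j0 + 1) ^ 2, fun L => ⟨C + 2 * (2 ^ L * 2 ^ L + k * (3 * 2 ^ L) * (k + L + 2)),
    fun α m0 m1 T h0 hL hT h1 => ?_⟩⟩
  set R := (T + 1) * 2 ^ L with hR
  set I := (Icc 1 k ×ˢ range m1 ×ˢ range m1) ×ˢ Icc (-R : ℤ) R with hI
  set Y : (ℕ × ℕ × ℕ) × ℤ → ℕ := fun x => (x.1.1 * (Q x.1.2.1 - Q x.1.2.2 : ℤ) - x.2).natAbs with hY
  have T0 : 1 ≤ (T + 1) ^ 5 := Nat.one_le_pow _ _ (by omega)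
  obtain ⟨q, q1, q2, q3⟩ := hC ((2 ^ L).factorial * ∏ x ∈ I, max 1 (Y x))
    (2 ^ L * 2 ^ L + I.card * (k + L + 2 * T + 2)) (by positivity) (by
      rw [pow_add]
      refine Nat.mul_le_mul ((Nat.factorial_le_pow _).trans ?_) ?_
      · rw [pow_mul 2]; exact Nat.pow_le_pow_left Nat.lt_two_pow_self.le _
      rw [mul_comm, pow_mul]
      refine prod_le_pow_card _ _ _ fun x hx => max_le (Nat.one_le_two_pow) ?_
      simp only [hI, mem_product, mem_Icc, mem_range] at hx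
      obtain ⟨⟨⟨-, a⟩, b, c⟩, d, f⟩ := hx
      have b := hT _ b
      have c := hT _ c
      have g1 : x.1.1 * 2 ^ T ≤ 2 ^ (k + L + 2 * T) := (Nat.mul_le_mul_right _
        (a.trans Nat.lt_two_pow_self.le)).trans (by
          rw [← pow_add]; exact Nat.pow_le_pow_right two_pos (by omega))
      have g2 : R ≤ 2 ^ (k + L + 2 * T) := (Nat.mul_le_mul_right _ Nat.lt_two_pow_self).trans (by
          rw [← pow_add]; exact Nat.pow_le_pow_right two_pos (by omega))
      have g3 := Nat.mul_le_mul_left x.1.1 b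
      have g4 := Nat.mul_le_mul_left x.1.1 c
      simp only [hY, mul_sub, ← Nat.cast_mul]
      rw [pow_add _ _ 2]
      omega)
  have qL : 2 ^ L ≤ q := by
    by_contra c
    exact q2 ((Nat.dvd_factorial q1.pos (by omega)).mul_right _)
  have hq : ∀ h, 1 ≤ h → h ≤ k → ∀ m < m1, ∀ m' < m, ∀ r : ℤ, |r| ≤ R →
      (q : ℤ) ∣ h * (Q m - Q m') - r → h * (Q m - Q m') = r := fun h a b m c m' d r f g => by
    by_contra hc
    refine q2 (Dvd.dvd.mul_left (Dvd.dvd.trans ?_ (dvd_prod_of_mem _ (a := ((h, m, m'), r)) (by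
      simp only [hI, mem_product, mem_Icc, mem_range]
      exact ⟨⟨⟨a, b⟩, c, by omega⟩, abs_le.1 f⟩))) _)
    rw [max_eq_right (Nat.one_le_iff_ne_zero.2 (Int.natAbs_ne_zero.2 (sub_ne_zero.2 hc)))]
    exact Int.natCast_dvd.1 g
  set P := q / 2 ^ L with hP
  have P1 : 1 ≤ P := (Nat.le_div_iff_mul_le (by positivity)).2 (by omega)
  set c : ℝ := ((⌈α * q⌉ : ℤ) : ℝ) with hc
  set J := (Ioc j0 m1).filter fun j => m0 ≤ j ^ 2 ∧ j ^ 2 ≤ m1 with hJ
  have j1 : 0 < j0 := by positivity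
  obtain ⟨i, hi, hs⟩ := exists_le_of_sum_le (s := range P) ⟨0, mem_range.2 P1⟩
    (f := fun i : ℕ => ∑ h ∈ Icc 1 k, ∑ j ∈ J, ‖∑ n ∈ Ico m0 (j ^ 2), e (h * (Q n * ((c + i) / q)))‖ ^ 2 /
      (j : ℝ) ^ 4) (g := fun _ => 7 * (k : ℝ) / j0) (by
      rw [sum_comm, sum_const, card_range, nsmul_eq_mul]
      refine (sum_le_card_nsmul _ _ (7 * P / j0 : ℝ) fun h hh => ?_).trans (le_of_eq (by simp; ring))
      rw [sum_comm]
      refine (sum_le_sum (g := fun j : ℕ => 7 * (P : ℝ) * ((j : ℝ) ^ 2)⁻¹) fun j hj => ?_).trans ?_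
      · obtain ⟨a, b, d⟩ := mem_filter.1 hj
        have : (0 : ℝ) < j := Nat.cast_pos.2 (by have := (mem_Ioc.1 a).1; omega)
        rw [← sum_div, div_le_iff₀ (by positivity)]
        refine (moment hQ c qL (mem_Icc.1 hh).1 hL (Nat.mul_le_mul_right _ h1)
          (hq h (mem_Icc.1 hh).1 (mem_Icc.1 hh).2) _ b d).trans (le_of_eq ?_)
        rw [← hP, Nat.cast_pow]; field_simp
      · rw [← mul_sum, div_eq_mul_inv]
        refine mul_le_mul_of_nonneg_left ((sum_le_sum_of_subset_of_nonneg (filter_subset _ _)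
          fun _ _ _ => by positivity).trans ?_) (by positivity)
        rcases le_or_gt j0 m1 with l | l
        · exact (sum_Ioc_inv_sq_le_sub j1.ne' l).trans (sub_le_self _ (by positivity))
        · rw [Ioc_eq_empty (by omega), sum_empty]; positivity)
  have q0 : (0 : ℝ) < q := Nat.cast_pos.2 q1.pos
  have K1 : (0 : ℝ) < K := Nat.cast_pos.2 K0
  refine ⟨q, ⌈α * q⌉ + i, q1, q3.trans ?_, ?_, ?_, fun h a b N c1 c2 => ?_⟩
  · have a : I.card ≤ k * (3 * 2 ^ L) * (T + 1) ^ 3 := by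
      simp only [hI, card_product, Nat.card_Icc, card_range, Int.card_Icc]
      have : (R + 1 - -R : ℤ).toNat ≤ 3 * R := by
        have : 0 < R := by positivity
        omega
      calc _ ≤ k * ((T + 1) * (T + 1)) * (3 * R) := by gcongr; omega
        _ = _ := by rw [hR]; ring
    have b : k + L + 2 * T + 2 ≤ (k + L + 2) * (T + 1) ^ 2 := by nlinarith [Nat.zero_le ((k + L) * T)]
    have d := Nat.mul_le_mul a b
    have f := Nat.mul_le_mul_left (C + 2 * (2 ^ L * 2 ^ L)) T0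
    nlinarith
  · rw [le_div_iff₀ q0]; push_cast
    linarith [Int.le_ceil (α * q), Nat.cast_nonneg (α := ℝ) i]
  · rw [div_le_iff₀ q0]; push_cast
    have : (i : ℝ) + 1 ≤ P := by exact_mod_cast mem_range.1 hi
    have : (P : ℝ) ≤ q / 2 ^ L := by exact_mod_cast Nat.cast_div_le (α := ℝ) (m := q) (n := 2 ^ L)
    have := Int.ceil_lt_add_one (α * q)
    rw [add_mul, one_div_mul_eq_div]; linarith
  set j := N.sqrt with hj
  have s1 : j ^ 2 ≤ N := Nat.sqrt_le' N
  have s2 : N < (j + 1) ^ 2 := Nat.lt_succ_sqrt' N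
  have s3 : j0 < j := Nat.le_sqrt'.2 (h0.trans c1)
  have s4 : (2 * j : ℝ) ≤ 1 / K / 2 * N := by
    have : 4 * K * j ≤ N := le_trans (by nlinarith [Nat.zero_le (28 * k * K ^ 2)]) s1
    have : (4 * K * j : ℝ) ≤ N := by exact_mod_cast this
    rw [div_div, one_div_mul_eq_div, le_div_iff₀ (by positivity)]; linarith
  have N0 : (0 : ℝ) ≤ 1 / K / 2 * N := by positivity
  rcases le_or_gt m0 (j ^ 2) with l | l
  · rw [← sum_Ico_consecutive _ l s1]
    refine (norm_add_le _ _).trans ?_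
    have t1 := triv (Q := Q) h ((⌈α * q⌉ + i : ℤ) / q) (j ^ 2) N
    have t2 : ((N - j ^ 2 : ℕ) : ℝ) ≤ 2 * j := by
      exact_mod_cast (by rw [add_sq] at s2; omega : N - j ^ 2 ≤ 2 * j)
    have jJ : j ∈ J := mem_filter.2 ⟨mem_Ioc.2 ⟨s3, by nlinarith⟩, l, s1.trans c2⟩
    have t3 := ((single_le_sum (fun _ _ => by positivity) jJ).trans (single_le_sum (f := fun h : ℕ =>
      ∑ j ∈ J, ‖∑ n ∈ Ico m0 (j ^ 2), e (h * (Q n * ((c + i) / q)))‖ ^ 2 / (j : ℝ) ^ 4)
      (fun _ _ => by positivity) (mem_Icc.2 ⟨a, b⟩))).trans hs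
    have jp : (0 : ℝ) < j := Nat.cast_pos.2 (by omega)
    have t4 : 7 * (k : ℝ) / j0 ≤ (1 / K / 2) ^ 2 := by
      rw [div_le_iff₀ (by positivity), hj0]; push_cast; field_simp; nlinarith
    have t5 : ‖∑ n ∈ Ico m0 (j ^ 2), e (h * (Q n * ((c + i) / q)))‖ ≤ 1 / K / 2 * j ^ 2 := by
      refine le_of_pow_le_pow_left₀ two_ne_zero (by positivity) ?_
      have := (div_le_iff₀ (by positivity)).1 (t3.trans t4)
      linarith
    have t6 : 1 / (K : ℝ) / 2 * j ^ 2 ≤ 1 / K / 2 * N := by gcongr; exact_mod_cast s1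
    push_cast at t1 ⊢
    linarith
  · have t2 : ((N - m0 : ℕ) : ℝ) ≤ 2 * j := by
      exact_mod_cast (by rw [add_sq] at s2; omega : N - m0 ≤ 2 * j)
    linarith [triv (Q := Q) h ((⌈α * q⌉ + i : ℤ) / q) m0 N]

end Pool.Agent.H59.CF
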