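import Mathlib

/-! Continued fractions near a rational number. -/

set_option autoImplicit false

namespace Pool.Agent.H59.CF

open Finset Set

/-- The Gauss map. -/
noncomputable def G (y : ℝ) : ℝ := Int.fract (1 / y)

lemma G_inv (a : ℕ) {s : ℝ} (h0 : 0 ≤ s) (h1 : s < 1) : G (1 / (a + s)) = s := by
  rw [G, one_div_one_div, Int.fract_natCast_add, Int.fract_eq_self.2 ⟨h0, h1⟩]

lemma euclid (q : ℕ) : ∀ p, p < q → p.Coprime q → ∃ n p' q' : ℕ, 2 ^ n ≤ (p + 1) * q ∧ q' ≤ q ∧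
    p' + q' ≤ p + q ∧ ((p' : ℝ) * q - p * q') ^ 2 = 1 ∧ ∀ t : ℝ, 0 < t → t < 1 →
      0 < (p' * t + p) / (q' * t + q) ∧ (p' * t + p) / (q' * t + q) < 1 ∧
      G^[n] ((p' * t + p) / (q' * t + q)) = t := by
  induction q using Nat.strong_induction_on with
  | _ q ih =>
  intro p hp hc
  rcases p.eq_zero_or_pos with rfl | p0
  · rw [Nat.coprime_zero_left] at hc
    subst hc
    exact ⟨0, 1, 0, by simp, by simp, by simp, by simp, fun t a b => by simp [a, b]⟩
  obtain ⟨n, r', p', h1, h2, h3, h4, h5⟩ := ih p hp (q % p) (Nat.mod_lt _ p0)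
    (by rwa [Nat.Coprime, ← Nat.gcd_rec])
  have e := Nat.div_add_mod q p
  have a1 : 1 ≤ q / p := (Nat.le_div_iff_mul_le p0).2 (by omega)
  have rp := Nat.mod_lt q p0
  generalize q / p = a at *
  generalize q % p = r at *
  subst e
  obtain ⟨b, rfl⟩ := Nat.exists_eq_add_of_le' a1
  have m := Nat.mul_le_mul_left b h2
  refine ⟨n + 1, p', (b + 1) * p' + r', by rw [pow_succ]; nlinarith [Nat.zero_le (p * b)],
    by nlinarith, by nlinarith, by push_cast; linear_combination h4, fun t t0 t1 => ?_⟩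
  obtain ⟨u1, u2, u3⟩ := h5 t t0 t1
  have p1 : (0 : ℝ) < p := Nat.cast_pos.2 p0
  have e : ((p' : ℝ) * t + p) / ((((b + 1) * p' + r' : ℕ) : ℝ) * t + (p * (b + 1) + r : ℕ)) =
      1 / ((b + 1 : ℕ) + (r' * t + r) / (p' * t + p)) := by
    push_cast; field_simp; ring
  rw [e, Function.iterate_succ_apply, G_inv _ u1.le u2]
  refine ⟨by positivity, ?_, u3⟩
  rw [div_lt_one (by positivity)]; push_cast; linarith [Nat.cast_nonneg (α := ℝ) b]

lemma ones : ∃ g : ℝ, 0.6 < g ∧ g < 0.7 ∧ ∀ (l : ℕ) (s : ℝ), |s - g| ≤ 1 / (10 * 4 ^ l) →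
    ∀ j < l, ⌊1 / G^[j] s⌋₊ = 1 := by
  have s5 : √5 ^ 2 = 5 := Real.sq_sqrt (by norm_num)
  have a : 2.2 < √5 := Real.lt_sqrt_of_sq_lt (by norm_num)
  have b : √5 < 2.4 := (Real.sqrt_lt' (by norm_num)).2 (by norm_num)
  refine ⟨(√5 - 1) / 2, by linarith, by linarith, fun l => ?_⟩
  set g := (√5 - 1) / 2 with hg
  have g2 : g * (g + 1) = 1 := by rw [hg]; nlinarith
  have g1 : 0.6 < g := by linarith
  have g3 : g < 0.7 := by linarith
  induction l with
  | zero => simp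
  | succ l ih =>
    intro s hs j hj
    have c : 1 / (10 * 4 ^ (l + 1) : ℝ) ≤ 1 / 40 := one_div_le_one_div_of_le (by norm_num) (by
      rw [pow_succ]; linarith [one_le_pow₀ (n := l) (show (1 : ℝ) ≤ 4 by norm_num)])
    obtain ⟨d1, d2⟩ := abs_le.1 (hs.trans c)
    have s0 : 0 < s := by linarith
    have f1 : 1 ≤ 1 / s := one_le_one_div s0 (by linarith)
    have f2 : 1 / s < 2 := by rw [div_lt_iff₀ s0]; linarith
    rcases j with _ | j
    · exact (Nat.floor_eq_iff (by simp; linarith)).2 ⟨by simpa using f1, by norm_num; simpa using f2⟩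
    rw [Function.iterate_succ_apply]
    refine ih _ ?_ j (by omega)
    rw [show G s = 1 / s - 1 from Int.fract_eq_iff.2 ⟨by linarith, by linarith, 1, by simp⟩,
      show 1 / s - 1 - g = (g - s) / (s * g) by field_simp; linear_combination (-s) * g2, abs_div,
      abs_sub_comm, abs_of_pos (show 0 < s * g by positivity), div_le_iff₀ (by positivity)]
    refine hs.trans ?_
    rw [pow_succ, div_mul_eq_mul_div, div_le_div_iff₀ (by positivity) (by positivity)]
    have : 1 ≤ 4 * (s * g) := by nlinarith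
    nlinarith [pow_pos (show (0 : ℝ) < 4 by norm_num) l]

lemma between {f : ℝ → ℝ} {a b l : ℝ} (hab : a ≤ b) (hf : ContinuousOn f (Icc a b))
    (h : l ≤ |f a - f b|) : ∃ α, ∀ w, α ≤ w → w ≤ α + l → ∃ t, a ≤ t ∧ t ≤ b ∧ f t = w := by
  refine ⟨min (f a) (f b), fun w h1 h2 => ?_⟩
  obtain ⟨t, ht, e⟩ := intermediate_value_uIcc (f := f) (a := a) (b := b) (by rwa [uIcc_of_le hab])
    (show w ∈ uIcc (f a) (f b) from ⟨h1, by
      rw [← max_sub_min_eq_abs'] at h; change w ≤ max _ _; linarith⟩)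
  rw [uIcc_of_le hab] at ht
  exact ⟨t, ht.1, ht.2, e⟩

open Classical in
theorem near {p q : ℕ} (hp : p < q) (hc : p.Coprime q) (k : ℕ) {B : ℝ} (hB : 2 ≤ B) :
    ∃ α : ℝ, ∀ w, α ≤ w → w ≤ α + 1 / (8 * q ^ 2 * B) → ∃ β : ℝ, ∀ x, β ≤ x →
      x ≤ β + 1 / (720 * 4 ^ k * q ^ 6 * B ^ 2) → |x - p / q| ≤ 2 / B ∧ |x - w| ≤ 4 / B ^ 2 ∧
      ∃ N, k ≤ N ∧ N ≤ 2 * ((range N).filter fun i => ⌊1 / G^[i] x⌋₊ = 1).card := by
  obtain ⟨n, p', q', h1, h2, -, h4, h5⟩ := euclid q p hp hc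
  obtain ⟨g, g1, g2, hg⟩ := ones
  have q1 : (1 : ℝ) ≤ q := Nat.one_le_cast.2 (by omega)
  have q2 : (q' : ℝ) ≤ q := Nat.cast_le.2 h2
  have q3 : (0 : ℝ) ≤ q' := by positivity
  set ψ : ℝ → ℝ := fun t => (p' * t + p) / (q' * t + q) with hψ
  have lip : ∀ t t' : ℝ, 0 ≤ t → t ≤ 1 → 0 ≤ t' → t' ≤ 1 → |t - t'| / (4 * q ^ 2) ≤ |ψ t - ψ t'| ∧
      |ψ t - ψ t'| ≤ |t - t'| := fun t t' a b c d => by
    have e : |ψ t - ψ t'| = |t - t'| / ((q' * t + q) * (q' * t' + q)) := by
      rw [show ψ t - ψ t' = (p' * q - p * q') * (t - t') / ((q' * t + q) * (q' * t' + q)) by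
        simp only [hψ]; field_simp; ring, abs_div, abs_mul, abs_of_pos (a := _ * _) (by positivity),
        show |(p' : ℝ) * q - p * q'| = 1 by rw [← sq_eq_sq₀ (abs_nonneg _) zero_le_one, sq_abs, h4]; simp,
        one_mul]
    have u1 := mul_nonneg q3 a
    have u2 := mul_nonneg q3 c
    have u3 : q' * t ≤ q := by nlinarith
    have u4 : q' * t' ≤ q := by nlinarith
    rw [e]
    exact ⟨div_le_div_of_nonneg_left (abs_nonneg _) (by positivity) (by nlinarith),
      div_le_self (abs_nonneg _) (by nlinarith)⟩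
  have con : ∀ {f : ℝ → ℝ} {S : Set ℝ}, ContinuousOn f S → (∀ s ∈ S, 0 ≤ f s) →
      ContinuousOn (fun s => ψ (f s)) S := fun {f S} a b =>
    ContinuousOn.div (by fun_prop) (by fun_prop) fun s hs => by have := b s hs; positivity
  have B0 : 0 < B := by linarith
  have i1 : 1 / B ≤ 1 / 2 := one_div_le_one_div_of_le two_pos hB
  have i2 : 1 / (2 * B) = 1 / B / 2 := by field_simp
  have i3 : 0 < 1 / B := by positivity
  obtain ⟨α, hα⟩ := between (f := fun t => ψ t) (a := 1 / (2 * B)) (b := 1 / B)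
    (l := 1 / (8 * q ^ 2 * B)) (by linarith) (con continuousOn_id fun s hs => by
      have := hs.1; change 0 ≤ s; linarith)
    (le_trans (le_of_eq (by rw [abs_of_neg (by linarith)]; field_simp; ring))
      (lip _ _ (by linarith) (by linarith) i3.le (by linarith)).1)
  refine ⟨α, fun w w1 w2 => ?_⟩
  obtain ⟨t, t1, t2, rfl⟩ := hα w w1 w2
  have t0 : 0 < t := by linarith
  set A := ⌊1 / t⌋₊ with hA
  have A1 : (A : ℝ) ≤ 1 / t := Nat.floor_le (by positivity)
  have A2 : 1 / t < A + 1 := Nat.lt_floor_add_one _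
  have A3 : B ≤ 1 / t := by rw [le_div_iff₀ t0]; rwa [le_div_iff₀ B0, mul_comm] at t2
  have A4 : 1 / t ≤ 2 * B := by rw [div_le_iff₀ t0]; rwa [div_le_iff₀ (by positivity), mul_comm] at t1
  have A5 : B / 2 ≤ A := by linarith
  set l := n + 1 + k with hl
  set δ : ℝ := 1 / (10 * 4 ^ l) with hδ
  have δ0 : 0 < δ := by positivity
  have δ1 : δ ≤ 1 / 10 := one_div_le_one_div_of_le (by norm_num) (by
    linarith [one_le_pow₀ (n := l) (show (1 : ℝ) ≤ 4 by norm_num)])
  have inv : ∀ s : ℝ, 0 < s → 0 < 1 / (A + s) ∧ 1 / (A + s) < 1 ∧ 1 / (A + s) ≤ 2 / B := fun s s0 =>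
    ⟨by positivity, by rw [div_lt_one (by positivity)]; linarith,
      by rw [div_le_div_iff₀ (by positivity) B0]; linarith⟩
  obtain ⟨β, hβ⟩ := between (f := fun s => ψ (1 / (A + s))) (a := g - δ) (b := g + δ)
    (l := 1 / (720 * 4 ^ k * q ^ 6 * B ^ 2)) (by linarith) (con (ContinuousOn.div (by fun_prop)
      (by fun_prop) fun s hs => by have := hs.1; linarith) fun s hs =>
      (inv s (by have := hs.1; linarith)).1.le) (by
      obtain ⟨a1, a2, -⟩ := inv (g - δ) (by linarith)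
      obtain ⟨b1, b2, -⟩ := inv (g + δ) (by linarith)
      refine le_trans ?_ (lip _ _ a1.le a2.le b1.le b2.le).1
      have c1 : 0 < A + (g - δ) := by linarith
      have c2 : 0 < A + (g + δ) := by linarith
      rw [show 1 / (A + (g - δ)) - 1 / (A + (g + δ)) = 2 * δ / ((A + (g - δ)) * (A + (g + δ))) by
        field_simp; ring, abs_of_pos (by positivity), hδ, mul_one_div, div_div, div_div,
        div_le_div_iff₀ (by positivity) (by positivity), ← hδ]
      have c3 : (A + (g - δ)) * (A + (g + δ)) ≤ (3 * B) * (3 * B) :=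
        mul_le_mul (by linarith) (by linarith) c2.le (by positivity)
      have c4 : (4 : ℝ) ^ n ≤ q ^ 4 := by
        have : (2 ^ n) ^ 2 ≤ (q * q) ^ 2 :=
          Nat.pow_le_pow_left (h1.trans (Nat.mul_le_mul_right _ hp)) 2
        rw [← pow_mul, mul_comm, pow_mul] at this
        exact_mod_cast this.trans_eq (by ring)
      calc _ = 160 * 4 ^ k * q ^ 2 * (4 ^ n * ((A + (g - δ)) * (A + (g + δ)))) := by
            rw [hl, pow_add, pow_add]; ring
        _ ≤ 160 * 4 ^ k * q ^ 2 * (q ^ 4 * ((3 * B) * (3 * B))) := by gcongr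
        _ = _ := by ring)
  refine ⟨β, fun x x1 x2 => ?_⟩
  obtain ⟨s, s1, s2, rfl⟩ := hβ x x1 x2
  have s0 : 0 < s := by linarith
  obtain ⟨a1, a2, a3⟩ := inv s s0
  refine ⟨?_, (lip _ _ a1.le a2.le t0.le (by linarith)).2.trans ?_, 2 * l, by omega, ?_⟩
  · have := (lip _ 0 a1.le a2.le le_rfl zero_le_one).2
    rw [sub_zero, abs_of_pos a1, show ψ 0 = p / q by simp [hψ]] at this
    linarith
  · rw [show 1 / (A + s) - t = (1 / t - (A + s)) * (1 / (A + s) * t) by field_simp, abs_mul,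
      abs_of_pos (show 0 < 1 / (A + s) * t by positivity)]
    calc _ ≤ 1 * (2 / B * (1 / B)) := by
          gcongr
          exact abs_le.2 ⟨by linarith, by linarith⟩
      _ ≤ _ := by rw [one_mul, div_mul_div_comm, ← sq]; gcongr; norm_num
  · refine Nat.mul_le_mul_left _ (le_trans (by simp) (card_le_card (s := Finset.Ico (n + 1) (n + 1 + l))
      fun i hi => mem_filter.2 ⟨mem_range.2 (by have := Finset.mem_Ico.1 hi; omega), ?_⟩))
    obtain ⟨j, rfl⟩ := Nat.exists_eq_add_of_le' (Finset.mem_Ico.1 hi).1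
    rw [Function.iterate_add_apply, add_comm n, Function.iterate_add_apply, (h5 _ a1 a2).2.2,
      Function.iterate_one, G_inv _ s0.le (by linarith)]
    exact hg l s (abs_le.2 ⟨by linarith, by linarith⟩) j (by have := Finset.mem_Ico.1 hi; omega)

end Pool.Agent.H59.CF
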