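import Mathlib
import Pool.Agent.H59.CF1
import Pool.Agent.H59.CF2

/-! A distribution normal number whose continued fraction has too many digits equal to one. -/

set_option autoImplicit false

namespace Pool.Agent.H59.CF

open Finset Filter Topology Pool.Agent.H39.Equi

lemma evp (d : ℕ) (A r : ℝ) (hr : 1 < r) : ∀ᶠ W : ℕ in atTop, A * (W : ℝ) ^ d < r ^ W := by
  have := (tendsto_pow_const_div_const_pow_of_one_lt d hr).const_mul A
  rw [mul_zero] at this
  filter_upwards [this.eventually (gt_mem_nhds one_pos)] with W h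
  rwa [← mul_div_assoc, div_lt_one (by positivity)] at h

lemma window (c : ℕ → ℕ) (c0 : ∀ T, 1 ≤ c T) (c1 : ∀ T, c T ≤ T + 1) (cm : Monotone c)
    (K B X : ℕ) (K0 : 0 < K) : ∃ U W, X ≤ U ∧ W ≤ U ∧ B * (U + W + 1) ^ 30 ≤ 2 ^ W ∧
    K * c (U + 2 * W) ≤ (K + 1) * c U ∧ K * c (2 * U + 3 * W + 2) ≤ (K + 1) * c (2 * U + W) := by
  have K1 : (0 : ℝ) < K := Nat.cast_pos.2 K0
  obtain ⟨W, ⟨h1, h2⟩, h3⟩ := (((evp 4 72 ((K + 1) / K) (by rw [one_lt_div K1]; linarith)).and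
    (evp 60 (B * 7 ^ 30) 2 one_lt_two)).and (eventually_ge_atTop (X + 1))).exists
  by_contra hc
  push Not at hc
  have W1 : 1 ≤ W := by omega
  have ub : ∀ i ≤ W, W + i * (2 * W + 2) ≤ 5 * W ^ 2 := fun i hi => by
    nlinarith [Nat.mul_le_mul_right (2 * W + 2) hi]
  have key : ∀ i ≤ W, (K + 1) ^ i ≤ K ^ i * (c (W + i * (2 * W + 2)) *
      c (2 * (W + i * (2 * W + 2)) + W)) := fun i => by
    induction i with
    | zero => intro _; rw [pow_zero, pow_zero, one_mul]; exact Nat.mul_pos (c0 _) (c0 _)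
    | succ i ih =>
      intro hi
      have ih := ih (by omega)
      have u := ub i (by omega)
      rw [show W + (i + 1) * (2 * W + 2) = W + i * (2 * W + 2) + (2 * W + 2) by ring]
      have WU : W ≤ W + i * (2 * W + 2) := Nat.le_add_right _ _
      generalize W + i * (2 * W + 2) = U at *
      have b : B * (U + W + 1) ^ 30 ≤ 2 ^ W := by
        have : B * 7 ^ 30 * W ^ 60 < 2 ^ W := by exact_mod_cast h2
        calc _ ≤ B * (7 * W ^ 2) ^ 30 := by gcongr; nlinarith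
          _ = B * 7 ^ 30 * W ^ 60 := by ring
          _ ≤ _ := this.le
      have m1 := cm (show U ≤ U + (2 * W + 2) by omega)
      have m2 := cm (show U + 2 * W ≤ U + (2 * W + 2) by omega)
      have m3 := cm (show 2 * U + W ≤ 2 * (U + (2 * W + 2)) + W by omega)
      have m4 := cm (show 2 * U + 3 * W + 2 ≤ 2 * (U + (2 * W + 2)) + W by omega)
      have : (K + 1) * (c U * c (2 * U + W)) ≤ K * (c (U + (2 * W + 2)) *
          c (2 * (U + (2 * W + 2)) + W)) := by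
        by_cases d : K * c (U + 2 * W) ≤ (K + 1) * c U
        · have := (hc U W (by omega) WU b d).le.trans (Nat.mul_le_mul_left K m4)
          calc _ = c U * ((K + 1) * c (2 * U + W)) := by ring
            _ ≤ _ := Nat.mul_le_mul m1 this
            _ = _ := by ring
        · have := (not_le.1 d).le.trans (Nat.mul_le_mul_left K m2)
          calc _ = (K + 1) * c U * c (2 * U + W) := by ring
            _ ≤ _ := Nat.mul_le_mul this m3
            _ = _ := by ring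
      calc _ = (K + 1) * (K + 1) ^ i := by ring
        _ ≤ (K + 1) * (K ^ i * (c U * c (2 * U + W))) := Nat.mul_le_mul_left _ ih
        _ = K ^ i * ((K + 1) * (c U * c (2 * U + W))) := by ring
        _ ≤ _ := Nat.mul_le_mul_left _ this
        _ = _ := by ring
  have a := key W le_rfl
  have u := ub W le_rfl
  generalize W + W * (2 * W + 2) = U at *
  have b : c U * c (2 * U + W) ≤ (6 * W ^ 2) * (12 * W ^ 2) :=
    Nat.mul_le_mul ((c1 _).trans (by nlinarith)) ((c1 _).trans (by nlinarith))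
  have d : ((K + 1) ^ W : ℝ) ≤ K ^ W * (6 * W ^ 2 * (12 * W ^ 2)) := by
    exact_mod_cast a.trans (Nat.mul_le_mul_left _ b)
  rw [div_pow, lt_div_iff₀ (by positivity)] at h1
  nlinarith

section
variable {Q : ℕ → ℕ} {h a b c : ℕ} {x y η η' : ℝ}

lemma Good.cat (h1 : Good Q h x a b η) (h2 : Good Q h x b c η') (ab : a ≤ b) (e1 : 0 ≤ η)
    (e2 : 0 ≤ η') : Good Q h x a c (η + η') := fun N c1 c2 => by
  have N0 : (0 : ℝ) ≤ N := by positivity
  rcases le_total N b with l | l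
  · nlinarith [h1 N c1 l]
  · rw [← sum_Ico_consecutive _ ab l]
    have : (b : ℝ) ≤ N := Nat.cast_le.2 l
    nlinarith [norm_add_le (∑ n ∈ Ico a b, e (h * (Q n * x))) (∑ n ∈ Ico b N, e (h * (Q n * x))),
      h1 b ab le_rfl, h2 N l c2]

lemma Good.triv {K : ℕ} (K0 : 0 < K) (hb : K * b ≤ (K + 1) * a) : Good Q h x a b (1 / K) :=
  fun N c1 c2 => (CF.triv h x a N).trans (by
    have : K * (N - a) ≤ N := by
      have := Nat.mul_le_mul_left K c2
      rw [Nat.mul_sub]; rw [add_mul] at hb; omega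
    rw [one_div_mul_eq_div, le_div_iff₀ (Nat.cast_pos.2 K0), mul_comm]
    exact_mod_cast this)

lemma Good.move {K S : ℕ} {d : ℝ} (h1 : Good Q h y a b η) (K0 : 0 < K) (Ka : K ≤ a)
    (hS : ∀ n < b, Q n ≤ 2 ^ S) (bS : b ≤ S + 1) (hd : |x - y| ≤ d)
    (hd' : 7 * h * (S + 1) * 2 ^ S * d ≤ 1) : Good Q h x a b (η + 1 / K) := fun N c1 c2 => by
  have d0 : 0 ≤ d := (abs_nonneg _).trans hd
  have a1 : ‖∑ n ∈ Ico a N, e (h * (Q n * x)) - ∑ n ∈ Ico a N, e (h * (Q n * y))‖ ≤ 1 := by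
    rw [← sum_sub_distrib]
    refine (norm_sum_le _ _).trans ((sum_le_card_nsmul _ _ (7 * (h * (2 ^ S * d)) : ℝ)
      fun n hn => (e_lip _ _).trans ?_).trans ?_)
    · rw [← mul_sub, ← mul_sub, abs_mul, abs_mul, Nat.abs_cast, Nat.abs_cast]
      gcongr
      exact_mod_cast hS n ((mem_Ico.1 hn).2.trans_le c2)
    · rw [nsmul_eq_mul]
      calc _ ≤ (S + 1 : ℝ) * (7 * (h * (2 ^ S * d))) := by
            gcongr; exact_mod_cast (by simp; omega : (Ico a N).card ≤ S + 1)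
        _ ≤ _ := by linarith
  have a2 : (1 : ℝ) ≤ 1 / K * N := by
    rw [one_div_mul_eq_div, one_le_div (Nat.cast_pos.2 K0)]; exact_mod_cast Ka.trans c1
  linarith [h1 N c1 c2, norm_sub_norm_le (∑ n ∈ Ico a N, e (h * (Q n * x)))
    (∑ n ∈ Ico a N, e (h * (Q n * y)))]

end

open Classical in
theorem exists_z {Q : ℕ → ℕ} (Q0 : Q 0 = 1) (hQ : ∀ n, 2 * Q n ≤ Q (n + 1)) : ∃ z : ℝ, 0 < z ∧ z < 1 ∧
    UD (fun n => Q n * z) ∧ ∀ k, ∃ N, k ≤ N ∧
      N ≤ 2 * ((range N).filter fun i => ⌊1 / G^[i] z⌋₊ = 1).card := by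
  set c : ℕ → ℕ := fun T => sInf {n | 2 ^ T < Q n} with hc
  have big : ∀ T, 2 ^ T < Q (T + 1) := fun T => by
    have := grow hQ 0 (T + 1)
    rw [Q0, zero_add, pow_succ] at this
    have : 0 < 2 ^ T := by positivity
    omega
  have c1 : ∀ T, ∀ n < c T, Q n ≤ 2 ^ T := fun T n h => not_lt.1 (Nat.notMem_of_lt_sInf (s := {n | 2 ^ T < Q n}) h)
  have c2 : ∀ T n, c T ≤ n → 2 ^ T < Q n := fun T n h => by
    have a : 2 ^ T < Q (c T) := Nat.sInf_mem (s := {n | 2 ^ T < Q n}) ⟨_, big T⟩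
    have b := grow hQ (c T) (n - c T)
    rw [Nat.add_sub_cancel' h] at b
    exact a.trans_le ((Nat.le_mul_of_pos_left _ (by positivity)).trans b)
  have c3 : ∀ T, c T ≤ T + 1 := fun T => Nat.sInf_le (big T)
  have c4 : Monotone c := fun T T' h =>
    Nat.sInf_le ((Nat.pow_le_pow_right two_pos h).trans_lt (c2 T' _ le_rfl))
  have c5 : ∀ T M, Q M ≤ 2 ^ T → M < c T := fun T M h => not_le.1 fun d => (c2 T M d).not_ge h
  have c0 : ∀ T, 1 ≤ c T := fun T => c5 T 0 (Q0 ▸ Nat.one_le_two_pow)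
  clear_value c
  choose M0 hM using fun k => pick hQ k (2 ^ k) (by positivity)
  set Inv : ℕ → ℝ × ℕ × ℕ → Prop := fun k s => 0 < s.1 ∧ s.1 + 1 / 2 ^ s.2.1 < 1 ∧ M0 k ≤ s.2.2 ∧
    2 ^ k ≤ s.2.2 ∧ 2 ^ k * c (s.2.1 + 2) ≤ (2 ^ k + 1) * s.2.2 with hInv
  have stage : ∀ k s, Inv k s → ∃ s', Inv (k + 1) s' ∧ s.1 ≤ s'.1 ∧
      s'.1 + 1 / 2 ^ s'.2.1 ≤ s.1 + 1 / 2 ^ s.2.1 ∧ s.2.2 ≤ s'.2.2 ∧ ∀ x, s'.1 ≤ x →
      x ≤ s'.1 + 1 / 2 ^ s'.2.1 → (∀ h, 1 ≤ h → h ≤ k → Good Q h x s.2.2 s'.2.2 (6 / 2 ^ k)) ∧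
      ∃ N, k ≤ N ∧ N ≤ 2 * ((range N).filter fun i => ⌊1 / G^[i] x⌋₊ = 1).card := by
    rintro k ⟨α, L, M⟩ ⟨i1, i2, i3, i4, i5⟩
    simp only at i1 i2 i3 i4 i5 ⊢
    obtain ⟨F, hF⟩ := hM k (L + 2)
    obtain ⟨U, W, w1, w2, w3, w4, w5⟩ := window c c0 c3 c4 (2 ^ (k + 1))
      (720 * 4 ^ k * F ^ 6 + 56 * k) (Q (M + c (L + 2) + M0 (k + 1) + 2 ^ (k + 1)) + L + 3) (by positivity)
    have u1 := c5 U (M + c (L + 2) + M0 (k + 1) + 2 ^ (k + 1))
      (le_trans (by omega) (Nat.lt_two_pow_self (n := U)).le)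
    have K0 : 0 < 2 ^ k := by positivity
    have b2 : 56 * k * (U + W + 1) ≤ 2 ^ W := le_trans (Nat.mul_le_mul (Nat.le_add_left _ _)
      (Nat.le_self_pow (by norm_num) _)) w3
    have b0 : ∀ q, q ≤ F * (U + 1) ^ 5 → 720 * 4 ^ k * q ^ 6 ≤ 2 ^ W := fun q q2 => by
      refine le_trans ?_ (le_trans (Nat.mul_le_mul_right _ (Nat.le_add_right _ _)) w3)
      rw [mul_assoc _ (F ^ 6), show 30 = 5 * 6 from rfl, pow_mul, ← mul_pow]
      exact Nat.mul_le_mul_left _ (Nat.pow_le_pow_left (q2.trans (Nat.mul_le_mul_left _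
        (Nat.pow_le_pow_left (Nat.add_le_add_right (Nat.le_add_right _ _) _) _))) _)
    replace w1 : L + 3 ≤ U := le_trans (by rw [add_assoc]; exact Nat.le_add_left _ _) w1
    clear w3
    obtain ⟨q, p, q1, q2, p1, p2, g1⟩ := hF (α + 1 / 2 ^ (L + 2)) (max M (c (L + 2))) (c U) U
      (le_max_of_le_left i3) (c2 _ _ (le_max_right _ _)).le (c1 U) (c3 U)
    have q0 : (0 : ℝ) < q := Nat.cast_pos.2 q1.pos
    have l0 : (0 : ℝ) < 1 / 2 ^ (L + 2) := by positivity
    have l1 : (1 : ℝ) / 2 ^ L = 4 * (1 / 2 ^ (L + 2)) := by rw [pow_add]; field_simp; norm_num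
    have p0 : 0 < p := by
      have : (0 : ℝ) < p / q := by linarith
      exact_mod_cast (div_pos_iff_of_pos_right q0).1 this
    lift p to ℕ using p0.le
    rw [Int.cast_natCast] at p1 p2 g1
    have pq : p < q := by
      have : (p / q : ℝ) < 1 := by linarith
      exact_mod_cast (div_lt_one q0).1 this
    obtain ⟨α2, hα⟩ := near pq (Nat.coprime_of_lt_prime (by omega) pq q1).symm k
      (B := 2 ^ (U + W)) (le_self_pow₀ one_le_two (by omega))
    have b1 := b0 q q2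
    clear b0 q2 hF
    have b3 : 8 * q ^ 2 ≤ 2 ^ W := le_trans (Nat.mul_le_mul (by
      have : 0 < 4 ^ k := by positivity
      omega) (Nat.pow_le_pow_right q1.pos (by norm_num))) b1
    have B1 : (720 * 4 ^ k * q ^ 6 : ℝ) ≤ 2 ^ W := by exact_mod_cast b1
    have B2 : (56 * k * (U + W + 1) : ℝ) ≤ 2 ^ W := by exact_mod_cast b2
    have B3 : (8 * q ^ 2 : ℝ) ≤ 2 ^ W := by exact_mod_cast b3
    have o1 := c4 (show U ≤ U + 2 * W by omega)
    have o2 := c4 (show U + 2 * W ≤ 2 * U + W by omega)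
    obtain ⟨F', hF'⟩ := hM k (U + 2 * W)
    obtain ⟨q', p', -, -, r1, r2, g2⟩ := hF' α2 (c (U + 2 * W)) (c (2 * U + W)) (2 * U + W)
      (by omega) (c2 _ _ le_rfl).le (c1 _) (c3 _)
    obtain ⟨β, hβ⟩ := hα _ r1 (r2.trans (add_le_add_right (one_div_le_one_div_of_le (by positivity)
      (by rw [show U + 2 * W = W + (U + W) by ring, pow_add 2 W]; gcongr)) _))
    have hβ' := fun x (a : β ≤ x) (b : x ≤ β + 1 / 2 ^ (2 * U + 3 * W)) => hβ x a (b.trans
      (add_le_add_right (one_div_le_one_div_of_le (by positivity) (by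
        rw [show 2 * U + 3 * W = W + (U + W) * 2 by ring, pow_add 2 W, pow_mul]; gcongr)) _))
    have l2 : (2 : ℝ) / 2 ^ (U + W) ≤ 1 / 2 ^ (L + 2) := by
      rw [div_le_div_iff₀ (by positivity) (by positivity), ← pow_succ', one_mul]
      exact pow_le_pow_right₀ one_le_two (by omega)
    have l3 : (0 : ℝ) < 1 / 2 ^ (2 * U + 3 * W) := by positivity
    have e1 := abs_le.1 (hβ' β le_rfl (by linarith)).1
    have e2 := abs_le.1 (hβ' _ (by linarith) le_rfl).1
    refine ⟨(β, 2 * U + 3 * W, c (2 * U + W)), ⟨by simp only; linarith, by simp only; linarith,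
      by simp only; omega, by simp only; omega, w5⟩, by simp only; linarith, by simp only; linarith,
      by simp only; omega, fun x x1 x2 => ⟨fun h h1 h2 => ?_, (hβ' x x1 x2).2.2⟩⟩
    obtain ⟨d1, d2, -⟩ := hβ' x x1 x2
    have hk : (h : ℝ) ≤ k := Nat.cast_le.2 h2
    have W0 : (0 : ℝ) ≤ W := by positivity
    have t1 : Good Q h x M (max M (c (L + 2))) _ := Good.triv K0 (by
      rcases le_total M (c (L + 2)) with l | l
      · rwa [max_eq_right l]
      · rw [max_eq_left l]; exact Nat.mul_le_mul_right _ (Nat.le_succ _))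
    have t2 := (g1 h h1 h2).move K0 (le_max_of_le_left i4) (c1 _) (c3 _) d1 (by
      rw [pow_add, ← mul_div_assoc, div_le_one (by positivity)]
      calc _ = 2 ^ U * (14 * h * (U + 1) : ℝ) := by ring
        _ ≤ 2 ^ U * (56 * k * (U + W + 1)) := by gcongr <;> linarith
        _ ≤ _ := by gcongr)
    have t3 : Good Q h x (c U) (c (U + 2 * W)) _ := Good.triv K0 (by
      refine Nat.le_of_mul_le_mul_left ?_ two_pos
      rw [← mul_assoc, ← mul_assoc, ← pow_succ']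
      exact w4.trans (Nat.mul_le_mul_right _ (by omega)))
    have t4 := (g2 h h1 h2).move K0 (by omega) (c1 _) (c3 _) d2 (by
      rw [← pow_mul, show (U + W) * 2 = 2 * U + W + W by ring, pow_add _ (2 * U + W) W, ← mul_div_assoc,
        div_le_one (by positivity)]
      push_cast
      calc _ = 2 ^ (2 * U + W) * (28 * h * (2 * U + W + 1) : ℝ) := by ring
        _ ≤ 2 ^ (2 * U + W) * (28 * k * (2 * (U + W + 1))) := by gcongr; linarith
        _ ≤ _ := mul_le_mul_of_nonneg_left (by linarith) (by positivity))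
    have := ((t1.cat t2 (le_max_left _ _) (by positivity) (by positivity)).cat t3
      (by omega) (by positivity) (by positivity)).cat t4 (by omega) (by positivity)
      (by positivity)
    push_cast at this
    rwa [show (6 : ℝ) / 2 ^ k = 1 / 2 ^ k + (1 / 2 ^ k + 1 / 2 ^ k) + 1 / 2 ^ k +
      (1 / 2 ^ k + 1 / 2 ^ k) by ring]
  choose! f hf using stage
  set s : ℕ → ℝ × ℕ × ℕ := fun k => Nat.rec (1 / 4, 1, M0 0 + c 3 + 1) f k with hs
  have inv : ∀ k, Inv k (s k) := fun k => by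
    induction k with
    | zero => exact ⟨by norm_num [hs], by norm_num [hs], by simp [hs]; omega, by simp [hs],
        by simp [hs]; omega⟩
    | succ k ih => exact (hf k _ ih).1
  have R := fun k => (hf k _ (inv k)).2
  change ∀ k, (s k).1 ≤ (s (k + 1)).1 ∧ (s (k + 1)).1 + 1 / 2 ^ (s (k + 1)).2.1 ≤ _ ∧
    _ ≤ (s (k + 1)).2.2 ∧ ∀ x, (s (k + 1)).1 ≤ x → x ≤ (s (k + 1)).1 + 1 / 2 ^ (s (k + 1)).2.1 →
    (∀ h, 1 ≤ h → h ≤ k → Good Q h x _ (s (k + 1)).2.2 _) ∧ _ at R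
  have m1 : Monotone fun k => (s k).1 := monotone_nat_of_le_succ fun k => (R k).1
  have m2 : Antitone fun k => (s k).1 + 1 / 2 ^ (s k).2.1 := antitone_nat_of_succ_le fun k => (R k).2.1
  have m3 : Monotone fun k => (s k).2.2 := monotone_nat_of_le_succ fun k => (R k).2.2.1
  have ab : ∀ j k, (s j).1 ≤ (s k).1 + 1 / 2 ^ (s k).2.1 := fun j k =>
    (m1 (le_max_left j k)).trans (le_trans (le_add_of_nonneg_right (by positivity))
      (m2 (le_max_right j k)))
  set z := ⨆ k, (s k).1 with hz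
  have z1 : ∀ k, (s k).1 ≤ z := fun k => le_ciSup ⟨_, Set.forall_mem_range.2 fun j => ab j 0⟩ k
  have z2 : ∀ k, z ≤ (s k).1 + 1 / 2 ^ (s k).2.1 := fun k => ciSup_le fun j => ab j k
  have Z := fun k => (R k).2.2.2 z (z1 (k + 1)) (z2 (k + 1))
  refine ⟨z, (inv 0).1.trans_le (z1 0), (z2 0).trans_lt (inv 0).2.1, ud_of_weyl fun h h0 => ?_,
    fun k => (Z k).2⟩
  have all : ∀ k, h ≤ k → ∀ d, Good Q h z (s k).2.2 (s (k + d)).2.2 (12 / 2 ^ k - 12 / 2 ^ (k + d)) := by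
    intro k hk d
    induction d with
    | zero => intro N a b; rw [le_antisymm b a]; simp
    | succ d ih =>
      have := ih.cat ((Z (k + d)).1 h h0 (by omega)) (m3 (by omega)) (sub_nonneg.2 (by
        gcongr <;> [exact one_le_two; omega])) (by positivity)
      rwa [show (12 : ℝ) / 2 ^ (k + (d + 1)) = 12 / 2 ^ (k + d) - 6 / 2 ^ (k + d) by
        rw [← add_assoc, pow_succ]; field_simp; norm_num, ← sub_add]
  refine Metric.tendsto_nhds.2 fun ε ε0 => ?_
  obtain ⟨k, k1, k2⟩ := ((evp 0 (24 / ε) 2 one_lt_two).and (eventually_ge_atTop h)).exists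
  obtain ⟨N0, hN⟩ := exists_nat_gt (2 * (s k).2.2 / ε)
  filter_upwards [eventually_ge_atTop (N0 + (s k).2.2 + 1)] with N hN'
  have N1 : (0 : ℝ) < N := Nat.cast_pos.2 (by omega)
  have a := all k k2 N N (by omega) (le_trans (by have := Nat.lt_two_pow_self (n := k + N); omega)
    (inv (k + N)).2.2.2.1)
  have b := triv (Q := Q) h z 0 (s k).2.2
  rw [dist_zero_right, norm_div, Complex.norm_natCast, div_lt_iff₀ N1, range_eq_Ico,
    ← sum_Ico_consecutive _ (Nat.zero_le (s k).2.2) (by omega)]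
  refine (norm_add_le _ _).trans_lt ?_
  rw [Nat.sub_zero] at b
  rw [div_lt_iff₀ ε0] at hN
  rw [pow_zero, mul_one, div_lt_iff₀ ε0] at k1
  have : (N0 : ℝ) ≤ N := Nat.cast_le.2 (by omega)
  have : (12 : ℝ) / 2 ^ k ≤ ε / 2 := by rw [div_le_iff₀ (by positivity)]; linarith
  have : (0 : ℝ) ≤ 12 / 2 ^ (k + N) := by positivity
  nlinarith

end Pool.Agent.H59.CF
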