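import Mathlib

set_option autoImplicit false

namespace Pool.Agent.H59.CJ

open Finset Complex
open scoped Real

lemma split1 {M : Type*} [AddCommMonoid M] (F : ℕ → M) (h : ℕ) :
    ∑ r ∈ range (2 * h + 1), F r =
      F 0 + ∑ x ∈ range h, F (x + 1) + ∑ x ∈ range h, F (2 * h + 1 - (x + 1)) := by
  rw [sum_range_succ', show 2 * h = h + h by ring, sum_range_add, ← sum_range_reflect
    (fun x => F (h + x + 1)) h]
  have : ∑ j ∈ range h, F (h + (h - 1 - j) + 1) = ∑ x ∈ range h, F (h + h + 1 - (x + 1)) := by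
    apply sum_congr rfl
    intro x hx
    rw [mem_range] at hx
    congr 1; omega
  rw [this]; abel

lemma split2 {M : Type*} [AddCommMonoid M] (F : ℕ → M) (h : ℕ) :
    ∑ r ∈ range (2 * h + 1), F r =
      F 0 + ∑ x ∈ range h, F (2 * (x + 1)) + ∑ x ∈ range h, F (2 * h + 1 - 2 * (x + 1)) := by
  have h1 : ∀ h, ∑ r ∈ range (2 * h + 1), F r =
      F 0 + ∑ x ∈ range h, F (2 * (x + 1)) + ∑ x ∈ range h, F (2 * x + 1) := by
    intro h
    induction h with
    | zero => simp
    | succ h ih =>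
      rw [show 2 * (h + 1) + 1 = 2 * h + 1 + 1 + 1 by ring, sum_range_succ, sum_range_succ, ih,
        sum_range_succ, sum_range_succ, show 2 * h + 1 + 1 = 2 * (h + 1) by ring]
      abel
  rw [h1, ← sum_range_reflect (fun x => F (2 * x + 1)) h]
  congr 1
  apply sum_congr rfl
  intro x hx
  rw [mem_range] at hx
  congr 1; omega

lemma abel_tail (A w : ℕ → ℝ) (B : ℝ) (hA : ∀ n, |A n| ≤ B) (Y K : ℕ) (hYK : Y ≤ K)
    (hw : ∀ n, Y ≤ n → n < K → w (n + 1) ≤ w n) (h0 : 0 ≤ w K) :
    ∑ d ∈ Ico Y K, (A (d + 1) - A d) * w d ≤ 2 * B * w Y := by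
  have key : ∀ n, Y ≤ n → n ≤ K → ∑ d ∈ Ico Y n, (A (d + 1) - A d) * w d ≤
      2 * B * (w Y - w n) + (A n - A Y) * w n := by
    intro n hn
    induction n, hn using Nat.le_induction with
    | base => intro _; simp
    | succ n hn ih =>
      intro hK
      rw [sum_Ico_succ_top hn]
      have h1 := ih (by omega)
      have h2 := hw n hn (by omega)
      have h3 := abs_le.1 (hA (n + 1))
      have h4 := abs_le.1 (hA Y)
      have h5 : 0 ≤ (2 * B - (A (n + 1) - A Y)) * (w n - w (n + 1)) :=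
        mul_nonneg (by linarith) (by linarith)
      nlinarith
  have h1 := key K hYK le_rfl
  have h3 := abs_le.1 (hA K)
  have h4 := abs_le.1 (hA Y)
  have h5 : 0 ≤ (2 * B - (A K - A Y)) * w K := mul_nonneg (by linarith) h0
  nlinarith

lemma crt_sum (F : ℕ → ℂ) {p m : ℕ} (hp : 0 < p) (hm : 0 < m) (hc : Nat.Coprime p m)
    (hF : ∀ x, F (x % (p * m)) = F x) :
    ∑ x ∈ range (p * m), F x = ∑ y ∈ range m, ∑ z ∈ range p, F (p * y + m * z) := by
  rw [← sum_product']
  have hinj : Set.InjOn (fun q : ℕ × ℕ => (p * q.1 + m * q.2) % (p * m))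
      ((range m ×ˢ range p : Finset (ℕ × ℕ)) : Set (ℕ × ℕ)) := by
    rintro ⟨y, z⟩ h1 ⟨y', z'⟩ h2 he
    simp only [coe_product, coe_range, Set.mem_prod, Set.mem_Iio] at h1 h2
    have he' : p * y + m * z ≡ p * y' + m * z' [MOD p * m] := he
    have e1 : p * y ≡ p * y' [MOD m] := by
      have := he'.of_mul_left p
      simpa [Nat.ModEq] using this
    have e2 : m * z ≡ m * z' [MOD p] := by
      have := he'.of_mul_right m
      simpa [Nat.ModEq] using this
    have e3 := Nat.ModEq.eq_of_lt_of_lt (Nat.ModEq.cancel_left_of_coprime hc.symm e1) h1.1 h2.1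
    have e4 := Nat.ModEq.eq_of_lt_of_lt (Nat.ModEq.cancel_left_of_coprime hc e2) h1.2 h2.2
    rw [e3, e4]
  have him : (range m ×ˢ range p).image (fun q : ℕ × ℕ => (p * q.1 + m * q.2) % (p * m)) =
      range (p * m) := by
    apply eq_of_subset_of_card_le
    · intro x hx
      obtain ⟨q, _, rfl⟩ := mem_image.1 hx
      exact mem_range.2 (Nat.mod_lt _ (by positivity))
    · rw [card_image_of_injOn hinj]; simp [mul_comm]
  rw [← him, sum_image hinj]
  exact sum_congr rfl (fun q _ => hF _)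

noncomputable def e (t : ℤ) (n : ℕ) : ℂ := cexp (2 * π * I * t / n)

lemma e_add (s t : ℤ) (n : ℕ) : e (s + t) n = e s n * e t n := by
  simp only [e, ← Complex.exp_add]; congr 1; push_cast; ring

lemma e_mul_self (t : ℤ) {n : ℕ} (hn : 0 < n) : e (n * t) n = 1 := by
  have : (n : ℂ) ≠ 0 := by exact_mod_cast hn.ne'
  rw [e, show 2 * π * I * ((n * t : ℤ) : ℂ) / n = t * (2 * π * I) by push_cast; field_simp]
  exact Complex.exp_int_mul_two_pi_mul_I t

lemma e_cancel (t : ℤ) {p m : ℕ} (hp : 0 < p) : e (p * t) (p * m) = e t m := by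
  have : (p : ℂ) ≠ 0 := by exact_mod_cast hp.ne'
  simp only [e]; congr 1; push_cast
  by_cases hm : (m : ℂ) = 0
  · simp [hm]
  · field_simp

lemma e_congr {s t : ℤ} {n : ℕ} (hn : 0 < n) (h : (n : ℤ) ∣ s - t) : e s n = e t n := by
  obtain ⟨c, hc⟩ := h
  rw [show s = t + n * c by linarith, e_add, e_mul_self _ hn, mul_one]

noncomputable def T (b : ℤ) (n : ℕ) : ℂ := ∑ x ∈ range n, (jacobiSym x n : ℂ) * e (b * x) n
noncomputable def G (u : ℤ) (n : ℕ) : ℂ := ∑ x ∈ range n, e (u * x ^ 2) n

lemma sum_zmod {n : ℕ} [NeZero n] (F : ZMod n → ℂ) : ∑ x, F x = ∑ k ∈ range n, F k := by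
  symm
  apply sum_nbij' (fun k : ℕ => (k : ZMod n)) (fun x : ZMod n => x.val)
  · intro _ _; simp
  · intro x _; simpa using ZMod.val_lt x
  · intro k hk; simpa using ZMod.val_cast_of_lt (by simpa using hk)
  · intro x _; simp
  · intro _ _; rfl

def Good (n : ℕ) : Prop := ∃ C : ℂ, C ^ 2 = jacobiSym (-1) n * n ∧
  (∀ b : ℤ, T b n = jacobiSym b n * C) ∧ ∀ u : ℤ, Int.gcd u n = 1 → G u n = jacobiSym u n * C

lemma good_prime {p : ℕ} (hp : p.Prime) (h2 : p ≠ 2) : Good p := by
  have := Fact.mk hp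
  have hr : ringChar (ZMod p) ≠ 2 := by rw [ZMod.ringChar_zmod_n]; exact h2
  set χ : MulChar (ZMod p) ℂ := (quadraticChar (ZMod p)).ringHomComp (Int.castRingHom ℂ) with hχ
  have hval : ∀ a : ℤ, χ (a : ZMod p) = (jacobiSym a p : ℂ) := by
    intro a
    rw [← jacobiSym.legendreSym.to_jacobiSym]; simp [hχ, legendreSym]
  have hne : χ ≠ 1 := (MulChar.ringHomComp_ne_one_iff (RingHom.injective_int _)).2
    (quadraticChar_ne_one hr)
  have hq : χ.IsQuadratic := (quadraticChar_isQuadratic _).comp _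
  have hψ := ZMod.isPrimitive_stdAddChar p
  have hT : ∀ b : ℤ, T b p = gaussSum χ (ZMod.stdAddChar.mulShift (b : ZMod p)) := by
    intro b
    rw [gaussSum, sum_zmod, T]
    apply sum_congr rfl
    intro x _
    rw [AddChar.mulShift_apply, ← hval, e, ← ZMod.stdAddChar_coe]
    push_cast; rfl
  have hT2 : ∀ b : ℤ, T b p = jacobiSym b p * gaussSum χ ZMod.stdAddChar := by
    intro b
    rw [hT, ← hval]
    by_cases hb : (b : ZMod p) = 0
    · rw [hb, AddChar.mulShift_zero, MulChar.map_zero, zero_mul, gaussSum]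
      simpa using MulChar.sum_eq_zero_of_ne_one hne
    · have h1 := gaussSum_mulShift χ ZMod.stdAddChar (Units.mk0 _ hb)
      simp only [Units.val_mk0] at h1
      rw [← h1, ← mul_assoc]
      have : χ b * χ b = 1 := by
        rcases hq (b : ZMod p) with h | h | h
        · exact absurd h (by
            have := (IsUnit.mk0 _ hb).map χ
            exact this.ne_zero)
        · rw [h]; ring
        · rw [h]; ring
      rw [this, one_mul]
  refine ⟨gaussSum χ ZMod.stdAddChar, ?_, hT2, ?_⟩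
  · rw [gaussSum_sq hne hq hψ, ← hval]; simp
  · intro u hu
    have hu0 : (u : ZMod p) ≠ 0 := by
      rw [Ne, ZMod.intCast_zmod_eq_zero_iff_dvd]
      intro hd
      have := Int.dvd_gcd hd (dvd_refl (p : ℤ))
      rw [hu] at this
      have h3 : p ∣ 1 := by exact_mod_cast this
      exact hp.one_lt.ne' (Nat.dvd_one.1 h3)
    rw [← hT2, hT]
    have h1 : G u p = ∑ x : ZMod p, ZMod.stdAddChar ((u : ZMod p) * x ^ 2) := by
      rw [sum_zmod, G]
      apply sum_congr rfl
      intro x _
      rw [e, ← ZMod.stdAddChar_coe]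
      push_cast; rfl
    have h3 : ∑ x : ZMod p, ZMod.stdAddChar ((u : ZMod p) * x ^ 2) =
        ∑ a : ZMod p, (χ a + 1) * ZMod.stdAddChar ((u : ZMod p) * a) := by
      rw [← sum_fiberwise (s := univ) (g := fun x : ZMod p => x ^ 2)]
      apply sum_congr rfl
      intro a _
      rw [sum_congr rfl (g := fun _ => ZMod.stdAddChar ((u : ZMod p) * a))
        (fun x hx => by rw [(mem_filter.1 hx).2]), sum_const, nsmul_eq_mul]
      congr 1
      have h4 := quadraticChar_card_sqrts hr a
      have h5 : ({x : ZMod p | x ^ 2 = a} : Set (ZMod p)).toFinset =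
          univ.filter (fun x : ZMod p => x ^ 2 = a) := by ext; simp
      rw [h5] at h4
      have h6 : ((((univ.filter (fun x : ZMod p => x ^ 2 = a)).card : ℤ)) : ℂ) =
          ((quadraticChar (ZMod p) a + 1 : ℤ) : ℂ) := by rw [h4]
      simpa [hχ] using h6
    have h7 := AddChar.sum_mulShift (u : ZMod p) hψ
    rw [if_neg hu0] at h7
    rw [h1, h3, gaussSum]
    simp only [add_mul, sum_add_distrib, one_mul, AddChar.mulShift_apply]
    have : ∑ x : ZMod p, ZMod.stdAddChar ((u : ZMod p) * x) = 0 := by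
      rw [← Nat.cast_zero (R := ℂ), ← h7]; exact sum_congr rfl (fun x _ => by rw [mul_comm])
    rw [this, add_zero]

lemma good_mul {p m : ℕ} (hp : 0 < p) (hm : 0 < m) (hc : Nat.Coprime p m) (h1 : Good p)
    (h2 : Good m) : Good (p * m) := by
  obtain ⟨C, c1, c2, c3⟩ := h1
  obtain ⟨D, d1, d2, d3⟩ := h2
  have : NeZero p := ⟨hp.ne'⟩
  have : NeZero m := ⟨hm.ne'⟩
  have hpm : 0 < p * m := by positivity
  have s1 : (jacobiSym p m : ℂ) ^ 2 = 1 := by
    exact_mod_cast jacobiSym.sq_one (a := p) (b := m) (by simpa using hc)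
  have s2 : (jacobiSym m p : ℂ) ^ 2 = 1 := by
    exact_mod_cast jacobiSym.sq_one (a := m) (b := p) (by simpa using hc.symm)
  refine ⟨jacobiSym p m * jacobiSym m p * C * D, ?_, ?_, ?_⟩
  · rw [mul_pow, mul_pow, mul_pow, s1, s2, c1, d1, jacobiSym.mul_right]; push_cast; ring
  · intro b
    rw [T, crt_sum _ hp hm hc]
    · have : ∀ y z : ℕ, (jacobiSym ((p * y + m * z : ℕ) : ℤ) (p * m) : ℂ) *
          e (b * ((p * y + m * z : ℕ) : ℤ)) (p * m) =
          (jacobiSym p m * jacobiSym m p) * ((jacobiSym y m * e (b * y) m) *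
            (jacobiSym z p * e (b * z) p)) := by
        intro y z
        have a1 : jacobiSym ((p * y + m * z : ℕ) : ℤ) p = jacobiSym m p * jacobiSym z p := by
          rw [← jacobiSym.mul_left]; apply jacobiSym.mod_left'; push_cast; simp
        have a2 : jacobiSym ((p * y + m * z : ℕ) : ℤ) m = jacobiSym p m * jacobiSym y m := by
          rw [← jacobiSym.mul_left]; apply jacobiSym.mod_left'; push_cast; simp
        have a3 : e (b * ((p * y + m * z : ℕ) : ℤ)) (p * m) = e (b * y) m * e (b * z) p := by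
          rw [← e_cancel (b * y) (m := m) hp, ← e_cancel (b * z) (m := p) hm, mul_comm m p,
            ← e_add]
          congr 1; push_cast; ring
        rw [jacobiSym.mul_right, a1, a2, a3]; push_cast; ring
      simp only [this, ← mul_sum, ← sum_mul]
      have t1 := c2 b
      have t2 := d2 b
      rw [T] at t1 t2
      rw [t1, t2, jacobiSym.mul_right]; push_cast; ring
    · intro x
      have : (((x % (p * m) : ℕ) : ℤ)) = (x : ℤ) % ((p * m : ℕ) : ℤ) := by push_cast; rfl
      rw [this, ← jacobiSym.mod_left]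
      congr 1
      apply e_congr hpm
      rw [← mul_sub]
      exact Dvd.dvd.mul_left (Int.ModEq.dvd (Int.mod_modEq _ _).symm) _
  · intro u hu
    have hu' : IsCoprime u ((p : ℤ) * m) := by
      rw [Int.isCoprime_iff_gcd_eq_one]; simpa using hu
    have hc' : IsCoprime (p : ℤ) m := Nat.isCoprime_iff_coprime.2 hc
    rw [G, crt_sum _ hp hm hc]
    · have : ∀ y z : ℕ, e (u * ((p * y + m * z : ℕ) : ℤ) ^ 2) (p * m) =
          e (u * p * y ^ 2) m * e (u * m * z ^ 2) p := by
        intro y z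
        rw [← e_cancel (u * p * y ^ 2) (m := m) hp, ← e_cancel (u * m * z ^ 2) (m := p) hm,
          mul_comm m p, ← e_add]
        apply e_congr hpm
        exact ⟨2 * u * y * z, by push_cast; ring⟩
      simp only [this, ← mul_sum, ← sum_mul]
      have t1 := c3 (u * m) (Int.isCoprime_iff_gcd_eq_one.1
        (IsCoprime.mul_left hu'.of_mul_right_left hc'.symm))
      have t2 := d3 (u * p) (Int.isCoprime_iff_gcd_eq_one.1
        (IsCoprime.mul_left hu'.of_mul_right_right hc'))
      rw [G] at t1 t2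
      rw [t1, t2, jacobiSym.mul_right, jacobiSym.mul_left, jacobiSym.mul_left]; push_cast; ring
    · intro x
      have : (((x % (p * m) : ℕ) : ℤ)) = (x : ℤ) % ((p * m : ℕ) : ℤ) := by push_cast; rfl
      rw [this]
      apply e_congr hpm
      rw [← mul_sub]
      exact Dvd.dvd.mul_left (Int.ModEq.dvd ((Int.mod_modEq _ _).symm.pow 2)) _

theorem good (n : ℕ) : Squarefree n → Odd n → Good n := by
  induction n using induction_on_primes with
  | zero => intro h; exact absurd h not_squarefree_zero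
  | one =>
    intro _ _
    exact ⟨1, by simp, fun b => by simp [T, e], fun u _ => by simp [G, e]⟩
  | prime_mul p a hp ih =>
    intro hs ho
    rw [Nat.squarefree_mul_iff] at hs
    rw [Nat.odd_mul] at ho
    have h2 : p ≠ 2 := by rintro rfl; exact absurd ho.1 (by decide)
    exact good_mul hp.pos ho.2.pos hs.1 (good_prime hp h2) (ih hs.2.2 ho.2)

end Pool.Agent.H59.CJ
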