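import Mathlib
import Pool.Agent.H59.CJ1

set_option autoImplicit false

namespace Pool.Agent.H59.CJ

open Finset
open scoped Real

lemma sum_sq (m : ℕ) : ∑ r ∈ range (m + 1), (r : ℝ) ^ 2 = m * (m + 1) * (2 * m + 1) / 6 := by
  induction m with
  | zero => simp
  | succ m ih => rw [sum_range_succ, ih]; push_cast; ring

/-- Estermann's estimate -/
lemma cos_sum {k : ℕ} (hk : 16 ≤ k) :
    (1 - Real.sqrt k) / 2 < ∑ r ∈ range k, Real.cos (π * (r : ℝ) ^ 2 / (2 * k)) := by
  set m := Nat.sqrt k with hm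
  have hm1 : m * m ≤ k := Nat.sqrt_le k
  have hm2 : k < (m + 1) * (m + 1) := Nat.lt_succ_sqrt k
  have hm4 : 4 ≤ m := by rw [hm, Nat.le_sqrt]; omega
  have hmk : m + 1 ≤ k := by nlinarith
  have hk0 : (0 : ℝ) < k := by exact_mod_cast (by omega : 0 < k)
  have hpi := Real.pi_pos
  have m1 : (m : ℝ) * m ≤ k := by exact_mod_cast hm1
  have m2 : (k : ℝ) < (m + 1) * (m + 1) := by exact_mod_cast hm2
  have m4 : (4 : ℝ) ≤ m := by exact_mod_cast hm4
  rw [← sum_range_add_sum_Ico _ hmk]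
  have h1 : ∑ r ∈ range (m + 1), (1 - (r : ℝ) ^ 2 / k) ≤
      ∑ r ∈ range (m + 1), Real.cos (π * (r : ℝ) ^ 2 / (2 * k)) := by
    apply sum_le_sum
    intro r hr
    have hr' : (r : ℝ) ≤ m := by exact_mod_cast Nat.lt_succ_iff.1 (mem_range.1 hr)
    have hr0 : (0 : ℝ) ≤ r := Nat.cast_nonneg _
    have h2 : (r : ℝ) ^ 2 ≤ k := by nlinarith
    have h3 := Real.one_sub_mul_le_cos (x := π * (r : ℝ) ^ 2 / (2 * k)) (by positivity) (by
      rw [div_le_div_iff₀ (by positivity) (by positivity)]; nlinarith)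
    have : 2 / π * (π * (r : ℝ) ^ 2 / (2 * k)) = (r : ℝ) ^ 2 / k := by field_simp
    rwa [this] at h3
  rw [sum_sub_distrib, ← sum_div, sum_sq] at h1
  simp only [sum_const, card_range, nsmul_eq_mul, mul_one] at h1
  have hsin : ∀ n : ℕ, m + 1 ≤ n → n ≤ k → (n : ℝ) / k ≤ Real.sin (π * n / (2 * k)) := by
    intro n _ hn
    have hn' : (n : ℝ) ≤ k := by exact_mod_cast hn
    have h3 := Real.mul_le_sin (x := π * (n : ℝ) / (2 * k)) (by positivity) (by
      rw [div_le_div_iff₀ (by positivity) (by positivity)]; nlinarith)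
    have : 2 / π * (π * (n : ℝ) / (2 * k)) = (n : ℝ) / k := by field_simp
    rwa [this] at h3
  have hsp : ∀ n : ℕ, m + 1 ≤ n → n ≤ k → 0 < Real.sin (π * n / (2 * k)) := by
    intro n h1 hn
    have : (0 : ℝ) < n := by exact_mod_cast (by omega : 0 < n)
    exact lt_of_lt_of_le (by positivity) (hsin n h1 hn)
  have h2 := abel_tail (fun r => -Real.sin (π * (r * (r - 1)) / (2 * k)))
    (fun r => 1 / Real.sin (π * r / (2 * k))) 1
    (fun n => by rw [abs_neg]; exact Real.abs_sin_le_one _) (m + 1) k hmk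
    (by
      intro n h1 hn
      apply one_div_le_one_div_of_le (hsp n h1 hn.le)
      have hn' : ((n + 1 : ℕ) : ℝ) ≤ k := by exact_mod_cast hn
      apply Real.sin_le_sin_of_le_of_le_pi_div_two
      · have : 0 ≤ π * n / (2 * k) := by positivity
        linarith
      · rw [div_le_div_iff₀ (by positivity) (by positivity)]; nlinarith
      · apply div_le_div_of_nonneg_right _ (by positivity)
        push_cast; nlinarith)
    (by have := hsp k hmk le_rfl; positivity)
  have h3 : ∑ d ∈ Ico (m + 1) k, (-Real.sin (π * (((d + 1 : ℕ) : ℝ) * (((d + 1 : ℕ) : ℝ) - 1)) /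
      (2 * k)) - -Real.sin (π * ((d : ℝ) * (d - 1)) / (2 * k))) * (1 / Real.sin (π * d / (2 * k)))
      = -2 * ∑ d ∈ Ico (m + 1) k, Real.cos (π * (d : ℝ) ^ 2 / (2 * k)) := by
    rw [mul_sum]
    apply sum_congr rfl
    intro d hd
    rw [mem_Ico] at hd
    have hs := hsp d hd.1 hd.2.le
    have e1 : π * (((d + 1 : ℕ) : ℝ) * (((d + 1 : ℕ) : ℝ) - 1)) / (2 * k) =
        π * (d : ℝ) ^ 2 / (2 * k) + π * d / (2 * k) := by push_cast; ring
    have e2 : π * ((d : ℝ) * (d - 1)) / (2 * k) =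
        π * (d : ℝ) ^ 2 / (2 * k) - π * d / (2 * k) := by ring
    rw [e1, e2, Real.sin_add, Real.sin_sub]
    field_simp
    ring
  rw [h3] at h2
  have h4 : 1 / Real.sin (π * ((m + 1 : ℕ) : ℝ) / (2 * k)) ≤ k / (m + 1) := by
    have := one_div_le_one_div_of_le (by positivity) (hsin (m + 1) le_rfl hmk)
    rw [one_div_div] at this
    push_cast at this ⊢
    exact this
  have hx0 : 0 ≤ Real.sqrt k := Real.sqrt_nonneg _
  have hx2 : Real.sqrt k * Real.sqrt k = k := Real.mul_self_sqrt hk0.le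
  generalize Real.sqrt k = x at *
  have hx1 : x < m + 1 := by nlinarith
  have h5 : (k : ℝ) / (m + 1) ≤ x / 2 + (m + 1) / 2 := by
    rw [div_le_iff₀ (by positivity)]; nlinarith
  have h6 : (m : ℝ) * (m + 1) * (2 * m + 1) / 6 / k < 2 * m / 4 := by
    rw [div_lt_iff₀ hk0]
    have : (m : ℝ) * ((m + 1) * (2 * m + 1) / 6) < m * (m * m / 2) := by
      apply mul_lt_mul_of_pos_left _ (by linarith)
      nlinarith
    nlinarith
  push_cast at h1
  linarith

theorem gauss_sign {k : ℕ} (hk : 16 ≤ k) (h3 : k % 4 = 3) (hsq : (G 1 k) ^ 2 = -(k : ℂ)) :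
    G 1 k = Complex.I * (Real.sqrt k : ℂ) := by
  have hk0 : 0 < k := by omega
  have hx2 : ((Real.sqrt k : ℝ) : ℂ) ^ 2 = k := by
    rw [← Complex.ofReal_pow, Real.sq_sqrt (Nat.cast_nonneg _)]; simp
  have : (G 1 k) ^ 2 = (Complex.I * (Real.sqrt k : ℂ)) ^ 2 := by
    rw [hsq, mul_pow, hx2, Complex.I_sq]; ring
  rcases sq_eq_sq_iff_eq_or_eq_neg.1 this with h | h
  · exact h
  exfalso
  obtain ⟨j, rfl⟩ : ∃ j, k = 2 * (2 * j + 1) + 1 := ⟨k / 4, by omega⟩
  set h' := 2 * j + 1 with hh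
  set k := 2 * h' + 1 with hkk
  set E := ∑ x ∈ range h', e (((x + 1 : ℕ) : ℤ) ^ 2) k with hE
  have g1 : G 1 k = 1 + 2 * E := by
    rw [G, hkk, split1, ← hkk]
    have : ∑ x ∈ range h', e (1 * ((k - (x + 1) : ℕ) : ℤ) ^ 2) k = E := by
      apply sum_congr rfl
      intro x hx
      rw [mem_range] at hx
      apply e_congr hk0
      rw [Nat.cast_sub (by omega)]
      exact ⟨k - 2 * ((x + 1 : ℕ) : ℤ), by ring⟩
    rw [this]
    simp only [one_mul]
    rw [← hE]; simp [e]; ring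
  have ei : e 3 4 = -Complex.I := by
    rw [e, show 2 * (π : ℂ) * Complex.I * ((3 : ℤ) : ℂ) / ((4 : ℕ) : ℂ) =
      π * Complex.I + π / 2 * Complex.I by push_cast; ring, Complex.exp_add,
      Complex.exp_pi_mul_I, Complex.exp_pi_div_two_mul_I]; ring
  have g2 : ∑ r ∈ range k, e ((r : ℤ) ^ 2) (4 * k) = 1 + (1 - Complex.I) * E := by
    rw [hkk, split2, ← hkk]
    have a1 : ∑ x ∈ range h', e (((2 * (x + 1) : ℕ) : ℤ) ^ 2) (4 * k) = E := by
      apply sum_congr rfl
      intro x _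
      rw [← e_cancel _ (p := 4) (m := k) (by norm_num)]
      congr 1; push_cast; ring
    have a2 : ∑ x ∈ range h', e (((k - 2 * (x + 1) : ℕ) : ℤ) ^ 2) (4 * k) = -Complex.I * E := by
      rw [hE, mul_sum]
      apply sum_congr rfl
      intro x hx
      rw [mem_range] at hx
      rw [← e_cancel _ (p := 4) (m := k) (by norm_num), ← ei,
        ← e_cancel 3 (p := k) (m := 4) hk0, mul_comm k 4, ← e_add]
      apply e_congr (by omega)
      rw [Nat.cast_sub (by omega)]
      refine ⟨j - ((x + 1 : ℕ) : ℤ), ?_⟩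
      have : (k : ℤ) = 4 * j + 3 := by rw [hkk, hh]; push_cast; ring
      push_cast
      rw [this]; ring
    rw [a1, a2]; simp [e]; ring
  have g3 : (∑ r ∈ range k, e ((r : ℤ) ^ 2) (4 * k)).re =
      ∑ r ∈ range k, Real.cos (π * (r : ℝ) ^ 2 / (2 * k)) := by
    rw [Complex.re_sum]
    apply sum_congr rfl
    intro r _
    have hkc : (k : ℂ) ≠ 0 := by exact_mod_cast hk0.ne'
    rw [← Complex.exp_ofReal_mul_I_re, e]
    congr 2
    push_cast; field_simp; ring
  have h1 := cos_sum hk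
  rw [← g3, g2] at h1
  have hE2 : E = (-(Complex.I * (Real.sqrt k : ℂ)) - 1) / 2 := by rw [← h, g1]; ring
  rw [hE2] at h1
  simp at h1
  linarith

end Pool.Agent.H59.CJ
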