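import Mathlib
import Pool.Agent.H59.CJ2

set_option autoImplicit false

namespace Pool.Agent.H59.CJ

open Finset Filter Topology
open scoped Real

lemma J_refl {n x : ℕ} (h3 : n % 4 = 3) (hx : x ≤ n) :
    jacobiSym ((n - x : ℕ) : ℤ) n = -jacobiSym x n := by
  have ho : Odd n := by rw [Nat.odd_iff]; omega
  have : jacobiSym ((n - x : ℕ) : ℤ) n = jacobiSym (-(x : ℤ)) n := by
    apply jacobiSym.mod_left'
    rw [Nat.cast_sub hx, sub_eq_add_neg]; simp
  rw [this, jacobiSym.neg _ ho, ZMod.χ₄_nat_three_mod_four h3]; ring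

lemma J_period {n : ℕ} (h3 : n % 4 = 3) : ∑ x ∈ range n, jacobiSym x n = 0 := by
  obtain ⟨h, hh⟩ : ∃ h, n = 2 * h + 1 := ⟨n / 2, by omega⟩
  have := split1 (fun x : ℕ => jacobiSym x n) h
  rw [← hh] at this
  rw [this, sum_congr rfl (g := fun x => -jacobiSym ((x + 1 : ℕ) : ℤ) n)
    (f := fun x => jacobiSym ((n - (x + 1) : ℕ) : ℤ) n)
    (fun x hx => J_refl h3 (by rw [mem_range] at hx; omega)), sum_neg_distrib]
  simp only [Nat.cast_zero]
  rw [jacobiSym.zero_left (by omega)]; ring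

lemma J_shift {n : ℕ} (h3 : n % 4 = 3) (j r : ℕ) :
    ∑ x ∈ range (n * j + r), jacobiSym x n = ∑ x ∈ range r, jacobiSym x n := by
  induction j with
  | zero => simp
  | succ j ih =>
    rw [show n * (j + 1) + r = n + (n * j + r) by ring, sum_range_add, J_period h3, zero_add,
      ← ih]
    apply sum_congr rfl
    intro x _
    apply jacobiSym.mod_left'; push_cast; simp

lemma J_abs (a : ℤ) (n : ℕ) : |(jacobiSym a n : ℝ)| ≤ 1 := by
  rcases jacobiSym.trichotomy a n with h | h | h <;> rw [h] <;> simp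

lemma J_bound {n : ℕ} (h3 : n % 4 = 3) (m : ℕ) :
    |∑ x ∈ range m, (jacobiSym x n : ℝ)| ≤ n := by
  have h1 := J_shift h3 (m / n) (m % n)
  rw [Nat.div_add_mod] at h1
  have h2 : ∑ x ∈ range m, (jacobiSym x n : ℝ) = ∑ x ∈ range (m % n), (jacobiSym x n : ℝ) := by
    exact_mod_cast h1
  rw [h2]
  refine le_trans (abs_sum_le_sum_abs _ _) (le_trans (sum_le_sum fun x _ => J_abs _ _) ?_)
  simp only [sum_const, card_range, nsmul_eq_mul, mul_one]
  exact_mod_cast (Nat.mod_lt m (by omega : 0 < n)).le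

noncomputable def chi (n : ℕ) [NeZero n] : DirichletCharacter ℂ n where
  toFun x := (jacobiSym (x.val : ℤ) n : ℂ)
  map_one' := by
    rw [← Nat.cast_one (R := ZMod n), ZMod.val_natCast]
    push_cast
    rw [← jacobiSym.mod_left]; simp
  map_mul' x y := by
    rw [ZMod.val_mul]
    push_cast
    rw [← jacobiSym.mod_left, jacobiSym.mul_left]; simp
  map_nonunit' x hx := by
    have : jacobiSym (x.val : ℤ) n = 0 := by
      rw [jacobiSym.eq_zero_iff_not_coprime]
      intro h
      apply hx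
      rw [← ZMod.natCast_zmod_val x, ZMod.isUnit_iff_coprime]
      rw [Int.gcd_natCast_natCast] at h
      exact h
    rw [this]; simp

lemma r_nonneg {n : ℕ} (hn : 0 < n) (m : ℕ) : 0 ≤ ∑ d ∈ m.divisors, jacobiSym d n := by
  have : NeZero n := ⟨hn.ne'⟩
  have hv : ∀ d : ℕ, chi n (d : ZMod n) = (jacobiSym d n : ℂ) := by
    intro d
    show (jacobiSym ((d : ZMod n).val : ℤ) n : ℂ) = _
    rw [ZMod.val_natCast]; push_cast; rw [← jacobiSym.mod_left]
  have hq : (chi n).IsQuadratic := by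
    intro x
    show (jacobiSym (x.val : ℤ) n : ℂ) = 0 ∨ (jacobiSym (x.val : ℤ) n : ℂ) = 1 ∨
      (jacobiSym (x.val : ℤ) n : ℂ) = -1
    rcases jacobiSym.trichotomy x.val n with h | h | h <;> rw [h] <;> simp
  have h1 := DirichletCharacter.zetaMul_nonneg hq.sq_eq_one m
  rw [DirichletCharacter.zetaMul, ArithmeticFunction.coe_zeta_mul_apply] at h1
  have h2 : ∑ i ∈ m.divisors, (toArithmeticFunction (fun x : ℕ => chi n x)) i =
      ((∑ d ∈ m.divisors, jacobiSym d n : ℤ) : ℂ) := by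
    push_cast
    apply sum_congr rfl
    intro d hd
    have := (Nat.pos_of_mem_divisors hd).ne'
    simp [toArithmeticFunction, this, hv]
  rw [h2] at h1
  have h3 := (Complex.le_def.1 h1).1
  simp only [Complex.zero_re, Complex.intCast_re] at h3
  exact_mod_cast h3

lemma hyper {n : ℕ} (hn : 0 < n) (K X : ℕ) (hX : X < K) :
    0 ≤ ∑ d ∈ range K, jacobiSym d n * ((X / d : ℕ) : ℤ) := by
  induction X with
  | zero => simp
  | succ X ih =>
    have h1 := r_nonneg hn (X + 1)
    have h2 : ∑ d ∈ (X + 1).divisors, jacobiSym d n =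
        ∑ d ∈ range K, if d ∣ X + 1 then jacobiSym d n else 0 := by
      rw [← sum_filter]
      apply sum_congr _ (fun _ _ => rfl)
      ext d
      simp only [Nat.mem_divisors, mem_filter, mem_range]
      constructor
      · rintro ⟨h, _⟩; exact ⟨lt_of_le_of_lt (Nat.le_of_dvd (by omega) h) hX, h⟩
      · rintro ⟨_, h⟩; exact ⟨h, by omega⟩
    have h3 : ∑ d ∈ range K, jacobiSym d n * (((X + 1) / d : ℕ) : ℤ) =
        ∑ d ∈ range K, jacobiSym d n * ((X / d : ℕ) : ℤ) +
          ∑ d ∈ range K, if d ∣ X + 1 then jacobiSym d n else 0 := by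
      rw [← sum_add_distrib]
      apply sum_congr rfl
      intro d _
      rw [Nat.succ_div]
      split_ifs <;> push_cast <;> ring
    have := ih (by omega)
    rw [h3, ← h2]; omega

lemma partial_lower {n : ℕ} (h3 : n % 4 = 3) {Y : ℕ} (hY : 1 ≤ Y) :
    -((1 + 2 * n) / (Y : ℝ)) ≤ ∑ d ∈ range Y, (jacobiSym d n : ℝ) / d := by
  have hYK : Y ≤ Y * Y + 1 := by nlinarith
  have h0 := hyper (n := n) (by omega) (Y * Y + 1) (Y * Y) (by omega)
  have h1 : (0 : ℝ) ≤ ∑ d ∈ range (Y * Y + 1), (jacobiSym d n : ℝ) * ((Y * Y / d : ℕ) : ℝ) := by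
    have := (Int.cast_le (R := ℝ)).2 h0
    simpa only [Int.cast_zero, Int.cast_sum, Int.cast_mul, Int.cast_natCast] using this
  rw [← sum_range_add_sum_Ico _ hYK] at h1
  have h2 := abel_tail (fun m => ∑ x ∈ range m, (jacobiSym x n : ℝ))
    (fun d => ((Y * Y / d : ℕ) : ℝ)) n (J_bound h3) Y (Y * Y + 1) hYK
    (fun d hd _ => by exact_mod_cast Nat.div_le_div_left (by omega) (by omega))
    (Nat.cast_nonneg _)
  simp only [sum_range_succ, add_sub_cancel_left] at h2
  rw [Nat.mul_div_cancel _ (by omega : 0 < Y)] at h2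
  have h4 : ∑ d ∈ range Y, (jacobiSym d n : ℝ) * ((Y * Y / d : ℕ) : ℝ) ≤
      ∑ d ∈ range Y, ((Y : ℝ) * Y * ((jacobiSym d n : ℝ) / d) + 1) := by
    apply sum_le_sum
    intro d _
    rcases Nat.eq_zero_or_pos d with rfl | hd
    · simp
    have hd' : (0 : ℝ) < d := by exact_mod_cast hd
    have a1 : ((Y * Y / d : ℕ) : ℝ) ≤ (Y : ℝ) * Y / d := by
      have := Nat.cast_div_le (α := ℝ) (m := Y * Y) (n := d)
      push_cast at this; exact this
    have a2 : (Y : ℝ) * Y / d ≤ ((Y * Y / d : ℕ) : ℝ) + 1 := by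
      rw [div_le_iff₀ hd']
      have := Nat.lt_div_mul_add (a := Y * Y) hd
      have h5 : ((Y * Y : ℕ) : ℝ) ≤ ((Y * Y / d * d + d : ℕ) : ℝ) := by exact_mod_cast this.le
      push_cast at h5
      linarith
    have a3 : (Y : ℝ) * Y * ((jacobiSym d n : ℝ) / d) = (jacobiSym d n : ℝ) * (Y * Y / d) := by ring
    rw [a3]
    rcases jacobiSym.trichotomy d n with h | h | h <;> rw [h] <;> push_cast <;> linarith
  rw [sum_add_distrib, ← mul_sum] at h4
  simp only [sum_const, card_range, nsmul_eq_mul, mul_one] at h4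
  have hY' : (0 : ℝ) < Y := by exact_mod_cast hY
  generalize (∑ d ∈ range Y, (jacobiSym d n : ℝ) / d) = L at *
  rw [neg_le, le_div_iff₀ hY']
  have : (Y : ℝ) * (-L * Y) ≤ Y * (1 + 2 * n) := by nlinarith
  exact le_of_mul_le_mul_left this hY'

lemma limit_nonneg {n : ℕ} (h3 : n % 4 = 3) : ∃ l : ℝ, 0 ≤ l ∧
    Tendsto (fun Y => ∑ d ∈ range Y, (jacobiSym d n : ℝ) / d) atTop (𝓝 l) := by
  have hc := Antitone.cauchySeq_series_mul_of_tendsto_zero_of_bounded
    (f := fun i : ℕ => 1 / max (1 : ℝ) i) (z := fun i : ℕ => (jacobiSym i n : ℝ)) (b := n)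
    (fun i j hij => one_div_le_one_div_of_le (by positivity)
      (max_le_max le_rfl (by exact_mod_cast hij)))
    (tendsto_const_nhds.div_atTop (tendsto_atTop_mono (fun i => le_max_right _ _)
      tendsto_natCast_atTop_atTop))
    (fun m => J_bound h3 m)
  have he : (fun m => ∑ i ∈ range m, (1 / max (1 : ℝ) (i : ℕ)) • (jacobiSym (i : ℕ) n : ℝ)) =
      fun Y => ∑ d ∈ range Y, (jacobiSym d n : ℝ) / d := by
    funext m
    apply sum_congr rfl
    intro d _
    rcases Nat.eq_zero_or_pos d with rfl | hd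
    · simp [jacobiSym.zero_left (by omega : 1 < n)]
    · rw [max_eq_right (by exact_mod_cast hd), smul_eq_mul]; ring
  rw [he] at hc
  obtain ⟨l, hl⟩ := cauchySeq_tendsto_of_complete hc
  refine ⟨l, ?_, hl⟩
  have h0 : Tendsto (fun Y : ℕ => -((1 + 2 * n) / (Y : ℝ))) atTop (𝓝 (-0)) :=
    (tendsto_const_nhds.div_atTop tendsto_natCast_atTop_atTop).neg
  rw [neg_zero] at h0
  exact le_of_tendsto_of_tendsto h0 hl
    ((eventually_ge_atTop 1).mono fun Y hY => partial_lower h3 hY)

lemma one_sub_e {a n : ℕ} : 1 - e a n = ((2 * Real.sin (π * a / n) : ℝ) : ℂ) *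
    (Complex.cos ((π * a / n - π / 2 : ℝ) : ℂ) +
      Complex.sin ((π * a / n - π / 2 : ℝ) : ℂ) * Complex.I) := by
  have : e a n = Complex.exp (((2 * (π * a / n) : ℝ) : ℂ) * Complex.I) := by
    rw [e]; congr 1; push_cast; ring
  rw [this, Complex.exp_mul_I, ← Complex.ofReal_cos, ← Complex.ofReal_sin, ← Complex.ofReal_cos,
    ← Complex.ofReal_sin, Real.cos_sub_pi_div_two, Real.sin_sub_pi_div_two, Real.cos_two_mul,
    Real.sin_two_mul, Real.cos_sq']
  generalize Real.sin (π * a / n) = s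
  generalize Real.cos (π * a / n) = c
  push_cast; ring

theorem weighted {n : ℕ} (h3 : n % 4 = 3) (c : ℝ) (hc : 0 ≤ c)
    (hT : ∀ b : ℤ, T b n = jacobiSym b n * (Complex.I * c)) :
    ∑ a ∈ range n, (a : ℤ) * jacobiSym a n ≤ 0 := by
  obtain ⟨l, hl0, hl⟩ := limit_nonneg h3
  have hn : (0 : ℝ) < n := by exact_mod_cast (by omega : 0 < n)
  have hpi := Real.pi_pos
  have h1 := Real.tendsto_tsum_powerSeries_nhdsWithin_lt hl
  have h2 : Tendsto (fun x : ℝ => (Complex.I * c) *
      ((∑' d : ℕ, (jacobiSym d n : ℝ) / d * x ^ d : ℝ) : ℂ)) (𝓝[<] 1) (𝓝 ((Complex.I * c) * l)) :=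
    ((Complex.continuous_ofReal.tendsto l).comp h1).const_mul _
  have hrange : ∀ a : ℕ, 0 < a → a < n → 0 < π * a / n ∧ π * a / n < π := by
    intro a h0 h1
    have a0 : (0 : ℝ) < a := by exact_mod_cast h0
    have a1 : (a : ℝ) < n := by exact_mod_cast h1
    exact ⟨by positivity, by rw [div_lt_iff₀ hn]; nlinarith⟩
  have harg : ∀ a : ℕ, 0 < a → a < n → (1 - e a n).arg = π * a / n - π / 2 := by
    intro a h0 h1
    obtain ⟨b1, b2⟩ := hrange a h0 h1
    rw [one_sub_e]
    exact Complex.arg_mul_cos_add_sin_mul_I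
      (by have := Real.sin_pos_of_pos_of_lt_pi b1 b2; positivity) ⟨by linarith, by linarith⟩
  have h4 : Tendsto (fun x : ℝ => ∑ a ∈ range n, (jacobiSym a n : ℂ) *
      -Complex.log (1 - x * e a n)) (𝓝[<] 1)
      (𝓝 (∑ a ∈ range n, (jacobiSym a n : ℂ) * -Complex.log (1 - e a n))) := by
    apply tendsto_finsetSum
    intro a ha
    rcases Nat.eq_zero_or_pos a with rfl | h0
    · simp [jacobiSym.zero_left (by omega : 1 < n)]
    · apply Tendsto.const_mul
      apply Tendsto.neg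
      apply Tendsto.mono_left _ nhdsWithin_le_nhds
      have hs : 1 - e a n ∈ Complex.slitPlane := by
        obtain ⟨b1, b2⟩ := hrange a h0 (mem_range.1 ha)
        rw [Complex.mem_slitPlane_iff_arg, harg a h0 (mem_range.1 ha)]
        refine ⟨by linarith, ?_⟩
        rw [one_sub_e, ← Complex.exp_mul_I]
        refine mul_ne_zero ?_ (Complex.exp_ne_zero _)
        have := Real.sin_pos_of_pos_of_lt_pi b1 b2
        exact Complex.ofReal_ne_zero.2 (by positivity)
      have hc : ContinuousAt (fun x : ℝ => Complex.log (1 - x * e a n)) 1 :=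
        ContinuousAt.clog (by fun_prop) (by simpa using hs)
      simpa [ContinuousAt] using hc
  have h5 : (fun x : ℝ => (Complex.I * c) *
      ((∑' d : ℕ, (jacobiSym d n : ℝ) / d * x ^ d : ℝ) : ℂ)) =ᶠ[𝓝[<] 1]
      fun x : ℝ => ∑ a ∈ range n, (jacobiSym a n : ℂ) * -Complex.log (1 - x * e a n) := by
    filter_upwards [Ioo_mem_nhdsLT (zero_lt_one' ℝ)] with x hx
    have b1 : ∀ a : ℕ, ‖(x : ℂ) * e a n‖ < 1 := by
      intro a
      have : e a n = Complex.exp (((2 * (π * a / n) : ℝ) : ℂ) * Complex.I) := by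
        rw [e]; congr 1; push_cast; ring
      rw [norm_mul, this, Complex.norm_exp_ofReal_mul_I, mul_one, Complex.norm_real,
        Real.norm_of_nonneg hx.1.le]
      exact hx.2
    have b2 := hasSum_sum (s := range n) (fun (a : ℕ) _ =>
      (Complex.hasSum_taylorSeries_neg_log (b1 a)).mul_left (jacobiSym a n : ℂ))
    rw [← b2.tsum_eq, Complex.ofReal_tsum, ← tsum_mul_left]
    apply tsum_congr
    intro d
    have b3 : ∀ a : ℕ, (e a n) ^ d = e (d * a) n := by
      intro a; rw [e, e, ← Complex.exp_nat_mul]; congr 1; push_cast; ring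
    have b4 := hT d
    rw [T] at b4
    have b5 : ∑ a ∈ range n, (jacobiSym a n : ℂ) * (((x : ℂ) * e a n) ^ d / d) =
        (∑ a ∈ range n, (jacobiSym a n : ℂ) * e (d * a) n) * ((x : ℂ) ^ d / d) := by
      rw [sum_mul]
      exact sum_congr rfl (fun a _ => by rw [mul_pow, b3]; ring)
    rw [b5, b4]; push_cast; ring
  have h6 := tendsto_nhds_unique (h2.congr' h5) h4
  have h7 := congrArg Complex.im h6
  rw [Complex.im_sum] at h7
  have h8 : ∑ a ∈ range n, ((jacobiSym a n : ℂ) * -Complex.log (1 - e a n)).im =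
      ∑ a ∈ range n, (π / 2 * (jacobiSym a n : ℝ) - π / n * (a * (jacobiSym a n : ℝ))) := by
    apply sum_congr rfl
    intro a ha
    rcases Nat.eq_zero_or_pos a with rfl | h0
    · simp [jacobiSym.zero_left (by omega : 1 < n)]
    · simp only [Complex.mul_im, Complex.intCast_re, Complex.intCast_im, Complex.neg_im,
        Complex.log_im, harg a h0 (mem_range.1 ha)]
      ring
  have h9 : ∑ a ∈ range n, (jacobiSym a n : ℝ) = 0 := by exact_mod_cast J_period h3
  rw [h8, sum_sub_distrib, ← mul_sum, ← mul_sum, h9] at h7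
  simp only [Complex.mul_im, Complex.mul_re, Complex.I_re, Complex.I_im, Complex.ofReal_re,
    Complex.ofReal_im] at h7
  have h10 : ∑ a ∈ range n, (a : ℝ) * (jacobiSym a n : ℝ) ≤ 0 := by
    by_contra hpos
    have := mul_pos (div_pos hpi hn) (not_le.1 hpos)
    have := mul_nonneg hc hl0
    linarith
  exact_mod_cast h10

end Pool.Agent.H59.CJ
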