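import Mathlib
import Pool.Agent.H59.CJ3

set_option autoImplicit false

namespace Pool.Agent.H59.CJ

open Finset

lemma half_eq {n : ℕ} (h3 : n % 4 = 3) :
    ∑ x ∈ range (n / 2 + 1), jacobiSym x n = ∑ x ∈ range (n / 2), jacobiSym ((x + 1 : ℕ) : ℤ) n := by
  rw [sum_range_succ']
  simp only [Nat.cast_zero]
  rw [jacobiSym.zero_left (by omega), add_zero]

theorem half_sqfree {f : ℕ} (h3 : f % 4 = 3) (hs : Squarefree f) :
    0 ≤ ∑ x ∈ range (f / 2 + 1), jacobiSym x f := by
  by_cases hf : f < 16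
  · have : f = 3 ∨ f = 7 ∨ f = 11 ∨ f = 15 := by omega
    rcases this with rfl | rfl | rfl | rfl <;> simp only [sum_range_succ, Nat.reduceDiv] <;>
      norm_num
  have ho : Odd f := by rw [Nat.odd_iff]; omega
  obtain ⟨C, c1, c2, c3⟩ := good f hs ho
  have hm : jacobiSym (-1) f = -1 := by
    rw [jacobiSym.at_neg_one ho, ZMod.χ₄_nat_three_mod_four h3]
  have hG : G 1 f = C := by rw [c3 1 (by simp)]; simp
  have hC : C = Complex.I * (Real.sqrt f : ℂ) := by
    rw [← hG]; apply gauss_sign (by omega) h3; rw [hG, c1, hm]; simp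
  have hA := weighted h3 (Real.sqrt f) (Real.sqrt_nonneg _) (fun b => by rw [c2, hC])
  rw [half_eq h3]
  obtain ⟨h, hh⟩ : ∃ h, f = 2 * h + 1 := ⟨f / 2, by omega⟩
  have e1 := split1 (fun a : ℕ => (a : ℤ) * jacobiSym a f) h
  have e2 := split2 (fun a : ℕ => (a : ℤ) * jacobiSym a f) h
  rw [← hh] at e1 e2
  rw [show f / 2 = h by omega]
  set S := ∑ x ∈ range h, jacobiSym ((x + 1 : ℕ) : ℤ) f with hS
  set B := ∑ x ∈ range h, ((x + 1 : ℕ) : ℤ) * jacobiSym ((x + 1 : ℕ) : ℤ) f with hB
  have a1 : ∑ x ∈ range h, ((f - (x + 1) : ℕ) : ℤ) * jacobiSym ((f - (x + 1) : ℕ) : ℤ) f =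
      B - f * S := by
    rw [hB, hS, mul_sum, ← sum_sub_distrib]
    apply sum_congr rfl
    intro x hx
    rw [mem_range] at hx
    rw [J_refl h3 (by omega), Nat.cast_sub (by omega)]; ring
  have t2 : ∀ x : ℕ, jacobiSym ((2 * (x + 1) : ℕ) : ℤ) f =
      jacobiSym 2 f * jacobiSym ((x + 1 : ℕ) : ℤ) f := by
    intro x; rw [← jacobiSym.mul_left]; push_cast; rfl
  have a2 : ∑ x ∈ range h, ((2 * (x + 1) : ℕ) : ℤ) * jacobiSym ((2 * (x + 1) : ℕ) : ℤ) f =
      jacobiSym 2 f * (2 * B) := by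
    rw [hB, mul_sum, mul_sum]
    apply sum_congr rfl
    intro x _
    rw [t2]; push_cast; ring
  have a3 : ∑ x ∈ range h, ((f - 2 * (x + 1) : ℕ) : ℤ) *
      jacobiSym ((f - 2 * (x + 1) : ℕ) : ℤ) f = jacobiSym 2 f * (2 * B - f * S) := by
    rw [hB, hS, mul_sum, mul_sum, ← sum_sub_distrib, mul_sum]
    apply sum_congr rfl
    intro x hx
    rw [mem_range] at hx
    rw [J_refl h3 (by omega), t2, Nat.cast_sub (by omega)]; push_cast; ring
  rw [a1] at e1
  rw [a2, a3] at e2
  simp only [Nat.cast_zero, zero_mul, zero_add] at e1 e2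
  have hf0 : (0 : ℤ) < f := by exact_mod_cast (by omega : 0 < f)
  have h2 : jacobiSym 2 f = 1 ∨ jacobiSym 2 f = -1 := by
    apply jacobiSym.eq_one_or_neg_one
    have : Nat.Coprime 2 f := Nat.coprime_two_left.2 ho
    exact_mod_cast this
  have : 0 ≤ (f : ℤ) * S := by
    rcases h2 with h2 | h2 <;> rw [h2] at e2 <;> linarith
  exact (mul_nonneg_iff_of_pos_left hf0).1 this

lemma sieve {f : ℕ} (h3 : f % 4 = 3) (P : Finset ℕ) : (∀ q ∈ P, q.Prime) → ∀ n : ℕ, Odd n →
    f * ∏ q ∈ P, q ∣ n →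
    ∑ x ∈ range (n / 2 + 1), (if ∀ q ∈ P, ¬ q ∣ x then jacobiSym x f else 0) =
      (∑ x ∈ range (f / 2 + 1), jacobiSym x f) * ∏ q ∈ P, (1 - jacobiSym q f) := by
  induction P using Finset.induction_on with
  | empty =>
    intro _ n hn hd
    simp only [prod_empty, mul_one] at hd ⊢
    obtain ⟨t, rfl⟩ := hd
    obtain ⟨j, rfl⟩ := (Nat.odd_mul.1 hn).2
    have : f * (2 * j + 1) / 2 + 1 = f * j + (f / 2 + 1) := by
      rw [show f * (2 * j + 1) = f + 2 * (f * j) by ring]; omega
    rw [this, ← J_shift h3 j]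
    simp
  | insert q P hq ih =>
    intro hP n hn hd
    have hqp := hP q (mem_insert_self _ _)
    have hP' : ∀ r ∈ P, r.Prime := fun r hr => hP r (mem_insert_of_mem hr)
    rw [prod_insert hq] at hd
    obtain ⟨t, ht⟩ := hd
    have hn' : n = q * (f * (∏ r ∈ P, r) * t) := by rw [ht]; ring
    set n' := f * (∏ r ∈ P, r) * t with hn''
    have ho' : Odd n' := by rw [hn'] at hn; exact (Nat.odd_mul.1 hn).2
    have i1 := ih hP' n hn ⟨q * t, by rw [ht]; ring⟩
    have i2 := ih hP' n' ho' ⟨t, rfl⟩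
    have k1 : ∑ x ∈ range (n / 2 + 1), (if ∀ r ∈ insert q P, ¬ r ∣ x then jacobiSym x f else 0) =
        ∑ x ∈ range (n / 2 + 1), (if ∀ r ∈ P, ¬ r ∣ x then jacobiSym x f else 0) -
        ∑ x ∈ (range (n / 2 + 1)).filter (q ∣ ·),
          (if ∀ r ∈ P, ¬ r ∣ x then jacobiSym x f else 0) := by
      rw [sum_filter, ← sum_sub_distrib]
      apply sum_congr rfl
      intro x _
      by_cases hx : q ∣ x <;> simp [hx]
    have k2 : ∑ x ∈ (range (n / 2 + 1)).filter (q ∣ ·),
          (if ∀ r ∈ P, ¬ r ∣ x then jacobiSym x f else 0) =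
        ∑ y ∈ range (n' / 2 + 1),
          jacobiSym q f * (if ∀ r ∈ P, ¬ r ∣ y then jacobiSym y f else 0) := by
      symm
      have hq0 := hqp.pos
      apply sum_nbij' (fun y : ℕ => q * y) (fun x : ℕ => x / q)
      · intro y hy
        simp only [mem_range, mem_filter] at hy ⊢
        refine ⟨?_, dvd_mul_right _ _⟩
        have : q * (2 * y) ≤ q * n' := Nat.mul_le_mul_left _ (by omega)
        rw [← hn', show q * (2 * y) = 2 * (q * y) by ring] at this
        omega
      · intro x hx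
        simp only [mem_range, mem_filter] at hx ⊢
        obtain ⟨h1, y, rfl⟩ := hx
        rw [Nat.mul_div_cancel_left _ hq0]
        have : q * (2 * y) ≤ q * n' := by
          rw [← hn', show q * (2 * y) = 2 * (q * y) by ring]; omega
        have := Nat.le_of_mul_le_mul_left this hq0
        omega
      · intro y _; exact Nat.mul_div_cancel_left _ hq0
      · intro x hx
        simp only [mem_filter] at hx
        exact Nat.mul_div_cancel' hx.2
      · intro y _
        have : (∀ r ∈ P, ¬ r ∣ q * y) ↔ ∀ r ∈ P, ¬ r ∣ y := by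
          refine forall₂_congr fun r hr => not_congr ?_
          rw [(hP' r hr).dvd_mul, Nat.prime_dvd_prime_iff_eq (hP' r hr) hqp]
          have : r ≠ q := by rintro rfl; exact hq hr
          simp [this]
        simp only [this]
        split_ifs
        · rw [← jacobiSym.mul_left]; push_cast; rfl
        · simp
    rw [k1, k2, ← mul_sum, i1, i2, prod_insert hq]; ring

/-- Dirichlet's half-sum inequality for the Jacobi symbol of any modulus `≡ 3 mod 4`. -/
theorem half_nonneg {p : ℕ} (h3 : p % 4 = 3) : 0 ≤ ∑ x ∈ range (p / 2 + 1), jacobiSym x p := by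
  obtain ⟨f, g, hp, hs⟩ := Nat.sq_mul_squarefree p
  have ho : Odd p := by rw [Nat.odd_iff]; omega
  have hog : Odd g := by
    rw [← hp, Nat.odd_mul, Nat.odd_pow_iff (by norm_num)] at ho; exact ho.1
  have hf3 : f % 4 = 3 := by
    obtain ⟨j, rfl⟩ := hog
    rw [← hp, show (2 * j + 1) ^ 2 * f = f + 4 * ((j * j + j) * f) by ring] at h3
    omega
  have : NeZero g := ⟨hog.pos.ne'⟩
  have : NeZero f := ⟨by omega⟩
  have h1 := sieve hf3 g.primeFactors (fun q hq => Nat.prime_of_mem_primeFactors hq) p ho (by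
    obtain ⟨t, ht⟩ := Nat.prod_primeFactors_dvd g
    exact ⟨t * g, by rw [← hp, sq]; nth_rewrite 1 [ht]; ring⟩)
  have h2 : ∑ x ∈ range (p / 2 + 1), jacobiSym x p =
      ∑ x ∈ range (p / 2 + 1), (if ∀ q ∈ g.primeFactors, ¬ q ∣ x then jacobiSym x f else 0) := by
    apply sum_congr rfl
    intro x _
    have e : jacobiSym x p = jacobiSym x g ^ 2 * jacobiSym x f := by
      rw [← hp, jacobiSym.mul_right, jacobiSym.pow_right]
    rw [e]
    split_ifs with h
    · have : Nat.Coprime x g := by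
        apply Nat.coprime_of_dvd
        intro q hq h1 h2
        exact h q (Nat.mem_primeFactors.2 ⟨hq, h2, hog.pos.ne'⟩) h1
      rw [jacobiSym.sq_one (by exact_mod_cast this), one_mul]
    · push Not at h
      obtain ⟨q, hq, hx⟩ := h
      have : jacobiSym x g = 0 := by
        rw [jacobiSym.eq_zero_iff_not_coprime, Int.gcd_natCast_natCast]
        intro hc
        have := Nat.dvd_gcd hx (Nat.dvd_of_mem_primeFactors hq)
        rw [hc] at this
        exact (Nat.prime_of_mem_primeFactors hq).one_lt.ne' (Nat.dvd_one.1 this)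
      rw [this]; simp
  rw [h2, h1]
  apply mul_nonneg (half_sqfree hf3 hs)
  apply prod_nonneg
  intro q _
  rcases jacobiSym.trichotomy q f with h | h | h <;> rw [h] <;> norm_num

end Pool.Agent.H59.CJ
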