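import Mathlib

set_option autoImplicit false

namespace Pool.Agent.H59.DS

open Finset

/-- a `g`-separated finite set in an interval of length `l` -/
lemma gap (S : Finset ℕ) (u l g : ℕ) (hg : 0 < g) (hS : ∀ x ∈ S, u ≤ x ∧ x ≤ u + l)
    (hsep : ∀ x ∈ S, ∀ y ∈ S, x < y → x + g ≤ y) : S.card * g ≤ l + g := by
  have h1 : S.card ≤ (range (l / g + 1)).card := by
    apply card_le_card_of_injOn (fun x => (x - u) / g)
    · intro x hx
      have := hS x hx
      simp only [coe_range, Set.mem_Iio]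
      exact Nat.lt_succ_of_le (Nat.div_le_div_right (by omega))
    · have key : ∀ x ∈ S, ∀ y ∈ S, x < y → (x - u) / g < (y - u) / g := by
        intro x hx y hy hxy
        have h1 := hS x hx
        have h2 := hsep x hx y hy hxy
        have : (x - u) / g + 1 = (x - u + g) / g := (Nat.add_div_right _ hg).symm
        have h3 : (x - u + g) / g ≤ (y - u) / g := Nat.div_le_div_right (by omega)
        omega
      intro x hx y hy hxy
      simp only at hxy
      rcases lt_trichotomy x y with h | h | h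
      · have := key x hx y hy h; omega
      · exact h
      · have := key y hy x hx h; omega
  rw [card_range] at h1
  calc S.card * g ≤ (l / g + 1) * g := Nat.mul_le_mul_right _ h1
    _ = l / g * g + g := by ring
    _ ≤ l + g := by have := Nat.div_mul_le_self l g; omega

open Classical in
/-- elements of `A` in `[x,y)` -/
noncomputable def F (A : Set ℕ) (x y : ℕ) : Finset ℕ := (Ico x y).filter (· ∈ A)

lemma mem_F {A : Set ℕ} {x y a : ℕ} : a ∈ F A x y ↔ x ≤ a ∧ a < y ∧ a ∈ A := by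
  simp [F, and_assoc]

lemma F_split (A : Set ℕ) (f : ℕ → ℕ) {x y : ℕ} (h : x ≤ y) :
    ∑ a ∈ F A 0 y, f a = ∑ a ∈ F A 0 x, f a + ∑ a ∈ F A x y, f a := by
  classical
  rw [← sum_union]
  · apply sum_congr _ (fun _ _ => rfl)
    ext a
    simp only [mem_union, mem_F]
    constructor
    · rintro ⟨_, h2, h3⟩
      by_cases hx : a < x
      · exact Or.inl ⟨by omega, hx, h3⟩
      · exact Or.inr ⟨by omega, h2, h3⟩
    · rintro (⟨_, h2, h3⟩ | ⟨h1, h2, h3⟩)
      · exact ⟨by omega, by omega, h3⟩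
      · exact ⟨by omega, h2, h3⟩
  · rw [disjoint_left]
    intro a ha hb
    rw [mem_F] at ha hb
    omega

/-- the separation hypothesis above `4^t` -/
def Sep (A : Set ℕ) (t s : ℕ) : Prop :=
  ∀ b ∈ A, ∀ c ∈ A, b < c → 4 ^ t ≤ c → c * s ^ 2 ≤ (c - b) ^ 2

lemma sep_gap {A : Set ℕ} {t s : ℕ} (h : Sep A t s) {i : ℕ} (hi : t ≤ i) {b c : ℕ} (hb : b ∈ A)
    (hc : c ∈ A) (hbc : b < c) (h4 : 4 ^ i ≤ c) : b + 2 ^ i * s ≤ c := by
  have h1 : 4 ^ t ≤ 4 ^ i := Nat.pow_le_pow_right (by norm_num) hi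
  have h2 := h b hb c hc hbc (le_trans h1 h4)
  have h3 : (2 ^ i * s) ^ 2 ≤ (c - b) ^ 2 := by
    calc (2 ^ i * s) ^ 2 = 4 ^ i * s ^ 2 := by
          rw [mul_pow, ← pow_mul, mul_comm i 2, pow_mul]; norm_num
      _ ≤ c * s ^ 2 := Nat.mul_le_mul_right _ h4
      _ ≤ _ := h2
  have h5 : 2 ^ i * s ≤ c - b := (Nat.pow_le_pow_iff_left (by norm_num)).1 h3
  omega

lemma block {A : Set ℕ} {t s : ℕ} (h : Sep A t s) (hs : 0 < s) (hst : s ≤ 2 ^ t) {i : ℕ}
    (hi : t ≤ i) : (F A (4 ^ i) (4 ^ (i + 1))).card * s ≤ 4 * 2 ^ i := by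
  have hp : 0 < 2 ^ i := by positivity
  have h1 := gap (F A (4 ^ i) (4 ^ (i + 1))) (4 ^ i) (3 * 4 ^ i) (2 ^ i * s) (by positivity)
    (by
      intro x hx
      rw [mem_F, pow_succ] at hx
      omega)
    (by
      intro x hx y hy hxy
      rw [mem_F] at hx hy
      exact sep_gap h hi hx.2.2 hy.2.2 hxy hy.1)
  have h4 : 4 ^ i = 2 ^ i * 2 ^ i := by rw [← mul_pow]; norm_num
  have h2 : s ≤ 2 ^ i := le_trans hst (Nat.pow_le_pow_right (by norm_num) hi)
  generalize (F A (4 ^ i) (4 ^ (i + 1))).card = c at h1 ⊢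
  rw [h4] at h1
  generalize 2 ^ i = p at *
  have h5 : p * (c * s) ≤ p * (4 * p) := by nlinarith
  exact Nat.le_of_mul_le_mul_left h5 hp

lemma window {A : Set ℕ} {t s : ℕ} (h : Sep A t s) (hs : 0 < s) {i N a : ℕ}
    (hi : t ≤ i) (ha : a ∈ A) (hN : 4 ^ i + N ≤ a) :
    (F A (a - N) a).card * (2 ^ i * s) ≤ N := by
  classical
  have hn : a ∉ F A (a - N) a := by rw [mem_F]; omega
  have h1 := gap (insert a (F A (a - N) a)) (a - N) N (2 ^ i * s) (by positivity)
    (by
      intro x hx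
      rw [mem_insert, mem_F] at hx
      omega)
    (by
      intro x hx y hy hxy
      rw [mem_insert, mem_F] at hx hy
      have hxA : x ∈ A := by rcases hx with rfl | hx; exact ha; exact hx.2.2
      have hyA : y ∈ A := by rcases hy with rfl | hy; exact ha; exact hy.2.2
      exact sep_gap h hi hxA hyA hxy (by omega))
  rw [card_insert_of_notMem hn, add_mul, one_mul] at h1
  omega

lemma small {A : Set ℕ} {t s : ℕ} (h : Sep A t s) (hs : 0 < s) (hst : s ≤ 2 ^ t) (k : ℕ) :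
    (F A 0 (4 ^ (t + k))).card * s ≤ 4 ^ t * s + 4 * 2 ^ (t + k) := by
  induction k with
  | zero =>
    have : (F A 0 (4 ^ (t + 0))).card ≤ 4 ^ t := by
      have : F A 0 (4 ^ (t + 0)) ⊆ range (4 ^ t) := by
        intro x hx; rw [mem_F] at hx; simpa using hx.2.1
      simpa using card_le_card this
    have := Nat.mul_le_mul_right s this
    omega
  | succ k ih =>
    have h1 := F_split A (fun _ => 1) (x := 4 ^ (t + k)) (y := 4 ^ (t + k + 1))
      (Nat.pow_le_pow_right (by norm_num) (by omega))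
    simp only [sum_const, smul_eq_mul, mul_one] at h1
    have h2 := block h hs hst (i := t + k) (by omega)
    rw [← add_assoc, h1, add_mul, pow_succ 2]
    omega

lemma large {A : Set ℕ} {t s : ℕ} (h : Sep A t s) (hs : 0 < s) (hst : s ≤ 2 ^ t) {J : ℕ}
    (hJ : t ≤ J) (k : ℕ) :
    (∑ a ∈ F A 0 (4 ^ (J + 1 + k)), (F A (a - 4 ^ J) a).card) * s ^ 2 ≤
      (∑ a ∈ F A 0 (4 ^ (J + 1)), (F A (a - 4 ^ J) a).card) * s ^ 2 + 8 * 4 ^ J * k := by
  induction k with
  | zero => simp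
  | succ k ih =>
    have h1 := F_split A (fun a => (F A (a - 4 ^ J) a).card) (x := 4 ^ (J + 1 + k))
      (y := 4 ^ (J + 1 + k + 1)) (Nat.pow_le_pow_right (by norm_num) (by omega))
    have h2 := block h hs hst (i := J + 1 + k) (by omega)
    have h3 : (∑ a ∈ F A (4 ^ (J + 1 + k)) (4 ^ (J + 1 + k + 1)), (F A (a - 4 ^ J) a).card) *
        (2 ^ (J + k) * s) ≤ (F A (4 ^ (J + 1 + k)) (4 ^ (J + 1 + k + 1))).card * 4 ^ J := by
      rw [sum_mul, ← smul_eq_mul]
      apply sum_le_card_nsmul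
      intro a ha
      rw [mem_F] at ha
      apply window h hs (by omega) ha.2.2
      have e1 : 4 ^ (J + 1 + k) = 4 * 4 ^ (J + k) := by ring
      have e2 : 4 ^ J ≤ 4 ^ (J + k) := Nat.pow_le_pow_right (by norm_num) (by omega)
      omega
    have e3 : 2 ^ (J + 1 + k) = 2 * 2 ^ (J + k) := by ring
    have hp : 0 < 2 ^ (J + k) := by positivity
    rw [e3] at h2
    rw [← add_assoc, h1]
    generalize (∑ a ∈ F A (4 ^ (J + 1 + k)) (4 ^ (J + 1 + k + 1)), (F A (a - 4 ^ J) a).card) = X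
      at *
    generalize (F A (4 ^ (J + 1 + k)) (4 ^ (J + 1 + k + 1))).card = c at *
    generalize (∑ a ∈ F A 0 (4 ^ (J + 1 + k)), (F A (a - 4 ^ J) a).card) = Y at *
    generalize (∑ a ∈ F A 0 (4 ^ (J + 1)), (F A (a - 4 ^ J) a).card) = Z at *
    generalize 2 ^ (J + k) = p at *
    generalize 4 ^ J = N at *
    have h5 : p * (X * s ^ 2) ≤ p * (8 * N) := by
      calc p * (X * s ^ 2) = X * (p * s) * s := by ring
        _ ≤ c * N * s := Nat.mul_le_mul_right _ h3
        _ = c * s * N := by ring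
        _ ≤ 4 * (2 * p) * N := Nat.mul_le_mul_right _ h2
        _ = p * (8 * N) := by ring
    have h6 := Nat.le_of_mul_le_mul_left h5 hp
    calc (Y + X) * s ^ 2 = Y * s ^ 2 + X * s ^ 2 := by ring
      _ ≤ Z * s ^ 2 + 8 * N * k + 8 * N := by omega
      _ = _ := by ring

/-- the counting contradiction -/
theorem core {A : Set ℕ} {t s : ℕ} (h : Sep A t s) (hs : 32 ≤ s) (hst : s ≤ 2 ^ t)
    (hs2 : 22 * t + 22 ≤ s ^ 2)
    (hrep : ∀ d, 1 ≤ d → d ≤ 4 ^ (2 * t + 2) →
      ∃ b ∈ A, b + d ∈ A ∧ b + d < 4 ^ (4 * t + 5)) : False := by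
  classical
  have hs0 : 0 < s := by omega
  set J := 2 * t + 2 with hJ
  choose! β hβ using hrep
  have h1 : (Icc 1 (4 ^ J)).card ≤
      ((F A 0 (4 ^ (J + 1 + J))).sigma (fun a => F A (a - 4 ^ J) a)).card := by
    apply card_le_card_of_injOn (fun d => (⟨β d + d, β d⟩ : Σ _ : ℕ, ℕ))
    · intro d hd
      simp only [coe_Icc, Set.mem_Icc] at hd
      obtain ⟨h1, h2, h3⟩ := hβ d hd.1 hd.2
      have e : J + 1 + J = 4 * t + 5 := by omega
      simp only [mem_coe, mem_sigma, mem_F, e]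
      exact ⟨⟨by omega, h3, h2⟩, by omega, by omega, h1⟩
    · intro x _ y _ hxy
      simp only [Sigma.mk.injEq, heq_eq_eq] at hxy
      omega
  rw [card_sigma, Nat.card_Icc, Nat.add_sub_cancel] at h1
  have h2 := large h hs0 hst (J := J) (by omega) J
  have h3 := small h hs0 hst (t + 3)
  have e : t + (t + 3) = J + 1 := by omega
  rw [e] at h3
  have h4 : ∑ a ∈ F A 0 (4 ^ (J + 1)), (F A (a - 4 ^ J) a).card ≤
      (F A 0 (4 ^ (J + 1))).card * (F A 0 (4 ^ (J + 1))).card := by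
    rw [← smul_eq_mul]
    apply sum_le_card_nsmul
    intro a ha
    apply card_le_card
    intro x hx
    rw [mem_F] at ha hx ⊢
    exact ⟨by omega, by omega, hx.2.2⟩
  have e1 : 2 ^ (J + 1) = 8 * 4 ^ t := by
    rw [hJ, show 2 * t + 2 + 1 = 2 * t + 3 by ring, pow_add, pow_mul]; norm_num; ring
  have e2 : 4 ^ J = 16 * (4 ^ t * 4 ^ t) := by
    rw [hJ, pow_add, two_mul, pow_add]; norm_num; ring
  have hq : 0 < 4 ^ t := by positivity
  rw [e1] at h3
  generalize (∑ a ∈ F A 0 (4 ^ (J + 1 + J)), (F A (a - 4 ^ J) a).card) = Y at *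
  generalize (∑ a ∈ F A 0 (4 ^ (J + 1)), (F A (a - 4 ^ J) a).card) = Z at *
  generalize (F A 0 (4 ^ (J + 1))).card = c at *
  rw [e2] at h1 h2
  clear e1 e2 hβ h hst
  generalize 4 ^ t = q at *
  have h5 : c ≤ 2 * q := by
    have : c * s ≤ 2 * q * s := by nlinarith
    exact Nat.le_of_mul_le_mul_right this hs0
  have h6 : Z ≤ 4 * (q * q) := by nlinarith
  have hQ : 0 < q * q := by positivity
  generalize q * q = Q at *
  generalize s ^ 2 = S at *
  have h7 : 16 * Q * S ≤ Y * S := Nat.mul_le_mul_right _ h1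
  have h8 : Z * S ≤ 4 * Q * S := Nat.mul_le_mul_right _ h6
  have h9 : Q * (12 * S) ≤ Q * (128 * J) := by nlinarith
  have h10 := Nat.le_of_mul_le_mul_left h9 hQ
  omega

end Pool.Agent.H59.DS
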