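import Mathlib
import Pool.Agent.H59.PureSieve

/-! The multiplication table theorem of Erdős in the weak form: the number of distinct products
`a * b` with `a, b < N` is at most `δ N ^ 2` for all multiples `N` of a suitable modulus. -/

set_option autoImplicit false

namespace Pool.Agent.H59.MulTable

open Finset Filter Pool.Agent.H59.PureSieve

lemma sum_ite_dvd (p : ℕ) (hp : 0 < p) (α β : ℝ) :
    ∑ x ∈ range p, (if p ∣ x then α else β) = α + (p - 1) * β := by
  obtain ⟨k, rfl⟩ : ∃ k, p = k + 1 := ⟨p - 1, by omega⟩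
  rw [Finset.sum_range_succ', if_pos (dvd_zero _)]
  have : ∀ x ∈ range k, (if k + 1 ∣ x + 1 then α else β) = β := by
    intro x hx
    rw [if_neg]
    intro h
    have := Nat.le_of_dvd (by omega) h
    have := Finset.mem_range.1 hx
    omega
  rw [Finset.sum_congr rfl this]
  simp; ring

lemma ite_periodic (p : ℕ) (α β : ℝ) :
    Function.Periodic (fun x : ℕ => if p ∣ x then α else β) p := by
  intro x
  simp only [Nat.dvd_add_self_right]

lemma sum_prod_mean (P : Finset ℕ) (hP : ∀ p ∈ P, p.Prime) (f : ℕ → ℕ → ℝ)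
    (hper : ∀ p ∈ P, Function.Periodic (f p) p) (N : ℕ) (hN : (∏ p ∈ P, p) ∣ N) :
    ∑ x ∈ range N, ∏ p ∈ P, f p x = N * ∏ p ∈ P, ((∑ x ∈ range p, f p x) / p) := by
  obtain ⟨u, rfl⟩ := hN
  have h := periodic_block (fun x => ∏ p ∈ P, f p x) _ (prod_periodic P f hper) u 0
  rw [add_zero, mul_comm u] at h
  rw [h, sum_prod_crt P hP f hper, Finset.prod_div_distrib]
  have : (∏ p ∈ P, (p : ℝ)) ≠ 0 :=
    Finset.prod_ne_zero_iff.2 (fun p hp => by exact_mod_cast (hP p hp).ne_zero)
  push_cast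
  simp only [Finset.range_zero, Finset.sum_empty, add_zero]
  field_simp

lemma table_sq (P : Finset ℕ) (hP : ∀ p ∈ P, p.Prime) (N : ℕ) (hN : (∏ p ∈ P, p) ∣ N) :
    (((range N ×ˢ range N).image (fun y : ℕ × ℕ => y.1 * y.2)).card : ℝ) ^ 2 ≤
      ((N : ℝ) ^ 2) ^ 2 * Real.exp (-(∑ p ∈ P, (1 : ℝ) / p) / 8) := by
  classical
  set A := (range N ×ˢ range N).image (fun y : ℕ × ℕ => y.1 * y.2) with hA
  set F : ℕ → ℝ := fun n => ∏ p ∈ P, (if p ∣ n then (3 / 2 : ℝ) else 1) with hF
  set G : ℕ → ℝ := fun n => ∏ p ∈ P, (if p ∣ n then (2 / 3 : ℝ) else 1) with hG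
  have hF0 : ∀ n, 0 ≤ F n := fun n =>
    Finset.prod_nonneg (fun p _ => by split_ifs <;> norm_num)
  have hG0 : ∀ n, 0 ≤ G n := fun n =>
    Finset.prod_nonneg (fun p _ => by split_ifs <;> norm_num)
  have hFG : ∀ n, F n * G n = 1 := fun n => by
    simp only [hF, hG]
    rw [← Finset.prod_mul_distrib]
    exact Finset.prod_eq_one (fun p _ => by split_ifs <;> norm_num)
  have cs := Finset.sum_sq_le_sum_mul_sum_of_sq_le_mul A (r := fun _ => (1 : ℝ)) (f := F) (g := G)
    (fun n _ => hF0 n) (fun n _ => hG0 n) (fun n _ => by rw [hFG n]; norm_num)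
  rw [Finset.sum_const, nsmul_eq_mul, mul_one] at cs
  have h1 : ∑ n ∈ A, F n ≤ (N : ℝ) ^ 2 * ∏ p ∈ P, (1 + 1 / (2 * (p : ℝ))) := by
    have hsub : A ⊆ range (N * N) := by
      intro n hn
      obtain ⟨y, hy, rfl⟩ := Finset.mem_image.1 hn
      obtain ⟨h1, h2⟩ := Finset.mem_product.1 hy
      exact Finset.mem_range.2 (Nat.mul_lt_mul'' (Finset.mem_range.1 h1) (Finset.mem_range.1 h2))
    refine (Finset.sum_le_sum_of_subset_of_nonneg hsub (fun n _ _ => hF0 n)).trans_eq ?_
    rw [sum_prod_mean P hP (fun p n => if p ∣ n then (3 / 2 : ℝ) else 1)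
      (fun p _ => ite_periodic p _ _) (N * N) (Dvd.dvd.mul_right hN N)]
    push_cast
    rw [sq]
    congr 1
    refine Finset.prod_congr rfl (fun p hp => ?_)
    rw [sum_ite_dvd p (hP p hp).pos]
    have : (p : ℝ) ≠ 0 := by exact_mod_cast (hP p hp).ne_zero
    field_simp; ring
  have h2 : ∑ n ∈ A, G n ≤
      (N : ℝ) ^ 2 * ∏ p ∈ P, (1 - 2 / (3 * (p : ℝ)) + 1 / (3 * (p : ℝ) ^ 2)) := by
    refine (Finset.sum_image_le_of_nonneg (fun n _ => hG0 n)).trans_eq ?_
    rw [Finset.sum_product]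
    have inner : ∀ a ∈ range N, ∑ b ∈ range N, G (a * b) =
        N * ∏ p ∈ P, (if p ∣ a then (2 / 3 : ℝ) else (1 - 1 / (3 * (p : ℝ)))) := by
      intro a _
      simp only [hG]
      rw [sum_prod_mean P hP (fun p b => if p ∣ a * b then (2 / 3 : ℝ) else 1) ?_ N hN]
      · congr 1
        refine Finset.prod_congr rfl (fun p hp => ?_)
        have hp0 : (p : ℝ) ≠ 0 := by exact_mod_cast (hP p hp).ne_zero
        simp only [(hP p hp).dvd_mul]
        by_cases h : p ∣ a
        · simp only [h, true_or, if_true, Finset.sum_const, Finset.card_range, nsmul_eq_mul]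
          field_simp
        · simp only [h, false_or, if_false]
          rw [sum_ite_dvd p (hP p hp).pos]
          field_simp; ring
      · intro p _ b
        simp only [mul_add]
        have : p ∣ a * b + a * p ↔ p ∣ a * b := Nat.dvd_add_iff_left (Dvd.intro_left a rfl) |>.symm
        simp only [this]
    rw [Finset.sum_congr rfl inner, ← Finset.mul_sum,
      sum_prod_mean P hP (fun p a => if p ∣ a then (2 / 3 : ℝ) else (1 - 1 / (3 * (p : ℝ))))
        (fun p _ => ite_periodic p _ _) N hN, ← mul_assoc, sq]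
    congr 1
    refine Finset.prod_congr rfl (fun p hp => ?_)
    rw [sum_ite_dvd p (hP p hp).pos]
    have : (p : ℝ) ≠ 0 := by exact_mod_cast (hP p hp).ne_zero
    field_simp; ring
  refine cs.trans ((mul_le_mul h1 h2 (Finset.sum_nonneg (fun n _ => hG0 n))
    (mul_nonneg (by positivity) (Finset.prod_nonneg (fun p _ => by positivity)))).trans ?_)
  rw [mul_mul_mul_comm, ← sq, ← Finset.prod_mul_distrib]
  refine mul_le_mul_of_nonneg_left ?_ (by positivity)
  rw [neg_div, Finset.sum_div, ← Finset.sum_neg_distrib, Real.exp_sum]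
  refine Finset.prod_le_prod (fun p hp => ?_) (fun p hp => ?_)
  · have h : (2 : ℝ) ≤ p := by exact_mod_cast (hP p hp).two_le
    refine mul_nonneg (by positivity) ?_
    have : 2 / (3 * (p : ℝ)) ≤ 1 := by rw [div_le_one (by positivity)]; linarith
    have : 0 ≤ 1 / (3 * (p : ℝ) ^ 2) := by positivity
    linarith
  · have h : (2 : ℝ) ≤ p := by exact_mod_cast (hP p hp).two_le
    refine le_trans ?_ (Real.add_one_le_exp _)
    set t : ℝ := 1 / p with ht
    have e1 : 1 / (2 * (p : ℝ)) = t / 2 := by rw [ht]; field_simp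
    have e2 : 2 / (3 * (p : ℝ)) = 2 * t / 3 := by rw [ht]; field_simp
    have e3 : 1 / (3 * (p : ℝ) ^ 2) = t ^ 2 / 3 := by rw [ht]; field_simp
    have t0 : 0 < t := by positivity
    have t1 : t ≤ 1 / 2 := one_div_le_one_div_of_le (by norm_num) h
    rw [e1, e2, e3]
    have : t * t ^ 2 ≤ t * (1 / 4) := mul_le_mul_of_nonneg_left (by nlinarith) t0.le
    nlinarith

/-- The multiplication table theorem along multiples of a suitable modulus. -/
theorem table (δ : ℝ) (hδ : 0 < δ) : ∃ D : ℕ, 0 < D ∧ ∀ N : ℕ, D ∣ N →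
    (((range N ×ˢ range N).image (fun y : ℕ × ℕ => y.1 * y.2)).card : ℝ) ≤ δ * (N : ℝ) ^ 2 := by
  classical
  have h := (not_summable_iff_tendsto_nat_atTop_of_nonneg (fun n =>
    Set.indicator_nonneg (fun _ _ => by positivity) n)).1 not_summable_one_div_on_primes
  obtain ⟨m, hm⟩ := (h.eventually_ge_atTop (8 / δ ^ 2)).exists
  set P := (range m).filter Nat.Prime with hP
  have hPp : ∀ p ∈ P, p.Prime := fun p hp => (Finset.mem_filter.1 hp).2
  have hsum : 8 / δ ^ 2 ≤ ∑ p ∈ P, (1 : ℝ) / p := by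
    refine hm.trans_eq ?_
    rw [hP, Finset.sum_filter]
    refine Finset.sum_congr rfl (fun n _ => ?_)
    by_cases hn : n.Prime
    · rw [if_pos hn, Set.indicator_of_mem (by exact hn)]
    · rw [if_neg hn, Set.indicator_of_notMem (by exact hn)]
  refine ⟨∏ p ∈ P, p, Finset.prod_pos (fun p hp => (hPp p hp).pos), fun N hN => ?_⟩
  have h1 := table_sq P hPp N hN
  have h2 : Real.exp (-(∑ p ∈ P, (1 : ℝ) / p) / 8) ≤ δ ^ 2 := by
    rw [neg_div, Real.exp_neg, inv_le_comm₀ (Real.exp_pos _) (by positivity)]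
    have := Real.add_one_le_exp ((∑ p ∈ P, (1 : ℝ) / p) / 8)
    have e : 8 / δ ^ 2 = 8 * (δ ^ 2)⁻¹ := by rw [div_eq_mul_inv]
    linarith
  refine le_of_sq_le_sq ?_ (by positivity)
  rw [mul_pow, mul_comm (δ ^ 2)]
  exact h1.trans (mul_le_mul_of_nonneg_left h2 (by positivity))

end Pool.Agent.H59.MulTable
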