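import Mathlib
import Pool.Agent.H59.BH1
import Pool.Agent.H59.MulTable

/-! A weighted pure sieve upper bound, a variance bound for the number of prime factors in short
intervals, and the choice of sieving levels. -/

set_option autoImplicit false

namespace Pool.Agent.H59.EG

open Finset Pool.Agent.H59.PureSieve Pool.Agent.H59.MulTable

lemma shift (g : ℕ → ℝ) (q u : ℕ) (hq : 0 < q) (hg : Function.Periodic g q) :
    ∑ x ∈ range q, g (u + x) = ∑ x ∈ range q, g x := by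
  simpa [add_comm] using sum_affine g 1 q u hq (by simp) hg

lemma upper0 (Q : Finset ℕ) (hQ : ∀ q ∈ Q, q.Prime) (f : ℕ → ℕ → ℝ)
    (hf0 : ∀ q x, 0 ≤ f q x) (hf1 : ∀ q x, f q x ≤ 1)
    (hper : ∀ q ∈ Q, Function.Periodic (f q) q) (hc : ∀ q ∈ Q, ∑ x ∈ range q, f q x ≤ 1)
    (n : ℕ) (hn : ∑ q ∈ Q, 1 / (q : ℝ) ≤ n) (J : ℕ)
    (hJ : 3 * Real.exp n * ((Q.card : ℝ) + 1) ^ (6 * n) ≤ J) (μ : ℝ)
    (hμ : μ ≤ ∑ q ∈ Q, (∑ x ∈ range q, f q x) / q) :
    ∑ x ∈ range J, ∏ q ∈ Q, (1 - f q x) ≤ 3 * J * Real.exp (-μ) := by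
  set c : ℕ → ℝ := fun q => ∑ x ∈ range q, f q x with hcdef
  have hc0 : ∀ q, 0 ≤ c q := fun q => sum_nonneg (fun x _ => hf0 q x)
  set N : ℝ := Q.card + 1 with hNdef
  have hN : 1 ≤ N := by simp [hNdef]
  set r := 6 * n with hr
  have hev : (-1 : ℝ) ^ r = 1 := Even.neg_one_pow ⟨3 * n, by rw [hr]; ring⟩
  have h1 : ∑ x ∈ range J, ∏ q ∈ Q, (1 - f q x) ≤ ∑ x ∈ range J, T Q (fun q => f q x) r := by
    refine sum_le_sum (fun x _ => ?_)
    have b := bonferroni Q (fun q => f q x) (fun q _ => hf0 q x) (fun q _ => hf1 q x) r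
    rw [hev] at b; linarith
  have t0 : ∀ q, 0 ≤ c q / q := fun q => div_nonneg (hc0 q) (Nat.cast_nonneg q)
  have t1 : ∀ q ∈ Q, c q / q ≤ 1 / q := fun q hq => by gcongr; exact hc q hq
  have t2 : ∑ q ∈ Q, c q / q ≤ n := (sum_le_sum t1).trans hn
  have e0 : Real.exp (-n) ≤ Real.exp (-μ) := Real.exp_le_exp.2 (by linarith)
  have h2 : T Q (fun q => c q / q) r ≤ 2 * Real.exp (-μ) := by
    have t3 : ∀ q ∈ Q, c q / q ≤ 1 := fun q hq =>
      (t1 q hq).trans (by linarith [BH.inv_le_half (hQ q hq)])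
    have b := bonferroni Q (fun q => c q / q) (fun q _ => t0 q) t3 (r + 1)
    rw [T_succ, pow_succ, hev] at b
    have l := level_le Q (fun q => c q / q) t0 (r + 1)
    set E := ∑ S ∈ Q.powerset, (if S.card = r + 1 then ∏ q ∈ S, c q / q else 0) with hE
    have p : ∏ q ∈ Q, (1 - c q / q) ≤ Real.exp (-μ) := by
      refine le_trans ?_ (Real.exp_le_exp.2 (neg_le_neg hμ))
      rw [← sum_neg_distrib, Real.exp_sum]
      exact prod_le_prod (fun q hq => by linarith [t3 q hq])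
        fun q _ => by linarith [Real.add_one_le_exp (-(c q / q))]
    have e1 : Real.exp (2 * ∑ q ∈ Q, c q / q) ≤ 2 ^ (r + 1) * Real.exp (-n) := by
      have a1 : Real.exp (3 * n) ≤ 2 ^ (r + 1) := by
        rw [mul_comm, Real.exp_nat_mul, pow_succ, hr, mul_comm 6, pow_mul']
        have a2 : Real.exp 3 ≤ 2 ^ 6 := by
          rw [show (3 : ℝ) = (3 : ℕ) * 1 by norm_num, Real.exp_nat_mul]
          exact (pow_le_pow_left₀ (by positivity) Real.exp_one_lt_three.le 3).trans (by norm_num)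
        have := pow_le_pow_left₀ (by positivity) a2 n
        have : (0 : ℝ) ≤ (2 ^ 6) ^ n := by positivity
        linarith
      refine le_trans ?_ (mul_le_mul_of_nonneg_right a1 (Real.exp_pos _).le)
      rw [← Real.exp_add]; exact Real.exp_le_exp.2 (by linarith)
    have := le_of_mul_le_mul_left (l.trans e1) (by positivity)
    linarith
  have h3 : ∑ x ∈ range J, T Q (fun q => f q x) r ≤
      (J : ℝ) * T Q (fun q => c q / q) r + N ^ r * ∑ S ∈ Q.powerset, ∏ q ∈ S, c q / N := by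
    unfold T
    rw [sum_comm, mul_sum, mul_sum, ← sum_add_distrib]
    refine sum_le_sum (fun S hS => ?_)
    have hSQ := mem_powerset.1 hS
    have hp0 : 0 ≤ ∏ q ∈ S, c q / N := prod_nonneg (fun q _ => div_nonneg (hc0 q) (by linarith))
    split_ifs with h
    · have k1 := periodic_count (fun x => ∏ q ∈ S, f q x) (∏ q ∈ S, q)
        (prod_pos (fun q hq => (hQ q (hSQ hq)).pos))
        (prod_periodic S f (fun q hq => hper q (hSQ hq)))
        (fun x => prod_nonneg (fun q _ => hf0 q x)) J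
      rw [sum_prod_crt S (fun q hq => hQ q (hSQ hq)) f (fun q hq => hper q (hSQ hq))] at k1
      have k2 : ∏ q ∈ S, c q / (q : ℝ) = (∏ q ∈ S, c q) / ((∏ q ∈ S, q : ℕ) : ℝ) := by
        rw [prod_div_distrib]; push_cast; rfl
      have k3 : ∏ q ∈ S, c q ≤ N ^ r * ∏ q ∈ S, c q / N := by
        have : ∏ q ∈ S, c q = N ^ S.card * ∏ q ∈ S, c q / N := by
          rw [prod_div_distrib, prod_const]
          field_simp
        rw [this]
        exact mul_le_mul_of_nonneg_right (pow_le_pow_right₀ hN h) hp0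
      rw [← mul_sum, k2]
      have k4 := abs_le.1 k1
      rcases neg_one_pow_eq_or ℝ S.card with hs | hs
      · rw [hs]; linarith [k4.2]
      · rw [hs]; linarith [k4.1]
    · have : 0 ≤ N ^ r * ∏ q ∈ S, c q / N := mul_nonneg (by positivity) hp0
      simp only [sum_const_zero, mul_zero]
      linarith
  have h4 : ∑ S ∈ Q.powerset, ∏ q ∈ S, c q / N ≤ 3 := by
    rw [← prod_one_add]
    refine (Real.prod_one_add_le_exp_sum Q (f := fun q => c q / N)
      (fun q => div_nonneg (hc0 q) (by linarith))).trans ?_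
    refine le_trans (Real.exp_le_exp.2 ?_) Real.exp_one_lt_three.le
    rw [← sum_div, div_le_one (by linarith)]
    have := sum_le_card_nsmul Q c 1 hc
    simp only [nsmul_eq_mul, mul_one] at this
    linarith
  have h5 := mul_le_mul_of_nonneg_left h2 (Nat.cast_nonneg J)
  have h6 := mul_le_mul_of_nonneg_left h4 (by positivity : 0 ≤ N ^ r)
  have h7 := mul_le_mul_of_nonneg_right hJ (Real.exp_pos (-n)).le
  rw [mul_right_comm, mul_assoc 3, ← Real.exp_add, add_neg_cancel, Real.exp_zero] at h7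
  have h8 := mul_le_mul_of_nonneg_left e0 (Nat.cast_nonneg J)
  linarith

/-- The weighted pure sieve on an interval. -/
theorem upper (Q : Finset ℕ) (hQ : ∀ q ∈ Q, q.Prime) (f : ℕ → ℕ → ℝ)
    (hf0 : ∀ q x, 0 ≤ f q x) (hf1 : ∀ q x, f q x ≤ 1)
    (hper : ∀ q ∈ Q, Function.Periodic (f q) q) (hc : ∀ q ∈ Q, ∑ x ∈ range q, f q x ≤ 1)
    (n : ℕ) (hn : ∑ q ∈ Q, 1 / (q : ℝ) ≤ n) (J : ℕ)
    (hJ : 3 * Real.exp n * ((Q.card : ℝ) + 1) ^ (6 * n) ≤ J) (μ : ℝ)
    (hμ : μ ≤ ∑ q ∈ Q, (∑ x ∈ range q, f q x) / q) (u : ℕ) :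
    ∑ x ∈ Ico u (u + J), ∏ q ∈ Q, (1 - f q x) ≤ 3 * J * Real.exp (-μ) := by
  rw [sum_Ico_eq_sum_range, Nat.add_sub_cancel_left]
  have e : ∀ q ∈ Q, ∑ x ∈ range q, f q (u + x) = ∑ x ∈ range q, f q x :=
    fun q hq => shift (f q) q u (hQ q hq).pos (hper q hq)
  exact upper0 Q hQ (fun q x => f q (u + x)) (fun _ _ => hf0 _ _) (fun _ _ => hf1 _ _)
    (fun q hq x => by simp only [← add_assoc]; exact hper q hq _)
    (fun q hq => (e q hq).trans_le (hc q hq)) n hn J hJ μ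
    (hμ.trans_eq (sum_congr rfl fun q hq => by rw [e q hq]))

lemma cnt (m u H : ℕ) (hm : 0 < m) :
    |∑ x ∈ Ico u (u + H), (if m ∣ x then (1 : ℝ) else 0) - H * (1 / m)| ≤ 1 := by
  rw [sum_Ico_eq_sum_range, Nat.add_sub_cancel_left]
  have := periodic_count (fun x => if m ∣ u + x then (1 : ℝ) else 0) m hm
    (fun x => by simp only [← add_assoc, Nat.dvd_add_self_right]) (fun x => by positivity) H
  rwa [shift _ m u hm (ite_periodic m 1 0), sum_ite_dvd m hm, mul_zero, add_zero] at this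

/-- The number of primes of `P` dividing `n`. -/
noncomputable def om (P : Finset ℕ) (n : ℕ) : ℝ := ∑ p ∈ P, if p ∣ n then 1 else 0

lemma var (P : Finset ℕ) (hP : ∀ p ∈ P, p.Prime) (u H : ℕ) :
    ∑ x ∈ Ico u (u + H), (om P x - ∑ p ∈ P, 1 / (p : ℝ)) ^ 2 ≤
      H * ∑ p ∈ P, 1 / (p : ℝ) + 3 * (P.card : ℝ) ^ 2 := by
  simp only [om, ← sum_sub_distrib, sq, sum_mul_sum]
  rw [sum_comm, mul_sum, show 3 * ((P.card : ℝ) * P.card) = ∑ p ∈ P, ∑ q ∈ P, (3 : ℝ) by
    simp; ring, ← sum_add_distrib]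
  refine sum_le_sum fun p hp => ?_
  rw [sum_comm, show (H : ℝ) * (1 / p) = ∑ q ∈ P, if p = q then (H : ℝ) * (1 / p) else 0 by
    simp [hp], ← sum_add_distrib]
  refine sum_le_sum fun q hq => ?_
  have a1 := abs_le.1 (cnt p u H (hP p hp).pos)
  have a2 := abs_le.1 (cnt q u H (hP q hq).pos)
  have b1 := BH.inv_le_half (hP p hp)
  have b2 := BH.inv_le_half (hP q hq)
  have c1 : (0 : ℝ) ≤ 1 / p := by positivity
  have c2 : (0 : ℝ) ≤ 1 / q := by positivity
  simp only [sub_mul, mul_sub, sum_sub_distrib, ← sum_mul, ← mul_sum, sum_const, Nat.card_Ico,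
    Nat.add_sub_cancel_left, nsmul_eq_mul]
  split_ifs with h
  · subst h
    rw [sum_congr rfl (g := fun x => if p ∣ x then (1 : ℝ) else 0)
      fun x _ => by split_ifs <;> simp]
    nlinarith [mul_le_mul_of_nonneg_left a1.1 c1, mul_nonneg (Nat.cast_nonneg (α := ℝ) H)
      (mul_nonneg c1 c1)]
  · have a3 := abs_le.1 (cnt (p * q) u H (Nat.mul_pos (hP p hp).pos (hP q hq).pos))
    have cp := (Nat.coprime_primes (hP p hp) (hP q hq)).2 h
    rw [sum_congr rfl (g := fun x => if p * q ∣ x then (1 : ℝ) else 0) fun x _ => by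
      by_cases h1 : p ∣ x <;> by_cases h2 : q ∣ x
      · simp [h1, h2, cp.mul_dvd_of_dvd_of_dvd h1 h2]
      · simp [h2, show ¬ p * q ∣ x from fun h => h2 (Dvd.dvd.trans (Dvd.intro_left _ rfl) h)]
      · simp [h1, show ¬ p * q ∣ x from fun h => h1 (Dvd.dvd.trans (Dvd.intro _ rfl) h)]
      · simp [h1, show ¬ p * q ∣ x from fun h => h1 (Dvd.dvd.trans (Dvd.intro _ rfl) h)]]
    rw [show (1 : ℝ) / (p * q : ℕ) = 1 / p * (1 / q) by push_cast; ring] at a3
    nlinarith [mul_le_mul_of_nonneg_left a1.1 c2, mul_le_mul_of_nonneg_left a2.1 c1]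

lemma cheb (P : Finset ℕ) (hP : ∀ p ∈ P, p.Prime) (u H : ℕ) (l : ℝ) (hl : 1 ≤ l)
    (h1 : l ≤ ∑ p ∈ P, 1 / (p : ℝ)) (h2 : 3 * (P.card : ℝ) ^ 2 ≤ H) :
    (((Ico u (u + H)).filter fun x => ¬ om P x ≤ 101 / 100 * ∑ p ∈ P, 1 / (p : ℝ)).card : ℝ) ≤
      20000 * H / l := by
  have v := var P hP u H
  set L := ∑ p ∈ P, 1 / (p : ℝ)
  have a := (card_nsmul_le_sum _ (fun x => (om P x - L) ^ 2) ((L / 100) ^ 2) fun x hx =>
    pow_le_pow_left₀ (by linarith) (by linarith [not_le.1 (mem_filter.1 hx).2]) 2).trans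
    ((sum_le_sum_of_subset_of_nonneg (filter_subset (fun x => ¬ om P x ≤ 101 / 100 * L) _)
      fun _ _ _ => by positivity).trans v)
  rw [nsmul_eq_mul] at a
  set c : ℝ := (((Ico u (u + H)).filter fun x => ¬ om P x ≤ 101 / 100 * L).card : ℝ)
  have c0 : 0 ≤ c := Nat.cast_nonneg _
  have H0 : (0 : ℝ) ≤ H := Nat.cast_nonneg _
  rw [le_div_iff₀ (by linarith)]
  have : (c * L) * L ≤ (20000 * H) * L := by nlinarith
  nlinarith [le_of_mul_le_mul_right this (by linarith)]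

lemma loglog (N : ℕ) (hN : 2 ≤ N) :
    Real.log N ≤ Real.exp (∑ p ∈ N.primesLE, 1 / (p : ℝ) + 2) := by
  have hQ : ∀ q ∈ N.primesLE, q.Prime := fun q hq => (Nat.mem_primesLE.1 hq).2
  have h1 := BH.V_le N hN
  have h4 : 0 < Real.log N := Real.log_pos (by exact_mod_cast hN)
  have h2 : ∑ p ∈ N.primesLE, ((p : ℝ) ^ 2)⁻¹ ≤ 1 := by
    have a := sum_Ioc_inv_sq_le_sub (α := ℝ) (k := 1) (n := N) one_ne_zero (by omega)
    have b := sum_le_sum_of_subset_of_nonneg (s := N.primesLE) (t := Ioc 1 N)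
      (f := fun p : ℕ => ((p : ℝ) ^ 2)⁻¹) (fun p hp => mem_Ioc.2
        ⟨(hQ p hp).one_lt, (Nat.mem_primesLE.1 hp).1⟩) fun _ _ _ => by positivity
    have : (0 : ℝ) ≤ (N : ℝ)⁻¹ := by positivity
    simp only [Nat.cast_one, inv_one] at a
    linarith
  have h3 : Real.exp (-∑ p ∈ N.primesLE, (1 / (p : ℝ) + 2 * ((p : ℝ) ^ 2)⁻¹)) ≤
      BH.V N.primesLE := by
    rw [← sum_neg_distrib, Real.exp_sum]
    refine prod_le_prod (fun _ _ => (Real.exp_pos _).le) fun q hq => ?_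
    have a1 := BH.inv_le_half (hQ q hq)
    have a0 : (0 : ℝ) ≤ 1 / q := by positivity
    rw [← one_div, ← one_div_pow, Real.exp_neg, inv_le_iff_one_le_mul₀ (Real.exp_pos _)]
    set t := 1 / (q : ℝ)
    nlinarith [mul_le_mul_of_nonneg_left (Real.add_one_le_exp (t + 2 * t ^ 2))
      (by linarith : 0 ≤ 1 - t), mul_nonneg (sq_nonneg t) (by linarith : 0 ≤ 1 - 2 * t)]
  rw [sum_add_distrib, ← mul_sum, Real.exp_neg] at h3
  have := h3.trans h1
  rw [one_div (Real.log N), inv_le_inv₀ (Real.exp_pos _) h4] at this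
  exact this.trans (Real.exp_le_exp.2 (by linarith))

theorem level (n : ℕ) : ∃ (P : Finset ℕ) (m : ℕ), (∀ p ∈ P, p.Prime ∧ 100 < p) ∧
    (n : ℝ) ≤ ∑ p ∈ P, 1 / (p : ℝ) ∧ ∑ p ∈ P, 1 / (p : ℝ) ≤ (n + 1 : ℕ) ∧
    3 * Real.exp (n + 1 : ℕ) * ((P.card : ℝ) + 1) ^ (6 * (n + 1)) ≤ (2 ^ m : ℕ) ∧
    (m : ℝ) ≤ 20 * (n + 1) * Real.exp (n + 104) := by
  set Q : ℕ → Finset ℕ := fun w => (range w).filter fun p => p.Prime ∧ 100 < p with hQ
  set R := Real.exp (n + 103) with hR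
  have R1 : (n : ℝ) + 104 ≤ R := by linarith [Real.add_one_le_exp ((n : ℝ) + 103)]
  have n0 : (0 : ℝ) ≤ n := Nat.cast_nonneg n
  set W := ⌈Real.exp R⌉₊ with hW
  have W1 : Real.exp R ≤ W := Nat.le_ceil _
  have W2 : (W : ℝ) < Real.exp R + 1 := Nat.ceil_lt_add_one (by positivity)
  have R2 : R + 1 ≤ Real.exp R := Real.add_one_le_exp R
  have ex : (n : ℝ) ≤ ∑ p ∈ Q (W + 1), 1 / (p : ℝ) := by
    have a1 := loglog W (by exact_mod_cast (by linarith : (2 : ℝ) ≤ W))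
    have a2 := Real.exp_le_exp.1
      (((Real.le_log_iff_exp_le (by linarith)).2 W1).trans a1)
    have a3 : ∑ p ∈ W.primesLE, 1 / (p : ℝ) ≤ ∑ p ∈ Q (W + 1) ∪ range 101, 1 / (p : ℝ) :=
      sum_le_sum_of_subset_of_nonneg (fun p hp => by
        have := Nat.mem_primesLE.1 hp
        simp only [hQ, mem_union, mem_filter, mem_range, this.2, true_and]; omega)
        fun _ _ _ => by positivity
    have a4 := sum_union_inter (s₁ := Q (W + 1)) (s₂ := range 101) (f := fun p => 1 / (p : ℝ))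
    have a5 : 0 ≤ ∑ p ∈ Q (W + 1) ∩ range 101, 1 / (p : ℝ) := sum_nonneg fun _ _ => by positivity
    have a6 := sum_le_card_nsmul (range 101) (fun p => 1 / (p : ℝ)) 1 fun p _ => by
      simpa using Nat.cast_inv_le_one (α := ℝ) p
    simp only [card_range, nsmul_eq_mul] at a6
    push_cast at a6
    linarith
  have hex : ∃ w, (n : ℝ) ≤ ∑ p ∈ Q w, 1 / (p : ℝ) := ⟨_, ex⟩
  have w1 := Nat.find_min' hex ex
  have w2 : ((Q (Nat.find hex)).card : ℝ) ≤ W + 1 := by
    exact_mod_cast ((card_filter_le _ _).trans (by simp)).trans w1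
  refine ⟨Q (Nat.find hex), ⌈15 * (n + 1) * (R + 2)⌉₊, fun p hp => (mem_filter.1 hp).2,
    Nat.find_spec hex, ?_, ?_, ?_⟩
  · rcases h : Nat.find hex with _ | w
    · simp [hQ]; positivity
    · have a1 := not_le.1 (Nat.find_min hex (m := w) (by omega))
      have a2 : (1 : ℝ) / w ≤ 1 := by simpa using Nat.cast_inv_le_one (α := ℝ) w
      simp only [hQ, range_add_one, filter_insert] at a1 ⊢
      push_cast
      split_ifs
      · rw [sum_insert (by simp)]; linarith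
      · linarith
  · have a1 : ((Q (Nat.find hex)).card : ℝ) + 1 ≤ Real.exp (R + 1) := by
      rw [Real.exp_add]; nlinarith [Real.add_one_le_exp 1]
    have a2 := pow_le_pow_left₀ (by positivity) a1 (6 * (n + 1))
    rw [← Real.exp_nat_mul] at a2
    have a3 : (3 : ℝ) ≤ Real.exp 2 := by linarith [Real.add_one_le_exp 2]
    refine (mul_le_mul (mul_le_mul_of_nonneg_right a3 (by positivity)) a2 (by positivity)
      (by positivity)).trans ?_
    push_cast
    rw [← Real.exp_add, ← Real.exp_add, ← Real.exp_log two_pos, ← Real.exp_nat_mul, Real.exp_log two_pos]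
    refine Real.exp_le_exp.2 ?_
    have a4 := Nat.le_ceil (15 * ((n : ℝ) + 1) * (R + 2))
    nlinarith [Real.log_two_gt_d9, mul_nonneg n0 (by linarith : 0 ≤ R)]
  · have a4 := Nat.ceil_lt_add_one (by positivity : 0 ≤ 15 * ((n : ℝ) + 1) * (R + 2))
    rw [show (n : ℝ) + 104 = n + 103 + 1 by ring, Real.exp_add]
    nlinarith [Real.add_one_le_exp 1, mul_nonneg n0 (by linarith : 0 ≤ R),
      mul_le_mul_of_nonneg_left (Real.add_one_le_exp 1) (by positivity : 0 ≤ (n + 1) * R)]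

end Pool.Agent.H59.EG
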