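import Mathlib
import Pool.Agent.H59.EG1

/-! Counting solutions of `1 / a = 1 / b + 1 / c` with `a` and `b` having few prime factors. -/

set_option autoImplicit false

namespace Pool.Agent.H59.EG

open Finset Pool.Agent.H59.PureSieve Pool.Agent.H59.MulTable

open Classical in
/-- The good `a` slightly below `h` with a representation whose parameter `x` is near `X`. -/
noncomputable def R (h H X : ℕ) (G : ℕ → Prop) : Finset ℕ :=
  (Ioc (h - H) h).filter fun a => G a ∧ ∃ x d y, X ≤ x ∧ x < 2 * X ∧ x < y ∧ a = d * x * y ∧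
    d * y * (x + y) ≤ 2 * h ∧ G (d * x * (x + y))

lemma cardle (h H K X : ℕ) (G : ℕ → Prop) (hK : 10 ≤ K) (e : 2 * h = K * H) (hX : 0 < X)
    (W : ℕ → ℕ → ℕ → ℝ) (W0 : ∀ x d y, 0 ≤ W x d y)
    (W1 : ∀ x d y, G (d * x * y) → G (d * x * (x + y)) → 1 ≤ W x d y) :
    ((R h H X G).card : ℝ) ≤ ∑ x ∈ Ico X (X + X),
      ∑ d ∈ Ico ((h - 4 * H) / x ^ 2 + 1) ((h - 4 * H) / x ^ 2 + 1 + (4 * H / X ^ 2 + 1)),
        ∑ y ∈ Ico (x + 1) (x + 1 + 10 * X / K), W x d y := by
  classical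
  simp only [← sum_product', sum_sigma']
  set S := (Ico X (X + X)).sigma fun x =>
    Ico ((h - 4 * H) / x ^ 2 + 1) ((h - 4 * H) / x ^ 2 + 1 + (4 * H / X ^ 2 + 1)) ×ˢ
      Ico (x + 1) (x + 1 + 10 * X / K) with hS
  have a1 : R h H X G ⊆ (S.filter fun t => 1 ≤ W t.1 t.2.1 t.2.2).image
      fun t => t.2.1 * t.1 * t.2.2 := by
    intro a ha
    obtain ⟨h1, g1, x, d, y, x1, x2, x3, rfl, h2, g2⟩ := mem_filter.1 ha
    obtain ⟨h0, h1⟩ := mem_Ioc.1 h1
    refine mem_image.2 ⟨⟨x, d, y⟩, mem_filter.2 ⟨?_, W1 x d y g1 g2⟩, rfl⟩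
    have x0 : 0 < x ^ 2 := by have : 0 < x := by omega
                              positivity
    have b0 : 5 * H ≤ h := by nlinarith
    have H0 : 0 < H := by
      rcases Nat.eq_zero_or_pos H with rfl | h
      · omega
      · exact h
    obtain ⟨g, rfl⟩ := Nat.exists_eq_add_of_le (by omega : 4 * H ≤ h)
    rw [show 4 * H + g - H = 3 * H + g by omega] at h0
    have b1 : K * y ≤ K * x + 5 * x := by
      have c1 : (3 * H + g) * (x + y) ≤ 2 * (4 * H + g) * x := by nlinarith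
      have c2 : H * (K * y) ≤ H * (K * x + 2 * x + 2 * y) := by nlinarith
      have c3 := le_of_mul_le_mul_left c2 H0
      nlinarith
    have b2 : d * x ^ 2 ≤ 4 * H + g := by nlinarith [Nat.mul_le_mul_left (d * x) x3.le]
    have b3 : g < d * x ^ 2 := by
      by_contra hc
      have c1 := Nat.mul_le_mul_left (d * x) b1
      have c2 := Nat.mul_le_mul_left (K + 5) (not_lt.1 hc)
      have c3 := Nat.mul_le_mul_left K h0.le
      nlinarith
    simp only [hS, mem_sigma, mem_product, mem_Ico, Nat.add_sub_cancel_left]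
    refine ⟨⟨x1, by omega⟩, ⟨(Nat.div_lt_iff_lt_mul x0).2 b3, ?_⟩, x3, ?_⟩
    · have c1 := (Nat.le_div_iff_mul_le x0).2 b2
      have c2 : (4 * H + g) / x ^ 2 ≤ 4 * H / x ^ 2 + g / x ^ 2 + 1 := by
        rw [Nat.add_div x0]; split_ifs <;> omega
      have c3 : 4 * H / x ^ 2 ≤ 4 * H / X ^ 2 :=
        Nat.div_le_div_left (Nat.pow_le_pow_left x1 2) (by positivity)
      omega
    · obtain ⟨z, rfl⟩ := Nat.exists_eq_add_of_le x3.le
      have : z ≤ 10 * X / K := (Nat.le_div_iff_mul_le (by omega)).2 (by nlinarith)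
      omega
  refine le_trans (Nat.cast_le.2 ((card_le_card a1).trans card_image_le)) ?_
  refine le_trans ?_ (sum_le_sum_of_subset_of_nonneg
    (filter_subset (fun t => 1 ≤ W t.1 t.2.1 t.2.2) S) fun _ _ _ => W0 _ _ _)
  simpa using card_nsmul_le_sum _ (fun t : (Σ _ : ℕ, ℕ × ℕ) => W t.1 t.2.1 t.2.2) 1
    fun t ht => (mem_filter.1 ht).2

lemma lens (H K X : ℕ) (hX : 0 < X) (h : X ^ 2 ≤ H) :
    (X : ℝ) * (4 * H / X ^ 2 + 1 : ℕ) * (10 * X / K : ℕ) ≤ 50 * H / K := by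
  have a1 : ((10 * X / K : ℕ) : ℝ) ≤ 10 * X / K := by
    simpa using Nat.cast_div_le (α := ℝ) (m := 10 * X) (n := K)
  have a2 : ((4 * H / X ^ 2 : ℕ) : ℝ) ≤ 4 * H / X ^ 2 := by
    exact Nat.cast_div_le.trans_eq (by push_cast; ring)
  have a3 : (1 : ℝ) ≤ H / X ^ 2 := (one_le_div (by positivity)).2 (by exact_mod_cast h)
  have a4 : ((4 * H / X ^ 2 + 1 : ℕ) : ℝ) ≤ 5 * H / X ^ 2 := by
    push_cast; rw [mul_div_assoc] at a2 ⊢; linarith
  calc _ ≤ (X : ℝ) * (5 * H / X ^ 2) * (10 * X / K) := by gcongr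
    _ = _ := by field_simp; ring

lemma triv (h H K X : ℕ) (G : ℕ → Prop) (hK : 10 ≤ K) (e : 2 * h = K * H) (hX : 0 < X)
    (h1 : X ^ 2 ≤ H) : ((R h H X G).card : ℝ) ≤ if K ≤ 10 * X then 50 * (H : ℝ) / K else 0 := by
  have := cardle h H K X G hK e hX (fun _ _ _ => 1) (by simp) (by simp)
  simp only [sum_const, Nat.card_Ico, Nat.add_sub_cancel_left, nsmul_eq_mul, mul_one,
    ← mul_assoc] at this
  split_ifs with h
  · exact this.trans (lens H K X hX h1)
  · simpa [Nat.div_eq_of_lt (not_le.1 h)] using this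

lemma half (P : Finset ℕ) (n : ℕ) :
    Real.exp (-(0.6932 * om P n)) ≤ ∏ p ∈ P, if p ∣ n then (1 / 2 : ℝ) else 1 := by
  rw [om, mul_sum, ← sum_neg_distrib, Real.exp_sum]
  refine prod_le_prod (fun _ _ => (Real.exp_pos _).le) fun p _ => ?_
  split_ifs
  · rw [← Real.le_log_iff_exp_le (by norm_num), one_div, Real.log_inv]
    linarith [Real.log_two_lt_d9]
  · simp

lemma mean (P : Finset ℕ) (hP : ∀ p ∈ P, p.Prime ∧ 100 < p) (z : ℕ) (α : ℝ) (h0 : 0 ≤ α)
    (h : om P z ≤ 101 / 100 * ∑ p ∈ P, 1 / (p : ℝ)) :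
    α * (9899 / 10000 * ∑ p ∈ P, 1 / (p : ℝ)) ≤ ∑ p ∈ P, (if p ∣ z then 0 else α) / (p : ℝ) := by
  have : α * (∑ p ∈ P, 1 / (p : ℝ) - om P z / 100) ≤
      ∑ p ∈ P, (if p ∣ z then 0 else α) / (p : ℝ) := by
    rw [om, sum_div, ← sum_sub_distrib, mul_sum]
    refine sum_le_sum fun p hp => ?_
    have : (1 : ℝ) / p ≤ 1 / 100 :=
      one_div_le_one_div_of_le (by norm_num) (by exact_mod_cast (hP p hp).2.le)
    split_ifs
    · rw [zero_div]; exact mul_nonpos_of_nonneg_of_nonpos h0 (by linarith)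
    · simp [div_eq_mul_inv]
  nlinarith

lemma om_mono (P : Finset ℕ) (m n : ℕ) (h : m ∣ n) : om P m ≤ om P n :=
  sum_le_sum fun p _ => by
    by_cases h1 : p ∣ m
    · simp [h1, h1.trans h]
    · simp only [h1, if_false]; positivity

lemma block (h H K X : ℕ) (G : ℕ → Prop) (hK : 10 ≤ K) (e : 2 * h = K * H) (hX : 0 < X)
    (P : Finset ℕ) (hP : ∀ p ∈ P, p.Prime ∧ 100 < p) (n τ : ℕ)
    (l1 : (n : ℝ) ≤ ∑ p ∈ P, 1 / (p : ℝ)) (l2 : ∑ p ∈ P, 1 / (p : ℝ) ≤ (n + 1 : ℕ))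
    (l3 : 3 * Real.exp (n + 1 : ℕ) * ((P.card : ℝ) + 1) ^ (6 * (n + 1)) ≤ τ)
    (hG : ∀ a, G a → om P a ≤ 101 / 100 * ∑ p ∈ P, 1 / (p : ℝ))
    (t0 : 0 < τ) (t1 : τ * K ≤ X) (t2 : τ * X ^ 2 ≤ H) :
    ((R h H X G).card : ℝ) ≤ 1350 * H / K * Real.exp (-(1.08 * n)) := by
  set L := ∑ p ∈ P, 1 / (p : ℝ) with hL
  have hQ : ∀ p ∈ P, p.Prime := fun p hp => (hP p hp).1
  set f1 : ℕ → ℕ → ℝ := fun p x => if p ∣ x then 3 / 4 else 0 with hf1
  set f2 : ℕ → ℕ → ℕ → ℝ := fun x p d => if p ∣ d then (if p ∣ x then 0 else 3 / 4) else 0 with hf2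
  set f3 : ℕ → ℕ → ℕ → ℕ → ℝ := fun x d p y => if p ∣ d * x then 0 else
    (if p ∣ y then 1 / 2 else 0) + if p ∣ x + y then 1 / 2 else 0 with hf3
  have b1 : ∀ p x, 0 ≤ f1 p x ∧ f1 p x ≤ 1 := fun p x => by
    simp only [hf1]; split_ifs <;> norm_num
  have b2 : ∀ x p d, 0 ≤ f2 x p d ∧ f2 x p d ≤ 1 := fun x p d => by
    simp only [hf2]; split_ifs <;> norm_num
  have b3 : ∀ x d p y, 0 ≤ f3 x d p y ∧ f3 x d p y ≤ 1 := fun x d p y => by
    simp only [hf3]; split_ifs <;> norm_num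
  have p1 : ∀ x, 0 ≤ ∏ p ∈ P, (1 - f1 p x) := fun x =>
    prod_nonneg fun p _ => by linarith [(b1 p x).2]
  have p2 : ∀ x d, 0 ≤ ∏ p ∈ P, (1 - f2 x p d) := fun x d =>
    prod_nonneg fun p _ => by linarith [(b2 x p d).2]
  have p3 : ∀ x d y, 0 ≤ ∏ p ∈ P, (1 - f3 x d p y) := fun x d y =>
    prod_nonneg fun p _ => by linarith [(b3 x d p y).2]
  set Jd := 4 * H / X ^ 2 + 1 with hJd
  set Jy := 10 * X / K with hJy
  have j1 : (τ : ℝ) ≤ X := by exact_mod_cast (by nlinarith : τ ≤ X)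
  have j2 : (τ : ℝ) ≤ Jd := by
    have := (Nat.le_div_iff_mul_le (by positivity : 0 < X ^ 2)).2 (by omega : τ * X ^ 2 ≤ 4 * H)
    exact_mod_cast (by omega : τ ≤ Jd)
  have j3 : (τ : ℝ) ≤ Jy := by
    exact_mod_cast (Nat.le_div_iff_mul_le (by omega)).2 (by omega : τ * K ≤ 10 * X)
  have s1 := upper P hQ f1 (fun p x => (b1 p x).1) (fun p x => (b1 p x).2)
    (fun p _ => ite_periodic p _ _) (fun p hp => by
      simp only [hf1, sum_ite_dvd p (hQ p hp).pos]; norm_num) (n + 1) l2 X (l3.trans j1) (3 / 4 * L)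
    (by
      rw [hL, mul_sum]
      exact sum_le_sum fun p hp => by
        simp only [hf1, sum_ite_dvd p (hQ p hp).pos]; exact le_of_eq (by ring)) X
  have s2 : ∀ x u, om P x ≤ 101 / 100 * L → ∑ d ∈ Ico u (u + Jd), ∏ p ∈ P, (1 - f2 x p d) ≤
      3 * Jd * Real.exp (-(3 / 4 * (9899 / 10000 * L))) := fun x u hx =>
    upper P hQ (f2 x) (fun p d => (b2 x p d).1) (fun p d => (b2 x p d).2)
      (fun p _ => ite_periodic p _ _) (fun p hp => by
        simp only [hf2, sum_ite_dvd p (hQ p hp).pos]; split_ifs <;> norm_num) (n + 1) l2 Jd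
      (l3.trans j2) _ ((mean P hP x (3 / 4) (by norm_num) hx).trans_eq (sum_congr rfl fun p hp => by
        simp only [hf2, sum_ite_dvd p (hQ p hp).pos, mul_zero, add_zero])) u
  have c3 : ∀ x d, ∀ p ∈ P, ∑ y ∈ range p, f3 x d p y = if p ∣ d * x then 0 else 1 := by
    intro x d p hp
    simp only [hf3]
    split_ifs
    · simp
    · rw [sum_add_distrib, shift _ p x (hQ p hp).pos (ite_periodic p (1 / 2) 0),
        sum_ite_dvd p (hQ p hp).pos]; ring
  have s3 : ∀ x d u, om P (d * x) ≤ 101 / 100 * L → ∑ y ∈ Ico u (u + Jy),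
      ∏ p ∈ P, (1 - f3 x d p y) ≤ 3 * Jy * Real.exp (-(1 * (9899 / 10000 * L))) := fun x d u hx =>
    upper P hQ (f3 x d) (fun p y => (b3 x d p y).1) (fun p y => (b3 x d p y).2)
      (fun p _ y => by simp only [hf3, ← add_assoc, Nat.dvd_add_self_right])
      (fun p hp => by rw [c3 x d p hp]; split_ifs <;> norm_num) (n + 1) l2 Jy
      (l3.trans j3) _ ((mean P hP (d * x) 1 (by norm_num) hx).trans_eq (sum_congr rfl fun p hp => by
        rw [c3 x d p hp])) u
  set E := Real.exp (1.4003 * L) with hE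
  have E0 : 0 < E := Real.exp_pos _
  have n0 : (0 : ℝ) ≤ n := Nat.cast_nonneg n
  refine (cardle h H K X G hK e hX (fun x d y => E * ((∏ p ∈ P, (1 - f1 p x)) *
    if om P x ≤ 101 / 100 * L then (∏ p ∈ P, (1 - f2 x p d)) *
      if om P (d * x) ≤ 101 / 100 * L then ∏ p ∈ P, (1 - f3 x d p y) else 0 else 0))
    (fun x d y => by
      have := p1 x; have := p2 x d; have := p3 x d y
      positivity) (fun x d y g1 g2 => ?_)).trans ?_
  · have g3 := hG _ g1
    have g4 := hG _ g2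
    rw [if_pos ((om_mono P _ _ ⟨d * y, by ring⟩).trans g3),
      if_pos ((om_mono P _ _ (Dvd.intro _ rfl)).trans g3), ← prod_mul_distrib, ← prod_mul_distrib]
    have a1 := mul_le_mul (half P (d * x * y)) (half P (d * x * (x + y))) (Real.exp_pos _).le
      (prod_nonneg fun _ _ => by positivity)
    rw [← prod_mul_distrib] at a1
    have a2 := a1.trans (prod_le_prod (g := fun p => (1 - f1 p x) * ((1 - f2 x p d) * (1 - f3 x d p y)))
      (fun _ _ => by positivity) fun p hp => by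
        simp only [hf1, hf2, hf3, (hQ p hp).dvd_mul]
        by_cases h1 : p ∣ x
        · norm_num [h1]
        by_cases h2 : p ∣ d
        · norm_num [h1, h2]
        by_cases h3 : p ∣ y
        · have : ¬ p ∣ x + y := fun h => h1 ((Nat.dvd_add_left h3).1 h)
          norm_num [h1, h2, h3, this]
        by_cases h4 : p ∣ x + y <;> norm_num [h1, h2, h3, h4])
    refine le_trans ?_ (mul_le_mul_of_nonneg_left a2 E0.le)
    rw [hE, ← Real.exp_add, ← Real.exp_add]
    exact Real.one_le_exp (by linarith)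
  · calc _ ≤ ∑ x ∈ Ico X (X + X), E * ((∏ p ∈ P, (1 - f1 p x)) *
          (3 * Jd * Real.exp (-(3 / 4 * (9899 / 10000 * L))) *
            (3 * Jy * Real.exp (-(1 * (9899 / 10000 * L)))))) := by
          refine sum_le_sum fun x _ => ?_
          simp only [← mul_sum]
          refine mul_le_mul_of_nonneg_left (mul_le_mul_of_nonneg_left ?_ (p1 x)) E0.le
          split_ifs with h1
          · refine le_trans ?_ (mul_le_mul_of_nonneg_right (s2 x ((h - 4 * H) / x ^ 2 + 1) h1) (by positivity))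
            rw [sum_mul]
            refine sum_le_sum fun d _ => ?_
            rw [← mul_sum]
            refine mul_le_mul_of_nonneg_left ?_ (p2 x d)
            split_ifs with h2
            · exact s3 x d _ h2
            · simp only [sum_const_zero]; positivity
          · simp only [sum_const_zero]; positivity
      _ ≤ E * (3 * X * Real.exp (-(3 / 4 * L)) *
          (3 * Jd * Real.exp (-(3 / 4 * (9899 / 10000 * L))) *
            (3 * Jy * Real.exp (-(1 * (9899 / 10000 * L)))))) := by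
          rw [← mul_sum, ← sum_mul]; gcongr
      _ = 27 * (X * Jd * Jy) * Real.exp (1.4003 * L + -(3 / 4 * L) +
          -(3 / 4 * (9899 / 10000 * L)) + -(1 * (9899 / 10000 * L))) := by
          simp only [Real.exp_add, hE]; ring
      _ ≤ 27 * (50 * H / K) * Real.exp (-(1.08 * n)) := by
          have := lens H K X hX (by nlinarith)
          gcongr
          linarith
      _ = _ := by ring

end Pool.Agent.H59.EG
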