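import Mathlib
import Pool.Agent.H59.EG2

/-! A set of `(1/2 + c) N` integers up to `N` with no solution of `1 / a = 1 / b + 1 / c`. -/

set_option autoImplicit false

namespace Pool.Agent.H59.EG

open Finset Pool.Agent.H59.MulTable

lemma few (S : Finset ℕ) (m : ℕ) (h : ∀ s ∈ S, ∀ t ∈ S, s ≤ t → 2 ^ t < 2 ^ m * 2 ^ s) :
    S.card ≤ m := by
  rcases S.eq_empty_or_nonempty with rfl | hS
  · simp
  refine (card_le_card (t := Ico (S.min' hS) (S.min' hS + m)) fun t ht => ?_).trans (by simp)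
  have := h _ (S.min'_mem hS) t ht (S.min'_le t ht)
  rw [← pow_add, Nat.pow_lt_pow_iff_right (by norm_num)] at this
  exact mem_Ico.2 ⟨S.min'_le t ht, by omega⟩

lemma few' (T : Finset ℕ) (p : ℕ → Prop) [DecidablePred p] (m : ℕ) (c : ℝ) (hc : 0 ≤ c)
    (h : ∀ s t, p s → p t → s ≤ t → 2 ^ t < 2 ^ m * 2 ^ s) :
    ∑ t ∈ T, (if p t then c else 0) ≤ m * c := by
  rw [← sum_filter, sum_const, nsmul_eq_mul]
  exact mul_le_mul_of_nonneg_right (Nat.cast_le.2 (few _ m fun s hs t ht =>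
    h s t (mem_filter.1 hs).2 (mem_filter.1 ht).2)) hc

lemma tau (c n τ : ℕ) (h : 3 * Real.exp (n + 1 : ℕ) * ((c : ℝ) + 1) ^ (6 * (n + 1)) ≤ τ) :
    n < τ ∧ 3 * (c : ℝ) ^ 2 ≤ τ := by
  have c0 : (0 : ℝ) ≤ c := Nat.cast_nonneg c
  have n0 : (0 : ℝ) ≤ n := Nat.cast_nonneg n
  have a1 := pow_le_pow_right₀ (by linarith : 1 ≤ (c : ℝ) + 1) (by omega : 2 ≤ 6 * (n + 1))
  have a2 := Real.add_one_le_exp (n + 1 : ℕ)
  have a3 := (mul_le_mul (mul_le_mul_of_nonneg_left a2 (by norm_num : (0 : ℝ) ≤ 3)) a1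
    (by positivity) (by positivity)).trans h
  push_cast at a3
  constructor
  · exact_mod_cast (by nlinarith [mul_nonneg n0 c0, mul_nonneg n0 (sq_nonneg (c : ℝ))] : (n : ℝ) < τ)
  · nlinarith [mul_nonneg n0 c0, mul_nonneg n0 (sq_nonneg (c : ℝ))]

lemma summ (m : ℕ → ℕ) (hm : ∀ n, (m n : ℝ) ≤ 20 * (n + 1) * Real.exp (n + 104)) :
    ∃ C : ℝ, ∀ s : Finset ℕ,
      ∑ j ∈ s, (m ((j + 1) ^ 2) : ℝ) * Real.exp (-(1.08 * (j ^ 2 : ℕ))) ≤ C := by
  have sm := Real.summable_exp_neg_nat.mul_left (20 * Real.exp 186)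
  refine ⟨_, fun s => (sum_le_sum fun j _ => ?_).trans
    (sm.sum_le_tsum s fun _ _ => by positivity)⟩
  have a1 := hm ((j + 1) ^ 2)
  have j0 : (0 : ℝ) ≤ j := Nat.cast_nonneg j
  have a2 : ((j : ℝ) + 1) ^ 2 + 1 ≤ Real.exp (j + 1 + (j + 1)) := by
    rw [Real.exp_add]; nlinarith [Real.add_one_le_exp ((j : ℝ) + 1)]
  push_cast at a1 ⊢
  calc _ ≤ 20 * Real.exp (j + 1 + (j + 1)) * Real.exp ((j + 1) ^ 2 + 104) *
        Real.exp (-(1.08 * j ^ 2)) := by
        gcongr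
        exact a1.trans (by gcongr)
    _ ≤ _ := by
        rw [mul_assoc, mul_assoc, mul_assoc, ← Real.exp_add, ← Real.exp_add, ← Real.exp_add]
        refine mul_le_mul_of_nonneg_left (Real.exp_le_exp.2 ?_) (by norm_num)
        nlinarith [sq_nonneg ((j : ℝ) - 125 / 4)]

theorem main : ∃ K : ℕ, 10 ≤ K ∧ ∀ N0 : ℕ, ∃ h H : ℕ, N0 ≤ H ∧ 2 * h = K * H ∧ ∃ A : Finset ℕ,
    A ⊆ Ioc (h - H) (2 * h) ∧ (h : ℝ) + 11 / 20 * H ≤ A.card ∧
    ∀ d x y : ℕ, 0 < x → x < y → d * x * y ∈ A → d * x * (x + y) ∈ A → d * y * (x + y) ∉ A := by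
  classical
  choose P m hP l1 l2 l3 l4 using level
  obtain ⟨C, hC⟩ := summ m l4
  obtain ⟨j0, hj0⟩ : ∃ j0 : ℕ, (799999 : ℝ) ≤ j0 := exists_nat_ge _
  set m0 := m ((j0 + 1) ^ 2) with hm0
  obtain ⟨K, hK1⟩ := exists_nat_ge (max 10 (10 * (50 * ((m0 : ℝ) + 4) + 2700 * C)))
  have hK : 10 ≤ K := by exact_mod_cast (le_max_left _ _).trans hK1
  have hK2 := (le_max_right _ _).trans hK1
  have K0 : (0 : ℝ) < K := by positivity
  obtain ⟨D, D0, hD⟩ := table (1 / (10 * K * (K * 2 ^ m0 : ℕ))) (by positivity)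
  refine ⟨K, hK, fun N0 => ?_⟩
  set r := D * (N0 + 1) with hr
  have r1 : N0 + 1 ≤ r := Nat.le_mul_of_pos_left _ D0
  set h := 2 * K ^ 2 * r ^ 2 with hh
  set H := 4 * K * r ^ 2 with hH
  have e : 2 * h = K * H := by rw [hh, hH]; ring
  have e2 : 2 * h = (2 * K * r) ^ 2 := by rw [hh]; ring
  have e3 : 5 * H ≤ h := by nlinarith
  have H1 : N0 + 1 ≤ H := by nlinarith
  set G : ℕ → Prop := fun a => ∀ j, j0 + 1 ≤ j → 2 ^ m (j ^ 2) ≤ H →
    om (P (j ^ 2)) a ≤ 101 / 100 * ∑ p ∈ P (j ^ 2), 1 / (p : ℝ) with hG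
  have tj : ∀ j, j < 2 ^ m (j ^ 2) := fun j =>
    lt_of_le_of_lt (Nat.le_self_pow two_ne_zero j) (tau _ _ _ (l3 (j ^ 2))).1
  have bad : ∀ u J, H ≤ J → (((Ico u (u + J)).filter fun a => ¬ G a).card : ℝ) ≤ J / 20 := by
    intro u J hJ
    have a1 : ((Ico u (u + J)).filter fun a => ¬ G a) ⊆
        ((Ioo j0 (H + 1)).filter fun j => 2 ^ m (j ^ 2) ≤ H).biUnion fun j =>
          (Ico u (u + J)).filter fun a =>
            ¬ om (P (j ^ 2)) a ≤ 101 / 100 * ∑ p ∈ P (j ^ 2), 1 / (p : ℝ) := by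
      intro a ha
      obtain ⟨b1, b2⟩ := mem_filter.1 ha
      simp only [hG, not_forall] at b2
      obtain ⟨j, j1, j2, j3⟩ := b2
      have := tj j
      exact mem_biUnion.2 ⟨j, mem_filter.2 ⟨mem_Ioo.2 ⟨by omega, by omega⟩, j2⟩,
        mem_filter.2 ⟨b1, j3⟩⟩
    refine (Nat.cast_le.2 ((card_le_card a1).trans card_biUnion_le)).trans ?_
    rw [Nat.cast_sum]
    have a2 := mul_le_mul_of_nonneg_left (sum_Ioo_inv_sq_le (α := ℝ) j0 (H + 1))
      (by positivity : (0 : ℝ) ≤ 20000 * J)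
    refine le_trans ((sum_le_sum fun j hj => ?_).trans (sum_le_sum_of_subset_of_nonneg
      (filter_subset _ _) fun _ _ _ => by positivity)) ((mul_sum _ _ _).ge.trans (a2.trans ?_))
    · obtain ⟨j1, j2⟩ := mem_filter.1 hj
      have j3 := (mem_Ioo.1 j1).1
      refine (cheb _ (fun p hp => (hP _ p hp).1) u J (j ^ 2 : ℕ)
        (by exact_mod_cast Nat.one_le_pow _ _ (by omega)) (l1 _)
        ((tau _ _ _ (l3 _)).2.trans (Nat.cast_le.2 (j2.trans hJ)))).trans_eq ?_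
      push_cast; ring
    · rw [← mul_div_assoc, div_le_div_iff₀ (by positivity) (by norm_num)]
      nlinarith [Nat.cast_nonneg (α := ℝ) J]
  have blk : ∀ t ∈ (range (2 * h)).filter fun t => 2 ^ m0 * (2 ^ t) ^ 2 ≤ H,
      ((R h H (2 ^ t) G).card : ℝ) ≤
      (if K ≤ 10 * 2 ^ t ∧ 2 ^ t < 2 ^ m0 * K then 50 * (H : ℝ) / K else 0) +
      ∑ j ∈ range (H + 1),
        ((if K ≤ 2 ^ t ∧ 2 ^ t < 2 ^ m ((j + 1) ^ 2) * K then
          1350 * H / K * Real.exp (-(1.08 * (j ^ 2 : ℕ))) else 0) +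
        if (2 ^ t) ^ 2 ≤ H ∧ H < 2 ^ m ((j + 1) ^ 2) * (2 ^ t) ^ 2 then
          1350 * H / K * Real.exp (-(1.08 * (j ^ 2 : ℕ))) else 0) := by
    intro t ht
    have t1 := (mem_filter.1 ht).2
    have t2 : (2 ^ t) ^ 2 ≤ H := (Nat.le_mul_of_pos_left _ (by positivity)).trans t1
    by_cases c1 : 2 ^ t < 2 ^ m0 * K
    · simp only [c1, and_true]
      exact (triv h H K _ G hK e (by positivity) t2).trans
        (le_add_of_nonneg_right (sum_nonneg fun _ _ => by positivity))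
    have t3 : K ≤ 2 ^ t := (Nat.le_mul_of_pos_left _ (by positivity)).trans (not_lt.1 c1)
    obtain ⟨j, j1, j2, j3⟩ : ∃ j, j0 + 1 ≤ j ∧
        (2 ^ m (j ^ 2) * K ≤ 2 ^ t ∧ 2 ^ m (j ^ 2) * (2 ^ t) ^ 2 ≤ H) ∧
        ¬ (2 ^ m ((j + 1) ^ 2) * K ≤ 2 ^ t ∧ 2 ^ m ((j + 1) ^ 2) * (2 ^ t) ^ 2 ≤ H) := by
      by_contra hc
      have : ∀ j, j0 + 1 ≤ j →
          2 ^ m (j ^ 2) * K ≤ 2 ^ t ∧ 2 ^ m (j ^ 2) * (2 ^ t) ^ 2 ≤ H := fun j hj => by
        induction j, hj using Nat.le_induction with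
        | base => exact ⟨not_lt.1 c1, t1⟩
        | succ j hj ih => by_contra h; exact hc ⟨j, hj, ih, h⟩
      have b1 := (Nat.le_mul_of_pos_right _ (by positivity)).trans
        (this (j0 + 1 + H) (by omega)).2
      have := tj (j0 + 1 + H)
      omega
    have j4 := (Nat.le_mul_of_pos_right _ (by positivity)).trans j2.2
    have b := block h H K (2 ^ t) G hK e (by positivity) _ (hP _) (j ^ 2) _ (l1 _) (l2 _) (l3 _)
      (fun a ha => ha j j1 j4) (by positivity) j2.1 j2.2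
    refine le_add_of_nonneg_of_le (by positivity) (b.trans (le_trans ?_ (single_le_sum
      (fun _ _ => by positivity) (mem_range.2 (by have := tj j; omega : j < H + 1)))))
    simp only [t2, t3, true_and]
    rcases not_and_or.1 j3 with j5 | j5
    · rw [if_pos (not_le.1 j5)]; exact le_add_of_nonneg_right (by positivity)
    · rw [if_pos (not_le.1 j5)]; exact le_add_of_nonneg_left (by positivity)
  have H0 : (0 : ℝ) ≤ H / K := by positivity
  have tot : ∑ t ∈ (range (2 * h)).filter fun t => 2 ^ m0 * (2 ^ t) ^ 2 ≤ H,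
      ((R h H (2 ^ t) G).card : ℝ) ≤ H / 10 := by
    refine (sum_le_sum blk).trans ?_
    rw [sum_add_distrib, sum_comm]
    simp only [sum_add_distrib]
    rw [← sum_add_distrib]
    refine (add_le_add (few' _ _ (m0 + 4) _ (by positivity) fun s t h1 h2 _ => ?_)
      (sum_le_sum fun j _ => add_le_add
        (few' _ _ (m ((j + 1) ^ 2)) _ (by positivity) fun s t h1 h2 _ => ?_)
        (few' _ _ (m ((j + 1) ^ 2)) _ (by positivity) fun s t h1 h2 h3 => ?_))).trans ?_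
    · have := Nat.mul_le_mul_left (2 ^ m0) h1.1
      rw [pow_add]; nlinarith [h2.2]
    · exact h2.2.trans_le (Nat.mul_le_mul_left _ h1.1)
    · have b1 := Nat.mul_le_mul_left (2 ^ m ((j + 1) ^ 2) * 2 ^ s)
        (Nat.pow_le_pow_right two_pos h3)
      exact lt_of_mul_lt_mul_right (a := 2 ^ t) (by nlinarith [h1.2, h2.1]) (by positivity)
    · have b1 := mul_le_mul_of_nonneg_left (hC (range (H + 1))) (by positivity : 0 ≤ 2700 * (H / K : ℝ))
      rw [mul_sum] at b1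
      refine (add_le_add le_rfl ((sum_le_sum fun j _ => le_of_eq (by ring)).trans b1)).trans ?_
      have b2 := mul_le_mul_of_nonneg_left hK2 H0
      rw [div_mul_cancel₀ _ K0.ne'] at b2
      push_cast
      rw [mul_div_assoc]
      linarith
  set Pr := (range (2 * K * r) ×ˢ range (2 * K * r)).image fun y : ℕ × ℕ => y.1 * y.2 with hPr
  set R2 := (range (K * 2 ^ m0) ×ˢ Pr).image fun y : ℕ × ℕ => y.1 * y.2 with hR2
  have c2 : (R2.card : ℝ) ≤ H / 10 := by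
    have b1 := hD (2 * K * r) ⟨2 * K * (N0 + 1), by rw [hr]; ring⟩
    refine (Nat.cast_le.2 card_image_le).trans ?_
    rw [card_product, card_range, Nat.cast_mul]
    refine (mul_le_mul_of_nonneg_left b1 (by positivity)).trans_eq ?_
    rw [← Nat.cast_pow, ← e2, e]
    push_cast; field_simp
  set U := ((range (2 * h)).filter fun t => 2 ^ m0 * (2 ^ t) ^ 2 ≤ H).biUnion
    fun t => R h H (2 ^ t) G with hU
  have c3 : (U.card : ℝ) ≤ H / 10 := by
    refine (Nat.cast_le.2 card_biUnion_le).trans ?_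
    rwa [Nat.cast_sum]
  set B := ((Ico (h - H + 1) (h - H + 1 + H)).filter fun a => ¬ G a) ∪
    ((Ico (2 * h - 4 * H + 1) (2 * h - 4 * H + 1 + 4 * H)).filter fun a => ¬ G a) ∪ R2 ∪ U
    with hB
  refine ⟨h, H, by omega, e, Ioc (h - H) (2 * h) \ B, sdiff_subset, ?_, ?_⟩
  · have b1 := le_card_sdiff B (Ioc (h - H) (2 * h))
    have b3 : (B.card : ℝ) ≤ H / 20 + (4 * H : ℕ) / 20 + H / 10 + H / 10 := by
      refine (Nat.cast_le.2 ((card_union_le _ _).trans (Nat.add_le_add_right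
        ((card_union_le _ _).trans (Nat.add_le_add_right (card_union_le _ _) _)) _))).trans ?_
      rw [Nat.cast_add, Nat.cast_add, Nat.cast_add]
      exact add_le_add (add_le_add (add_le_add (bad _ _ le_rfl) (bad _ _ (by omega))) c2) c3
    rw [Nat.card_Ioc] at b1
    have b4 : h + H ≤ (Ioc (h - H) (2 * h) \ B).card + B.card := by omega
    have b5 := (Nat.cast_le (α := ℝ)).2 b4
    push_cast at b3 b5
    linarith
  intro d x y x0 xy ha hb hc
  obtain ⟨a1, a2⟩ := mem_sdiff.1 ha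
  obtain ⟨b1, b2⟩ := mem_sdiff.1 hb
  have c1 := (mem_Ioc.1 (mem_sdiff.1 hc).1).2
  obtain ⟨a0, -⟩ := mem_Ioc.1 a1
  have b0 := (mem_Ioc.1 b1).2
  have d0 : 0 < d := Nat.pos_of_ne_zero (by rintro rfl; simp at a0)
  simp only [hB, mem_union, mem_filter, mem_Ico, not_or, not_and, not_not] at a2 b2
  have a3 : d * x * y ≤ h := by nlinarith [Nat.mul_le_mul_left (d * y) xy.le]
  have b3 : 4 * (d * x * y) ≤ d * x * (x + y) + d * y * (x + y) := by
    obtain ⟨z, rfl⟩ := Nat.exists_eq_add_of_le xy.le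
    nlinarith [Nat.zero_le (d * z ^ 2)]
  have g1 : G (d * x * y) := a2.1.1.1 ⟨by omega, by omega⟩
  have g2 : G (d * x * (x + y)) := b2.1.1.2 ⟨by omega, by omega⟩
  have x1 := Nat.pow_log_le_self 2 x0.ne'
  have x2 := Nat.lt_pow_succ_log_self one_lt_two x
  have x3 := Nat.lt_two_pow_self (n := Nat.log 2 x)
  have x4 : x * x ≤ x * y := Nat.mul_le_mul_left _ xy.le
  have x5 : x * y ≤ d * x * y := by rw [mul_assoc]; exact Nat.le_mul_of_pos_left _ d0
  by_cases c : 2 ^ m0 * (2 ^ Nat.log 2 x) ^ 2 ≤ H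
  · exact a2.2 (mem_biUnion.2 ⟨Nat.log 2 x, mem_filter.2 ⟨mem_range.2 (by nlinarith), c⟩,
      mem_filter.2 ⟨mem_Ioc.2 ⟨a0, a3⟩, g1, x, d, y, x1, by omega, xy, rfl, c1, g2⟩⟩)
  · have y1 : y < 2 * K * r := lt_of_pow_lt_pow_left₀ 2 (by positivity) (by
      have : y * (x + y) ≤ d * y * (x + y) := by
        rw [mul_assoc]; exact Nat.le_mul_of_pos_left _ d0
      nlinarith)
    refine a2.1.2 (mem_image.2 ⟨(d, x * y), mem_product.2 ⟨mem_range.2 ?_, mem_image.2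
      ⟨(x, y), mem_product.2 ⟨mem_range.2 (xy.trans y1), mem_range.2 y1⟩, rfl⟩⟩,
      (mul_assoc _ _ _).symm⟩)
    have z1 := Nat.mul_le_mul_left d ((Nat.pow_le_pow_left x1 2).trans (by nlinarith : x ^ 2 ≤ x * y))
    have z2 := Nat.mul_le_mul_left K (not_le.1 c).le
    exact lt_of_mul_lt_mul_right (a := (2 ^ Nat.log 2 x) ^ 2) (by nlinarith) (by positivity)

end Pool.Agent.H59.EG
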