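import Mathlib
import Pool.Agent.H59.EG3

/-! Variance bound on rough numbers, the upper Mertens bound and sieving levels above `z`. -/

set_option autoImplicit false

namespace Pool.Agent.H59.EG

open Finset Pool.Agent.H59.PureSieve Pool.Agent.H59.MulTable

lemma cnt2 (ρ : ℕ → ℝ) (M : ℕ) (V : ℝ) (hM : 0 < M) (h0 : ∀ x, 0 ≤ ρ x)
    (hp : Function.Periodic ρ M) (hV : ∑ x ∈ range M, ρ x = V * M) (m u H : ℕ) (hm : 0 < m)
    (hc : Nat.Coprime m M) :
    |∑ x ∈ Ico u (u + H), ρ x * (if m ∣ x then (1 : ℝ) else 0) - H * V * (1 / m)| ≤ V * M := by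
  rw [sum_Ico_eq_sum_range, Nat.add_sub_cancel_left]
  have pp : Function.Periodic (fun x => ρ x * (if m ∣ x then (1 : ℝ) else 0)) (m * M) := fun x => by
    simp only [Nat.dvd_add_left (Dvd.intro M rfl)]
    rw [show ρ (x + m * M) = ρ x from hp.nat_mul m x]
  have := periodic_count (fun x => ρ (u + x) * if m ∣ u + x then (1 : ℝ) else 0) (m * M)
    (by positivity) (fun x => by simp only [← add_assoc]; exact pp _)
    (fun x => mul_nonneg (h0 _) (by positivity)) H
  rw [shift _ _ u (by positivity) pp, sum_crt ρ _ M m hm hc hp (ite_periodic m 1 0),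
    sum_ite_dvd m hm, hV] at this
  have e : (H : ℝ) * (V * M * (1 + (m - 1) * 0) / (m * M : ℕ)) = H * V * (1 / m) := by
    push_cast; field_simp; ring
  rw [e] at this
  simpa using this

lemma var2 (ρ : ℕ → ℝ) (M : ℕ) (V : ℝ) (hM : 0 < M) (h0 : ∀ x, 0 ≤ ρ x)
    (hp : Function.Periodic ρ M) (hV : ∑ x ∈ range M, ρ x = V * M) (V0 : 0 ≤ V)
    (P : Finset ℕ) (hP : ∀ p ∈ P, p.Prime ∧ p.Coprime M) (u H : ℕ) :
    ∑ x ∈ Ico u (u + H), ρ x * (om P x - ∑ p ∈ P, 1 / (p : ℝ)) ^ 2 ≤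
      H * V * ∑ p ∈ P, 1 / (p : ℝ) + 3 * (V * M) * (P.card : ℝ) ^ 2 := by
  simp only [om, ← sum_sub_distrib, sq, sum_mul_sum]
  simp only [mul_sum]
  rw [sum_comm, show 3 * (V * M) * ((P.card : ℝ) * P.card) = ∑ p ∈ P, ∑ q ∈ P, 3 * (V * M) by
    simp; ring, ← sum_add_distrib]
  refine sum_le_sum fun p hp' => ?_
  rw [sum_comm, show (H : ℝ) * V * (1 / p) =
    ∑ q ∈ P, if p = q then (H : ℝ) * V * (1 / p) else 0 by simp [hp'], ← sum_add_distrib]
  refine sum_le_sum fun q hq => ?_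
  have a0 := abs_le.1 (cnt2 ρ M V hM h0 hp hV 1 u H one_pos (by simp))
  have a1 := abs_le.1 (cnt2 ρ M V hM h0 hp hV p u H (hP p hp').1.pos (hP p hp').2)
  have a2 := abs_le.1 (cnt2 ρ M V hM h0 hp hV q u H (hP q hq).1.pos (hP q hq).2)
  have b1 := BH.inv_le_half (hP p hp').1
  have b2 := BH.inv_le_half (hP q hq).1
  have c1 : (0 : ℝ) ≤ 1 / p := by positivity
  have c2 : (0 : ℝ) ≤ 1 / q := by positivity
  have c3 : 0 ≤ V * M := by positivity
  have c4 : 0 ≤ H * V := by positivity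
  simp only [one_dvd, if_true, mul_one, Nat.cast_one, div_one] at a0
  rw [sum_congr rfl (g := fun x => ρ x * ((if p ∣ x then (1 : ℝ) else 0) * if q ∣ x then 1 else 0) -
    1 / q * (ρ x * if p ∣ x then 1 else 0) - 1 / p * (ρ x * if q ∣ x then 1 else 0) +
      1 / p * (1 / q) * ρ x) fun x _ => by ring]
  simp only [sum_add_distrib, sum_sub_distrib, ← mul_sum]
  split_ifs with h
  · subst h
    rw [sum_congr rfl (g := fun x => ρ x * if p ∣ x then (1 : ℝ) else 0)
      fun x _ => by split_ifs <;> simp]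
    nlinarith [mul_le_mul_of_nonneg_left a1.1 c1, mul_le_mul_of_nonneg_left a0.2 (mul_nonneg c1 c1),
      mul_nonneg c4 (mul_nonneg c1 c1), mul_le_mul_of_nonneg_left b1 c3,
      mul_le_mul_of_nonneg_left (mul_le_mul b1 b1 c1 (by norm_num)) c3]
  · have cp := (Nat.coprime_primes (hP p hp').1 (hP q hq).1).2 h
    have a3 := abs_le.1 (cnt2 ρ M V hM h0 hp hV (p * q) u H
      (Nat.mul_pos (hP p hp').1.pos (hP q hq).1.pos) ((hP p hp').2.mul_left (hP q hq).2))
    rw [sum_congr rfl (g := fun x => ρ x * if p * q ∣ x then (1 : ℝ) else 0) fun x _ => by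
      by_cases h1 : p ∣ x <;> by_cases h2 : q ∣ x
      · simp [h1, h2, cp.mul_dvd_of_dvd_of_dvd h1 h2]
      · simp [h2, show ¬ p * q ∣ x from fun h => h2 (Dvd.dvd.trans (Dvd.intro_left _ rfl) h)]
      · simp [h1, show ¬ p * q ∣ x from fun h => h1 (Dvd.dvd.trans (Dvd.intro _ rfl) h)]
      · simp [h1, show ¬ p * q ∣ x from fun h => h1 (Dvd.dvd.trans (Dvd.intro _ rfl) h)]]
    rw [show (1 : ℝ) / (p * q : ℕ) = 1 / p * (1 / q) by push_cast; ring] at a3
    nlinarith [mul_le_mul_of_nonneg_left a1.1 c2, mul_le_mul_of_nonneg_left a2.1 c1,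
      mul_le_mul_of_nonneg_left a0.2 (mul_nonneg c1 c2), mul_le_mul_of_nonneg_left b1 c3,
      mul_le_mul_of_nonneg_left b2 c3,
      mul_le_mul_of_nonneg_left (mul_le_mul b1 b2 c2 (by norm_num)) c3]

lemma cheb2 (ρ : ℕ → ℝ) (M : ℕ) (V : ℝ) (hM : 0 < M) (h0 : ∀ x, 0 ≤ ρ x)
    (hp : Function.Periodic ρ M) (hV : ∑ x ∈ range M, ρ x = V * M) (V0 : 0 ≤ V)
    (P : Finset ℕ) (hP : ∀ p ∈ P, p.Prime ∧ p.Coprime M) (u H : ℕ) (l : ℝ) (hl : 1 ≤ l)
    (h1 : l ≤ ∑ p ∈ P, 1 / (p : ℝ)) (h2 : 3 * M * (P.card : ℝ) ^ 2 ≤ H) :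
    ∑ x ∈ Ico u (u + H), (if om P x ≤ 10001 / 10000 * ∑ p ∈ P, 1 / (p : ℝ) then 0 else ρ x) ≤
      2 * 10 ^ 8 * (H * V) / l := by
  have v := var2 ρ M V hM h0 hp hV V0 P hP u H
  set L := ∑ p ∈ P, 1 / (p : ℝ)
  set c := ∑ x ∈ Ico u (u + H), (if om P x ≤ 10001 / 10000 * L then 0 else ρ x)
  have c0 : 0 ≤ c := sum_nonneg fun x _ => by split_ifs; exacts [le_rfl, h0 x]
  have a : c * (L / 10000) ^ 2 ≤ _ := le_trans (by
    rw [sum_mul]
    refine sum_le_sum fun x _ => ?_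
    split_ifs with h
    · rw [zero_mul]; exact mul_nonneg (h0 x) (sq_nonneg _)
    · exact mul_le_mul_of_nonneg_left
        (pow_le_pow_left₀ (by linarith) (by linarith [not_le.1 h]) 2) (h0 x)) v
  have H0 : (0 : ℝ) ≤ H * V := by positivity
  have b := mul_le_mul_of_nonneg_left h2 V0
  rw [le_div_iff₀ (by linarith)]
  have : (c * L) * L ≤ (2 * 10 ^ 8 * (H * V)) * L := by
    nlinarith [mul_le_mul_of_nonneg_left (hl.trans h1) H0]
  nlinarith [le_of_mul_le_mul_right this (by linarith)]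

lemma mert (N : ℕ) (hN : 2 ≤ N) :
    ∑ p ∈ N.primesLE, 1 / (p : ℝ) ≤ Real.log (Real.log N) + 5 := by
  have key : ∀ n : ℕ, 2 ≤ n → ∑ p ∈ n.primesLE, 1 / (p : ℝ) -
      (∑ p ∈ n.primesLE, Real.log p / p) / Real.log n ≤
      Real.log (Real.log n) - 2 / Real.log n + 4 := by
    intro n hn
    induction n, hn using Nat.le_induction with
    | base =>
      have l := Real.log_two_gt_d9
      have a1 := Real.one_sub_inv_le_log_of_pos (by linarith : 0 < Real.log 2)
      have a2 : (Real.log 2)⁻¹ ≤ 3 / 2 := by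
        rw [inv_le_comm₀ (by linarith) (by norm_num)]; linarith
      rw [show Nat.primesLE 2 = {2} by decide]
      simp only [sum_singleton, Nat.cast_ofNat]
      rw [show Real.log 2 / 2 / Real.log 2 = 1 / 2 by field_simp, div_eq_mul_inv 2]
      linarith
    | succ n hn ih =>
      have n1 : (1 : ℝ) < n := by exact_mod_cast hn
      have u0 := Real.log_pos n1
      have u1 : Real.log n ≤ Real.log (n + 1 : ℕ) :=
        Real.log_le_log (by linarith) (by push_cast; linarith)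
      have m := BH.mertens n (by omega)
      have a1 := Real.one_sub_inv_le_log_of_pos
        (div_pos (u0.trans_le u1) u0)
      rw [Real.log_div (u0.trans_le u1).ne' u0.ne', inv_div] at a1
      have a2 : 0 ≤ 1 / Real.log n - 1 / Real.log (n + 1 : ℕ) :=
        sub_nonneg.2 (one_div_le_one_div_of_le u0 u1)
      have a3 := mul_le_mul_of_nonneg_right m a2
      have e : ∑ p ∈ (n + 1).primesLE, 1 / (p : ℝ) -
          (∑ p ∈ (n + 1).primesLE, Real.log p / p) / Real.log (n + 1 : ℕ) =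
          ∑ p ∈ n.primesLE, 1 / (p : ℝ) -
          (∑ p ∈ n.primesLE, Real.log p / p) / Real.log (n + 1 : ℕ) := by
        by_cases hp : (n + 1).Prime
        · have : (n + 1).primesLE = insert (n + 1) n.primesLE := by
            ext p; simp only [Nat.mem_primesLE, mem_insert]
            constructor
            · rintro ⟨h1, h2⟩
              rcases Nat.lt_or_ge n p with h | h
              · left; omega
              · exact Or.inr ⟨h, h2⟩
            · rintro (rfl | h)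
              · exact ⟨le_rfl, hp⟩
              · exact ⟨by omega, h.2⟩
          have nm : n + 1 ∉ n.primesLE := by simp [Nat.mem_primesLE]
          have := (u0.trans_le u1).ne'
          rw [‹(n + 1).primesLE = _›, sum_insert nm, sum_insert nm]
          field_simp; ring
        · have : (n + 1).primesLE = n.primesLE := by
            ext p; simp only [Nat.mem_primesLE]
            constructor
            · rintro ⟨h1, h2⟩
              exact ⟨by by_contra h; exact hp ((by omega : p = n + 1) ▸ h2), h2⟩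
            · exact fun h => ⟨by omega, h.2⟩
          rw [this]
      rw [e]
      have e2 : (Real.log n + 2) * (1 / Real.log n - 1 / Real.log (n + 1 : ℕ)) =
          1 - Real.log n / Real.log (n + 1 : ℕ) + 2 / Real.log n - 2 / Real.log (n + 1 : ℕ) := by
        field_simp; ring
      rw [e2, mul_sub, mul_one_div, mul_one_div] at a3
      linarith
  have u0 : 0 < Real.log N := Real.log_pos (by exact_mod_cast hN)
  have a := div_le_div_of_nonneg_right (BH.mertens N (by omega)) u0.le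
  rw [add_div, div_self u0.ne'] at a
  linarith [key N hN]

lemma Vlow (N : ℕ) (hN : 2 ≤ N) :
    Real.exp (-(∑ p ∈ N.primesLE, 1 / (p : ℝ) + 2)) ≤ BH.V N.primesLE := by
  have hQ : ∀ q ∈ N.primesLE, q.Prime := fun q hq => (Nat.mem_primesLE.1 hq).2
  have h2 : ∑ p ∈ N.primesLE, ((p : ℝ) ^ 2)⁻¹ ≤ 1 := by
    have a := sum_Ioc_inv_sq_le_sub (α := ℝ) (k := 1) (n := N) one_ne_zero (by omega)
    have b := sum_le_sum_of_subset_of_nonneg (s := N.primesLE) (t := Ioc 1 N)
      (f := fun p : ℕ => ((p : ℝ) ^ 2)⁻¹) (fun p hp => mem_Ioc.2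
        ⟨(hQ p hp).one_lt, (Nat.mem_primesLE.1 hp).1⟩) fun _ _ _ => by positivity
    have : (0 : ℝ) ≤ (N : ℝ)⁻¹ := by positivity
    simp only [Nat.cast_one, inv_one] at a
    linarith
  have h3 : Real.exp (-∑ p ∈ N.primesLE, (1 / (p : ℝ) + 2 * ((p : ℝ) ^ 2)⁻¹)) ≤
      BH.V N.primesLE := by
    rw [← sum_neg_distrib, Real.exp_sum]
    refine prod_le_prod (fun _ _ => (Real.exp_pos _).le) fun q hq => ?_
    have a1 := BH.inv_le_half (hQ q hq)
    have a0 : (0 : ℝ) ≤ 1 / q := by positivity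
    rw [← one_div, ← one_div_pow, Real.exp_neg, inv_le_iff_one_le_mul₀ (Real.exp_pos _)]
    set t := 1 / (q : ℝ)
    nlinarith [mul_le_mul_of_nonneg_left (Real.add_one_le_exp (t + 2 * t ^ 2))
      (by linarith : 0 ≤ 1 - t), mul_nonneg (sq_nonneg t) (by linarith : 0 ≤ 1 - 2 * t)]
  rw [sum_add_distrib, ← mul_sum] at h3
  exact (Real.exp_le_exp.2 (by linarith)).trans h3

theorem level2 (z k n : ℕ) (hz : 2 ≤ z) (hk : ∑ p ∈ z.primesLE, 1 / (p : ℝ) ≤ k) :
    ∃ (P : Finset ℕ) (m : ℕ), (∀ p ∈ P, p.Prime ∧ z < p ∧ p ≤ 2 ^ m) ∧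
    (n : ℝ) ≤ ∑ p ∈ P, 1 / (p : ℝ) ∧ ∑ p ∈ P, 1 / (p : ℝ) ≤ (n + 1 : ℕ) ∧
    3 * Real.exp (k + n + 1 : ℕ) * ((P.card + z : ℕ) + 1 : ℝ) ^ (6 * (k + n + 1)) ≤ (2 ^ m : ℕ) ∧
    (m : ℝ) ≤ 20 * (k + n + 1) * Real.exp (k + n + 4) := by
  set Q : ℕ → Finset ℕ := fun w => (range w).filter fun p => p.Prime ∧ z < p with hQ
  set R := Real.exp (k + n + 3) with hR
  have n0 : (0 : ℝ) ≤ n := Nat.cast_nonneg n
  have k0 : (0 : ℝ) ≤ k := Nat.cast_nonneg k
  have R1 : (k : ℝ) + n + 4 ≤ R := by linarith [Real.add_one_le_exp ((k : ℝ) + n + 3)]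
  set W := ⌈Real.exp R⌉₊ with hW
  have W1 : Real.exp R ≤ W := Nat.le_ceil _
  have W2 : (W : ℝ) < Real.exp R + 1 := Nat.ceil_lt_add_one (by positivity)
  have R2 : R + 1 ≤ Real.exp R := Real.add_one_le_exp R
  have z1 : (z : ℝ) ≤ Real.exp R := (Real.log_le_iff_le_exp (by positivity)).1
    ((loglog z hz).trans (Real.exp_le_exp.2 (by linarith)))
  have ex : (n : ℝ) ≤ ∑ p ∈ Q (W + 1), 1 / (p : ℝ) := by
    have a1 := loglog W (by exact_mod_cast (by linarith : (2 : ℝ) ≤ W))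
    have a2 := Real.exp_le_exp.1
      (((Real.le_log_iff_exp_le (by linarith)).2 W1).trans a1)
    have a3 : ∑ p ∈ W.primesLE, 1 / (p : ℝ) ≤ ∑ p ∈ Q (W + 1) ∪ z.primesLE, 1 / (p : ℝ) :=
      sum_le_sum_of_subset_of_nonneg (fun p hp => by
        have := Nat.mem_primesLE.1 hp
        simp only [hQ, mem_union, mem_filter, mem_range, this.2, true_and, Nat.mem_primesLE,
          and_true]
        omega)
        fun _ _ _ => by positivity
    have a4 := sum_union_inter (s₁ := Q (W + 1)) (s₂ := z.primesLE) (f := fun p => 1 / (p : ℝ))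
    have a5 : 0 ≤ ∑ p ∈ Q (W + 1) ∩ z.primesLE, 1 / (p : ℝ) :=
      sum_nonneg fun _ _ => by positivity
    linarith
  have hex : ∃ w, (n : ℝ) ≤ ∑ p ∈ Q w, 1 / (p : ℝ) := ⟨_, ex⟩
  have w1 := Nat.find_min' hex ex
  have w2 : ((Q (Nat.find hex)).card : ℝ) ≤ W + 1 := by
    exact_mod_cast ((card_filter_le _ _).trans (by simp)).trans w1
  have e2 : (3 : ℝ) ≤ Real.exp 2 := by linarith [Real.add_one_le_exp 2]
  have two : ∀ y : ℝ, y ≤ 10 * (k + n + 1) * (R + 2) →
      Real.exp y ≤ (2 ^ ⌈15 * ((k : ℝ) + n + 1) * (R + 2)⌉₊ : ℕ) := fun y hy => by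
    push_cast
    rw [← Real.exp_log two_pos, ← Real.exp_nat_mul, Real.exp_log two_pos]
    refine Real.exp_le_exp.2 ?_
    have a4 := Nat.le_ceil (15 * ((k : ℝ) + n + 1) * (R + 2))
    nlinarith [Real.log_two_gt_d9, mul_nonneg (by linarith : 0 ≤ (k : ℝ) + n + 1)
      (by linarith : 0 ≤ R + 2)]
  have kn := mul_nonneg (add_nonneg k0 n0) (by linarith : 0 ≤ R)
  refine ⟨Q (Nat.find hex), ⌈15 * ((k : ℝ) + n + 1) * (R + 2)⌉₊, fun p hp =>
    ⟨(mem_filter.1 hp).2.1, (mem_filter.1 hp).2.2, ?_⟩, Nat.find_spec hex, ?_, ?_, ?_⟩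
  · have a1 : (p : ℝ) ≤ W := by
      have := mem_range.1 (mem_filter.1 hp).1
      exact_mod_cast (by omega : p ≤ W)
    have a2 := two (R + 2) (by nlinarith)
    rw [Real.exp_add] at a2
    exact Nat.cast_le.1 (le_trans (by nlinarith) a2)
  · rcases h : Nat.find hex with _ | w
    · simp [hQ]; positivity
    · have a1 := not_le.1 (Nat.find_min hex (m := w) (by omega))
      have a2 : (1 : ℝ) / w ≤ 1 := by simpa using Nat.cast_inv_le_one (α := ℝ) w
      simp only [hQ, range_add_one, filter_insert] at a1 ⊢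
      push_cast
      split_ifs
      · rw [sum_insert (by simp)]; linarith
      · linarith
  · have a1 : (((Q (Nat.find hex)).card + z : ℕ) : ℝ) + 1 ≤ Real.exp (R + 2) := by
      rw [Real.exp_add]; push_cast; nlinarith
    have a2 := pow_le_pow_left₀ (by positivity) a1 (6 * (k + n + 1))
    rw [← Real.exp_nat_mul] at a2
    refine (mul_le_mul (mul_le_mul_of_nonneg_right e2 (by positivity)) a2 (by positivity)
      (by positivity)).trans ?_
    rw [← Real.exp_add, ← Real.exp_add]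
    refine two _ ?_
    push_cast
    nlinarith
  · have a4 := Nat.ceil_lt_add_one (by positivity : 0 ≤ 15 * ((k : ℝ) + n + 1) * (R + 2))
    rw [show (k : ℝ) + n + 4 = k + n + 3 + 1 by ring, Real.exp_add]
    nlinarith [mul_le_mul_of_nonneg_left (Real.add_one_le_exp 1)
      (by positivity : 0 ≤ ((k : ℝ) + n + 1) * R)]

/-- The weight `(3/4) ^ ω`. -/
noncomputable def wt (P : Finset ℕ) (a : ℕ) : ℝ := ∏ p ∈ P, if p ∣ a then 3 / 4 else 1

lemma wt_pos (P : Finset ℕ) (a : ℕ) : 0 < wt P a := prod_pos fun _ _ => by positivity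

lemma moment (P : Finset ℕ) (hP : ∀ p ∈ P, p.Prime) (N : ℕ) :
    ∑ a ∈ Ioc 0 N, (wt P a)⁻¹ ≤ N * Real.exp (1 / 3 * ∑ p ∈ P, 1 / (p : ℝ)) := by
  have e : ∀ a, (wt P a)⁻¹ = ∑ S ∈ P.powerset, ∏ p ∈ S, if p ∣ a then (1 / 3 : ℝ) else 0 := by
    intro a
    rw [wt, ← prod_inv_distrib, ← prod_one_add]
    exact prod_congr rfl fun p _ => by split_ifs <;> norm_num
  simp only [e]
  rw [sum_comm, mul_sum P]
  refine le_trans ?_ (mul_le_mul_of_nonneg_left (Real.prod_one_add_le_exp_sum P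
    (f := fun p : ℕ => 1 / 3 * (1 / (p : ℝ))) fun _ => by positivity) (Nat.cast_nonneg N))
  rw [prod_one_add, mul_sum]
  refine sum_le_sum fun S hS => ?_
  have hS' := mem_powerset.1 hS
  calc _ ≤ ∑ a ∈ Ioc 0 N, if (∏ p ∈ S, p) ∣ a then ∏ p ∈ S, (1 / 3 : ℝ) else 0 := by
        refine sum_le_sum fun a _ => ?_
        rw [prod_ite_zero]
        split_ifs with h1 h2
        · exact le_rfl
        · exact absurd (prod_primes_dvd a (fun p hp => (hP p (hS' hp)).prime) h1) h2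
        · positivity
        · exact le_rfl
    _ ≤ _ := by
        rw [← sum_filter, sum_const, Nat.Ioc_filter_dvd_card_eq_div, nsmul_eq_mul,
          prod_mul_distrib, mul_comm (∏ p ∈ S, (1 / 3 : ℝ)), ← mul_assoc]
        refine mul_le_mul_of_nonneg_right (Nat.cast_div_le.trans_eq ?_) (by positivity)
        rw [prod_div_distrib, prod_const_one, mul_one_div, Nat.cast_prod]

end Pool.Agent.H59.EG
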