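import Mathlib
import Pool.Agent.H59.EG4

/-! Weighted count of the pairs `a = d x (x + y)`, `b = d y (x + y)` with `b` rough and typical. -/

set_option autoImplicit false

namespace Pool.Agent.H59.EG

open Finset Pool.Agent.H59.PureSieve Pool.Agent.H59.MulTable

open Classical in
/-- The `a ≤ N` in conflict with a good `b` whose parameter `y` is near `Y`. -/
noncomputable def Cb (N Y : ℕ) (G : ℕ → Prop) : Finset ℕ :=
  (Ioc 0 N).filter fun a => ∃ y d x, Y ≤ y ∧ y < 2 * Y ∧ 0 < x ∧ x < 2 * y ∧ 0 < d ∧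
    a = d * x * (y + x) ∧ d * y * (y + x) ≤ N ∧ G (d * y * (y + x))

lemma sumle (N Y : ℕ) (G : ℕ → Prop) (hY : 0 < Y) (g : ℕ → ℝ)
    (W : ℕ → ℕ → ℕ → ℝ) (W0 : ∀ y d x, 0 ≤ W y d x)
    (W1 : ∀ y d x, G (d * y * (y + x)) → g (d * x * (y + x)) ≤ W y d x) :
    ∑ a ∈ Cb N Y G, g a ≤ ∑ y ∈ Ico Y (Y + Y), ∑ d ∈ Ico 1 (1 + N / Y ^ 2),
      ∑ x ∈ Ico 1 (1 + 4 * Y), W y d x := by
  classical
  simp only [← sum_product']
  set S := Ico Y (Y + Y) ×ˢ Ico 1 (1 + N / Y ^ 2) ×ˢ Ico 1 (1 + 4 * Y) with hS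
  calc _ ≤ ∑ a ∈ Cb N Y G, ∑ t ∈ S,
        if t.2.1 * t.2.2 * (t.1 + t.2.2) = a then W t.1 t.2.1 t.2.2 else 0 := by
        refine sum_le_sum fun a ha => ?_
        obtain ⟨-, y, d, x, y1, y2, x1, x2, d1, rfl, h1, h2⟩ := mem_filter.1 ha
        refine le_trans ?_ (single_le_sum (a := (y, d, x))
          (fun t _ => by have := W0 t.1 t.2.1 t.2.2; positivity) ?_)
        · simpa using W1 y d x h2
        · have : d ≤ N / Y ^ 2 := (Nat.le_div_iff_mul_le (by positivity)).2 (le_trans (by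
            rw [mul_assoc, sq]
            exact Nat.mul_le_mul_left d (Nat.mul_le_mul y1 (by omega))) h1)
          simp only [hS, mem_product, mem_Ico]
          omega
    _ ≤ _ := by
        rw [sum_comm]
        refine sum_le_sum fun t _ => ?_
        rw [sum_ite_eq]
        split_ifs
        · exact le_rfl
        · exact W0 _ _ _

lemma half2 (P : Finset ℕ) (n : ℕ) :
    Real.exp (-(0.9163 * om P n)) ≤ ∏ p ∈ P, if p ∣ n then (2 / 5 : ℝ) else 1 := by
  rw [om, mul_sum, ← sum_neg_distrib, Real.exp_sum]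
  refine prod_le_prod (fun _ _ => (Real.exp_pos _).le) fun p _ => ?_
  split_ifs
  · have := Real.sum_le_exp_of_nonneg (x := 0.9163) (by norm_num) 9
    rw [mul_one, Real.exp_neg, inv_le_comm₀ (Real.exp_pos _) (by norm_num)]
    refine le_trans ?_ this
    norm_num [sum_range_succ, Nat.factorial]
  · simp

lemma mean2 (P : Finset ℕ) (hP : ∀ p ∈ P, p.Prime ∧ 100000 < p) (z : ℕ) (α : ℝ) (h0 : 0 ≤ α)
    (h : om P z ≤ 10001 / 10000 * ∑ p ∈ P, 1 / (p : ℝ)) :
    α * (0.99998 * ∑ p ∈ P, 1 / (p : ℝ)) ≤ ∑ p ∈ P, (if p ∣ z then 0 else α) / (p : ℝ) := by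
  have : α * (∑ p ∈ P, 1 / (p : ℝ) - om P z / 100000) ≤
      ∑ p ∈ P, (if p ∣ z then 0 else α) / (p : ℝ) := by
    rw [om, sum_div, ← sum_sub_distrib, mul_sum]
    refine sum_le_sum fun p hp => ?_
    have : (1 : ℝ) / p ≤ 1 / 100000 :=
      one_div_le_one_div_of_le (by norm_num) (by exact_mod_cast (hP p hp).2.le)
    split_ifs
    · rw [zero_div]; exact mul_nonpos_of_nonneg_of_nonpos h0 (by linarith)
    · simp [div_eq_mul_inv]
  have a : 0 ≤ ∑ p ∈ P, 1 / (p : ℝ) := sum_nonneg fun _ _ => by positivity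
  refine le_trans (mul_le_mul_of_nonneg_left (by linarith) h0) this

lemma block2 (N Y : ℕ) (G : ℕ → Prop) (P0 P1 : Finset ℕ) (h0 : ∀ p ∈ P0, p.Prime)
    (h1 : ∀ p ∈ P1, p.Prime ∧ 100000 < p) (hd : Disjoint P0 P1) (n τ : ℕ)
    (l2 : ∑ p ∈ P0, 1 / (p : ℝ) + ∑ p ∈ P1, 1 / (p : ℝ) ≤ n)
    (l3 : 3 * Real.exp n * (((P0 ∪ P1).card : ℝ) + 1) ^ (6 * n) ≤ τ)
    (hG : ∀ b, G b → (∀ p ∈ P0, ¬ p ∣ b) ∧ om P1 b ≤ 10001 / 10000 * ∑ p ∈ P1, 1 / (p : ℝ))
    (hY : 0 < Y) (t1 : τ ≤ Y) (t2 : τ * Y ^ 2 ≤ N) :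
    ∑ a ∈ Cb N Y G, wt P1 a ≤
      108 * N * Real.exp (-(3 * ∑ p ∈ P0, 1 / (p : ℝ) + 1.3335 * ∑ p ∈ P1, 1 / (p : ℝ))) := by
  rw [← sum_union hd] at l2
  set L0 := ∑ p ∈ P0, 1 / (p : ℝ) with hL0
  set L := ∑ p ∈ P1, 1 / (p : ℝ) with hL
  have L1 : 0 ≤ L := sum_nonneg fun _ _ => by positivity
  have hQ : ∀ p ∈ P0 ∪ P1, p.Prime := fun p hp =>
    (mem_union.1 hp).elim (h0 p) fun h => (h1 p h).1
  have nm : ∀ p ∈ P1, p ∉ P0 := fun p hp => disjoint_right.1 hd hp
  set f1 : ℕ → ℕ → ℝ := fun p y => if p ∣ y then (if p ∈ P0 then 1 else 3 / 5) else 0 with hf1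
  set f2 : ℕ → ℕ → ℕ → ℝ := fun y p d =>
    if p ∣ d then (if p ∈ P0 then 1 else if p ∣ y then 0 else 7 / 10) else 0 with hf2
  set f3 : ℕ → ℕ → ℕ → ℕ → ℝ := fun y d p x => if p ∈ P0 then (if p ∣ y + x then 1 else 0) else
    if p ∣ d * y then 0 else
    (if p ∣ x then 1 / 4 else 0) + if p ∣ y + x then 7 / 10 else 0 with hf3
  have b1 : ∀ p x, 0 ≤ f1 p x ∧ f1 p x ≤ 1 := fun p x => by
    simp only [hf1]; split_ifs <;> norm_num
  have b2 : ∀ x p d, 0 ≤ f2 x p d ∧ f2 x p d ≤ 1 := fun x p d => by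
    simp only [hf2]; split_ifs <;> norm_num
  have b3 : ∀ x d p y, 0 ≤ f3 x d p y ∧ f3 x d p y ≤ 1 := fun x d p y => by
    simp only [hf3]; split_ifs <;> norm_num
  have p1 : ∀ x, 0 ≤ ∏ p ∈ P0 ∪ P1, (1 - f1 p x) := fun x =>
    prod_nonneg fun p _ => by linarith [(b1 p x).2]
  have p2 : ∀ x d, 0 ≤ ∏ p ∈ P0 ∪ P1, (1 - f2 x p d) := fun x d =>
    prod_nonneg fun p _ => by linarith [(b2 x p d).2]
  have p3 : ∀ x d y, 0 ≤ ∏ p ∈ P0 ∪ P1, (1 - f3 x d p y) := fun x d y =>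
    prod_nonneg fun p _ => by linarith [(b3 x d p y).2]
  set Jd := N / Y ^ 2 with hJd
  have j1 : (τ : ℝ) ≤ Y := by exact_mod_cast t1
  have j2 : (τ : ℝ) ≤ Jd := by exact_mod_cast (Nat.le_div_iff_mul_le (by positivity)).2 t2
  have j3 : (τ : ℝ) ≤ (4 * Y : ℕ) := by exact_mod_cast (by omega : τ ≤ 4 * Y)
  have mu : ∀ (c : ℕ → ℝ) (μ : ℝ), μ ≤ ∑ p ∈ P1, c p / p →
      L0 + μ ≤ ∑ p ∈ P0 ∪ P1, (if p ∈ P0 then 1 else c p) / (p : ℝ) := fun c μ h => by
    rw [sum_union hd]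
    exact add_le_add (le_of_eq (sum_congr rfl fun p hp => by rw [if_pos hp]))
      (h.trans_eq (sum_congr rfl fun p hp => by rw [if_neg (nm p hp)]))
  have s1 := upper _ hQ f1 (fun p x => (b1 p x).1) (fun p x => (b1 p x).2)
    (fun p _ => ite_periodic p _ _) (fun p hp => by
      simp only [hf1, sum_ite_dvd p (hQ p hp).pos]; split_ifs <;> norm_num) n l2 Y (l3.trans j1) _
    ((mu (fun _ => 3 / 5) (3 / 5 * L) (by
      rw [hL, mul_sum]; exact le_of_eq (sum_congr rfl fun _ _ => by ring))).trans_eq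
      (sum_congr rfl fun p hp => by
        simp only [hf1, sum_ite_dvd p (hQ p hp).pos, mul_zero, add_zero])) Y
  have s2 : ∀ y, om P1 y ≤ 10001 / 10000 * L →
      ∑ d ∈ Ico 1 (1 + Jd), ∏ p ∈ P0 ∪ P1, (1 - f2 y p d) ≤
      3 * Jd * Real.exp (-(L0 + 7 / 10 * (0.99998 * L))) := fun y hy =>
    upper _ hQ (f2 y) (fun p d => (b2 y p d).1) (fun p d => (b2 y p d).2)
      (fun p _ => ite_periodic p _ _) (fun p hp => by
        simp only [hf2, sum_ite_dvd p (hQ p hp).pos]; split_ifs <;> norm_num) n l2 Jd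
      (l3.trans j2) _ ((mu _ _ (mean2 P1 h1 y (7 / 10) (by norm_num) hy)).trans_eq
        (sum_congr rfl fun p hp => by
          simp only [hf2, sum_ite_dvd p (hQ p hp).pos, mul_zero, add_zero])) 1
  have c3 : ∀ y d, ∀ p ∈ P0 ∪ P1, ∑ x ∈ range p, f3 y d p x =
      if p ∈ P0 then 1 else if p ∣ d * y then 0 else 19 / 20 := by
    intro y d p hp
    simp only [hf3]
    split_ifs
    · rw [shift _ p y (hQ p hp).pos (ite_periodic p 1 0), sum_ite_dvd p (hQ p hp).pos]; ring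
    · simp
    · rw [sum_add_distrib, shift _ p y (hQ p hp).pos (ite_periodic p (7 / 10) 0),
        sum_ite_dvd p (hQ p hp).pos, sum_ite_dvd p (hQ p hp).pos]; ring
  have s3 : ∀ y d, om P1 (d * y) ≤ 10001 / 10000 * L → ∑ x ∈ Ico 1 (1 + 4 * Y),
      ∏ p ∈ P0 ∪ P1, (1 - f3 y d p x) ≤
      3 * (4 * Y : ℕ) * Real.exp (-(L0 + 19 / 20 * (0.99998 * L))) := fun y d hy =>
    upper _ hQ (f3 y d) (fun p x => (b3 y d p x).1) (fun p x => (b3 y d p x).2)
      (fun p _ x => by simp only [hf3, ← add_assoc, Nat.dvd_add_self_right])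
      (fun p hp => by rw [c3 y d p hp]; split_ifs <;> norm_num) n l2 _
      (l3.trans j3) _ ((mu _ _ (mean2 P1 h1 (d * y) (19 / 20) (by norm_num) hy)).trans_eq
        (sum_congr rfl fun p hp => by rw [c3 y d p hp])) 1
  set E := Real.exp (0.9164 * L) with hE
  have E0 : 0 < E := Real.exp_pos _
  refine (sumle N Y G hY _ (fun y d x => E * ((∏ p ∈ P0 ∪ P1, (1 - f1 p y)) *
    if om P1 y ≤ 10001 / 10000 * L then (∏ p ∈ P0 ∪ P1, (1 - f2 y p d)) *
      if om P1 (d * y) ≤ 10001 / 10000 * L then ∏ p ∈ P0 ∪ P1, (1 - f3 y d p x) else 0 else 0))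
    (fun x d y => by
      have := p1 x; have := p2 x d; have := p3 x d y
      positivity) (fun y d x g1 => ?_)).trans ?_
  · obtain ⟨g2, g3⟩ := hG _ g1
    rw [if_pos ((om_mono P1 _ _ ⟨d * (y + x), by ring⟩).trans g3),
      if_pos ((om_mono P1 _ _ (Dvd.intro _ rfl)).trans g3), ← prod_mul_distrib, ← prod_mul_distrib,
      prod_union hd, prod_eq_one (s := P0) fun p hp => by
        have := g2 p hp
        simp only [(h0 p hp).dvd_mul, not_or] at this
        simp [hf1, hf2, hf3, hp, this.1.1, this.1.2, this.2], one_mul]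
    have a1 := mul_le_mul_of_nonneg_left (half2 P1 (d * y * (y + x)))
      (wt_pos P1 (d * x * (y + x))).le
    rw [wt, ← prod_mul_distrib, ← wt] at a1
    have a2 := a1.trans (prod_le_prod
      (g := fun p => (1 - f1 p y) * ((1 - f2 y p d) * (1 - f3 y d p x)))
      (fun _ _ => by positivity) fun p hp => by
        simp only [hf1, hf2, hf3, (h1 p hp).1.dvd_mul, nm p hp, if_false]
        by_cases h1 : p ∣ y
        · simp only [h1, or_true, true_or, if_true]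
          split_ifs <;> norm_num
        by_cases h2 : p ∣ d
        · norm_num [h1, h2]
        by_cases h3 : p ∣ x
        · have : ¬ p ∣ y + x := fun h => h1 ((Nat.dvd_add_left h3).1 h)
          norm_num [h1, h2, h3, this]
        by_cases h4 : p ∣ y + x <;> norm_num [h1, h2, h3, h4])
    refine le_trans ?_ (mul_le_mul_of_nonneg_left a2 E0.le)
    rw [hE, mul_left_comm, ← Real.exp_add]
    exact le_mul_of_one_le_right (wt_pos _ _).le (Real.one_le_exp (by linarith))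
  · calc _ ≤ ∑ y ∈ Ico Y (Y + Y), E * ((∏ p ∈ P0 ∪ P1, (1 - f1 p y)) *
          (3 * Jd * Real.exp (-(L0 + 7 / 10 * (0.99998 * L))) *
            (3 * (4 * Y : ℕ) * Real.exp (-(L0 + 19 / 20 * (0.99998 * L)))))) := by
          refine sum_le_sum fun y _ => ?_
          simp only [← mul_sum]
          refine mul_le_mul_of_nonneg_left (mul_le_mul_of_nonneg_left ?_ (p1 y)) E0.le
          split_ifs with h1
          · refine le_trans ?_ (mul_le_mul_of_nonneg_right (s2 y h1) (by positivity))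
            rw [sum_mul]
            refine sum_le_sum fun d _ => ?_
            rw [← mul_sum]
            refine mul_le_mul_of_nonneg_left ?_ (p2 y d)
            split_ifs with h2
            · exact s3 y d h2
            · simp only [sum_const_zero]; positivity
          · simp only [sum_const_zero]; positivity
      _ ≤ E * (3 * Y * Real.exp (-(L0 + 3 / 5 * L)) *
          (3 * Jd * Real.exp (-(L0 + 7 / 10 * (0.99998 * L))) *
            (3 * (4 * Y : ℕ) * Real.exp (-(L0 + 19 / 20 * (0.99998 * L)))))) := by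
          rw [← mul_sum, ← sum_mul]; gcongr
      _ = 108 * (Jd * Y ^ 2 : ℕ) * Real.exp (0.9164 * L + -(L0 + 3 / 5 * L) +
          -(L0 + 7 / 10 * (0.99998 * L)) + -(L0 + 19 / 20 * (0.99998 * L))) := by
          simp only [Real.exp_add, hE]; push_cast; ring
      _ ≤ _ := by
          have := Nat.div_mul_le_self N (Y ^ 2)
          gcongr
          linarith

end Pool.Agent.H59.EG
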