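import Mathlib
import Pool.Agent.H59.EG5

/-! Numerical lemmas and the count of conflicts. -/

set_option autoImplicit false

namespace Pool.Agent.H59.EG

open Finset Pool.Agent.H59.PureSieve Pool.Agent.H59.MulTable

lemma pw (j : ℝ) (hj : 0 ≤ j) (k : ℕ) : j ^ k ≤ Real.exp (k * j) := by
  rw [Real.exp_nat_mul]
  exact pow_le_pow_left₀ hj (by linarith [Real.add_one_le_exp j]) k

lemma e11 : (50000 : ℝ) ≤ Real.exp 11 := by
  rw [show (11 : ℝ) = (11 : ℕ) * 1 by norm_num, Real.exp_nat_mul]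
  exact le_trans (by norm_num) (pow_le_pow_left₀ (by norm_num : (0 : ℝ) ≤ 2.7)
    (by linarith [Real.exp_one_gt_d9]) 11)

lemma g1 (j l k L m : ℝ) (hj : 10 ^ 6 ≤ j) (k1 : k ≤ l + 3 / 2) (k2 : k ≤ 3 * j ^ 2)
    (hL : j ^ 2 ≤ L) (hm : m ≤ 20 * (k + (j + 1) ^ 2 + 1) * Real.exp (k + (j + 1) ^ 2 + 4)) :
    Real.exp (l + 0.33344 * L) * (2 * m * (108 * Real.exp (-(3 * l + 1.3335 * L)))) ≤
      Real.exp (-l) * (j ^ 2)⁻¹ := by
  have j0 : 0 < j := by linarith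
  rw [← div_eq_mul_inv, le_div_iff₀ (by positivity)]
  have a1 : 20 * (k + (j + 1) ^ 2 + 1) ≤ 160 * j ^ 2 := by nlinarith
  calc _ ≤ Real.exp (l + 0.33344 * L) * (2 * (160 * j ^ 2 * Real.exp (k + (j + 1) ^ 2 + 4)) *
        (108 * Real.exp (-(3 * l + 1.3335 * L)))) * j ^ 2 := by
        gcongr
        exact hm.trans (by gcongr)
    _ = 34560 * j ^ 4 * Real.exp (l + 0.33344 * L + (k + (j + 1) ^ 2 + 4) +
        -(3 * l + 1.3335 * L)) := by simp only [Real.exp_add]; ring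
    _ ≤ Real.exp 11 * Real.exp ((4 : ℕ) * j) * Real.exp (l + 0.33344 * L + (k + (j + 1) ^ 2 + 4) +
        -(3 * l + 1.3335 * L)) := by
        gcongr
        · linarith [e11]
        · exact pw j j0.le 4
    _ ≤ _ := by
        rw [← Real.exp_add, ← Real.exp_add]
        refine Real.exp_le_exp.2 ?_
        push_cast; nlinarith

lemma g2 (j l L : ℝ) (hj : 10 ^ 6 ≤ j) (hL : j ^ 2 ≤ L) :
    (Real.exp (l + 0.33344 * L))⁻¹ * Real.exp (1 / 3 * L) ≤ Real.exp (-l) * (j ^ 2)⁻¹ := by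
  have j0 : 0 < j := by linarith
  rw [← div_eq_mul_inv, le_div_iff₀ (by positivity), ← Real.exp_neg]
  refine (mul_le_mul_of_nonneg_left (pw j j0.le 2) (by positivity)).trans ?_
  rw [← Real.exp_add, ← Real.exp_add]
  refine Real.exp_le_exp.2 ?_
  push_cast; nlinarith

lemma g3 (j l k L m : ℝ) (hj : 10 ^ 6 ≤ j) (k1 : k ≤ l + 3 / 2) (k2 : l ≤ 2.2 * j ^ 2)
    (hL : 2 * j ^ 2 ≤ L) (hm : m ≤ 20 * (k + j ^ 2 + 1) * Real.exp (k + j ^ 2 + 4)) :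
    m * (108 * Real.exp (-(3 * L))) ≤ Real.exp (-l) / j := by
  have j0 : 0 < j := by linarith
  rw [le_div_iff₀ (by positivity)]
  have a1 : 20 * (k + j ^ 2 + 1) ≤ 100 * j ^ 2 := by nlinarith
  calc _ ≤ 100 * j ^ 2 * Real.exp (k + j ^ 2 + 4) * (108 * Real.exp (-(3 * L))) * j := by
        gcongr
        exact hm.trans (by gcongr)
    _ = 10800 * j ^ 3 * Real.exp (k + j ^ 2 + 4 + -(3 * L)) := by simp only [Real.exp_add]; ring
    _ ≤ Real.exp 11 * Real.exp ((3 : ℕ) * j) * Real.exp (k + j ^ 2 + 4 + -(3 * L)) := by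
        gcongr
        · linarith [e11]
        · exact pw j j0.le 3
    _ ≤ _ := by
        rw [← Real.exp_add, ← Real.exp_add]
        refine Real.exp_le_exp.2 ?_
        push_cast; nlinarith

lemma g4 (j : ℝ) (m : ℕ) (hj : 10 ^ 6 ≤ j)
    (hm : (m : ℝ) ≤ 20 * (1 + 2 * j ^ 2 + 1) * Real.exp (1 + 2 * j ^ 2 + 4)) :
    ∑ p ∈ (6 * 2 ^ m).primesLE, 1 / ((p : ℕ) : ℝ) ≤ 2.2 * j ^ 2 := by
  have j0 : 0 < j := by linarith
  have z2 : 2 ≤ 6 * 2 ^ m := by have := Nat.one_le_two_pow (n := m); omega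
  refine (mert _ z2).trans ?_
  have a0 : 0 < Real.log (6 * 2 ^ m : ℕ) := Real.log_pos (by exact_mod_cast z2)
  have a1 : Real.log (6 * 2 ^ m : ℕ) ≤ m + 5 := by
    push_cast
    rw [Real.log_mul (by norm_num) (by positivity), Real.log_pow]
    nlinarith [Real.log_le_sub_one_of_pos (by norm_num : (0 : ℝ) < 6), Real.log_two_lt_d9,
      Nat.cast_nonneg (α := ℝ) m]
  have a2 := Real.one_le_exp (by positivity : 0 ≤ 1 + 2 * j ^ 2 + 4)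
  have a3 : (m : ℝ) + 5 ≤ 50000 * j ^ 2 * Real.exp (1 + 2 * j ^ 2 + 4) := by
    have : 20 * (1 + 2 * j ^ 2 + 1) + 5 ≤ 50000 * j ^ 2 := by nlinarith
    nlinarith
  have a4 : 50000 * j ^ 2 * Real.exp (1 + 2 * j ^ 2 + 4) ≤
      Real.exp 11 * Real.exp ((2 : ℕ) * j) * Real.exp (1 + 2 * j ^ 2 + 4) := by
    gcongr
    · exact e11
    · exact pw j j0.le 2
  rw [← Real.exp_add, ← Real.exp_add] at a4
  have := (Real.log_le_iff_le_exp a0).2 (a1.trans (a3.trans a4))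
  rw [Nat.cast_ofNat] at this
  nlinarith

lemma l3mono (c c' n τ : ℕ) (h : c ≤ c') (h1 : 3 * Real.exp n * ((c' : ℝ) + 1) ^ (6 * n) ≤ τ) :
    3 * Real.exp n * ((c : ℝ) + 1) ^ (6 * n) ≤ τ := le_trans (by gcongr) h1

lemma amgm (γ w X : ℝ) (h1 : 0 < γ) (h2 : 0 < w) (h3 : w ≤ X) : 1 ≤ γ * X + γ⁻¹ * w⁻¹ := by
  have s0 := mul_pos h1 h2
  have a := mul_le_mul_of_nonneg_left h3 h1.le
  rw [← mul_inv]
  by_cases h : 1 ≤ γ * w
  · have := inv_pos.2 s0; linarith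
  · have := (one_le_inv₀ s0).2 (not_le.1 h).le; linarith

lemma sum_mem (N Y : ℕ) (G : ℕ → Prop) (g : ℕ → ℝ) :
    ∑ a ∈ Ioc 0 N, (if a ∈ Cb N Y G then g a else 0) = ∑ a ∈ Cb N Y G, g a := by
  classical
  rw [sum_ite_mem, inter_eq_right.2 (show Cb N Y G ⊆ Ioc 0 N from filter_subset _ _)]

theorem conflicts (J m' k N : ℕ) (P' P0 : Finset ℕ) (P : ℕ → Finset ℕ) (m : ℕ → ℕ) (G : ℕ → Prop)
    (hJ : 10 ^ 6 ≤ J) (h0 : ∀ p ∈ P0, p.Prime) (h' : P' ⊆ P0)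
    (a1 : ((2 * J ^ 2 : ℕ) : ℝ) ≤ ∑ p ∈ P', 1 / (p : ℝ))
    (a2 : ∑ p ∈ P', 1 / (p : ℝ) ≤ (1 + 2 * J ^ 2 + 1 : ℕ))
    (a3 : 3 * Real.exp (1 + 2 * J ^ 2 + 1 : ℕ) * (P'.card + 1 : ℝ) ^ (6 * (1 + 2 * J ^ 2 + 1)) ≤
      (2 ^ m' : ℕ))
    (k1 : ∑ p ∈ P0, 1 / (p : ℝ) ≤ k) (k2 : (k : ℝ) ≤ ∑ p ∈ P0, 1 / (p : ℝ) + 3 / 2)
    (k3 : ∑ p ∈ P0, 1 / (p : ℝ) ≤ 2.2 * J ^ 2)
    (hP : ∀ n, ∀ p ∈ P n, p.Prime ∧ 100000 < p) (hd : ∀ n, Disjoint P0 (P n))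
    (l1 : ∀ n : ℕ, (n : ℝ) ≤ ∑ p ∈ P n, 1 / (p : ℝ))
    (l2 : ∀ n : ℕ, ∑ p ∈ P n, 1 / (p : ℝ) ≤ (n + 1 : ℕ))
    (l3 : ∀ n : ℕ, 3 * Real.exp (k + n + 1 : ℕ) * ((P0 ∪ P n).card + 1 : ℝ) ^ (6 * (k + n + 1)) ≤
      (2 ^ m n : ℕ))
    (l4 : ∀ n : ℕ, (m n : ℝ) ≤ 20 * (k + n + 1) * Real.exp (k + n + 4))
    (hG : ∀ b, G b → (∀ p ∈ P0, ¬ p ∣ b) ∧ ∀ j, J ≤ j → (2 ^ m (j ^ 2)) ^ 2 ≤ N →
      om (P (j ^ 2)) b ≤ 10001 / 10000 * ∑ p ∈ P (j ^ 2), 1 / (p : ℝ))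
    (C : Finset ℕ) (hC : ∀ a ∈ C, ∃ t < N, 2 ^ m' ≤ 2 ^ t ∧ 2 ^ m (J ^ 2) * (2 ^ t) ^ 2 ≤ N ∧
      a ∈ Cb N (2 ^ t) G) :
    (C.card : ℝ) ≤ 5 * N * Real.exp (-∑ p ∈ P0, 1 / (p : ℝ)) / J := by
  classical
  set l := ∑ p ∈ P0, 1 / (p : ℝ) with hl
  have J1 : (10 : ℝ) ^ 6 ≤ J := by exact_mod_cast hJ
  have tj : ∀ j, j < 2 ^ m (j ^ 2) := fun j => lt_of_le_of_lt
    ((Nat.le_self_pow two_ne_zero j).trans (Nat.le_add_left _ k)) (tau _ _ _ (l3 (j ^ 2))).1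
  set ok : ℕ → ℕ → Prop := fun j t => 2 ^ m (j ^ 2) ≤ 2 ^ t ∧ 2 ^ m (j ^ 2) * (2 ^ t) ^ 2 ≤ N
    with hok
  set TA := (range N).filter fun t => 2 ^ m' ≤ 2 ^ t ∧ 2 ^ m' * (2 ^ t) ^ 2 ≤ N ∧
    2 ^ t < 2 ^ m (J ^ 2) with hTA
  set T : ℕ → Finset ℕ := fun j => (range N).filter fun t => ok j t ∧ ¬ ok (j + 1) t with hT
  set γ : ℕ → ℝ := fun j => Real.exp (l + 0.33344 * ∑ p ∈ P (j ^ 2), 1 / (p : ℝ)) with hγ
  have γ0 : ∀ j, 0 < γ j := fun j => Real.exp_pos _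
  set Φ : ℕ → ℝ := fun a => ∑ t ∈ TA, (if a ∈ Cb N (2 ^ t) G then wt ∅ a else 0) +
    ∑ j ∈ Ioo (J - 1) (N + 1), (γ j * ∑ t ∈ T j,
      (if a ∈ Cb N (2 ^ t) G then wt (P (j ^ 2)) a else 0) + (γ j)⁻¹ * (wt (P (j ^ 2)) a)⁻¹) with hΦ
  have n1 : ∀ (Q : Finset ℕ) (a t : ℕ), 0 ≤ if a ∈ Cb N (2 ^ t) G then wt Q a else 0 :=
    fun Q a t => by have := wt_pos Q a; positivity
  have n2 : ∀ a j, 0 ≤ γ j * ∑ t ∈ T j, (if a ∈ Cb N (2 ^ t) G then wt (P (j ^ 2)) a else 0) +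
      (γ j)⁻¹ * (wt (P (j ^ 2)) a)⁻¹ := fun a j => by
    have := wt_pos (P (j ^ 2)) a
    have := γ0 j
    have := sum_nonneg fun t (_ : t ∈ T j) => n1 (P (j ^ 2)) a t
    positivity
  have Φ0 : ∀ a, 0 ≤ Φ a := fun a =>
    add_nonneg (sum_nonneg fun t _ => n1 _ a t) (sum_nonneg fun j _ => n2 a j)
  have Φ1 : ∀ a ∈ C, 1 ≤ Φ a := by
    intro a ha
    obtain ⟨t, t0, t1, t2, t3⟩ := hC a ha
    by_cases c : 2 ^ t < 2 ^ m (J ^ 2)
    · refine le_add_of_le_of_nonneg (le_trans ?_ (single_le_sum (fun t _ => n1 _ a t)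
        (mem_filter.2 ⟨mem_range.2 t0, t1,
          (Nat.mul_le_mul_right _ (t1.trans c.le)).trans t2, c⟩))) (sum_nonneg fun j _ => n2 a j)
      simp [t3, wt]
    obtain ⟨j, j1, j2⟩ : ∃ j, J ≤ j ∧ ok j t ∧ ¬ ok (j + 1) t := by
      by_contra hc
      have : ∀ j, J ≤ j → ok j t := fun j hj => by
        induction j, hj using Nat.le_induction with
        | base => exact ⟨not_lt.1 c, t2⟩
        | succ j hj ih => by_contra h; exact hc ⟨j, hj, ih, h⟩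
      have b1 := (Nat.le_mul_of_pos_right _ (by positivity)).trans (this (J + N) (by omega)).2
      have := tj (J + N)
      omega
    have j4 := (Nat.le_mul_of_pos_right _ (by positivity)).trans j2.1.2
    refine le_add_of_nonneg_of_le (sum_nonneg fun t _ => n1 _ a t) (le_trans ?_ (single_le_sum
      (fun j _ => n2 a j) (mem_Ioo.2 ⟨by omega, by have := tj j; omega⟩ : j ∈ _)))
    refine amgm _ _ _ (γ0 j) (wt_pos _ _) (le_trans ?_ (single_le_sum (fun t _ => n1 _ a t)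
      (mem_filter.2 ⟨mem_range.2 t0, j2⟩)))
    rw [if_pos t3]
  have s1 : (C.card : ℝ) ≤ ∑ a ∈ Ioc 0 N, Φ a := by
    refine le_trans ?_ (sum_le_sum_of_subset_of_nonneg (s := C) (fun a ha => ?_) fun a _ _ => Φ0 a)
    · simpa using card_nsmul_le_sum C Φ 1 Φ1
    · obtain ⟨t, -, -, -, t3⟩ := hC a ha
      exact (mem_filter.1 t3).1
  have N0 : (0 : ℝ) ≤ N := Nat.cast_nonneg N
  have s2 : ∑ t ∈ TA, ∑ a ∈ Cb N (2 ^ t) G, wt ∅ a ≤ N * (Real.exp (-l) / J) := by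
    refine (sum_le_card_nsmul _ _ _ fun t ht => block2 N (2 ^ t) G P' ∅ (fun p hp => h0 p (h' hp))
      (by simp) (by simp) (1 + 2 * J ^ 2 + 1) (2 ^ m') (by rw [sum_empty, add_zero]; exact a2)
      (by rw [union_empty]; exact a3)
      (fun b hb => ⟨fun p hp => (hG b hb).1 p (h' hp), by simp [om]⟩) (by positivity)
      (mem_filter.1 ht).2.1 (mem_filter.1 ht).2.2.1).trans ?_
    have b1 : (TA.card : ℝ) ≤ m (J ^ 2) := Nat.cast_le.2 (few _ _ fun s _ t ht _ =>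
      (mem_filter.1 ht).2.2.2.trans_le (Nat.le_mul_of_pos_right _ (by positivity)))
    have b2 := g3 J l k _ _ J1 k2 k3 (by exact_mod_cast a1)
      (b1.trans (by have := l4 (J ^ 2); push_cast at this; exact this))
    simp only [nsmul_eq_mul, sum_empty, mul_zero, add_zero]
    nlinarith [mul_le_mul_of_nonneg_left b2 N0]
  have s3 : ∀ j ∈ Ioo (J - 1) (N + 1), γ j * ∑ t ∈ T j, ∑ a ∈ Cb N (2 ^ t) G, wt (P (j ^ 2)) a +
      (γ j)⁻¹ * ∑ a ∈ Ioc 0 N, (wt (P (j ^ 2)) a)⁻¹ ≤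
      2 * N * Real.exp (-l) * ((j : ℝ) ^ 2)⁻¹ := by
    intro j hj
    have j1 : J ≤ j := by have := (mem_Ioo.1 hj).1; omega
    have j2 : (J : ℝ) ≤ j := by exact_mod_cast j1
    have b0 := sum_le_card_nsmul (T j) _ _ fun t ht => block2 N (2 ^ t) G P0 (P (j ^ 2)) h0
      (hP _) (hd _) (k + j ^ 2 + 1) _ (by have := l2 (j ^ 2); push_cast at this ⊢; linarith) (l3 _)
      (fun b hb => ⟨(hG b hb).1, (hG b hb).2 j j1 (by
        have := (mem_filter.1 ht).2.1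
        nlinarith [Nat.mul_le_mul_left (2 ^ m (j ^ 2)) (this.1.trans
          (Nat.le_self_pow two_ne_zero (2 ^ t))), this.2])⟩) (by positivity)
      (mem_filter.1 ht).2.1.1 (mem_filter.1 ht).2.1.2
    have b1 : (T j).card ≤ m ((j + 1) ^ 2) + m ((j + 1) ^ 2) := by
      refine (card_le_card (t := ((range N).filter fun t => 2 ^ t < 2 ^ m ((j + 1) ^ 2)) ∪
        (range N).filter fun t => (2 ^ t) ^ 2 ≤ N ∧ N < 2 ^ m ((j + 1) ^ 2) * (2 ^ t) ^ 2)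
        fun t ht => ?_).trans ((card_union_le _ _).trans (add_le_add (few _ _ fun s _ t ht _ =>
          (mem_filter.1 ht).2.trans_le (Nat.le_mul_of_pos_right _ (by positivity)))
          (few _ _ fun s hs t ht h3 => ?_)))
      · obtain ⟨t0, t1, t2⟩ := mem_filter.1 ht
        rcases not_and_or.1 t2 with h | h
        · exact mem_union_left _ (mem_filter.2 ⟨t0, not_le.1 h⟩)
        · exact mem_union_right _ (mem_filter.2 ⟨t0,
            (Nat.le_mul_of_pos_left _ (by positivity)).trans t1.2, not_le.1 h⟩)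
      · have b1 := Nat.mul_le_mul_left (2 ^ m ((j + 1) ^ 2) * 2 ^ s)
          (Nat.pow_le_pow_right two_pos h3)
        exact lt_of_mul_lt_mul_right (a := 2 ^ t)
          (by nlinarith [(mem_filter.1 hs).2.2, (mem_filter.1 ht).2.1]) (by positivity)
    have b2 : ((T j).card : ℝ) ≤ 2 * m ((j + 1) ^ 2) := by rw [two_mul]; exact_mod_cast b1
    have b3 := g1 j l k _ _ (J1.trans j2) k2 (by nlinarith)
      ((Nat.cast_pow j 2).symm.trans_le (l1 (j ^ 2)))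
      (by have := l4 ((j + 1) ^ 2); push_cast at this; exact this)
    have b4 := g2 j l _ (J1.trans j2) ((Nat.cast_pow j 2).symm.trans_le (l1 (j ^ 2)))
    have b5 := mul_le_mul_of_nonneg_left (moment _ (fun p hp => (hP (j ^ 2) p hp).1) N)
      (inv_pos.2 (γ0 j)).le
    rw [nsmul_eq_mul] at b0
    have b6 := mul_le_mul_of_nonneg_left (b0.trans (mul_le_mul_of_nonneg_right b2 (by positivity)))
      (γ0 j).le
    simp only [hγ] at b5 b6 ⊢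
    nlinarith [mul_le_mul_of_nonneg_left b3 N0, mul_le_mul_of_nonneg_left b4 N0]
  have s4 := sum_Ioo_inv_sq_le (α := ℝ) (J - 1) (N + 1)
  rw [Nat.cast_sub (by omega), Nat.cast_one, sub_add_cancel] at s4
  refine s1.trans ?_
  simp only [hΦ, sum_add_distrib]
  rw [sum_comm, sum_comm (s := Ioc 0 N), sum_comm (s := Ioc 0 N), ← sum_add_distrib]
  simp only [← mul_sum, sum_comm (s := Ioc 0 N), sum_mem]
  refine (add_le_add s2 (sum_le_sum s3)).trans ?_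
  rw [← mul_sum]
  refine (add_le_add le_rfl (mul_le_mul_of_nonneg_left s4 (by positivity))).trans_eq ?_
  ring

end Pool.Agent.H59.EG
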