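import Mathlib
import Pool.Agent.H59.EG6

/-! A set of `(1/2 + c) N` integers up to `N` in which `a + b` never divides `a b`. -/

set_option autoImplicit false

namespace Pool.Agent.H59.EG

open Finset Pool.Agent.H59.PureSieve Pool.Agent.H59.MulTable

lemma param (a b : ℕ) (a0 : 0 < a) (h : a + b ∣ a * b) :
    ∃ d x y, 0 < d ∧ 0 < x ∧ a = d * x * (y + x) ∧ b = d * y * (y + x) := by
  obtain ⟨g, x, y, g0, cp, rfl, rfl⟩ := Nat.exists_coprime' (Nat.gcd_pos_of_pos_left b a0)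
  rw [← add_mul, ← mul_assoc, Nat.mul_dvd_mul_iff_right g0, mul_right_comm, mul_comm] at h
  obtain ⟨d, rfl⟩ : x + y ∣ g := (Nat.Coprime.mul_right (m := x) (n := y)
    (by simpa using cp.symm) (by simpa using cp)).dvd_of_dvd_mul_right h
  exact ⟨d, x, y, Nat.pos_of_mul_pos_left g0, Nat.pos_of_mul_pos_right a0, by ring, by ring⟩

lemma om_two (P : Finset ℕ) (hP : ∀ p ∈ P, p.Prime ∧ 2 < p) (n : ℕ) : om P (2 * n) = om P n :=
  sum_congr rfl fun p hp => by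
    simp only [((Nat.coprime_primes (hP p hp).1 Nat.prime_two).2 (hP p hp).2.ne').dvd_mul_left]

lemma key0 (r τ τ0 : ℕ) (G : ℕ → Prop) (a n : ℕ) (a0 : 0 < a) (a1 : a ≤ 4 * r ^ 2)
    (hn : r ^ 2 + 1 ≤ n ∧ n < r ^ 2 + 1 + r ^ 2) (n2 : ∀ p ∈ (6 * τ).primesLE, ¬ p ∣ n)
    (n3 : G (2 * n)) (hne : a ≠ 2 * n) (hd : a + 2 * n ∣ a * (2 * n)) :
    (∃ t < 4 * r ^ 2, τ ≤ 2 ^ t ∧ τ0 * (2 ^ t) ^ 2 ≤ 4 * r ^ 2 ∧ a ∈ Cb (4 * r ^ 2) (2 ^ t) G) ∨
    a ∈ (range τ0 ×ˢ (range (6 * r) ×ˢ range (6 * r)).image fun y : ℕ × ℕ => y.1 * y.2).image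
      fun y : ℕ × ℕ => y.1 * y.2 := by
  classical
  obtain ⟨d, x, y, d0, x0, rfl, e⟩ := param a _ a0 hd
  obtain ⟨n0, n1⟩ := hn
  have y0 : 0 < y := Nat.pos_of_ne_zero (by rintro rfl; omega)
  have xy : x ≠ y := by rintro rfl; exact hne e.symm
  have x2 : x < 2 * y := lt_of_mul_lt_mul_left (a := d * (y + x)) (by nlinarith) (by positivity)
  have s1 : 6 * τ < y + x := by
    have hs : y + x ∣ 2 * n := ⟨d * y, by rw [e]; ring⟩
    by_contra hc
    rcases Nat.four_dvd_or_exists_odd_prime_and_dvd_of_two_lt (by omega : 2 < y + x) with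
      h | ⟨p, p1, p2, p3⟩
    · exact n2 2 (Nat.mem_primesLE.2 ⟨by omega, Nat.prime_two⟩) (by have := h.trans hs; omega)
    · exact n2 p (Nat.mem_primesLE.2 ⟨(Nat.le_of_dvd (by omega) p2).trans (not_lt.1 hc), p1⟩)
        ((Nat.coprime_two_right.2 p3).dvd_of_dvd_mul_left (p2.trans hs))
  have y1 := Nat.pow_log_le_self 2 y0.ne'
  have y2 := Nat.lt_pow_succ_log_self one_lt_two y
  have y3 := Nat.lt_two_pow_self (n := Nat.log 2 y)
  have y4 : y * (y + x) ≤ d * y * (y + x) := by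
    rw [mul_assoc]; exact Nat.le_mul_of_pos_left _ d0
  by_cases c : τ0 * (2 ^ Nat.log 2 y) ^ 2 ≤ 4 * r ^ 2
  · exact Or.inl ⟨Nat.log 2 y, by nlinarith, by omega, c, mem_filter.2 ⟨mem_Ioc.2 ⟨a0, a1⟩, y, d, x,
      y1, by omega, x0, x2, d0, rfl, by omega, e ▸ n3⟩⟩
  · have y5 : y < 2 * r := lt_of_pow_lt_pow_left₀ 2 (by positivity) (by nlinarith)
    refine Or.inr (mem_image.2 ⟨(d, x * (y + x)), mem_product.2 ⟨mem_range.2 ?_,
      mem_image.2 ⟨(x, y + x), mem_product.2 ⟨mem_range.2 (by omega), mem_range.2 (by omega)⟩,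
        rfl⟩⟩, (mul_assoc _ _ _).symm⟩)
    have z1 := Nat.mul_le_mul_left d
      ((Nat.pow_le_pow_left y1 2).trans (by nlinarith : y ^ 2 ≤ y * (y + x)))
    exact lt_of_mul_lt_mul_right (a := (2 ^ Nat.log 2 y) ^ 2) (by nlinarith) (by positivity)

theorem main2 : ∃ ε : ℝ, ε > 0 ∧ ∀ M : ℕ, ∃ N : ℕ, M ≤ N ∧
    ∃ A : Finset ℕ, A ⊆ Finset.Icc 1 N ∧ (∀ a ∈ A, ∀ b ∈ A, a ≠ b → ¬ (a + b ∣ a * b)) ∧
      ((1 : ℝ) / 2 + ε) * (N : ℝ) ≤ (A.card : ℝ) := by
  classical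
  obtain ⟨J, J1⟩ : ∃ J : ℕ, (10 : ℝ) ^ 10 ≤ J := exists_nat_ge _
  have hJ : 10 ^ 6 ≤ J := by exact_mod_cast (by linarith : (10 : ℝ) ^ 6 ≤ J)
  obtain ⟨P', m', a0, a1, a2, a3, a4⟩ := level2 2 1 (2 * J ^ 2) le_rfl
    (by rw [show Nat.primesLE 2 = {2} by decide]; norm_num)
  have a5 := (tau _ _ _ a3).1
  have a6 := g4 J m' (by linarith) (by push_cast at a4; exact a4)
  set z := 6 * 2 ^ m' with hz
  have z1 : 100000 ≤ z := by nlinarith
  set Q := z.primesLE with hQ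
  have q0 : ∀ p ∈ Q, p.Prime := fun p hp => (Nat.mem_primesLE.1 hp).2
  have q2 : 2 ∈ Q := Nat.mem_primesLE.2 ⟨by omega, Nat.prime_two⟩
  have q3 := add_sum_erase Q (fun p : ℕ => 1 / (p : ℝ)) q2
  set P0 := Q.erase 2 with hP0
  set l := ∑ p ∈ P0, 1 / (p : ℝ) with hl
  set k := ⌈∑ p ∈ Q, 1 / (p : ℝ)⌉₊ with hk
  have k1 : ∑ p ∈ Q, 1 / (p : ℝ) ≤ k := Nat.le_ceil _
  have k2 : (k : ℝ) < ∑ p ∈ Q, 1 / (p : ℝ) + 1 :=
    Nat.ceil_lt_add_one (sum_nonneg fun _ _ => by positivity)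
  choose P m hP l1 l2 l3 l4 using fun n => level2 z k n (by omega) k1
  set V := BH.V Q with hV
  have V0 : 0 < V := BH.V_pos Q q0
  have V1 : Real.exp (-l) ≤ 27 * V := by
    have b1 := Vlow z (by omega)
    have b2 : Real.exp 3 ≤ 27 := by
      rw [show (3 : ℝ) = (3 : ℕ) * 1 by norm_num, Real.exp_nat_mul]
      exact (pow_le_pow_left₀ (by positivity) Real.exp_one_lt_three.le 3).trans (by norm_num)
    refine le_trans ?_ (mul_le_mul b2 b1 (by positivity) (by norm_num))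
    rw [← Real.exp_add]
    push_cast at q3
    exact Real.exp_le_exp.2 (by linarith)
  set M := ∏ p ∈ Q, p with hM
  have M0 : 0 < M := prod_pos fun p hp => (q0 p hp).pos
  have r1 : Function.Periodic (BH.ind Q) M :=
    prod_periodic Q (fun q n => 1 - if q ∣ n then (1 : ℝ) else 0) fun q _ n => by
      simp only [Nat.dvd_add_self_right]
  have r2 : ∑ x ∈ range M, BH.ind Q x = V * M := by
    refine (sum_prod_crt Q q0 (fun q n => 1 - if q ∣ n then (1 : ℝ) else 0) fun q _ n => by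
      simp only [Nat.dvd_add_self_right]).trans ?_
    rw [hV, hM, BH.V, Nat.cast_prod, ← prod_mul_distrib]
    refine prod_congr rfl fun q hq => ?_
    have : (q : ℝ) ≠ 0 := by exact_mod_cast (q0 q hq).ne_zero
    rw [sum_sub_distrib, sum_ite_dvd q (q0 q hq).pos]
    simp only [sum_const, card_range, nsmul_eq_mul]
    field_simp; ring
  obtain ⟨D, D0, hD⟩ := table (V / (900 * (2 ^ m (J ^ 2) : ℕ))) (by positivity)
  refine ⟨V / 20, by positivity, fun N0 => ?_⟩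
  set r := D * (N0 + 4 * M ^ 2) with hr
  have r3 : N0 + 4 * M ^ 2 ≤ r := Nat.le_mul_of_pos_left _ D0
  set H := r ^ 2 with hH
  have H1 : r ≤ H := Nat.le_self_pow two_ne_zero r
  have H2 : M ≤ M ^ 2 := Nat.le_self_pow two_ne_zero M
  set G : ℕ → Prop := fun b => (∀ p ∈ P0, ¬ p ∣ b) ∧ ∀ j, J ≤ j → (2 ^ m (j ^ 2)) ^ 2 ≤ 4 * H →
    om (P (j ^ 2)) b ≤ 10001 / 10000 * ∑ p ∈ P (j ^ 2), 1 / (p : ℝ) with hG
  set E := (Ico (H + 1) (H + 1 + H)).filter fun n => (∀ p ∈ Q, ¬ p ∣ n) ∧ G (2 * n) with hE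
  have tj : ∀ j, j < 2 ^ m (j ^ 2) := fun j => lt_of_le_of_lt
    ((Nat.le_self_pow two_ne_zero j).trans (Nat.le_add_left _ k)) (tau _ _ _ (l3 (j ^ 2))).1
  have HV : 0 ≤ (H : ℝ) * V := by positivity
  have cE : 2 / 5 * (H * V) ≤ E.card := by
    have b1 := (abs_le.1 (cnt2 _ M V M0 (BH.ind_nonneg Q) r1 r2 1 (H + 1) H one_pos (by simp))).1
    simp only [one_dvd, if_true, mul_one, Nat.cast_one, div_one] at b1
    have b2 : ∑ x ∈ Ico (H + 1) (H + 1 + H), BH.ind Q x ≤ ∑ x ∈ Ico (H + 1) (H + 1 + H),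
        ((if (∀ p ∈ Q, ¬ p ∣ x) ∧ G (2 * x) then 1 else 0) +
        ∑ j ∈ (Ioo (J - 1) (4 * H + 1)).filter fun j => (2 ^ m (j ^ 2)) ^ 2 ≤ 4 * H,
          if om (P (j ^ 2)) x ≤ 10001 / 10000 * ∑ p ∈ P (j ^ 2), 1 / (p : ℝ) then 0
          else BH.ind Q x) := by
      refine sum_le_sum fun x _ => ?_
      have i0 := BH.ind_nonneg Q x
      by_cases c1 : ∀ p ∈ Q, ¬ p ∣ x
      · by_cases c2 : G (2 * x)
        · rw [if_pos ⟨c1, c2⟩]
          exact le_add_of_le_of_nonneg (BH.ind_eq_one c1).le (sum_nonneg fun _ _ => by positivity)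
        · have c3 : ∀ p ∈ P0, ¬ p ∣ 2 * x := fun p hp h => by
            obtain ⟨h1, h2⟩ := mem_erase.1 hp
            exact c1 p h2 (((Nat.coprime_primes (q0 p h2) Nat.prime_two).2 h1).dvd_of_dvd_mul_left h)
          simp only [hG, not_and, not_forall] at c2
          obtain ⟨j, j1, j2, j3⟩ := c2 c3
          rw [om_two _ fun p hp => ⟨(hP _ p hp).1, by have := (hP _ p hp).2.1; omega⟩] at j3
          refine le_add_of_nonneg_of_le (by positivity) (le_trans ?_ (single_le_sum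
            (fun _ _ => by positivity) (mem_filter.2 ⟨mem_Ioo.2 ⟨by omega, ?_⟩, j2⟩ : j ∈ _)))
          · rw [if_neg j3]
          · have := tj j
            have := Nat.le_self_pow two_ne_zero (2 ^ m (j ^ 2))
            omega
      · push Not at c1
        obtain ⟨p, hp, h⟩ := c1
        exact (BH.ind_eq_zero hp h).trans_le (add_nonneg (by positivity)
          (sum_nonneg fun _ _ => by positivity))
    rw [sum_add_distrib, sum_comm, sum_boole] at b2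
    have b3 := mul_le_mul_of_nonneg_left (sum_Ioo_inv_sq_le (α := ℝ) (J - 1) (4 * H + 1))
      (by positivity : 0 ≤ 2 * 10 ^ 8 * (H * V))
    rw [Nat.cast_sub (by omega), Nat.cast_one, sub_add_cancel, mul_sum] at b3
    have b4 := b2.trans (add_le_add le_rfl (((sum_le_sum fun j hj => by
      obtain ⟨j1, j2⟩ := mem_filter.1 hj
      have j3 := (mem_Ioo.1 j1).1
      have j4 := (tau _ _ _ (l3 (j ^ 2))).2
      have j5 : M * 2 ^ m (j ^ 2) ≤ H := (Nat.pow_le_pow_iff_left two_ne_zero).1 (by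
        rw [mul_pow, sq H]
        exact (Nat.mul_le_mul_left _ j2).trans (by
          rw [← mul_assoc]; exact Nat.mul_le_mul_right _ (by omega)))
      have j6 : (M : ℝ) * (2 ^ m (j ^ 2) : ℕ) ≤ H := by exact_mod_cast j5
      refine (cheb2 _ M V M0 (BH.ind_nonneg Q) r1 r2 V0.le _ (fun p hp => ⟨(hP _ p hp).1,
        Nat.Coprime.prod_right fun q hq => (Nat.coprime_primes (hP _ p hp).1 (q0 q hq)).2 (by
          have := (hP _ p hp).2.1
          have := (Nat.mem_primesLE.1 hq).1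
          omega)⟩) (H + 1) H (j ^ 2 : ℕ) (by exact_mod_cast Nat.one_le_pow _ _ (by omega)) (l1 _)
        (le_trans ?_ j6)).trans_eq (by push_cast; ring)
      rw [mul_comm 3, mul_assoc]
      refine mul_le_mul_of_nonneg_left (le_trans ?_ j4) (by positivity)
      gcongr
      omega).trans (sum_le_sum_of_subset_of_nonneg (filter_subset _ _)
        fun _ _ _ => by positivity)).trans b3))
    have b5 : (2 * M : ℝ) ≤ H := by exact_mod_cast (by omega : 2 * M ≤ H)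
    have b6 : 2 / (J : ℝ) ≤ 2 / 10 ^ 10 := by gcongr
    nlinarith [mul_le_mul_of_nonneg_left b5 V0.le, mul_le_mul_of_nonneg_left b6 HV]
  set C := (Ioc 0 (4 * H)).filter fun a => ∃ t < 4 * H, 2 ^ m' ≤ 2 ^ t ∧
    2 ^ m (J ^ 2) * (2 ^ t) ^ 2 ≤ 4 * H ∧ a ∈ Cb (4 * H) (2 ^ t) G with hC
  have cC := conflicts J m' k (4 * H) P' P0 P m G hJ (fun p hp => q0 p (mem_of_mem_erase hp))
    (fun p hp => mem_erase.2 ⟨(a0 p hp).2.1.ne', Nat.mem_primesLE.2
      ⟨by have := (a0 p hp).2.2; omega, (a0 p hp).1⟩⟩) a1 (a2.trans (Nat.cast_le.2 (by omega)))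
    (l3mono _ _ _ _ (Nat.le_add_right _ _) a3) (by linarith) (by linarith) (by linarith)
    (fun n p hp => ⟨(hP n p hp).1, by have := (hP n p hp).2.1; omega⟩)
    (fun n => disjoint_left.2 fun p h1 h2 => by
      have := (hP n p h2).2.1
      have := (Nat.mem_primesLE.1 (mem_of_mem_erase h1)).1
      omega) l1 l2
    (fun n => l3mono _ _ _ _ ((card_union_le _ _).trans (by
      have := card_le_card (s := P0) (t := Ioc 0 z) fun p hp => mem_Ioc.2
        ⟨(q0 p (mem_of_mem_erase hp)).pos, (Nat.mem_primesLE.1 (mem_of_mem_erase hp)).1⟩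
      rw [Nat.card_Ioc] at this
      omega)) (l3 n)) l4 (fun b hb => hb) C fun a ha => (mem_filter.1 ha).2
  set Pr := (range (6 * r) ×ˢ range (6 * r)).image fun y : ℕ × ℕ => y.1 * y.2 with hPr
  set R2 := (range (2 ^ m (J ^ 2)) ×ˢ Pr).image fun y : ℕ × ℕ => y.1 * y.2 with hR2
  have c2 : (R2.card : ℝ) ≤ H * V / 25 := by
    have b1 := hD (6 * r) ⟨6 * (N0 + 4 * M ^ 2), by rw [hr]; ring⟩
    refine (Nat.cast_le.2 card_image_le).trans ?_
    rw [card_product, card_range, Nat.cast_mul]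
    refine (mul_le_mul_of_nonneg_left b1 (by positivity)).trans_eq ?_
    rw [hH]; push_cast; field_simp; ring
  have key : ∀ a n, 0 < a → a ≤ 4 * H → n ∈ E → a ≠ 2 * n → a + 2 * n ∣ a * (2 * n) →
      a ∈ C ∪ R2 := by
    intro a n a0 a1 hn hne hd
    obtain ⟨n1, n2, n3⟩ := mem_filter.1 hn
    rcases key0 r (2 ^ m') (2 ^ m (J ^ 2)) G a n a0 a1 (mem_Ico.1 n1) n2 n3 hne hd with h | h
    · exact mem_union_left _ (mem_filter.2 ⟨mem_Ioc.2 ⟨a0, a1⟩, h⟩)
    · exact mem_union_right _ h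
  set B := (range (2 * H)).image (fun i => 2 * i + 1) ∪ E.image fun n => 2 * n with hB
  have mB : ∀ a ∈ B, 0 < a ∧ a ≤ 4 * H ∧ (Odd a ∨ ∃ n ∈ E, a = 2 * n) := by
    intro a ha
    rcases mem_union.1 ha with h | h
    · obtain ⟨i, hi, rfl⟩ := mem_image.1 h
      have := mem_range.1 hi
      exact ⟨by omega, by omega, Or.inl ⟨i, rfl⟩⟩
    · obtain ⟨n, hn, rfl⟩ := mem_image.1 h
      have := mem_Ico.1 (mem_filter.1 hn).1
      exact ⟨by omega, by omega, Or.inr ⟨n, hn, rfl⟩⟩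
  refine ⟨4 * H, by omega, B \ (C ∪ R2), fun a ha => ?_, fun a ha b hb hab hd => ?_, ?_⟩
  · have := mB a (mem_sdiff.1 ha).1
    exact mem_Icc.2 ⟨this.1, this.2.1⟩
  · obtain ⟨a1, a2, a3⟩ := mB a (mem_sdiff.1 ha).1
    obtain ⟨b1, b2, b3⟩ := mB b (mem_sdiff.1 hb).1
    rcases b3 with b3 | ⟨n, hn, rfl⟩
    · rcases a3 with a3 | ⟨n, hn, rfl⟩
      · exact (Nat.not_even_iff_odd.2 (a3.mul b3))
          (even_iff_two_dvd.2 ((even_iff_two_dvd.1 (a3.add_odd b3)).trans hd))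
      · exact (mem_sdiff.1 hb).2 (key b n b1 b2 hn hab.symm (by rwa [add_comm, mul_comm b]))
    · exact (mem_sdiff.1 ha).2 (key a n a1 a2 hn hab hd)
  · have b1 := le_card_sdiff (C ∪ R2) B
    have b2 := card_union_le C R2
    have b3 : B.card = 2 * H + E.card := by
      rw [hB, card_union_of_disjoint (disjoint_left.2 fun a h1 h2 => by
        obtain ⟨i, -, rfl⟩ := mem_image.1 h1
        obtain ⟨n, -, h⟩ := mem_image.1 h2
        omega), card_image_of_injective _ fun a b h => by simpa using h,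
        card_image_of_injective _ fun a b h => by simpa using h, card_range]
    have b4 : 2 * H + E.card ≤ (B \ (C ∪ R2)).card + C.card + R2.card := by omega
    have b5 := (Nat.cast_le (α := ℝ)).2 b4
    have b6 : 5 * ((4 * H : ℕ) : ℝ) * Real.exp (-l) / J ≤ 5 * (4 * H : ℕ) * (27 * V) / 10 ^ 10 := by
      gcongr
    push_cast at b5 b6 cC ⊢
    linarith

end Pool.Agent.H59.EG
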