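import Mathlib

namespace Pool.Agent.H59.EL
open Finset

/-- linear functionals on functions on `M` (finite measures) -/
abbrev Fn (M : Type) := (M → ℝ) →ₗ[ℝ] ℝ

noncomputable def pt {M : Type} (a : M) : Fn M := LinearMap.proj a

noncomputable def bd {M N : Type} (Λ : Fn M) (K : M → Fn N) : Fn N := Λ ∘ₗ LinearMap.pi K

noncomputable def mp {M N : Type} (φ : M → N) (Λ : Fn M) : Fn N := bd Λ fun a => pt (φ a)

@[simp] lemma pt_apply {M : Type} (a : M) (F : M → ℝ) : pt a F = F a := rfl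

@[simp] lemma bd_apply {M N : Type} (Λ : Fn M) (K : M → Fn N) (F : N → ℝ) :
    bd Λ K F = Λ fun a => K a F := rfl

@[simp] lemma mp_apply {M N : Type} (φ : M → N) (Λ : Fn M) (F : N → ℝ) :
    mp φ Λ F = Λ fun a => F (φ a) := rfl

/-- positivity on a support -/
def Pos {M : Type} (Λ : Fn M) (P : M → Prop) : Prop := ∀ F : M → ℝ, (∀ a, P a → 0 ≤ F a) → 0 ≤ Λ F

lemma Pos.mono {M : Type} {Λ : Fn M} {P : M → Prop} (h : Pos Λ P) {F G : M → ℝ}
    (hFG : ∀ a, P a → F a ≤ G a) : Λ F ≤ Λ G := by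
  have := h (G - F) fun a ha => by simpa using hFG a ha
  rw [map_sub] at this
  linarith

lemma Pos.congr {M : Type} {Λ : Fn M} {P : M → Prop} (h : Pos Λ P) {F G : M → ℝ}
    (hFG : ∀ a, P a → F a = G a) : Λ F = Λ G :=
  le_antisymm (h.mono fun a ha => (hFG a ha).le) (h.mono fun a ha => (hFG a ha).ge)

lemma Pos.weak {M : Type} {Λ : Fn M} {P R : M → Prop} (h : Pos Λ P) (hPR : ∀ a, P a → R a) :
    Pos Λ R := fun F hF => h F fun a ha => hF a (hPR a ha)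

lemma Pos.bd {M N : Type} {Λ : Fn M} {P : M → Prop} (h : Pos Λ P) {K : M → Fn N} {R : N → Prop}
    (hK : ∀ a, P a → Pos (K a) R) : Pos (bd Λ K) R := fun F hF => h _ fun a ha => hK a ha F hF

lemma Pos.mp {M N : Type} {Λ : Fn M} {P : M → Prop} (h : Pos Λ P) {φ : M → N} {R : N → Prop}
    (hK : ∀ a, P a → R (φ a)) : Pos (mp φ Λ) R := fun F hF => h _ fun a ha => hF _ (hK a ha)

lemma fn_add {M : Type} (Λ : Fn M) (F G : M → ℝ) : Λ (fun a => F a + G a) = Λ F + Λ G :=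
  map_add Λ F G

lemma fn_sub {M : Type} (Λ : Fn M) (F G : M → ℝ) : Λ (fun a => F a - G a) = Λ F - Λ G :=
  map_sub Λ F G

lemma fn_mul {M : Type} (Λ : Fn M) (c : ℝ) (F : M → ℝ) : Λ (fun a => c * F a) = c * Λ F :=
  map_smul Λ c F

lemma fn_mul' {M : Type} (Λ : Fn M) (c : ℝ) (F : M → ℝ) : Λ (fun a => F a * c) = Λ F * c := by
  simp only [mul_comm _ c]; exact fn_mul Λ c F

lemma fn_const {M : Type} (Λ : Fn M) (h : Λ (fun _ => 1) = 1) (c : ℝ) : Λ (fun _ => c) = c := by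
  have := fn_mul Λ c (fun _ => 1)
  simpa [h] using this

lemma fn_sum {M ι : Type} (Λ : Fn M) (s : Finset ι) (F : ι → M → ℝ) :
    Λ (fun a => ∑ i ∈ s, F i a) = ∑ i ∈ s, Λ (F i) := by
  rw [← map_sum]; congr 1; ext a; simp

noncomputable def sg (Q : ℕ) : ℝ := ∑ s ∈ Q.divisors, (1 / (s : ℝ))

noncomputable def hh (Q : ℕ) : ℝ := ∑ p ∈ Q.primeFactors, (1 / (p : ℝ))

/-- expectation over divisors with weight `1/s` -/
noncomputable def Ed (Q : ℕ) : Fn ℕ := (sg Q)⁻¹ • ∑ s ∈ Q.divisors, (1 / (s : ℝ)) • pt s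

lemma Ed_apply (Q : ℕ) (f : ℕ → ℝ) :
    Ed Q f = (sg Q)⁻¹ * ∑ s ∈ Q.divisors, (1 / (s : ℝ)) * f s := by
  simp [Ed, LinearMap.sum_apply]

lemma one_le_sg {Q : ℕ} (hQ : Q ≠ 0) : 1 ≤ sg Q := by
  have := Finset.single_le_sum (f := fun s : ℕ => (1 / (s : ℝ))) (s := Q.divisors)
    (fun _ _ => by positivity) (Nat.one_mem_divisors.2 hQ)
  simpa [sg] using this

lemma sg_nonneg (Q : ℕ) : 0 ≤ sg Q := Finset.sum_nonneg fun _ _ => by positivity

lemma Ed_pos (Q : ℕ) : Pos (Ed Q) (fun s => s ∣ Q ∧ s ≠ 0) := by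
  intro F hF
  rw [Ed_apply]
  refine mul_nonneg (inv_nonneg.2 (sg_nonneg Q)) (Finset.sum_nonneg fun s hs => ?_)
  exact mul_nonneg (by positivity) (hF s ⟨Nat.dvd_of_mem_divisors hs,
    (Nat.pos_of_mem_divisors hs).ne'⟩)

lemma Ed_one {Q : ℕ} (hQ : Q ≠ 0) : Ed Q (fun _ => 1) = 1 := by
  rw [Ed_apply]
  have := one_le_sg hQ
  simp only [mul_one]
  exact inv_mul_cancel₀ (by unfold sg at this ⊢; linarith)

lemma Ed_unit (f : ℕ → ℝ) : Ed 1 f = f 1 := by simp [Ed_apply, sg]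

lemma sum_div_mul {m n : ℕ} (h : m.Coprime n) (f : ℕ → ℝ) :
    ∑ d ∈ (m * n).divisors, f d = ∑ a ∈ m.divisors, ∑ b ∈ n.divisors, f (a * b) := by
  rw [Nat.divisors_mul, Finset.mul_def, Finset.sum_image h.mul_injOn_divisors, Finset.sum_product]

lemma sg_mul {m n : ℕ} (h : m.Coprime n) : sg (m * n) = sg m * sg n := by
  unfold sg
  rw [sum_div_mul h, Finset.sum_mul_sum]
  refine Finset.sum_congr rfl fun a _ => Finset.sum_congr rfl fun b _ => ?_
  push_cast; rw [one_div_mul_one_div]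

lemma Ed_mul {m n : ℕ} (h : m.Coprime n) (f : ℕ → ℝ) :
    Ed (m * n) f = Ed m fun a => Ed n fun b => f (a * b) := by
  simp only [Ed_apply]
  rw [sum_div_mul h, sg_mul h, mul_inv, mul_assoc]
  congr 1
  rw [Finset.mul_sum]
  refine Finset.sum_congr rfl fun a _ => ?_
  simp only [Finset.mul_sum]
  refine Finset.sum_congr rfl fun b _ => ?_
  push_cast; rw [← one_div_mul_one_div]; ring

lemma Ed_comm {M : Type} (Q : ℕ) (Λ : Fn M) (F : ℕ → M → ℝ) :
    Ed Q (fun s => Λ (F s)) = Λ fun a => Ed Q fun s => F s a := by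
  simp only [Ed_apply]
  rw [fn_mul, fn_sum]
  congr 1
  exact Finset.sum_congr rfl fun s _ => (fn_mul Λ _ _).symm

lemma Ed_prime (Q : ℕ) (u : ℕ → ℝ) : Ed Q (fun s => if s.Prime then u s else 0) =
    (sg Q)⁻¹ * ∑ p ∈ Q.primeFactors, (1 / (p : ℝ)) * u p := by
  rw [Ed_apply, Nat.primeFactors_eq_to_filter_divisors_prime, Finset.sum_filter]
  congr 1
  refine Finset.sum_congr rfl fun s _ => ?_
  split_ifs <;> simp

lemma sg_prod (B : Finset ℕ) (hB : ∀ p ∈ B, p.Prime) :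
    sg (∏ p ∈ B, p) = ∏ p ∈ B, (1 + 1 / (p : ℝ)) := by
  classical
  induction B using Finset.induction_on with
  | empty => simp [sg]
  | insert p B hp ih =>
    have hpp := hB p (Finset.mem_insert_self _ _)
    have hB' : ∀ q ∈ B, q.Prime := fun q hq => hB q (Finset.mem_insert_of_mem hq)
    rw [Finset.prod_insert hp, Finset.prod_insert hp, sg_mul, ih hB']
    · congr 1
      unfold sg
      rw [hpp.sum_divisors]; simp [add_comm]
    · refine Nat.Coprime.prod_right fun q hq => (Nat.coprime_primes hpp (hB' q hq)).2 ?_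
      rintro rfl; exact hp hq

lemma sg_sqf {Q : ℕ} (hQ : Squarefree Q) : sg Q = ∏ p ∈ Q.primeFactors, (1 + 1 / (p : ℝ)) := by
  conv_lhs => rw [← Nat.prod_primeFactors_of_squarefree hQ]
  exact sg_prod _ fun p hp => Nat.prime_of_mem_primeFactors hp

lemma sg_le_exp {Q : ℕ} (hQ : Squarefree Q) : sg Q ≤ Real.exp (hh Q) := by
  rw [sg_sqf hQ, hh, Real.exp_sum]
  refine Finset.prod_le_prod (fun _ _ => by positivity) fun p _ => ?_
  have := Real.add_one_le_exp (1 / (p : ℝ))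
  linarith

lemma sg_totient {Q : ℕ} (hQ : Squarefree Q) : sg Q * Q.totient ≤ Q := by
  have h1 := congrArg (Rat.cast : ℚ → ℝ) (Nat.totient_eq_mul_prod_factors Q)
  push_cast at h1
  rw [sg_sqf hQ, h1, mul_left_comm, ← Finset.prod_mul_distrib]
  refine mul_le_of_le_one_right (by positivity) (Finset.prod_le_one (fun p hp => ?_) fun p _ => ?_)
  · have : (1 : ℝ) ≤ p := by exact_mod_cast (Nat.prime_of_mem_primeFactors hp).pos
    have := inv_le_one_of_one_le₀ this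
    exact mul_nonneg (by positivity) (by linarith)
  · rw [one_div]; nlinarith [sq_nonneg ((p : ℝ)⁻¹)]

lemma gcd_split {Q Q' a b : ℕ} (h : Q.Coprime Q') (ha : a ∣ Q) (ha0 : a ≠ 0) (hb : b ∣ Q') :
    Nat.gcd (a * b) Q = a ∧ a * b / Nat.gcd (a * b) Q = b := by
  have h1 : Nat.gcd (a * b) Q = a := by
    rw [Nat.Coprime.gcd_mul_right_cancel a (Nat.Coprime.coprime_dvd_left hb h.symm)]
    exact Nat.gcd_eq_left ha
  exact ⟨h1, by rw [h1, Nat.mul_div_cancel_left _ (Nat.pos_of_ne_zero ha0)]⟩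

lemma lcm_mul_cop {Q Q' a b a' b' : ℕ} (h : Q.Coprime Q') (ha : a ∣ Q) (hb : b ∣ Q) (ha' : a' ∣ Q')
    (hb' : b' ∣ Q') : Nat.lcm (a * a') (b * b') = Nat.lcm a b * Nat.lcm a' b' := by
  refine Nat.dvd_antisymm (Nat.lcm_dvd ?_ ?_) ?_
  · exact Nat.mul_dvd_mul (Nat.dvd_lcm_left _ _) (Nat.dvd_lcm_left _ _)
  · exact Nat.mul_dvd_mul (Nat.dvd_lcm_right _ _) (Nat.dvd_lcm_right _ _)
  · refine Nat.Coprime.mul_dvd_of_dvd_of_dvd ?_ (Nat.lcm_dvd ?_ ?_) (Nat.lcm_dvd ?_ ?_)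
    · exact Nat.Coprime.coprime_dvd_right (Nat.lcm_dvd ha' hb')
        (Nat.Coprime.coprime_dvd_left (Nat.lcm_dvd ha hb) h)
    · exact (dvd_mul_right _ _).trans (Nat.dvd_lcm_left _ _)
    · exact (dvd_mul_right _ _).trans (Nat.dvd_lcm_right _ _)
    · exact (dvd_mul_left _ _).trans (Nat.dvd_lcm_left _ _)
    · exact (dvd_mul_left _ _).trans (Nat.dvd_lcm_right _ _)

end Pool.Agent.H59.EL
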