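import Pool.Agent.H59.EL1

namespace Pool.Agent.H59.EL
open Finset

abbrev T4 := ℕ × ℕ × ℕ × ℕ

def v0 (c : T4) : ℕ := c.1 * c.2.2.1 * c.2.2.2
def sxy (c : T4) : T4 := (c.1, c.2.2.1, c.2.1, c.2.2.2)
def sxz (c : T4) : T4 := (c.1, c.2.2.2, c.2.2.1, c.2.1)
noncomputable def DD (c : T4) : ℝ := Real.log c.2.2.1 - Real.log c.2.2.2

lemma v0_mul (c c' : T4) : v0 (c * c') = v0 c * v0 c' := by
  simp only [v0, Prod.fst_mul, Prod.snd_mul]; ring

/-- the local coupling on one block -/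
noncomputable def loc (Q : ℕ) : Fn T4 := mp (fun s => (s, 1, 1, 1)) (Ed Q) +
  (sg Q)⁻¹ • ∑ q ∈ Q.primeFactors, (1 / (3 * (q : ℝ))) •
    (pt (1, q, 1, 1) + pt (1, 1, q, 1) + pt (1, 1, 1, q) - (2 : ℝ) • pt (q, 1, 1, 1) - pt 1)

lemma loc_apply (Q : ℕ) (F : T4 → ℝ) : loc Q F = Ed Q (fun s => F (s, 1, 1, 1)) +
    (sg Q)⁻¹ * ∑ q ∈ Q.primeFactors, (1 / (3 * (q : ℝ))) *
      (F (1, q, 1, 1) + F (1, 1, q, 1) + F (1, 1, 1, q) - 2 * F (q, 1, 1, 1) - F 1) := by
  simp [loc, LinearMap.sum_apply]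

def Adm (Q : ℕ) (U : ℝ) (c : T4) : Prop :=
  c.1 * c.2.1 * c.2.2.1 * c.2.2.2 ∣ Q ∧ c.1 ≠ 0 ∧ c.2.1 ≠ 0 ∧ c.2.2.1 ≠ 0 ∧ c.2.2.2 ≠ 0 ∧
    Real.log c.2.1 ≤ U ∧ Real.log c.2.2.1 ≤ U ∧ Real.log c.2.2.2 ≤ U

lemma Adm.mul {Q Q' : ℕ} {U U' : ℝ} {c c' : T4} (h : Adm Q U c) (h' : Adm Q' U' c') :
    Adm (Q * Q') (U + U') (c * c') := by
  obtain ⟨g, x, y, z⟩ := c
  obtain ⟨g', x', y', z'⟩ := c'
  obtain ⟨h1, h2, h3, h4, h5, h6, h7, h8⟩ := h
  obtain ⟨k1, k2, k3, k4, k5, k6, k7, k8⟩ := h'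
  simp only [Adm, Prod.mk_mul_mk] at *
  refine ⟨?_, by positivity, by positivity, by positivity, by positivity, ?_, ?_, ?_⟩
  · convert Nat.mul_dvd_mul h1 k1 using 1; ring
  all_goals
    push_cast
    rw [Real.log_mul (by positivity) (by positivity)]
    linarith

lemma Adm.weak {Q : ℕ} {U U' : ℝ} {c : T4} (h : Adm Q U c) (hU : U ≤ U') : Adm Q U' c := by
  obtain ⟨h1, h2, h3, h4, h5, h6, h7, h8⟩ := h
  exact ⟨h1, h2, h3, h4, h5, h6.trans hU, h7.trans hU, h8.trans hU⟩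

lemma Adm.v0_dvd {Q : ℕ} {U : ℝ} {c : T4} (h : Adm Q U c) : v0 c ∣ Q :=
  Dvd.dvd.trans ⟨c.2.1, by unfold v0; ring⟩ h.1

lemma loc_pos {Q : ℕ} {U : ℝ} (hQ : Q ≠ 0) (hh3 : hh Q ≤ 3) (hU : 0 ≤ U)
    (hq : ∀ q ∈ Q.primeFactors, Real.log q ≤ U) : Pos (loc Q) (Adm Q U) := by
  intro F hF
  rw [loc_apply, Ed_apply, ← mul_add]
  refine mul_nonneg (inv_nonneg.2 (sg_nonneg Q)) ?_
  have h0 : ∀ s ∈ Q.divisors, 0 ≤ F (s, 1, 1, 1) := fun s hs => hF _ (by
    have := Nat.pos_of_mem_divisors hs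
    simp [Adm, Nat.dvd_of_mem_divisors hs, hU, this.ne'])
  have h1 : (1 : ℕ) ∉ Q.primeFactors := fun h => Nat.not_prime_one (Nat.prime_of_mem_primeFactors h)
  have h2 : ∑ s ∈ insert 1 Q.primeFactors, (1 / (s : ℝ)) * F (s, 1, 1, 1) ≤
      ∑ s ∈ Q.divisors, (1 / (s : ℝ)) * F (s, 1, 1, 1) := by
    refine Finset.sum_le_sum_of_subset_of_nonneg (fun s hs => ?_)
      (fun s hs _ => mul_nonneg (by positivity) (h0 s hs))
    rcases Finset.mem_insert.1 hs with rfl | hs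
    · exact Nat.one_mem_divisors.2 hQ
    · exact Nat.mem_divisors.2 ⟨Nat.dvd_of_mem_primeFactors hs, hQ⟩
  rw [Finset.sum_insert h1] at h2
  have h3 : 0 ≤ F 1 := h0 1 (Nat.one_mem_divisors.2 hQ)
  have h4 : ∑ q ∈ Q.primeFactors, (-(1 / (q : ℝ) * F (q, 1, 1, 1)) - 1 / (q : ℝ) * (F 1 / 3)) ≤
      ∑ q ∈ Q.primeFactors, (1 / (3 * (q : ℝ))) *
      (F (1, q, 1, 1) + F (1, 1, q, 1) + F (1, 1, 1, q) - 2 * F (q, 1, 1, 1) - F 1) := by
    refine Finset.sum_le_sum fun q hq' => ?_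
    have hp := (Nat.prime_of_mem_primeFactors hq').ne_zero
    have hd := Nat.dvd_of_mem_primeFactors hq'
    have a1 : 0 ≤ F (1, q, 1, 1) := hF _ (by simp [Adm, hd, hU, hp, hq q hq'])
    have a2 : 0 ≤ F (1, 1, q, 1) := hF _ (by simp [Adm, hd, hU, hp, hq q hq'])
    have a3 : 0 ≤ F (1, 1, 1, q) := hF _ (by simp [Adm, hd, hU, hp, hq q hq'])
    have a4 : 0 ≤ F (q, 1, 1, 1) := hF _ (by simp [Adm, hd, hU, hp])
    have a5 : (0 : ℝ) ≤ 1 / (q : ℝ) := by positivity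
    rw [show 1 / (3 * (q : ℝ)) = 1 / (q : ℝ) / 3 by ring]
    nlinarith [mul_nonneg a5 a1, mul_nonneg a5 a2, mul_nonneg a5 a3, mul_nonneg a5 a4]
  rw [Finset.sum_sub_distrib, Finset.sum_neg_distrib, ← Finset.sum_mul] at h4
  have h5 : hh Q * (F 1 / 3) ≤ 3 * (F 1 / 3) := by gcongr
  have h6 : F (1, 1, 1, 1) = F 1 := rfl
  unfold hh at h5
  simp only [Nat.cast_one, div_one, one_mul] at h2
  linarith

noncomputable def col (s : ℕ) : Fn ℝ :=
  if s.Prime then (1 / 3 : ℝ) • (pt 0 + pt (Real.log s) + pt (-Real.log s)) else pt 0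

lemma col_prime {s : ℕ} (h : s.Prime) (φ : ℝ → ℝ) :
    col s φ = (φ 0 + φ (Real.log s) + φ (-Real.log s)) / 3 := by
  simp [col, h]; ring

lemma col_not {s : ℕ} (h : ¬ s.Prime) (φ : ℝ → ℝ) : col s φ = φ 0 := by simp [col, h]

lemma col_pos (s : ℕ) : Pos (col s) fun _ => True := by
  intro F hF
  have := hF 0 trivial
  have := hF (Real.log s) trivial
  have := hF (-Real.log s) trivial
  by_cases h : s.Prime
  · rw [col_prime h]; positivity
  · rwa [col_not h]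

lemma col_one (s : ℕ) : col s (fun _ => 1) = 1 := by
  by_cases h : s.Prime
  · rw [col_prime h]; norm_num
  · rw [col_not h]

lemma col_comm {M : Type} (s : ℕ) (Λ : Fn M) (F : ℝ → M → ℝ) :
    col s (fun d => Λ (F d)) = Λ fun a => col s fun d => F d a := by
  by_cases h : s.Prime
  · simp only [col_prime h, div_eq_mul_inv]
    rw [fn_mul', fn_add, fn_add]
  · simp only [col_not h]

lemma loc_cond (Q : ℕ) (G : ℕ → ℝ → ℝ) :
    loc Q (fun c => G (v0 c) (DD c)) = Ed Q fun s => col s (G s) := by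
  rw [loc_apply]
  have h1 : (fun s => col s (G s)) = fun s => G s 0 + if s.Prime then
      (G s (Real.log s) + G s (-Real.log s) - 2 * G s 0) / 3 else 0 := by
    ext s
    split_ifs with h
    · rw [col_prime h]; ring
    · rw [col_not h]; ring
  rw [h1, fn_add, Ed_prime]
  simp only [v0, DD, mul_one, one_mul, Nat.cast_one, Real.log_one, sub_self, sub_zero, zero_sub,
    Prod.fst_one, Prod.snd_one]
  congr 2
  refine Finset.sum_congr rfl fun q _ => ?_
  ring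

noncomputable def Cp : List ℕ → Fn T4
  | [] => pt 1
  | Q :: bs => bd (loc Q) fun c => mp (c * ·) (Cp bs)

noncomputable def Col : List ℕ → ℕ → Fn ℝ
  | [], _ => pt 0
  | Q :: bs, s => bd (col (Nat.gcd s Q)) fun d => mp (d + ·) (Col bs (s / Nat.gcd s Q))

noncomputable def Nm : List ℕ → ℝ → ℕ → ℝ
  | [], c, _ => if 0 ≤ c then 1 else 0
  | Q :: bs, c, s => if 0 ≤ c then
      Nm bs (c - 0.0184 + if (Nat.gcd s Q).Prime then 1 else 0) (s / Nat.gcd s Q) else 0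

lemma Nm_mem (bs : List ℕ) : ∀ c s, 0 ≤ Nm bs c s ∧ Nm bs c s ≤ 1 := by
  induction bs with
  | nil => intro c s; unfold Nm; split_ifs <;> norm_num
  | cons Q bs ih =>
    intro c s; unfold Nm
    by_cases h : 0 ≤ c
    · rw [if_pos h]; exact ih _ _
    · rw [if_neg h]; norm_num

lemma Col_pos (bs : List ℕ) : ∀ s, Pos (Col bs s) fun _ => True := by
  induction bs with
  | nil => intro s F hF; exact hF _ trivial
  | cons Q bs ih => intro s; exact (col_pos _).bd fun d _ => (ih _).mp fun _ _ => trivial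

lemma Col_one (bs : List ℕ) : ∀ s, Col bs s (fun _ => 1) = 1 := by
  induction bs with
  | nil => intro s; rfl
  | cons Q bs ih => intro s; simp only [Col, bd_apply, mp_apply, ih, col_one]

lemma Cp_sym (σ : T4 → T4) (hm : ∀ c c', σ (c * c') = σ c * σ c') (h1 : σ 1 = 1)
    (hl : ∀ Q F, loc Q (fun c => F (σ c)) = loc Q F) (bs : List ℕ) :
    ∀ F : T4 → ℝ, Cp bs (fun c => F (σ c)) = Cp bs F := by
  induction bs with
  | nil => intro F; simp [Cp, h1]
  | cons Q bs ih =>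
    intro F
    simp only [Cp, bd_apply, mp_apply, hm]
    rw [← hl Q (fun c => Cp bs fun c' => F (c * c'))]
    congr 1; ext c
    exact ih fun c' => F (σ c * c')

lemma Cp_sxy (bs : List ℕ) (F : T4 → ℝ) : Cp bs (fun c => F (sxy c)) = Cp bs F := by
  refine Cp_sym sxy (fun _ _ => rfl) rfl (fun Q F => ?_) bs F
  simp only [loc_apply, sxy, Prod.fst_one, Prod.snd_one]
  congr 2
  refine Finset.sum_congr rfl fun q _ => ?_
  have : F (1, 1, 1, 1) = F 1 := rfl
  rw [this]; ring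

lemma Cp_sxz (bs : List ℕ) (F : T4 → ℝ) : Cp bs (fun c => F (sxz c)) = Cp bs F := by
  refine Cp_sym sxz (fun _ _ => rfl) rfl (fun Q F => ?_) bs F
  simp only [loc_apply, sxz, Prod.fst_one, Prod.snd_one]
  congr 2
  refine Finset.sum_congr rfl fun q _ => ?_
  have : F (1, 1, 1, 1) = F 1 := rfl
  rw [this]; ring

/-- window bound -/
def WB (η : ℝ) (Q : ℕ) (β : ℝ) : Prop :=
  ∀ t : ℝ, ∑ q ∈ Q.primeFactors, (if |Real.log q - t| ≤ 2 * η then 1 / (q : ℝ) else 0) ≤ β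

/-- a chain of blocks at geometrically decreasing scales -/
def Ch (η : ℝ) : ℝ → List ℕ → Prop
  | _, [] => True
  | l, Q :: bs => Q ≠ 0 ∧ Q.Coprime bs.prod ∧ hh Q ≤ 3 ∧ 0.019 * sg Q ≤ hh Q ∧
      WB η Q (11 * η / l) ∧ (∀ q ∈ Q.primeFactors, Real.log q ≤ 1.02 * l) ∧ Ch η (l / 1.02) bs

lemma Ch.ne {η : ℝ} : ∀ {bs : List ℕ} {l : ℝ}, Ch η l bs → bs.prod ≠ 0
  | [], _, _ => by simp
  | Q :: bs, _, h => by
    rw [List.prod_cons]; exact mul_ne_zero h.1 (Ch.ne h.2.2.2.2.2.2)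

lemma Cp_pos {η : ℝ} : ∀ {bs : List ℕ} {l : ℝ}, 0 ≤ l → Ch η l bs →
    Pos (Cp bs) (Adm bs.prod (53 * l))
  | [], l, hl, _ => fun F hF => hF _ (by simp [Adm]; positivity)
  | Q :: bs, l, hl, h => by
    obtain ⟨h1, _, h3, _, _, h6, h7⟩ := h
    refine (loc_pos h1 h3 (by positivity) h6).bd fun c hc =>
      (Cp_pos (by positivity) h7).mp fun c' hc' => (hc.mul hc').weak ?_
    have : 53 * (l / 1.02) = l * (53 / 1.02) := by ring
    rw [this]; nlinarith

lemma Cp_cond {η : ℝ} : ∀ {bs : List ℕ} {l : ℝ}, 0 ≤ l → Ch η l bs → ∀ G : ℕ → ℝ → ℝ,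
    Cp bs (fun c => G (v0 c) (DD c)) = Ed bs.prod fun s => Col bs s (G s)
  | [], l, _, _, G => by simp [Cp, Col, Ed_unit, v0, DD]
  | Q :: bs, l, hl, h, G => by
    obtain ⟨h1, h2, h3, _, _, h6, h7⟩ := h
    have hl' : 0 ≤ l / 1.02 := by positivity
    simp only [Cp, bd_apply, mp_apply, List.prod_cons]
    have e1 : loc Q (fun c => Cp bs fun c' => G (v0 (c * c')) (DD (c * c'))) =
        loc Q fun c => (fun s d => Ed bs.prod fun s' => Col bs s' fun d' => G (s * s') (d + d'))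
          (v0 c) (DD c) := by
      refine (loc_pos h1 h3 (by positivity) h6).congr fun c hc => ?_
      refine Eq.trans ?_ (Cp_cond hl' h7 (fun s' d' => G (v0 c * s') (DD c + d')))
      refine (Cp_pos hl' h7).congr fun c' hc' => ?_
      rw [v0_mul]
      congr 1
      obtain ⟨_, _, _, a1, a2, _⟩ := hc
      obtain ⟨_, _, _, b1, b2, _⟩ := hc'
      simp only [DD, Prod.fst_mul, Prod.snd_mul]
      push_cast
      rw [Real.log_mul (by positivity) (by positivity), Real.log_mul (by positivity) (by positivity)]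
      ring
    refine (e1.trans (loc_cond Q
      (fun s d => Ed bs.prod fun s' => Col bs s' fun d' => G (s * s') (d + d')))).trans ?_
    rw [Ed_mul h2]
    refine (Ed_pos Q).congr fun s hs => ?_
    rw [col_comm]
    refine (Ed_pos _).congr fun s' hs' => ?_
    obtain ⟨g1, g2⟩ := gcd_split h2 hs.1 hs.2 hs'.1
    simp only [Col, bd_apply, mp_apply]
    rw [g2, g1]

lemma Cp_marg {η : ℝ} {bs : List ℕ} {l : ℝ} (hl : 0 ≤ l) (h : Ch η l bs) (f : ℕ → ℝ) :
    Cp bs (fun c => f (v0 c)) = Ed bs.prod f := by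
  rw [Cp_cond hl h (fun s _ => f s)]
  congr 1; ext s
  exact fn_const _ (Col_one bs s) _

lemma fail_le {η : ℝ} : ∀ {bs : List ℕ} {l : ℝ}, Ch η l bs → ∀ c : ℝ,
    Ed bs.prod (fun s => 1 - Nm bs c s) ≤ Real.exp (-(0.02 * c))
  | bs, l, h, c => by
    by_cases hc : 0 ≤ c
    · match bs, h with
      | [], _ => simp only [List.prod_nil, Ed_unit, Nm, if_pos hc, sub_self]; positivity
      | Q :: bs, ⟨h1, h2, h3, h4, _, h6, h7⟩ =>
        rw [List.prod_cons, Ed_mul h2]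
        set A := Real.exp (-(0.02 * (c - 0.0184))) with hA
        have e1 : Ed Q (fun a => Ed bs.prod fun b => 1 - Nm (Q :: bs) c (a * b)) ≤
            Ed Q fun a => A + if a.Prime then -(A * (1 - Real.exp (-0.02))) else 0 := by
          refine (Ed_pos Q).mono fun s hs => ?_
          have e2 : Ed bs.prod (fun b => 1 - Nm (Q :: bs) c (s * b)) =
              Ed bs.prod fun b => 1 - Nm bs (c - 0.0184 + if s.Prime then 1 else 0) b := by
            refine (Ed_pos _).congr fun s' hs' => ?_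
            obtain ⟨g1, g2⟩ := gcd_split h2 hs.1 hs.2 hs'.1
            simp only [Nm, if_pos hc]
            rw [g2, g1]
          rw [e2]
          refine (fail_le h7 _).trans (le_of_eq ?_)
          split_ifs
          · rw [mul_sub A, mul_one, hA, ← Real.exp_add]; ring_nf
          · simp [hA]
        refine e1.trans ?_
        rw [fn_add, fn_const _ (Ed_one h1), Ed_prime, ← Finset.sum_mul]
        have hs := one_le_sg h1
        have e3 : 0.019 ≤ (sg Q)⁻¹ * hh Q := by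
          rw [← div_eq_inv_mul, le_div_iff₀ (by linarith)]; exact h4
        have e4 : Real.exp (-0.02) ≤ 1 / 1.02 := by
          rw [Real.exp_neg, ← one_div]
          refine one_div_le_one_div_of_le (by norm_num) ?_
          have := Real.add_one_le_exp (0.02 : ℝ)
          linarith
        have hA0 : 0 < A := Real.exp_pos _
        have e5 : A * Real.exp (-(0.02 * 0.0184)) = Real.exp (-(0.02 * c)) := by
          rw [hA, ← Real.exp_add]; ring_nf
        have e6 := Real.add_one_le_exp (-(0.02 * 0.0184) : ℝ)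
        have e7 : 0.019 * (1 - 1 / 1.02) ≤ (sg Q)⁻¹ * hh Q * (1 - Real.exp (-0.02)) := by
          gcongr
        rw [← e5, ← mul_assoc]
        change A + (sg Q)⁻¹ * hh Q * _ ≤ _
        nlinarith
    · have : 1 ≤ Real.exp (-(0.02 * c)) := Real.one_le_exp (by linarith)
      refine le_trans ((Ed_pos _).mono (G := fun _ => 1) fun s _ => ?_) ?_
      · have := (Nm_mem bs c s).1; linarith
      · rwa [Ed_one h.ne]

end Pool.Agent.H59.EL
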