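import Pool.Agent.H59.EL2
import Pool.Agent.H55.PNT

namespace Pool.Agent.H59.EL
open Finset

noncomputable def Col2 (bs : List ℕ) (s : ℕ) : Fn ℝ :=
  bd (Col bs s) fun D => mp (fun D' => D - D') (Col bs s)

noncomputable def II (η u : ℝ) : ℝ := if |u| ≤ 2 * η then 1 else 0

noncomputable def rr : ℝ := Real.exp (-(0.0184 * Real.log 3))

noncomputable def K2 : ℝ := 1 / (1 - 1.02 * rr)

lemma rr_pos : 0 < rr := Real.exp_pos _

lemma rr_lt : 1.02 * rr < 1 := by
  have h1 : 1.09 ≤ Real.log 3 := by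
    rw [Real.le_log_iff_exp_le (by norm_num), show (1.09 : ℝ) = 1 + 0.09 by norm_num, Real.exp_add]
    have a1 := Real.exp_one_lt_d9
    have a2 : Real.exp 0.09 ≤ 1 / (1 - 0.09) :=
      Real.exp_bound_div_one_sub_of_interval (by norm_num) (by norm_num)
    have a3 := Real.exp_pos 0.09
    nlinarith
  have h2 := Real.add_one_le_exp (0.0184 * Real.log 3)
  unfold rr
  rw [Real.exp_neg, ← div_eq_mul_inv, div_lt_one (Real.exp_pos _)]
  linarith

lemma K2_pos : 0 < K2 := by have := rr_lt; unfold K2; apply one_div_pos.2; linarith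

lemma K2_eq : K2 * (1.02 * rr) + 1 = K2 := by
  have := rr_lt
  have : 1 - 1.02 * rr ≠ 0 := by linarith
  unfold K2; field_simp; ring

lemma Col2_pos (bs : List ℕ) (s : ℕ) : Pos (Col2 bs s) fun _ => True :=
  (Col_pos bs s).bd fun _ _ => (Col_pos bs s).mp fun _ _ => trivial

lemma Col2_one (bs : List ℕ) (s : ℕ) : Col2 bs s (fun _ => 1) = 1 := by
  simp only [Col2, bd_apply, mp_apply, Col_one]

lemma Col2_cons (Q : ℕ) (bs : List ℕ) (s : ℕ) (φ : ℝ → ℝ) : Col2 (Q :: bs) s φ =
    col (Nat.gcd s Q) fun d => col (Nat.gcd s Q) fun d' =>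
      Col2 bs (s / Nat.gcd s Q) fun u => φ (d - d' + u) := by
  simp only [Col2, Col, bd_apply, mp_apply]
  congr 1; ext d
  rw [col_comm]
  congr 1; ext D
  congr 1; ext d'
  congr 1; ext D'
  congr 1; ring

lemma II_nonneg (η u : ℝ) : 0 ≤ II η u := by unfold II; split_ifs <;> norm_num

lemma II_le (η u : ℝ) : II η u ≤ 1 := by unfold II; split_ifs <;> norm_num

lemma win_sum {η β : ℝ} {Q : ℕ} (h : WB η Q β) (Λ : Fn ℝ) (hΛ : Pos Λ fun _ => True)
    (h1 : Λ (fun _ => 1) = 1) (d : ℝ) (hd : 1 ≤ |d|) :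
    ∑ q ∈ Q.primeFactors, (1 / (q : ℝ)) * Λ (fun u => II η (d * Real.log q + u)) ≤ β := by
  simp only [← fn_mul]
  rw [← fn_sum, ← fn_const Λ h1 β]
  refine hΛ.mono fun u _ => le_trans (Finset.sum_le_sum fun q _ => ?_) (h (-u / d))
  unfold II
  have hd0 : d ≠ 0 := by rintro rfl; norm_num at hd
  by_cases h2 : |d * Real.log q + u| ≤ 2 * η
  · rw [if_pos h2, if_pos, mul_one]
    have : d * Real.log q + u = d * (Real.log q - -u / d) := by field_simp; ring
    rw [this, abs_mul] at h2
    nlinarith [abs_nonneg (Real.log q - -u / d)]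
  · rw [if_neg h2, mul_zero]; split_ifs <;> positivity

lemma key_le {η : ℝ} (hη : 0 < η) : ∀ {bs : List ℕ} {l : ℝ}, 0 < l → Ch η l bs → ∀ c : ℝ,
    Ed bs.prod (fun s => Nm bs c s * Col2 bs s (II η)) ≤
      Real.exp (c * Real.log 3) * (K2 * (11 * η / l) + rr ^ bs.length)
  | bs, l, hl, h, c => by
    have hK := K2_pos
    have hr := rr_pos
    by_cases hc : 0 ≤ c
    · have hE : 1 ≤ Real.exp (c * Real.log 3) :=
        Real.one_le_exp (mul_nonneg hc (Real.log_nonneg (by norm_num)))
      match bs, h with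
      | [], _ =>
        simp only [List.prod_nil, Ed_unit, Nm, if_pos hc, Col2, Col, bd_apply, mp_apply, pt_apply,
          List.length_nil, pow_zero, one_mul]
        have a1 := II_le η (0 - 0)
        have a2 : 0 ≤ K2 * (11 * η / l) := by positivity
        calc II η (0 - 0) ≤ 1 * 1 := by linarith
          _ ≤ _ := by gcongr; linarith
      | Q :: bs, ⟨h1, h2, h3, h4, h5, h6, h7⟩ =>
        rw [List.prod_cons, Ed_mul h2]
        set R := K2 * (11 * η / (l / 1.02)) + rr ^ bs.length with hR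
        set A := Real.exp ((c - 0.0184) * Real.log 3) * R with hA
        set Λ : Fn ℝ := bd (Ed bs.prod) fun b => Col2 bs b with hΛ
        have hΛp : Pos Λ fun _ => True := (Ed_pos _).bd fun b _ => Col2_pos bs b
        have hΛ1 : Λ (fun _ => 1) = 1 := by
          simp only [hΛ, bd_apply, Col2_one]; exact Ed_one h7.ne
        set X : ℝ → ℕ → ℝ := fun d q => Λ fun u => II η (d * Real.log q + u) with hX
        have e1 : Ed Q (fun a => Ed bs.prod fun b =>
            Nm (Q :: bs) c (a * b) * Col2 (Q :: bs) (a * b) (II η)) ≤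
            Ed Q fun a => A + if a.Prime then
              (2 * X 1 a + 2 * X (-1) a + X 2 a + X (-2) a) / 9 else 0 := by
          refine (Ed_pos Q).mono fun s hs => ?_
          have e2 : Ed bs.prod (fun b => Nm (Q :: bs) c (s * b) * Col2 (Q :: bs) (s * b) (II η)) =
              Ed bs.prod fun b => Nm bs (c - 0.0184 + if s.Prime then 1 else 0) b *
                col s fun d => col s fun d' => Col2 bs b fun u => II η (d - d' + u) := by
            refine (Ed_pos _).congr fun s' hs' => ?_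
            obtain ⟨g1, g2⟩ := gcd_split h2 hs.1 hs.2 hs'.1
            simp only [Nm, if_pos hc, Col2_cons]
            rw [g2, g1]
          rw [e2]
          by_cases hp : s.Prime
          · simp only [if_pos hp]
            have k1 := key_le hη (by positivity) h7 (c - 0.0184 + 1)
            rw [add_mul, one_mul, Real.exp_add, Real.exp_log (by norm_num), ← hR] at k1
            have e3 : ∀ Y : ℝ → ℝ, col s (fun d => col s fun d' => Y (d - d')) =
                Y 0 / 3 + (2 * Y (1 * Real.log s) + 2 * Y (-1 * Real.log s) + Y (2 * Real.log s) +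
                  Y (-2 * Real.log s)) / 9 := by
              intro Y; simp only [col_prime hp]; ring_nf
            have e4 : Ed bs.prod (fun b => Nm bs (c - 0.0184 + 1) b *
                col s fun d => col s fun d' => Col2 bs b fun u => II η (d - d' + u)) ≤
                Ed bs.prod fun b => (Nm bs (c - 0.0184 + 1) b * Col2 bs b (II η)) * (1 / 3) +
                  (2 * Col2 bs b (fun u => II η (1 * Real.log s + u)) +
                  2 * Col2 bs b (fun u => II η (-1 * Real.log s + u)) +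
                  Col2 bs b (fun u => II η (2 * Real.log s + u)) +
                  Col2 bs b (fun u => II η (-2 * Real.log s + u))) * (1 / 9) := by
              refine (Ed_pos _).mono fun b _ => ?_
              rw [e3 (fun τ => Col2 bs b fun u => II η (τ + u))]
              have p0 : ∀ τ : ℝ, 0 ≤ Col2 bs b fun u => II η (τ + u) := fun τ =>
                Col2_pos bs b _ fun _ _ => II_nonneg _ _
              have p1 := p0 (1 * Real.log s)
              have p2 := p0 (-1 * Real.log s)
              have p3 := p0 (2 * Real.log s)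
              have p4 := p0 (-2 * Real.log s)
              obtain ⟨n0, n1⟩ := Nm_mem bs (c - 0.0184 + 1) b
              simp only [zero_add]
              nlinarith
            refine e4.trans ?_
            rw [fn_add, fn_mul', fn_mul', fn_add, fn_add, fn_add, fn_mul, fn_mul]
            simp only [hX, hΛ, bd_apply]
            linarith
          · simp only [if_neg hp, col_not hp, sub_self, zero_add, add_zero]
            exact key_le hη (by positivity) h7 _
        refine e1.trans ?_
        rw [fn_add, fn_const _ (Ed_one h1), Ed_prime]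
        have w1 := win_sum h5 Λ hΛp hΛ1 1 (by norm_num)
        have w2 := win_sum h5 Λ hΛp hΛ1 (-1) (by norm_num)
        have w3 := win_sum h5 Λ hΛp hΛ1 2 (by norm_num)
        have w4 := win_sum h5 Λ hΛp hΛ1 (-2) (by norm_num)
        set β := 11 * η / l with hβ
        have hβ0 : 0 < β := by positivity
        have e5 : ∑ p ∈ Q.primeFactors, 1 / (p : ℝ) *
            ((2 * X 1 p + 2 * X (-1) p + X 2 p + X (-2) p) / 9) ≤ β := by
          have : ∑ p ∈ Q.primeFactors, 1 / (p : ℝ) *
              ((2 * X 1 p + 2 * X (-1) p + X 2 p + X (-2) p) / 9) =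
              (2 * ∑ p ∈ Q.primeFactors, 1 / (p : ℝ) * X 1 p +
              2 * ∑ p ∈ Q.primeFactors, 1 / (p : ℝ) * X (-1) p +
              ∑ p ∈ Q.primeFactors, 1 / (p : ℝ) * X 2 p +
              ∑ p ∈ Q.primeFactors, 1 / (p : ℝ) * X (-2) p) / 9 := by
            simp only [Finset.mul_sum, ← Finset.sum_add_distrib, Finset.sum_div]
            exact Finset.sum_congr rfl fun p _ => by ring
          rw [this]
          simp only [hX]
          linarith
        have hs := one_le_sg h1
        have e6 : (sg Q)⁻¹ * ∑ p ∈ Q.primeFactors, 1 / (p : ℝ) *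
            ((2 * X 1 p + 2 * X (-1) p + X 2 p + X (-2) p) / 9) ≤ β := by
          have : (sg Q)⁻¹ ≤ 1 := inv_le_one_of_one_le₀ hs
          have h0 : 0 ≤ (sg Q)⁻¹ := by positivity
          nlinarith
        have e7 : A = Real.exp (c * Real.log 3) * (K2 * (1.02 * rr) * β + rr ^ (bs.length + 1)) := by
          rw [hA, hR, hβ, sub_mul, sub_eq_add_neg, Real.exp_add]
          change _ * rr * _ = _
          field_simp
          ring
        have e8 : K2 * (1.02 * rr) = K2 - 1 := by linarith [K2_eq]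
        rw [e8] at e7
        rw [e7, List.length_cons]
        nlinarith
    · have : Ed bs.prod (fun s => Nm bs c s * Col2 bs s (II η)) = Ed bs.prod fun _ => 0 := by
        congr 1; ext s
        cases bs <;> simp [Nm, hc]
      rw [this, fn_const _ (Ed_one h.ne)]
      positivity

/-- primes with `a < log p ≤ b` -/
noncomputable def PW (a b : ℝ) : Finset ℕ :=
  (Ioc ⌊Real.exp a⌋₊ ⌊Real.exp b⌋₊).filter Nat.Prime

lemma mem_PW {a b : ℝ} {p : ℕ} : p ∈ PW a b ↔ p.Prime ∧ a < Real.log p ∧ Real.log p ≤ b := by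
  unfold PW
  rw [Finset.mem_filter, Finset.mem_Ioc, and_comm]
  refine and_congr_right fun hp => ?_
  have : (0 : ℝ) < p := by exact_mod_cast hp.pos
  rw [Nat.floor_lt (Real.exp_pos _).le, Nat.le_floor_iff (Real.exp_pos _).le,
    Real.lt_log_iff_exp_lt this, Real.log_le_iff_le_exp this]

lemma sum_PW_add (f : ℕ → ℝ) {a b c : ℝ} (h1 : a ≤ b) (h2 : b ≤ c) :
    ∑ p ∈ PW a c, f p = ∑ p ∈ PW a b, f p + ∑ p ∈ PW b c, f p := by
  rw [← Finset.sum_union]
  · refine Finset.sum_congr ?_ fun _ _ => rfl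
    ext p
    simp only [Finset.mem_union, mem_PW]
    constructor
    · rintro ⟨h3, h4, h5⟩
      rcases le_or_gt (Real.log p) b with h | h
      · exact Or.inl ⟨h3, h4, h⟩
      · exact Or.inr ⟨h3, h, h5⟩
    · rintro (⟨h3, h4, h5⟩ | ⟨h3, h4, h5⟩)
      · exact ⟨h3, h4, by linarith⟩
      · exact ⟨h3, by linarith, h5⟩
  · rw [Finset.disjoint_left]
    intro p h3 h4
    have := (mem_PW.1 h3).2.2
    have := (mem_PW.1 h4).2.1
    linarith

lemma theta_PW {a b : ℝ} (h : a ≤ b) : ∑ p ∈ PW a b, Real.log p =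
    Chebyshev.theta (Real.exp b) - Chebyshev.theta (Real.exp a) := by
  unfold Chebyshev.theta PW
  simp only [Finset.sum_filter]
  rw [← Finset.sum_Ioc_consecutive _ (Nat.zero_le ⌊Real.exp a⌋₊)
    (Nat.floor_mono (Real.exp_le_exp.2 h))]
  ring

noncomputable def GG (a b : ℝ) : ℝ := ∑ p ∈ PW a b, Real.log p / p

lemma GG_nonneg (a b : ℝ) : 0 ≤ GG a b :=
  Finset.sum_nonneg fun p _ => div_nonneg (Real.log_natCast_nonneg p) (by positivity)

lemma GG_win (ε : ℝ) (hε : 0 < ε) (hε1 : ε ≤ 1) : ∃ t0 : ℝ, ∀ t ≥ t0, ∀ v, 0 ≤ v → v ≤ 1 →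
    v - v ^ 2 - 2 * ε ≤ GG t (t + v) ∧ GG t (t + v) ≤ v + v ^ 2 + 4 * ε := by
  have h := (Pool.Agent.H55.PNT.theta_pnt.comp Real.tendsto_exp_atTop).eventually
    (Metric.ball_mem_nhds 1 hε)
  obtain ⟨t0, ht0⟩ := Filter.eventually_atTop.1 h
  refine ⟨t0, fun t ht v hv hv1 => ?_⟩
  have hb : ∀ x ≥ t0, (1 - ε) * Real.exp x ≤ Chebyshev.theta (Real.exp x) ∧
      Chebyshev.theta (Real.exp x) ≤ (1 + ε) * Real.exp x := by
    intro x hx
    have h1 := ht0 x hx
    simp only [Function.comp, Real.dist_eq, abs_lt] at h1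
    have h2 := Real.exp_pos x
    rw [← le_div_iff₀ h2, ← div_le_iff₀ h2]
    constructor <;> linarith [h1.1, h1.2]
  obtain ⟨a1, a2⟩ := hb t ht
  obtain ⟨b1, b2⟩ := hb (t + v) (by linarith)
  have hth := theta_PW (show t ≤ t + v by linarith)
  have hE := Real.exp_pos t
  have hV := Real.exp_pos v
  have hv2 : Real.exp v ≤ 1 + v + v ^ 2 := by
    have := Real.abs_exp_sub_one_sub_id_le (x := v) (by rwa [abs_of_nonneg hv])
    linarith [(abs_le.1 this).2]
  have hv3 : Real.exp (-v) ≤ 1 - v + v ^ 2 := by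
    have := Real.abs_exp_sub_one_sub_id_le (x := -v) (by rwa [abs_neg, abs_of_nonneg hv])
    have h3 : (-v) ^ 2 = v ^ 2 := by ring
    linarith [(abs_le.1 this).2]
  have hv4 : Real.exp (-v) ≤ 1 := Real.exp_le_one_iff.2 (by linarith)
  have hv5 : Real.exp (t + v) * Real.exp (-v) = Real.exp t := by rw [← Real.exp_add]; ring_nf
  constructor
  · have h1 : (∑ p ∈ PW t (t + v), Real.log p) / Real.exp (t + v) ≤ GG t (t + v) := by
      rw [Finset.sum_div]
      refine Finset.sum_le_sum fun p hp => ?_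
      obtain ⟨h2, _, h4⟩ := mem_PW.1 hp
      have : (0 : ℝ) < p := by exact_mod_cast h2.pos
      exact div_le_div_of_nonneg_left (Real.log_natCast_nonneg p) this
        ((Real.log_le_iff_le_exp this).1 h4)
    refine le_trans ?_ h1
    have hE2 := Real.exp_pos (t + v)
    rw [le_div_iff₀ hE2, hth]
    rw [← hv5] at a2
    have : (1 + ε) * Real.exp (-v) ≤ 1 - v + v ^ 2 + ε := by nlinarith
    rw [← hv5]
    nlinarith
  · have h1 : GG t (t + v) ≤ (∑ p ∈ PW t (t + v), Real.log p) / Real.exp t := by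
      rw [Finset.sum_div]
      refine Finset.sum_le_sum fun p hp => ?_
      obtain ⟨h2, h4, _⟩ := mem_PW.1 hp
      have : (0 : ℝ) < p := by exact_mod_cast h2.pos
      exact div_le_div_of_nonneg_left (Real.log_natCast_nonneg p) hE
        ((Real.lt_log_iff_exp_lt this).1 h4).le
    refine h1.trans ?_
    rw [div_le_iff₀ hE, hth]
    rw [Real.exp_add] at b2 ⊢
    have hv6 : Real.exp v ≤ 3 := by nlinarith
    have : (1 + ε) * Real.exp v ≤ 1 + v + v ^ 2 + 3 * ε := by nlinarith
    nlinarith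

lemma GG_mertens (δ : ℝ) (hδ : 0 < δ) (hδ1 : δ ≤ 1) : ∃ t0 : ℝ, 1 ≤ t0 ∧ ∀ a ≥ t0, ∀ b ≥ a,
    (1 - δ) * (b - a) - δ ≤ GG a b ∧ GG a b ≤ (1 + δ) * (b - a) + δ := by
  obtain ⟨t0, ht0⟩ := GG_win (δ * (δ / 4) / 8) (by positivity) (by nlinarith)
  have key : ∀ n : ℕ, ∀ a ≥ t0, ∀ b ≥ a, b - a ≤ (n + 1) * (δ / 4) →
      (1 - δ) * (b - a) - δ ≤ GG a b ∧ GG a b ≤ (1 + δ) * (b - a) + δ := by
    have base : ∀ a ≥ t0, ∀ b ≥ a, b - a ≤ δ / 4 →
        (1 - δ) * (b - a) - δ ≤ GG a b ∧ GG a b ≤ (1 + δ) * (b - a) + δ := by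
      intro a ha b hb h
      obtain ⟨_, h2⟩ := ht0 a ha (b - a) (by linarith) (by linarith)
      rw [add_sub_cancel] at h2
      have := GG_nonneg a b
      have : 0 ≤ b - a := by linarith
      constructor <;> nlinarith
    intro n
    induction n with
    | zero => intro a ha b hb h; exact base a ha b hb (by simpa using h)
    | succ n ih =>
      intro a ha b hb h
      rcases le_or_gt (b - a) (δ / 4) with h1 | h1
      · exact base a ha b hb h1
      · obtain ⟨h2, h3⟩ := ht0 a ha (δ / 4) (by linarith) (by linarith)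
        obtain ⟨h4, h5⟩ := ih (a + δ / 4) (by linarith) b (by linarith) (by push_cast at h; linarith)
        have h6 : GG a b = GG a (a + δ / 4) + GG (a + δ / 4) b :=
          sum_PW_add _ (by linarith) (by linarith)
        constructor <;> nlinarith
  refine ⟨max t0 1, le_max_right _ _, fun a ha b hb => ?_⟩
  obtain ⟨n, hn⟩ := exists_nat_ge ((b - a) / (δ / 4))
  refine key n a (le_trans (le_max_left _ _) ha) b hb ?_
  rw [div_le_iff₀ (by positivity)] at hn
  nlinarith

lemma hs_le {a b : ℝ} (ha : 0 < a) : ∑ p ∈ PW a b, (1 / (p : ℝ)) ≤ GG a b / a := by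
  rw [GG, Finset.sum_div]
  refine Finset.sum_le_sum fun p hp => ?_
  obtain ⟨h2, h4, _⟩ := mem_PW.1 hp
  have : (0 : ℝ) < p := by exact_mod_cast h2.pos
  rw [div_div, div_le_div_iff₀ this (by positivity)]
  nlinarith

lemma le_hs {a b : ℝ} (hb : 0 < b) : GG a b / b ≤ ∑ p ∈ PW a b, (1 / (p : ℝ)) := by
  rw [GG, Finset.sum_div]
  refine Finset.sum_le_sum fun p hp => ?_
  obtain ⟨h2, _, h4⟩ := mem_PW.1 hp
  have : (0 : ℝ) < p := by exact_mod_cast h2.pos
  rw [div_div, div_le_div_iff₀ (by positivity) this]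
  nlinarith

end Pool.Agent.H59.EL
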