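import Pool.Agent.H59.EL3

namespace Pool.Agent.H59.EL
open Finset

def Mer (δ t0 : ℝ) : Prop := ∀ a ≥ t0, ∀ b ≥ a,
  (1 - δ) * (b - a) - δ ≤ GG a b ∧ GG a b ≤ (1 + δ) * (b - a) + δ

lemma sqf_prod (B : Finset ℕ) (hB : ∀ p ∈ B, p.Prime) : Squarefree (∏ p ∈ B, p) := by
  classical
  induction B using Finset.induction_on with
  | empty => simp
  | insert p B hp ih =>
    have hpp := hB p (Finset.mem_insert_self _ _)
    have hB' : ∀ q ∈ B, q.Prime := fun q hq => hB q (Finset.mem_insert_of_mem hq)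
    rw [Finset.prod_insert hp, Nat.squarefree_mul_iff]
    refine ⟨Nat.Coprime.prod_right fun q hq => (Nat.coprime_primes hpp (hB' q hq)).2 ?_,
      hpp.prime.squarefree, ih hB'⟩
    rintro rfl; exact hp hq

lemma mem_of_dvd {B : Finset ℕ} (hB : ∀ p ∈ B, p.Prime) {p : ℕ} (hp : p.Prime)
    (h : p ∣ ∏ q ∈ B, q) : p ∈ B := by
  rw [← Nat.primeFactors_prod hB]
  exact Nat.mem_primeFactors.2 ⟨hp, h, (sqf_prod B hB).ne_zero⟩

lemma win_up {η δ t0 l b : ℝ} (hM : Mer δ t0) (hδ1 : δ ≤ 1) (hδ : δ ≤ η) (hη : 0 < η) (hl : t0 ≤ l)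
    (hl0 : 0 < l) (t : ℝ) :
    ∑ q ∈ PW l b, (if |Real.log q - t| ≤ 2 * η then 1 / (q : ℝ) else 0) ≤ 11 * η / l := by
  set a := max l (t - 3 * η) with ha
  have h1 : l ≤ a := le_max_left _ _
  have h2 : t - 3 * η ≤ a := le_max_right _ _
  rw [← Finset.sum_filter]
  have h3 : (PW l b).filter (fun q : ℕ => |Real.log q - t| ≤ 2 * η) ⊆ PW a (a + 5 * η) := by
    intro q hq
    obtain ⟨h4, h5⟩ := Finset.mem_filter.1 hq
    obtain ⟨h6, h7, _⟩ := mem_PW.1 h4
    rw [abs_le] at h5
    exact mem_PW.2 ⟨h6, max_lt h7 (by linarith), by linarith⟩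
  refine (Finset.sum_le_sum_of_subset_of_nonneg h3 fun _ _ _ => by positivity).trans
    ((hs_le (by linarith)).trans ?_)
  have h4 := (hM a (by linarith) (a + 5 * η) (by linarith)).2
  refine div_le_div₀ (by positivity) (by nlinarith) hl0 h1

lemma chain {η δ t0 l0 : ℝ} (hM : Mer δ t0) (hδ0 : 0 < δ) (hδ1 : δ ≤ 0.002) (hδ : δ ≤ η)
    (hl : t0 ≤ l0) (hl0 : 100 ≤ l0) (k : ℕ) : ∃ bs : List ℕ, bs.length = k ∧
      Ch η (l0 * 1.02 ^ k) bs ∧ Squarefree bs.prod ∧
      ∀ p : ℕ, p.Prime → p ∣ bs.prod → l0 < Real.log p ∧ Real.log p ≤ l0 * 1.02 ^ (k + 1) := by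
  induction k with
  | zero => exact ⟨[], rfl, trivial, by simp, fun p hp h => absurd (Nat.dvd_one.1 h) hp.one_lt.ne'⟩
  | succ k ih =>
    obtain ⟨bs, h1, h2, h3, h4⟩ := ih
    set l := l0 * 1.02 ^ (k + 1) with hldef
    have hll : l0 ≤ l := le_mul_of_one_le_right (by linarith) (one_le_pow₀ (by norm_num))
    have hB : ∀ p ∈ PW l (1.02 * l), p.Prime := fun p hp => (mem_PW.1 hp).1
    set Q := ∏ p ∈ PW l (1.02 * l), p with hQ
    have hsq : Squarefree Q := sqf_prod _ hB
    have hpf : Q.primeFactors = PW l (1.02 * l) := Nat.primeFactors_prod hB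
    have hcop : Q.Coprime bs.prod := Nat.coprime_of_dvd fun p hp hpQ hpb => by
      have := (mem_PW.1 (mem_of_dvd hB hp hpQ)).2.1
      have := (h4 p hp hpb).2
      linarith
    obtain ⟨g1, g2⟩ := hM l (by linarith) (1.02 * l) (by linarith)
    have hu : hh Q ≤ 0.0201 := by
      rw [hh, hpf]
      refine (hs_le (by linarith)).trans ?_
      rw [div_le_iff₀ (by linarith)]; nlinarith
    have hd : 0.01954 ≤ hh Q := by
      rw [hh, hpf]
      refine le_trans ?_ (le_hs (by linarith))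
      rw [le_div_iff₀ (by linarith)]; nlinarith
    have hsg : sg Q ≤ 1 / (1 - 0.0201) := (sg_le_exp hsq).trans ((Real.exp_le_exp.2 hu).trans
      (Real.exp_bound_div_one_sub_of_interval (by norm_num) (by norm_num)))
    refine ⟨Q :: bs, by simp [h1], ⟨hsq.ne_zero, hcop, by linarith, by linarith, ?_, ?_, ?_⟩, ?_, ?_⟩
    · intro t
      rw [hpf]
      exact win_up hM (by linarith) hδ (by linarith) (by linarith) (by linarith) t
    · intro q hq
      rw [hpf] at hq
      exact (mem_PW.1 hq).2.2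
    · have : l / 1.02 = l0 * 1.02 ^ k := by rw [hldef, pow_succ]; field_simp
      rwa [this]
    · rw [List.prod_cons, Nat.squarefree_mul_iff]; exact ⟨hcop, hsq, h3⟩
    · intro p hp h
      have : l0 * 1.02 ^ (k + 1 + 1) = 1.02 * l := by rw [hldef, pow_succ]; ring
      rw [this]
      rcases (Nat.Prime.dvd_mul hp).1 h with h | h
      · obtain ⟨_, a1, a2⟩ := mem_PW.1 (mem_of_dvd hB hp h)
        exact ⟨by linarith, a2⟩
      · obtain ⟨a1, a2⟩ := h4 p hp h
        exact ⟨a1, by linarith⟩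

def cl (η a b c : ℝ) : Prop := |a - b| ≤ η ∧ |b - c| ≤ η ∧ |a - c| ≤ η

def OK (Q : ℕ) (η : ℝ) (c : T4) : Prop :=
  c.1 * c.2.1 * c.2.2.1 * c.2.2.2 ∣ Q ∧ 1 < c.2.1 ∧ 1 < c.2.2.1 ∧ 1 < c.2.2.2 ∧
    cl η (Real.log c.2.1) (Real.log c.2.2.1) (Real.log c.2.2.2)

def cond (η : ℝ) (p q r : ℕ) (c : T4) : Prop := p ≠ q ∧ q ≠ r ∧ p ≠ r ∧
  cl η (Real.log p + Real.log c.2.1) (Real.log q + Real.log c.2.2.1) (Real.log r + Real.log c.2.2.2)

noncomputable def N3 (bs : List ℕ) (c : T4) : ℝ :=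
  Nm bs 100 (v0 c) * Nm bs 100 (v0 (sxy c)) * Nm bs 100 (v0 (sxz c))

open Classical in
noncomputable def ind (bs : List ℕ) (η : ℝ) (p q r : ℕ) (c : T4) : ℝ :=
  if cond η p q r c then N3 bs c else 0

lemma N3_mem (bs : List ℕ) (c : T4) : 0 ≤ N3 bs c ∧ N3 bs c ≤ Nm bs 100 (v0 c) ∧
    1 - (1 - Nm bs 100 (v0 c)) - (1 - Nm bs 100 (v0 (sxy c))) - (1 - Nm bs 100 (v0 (sxz c))) ≤
      N3 bs c := by
  obtain ⟨a1, a2⟩ := Nm_mem bs 100 (v0 c)
  obtain ⟨b1, b2⟩ := Nm_mem bs 100 (v0 (sxy c))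
  obtain ⟨c1, c2⟩ := Nm_mem bs 100 (v0 (sxz c))
  unfold N3
  generalize Nm bs 100 (v0 c) = x at *
  generalize Nm bs 100 (v0 (sxy c)) = y at *
  generalize Nm bs 100 (v0 (sxz c)) = z at *
  have h1 : y * z ≤ 1 := mul_le_one₀ b2 c1 c2
  have h2 : y + z - 1 ≤ y * z := by nlinarith
  have h3 : 0 ≤ y * z := by positivity
  refine ⟨by positivity, by nlinarith, by nlinarith⟩

lemma ind_nonneg (bs : List ℕ) (η : ℝ) (p q r : ℕ) (c : T4) : 0 ≤ ind bs η p q r c := by
  unfold ind; split_ifs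
  · exact (N3_mem bs c).1
  · exact le_rfl

lemma ind_sxy (bs : List ℕ) (η : ℝ) (p q r : ℕ) (c : T4) :
    ind bs η q p r (sxy c) = ind bs η p q r c := by
  have h1 : cond η q p r (sxy c) ↔ cond η p q r c := by
    simp only [cond, cl, sxy, abs_sub_comm (Real.log q + _) (Real.log p + _)]; tauto
  have h2 : N3 bs (sxy c) = N3 bs c := by
    have : v0 (sxz (sxy c)) = v0 (sxz c) := by simp only [v0, sxy, sxz]; ring
    unfold N3; rw [this]; simp only [v0, sxy]; ring
  unfold ind; rw [h1, h2]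

lemma ind_sxz (bs : List ℕ) (η : ℝ) (p q r : ℕ) (c : T4) :
    ind bs η r q p (sxz c) = ind bs η p q r c := by
  have h1 : cond η r q p (sxz c) ↔ cond η p q r c := by
    simp only [cond, cl, sxz, abs_sub_comm (Real.log q + _) (Real.log p + _),
      abs_sub_comm (Real.log r + _) (Real.log p + _), abs_sub_comm (Real.log r + _) (Real.log q + _)]
    tauto
  have h2 : N3 bs (sxz c) = N3 bs c := by
    have : v0 (sxy (sxz c)) = v0 (sxy c) := by simp only [v0, sxy, sxz]; ring
    unfold N3; rw [this]; simp only [v0, sxz]; ring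
  unfold ind; rw [h1, h2]

noncomputable def G0 (B : Finset ℕ) (bs : List ℕ) (η : ℝ) : Fn T4 :=
  ∑ p ∈ B, ∑ q ∈ B, ∑ r ∈ B, (1 / ((p : ℝ) * q * r)) •
    bd (Cp bs) fun c => ind bs η p q r c • pt ((1, p, q, r) * c)

lemma G0_apply (B : Finset ℕ) (bs : List ℕ) (η : ℝ) (F : T4 → ℝ) : G0 B bs η F =
    ∑ p ∈ B, ∑ q ∈ B, ∑ r ∈ B, (1 / ((p : ℝ) * q * r)) *
      Cp bs fun c => ind bs η p q r c * F ((1, p, q, r) * c) := by
  simp [G0, LinearMap.sum_apply]

lemma G0_sxy (B : Finset ℕ) (bs : List ℕ) (η : ℝ) (F : T4 → ℝ) :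
    G0 B bs η (fun c => F (sxy c)) = G0 B bs η F := by
  rw [G0_apply, G0_apply, Finset.sum_comm]
  refine Finset.sum_congr rfl fun q _ => Finset.sum_congr rfl fun p _ =>
    Finset.sum_congr rfl fun r _ => ?_
  rw [← Cp_sxy bs fun c => ind bs η q p r c * F ((1, q, p, r) * c), mul_comm (p : ℝ) q]
  simp only [ind_sxy]
  rfl

lemma G0_sxz (B : Finset ℕ) (bs : List ℕ) (η : ℝ) (F : T4 → ℝ) :
    G0 B bs η (fun c => F (sxz c)) = G0 B bs η F := by
  have sw : ∀ g : ℕ → ℕ → ℕ → ℝ, ∑ p ∈ B, ∑ q ∈ B, ∑ r ∈ B, g p q r =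
      ∑ r ∈ B, ∑ q ∈ B, ∑ p ∈ B, g p q r := by
    intro g
    rw [Finset.sum_comm, Finset.sum_comm (f := fun r q => ∑ p ∈ B, g p q r)]
    exact Finset.sum_congr rfl fun q _ => Finset.sum_comm
  rw [G0_apply, G0_apply, sw]
  refine Finset.sum_congr rfl fun r _ => Finset.sum_congr rfl fun q _ =>
    Finset.sum_congr rfl fun p _ => ?_
  rw [← Cp_sxz bs fun c => ind bs η r q p c * F ((1, r, q, p) * c),
    show (p : ℝ) * q * r = r * q * p by ring]
  simp only [ind_sxz]
  rfl

lemma G0_pos {B : Finset ℕ} (hB : ∀ p ∈ B, p.Prime) {bs : List ℕ} {η l : ℝ} (hl : 0 ≤ l)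
    (h : Ch η l bs) : Pos (G0 B bs η) (OK ((∏ p ∈ B, p) * bs.prod) η) := by
  intro F hF
  rw [G0_apply]
  refine Finset.sum_nonneg fun p hp => Finset.sum_nonneg fun q hq => Finset.sum_nonneg fun r hr =>
    mul_nonneg (by positivity) (Cp_pos hl h _ fun c hc => ?_)
  unfold ind
  split_ifs with hi
  · refine mul_nonneg (N3_mem bs c).1 (hF _ ?_)
    obtain ⟨g, x, y, z⟩ := c
    obtain ⟨a1, a2, a3, a4⟩ := hi
    obtain ⟨b1, b2, b3, b4, b5, _⟩ := hc
    have p1 := (hB p hp).one_lt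
    have q1 := (hB q hq).one_lt
    have r1 := (hB r hr).one_lt
    simp only [OK, Prod.mk_mul_mk] at *
    have hd : p * q * r ∣ ∏ p ∈ B, p := by
      have : ∏ u ∈ ({p, q, r} : Finset ℕ), u = p * q * r := by
        rw [Finset.prod_insert (by simp [a1, a3]), Finset.prod_pair a2, mul_assoc]
      rw [← this]
      exact Finset.prod_dvd_prod_of_subset _ _ _ (by
        intro u hu; simp only [Finset.mem_insert, Finset.mem_singleton] at hu
        rcases hu with rfl | rfl | rfl <;> assumption)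
    refine ⟨?_, by nlinarith [Nat.pos_of_ne_zero b3], by nlinarith [Nat.pos_of_ne_zero b4],
      by nlinarith [Nat.pos_of_ne_zero b5], ?_⟩
    · convert Nat.mul_dvd_mul hd b1 using 1; ring
    · push_cast
      rw [Real.log_mul (by positivity) (by positivity), Real.log_mul (by positivity) (by positivity),
        Real.log_mul (by positivity) (by positivity)]
      exact a4
  · simp

lemma pairs_le {B : Finset ℕ} (hB : ∀ p ∈ B, p.Prime) (g : ℕ → ℝ) (hg : ∀ s, 0 ≤ g s) :
    ∑ q ∈ B, ∑ r ∈ B, (if q ≠ r then g (q * r) else 0) ≤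
      2 * ∑ s ∈ (∏ p ∈ B, p).divisors, g s := by
  have key : ∑ q ∈ B, ∑ r ∈ B, (if q < r then g (q * r) else 0) ≤
      ∑ s ∈ (∏ p ∈ B, p).divisors, g s := by
    rw [← Finset.sum_product', ← Finset.sum_filter,
      ← Finset.sum_image (g := fun x : ℕ × ℕ => x.1 * x.2) (f := g)]
    · refine Finset.sum_le_sum_of_subset_of_nonneg (fun s hs => ?_) fun s _ _ => hg s
      obtain ⟨⟨q, r⟩, h1, rfl⟩ := Finset.mem_image.1 hs
      obtain ⟨h2, h3⟩ := Finset.mem_filter.1 h1
      obtain ⟨h4, h5⟩ := Finset.mem_product.1 h2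
      refine Nat.mem_divisors.2 ⟨?_, (sqf_prod B hB).ne_zero⟩
      rw [← Finset.prod_pair (f := fun u => u) h3.ne]
      exact Finset.prod_dvd_prod_of_subset _ _ _ (by
        intro u hu; simp only [Finset.mem_insert, Finset.mem_singleton] at hu
        rcases hu with rfl | rfl <;> assumption)
    · rintro ⟨q, r⟩ h1 ⟨q', r'⟩ h1' h
      obtain ⟨h2, h3⟩ := Finset.mem_filter.1 h1
      obtain ⟨h4, h5⟩ := Finset.mem_product.1 h2
      obtain ⟨k2, k3⟩ := Finset.mem_filter.1 h1'
      obtain ⟨k4, k5⟩ := Finset.mem_product.1 k2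
      simp only at h h3 h4 h5 k3 k4 k5
      have hq := hB q h4
      rcases (Nat.Prime.dvd_mul hq).1 (⟨r, h.symm⟩ : q ∣ q' * r') with h6 | h6
      · have := (Nat.prime_dvd_prime_iff_eq hq (hB q' k4)).1 h6
        subst this
        rw [Nat.eq_of_mul_eq_mul_left hq.pos h]
      · have := (Nat.prime_dvd_prime_iff_eq hq (hB r' k5)).1 h6
        subst this
        rw [mul_comm q'] at h
        have := Nat.eq_of_mul_eq_mul_left hq.pos h
        omega
  have key2 : ∑ q ∈ B, ∑ r ∈ B, (if r < q then g (q * r) else 0) ≤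
      ∑ s ∈ (∏ p ∈ B, p).divisors, g s := by
    rw [Finset.sum_comm]; simpa only [mul_comm] using key
  have : ∑ q ∈ B, ∑ r ∈ B, (if q ≠ r then g (q * r) else 0) =
      ∑ q ∈ B, ∑ r ∈ B, (if q < r then g (q * r) else 0) +
        ∑ q ∈ B, ∑ r ∈ B, (if r < q then g (q * r) else 0) := by
    simp only [← Finset.sum_add_distrib]
    refine Finset.sum_congr rfl fun q _ => Finset.sum_congr rfl fun r _ => ?_
    rcases lt_trichotomy q r with h | h | h
    · simp [h, h.ne, h.not_gt]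
    · simp [h]
    · simp [h, h.ne', h.not_gt]
  linarith

noncomputable def JJ (η u : ℝ) : ℝ := if |u| ≤ η then 1 else 0

lemma JJ_nonneg (η u : ℝ) : 0 ≤ JJ η u := by unfold JJ; split_ifs <;> norm_num

lemma G0_upper {B : Finset ℕ} (hB : ∀ p ∈ B, p.Prime) {bs : List ℕ} {η l β θ : ℝ} (hl : 0 ≤ l)
    (hη : 0 < η) (hθ : 0 < θ) (h : Ch η l bs) (hcop : (∏ p ∈ B, p).Coprime bs.prod)
    (hW : ∀ t : ℝ, ∑ q ∈ B, (if |Real.log q - t| ≤ 2 * η then 1 / (q : ℝ) else 0) ≤ β)
    (f : ℕ → ℝ) (hf : ∀ s, 0 ≤ f s) :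
    G0 B bs η (fun c => f (v0 c)) ≤
      θ * (2 * sg (∏ p ∈ B, p) * Ed ((∏ p ∈ B, p) * bs.prod) fun s => f s ^ 2) +
      β ^ 2 / (4 * θ) * ((∑ p ∈ B, 1 / (p : ℝ)) * β *
        Ed bs.prod fun s => Nm bs 100 s * Col2 bs s (II η)) := by
  have hβ : 0 ≤ β := le_trans (Finset.sum_nonneg fun q _ => by split_ifs <;> positivity) (hW 0)
  set U : ℕ → ℕ → ℕ → ℝ := fun q r s => Col bs s fun D => JJ η (Real.log q - Real.log r + D) with hU
  have s1 : G0 B bs η (fun c => f (v0 c)) ≤ ∑ q ∈ B, ∑ r ∈ B,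
      (θ * (if q ≠ r then 1 / ((q * r : ℕ) : ℝ) * Ed bs.prod (fun s => f (q * r * s) ^ 2) else 0) +
        β ^ 2 / (4 * θ) * Ed bs.prod fun s => Nm bs 100 s * (1 / ((q : ℝ) * r) * U q r s ^ 2)) := by
    rw [G0_apply, Finset.sum_comm]
    refine Finset.sum_le_sum fun q hq => ?_
    rw [Finset.sum_comm]
    refine Finset.sum_le_sum fun r hr => ?_
    have hw : (0 : ℝ) ≤ 1 / ((q : ℝ) * r) := by positivity
    by_cases hqr : q = r
    · have : ∀ p c, ind bs η p q r c = 0 := fun p c => if_neg fun hc => hc.2.1 hqr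
      simp only [this, zero_mul, fn_const _ (by simpa using Cp_marg hl h (fun _ => 1) |>.trans (Ed_one h.ne) : Cp bs (fun _ => 1) = 1), mul_zero, Finset.sum_const_zero]
      rw [if_neg (not_not.2 hqr), mul_zero, zero_add]
      exact mul_nonneg (by positivity) (Ed_pos _ _ fun s _ =>
        mul_nonneg (Nm_mem _ _ _).1 (by positivity))
    · rw [if_pos hqr]
      simp only [← fn_mul]
      rw [← fn_sum, ← fn_add]
      have a1 : Cp bs (fun c => ∑ p ∈ B, 1 / ((p : ℝ) * q * r) *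
          (ind bs η p q r c * f (v0 ((1, p, q, r) * c)))) ≤
          Cp bs fun c => (fun s D => (1 / ((q : ℝ) * r) * β * f (q * r * s) * Nm bs 100 s) *
            JJ η (Real.log q - Real.log r + D)) (v0 c) (DD c) := by
        refine (Cp_pos hl h).mono fun c _ => ?_
        have b1 : ∀ p ∈ B, 1 / ((p : ℝ) * q * r) * (ind bs η p q r c * f (v0 ((1, p, q, r) * c))) ≤
            (if |Real.log p - (Real.log q + Real.log c.2.2.1 - Real.log c.2.1)| ≤ 2 * η
              then 1 / (p : ℝ) else 0) * (1 / ((q : ℝ) * r) * f (q * r * v0 c) * Nm bs 100 (v0 c) *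
                JJ η (Real.log q - Real.log r + DD c)) := by
          intro p _
          have c0 := hf (q * r * v0 c)
          have c1 := (Nm_mem bs 100 (v0 c)).1
          have c2 := JJ_nonneg η (Real.log q - Real.log r + DD c)
          unfold ind
          by_cases hc : cond η p q r c
          · obtain ⟨d1, d2, _⟩ := hc.2.2.2
            rw [if_pos hc, if_pos, v0_mul, JJ, if_pos]
            · have : v0 (1, p, q, r) = q * r := by simp [v0]
              rw [this]
              have d3 := (N3_mem bs c).2.1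
              calc _ = 1 / (p : ℝ) * (1 / ((q : ℝ) * r) * f (q * r * v0 c) * N3 bs c * 1) := by
                    rw [mul_assoc (p : ℝ), ← one_div_mul_one_div]; ring
                _ ≤ _ := by gcongr
            · convert d2 using 2; unfold DD; ring
            · refine le_trans (le_of_eq ?_) (d1.trans (by linarith))
              congr 1; ring
          · rw [if_neg hc, zero_mul, mul_zero]
            split_ifs <;> positivity
        refine (Finset.sum_le_sum b1).trans ?_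
        rw [← Finset.sum_mul]
        have c0 := hf (q * r * v0 c)
        have c1 := (Nm_mem bs 100 (v0 c)).1
        have c2 := JJ_nonneg η (Real.log q - Real.log r + DD c)
        refine (mul_le_mul_of_nonneg_right (hW _) (by positivity)).trans (le_of_eq ?_)
        ring
      refine a1.trans ((Cp_cond hl h (fun s D => (1 / ((q : ℝ) * r) * β * f (q * r * s) *
        Nm bs 100 s) * JJ η (Real.log q - Real.log r + D))).le.trans ?_)
      refine (Ed_pos _).mono fun s _ => ?_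
      rw [fn_mul]
      obtain ⟨n0, n1⟩ := Nm_mem bs 100 s
      change _ * U q r s ≤ _
      push_cast
      generalize U q r s = u
      generalize f (q * r * s) = x
      generalize Nm bs 100 s = n at *
      generalize 1 / ((q : ℝ) * r) = w at *
      have e1 : β * x * u ≤ θ * x ^ 2 + β ^ 2 / (4 * θ) * u ^ 2 := by
        have : θ * x ^ 2 + β ^ 2 / (4 * θ) * u ^ 2 - β * x * u = (2 * θ * x - β * u) ^ 2 / (4 * θ) := by
          field_simp; ring
        have : 0 ≤ (2 * θ * x - β * u) ^ 2 / (4 * θ) := by positivity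
        linarith
      have e2 := mul_le_mul_of_nonneg_left e1 (mul_nonneg hw n0)
      have e3 : w * n * (θ * x ^ 2) ≤ w * 1 * (θ * x ^ 2) := by gcongr
      nlinarith
  refine s1.trans ?_
  simp only [Finset.sum_add_distrib, ← Finset.mul_sum]
  refine add_le_add (mul_le_mul_of_nonneg_left ?_ hθ.le)
    (mul_le_mul_of_nonneg_left ?_ (by positivity))
  · refine (pairs_le hB (fun a => 1 / (a : ℝ) * Ed bs.prod (fun s => f (a * s) ^ 2)) fun a =>
      mul_nonneg (by positivity) (Ed_pos _ _ fun s _ => by positivity)).trans (le_of_eq ?_)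
    rw [Ed_mul hcop, Ed_apply (∏ p ∈ B, p)]
    have := one_le_sg (sqf_prod B hB).ne_zero
    field_simp
  · simp only [← fn_sum]
    rw [← fn_mul]
    refine (Ed_pos _).mono fun s _ => ?_
    simp only [← Finset.mul_sum]
    rw [mul_left_comm]
    refine mul_le_mul_of_nonneg_left ?_ (Nm_mem _ _ _).1
    have b1 : ∀ q r : ℕ, 1 / ((q : ℝ) * r) * U q r s ^ 2 = Col bs s fun D => Col bs s fun D' =>
        1 / ((q : ℝ) * r) * JJ η (Real.log q - Real.log r + D) *
          JJ η (Real.log q - Real.log r + D') := by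
      intro q r
      simp only [fn_mul, fn_mul', hU]
      ring
    simp only [b1, ← fn_sum, Col2, bd_apply, mp_apply, ← fn_mul]
    refine (Col_pos bs s).mono fun D _ => (Col_pos bs s).mono fun D' _ => ?_
    rw [Finset.sum_comm, Finset.sum_mul, Finset.sum_mul]
    refine Finset.sum_le_sum fun r _ => ?_
    have b2 : ∀ q ∈ B, 1 / ((q : ℝ) * r) * JJ η (Real.log q - Real.log r + D) *
          JJ η (Real.log q - Real.log r + D') ≤
        (if |Real.log q - (Real.log r - D)| ≤ 2 * η then 1 / (q : ℝ) else 0) *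
          (1 / (r : ℝ) * II η (D - D')) := by
      intro q _
      have := II_nonneg η (D - D')
      unfold JJ
      by_cases c1 : |Real.log q - Real.log r + D| ≤ η
      · by_cases c2 : |Real.log q - Real.log r + D'| ≤ η
        · rw [if_pos c1, if_pos c2, if_pos, II, if_pos, ← one_div_mul_one_div]
          · simp
          · rw [abs_le] at *; constructor <;> linarith [c1.1, c1.2, c2.1, c2.2]
          · rw [abs_le] at *; constructor <;> linarith [c1.1, c1.2]
        · rw [if_neg c2, mul_zero]; split_ifs <;> positivity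
      · rw [if_neg c1, mul_zero, zero_mul]; split_ifs <;> positivity
    refine (Finset.sum_le_sum b2).trans ?_
    rw [← Finset.sum_mul]
    have := II_nonneg η (D - D')
    refine (mul_le_mul_of_nonneg_right (hW _) (by positivity)).trans (le_of_eq ?_)
    ring

end Pool.Agent.H59.EL
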