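import Pool.Agent.H59.EL4

namespace Pool.Agent.H59.EL
open Finset

lemma sum_erase_ge (s : Finset ℕ) (u : ℕ) :
    ∑ p ∈ s, (1 / (p : ℝ)) - 1 / (u : ℝ) ≤ ∑ p ∈ s.erase u, (1 / (p : ℝ)) := by
  by_cases h : u ∈ s
  · rw [← Finset.add_sum_erase s _ h]; linarith
  · rw [Finset.erase_eq_of_notMem h]
    have : (0 : ℝ) ≤ 1 / (u : ℝ) := by positivity
    linarith

lemma win_low {η δ t0 L a : ℝ} (hM : Mer δ t0) (hδ : δ ≤ η / 4) (hη : 0 < η) (hη1 : η ≤ 1)
    (hl : t0 ≤ L) (hL : 32 / η ≤ L) (h1 : L ≤ a) (h2 : a + η ≤ 2 * L) {u v : ℕ}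
    (hu : u ∈ PW L (2 * L)) (hv : v ∈ PW L (2 * L)) :
    η / (8 * L) ≤ ∑ p ∈ ((PW a (a + η)).erase u).erase v, (1 / (p : ℝ)) := by
  have hL0 : 0 < L := lt_of_lt_of_le (by positivity) hL
  have small : ∀ w ∈ PW L (2 * L), 1 / (w : ℝ) ≤ η / (16 * L) := by
    intro w hw
    obtain ⟨a1, a2, _⟩ := mem_PW.1 hw
    have a3 : (0 : ℝ) < w := by exact_mod_cast a1.pos
    have a4 := (Real.lt_log_iff_exp_lt a3).1 a2
    have a5 := Real.quadratic_le_exp_of_nonneg hL0.le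
    rw [div_le_iff₀ hη] at hL
    rw [div_le_div_iff₀ a3 (by positivity)]
    nlinarith
  have b1 := (hM a (by linarith) (a + η) (by linarith)).1
  have b2 : η / (4 * L) ≤ ∑ p ∈ PW a (a + η), (1 / (p : ℝ)) := by
    refine le_trans ?_ (le_hs (by linarith))
    rw [show η / (4 * L) = η / 2 / (2 * L) by field_simp; ring]
    exact div_le_div₀ (GG_nonneg _ _) (by nlinarith) (by linarith) h2
  have b3 := sum_erase_ge (PW a (a + η)) u
  have b4 := sum_erase_ge ((PW a (a + η)).erase u) v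
  have b5 := small u hu
  have b6 := small v hv
  have : η / (4 * L) = η / (8 * L) + η / (16 * L) + η / (16 * L) := by field_simp; ring
  linarith

open Classical in
lemma top_low {η δ t0 L : ℝ} (hM : Mer δ t0) (hδ : δ ≤ η / 4) (hη : 0 < η) (hη1 : η ≤ 1)
    (hl : t0 ≤ L) (hL : 32 / η ≤ L) (c : T4) (hx : Real.log c.2.1 ≤ L / 4)
    (hy : Real.log c.2.2.1 ≤ L / 4) (hz : Real.log c.2.2.2 ≤ L / 4) :
    1 / 20 * (η / (8 * L)) ^ 2 ≤ ∑ p ∈ PW L (2 * L), ∑ q ∈ PW L (2 * L), ∑ r ∈ PW L (2 * L),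
      if cond η p q r c then 1 / ((p : ℝ) * q * r) else 0 := by
  have hL32 : 32 ≤ L := le_trans (by rw [le_div_iff₀ hη]; linarith) hL
  set B := PW L (2 * L) with hB
  have sw : ∀ g : ℕ → ℕ → ℕ → ℝ, ∑ p ∈ B, ∑ q ∈ B, ∑ r ∈ B, g p q r =
      ∑ r ∈ B, ∑ q ∈ B, ∑ p ∈ B, g p q r := by
    intro g
    rw [Finset.sum_comm, Finset.sum_comm (f := fun r q => ∑ p ∈ B, g p q r)]
    exact Finset.sum_congr rfl fun q _ => Finset.sum_comm
  rw [sw]
  have x0 := Real.log_natCast_nonneg c.2.1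
  have y0 := Real.log_natCast_nonneg c.2.2.1
  have z0 := Real.log_natCast_nonneg c.2.2.2
  have sub : ∀ a b, L ≤ a → b ≤ 2 * L → PW a b ⊆ B := fun a b h1 h2 p hp => by
    obtain ⟨a1, a2, a3⟩ := mem_PW.1 hp
    exact mem_PW.2 ⟨a1, by linarith, by linarith⟩
  have nn : ∀ p q r : ℕ, (0 : ℝ) ≤ if cond η p q r c then 1 / ((p : ℝ) * q * r) else 0 := by
    intro p q r; split_ifs <;> positivity
  set m := η / (8 * L) with hm
  have hm0 : 0 ≤ m := by positivity
  have h1 : 1 / 20 ≤ ∑ r ∈ PW (1.4 * L) (1.6 * L), (1 / (r : ℝ)) := by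
    refine le_trans ?_ (le_hs (by linarith))
    have := (hM (1.4 * L) (by linarith) (1.6 * L) (by linarith)).1
    rw [le_div_iff₀ (by linarith)]
    nlinarith
  refine le_trans (mul_le_mul_of_nonneg_right h1 (by positivity)) ?_
  rw [Finset.sum_mul]
  refine le_trans (Finset.sum_le_sum fun r hr => ?_) (Finset.sum_le_sum_of_subset_of_nonneg
    (sub _ _ (by linarith) (by linarith))
    fun r _ _ => Finset.sum_nonneg fun q _ => Finset.sum_nonneg fun p _ => nn p q r)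
  have hrB := sub _ _ (by linarith) (by linarith) hr
  obtain ⟨_, r1, r2⟩ := mem_PW.1 hr
  set T := Real.log r + Real.log c.2.2.2 with hT
  have h2 := win_low (a := T - Real.log c.2.2.1 - η / 2) hM hδ hη hη1 hl hL (by linarith)
    (by linarith) hrB hrB
  rw [← hm] at h2
  refine le_trans (le_trans (le_of_eq (by ring))
    (mul_le_mul_of_nonneg_right h2 (show 0 ≤ m * (1 / (r : ℝ)) by positivity))) ?_
  rw [Finset.sum_mul]
  have s2 : ((PW (T - Real.log c.2.2.1 - η / 2) (T - Real.log c.2.2.1 - η / 2 + η)).erase r).erase r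
      ⊆ B := (Finset.erase_subset _ _).trans ((Finset.erase_subset _ _).trans
        (sub _ _ (by linarith) (by linarith)))
  refine le_trans (Finset.sum_le_sum fun q hq => ?_) (Finset.sum_le_sum_of_subset_of_nonneg s2
    fun q _ _ => Finset.sum_nonneg fun p _ => nn p q r)
  have hqB := s2 hq
  obtain ⟨q0, hq⟩ := Finset.mem_erase.1 hq
  obtain ⟨_, q1, q2⟩ := mem_PW.1 (Finset.mem_erase.1 hq).2
  have h3 := win_low (a := T - Real.log c.2.1 - η / 2) hM hδ hη hη1 hl hL (by linarith)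
    (by linarith) hrB hqB
  rw [← hm] at h3
  refine le_trans (le_trans (le_of_eq (by ring))
    (mul_le_mul_of_nonneg_right h3 (show 0 ≤ 1 / (q : ℝ) * (1 / (r : ℝ)) by positivity))) ?_
  rw [Finset.sum_mul]
  have s3 : ((PW (T - Real.log c.2.1 - η / 2) (T - Real.log c.2.1 - η / 2 + η)).erase r).erase q
      ⊆ B := (Finset.erase_subset _ _).trans ((Finset.erase_subset _ _).trans
        (sub _ _ (by linarith) (by linarith)))
  refine le_trans (Finset.sum_le_sum fun p hp => le_of_eq ?_)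
    (Finset.sum_le_sum_of_subset_of_nonneg s3 fun p _ _ => nn p q r)
  obtain ⟨p0, hp⟩ := Finset.mem_erase.1 hp
  obtain ⟨p1, hp⟩ := Finset.mem_erase.1 hp
  obtain ⟨_, p2, p3⟩ := mem_PW.1 hp
  rw [if_pos, one_div_mul_one_div, one_div_mul_one_div, mul_assoc]
  refine ⟨p0, q0, p1, ?_, ?_, ?_⟩ <;> rw [abs_le] <;> constructor <;> linarith

lemma G0_lower {η δ t0 l : ℝ} (hM : Mer δ t0) (hδ : δ ≤ η / 4) (hη : 0 < η) (hη1 : η ≤ 1)
    (hl0 : 0 ≤ l) (hl : t0 ≤ 300 * l) (hL : 32 / η ≤ 300 * l) {bs : List ℕ} (h : Ch η l bs) :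
    (η / (300 * l)) ^ 2 / 5120 ≤ G0 (PW (300 * l) (2 * (300 * l))) bs η fun _ => 1 := by
  classical
  rw [G0_apply]
  simp only [← fn_mul, ← fn_sum]
  set m := 1 / 20 * (η / (8 * (300 * l))) ^ 2 with hm
  have hm0 : 0 ≤ m := by positivity
  have h1 : Cp bs (fun c => m * (1 - (1 - Nm bs 100 (v0 c)) - (1 - Nm bs 100 (v0 (sxy c))) -
      (1 - Nm bs 100 (v0 (sxz c))))) ≤ Cp bs fun c =>
      ∑ p ∈ PW (300 * l) (2 * (300 * l)), ∑ q ∈ PW (300 * l) (2 * (300 * l)),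
        ∑ r ∈ PW (300 * l) (2 * (300 * l)), 1 / ((p : ℝ) * q * r) * (ind bs η p q r c * 1) := by
    refine (Cp_pos hl0 h).mono fun c hc => ?_
    obtain ⟨_, _, _, _, _, a1, a2, a3⟩ := hc
    have a4 := top_low hM hδ hη hη1 hl hL c (by linarith) (by linarith) (by linarith)
    obtain ⟨b1, _, b3⟩ := N3_mem bs c
    refine (mul_le_mul_of_nonneg_left b3 hm0).trans
      ((mul_le_mul_of_nonneg_right a4 b1).trans (le_of_eq ?_))
    simp only [Finset.sum_mul]
    refine Finset.sum_congr rfl fun p _ => Finset.sum_congr rfl fun q _ =>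
      Finset.sum_congr rfl fun r _ => ?_
    unfold ind
    split_ifs <;> simp
  refine le_trans ?_ h1
  have c1 : Cp bs (fun _ => 1) = 1 := (Cp_marg hl0 h (fun _ => 1)).trans (Ed_one h.ne)
  have c2 : Cp bs (fun c => 1 - Nm bs 100 (v0 c)) ≤ 1 / 4 := by
    refine (Cp_marg hl0 h (fun s => 1 - Nm bs 100 s)).le.trans ((fail_le h 100).trans ?_)
    have := Real.quadratic_le_exp_of_nonneg (show (0 : ℝ) ≤ 0.02 * 100 by norm_num)
    rw [Real.exp_neg, ← one_div]
    exact one_div_le_one_div_of_le (by norm_num) (by linarith)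
  rw [fn_mul, fn_sub, fn_sub, fn_sub _ (fun _ => 1), c1,
    Cp_sxy bs (fun c => 1 - Nm bs 100 (v0 c)), Cp_sxz bs (fun c => 1 - Nm bs 100 (v0 c))]
  have : (η / (300 * l)) ^ 2 / 5120 = m * (1 / 4) := by rw [hm]; ring
  rw [this]
  gcongr
  linarith

def Sym (Λ : Fn T4) : Prop :=
  ∀ F : T4 → ℝ, Λ (fun c => F (sxy c)) = Λ F ∧ Λ (fun c => F (sxz c)) = Λ F

def Big (y Q : ℕ) : Prop := Squarefree Q ∧ ∀ p : ℕ, p.Prime → p ∣ Q → y < p

lemma gadget {η : ℝ} (hη : 0 < η) (hη1 : η ≤ 1) : ∃ C : ℝ, ∀ y : ℕ, ∃ (Q : ℕ) (Λ : Fn T4),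
    Big y Q ∧ Pos Λ (OK Q η) ∧ Sym Λ ∧ Λ (fun _ => 1) = 1 ∧
      ∀ f : ℕ → ℝ, (∀ s, 0 ≤ f s) → Λ (fun c => f (v0 c)) ≤ Ed Q (fun s => f s ^ 2) / 2 + C := by
  set Kc := Real.exp (100 * Real.log 3) * (K2 * 3300 + 300) with hKc
  refine ⟨11 ^ 3 * 9 * 2 * Kc * 5120 ^ 2, fun y => ?_⟩
  set δ := min (η / 4) 0.002 with hδ
  have hδ0 : 0 < δ := lt_min (by positivity) (by norm_num)
  have hδ1 : δ ≤ η / 4 := min_le_left _ _
  have hδ2 : δ ≤ 0.002 := min_le_right _ _
  obtain ⟨t0, ht0, hM⟩ := GG_mertens δ hδ0 (by linarith)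
  set l0 := t0 + 100 + y + 32 / η with hl0
  have h32 : 0 < 32 / η := by positivity
  have hy0 : (0 : ℝ) ≤ y := by positivity
  have hr := rr_pos
  have hK := K2_pos
  obtain ⟨k, hk⟩ := exists_pow_lt_of_lt_one (show 0 < η / l0 by positivity) rr_lt
  obtain ⟨bs, h1, h2, h3, h4⟩ := chain (η := η) (l0 := l0) hM hδ0 hδ2 (by linarith) (by linarith)
    (by linarith) k
  set l := l0 * 1.02 ^ k with hl
  have hll : l0 ≤ l := le_mul_of_one_le_right (by linarith) (one_le_pow₀ (by norm_num))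
  have hl1 : l0 * 1.02 ^ (k + 1) = 1.02 * l := by rw [hl, pow_succ]; ring
  rw [hl1] at h4
  have hlp : 0 < l := by linarith
  set B := PW (300 * l) (2 * (300 * l)) with hBdef
  have hB : ∀ p ∈ B, p.Prime := fun p hp => (mem_PW.1 hp).1
  have hcop : (∏ p ∈ B, p).Coprime bs.prod := Nat.coprime_of_dvd fun p hp hpQ hpb => by
    have := (mem_PW.1 (mem_of_dvd hB hp hpQ)).2.1
    have := (h4 p hp hpb).2
    linarith
  have hZ := G0_lower hM hδ1 hη hη1 hlp.le (by linarith) (by linarith) h2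
  rw [← hBdef] at hZ
  set Z := G0 B bs η fun _ => 1 with hZdef
  set u := η / (300 * l) with hu
  have hu0 : 0 < u := by positivity
  have hZ0 : 0 < Z := lt_of_lt_of_le (by positivity) hZ
  refine ⟨(∏ p ∈ B, p) * bs.prod, Z⁻¹ • G0 B bs η, ⟨?_, fun p hp h => ?_⟩, fun F hF => ?_,
    fun F => ?_, ?_, fun f hf => ?_⟩
  · exact Nat.squarefree_mul_iff.2 ⟨hcop, sqf_prod B hB, h3⟩
  · have a1 : l0 < Real.log p := by
      rcases (Nat.Prime.dvd_mul hp).1 h with h | h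
      · have := (mem_PW.1 (mem_of_dvd hB hp h)).2.1
        linarith
      · exact (h4 p hp h).1
    have a2 := Real.log_le_sub_one_of_pos (show (0 : ℝ) < p by exact_mod_cast hp.pos)
    have : (y : ℝ) < p := by linarith
    exact_mod_cast this
  · exact mul_nonneg (inv_nonneg.2 hZ0.le) (G0_pos hB hlp.le h2 F hF)
  · simp only [LinearMap.smul_apply, G0_sxy, G0_sxz, and_self]
  · exact inv_mul_cancel₀ hZ0.ne'
  · have hsq := sqf_prod B hB
    have s1 := one_le_sg hsq.ne_zero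
    have hh2 : ∑ p ∈ B, 1 / (p : ℝ) ≤ 2 := by
      refine (hs_le (by linarith)).trans ?_
      have := (hM (300 * l) (by linarith) (2 * (300 * l)) (by linarith)).2
      rw [div_le_iff₀ (by linarith)]; nlinarith
    have hh0 : 0 ≤ ∑ p ∈ B, 1 / (p : ℝ) := Finset.sum_nonneg fun _ _ => by positivity
    have s2 : sg (∏ p ∈ B, p) ≤ 9 := by
      refine (sg_le_exp hsq).trans ?_
      rw [hh, Nat.primeFactors_prod hB]
      refine (Real.exp_le_exp.2 hh2).trans ?_
      have := Real.exp_one_lt_d9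
      have := Real.exp_pos 1
      rw [show (2 : ℝ) = 1 + 1 by norm_num, Real.exp_add]; nlinarith
    set σ := sg (∏ p ∈ B, p) with hσ
    have up := G0_upper (β := 11 * u) (θ := Z / (4 * σ)) hB hlp.le hη (by positivity) h2 hcop
      (fun t => by
        have := win_up (b := 2 * (300 * l)) hM (by linarith) (by linarith) hη
          (show t0 ≤ 300 * l by linarith) (by linarith) t
        rwa [mul_div_assoc] at this) f hf
    have k1 := key_le hη hlp h2 100
    have k2 : rr ^ k ≤ 300 * u := by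
      rw [mul_pow, lt_div_iff₀ (by linarith)] at hk
      rw [hu, show 300 * (η / (300 * l)) = η / l by field_simp, le_div_iff₀ hlp, hl]
      nlinarith
    have k3 : Ed bs.prod (fun s => Nm bs 100 s * Col2 bs s (II η)) ≤ Kc * u := by
      refine k1.trans ?_
      rw [h1, hKc, mul_assoc, show 11 * η / l = 3300 * u by rw [hu]; field_simp; ring]
      gcongr
      nlinarith
    have k0 : 0 ≤ Ed bs.prod (fun s => Nm bs 100 s * Col2 bs s (II η)) :=
      Ed_pos _ _ fun s _ => mul_nonneg (Nm_mem _ _ _).1 (Col2_pos _ _ _ fun _ _ => II_nonneg _ _)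
    rw [LinearMap.smul_apply, smul_eq_mul, inv_mul_le_iff₀ hZ0]
    refine up.trans ?_
    rw [← hσ, mul_add]
    refine add_le_add (le_of_eq (by field_simp; ring)) ?_
    have hKc0 : 0 < Kc := by positivity
    have e1 : (11 * u) ^ 2 / (4 * (Z / (4 * σ))) = (11 * u) ^ 2 * σ / Z := by field_simp
    rw [e1, div_mul_eq_mul_div, div_le_iff₀ hZ0]
    calc _ ≤ (11 * u) ^ 2 * 9 * (2 * (11 * u) * (Kc * u)) := by gcongr
      _ = (u ^ 2 / 5120) * (11 ^ 3 * 9 * 2 * Kc * 5120 ^ 2) * (u ^ 2 / 5120) := by ring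
      _ ≤ _ := by gcongr

end Pool.Agent.H59.EL
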