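import Pool.Agent.H59.EL5

namespace Pool.Agent.H59.EL
open Finset

def Mx (Q : ℕ) (η C J : ℝ) (Λ : Fn T4) (F : ℕ → ℝ) : Prop :=
  Pos Λ (OK Q η) ∧ Sym Λ ∧ (∀ f : ℕ → ℝ, Λ (fun c => f (v0 c)) = Ed Q fun s => F s * f s) ∧
    Ed Q F = J ∧ Ed Q (fun s => (F s - J) ^ 2) ≤ C * J

lemma OK.v0_dvd {Q : ℕ} {η : ℝ} {c : T4} (h : OK Q η c) : v0 c ∣ Q :=
  Dvd.dvd.trans ⟨c.2.1, by unfold v0; ring⟩ h.1

lemma mx_one {η : ℝ} (hη : 0 < η) (hη1 : η ≤ 1) : ∃ C : ℝ, ∀ y : ℕ,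
    ∃ (Q : ℕ) (Λ : Fn T4) (F : ℕ → ℝ), Big y Q ∧ Mx Q η C 1 Λ F := by
  classical
  obtain ⟨C, hC⟩ := gadget hη hη1
  refine ⟨2 * C, fun y => ?_⟩
  obtain ⟨Q, Λ, hB, h1, h2, h3, h4⟩ := hC y
  have hQ := hB.1.ne_zero
  have hs := one_le_sg hQ
  set W : ℕ → ℝ := fun s => Λ (fun c => if v0 c = s then 1 else 0) * s * sg Q with hW
  have hW0 : ∀ s, 0 ≤ W s := fun s => mul_nonneg (mul_nonneg
    (h1 _ fun c _ => by split_ifs <;> norm_num) (by positivity)) (by linarith)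
  have key : ∀ f : ℕ → ℝ, Λ (fun c => f (v0 c)) = Ed Q fun s => W s * f s := by
    intro f
    have e1 : Λ (fun c => f (v0 c)) =
        Λ fun c => ∑ s ∈ Q.divisors, f s * if v0 c = s then 1 else 0 := by
      refine h1.congr fun c hc => ?_
      simp [Finset.sum_ite_eq, Nat.mem_divisors.2 ⟨hc.v0_dvd, hQ⟩]
    rw [e1, fn_sum, Ed_apply, Finset.mul_sum]
    refine Finset.sum_congr rfl fun s hs' => ?_
    have : (s : ℝ) ≠ 0 := by have := Nat.pos_of_mem_divisors hs'; positivity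
    rw [fn_mul, hW]
    field_simp
  have e1 : Ed Q W = 1 := by
    have := key fun _ => 1
    simp only [mul_one] at this
    rw [← h3, this]
  have e2 := h4 W hW0
  rw [key W] at e2
  simp only [← sq] at e2
  refine ⟨Q, Λ, W, hB, h1, h2, key, e1, ?_⟩
  have : (fun s => (W s - 1) ^ 2) = fun s => W s ^ 2 - 2 * W s + 1 := by ext s; ring
  rw [this, fn_add, fn_sub, fn_mul, Ed_one hQ, e1]
  linarith

lemma mx_add {Q Q' : ℕ} {η C J J' : ℝ} {Λ Λ' : Fn T4} {F F' : ℕ → ℝ} (hQ : Q ≠ 0) (hQ' : Q' ≠ 0)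
    (hc : Q.Coprime Q') (h : Mx Q η C J Λ F) (h' : Mx Q' η C J' Λ' F') :
    ∃ Λ'' F'', Mx (Q * Q') η C (J + J') Λ'' F'' := by
  obtain ⟨a1, a2, a3, a4, a5⟩ := h
  obtain ⟨b1, b2, b3, b4, b5⟩ := h'
  set G : ℕ → ℝ := fun s => F (Nat.gcd s Q) + F' (s / Nat.gcd s Q) with hG
  have hE : ∀ φ : ℝ → ℕ → ℝ, Ed (Q * Q') (fun s => φ (G s) s) =
      Ed Q fun a => Ed Q' fun b => φ (F a + F' b) (a * b) := by
    intro φ
    rw [Ed_mul hc]
    refine (Ed_pos Q).congr fun a ha => (Ed_pos Q').congr fun b hb => ?_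
    obtain ⟨g1, g2⟩ := gcd_split hc ha.1 ha.2 hb.1
    simp only [hG]
    rw [g2, g1]
  refine ⟨bd Λ (fun c => mp (fun s => c * (s, 1, 1, 1)) (Ed Q')) +
    bd (Ed Q) (fun s => mp (fun c => (s, 1, 1, 1) * c) Λ'), G, fun f hf => ?_, fun f => ?_,
    fun f => ?_, ?_, ?_⟩
  · refine add_nonneg ((a1.bd fun c hc => (Ed_pos Q').mp fun s hs => ?_) f hf)
      (((Ed_pos Q).bd fun s hs => b1.mp fun c hc => ?_) f hf)
    · obtain ⟨g, x, y, z⟩ := c
      simp only [OK, Prod.mk_mul_mk, mul_one] at *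
      exact ⟨by convert Nat.mul_dvd_mul hc.1 hs.1 using 1; ring, hc.2⟩
    · obtain ⟨g, x, y, z⟩ := c
      simp only [OK, Prod.mk_mul_mk, one_mul] at *
      exact ⟨by convert Nat.mul_dvd_mul hs.1 hc.1 using 1; ring, hc.2⟩
  · simp only [LinearMap.add_apply, bd_apply, mp_apply]
    constructor
    · congr 1
      · exact (a2 fun c => Ed Q' fun s => f (c * (s, 1, 1, 1))).1
      · congr 1; ext s
        exact (b2 fun c => f ((s, 1, 1, 1) * c)).1
    · congr 1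
      · exact (a2 fun c => Ed Q' fun s => f (c * (s, 1, 1, 1))).2
      · congr 1; ext s
        exact (b2 fun c => f ((s, 1, 1, 1) * c)).2
  · have hv : ∀ s : ℕ, v0 (s, 1, 1, 1) = s := fun s => by simp [v0]
    simp only [LinearMap.add_apply, bd_apply, mp_apply, v0_mul, hv]
    rw [a3 fun a => Ed Q' fun s => f (a * s), hE fun t s => t * f s, ← fn_add]
    congr 1; ext a
    rw [b3 fun b => f (a * b), ← fn_mul, ← fn_add]
    congr 1; ext b; ring
  · rw [hE fun t _ => t]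
    simp only [fn_add, fn_const _ (Ed_one hQ), fn_const _ (Ed_one hQ'), b4]
    rw [← a4]
  · rw [hE fun t _ => (t - (J + J')) ^ 2]
    have : ∀ a b, (F a + F' b - (J + J')) ^ 2 =
        (F a - J) ^ 2 + (F' b - J') ^ 2 + (2 * (F a - J)) * (F' b - J') := fun a b => by ring
    have e : Ed Q' (fun b => F' b - J') = 0 := by
      rw [fn_sub, fn_const _ (Ed_one hQ')]; exact sub_eq_zero.2 b4
    simp only [this, fn_add, fn_mul, e, mul_zero, fn_const _ (Ed_one hQ), fn_const _ (Ed_one hQ')]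
    linarith

lemma Big.mul {y Q Q' : ℕ} (h : Big y Q) (h' : Big (y + Q) Q') :
    Q.Coprime Q' ∧ Big y (Q * Q') := by
  have hc : Q.Coprime Q' := Nat.coprime_of_dvd fun p hp h1 h2 => by
    have := h'.2 p hp h2
    have := Nat.le_of_dvd (Nat.pos_of_ne_zero h.1.ne_zero) h1
    omega
  refine ⟨hc, Nat.squarefree_mul_iff.2 ⟨hc, h.1, h'.1⟩, fun p hp hd => ?_⟩
  rcases (Nat.Prime.dvd_mul hp).1 hd with h1 | h1
  · exact h.2 p hp h1
  · have := h'.2 p hp h1; omega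

lemma big_one (y : ℕ) : Big y 1 :=
  ⟨squarefree_one, fun p hp h => absurd (Nat.dvd_one.1 h) hp.one_lt.ne'⟩

def vt (c : T4) : Fin 3 → ℕ := ![v0 c, v0 (sxy c), v0 (sxz c)]

lemma gad {η κ : ℝ} (hη : 0 < η) (hη1 : η ≤ 1) (hκ : 0 < κ) (y : ℕ) : ∃ (Q : ℕ) (Λ : Fn T4),
    Big y Q ∧ Pos Λ (OK Q η) ∧ Λ (fun _ => 1) = 1 ∧ ∀ (i : Fin 3) (f : ℕ → ℝ),
      (∀ s, s ∣ Q → 0 ≤ f s ∧ f s ≤ 1) → Ed Q f - κ ≤ Λ fun c => f (vt c i) := by
  obtain ⟨C, hC⟩ := mx_one hη hη1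
  have all : ∀ J : ℕ, ∃ (Q : ℕ) (Λ : Fn T4) (F : ℕ → ℝ), Big y Q ∧ Mx Q η C J Λ F := by
    intro J
    induction J with
    | zero =>
      exact ⟨1, 0, fun _ => 0, big_one y, fun _ _ => le_rfl, fun _ => ⟨rfl, rfl⟩,
        fun f => by simp [Ed_unit], by simp [Ed_unit], by simp [Ed_unit]⟩
    | succ J ih =>
      obtain ⟨Q, Λ, F, h1, h2⟩ := ih
      obtain ⟨Q', Λ', F', h3, h4⟩ := hC (y + Q)
      obtain ⟨h5, h6⟩ := h1.mul h3
      obtain ⟨Λ'', F'', h7⟩ := mx_add h1.1.ne_zero h3.1.ne_zero h5 h2 h4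
      exact ⟨Q * Q', Λ'', F'', h6, by push_cast; exact h7⟩
  obtain ⟨J0, hJ⟩ := exists_nat_ge (C / κ ^ 2)
  obtain ⟨Q, Λ, F, h1, a1, a2, a3, a4, a5⟩ := all (J0 + 1)
  set J : ℝ := ((J0 + 1 : ℕ) : ℝ) with hJdef
  have hJ0 : 0 < J := by positivity
  have hJ1 : C ≤ κ ^ 2 * J := by
    rw [div_le_iff₀ (by positivity)] at hJ
    rw [hJdef]; push_cast; nlinarith [sq_nonneg κ]
  have hQ := h1.1.ne_zero
  refine ⟨Q, J⁻¹ • Λ, h1, fun f hf => mul_nonneg (by positivity) (a1 f hf), ?_, fun i f hf => ?_⟩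
  · have := a3 fun _ => 1
    simp only [mul_one] at this
    rw [LinearMap.smul_apply, this, smul_eq_mul]
    exact (congrArg _ a4).trans (inv_mul_cancel₀ hJ0.ne')
  · have e1 : Λ (fun c => f (vt c i)) = Ed Q fun s => F s * f s := by
      rw [← a3]
      fin_cases i
      · rfl
      · exact (a2 fun c => f (v0 c)).1
      · exact (a2 fun c => f (v0 c)).2
    rw [LinearMap.smul_apply, e1, smul_eq_mul, le_inv_mul_iff₀ hJ0]
    have e2 : Ed Q (fun s => J * f s - (1 / (2 * κ * J) * (F s - J) ^ 2 + κ * J / 2)) ≤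
        Ed Q fun s => F s * f s := by
      refine (Ed_pos Q).mono fun s hs => ?_
      obtain ⟨b1, b2⟩ := hf s hs.1
      have c1 : 1 / (2 * κ * J) * (F s - J) ^ 2 + κ * J / 2 * f s ^ 2 + (F s - J) * f s =
          (F s - J + κ * J * f s) ^ 2 / (2 * κ * J) := by field_simp; ring
      have c2 : 0 ≤ (F s - J + κ * J * f s) ^ 2 / (2 * κ * J) := by positivity
      have c3 : κ * J / 2 * f s ^ 2 ≤ κ * J / 2 * 1 := by gcongr; nlinarith
      nlinarith
    rw [fn_sub, fn_add, fn_mul, fn_mul, fn_const _ (Ed_one hQ)] at e2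
    have e3 : 1 / (2 * κ * J) * Ed Q (fun s => (F s - J) ^ 2) ≤ 1 / (2 * κ * J) * (κ ^ 2 * J * J) := by
      gcongr; exact a5.trans (by gcongr)
    have e4 : 1 / (2 * κ * J) * (κ ^ 2 * J * J) = κ * J / 2 := by field_simp
    have e5 : Ed Q (fun a => f a) = Ed Q f := rfl
    nlinarith

lemma vt_facts {Q : ℕ} {η : ℝ} (hQ : Squarefree Q) (hη : 0 ≤ η) {c : T4} (h : OK Q η c) :
    (∀ i, vt c i ∣ Q) ∧ Function.Injective (vt c) ∧
      (∀ i j, Real.log (vt c i) ≤ Real.log (vt c j) + η) ∧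
      ∀ i j k, i + k = j + j → Nat.lcm (vt c i) (vt c j) = Nat.lcm (vt c j) (vt c k) ∧
        Nat.lcm (vt c i) (vt c j) = Nat.lcm (vt c i) (vt c k) := by
  obtain ⟨g, x, y, z⟩ := c
  obtain ⟨h1, hx, hy, hz, h2, h3, h4⟩ := h
  simp only at h1 hx hy hz h2 h3 h4
  have hs := hQ.squarefree_of_dvd h1
  have hg : 0 < g := Nat.pos_of_ne_zero (by rintro rfl; simp at hs)
  have cxy : x.Coprime y := (Nat.squarefree_mul_iff.1 (hs.squarefree_of_dvd ⟨g * z, by ring⟩)).1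
  have cxz : x.Coprime z := (Nat.squarefree_mul_iff.1 (hs.squarefree_of_dvd ⟨g * y, by ring⟩)).1
  have cyz : y.Coprime z := (Nat.squarefree_mul_iff.1 (hs.squarefree_of_dvd ⟨g * x, by ring⟩)).1
  set t : Fin 3 → ℕ := ![x, y, z] with ht
  have hvt : ∀ i, vt (g, x, y, z) i * t i = g * x * y * z := by
    intro i; fin_cases i
    · change g * y * z * x = _; ring
    · change g * x * z * y = _; ring
    · change g * y * x * z = _; ring
  have ht1 : ∀ i, 1 < t i := by intro i; fin_cases i <;> simpa [ht]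
  have htc : ∀ i j, i ≠ j → (t i).Coprime (t j) := by
    intro i j hij
    fin_cases i <;> fin_cases j <;> simp [ht] at hij ⊢ <;>
      first | assumption | exact Nat.Coprime.symm (by assumption)
  have htl : ∀ i j, |Real.log (t i) - Real.log (t j)| ≤ η := by
    intro i j
    fin_cases i <;> fin_cases j <;> simp [ht] <;>
      first | assumption | (rw [abs_sub_comm]; assumption)
  have hM : 0 < g * x * y * z := by positivity
  have hv0 : ∀ i, 0 < vt (g, x, y, z) i := fun i => by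
    have := hvt i
    exact Nat.pos_of_ne_zero fun h => by rw [h] at this; omega
  have hl : ∀ i j, i ≠ j → Nat.lcm (vt (g, x, y, z) i) (vt (g, x, y, z) j) = g * x * y * z := by
    intro i j hij
    have a1 : t j ∣ vt (g, x, y, z) i :=
      (htc j i hij.symm).dvd_of_dvd_mul_right ⟨vt (g, x, y, z) j, by rw [hvt, mul_comm (t j), hvt]⟩
    obtain ⟨a, ha⟩ := a1
    have a2 : vt (g, x, y, z) j = t i * a := by
      have := (hvt j).trans (hvt i).symm
      rw [ha] at this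
      exact Nat.eq_of_mul_eq_mul_right (show 0 < t j by have := ht1 j; omega) (by rw [this]; ring)
    rw [← hvt i, ha, a2, Nat.lcm_mul_right, (htc j i hij.symm).lcm_eq_mul]; ring
  refine ⟨fun i => Dvd.dvd.trans ⟨_, (hvt i).symm⟩ h1, fun i j hij => ?_, fun i j => ?_,
    fun i j k hijk => ?_⟩
  · by_contra hne
    have a1 := (hvt i).trans (hvt j).symm
    rw [hij] at a1
    have a2 := Nat.eq_of_mul_eq_mul_left (hv0 j) a1
    have a3 := htc i j hne
    rw [a2, Nat.coprime_self] at a3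
    have := ht1 j
    omega
  · have a1 : ∀ i, Real.log (vt (g, x, y, z) i) + Real.log (t i) = Real.log (g * x * y * z : ℕ) := by
      intro i
      have := hv0 i
      have := ht1 i
      rw [← hvt i, Nat.cast_mul, Real.log_mul (by positivity) (by positivity)]
    have a2 := abs_le.1 (htl i j)
    linarith [a1 i, a1 j, a2.1]
  · have : ∀ i j k : Fin 3, i + k = j + j → (i = j ∧ j = k) ∨ (i ≠ j ∧ j ≠ k ∧ i ≠ k) := by decide
    rcases this i j k hijk with ⟨rfl, rfl⟩ | ⟨a1, a2, a3⟩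
    · exact ⟨rfl, rfl⟩
    · rw [hl i j a1, hl j k a2, hl i k a3]; exact ⟨rfl, rfl⟩

def CO (Q m : ℕ) (η : ℝ) (s : (Fin m → Fin 3) → ℕ) : Prop :=
  (∀ w, s w ∣ Q) ∧ Function.Injective s ∧ (∀ w w', Real.log (s w) ≤ Real.log (s w') + η) ∧
    ∀ a b c, a + c = b + b → Nat.lcm (s a) (s b) = Nat.lcm (s b) (s c) ∧
      Nat.lcm (s a) (s b) = Nat.lcm (s a) (s c)

lemma cube {η κ : ℝ} (hη : 0 < η) (hη1 : η ≤ 1) (hκ : 0 < κ) (y m : ℕ) :
    ∃ (Q : ℕ) (Λ : Fn ((Fin m → Fin 3) → ℕ)), Big y Q ∧ Pos Λ (CO Q m (m * η)) ∧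
      Λ (fun _ => 1) = 1 ∧ ∀ (w : Fin m → Fin 3) (f : ℕ → ℝ),
        (∀ s, s ∣ Q → 0 ≤ f s ∧ f s ≤ 1) → Ed Q f - m * κ ≤ Λ fun s => f (s w) := by
  induction m with
  | zero =>
    refine ⟨1, pt fun _ => 1, big_one y, fun F hF => hF _ ⟨by simp, fun a b _ => Subsingleton.elim _ _,
      by simp, by simp⟩, rfl, fun w f _ => by simp [Ed_unit]⟩
  | succ m ih =>
    obtain ⟨Q, Λ, h1, h2, h3, h4⟩ := ih
    obtain ⟨Q', Γ, k1, k2, k3, k4⟩ := gad hη hη1 hκ (y + Q)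
    obtain ⟨hc, hB⟩ := h1.mul k1
    have hQ := h1.1.ne_zero
    have hQ' := k1.1.ne_zero
    refine ⟨Q * Q', bd Λ fun s => mp (fun c w => s (Fin.tail w) * vt c (w 0)) Γ, hB,
      h2.bd fun s hs => k2.mp fun c hc' => ?_, by simp only [bd_apply, mp_apply, k3, h3],
      fun w f hf => ?_⟩
    · obtain ⟨a1, a2, a3, a4⟩ := hs
      obtain ⟨b1, b2, b3, b4⟩ := vt_facts k1.1 hη.le hc'
      have a0 : ∀ w, s w ≠ 0 := fun w => ne_zero_of_dvd_ne_zero hQ (a1 w)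
      have b0 : ∀ i, vt c i ≠ 0 := fun i => ne_zero_of_dvd_ne_zero hQ' (b1 i)
      refine ⟨fun w => Nat.mul_dvd_mul (a1 _) (b1 _), fun w w' h => ?_, fun w w' => ?_,
        fun a b d h => ?_⟩
      · obtain ⟨g1, g2⟩ := gcd_split hc (a1 (Fin.tail w)) (a0 _) (b1 (w 0))
        obtain ⟨g3, g4⟩ := gcd_split hc (a1 (Fin.tail w')) (a0 _) (b1 (w' 0))
        simp only at h
        rw [h] at g1 g2
        rw [← Fin.cons_self_tail w, ← Fin.cons_self_tail w', a2 (g1.symm.trans g3),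
          b2 (g2.symm.trans g4)]
      · push_cast
        rw [Real.log_mul (by exact_mod_cast a0 _) (by exact_mod_cast b0 _),
          Real.log_mul (by exact_mod_cast a0 _) (by exact_mod_cast b0 _)]
        linarith [a3 (Fin.tail w) (Fin.tail w'), b3 (w 0) (w' 0)]
      · obtain ⟨c1, c2⟩ := a4 (Fin.tail a) (Fin.tail b) (Fin.tail d)
          (funext fun i => congrFun h i.succ)
        obtain ⟨d1, d2⟩ := b4 (a 0) (b 0) (d 0) (congrFun h 0)
        simp only [lcm_mul_cop hc (a1 _) (a1 _) (b1 _) (b1 _)]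
        rw [← c1, ← c2, ← d1, ← d2]; exact ⟨rfl, rfl⟩
    · simp only [bd_apply, mp_apply]
      have e1 : Λ (fun s => Ed Q' (fun b => f (s (Fin.tail w) * b)) - κ) ≤
          Λ fun s => Γ fun c => f (s (Fin.tail w) * vt c (w 0)) :=
        h2.mono fun s hs => k4 (w 0) (fun b => f (s (Fin.tail w) * b))
          fun b hb => hf _ (Nat.mul_dvd_mul (hs.1 _) hb)
      have e2 := h4 (Fin.tail w) (fun a => Ed Q' fun b => f (a * b)) fun a ha =>
        ⟨Ed_pos _ _ fun b hb => (hf _ (Nat.mul_dvd_mul ha hb.1)).1,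
          ((Ed_pos _).mono fun b hb => (hf _ (Nat.mul_dvd_mul ha hb.1)).2).trans (Ed_one hQ').le⟩
      rw [fn_sub, fn_const _ h3] at e1
      rw [Ed_mul hc]
      push_cast
      linarith

end Pool.Agent.H59.EL
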