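import Mathlib
import Pool.Agent.H59.FX1

set_option autoImplicit false

namespace Pool.Agent.H59.FX

/-- An abstract potential with the three inequalities. -/
theorem exists_pot : ∃ f : ℕ → ℕ, ∀ n, n < 78125 →
    1 ≤ f n ∧ 500 * f (2 * n % 78125) ≤ 607 * f n ∧
      500 * (f ((5 * n + 1) % 78125) + f n) ≤ 607 * f ((5 * n + 1) * 39063 % 78125) := by
  refine ⟨phi, fun n hn => ?_⟩
  have h := ok_all n hn
  unfold ok at h
  rw [Bool.and_eq_true, Bool.and_eq_true, Nat.ble_eq, Nat.ble_eq, Nat.ble_eq] at h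
  exact ⟨h.1.1, h.1.2, h.2⟩

def T (m : ℕ) : ℕ := if m % 2 = 0 then m / 2 else (5 * m + 1) / 2

def R : ℕ → ℕ → Finset ℕ
  | 0, m => {m}
  | (j + 1), m => R j (2 * m) ∪ (if m % 5 = 3 then R j ((2 * m - 1) / 5) else ∅)

theorem mem_R (j : ℕ) : ∀ (n m : ℕ), T^[j] n = m → n ∈ R j m := by
  induction j with
  | zero => intro n m h; simp only [Function.iterate_zero, id] at h; simp [R, h]
  | succ j ih =>
    intro n m h
    rw [Function.iterate_succ_apply'] at h
    have h1 := ih n _ rfl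
    generalize T^[j] n = x at h h1
    unfold T at h
    simp only [R, Finset.mem_union]
    by_cases hx : x % 2 = 0
    · rw [if_pos hx] at h
      left
      have : 2 * m = x := by omega
      rw [this]; exact h1
    · rw [if_neg hx] at h
      right
      have h3 : m % 5 = 3 := by omega
      rw [if_pos h3]
      have : (2 * m - 1) / 5 = x := by omega
      rw [this]; exact h1

theorem card_R (f : ℕ → ℕ) (hf : ∀ n, n < 78125 →
    1 ≤ f n ∧ 500 * f (2 * n % 78125) ≤ 607 * f n ∧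
      500 * (f ((5 * n + 1) % 78125) + f n) ≤ 607 * f ((5 * n + 1) * 39063 % 78125)) (j : ℕ) :
    ∀ m : ℕ, (R j m).card * 500 ^ j ≤ 607 ^ j * f (m % 78125) := by
  induction j with
  | zero =>
    intro m
    have := (hf (m % 78125) (Nat.mod_lt _ (by norm_num))).1
    simpa [R] using this
  | succ j ih =>
    intro m
    by_cases h3 : m % 5 = 3
    · have hc : (R (j + 1) m).card ≤ (R j (2 * m)).card + (R j ((2 * m - 1) / 5)).card := by
        simp only [R, if_pos h3]
        exact Finset.card_union_le _ _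
      obtain ⟨n, hn⟩ : ∃ n, n = (2 * m - 1) / 5 := ⟨_, rfl⟩
      rw [← hn] at hc
      have hnm : 5 * n + 1 = 2 * m := by omega
      have h := (hf (n % 78125) (Nat.mod_lt _ (by norm_num))).2.2
      have e1 : (5 * (n % 78125) + 1) % 78125 = 2 * m % 78125 := by omega
      have e2 : (5 * (n % 78125) + 1) * 39063 % 78125 = m % 78125 := by omega
      rw [e1, e2] at h
      have i1 := ih (2 * m)
      have i2 := ih n
      calc (R (j + 1) m).card * 500 ^ (j + 1)
          ≤ ((R j (2 * m)).card + (R j n).card) * 500 ^ (j + 1) := Nat.mul_le_mul_right _ hc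
        _ = 500 * ((R j (2 * m)).card * 500 ^ j + (R j n).card * 500 ^ j) := by ring
        _ ≤ 500 * (607 ^ j * f (2 * m % 78125) + 607 ^ j * f (n % 78125)) :=
            Nat.mul_le_mul_left _ (Nat.add_le_add i1 i2)
        _ = 607 ^ j * (500 * (f (2 * m % 78125) + f (n % 78125))) := by ring
        _ ≤ 607 ^ j * (607 * f (m % 78125)) := Nat.mul_le_mul_left _ h
        _ = 607 ^ (j + 1) * f (m % 78125) := by ring
    · have hc : (R (j + 1) m).card = (R j (2 * m)).card := by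
        simp only [R, if_neg h3, Finset.union_empty]
      have h := (hf (m % 78125) (Nat.mod_lt _ (by norm_num))).2.1
      have e1 : 2 * (m % 78125) % 78125 = 2 * m % 78125 := by omega
      rw [e1] at h
      have i1 := ih (2 * m)
      calc (R (j + 1) m).card * 500 ^ (j + 1)
          = 500 * ((R j (2 * m)).card * 500 ^ j) := by rw [hc]; ring
        _ ≤ 500 * (607 ^ j * f (2 * m % 78125)) := Nat.mul_le_mul_left _ i1
        _ = 607 ^ j * (500 * f (2 * m % 78125)) := by ring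
        _ ≤ 607 ^ j * (607 * f (m % 78125)) := Nat.mul_le_mul_left _ h
        _ = 607 ^ (j + 1) * f (m % 78125) := by ring

theorem card_R_real : ∃ P : ℝ, 0 ≤ P ∧ ∀ j : ℕ, ((R j 1).card : ℝ) ≤ P * (607 / 500 : ℝ) ^ j := by
  obtain ⟨f, hf⟩ := exists_pot
  refine ⟨(f (1 % 78125) : ℝ), Nat.cast_nonneg _, fun j => ?_⟩
  have h := card_R f hf j 1
  have h' : ((R j 1).card : ℝ) * 500 ^ j ≤ 607 ^ j * (f (1 % 78125) : ℝ) := by exact_mod_cast h
  have hp : (0 : ℝ) < 500 ^ j := by positivity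
  rw [div_pow, ← mul_div_assoc, le_div_iff₀ hp]
  linarith

theorem geom_le (K : ℕ) :
    ∑ k ∈ Finset.range (K + 1), (607 / 500 : ℝ) ^ k ≤ 6 * (607 / 500 : ℝ) ^ K := by
  induction K with
  | zero => norm_num
  | succ K ih =>
    rw [Finset.sum_range_succ, pow_succ]
    have hp : (0 : ℝ) < (607 / 500 : ℝ) ^ K := by positivity
    nlinarith

theorem count_le : ∃ C : ℝ, 0 ≤ C ∧ ∀ (c : ℝ) (N : ℕ), 0 < c → 1 ≤ N →
    (({n : ℕ | n < N ∧ ∃ k : ℕ, 1 ≤ k ∧ T^[k] n = 1 ∧ (k : ℝ) < c * Real.log n}.ncard : ℝ))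
      ≤ C * (N : ℝ) ^ (c * Real.log (607 / 500)) := by
  obtain ⟨P, hP, hR⟩ := card_R_real
  refine ⟨6 * P, by positivity, fun c N hc hN => ?_⟩
  have hN' : (1 : ℝ) ≤ N := by exact_mod_cast hN
  have hlN : 0 ≤ Real.log N := Real.log_nonneg hN'
  obtain ⟨K, hK⟩ : ∃ K : ℕ, K = ⌊c * Real.log N⌋₊ := ⟨_, rfl⟩
  have hKle : (K : ℝ) ≤ c * Real.log N := by rw [hK]; exact Nat.floor_le (by positivity)
  have hsub : {n : ℕ | n < N ∧ ∃ k : ℕ, 1 ≤ k ∧ T^[k] n = 1 ∧ (k : ℝ) < c * Real.log n}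
      ⊆ ((Finset.range (K + 1)).biUnion (fun k => R k 1) : Finset ℕ) := by
    rintro n ⟨hn, k, hk1, hk2, hk3⟩
    simp only [Finset.coe_biUnion, Finset.coe_range, Set.mem_iUnion, Set.mem_Iio, Finset.mem_coe]
    refine ⟨k, ?_, mem_R k n 1 hk2⟩
    have hle : Real.log n ≤ Real.log N := by
      rcases Nat.eq_zero_or_pos n with h0 | h0
      · rw [h0]; simpa using hlN
      · exact Real.log_le_log (by exact_mod_cast h0) (by exact_mod_cast hn.le)
    have h1 : (k : ℝ) ≤ c * Real.log N := by nlinarith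
    have h2 : k ≤ K := by rw [hK]; exact Nat.le_floor h1
    omega
  have h1 := Set.ncard_le_ncard hsub (Finset.finite_toSet _)
  rw [Set.ncard_coe_finset] at h1
  have h2 : ((Finset.range (K + 1)).biUnion (fun k => R k 1)).card
      ≤ ∑ k ∈ Finset.range (K + 1), (R k 1).card := Finset.card_biUnion_le
  have h3 : (({n : ℕ | n < N ∧ ∃ k : ℕ, 1 ≤ k ∧ T^[k] n = 1 ∧
      (k : ℝ) < c * Real.log n}.ncard : ℝ)) ≤ ∑ k ∈ Finset.range (K + 1), ((R k 1).card : ℝ) := by
    exact_mod_cast h1.trans h2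
  have h4 : ∑ k ∈ Finset.range (K + 1), ((R k 1).card : ℝ)
      ≤ P * ∑ k ∈ Finset.range (K + 1), (607 / 500 : ℝ) ^ k := by
    rw [Finset.mul_sum]
    exact Finset.sum_le_sum (fun k _ => hR k)
  have hlr : 0 ≤ Real.log (607 / 500) := Real.log_nonneg (by norm_num)
  have h5 : (607 / 500 : ℝ) ^ K ≤ (N : ℝ) ^ (c * Real.log (607 / 500)) := by
    rw [Real.rpow_def_of_pos (by linarith)]
    have e : (607 / 500 : ℝ) ^ K = Real.exp ((K : ℝ) * Real.log (607 / 500)) := by
      rw [← Real.log_pow, Real.exp_log (by positivity)]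
    rw [e]
    apply Real.exp_le_exp.mpr
    nlinarith
  have h6 := geom_le K
  calc _ ≤ P * ∑ k ∈ Finset.range (K + 1), (607 / 500 : ℝ) ^ k := h3.trans h4
    _ ≤ P * (6 * (607 / 500 : ℝ) ^ K) := mul_le_mul_of_nonneg_left h6 hP
    _ ≤ P * (6 * (N : ℝ) ^ (c * Real.log (607 / 500))) := by gcongr
    _ = 6 * P * (N : ℝ) ^ (c * Real.log (607 / 500)) := by ring

theorem main (c : ℝ) (hc : 0 < c) (hc' : c < 1 / Real.log (607 / 500)) :
    Filter.Tendsto
      (fun N : ℕ =>
        (({n : ℕ | n < N ∧ ∃ k : ℕ, 1 ≤ k ∧ T^[k] n = 1 ∧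
            (k : ℝ) < c * Real.log n}.ncard : ℝ) / (N : ℝ)))
      Filter.atTop (nhds 0) := by
  obtain ⟨C, hC, hb⟩ := count_le
  have hlr : 0 < Real.log (607 / 500) := Real.log_pos (by norm_num)
  have ha : 0 < 1 - c * Real.log (607 / 500) := by
    rw [lt_div_iff₀ hlr] at hc'
    linarith
  have ht : Filter.Tendsto (fun N : ℕ => C * (N : ℝ) ^ (-(1 - c * Real.log (607 / 500))))
      Filter.atTop (nhds 0) := by
    have h0 := (tendsto_rpow_neg_atTop ha).comp tendsto_natCast_atTop_atTop (α := ℕ)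
    have h1 := h0.const_mul C
    rw [mul_zero] at h1
    exact h1
  refine squeeze_zero' (Filter.Eventually.of_forall (fun N => by positivity)) ?_ ht
  filter_upwards [Filter.eventually_ge_atTop 1] with N hN
  have hN' : (0 : ℝ) < N := by exact_mod_cast hN
  rw [div_le_iff₀ hN']
  have e : (N : ℝ) ^ (-(1 - c * Real.log (607 / 500))) * N
      = (N : ℝ) ^ (c * Real.log (607 / 500)) := by
    rw [← Real.rpow_add_one hN'.ne']
    congr 1
    ring
  rw [mul_assoc, e]
  exact hb c N hc hN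

end Pool.Agent.H59.FX
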