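import Mathlib
import Pool.Agent.H59.FY1

set_option autoImplicit false

namespace Pool.Agent.H59.FY

theorem exists_pot0 : ∃ g : ℕ → ℕ, (∀ m, g m < 16) ∧ ∀ r, r < 78125 → r % 5 ≠ 0 →
    (g (2 * r % 78125) + 1 ≤ g r ∨ (r % 5 = 3 ∧ ((2 * r - 1) / 5 % 15625) % 5 ≠ 0 ∧
      g ((2 * r - 1) / 5 % 15625) ≤ g r + 3 ∧ g ((2 * r - 1) / 5 % 15625 + 15625) ≤ g r + 3 ∧
      g ((2 * r - 1) / 5 % 15625 + 31250) ≤ g r + 3 ∧
      g ((2 * r - 1) / 5 % 15625 + 46875) ≤ g r + 3 ∧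
      g ((2 * r - 1) / 5 % 15625 + 62500) ≤ g r + 3)) := by
  refine ⟨psi, psi_lt, fun r hr h5 => ?_⟩
  have h := ok_all r hr
  unfold ok ok5 at h
  generalize psi = g at h
  simp only [Bool.or_eq_true, Bool.and_eq_true, Nat.ble_eq, Nat.beq_eq, Bool.not_eq_true',
    Bool.eq_false_iff, ne_eq] at h
  rcases h with ((h | h) | h) | h
  · omega
  · omega
  · exact Or.inl h
  · right
    obtain ⟨h1, ⟨⟨⟨⟨⟨h2, h3⟩, h4⟩, h6⟩, h7⟩, h8⟩⟩ := h
    exact ⟨h1, h2, h3, h4, h6, h7, h8⟩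

theorem exists_pot : ∃ f : ℕ → ℕ, (∀ m, f m < 16) ∧ ∀ n, n % 5 ≠ 0 →
    (f (2 * n) + 1 ≤ f n ∨ (n % 5 = 3 ∧ ((2 * n - 1) / 5) % 5 ≠ 0 ∧
      f ((2 * n - 1) / 5) ≤ f n + 3)) := by
  obtain ⟨g, hg, h⟩ := exists_pot0
  refine ⟨fun m => g (m % 78125), fun m => hg _, fun n hn => ?_⟩
  have hr : n % 78125 < 78125 := Nat.mod_lt _ (by norm_num)
  rcases h (n % 78125) hr (by omega) with h1 | ⟨h1, h2, h3, h4, h5, h6, h7⟩
  · left
    have e : 2 * (n % 78125) % 78125 = 2 * n % 78125 := by omega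
    rw [e] at h1
    exact h1
  · right
    have hn3 : n % 5 = 3 := by omega
    have e : (2 * (n % 78125) - 1) / 5 % 15625 = (2 * n - 1) / 5 % 15625 := by omega
    rw [e] at h2 h3 h4 h5 h6 h7
    generalize (2 * n - 1) / 5 = y at *
    refine ⟨hn3, by omega, ?_⟩
    have hy : y % 78125 = y % 15625 ∨ y % 78125 = y % 15625 + 15625 ∨
        y % 78125 = y % 15625 + 31250 ∨ y % 78125 = y % 15625 + 46875 ∨
        y % 78125 = y % 15625 + 62500 := by omega
    show g (y % 78125) ≤ g (n % 78125) + 3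
    rcases hy with hy | hy | hy | hy | hy <;> rw [hy] <;> assumption

def T (n : ℕ) : ℕ := if n % 2 = 0 then n / 2 else (5 * n + 1) / 2

theorem path (s : ℕ) : ∃ n o : ℕ, 0 < n ∧ T^[s] n = 16 ∧ n * 5 ^ o ≤ 16 * 2 ^ s ∧
    s ≤ 4 * o + 15 := by
  obtain ⟨f, hf, h⟩ := exists_pot
  have key : ∀ s : ℕ, ∃ n o : ℕ, n % 5 ≠ 0 ∧ T^[s] n = 16 ∧ n * 5 ^ o ≤ 16 * 2 ^ s ∧
      s + f n ≤ 4 * o + f 16 := by
    intro s
    induction s with
    | zero => exact ⟨16, 0, by norm_num, rfl, by norm_num, by omega⟩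
    | succ s ih =>
      obtain ⟨n, o, h1, h2, h3, h4⟩ := ih
      rcases h n h1 with h5 | ⟨h5, h6, h7⟩
      · refine ⟨2 * n, o, by omega, ?_, ?_, by omega⟩
        · rw [Function.iterate_succ_apply]
          have : T (2 * n) = n := by
            unfold T
            rw [if_pos (by omega)]
            omega
          rw [this, h2]
        · rw [pow_succ]
          nlinarith
      · obtain ⟨y, hy⟩ : ∃ y, y = (2 * n - 1) / 5 := ⟨_, rfl⟩
        rw [← hy] at h6 h7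
        have hy' : 5 * y + 1 = 2 * n := by omega
        refine ⟨y, o + 1, h6, ?_, ?_, by omega⟩
        · rw [Function.iterate_succ_apply]
          have : T y = n := by
            unfold T
            rw [if_neg (by omega)]
            omega
          rw [this, h2]
        · have h8 : 5 * y ≤ 2 * n := by omega
          calc y * 5 ^ (o + 1) = (5 * y) * 5 ^ o := by ring
            _ ≤ (2 * n) * 5 ^ o := Nat.mul_le_mul_right _ h8
            _ = 2 * (n * 5 ^ o) := by ring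
            _ ≤ 2 * (16 * 2 ^ s) := Nat.mul_le_mul_left _ h3
            _ = 16 * 2 ^ (s + 1) := by ring
  obtain ⟨n, o, h1, h2, h3, h4⟩ := key s
  have := hf 16
  exact ⟨n, o, by omega, h2, h3, by omega⟩

theorem orbit1 (i : ℕ) :
    T^[i] 1 = 1 ∨ T^[i] 1 = 3 ∨ T^[i] 1 = 8 ∨ T^[i] 1 = 4 ∨ T^[i] 1 = 2 := by
  induction i with
  | zero => left; rfl
  | succ i ih =>
    rw [Function.iterate_succ_apply']
    rcases ih with h | h | h | h | h <;> rw [h] <;> decide

theorem first_hit (s n : ℕ) (h : T^[s] n = 16) :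
    T^[s + 4] n = 1 ∧ ∀ j, j < s + 4 → T^[j] n ≠ 1 := by
  constructor
  · rw [add_comm, Function.iterate_add_apply, h]
    decide
  · intro j hj h1
    by_cases hs : j ≤ s
    · obtain ⟨i, rfl⟩ := Nat.exists_eq_add_of_le' hs
      rw [Function.iterate_add_apply, h1] at h
      have := orbit1 i
      omega
    · obtain ⟨i, rfl⟩ : ∃ i, j = i + s := ⟨j - s, by omega⟩
      rw [Function.iterate_add_apply, h] at h1
      have hi : i = 1 ∨ i = 2 ∨ i = 3 := by omega
      rcases hi with rfl | rfl | rfl <;> revert h1 <;> decide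

theorem main (γ : ℝ) (h0 : 0 < γ) (hγ : γ < 1 / (Real.log 2 - (1 / 4) * Real.log 5)) :
    {x : ℕ | 0 < x ∧ ∃ k : ℕ, T^[k] x = 1 ∧ (∀ j : ℕ, j < k → T^[j] x ≠ 1) ∧
      γ * Real.log (x : ℝ) < (k : ℝ)}.Infinite := by
  have hl5 : 0 < Real.log 5 := Real.log_pos (by norm_num)
  have hl2 : 0 < Real.log 2 := Real.log_pos (by norm_num)
  have h16 : Real.log 16 = 4 * Real.log 2 := by
    rw [show (16 : ℝ) = 2 ^ 4 by norm_num, Real.log_pow]; norm_num
  have hβ : 0 < Real.log 2 - (1 / 4) * Real.log 5 := by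
    have : Real.log 5 < Real.log 16 := Real.log_lt_log (by norm_num) (by norm_num)
    linarith
  obtain ⟨β, hβe⟩ : ∃ β, β = Real.log 2 - (1 / 4) * Real.log 5 := ⟨_, rfl⟩
  rw [← hβe] at hβ hγ
  rw [lt_div_iff₀ hβ] at hγ
  obtain ⟨C, hC⟩ : ∃ C, C = 4 * Real.log 2 + 15 / 4 * Real.log 5 := ⟨_, rfl⟩
  obtain ⟨s0, hs0⟩ := exists_nat_gt (γ * C / (1 - γ * β))
  rw [div_lt_iff₀ (by linarith)] at hs0
  choose n o hn0 hnT hnle hno using path
  refine Set.infinite_of_injective_forall_mem (f := fun s : ℕ => n (s + s0)) ?_ ?_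
  · intro a b hab
    simp only at hab
    have ha := first_hit _ _ (hnT (a + s0))
    have hb := first_hit _ _ (hnT (b + s0))
    rw [hab] at ha
    rcases lt_trichotomy a b with h | h | h
    · exact absurd ha.1 (hb.2 _ (by omega))
    · exact h
    · exact absurd hb.1 (ha.2 _ (by omega))
  · intro a
    obtain ⟨s, hs⟩ : ∃ s, s = a + s0 := ⟨_, rfl⟩
    simp only [Set.mem_setOf_eq]
    rw [← hs]
    have hf := first_hit _ _ (hnT s)
    refine ⟨hn0 s, s + 4, hf.1, hf.2, ?_⟩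
    have hpos : (0 : ℝ) < n s := by exact_mod_cast hn0 s
    have h1 : (n s : ℝ) * 5 ^ (o s) ≤ 16 * 2 ^ s := by exact_mod_cast hnle s
    have h2 := Real.log_le_log (by positivity) h1
    rw [Real.log_mul hpos.ne' (by positivity), Real.log_mul (by norm_num) (by positivity),
      Real.log_pow, Real.log_pow, h16] at h2
    have h3 : (s : ℝ) ≤ 4 * (o s : ℝ) + 15 := by exact_mod_cast hno s
    have h4 : Real.log (n s) ≤ s * β + C := by
      rw [hβe, hC]
      nlinarith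
    have h5 : (s0 : ℝ) ≤ s := by
      have : s0 ≤ s := by omega
      exact_mod_cast this
    have h6 : γ * Real.log (n s) ≤ γ * (s * β + C) := mul_le_mul_of_nonneg_left h4 h0.le
    have h7 : (s0 : ℝ) * (1 - γ * β) ≤ s * (1 - γ * β) :=
      mul_le_mul_of_nonneg_right h5 (by linarith)
    push_cast
    nlinarith

end Pool.Agent.H59.FY
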