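import Mathlib

/-! An elementary van der Corput type bound for sums of fractional parts `{z / k}`. -/

set_option autoImplicit false

namespace Pool.Agent.H59.FracSum

open Finset

lemma hermite (y : ℝ) (a : ℤ) (q : ℕ) (hq : 0 < q) (hc : Nat.Coprime a.natAbs q) :
    ((q : ℝ) - 1) / 2 ≤ ∑ j ∈ range q, Int.fract (y - a * j / q) ∧
      ∑ j ∈ range q, Int.fract (y - a * j / q) ≤ ((q : ℝ) + 1) / 2 := by
  set N := ⌊(q : ℝ) * y⌋ with hN
  set γ := Int.fract ((q : ℝ) * y) with hγ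
  have hq0 : (0 : ℝ) < q := by exact_mod_cast hq
  have hqz : (0 : ℤ) < q := by exact_mod_cast hq
  have g0 : 0 ≤ γ := Int.fract_nonneg _
  have g1 : γ < 1 := Int.fract_lt_one _
  set r : ℕ → ℕ := fun j => ((N - a * j) % q).toNat with hr
  have r1 : ∀ j, ((r j : ℕ) : ℤ) = (N - a * j) % q := fun j =>
    Int.toNat_of_nonneg (Int.emod_nonneg _ hqz.ne')
  have r2 : ∀ j, r j < q := fun j => by
    have := Int.emod_lt_of_pos (N - a * j) hqz
    rw [← r1] at this; exact_mod_cast this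
  have e1 : ∀ j : ℕ, Int.fract (y - a * j / q) = ((r j : ℝ) + γ) / q := by
    intro j
    rw [Int.fract_eq_iff]
    have h1 : (r j : ℝ) + 1 ≤ q := by exact_mod_cast r2 j
    refine ⟨by positivity, by rw [div_lt_one hq0]; linarith, (N - a * j) / q, ?_⟩
    have h2 := Int.mul_ediv_add_emod (N - a * j) q
    rw [← r1] at h2
    have h3 : (q : ℝ) * (((N - a * j) / q : ℤ) : ℝ) + r j = N - a * j := by exact_mod_cast h2
    have h4 : (N : ℝ) + γ = q * y := Int.floor_add_fract _
    field_simp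
    linarith
  have inj : Set.InjOn r (range q : Set ℕ) := by
    intro i hi j hj h
    have h1 : (N - a * i) % q = (N - a * j) % q := by rw [← r1, ← r1, h]
    have h2 : (q : ℤ) ∣ a * (i - j) := by
      have h3 := Int.ModEq.dvd (show N - a * i ≡ N - a * j [ZMOD q] from h1)
      convert h3 using 1; ring
    have h4 : IsCoprime (q : ℤ) a := by
      rw [Int.isCoprime_iff_gcd_eq_one, Int.gcd_comm]
      exact hc
    have h5 := h4.dvd_of_dvd_mul_left h2
    have hi' : i < q := mem_range.1 (mem_coe.1 hi)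
    have hj' : j < q := mem_range.1 (mem_coe.1 hj)
    have := Int.eq_zero_of_abs_lt_dvd h5 (by rw [abs_lt]; constructor <;> omega)
    omega
  have im : (range q).image r = range q := by
    refine Finset.eq_of_subset_of_card_le (fun x hx => ?_) ?_
    · obtain ⟨j, -, rfl⟩ := Finset.mem_image.1 hx
      exact mem_range.2 (r2 j)
    · rw [Finset.card_image_of_injOn inj]
  have e2 : ∑ j ∈ range q, (r j : ℝ) = q * (q - 1) / 2 := by
    rw [← Finset.sum_image (f := fun x : ℕ => (x : ℝ)) inj, im]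
    have := Finset.sum_range_id_mul_two q
    obtain ⟨p, rfl⟩ : ∃ p, q = p + 1 := ⟨q - 1, by omega⟩
    rw [add_tsub_cancel_right] at this
    have h2 := congrArg (fun x : ℕ => (x : ℝ)) this
    push_cast at h2 ⊢; linarith
  rw [Finset.sum_congr rfl (fun j _ => e1 j), ← Finset.sum_div, Finset.sum_add_distrib, e2,
    Finset.sum_const, card_range, nsmul_eq_mul]
  have e3 : ((q : ℝ) * (q - 1) / 2 + q * γ) / q = (q - 1) / 2 + γ := by field_simp
  rw [e3]
  constructor <;> linarith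

lemma block (f : ℕ → ℝ) (y ε : ℝ) (a : ℤ) (q : ℕ) (hq : 0 < q) (hc : Nat.Coprime a.natAbs q)
    (he : ∀ j < q, |f j - (y - a * j / q)| ≤ ε) :
    |∑ j ∈ range q, (Int.fract (f j) - 1 / 2)| ≤ 1 / 2 + 2 * q * ε := by
  have h1 := (hermite (y - ε) a q hq hc).2
  have h2 := (hermite (y + ε) a q hq hc).1
  have h3 : ∑ j ∈ range q, Int.fract (f j) ≤
      ∑ j ∈ range q, (Int.fract (y - ε - a * j / q) + 2 * ε) := by
    refine Finset.sum_le_sum (fun j hj => ?_)
    obtain ⟨b1, b2⟩ := abs_le.1 (he j (mem_range.1 hj))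
    have : ((⌊y - ε - a * j / q⌋ : ℤ) : ℝ) ≤ ⌊f j⌋ :=
      Int.cast_le.2 (Int.floor_mono (by linarith))
    unfold Int.fract; linarith
  have h4 : ∑ j ∈ range q, (Int.fract (y + ε - a * j / q) - 2 * ε) ≤
      ∑ j ∈ range q, Int.fract (f j) := by
    refine Finset.sum_le_sum (fun j hj => ?_)
    obtain ⟨b1, b2⟩ := abs_le.1 (he j (mem_range.1 hj))
    have : ((⌊f j⌋ : ℤ) : ℝ) ≤ ⌊y + ε - a * j / q⌋ :=
      Int.cast_le.2 (Int.floor_mono (by linarith))
    unfold Int.fract; linarith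
  rw [Finset.sum_add_distrib, Finset.sum_const, card_range, nsmul_eq_mul] at h3
  rw [Finset.sum_sub_distrib, Finset.sum_const, card_range, nsmul_eq_mul] at h4
  rw [Finset.sum_sub_distrib, Finset.sum_const, card_range, nsmul_eq_mul, abs_le]
  constructor <;> linarith

lemma card_spaced (S : Finset ℕ) (w : ℝ) (hw : 0 ≤ w)
    (h : ∀ k ∈ S, ∀ l ∈ S, k ≤ l → (l : ℝ) - k ≤ w) : (S.card : ℝ) ≤ w + 1 := by
  rcases S.eq_empty_or_nonempty with rfl | hS
  · simp; linarith
  have h1 : S ⊆ Icc (S.min' hS) (S.min' hS + ⌊w⌋₊) := by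
    intro l hl
    have h2 := Finset.min'_le S l hl
    have h3 := h _ (Finset.min'_mem S hS) l hl h2
    have h4 : l - S.min' hS ≤ ⌊w⌋₊ := Nat.le_floor (by rw [Nat.cast_sub h2]; exact h3)
    exact mem_Icc.2 ⟨h2, by omega⟩
  have h2 := Finset.card_le_card h1
  rw [Nat.card_Icc] at h2
  have h3 : S.card ≤ ⌊w⌋₊ + 1 := by omega
  have h4 : (S.card : ℝ) ≤ ⌊w⌋₊ + 1 := by exact_mod_cast h3
  linarith [Nat.floor_le hw]

open Classical in
lemma bad_count (z : ℝ) (hz : 0 < z) (A B τ Q : ℕ) (hA : 1 ≤ A) (hB : B ≤ 2 * A) (hτ : 1 ≤ τ) :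
    (((Ico A B).filter (fun k : ℕ => ∃ q : ℕ, 1 ≤ q ∧ q < Q ∧ ∃ a : ℤ,
      |q * (z / (k : ℝ) ^ 2) - a| ≤ 1 / τ)).card : ℝ) ≤
      Q * (8 * A / τ + Q * (z / A ^ 3) * A + 24 / (τ * (z / A ^ 3)) + 3) := by
  have hA0 : (0 : ℝ) < A := by exact_mod_cast hA
  have hτ0 : (1 : ℝ) ≤ τ := by exact_mod_cast hτ
  set lam := z / A ^ 3 with hlam
  have l0 : 0 < lam := by positivity
  set F : ℕ → ℤ → Finset ℕ := fun q a =>
    (Ico A B).filter (fun k : ℕ => |q * (z / (k : ℝ) ^ 2) - a| ≤ 1 / τ) with hF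
  have hsub : (Ico A B).filter (fun k : ℕ => ∃ q : ℕ, 1 ≤ q ∧ q < Q ∧ ∃ a : ℤ,
      |q * (z / (k : ℝ) ^ 2) - a| ≤ 1 / τ) ⊆
      (Ico 1 Q).biUnion (fun q => (Icc (-1 : ℤ) (⌊q * lam * A⌋ + 1)).biUnion (F q)) := by
    intro k hk
    obtain ⟨h1, q, h2, h3, a, h4⟩ := Finset.mem_filter.1 hk
    refine Finset.mem_biUnion.2 ⟨q, mem_Ico.2 ⟨h2, h3⟩, Finset.mem_biUnion.2
      ⟨a, ?_, Finset.mem_filter.2 ⟨h1, h4⟩⟩⟩
    obtain ⟨b1, b2⟩ := abs_le.1 h4
    have b3 : 1 / (τ : ℝ) ≤ 1 := by rw [div_le_one (by linarith)]; exact hτ0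
    have hk0 : (A : ℝ) ≤ k := by exact_mod_cast (mem_Ico.1 h1).1
    have b4 : 0 ≤ q * (z / (k : ℝ) ^ 2) := by positivity
    have b5 : q * (z / (k : ℝ) ^ 2) ≤ q * lam * A := by
      rw [mul_assoc]
      refine mul_le_mul_of_nonneg_left ?_ (Nat.cast_nonneg q)
      have : lam * A = z / A ^ 2 := by rw [hlam]; field_simp
      rw [this]; gcongr
    refine mem_Icc.2 ⟨?_, ?_⟩
    · have : (-1 : ℝ) ≤ a := by linarith
      exact_mod_cast this
    · have : a - 1 ≤ ⌊q * lam * A⌋ := Int.le_floor.2 (by push_cast; linarith)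
      omega
  have hF1 : ∀ q : ℕ, 1 ≤ q → ∀ a, ((F q a).card : ℝ) ≤ 8 / (τ * (q * lam)) + 1 := by
    intro q hq a
    have hq0 : (0 : ℝ) < q := by exact_mod_cast hq
    refine card_spaced _ _ (by positivity) (fun k hk l hl hkl => ?_)
    obtain ⟨k1, k2⟩ := Finset.mem_filter.1 hk
    obtain ⟨l1, l2⟩ := Finset.mem_filter.1 hl
    have k3 : (A : ℝ) ≤ k := by exact_mod_cast (mem_Ico.1 k1).1
    have l3 : (l : ℝ) ≤ 2 * A := by
      have := (mem_Ico.1 l1).2
      exact_mod_cast (by omega : l ≤ 2 * A)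
    have kl : (k : ℝ) ≤ l := by exact_mod_cast hkl
    have k0 : (0 : ℝ) < k := by linarith
    have l0' : (0 : ℝ) < l := by linarith
    have d1 : q * (z / (k : ℝ) ^ 2) - q * (z / (l : ℝ) ^ 2) ≤ 2 / τ := by
      have := (abs_le.1 k2).2
      have := (abs_le.1 l2).1
      have e : 2 / (τ : ℝ) = 1 / τ + 1 / τ := by ring
      linarith
    have d2 : (l - k) * (q * lam / 4) ≤ q * (z / (k : ℝ) ^ 2) - q * (z / (l : ℝ) ^ 2) := by
      have e1 : q * (z / (k : ℝ) ^ 2) - q * (z / (l : ℝ) ^ 2) =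
          (l - k) * (q * z * ((l + k) / (k ^ 2 * l ^ 2))) := by field_simp; ring
      have e2 : q * lam / 4 = q * z * (1 / (4 * A ^ 3)) := by rw [hlam]; field_simp
      rw [e1, e2]
      refine mul_le_mul_of_nonneg_left (mul_le_mul_of_nonneg_left ?_ (by positivity))
        (by linarith)
      rw [div_le_div_iff₀ (by positivity) (by positivity)]
      have c1 : (l : ℝ) ^ 2 ≤ 4 * A ^ 2 := by nlinarith
      have c2 : (k : ℝ) ≤ 2 * A := by linarith
      have c3 : (k : ℝ) ^ 2 ≤ (l + k) * A := by nlinarith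
      calc 1 * ((k : ℝ) ^ 2 * l ^ 2) ≤ ((l + k) * A) * (4 * A ^ 2) := by
            rw [one_mul]; exact mul_le_mul c3 c1 (by positivity) (by positivity)
        _ = _ := by ring
    rw [le_div_iff₀ (by positivity)]
    have d3 : (l - k) * (q * lam / 4) * τ ≤ 2 := by
      have := mul_le_mul_of_nonneg_right (d2.trans d1) (by linarith : (0 : ℝ) ≤ τ)
      rwa [div_mul_cancel₀ _ (by linarith : (τ : ℝ) ≠ 0)] at this
    linarith
  refine (Nat.cast_le.2 ((Finset.card_le_card hsub).trans Finset.card_biUnion_le)).trans ?_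
  push_cast
  have hq : ∀ q ∈ Ico 1 Q, (((Icc (-1 : ℤ) (⌊q * lam * A⌋ + 1)).biUnion (F q)).card : ℝ) ≤
      8 * A / τ + Q * lam * A + 24 / (τ * lam) + 3 := by
    intro q hq
    obtain ⟨q1, q2⟩ := mem_Ico.1 hq
    have hq0 : (1 : ℝ) ≤ q := by exact_mod_cast q1
    have hqQ : (q : ℝ) ≤ Q := by exact_mod_cast q2.le
    refine (Nat.cast_le.2 Finset.card_biUnion_le).trans ?_
    push_cast
    refine (Finset.sum_le_card_nsmul _ _ _ (fun a _ => hF1 q q1 a)).trans ?_
    rw [nsmul_eq_mul, Int.card_Icc]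
    have c0 : 0 ≤ ⌊q * lam * A⌋ := Int.floor_nonneg.2 (by positivity)
    have c1 : (((⌊q * lam * A⌋ + 1 + 1 - -1).toNat : ℕ) : ℝ) ≤ q * lam * A + 3 := by
      have : (((⌊q * lam * A⌋ + 1 + 1 - -1).toNat : ℕ) : ℤ) = ⌊q * lam * A⌋ + 3 := by
        rw [Int.toNat_of_nonneg (by omega)]; ring
      have h2 : (((⌊q * lam * A⌋ + 1 + 1 - -1).toNat : ℕ) : ℝ) = ⌊q * lam * A⌋ + 3 := by
        exact_mod_cast this
      rw [h2]; linarith [Int.floor_le (q * lam * A)]
    refine (mul_le_mul_of_nonneg_right c1 (by positivity)).trans ?_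
    have e : (q * lam * A + 3) * (8 / (τ * (q * lam)) + 1) =
        8 * A / τ + q * lam * A + 24 / (τ * (q * lam)) + 3 := by field_simp; ring
    rw [e]
    have c2 : q * lam * A ≤ Q * lam * A := by gcongr
    have c3 : 24 / (τ * (q * lam)) ≤ 24 / (τ * lam) := by
      gcongr; nlinarith
    linarith
  refine (Finset.sum_le_card_nsmul _ _ _ hq).trans ?_
  rw [nsmul_eq_mul, Nat.card_Ico]
  refine mul_le_mul_of_nonneg_right ?_ (by positivity)
  exact_mod_cast Nat.sub_le Q 1

theorem fracsum (z : ℝ) (hz : 0 < z) (A B τ Q : ℕ) (hA : 1 ≤ A) (hAB : A ≤ B) (hB : B ≤ 2 * A)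
    (hτ : 1 ≤ τ) (hQ : 1 ≤ Q) :
    |∑ k ∈ Ico A B, (Int.fract (z / k) - 1 / 2)| ≤
      A * (1 / Q + 2 * (1 / τ + z / A ^ 3 * τ ^ 2)) +
        Q * (8 * A / τ + Q * (z / A ^ 3) * A + 24 / (τ * (z / A ^ 3)) + 3) + τ := by
  classical
  have hA0 : (0 : ℝ) < A := by exact_mod_cast hA
  have hτ0 : (1 : ℝ) ≤ τ := by exact_mod_cast hτ
  have hQ0 : (0 : ℝ) < Q := by exact_mod_cast hQ
  set R : ℕ → Prop := fun k => ∃ q : ℕ, 1 ≤ q ∧ q < Q ∧ ∃ a : ℤ,
    |q * (z / (k : ℝ) ^ 2) - a| ≤ 1 / τ with hR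
  set ε := 1 / τ + z / A ^ 3 * τ ^ 2 with hε
  have ε0 : 0 ≤ ε := by positivity
  set c := 1 / Q + 2 * ε with hc
  have c0 : 0 ≤ c := by positivity
  have one : ∀ x : ℝ, |Int.fract x - 1 / 2| ≤ 1 := fun x => by
    have := Int.fract_nonneg x
    have := Int.fract_lt_one x
    rw [abs_le]; constructor <;> linarith
  have key : ∀ n k0 : ℕ, A ≤ k0 → k0 ≤ B → B ≤ k0 + n →
      |∑ k ∈ Ico k0 B, (Int.fract (z / k) - 1 / 2)| ≤
        c * (B - k0) + ((Ico k0 B).filter R).card + τ := by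
    intro n
    induction n with
    | zero =>
      intro k0 _ h2 h3
      have : k0 = B := by omega
      subst this
      simp
    | succ n ih =>
      intro k0 h1 h2 h3
      have hk : (k0 : ℝ) ≤ B := by exact_mod_cast h2
      by_cases hs : B ≤ k0 + τ
      · refine (Finset.abs_sum_le_sum_abs _ _).trans ?_
        refine (Finset.sum_le_card_nsmul _ _ _ (fun k _ => one _)).trans ?_
        rw [nsmul_eq_mul, mul_one, Nat.card_Ico]
        have a1 : ((B - k0 : ℕ) : ℝ) ≤ τ := by exact_mod_cast (by omega : B - k0 ≤ τ)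
        have a2 : 0 ≤ c * (B - k0) := mul_nonneg c0 (by linarith)
        have a3 : (0 : ℝ) ≤ ((Ico k0 B).filter R).card := Nat.cast_nonneg _
        linarith
      have k0p : (0 : ℝ) < k0 := by
        have : (A : ℝ) ≤ k0 := by exact_mod_cast h1
        linarith
      obtain ⟨ρ, r1, r2⟩ := Real.exists_rat_abs_sub_le_and_den_le (z / (k0 : ℝ) ^ 2) hτ
      have dp : (0 : ℝ) < ρ.den := by exact_mod_cast ρ.den_pos
      have r3 : |ρ.den * (z / (k0 : ℝ) ^ 2) - ρ.num| ≤ 1 / τ := by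
        have e : ρ.den * (z / (k0 : ℝ) ^ 2) - ρ.num = ρ.den * (z / (k0 : ℝ) ^ 2 - ρ) := by
          rw [Rat.cast_def]; field_simp
        rw [e, abs_mul, abs_of_pos dp]
        refine (mul_le_mul_of_nonneg_left r1 dp.le).trans ?_
        have e2 : (ρ.den : ℝ) * (1 / ((τ + 1) * ρ.den)) = 1 / (τ + 1) := by field_simp
        rw [e2]
        exact one_div_le_one_div_of_le (by linarith) (by linarith)
      by_cases hq : ρ.den < Q
      · have a1 := ih (k0 + 1) (by omega) (by omega) (by omega)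
        rw [Finset.sum_eq_sum_Ico_succ_bot (by omega : k0 < B)]
        have a2 : ((Ico (k0 + 1) B).filter R).card + 1 ≤ ((Ico k0 B).filter R).card := by
          rw [← Finset.card_insert_of_notMem (a := k0) (by simp)]
          refine Finset.card_le_card (Finset.insert_subset ?_ ?_)
          · exact Finset.mem_filter.2 ⟨mem_Ico.2 ⟨le_rfl, by omega⟩, ρ.den, ρ.den_pos, hq, _, r3⟩
          · exact Finset.filter_subset_filter _ (Finset.Ico_subset_Ico_left (by omega))
        have a3 : (((Ico (k0 + 1) B).filter R).card : ℝ) + 1 ≤ ((Ico k0 B).filter R).card := by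
          exact_mod_cast a2
        refine (abs_add_le _ _).trans ?_
        have a4 := one (z / k0)
        push_cast at a1
        nlinarith
      · have dpos := ρ.den_pos
        have a1 := ih (k0 + ρ.den) (by omega) (by omega) (by omega)
        rw [← Finset.sum_Ico_consecutive _ (Nat.le_add_right k0 ρ.den) (by omega : _ ≤ B),
          Finset.sum_Ico_eq_sum_range, add_tsub_cancel_left]
        have a2 := block (fun j => z / ((k0 + j : ℕ) : ℝ)) (z / k0) ε ρ.num ρ.den dpos ρ.reduced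
          (fun j hj => by
            have j0 : (0 : ℝ) ≤ j := Nat.cast_nonneg j
            have j1 : (j : ℝ) ≤ ρ.den := by exact_mod_cast hj.le
            have j2 : (j : ℝ) ≤ τ := by exact_mod_cast (by omega : j ≤ τ)
            have e : z / ((k0 + j : ℕ) : ℝ) - (z / k0 - ρ.num * j / ρ.den) =
                -((j / ρ.den) * (ρ.den * (z / (k0 : ℝ) ^ 2) - ρ.num)) +
                  z * j ^ 2 / (k0 ^ 2 * (k0 + j)) := by
              push_cast; field_simp; ring
            rw [e]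
            refine (abs_add_le _ _).trans (add_le_add ?_ ?_)
            · rw [abs_neg, abs_mul, abs_of_nonneg (by positivity)]
              have : (j : ℝ) / ρ.den ≤ 1 := by rw [div_le_one dp]; exact j1
              exact (mul_le_mul this r3 (abs_nonneg _) zero_le_one).trans_eq (one_mul _)
            · rw [abs_of_nonneg (by positivity), div_mul_eq_mul_div]
              have hAk : (A : ℝ) ≤ k0 := by exact_mod_cast h1
              refine div_le_div₀ (by positivity) (by gcongr) (by positivity) ?_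
              rw [pow_succ]
              exact mul_le_mul (by gcongr) (by linarith) hA0.le (by positivity))
        have a3 : (((Ico (k0 + ρ.den) B).filter R).card : ℝ) ≤ ((Ico k0 B).filter R).card :=
          Nat.cast_le.2 (Finset.card_le_card
            (Finset.filter_subset_filter _ (Finset.Ico_subset_Ico_left (by omega))))
        have a4 : (1 : ℝ) ≤ 1 / Q * ρ.den := by
          rw [one_div_mul_eq_div, le_div_iff₀ hQ0, one_mul]
          exact_mod_cast not_lt.1 hq
        refine (abs_add_le _ _).trans ?_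
        push_cast at a1 a2 ⊢
        have a5 : c * (B - k0) = c * (B - (k0 + ρ.den)) + (1 / Q * ρ.den + 2 * ρ.den * ε) := by
          rw [hc]; ring
        linarith
  have h1 := key (B - A) A le_rfl hAB (by omega)
  have h2 := bad_count z hz A B τ Q hA hB hτ
  have h3 : c * (B - A) ≤ A * c := by
    rw [mul_comm]
    refine mul_le_mul_of_nonneg_right ?_ c0
    have : (B : ℝ) ≤ 2 * A := by exact_mod_cast hB
    linarith
  have h4 : (((Ico A B).filter R).card : ℝ) ≤
      Q * (8 * A / τ + Q * (z / A ^ 3) * A + 24 / (τ * (z / A ^ 3)) + 3) := by convert h2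
  linarith

end Pool.Agent.H59.FracSum
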