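import Mathlib

set_option autoImplicit false

namespace Pool.Agent.H59.GH

def C (x : ℕ) : ℕ := if x % 2 = 1 then 3 * x + 1 else x / 2

def sa (a b : ℕ) : ℕ := if b % 2 = 1 then 3 * a else a / 2

def co : ℕ → ℕ → ℕ → ℕ → ℕ → Bool
  | 0, a, b, a', b' => Nat.beq a a' && Nat.beq b b'
  | f + 1, a, b, a', b' => (Nat.beq a a' && Nat.beq b b') ||
      (Nat.beq (a % 2) 0 && Nat.beq (a' % 2) 0 && co f (sa a b) (C b) (sa a' b') (C b'))

theorem C_sym (a b t : ℕ) (ha : a % 2 = 0) : C (a * t + b) = sa a b * t + C b := by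
  obtain ⟨c, rfl⟩ : ∃ c, a = 2 * c := ⟨a / 2, by omega⟩
  have e : 2 * c * t = 2 * (c * t) := by ring
  unfold C sa
  by_cases hb : b % 2 = 1
  · rw [if_pos (by omega), if_pos hb, if_pos hb]; ring
  · rw [if_neg (by omega), if_neg hb, if_neg hb]
    have : 2 * c / 2 = c := by omega
    rw [this]; omega

theorem co_spec (f : ℕ) : ∀ a b a' b', co f a b a' b' = true →
    ∃ j, j ≤ f ∧ ∀ t, C^[j] (a * t + b) = C^[j] (a' * t + b') := by
  induction f with
  | zero =>
    intro a b a' b' h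
    simp only [co, Bool.and_eq_true, Nat.beq_eq] at h
    exact ⟨0, le_rfl, fun t => by rw [h.1, h.2]⟩
  | succ f ih =>
    intro a b a' b' h
    simp only [co, Bool.and_eq_true, Bool.or_eq_true, Nat.beq_eq] at h
    rcases h with h | ⟨⟨h1, h2⟩, h3⟩
    · exact ⟨0, by omega, fun t => by rw [h.1, h.2]⟩
    · obtain ⟨j, hj, h4⟩ := ih _ _ _ _ h3
      refine ⟨j + 1, by omega, fun t => ?_⟩
      rw [Function.iterate_succ_apply, Function.iterate_succ_apply, C_sym _ _ _ h1,
        C_sym _ _ _ h2, h4]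

theorem size (i : ℕ) : ∀ n, n ≤ 2 ^ i * C^[i] n := by
  induction i with
  | zero => intro n; simp
  | succ i ih =>
    intro n
    rw [Function.iterate_succ_apply]
    have h1 := ih (C n)
    have h2 : n ≤ 2 * C n := by unfold C; split_ifs <;> omega
    calc n ≤ 2 * C n := h2
      _ ≤ 2 * (2 ^ i * C^[i] (C n)) := by omega
      _ = 2 ^ (i + 1) * C^[i] (C n) := by ring

theorem ne_one (n i : ℕ) (hi : i ≤ 20) (hn : 2 ^ 20 < n) : C^[i] n ≠ 1 := by
  intro h
  have h1 := size i n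
  rw [h, mul_one] at h1
  have : 2 ^ i ≤ 2 ^ 20 := Nat.pow_le_pow_right (by norm_num) hi
  omega

theorem transfer (n m j k : ℕ) (hj : j ≤ 20) (h : C^[j] n = C^[j] m) (hn : 2 ^ 20 < n)
    (hm : 2 ^ 20 < m) (h1 : C^[k] n = 1) (h2 : ∀ i, i < k → C^[i] n ≠ 1) :
    C^[k] m = 1 ∧ ∀ i, i < k → C^[i] m ≠ 1 := by
  have hk : j ≤ k := by
    by_contra hc
    exact ne_one n k (by omega) hn h1
  constructor
  · obtain ⟨d, rfl⟩ := Nat.exists_eq_add_of_le' hk
    rw [Function.iterate_add_apply, ← h, ← Function.iterate_add_apply, h1]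
  · intro i hi
    by_cases hij : i ≤ j
    · exact ne_one m i (by omega) hm
    · obtain ⟨d, rfl⟩ : ∃ d, i = d + j := ⟨i - j, by omega⟩
      rw [Function.iterate_add_apply, ← h, ← Function.iterate_add_apply]
      exact h2 _ hi

def G (r : ℕ) : Bool := co 20 1024 r 1024 (r + 1) || (Nat.ble 1 r && co 20 1024 r 1024 (r - 1))

theorem G_count : Nat.count (fun k => G (k % 1024) = true) 1024 = 602 := by decide +kernel

theorem count_blocks (q : ℕ) : Nat.count (fun k => G (k % 1024) = true) (1024 * q) = 602 * q := by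
  induction q with
  | zero => simp
  | succ q ih =>
    rw [Nat.mul_succ, Nat.count_add, ih]
    have e : ∀ k, (1024 * q + k) % 1024 = k % 1024 := fun k => by omega
    simp only [e]
    rw [G_count]
    ring

def P (n : ℕ) : Prop :=
  (∃ k, (C^[k] n = 1 ∧ ∀ i, i < k → C^[i] n ≠ 1) ∧
    ((2 ≤ n ∧ C^[k] (n - 1) = 1 ∧ ∀ i, i < k → C^[i] (n - 1) ≠ 1) ∨
      (C^[k] (n + 1) = 1 ∧ ∀ i, i < k → C^[i] (n + 1) ≠ 1))) ∨ ∀ k, C^[k] n ≠ 1

theorem P_of_G (n : ℕ) (hn : 2 ^ 20 + 1 < n) (h : G (n % 1024) = true) : P n := by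
  classical
  by_cases hf : ∃ k, C^[k] n = 1
  · left
    have h1 := Nat.find_spec hf
    have h2 : ∀ i, i < Nat.find hf → C^[i] n ≠ 1 := fun i hi => Nat.find_min hf hi
    refine ⟨Nat.find hf, ⟨h1, h2⟩, ?_⟩
    unfold G at h
    rw [Bool.or_eq_true, Bool.and_eq_true, Nat.ble_eq] at h
    rcases h with h | ⟨h0, h⟩
    · right
      obtain ⟨j, hj, h3⟩ := co_spec _ _ _ _ _ h
      have h4 := h3 (n / 1024)
      rw [show 1024 * (n / 1024) + n % 1024 = n by omega,
        show 1024 * (n / 1024) + (n % 1024 + 1) = n + 1 by omega] at h4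
      exact transfer n (n + 1) j _ hj h4 (by omega) (by omega) h1 h2
    · left
      obtain ⟨j, hj, h3⟩ := co_spec _ _ _ _ _ h
      have h4 := h3 (n / 1024)
      rw [show 1024 * (n / 1024) + n % 1024 = n by omega,
        show 1024 * (n / 1024) + (n % 1024 - 1) = n - 1 by omega] at h4
      exact ⟨by omega, transfer n (n - 1) j _ hj h4 (by omega) (by omega) h1 h2⟩
  · right
    intro k hk
    exact hf ⟨k, hk⟩

theorem main : ∃ K : ℕ, ∀ N : ℕ,
    602 * N ≤ 1024 * {n : ℕ | 1 ≤ n ∧ n ≤ N ∧ P n}.ncard + K := by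
  classical
  refine ⟨1024 * (2 ^ 20 + 2) + 602 * 1024, fun N => ?_⟩
  have hfin : {n : ℕ | 1 ≤ n ∧ n ≤ N ∧ P n}.Finite :=
    (Set.finite_Iic N).subset (fun n hn => hn.2.1)
  have hc := count_blocks (N / 1024)
  rw [Nat.count_eq_card_filter_range] at hc
  have hsub : (Finset.range (1024 * (N / 1024))).filter (fun k => G (k % 1024) = true)
      ⊆ hfin.toFinset ∪ Finset.range (2 ^ 20 + 2) := by
    intro n hn
    rw [Finset.mem_filter, Finset.mem_range] at hn
    rw [Finset.mem_union, Set.Finite.mem_toFinset, Finset.mem_range]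
    by_cases h : n < 2 ^ 20 + 2
    · exact Or.inr h
    · left
      exact ⟨by omega, by omega, P_of_G n (by omega) hn.2⟩
  have h1 := (Finset.card_le_card hsub).trans (Finset.card_union_le _ _)
  rw [hc, Finset.card_range, ← Set.ncard_eq_toFinset_card _ hfin] at h1
  omega

end Pool.Agent.H59.GH
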