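import Mathlib

set_option autoImplicit false

namespace Pool.Agent.H59.KK

def C (n : ℕ) : ℕ := if n % 2 = 0 then n / 2 else if n % 3 = 0 then n / 3 else 5 * n + 1

theorem step (n z : ℕ) (h : 13 * n + 7 = 24 * z) : 13 * C^[5] n + 7 = 50 * z := by
  obtain ⟨t, rfl⟩ : ∃ t, n = 24 * t + 5 := ⟨n / 24, by omega⟩
  have e1 : C (24 * t + 5) = 120 * t + 26 := by
    unfold C; rw [if_neg (by omega), if_neg (by omega)]; omega
  have e2 : C (120 * t + 26) = 60 * t + 13 := by
    unfold C; rw [if_pos (by omega)]; omega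
  have e3 : C (60 * t + 13) = 300 * t + 66 := by
    unfold C; rw [if_neg (by omega), if_neg (by omega)]; omega
  have e4 : C (300 * t + 66) = 150 * t + 33 := by
    unfold C; rw [if_pos (by omega)]; omega
  have e5 : C (150 * t + 33) = 50 * t + 11 := by
    unfold C; rw [if_neg (by omega), if_pos (by omega)]; omega
  have : C^[5] (24 * t + 5) = 50 * t + 11 := by
    show C (C (C (C (C (24 * t + 5))))) = _
    rw [e1, e2, e3, e4, e5]
  rw [this]
  omega

theorem iter (k : ℕ) : ∀ w n : ℕ, 13 * n + 7 = 2 * 12 ^ k * w →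
    13 * C^[5 * k] n + 7 = 2 * 25 ^ k * w := by
  induction k with
  | zero => intro w n h; simpa using h
  | succ k ih =>
    intro w n h
    have h1 := step n (12 ^ k * w) (by rw [h]; ring)
    have h2 := ih (25 * w) (C^[5] n) (by rw [h1]; ring)
    rw [show 5 * (k + 1) = 5 * k + 5 by ring, Function.iterate_add_apply, h2]
    ring

theorem ex (i : ℕ) : ∃ n : ℕ, 13 * n + 7 = 2 * 12 ^ (2 * i) * 10 := by
  induction i with
  | zero => exact ⟨1, by norm_num⟩
  | succ i ih =>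
    obtain ⟨n, hn⟩ := ih
    refine ⟨144 * n + 77, ?_⟩
    rw [show 2 * (i + 1) = 2 * i + 2 by ring, pow_add]
    omega

theorem main (ρ : ℝ) (h0 : 0 < ρ) (hρ : ρ < Real.log 25 / Real.log 12) :
    {n : ℕ | 1 ≤ n ∧ ∃ i : ℕ, (n : ℝ) ^ ρ < (C^[i] n : ℝ)}.Infinite := by
  have hl12 : 0 < Real.log 12 := Real.log_pos (by norm_num)
  have hl2 : 0 < Real.log 2 := Real.log_pos (by norm_num)
  rw [lt_div_iff₀ hl12] at hρ
  obtain ⟨s0, hs0⟩ := exists_nat_gt (ρ * Real.log 2 / (2 * (Real.log 25 - ρ * Real.log 12)))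
  rw [div_lt_iff₀ (by linarith)] at hs0
  choose n hn using ex
  refine Set.infinite_of_injective_forall_mem (f := fun s : ℕ => n (s + s0)) ?_ ?_
  · intro a b hab
    simp only at hab
    have ha := hn (a + s0)
    have hb := hn (b + s0)
    rw [hab, hb] at ha
    have h1 : 12 ^ (2 * (b + s0)) = 12 ^ (2 * (a + s0)) := by omega
    have h2 := Nat.pow_right_injective (by norm_num : 2 ≤ 12) h1
    omega
  · intro a
    obtain ⟨s, hs⟩ : ∃ s, s = a + s0 := ⟨_, rfl⟩
    show 1 ≤ n (a + s0) ∧ ∃ i : ℕ, (n (a + s0) : ℝ) ^ ρ < (C^[i] (n (a + s0)) : ℝ)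
    rw [← hs]
    have h1 := hn s
    have h2 := iter (2 * s) 10 (n s) h1
    have p1 : 1 ≤ 12 ^ (2 * s) := Nat.one_le_pow _ _ (by norm_num)
    have p2 : 1 ≤ 25 ^ (2 * s) := Nat.one_le_pow _ _ (by norm_num)
    have hn1 : 1 ≤ n s := by omega
    refine ⟨hn1, 5 * (2 * s), ?_⟩
    have q1 : n s ≤ 2 * 12 ^ (2 * s) := by omega
    have q2 : 25 ^ (2 * s) ≤ C^[5 * (2 * s)] (n s) := by omega
    have hpos : (0 : ℝ) < n s := by exact_mod_cast hn1
    have r1 : (n s : ℝ) ≤ 2 * 12 ^ (2 * s) := by exact_mod_cast q1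
    have r2 : (25 : ℝ) ^ (2 * s) ≤ (C^[5 * (2 * s)] (n s) : ℝ) := by exact_mod_cast q2
    refine lt_of_lt_of_le ?_ r2
    have l1 := Real.log_le_log hpos r1
    rw [Real.log_mul (by norm_num) (by positivity), Real.log_pow] at l1
    rw [← Real.log_lt_log_iff (by positivity) (by positivity), Real.log_rpow hpos, Real.log_pow]
    have h5 : (s0 : ℝ) ≤ s := by
      have : s0 ≤ s := by omega
      exact_mod_cast this
    have h6 := mul_le_mul_of_nonneg_left l1 h0.le
    have h7 : (s0 : ℝ) * (2 * (Real.log 25 - ρ * Real.log 12))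
        ≤ s * (2 * (Real.log 25 - ρ * Real.log 12)) :=
      mul_le_mul_of_nonneg_right h5 (by linarith)
    push_cast at h6 ⊢
    nlinarith

end Pool.Agent.H59.KK
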