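import Mathlib

/-! Landau's theorem for Dirichlet series with nonnegative coefficients (local form). -/

set_option autoImplicit false

namespace Pool.Agent.H59.Land

open Finset Filter Topology Complex LSeries

lemma absc_iter (f : ℕ → ℂ) (k : ℕ) :
    abscissaOfAbsConv (logMul^[k] f) = abscissaOfAbsConv f := by
  induction k with
  | zero => rfl
  | succ k ih => rw [Function.iterate_succ_apply', abscissaOfAbsConv_logMul, ih]

lemma iter_eq (f : ℕ → ℂ) (k n : ℕ) : logMul^[k] f n = (Complex.log n) ^ k * f n := by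
  induction k with
  | zero => simp
  | succ k ih => rw [Function.iterate_succ_apply', logMul, ih]; ring

/-- Landau's lemma. -/
theorem landau (b : ℕ → ℝ) (hb : ∀ n, 0 ≤ b n) (v r x : ℝ) (Φ : ℂ → ℂ)
    (hΦ : DifferentiableOn ℂ Φ (Metric.ball (v : ℂ) r))
    (hv : abscissaOfAbsConv (fun n => (b n : ℂ)) < v)
    (heq : Φ =ᶠ[𝓝 (v : ℂ)] LSeries (fun n => (b n : ℂ))) (hx : x < v) (hr : v - x < r) :
    LSeriesSummable (fun n => (b n : ℂ)) x := by
  set f : ℕ → ℂ := fun n => (b n : ℂ) with hf
  have hz : (x : ℂ) ∈ Metric.ball (v : ℂ) r := by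
    rw [mem_ball_iff_norm, ← ofReal_sub, norm_real, Real.norm_eq_abs, abs_sub_comm,
      abs_of_pos (by linarith)]
    exact hr
  have h1 := hasSum_taylorSeries_on_ball hΦ hz
  set u : ℕ → ℕ → ℝ := fun k n =>
    ((v - x) * Real.log n) ^ k / k.factorial * ‖term f v n‖ with hu
  have u0 : ∀ k n, 0 ≤ u k n := fun k n => by
    have := Real.log_natCast_nonneg n
    have : 0 < v - x := by linarith
    positivity
  have ht : ∀ n, term f v n = (‖term f v n‖ : ℝ) := fun n => by
    rcases eq_or_ne n 0 with rfl | hn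
    · simp
    rw [norm_term_eq, if_neg hn, term_of_ne_zero hn, hf]
    simp only [norm_real, Real.norm_eq_abs, abs_of_nonneg (hb n), ofReal_re]
    rw [ofReal_div, ofReal_cpow (Nat.cast_nonneg n)]; simp
  have h2 : ∀ k, HasSum (fun n => ((u k n : ℝ) : ℂ))
      ((k.factorial : ℂ)⁻¹ • ((x : ℂ) - v) ^ k • iteratedDeriv k Φ v) := by
    intro k
    rw [heq.iteratedDeriv_eq, LSeries_iteratedDeriv k (by simpa using hv)]
    have s1 : LSeriesSummable (logMul^[k] f) v :=
      LSeriesSummable_of_abscissaOfAbsConv_lt_re (by rw [absc_iter]; simpa using hv)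
    have s2 := s1.LSeriesHasSum.mul_left ((k.factorial : ℂ)⁻¹ * ((x : ℂ) - v) ^ k * (-1) ^ k)
    simp only [smul_eq_mul]
    rw [← mul_assoc, ← mul_assoc]
    have e : (fun n => ((u k n : ℝ) : ℂ)) = fun n =>
        (k.factorial : ℂ)⁻¹ * ((x : ℂ) - v) ^ k * (-1) ^ k * term (logMul^[k] f) v n := by
      funext n
      have e1 : term (logMul^[k] f) v n = (Complex.log n) ^ k * term f v n := by
        rcases eq_or_ne n 0 with rfl | hn
        · simp
        rw [term_of_ne_zero hn, term_of_ne_zero hn, iter_eq]; ring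
      rw [e1, ht n, mul_assoc _ (((x : ℂ) - v) ^ k), ← mul_pow, hu]
      simp only [ofReal_mul, ofReal_div, ofReal_pow, ofReal_sub, ofReal_natCast, natCast_log,
        mul_pow]
      rw [show ((x : ℂ) - v) ^ k * (-1) ^ k = (v - x) ^ k by rw [← mul_pow]; congr 1; ring]
      ring
    rw [e]
    exact s2
  have h3 : ∀ k, Summable (u k) := fun k => summable_ofReal.1 (h2 k).summable
  have h4 : Summable fun k => ∑' n, u k n := by
    refine summable_ofReal.1 (h1.summable.congr fun k => ?_)
    rw [ofReal_tsum, (h2 k).tsum_eq]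
  have h5 : Summable (Function.uncurry u) :=
    (summable_prod_of_nonneg (fun p => u0 p.1 p.2)).2 ⟨h3, h4⟩
  have h6 := h5.prod_symm.prod
  refine Summable.of_norm (h6.congr fun n => ?_)
  simp only [Function.uncurry, Prod.swap, hu]
  have ex : ∀ y : ℝ, ∑' k : ℕ, y ^ k / k.factorial = Real.exp y := fun y => by
    rw [Real.exp_eq_exp_ℝ, NormedSpace.exp_eq_tsum_div]
  rw [tsum_mul_right, ex]
  rcases eq_or_ne n 0 with rfl | hn
  · simp
  have n0 : (0 : ℝ) < n := by positivity
  rw [norm_term_eq, norm_term_eq, if_neg hn, if_neg hn, mul_comm (v - x),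
    ← Real.rpow_def_of_pos n0, ofReal_re, ofReal_re, Real.rpow_sub n0]
  have := Real.rpow_pos_of_pos n0 v
  field_simp

end Pool.Agent.H59.Land
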