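import Mathlib
import Pool.Agent.H59.Land
import Pool.Agent.H59.Zt1

/-! Landau's oscillation theorem for the Mellin transform of a step function. -/

set_option autoImplicit false

namespace Pool.Agent.H59.Land

open Finset Filter Topology Complex LSeries Pool.Agent.H59.Zt

/-- `s` times the Mellin transform of the step function with values `B n` on `[n, n+1)`. -/
noncomputable def M (B : ℕ → ℝ) (s : ℂ) : ℂ :=
  ∑' n : ℕ, (B (n + 1) : ℂ) * (((n : ℂ) + 1) ^ (-s) - ((n : ℂ) + 2) ^ (-s))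

/-- The error series. -/
noncomputable def E (B : ℕ → ℝ) (w : ℂ) : ℂ := ∑' n : ℕ, (B (n + 1) : ℂ) * tm n w

lemma sm_real (B : ℕ → ℝ) (y : ℝ) (h : LSeriesSummable (fun n => ((|B n| : ℝ) : ℂ)) y) :
    Summable fun n : ℕ => |B (n + 1)| * ((n : ℝ) + 1) ^ (-y) := by
  refine ((summable_nat_add_iff 1).2 h.norm).congr fun n => ?_
  rw [norm_term_eq, if_neg (by omega), Real.rpow_neg (by positivity)]
  simp [div_eq_mul_inv]

lemma E_bd (B : ℕ → ℝ) (y R : ℝ) (n : ℕ) (w : ℂ) (h0 : 0 < w.re) (h1 : y - 1 ≤ w.re)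
    (h2 : ‖w‖ ≤ R) :
    ‖(B (n + 1) : ℂ) * tm n w‖ ≤ R * (R + 1) * (|B (n + 1)| * ((n : ℝ) + 1) ^ (-y)) := by
  have a3 : ‖w - 1‖ ≤ R + 1 := by
    have := norm_sub_le w 1
    rw [norm_one] at this; linarith
  have a4 : ((n : ℝ) + 1) ^ (-w.re - 1) ≤ ((n : ℝ) + 1) ^ (-y) :=
    Real.rpow_le_rpow_of_exponent_le (by linarith [Nat.cast_nonneg (α := ℝ) n]) (by linarith)
  have R0 : 0 ≤ R := (norm_nonneg w).trans h2
  rw [norm_mul, norm_real, Real.norm_eq_abs, mul_left_comm]
  refine mul_le_mul_of_nonneg_left ((tm_bound n w h0).trans ?_) (abs_nonneg _)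
  gcongr

lemma E_diff (B : ℕ → ℝ) (y : ℝ) (hy : 1 ≤ y)
    (h : LSeriesSummable (fun n => ((|B n| : ℝ) : ℂ)) y) :
    DifferentiableOn ℂ (E B) {w | y - 1 < w.re} := by
  intro z hz
  set W : Set ℂ := {w | y - 1 < w.re} ∩ Metric.ball 0 (‖z‖ + 1) with hW
  have hWo : IsOpen W := (isOpen_lt continuous_const continuous_re).inter Metric.isOpen_ball
  have hzW : z ∈ W := ⟨hz, by simp⟩
  have := differentiableOn_tsum_of_summable_norm (F := fun n w => (B (n + 1) : ℂ) * tm n w)
    ((sm_real B y h).mul_left ((‖z‖ + 1) * (‖z‖ + 1 + 1)))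
    (fun n => ((tm_diff n).const_mul _).differentiableOn) hWo (fun n w hw => by
      have a1 : y - 1 < w.re := hw.1
      exact E_bd B y _ n w (by linarith) a1.le (le_of_lt (by simpa using hw.2)))
  exact (this.differentiableAt (hWo.mem_nhds hzW)).differentiableWithinAt

lemma sm_of_abs (B : ℕ → ℝ) (w : ℂ) (h : LSeriesSummable (fun n => ((|B n| : ℝ) : ℂ)) w) :
    LSeriesSummable (fun n => (B n : ℂ)) w :=
  Summable.of_norm (h.norm.congr fun n => by simp [norm_term_eq])

lemma M_eq (B : ℕ → ℝ) (s : ℂ) (hs : 0 < s.re)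
    (h : LSeriesSummable (fun n => ((|B n| : ℝ) : ℂ)) (s + 1)) :
    M B s = s * LSeries (fun n => (B n : ℂ)) (s + 1) - E B (s + 1) := by
  have h1 := sm_of_abs B _ h
  have h2 := (hasSum_nat_add_iff' 1).2 h1.LSeriesHasSum
  simp only [range_one, sum_singleton, term_zero, sub_zero] at h2
  have h3 : Summable fun n : ℕ => (B (n + 1) : ℂ) * tm n (s + 1) :=
    Summable.of_norm_bounded ((sm_real B (s + 1).re (h.of_re_le_re (by simp))).mul_left _)
      fun n => E_bd B _ ‖s + 1‖ n _ (by simp; linarith) (by linarith) le_rfl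
  refine ((h2.mul_left s).sub h3.hasSum).tsum_eq.symm.symm ▸ tsum_congr fun n => ?_
  rw [term_of_ne_zero (by omega), tm, div_eq_mul_inv, ← cpow_neg]
  push_cast
  rw [show 1 - (s + 1) = -s by ring]; ring

lemma ident (B : ℕ → ℝ) (x k : ℝ) (hx : 0 ≤ x) (G R : ℂ → ℂ)
    (hG : DifferentiableOn ℂ G {s | x < s.re}) (hR : DifferentiableOn ℂ R {s | x < s.re})
    (h : abscissaOfAbsConv (fun n => ((|B n| : ℝ) : ℂ)) ≤ (x + 1 : ℝ))
    (hid : ∀ s : ℂ, k < s.re → M B s * G s = R s) :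
    DifferentiableOn ℂ (M B) {s | x < s.re} ∧ ∀ s : ℂ, x < s.re → M B s * G s = R s := by
  have hUo : IsOpen {s : ℂ | x < s.re} := isOpen_lt continuous_const continuous_re
  have a0 : ∀ w : ℂ, x + 1 < w.re → LSeriesSummable (fun n => ((|B n| : ℝ) : ℂ)) w :=
    fun w hw => LSeriesSummable_of_abscissaOfAbsConv_lt_re (h.trans_lt (by exact_mod_cast hw))
  have a1 : abscissaOfAbsConv (fun n => (B n : ℂ)) ≤ (x + 1 : ℝ) :=
    abscissaOfAbsConv_le_of_forall_lt_LSeriesSummable fun y hy => sm_of_abs B _ (a0 y hy)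
  have d1 : DifferentiableOn ℂ (M B) {s | x < s.re} := by
    refine DifferentiableOn.congr (f := fun s =>
      s * LSeries (fun n => (B n : ℂ)) (s + 1) - E B (s + 1)) (fun s hs => ?_)
      fun s hs => M_eq B s (hx.trans_lt hs) (a0 _ (by simpa using hs))
    have hs' : x < s.re := hs
    have b1 := (LSeries_hasDerivAt (f := fun n => (B n : ℂ)) (s := s + 1)
      (a1.trans_lt (by exact_mod_cast (by simpa using hs')))).differentiableAt
    have b2 := (E_diff B (x + 3 / 2) (by linarith) (a0 _ (by simp; linarith))).differentiableAt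
      (x := s + 1) ((isOpen_lt continuous_const continuous_re).mem_nhds (by simp; linarith))
    have b3 : DifferentiableAt ℂ (fun s : ℂ => s + 1) s := by fun_prop
    exact ((differentiableAt_id.mul (DifferentiableAt.comp (f := fun s => s + 1) s b1 b3)).sub
      (DifferentiableAt.comp (f := fun s => s + 1) s b2 b3)).differentiableWithinAt
  refine ⟨d1, fun s hs => ?_⟩
  refine ((d1.mul hG).analyticOnNhd hUo).eqOn_of_preconnected_of_eventuallyEq
    (hR.analyticOnNhd hUo) (convex_halfSpace_re_gt x).isPreconnected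
    (z₀ := ((max x k + 1 : ℝ) : ℂ)) ?_ ?_ hs
  · show x < _
    rw [ofReal_re]; linarith [le_max_left x k]
  · have : {z : ℂ | k < z.re} ∈ 𝓝 ((max x k + 1 : ℝ) : ℂ) :=
      (isOpen_lt continuous_const continuous_re).mem_nhds
        (by show k < _; rw [ofReal_re]; linarith [le_max_right x k])
    filter_upwards [this] with z hz using hid z hz

/-- Landau's oscillation theorem. -/
theorem osc (B : ℕ → ℝ) (n0 : ℕ) (hB : ∀ n ≥ n0, 0 ≤ B n) (C j : ℝ)
    (hC : ∀ n ≠ 0, |B n| ≤ C * (n : ℝ) ^ j) (β k : ℝ) (hβ : 0 ≤ β) (G R : ℂ → ℂ)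
    (hG : DifferentiableOn ℂ G {s | β < s.re}) (hR : DifferentiableOn ℂ R {s | β < s.re})
    (hne : ∀ x : ℝ, β < x → G x ≠ 0) (hid : ∀ s : ℂ, k < s.re → M B s * G s = R s) :
    abscissaOfAbsConv (fun n => ((|B n| : ℝ) : ℂ)) ≤ (β + 1 : ℝ) := by
  set g : ℕ → ℂ := fun n => ((|B n| : ℝ) : ℂ) with hg
  by_contra hc
  rw [not_le] at hc
  have h1 : abscissaOfAbsConv g ≤ j + 1 :=
    abscissaOfAbsConv_le_of_le_const_mul_rpow ⟨C, fun n hn => by simpa [hg] using hC n hn⟩
  obtain ⟨x, hx⟩ : ∃ x : ℝ, abscissaOfAbsConv g = (x + 1 : ℝ) := by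
    refine ⟨(abscissaOfAbsConv g).toReal - 1, ?_⟩
    rw [sub_add_cancel, EReal.coe_toReal (ne_top_of_le_ne_top (EReal.coe_ne_top (j + 1))
      (by exact_mod_cast h1)) (ne_bot_of_gt hc)]
  have hβx : β < x := by
    rw [hx, EReal.coe_lt_coe_iff] at hc; linarith
  have hUo : IsOpen {s : ℂ | β < s.re} := isOpen_lt continuous_const continuous_re
  have sub : {s : ℂ | x < s.re} ⊆ {s | β < s.re} := fun s hs => hβx.trans hs
  obtain ⟨-, hI⟩ := ident B x k (by linarith) G R (hG.mono sub) (hR.mono sub) hx.le hid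
  have hm : {s : ℂ | β < s.re} ∈ 𝓝 (x : ℂ) := hUo.mem_nhds (by simpa using hβx)
  obtain ⟨δ, δ0, hδ⟩ := Metric.mem_nhds_iff.1 (inter_mem (inter_mem hm
    ((hG.differentiableAt hm).continuousAt.eventually_ne (hne x hβx)))
    (Metric.ball_mem_nhds (x : ℂ) (by norm_num : (0 : ℝ) < 1 / 2)))
  set κ : ℕ → ℂ := fun n => ((|B n| - B n : ℝ) : ℂ) with hκ
  have kz : ∀ w, ∀ n ∉ range n0, term κ w n = 0 := fun w n hn => by
    have : κ n = 0 := by
      rw [hκ]; simp only [abs_of_nonneg (hB n (by simpa using hn))]; simp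
    rw [term_def]; simp [this]
  have a0 : ∀ w : ℂ, x + 1 < w.re → LSeriesSummable g w :=
    fun w hw => LSeriesSummable_of_abscissaOfAbsConv_lt_re (hx.trans_lt (by exact_mod_cast hw))
  have hb : ∀ w ∈ Metric.ball ((x + 1 + δ / 4 : ℝ) : ℂ) (δ / 2), w - 1 ∈ Metric.ball (x : ℂ) δ := by
    intro w hw
    rw [mem_ball_iff_norm] at hw ⊢
    have := norm_add_le (w - ((x + 1 + δ / 4 : ℝ) : ℂ)) ((δ / 4 : ℝ) : ℂ)
    rw [norm_real, Real.norm_eq_abs, abs_of_pos (by linarith),
      show w - ((x + 1 + δ / 4 : ℝ) : ℂ) + ((δ / 4 : ℝ) : ℂ) = w - 1 - x by push_cast; ring] at this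
    linarith
  have hL := landau (fun n => |B n|) (fun n => abs_nonneg _) (x + 1 + δ / 4) (δ / 2)
    (x + 1 - δ / 8) (fun w => (R (w - 1) / G (w - 1) + E B w) / (w - 1) +
      ∑ n ∈ range n0, term κ w n) (fun w hw => ?_)
    (hx.trans_lt (by exact_mod_cast (by linarith))) ?_ (by linarith) (by linarith)
  · have := hL.abscissaOfAbsConv_le
    rw [hx, ofReal_re, EReal.coe_le_coe_iff] at this
    linarith
  · obtain ⟨⟨c1, c2⟩, c3⟩ := hδ (hb w hw)
    have c4 : β < (w - 1).re := c1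
    have c5 := hUo.mem_nhds c1
    rw [mem_ball_iff_norm] at c3
    have c6 := (abs_le.1 (abs_re_le_norm (w - 1 - x))).1
    simp only [sub_re, one_re, ofReal_re] at c6
    have b2 := (E_diff B (x + 3 / 2) (by linarith) (a0 _ (by simp; linarith))).differentiableAt
      (x := w) ((isOpen_lt continuous_const continuous_re).mem_nhds (by simp; linarith))
    refine DifferentiableAt.differentiableWithinAt (DifferentiableAt.add (DifferentiableAt.div
      (DifferentiableAt.add (DifferentiableAt.div ((hR.differentiableAt c5).comp w (by fun_prop))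
      ((hG.differentiableAt c5).comp w (by fun_prop)) c2) b2) (by fun_prop) ?_) ?_)
    · intro h0; rw [h0] at c4; simp at c4; linarith
    · exact DifferentiableAt.fun_sum fun n _ => (hasDerivAt_term κ n w).differentiableAt
  · have m1 : {w : ℂ | x + 1 < w.re} ∈ 𝓝 ((x + 1 + δ / 4 : ℝ) : ℂ) :=
      (isOpen_lt continuous_const continuous_re).mem_nhds
        (by show x + 1 < _; rw [ofReal_re]; linarith)
    filter_upwards [m1, Metric.ball_mem_nhds _ (by linarith : 0 < δ / 2)] with w w1 w2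
    obtain ⟨⟨-, c2⟩, -⟩ := hδ (hb w w2)
    have c4 : x < (w - 1).re := by simp; linarith
    have e1 := hI _ c4
    rw [M_eq B _ (by linarith) (by simpa using a0 w w1), sub_add_cancel] at e1
    have c7 : w - 1 ≠ 0 := by intro h0; rw [h0] at c4; simp at c4; linarith
    have e2 : LSeriesHasSum κ w (∑ n ∈ range n0, term κ w n) := hasSum_sum_of_ne_finset_zero (kz w)
    have e3 := ((sm_of_abs B w (a0 w w1)).LSeriesHasSum.add e2).LSeries_eq
    rw [show (fun n => (B n : ℂ)) + κ = g by funext n; simp [hκ, hg]] at e3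
    have c8 : G (w - 1) ≠ 0 := c2
    rw [e3, ← e1]
    field_simp
    ring

theorem osc' (B : ℕ → ℝ) (n0 : ℕ) (hB : ∀ n ≥ n0, 0 ≤ B n) (C j : ℝ)
    (hC : ∀ n ≠ 0, |B n| ≤ C * (n : ℝ) ^ j) (β k : ℝ) (hβ : 0 ≤ β) (G R : ℂ → ℂ)
    (hG : DifferentiableOn ℂ G {s | β < s.re}) (hR : DifferentiableOn ℂ R {s | β < s.re})
    (hne : ∀ x : ℝ, β < x → G x ≠ 0) (hid : ∀ s : ℂ, k < s.re → M B s * G s = R s) :
    DifferentiableOn ℂ (M B) {s | β < s.re} ∧ ∀ s : ℂ, β < s.re → M B s * G s = R s :=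
  ident B β k hβ G R hG hR (osc B n0 hB C j hC β k hβ G R hG hR hne hid) hid

/-- Partial summation. -/
lemma M_sum (c : ℕ → ℝ) (a C j : ℝ) (s : ℂ) (hs : j < s.re)
    (hC : ∀ n ≠ 0, |a - ∑ m ∈ range n, c (m + 1)| ≤ C * (n : ℝ) ^ j) (h0 : 0 < s.re)
    (hc : LSeriesSummable (fun n => (c n : ℂ)) s) :
    M (fun n => a - ∑ m ∈ range n, c (m + 1)) s = a - LSeries (fun n => (c n : ℂ)) s := by
  set B : ℕ → ℝ := fun n => a - ∑ m ∈ range n, c (m + 1) with hB
  have g1 : LSeriesSummable (fun n => ((|B n| : ℝ) : ℂ)) (s + 1) :=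
    LSeriesSummable_of_le_const_mul_rpow (x := j + 1) (by simpa using hs)
      ⟨C, fun n hn => by simpa [hB] using hC n hn⟩
  have h2 := (hasSum_nat_add_iff' 1).2 (sm_of_abs B _ g1).LSeriesHasSum
  have h3 : Summable fun n : ℕ => (B (n + 1) : ℂ) * tm n (s + 1) :=
    Summable.of_norm_bounded ((sm_real B (s + 1).re (g1.of_re_le_re (by simp))).mul_left _)
      fun n => E_bd B _ ‖s + 1‖ n _ (by simp; linarith) (by linarith) le_rfl
  have h4 : Summable fun n : ℕ =>
      (B (n + 1) : ℂ) * (((n : ℂ) + 1) ^ (-s) - ((n : ℂ) + 2) ^ (-s)) := by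
    refine ((h2.summable.mul_left s).sub h3).congr fun n => ?_
    rw [term_of_ne_zero (by omega), tm, div_eq_mul_inv, ← cpow_neg]
    push_cast
    rw [show 1 - (s + 1) = -s by ring]; ring
  have h5 : ∀ N : ℕ, ∑ n ∈ range N, (B (n + 1) : ℂ) * (((n : ℂ) + 1) ^ (-s) - ((n : ℂ) + 2) ^ (-s))
      = a - ∑ n ∈ range N, term (fun n => (c n : ℂ)) s (n + 1) - B N * ((N : ℂ) + 1) ^ (-s) := by
    intro N
    induction N with
    | zero => simp [hB]
    | succ N ih =>
      rw [sum_range_succ, ih, sum_range_succ, term_of_ne_zero (by omega), div_eq_mul_inv,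
        ← cpow_neg]
      simp only [hB, sum_range_succ]
      push_cast
      rw [show (N : ℂ) + 1 + 1 = N + 2 by ring]; ring
  have h6 := (hasSum_nat_add_iff' 1).2 hc.LSeriesHasSum
  simp only [range_one, sum_singleton, term_zero, sub_zero] at h6
  have h7 : Tendsto (fun N : ℕ => (B N : ℂ) * ((N : ℂ) + 1) ^ (-s)) atTop (𝓝 0) := by
    have t1 := ((tendsto_rpow_neg_atTop (y := s.re - j) (by linarith)).comp
      tendsto_natCast_atTop_atTop).const_mul C
    rw [mul_zero] at t1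
    refine squeeze_zero_norm' ?_ t1
    filter_upwards [eventually_ge_atTop 1] with N hN
    have N0 : (0 : ℝ) < N := by positivity
    have := hC N (by omega)
    rw [norm_mul, show (N : ℂ) + 1 = ((N : ℝ) + 1 : ℝ) by push_cast; ring,
      norm_cpow_eq_rpow_re_of_pos (by positivity), norm_real, Real.norm_eq_abs, neg_re]
    simp only [Function.comp]
    rw [neg_sub, sub_eq_add_neg, Real.rpow_add N0, ← mul_assoc]
    exact mul_le_mul this (Real.rpow_le_rpow_of_nonpos N0 (by linarith) (by linarith))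
      (by positivity) ((abs_nonneg _).trans this)
  have h8 := h4.hasSum.tendsto_sum_nat
  simp only [h5] at h8
  simpa [M] using tendsto_nhds_unique h8 ((h6.tendsto_sum_nat.const_sub (a : ℂ)).sub h7)

end Pool.Agent.H59.Land
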