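import Mathlib

/-! Basic tools for the construction of completely multiplicative functions with small partial
sums: completely multiplicative extensions, a contraction argument, balanced signs and some
divisor lemmas. -/

set_option autoImplicit false

namespace Pool.Agent.H59.MO

open Finset Filter Topology

/-- The completely multiplicative function with the values `a p` at the primes. -/
noncomputable def cm (a : ℕ → ℝ) (n : ℕ) : ℝ := (n.primeFactorsList.map a).prod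

lemma cm_one (a : ℕ → ℝ) : cm a 1 = 1 := by simp [cm]

lemma cm_prime (a : ℕ → ℝ) {p : ℕ} (hp : p.Prime) : cm a p = a p := by
  simp [cm, Nat.primeFactorsList_prime hp]

lemma cm_mul (a : ℕ → ℝ) {m n : ℕ} (hm : m ≠ 0) (hn : n ≠ 0) :
    cm a (m * n) = cm a m * cm a n := by
  unfold cm
  rw [((Nat.perm_primeFactorsList_mul hm hn).map a).prod_eq, List.map_append, List.prod_append]

/-- Induction over the prime factorisation. -/
lemma prime_ind {P : ℕ → Prop} (h1 : P 1)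
    (hs : ∀ p n : ℕ, p.Prime → n ≠ 0 → P n → P (p * n)) : ∀ n : ℕ, n ≠ 0 → P n := by
  intro n
  induction n using induction_on_primes with
  | zero => intro h; exact absurd rfl h
  | one => intro _; exact h1
  | prime_mul p a hp ih =>
    intro h
    have ha : a ≠ 0 := fun h0 => h (by rw [h0, mul_zero])
    exact hs p a hp ha (ih ha)

lemma cm_pm (a : ℕ → ℝ) {p n : ℕ} (hp : p.Prime) (hn : n ≠ 0) :
    cm a (p * n) = a p * cm a n := by
  rw [cm_mul a hp.ne_zero hn, cm_prime a hp]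

lemma cm_nonneg (a : ℕ → ℝ) (ha : ∀ p : ℕ, p.Prime → 0 ≤ a p) (n : ℕ) (hn : n ≠ 0) :
    0 ≤ cm a n := by
  refine prime_ind (P := fun n => 0 ≤ cm a n) (by simp [cm_one]) ?_ n hn
  intro p n hp hn ih
  rw [cm_pm a hp hn]
  exact mul_nonneg (ha p hp) ih

lemma cm_abs_le (a A : ℕ → ℝ) (n : ℕ) (hn : n ≠ 0)
    (h : ∀ p : ℕ, p.Prime → p ∣ n → |a p| ≤ A p) : |cm a n| ≤ cm A n := by
  revert h
  refine prime_ind (P := fun n => (∀ p : ℕ, p.Prime → p ∣ n → |a p| ≤ A p) →
    |cm a n| ≤ cm A n) (by simp [cm_one]) ?_ n hn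
  intro p n hp hn ih h
  rw [cm_pm a hp hn, cm_pm A hp hn, abs_mul]
  have h1 := h p hp (Dvd.intro _ rfl)
  exact mul_le_mul h1 (ih (fun q hq hqn => h q hq (Dvd.dvd.mul_left hqn p))) (abs_nonneg _)
    ((abs_nonneg _).trans h1)

lemma cm_lip (a b A : ℕ → ℝ) (D : ℝ) (hD : 0 ≤ D)
    (ha : ∀ p : ℕ, p.Prime → 2 * |a p| ≤ A p) (hb : ∀ p : ℕ, p.Prime → 2 * |b p| ≤ A p)
    (hab : ∀ p : ℕ, p.Prime → 2 * |a p - b p| ≤ A p * D) (n : ℕ) (hn : n ≠ 0) :
    |cm a n - cm b n| ≤ cm A n * D := by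
  refine prime_ind (P := fun n => |cm a n - cm b n| ≤ cm A n * D) (by simp [cm_one, hD]) ?_ n hn
  intro p n hp hn ih
  rw [cm_pm a hp hn, cm_pm b hp hn, cm_pm A hp hn]
  have h1 := ha p hp
  have h2 := hab p hp
  have h3 : |cm b n| ≤ cm A n := cm_abs_le b A n hn (fun q hq _ => by
    have := hb q hq; have := abs_nonneg (b q); linarith)
  have e : a p * cm a n - b p * cm b n = a p * (cm a n - cm b n) + (a p - b p) * cm b n := by ring
  rw [e]
  refine (abs_add_le _ _).trans ?_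
  rw [abs_mul, abs_mul]
  have h4 := abs_nonneg (a p)
  have h5 := abs_nonneg (a p - b p)
  have h6 := abs_nonneg (cm b n)
  have h7 := abs_nonneg (cm a n - cm b n)
  have h8 : |a p| * |cm a n - cm b n| ≤ (A p / 2) * (cm A n * D) :=
    mul_le_mul (by linarith) ih h7 (by linarith)
  have h9 : |a p - b p| * |cm b n| ≤ (A p * D / 2) * cm A n :=
    mul_le_mul (by linarith) h3 h6 (by linarith)
  nlinarith

lemma cm_le_rpow (A : ℕ → ℝ) (ω : ℝ) (h0 : ∀ p : ℕ, p.Prime → 0 ≤ A p)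
    (h : ∀ p : ℕ, p.Prime → A p ≤ (p : ℝ) ^ ω) (n : ℕ) (hn : n ≠ 0) :
    cm A n ≤ (n : ℝ) ^ ω := by
  refine prime_ind (P := fun n => cm A n ≤ (n : ℝ) ^ ω) (by simp [cm_one]) ?_ n hn
  intro p n hp hn ih
  rw [cm_pm A hp hn, Nat.cast_mul, Real.mul_rpow (Nat.cast_nonneg _) (Nat.cast_nonneg _)]
  exact mul_le_mul (h p hp) ih (cm_nonneg A h0 n hn) (Real.rpow_nonneg (Nat.cast_nonneg _) _)

/-- The sum of a nonnegative completely multiplicative function with a small sum over primes. -/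
lemma cm_sum (F : ℕ → ℝ) (hF1 : F 1 = 1) (hF0 : ∀ n, n ≠ 0 → 0 ≤ F n)
    (hF : ∀ p n : ℕ, p.Prime → n ≠ 0 → F (p * n) = F p * F n) (N : ℕ) (σ : ℝ) (hσ : σ ≤ 1 / 2)
    (hs : ∑ p ∈ (Icc 1 N).filter Nat.Prime, F p ≤ σ) :
    ∑ n ∈ Icc 2 N, F n ≤ 2 * σ := by
  rcases Nat.eq_zero_or_pos N with rfl | hN
  · simp at hs ⊢; linarith
  have e : ∑ n ∈ Icc 1 N, F n = 1 + ∑ n ∈ Icc 2 N, F n := by
    rw [← Finset.add_sum_Ioc_eq_sum_Icc hN, hF1]; rfl
  set S := ∑ n ∈ Icc 2 N, F n with hS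
  have S0 : 0 ≤ S := Finset.sum_nonneg (fun n hn => hF0 n (by have := (mem_Icc.1 hn).1; omega))
  have key : S ≤ (∑ p ∈ (Icc 1 N).filter Nat.Prime, F p) * ∑ n ∈ Icc 1 N, F n := by
    rw [Finset.sum_mul_sum, ← Finset.sum_product']
    have h1 : S = ∑ x ∈ (Icc 2 N).image (fun n => (n.minFac, n / n.minFac)), F x.1 * F x.2 := by
      rw [Finset.sum_image]
      · refine Finset.sum_congr rfl (fun n hn => ?_)
        have hn2 := (mem_Icc.1 hn).1
        have hp := Nat.minFac_prime (n := n) (by omega)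
        have hd := Nat.mul_div_cancel' (Nat.minFac_dvd n)
        have : n / n.minFac ≠ 0 := by
          intro h0; rw [h0] at hd; omega
        rw [← hF _ _ hp this, hd]
      · intro a _ b _ hab
        simp only [Prod.mk.injEq] at hab
        rw [← Nat.mul_div_cancel' (Nat.minFac_dvd a), ← Nat.mul_div_cancel' (Nat.minFac_dvd b),
          hab.2]
        congr 1
        exact hab.1
    rw [h1]
    refine Finset.sum_le_sum_of_subset_of_nonneg ?_ ?_
    · intro x hx
      obtain ⟨n, hn, rfl⟩ := Finset.mem_image.1 hx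
      obtain ⟨hn2, hnN⟩ := mem_Icc.1 hn
      have hp := Nat.minFac_prime (n := n) (by omega)
      have hd := Nat.mul_div_cancel' (Nat.minFac_dvd n)
      have h3 : n / n.minFac ≠ 0 := by
        intro h0; rw [h0] at hd; omega
      have h4 := Nat.minFac_le (n := n) (by omega)
      have h5 := Nat.div_le_self n n.minFac
      have := hp.pos
      simp only [Finset.mem_product, Finset.mem_filter, mem_Icc]
      exact ⟨⟨⟨this, by omega⟩, hp⟩, Nat.pos_of_ne_zero h3, h5.trans hnN⟩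
    · intro x hx _
      simp only [Finset.mem_product, Finset.mem_filter, mem_Icc] at hx
      exact mul_nonneg (hF0 _ (by omega)) (hF0 _ (by omega))
  rw [e] at key
  have : (∑ p ∈ (Icc 1 N).filter Nat.Prime, F p) * (1 + S) ≤ σ * (1 + S) :=
    mul_le_mul_of_nonneg_right hs (by linarith)
  nlinarith

/-- A contraction argument on the cube. -/
theorem fix (Φ : (ℕ → ℝ) → ℕ → ℝ) (C : ℕ → ℝ) (hC : ∀ i, 0 < C i)
    (h0 : ∀ i, |Φ 0 i| ≤ C i / 2)
    (hL : ∀ w w' : ℕ → ℝ, (∀ i, |w i| ≤ 1) → (∀ i, |w' i| ≤ 1) → ∀ D : ℝ, 0 ≤ D →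
      (∀ i, |w i - w' i| ≤ D) → ∀ i, |Φ w i - Φ w' i - C i * (w i - w' i)| ≤ C i / 2 * D) :
    ∃ w : ℕ → ℝ, (∀ i, |w i| ≤ 1) ∧ ∀ i, Φ w i = 0 := by
  set Tm : (ℕ → ℝ) → ℕ → ℝ := fun w i => w i - Φ w i / C i with hT
  have hT1 : ∀ w w' : ℕ → ℝ, (∀ i, |w i| ≤ 1) → (∀ i, |w' i| ≤ 1) → ∀ D : ℝ, 0 ≤ D →
      (∀ i, |w i - w' i| ≤ D) → ∀ i, |Tm w i - Tm w' i| ≤ D / 2 := by
    intro w w' hw hw' D hD hd i
    have h := hL w w' hw hw' D hD hd i
    have hc := hC i
    have e : Tm w i - Tm w' i = -((Φ w i - Φ w' i - C i * (w i - w' i)) / C i) := by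
      simp only [hT]; field_simp; ring
    rw [e, abs_neg, abs_div, abs_of_pos hc, div_le_iff₀ hc]
    linarith
  have hT2 : ∀ w : ℕ → ℝ, (∀ i, |w i| ≤ 1) → ∀ i, |Tm w i| ≤ 1 := by
    intro w hw i
    have h1 := hT1 w 0 hw (by simp) 1 zero_le_one (by simpa using hw) i
    have hc := hC i
    have h2 : |Tm 0 i| ≤ 1 / 2 := by
      simp only [hT, Pi.zero_apply, zero_sub, abs_neg]
      rw [abs_div, abs_of_pos hc, div_le_iff₀ hc]
      linarith [h0 i]
    have := abs_add_le (Tm w i - Tm 0 i) (Tm 0 i)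
    rw [sub_add_cancel] at this
    linarith
  set u : ℕ → ℕ → ℝ := fun k => Tm^[k] 0 with hu
  have us : ∀ k, u (k + 1) = Tm (u k) := fun k => by
    simp only [hu]; rw [Function.iterate_succ_apply']
  have u1 : ∀ k i, |u k i| ≤ 1 := by
    intro k
    induction k with
    | zero => intro i; simp [hu]
    | succ k ih => rw [us]; exact hT2 _ ih
  have u2 : ∀ k i, |u k i - u (k + 1) i| ≤ 2 / 2 ^ k := by
    intro k
    induction k with
    | zero =>
      intro i
      have := abs_sub (u 0 i) (u (0 + 1) i)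
      have := u1 0 i
      have := u1 (0 + 1) i
      norm_num at *; linarith
    | succ k ih =>
      intro i
      rw [us (k + 1)]
      nth_rewrite 1 [us k]
      have := hT1 _ _ (u1 k) (u1 (k + 1)) _ (by positivity) ih i
      rw [pow_succ]
      calc _ ≤ 2 / 2 ^ k / 2 := this
        _ = _ := by field_simp
  have u3 : ∀ k i, dist (u k i) (u (k + 1) i) ≤ 4 / 2 / 2 ^ k := fun k i => by
    rw [Real.dist_eq]; convert u2 k i using 2; norm_num
  have hc : ∀ i, ∃ l, Tendsto (fun k => u k i) atTop (𝓝 l) := fun i =>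
    cauchySeq_tendsto_of_complete (cauchySeq_of_le_geometric_two (fun k => u3 k i))
  choose w hw using hc
  have w1 : ∀ i, |w i| ≤ 1 := fun i =>
    le_of_tendsto' ((hw i).abs) (fun k => u1 k i)
  have w2 : ∀ k i, |u k i - w i| ≤ 4 / 2 ^ k := fun k i => by
    have := dist_le_of_le_geometric_two_of_tendsto (fun k => u3 k i) (hw i) k
    rwa [Real.dist_eq] at this
  refine ⟨w, w1, fun i => ?_⟩
  have hc := hC i
  have h3 : ∀ k : ℕ, |Tm w i - w i| ≤ 4 / 2 ^ k := by
    intro k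
    have a1 := hT1 _ _ (u1 k) w1 _ (by positivity) (w2 k) i
    have a2 := w2 (k + 1) i
    rw [us, pow_succ] at a2
    have a3 := abs_sub_le (Tm w i) (Tm (u k) i) (w i)
    rw [abs_sub_comm (Tm w i) (Tm (u k) i)] at a3
    have e : (4 : ℝ) / (2 ^ k * 2) = 4 / 2 ^ k / 2 := by field_simp
    linarith
  have h4 : Tendsto (fun k : ℕ => (4 : ℝ) / 2 ^ k) atTop (𝓝 0) :=
    tendsto_const_nhds.div_atTop (tendsto_pow_atTop_atTop_of_one_lt one_lt_two)
  have h5 : |Tm w i - w i| ≤ 0 := ge_of_tendsto' h4 h3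
  have h6 : Tm w i - w i = 0 := abs_nonpos_iff.1 h5
  simp only [hT] at h6
  have : Φ w i / C i = 0 := by linarith
  rcases div_eq_zero_iff.1 this with h | h
  · exact h
  · exact absurd h hc.ne'

/-- Balanced signs. -/
lemma signs (Q : Finset ℕ) (e : ℕ → ℝ) (M : ℝ) (hM : 0 ≤ M) (he : ∀ p ∈ Q, |e p| ≤ M) :
    ∃ s : ℕ → ℝ, (∀ p, s p = 1 ∨ s p = -1) ∧ |∑ p ∈ Q, s p * e p| ≤ M := by
  induction Q using Finset.induction_on with
  | empty => exact ⟨fun _ => 1, fun _ => Or.inl rfl, by simpa using hM⟩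
  | insert a Q ha ih =>
    obtain ⟨s, hs, hb⟩ := ih (fun p hp => he p (Finset.mem_insert_of_mem hp))
    have hea := he a (Finset.mem_insert_self a Q)
    have key : ∀ t : ℝ, ∑ p ∈ insert a Q, (Function.update s a t) p * e p =
        t * e a + ∑ p ∈ Q, s p * e p := by
      intro t
      rw [Finset.sum_insert ha, Function.update_self]
      congr 1
      refine Finset.sum_congr rfl (fun p hp => ?_)
      rw [Function.update_of_ne (fun h => ha (by rw [← h]; exact hp))]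
    have hs' : ∀ t : ℝ, t = 1 ∨ t = -1 → ∀ p, Function.update s a t p = 1 ∨
        Function.update s a t p = -1 := by
      intro t ht p
      by_cases h : p = a
      · rw [h, Function.update_self]; exact ht
      · rw [Function.update_of_ne h]; exact hs p
    rw [abs_le] at hb hea
    by_cases h : 0 ≤ e a * ∑ p ∈ Q, s p * e p
    · refine ⟨Function.update s a (-1), hs' _ (Or.inr rfl), ?_⟩
      rw [key, abs_le]
      rcases mul_nonneg_iff.1 h with h | h <;> constructor <;> linarith [h.1, h.2]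
    · refine ⟨Function.update s a 1, hs' _ (Or.inl rfl), ?_⟩
      rw [key, abs_le]
      push Not at h
      rcases mul_neg_iff.1 h with h | h <;> constructor <;> linarith [h.1, h.2]

/-- A smooth number has a divisor of intermediate size. -/
lemma mid_divisor (t N : ℕ) (ht : 2 ≤ t) (hN : t ≤ N)
    (hs : ∀ q : ℕ, q.Prime → q ∣ N → q < t) : ∃ a, a ∣ N ∧ t ≤ a ∧ a < t ^ 2 := by
  classical
  have hex : ∃ a, a ∣ N ∧ t ≤ a := ⟨N, dvd_rfl, hN⟩
  obtain ⟨h1, h2⟩ := Nat.find_spec hex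
  set a := Nat.find hex with ha
  refine ⟨a, h1, h2, ?_⟩
  have hp := Nat.minFac_prime (n := a) (by omega)
  obtain ⟨b, hb⟩ := Nat.minFac_dvd a
  have hq := hs _ hp ((Nat.minFac_dvd a).trans h1)
  have hb0 : b ≠ 0 := by rintro rfl; omega
  have hba : b < a := by
    have := hp.two_le
    rw [hb]; nlinarith [Nat.pos_of_ne_zero hb0]
  have := Nat.find_min hex hba
  have hbt : b < t := by
    by_contra hc
    exact this ⟨(Dvd.intro_left _ hb.symm).trans h1, by omega⟩
  rw [hb, sq]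
  exact Nat.mul_lt_mul'' hq hbt

/-- Splitting a number according to a set of primes. -/
lemma split (R : ℕ → Prop) (n : ℕ) (hn : n ≠ 0) : ∃ d e : ℕ, n = d * e ∧
    (∀ q : ℕ, q.Prime → q ∣ d → R q) ∧ (∀ q : ℕ, q.Prime → q ∣ e → ¬ R q) := by
  refine prime_ind (P := fun n => ∃ d e : ℕ, n = d * e ∧
    (∀ q : ℕ, q.Prime → q ∣ d → R q) ∧ (∀ q : ℕ, q.Prime → q ∣ e → ¬ R q)) ?_ ?_ n hn
  · refine ⟨1, 1, rfl, ?_, ?_⟩ <;> intro q hq h <;>
      exact absurd (Nat.le_of_dvd one_pos h) (by have := hq.two_le; omega)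
  · rintro p n hp - ⟨d, e, rfl, h1, h2⟩
    by_cases h : R p
    · refine ⟨p * d, e, by ring, fun q hq hd => ?_, h2⟩
      rcases (Nat.Prime.dvd_mul hq).1 hd with h3 | h3
      · rwa [(Nat.prime_dvd_prime_iff_eq hq hp).1 h3]
      · exact h1 q hq h3
    · refine ⟨d, p * e, by ring, h1, fun q hq hd => ?_⟩
      rcases (Nat.Prime.dvd_mul hq).1 hd with h3 | h3
      · rwa [(Nat.prime_dvd_prime_iff_eq hq hp).1 h3]
      · exact h2 q hq h3

/-- The trichotomy for the multiplicative structure of `n` relative to a set of primes. -/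
lemma trichotomy (R : ℕ → Prop) (t h n : ℕ) (ht : 2 ≤ t) (hh : t ^ 2 ≤ h) (hn : t ^ 5 ≤ n) :
    (∃ k p : ℕ, p.Prime ∧ ¬ R p ∧ n = k * p ∧ k ≤ t ^ 4) ∨
    (∃ d : ℕ, d ∣ n ∧ t ≤ d ∧ d ≤ h ∧ ∀ q : ℕ, q.Prime → q ∣ d → R q) ∨
    (∃ q : ℕ, q.Prime ∧ R q ∧ q ∣ n ∧ h < q) ∨
    (∃ d a b : ℕ, n = d * (a * b) ∧ d ≤ h ∧ t ≤ a ∧ t ≤ b ∧
      ∀ q : ℕ, q.Prime → q ∣ a * b → ¬ R q) := by
  have tp : 0 < t := by omega
  have hn0 : n ≠ 0 := by
    have := pow_pos tp 5; omega
  obtain ⟨d, e, rfl, h1, h2⟩ := split R n hn0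
  have tt : t ≤ t ^ 2 := by nlinarith
  by_cases hd : t ^ 2 ≤ d
  · by_cases hq : ∃ q : ℕ, q.Prime ∧ q ∣ d ∧ t ≤ q
    · obtain ⟨q, hq, hqd, hqt⟩ := hq
      by_cases hqh : q ≤ h
      · refine Or.inr (Or.inl ⟨q, hqd.mul_right e, hqt, hqh, fun r hr hrq => ?_⟩)
        exact h1 r hr (hrq.trans hqd)
      · exact Or.inr (Or.inr (Or.inl ⟨q, hq, h1 q hq hqd, hqd.mul_right e, by omega⟩))
    · push Not at hq
      obtain ⟨a, ha, ha1, ha2⟩ := mid_divisor t d ht (by omega) hq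
      exact Or.inr (Or.inl ⟨a, ha.mul_right e, ha1, by omega, fun r hr hra =>
        h1 r hr (hra.trans ha)⟩)
  · push Not at hd
    have he : t ^ 3 ≤ e := by
      by_contra hc
      push Not at hc
      have := Nat.mul_lt_mul'' hd hc
      have e5 : t ^ 2 * t ^ 3 = t ^ 5 := by ring
      omega
    have t3 : t ^ 2 ≤ t ^ 3 := Nat.pow_le_pow_right tp (by norm_num)
    by_cases hq : ∃ q : ℕ, q.Prime ∧ q ∣ e ∧ t ≤ q
    · obtain ⟨q, hq, ⟨b, rfl⟩, hqt⟩ := hq
      by_cases hb : t ≤ b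
      · exact Or.inr (Or.inr (Or.inr ⟨d, q, b, rfl, by omega, hqt, hb, h2⟩))
      · refine Or.inl ⟨d * b, q, hq, h2 q hq (Dvd.intro _ rfl), by ring, ?_⟩
        push Not at hb
        have := Nat.mul_lt_mul'' hd hb
        have e3 : t ^ 2 * t = t ^ 3 := by ring
        have t4 : t ^ 3 ≤ t ^ 4 := Nat.pow_le_pow_right tp (by norm_num)
        omega
    · push Not at hq
      obtain ⟨a, ⟨b, rfl⟩, ha1, ha2⟩ := mid_divisor t e ht (by omega) hq
      refine Or.inr (Or.inr (Or.inr ⟨d, a, b, rfl, by omega, ha1, ?_, h2⟩))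
      by_contra hc
      push Not at hc
      have := Nat.mul_lt_mul'' ha2 hc
      have e3 : t ^ 2 * t = t ^ 3 := by ring
      omega

/-- The slowly growing weight `1 + log n`. -/
noncomputable def ell (n : ℕ) : ℝ := 1 + Real.log n

lemma one_le_ell (n : ℕ) : 1 ≤ ell n := by
  have := Real.log_natCast_nonneg n
  unfold ell; linarith

lemma ell_mono {a b : ℕ} (ha : a ≠ 0) (h : a ≤ b) : ell a ≤ ell b := by
  unfold ell
  have : Real.log a ≤ Real.log b :=
    Real.log_le_log (by exact_mod_cast Nat.pos_of_ne_zero ha) (by exact_mod_cast h)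
  linarith

lemma ell_mul {a b : ℕ} (ha : a ≠ 0) (hb : b ≠ 0) : ell (a * b) ≤ ell a * ell b := by
  unfold ell
  rw [Nat.cast_mul, Real.log_mul (by exact_mod_cast ha) (by exact_mod_cast hb)]
  have := mul_nonneg (Real.log_natCast_nonneg a) (Real.log_natCast_nonneg b)
  nlinarith

lemma sum_ell (N : ℕ) : ∑ n ∈ Icc 2 N, 1 / ell n ^ 2 / n ≤ 1 := by
  have key : ∀ N : ℕ, ∑ n ∈ Icc 2 (N + 1), 1 / ell n ^ 2 / n ≤ 1 - 1 / ell (N + 1) := by
    intro N
    induction N with
    | zero => simp [ell]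
    | succ N ih =>
      rw [Finset.sum_Icc_succ_top (by omega)]
      have a1 := one_le_ell (N + 1)
      have a2 : ell (N + 1) ≤ ell (N + 1 + 1) := ell_mono (by omega) (by omega)
      have hp : (0 : ℝ) < (N + 1 : ℕ) := by positivity
      have hp2 : (0 : ℝ) < (N + 1 + 1 : ℕ) := by positivity
      have a3 : 1 / ((N + 1 + 1 : ℕ) : ℝ) ≤ ell (N + 1 + 1) - ell (N + 1) := by
        have := Real.log_le_sub_one_of_pos (x := ((N + 1 : ℕ) : ℝ) / (N + 1 + 1 : ℕ))
          (by positivity)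
        rw [Real.log_div hp.ne' hp2.ne'] at this
        have e : ((N + 1 : ℕ) : ℝ) / (N + 1 + 1 : ℕ) - 1 = -(1 / ((N + 1 + 1 : ℕ) : ℝ)) := by
          field_simp; push_cast; ring
        unfold ell; linarith
      have a4 : 1 / ell (N + 1 + 1) ^ 2 / ((N + 1 + 1 : ℕ) : ℝ) ≤
          1 / ell (N + 1) - 1 / ell (N + 1 + 1) := by
        set x := ell (N + 1)
        set y := ell (N + 1 + 1)
        have hx : 0 < x := by linarith
        have hy : 0 < y := by linarith
        have e : 1 / x - 1 / y = (y - x) / (x * y) := by field_simp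
        rw [e, div_div, mul_comm (y ^ 2), ← div_div]
        exact div_le_div₀ (by linarith) a3 (by positivity) (by nlinarith)
      linarith
  rcases Nat.eq_zero_or_pos N with rfl | hN
  · simp
  · obtain ⟨M, rfl⟩ : ∃ M, N = M + 1 := ⟨N - 1, by omega⟩
    have := key M
    have h2 : 0 ≤ 1 / ell (M + 1) := by have := one_le_ell (M + 1); positivity
    linarith

end Pool.Agent.H59.MO
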