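import Mathlib
import Pool.Agent.H59.MO1

/-! The data of the construction: cells, pools and the parametrised family of completely
multiplicative functions. -/

set_option autoImplicit false

namespace Pool.Agent.H59.MO

open Finset Filter Topology

/-- The dyadic block of `n`. -/
def lg (n : ℕ) : ℕ := Nat.log 2 n

lemma lg_le {n : ℕ} (hn : n ≠ 0) : 2 ^ lg n ≤ n := Nat.pow_log_le_self 2 hn

lemma lt_lg (n : ℕ) : n < 2 ^ (lg n + 1) := Nat.lt_pow_succ_log_self (by norm_num) n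

lemma lg_eq {n j : ℕ} (h1 : 2 ^ j ≤ n) (h2 : n < 2 ^ (j + 1)) : lg n = j :=
  Nat.log_eq_of_pow_le_of_lt_pow h1 h2

lemma lg_mono {a b : ℕ} (h : a ≤ b) : lg a ≤ lg b := Nat.log_mono_right h

/-- The parameters of the construction. -/
structure Par where
  j0 : ℕ
  r0 : ℕ
  e0 : ℝ
  e1 : ℝ
  β : ℝ
  ω : ℝ
  Cb : ℝ
  h : ℕ → ℕ
  t : ℕ → ℕ
  Y : ℕ → ℕ
  V : ℕ → ℝ
  η : ℕ → ℝ
  B : ℕ → Prop

namespace Par

variable (P : Par)

/-- Left end point of the cell of `n`. -/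
def base (n : ℕ) : ℕ := n / P.h (lg n) * P.h (lg n)

/-- The cell with left end point `L`. -/
def cell (L : ℕ) : Finset ℕ := Ico L (L + P.h (lg L))

/-- Left end points of cells. -/
def IsCell (L : ℕ) : Prop := 1 ≤ L ∧ P.h (lg L) ∣ L

/-- No small prime factors. -/
def rough (j n : ℕ) : Prop := ∀ q : ℕ, q.Prime → q ∣ n → P.t j ^ 4 < q

/-- Elements of bad cells with a large prime factor and no small one. -/
def Raw (n p : ℕ) : Prop :=
  P.B (P.base n) ∧ P.rough (lg n) n ∧ p.Prime ∧ p ∣ n ∧ P.Y (lg n) < p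

/-- Pool primes. -/
def PP (p : ℕ) : Prop := ∃ n, P.Raw n p

/-- The exceptional integers. -/
def Cnt (n : ℕ) : Prop :=
  (∃ n0 q : ℕ, P.Raw n0 q ∧ q ∣ n ∧ P.h (lg n) < q ∧
    ¬ ∃ k : ℕ, k ≤ P.t (lg n) ^ 4 ∧ n = k * n0) ∨
  (∃ d : ℕ, d ∣ n ∧ P.t (lg n) ≤ d ∧ d ≤ P.h (lg n) ∧ ∀ q : ℕ, q.Prime → q ∣ d → P.PP q)

/-- Elements of the pools. -/
def Clean (n : ℕ) : Prop := (∃ p, P.Raw n p) ∧ ¬ P.Cnt n

open Classical in
/-- The pool of a cell. -/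
noncomputable def Q (L : ℕ) : Finset ℕ := (P.cell L).filter P.Clean

open Classical in
/-- The normal primes of a cell. -/
noncomputable def np (L : ℕ) : Finset ℕ := (P.cell L).filter (fun p => p.Prime ∧ ¬ P.PP p)

/-- Nominal capacity. -/
noncomputable def N (j : ℕ) : ℝ := P.e0 * P.h j / (j : ℝ) ^ 3

/-- Size of normal primes. -/
noncomputable def c (p : ℕ) : ℝ := P.e0 / ell p ^ 2

/-- Weight of a pool element. -/
noncomputable def mu (L : ℕ) : ℝ := P.N (lg L) / (P.Q L).card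

/-- Balanced signs of a cell. -/
noncomputable def sg (L : ℕ) : ℕ → ℝ :=
  Classical.epsilon (fun s : ℕ → ℝ => (∀ p, s p = 1 ∨ s p = -1) ∧
    |∑ p ∈ P.np L, s p * (P.c p * (p : ℝ) ^ (-P.β))| ≤ ((2 : ℝ) ^ lg L) ^ (-P.β))

/-- The sign of a prime. -/
noncomputable def s (p : ℕ) : ℝ := P.sg (P.base p) p

/-- The pool element of a pool prime. -/
noncomputable def own (p : ℕ) : ℕ := Classical.epsilon (fun n => P.Raw n p ∧ ¬ P.Cnt n)

open Classical in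
/-- The coefficient of a pool prime. -/
noncomputable def b (p : ℕ) : ℝ :=
  if ∃ n, P.Raw n p ∧ ¬ P.Cnt n then
    cm P.s (P.own p / p) * P.mu (P.base (P.own p)) / cm P.c (P.own p / p) else 0

open Classical in
/-- The normalised values at primes. -/
noncomputable def g (w : ℕ → ℝ) (p : ℕ) : ℝ :=
  if P.PP p then P.b p * w (P.base (P.own p)) else
    P.c p * (P.s p + if P.j0 ≤ lg p ∧ ¬ P.B (P.base p) then P.e1 * w (P.base p) else 0)

open Classical in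
/-- The envelope at primes. -/
noncomputable def G (p : ℕ) : ℝ := if P.PP p then 2 * |P.b p| else 4 * P.c p

/-- The completely multiplicative function attached to the parameter `w`. -/
noncomputable def f (w : ℕ → ℝ) (n : ℕ) : ℝ := cm (P.g w) n * (n : ℝ) ^ (-P.β)

open Classical in
/-- The capacity of a cell. -/
noncomputable def C (L : ℕ) : ℝ :=
  if P.IsCell L ∧ P.j0 ≤ lg L then
    (if P.B L then P.mu L * ∑ n ∈ P.Q L, (n : ℝ) ^ (-P.β)
      else P.e1 * ∑ p ∈ P.np L, P.c p * (p : ℝ) ^ (-P.β)) else 1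

open Classical in
/-- The equations. -/
noncomputable def Φ (w : ℕ → ℝ) (L : ℕ) : ℝ :=
  if P.IsCell L ∧ P.j0 ≤ lg L then
    ∑ n ∈ P.cell L, P.f w n + (if lg L = 2 * P.j0 then
      (P.h (2 * P.j0) : ℝ) / 2 ^ (2 * P.j0) * ∑ n ∈ Ico 1 (2 ^ P.j0), P.f w n else 0)
  else w L

open Classical in
/-- The hypotheses on the parameters. -/
structure Hyp : Prop where
  hdiv : ∀ j, 0 < P.h j ∧ P.h j ∣ 2 ^ j
  hB : ∀ L, P.B L → P.IsCell L ∧ P.j0 ≤ lg L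
  hj0 : 6 ≤ P.j0
  he0 : 0 < P.e0
  he0' : P.e0 ≤ 1 / 10
  he1 : 0 < P.e1
  hr0 : 1 ≤ P.r0
  he1' : 16 * P.r0 * P.e1 ≤ 1
  hβ : 0 ≤ P.β
  hβ' : P.β ≤ 1
  hω : 0 ≤ P.ω
  hCb : 0 ≤ P.Cb
  small : 10 * P.e0 * (36 * P.Cb + 2592 * 4 ^ P.r0) ≤ P.e1 / 16000 / 32
  ht2 : ∀ j, P.j0 ≤ j → 2 ≤ P.t j
  hth : ∀ j, P.j0 ≤ j → P.t j ^ 2 ≤ P.h j
  ht8 : ∀ j, P.j0 ≤ j → P.t j ^ 8 ≤ 2 ^ j
  hh2 : ∀ j, P.j0 ≤ j → 2 * P.h j ≤ 2 ^ j
  hY : ∀ j, P.j0 ≤ j → 2 ^ (j + 1) ≤ P.Y j ^ 2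
  hr : ∀ j, P.j0 ≤ j → 2 ^ (j + 1) ≤ (P.t j ^ 4) ^ P.r0
  hV : ∀ j, P.j0 ≤ j → 0 < P.V j
  good : ∀ L, P.IsCell L → P.j0 ≤ lg L → ¬ P.B L →
    (P.h (lg L) : ℝ) / (2000 * lg L) ≤ ((P.cell L).filter Nat.Prime).card
  pool : ∀ L, P.B L → (P.h (lg L) : ℝ) * P.V (lg L) / 4 ≤
    ((P.cell L).filter (fun n => ∃ p, P.Raw n p)).card
  roughc : ∀ L, P.IsCell L → P.j0 ≤ lg L → ∀ k, 2 ≤ k → k ≤ P.t (lg L) ^ 4 → ∀ j', P.j0 ≤ j' →
    j' ≤ lg L → 2 ^ lg L < 2 ^ (j' + 1) * P.t (lg L) ^ 4 →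
    (((range (L + P.h (lg L))).filter (fun n => k * n ∈ P.cell L ∧ P.rough j' n)).card : ℝ) ≤
      3 * (P.h (lg L) / k) * P.V j'
  bt : ∀ L, P.IsCell L → P.j0 ≤ lg L → ∀ k, 2 ≤ k → k ≤ P.t (lg L) ^ 4 →
    (((range (L + P.h (lg L))).filter (fun p => k * p ∈ P.cell L ∧ p.Prime)).card : ℝ) ≤
      P.Cb * (P.h (lg L) / k) / lg L
  cnt : ∀ L, P.IsCell L → P.j0 ≤ lg L → (((P.cell L).filter P.Cnt).card : ℝ) ≤ P.η (lg L)
  sparse : ∀ M, ∑ p ∈ (Icc 1 M).filter (fun p : ℕ => p.Prime ∧ P.PP p), (p : ℝ) ^ P.ω / p ≤ P.e0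
  E1 : ∀ j, P.j0 ≤ j → 16 * (((j : ℝ) + 2) ^ 2 / P.e0) ^ P.r0 ≤ P.V j * (P.Y j : ℝ) ^ P.ω
  E2 : ∀ j, P.j0 ≤ j → 4 * P.h j / ell (P.t j) ^ 4 ≤ P.e1 / 16000 / 64 * P.N j
  E3 : ∀ j, P.j0 ≤ j → ((2 : ℝ) ^ (j + 1)) ^ P.ω * P.η j ≤ P.e1 / 16000 / 64 * P.N j
  E4 : ∀ j, P.j0 ≤ j → P.η j ≤ (P.h j : ℝ) / (4000 * j)
  E4' : ∀ j, P.j0 ≤ j → P.η j ≤ (P.h j : ℝ) * P.V j / 8
  E5 : ∀ j, P.j0 ≤ j → 2 ≤ P.e1 / 16000 * P.N j / 8
  E6 : (P.h (2 * P.j0) : ℝ) / 2 ^ (2 * P.j0) *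
      ∑ n ∈ (Ico 1 (2 ^ P.j0) : Finset ℕ), (n : ℝ) ^ P.ω * (n : ℝ) ^ (-P.β) ≤
    P.e1 / 16000 * P.N (2 * P.j0) * ((2 : ℝ) ^ (2 * P.j0 + 1)) ^ (-P.β) / 8

variable {P}

section cells

variable (hdiv : ∀ j, 0 < P.h j ∧ P.h j ∣ 2 ^ j)
include hdiv

lemma cell_top {L : ℕ} (hL : P.IsCell L) : L + P.h (lg L) ≤ 2 ^ (lg L + 1) := by
  obtain ⟨a, ha⟩ := hL.2
  obtain ⟨b, hb⟩ := (hdiv (lg L)).2
  have h0 := (hdiv (lg L)).1
  have h1 := lt_lg L
  rw [pow_succ, hb] at h1 ⊢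
  set H := P.h (lg L)
  have : a < b * 2 := by
    by_contra hc
    push Not at hc
    have := Nat.mul_le_mul_left H hc
    nlinarith
  have := Nat.mul_le_mul_left H (Nat.succ_le_of_lt this)
  nlinarith

lemma cell_bounds {L n : ℕ} (hL : P.IsCell L) (hn : n ∈ P.cell L) :
    2 ^ lg L ≤ n ∧ n < 2 ^ (lg L + 1) := by
  have h1 := cell_top hdiv hL
  have h2 := lg_le (n := L) (by have := hL.1; omega)
  obtain ⟨h3, h4⟩ := mem_Ico.1 hn
  constructor <;> omega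

lemma cell_lg {L n : ℕ} (hL : P.IsCell L) (hn : n ∈ P.cell L) : lg n = lg L :=
  lg_eq (cell_bounds hdiv hL hn).1 (cell_bounds hdiv hL hn).2

lemma cell_base {L n : ℕ} (hL : P.IsCell L) (hn : n ∈ P.cell L) : P.base n = L := by
  unfold base
  rw [cell_lg hdiv hL hn]
  obtain ⟨a, ha⟩ := hL.2
  obtain ⟨h3, h4⟩ := mem_Ico.1 hn
  have h0 := (hdiv (lg L)).1
  set H := P.h (lg L)
  have : n / H = a := by
    rw [Nat.div_eq_iff h0]
    constructor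
    · nlinarith
    · have : a * H = L := by rw [ha]; ring
      omega
  rw [this, ha]; ring

lemma base_spec {n : ℕ} (hn : n ≠ 0) :
    P.IsCell (P.base n) ∧ n ∈ P.cell (P.base n) ∧ lg (P.base n) = lg n := by
  obtain ⟨h0, b, hb⟩ := hdiv (lg n)
  have h1 := lg_le hn
  have h2 := lt_lg n
  have h3 : P.base n ≤ n := Nat.div_mul_le_self _ _
  have h4 : 2 ^ lg n ≤ P.base n := by
    unfold base
    rw [hb, mul_comm]
    refine Nat.mul_le_mul_right _ ?_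
    rw [Nat.le_div_iff_mul_le h0, mul_comm, ← hb]; exact h1
  have h5 : lg (P.base n) = lg n := lg_eq h4 (by omega)
  have h6 : n < P.base n + P.h (lg n) := by
    unfold base
    have := Nat.div_add_mod n (P.h (lg n))
    have := Nat.mod_lt n h0
    rw [mul_comm]; omega
  refine ⟨⟨?_, ?_⟩, ?_, h5⟩
  · have := Nat.one_le_two_pow (n := lg n); omega
  · rw [h5]; exact Dvd.intro_left _ rfl
  · unfold cell; rw [h5]; exact mem_Ico.2 ⟨h3, h6⟩

end cells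

variable (H : P.Hyp)
include H

lemma raw_ne {n p : ℕ} (h : P.Raw n p) : n ≠ 0 := by
  rintro rfl
  have := (H.hB _ h.1).1.1
  simp [base] at this

lemma raw_j0 {n p : ℕ} (h : P.Raw n p) : P.j0 ≤ lg n := by
  rw [← (base_spec H.hdiv (raw_ne H h)).2.2]; exact (H.hB _ h.1).2

lemma raw_unique {n p q : ℕ} (h : P.Raw n p) (h' : P.Raw n q) : p = q := by
  by_contra hne
  have h1 : p * q ∣ n := Nat.Coprime.mul_dvd_of_dvd_of_dvd
    ((Nat.coprime_primes h.2.2.1 h'.2.2.1).2 hne) h.2.2.2.1 h'.2.2.2.1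
  have h2 := Nat.le_of_dvd (Nat.pos_of_ne_zero (raw_ne H h)) h1
  have h3 := H.hY _ (raw_j0 H h)
  have h4 := lt_lg n
  have h5 := Nat.mul_lt_mul'' h.2.2.2.2 h'.2.2.2.2
  rw [sq] at h3
  omega

lemma raw_not_sq {n p : ℕ} (h : P.Raw n p) : ¬ p ∣ n / p := by
  intro hd
  have h1 : p * p ∣ n := by
    rw [← Nat.mul_div_cancel' h.2.2.2.1]; exact Nat.mul_dvd_mul_left p hd
  have h2 := Nat.le_of_dvd (Nat.pos_of_ne_zero (raw_ne H h)) h1
  have h3 := H.hY _ (raw_j0 H h)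
  have h4 := lt_lg n
  have h5 := Nat.mul_lt_mul'' h.2.2.2.2 h.2.2.2.2
  rw [sq] at h3
  omega

/-- A pool prime dividing a clean element belongs to that element only. -/
lemma clean_owner {n p n1 q : ℕ} (h : P.Raw n p) (hc : ¬ P.Cnt n) (h1 : P.Raw n1 q)
    (hq : q ∣ n) : n1 = n := by
  have hj := raw_j0 H h
  have hq1 := h.2.1 q h1.2.2.1 hq
  have t2 := H.ht2 _ hj
  by_cases hqh : q ≤ P.h (lg n)
  · exfalso
    refine hc (Or.inr ⟨q, hq, ?_, hqh, fun r hr hrq => ?_⟩)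
    · have : P.t (lg n) ^ 1 ≤ P.t (lg n) ^ 4 := Nat.pow_le_pow_right (by omega) (by norm_num)
      rw [pow_one] at this; omega
    · rw [(Nat.prime_dvd_prime_iff_eq hr h1.2.2.1).1 hrq]; exact ⟨n1, h1⟩
  · by_contra hne
    refine hc (Or.inl ⟨n1, q, h1, hq, by omega, ?_⟩)
    rintro ⟨k, hk, hkn⟩
    have hk1 : k ≠ 1 := by rintro rfl; exact hne (by omega)
    have hp := Nat.minFac_prime hk1
    have hk0 : k ≠ 0 := by rintro rfl; exact raw_ne H h (by omega)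
    have := h.2.1 _ hp ((Nat.minFac_dvd k).trans (Dvd.intro _ hkn.symm))
    have := Nat.minFac_le (Nat.pos_of_ne_zero hk0)
    omega

lemma own_eq {n p : ℕ} (h : P.Raw n p) (hc : ¬ P.Cnt n) : P.own p = n := by
  have := Classical.epsilon_spec (p := fun n => P.Raw n p ∧ ¬ P.Cnt n) ⟨n, h, hc⟩
  exact clean_owner H h hc this.1 h.2.2.2.1

lemma clean_cof {n p : ℕ} (h : P.Raw n p) (hc : ¬ P.Cnt n) (q : ℕ) (hq : q ∣ n / p) :
    ¬ P.PP q := by
  rintro ⟨n1, h1⟩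
  have hqn : q ∣ n := hq.trans (Nat.div_dvd_of_dvd h.2.2.2.1)
  have := clean_owner H h hc h1 hqn
  subst this
  have := raw_unique H h h1
  subst this
  exact raw_not_sq H h hq

lemma b_clean {n p : ℕ} (h : P.Raw n p) (hc : ¬ P.Cnt n) :
    P.b p = cm P.s (n / p) * P.mu (P.base n) / cm P.c (n / p) := by
  unfold b
  rw [if_pos ⟨n, h, hc⟩, own_eq H h hc]

lemma b_unclean {n p : ℕ} (h : P.Raw n p) (hc : P.Cnt n) : P.b p = 0 := by
  unfold b
  rw [if_neg]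
  rintro ⟨n1, h1, hc1⟩
  have := clean_owner H h1 hc1 h h1.2.2.2.1
  subst this
  exact hc1 hc

lemma c_pos (p : ℕ) : 0 < P.c p := by
  have := one_le_ell p
  have := H.he0
  unfold c; positivity

lemma c_le (p : ℕ) : P.c p ≤ P.e0 := by
  have := one_le_ell p
  unfold c
  exact div_le_self H.he0.le (by nlinarith)

lemma e1_le : P.e1 ≤ 1 / 16 := by
  have h1 := H.he1'
  have h2 : (1 : ℝ) ≤ P.r0 := by exact_mod_cast H.hr0
  have := H.he1
  nlinarith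

lemma sg_spec (L : ℕ) : (∀ p, P.sg L p = 1 ∨ P.sg L p = -1) ∧
    |∑ p ∈ P.np L, P.sg L p * (P.c p * (p : ℝ) ^ (-P.β))| ≤ ((2 : ℝ) ^ lg L) ^ (-P.β) := by
  refine Classical.epsilon_spec (p := fun s : ℕ → ℝ => (∀ p, s p = 1 ∨ s p = -1) ∧
    |∑ p ∈ P.np L, s p * (P.c p * (p : ℝ) ^ (-P.β))| ≤ ((2 : ℝ) ^ lg L) ^ (-P.β)) ?_
  refine signs _ _ _ (by positivity) (fun p hp => ?_)
  classical
  obtain ⟨h1, h2, -⟩ := Finset.mem_filter.1 hp
  have h3 : 2 ^ lg L ≤ p := by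
    rcases Nat.eq_zero_or_pos L with rfl | hL
    · have := h2.one_le
      simpa [lg] using this
    · exact (lg_le hL.ne').trans (mem_Ico.1 h1).1
  have h4 : (p : ℝ) ^ (-P.β) ≤ ((2 : ℝ) ^ lg L) ^ (-P.β) :=
    Real.rpow_le_rpow_of_nonpos (by positivity) (by exact_mod_cast h3) (by linarith [H.hβ])
  have h5 := c_pos H p
  have h6 := c_le H p
  have h7 := H.he0'
  have h8 : 0 ≤ (p : ℝ) ^ (-P.β) := by positivity
  rw [abs_of_nonneg (by positivity)]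
  nlinarith

lemma s_sign (p : ℕ) : P.s p = 1 ∨ P.s p = -1 := (sg_spec H _).1 p

lemma s_abs (p : ℕ) : |P.s p| = 1 := by
  rcases s_sign H p with h | h <;> simp [h]

lemma cm_s_sq (n : ℕ) (hn : n ≠ 0) : cm P.s n * cm P.s n = 1 := by
  refine prime_ind (P := fun n => cm P.s n * cm P.s n = 1) (by simp [cm_one]) ?_ n hn
  intro p n hp hn ih
  rw [cm_pm _ hp hn]
  rcases s_sign H p with h | h <;> rw [h] <;> linarith

lemma cm_s_abs (n : ℕ) (hn : n ≠ 0) : |cm P.s n| = 1 := by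
  have := cm_s_sq H n hn
  have h2 := abs_nonneg (cm P.s n)
  have h3 : |cm P.s n| * |cm P.s n| = 1 := by rw [← abs_mul, this, abs_one]
  nlinarith

lemma cm_c_pos (n : ℕ) (hn : n ≠ 0) : 0 < cm P.c n := by
  refine prime_ind (P := fun n => 0 < cm P.c n) (by simp [cm_one]) ?_ n hn
  intro p n hp hn ih
  rw [cm_pm _ hp hn]
  exact mul_pos (c_pos H p) ih

lemma G_nonneg (p : ℕ) : 0 ≤ P.G p := by
  have := c_pos H p
  unfold G; split_ifs <;> positivity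

lemma g_le (w : ℕ → ℝ) (hw : ∀ i, |w i| ≤ 1) (p : ℕ) : 2 * |P.g w p| ≤ P.G p := by
  unfold g G
  have hc := c_pos H p
  have he := e1_le H
  have he1 := H.he1
  split_ifs with h1 h2
  · rw [abs_mul]
    have := hw (P.base (P.own p))
    have := abs_nonneg (P.b p)
    nlinarith
  · rw [abs_mul, abs_of_pos hc]
    have h3 := abs_add_le (P.s p) (P.e1 * w (P.base p))
    rw [s_abs H, abs_mul, abs_of_pos he1] at h3
    have := hw (P.base p)
    have : |P.s p + P.e1 * w (P.base p)| ≤ 2 := by nlinarith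
    nlinarith
  · rw [abs_mul, abs_of_pos hc, add_zero, s_abs H]; linarith

lemma g_lip (w w' : ℕ → ℝ) (D : ℝ) (hD : 0 ≤ D) (hw : ∀ i, |w i - w' i| ≤ D) (p : ℕ) :
    2 * |P.g w p - P.g w' p| ≤ P.G p * D := by
  unfold g G
  have hc := c_pos H p
  have he := e1_le H
  have he1 := H.he1
  split_ifs with h1 h2
  · rw [← mul_sub, abs_mul]
    have := hw (P.base (P.own p))
    have := abs_nonneg (P.b p)
    nlinarith
  · have e : P.c p * (P.s p + P.e1 * w (P.base p)) - P.c p * (P.s p + P.e1 * w' (P.base p)) =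
        P.c p * P.e1 * (w (P.base p) - w' (P.base p)) := by ring
    rw [e, abs_mul, abs_of_pos (mul_pos hc he1)]
    have h3 := hw (P.base p)
    have h4 : P.c p * P.e1 * |w (P.base p) - w' (P.base p)| ≤ P.c p * P.e1 * D :=
      mul_le_mul_of_nonneg_left h3 (mul_pos hc he1).le
    have h5 : 0 ≤ P.c p * D := by positivity
    nlinarith
  · rw [sub_self, abs_zero, mul_zero]; positivity

lemma N_pos {j : ℕ} (hj : P.j0 ≤ j) : 0 < P.N j := by
  have h1 := H.he0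
  have h2 : (0 : ℝ) < P.h j := by exact_mod_cast (H.hdiv j).1
  have h3 : (0 : ℝ) < j := by have := H.hj0; exact_mod_cast (by omega : 0 < j)
  unfold N; positivity

lemma Q_card {L : ℕ} (hL : P.B L) : (P.h (lg L) : ℝ) * P.V (lg L) / 8 ≤ (P.Q L).card := by
  classical
  obtain ⟨h1, h2⟩ := H.hB L hL
  have a1 := H.pool L hL
  have a2 := H.cnt L h1 h2
  have a3 := H.E4' _ h2
  have : ((P.cell L).filter (fun n => ∃ p, P.Raw n p)).card ≤
      (P.Q L).card + ((P.cell L).filter P.Cnt).card := by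
    refine le_trans (Finset.card_le_card ?_) (Finset.card_union_le _ _)
    intro n hn
    obtain ⟨h3, h4⟩ := Finset.mem_filter.1 hn
    by_cases h5 : P.Cnt n
    · exact Finset.mem_union_right _ (Finset.mem_filter.2 ⟨h3, h5⟩)
    · exact Finset.mem_union_left _ (Finset.mem_filter.2 ⟨h3, h4, h5⟩)
  have : (((P.cell L).filter (fun n => ∃ p, P.Raw n p)).card : ℝ) ≤
      (P.Q L).card + ((P.cell L).filter P.Cnt).card := by exact_mod_cast this
  linarith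

lemma Q_pos {L : ℕ} (hL : P.B L) : (0 : ℝ) < (P.Q L).card := by
  have h2 : (0 : ℝ) < P.h (lg L) := by exact_mod_cast (H.hdiv _).1
  have := H.hV _ (H.hB L hL).2
  exact lt_of_lt_of_le (by positivity) (Q_card H hL)

lemma mu_pos {L : ℕ} (hL : P.B L) : 0 < P.mu L :=
  div_pos (N_pos H (H.hB L hL).2) (Q_pos H hL)

lemma mu_le {L : ℕ} (hL : P.B L) : P.mu L ≤ 8 * P.e0 / ((lg L : ℝ) ^ 3 * P.V (lg L)) := by
  have h2 : (0 : ℝ) < P.h (lg L) := by exact_mod_cast (H.hdiv _).1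
  have h3 := H.hV _ (H.hB L hL).2
  have h4 : (0 : ℝ) < lg L := by
    have := H.hj0; have := (H.hB L hL).2; exact_mod_cast (by omega : 0 < lg L)
  have h5 := N_pos H (H.hB L hL).2
  unfold mu
  refine (div_le_div_of_nonneg_left h5.le (by positivity) (Q_card H hL)).trans_eq ?_
  unfold N; field_simp

end Par

end Pool.Agent.H59.MO
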