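import Mathlib
import Pool.Agent.H59.MO2

/-! The envelope estimates for the construction. -/

set_option autoImplicit false

namespace Pool.Agent.H59.MO

open Finset Filter Topology

lemma cm_const (a : ℝ) (n : ℕ) : cm (fun _ => a) n = a ^ n.primeFactorsList.length := by
  simp [cm, List.map_const', List.prod_replicate]

lemma cm_id (n : ℕ) (hn : n ≠ 0) : cm (fun p => (p : ℝ)) n = n := by
  refine prime_ind (P := fun n => cm (fun p => (p : ℝ)) n = n) (by simp [cm_one]) ?_ n hn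
  intro p n hp hn ih
  rw [cm_pm _ hp hn, ih]; push_cast; ring

lemma cm_mul_fun (a b : ℕ → ℝ) (n : ℕ) (hn : n ≠ 0) :
    cm (fun p => a p * b p) n = cm a n * cm b n := by
  refine prime_ind (P := fun n => cm (fun p => a p * b p) n = cm a n * cm b n)
    (by simp [cm_one]) ?_ n hn
  intro p n hp hn ih
  rw [cm_pm _ hp hn, cm_pm _ hp hn, cm_pm _ hp hn, ih]; ring

lemma cm_mono (a A : ℕ → ℝ) (n : ℕ) (hn : n ≠ 0) (h0 : ∀ p : ℕ, p.Prime → p ∣ n → 0 ≤ a p)
    (h : ∀ p : ℕ, p.Prime → p ∣ n → a p ≤ A p) : cm a n ≤ cm A n :=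
  (le_abs_self _).trans (cm_abs_le a A n hn (fun p hp hd => by
    rw [abs_of_nonneg (h0 p hp hd)]; exact h p hp hd))

lemma len_le (T r n : ℕ) (hn : n ≠ 0) (hT : 2 ≤ T) (h : ∀ q : ℕ, q.Prime → q ∣ n → T < q)
    (hr : n < T ^ r) : n.primeFactorsList.length ≤ r := by
  have h1 := cm_mono (fun _ => (T : ℝ)) (fun p => (p : ℝ)) n hn (fun _ _ _ => by positivity)
    (fun p hp hd => by exact_mod_cast (h p hp hd).le)
  rw [cm_const, cm_id n hn] at h1
  have h2 : T ^ n.primeFactorsList.length ≤ n := by exact_mod_cast h1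
  exact ((Nat.pow_lt_pow_iff_right (by omega : 1 < T)).1 (lt_of_le_of_lt h2 hr)).le

lemma cnt_eq (a h d : ℕ) (ha : 1 ≤ a) (hd : 0 < d) :
    (((Ico a (a + h)).filter (fun n => d ∣ n)).card : ℝ) =
      (h : ℝ) / d - Int.fract (((a + h - 1 : ℕ) : ℝ) / d) + Int.fract (((a - 1 : ℕ) : ℝ) / d) := by
  obtain ⟨b, rfl⟩ : ∃ b, a = b + 1 := ⟨a - 1, by omega⟩
  have e1 : b + 1 + h - 1 = b + h := by omega
  have e2 : b + 1 - 1 = b := by omega
  rw [e1, e2]
  have h1 := Nat.Ioc_filter_dvd_card_eq_div (b + h) d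
  have h2 := Nat.Ioc_filter_dvd_card_eq_div b d
  have h3 : (Ioc 0 (b + h)).filter (fun n => d ∣ n) =
      (Ioc 0 b).filter (fun n => d ∣ n) ∪ (Ico (b + 1) (b + 1 + h)).filter (fun n => d ∣ n) := by
    ext x; simp only [Finset.mem_filter, Finset.mem_union, mem_Ioc, mem_Ico]
    constructor
    · rintro ⟨⟨h4, h5⟩, h6⟩
      by_cases h7 : x ≤ b
      · exact Or.inl ⟨⟨h4, h7⟩, h6⟩
      · exact Or.inr ⟨⟨by omega, by omega⟩, h6⟩
    · rintro (⟨⟨h4, h5⟩, h6⟩ | ⟨⟨h4, h5⟩, h6⟩)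
      · exact ⟨⟨h4, by omega⟩, h6⟩
      · exact ⟨⟨by omega, by omega⟩, h6⟩
  rw [h3, Finset.card_union_of_disjoint, h2] at h1
  · have h4 : ∀ x : ℕ, ((x / d : ℕ) : ℝ) = (x : ℝ) / d - Int.fract ((x : ℝ) / d) := by
      intro x
      rw [Int.fract, sub_sub_cancel, ← Nat.floor_div_eq_div (K := ℝ),
        ← Int.natCast_floor_eq_floor (by positivity)]
      simp
    have h5 : (((Ico (b + 1) (b + 1 + h)).filter (fun n => d ∣ n)).card : ℝ) =
        (((b + h) / d : ℕ) : ℝ) - ((b / d : ℕ) : ℝ) := by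
      rw [← h1]; push_cast; ring
    rw [h5, h4, h4]; push_cast; ring
  · rw [Finset.disjoint_left]
    intro x h4 h5
    have := (mem_Ioc.1 (Finset.mem_filter.1 h4).1).2
    have := (mem_Ico.1 (Finset.mem_filter.1 h5).1).1
    omega

lemma cnt_abs (a h d : ℕ) (ha : 1 ≤ a) (hd : 0 < d) :
    |(((Ico a (a + h)).filter (fun n => d ∣ n)).card : ℝ) - (h : ℝ) / d| ≤ 1 := by
  rw [cnt_eq a h d ha hd, abs_le]
  have := Int.fract_nonneg (((a + h - 1 : ℕ) : ℝ) / d)
  have := Int.fract_lt_one (((a + h - 1 : ℕ) : ℝ) / d)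
  have := Int.fract_nonneg (((a - 1 : ℕ) : ℝ) / d)
  have := Int.fract_lt_one (((a - 1 : ℕ) : ℝ) / d)
  constructor <;> linarith

lemma cnt_le (a h d : ℕ) (ha : 1 ≤ a) (hd : 0 < d) (hdh : d ≤ h) :
    (((Ico a (a + h)).filter (fun n => d ∣ n)).card : ℝ) ≤ 2 * h / d := by
  have h1 := (abs_le.1 (cnt_abs a h d ha hd)).2
  have h2 : (0 : ℝ) < d := by exact_mod_cast hd
  have h3 : (1 : ℝ) ≤ h / d := by rw [le_div_iff₀ h2, one_mul]; exact_mod_cast hdh
  have : 2 * (h : ℝ) / d = h / d + h / d := by ring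
  linarith

lemma ell_le {q j : ℕ} (hq : q ≠ 0) (h : q < 2 ^ (j + 1)) : ell q ≤ j + 2 := by
  have h1 : Real.log q ≤ Real.log ((2 : ℝ) ^ (j + 1)) :=
    Real.log_le_log (by exact_mod_cast Nat.pos_of_ne_zero hq) (by exact_mod_cast h.le)
  rw [Real.log_pow] at h1
  have h2 := Real.log_two_lt_d9
  have h3 : (0 : ℝ) ≤ j := Nat.cast_nonneg j
  push_cast at h1
  unfold ell; nlinarith

namespace Par

variable {P : Par} (H : P.Hyp)
include H

lemma raw_len {n p : ℕ} (h : P.Raw n p) : (n / p).primeFactorsList.length ≤ P.r0 := by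
  have hj := raw_j0 H h
  have hn := raw_ne H h
  have t2 := H.ht2 _ hj
  have hm : n / p ≠ 0 := (Nat.div_pos (Nat.le_of_dvd (Nat.pos_of_ne_zero hn) h.2.2.2.1)
    h.2.2.1.pos).ne'
  refine len_le (P.t (lg n) ^ 4) _ _ hm ?_ (fun q hq hd =>
    h.2.1 q hq (hd.trans (Nat.div_dvd_of_dvd h.2.2.2.1))) ?_
  · have : P.t (lg n) ^ 1 ≤ P.t (lg n) ^ 4 := Nat.pow_le_pow_right (by omega) (by norm_num)
    rw [pow_one] at this; omega
  · have := H.hr _ hj
    have := lt_lg n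
    have := Nat.div_le_self n p
    omega

lemma raw_cof_ne {n p : ℕ} (h : P.Raw n p) : n / p ≠ 0 :=
  (Nat.div_pos (Nat.le_of_dvd (Nat.pos_of_ne_zero (raw_ne H h)) h.2.2.2.1) h.2.2.1.pos).ne'

lemma raw_c_ge {n p : ℕ} (h : P.Raw n p) :
    (P.e0 / ((lg n : ℝ) + 2) ^ 2) ^ P.r0 ≤ cm P.c (n / p) := by
  have hm := raw_cof_ne H h
  have he := H.he0
  have he' := H.he0'
  have hj : (0 : ℝ) ≤ lg n := Nat.cast_nonneg _
  have h1 := cm_mono (fun _ => P.e0 / ((lg n : ℝ) + 2) ^ 2) P.c (n / p) hm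
    (fun _ _ _ => by positivity) (fun q hq hd => by
      have h2 : q ≤ n := (Nat.le_of_dvd (Nat.pos_of_ne_zero hm) hd).trans (Nat.div_le_self n p)
      have h3 := ell_le hq.ne_zero (lt_of_le_of_lt h2 (lt_lg n))
      have h4 := one_le_ell q
      unfold c
      exact div_le_div_of_nonneg_left he.le (by positivity) (by nlinarith))
  rw [cm_const] at h1
  refine le_trans (pow_le_pow_of_le_one (by positivity) ?_ (raw_len H h)) h1
  rw [div_le_one (by positivity)]; nlinarith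

lemma abs_b {n p : ℕ} (h : P.Raw n p) (hc : ¬ P.Cnt n) :
    |P.b p| = P.mu (P.base n) / cm P.c (n / p) := by
  have hm := raw_cof_ne H h
  rw [b_clean H h hc, abs_div, abs_mul, cm_s_abs H _ hm, one_mul, abs_of_pos (mu_pos H h.1),
    abs_of_pos (cm_c_pos H _ hm)]

lemma G_le (p : ℕ) (hp : p.Prime) : P.G p ≤ (p : ℝ) ^ P.ω := by
  have h1 : (1 : ℝ) ≤ (p : ℝ) ^ P.ω :=
    Real.one_le_rpow (by exact_mod_cast hp.one_le) H.hω
  unfold G
  split_ifs with h
  · obtain ⟨n, h⟩ := h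
    by_cases hc : P.Cnt n
    · rw [b_unclean H h hc]; simp; linarith
    · have hj := raw_j0 H h
      have hb := (base_spec H.hdiv (raw_ne H h)).2.2
      have a1 := mu_le H h.1
      rw [hb] at a1
      have a2 := raw_c_ge H h
      have a3 := H.E1 _ hj
      have a4 := H.hV _ hj
      have he := H.he0
      have he' := H.he0'
      have hj1 : (1 : ℝ) ≤ lg n := by have := H.hj0; exact_mod_cast (by omega : 1 ≤ lg n)
      have a5 : (P.Y (lg n) : ℝ) ^ P.ω ≤ (p : ℝ) ^ P.ω :=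
        Real.rpow_le_rpow (by positivity) (by exact_mod_cast h.2.2.2.2.le) H.hω
      have a6 : P.mu (P.base n) ≤ 8 / P.V (lg n) := by
        refine a1.trans (div_le_div₀ (by norm_num) (by linarith) a4 ?_)
        have : (1 : ℝ) ≤ (lg n : ℝ) ^ 3 := one_le_pow₀ hj1
        nlinarith
      rw [abs_b H h hc]
      have a7 : P.mu (P.base n) / cm P.c (n / p) ≤
          8 / P.V (lg n) / (P.e0 / ((lg n : ℝ) + 2) ^ 2) ^ P.r0 :=
        div_le_div₀ (by positivity) a6 (by positivity) a2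
      have e : 8 / P.V (lg n) / (P.e0 / ((lg n : ℝ) + 2) ^ 2) ^ P.r0 =
          8 * (((lg n : ℝ) + 2) ^ 2 / P.e0) ^ P.r0 / P.V (lg n) := by
        rw [div_pow, div_pow]; field_simp
      rw [e, le_div_iff₀ a4] at a7
      have a8 : 2 * (P.mu (P.base n) / cm P.c (n / p)) * P.V (lg n) ≤
          (P.Y (lg n) : ℝ) ^ P.ω * P.V (lg n) := by linarith
      exact (le_of_mul_le_mul_right a8 a4).trans a5
  · have := c_le H p
    have := H.he0'
    linarith

lemma cmG_nonneg (n : ℕ) (hn : n ≠ 0) : 0 ≤ cm P.G n :=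
  cm_nonneg _ (fun p _ => G_nonneg H p) n hn

lemma cmG_le (n : ℕ) (hn : n ≠ 0) : cm P.G n ≤ (n : ℝ) ^ P.ω :=
  cm_le_rpow _ _ (fun p _ => G_nonneg H p) (G_le H) n hn

lemma raw_G {n p : ℕ} (h : P.Raw n p) :
    cm P.G n ≤ 16 * 4 ^ P.r0 * P.e0 / ((lg n : ℝ) ^ 3 * P.V (lg n)) := by
  have hm := raw_cof_ne H h
  have hj := raw_j0 H h
  have a4 := H.hV _ hj
  have he := H.he0
  have hPP : P.PP p := ⟨n, h⟩
  have e : cm P.G n = 2 * |P.b p| * cm P.G (n / p) := by
    conv_lhs => rw [← Nat.mul_div_cancel' h.2.2.2.1]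
    rw [cm_pm _ h.2.2.1 hm]
    unfold G; rw [if_pos hPP]
  rw [e]
  by_cases hc : P.Cnt n
  · rw [b_unclean H h hc]; simp; positivity
  · have hb := (base_spec H.hdiv (raw_ne H h)).2.2
    have a1 := mu_le H h.1
    rw [hb] at a1
    have a2 : cm P.G (n / p) ≤ 4 ^ P.r0 * cm P.c (n / p) := by
      have h1 := cm_mono P.G (fun q => 4 * P.c q) _ hm (fun q _ _ => G_nonneg H q)
        (fun q _ hd => by unfold G; rw [if_neg (clean_cof H h hc q hd)])
      rw [cm_mul_fun (fun _ => 4) P.c _ hm, cm_const] at h1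
      exact h1.trans (mul_le_mul_of_nonneg_right
        (pow_le_pow_right₀ (by norm_num) (raw_len H h)) (cm_c_pos H _ hm).le)
    have a3 := cm_c_pos H _ hm
    have a5 := mu_pos H h.1
    rw [abs_b H h hc]
    calc 2 * (P.mu (P.base n) / cm P.c (n / p)) * cm P.G (n / p)
        ≤ 2 * (P.mu (P.base n) / cm P.c (n / p)) * (4 ^ P.r0 * cm P.c (n / p)) :=
          mul_le_mul_of_nonneg_left a2 (by positivity)
      _ = 2 * 4 ^ P.r0 * P.mu (P.base n) := by field_simp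
      _ ≤ 2 * 4 ^ P.r0 * (8 * P.e0 / ((lg n : ℝ) ^ 3 * P.V (lg n))) :=
          mul_le_mul_of_nonneg_left a1 (by positivity)
      _ = _ := by ring

lemma sumG2 (M : ℕ) : ∑ k ∈ Icc 2 M, cm P.G k / k ≤ 10 * P.e0 := by
  classical
  have he := H.he0
  have he' := H.he0'
  have := cm_sum (fun k => cm P.G k / k) (by simp [cm_one])
    (fun n hn => div_nonneg (cmG_nonneg H n hn) (Nat.cast_nonneg n))
    (fun p n hp hn => by
      rw [cm_pm _ hp hn, cm_prime _ hp]; push_cast; rw [div_mul_div_comm]) M (5 * P.e0)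
    (by linarith) ?_
  · linarith
  · have a1 := H.sparse M
    have a2 := sum_ell M
    have a3 : ∑ p ∈ (Icc 1 M).filter Nat.Prime, cm P.G p / p ≤
        ∑ p ∈ (Icc 1 M).filter Nat.Prime, ((if P.PP p then (p : ℝ) ^ P.ω / p else 0) +
          4 * P.e0 * (1 / ell p ^ 2 / p)) := by
      refine Finset.sum_le_sum (fun p hp => ?_)
      have hp' := (Finset.mem_filter.1 hp).2
      have hp0 : (0 : ℝ) < p := by exact_mod_cast hp'.pos
      have := one_le_ell p
      rw [cm_prime _ hp']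
      split_ifs with h
      · have h1 := div_le_div_of_nonneg_right (G_le H p hp') hp0.le
        have : 0 ≤ 4 * P.e0 * (1 / ell p ^ 2 / p) := by positivity
        linarith
      · unfold G c; rw [if_neg h, zero_add]; apply le_of_eq; ring
    rw [Finset.sum_add_distrib, ← Finset.sum_filter, Finset.filter_filter, ← Finset.mul_sum] at a3
    have a4 : ∑ p ∈ (Icc 1 M).filter Nat.Prime, 1 / ell p ^ 2 / (p : ℝ) ≤
        ∑ n ∈ Icc 2 M, 1 / ell n ^ 2 / (n : ℝ) := by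
      refine Finset.sum_le_sum_of_subset_of_nonneg (fun p hp => ?_) (fun n _ _ => by positivity)
      obtain ⟨h1, h2⟩ := Finset.mem_filter.1 hp
      exact mem_Icc.2 ⟨h2.two_le, (mem_Icc.1 h1).2⟩
    have a5 : 4 * P.e0 * ∑ p ∈ (Icc 1 M).filter Nat.Prime, 1 / ell p ^ 2 / (p : ℝ) ≤
        4 * P.e0 * 1 := mul_le_mul_of_nonneg_left (a4.trans a2) (by positivity)
    linarith

lemma sumG1 (M : ℕ) : ∑ k ∈ Icc 1 M, cm P.G k / k ≤ 2 := by
  rcases Nat.eq_zero_or_pos M with rfl | hM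
  · simp
  have e : ∑ k ∈ Icc 1 M, cm P.G k / k = 1 + ∑ k ∈ Icc 2 M, cm P.G k / (k : ℝ) := by
    rw [← Finset.add_sum_Ioc_eq_sum_Icc hM, cm_one, Nat.cast_one, div_one]; rfl
  have := sumG2 H M
  have := H.he0'
  linarith

lemma normal_G (a : ℕ) (ha : a ≠ 0) (h : ∀ q : ℕ, q.Prime → q ∣ a → ¬ P.PP q) :
    cm P.G a ≤ 1 / ell a ^ 2 := by
  revert h
  refine prime_ind (P := fun a => (∀ q : ℕ, q.Prime → q ∣ a → ¬ P.PP q) →
    cm P.G a ≤ 1 / ell a ^ 2) (by simp [cm_one, ell]) ?_ a ha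
  intro p n hp hn ih h
  rw [cm_pm _ hp hn]
  have h1 := ih (fun q hq hd => h q hq (hd.mul_left p))
  have h2 : P.G p ≤ 1 / ell p ^ 2 := by
    unfold G c
    rw [if_neg (h p hp (Dvd.intro _ rfl)), ← mul_div_assoc]
    have := H.he0'
    exact div_le_div_of_nonneg_right (by linarith) (by positivity)
  have h3 := ell_mul hp.ne_zero hn
  have h4 := one_le_ell (p * n)
  have h5 := one_le_ell p
  have h6 := one_le_ell n
  calc P.G p * cm P.G n ≤ 1 / ell p ^ 2 * (1 / ell n ^ 2) :=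
        mul_le_mul h2 h1 (cmG_nonneg H n hn) (by positivity)
    _ = 1 / (ell p * ell n) ^ 2 := by field_simp
    _ ≤ 1 / ell (p * n) ^ 2 :=
        one_div_le_one_div_of_le (by positivity) (pow_le_pow_left₀ (by linarith) h3 2)

open Classical in
lemma sumA {L : ℕ} (hL : P.IsCell L) (hj : P.j0 ≤ lg L) {k : ℕ} (hk : 2 ≤ k)
    (hk' : k ≤ P.t (lg L) ^ 4) :
    ∑ n ∈ (range (L + P.h (lg L))).filter (fun n => k * n ∈ P.cell L ∧ ∃ p, P.Raw n p),
      cm P.G n ≤ 2592 * 4 ^ P.r0 * P.N (lg L) / k := by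
  set S := (range (L + P.h (lg L))).filter (fun n => k * n ∈ P.cell L ∧ ∃ p, P.Raw n p) with hS
  have he := H.he0
  have hj6 := H.hj0
  have hk0 : (0 : ℝ) < k := by exact_mod_cast (by omega : 0 < k)
  have hN := N_pos H hj
  have key : ∀ j' : ℕ, ∑ n ∈ S.filter (fun n => lg n = j'), cm P.G n ≤
      1296 * 4 ^ P.r0 * P.N (lg L) / k := by
    intro j'
    rcases (S.filter (fun n => lg n = j')).eq_empty_or_nonempty with h0 | ⟨n1, hn1⟩
    · rw [h0, Finset.sum_empty]; positivity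
    obtain ⟨h1, h2⟩ := Finset.mem_filter.1 hn1
    obtain ⟨-, h3, p1, h4⟩ := Finset.mem_filter.1 h1
    have h5 := raw_j0 H h4
    rw [h2] at h5
    obtain ⟨h6, h7⟩ := cell_bounds H.hdiv hL h3
    have h8 : j' ≤ lg L := by
      rw [← h2, ← cell_lg H.hdiv hL h3]
      exact lg_mono (Nat.le_mul_of_pos_left _ (by omega))
    have h9 : 2 ^ lg L < 2 ^ (j' + 1) * P.t (lg L) ^ 4 := by
      have := lt_lg n1
      rw [h2] at this
      have := Nat.mul_lt_mul_of_le_of_lt hk' this (by omega)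
      rw [mul_comm (2 ^ (j' + 1))]; omega
    have h10 : lg L ≤ 3 * j' := by
      have a1 := H.ht8 _ hj
      have a2 : 2 ^ lg L * 2 ^ lg L < 2 ^ (2 * j' + 2) * 2 ^ lg L := by
        calc 2 ^ lg L * 2 ^ lg L < (2 ^ (j' + 1) * P.t (lg L) ^ 4) *
              (2 ^ (j' + 1) * P.t (lg L) ^ 4) := Nat.mul_lt_mul'' h9 h9
          _ = 2 ^ (2 * j' + 2) * P.t (lg L) ^ 8 := by ring
          _ ≤ _ := Nat.mul_le_mul_left _ a1
      have a3 := Nat.lt_of_mul_lt_mul_right a2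
      have a4 := (Nat.pow_lt_pow_iff_right (by norm_num : 1 < 2)).1 a3
      omega
    have hV := H.hV _ h5
    have hj' : (0 : ℝ) < j' := by exact_mod_cast (by omega : 0 < j')
    have hjL : (0 : ℝ) < lg L := by exact_mod_cast (by omega : 0 < lg L)
    have a1 : ∑ n ∈ S.filter (fun n => lg n = j'), cm P.G n ≤
        (S.filter (fun n => lg n = j')).card • (16 * 4 ^ P.r0 * P.e0 / ((j' : ℝ) ^ 3 * P.V j')) := by
      refine Finset.sum_le_card_nsmul _ _ _ (fun n hn => ?_)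
      obtain ⟨b1, b2⟩ := Finset.mem_filter.1 hn
      obtain ⟨-, -, p, b3⟩ := Finset.mem_filter.1 b1
      have := raw_G H b3
      rwa [b2] at this
    have a2 : ((S.filter (fun n => lg n = j')).card : ℝ) ≤ 3 * (P.h (lg L) / k) * P.V j' := by
      refine le_trans ?_ (H.roughc L hL hj k hk hk' j' h5 h8 h9)
      refine Nat.cast_le.2 (Finset.card_le_card (fun n hn => ?_))
      obtain ⟨b1, b2⟩ := Finset.mem_filter.1 hn
      obtain ⟨b0, b4, p, b3⟩ := Finset.mem_filter.1 b1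
      exact Finset.mem_filter.2 ⟨b0, b4, b2 ▸ b3.2.1⟩
    rw [nsmul_eq_mul] at a1
    have a3 : (lg L : ℝ) ^ 3 ≤ 27 * (j' : ℝ) ^ 3 := by
      have : (lg L : ℝ) ≤ 3 * j' := by exact_mod_cast h10
      calc (lg L : ℝ) ^ 3 ≤ (3 * j') ^ 3 := pow_le_pow_left₀ hjL.le this 3
        _ = _ := by ring
    calc _ ≤ _ := a1
      _ ≤ 3 * (P.h (lg L) / k) * P.V j' * (16 * 4 ^ P.r0 * P.e0 / ((j' : ℝ) ^ 3 * P.V j')) :=
          mul_le_mul_of_nonneg_right a2 (by positivity)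
      _ = (1296 * 4 ^ P.r0 * P.e0 * P.h (lg L) / k) / (27 * (j' : ℝ) ^ 3) := by
          field_simp; ring
      _ ≤ (1296 * 4 ^ P.r0 * P.e0 * P.h (lg L) / k) / (lg L : ℝ) ^ 3 :=
          div_le_div_of_nonneg_left (by positivity) (by positivity) a3
      _ = _ := by unfold N; ring
  have hsub : S ⊆ S.filter (fun n => lg n = lg (L / k)) ∪
      S.filter (fun n => lg n = lg (L / k) + 1) := by
    intro n hn
    obtain ⟨-, h3, -⟩ := Finset.mem_filter.1 hn
    obtain ⟨h6, h7⟩ := cell_bounds H.hdiv hL h3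
    have h8 := (mem_Ico.1 h3).1
    have h9 := lg_le (n := L) (by have := hL.1; omega)
    have a1 : L / k ≤ n := Nat.div_le_of_le_mul h8
    have a2 : n < 2 ^ (lg (L / k) + 2) := by
      have b1 := lt_lg (L / k)
      have b2 : L < k * (L / k + 1) := Nat.lt_mul_div_succ L (by omega)
      have b3 : k * n < k * (2 * (L / k + 1)) := by rw [pow_succ] at h7; nlinarith
      have b4 := Nat.lt_of_mul_lt_mul_left b3
      rw [pow_succ]; omega
    have a3 := lg_mono a1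
    have a4 : lg n < lg (L / k) + 2 := by
      rcases Nat.eq_zero_or_pos n with rfl | hn0
      · simp [lg]
      · exact (Nat.pow_lt_pow_iff_right (by norm_num : 1 < 2)).1
          (lt_of_le_of_lt (lg_le hn0.ne') a2)
    by_cases h : lg n = lg (L / k)
    · exact Finset.mem_union_left _ (Finset.mem_filter.2 ⟨hn, h⟩)
    · exact Finset.mem_union_right _ (Finset.mem_filter.2 ⟨hn, by omega⟩)
  have hpos : ∀ n ∈ S, 0 ≤ cm P.G n := fun n hn => by
    obtain ⟨-, -, p, h4⟩ := Finset.mem_filter.1 hn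
    exact cmG_nonneg H n (raw_ne H h4)
  have b1 := Finset.sum_le_sum_of_subset_of_nonneg (f := fun n => cm P.G n) hsub (fun n hn _ => by
    rcases Finset.mem_union.1 hn with h | h <;> exact hpos n (Finset.mem_filter.1 h).1)
  rw [Finset.sum_union (by
    rw [Finset.disjoint_left]
    intro n h1 h2
    have := (Finset.mem_filter.1 h1).2
    have := (Finset.mem_filter.1 h2).2
    omega)] at b1
  have b2 := key (lg (L / k))
  have b3 := key (lg (L / k) + 1)
  have e : 2592 * 4 ^ P.r0 * P.N (lg L) / k =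
      1296 * 4 ^ P.r0 * P.N (lg L) / k + 1296 * 4 ^ P.r0 * P.N (lg L) / k := by ring
  linarith

open Classical in
lemma sumB {L : ℕ} (hL : P.IsCell L) (hj : P.j0 ≤ lg L) {k : ℕ} (hk : 2 ≤ k)
    (hk' : k ≤ P.t (lg L) ^ 4) :
    ∑ n ∈ (range (L + P.h (lg L))).filter (fun n => k * n ∈ P.cell L ∧ n.Prime ∧ ¬ P.PP n),
      cm P.G n ≤ 36 * P.Cb * P.N (lg L) / k := by
  set S := (range (L + P.h (lg L))).filter (fun n => k * n ∈ P.cell L ∧ n.Prime ∧ ¬ P.PP n)
  have he := H.he0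
  have hj6 := H.hj0
  have hjL : (0 : ℝ) < lg L := by exact_mod_cast (by omega : 0 < lg L)
  have a1 : ∑ n ∈ S, cm P.G n ≤ S.card • (36 * P.e0 / (lg L : ℝ) ^ 2) := by
    refine Finset.sum_le_card_nsmul _ _ _ (fun n hn => ?_)
    obtain ⟨-, b1, b2, b3⟩ := Finset.mem_filter.1 hn
    rw [cm_prime _ b2]
    unfold G c
    rw [if_neg b3]
    have b4 := (cell_bounds H.hdiv hL b1).1
    have b5 := H.ht8 _ hj
    have b6 : 2 ^ lg L ≤ n ^ 2 := by
      have c1 : 2 ^ lg L ≤ P.t (lg L) ^ 4 * n := b4.trans (Nat.mul_le_mul_right _ hk')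
      have c2 : 2 ^ lg L * 2 ^ lg L ≤ 2 ^ lg L * n ^ 2 := by
        calc 2 ^ lg L * 2 ^ lg L ≤ (P.t (lg L) ^ 4 * n) * (P.t (lg L) ^ 4 * n) :=
              Nat.mul_le_mul c1 c1
          _ = P.t (lg L) ^ 8 * n ^ 2 := by ring
          _ ≤ _ := Nat.mul_le_mul_right _ b5
      exact Nat.le_of_mul_le_mul_left c2 (by positivity)
    have b7 : Real.log ((2 : ℝ) ^ lg L) ≤ Real.log ((n : ℝ) ^ 2) :=
      Real.log_le_log (by positivity) (by exact_mod_cast b6)
    rw [Real.log_pow, Real.log_pow] at b7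
    have b8 := Real.log_two_gt_d9
    have b9 : (lg L : ℝ) / 3 ≤ ell n := by
      unfold ell; push_cast at b7; nlinarith
    calc 4 * (P.e0 / ell n ^ 2) ≤ 4 * (P.e0 / ((lg L : ℝ) / 3) ^ 2) := by gcongr
      _ = _ := by field_simp; ring
  have a2 : (S.card : ℝ) ≤ P.Cb * (P.h (lg L) / k) / lg L := by
    refine le_trans ?_ (H.bt L hL hj k hk hk')
    refine Nat.cast_le.2 (Finset.card_le_card (fun n hn => ?_))
    obtain ⟨b0, b1, b2, -⟩ := Finset.mem_filter.1 hn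
    exact Finset.mem_filter.2 ⟨b0, b1, b2⟩
  rw [nsmul_eq_mul] at a1
  calc _ ≤ _ := a1
    _ ≤ P.Cb * (P.h (lg L) / k) / lg L * (36 * P.e0 / (lg L : ℝ) ^ 2) :=
        mul_le_mul_of_nonneg_right a2 (by positivity)
    _ = _ := by unfold N; field_simp

end Par

end Pool.Agent.H59.MO
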