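import Mathlib
import Pool.Agent.H59.MO3

/-! The total disturbance of a cell, the capacities and the fixed point. -/

set_option autoImplicit false

namespace Pool.Agent.H59.MO

open Finset Filter Topology

lemma sum_div_reindex (s : Finset ℕ) (M k : ℕ) (hk : 0 < k) (hs : ∀ n ∈ s, n < M)
    (R : ℕ → Prop) [DecidablePred R] (F : ℕ → ℝ) :
    ∑ n ∈ s, (if k ∣ n ∧ R (n / k) then F (n / k) else 0) =
      ∑ m ∈ (range M).filter (fun m => k * m ∈ s ∧ R m), F m := by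
  rw [← Finset.sum_filter]
  refine Finset.sum_bij (fun n _ => n / k) ?_ ?_ ?_ (fun _ _ => rfl)
  · intro n hn
    obtain ⟨h1, h2, h3⟩ := Finset.mem_filter.1 hn
    refine Finset.mem_filter.2 ⟨mem_range.2 (lt_of_le_of_lt (Nat.div_le_self _ _) (hs n h1)), ?_, h3⟩
    rwa [Nat.mul_div_cancel' h2]
  · intro a ha b hb hab
    rw [← Nat.mul_div_cancel' (Finset.mem_filter.1 ha).2.1,
      ← Nat.mul_div_cancel' (Finset.mem_filter.1 hb).2.1, hab]
  · intro m hm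
    obtain ⟨-, h2, h3⟩ := Finset.mem_filter.1 hm
    have e : k * m / k = m := Nat.mul_div_cancel_left m hk
    exact ⟨k * m, Finset.mem_filter.2 ⟨h2, Dvd.intro _ rfl, by rwa [e]⟩, e⟩

namespace Par

/-- The uncontrolled elements of a cell. -/
noncomputable def D (P : Par) (L : ℕ) : Finset ℕ := P.cell L \ (P.np L ∪ P.Q L)

variable {P : Par} (H : P.Hyp)
include H

omit H in
lemma cell_ne {L n : ℕ} (hL : P.IsCell L) (hn : n ∈ P.cell L) : n ≠ 0 := by
  have := (mem_Ico.1 hn).1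
  have := hL.1
  omega

open Classical in
lemma pointwise {L : ℕ} (hL : P.IsCell L) (hj : P.j0 ≤ lg L) {n : ℕ} (hn : n ∈ P.D L) :
    cm P.G n ≤
      (∑ k ∈ Icc 2 (P.t (lg L) ^ 4), cm P.G k *
        (if k ∣ n ∧ ∃ p, P.Raw (n / k) p then cm P.G (n / k) else 0)) +
      (∑ k ∈ Icc 2 (P.t (lg L) ^ 4), cm P.G k *
        (if k ∣ n ∧ (n / k).Prime ∧ ¬ P.PP (n / k) then cm P.G (n / k) else 0)) +
      (∑ d ∈ Icc 1 (P.h (lg L)), if d ∣ n then cm P.G d / ell (P.t (lg L)) ^ 4 else 0) +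
      (if P.Cnt n then ((2 : ℝ) ^ (lg L + 1)) ^ P.ω else 0) := by
  obtain ⟨h1, h2⟩ := Finset.mem_sdiff.1 hn
  rw [Finset.mem_union, not_or] at h2
  have hn0 := cell_ne hL h1
  obtain ⟨hb1, hb2⟩ := cell_bounds H.hdiv hL h1
  have hlg := cell_lg H.hdiv hL h1
  have t2 := H.ht2 _ hj
  have fA : ∀ k ∈ Icc 2 (P.t (lg L) ^ 4), 0 ≤ cm P.G k *
      (if k ∣ n ∧ ∃ p, P.Raw (n / k) p then cm P.G (n / k) else 0) := by
    intro k hk
    refine mul_nonneg (cmG_nonneg H k (by have := (mem_Icc.1 hk).1; omega)) ?_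
    split_ifs with h
    · obtain ⟨-, p, hp⟩ := h
      exact cmG_nonneg H _ (raw_ne H hp)
    · exact le_rfl
  have fB : ∀ k ∈ Icc 2 (P.t (lg L) ^ 4), 0 ≤ cm P.G k *
      (if k ∣ n ∧ (n / k).Prime ∧ ¬ P.PP (n / k) then cm P.G (n / k) else 0) := by
    intro k hk
    refine mul_nonneg (cmG_nonneg H k (by have := (mem_Icc.1 hk).1; omega)) ?_
    split_ifs with h
    · exact cmG_nonneg H _ h.2.1.ne_zero
    · exact le_rfl
  have fC : ∀ d ∈ Icc 1 (P.h (lg L)),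
      0 ≤ if d ∣ n then cm P.G d / ell (P.t (lg L)) ^ 4 else 0 := by
    intro d hd
    have := cmG_nonneg H d (by have := (mem_Icc.1 hd).1; omega)
    split_ifs <;> positivity
  have sA := Finset.sum_nonneg fA
  have sB := Finset.sum_nonneg fB
  have sC := Finset.sum_nonneg fC
  by_cases hc : P.Cnt n
  · rw [if_pos hc]
    have a1 := cmG_le H n hn0
    have a2 : (n : ℝ) ^ P.ω ≤ ((2 : ℝ) ^ (lg L + 1)) ^ P.ω :=
      Real.rpow_le_rpow (by positivity) (by exact_mod_cast hb2.le) H.hω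
    linarith
  rw [if_neg hc, add_zero]
  have h5 : P.t (lg L) ^ 5 ≤ n := by
    have := H.ht8 _ hj
    have : P.t (lg L) ^ 5 ≤ P.t (lg L) ^ 8 := Nat.pow_le_pow_right (by omega) (by norm_num)
    omega
  rcases trichotomy P.PP _ _ n t2 (H.hth _ hj) h5 with
    ⟨k, p, hp, hpp, hkp, hk⟩ | ⟨d, hd⟩ | ⟨q, hq, ⟨n0, hq1⟩, hq2, hq3⟩ | ⟨d, a, b, hd, h3, h4, h6, h7⟩
  · have hk0 : k ≠ 0 := by rintro rfl; omega
    have hk1 : k ≠ 1 := by
      rintro rfl
      rw [one_mul] at hkp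
      exact h2.1 (Finset.mem_filter.2 ⟨h1, hkp ▸ hp, hkp ▸ hpp⟩)
    have e : n / k = p := by rw [hkp]; exact Nat.mul_div_cancel_left p (by omega)
    have := Finset.single_le_sum fB (mem_Icc.2 ⟨by omega, hk⟩ : k ∈ Icc 2 (P.t (lg L) ^ 4))
    rw [if_pos ⟨Dvd.intro _ hkp.symm, e ▸ hp, e ▸ hpp⟩, e, ← cm_mul _ hk0 hp.ne_zero,
      ← hkp] at this
    linarith
  · exact absurd (Or.inr ⟨d, by rw [hlg]; exact hd⟩) hc
  · have : ∃ k : ℕ, k ≤ P.t (lg n) ^ 4 ∧ n = k * n0 := by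
      by_contra hne
      exact hc (Or.inl ⟨n0, q, hq1, hq2, by rw [hlg]; exact hq3, hne⟩)
    obtain ⟨k, hk, hkn⟩ := this
    rw [hlg] at hk
    have hk0 : k ≠ 0 := by rintro rfl; omega
    have hk1 : k ≠ 1 := by
      rintro rfl
      rw [one_mul] at hkn
      exact h2.2 (Finset.mem_filter.2 ⟨h1, ⟨q, hkn ▸ hq1⟩, hc⟩)
    have e : n / k = n0 := by rw [hkn]; exact Nat.mul_div_cancel_left n0 (by omega)
    have := Finset.single_le_sum fA (mem_Icc.2 ⟨by omega, hk⟩ : k ∈ Icc 2 (P.t (lg L) ^ 4))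
    rw [if_pos ⟨Dvd.intro _ hkn.symm, q, e ▸ hq1⟩, e, ← cm_mul _ hk0 (raw_ne H hq1),
      ← hkn] at this
    linarith
  · have hd0 : d ≠ 0 := by rintro rfl; omega
    have ha0 : a ≠ 0 := by omega
    have hb0 : b ≠ 0 := by omega
    have := Finset.single_le_sum fC
      (mem_Icc.2 ⟨Nat.pos_of_ne_zero hd0, h3⟩ : d ∈ Icc 1 (P.h (lg L)))
    rw [if_pos (Dvd.intro _ hd.symm)] at this
    have a1 := normal_G H a ha0 (fun q hq hqa => h7 q hq (hqa.mul_right b))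
    have a2 := normal_G H b hb0 (fun q hq hqa => h7 q hq (hqa.mul_left a))
    have a3 := ell_mono (by omega) h4
    have a4 := ell_mono (by omega) h6
    have a5 := one_le_ell (P.t (lg L))
    have a6 : 1 / ell a ^ 2 ≤ 1 / ell (P.t (lg L)) ^ 2 := by gcongr
    have a7 : 1 / ell b ^ 2 ≤ 1 / ell (P.t (lg L)) ^ 2 := by gcongr
    have a8 : cm P.G a * cm P.G b ≤ 1 / ell (P.t (lg L)) ^ 2 * (1 / ell (P.t (lg L)) ^ 2) :=
      mul_le_mul (a1.trans a6) (a2.trans a7) (cmG_nonneg H b hb0) (by positivity)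
    have a9 : cm P.G n ≤ cm P.G d / ell (P.t (lg L)) ^ 4 := by
      rw [hd, cm_mul _ hd0 (mul_ne_zero ha0 hb0), cm_mul _ ha0 hb0]
      refine (mul_le_mul_of_nonneg_left a8 (cmG_nonneg H d hd0)).trans_eq ?_
      field_simp
    linarith

lemma mass {L : ℕ} (hL : P.IsCell L) (hj : P.j0 ≤ lg L) :
    ∑ n ∈ P.D L, cm P.G n ≤ P.e1 / 16000 / 16 * P.N (lg L) := by
  classical
  have hN := N_pos H hj
  have he := H.he0
  have hcell : ∀ n ∈ P.cell L, n < L + P.h (lg L) := fun n hn => (mem_Ico.1 hn).2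
  have hsub : P.D L ⊆ P.cell L := Finset.sdiff_subset
  have Gk : ∀ k ∈ Icc 2 (P.t (lg L) ^ 4), 0 ≤ cm P.G k := fun k hk =>
    cmG_nonneg H k (by have := (mem_Icc.1 hk).1; omega)
  refine (Finset.sum_le_sum (fun n hn => pointwise H hL hj hn)).trans ?_
  rw [Finset.sum_add_distrib, Finset.sum_add_distrib, Finset.sum_add_distrib]
  have gen : ∀ (R : ℕ → Prop) (K : ℝ), (∀ m, R m → m ≠ 0) → 0 ≤ K →
      (∀ k, 2 ≤ k → k ≤ P.t (lg L) ^ 4 →
        ∑ n ∈ (range (L + P.h (lg L))).filter (fun n => k * n ∈ P.cell L ∧ R n), cm P.G n ≤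
          K / k) →
      ∑ n ∈ P.D L, ∑ k ∈ Icc 2 (P.t (lg L) ^ 4), cm P.G k *
        (if k ∣ n ∧ R (n / k) then cm P.G (n / k) else 0) ≤ 10 * P.e0 * K := by
    intro R K hR hK h
    rw [Finset.sum_comm]
    have : ∀ k ∈ Icc 2 (P.t (lg L) ^ 4), ∑ n ∈ P.D L, cm P.G k *
        (if k ∣ n ∧ R (n / k) then cm P.G (n / k) else 0) ≤ cm P.G k / k * K := by
      intro k hk
      obtain ⟨k1, k2⟩ := mem_Icc.1 hk
      rw [← Finset.mul_sum]
      have a1 : ∑ n ∈ P.D L, (if k ∣ n ∧ R (n / k) then cm P.G (n / k) else 0) ≤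
          ∑ n ∈ P.cell L, (if k ∣ n ∧ R (n / k) then cm P.G (n / k) else 0) := by
        refine Finset.sum_le_sum_of_subset_of_nonneg hsub (fun n _ _ => ?_)
        split_ifs with h
        · exact cmG_nonneg H _ (hR _ h.2)
        · exact le_rfl
      rw [sum_div_reindex _ _ k (by omega) hcell] at a1
      have a2 := mul_le_mul_of_nonneg_left (a1.trans (h k k1 k2)) (Gk k hk)
      refine a2.trans_eq (by ring)
    refine (Finset.sum_le_sum this).trans ?_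
    rw [← Finset.sum_mul]
    exact mul_le_mul_of_nonneg_right (sumG2 H _) hK
  have hCb := H.hCb
  have bA := gen (fun m => ∃ p, P.Raw m p) (2592 * 4 ^ P.r0 * P.N (lg L))
    (fun m ⟨p, hp⟩ => raw_ne H hp) (by positivity) (fun k k1 k2 => by
      convert sumA H hL hj k1 k2)
  have bB := gen (fun m => m.Prime ∧ ¬ P.PP m) (36 * P.Cb * P.N (lg L))
    (fun m hm => hm.1.ne_zero) (by positivity) (fun k k1 k2 => by
      convert sumB H hL hj k1 k2)
  have bC : ∑ n ∈ P.D L, ∑ d ∈ Icc 1 (P.h (lg L)),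
      (if d ∣ n then cm P.G d / ell (P.t (lg L)) ^ 4 else 0) ≤
        4 * P.h (lg L) / ell (P.t (lg L)) ^ 4 := by
    rw [Finset.sum_comm]
    have a5 := one_le_ell (P.t (lg L))
    have : ∀ d ∈ Icc 1 (P.h (lg L)), ∑ n ∈ P.D L,
        (if d ∣ n then cm P.G d / ell (P.t (lg L)) ^ 4 else 0) ≤
          cm P.G d / d * (2 * P.h (lg L) / ell (P.t (lg L)) ^ 4) := by
      intro d hd
      obtain ⟨d1, d2⟩ := mem_Icc.1 hd
      have a0 := cmG_nonneg H d (by omega)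
      rw [← Finset.sum_filter, Finset.sum_const, nsmul_eq_mul]
      have a1 : (((P.D L).filter (fun n => d ∣ n)).card : ℝ) ≤ 2 * P.h (lg L) / d :=
        le_trans (Nat.cast_le.2 (Finset.card_le_card (Finset.filter_subset_filter _ hsub)))
          (cnt_le L _ d hL.1 d1 d2)
      refine (mul_le_mul_of_nonneg_right a1 (by positivity)).trans_eq (by ring)
    refine (Finset.sum_le_sum this).trans ?_
    rw [← Finset.sum_mul]
    refine (mul_le_mul_of_nonneg_right (sumG1 H _) (by positivity)).trans_eq (by ring)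
  have bD : ∑ n ∈ P.D L, (if P.Cnt n then ((2 : ℝ) ^ (lg L + 1)) ^ P.ω else 0) ≤
      ((2 : ℝ) ^ (lg L + 1)) ^ P.ω * P.η (lg L) := by
    rw [← Finset.sum_filter, Finset.sum_const, nsmul_eq_mul, mul_comm]
    refine mul_le_mul_of_nonneg_left (le_trans ?_ (H.cnt L hL hj)) (by positivity)
    exact Nat.cast_le.2 (Finset.card_le_card (Finset.filter_subset_filter _ hsub))
  have s1 := mul_le_mul_of_nonneg_right H.small hN.le
  have s2 := H.E2 _ hj
  have s3 := H.E3 _ hj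
  have bA' : (∑ n ∈ P.D L, ∑ k ∈ Icc 2 (P.t (lg L) ^ 4), cm P.G k *
        (if k ∣ n ∧ ∃ p, P.Raw (n / k) p then cm P.G (n / k) else 0)) ≤
        10 * P.e0 * (2592 * 4 ^ P.r0 * P.N (lg L)) := by convert bA
  have bB' : (∑ n ∈ P.D L, ∑ k ∈ Icc 2 (P.t (lg L) ^ 4), cm P.G k *
        (if k ∣ n ∧ (n / k).Prime ∧ ¬ P.PP (n / k) then cm P.G (n / k) else 0)) ≤
        10 * P.e0 * (36 * P.Cb * P.N (lg L)) := by convert bB
  linarith

lemma rpow_cell {L n : ℕ} (hL : P.IsCell L) (hn : n ∈ P.cell L) :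
    ((2 : ℝ) ^ (lg L + 1)) ^ (-P.β) ≤ (n : ℝ) ^ (-P.β) ∧
      (n : ℝ) ^ (-P.β) ≤ ((2 : ℝ) ^ lg L) ^ (-P.β) := by
  obtain ⟨h1, h2⟩ := cell_bounds H.hdiv hL hn
  have hβ := H.hβ
  have : (0 : ℝ) < n := by exact_mod_cast Nat.pos_of_ne_zero (cell_ne hL hn)
  exact ⟨Real.rpow_le_rpow_of_nonpos this (by exact_mod_cast h2.le) (by linarith),
    Real.rpow_le_rpow_of_nonpos (by positivity) (by exact_mod_cast h1) (by linarith)⟩

lemma rpow_two (j : ℕ) : ((2 : ℝ) ^ j) ^ (-P.β) ≤ 2 * ((2 : ℝ) ^ (j + 1)) ^ (-P.β) := by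
  rw [pow_succ, Real.mul_rpow (by positivity) (by norm_num)]
  have h1 : (2 : ℝ) ^ (-(1 : ℝ)) ≤ (2 : ℝ) ^ (-P.β) :=
    Real.rpow_le_rpow_of_exponent_le (by norm_num) (by linarith [H.hβ'])
  rw [Real.rpow_neg_one] at h1
  have h2 : 0 ≤ ((2 : ℝ) ^ j) ^ (-P.β) := by positivity
  nlinarith

lemma np_card {L : ℕ} (hL : P.IsCell L) (hj : P.j0 ≤ lg L) (hB : ¬ P.B L) :
    (P.h (lg L) : ℝ) / (4000 * lg L) ≤ (P.np L).card := by
  classical
  have a1 := H.good L hL hj hB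
  have a2 := H.cnt L hL hj
  have a3 := H.E4 _ hj
  have : ((P.cell L).filter Nat.Prime).card ≤
      (P.np L).card + ((P.cell L).filter P.Cnt).card := by
    refine le_trans (Finset.card_le_card ?_) (Finset.card_union_le _ _)
    intro n hn
    obtain ⟨h3, h4⟩ := Finset.mem_filter.1 hn
    by_cases h5 : P.PP n
    · refine Finset.mem_union_right _ (Finset.mem_filter.2 ⟨h3, Or.inl ?_⟩)
      obtain ⟨n0, h5⟩ := h5
      have b1 := (cell_bounds H.hdiv hL h3).1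
      have b2 := H.hh2 _ hj
      have b3 := (H.hdiv (lg L)).1
      refine ⟨n0, n, h5, dvd_rfl, by rw [cell_lg H.hdiv hL h3]; omega, ?_⟩
      rintro ⟨k, -, hk⟩
      have b4 : n0 = n := Nat.dvd_antisymm (Dvd.intro_left _ hk.symm) h5.2.2.2.1
      have := h5.1
      rw [b4, cell_base H.hdiv hL h3] at this
      exact hB this
    · exact Finset.mem_union_left _ (Finset.mem_filter.2 ⟨h3, h4, h5⟩)
  have : (((P.cell L).filter Nat.Prime).card : ℝ) ≤
      (P.np L).card + ((P.cell L).filter P.Cnt).card := by exact_mod_cast this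
  have e : (P.h (lg L) : ℝ) / (2000 * lg L) =
      (P.h (lg L) : ℝ) / (4000 * lg L) + (P.h (lg L) : ℝ) / (4000 * lg L) := by ring
  linarith

lemma cap {L : ℕ} (hL : P.IsCell L) (hj : P.j0 ≤ lg L) :
    P.e1 / 16000 * P.N (lg L) * ((2 : ℝ) ^ (lg L + 1)) ^ (-P.β) ≤ P.C L := by
  classical
  have hN := N_pos H hj
  have he := H.he0
  have he1 := H.he1
  have he2 := e1_le H
  have hx : 0 < ((2 : ℝ) ^ (lg L + 1)) ^ (-P.β) := by positivity
  unfold C
  rw [if_pos ⟨hL, hj⟩]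
  split_ifs with hB
  · have a1 : (P.Q L).card • ((2 : ℝ) ^ (lg L + 1)) ^ (-P.β) ≤ ∑ n ∈ P.Q L, (n : ℝ) ^ (-P.β) :=
      Finset.card_nsmul_le_sum _ _ _ (fun n hn => (rpow_cell H hL (Finset.mem_filter.1 hn).1).1)
    rw [nsmul_eq_mul] at a1
    have a2 := Q_pos H hB
    refine le_trans ?_ (mul_le_mul_of_nonneg_left a1 (mu_pos H hB).le)
    have e : P.mu L * ((P.Q L).card * ((2 : ℝ) ^ (lg L + 1)) ^ (-P.β)) =
        P.N (lg L) * ((2 : ℝ) ^ (lg L + 1)) ^ (-P.β) := by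
      unfold mu; field_simp
    rw [e]
    refine mul_le_mul_of_nonneg_right ?_ hx.le
    nlinarith
  · have hj6 := H.hj0
    have hjL : (6 : ℝ) ≤ lg L := by exact_mod_cast (by omega : 6 ≤ lg L)
    have a1 : (P.np L).card • (P.e0 / (4 * (lg L : ℝ) ^ 2) * ((2 : ℝ) ^ (lg L + 1)) ^ (-P.β)) ≤
        ∑ p ∈ P.np L, P.c p * (p : ℝ) ^ (-P.β) := by
      refine Finset.card_nsmul_le_sum _ _ _ (fun n hn => ?_)
      have b1 := (Finset.mem_filter.1 hn).1
      have b2 := ell_le (cell_ne hL b1) (cell_bounds H.hdiv hL b1).2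
      have b3 := one_le_ell n
      refine mul_le_mul ?_ (rpow_cell H hL b1).1 hx.le (c_pos H n).le
      unfold c
      exact div_le_div_of_nonneg_left he.le (by positivity) (by nlinarith)
    rw [nsmul_eq_mul] at a1
    refine le_trans ?_ (mul_le_mul_of_nonneg_left a1 he1.le)
    have a2 := mul_le_mul_of_nonneg_right (np_card H hL hj hB)
      (by positivity : 0 ≤ P.e0 / (4 * (lg L : ℝ) ^ 2) * ((2 : ℝ) ^ (lg L + 1)) ^ (-P.β))
    refine le_trans (le_of_eq ?_) (mul_le_mul_of_nonneg_left a2 he1.le)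
    unfold N; field_simp; ring

lemma C_pos (L : ℕ) : 0 < P.C L := by
  by_cases h : P.IsCell L ∧ P.j0 ≤ lg L
  · have hN := N_pos H h.2
    have := H.he1
    exact lt_of_lt_of_le (by positivity) (cap H h.1 h.2)
  · unfold C; rw [if_neg h]; exact one_pos

end Par

end Pool.Agent.H59.MO
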