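import Mathlib
import Pool.Agent.H59.MO4

/-! The fixed point and the resulting completely multiplicative function. -/

set_option autoImplicit false

namespace Pool.Agent.H59.MO

open Finset Filter Topology

lemma len_pm {p n : ℕ} (hp : p.Prime) (hn : n ≠ 0) :
    (p * n).primeFactorsList.length = n.primeFactorsList.length + 1 := by
  rw [(Nat.perm_primeFactorsList_mul hp.ne_zero hn).length_eq, Nat.primeFactorsList_prime hp]
  simp

lemma cm_near (a b : ℕ → ℝ) (e D : ℝ) (he : 0 ≤ e) (hD : 0 ≤ D) (m : ℕ) (hm : m ≠ 0)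
    (ha : ∀ q : ℕ, q.Prime → q ∣ m → |a q - 1| ≤ e ∧ |b q - 1| ≤ e ∧ |a q - b q| ≤ e * D) :
    |cm a m - 1| ≤ (1 + e) ^ m.primeFactorsList.length - 1 ∧
    |cm a m - cm b m| ≤ m.primeFactorsList.length * e * (1 + e) ^ m.primeFactorsList.length * D := by
  revert ha
  refine prime_ind (P := fun m => (∀ q : ℕ, q.Prime → q ∣ m →
      |a q - 1| ≤ e ∧ |b q - 1| ≤ e ∧ |a q - b q| ≤ e * D) →
    |cm a m - 1| ≤ (1 + e) ^ m.primeFactorsList.length - 1 ∧
    |cm a m - cm b m| ≤ m.primeFactorsList.length * e *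
      (1 + e) ^ m.primeFactorsList.length * D) (by simp [cm_one]) ?_ m hm
  intro p n hp hn ih h
  obtain ⟨i1, i2⟩ := ih (fun q hq hd => h q hq (hd.mul_left p))
  obtain ⟨h1, h2, h3⟩ := h p hp (Dvd.intro _ rfl)
  rw [cm_pm _ hp hn, cm_pm _ hp hn, len_pm hp hn, pow_succ]
  set r := n.primeFactorsList.length
  set x := (1 + e) ^ r with hx
  have x1 : 1 ≤ x := one_le_pow₀ (by linarith)
  have r0 : (0 : ℝ) ≤ r := Nat.cast_nonneg _
  have a1 : |cm a n| ≤ x := by
    have := abs_add_le (cm a n - 1) 1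
    rw [sub_add_cancel, abs_one] at this; linarith
  have a2 : |b p| ≤ 1 + e := by
    have := abs_add_le (b p - 1) 1
    rw [sub_add_cancel, abs_one] at this; linarith
  constructor
  · have e1 : a p * cm a n - 1 = (a p - 1) * cm a n + (cm a n - 1) := by ring
    rw [e1]
    refine (abs_add_le _ _).trans ?_
    rw [abs_mul]
    have := mul_le_mul h1 a1 (abs_nonneg _) he
    linarith
  · have e1 : a p * cm a n - b p * cm b n = (a p - b p) * cm a n + b p * (cm a n - cm b n) := by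
      ring
    rw [e1]
    refine (abs_add_le _ _).trans ?_
    rw [abs_mul, abs_mul]
    have c1 := mul_le_mul h3 a1 (abs_nonneg _) (by positivity)
    have c2 := mul_le_mul a2 i2 (abs_nonneg _) (by positivity)
    have c3 : 0 ≤ e * D * x * e := by positivity
    push_cast
    nlinarith

lemma pow_near (e : ℝ) (r : ℕ) (he : 0 ≤ e) (h : r * e ≤ 1 / 16) : (1 + e) ^ r ≤ 16 / 15 := by
  have h1 : (1 + e) ^ r ≤ Real.exp e ^ r :=
    pow_le_pow_left₀ (by linarith) (by linarith [Real.add_one_le_exp e]) r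
  rw [← Real.exp_nat_mul] at h1
  have h2 := Real.exp_le_exp.2 h
  have h3 := Real.add_one_le_exp (-(1 / 16))
  have h4 : Real.exp (1 / 16) * Real.exp (-(1 / 16)) = 1 := by rw [← Real.exp_add]; simp
  have h5 := Real.exp_pos (1 / 16)
  nlinarith

namespace Par

/-- The relative value at a prime. -/
noncomputable def rho (P : Par) (w : ℕ → ℝ) (q : ℕ) : ℝ := P.s q * P.g w q / P.c q

variable {P : Par} (H : P.Hyp)
include H

lemma g_rho (w : ℕ → ℝ) (m : ℕ) (hm : m ≠ 0) :
    cm (P.g w) m = cm P.s m * cm P.c m * cm (P.rho w) m := by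
  rw [← cm_mul_fun _ _ m hm, ← cm_mul_fun _ _ m hm]
  congr 1
  ext q
  have := (c_pos H q).ne'
  unfold rho
  rcases s_sign H q with h | h <;> rw [h] <;> field_simp

open Classical in
lemma rho_eq (w : ℕ → ℝ) (q : ℕ) (hq : ¬ P.PP q) : P.rho w q = 1 + P.s q *
    (if P.j0 ≤ lg q ∧ ¬ P.B (P.base q) then P.e1 * w (P.base q) else 0) := by
  have := (c_pos H q).ne'
  unfold rho g
  rw [if_neg hq]
  rcases s_sign H q with h | h
  · rw [h]; field_simp
  · rw [h]; field_simp; ring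

lemma f_Q (w : ℕ → ℝ) {L n : ℕ} (hL : P.IsCell L) (hn : n ∈ P.Q L) :
    ∃ p, P.Raw n p ∧ ¬ P.Cnt n ∧
      P.f w n = P.mu L * w L * cm (P.rho w) (n / p) * (n : ℝ) ^ (-P.β) := by
  classical
  obtain ⟨h1, ⟨p, h2⟩, h3⟩ := Finset.mem_filter.1 hn
  refine ⟨p, h2, h3, ?_⟩
  have hm := raw_cof_ne H h2
  have e : cm (P.g w) n = P.g w p * cm (P.g w) (n / p) := by
    conv_lhs => rw [← Nat.mul_div_cancel' h2.2.2.2.1]
    rw [cm_pm _ h2.2.2.1 hm]
  have hPP : P.PP p := ⟨n, h2⟩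
  unfold f
  rw [e, g_rho H w _ hm]
  congr 1
  unfold g
  rw [if_pos hPP, b_clean H h2 h3, own_eq H h2 h3, cell_base H.hdiv hL h1]
  have a1 := cm_s_sq H _ hm
  have a2 := (cm_c_pos H _ hm).ne'
  calc _ = (cm P.s (n / p) * cm P.s (n / p)) * (P.mu L * w L * cm (P.rho w) (n / p)) := by
        field_simp
    _ = _ := by rw [a1, one_mul]

open Classical in
lemma f_np (w : ℕ → ℝ) {L n : ℕ} (hL : P.IsCell L) (hj : P.j0 ≤ lg L) (hn : n ∈ P.np L) :
    P.f w n = P.sg L n * (P.c n * (n : ℝ) ^ (-P.β)) +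
      (if P.B L then 0 else P.e1 * (P.c n * (n : ℝ) ^ (-P.β)) * w L) := by
  obtain ⟨h1, h2, h3⟩ := Finset.mem_filter.1 hn
  unfold f
  rw [cm_prime _ h2]
  unfold g s
  rw [if_neg h3, cell_base H.hdiv hL h1, cell_lg H.hdiv hL h1]
  by_cases hB : P.B L
  · rw [if_neg (fun h => h.2 hB), if_pos hB]; ring
  · rw [if_pos ⟨hj, hB⟩, if_neg hB]; ring

lemma Q_empty {L : ℕ} (hL : P.IsCell L) (hB : ¬ P.B L) : P.Q L = ∅ := by
  classical
  refine Finset.filter_eq_empty_iff.2 (fun n hn hc => hB ?_)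
  obtain ⟨⟨p, h⟩, -⟩ := hc
  rw [← cell_base H.hdiv hL hn]; exact h.1

omit H in
lemma split_cell (F : ℕ → ℝ) (L : ℕ) :
    ∑ n ∈ P.cell L, F n = ∑ n ∈ P.np L, F n + ∑ n ∈ P.Q L, F n + ∑ n ∈ P.D L, F n := by
  classical
  have hsub : P.np L ∪ P.Q L ⊆ P.cell L :=
    Finset.union_subset (Finset.filter_subset _ _) (Finset.filter_subset _ _)
  rw [← Finset.sum_sdiff hsub, Finset.sum_union]
  · unfold D; ring
  · rw [Finset.disjoint_left]
    intro n h1 h2
    obtain ⟨-, h3, h4⟩ := Finset.mem_filter.1 h1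
    obtain ⟨-, ⟨p, h5⟩, -⟩ := Finset.mem_filter.1 h2
    have := (Nat.prime_dvd_prime_iff_eq h5.2.2.1 h3).1 h5.2.2.2.1
    exact h4 ⟨n, this ▸ h5⟩

lemma f_abs (w : ℕ → ℝ) (hw : ∀ i, |w i| ≤ 1) (n : ℕ) (hn : n ≠ 0) :
    |P.f w n| ≤ cm P.G n * (n : ℝ) ^ (-P.β) := by
  unfold f
  rw [abs_mul, abs_of_nonneg (by positivity : 0 ≤ (n : ℝ) ^ (-P.β))]
  refine mul_le_mul_of_nonneg_right (cm_abs_le _ _ n hn (fun p _ _ => ?_)) (by positivity)
  have := g_le H w hw p
  have := abs_nonneg (P.g w p)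
  linarith

lemma f_lip (w w' : ℕ → ℝ) (hw : ∀ i, |w i| ≤ 1) (hw' : ∀ i, |w' i| ≤ 1) (D : ℝ) (hD : 0 ≤ D)
    (hd : ∀ i, |w i - w' i| ≤ D) (n : ℕ) (hn : n ≠ 0) :
    |P.f w n - P.f w' n| ≤ cm P.G n * (n : ℝ) ^ (-P.β) * D := by
  unfold f
  rw [← sub_mul, abs_mul, abs_of_nonneg (by positivity : 0 ≤ (n : ℝ) ^ (-P.β))]
  have := cm_lip _ _ _ D hD (fun p _ => g_le H w hw p) (fun p _ => g_le H w' hw' p)
    (fun p _ => g_lip H w w' D hD hd p) n hn
  refine (mul_le_mul_of_nonneg_right this (by positivity)).trans_eq (by ring)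

lemma partD {L : ℕ} (hL : P.IsCell L) (hj : P.j0 ≤ lg L) (F : ℕ → ℝ) (D : ℝ) (hD : 0 ≤ D)
    (hF : ∀ n, n ≠ 0 → |F n| ≤ cm P.G n * (n : ℝ) ^ (-P.β) * D) :
    |∑ n ∈ P.D L, F n| ≤ P.C L / 8 * D := by
  refine (Finset.abs_sum_le_sum_abs _ _).trans ?_
  have hx : 0 < ((2 : ℝ) ^ (lg L + 1)) ^ (-P.β) := by positivity
  have a1 : ∑ n ∈ P.D L, |F n| ≤
      ∑ n ∈ P.D L, cm P.G n * (2 * ((2 : ℝ) ^ (lg L + 1)) ^ (-P.β) * D) := by
    refine Finset.sum_le_sum (fun n hn => ?_)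
    have h1 : n ∈ P.cell L := Finset.sdiff_subset hn
    have h0 := cell_ne hL h1
    refine (hF n h0).trans ?_
    rw [mul_assoc]
    exact mul_le_mul_of_nonneg_left (mul_le_mul_of_nonneg_right
      ((rpow_cell H hL h1).2.trans (rpow_two H _)) hD) (cmG_nonneg H n h0)
  rw [← Finset.sum_mul] at a1
  have a2 := mul_le_mul_of_nonneg_right (mass H hL hj)
    (by positivity : 0 ≤ 2 * ((2 : ℝ) ^ (lg L + 1)) ^ (-P.β) * D)
  have a3 := mul_le_mul_of_nonneg_right (cap H hL hj) hD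
  linarith

lemma partI {L : ℕ} (hL : P.IsCell L) (hj : P.j0 ≤ lg L) (F : ℕ → ℝ) (D : ℝ) (hD : 0 ≤ D)
    (hF : ∀ n, n ≠ 0 → |F n| ≤ cm P.G n * (n : ℝ) ^ (-P.β) * D) :
    |if lg L = 2 * P.j0 then
      (P.h (2 * P.j0) : ℝ) / 2 ^ (2 * P.j0) * ∑ n ∈ Ico 1 (2 ^ P.j0), F n else 0| ≤
      P.C L / 8 * D := by
  have hC := C_pos H L
  split_ifs with h
  · rw [abs_mul, abs_of_nonneg (by positivity : 0 ≤ (P.h (2 * P.j0) : ℝ) / 2 ^ (2 * P.j0))]
    have a1 : |∑ n ∈ Ico 1 (2 ^ P.j0), F n| ≤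
        (∑ n ∈ (Ico 1 (2 ^ P.j0) : Finset ℕ), (n : ℝ) ^ P.ω * (n : ℝ) ^ (-P.β)) * D := by
      refine (Finset.abs_sum_le_sum_abs _ _).trans ?_
      rw [Finset.sum_mul]
      refine Finset.sum_le_sum (fun n hn => ?_)
      have h0 : n ≠ 0 := by have := (mem_Ico.1 hn).1; omega
      refine (hF n h0).trans ?_
      exact mul_le_mul_of_nonneg_right
        (mul_le_mul_of_nonneg_right (cmG_le H n h0) (by positivity)) hD
    have a2 := mul_le_mul_of_nonneg_left a1
      (by positivity : 0 ≤ (P.h (2 * P.j0) : ℝ) / 2 ^ (2 * P.j0))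
    have a3 := mul_le_mul_of_nonneg_right H.E6 hD
    have a4 := mul_le_mul_of_nonneg_right (cap H hL hj) hD
    rw [h] at a4
    linarith
  · rw [abs_zero]; positivity

theorem exists_fix : ∃ w : ℕ → ℝ, (∀ i, |w i| ≤ 1) ∧ ∀ i, P.Φ w i = 0 := by
  classical
  refine fix P.Φ P.C (C_pos H) (fun L => ?_) (fun w w' hw hw' D hD hd L => ?_)
  · have hC := C_pos H L
    unfold Φ
    by_cases h : P.IsCell L ∧ P.j0 ≤ lg L
    swap
    · rw [if_neg h]; simp; linarith
    obtain ⟨hL, hj⟩ := h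
    rw [if_pos ⟨hL, hj⟩, split_cell]
    have hF : ∀ n, n ≠ 0 → |P.f 0 n| ≤ cm P.G n * (n : ℝ) ^ (-P.β) * 1 := fun n hn => by
      rw [mul_one]; exact f_abs H 0 (by simp) n hn
    have a1 := partD H hL hj _ 1 zero_le_one hF
    have a2 := partI H hL hj _ 1 zero_le_one hF
    have a3 : ∑ n ∈ P.Q L, P.f 0 n = 0 := Finset.sum_eq_zero (fun n hn => by
      obtain ⟨p, -, -, e⟩ := f_Q H 0 hL hn
      rw [e]; simp)
    have a4 : |∑ n ∈ P.np L, P.f 0 n| ≤ P.C L / 8 := by
      have e : ∑ n ∈ P.np L, P.f 0 n =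
          ∑ p ∈ P.np L, P.sg L p * (P.c p * (p : ℝ) ^ (-P.β)) :=
        Finset.sum_congr rfl (fun n hn => by rw [f_np H 0 hL hj hn]; simp)
      rw [e]
      have b1 := (sg_spec H L).2
      have b2 := rpow_two H (lg L)
      have b3 := cap H hL hj
      have b4 := mul_le_mul_of_nonneg_right (H.E5 _ hj)
        (by positivity : 0 ≤ ((2 : ℝ) ^ (lg L + 1)) ^ (-P.β))
      linarith
    rw [a3, add_zero]
    refine (abs_add_le _ _).trans ?_
    have := abs_add_le (∑ n ∈ P.np L, P.f 0 n) (∑ n ∈ P.D L, P.f 0 n)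
    linarith
  · have hC := C_pos H L
    by_cases h : P.IsCell L ∧ P.j0 ≤ lg L
    swap
    · unfold Φ C
      rw [if_neg h, if_neg h, if_neg h]; simp; linarith
    obtain ⟨hL, hj⟩ := h
    have hF := f_lip H w w' hw hw' D hD hd
    have a1 := partD H hL hj _ D hD hF
    have a2 := partI H hL hj _ D hD hF
    have a3 : |∑ n ∈ P.np L, (P.f w n - P.f w' n) + ∑ n ∈ P.Q L, (P.f w n - P.f w' n) -
        P.C L * (w L - w' L)| ≤ P.C L / 4 * D := by
      by_cases hB : P.B L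
      · have e1 : ∑ n ∈ P.np L, (P.f w n - P.f w' n) = 0 := Finset.sum_eq_zero (fun n hn => by
          rw [f_np H w hL hj hn, f_np H w' hL hj hn, if_pos hB, if_pos hB]; ring)
        have e2 : P.C L = ∑ n ∈ P.Q L, P.mu L * (n : ℝ) ^ (-P.β) := by
          unfold C; rw [if_pos ⟨hL, hj⟩, if_pos hB, Finset.mul_sum]
        rw [e1, zero_add, e2, Finset.sum_mul, ← Finset.sum_sub_distrib, Finset.sum_div,
          Finset.sum_mul]
        refine (Finset.abs_sum_le_sum_abs _ _).trans (Finset.sum_le_sum (fun n hn => ?_))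
        obtain ⟨p, h1, h2, e3⟩ := f_Q H w hL hn
        obtain ⟨p', h1', -, e4⟩ := f_Q H w' hL hn
        have := raw_unique H h1' h1
        subst this
        have he1 := H.he1
        obtain ⟨n1, n2⟩ := cm_near (P.rho w) (P.rho w') P.e1 D he1.le hD _ (raw_cof_ne H h1)
          (fun q _ hq => by
            have hq' := clean_cof H h1 h2 q hq
            rw [rho_eq H w q hq', rho_eq H w' q hq', add_sub_cancel_left, add_sub_cancel_left,
              add_sub_add_left_eq_sub, ← mul_sub, abs_mul, abs_mul, abs_mul, s_abs H, one_mul,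
              one_mul, one_mul]
            split_ifs
            · rw [← mul_sub, abs_mul, abs_mul, abs_mul, abs_of_pos he1]
              have := hw (P.base q)
              have := hw' (P.base q)
              have := hd (P.base q)
              refine ⟨by nlinarith, by nlinarith, by nlinarith⟩
            · simp; exact ⟨he1.le, by positivity⟩)
        have r1 : ((n / p').primeFactorsList.length : ℝ) * P.e1 ≤ 1 / 16 := by
          have : ((n / p').primeFactorsList.length : ℝ) ≤ P.r0 := by exact_mod_cast raw_len H h1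
          have := H.he1'
          nlinarith
        have r2 := pow_near _ _ he1.le r1
        have r3 : |cm (P.rho w) (n / p') - cm (P.rho w') (n / p')| ≤ 1 / 15 * D := by
          refine n2.trans (mul_le_mul_of_nonneg_right ?_ hD)
          have := mul_le_mul r1 r2 (by positivity) (by norm_num)
          linarith
        have e5 : P.f w n - P.f w' n - P.mu L * (n : ℝ) ^ (-P.β) * (w L - w' L) =
            P.mu L * (n : ℝ) ^ (-P.β) * ((w L - w' L) * (cm (P.rho w) (n / p') - 1) +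
              w' L * (cm (P.rho w) (n / p') - cm (P.rho w') (n / p'))) := by
          rw [e3, e4]; ring
        have hmu := mu_pos H hB
        have hx : 0 ≤ P.mu L * (n : ℝ) ^ (-P.β) := by positivity
        rw [e5, abs_mul, abs_of_nonneg hx]
        have r4 : |(w L - w' L) * (cm (P.rho w) (n / p') - 1) +
            w' L * (cm (P.rho w) (n / p') - cm (P.rho w') (n / p'))| ≤ 1 / 4 * D := by
          refine (abs_add_le _ _).trans ?_
          rw [abs_mul, abs_mul]
          have c1 := mul_le_mul (hd L) (show |cm (P.rho w) (n / p') - 1| ≤ 1 / 15 by linarith)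
            (abs_nonneg _) hD
          have c2 := mul_le_mul (hw' L) r3 (abs_nonneg _) zero_le_one
          linarith
        refine (mul_le_mul_of_nonneg_left r4 hx).trans_eq (by ring)
      · have e1 : ∑ n ∈ P.np L, (P.f w n - P.f w' n) = P.C L * (w L - w' L) := by
          unfold C
          rw [if_pos ⟨hL, hj⟩, if_neg hB, Finset.mul_sum, Finset.sum_mul]
          refine Finset.sum_congr rfl (fun n hn => ?_)
          rw [f_np H w hL hj hn, f_np H w' hL hj hn, if_neg hB, if_neg hB]; ring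
        rw [e1, Q_empty H hL hB]; simp; positivity
    have e : P.Φ w L - P.Φ w' L - P.C L * (w L - w' L) =
        (∑ n ∈ P.np L, (P.f w n - P.f w' n) + ∑ n ∈ P.Q L, (P.f w n - P.f w' n) -
          P.C L * (w L - w' L)) + ∑ n ∈ P.D L, (P.f w n - P.f w' n) +
        (if lg L = 2 * P.j0 then (P.h (2 * P.j0) : ℝ) / 2 ^ (2 * P.j0) *
          ∑ n ∈ Ico 1 (2 ^ P.j0), (P.f w n - P.f w' n) else 0) := by
      have hh : P.IsCell L ∧ P.j0 ≤ lg L := ⟨hL, hj⟩
      unfold Φ
      simp only [if_pos hh]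
      rw [split_cell (P.f w), split_cell (P.f w')]
      simp only [Finset.sum_sub_distrib]
      split_ifs <;> ring
    rw [e]
    refine (abs_add_le _ _).trans ?_
    have := abs_add_le (∑ n ∈ P.np L, (P.f w n - P.f w' n) + ∑ n ∈ P.Q L, (P.f w n - P.f w' n) -
          P.C L * (w L - w' L)) (∑ n ∈ P.D L, (P.f w n - P.f w' n))
    linarith

/-- The outcome of the construction. -/
theorem construct : ∃ F : ℕ → ℝ, F 1 = 1 ∧ (∀ m n : ℕ, m ≠ 0 → n ≠ 0 → F (m * n) = F m * F n) ∧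
    (∀ n : ℕ, n ≠ 0 → |F n| ≤ (n : ℝ) ^ P.ω * (n : ℝ) ^ (-P.β)) ∧
    ∀ x : ℕ, 2 * P.j0 < lg x → |∑ n ∈ Ico 1 x, F n| ≤
      P.h (lg x) * (((2 : ℝ) ^ (lg x + 1)) ^ P.ω * ((2 : ℝ) ^ lg x) ^ (-P.β)) := by
  classical
  obtain ⟨w, hw, hΦ⟩ := exists_fix H
  have hb : ∀ n : ℕ, n ≠ 0 → |P.f w n| ≤ (n : ℝ) ^ P.ω * (n : ℝ) ^ (-P.β) := fun n hn =>
    (f_abs H w hw n hn).trans (mul_le_mul_of_nonneg_right (cmG_le H n hn) (by positivity))
  refine ⟨P.f w, by simp [f, cm_one], fun m n hm hn => ?_, hb, ?_⟩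
  · unfold f
    rw [cm_mul _ hm hn, Nat.cast_mul, Real.mul_rpow (Nat.cast_nonneg _) (Nat.cast_nonneg _)]
    ring
  set I := ∑ n ∈ Ico 1 (2 ^ P.j0), P.f w n with hI
  set τ : ℕ → ℝ := fun j => if j = 2 * P.j0 then (P.h (2 * P.j0) : ℝ) / 2 ^ (2 * P.j0) * I else 0
    with hτ
  have inner : ∀ j, P.j0 ≤ j → ∀ i : ℕ, 2 ^ j + i * P.h j ≤ 2 ^ (j + 1) →
      ∑ n ∈ Ico (2 ^ j) (2 ^ j + i * P.h j), P.f w n = -(i * τ j) := by
    intro j hj i
    induction i with
    | zero => intro _; simp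
    | succ i ih =>
      intro hi
      obtain ⟨h0, hd⟩ := H.hdiv j
      have e1 : 2 ^ j + (i + 1) * P.h j = 2 ^ j + i * P.h j + P.h j := by ring
      rw [e1] at hi ⊢
      have hl : lg (2 ^ j + i * P.h j) = j := lg_eq (by omega) (by omega)
      have hL : P.IsCell (2 ^ j + i * P.h j) := by
        refine ⟨?_, ?_⟩
        · have := Nat.one_le_two_pow (n := j); omega
        · rw [hl]; exact Dvd.dvd.add hd (Dvd.intro_left _ rfl)
      have := hΦ (2 ^ j + i * P.h j)
      unfold Φ at this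
      rw [if_pos ⟨hL, by rw [hl]; exact hj⟩] at this
      unfold cell at this
      rw [hl] at this
      rw [← Finset.sum_Ico_consecutive _ (Nat.le_add_right _ _) (Nat.le_add_right _ _),
        ih (by omega)]
      simp only [hτ]
      push_cast
      linarith
  have outer : ∀ j, P.j0 ≤ j → ∑ n ∈ Ico 1 (2 ^ j), P.f w n = if j ≤ 2 * P.j0 then I else 0 := by
    intro j hj
    induction j, hj using Nat.le_induction with
    | base => rw [if_pos (by omega)]
    | succ j hj ih =>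
      obtain ⟨h0, b, hb⟩ := H.hdiv j
      have e1 : 2 ^ (j + 1) = 2 ^ j + b * P.h j := by rw [pow_succ]; nlinarith
      have := inner j hj b e1.ge
      rw [← e1] at this
      rw [← Finset.sum_Ico_consecutive _ (Nat.one_le_two_pow (n := j))
        (Nat.pow_le_pow_right (by norm_num) (Nat.le_succ j)), ih, this]
      simp only [hτ]
      by_cases h1 : j = 2 * P.j0
      · rw [if_pos h1.le, if_pos h1, if_neg (by omega), ← h1]
        have h2 : ((2 : ℝ) ^ j) = P.h j * b := by exact_mod_cast hb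
        have h3 : (0 : ℝ) < P.h j := by exact_mod_cast h0
        have h4 : (b : ℝ) ≠ 0 := by
          intro h5; rw [h5, mul_zero] at h2
          exact absurd h2 (by positivity)
        rw [h2]; field_simp; ring
      · rw [if_neg h1]
        by_cases h2 : j ≤ 2 * P.j0
        · rw [if_pos h2, if_pos (by omega)]; simp
        · rw [if_neg h2, if_neg (by omega)]; simp
  intro x hx
  have hx0 : x ≠ 0 := by rintro rfl; simp [lg] at hx
  obtain ⟨hL, hxL, hl⟩ := base_spec H.hdiv hx0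
  have hj : P.j0 ≤ lg x := by omega
  have b1 := lg_le (n := P.base x) (by have := hL.1; omega)
  have b2 := lt_lg (P.base x)
  rw [hl] at b1 b2
  obtain ⟨i, hi⟩ : P.h (lg x) ∣ P.base x - 2 ^ lg x :=
    Nat.dvd_sub (by have := hL.2; rwa [hl] at this) (H.hdiv _).2
  have e1 : P.base x = 2 ^ lg x + i * P.h (lg x) := by rw [mul_comm]; omega
  have z1 := inner _ hj i (by omega)
  have z2 := outer _ hj
  rw [if_neg (by omega)] at z2
  simp only [hτ] at z1
  rw [if_neg (by omega), ← e1] at z1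
  obtain ⟨c1, c2⟩ := mem_Ico.1 hxL
  rw [hl] at c2
  rw [← Finset.sum_Ico_consecutive _ hL.1 c1,
    ← Finset.sum_Ico_consecutive _ (Nat.one_le_two_pow (n := lg x)) b1, z1, z2]
  simp only [mul_zero, neg_zero, add_zero, zero_add]
  refine (Finset.abs_sum_le_sum_abs _ _).trans ?_
  have a1 : ∑ n ∈ Ico (P.base x) x, |P.f w n| ≤ (Ico (P.base x) x).card •
      (((2 : ℝ) ^ (lg x + 1)) ^ P.ω * ((2 : ℝ) ^ lg x) ^ (-P.β)) := by
    refine Finset.sum_le_card_nsmul _ _ _ (fun n hn => ?_)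
    have h1 : n ∈ P.cell (P.base x) := by
      unfold cell; rw [hl]
      exact mem_Ico.2 ⟨(mem_Ico.1 hn).1, by have := (mem_Ico.1 hn).2; omega⟩
    have h2 := (rpow_cell H hL h1).2
    have h3 := (cell_bounds H.hdiv hL h1).2
    rw [hl] at h2 h3
    refine (hb n (cell_ne hL h1)).trans (mul_le_mul ?_ h2 (by positivity) (by positivity))
    exact Real.rpow_le_rpow (by positivity) (by exact_mod_cast h3.le) H.hω
  rw [nsmul_eq_mul, Nat.card_Ico] at a1
  refine a1.trans (mul_le_mul_of_nonneg_right ?_ (by positivity))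
  exact_mod_cast (by omega : x - P.base x ≤ P.h (lg x))

end Par

end Pool.Agent.H59.MO
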