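import Mathlib
import Pool.Agent.H59.MO3
import Pool.Agent.H59.FracSum

/-! Counting the exceptional integers of a cell. -/

set_option autoImplicit false

namespace Pool.Agent.H59.MO

open Finset Filter

lemma frac_count (S : Finset (ℕ × ℕ)) (N : ℕ) (α w : ℝ) (hw : 0 ≤ w)
    (h : ∀ x ∈ S, Nat.Coprime x.1 x.2 ∧ 0 < x.2 ∧ x.2 ≤ N ∧ α ≤ (x.1 : ℝ) / x.2 ∧
      (x.1 : ℝ) / x.2 ≤ α + w) : (S.card : ℝ) ≤ N ^ 2 * w + 1 := by
  have h1 : S.card ≤ (range (⌊(N : ℝ) ^ 2 * w⌋₊ + 1)).card := by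
    refine Finset.card_le_card_of_injOn (fun x => ⌊(N : ℝ) ^ 2 * ((x.1 : ℝ) / x.2 - α)⌋₊)
      (fun x hx => ?_) ?_
    · obtain ⟨-, -, -, -, h2⟩ := h x hx
      refine mem_coe.2 (mem_range.2 (Nat.lt_succ_of_le (Nat.floor_le_floor ?_)))
      exact mul_le_mul_of_nonneg_left (by linarith) (by positivity)
    · have gap : ∀ x ∈ S, ∀ y ∈ S, x.1 * y.2 < y.1 * x.2 →
          ⌊(N : ℝ) ^ 2 * ((x.1 : ℝ) / x.2 - α)⌋₊ < ⌊(N : ℝ) ^ 2 * ((y.1 : ℝ) / y.2 - α)⌋₊ := by
        intro x hx y hy hl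
        obtain ⟨-, a1, a2, a3, -⟩ := h x hx
        obtain ⟨-, b1, b2, -, -⟩ := h y hy
        have a1' : (0 : ℝ) < x.2 := by exact_mod_cast a1
        have b1' : (0 : ℝ) < y.2 := by exact_mod_cast b1
        have c1 : (x.1 : ℝ) * y.2 + 1 ≤ y.1 * x.2 := by exact_mod_cast hl
        have c2 : (x.2 : ℝ) * y.2 ≤ (N : ℝ) ^ 2 := by
          rw [sq]; exact_mod_cast Nat.mul_le_mul a2 b2
        have c3 : 1 ≤ (N : ℝ) ^ 2 * ((y.1 : ℝ) / y.2 - (x.1 : ℝ) / x.2) := by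
          have e : (y.1 : ℝ) / y.2 - (x.1 : ℝ) / x.2 = (y.1 * x.2 - x.1 * y.2) / (x.2 * y.2) := by
            field_simp
          rw [e, ← mul_div_assoc, le_div_iff₀ (by positivity)]
          nlinarith
        have c4 : 0 ≤ (N : ℝ) ^ 2 * ((x.1 : ℝ) / x.2 - α) := mul_nonneg (by positivity) (by linarith)
        rw [← Nat.add_one_le_iff, ← Nat.floor_add_one c4]
        exact Nat.floor_le_floor (by linarith)
      intro x hx y hy hxy
      rcases lt_trichotomy (x.1 * y.2) (y.1 * x.2) with hl | hl | hl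
      · exact absurd hxy (gap x hx y hy hl).ne
      · obtain ⟨a0, a1, -⟩ := h x hx
        obtain ⟨b0, b1, -⟩ := h y hy
        have d1 : x.2 ∣ y.2 := a0.symm.dvd_of_dvd_mul_left ⟨y.1, by rw [hl]; ring⟩
        have d2 : y.2 ∣ x.2 := b0.symm.dvd_of_dvd_mul_left ⟨x.1, by rw [← hl]; ring⟩
        have e := Nat.dvd_antisymm d1 d2
        rw [← e] at hl
        exact Prod.ext (Nat.eq_of_mul_eq_mul_right a1 hl) e
      · exact absurd hxy (gap y hy x hx hl).ne'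
  rw [card_range] at h1
  have h2 : (S.card : ℝ) ≤ ⌊(N : ℝ) ^ 2 * w⌋₊ + 1 := by exact_mod_cast h1
  linarith [Nat.floor_le (by positivity : 0 ≤ (N : ℝ) ^ 2 * w)]

/-- The bound for the number of elements of a cell sharing a large prime with another cell. -/
noncomputable def pairB (h h' X X' T H' Y' i : ℕ) : ℝ :=
  ((h : ℝ) / X' + 2 * X * h' / X' ^ 2 + 1) * (h / T + 1) +
    i * ((4 * (2 * X' / Y' : ℝ) * h' + 4 * (2 * X' / Y' : ℝ) ^ 2) * (h / X' + 2 * X * h' / X' ^ 2) +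
      2 * h' / √(H' * X' / (2 * X) : ℝ) + 1)

open Classical in
lemma pair_count (L h L' h' X X' T H' Y' i : ℕ) (hX : X ≤ L) (hX2 : L + h ≤ 2 * X) (hX0 : 0 < X)
    (hX' : X' ≤ L') (hX2' : L' + h' ≤ 2 * X') (hX0' : 0 < X') (hT : 0 < T) (hY : 0 < Y')
    (hH : 0 < H') (hi : 2 * X' ≤ 2 ^ i) :
    (((Ico L (L + h)).filter (fun n => ∃ n0 ∈ Ico L' (L' + h'), ∃ q : ℕ, q ∣ n ∧ q ∣ n0 ∧
      Y' < q ∧ (∀ r : ℕ, r.Prime → r ∣ n0 → H' < r) ∧ ¬ ∃ k : ℕ, k ≤ T ∧ n = k * n0)).card : ℝ) ≤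
      pairB h h' X X' T H' Y' i := by
  set w : ℝ := (h : ℝ) / X' + 2 * X * h' / X' ^ 2 with hw
  set α : ℝ := (L : ℝ) / (L' + h') with hα
  have X0 : (0 : ℝ) < X := by exact_mod_cast hX0
  have X0' : (0 : ℝ) < X' := by exact_mod_cast hX0'
  have Y0 : (0 : ℝ) < Y' := by exact_mod_cast hY
  have w0 : 0 ≤ w := by positivity
  have LX : (X' : ℝ) ≤ L' := by exact_mod_cast hX'
  have ratio : ∀ n ∈ Ico L (L + h), ∀ n0 ∈ Ico L' (L' + h'),
      α ≤ (n : ℝ) / n0 ∧ (n : ℝ) / n0 ≤ α + w := by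
    intro n hn n0 hn0
    obtain ⟨a1, a2⟩ := mem_Ico.1 hn
    obtain ⟨b1, b2⟩ := mem_Ico.1 hn0
    have a1' : (L : ℝ) ≤ n := by exact_mod_cast a1
    have a2' : (n : ℝ) ≤ L + h := by exact_mod_cast a2.le
    have b1' : (L' : ℝ) ≤ n0 := by exact_mod_cast b1
    have b2' : (n0 : ℝ) ≤ L' + h' := by exact_mod_cast b2.le
    have c1 : (L : ℝ) ≤ 2 * X := by exact_mod_cast (by omega : L ≤ 2 * X)
    have h0 : (0 : ℝ) ≤ h' := Nat.cast_nonneg _
    constructor
    · exact div_le_div₀ (by positivity) a1' (by linarith) b2'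
    · have c2 : (n : ℝ) / n0 ≤ (L + h) / L' := div_le_div₀ (by positivity) a2' (by linarith) b1'
      have c3 : (h : ℝ) / L' ≤ h / X' := div_le_div_of_nonneg_left (by positivity) X0' LX
      have c4 : (L : ℝ) / L' - α = L * h' / (L' * (L' + h')) := by
        have : (0 : ℝ) < L' := by linarith
        rw [hα]; field_simp; ring
      have c5 : (L : ℝ) * h' / (L' * (L' + h')) ≤ 2 * X * h' / X' ^ 2 :=
        div_le_div₀ (by positivity) (mul_le_mul_of_nonneg_right c1 h0) (by positivity)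
          (by nlinarith)
      rw [add_div] at c2
      linarith
  set K := (Ioc T (2 * X)).filter (fun k : ℕ => α ≤ (k : ℝ) ∧ (k : ℝ) ≤ α + w) with hK
  set S1 := K.biUnion (fun k => (Ico L (L + h)).filter (fun n => k ∣ n)) with hS1
  set M0 : ℝ := √(H' * X' / (2 * X) : ℝ) with hM0
  set M1 : ℝ := 2 * X' / Y' with hM1
  have M00 : 0 < M0 := Real.sqrt_pos.2 (by positivity)
  set F : ℕ → Finset (ℕ × ℕ) := fun a => (range (2 * X) ×ˢ Ico (2 ^ a) (2 ^ (a + 1))).filter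
    (fun x => Nat.Coprime x.1 x.2 ∧ α ≤ (x.1 : ℝ) / x.2 ∧ (x.1 : ℝ) / x.2 ≤ α + w ∧
      M0 ≤ x.2 ∧ (x.2 : ℝ) ≤ M1) with hF
  set S2 := (range i).biUnion (fun a => (F a).biUnion (fun x =>
    ((Ico L' (L' + h')).filter (fun n0 => x.2 ∣ n0)).image (fun n0 => n0 / x.2 * x.1))) with hS2
  have hsub : (Ico L (L + h)).filter (fun n => ∃ n0 ∈ Ico L' (L' + h'), ∃ q : ℕ, q ∣ n ∧ q ∣ n0 ∧
      Y' < q ∧ (∀ r : ℕ, r.Prime → r ∣ n0 → H' < r) ∧ ¬ ∃ k : ℕ, k ≤ T ∧ n = k * n0) ⊆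
      S1 ∪ S2 := by
    intro n hn
    obtain ⟨h1, n0, h2, q, h3, h4, h5, h6, h7⟩ := Finset.mem_filter.1 hn
    obtain ⟨r1, r2⟩ := ratio n h1 n0 h2
    obtain ⟨a1, a2⟩ := mem_Ico.1 h1
    obtain ⟨b1, b2⟩ := mem_Ico.1 h2
    have g0 : 0 < Nat.gcd n n0 := Nat.gcd_pos_of_pos_left _ (by omega)
    obtain ⟨k, m, hc, e1, e2⟩ := Nat.exists_coprime n n0
    set g := Nat.gcd n n0
    have gq : q ≤ g := Nat.le_of_dvd g0 (Nat.dvd_gcd h3 h4)
    have m0 : 0 < m := by
      rcases Nat.eq_zero_or_pos m with h0 | h0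
      · rw [h0] at e2; omega
      · exact h0
    have k0 : 0 < k := by
      rcases Nat.eq_zero_or_pos k with h0 | h0
      · rw [h0] at e1; omega
      · exact h0
    have g0' : (0 : ℝ) < g := by exact_mod_cast g0
    have m0' : (0 : ℝ) < m := by exact_mod_cast m0
    have e3 : (n : ℝ) / n0 = k / m := by
      rw [e1, e2]; push_cast; field_simp
    rw [e3] at r1 r2
    have kn : k ≤ n := by rw [e1]; exact Nat.le_mul_of_pos_right _ g0
    by_cases hm : m = 1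
    · refine Finset.mem_union_left _ (Finset.mem_biUnion.2 ⟨k, Finset.mem_filter.2
        ⟨mem_Ioc.2 ⟨?_, by omega⟩, ?_⟩, Finset.mem_filter.2 ⟨h1, Dvd.intro _ e1.symm⟩⟩)
      · by_contra hk
        exact h7 ⟨k, by omega, by rw [e2, hm, one_mul]; exact e1⟩
      · simpa [hm] using And.intro r1 r2
    · have c1 : H' < m := (h6 _ (Nat.minFac_prime hm) ((Nat.minFac_dvd m).trans
        (Dvd.intro _ e2.symm))).trans_le (Nat.minFac_le m0)
      have c2 : g ≤ n := Nat.le_of_dvd (by omega) (Nat.gcd_dvd_left _ _)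
      have c3 : X' ≤ m * (2 * X) := by
        have := Nat.mul_le_mul_left m (show g ≤ 2 * X by omega)
        omega
      have c4 : m * Y' ≤ 2 * X' := by
        have := Nat.mul_le_mul_left m (show Y' ≤ g by omega)
        omega
      have c5 : m ≤ n0 := by rw [e2]; exact Nat.le_mul_of_pos_right _ g0
      refine Finset.mem_union_right _ (Finset.mem_biUnion.2 ⟨lg m, mem_range.2 ?_,
        Finset.mem_biUnion.2 ⟨(k, m), Finset.mem_filter.2 ⟨Finset.mem_product.2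
          ⟨mem_range.2 (by omega), mem_Ico.2 ⟨lg_le m0.ne', lt_lg m⟩⟩, hc, r1, r2, ?_, ?_⟩,
          Finset.mem_image.2 ⟨n0, Finset.mem_filter.2 ⟨h2, Dvd.intro _ e2.symm⟩, ?_⟩⟩⟩)
      · exact (Nat.pow_lt_pow_iff_right (by norm_num : 1 < 2)).1
          (lt_of_le_of_lt (lg_le m0.ne') (by omega))
      · refine Real.sqrt_le_iff.2 ⟨m0'.le, ?_⟩
        have d1 : (H' : ℝ) ≤ m := by exact_mod_cast c1.le
        have d2 : (X' : ℝ) ≤ m * (2 * X) := by exact_mod_cast c3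
        rw [div_le_iff₀ (by positivity)]
        have := mul_le_mul d1 d2 X0'.le m0'.le
        simpa [sq, mul_assoc] using this
      · rw [hM1, le_div_iff₀ Y0]; exact_mod_cast c4
      · show n0 / m * k = n
        rw [e2, Nat.mul_div_cancel_left _ m0, mul_comm]; exact e1.symm
  have a1 : (S1.card : ℝ) ≤ (w + 1) * (h / T + 1) := by
    refine (Nat.cast_le.2 Finset.card_biUnion_le).trans ?_
    push_cast
    refine (Finset.sum_le_card_nsmul _ _ ((h : ℝ) / T + 1) (fun k hk => ?_)).trans ?_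
    · have b1 := (mem_Ioc.1 (Finset.mem_filter.1 hk).1).1
      have b2 := (abs_le.1 (cnt_abs L h k (by omega) (by omega))).2
      have b3 : (h : ℝ) / k ≤ h / T := div_le_div_of_nonneg_left (by positivity)
        (by exact_mod_cast hT) (by exact_mod_cast b1.le)
      linarith
    · rw [nsmul_eq_mul]
      refine mul_le_mul_of_nonneg_right (FracSum.card_spaced K w w0 (fun k hk l hl _ => ?_))
        (by positivity)
      have := (Finset.mem_filter.1 hk).2.1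
      have := (Finset.mem_filter.1 hl).2.2
      linarith
  have a2 : (S2.card : ℝ) ≤ i * ((4 * M1 * h' + 4 * M1 ^ 2) * w + 2 * h' / M0 + 1) := by
    refine (Nat.cast_le.2 Finset.card_biUnion_le).trans ?_
    push_cast
    refine (Finset.sum_le_card_nsmul _ _ _ (fun a _ => ?_)).trans_eq
      (by rw [card_range, nsmul_eq_mul])
    rcases (F a).eq_empty_or_nonempty with h0 | ⟨x0, hx0⟩
    · rw [h0]; simp; positivity
    obtain ⟨b1, -, -, -, b2, b3⟩ := Finset.mem_filter.1 hx0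
    obtain ⟨b4, b5⟩ := mem_Ico.1 (Finset.mem_product.1 b1).2
    have b4' : (2 : ℝ) ^ a ≤ x0.2 := by exact_mod_cast b4
    have b5' : (x0.2 : ℝ) ≤ 2 * 2 ^ a := by
      rw [pow_succ] at b5; exact_mod_cast (by omega : x0.2 ≤ 2 * 2 ^ a)
    have p0 : (0 : ℝ) < 2 ^ a := by positivity
    refine (Nat.cast_le.2 Finset.card_biUnion_le).trans ?_
    push_cast
    refine (Finset.sum_le_card_nsmul _ _ ((h' : ℝ) / 2 ^ a + 1) (fun x hx => ?_)).trans ?_
    · have c1 := (mem_Ico.1 (Finset.mem_product.1 (Finset.mem_filter.1 hx).1).2).1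
      have c0 : 0 < x.2 := lt_of_lt_of_le Nat.one_le_two_pow c1
      have c2 := (abs_le.1 (cnt_abs L' h' x.2 (by omega) c0)).2
      have c3 : (h' : ℝ) / x.2 ≤ h' / 2 ^ a := div_le_div_of_nonneg_left (by positivity) p0
        (by exact_mod_cast c1)
      refine (Nat.cast_le.2 Finset.card_image_le).trans ?_
      linarith
    · rw [nsmul_eq_mul]
      have c1 := frac_count (F a) (2 ^ (a + 1)) α w w0 (fun x hx => by
        obtain ⟨d1, d2, d3, d4, -⟩ := Finset.mem_filter.1 hx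
        obtain ⟨d5, d6⟩ := mem_Ico.1 (Finset.mem_product.1 d1).2
        exact ⟨d2, lt_of_lt_of_le Nat.one_le_two_pow d5, d6.le, d3, d4⟩)
      refine (mul_le_mul_of_nonneg_right c1 (by positivity)).trans ?_
      push_cast
      set y : ℝ := 2 ^ a
      have e : (((2 : ℝ) ^ (a + 1)) ^ 2 * w + 1) * (h' / y + 1) =
          (4 * y * h' + 4 * y ^ 2) * w + h' / y + 1 := by
        rw [pow_succ]; field_simp; ring
      rw [e]
      have c2 : y ≤ M1 := b4'.trans b3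
      have c3 : (h' : ℝ) / y ≤ 2 * h' / M0 := by
        rw [div_le_div_iff₀ p0 M00]
        have : (0 : ℝ) ≤ h' := Nat.cast_nonneg _
        nlinarith
      have c4 : (4 * y * h' + 4 * y ^ 2) * w ≤ (4 * M1 * h' + 4 * M1 ^ 2) * w := by gcongr
      linarith
  have := (Finset.card_le_card hsub).trans (Finset.card_union_le _ _)
  have : (((Ico L (L + h)).filter (fun n => ∃ n0 ∈ Ico L' (L' + h'), ∃ q : ℕ, q ∣ n ∧ q ∣ n0 ∧
      Y' < q ∧ (∀ r : ℕ, r.Prime → r ∣ n0 → H' < r) ∧ ¬ ∃ k : ℕ, k ≤ T ∧ n = k * n0)).card : ℝ) ≤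
      S1.card + S2.card := by exact_mod_cast this
  unfold pairB
  linarith

namespace Par

variable (P : Par)

open Classical in
/-- The bad cells of a block. -/
noncomputable def Bset (j : ℕ) : Finset ℕ := (Ico (2 ^ j) (2 ^ (j + 1))).filter P.B

/-- The basic hypotheses. -/
structure Pre : Prop where
  hdiv : ∀ j, 0 < P.h j ∧ P.h j ∣ 2 ^ j
  hB : ∀ L, P.B L → P.IsCell L ∧ P.j0 ≤ lg L
  hY : ∀ j, P.j0 ≤ j → 2 ^ (j + 1) ≤ P.Y j ^ 2
  ht : ∀ j, P.j0 ≤ j → 0 < P.t j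

variable {P} (H : P.Pre)
include H

lemma raw_pre {n p : ℕ} (h : P.Raw n p) : n ≠ 0 ∧ P.j0 ≤ lg n ∧ P.base n ∈ P.Bset (lg n) ∧
    n ∈ Ico (P.base n) (P.base n + P.h (lg n)) := by
  classical
  have h0 : n ≠ 0 := by
    rintro rfl
    have := (H.hB _ h.1).1.1
    simp [base] at this
  obtain ⟨a1, a2, a3⟩ := base_spec H.hdiv h0
  refine ⟨h0, a3 ▸ (H.hB _ h.1).2, Finset.mem_filter.2 ⟨mem_Ico.2 ⟨?_, ?_⟩, h.1⟩, ?_⟩
  · rw [← a3]; exact lg_le (by have := a1.1; omega)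
  · rw [← a3]; exact lt_lg _
  · unfold cell at a2; rwa [a3] at a2

lemma raw_uniq {n p q : ℕ} (h : P.Raw n p) (h' : P.Raw n q) : p = q := by
  by_contra hne
  have h1 : p * q ∣ n := Nat.Coprime.mul_dvd_of_dvd_of_dvd
    ((Nat.coprime_primes h.2.2.1 h'.2.2.1).2 hne) h.2.2.2.1 h'.2.2.2.1
  have h2 := Nat.le_of_dvd (Nat.pos_of_ne_zero (raw_pre H h).1) h1
  have h3 := H.hY _ (raw_pre H h).2.1
  have h4 := lt_lg n
  have h5 := Nat.mul_lt_mul'' h.2.2.2.2 h'.2.2.2.2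
  rw [sq] at h3
  omega

open Classical in
/-- Sets parametrised injectively by pool primes of a block. -/
lemma card_block (j : ℕ) (S : Finset ℕ) (R : ℕ → ℕ → Prop)
    (hS : ∀ x ∈ S, ∃ n q, P.Raw n q ∧ lg n = j ∧ R x q)
    (hR : ∀ x ∈ S, ∀ y ∈ S, ∀ q, R x q → R y q → x = y) :
    (S.card : ℝ) ≤ (P.Bset j).card * P.h j := by
  choose! n q hn using hS
  have h1 : S.card ≤ ((P.Bset j).biUnion (fun L => Ico L (L + P.h j))).card := by
    refine Finset.card_le_card_of_injOn n (fun x hx => ?_) (fun x hx y hy hxy => ?_)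
    · obtain ⟨a1, a2, -⟩ := hn x hx
      obtain ⟨-, -, b1, b2⟩ := raw_pre H a1
      rw [a2] at b1 b2
      exact mem_coe.2 (Finset.mem_biUnion.2 ⟨_, b1, b2⟩)
    · obtain ⟨a1, -, a3⟩ := hn x hx
      obtain ⟨b1, -, b3⟩ := hn y hy
      rw [← hxy] at b1
      rw [← raw_uniq H a1 b1] at b3
      exact hR x hx y hy _ a3 b3
  have h2 := h1.trans (Finset.card_biUnion_le_card_mul _ _ (P.h j) (fun L _ => by simp))
  exact_mod_cast h2

open Classical in
lemma sparse_bound (γ ε : ℝ) (hγ : γ ≤ 1) (hε : 0 ≤ ε) (hj0 : 2 ≤ P.j0)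
    (hE : ∀ j, P.j0 ≤ j → (P.Bset j).card * P.h j * (P.Y j : ℝ) ^ (γ - 1) ≤ ε / (j : ℝ) ^ 2)
    (M : ℕ) : ∑ p ∈ (Icc 1 M).filter (fun p : ℕ => p.Prime ∧ P.PP p), (p : ℝ) ^ γ / p ≤ ε := by
  set S := (Icc 1 M).filter (fun p : ℕ => p.Prime ∧ P.PP p) with hS
  have hch : ∀ p ∈ S, ∃ n, P.Raw n p := fun p hp => (Finset.mem_filter.1 hp).2.2
  choose! n hn using hch
  have hmap : ∀ p ∈ S, lg (n p) ∈ Ioc 1 (M ^ 2) := by
    intro p hp
    have a1 := (raw_pre H (hn p hp)).2.1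
    have a2 := H.hY _ a1
    have a3 := (hn p hp).2.2.2.2
    have a4 := (mem_Icc.1 (Finset.mem_filter.1 hp).1).2
    have a5 : P.Y (lg (n p)) ^ 2 ≤ M ^ 2 := Nat.pow_le_pow_left (by omega) 2
    have a6 : lg (n p) + 1 < 2 ^ (lg (n p) + 1) := Nat.lt_two_pow_self
    exact mem_Ioc.2 ⟨by omega, by omega⟩
  rw [← Finset.sum_fiberwise_of_maps_to hmap]
  have h1 : ∀ j ∈ Ioc 1 (M ^ 2), ∑ p ∈ S.filter (fun p => lg (n p) = j), (p : ℝ) ^ γ / p ≤
      ε * ((j : ℝ) ^ 2)⁻¹ := by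
    intro j _
    rcases (S.filter (fun p => lg (n p) = j)).eq_empty_or_nonempty with h0 | ⟨p0, hp0⟩
    · rw [h0]; simp; positivity
    obtain ⟨a1, a2⟩ := Finset.mem_filter.1 hp0
    have a3 : P.j0 ≤ j := a2 ▸ (raw_pre H (hn p0 a1)).2.1
    have a4 : 0 < P.Y j := by
      have b1 := H.hY j a3
      have b2 := Nat.one_le_two_pow (n := j + 1)
      by_contra hc
      have : P.Y j = 0 := by omega
      rw [this] at b1; omega
    refine (Finset.sum_le_card_nsmul _ _ ((P.Y j : ℝ) ^ (γ - 1)) (fun p hp => ?_)).trans ?_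
    · obtain ⟨b1, b2⟩ := Finset.mem_filter.1 hp
      have b3 := (hn p b1).2.2.2.2
      rw [b2] at b3
      rw [← Real.rpow_sub_one (by exact_mod_cast (by omega : p ≠ 0))]
      exact Real.rpow_le_rpow_of_nonpos (by exact_mod_cast a4) (by exact_mod_cast b3.le)
        (by linarith)
    · rw [nsmul_eq_mul, ← div_eq_mul_inv]
      refine le_trans (mul_le_mul_of_nonneg_right ?_ (by positivity)) (hE j a3)
      refine card_block H j _ (fun x q => x = q) (fun x hx => ?_) (fun x _ y _ q h1 h2 => ?_)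
      · obtain ⟨b1, b2⟩ := Finset.mem_filter.1 hx
        exact ⟨n x, x, hn x b1, b2, rfl⟩
      · rw [h1, h2]
  refine (Finset.sum_le_sum h1).trans ?_
  rw [← Finset.mul_sum]
  refine mul_le_of_le_one_right hε ?_
  by_cases hM : 1 ≤ M ^ 2
  · have := sum_Ioc_inv_sq_le_sub (α := ℝ) one_ne_zero hM
    have h2 : (0 : ℝ) ≤ ((M ^ 2 : ℕ) : ℝ)⁻¹ := by positivity
    simp only [Nat.cast_one, inv_one] at this
    linarith
  · rw [Finset.Ioc_eq_empty (by omega)]; simp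

open Classical in
theorem cnt_bound (γ : ℝ) (hγ : 0 ≤ γ)
    (hsp : ∀ M, ∑ p ∈ (Icc 1 M).filter (fun p : ℕ => p.Prime ∧ P.PP p), (p : ℝ) ^ γ / p ≤ 1 / 2)
    (L : ℕ) (hL : P.IsCell L) (hj : P.j0 ≤ lg L) (ht2 : 2 ≤ P.t (lg L)) (E : ℝ) (hE0 : 0 ≤ E)
    (hE : ∀ j', P.j0 ≤ j' → j' ≤ 2 * lg L + 1 → ((P.Bset j').card : ℝ) * P.h j' ≤ E ∨
      (P.Bset j').card * pairB (P.h (lg L)) (P.h j') (2 ^ lg L) (2 ^ j') (P.t (lg L) ^ 4)
        (P.t j' ^ 4) (P.Y j') (j' + 1) ≤ E) :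
    (((P.cell L).filter P.Cnt).card : ℝ) ≤
      (2 * lg L + 2) * E + 2 * P.h (lg L) * (P.t (lg L) : ℝ) ^ (-γ) := by
  set j := lg L with hjd
  set S1 : ℕ → Finset ℕ := fun j' => (P.cell L).filter (fun n => ∃ n0 q : ℕ, P.Raw n0 q ∧
    lg n0 = j' ∧ q ∣ n ∧ P.h j < q ∧ ¬ ∃ k : ℕ, k ≤ P.t j ^ 4 ∧ n = k * n0) with hS1
  set Dd := (Icc (P.t j) (P.h j)).filter (fun d => ∀ q : ℕ, q.Prime → q ∣ d → P.PP q) with hD
  set S2 := Dd.biUnion (fun d => (P.cell L).filter (fun n => d ∣ n)) with hS2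
  have hsub : (P.cell L).filter P.Cnt ⊆ (range (2 * j + 2)).biUnion S1 ∪ S2 := by
    intro n hn
    obtain ⟨h1, h2⟩ := Finset.mem_filter.1 hn
    have h3 := cell_lg H.hdiv hL h1
    obtain ⟨h4, h5⟩ := cell_bounds H.hdiv hL h1
    unfold Cnt at h2
    rw [h3] at h2
    rw [← hjd] at h2 h4 h5
    rcases h2 with ⟨n0, q, a1, a2, a3, a4⟩ | ⟨d, a1, a2, a3, a4⟩
    · refine Finset.mem_union_left _ (Finset.mem_biUnion.2 ⟨lg n0, mem_range.2 ?_,
        Finset.mem_filter.2 ⟨h1, n0, q, a1, rfl, a2, a3, a4⟩⟩)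
      have b1 := H.hY _ (raw_pre H a1).2.1
      have b2 := a1.2.2.2.2
      have b3 : q ≤ n := Nat.le_of_dvd (lt_of_lt_of_le Nat.one_le_two_pow h4) a2
      have b4 : P.Y (lg n0) ^ 2 < (2 ^ (j + 1)) ^ 2 :=
        Nat.pow_lt_pow_left (by omega) (by norm_num)
      rw [← pow_mul] at b4
      have := (Nat.pow_lt_pow_iff_right (by norm_num : 1 < 2)).1 (lt_of_le_of_lt b1 b4)
      omega
    · exact Finset.mem_union_right _ (Finset.mem_biUnion.2 ⟨d, Finset.mem_filter.2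
        ⟨mem_Icc.2 ⟨a2, a3⟩, a4⟩, Finset.mem_filter.2 ⟨h1, a1⟩⟩)
  have a1 : ∀ j' ∈ range (2 * j + 2), ((S1 j').card : ℝ) ≤ E := by
    intro j' hj'
    rcases (S1 j').eq_empty_or_nonempty with h0 | ⟨x0, hx0⟩
    · rw [h0]; simpa using hE0
    have b0 : P.j0 ≤ j' := by
      obtain ⟨-, n0, q, c1, c2, -⟩ := Finset.mem_filter.1 hx0
      exact c2 ▸ (raw_pre H c1).2.1
    rcases hE j' b0 (by have := mem_range.1 hj'; omega) with h1 | h1
    · refine le_trans (card_block H j' _ (fun x q => q ∣ x ∧ P.h j < q) (fun x hx => ?_)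
        (fun x hx y hy q c1 c2 => ?_)) h1
      · obtain ⟨-, n0, q, c1, c2, c3, c4, -⟩ := Finset.mem_filter.1 hx
        exact ⟨n0, q, c1, c2, c3, c4⟩
      · obtain ⟨c3, c4⟩ := mem_Ico.1 (Finset.mem_filter.1 hx).1
        obtain ⟨c5, c6⟩ := mem_Ico.1 (Finset.mem_filter.1 hy).1
        have c7 := c1.2
        rw [← hjd] at c4 c6
        rcases le_total x y with c8 | c8
        · have := Nat.eq_zero_of_dvd_of_lt (Nat.dvd_sub c2.1 c1.1) (by omega)
          omega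
        · have := Nat.eq_zero_of_dvd_of_lt (Nat.dvd_sub c1.1 c2.1) (by omega)
          omega
    · refine le_trans ?_ h1
      have c1 : S1 j' ⊆ (P.Bset j').biUnion (fun L' => (Ico L (L + P.h j)).filter (fun n =>
          ∃ n0 ∈ Ico L' (L' + P.h j'), ∃ q : ℕ, q ∣ n ∧ q ∣ n0 ∧ P.Y j' < q ∧
          (∀ r : ℕ, r.Prime → r ∣ n0 → P.t j' ^ 4 < r) ∧
          ¬ ∃ k : ℕ, k ≤ P.t j ^ 4 ∧ n = k * n0)) := by
        intro n hn
        obtain ⟨d1, n0, q, d2, d3, d4, -, d5⟩ := Finset.mem_filter.1 hn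
        obtain ⟨-, -, d6, d7⟩ := raw_pre H d2
        have d8 := d2.2.1
        have d9 := d2.2.2.2.2
        rw [d3] at d6 d7 d8 d9
        exact Finset.mem_biUnion.2 ⟨_, d6, Finset.mem_filter.2
          ⟨d1, n0, d7, q, d4, d2.2.2.2.1, d9, d8, d5⟩⟩
      refine (Nat.cast_le.2 ((Finset.card_le_card c1).trans Finset.card_biUnion_le)).trans ?_
      push_cast
      rw [← nsmul_eq_mul]
      refine Finset.sum_le_card_nsmul _ _ _ (fun L' hL' => ?_)
      obtain ⟨d1, d2⟩ := Finset.mem_filter.1 hL'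
      obtain ⟨d3, d4⟩ := mem_Ico.1 d1
      have d5 := lg_eq d3 d4
      have d6 := cell_top H.hdiv (H.hB _ d2).1
      have d7 := cell_top H.hdiv hL
      rw [d5, pow_succ] at d6
      rw [← hjd, pow_succ] at d7
      have d8 : 0 < P.Y j' := by
        have b1 := H.hY j' b0
        have b2 := Nat.one_le_two_pow (n := j' + 1)
        by_contra hc
        have : P.Y j' = 0 := by omega
        rw [this] at b1; omega
      have d9 := H.ht j' b0
      exact pair_count L (P.h j) L' (P.h j') (2 ^ j) (2 ^ j') (P.t j ^ 4) (P.t j' ^ 4) (P.Y j')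
        (j' + 1) (lg_le (by have := hL.1; omega)) (by omega) (by positivity) d3 (by omega)
        (by positivity) (by positivity) d8 (by positivity) (by rw [pow_succ]; omega)
  have a2 : (((range (2 * j + 2)).biUnion S1).card : ℝ) ≤ (2 * j + 2) * E := by
    refine (Nat.cast_le.2 Finset.card_biUnion_le).trans ?_
    push_cast
    refine (Finset.sum_le_card_nsmul _ _ _ a1).trans_eq ?_
    rw [card_range, nsmul_eq_mul]; push_cast; ring
  have a3 : (S2.card : ℝ) ≤ 2 * P.h j * (P.t j : ℝ) ^ (-γ) := by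
    refine (Nat.cast_le.2 Finset.card_biUnion_le).trans ?_
    push_cast
    set a : ℕ → ℝ := fun p => if P.PP p then (p : ℝ) ^ γ / p else 0 with ha
    have a0 : ∀ p, 0 ≤ a p := fun p => by simp only [ha]; split_ifs <;> positivity
    have t0 : (0 : ℝ) < P.t j := by exact_mod_cast (by omega : 0 < P.t j)
    have b1 := cm_sum (cm a) (cm_one a) (cm_nonneg a (fun p _ => a0 p))
      (fun p n hp hn => by rw [cm_pm a hp hn, cm_prime a hp]) (P.h j) (1 / 2) le_rfl (by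
        refine le_trans (le_of_eq ?_) (hsp (P.h j))
        rw [← Finset.filter_filter, Finset.sum_filter (p := P.PP)]
        exact Finset.sum_congr rfl (fun p hp => cm_prime a (Finset.mem_filter.1 hp).2))
    have b2 : ∀ d ∈ Dd, (((P.cell L).filter (fun n => d ∣ n)).card : ℝ) ≤
        2 * P.h j * (P.t j : ℝ) ^ (-γ) * cm a d := by
      intro d hd
      obtain ⟨c1, c2⟩ := Finset.mem_filter.1 hd
      obtain ⟨c3, c4⟩ := mem_Icc.1 c1
      have d0 : d ≠ 0 := by omega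
      have c5 : cm a d = (d : ℝ) ^ γ / d := by
        revert c2
        refine prime_ind (P := fun d => (∀ q : ℕ, q.Prime → q ∣ d → P.PP q) →
          cm a d = (d : ℝ) ^ γ / d) (by simp [cm_one]) ?_ d d0
        intro p n hp hn ih h
        rw [cm_pm a hp hn, ih (fun q hq hd => h q hq (hd.mul_left p))]
        simp only [ha, if_pos (h p hp (Dvd.intro _ rfl))]
        rw [Nat.cast_mul, Real.mul_rpow (Nat.cast_nonneg _) (Nat.cast_nonneg _), div_mul_div_comm]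
      refine (cnt_le L (P.h j) d hL.1 (by omega) c4).trans ?_
      have c6 : (P.t j : ℝ) ^ γ ≤ (d : ℝ) ^ γ :=
        Real.rpow_le_rpow t0.le (by exact_mod_cast c3) hγ
      have c7 : 0 < (P.t j : ℝ) ^ γ := Real.rpow_pos_of_pos t0 γ
      rw [c5, Real.rpow_neg t0.le, mul_assoc, ← mul_div_assoc, div_eq_mul_one_div]
      refine mul_le_mul_of_nonneg_left (div_le_div_of_nonneg_right ?_ (by positivity))
        (by positivity)
      rw [inv_mul_eq_div, le_div_iff₀ c7]; linarith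
    refine (Finset.sum_le_sum b2).trans ?_
    rw [← Finset.mul_sum]
    refine mul_le_of_le_one_right (by positivity) (le_trans ?_ (b1.trans_eq (by norm_num)))
    refine Finset.sum_le_sum_of_subset_of_nonneg (fun d hd => ?_) (fun d hd _ =>
      cm_nonneg a (fun p _ => a0 p) d (by have := (mem_Icc.1 hd).1; omega))
    obtain ⟨c3, c4⟩ := mem_Icc.1 (Finset.mem_filter.1 hd).1
    exact mem_Icc.2 ⟨by omega, c4⟩
  have := (Finset.card_le_card hsub).trans (Finset.card_union_le _ _)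
  have : (((P.cell L).filter P.Cnt).card : ℝ) ≤
    ((range (2 * j + 2)).biUnion S1).card + S2.card := by exact_mod_cast this
  linarith

end Par

end Pool.Agent.H59.MO
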