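import Mathlib
import Pool.Agent.H59.MO4
import Pool.Agent.H59.BH2

/-! Rough integers with a large prime factor in short intervals. -/

set_option autoImplicit false

namespace Pool.Agent.H59.MO

open Finset Filter Pool.Agent.H59.BH

/-- The sieve sum over the multiples of `k` in an interval. -/
noncomputable def W (U : DS) (L h k : ℕ) : ℝ :=
  ∑ n ∈ Ico L (L + h), if k ∣ n then U.ev (n / k) else 0

lemma W_eq (U : DS) (L h k : ℕ) (hk : 0 < k) :
    W U L h k = ∑ i ∈ U.s, U.a i * ((Ico L (L + h)).filter (fun n => k * U.d i ∣ n)).card := by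
  unfold W DS.ev
  have : ∀ n ∈ Ico L (L + h), (if k ∣ n then ∑ i ∈ U.s, (if U.d i ∣ n / k then U.a i else 0)
      else 0) = ∑ i ∈ U.s, if k * U.d i ∣ n then U.a i else 0 := by
    intro n _
    split_ifs with h1
    · refine Finset.sum_congr rfl (fun i _ => ?_)
      simp only [Nat.dvd_div_iff_mul_dvd h1]
    · exact (Finset.sum_eq_zero (fun i _ => if_neg (fun h2 => h1 ((Dvd.intro _ rfl).trans h2)))).symm
  rw [Finset.sum_congr rfl this, Finset.sum_comm]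
  refine Finset.sum_congr rfl (fun i _ => ?_)
  rw [← Finset.sum_filter, Finset.sum_const, nsmul_eq_mul, mul_comm]

lemma W_abs {U : DS} {Q : Finset ℕ} {D : ℝ} (hU : U.ok Q D) (L h k : ℕ) (hL : 1 ≤ L)
    (hk : 0 < k) : |W U L h k - h / k * U.mean| ≤ U.nrm := by
  rw [W_eq U L h k hk]
  unfold DS.mean DS.nrm
  rw [Finset.mul_sum, ← Finset.sum_sub_distrib]
  refine (Finset.abs_sum_le_sum_abs _ _).trans (Finset.sum_le_sum (fun i hi => ?_))
  have h1 := cnt_abs L h (k * U.d i) hL (Nat.mul_pos hk (hU i hi).1)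
  have e : U.a i * ((Ico L (L + h)).filter (fun n => k * U.d i ∣ n)).card -
      h / k * (U.a i / U.d i) = U.a i * (((Ico L (L + h)).filter (fun n => k * U.d i ∣ n)).card -
        (h : ℝ) / (k * U.d i : ℕ)) := by push_cast; ring
  rw [e, abs_mul]
  exact mul_le_of_le_one_right (abs_nonneg _) h1

open Classical in
lemma card_le_W {U : DS} {Q : Finset ℕ} (hup : ∀ n, ind Q n ≤ U.ev n) (L h k : ℕ)
    (R : ℕ → Prop) (hR : ∀ n, k ∣ n → R n → ∀ q ∈ Q, ¬ q ∣ n / k) :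
    (((Ico L (L + h)).filter (fun n => k ∣ n ∧ R n)).card : ℝ) ≤ W U L h k := by
  unfold W
  rw [Finset.card_filter]
  push_cast
  refine Finset.sum_le_sum (fun n _ => ?_)
  by_cases h1 : k ∣ n
  · rw [if_pos h1]
    split_ifs with h2
    · rw [← ind_eq_one (hR n h1 h2.2)]; exact hup _
    · exact (ind_nonneg _ _).trans (hup _)
  · rw [if_neg h1, if_neg (fun h2 => h1 h2.1)]

lemma W_nonneg {U : DS} {Q : Finset ℕ} (hup : ∀ n, ind Q n ≤ U.ev n) (L h k : ℕ) :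
    0 ≤ W U L h k :=
  Finset.sum_nonneg (fun n _ => by
    split_ifs
    · exact (ind_nonneg _ _).trans (hup _)
    · exact le_rfl)

open Classical in
/-- Upper bound sieve for the cofactors of the multiples of `k`. -/
lemma sieve_up {U : DS} {Q : Finset ℕ} {D : ℝ} (hU : U.ok Q D) (hup : ∀ n, ind Q n ≤ U.ev n)
    (L h k : ℕ) (hL : 1 ≤ L) (hk : 0 < k) (R : ℕ → Prop)
    (hR : ∀ m, k * m ∈ Ico L (L + h) → R m → ∀ q ∈ Q, ¬ q ∣ m) :
    (((range (L + h)).filter (fun m => k * m ∈ Ico L (L + h) ∧ R m)).card : ℝ) ≤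
      h / k * U.mean + U.nrm := by
  have h1 := sum_div_reindex (Ico L (L + h)) (L + h) k hk (fun n hn => (mem_Ico.1 hn).2) R
    (fun _ => (1 : ℝ))
  rw [Finset.sum_const, nsmul_eq_mul, mul_one] at h1
  have h2 : ∑ n ∈ Ico L (L + h), (if k ∣ n ∧ R (n / k) then (1 : ℝ) else 0) ≤ W U L h k := by
    unfold W
    refine Finset.sum_le_sum (fun n hn => ?_)
    by_cases h1 : k ∣ n
    · rw [if_pos h1]
      split_ifs with h2
      · rw [← ind_eq_one (hR _ (by rwa [Nat.mul_div_cancel' h1]) h2.2)]; exact hup _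
      · exact (ind_nonneg _ _).trans (hup _)
    · rw [if_neg h1, if_neg (fun h2 => h1 h2.1)]
  have h3 := (abs_le.1 (W_abs hU L h k hL hk)).2
  linarith

lemma sum_mult (K d : ℕ) (hd : 0 < d) (F : ℕ → ℝ) :
    ∑ k ∈ Ico K (2 * K), (if d ∣ k then F k else 0) =
      ∑ k ∈ Ico ⌈(K : ℝ) / d⌉₊ ⌈(2 * K : ℝ) / d⌉₊, F (d * k) := by
  have hd0 : (0 : ℝ) < d := by exact_mod_cast hd
  have key : ∀ m : ℕ, m ∈ Ico ⌈(K : ℝ) / d⌉₊ ⌈(2 * K : ℝ) / d⌉₊ ↔ d * m ∈ Ico K (2 * K) := by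
    intro m
    rw [mem_Ico, mem_Ico, Nat.ceil_le, Nat.lt_ceil, div_le_iff₀ hd0, lt_div_iff₀ hd0, mul_comm d m]
    exact_mod_cast Iff.rfl
  rw [← Finset.sum_filter]
  symm
  refine Finset.sum_bij (fun m _ => d * m) ?_ ?_ ?_ (fun _ _ => rfl)
  · intro m hm
    exact Finset.mem_filter.2 ⟨(key m).1 hm, Dvd.intro _ rfl⟩
  · intro a _ b _ h
    exact Nat.eq_of_mul_eq_mul_left hd h
  · intro k hk
    obtain ⟨h1, m, rfl⟩ := Finset.mem_filter.1 hk
    exact ⟨m, (key m).2 h1, rfl⟩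

/-- The bilinear sieve sum over a dyadic range. -/
lemma mid_bound {U U' : DS} {Q Q' : Finset ℕ} {D D' : ℝ} (hU : U.ok Q D) (hU' : U'.ok Q' D')
    (hup' : ∀ n, ind Q' n ≤ U'.ev n) (hm : 0 ≤ U.mean) (L h K : ℕ) (hL : 1 ≤ L) (hK : 1 ≤ K)
    (Err : ℝ) (hfr : ∀ d d' : ℕ, 0 < d → (d : ℝ) ≤ D → 0 < d' → (d' : ℝ) ≤ D' →
      ∀ x : ℕ, L - 1 ≤ x → x ≤ L + h - 1 →
      |∑ k ∈ Ico ⌈(K : ℝ) / d'⌉₊ ⌈(2 * K : ℝ) / d'⌉₊,
        (Int.fract ((x : ℝ) / (d * d') / k) - 1 / 2)| ≤ Err) :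
    ∑ k ∈ Ico K (2 * K), U'.ev k * W U L h k ≤
      h * U.mean * (U'.mean + U'.nrm / K) + U.nrm * U'.nrm * (2 * Err) := by
  have hK0 : (0 : ℝ) < K := by exact_mod_cast hK
  set φ : ℕ → ℝ := fun c => Int.fract (((L - 1 : ℕ) : ℝ) / c) -
    Int.fract (((L + h - 1 : ℕ) : ℝ) / c) with hφ
  have e1 : ∀ k ∈ Ico K (2 * K), U'.ev k * W U L h k =
      h * U.mean * (U'.ev k / k) + ∑ i ∈ U.s, U.a i * (U'.ev k * φ (k * U.d i)) := by
    intro k hk
    have hk0 : 0 < k := by have := (mem_Ico.1 hk).1; omega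
    rw [W_eq U L h k hk0]
    unfold DS.mean
    rw [Finset.mul_sum, Finset.mul_sum, Finset.sum_mul, ← Finset.sum_add_distrib]
    refine Finset.sum_congr rfl (fun i hi => ?_)
    rw [cnt_eq L h _ hL (Nat.mul_pos hk0 (hU i hi).1)]
    simp only [hφ]
    push_cast; ring
  rw [Finset.sum_congr rfl e1, Finset.sum_add_distrib, ← Finset.mul_sum, Finset.sum_comm]
  refine add_le_add (mul_le_mul_of_nonneg_left ?_ (by positivity)) ?_
  · have a1 : ∑ k ∈ Ico K (2 * K), U'.ev k / k ≤ ∑ k ∈ Ico K (2 * K), U'.ev k / K :=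
      Finset.sum_le_sum (fun k hk => div_le_div_of_nonneg_left ((ind_nonneg _ _).trans (hup' _))
        hK0 (by exact_mod_cast (mem_Ico.1 hk).1))
    have a2 := (abs_le.1 (W_abs hU' K K 1 hK one_pos)).2
    unfold W at a2
    simp only [one_dvd, if_true, Nat.div_one, Nat.cast_one, div_one] at a2
    rw [← two_mul] at a2
    rw [← Finset.sum_div] at a1
    refine a1.trans ?_
    rw [div_le_iff₀ hK0, add_mul, div_mul_cancel₀ _ hK0.ne']
    linarith
  · unfold DS.nrm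
    rw [Finset.sum_mul, Finset.sum_mul]
    refine Finset.sum_le_sum (fun i hi => ?_)
    rw [← Finset.mul_sum, mul_assoc]
    refine (le_abs_self _).trans ?_
    rw [abs_mul]
    refine mul_le_mul_of_nonneg_left ?_ (abs_nonneg _)
    have e2 : ∑ k ∈ Ico K (2 * K), U'.ev k * φ (k * U.d i) =
        ∑ l ∈ U'.s, U'.a l * ∑ k ∈ Ico K (2 * K), (if U'.d l ∣ k then φ (k * U.d i) else 0) := by
      unfold DS.ev
      simp only [Finset.sum_mul, Finset.mul_sum]
      rw [Finset.sum_comm]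
      refine Finset.sum_congr rfl (fun l _ => Finset.sum_congr rfl (fun k _ => ?_))
      split_ifs <;> simp
    rw [e2, Finset.sum_mul]
    refine (Finset.abs_sum_le_sum_abs _ _).trans (Finset.sum_le_sum (fun l hl => ?_))
    rw [abs_mul]
    refine mul_le_mul_of_nonneg_left ?_ (abs_nonneg _)
    obtain ⟨b1, b2, -⟩ := hU i hi
    obtain ⟨b3, b4, -⟩ := hU' l hl
    rw [sum_mult K _ b3]
    have c1 := hfr _ _ b1 b2 b3 b4 (L - 1) le_rfl (by omega)
    have c2 := hfr _ _ b1 b2 b3 b4 (L + h - 1) (by omega) le_rfl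
    have e3 : ∑ k ∈ Ico ⌈(K : ℝ) / U'.d l⌉₊ ⌈(2 * K : ℝ) / U'.d l⌉₊, φ (U'.d l * k * U.d i) =
        ∑ k ∈ Ico ⌈(K : ℝ) / U'.d l⌉₊ ⌈(2 * K : ℝ) / U'.d l⌉₊,
          (Int.fract (((L - 1 : ℕ) : ℝ) / (U.d i * U'.d l) / k) - 1 / 2) -
        ∑ k ∈ Ico ⌈(K : ℝ) / U'.d l⌉₊ ⌈(2 * K : ℝ) / U'.d l⌉₊,
          (Int.fract (((L + h - 1 : ℕ) : ℝ) / (U.d i * U'.d l) / k) - 1 / 2) := by
      rw [← Finset.sum_sub_distrib]
      refine Finset.sum_congr rfl (fun k _ => ?_)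
      simp only [hφ]
      have e4 : ∀ x : ℝ, x / ((U'.d l * k * U.d i : ℕ) : ℝ) = x / (U.d i * U'.d l) / k := by
        intro x; push_cast; rw [div_div]; congr 1; ring
      rw [e4, e4]; ring
    rw [e3]
    refine (abs_sub _ _).trans ?_
    linarith

open Classical in
lemma sq_count (L h H P X : ℕ) (hL : X ≤ L) (hX : L + h ≤ 2 * X) (hh : h ^ 2 ≤ X) (hH : 1 ≤ H)
    (hP : 1 ≤ P) (hX1 : 1 ≤ X) :
    (((Ico L (L + h)).filter (fun n => ∃ p : ℕ, H < p ∧ p * p ∣ n)).card : ℝ) ≤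
      h / H + P + 2 * X / P ^ 2 := by
  set S1 := (Ioc H P).biUnion (fun p => (Ico L (L + h)).filter (fun n => p * p ∣ n))
  set S2 := (Ico L (L + h)).filter (fun n => ∃ p : ℕ, P < p ∧ p * p ∣ n)
  have hsub : (Ico L (L + h)).filter (fun n => ∃ p : ℕ, H < p ∧ p * p ∣ n) ⊆ S1 ∪ S2 := by
    intro n hn
    obtain ⟨h1, p, h2, h3⟩ := Finset.mem_filter.1 hn
    by_cases h4 : p ≤ P
    · exact Finset.mem_union_left _ (Finset.mem_biUnion.2 ⟨p, mem_Ioc.2 ⟨h2, h4⟩,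
        Finset.mem_filter.2 ⟨h1, h3⟩⟩)
    · exact Finset.mem_union_right _ (Finset.mem_filter.2 ⟨h1, p, by omega, h3⟩)
  have a1 : (S1.card : ℝ) ≤ h / H + P := by
    refine (Nat.cast_le.2 Finset.card_biUnion_le).trans ?_
    push_cast
    have b1 : ∑ p ∈ Ioc H P, (((Ico L (L + h)).filter (fun n => p * p ∣ n)).card : ℝ) ≤
        ∑ p ∈ Ioc H P, (h * ((p : ℝ) ^ 2)⁻¹ + 1) := by
      refine Finset.sum_le_sum (fun p hp => ?_)
      have hp0 : 0 < p := by have := (mem_Ioc.1 hp).1; omega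
      have := (abs_le.1 (cnt_abs L h (p * p) (by omega) (Nat.mul_pos hp0 hp0))).2
      push_cast at this
      rw [sq, ← div_eq_mul_inv]; linarith
    rw [Finset.sum_add_distrib, ← Finset.mul_sum, Finset.sum_const, nsmul_eq_mul, mul_one,
      Nat.card_Ioc] at b1
    have b2 : ∑ p ∈ Ioc H P, ((p : ℝ) ^ 2)⁻¹ ≤ (H : ℝ)⁻¹ := by
      by_cases hHP : H ≤ P
      · have := sum_Ioc_inv_sq_le_sub (α := ℝ) (by omega : H ≠ 0) hHP
        have : (0 : ℝ) ≤ (P : ℝ)⁻¹ := by positivity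
        linarith
      · rw [Finset.Ioc_eq_empty (by omega)]; simp
    have b3 : ((P - H : ℕ) : ℝ) ≤ P := by exact_mod_cast Nat.sub_le P H
    have b4 := mul_le_mul_of_nonneg_left b2 (Nat.cast_nonneg h : (0 : ℝ) ≤ h)
    rw [div_eq_mul_inv]; linarith
  have a2 : (S2.card : ℝ) ≤ 2 * X / P ^ 2 := by
    have hch : ∀ n : ℕ, ∃ t : ℕ, n ∈ S2 → ∃ p : ℕ, P < p ∧ n = p * p * t := by
      intro n
      by_cases hn : n ∈ S2
      · obtain ⟨-, p, h2, t, h3⟩ := Finset.mem_filter.1 hn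
        exact ⟨t, fun _ => ⟨p, h2, h3⟩⟩
      · exact ⟨0, fun h => absurd h hn⟩
    choose t ht using hch
    have b1 : S2.card ≤ (Icc 1 (2 * X / P ^ 2)).card := by
      refine Finset.card_le_card_of_injOn t (fun n hn => ?_) ?_
      · obtain ⟨p, h1, h2⟩ := ht n hn
        obtain ⟨h3, h4⟩ := mem_Ico.1 (Finset.mem_filter.1 hn).1
        refine mem_coe.2 (mem_Icc.2 ⟨?_, ?_⟩)
        · rcases Nat.eq_zero_or_pos (t n) with h0 | h0
          · rw [h0] at h2; omega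
          · exact h0
        · rw [Nat.le_div_iff_mul_le (by positivity)]
          have : P * P ≤ p * p := Nat.mul_le_mul h1.le h1.le
          nlinarith
      · have gap : ∀ p q u : ℕ, p < q → p * p * u ∈ Ico L (L + h) → q * q * u ∈ Ico L (L + h) →
            False := by
          intro p q u hpq h1 h2
          obtain ⟨h3, -⟩ := mem_Ico.1 h1
          obtain ⟨-, h4⟩ := mem_Ico.1 h2
          have u0 : 0 < u := by
            rcases Nat.eq_zero_or_pos u with h0 | h0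
            · rw [h0] at h3; omega
            · exact h0
          have c1 : (p + 1) * (p + 1) * u ≤ q * q * u :=
            Nat.mul_le_mul_right _ (Nat.mul_le_mul hpq hpq)
          have c2 : p * u < h := by nlinarith
          have c3 : p * u * (p * u) < h * h := Nat.mul_lt_mul'' c2 c2
          have c4 : p * p * u ≤ p * u * (p * u) := by
            have := Nat.mul_le_mul_left (p * p * u) u0
            nlinarith
          nlinarith
        intro a ha b hb hab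
        obtain ⟨p, -, h2⟩ := ht a ha
        obtain ⟨q, -, h3⟩ := ht b hb
        have h4 := (Finset.mem_filter.1 (mem_coe.1 ha)).1
        have h5 := (Finset.mem_filter.1 (mem_coe.1 hb)).1
        rw [← hab] at h3
        rcases lt_trichotomy p q with h | h | h
        · exact (gap p q (t a) h (h2 ▸ h4) (h3 ▸ h5)).elim
        · rw [h2, h3, h]
        · exact (gap q p (t a) h (h3 ▸ h5) (h2 ▸ h4)).elim
    rw [Nat.card_Icc, add_tsub_cancel_right] at b1
    refine (Nat.cast_le.2 b1).trans (Nat.cast_div_le.trans_eq ?_)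
    push_cast; rfl
  have := (Finset.card_le_card hsub).trans (Finset.card_union_le _ _)
  have : (((Ico L (L + h)).filter (fun n => ∃ p : ℕ, H < p ∧ p * p ∣ n)).card : ℝ) ≤
    S1.card + S2.card := by exact_mod_cast this
  linarith

lemma log_sqfree (n M : ℕ) (hn : n ≠ 0) (hM : n ≤ M) (h : ∀ p : ℕ, p.Prime → ¬ p * p ∣ n) :
    Real.log n = ∑ p ∈ M.primesLE, if p ∣ n then Real.log p else 0 := by
  have h1 : Squarefree n := Nat.squarefree_iff_prime_squarefree.2 h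
  rw [← Finset.sum_filter]
  have : M.primesLE.filter (fun p => p ∣ n) = n.primeFactors := by
    ext p
    rw [Finset.mem_filter, Nat.mem_primesLE, Nat.mem_primeFactors]
    constructor
    · rintro ⟨⟨-, h2⟩, h3⟩; exact ⟨h2, h3, hn⟩
    · rintro ⟨h2, h3, -⟩
      exact ⟨⟨(Nat.le_of_dvd (Nat.pos_of_ne_zero hn) h3).trans hM, h2⟩, h3⟩
  rw [this, ← Real.log_prod (fun q hq => by
    exact_mod_cast (Nat.prime_of_mem_primeFactors hq).ne_zero), ← Nat.cast_prod,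
    Nat.prod_primeFactors_of_squarefree h1]

open Classical in
/-- Chebyshev's argument for rough numbers in a short interval. -/
theorem pool_bound {U Lw U' : DS} {D D' : ℝ} (H H' : ℕ) (hU : U.ok H.primesLE D)
    (hLw : Lw.ok H.primesLE D) (hU' : U'.ok H'.primesLE D')
    (hup : ∀ n, ind H.primesLE n ≤ U.ev n) (hlo : ∀ n, Lw.ev n ≤ ind H.primesLE n)
    (hup' : ∀ n, ind H'.primesLE n ≤ U'.ev n) (hm : 0 ≤ U.mean) (hm' : 0 ≤ U'.mean)
    (L h X Y i0 i1 : ℕ) (hL : X ≤ L) (hX : L + h ≤ 2 * X) (hh : h ^ 2 ≤ X) (hH : 1 ≤ H)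
    (hX1 : 1 ≤ X) (hH' : H' < 2 ^ i0) (hY : Y < 2 ^ i1) (Err : ℝ) (hErr : 0 ≤ Err)
    (hfr : ∀ i, i0 ≤ i → i < i1 → ∀ d d' : ℕ, 0 < d → (d : ℝ) ≤ D → 0 < d' → (d' : ℝ) ≤ D' →
      ∀ x : ℕ, L - 1 ≤ x → x ≤ L + h - 1 →
      |∑ k ∈ Ico ⌈((2 ^ i : ℕ) : ℝ) / d'⌉₊ ⌈(2 * (2 ^ i : ℕ) : ℝ) / d'⌉₊,
        (Int.fract ((x : ℝ) / (d * d') / k) - 1 / 2)| ≤ Err) :
    (h * Lw.mean - Lw.nrm) * Real.log X ≤
      (h * U.mean * (Real.log (2 ^ i0 : ℕ) + 2) + 2 * U.nrm * (2 ^ i0 : ℕ)) +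
      Real.log (2 * X) * ((i1 - i0 : ℕ) * (h * U.mean * (U'.mean + U'.nrm / (2 ^ i0 : ℕ)) +
        U.nrm * U'.nrm * (2 * Err)) + (h / H + (2 ^ i0 : ℕ) + 2 * X / (2 ^ i0 : ℕ) ^ 2) +
      ((Ico L (L + h)).filter (fun n => (∀ q : ℕ, q.Prime → q ∣ n → H < q) ∧
        ∃ p : ℕ, p.Prime ∧ p ∣ n ∧ Y < p)).card) := by
  set R : ℕ → Prop := fun n => ∀ q : ℕ, q.Prime → q ∣ n → H < q with hR
  set A := (Ico L (L + h)).filter R with hA
  have hL1 : 1 ≤ L := by omega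
  have hX0 : (1 : ℝ) ≤ X := by exact_mod_cast hX1
  have lX : 0 ≤ Real.log X := Real.log_nonneg hX0
  have l2X : 0 ≤ Real.log (2 * X) := Real.log_nonneg (by linarith)
  have hRQ : ∀ k n, R n → ∀ q ∈ H.primesLE, k ∣ n → ¬ q ∣ n / k := by
    intro k n h1 q hq hk h2
    obtain ⟨h3, h4⟩ := Nat.mem_primesLE.1 hq
    have := h1 q h4 (h2.trans (Nat.div_dvd_of_dvd hk))
    omega
  have a1 : h * Lw.mean - Lw.nrm ≤ A.card := by
    have b1 := (abs_le.1 (W_abs hLw L h 1 hL1 one_pos)).1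
    unfold W at b1
    simp only [one_dvd, if_true, Nat.div_one, Nat.cast_one, div_one] at b1
    have b2 : ∑ n ∈ Ico L (L + h), Lw.ev n ≤ A.card := by
      rw [hA, Finset.card_filter]
      push_cast
      refine Finset.sum_le_sum (fun n _ => (hlo n).trans ?_)
      split_ifs with h1
      · exact (ind_eq_one (fun q hq => by simpa using hRQ 1 n h1 q hq (one_dvd _))).le
      · simp only [hR, not_forall] at h1
        obtain ⟨q, h2, h3, h4⟩ := h1
        exact (ind_eq_zero (Nat.mem_primesLE.2 ⟨by omega, h2⟩) h3).le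
    linarith
  have hAp : ∀ p : ℕ, ∑ n ∈ A, (if p ∣ n then (1 : ℝ) else 0) ≤ W U L h p := by
    intro p
    refine le_trans (le_of_eq ?_) (card_le_W hup L h p R (fun n h1 h2 q hq => hRQ p n h2 q hq h1))
    rw [← Finset.sum_filter, Finset.sum_const, nsmul_eq_mul, mul_one, hA, Finset.filter_filter]
    congr 2
    ext n; simp only [Finset.mem_filter]; tauto
  have pt : ∀ n ∈ A, Real.log X ≤
      (∑ p ∈ (Nat.primesLE (2 ^ i0) : Finset ℕ), Real.log (p : ℕ) * if p ∣ n then 1 else 0) +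
      Real.log (2 * X) * ((∑ i ∈ Ico i0 i1, ∑ k ∈ Ico (2 ^ i) (2 * 2 ^ i),
          U'.ev k * if k ∣ n then 1 else 0) +
        (if ∃ p : ℕ, H < p ∧ p * p ∣ n then 1 else 0) +
        (if ∃ p : ℕ, p.Prime ∧ p ∣ n ∧ Y < p then 1 else 0)) := by
    intro n hn
    obtain ⟨h1, h2⟩ := Finset.mem_filter.1 hn
    obtain ⟨h3, h4⟩ := mem_Ico.1 h1
    have hn0 : n ≠ 0 := by omega
    have ln1 : Real.log X ≤ Real.log n :=
      Real.log_le_log (by linarith) (by exact_mod_cast hL.trans h3)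
    have ln2 : Real.log n ≤ Real.log (2 * X) :=
      Real.log_le_log (by exact_mod_cast Nat.pos_of_ne_zero hn0)
        (by exact_mod_cast (by omega : n ≤ 2 * X))
    have s1 : 0 ≤ ∑ p ∈ (Nat.primesLE (2 ^ i0) : Finset ℕ), Real.log (p : ℕ) * if p ∣ n then 1 else 0 :=
      Finset.sum_nonneg (fun p _ => mul_nonneg (Real.log_natCast_nonneg p)
        (by split_ifs <;> norm_num))
    have t0 : ∀ k, 0 ≤ U'.ev k * if k ∣ n then 1 else 0 := fun k =>
      mul_nonneg ((ind_nonneg _ _).trans (hup' k)) (by split_ifs <;> norm_num)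
    have s2 : 0 ≤ ∑ i ∈ Ico i0 i1, ∑ k ∈ Ico (2 ^ i) (2 * 2 ^ i),
        U'.ev k * if k ∣ n then 1 else 0 :=
      Finset.sum_nonneg (fun i _ => Finset.sum_nonneg (fun k _ => t0 k))
    have s3 : (0 : ℝ) ≤ if ∃ p : ℕ, H < p ∧ p * p ∣ n then 1 else 0 := by split_ifs <;> norm_num
    have s4 : (0 : ℝ) ≤ if ∃ p : ℕ, p.Prime ∧ p ∣ n ∧ Y < p then 1 else 0 := by
      split_ifs <;> norm_num
    by_cases c1 : ∃ p : ℕ, H < p ∧ p * p ∣ n
    · rw [if_pos c1]; nlinarith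
    by_cases c2 : ∃ p : ℕ, p.Prime ∧ p ∣ n ∧ Y < p
    · rw [if_pos c2]; nlinarith
    by_cases c3 : ∃ p : ℕ, p.Prime ∧ p ∣ n ∧ 2 ^ i0 ≤ p
    · obtain ⟨p, p1, p2, p3⟩ := c3
      have p4 : p ≤ Y := by
        by_contra hc
        exact c2 ⟨p, p1, p2, by omega⟩
      have p5 : lg p ∈ Ico i0 i1 := by
        refine mem_Ico.2 ⟨?_, ?_⟩
        · have := lg_mono p3
          rwa [lg_eq le_rfl (Nat.pow_lt_pow_right (by norm_num) (Nat.lt_succ_self i0))] at this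
        · exact (Nat.pow_lt_pow_iff_right (by norm_num : 1 < 2)).1
            (lt_of_le_of_lt (lg_le p1.ne_zero) (by omega))
      have p6 : p ∈ Ico (2 ^ lg p) (2 * 2 ^ lg p) :=
        mem_Ico.2 ⟨lg_le p1.ne_zero, by have := lt_lg p; rw [pow_succ] at this; omega⟩
      have q1 := Finset.single_le_sum (f := fun k => U'.ev k * if k ∣ n then (1 : ℝ) else 0)
        (fun k _ => t0 k) p6
      have q2 := Finset.single_le_sum (f := fun i => ∑ k ∈ Ico (2 ^ i) (2 * 2 ^ i),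
        U'.ev k * if k ∣ n then (1 : ℝ) else 0)
        (fun i _ => Finset.sum_nonneg (fun k _ => t0 k)) p5
      have q3 : 1 ≤ U'.ev p := by
        rw [← ind_eq_one (Q := H'.primesLE) (n := p) (fun q hq hd => by
          obtain ⟨h5, h6⟩ := Nat.mem_primesLE.1 hq
          have := (Nat.prime_dvd_prime_iff_eq h6 p1).1 hd
          omega)]
        exact hup' p
      simp only [if_pos p2, mul_one] at q1
      have q4 : 1 ≤ ∑ i ∈ Ico i0 i1, ∑ k ∈ Ico (2 ^ i) (2 * 2 ^ i),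
        U'.ev k * if k ∣ n then (1 : ℝ) else 0 := q3.trans (q1.trans q2)
      nlinarith
    · have e := log_sqfree n (2 * X) hn0 (by omega) (fun p hp hd =>
        c1 ⟨p, h2 p hp ((Dvd.intro _ rfl).trans hd), hd⟩)
      have q1 : ∑ p ∈ (Nat.primesLE (2 * X) : Finset ℕ), (if p ∣ n then Real.log (p : ℕ) else 0) ≤
          ∑ p ∈ (Nat.primesLE (2 ^ i0) : Finset ℕ), Real.log (p : ℕ) * if p ∣ n then 1 else 0 := by
        rw [← Finset.sum_filter]
        simp only [mul_ite, mul_one, mul_zero]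
        rw [← Finset.sum_filter]
        refine Finset.sum_le_sum_of_subset_of_nonneg (fun p hp => ?_)
          (fun p _ _ => Real.log_natCast_nonneg p)
        obtain ⟨h5, h6⟩ := Finset.mem_filter.1 hp
        have h7 := (Nat.mem_primesLE.1 h5).2
        refine Finset.mem_filter.2 ⟨Nat.mem_primesLE.2 ⟨?_, h7⟩, h6⟩
        by_contra hc
        exact c3 ⟨p, h7, h6, by omega⟩
      have := mul_nonneg l2X (add_nonneg (add_nonneg s2 s3) s4)
      linarith
  have sm := Finset.sum_le_sum pt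
  rw [Finset.sum_const, nsmul_eq_mul, Finset.sum_add_distrib, ← Finset.mul_sum,
    Finset.sum_add_distrib, Finset.sum_add_distrib] at sm
  have hQ0 : (1 : ℝ) ≤ (2 ^ i0 : ℕ) := by exact_mod_cast Nat.one_le_two_pow
  have b1 : ∑ n ∈ A, ∑ p ∈ (Nat.primesLE (2 ^ i0) : Finset ℕ), Real.log (p : ℕ) * (if p ∣ n then (1 : ℝ) else 0) ≤
      h * U.mean * (Real.log (2 ^ i0 : ℕ) + 2) + 2 * U.nrm * (2 ^ i0 : ℕ) := by
    rw [Finset.sum_comm]
    have c1 : ∀ p ∈ (Nat.primesLE (2 ^ i0) : Finset ℕ), ∑ n ∈ A, Real.log p * (if p ∣ n then (1 : ℝ) else 0) ≤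
        h * U.mean * (Real.log p / p) + U.nrm * Real.log p := by
      intro p hp
      rw [← Finset.mul_sum]
      have c2 := (abs_le.1 (W_abs hU L h p hL1 (Nat.mem_primesLE.1 hp).2.pos)).2
      refine (mul_le_mul_of_nonneg_left ((hAp p).trans (show _ ≤ h / p * U.mean + U.nrm by
        linarith)) (Real.log_natCast_nonneg p)).trans_eq (by ring)
    refine (Finset.sum_le_sum c1).trans ?_
    rw [Finset.sum_add_distrib, ← Finset.mul_sum, ← Finset.mul_sum]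
    have c3 := mul_le_mul_of_nonneg_left (mertens (2 ^ i0) Nat.one_le_two_pow)
      (by positivity : 0 ≤ h * U.mean)
    have c4 := mul_le_mul_of_nonneg_left (theta_le (2 ^ i0)) U.nrm_nonneg
    linarith
  have b2 : ∑ n ∈ A, ∑ i ∈ Ico i0 i1, ∑ k ∈ Ico (2 ^ i) (2 * 2 ^ i),
      U'.ev k * (if k ∣ n then (1 : ℝ) else 0) ≤
      (i1 - i0 : ℕ) * (h * U.mean * (U'.mean + U'.nrm / (2 ^ i0 : ℕ)) +
        U.nrm * U'.nrm * (2 * Err)) := by
    rw [Finset.sum_comm, ← Nat.card_Ico, ← nsmul_eq_mul]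
    refine Finset.sum_le_card_nsmul _ _ _ (fun i hi => ?_)
    obtain ⟨i2, i3⟩ := mem_Ico.1 hi
    rw [Finset.sum_comm]
    have c1 := mid_bound hU hU' hup' hm L h (2 ^ i) hL1 Nat.one_le_two_pow Err (hfr i i2 i3)
    have c2 : ∑ k ∈ Ico (2 ^ i) (2 * 2 ^ i), ∑ n ∈ A, U'.ev k * (if k ∣ n then (1 : ℝ) else 0) ≤
        ∑ k ∈ Ico (2 ^ i) (2 * 2 ^ i), U'.ev k * W U L h k := by
      refine Finset.sum_le_sum (fun k _ => ?_)
      rw [← Finset.mul_sum]
      exact mul_le_mul_of_nonneg_left (hAp k) ((ind_nonneg _ _).trans (hup' k))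
    have c3 : U'.nrm / (2 ^ i : ℕ) ≤ U'.nrm / (2 ^ i0 : ℕ) :=
      div_le_div_of_nonneg_left U'.nrm_nonneg (by linarith)
        (by exact_mod_cast Nat.pow_le_pow_right (by norm_num) i2)
    have c4 := mul_le_mul_of_nonneg_left c3 (by positivity : 0 ≤ h * U.mean)
    linarith
  have b3 : ∑ n ∈ A, (if ∃ p : ℕ, H < p ∧ p * p ∣ n then (1 : ℝ) else 0) ≤
      h / H + (2 ^ i0 : ℕ) + 2 * X / (2 ^ i0 : ℕ) ^ 2 := by
    refine le_trans ?_ (sq_count L h H (2 ^ i0) X hL hX hh hH Nat.one_le_two_pow hX1)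
    rw [← Finset.sum_filter, Finset.sum_const, nsmul_eq_mul, mul_one]
    exact Nat.cast_le.2 (Finset.card_le_card
      (Finset.filter_subset_filter _ (Finset.filter_subset _ _)))
  have b4 : ∑ n ∈ A, (if ∃ p : ℕ, p.Prime ∧ p ∣ n ∧ Y < p then (1 : ℝ) else 0) =
      ((Ico L (L + h)).filter (fun n => (∀ q : ℕ, q.Prime → q ∣ n → H < q) ∧
        ∃ p : ℕ, p.Prime ∧ p ∣ n ∧ Y < p)).card := by
    rw [← Finset.sum_filter, Finset.sum_const, nsmul_eq_mul, mul_one, hA, Finset.filter_filter]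
  rw [b4] at sm
  have b5 := mul_le_mul_of_nonneg_right a1 lX
  have b6 := mul_le_mul_of_nonneg_left (add_le_add b2 b3) l2X
  linarith

end Pool.Agent.H59.MO
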