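import Mathlib
import Pool.Agent.H59.MOPool
import Pool.Agent.H59.MOCount

/-! Size estimates with powers of two. -/

set_option autoImplicit false

namespace Pool.Agent.H59.MO

open Finset Filter Topology

/-- Real powers of two. -/
noncomputable def p2 (a : ℝ) : ℝ := (2 : ℝ) ^ a

lemma p2_pos (a : ℝ) : 0 < p2 a := Real.rpow_pos_of_pos (by norm_num) a

lemma p2_add (a b : ℝ) : p2 (a + b) = p2 a * p2 b := Real.rpow_add (by norm_num) a b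

lemma p2_sub (a b : ℝ) : p2 (a - b) = p2 a / p2 b := Real.rpow_sub (by norm_num) a b

lemma p2_mono {a b : ℝ} (h : a ≤ b) : p2 a ≤ p2 b :=
  Real.rpow_le_rpow_of_exponent_le (by norm_num) h

lemma p2_nat (n : ℕ) : p2 n = 2 ^ n := Real.rpow_natCast 2 n

lemma p2_cast (n : ℕ) : ((2 ^ n : ℕ) : ℝ) = p2 n := by rw [p2_nat]; push_cast; rfl

lemma p2_zero : p2 0 = 1 := Real.rpow_zero 2

lemma p2_one : p2 1 = 2 := Real.rpow_one 2

lemma p2_succ (a : ℝ) : p2 (a + 1) = 2 * p2 a := by rw [p2_add, p2_one, mul_comm]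

lemma p2_addn (a : ℝ) (n : ℕ) : p2 (a + n) = 2 ^ n * p2 a := by rw [p2_add, p2_nat, mul_comm]

lemma p2_pow (a : ℝ) (n : ℕ) : p2 a ^ n = p2 (n * a) := by
  unfold p2
  rw [← Real.rpow_natCast, ← Real.rpow_mul (by norm_num), mul_comm]

lemma p2_rpow (a b : ℝ) : p2 a ^ b = p2 (a * b) := (Real.rpow_mul (by norm_num) a b).symm

lemma p2_log (a : ℝ) : Real.log (p2 a) = a * Real.log 2 := Real.log_rpow (by norm_num) a

lemma one_le_p2 {a : ℝ} (h : 0 ≤ a) : 1 ≤ p2 a := p2_zero ▸ p2_mono h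

lemma p2_le_of {u a b : ℝ} (h : u ≤ p2 a) (hab : a ≤ b) : u ≤ p2 b := h.trans (p2_mono hab)

lemma p2_ge_of {u a b : ℝ} (h : p2 a ≤ u) (hab : b ≤ a) : p2 b ≤ u := (p2_mono hab).trans h

lemma le_mul2 {u v a b : ℝ} (hu : u ≤ p2 a) (hv : v ≤ p2 b) (h0 : 0 ≤ v) :
    u * v ≤ p2 (a + b) := by
  rw [p2_add]; exact mul_le_mul hu hv h0 (p2_pos a).le

lemma le_div2 {u v a b : ℝ} (hu : u ≤ p2 a) (hv : p2 b ≤ v) : u / v ≤ p2 (a - b) := by
  rw [p2_sub]; exact div_le_div₀ (p2_pos a).le hu (p2_pos b) hv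

lemma ge_mul2 {u v a b : ℝ} (hu : p2 a ≤ u) (hv : p2 b ≤ v) : p2 (a + b) ≤ u * v := by
  rw [p2_add]; exact mul_le_mul hu hv (p2_pos b).le ((p2_pos a).le.trans hu)

lemma ge_div2 {u v a b : ℝ} (hu : p2 a ≤ u) (hv : v ≤ p2 b) (h0 : 0 < v) :
    p2 (a - b) ≤ u / v := by
  rw [p2_sub]; exact div_le_div₀ ((p2_pos a).le.trans hu) hu h0 hv

lemma le_pow2 {u a : ℝ} (hu : u ≤ p2 a) (h0 : 0 ≤ u) (n : ℕ) : u ^ n ≤ p2 (n * a) := by
  rw [← p2_pow]; exact pow_le_pow_left₀ h0 hu n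

lemma ge_pow2 {u a : ℝ} (hu : p2 a ≤ u) (n : ℕ) : p2 (n * a) ≤ u ^ n := by
  rw [← p2_pow]; exact pow_le_pow_left₀ (p2_pos a).le hu n

/-- Integral powers of two. -/
noncomputable def pw (a : ℝ) (j : ℕ) : ℕ := 2 ^ ⌊a * j⌋₊

lemma pw_pos (a : ℝ) (j : ℕ) : 0 < pw a j := by unfold pw; positivity

lemma pw_le {a : ℝ} (ha : 0 ≤ a) (j : ℕ) : (pw a j : ℝ) ≤ p2 (a * j) := by
  rw [pw, p2_cast]; exact p2_mono (Nat.floor_le (by positivity))

lemma pw_ge (a : ℝ) (j : ℕ) : p2 (a * j - 1) ≤ pw a j := by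
  rw [pw, p2_cast]; exact p2_mono (by linarith [Nat.lt_floor_add_one (a * j)])

lemma ev_p2 (C : ℝ) (A : ℕ) (c : ℝ) (hc : 0 < c) :
    ∀ᶠ j : ℕ in atTop, C * (j : ℝ) ^ A ≤ p2 (c * j) := by
  have h1 : 1 < p2 c := Real.one_lt_rpow (by norm_num) hc
  have h2 := (tendsto_pow_const_div_const_pow_of_one_lt A h1).const_mul C
  rw [mul_zero] at h2
  filter_upwards [h2.eventually (gt_mem_nhds one_pos)] with j hj
  rw [← mul_div_assoc, div_lt_one (pow_pos (p2_pos c) j), p2_pow, mul_comm (j : ℝ) c] at hj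
  exact hj.le

lemma ev_lin (C c : ℝ) (hc : 0 < c) : ∀ᶠ j : ℕ in atTop, C ≤ c * j :=
  (tendsto_natCast_atTop_atTop.const_mul_atTop hc).eventually_ge_atTop C

lemma err_arith (A z τ Q x c : ℝ) (hc : 0 ≤ c) (hc1 : c ≤ 1 / 16) (hx : 0 ≤ x)
    (A0 : 0 ≤ A) (τ0 : 0 ≤ τ) (Q0 : 0 ≤ Q) (z0 : 0 ≤ z)
    (hA : A ≤ p2 ((1 / 2 + c) * x)) (hl : z / A ^ 3 ≤ p2 ((c - 1 / 2) * x))
    (hl' : p2 (-(1 / 2 + c) * x) ≤ z / A ^ 3) (hτ : τ ≤ p2 (1 / 8 * x))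
    (hτ' : p2 (1 / 8 * x - 1) ≤ τ) (hQ : Q ≤ p2 (1 / 16 * x)) (hQ' : p2 (1 / 16 * x - 1) ≤ Q) :
    A * (1 / Q + 2 * (1 / τ + z / A ^ 3 * τ ^ 2)) +
      Q * (8 * A / τ + Q * (z / A ^ 3) * A + 24 / (τ * (z / A ^ 3)) + 3) + τ ≤
      p2 ((7 / 16 + c) * x + 7) := by
  set l := z / A ^ 3 with hld
  have l0 : 0 ≤ l := by positivity
  have cx : 0 ≤ c * x := by positivity
  have cx' : c * x ≤ 1 / 16 * x := mul_le_mul_of_nonneg_right hc1 hx
  set m := (7 / 16 + c) * x + 1 with hm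
  have t1 : A / Q ≤ p2 m := p2_le_of (le_div2 hA hQ') (by linarith)
  have t2 : A / τ ≤ p2 m := p2_le_of (le_div2 hA hτ') (by linarith)
  have t3 : A * (l * τ ^ 2) ≤ p2 m := p2_le_of (le_mul2 hA (le_mul2 hl (le_pow2 hτ τ0 2)
    (by positivity)) (by positivity)) (by push_cast; linarith)
  have t4 : Q * (A / τ) ≤ p2 m := p2_le_of (le_mul2 hQ (le_div2 hA hτ') (by positivity))
    (by linarith)
  have t5 : Q * (Q * l * A) ≤ p2 m := p2_le_of (le_mul2 hQ (le_mul2 (le_mul2 hQ hl l0) hA A0)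
    (by positivity)) (by linarith)
  have t6 : Q / (τ * l) ≤ p2 m := p2_le_of (le_div2 hQ (ge_mul2 hτ' hl')) (by linarith)
  have t7 : Q ≤ p2 m := p2_le_of hQ (by linarith)
  have t8 : τ ≤ p2 m := p2_le_of hτ (by linarith)
  have e : A * (1 / Q + 2 * (1 / τ + l * τ ^ 2)) + Q * (8 * A / τ + Q * l * A + 24 / (τ * l) + 3) + τ
      = A / Q + 2 * (A / τ) + 2 * (A * (l * τ ^ 2)) + 8 * (Q * (A / τ)) + Q * (Q * l * A) +
        24 * (Q / (τ * l)) + 3 * Q + τ := by ring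
  have e2 : p2 ((7 / 16 + c) * x + 7) = 2 ^ 6 * p2 m := by
    rw [← p2_addn]; congr 1; push_cast; linarith
  have := p2_pos m
  rw [e, e2]; linarith

lemma err_bound (j i d d' x : ℕ) (σ : ℝ) (hσ0 : 0 ≤ σ) (hσ : σ ≤ 1 / 24000) (hj : 4000 ≤ j)
    (hi : (1 / 2 - 2 * σ) * j - 1 ≤ i) (hi' : (i : ℝ) ≤ (1 / 2 + σ) * j) (hd0 : 0 < d)
    (hd : (d : ℝ) ≤ p2 (σ * j)) (hd0' : 0 < d') (hd' : (d' : ℝ) ≤ p2 (1 / 400 * j))
    (hx : p2 (j - 1) ≤ x) (hx' : (x : ℝ) ≤ p2 (j + 1)) :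
    |∑ k ∈ Ico ⌈((2 ^ i : ℕ) : ℝ) / d'⌉₊ ⌈(2 * (2 ^ i : ℕ) : ℝ) / d'⌉₊,
      (Int.fract ((x : ℝ) / (d * d') / k) - 1 / 2)| ≤ p2 ((7 / 16 + 1 / 100) * j + 7) := by
  have j0 : (4000 : ℝ) ≤ j := by exact_mod_cast hj
  have d1 : (1 : ℝ) ≤ d := by exact_mod_cast hd0
  have d1' : (1 : ℝ) ≤ d' := by exact_mod_cast hd0'
  have sj : σ * j ≤ 1 / 24000 * j := mul_le_mul_of_nonneg_right hσ (by linarith)
  have sj0 : 0 ≤ σ * j := by positivity
  set K : ℝ := ((2 ^ i : ℕ) : ℝ) with hK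
  have K1 : K = p2 i := p2_cast i
  have K0 : 0 < K := K1 ▸ p2_pos _
  set A := ⌈K / d'⌉₊ with hA
  have A1 : p2 (i - 1 / 400 * j) ≤ A := (ge_div2 K1.ge hd' (by linarith)).trans (Nat.le_ceil _)
  have A2 : (A : ℝ) ≤ p2 i := by
    rw [← K1, hK, Nat.cast_le, hA, Nat.ceil_le]
    exact div_le_self K0.le d1'
  have A0 : (0 : ℝ) < A := (p2_pos _).trans_le A1
  have z1 : (x : ℝ) / (d * d') ≤ p2 (j + 1) :=
    (div_le_self (by positivity) (by nlinarith)).trans hx'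
  have z2 := ge_div2 hx (le_mul2 hd hd' (by positivity)) (by positivity)
  refine (FracSum.fracsum _ ((p2_pos _).trans_le z2) A _ (pw (1 / 8) j) (pw (1 / 16) j)
    (by exact_mod_cast A0) (Nat.ceil_mono (by gcongr; linarith)) ?_ (pw_pos _ _)
    (pw_pos _ _)).trans ?_
  · rw [Nat.ceil_le, mul_div_assoc]
    push_cast
    exact mul_le_mul_of_nonneg_left (Nat.le_ceil _) (by norm_num)
  · refine err_arith _ _ _ _ j (1 / 100) (by norm_num) (by norm_num) (by linarith) A0.le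
      (by positivity) (by positivity) (by positivity) (p2_le_of A2 (by linarith))
      (p2_le_of (le_div2 z1 (ge_pow2 A1 3)) (by push_cast; linarith))
      (p2_ge_of (ge_div2 z2 (le_pow2 A2 A0.le 3) (by positivity)) (by push_cast; linarith))
      (pw_le (by norm_num) _) (pw_ge _ _) (pw_le (by norm_num) _) (pw_ge _ _)

lemma pool_arith (W x l i0 m P S1 S2 S3 m1 m2 m3 n1 n2 n3 E h q : ℝ) (hW : 0 < W) (hx : 100 ≤ x)
    (hl : 0.69 ≤ l) (hl' : l ≤ 1) (hi : i0 ≤ x / 2) (hi0 : 0 ≤ i0) (hP : 0 ≤ P)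
    (h1 : h * m1 ≤ 101 / 100 * W) (h1' : 0 ≤ h * m1) (h2 : 99 / 100 * W ≤ h * m2)
    (h3 : m * m3 ≤ 101 / 1000) (h3' : 0 ≤ m * m3) (h4 : n2 ≤ W / 100) (h5 : 2 * n1 * q ≤ W / 100)
    (h6 : m * (n3 / q) ≤ 1 / 100) (h6' : 0 ≤ m * (n3 / q))
    (h7 : m * (n1 * n3 * (2 * E)) ≤ W / 100) (h8 : S1 ≤ W / 100) (h9 : S2 ≤ W / 100)
    (h10 : S3 ≤ W / 100)
    (H : (h * m2 - n2) * (x * l) ≤ (h * m1 * (i0 * l + 2) + 2 * n1 * q) +
      (x + 1) * l * (m * (h * m1 * (m3 + n3 / q) + n1 * n3 * (2 * E)) + (S1 + S2 + S3) + P)) :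
    W / 4 ≤ P := by
  by_contra hc
  push Not at hc
  have xl : 69 ≤ x * l := by nlinarith
  have a1 : 98 / 100 * W * (x * l) ≤ (h * m2 - n2) * (x * l) :=
    mul_le_mul_of_nonneg_right (by linarith) (by linarith)
  have a2 : h * m1 * (i0 * l + 2) ≤ 101 / 100 * W * (x * l / 2 + 2) :=
    mul_le_mul h1 (by nlinarith) (by nlinarith) (by linarith)
  have a3 : h * m1 * (m * m3 + m * (n3 / q)) ≤ 101 / 100 * W * (111 / 1000) :=
    mul_le_mul h1 (by linarith) (by linarith) (by linarith)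
  have a4 : m * (h * m1 * (m3 + n3 / q) + n1 * n3 * (2 * E)) + (S1 + S2 + S3) + P ≤
      41 / 100 * W := by nlinarith
  have a5 : (x + 1) * l ≤ 101 / 100 * (x * l) := by nlinarith
  have a6 : (x + 1) * l * (m * (h * m1 * (m3 + n3 / q) + n1 * n3 * (2 * E)) + (S1 + S2 + S3) + P) ≤
      101 / 100 * (x * l) * (41 / 100 * W) :=
    (mul_le_mul_of_nonneg_left a4 (by nlinarith)).trans
      (mul_le_mul_of_nonneg_right a5 (by linarith))
  nlinarith [mul_le_mul_of_nonneg_left xl hW.le]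

lemma pair_arith (κ δ : ℝ) (hδ : 0 < δ) (hκδ : 100 * δ ≤ κ) (hκ : κ ≤ 1 / 100) (j j' : ℕ)
    (hj : 100 ≤ δ * j) (h1 : (1 - 10 * δ) * j ≤ j') (h2 : j' ≤ 2 * j + 1) (Bn : ℝ)
    (hB : Bn ≤ p2 (3 * δ * j')) (hp : 9 * (j : ℝ) ≤ p2 (δ / 2 * j)) :
    Bn * pairB (pw (1 / 2 - δ) j) (pw (1 / 2 - δ) j') (2 ^ j) (2 ^ j') (pw (κ / 4) j ^ 4)
      (pw (κ / 4) j' ^ 4) (pw (1 / 2 + κ) j') (j' + 1) ≤ p2 ((1 / 2 - 2 * δ) * j - 1) := by
  set x : ℝ := (j : ℝ) with hx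
  set y : ℝ := (j' : ℝ) with hy
  have x0 : 0 ≤ x := Nat.cast_nonneg _
  have y0 : 0 ≤ y := Nat.cast_nonneg _
  have y2 : y ≤ 2 * x + 1 := by rw [hx, hy]; exact_mod_cast h2
  have f1 : 100 * (δ * x) ≤ κ * x := by linarith only [mul_le_mul_of_nonneg_right hκδ x0]
  have f2 : 100 * (δ * y) ≤ κ * y := by linarith only [mul_le_mul_of_nonneg_right hκδ y0]
  have f3 : κ * x ≤ x / 100 := by linarith only [mul_le_mul_of_nonneg_right hκ x0]
  have f4 : κ * y ≤ y / 100 := by linarith only [mul_le_mul_of_nonneg_right hκ y0]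
  have f5 : x / 2 ≤ y := by linarith only [h1, f1, f3, x0]
  have f6 : κ * x / 2 ≤ κ * y := by
    linarith only [mul_le_mul_of_nonneg_left f5 (show 0 ≤ κ by linarith)]
  have f7 : δ * y ≤ 2 * (δ * x) + 1 := by
    linarith only [mul_le_mul_of_nonneg_left y2 hδ.le, hκδ, hκ]
  have f8 : 0 ≤ δ * y := by positivity
  have hh := pw_le (a := 1 / 2 - δ) (by linarith) j
  have hh' := pw_le (a := 1 / 2 - δ) (by linarith) j'
  have hT := ge_pow2 (pw_ge (κ / 4) j) 4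
  have hH := ge_pow2 (pw_ge (κ / 4) j') 4
  have hY := pw_ge (1 / 2 + κ) j'
  have hX : (2 : ℝ) * p2 x ≤ p2 (x + 1) := (p2_succ x).ge
  have hX' : (2 : ℝ) * p2 y ≤ p2 (y + 1) := (p2_succ y).ge
  have X0 := p2_pos x
  have Y0 := p2_pos y
  unfold pairB
  rw [p2_cast, p2_cast]
  push_cast at hT hH ⊢
  rw [← hx, ← hy] at *
  set h : ℝ := (pw (1 / 2 - δ) j : ℝ)
  set h' : ℝ := (pw (1 / 2 - δ) j' : ℝ)
  set T : ℝ := (pw (κ / 4) j : ℝ) ^ 4
  set H' : ℝ := (pw (κ / 4) j' : ℝ) ^ 4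
  set Y' : ℝ := (pw (1 / 2 + κ) j' : ℝ)
  have h0 : 0 ≤ h := Nat.cast_nonneg _
  have h0' : 0 ≤ h' := Nat.cast_nonneg _
  have Y0' : 0 < Y' := (p2_pos _).trans_le hY
  have T0 : 0 < T := (p2_pos _).trans_le hT
  have w1 := le_div2 hh (le_refl (p2 y))
  have w2 := le_div2 (le_mul2 hX hh' h0') (ge_pow2 (le_refl (p2 y)) 2)
  have w10 : 0 ≤ h / p2 y := by positivity
  have w20 : 0 ≤ 2 * p2 x * h' / p2 y ^ 2 := by positivity
  set u1 := h / p2 y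
  set u2 := 2 * p2 x * h' / p2 y ^ 2
  have M1 := le_div2 hX' hY
  have M0 : 0 ≤ 2 * p2 y / Y' := by positivity
  set M := 2 * p2 y / Y'
  have S0 : p2 ((4 * (κ / 4 * y - 1) + y - (x + 1)) / 2) ≤ √(H' * p2 y / (2 * p2 x)) := by
    refine Real.le_sqrt_of_sq_le ?_
    rw [p2_pow]
    exact p2_ge_of (ge_div2 (ge_mul2 hH (le_refl (p2 y))) hX (by positivity))
      (by push_cast; linarith only [x0, y0, y2, f1, f2, f3, f4, f5, f6, f7, f8, hj, h1])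
  set R := √(H' * p2 y / (2 * p2 x))
  obtain ⟨m, hm⟩ : ∃ m, m = (1 / 2 - 3 * δ) * x + 4 := ⟨_, rfl⟩
  have B0 := p2_pos (3 * δ * y)
  have u1' : u1 ≤ 1 := (p2_le_of w1 
    (by linarith only [hm, x0, y0, y2, f1, f2, f3, f4, f5, f6, f7, f8, hj, h1])).trans_eq p2_zero
  have u2' : u2 ≤ 1 := (p2_le_of w2 
    (by push_cast; linarith only [hm, x0, y0, y2, f1, f2, f3, f4, f5, f6, f7, f8, hj, h1])).trans_eq p2_zero
  set b := p2 (3 * δ * y) with hb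
  have t1 : b * (h / T) ≤ p2 m := p2_le_of (le_mul2 hb.le (le_div2 hh hT) (by positivity))
    
    (by linarith only [hm, x0, y0, y2, f1, f2, f3, f4, f5, f6, f7, f8, hj, h1])
  have t2 : b ≤ p2 m := p2_le_of hb.le 
    (by linarith only [hm, x0, y0, y2, f1, f2, f3, f4, f5, f6, f7, f8, hj, h1])
  have t3 : b * (M * h' * u1) ≤ p2 m := p2_le_of (le_mul2 hb.le (le_mul2 (le_mul2 M1 hh' h0') w1
    w10) (by positivity)) 
    (by linarith only [hm, x0, y0, y2, f1, f2, f3, f4, f5, f6, f7, f8, hj, h1])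
  have t4 : b * (M * h' * u2) ≤ p2 m := p2_le_of (le_mul2 hb.le (le_mul2 (le_mul2 M1 hh' h0') w2
    w20) (by positivity)) 
    (by push_cast; linarith only [hm, x0, y0, y2, f1, f2, f3, f4, f5, f6, f7, f8, hj, h1])
  have t5 : b * (M ^ 2 * u1) ≤ p2 m := p2_le_of (le_mul2 hb.le (le_mul2 (le_pow2 M1 M0 2) w1
    w10) (by positivity)) 
    (by push_cast; linarith only [hm, x0, y0, y2, f1, f2, f3, f4, f5, f6, f7, f8, hj, h1])
  have t6 : b * (M ^ 2 * u2) ≤ p2 m := p2_le_of (le_mul2 hb.le (le_mul2 (le_pow2 M1 M0 2) w2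
    w20) (by positivity)) 
    (by push_cast; linarith only [hm, x0, y0, y2, f1, f2, f3, f4, f5, f6, f7, f8, hj, h1])
  have R0 : 0 < R := (p2_pos _).trans_le S0
  have t7 : b * (h' / R) ≤ p2 m := p2_le_of (le_mul2 hb.le (le_div2 hh' S0) (by positivity))
    
    (by linarith only [hm, x0, y0, y2, f1, f2, f3, f4, f5, f6, f7, f8, hj, h1])
  have m0 := p2_pos m
  have s1 : b * ((u1 + u2 + 1) * (h / T + 1)) ≤ 6 * p2 m := by
    have : (u1 + u2 + 1) * (h / T + 1) ≤ 3 * (h / T + 1) :=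
      mul_le_mul_of_nonneg_right (by linarith only [u1', u2']) (by positivity)
    linarith only [mul_le_mul_of_nonneg_left this B0.le, t1, t2]
  have s2 : b * ((4 * M * h' + 4 * M ^ 2) * (u1 + u2) + 2 * h' / R + 1) ≤ 19 * p2 m := by
    have : b * ((4 * M * h' + 4 * M ^ 2) * (u1 + u2) + 2 * h' / R + 1) =
      4 * (b * (M * h' * u1)) + 4 * (b * (M * h' * u2)) + 4 * (b * (M ^ 2 * u1)) +
        4 * (b * (M ^ 2 * u2)) + 2 * (b * (h' / R)) + b := by ring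
    linarith only [this, t2, t3, t4, t5, t6, t7]
  have s3 : (y + 1) * (b * ((4 * M * h' + 4 * M ^ 2) * (u1 + u2) + 2 * h' / R + 1)) ≤
      (2 * x + 2) * (19 * p2 m) := mul_le_mul (by linarith only [y2]) s2 (by positivity) (by positivity)
  have s4 := le_mul2 hp (le_refl (p2 (m + (3 : ℕ)))) (p2_pos _).le
  rw [p2_addn] at s4
  have x1 : 100 ≤ x := by linarith only [hj, f1, f3, x0]
  refine le_trans (mul_le_mul_of_nonneg_right hB (by positivity)) (le_trans ?_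
    (p2_le_of s4 (by push_cast; linarith only [hm, x0, y0, y2, f1, f2, f3, f4, f5, f6, f7, f8, hj, h1])))
  linarith only [s1, s3, mul_le_mul_of_nonneg_right x1 m0.le, m0]

end Pool.Agent.H59.MO
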