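import Mathlib
import Pool.Agent.H59.MOA1

/-! The sieve hypotheses for the explicit parameters. -/

set_option autoImplicit false

namespace Pool.Agent.H59.MO

open Finset Filter Topology Pool.Agent.H59.BH

/-- The statement of the fundamental lemma with exponent `s`. -/
def FL (s : ℕ) : Prop := ∀ N : ℕ, 1 ≤ N → ∃ U L : DS,
    U.ok N.primesLE ((N : ℝ) ^ s) ∧ L.ok N.primesLE ((N : ℝ) ^ s) ∧ U.nrm ≤ (N : ℝ) ^ s ∧
    L.nrm ≤ (N : ℝ) ^ s ∧ (∀ n, ind N.primesLE n ≤ U.ev n) ∧ (∀ n, L.ev n ≤ ind N.primesLE n) ∧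
    0 ≤ U.mean ∧ U.mean ≤ 101 / 100 * V N.primesLE ∧ 99 / 100 * V N.primesLE ≤ L.mean

/-- Relations between the exponents. -/
structure Ex (s : ℕ) (κ δ σ : ℝ) : Prop where
  d0 : 0 < δ
  dk : 100 * δ ≤ κ
  ks : κ ≤ σ
  s1 : σ ≤ 1 / 24000
  sk : s * κ = σ
  ss : s * σ = 1 / 24000

lemma H_le {κ : ℝ} (hκ : 0 ≤ κ) (j : ℕ) : ((pw (κ / 4) j ^ 4 : ℕ) : ℝ) ≤ p2 (κ * j) := by
  push_cast
  exact p2_le_of (le_pow2 (pw_le (by positivity) j) (by positivity) 4) (by push_cast; linarith)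

lemma H_ge (κ : ℝ) (j : ℕ) : p2 (κ * j - 4) ≤ ((pw (κ / 4) j ^ 4 : ℕ) : ℝ) := by
  push_cast
  exact p2_ge_of (ge_pow2 (pw_ge _ j) 4) (by push_cast; linarith)

lemma Ex.facts {s : ℕ} {κ δ σ : ℝ} (E : Ex s κ δ σ) (x : ℝ) (hx : 100 ≤ δ * x) :
    0 ≤ x ∧ 100 * (δ * x) ≤ κ * x ∧ κ * x ≤ σ * x ∧ σ * x ≤ x / 24000 := by
  have x0 : 0 ≤ x := by
    by_contra hc
    nlinarith [E.d0]
  have a1 := mul_le_mul_of_nonneg_right E.dk x0
  have a2 := mul_le_mul_of_nonneg_right E.ks x0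
  have a3 := mul_le_mul_of_nonneg_right E.s1 x0
  exact ⟨x0, by linarith, a2, by linarith⟩

open Classical in
lemma sieve3 {s : ℕ} {κ δ σ : ℝ} (E : Ex s κ δ σ) (F : FL s) (j j' L k : ℕ) (hj : 100 ≤ δ * j)
    (hj' : j' ≤ j) (hV : p2 (-(δ / 16 * j')) ≤ V (pw (κ / 4) j' ^ 4).primesLE) (hL : 1 ≤ L)
    (hk0 : 0 < k) (hk : k ≤ pw (κ / 4) j ^ 4) (R : ℕ → Prop)
    (hR : ∀ m, k * m ∈ Ico L (L + pw (1 / 2 - δ) j) → R m →
      ∀ q ∈ (pw (κ / 4) j' ^ 4).primesLE, ¬ q ∣ m) :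
    (((range (L + pw (1 / 2 - δ) j)).filter
      (fun m => k * m ∈ Ico L (L + pw (1 / 2 - δ) j) ∧ R m)).card : ℝ) ≤
      3 * (pw (1 / 2 - δ) j / k) * V (pw (κ / 4) j' ^ 4).primesLE := by
  obtain ⟨f0, f1, f2, f3⟩ := E.facts j hj
  have k0 : 0 ≤ κ := by linarith [E.d0, E.dk]
  obtain ⟨U, -, u1, -, u2, -, u3, -, -, u4, -⟩ := F (pw (κ / 4) j' ^ 4)
    (Nat.one_le_pow _ _ (pw_pos _ _))
  have a1 := sieve_up u1 u3 L (pw (1 / 2 - δ) j) k hL hk0 R hR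
  have y1 : (j' : ℝ) ≤ j := by exact_mod_cast hj'
  have y2 := mul_le_mul_of_nonneg_left y1 E.d0.le
  have y3 := mul_le_mul_of_nonneg_left y1 (k0.trans E.ks)
  have a2 := u2.trans (le_pow2 (H_le k0 j') (by positivity) s)
  rw [← mul_assoc, E.sk] at a2
  have a3 := ge_mul2 (ge_div2 (pw_ge (1 / 2 - δ) j)
    ((Nat.cast_le.2 hk).trans (H_le k0 j)) (by exact_mod_cast hk0)) hV
  have a4 := a2.trans (p2_ge_of a3 (by linarith))
  have a5 := mul_le_mul_of_nonneg_left u4 (by positivity : (0 : ℝ) ≤ pw (1 / 2 - δ) j / k)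
  have a6 := (p2_pos _).trans_le a3
  linarith

lemma V_small {s : ℕ} {κ δ σ : ℝ} (E : Ex s κ δ σ) (j : ℕ) (hj : 100 ≤ δ * j) :
    V (pw (κ / 4) j ^ 4).primesLE ≤ 4 / κ / j := by
  obtain ⟨f0, f1, f2, f3⟩ := E.facts j hj
  have a1 := H_ge κ j
  have a2 : 2 ≤ pw (κ / 4) j ^ 4 := by
    have := p2_ge_of a1 (show (1 : ℝ) ≤ κ * j - 4 by linarith)
    rw [p2_one] at this
    exact_mod_cast this
  refine (V_le _ a2).trans ?_
  have a3 := Real.log_le_log (p2_pos _) a1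
  rw [p2_log] at a3
  have a4 := Real.log_two_gt_d9
  have a5 : κ * j / 4 ≤ Real.log ((pw (κ / 4) j ^ 4 : ℕ) : ℝ) := by nlinarith
  rw [div_div, div_le_div_iff₀ (by linarith) (by linarith)]
  linarith

open Classical in
lemma pool_ok {s : ℕ} {κ δ σ : ℝ} (E : Ex s κ δ σ) (F : FL s) (j L : ℕ) (hj : 100 ≤ δ * j)
    (hj2 : (j : ℝ) ≤ p2 (δ / 8 * j))
    (hV : p2 (-(δ / 16 * j)) ≤ V (pw (κ / 4) j ^ 4).primesLE) (hL : 2 ^ j ≤ L)
    (hL2 : L + pw (1 / 2 - δ) j ≤ 2 * 2 ^ j) :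
    (pw (1 / 2 - δ) j : ℝ) * V (pw (κ / 4) j ^ 4).primesLE / 4 ≤
      ((Ico L (L + pw (1 / 2 - δ) j)).filter (fun n =>
        (∀ q : ℕ, q.Prime → q ∣ n → pw (κ / 4) j ^ 4 < q) ∧
        ∃ p : ℕ, p.Prime ∧ p ∣ n ∧ pw (1 / 2 + κ) j < p)).card := by
  obtain ⟨f0, f1, f2, f3⟩ := E.facts j hj
  have d0 := E.d0
  have k0 : 0 ≤ κ := by linarith [E.d0, E.dk]
  have s0 : 0 ≤ σ := k0.trans E.ks
  have s1 := E.s1
  obtain ⟨U, Lw, u1, l1, u2, l2, u3, l3, u4, u5, l4⟩ := F (pw (κ / 4) j ^ 4)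
    (Nat.one_le_pow _ _ (pw_pos _ _))
  obtain ⟨U', -, v1, -, v2, -, v3, -, v4, v5, -⟩ := F (pw (60 * σ) j) (pw_pos _ _)
  have D1 := le_pow2 (H_le k0 j) (by positivity) s
  rw [← mul_assoc, E.sk] at D1
  have D2 := le_pow2 (pw_le (a := 60 * σ) (by positivity) j) (by positivity) s
  rw [show s * (60 * σ * j) = 60 * (s * σ) * j by ring, E.ss,
    show (60 * (1 / 24000) : ℝ) = 1 / 400 by norm_num] at D2
  set i0 := ⌊(1 / 2 - 2 * σ) * j⌋₊ with hi0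
  set i1 := ⌊(1 / 2 + κ) * j⌋₊ + 1 with hi1
  have i2 : (i0 : ℝ) ≤ (1 / 2 - 2 * σ) * j := Nat.floor_le (by nlinarith)
  have i3 : (1 / 2 - 2 * σ) * j - 1 ≤ i0 := by linarith [Nat.lt_floor_add_one ((1 / 2 - 2 * σ) * j)]
  have i4 : (⌊(1 / 2 + κ) * j⌋₊ : ℝ) ≤ (1 / 2 + κ) * j := Nat.floor_le (by positivity)
  have hh := pw_le (a := 1 / 2 - δ) (by linarith [E.dk, E.ks]) j
  have hh2 : pw (1 / 2 - δ) j ^ 2 ≤ 2 ^ j := by
    have := p2_le_of (le_pow2 hh (by positivity) 2) (show _ ≤ (j : ℝ) by push_cast; linarith)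
    rw [← p2_cast] at this
    exact_mod_cast this
  have j4 : 4000 ≤ j := by exact_mod_cast (show (4000 : ℝ) ≤ j by linarith)
  have key := pool_bound (pw (κ / 4) j ^ 4) (pw (60 * σ) j) u1 l1 v1 u3 l3 v3 u4 v4 L
    (pw (1 / 2 - δ) j) (2 ^ j) (pw (1 / 2 + κ) j) i0 i1 hL hL2 hh2
    (Nat.one_le_pow _ _ (pw_pos _ _)) Nat.one_le_two_pow
    (Nat.pow_lt_pow_right (by norm_num) (by
      have := Nat.floor_le (show 0 ≤ 60 * σ * j by positivity)
      exact_mod_cast (show (⌊60 * σ * j⌋₊ : ℝ) < i0 by linarith)))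
    (Nat.pow_lt_pow_right (by norm_num) (Nat.lt_succ_self _))
    (p2 ((7 / 16 + 1 / 100) * j + 7)) (p2_pos _).le (fun i a1 a2 d d' a3 a4 a5 a6 x a7 a8 => by
      have b1 : (i0 : ℝ) ≤ i := by exact_mod_cast a1
      have b2 : (i : ℝ) ≤ ⌊(1 / 2 + κ) * j⌋₊ := by exact_mod_cast (by omega : i ≤ _)
      refine err_bound j i d d' x σ s0 s1 j4 (by linarith) (by linarith) a3 (a4.trans D1) a5
        (a6.trans D2) ?_ ?_
      · obtain ⟨j', rfl⟩ : ∃ j', j = j' + 1 := ⟨j - 1, by omega⟩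
        rw [show ((j' + 1 : ℕ) : ℝ) - 1 = j' by push_cast; ring, ← p2_cast, Nat.cast_le]
        have := Nat.one_le_two_pow (n := j')
        rw [pow_succ] at hL
        omega
      · rw [p2_succ, ← p2_cast]
        exact_mod_cast (by omega : x ≤ 2 * 2 ^ j))
  rw [p2_cast, p2_cast, ← p2_succ, p2_log, p2_log, p2_log] at key
  set h : ℝ := (pw (1 / 2 - δ) j : ℝ) with hhd
  set W0 := V (pw (κ / 4) j ^ 4).primesLE
  have h0 : 0 ≤ h := Nat.cast_nonneg _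
  have W1 := ge_mul2 (pw_ge (1 / 2 - δ) j) hV
  have W2 : p2 ((1 / 2 - 2 * δ) * j) ≤ h * W0 / 100 := by
    have := p2_ge_of W1 (show (1 / 2 - 2 * δ) * j + (7 : ℕ) ≤ _ by push_cast; linarith only [f0, f1, f2, f3, hj, i2, i3, i4])
    rw [p2_addn] at this
    linarith only [this, p2_pos ((1 / 2 - 2 * δ) * j)]
  have m1 : ((i1 - i0 : ℕ) : ℝ) ≤ 3 * (σ * j) + 2 := by
    rcases le_total i0 i1 with h1 | h1
    · rw [Nat.cast_sub h1, hi1]; push_cast; linarith only [f0, f1, f2, f3, hj, i2, i3, i4]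
    · rw [Nat.sub_eq_zero_of_le h1]; push_cast; linarith only [f0, f1, f2, f3, hj, i2, i3, i4]
  have m0 : (0 : ℝ) ≤ (i1 - i0 : ℕ) := Nat.cast_nonneg _
  set m : ℝ := ((i1 - i0 : ℕ) : ℝ)
  have m2 : m ≤ p2 (δ / 8 * j) := le_trans (by linarith only [m1, f0, f1, f2, f3, hj]) hj2
  have q0 := p2_pos i0
  have n1 := U.nrm_nonneg
  have n3 := U'.nrm_nonneg
  have l2' := Real.log_two_gt_d9
  refine pool_arith (h * W0) j (Real.log 2) i0 m _ _ _ _ U.mean Lw.mean U'.mean U.nrm Lw.nrm U'.nrm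
    (p2 ((7 / 16 + 1 / 100) * j + 7)) h (p2 i0) ((p2_pos _).trans_le W1)
    (by linarith only [f0, f1, f2, f3, hj, i2, i3, i4]) (by linarith only [l2'])
    (by linarith only [Real.log_two_lt_d9]) (by linarith only [f0, f1, f2, f3, hj, i2, i3, i4]) (by positivity) (by positivity)
    ((mul_le_mul_of_nonneg_left u5 h0).trans_eq (by ring)) (by positivity)
    ((le_of_eq (by ring)).trans (mul_le_mul_of_nonneg_left l4 h0)) ?_ (by positivity)
    ((p2_le_of (l2.trans D1) (by linarith only [f0, f1, f2, f3, hj, i2, i3, i4])).trans W2)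
    ((p2_le_of (le_mul2 (le_mul2 p2_one.ge (u2.trans D1) n1) le_rfl q0.le) (by linarith only [f0, f1, f2, f3, hj, i2, i3, i4])).trans W2)
    ?_ (by positivity)
    ((p2_le_of (le_mul2 m2 (le_mul2 (le_mul2 (u2.trans D1) (v2.trans D2) n3) (p2_succ _).ge
      (by have := p2_pos ((7 / 16 + 1 / 100) * j + 7); positivity))
      (by have := p2_pos ((7 / 16 + 1 / 100) * j + 7); positivity)) (by linarith only [f0, f1, f2, f3, hj, i2, i3, i4])).trans W2)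
    ((p2_le_of (le_div2 hh (H_ge κ j)) (by linarith only [f0, f1, f2, f3, hj, i2, i3, i4])).trans W2)
    ((p2_le_of le_rfl (by linarith only [f0, f1, f2, f3, hj, i2, i3, i4])).trans W2)
    ((p2_le_of (le_div2 le_rfl (ge_pow2 le_rfl 2)) (by push_cast; linarith only [f0, f1, f2, f3, hj, i2, i3, i4])).trans W2) key
  · have a1 := pw_ge (60 * σ) j
    have a2 : 2 ≤ pw (60 * σ) j := by
      have := p2_ge_of a1 (show (1 : ℝ) ≤ 60 * σ * j - 1 by linarith only [f0, f1, f2, f3, hj, i2, i3, i4])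
      rw [p2_one] at this
      exact_mod_cast this
    have a3 := Real.log_le_log (p2_pos _) a1
    rw [p2_log] at a3
    have a4 : 10 * (3 * (σ * j) + 2) ≤ Real.log (pw (60 * σ) j) := by
      have := mul_le_mul_of_nonneg_left l2'.le
        (show 0 ≤ 60 * σ * j - 1 by linarith only [f0, f1, f2, f3, hj, i2, i3, i4])
      linarith only [this, a3, f1, f2, hj]
    have a5 : V (pw (60 * σ) j).primesLE ≤ 1 / (10 * (3 * (σ * j) + 2)) :=
      (V_le _ a2).trans (one_div_le_one_div_of_le (by positivity) a4)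
    have a6 : m * U'.mean ≤ (3 * (σ * j) + 2) * (101 / 100 * (1 / (10 * (3 * (σ * j) + 2)))) :=
      mul_le_mul m1 (by linarith only [a5, v5]) v4 (by positivity)
    refine a6.trans_eq ?_
    have : 3 * (σ * j) + 2 ≠ 0 := by positivity
    generalize 3 * (σ * j) + 2 = y at this
    field_simp; norm_num
  · have a1 := p2_le_of (le_mul2 m2 (le_div2 (v2.trans D2) (le_refl (p2 i0))) (by positivity))
      (show _ ≤ 0 - ((7 : ℕ) : ℝ) by push_cast; linarith only [f0, f1, f2, f3, hj, i2, i3, i4])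
    rw [p2_sub, p2_zero, p2_nat 7] at a1
    exact a1.trans (by norm_num)

end Pool.Agent.H59.MO
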