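import Mathlib
import Pool.Agent.H59.Zt3

/-! Under the Riemann hypothesis very few short cells contain few primes. -/

set_option autoImplicit false

namespace Pool.Agent.H59.Zt

open Finset Filter Topology ArithmeticFunction

lemma wt_nonneg (κ u : ℝ) (n : ℕ) : 0 ≤ wt κ u n :=
  mul_nonneg vonMangoldt_nonneg (Real.exp_pos _).le

lemma pp_count (L h j : ℕ) (hL : h ^ 2 ≤ L) (hj : L + h ≤ 2 ^ (j + 1)) :
    ((Ico L (L + h)).filter (fun n => IsPrimePow n ∧ ¬ n.Prime)).card ≤ j + 2 := by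
  set S := (Ico L (L + h)).filter (fun n => IsPrimePow n ∧ ¬ n.Prime) with hS
  have hch : ∀ n ∈ S, ∃ p a : ℕ, 2 ≤ p ∧ p ^ (a + 2) = n := by
    intro n hn
    obtain ⟨-, h1, h2⟩ := Finset.mem_filter.1 hn
    obtain ⟨p, k, h3, h4, rfl⟩ := (isPrimePow_nat_iff _).1 h1
    have : k ≠ 1 := by rintro rfl; exact h2 (by simpa using h3)
    exact ⟨p, k - 2, h3.two_le, by congr 1; omega⟩
  choose! p a hp using hch
  rw [← Finset.card_range (j + 2)]
  refine Finset.card_le_card_of_injOn a (fun n hn => ?_) (fun m hm n hn hmn => ?_)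
  · obtain ⟨h1, h2⟩ := hp n hn
    have h3 := (mem_Ico.1 (Finset.mem_filter.1 (mem_coe.1 hn)).1).2
    have h4 : 2 ^ (a n + 2) ≤ p n ^ (a n + 2) := Nat.pow_le_pow_left h1 _
    have := (Nat.pow_lt_pow_iff_right (by norm_num : 1 < 2)).1
      (show 2 ^ (a n + 2) < 2 ^ (j + 1) by omega)
    exact mem_coe.2 (mem_range.2 (by omega))
  · have gap : ∀ x y b : ℕ, 2 ≤ x → x < y → x ^ (b + 2) ∈ Ico L (L + h) →
        y ^ (b + 2) ∈ Ico L (L + h) → False := by
      intro x y b h0 h1 h2 h3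
      have h4 := (mem_Ico.1 h2).1
      have h5 := (mem_Ico.1 h3).2
      have h6 : x ^ (b + 1) * (x + 1) ≤ y ^ (b + 2) := by
        rw [pow_succ y]; exact Nat.mul_le_mul (Nat.pow_le_pow_left h1.le _) h1
      have h7 : x ^ (b + 2) ≤ (x ^ (b + 1)) ^ 2 := by
        rw [← pow_mul]; exact Nat.pow_le_pow_right (by omega) (by omega)
      have h8 : h ≤ x ^ (b + 1) := by
        by_contra hc
        have := Nat.pow_lt_pow_left (not_le.1 hc) two_ne_zero
        omega
      rw [mul_add, ← pow_succ, mul_one, show b + 1 + 1 = b + 2 from rfl] at h6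
      omega
    obtain ⟨h1, h2⟩ := hp m hm
    obtain ⟨h3, h4⟩ := hp n hn
    have h5 := (Finset.mem_filter.1 (mem_coe.1 hm)).1
    have h6 := (Finset.mem_filter.1 (mem_coe.1 hn)).1
    rw [← hmn] at h4
    rcases lt_trichotomy (p m) (p n) with h | h | h
    · exact (gap _ _ (a m) h1 h (by rw [h2]; exact h5) (by rw [h4]; exact h6)).elim
    · rw [← h2, ← h4, h]
    · exact (gap _ _ (a m) h3 h (by rw [h4]; exact h6) (by rw [h2]; exact h5)).elim

lemma lam_sum (L h j : ℕ) (hL : h ^ 2 ≤ L) (hL1 : 1 ≤ L) (hj : L + h ≤ 2 ^ (j + 1)) :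
    ∑ n ∈ Ico L (L + h), Λ n ≤
      (((Ico L (L + h)).filter Nat.Prime).card + (j + 2)) * (7 / 10 * (j + 1)) := by
  have h1 : ∀ n ∈ Ico L (L + h), Λ n ≤ ((if n.Prime then 1 else 0) +
      (if IsPrimePow n ∧ ¬ n.Prime then 1 else 0)) * (7 / 10 * ((j : ℝ) + 1)) := by
    intro n hn
    obtain ⟨a1, a2⟩ := mem_Ico.1 hn
    have a3 : Real.log n ≤ Real.log ((2 : ℝ) ^ (j + 1)) :=
      Real.log_le_log (by exact_mod_cast (by omega : 0 < n))
        (by exact_mod_cast (by omega : n ≤ 2 ^ (j + 1)))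
    rw [Real.log_pow] at a3
    have a4 := Real.log_two_lt_d9
    have a5 : (0 : ℝ) ≤ j := Nat.cast_nonneg j
    have a6 : Λ n ≤ 7 / 10 * ((j : ℝ) + 1) := by
      refine vonMangoldt_le_log.trans (a3.trans ?_)
      push_cast; nlinarith
    by_cases b1 : n.Prime
    · simp only [b1, if_true, not_true, and_false, if_false]; linarith
    · by_cases b2 : IsPrimePow n
      · simp only [b1, b2, if_false, not_false_iff, and_self, if_true]; linarith
      · rw [vonMangoldt_eq_zero_iff.2 b2]; positivity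
  refine (Finset.sum_le_sum h1).trans ?_
  rw [← Finset.sum_mul, Finset.sum_add_distrib, Finset.sum_boole, Finset.sum_boole]
  refine mul_le_mul_of_nonneg_right ?_ (by positivity)
  have : (((Ico L (L + h)).filter (fun n => IsPrimePow n ∧ ¬ n.Prime)).card : ℝ) ≤ j + 2 := by
    exact_mod_cast pp_count L h j hL hj
  linarith

lemma tail (κ u : ℝ) (j : ℕ) (hκ : 0 < κ) (hκ1 : κ ≤ 1) (hj : 11 ≤ j) (hu : u ≤ j + 1)
    (S : Finset ℕ) (hS : ∀ n : ℕ, n ≠ 0 → n ∉ S → 2 * j * κ ≤ |u - Real.log n|) :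
    ∑' n, wt κ u n ≤ ∑ n ∈ S, wt κ u n + 1 := by
  have h1 := (hasSum_sum_of_ne_finset_zero (f := fun n => if n ∈ S then wt κ u n else 0) (s := S)
    (L := SummationFilter.unconditional ℕ)
    (fun n hn => if_neg hn)).add (hasSum_zeta_two.mul_left (1 / 2))
  rw [Finset.sum_congr rfl (fun n hn => if_pos hn)] at h1
  have h2 : ∀ n, wt κ u n ≤ (if n ∈ S then wt κ u n else 0) + 1 / 2 * (1 / (n : ℝ) ^ 2) := by
    intro n
    split_ifs with h3
    · have : 0 ≤ 1 / 2 * (1 / (n : ℝ) ^ 2) := by positivity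
      linarith
    rcases Nat.eq_zero_or_pos n with rfl | hn
    · simp [wt]
    have n0 : (0 : ℝ) < n := by exact_mod_cast hn
    have a1 := hS n hn.ne' h3
    set v := u - Real.log n with hv
    have j0 : (11 : ℝ) ≤ j := by exact_mod_cast hj
    have a2 : -v ^ 2 / (4 * κ ^ 2) ≤ -1 + -(3 * Real.log n) := by
      have b1 : (2 * j * κ) ^ 2 ≤ v ^ 2 := by
        rw [← sq_abs v]; exact pow_le_pow_left₀ (by positivity) a1 2
      have b2 : κ ^ 2 ≤ 1 := pow_le_one₀ hκ.le hκ1
      have k2 : 0 < κ ^ 2 := by positivity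
      have b3 : -(3 * Real.log n) = 3 * v - 3 * u := by rw [hv]; ring
      have b4 : 0 ≤ (j : ℝ) ^ 2 / 2 - 1 - 3 * u - 18 * κ ^ 2 := by nlinarith
      rw [div_le_iff₀ (by positivity), b3]
      nlinarith [sq_nonneg (v + 12 * κ ^ 2), mul_nonneg k2.le b4]
    have a3 := Real.exp_le_exp.2 a2
    rw [Real.exp_add, Real.exp_neg (3 * Real.log n), show 3 * Real.log n = Real.log n * (3 : ℕ) by
      push_cast; ring, mul_comm (Real.log n), Real.exp_nat_mul, Real.exp_log n0] at a3
    have a4 : Λ n ≤ n := vonMangoldt_le_log.trans (by linarith [Real.log_le_sub_one_of_pos n0])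
    have a5 : Real.exp (-1) ≤ 1 / 2 := by
      rw [Real.exp_neg, one_div]
      exact inv_anti₀ (by norm_num) (by linarith [Real.exp_one_gt_d9])
    rw [zero_add, wt]
    calc _ ≤ n * (1 / 2 * ((n : ℝ) ^ 3)⁻¹) := by
          refine mul_le_mul a4 (a3.trans ?_) (by positivity) n0.le
          gcongr
      _ = _ := by field_simp
  have h3 := (Summable.of_nonneg_of_le (wt_nonneg κ u) h2 h1.summable).tsum_le_tsum h2 h1.summable
  rw [h1.tsum_eq] at h3
  nlinarith [Real.pi_lt_d2, Real.pi_pos]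

theorem bad_cells (hRH : RH) (ε : ℝ) (hε : 0 < ε) (hε1 : ε ≤ 1 / 2) : ∃ C : ℝ, 0 < C ∧
    ∀ j h : ℕ, 11 ≤ j → 1000 * j ^ 2 ≤ h → h ^ 2 ≤ 2 ^ j → ∀ B : Finset ℕ,
      (∀ L ∈ B, 2 ^ j ≤ L ∧ L + h ≤ 2 ^ (j + 1) ∧ h ∣ L ∧
        (((Ico L (L + h)).filter Nat.Prime).card : ℝ) < h / (2000 * j)) →
      (B.card : ℝ) ≤ C * j ^ 4 * (2 : ℝ) ^ ((1 + 2 * ε) * j) / h ^ 2 := by
  obtain ⟨C, C0, hC⟩ := centres hRH ε hε hε1
  refine ⟨1024 * C, by positivity, fun j h hj hh hh2 B hB => ?_⟩
  set X : ℝ := 2 ^ j with hX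
  have X0 : 0 < X := by positivity
  have j0 : (11 : ℝ) ≤ j := by exact_mod_cast hj
  have h1 : 1000 * (j : ℝ) ^ 2 ≤ h := by exact_mod_cast hh
  have h0 : (0 : ℝ) < h := by nlinarith
  have h2 : (h : ℝ) ^ 2 ≤ X := by rw [hX]; exact_mod_cast hh2
  have h3 : (h : ℝ) ≤ X := by
    have : (1 : ℝ) ≤ h := by nlinarith
    nlinarith
  set κ : ℝ := h / (16 * X * j) with hκ
  have k0 : 0 < κ := by positivity
  have k1 : κ ≤ 1 := by rw [hκ, div_le_one (by positivity)]; nlinarith
  have k2 : h / (8 * X) = 2 * j * κ := by rw [hκ]; field_simp; ring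
  have lX : Real.log X = j * Real.log 2 := by rw [hX, Real.log_pow]
  have l2 := Real.log_two_lt_d9
  have gap : ∀ L ∈ B, ∀ n : ℕ, L + h ≤ n → Real.log L + 8 * j * κ ≤ Real.log n := by
    intro L hL n hn
    obtain ⟨a1, a2, -⟩ := hB L hL
    have b1 : X ≤ L := by rw [hX]; exact_mod_cast a1
    have b2 : (L : ℝ) + h ≤ 2 * X := by
      rw [hX, ← pow_succ']; exact_mod_cast a2
    have b3 : Real.log (L + h) ≤ Real.log n := Real.log_le_log (by linarith) (by exact_mod_cast hn)
    have b4 := Real.log_le_sub_one_of_pos (x := (L : ℝ) / (L + h)) (div_pos (by linarith) (by linarith))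
    rw [Real.log_div (by linarith) (by linarith)] at b4
    have b5 : (L : ℝ) / (L + h) - 1 = -(h / (L + h)) := by
      have : (L : ℝ) + h ≠ 0 := by linarith
      field_simp; ring
    have b6 : h / (2 * X) ≤ h / ((L : ℝ) + h) := div_le_div_of_nonneg_left h0.le (by linarith) b2
    have b7 : h / (2 * X) = 4 * (h / (8 * X)) := by field_simp; ring
    linarith
  have key : ∀ L ∈ B, ∃ l : ℤ, Real.log L + 2 * j * κ ≤ l * κ ∧ l * κ ≤ Real.log L + 6 * j * κ ∧
      ∑' n, wt κ (l * κ) n < κ * Real.exp (l * κ) / 2 := by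
    intro L hL
    by_contra hc
    push Not at hc
    obtain ⟨a1, a2, -, a4⟩ := hB L hL
    have b1 : X ≤ L := by rw [hX]; exact_mod_cast a1
    have L0 : (0 : ℝ) < L := by linarith
    set a := ⌈Real.log L / κ⌉ + 2 * j with ha
    set S := Ico a (a + 3 * j) with hS
    have hSm : ∀ l ∈ S, Real.log L + 2 * j * κ ≤ l * κ ∧ l * κ ≤ Real.log L + 6 * j * κ := by
      intro l hl
      obtain ⟨c1, c2⟩ := mem_Ico.1 hl
      have c3 : (⌈Real.log L / κ⌉ : ℝ) + 2 * j ≤ l := by exact_mod_cast c1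
      have c4 : (l : ℝ) ≤ ⌈Real.log L / κ⌉ + 2 * j + 3 * j := by exact_mod_cast c2.le
      have c5 := Int.le_ceil (Real.log L / κ)
      have c6 := (Int.ceil_lt_add_one (Real.log L / κ)).le
      have c7 : Real.log L = Real.log L / κ * κ := by field_simp
      constructor
      · rw [c7, ← add_mul]; exact mul_le_mul_of_nonneg_right (by linarith) k0.le
      · rw [c7, ← add_mul]; exact mul_le_mul_of_nonneg_right (by linarith) k0.le
    have c1 : ∀ l ∈ S, κ * X / 2 - 1 ≤ ∑ n ∈ Ico L (L + h), wt κ (l * κ) n := by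
      intro l hl
      obtain ⟨d1, d2⟩ := hSm l hl
      have d0 : 0 ≤ 2 * j * κ := by positivity
      have d3 := hc l d1 d2
      have d4 := gap L hL (2 ^ (j + 1)) a2
      rw [Nat.cast_pow, Real.log_pow] at d4
      push_cast at d4
      have d5 := tail κ (l * κ) j k0 k1 hj (by nlinarith) (Ico L (L + h)) (fun n hn0 hn => by
        rw [mem_Ico, not_and_or, not_le, not_lt] at hn
        rcases hn with hn | hn
        · have := Real.log_le_log (x := n) (y := L) (by exact_mod_cast Nat.pos_of_ne_zero hn0)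
            (by exact_mod_cast hn.le)
          exact le_trans (by linarith) (le_abs_self _)
        · have := gap L hL n hn
          exact le_trans (by linarith) (neg_le_abs _))
      have d6 : X ≤ Real.exp (l * κ) := by
        refine b1.trans ?_
        rw [← Real.exp_log L0, Real.exp_le_exp]; linarith
      nlinarith
    have c2 := Finset.card_nsmul_le_sum _ _ _ c1
    rw [Finset.sum_comm, hS, Int.card_Ico, add_sub_cancel_left, nsmul_eq_mul,
      show (3 * (j : ℤ)).toNat = 3 * j by omega] at c2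
    have c3 : ∑ n ∈ Ico L (L + h), ∑ l ∈ Ico a (a + 3 * j), wt κ (l * κ) n ≤
        ∑ n ∈ Ico L (L + h), Λ n * 24 := by
      refine Finset.sum_le_sum (fun n _ => ?_)
      unfold wt
      rw [← Finset.mul_sum]
      refine mul_le_mul_of_nonneg_left (le_trans (le_of_eq ?_) 
        (lattice (Ico a (a + 3 * j)) (Real.log n / κ)))
        vonMangoldt_nonneg
      refine Finset.sum_congr rfl (fun l _ => ?_)
      congr 1
      field_simp; ring
    rw [← Finset.sum_mul] at c3
    have c4 := lam_sum L h j (hh2.trans a1) (le_trans Nat.one_le_two_pow a1) a2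
    set P : ℝ := (((Ico L (L + h)).filter Nat.Prime).card : ℝ)
    set y : ℝ := h / j with hy
    have c5 : κ * X = y / 16 := by rw [hκ, hy]; field_simp
    have c6 : P < y / 2000 := by
      refine a4.trans_eq ?_
      rw [hy]; field_simp
    have c7 : 1000 * j ≤ y := by rw [hy, le_div_iff₀ (by linarith)]; nlinarith
    rw [c5] at c2
    push_cast at c2
    have c8 : (P + (j + 2)) * (7 / 10 * (j + 1)) ≤ (y / 2000 + y / 500) * (7 / 10 * (12 / 11 * j)) :=
      mul_le_mul (by linarith) (by linarith) (by positivity) (by linarith)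
    nlinarith
  choose! l hl using key
  have inj : Set.InjOn l B := by
    have lt : ∀ a ∈ B, ∀ b ∈ B, a < b → l a ≠ l b := by
      intro a ha b hb hab he
      have c1 : a + h ≤ b := by
        have := Nat.le_of_dvd (by omega) (Nat.dvd_sub (hB b hb).2.2.1 (hB a ha).2.2.1)
        omega
      have c2 := gap a ha b c1
      have c3 := (hl a ha).2.1
      have c4 := (hl b hb).1
      rw [← he] at c4
      have : 0 < j * κ := by positivity
      linarith
    intro a ha b hb hab
    rcases lt_trichotomy a b with h | h | h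
    · exact absurd hab (lt a ha b hb h)
    · exact h
    · exact absurd hab.symm (lt b hb a ha h)
  have fin := hC κ (Real.log X) k0 k1 (by rw [lX]; positivity) (B.image l) (fun x hx => by
    obtain ⟨L, hL, rfl⟩ := Finset.mem_image.1 hx
    refine ⟨le_trans ?_ (hl L hL).1, (hl L hL).2.2⟩
    have b1 : X ≤ L := by rw [hX]; exact_mod_cast (hB L hL).1
    have := Real.log_le_log X0 b1
    have : 0 ≤ 2 * j * κ := by positivity
    linarith)
  rw [Finset.card_image_of_injOn inj] at fin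
  have b1 : Real.log (5 / κ) + 1 ≤ 2 * j := by
    have : 5 / κ ≤ X := by
      rw [div_le_iff₀ k0, hκ, mul_div_assoc', le_div_iff₀ (by positivity)]
      nlinarith [mul_pos X0 (show (0 : ℝ) < j by linarith)]
    have := Real.log_le_log (by positivity) this
    nlinarith
  have b2 : 0 ≤ Real.log (5 / κ) := Real.log_nonneg (by rw [le_div_iff₀ k0]; linarith)
  have b3 : C * (Real.log (5 / κ) + 1) ^ 2 / κ ^ 2 ≤ C * (2 * j) ^ 2 / κ ^ 2 := by gcongr
  have b4 : (2 : ℝ) ^ ((1 + 2 * ε) * j) * Real.exp ((1 - 2 * ε) * Real.log X) = X ^ 2 := by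
    rw [Real.rpow_def_of_pos (by norm_num), ← Real.exp_add, ← Real.exp_log (pow_pos X0 2),
      Real.log_pow X 2, lX]
    congr 1
    push_cast; ring
  refine le_of_mul_le_mul_right (fin.trans (b3.trans_eq ?_))
    (Real.exp_pos ((1 - 2 * ε) * Real.log X))
  rw [div_mul_eq_mul_div, mul_assoc _ ((2 : ℝ) ^ _), b4, hκ]
  field_simp; ring

end Pool.Agent.H59.Zt
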