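import Mathlib
import Pool.Agent.H59.MOA2
import Pool.Agent.H59.MO5
import Pool.Agent.H59.Zt4

/-! The construction under the Riemann hypothesis. -/

set_option autoImplicit false

namespace Pool.Agent.H59.MO

open Finset Filter Topology Pool.Agent.H59.BH

/-- The explicit parameters. -/
noncomputable def mk (κ δ e0 e1 : ℝ) (r0 j0 : ℕ) : Par where
  j0 := j0
  r0 := r0
  e0 := e0
  e1 := e1
  β := 1 - δ / 2
  ω := δ / 4
  Cb := 12 / κ
  h := pw (1 / 2 - δ)
  t := pw (κ / 4)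
  Y := pw (1 / 2 + κ)
  V := fun j => V (pw (κ / 4) j ^ 4).primesLE
  η := fun j => pw (1 / 2 - δ) j * p2 (-(δ / 2 * j))
  B := fun L => (1 ≤ L ∧ pw (1 / 2 - δ) (lg L) ∣ L) ∧ j0 ≤ lg L ∧
    (((Ico L (L + pw (1 / 2 - δ) (lg L))).filter Nat.Prime).card : ℝ) <
      pw (1 / 2 - δ) (lg L) / (2000 * lg L)

/-- The conditions that hold for all large blocks. -/
structure Good (κ δ e0 e1 C : ℝ) (r0 j : ℕ) : Prop where
  a : 100 ≤ δ * j
  b : 2 / (e1 / 16000 / 64 * e0) * (j : ℝ) ^ 4 ≤ p2 (δ / 8 * j)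
  c : p2 (-(δ / 16 * j)) ≤ V (pw (κ / 4) j ^ 4).primesLE
  d : 4 * C * (j : ℝ) ^ 4 ≤ p2 (δ / 2 * j)
  e : 16 * (4 / e0) ^ r0 * (j : ℝ) ^ (2 * r0) ≤ p2 (δ / 32 * j)
  f : 4 * 4096 / (κ ^ 4 * (e1 / 16000 / 64 * e0)) ≤ j

lemma ev_good (κ δ e0 e1 C : ℝ) (r0 : ℕ) (hκ : 0 < κ) (hδ : 0 < δ) :
    ∀ᶠ j in atTop, Good κ δ e0 e1 C r0 j := by
  obtain ⟨c, c0, hc⟩ := V_low (δ / (32 * κ)) (by positivity)
  filter_upwards [ev_lin 100 δ hδ, ev_p2 (2 / (e1 / 16000 / 64 * e0)) 4 (δ / 8) (by positivity),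
    ev_p2 (1 / c) 0 (δ / 32) (by positivity), ev_p2 (4 * C) 4 (δ / 2) (by positivity),
    ev_p2 (16 * (4 / e0) ^ r0) (2 * r0) (δ / 32) (by positivity),
    ev_lin (4 * 4096 / (κ ^ 4 * (e1 / 16000 / 64 * e0))) 1 one_pos] with j h1 h2 h3 h4 h5 h6
  refine ⟨h1, h2, le_trans ?_ (hc _ (Nat.one_le_pow _ _ (pw_pos _ _))), h4, h5, by simpa using h6⟩
  have a1 : p2 (κ * j) ^ (-(δ / (32 * κ))) ≤ ((pw (κ / 4) j ^ 4 : ℕ) : ℝ) ^ (-(δ / (32 * κ))) :=
    Real.rpow_le_rpow_of_nonpos (by have := pw_pos (κ / 4) j; positivity) (H_le hκ.le j)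
      (neg_nonpos.2 (by positivity))
  rw [p2_rpow, show κ * j * -(δ / (32 * κ)) = -(δ / 32 * j) by field_simp] at a1
  have a2 : p2 (0 - δ / 32 * j) ≤ 1 / (1 / c) :=
    ge_div2 p2_zero.le (by simpa using h3) (by positivity)
  rw [one_div_one_div] at a2
  exact p2_ge_of (ge_mul2 a2 a1) (by linarith)

lemma nat_le {a b : ℕ} {x y : ℝ} (h1 : (a : ℝ) ≤ p2 x) (h2 : p2 y ≤ b) (h : x ≤ y) : a ≤ b := by
  exact_mod_cast h1.trans (p2_ge_of h2 h)

lemma harm (j : ℕ) (a : ℝ) (ha : 0 ≤ a) :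
    ∑ n ∈ (Ico 1 (2 ^ j) : Finset ℕ), (n : ℝ) ^ (a - 1) ≤ p2 (a * j) * (1 + j) := by
  have h1 : ∑ n ∈ (Ico 1 (2 ^ j) : Finset ℕ), (n : ℝ) ^ (a - 1) ≤
      ∑ n ∈ (Icc 1 (2 ^ j) : Finset ℕ), p2 (a * j) * (n : ℝ)⁻¹ := by
    refine le_trans (Finset.sum_le_sum (fun n hn => ?_)) (Finset.sum_le_sum_of_subset_of_nonneg
      Finset.Ico_subset_Icc_self (fun n _ _ => by have := p2_pos (a * j); positivity))
    obtain ⟨a1, a2⟩ := mem_Ico.1 hn
    rw [Real.rpow_sub_one (by exact_mod_cast (by omega : n ≠ 0)), div_eq_mul_inv, mul_comm a,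
      ← p2_rpow, ← p2_cast]
    gcongr
  rw [← Finset.mul_sum] at h1
  refine h1.trans (mul_le_mul_of_nonneg_left ?_ (p2_pos _).le)
  have h2 := harmonic_le_one_add_log (2 ^ j)
  rw [harmonic_eq_sum_Icc, p2_cast, p2_log] at h2
  push_cast at h2
  have := Real.log_two_lt_d9
  have : (0 : ℝ) ≤ j := Nat.cast_nonneg j
  nlinarith

theorem hyp_mk {s : ℕ} {κ δ σ e0 e1 C : ℝ} {r0 j0 : ℕ} (E : Ex s κ δ σ) (F : FL s)
    (hδ : 100 * δ = κ ^ 2) (hr0 : 4 / κ ≤ r0) (he1 : e1 = 1 / (16 * r0))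
    (he0 : e0 = e1 / (5120000 * (36 * (12 / κ) + 2592 * 4 ^ r0)))
    (hC : ∀ j h : ℕ, 11 ≤ j → 1000 * j ^ 2 ≤ h → h ^ 2 ≤ 2 ^ j → ∀ B : Finset ℕ,
      (∀ L ∈ B, 2 ^ j ≤ L ∧ L + h ≤ 2 ^ (j + 1) ∧ h ∣ L ∧
        (((Ico L (L + h)).filter Nat.Prime).card : ℝ) < h / (2000 * j)) →
      (B.card : ℝ) ≤ C * j ^ 4 * (2 : ℝ) ^ ((1 + 2 * (δ / 4)) * j) / h ^ 2)
    (G : ∀ j, j0 ≤ j → Good κ δ e0 e1 C r0 j) : (mk κ δ e0 e1 r0 j0).Hyp := by
  classical
  have d0 := E.d0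
  have dk := E.dk
  have k1 : κ ≤ 1 / 24000 := E.ks.trans E.s1
  have k0 : 0 < κ := by linarith
  have r1 : (1 : ℝ) ≤ r0 := le_trans (by rw [le_div_iff₀ k0]; linarith) hr0
  have e10 : 0 < e1 := by rw [he1]; positivity
  have e11 : e1 ≤ 1 := by rw [he1, div_le_one (by positivity)]; linarith
  have A1 : (1 : ℝ) ≤ 36 * (12 / κ) + 2592 * 4 ^ r0 := by
    have : (1 : ℝ) ≤ 4 ^ r0 := one_le_pow₀ (by norm_num)
    have : 0 < 12 / κ := by positivity
    linarith
  have e00 : 0 < e0 := by rw [he0]; positivity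
  have e01 : e0 ≤ 1 / 10 := by rw [he0, div_le_iff₀ (by positivity)]; linarith
  obtain ⟨c, hc⟩ : ∃ c, c = e1 / 16000 / 64 * e0 := ⟨_, rfl⟩
  have c0 : 0 < c := by rw [hc]; positivity
  have c1 : c ≤ e0 / 1024000 := by rw [hc]; nlinarith
  have cK : 4000 ≤ 2 / c := by rw [le_div_iff₀ c0]; linarith
  have q1 : Fact (16 * (r0 : ℝ) * e1 = 1) := ⟨by rw [he1]; field_simp⟩
  have q2 : Fact (10 * e0 * (36 * (12 / κ) + 2592 * 4 ^ r0) = e1 / 16000 / 32) := ⟨by
    rw [he0]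
    generalize 36 * (12 / κ) + 2592 * 4 ^ r0 = A at A1
    field_simp; norm_num⟩
  have q3 : Fact (1 ≤ r0) := ⟨by exact_mod_cast r1⟩
  replace hc := Fact.mk hc
  replace hδ := Fact.mk hδ
  replace hr0 := Fact.mk hr0
  replace c1 := Fact.mk c1
  replace cK := Fact.mk cK
  replace e01 := Fact.mk e01
  clear he0 he1 A1 e11 r1
  have fx : ∀ j, j0 ≤ j → 100 ≤ δ * j ∧ 100 * (δ * j) ≤ κ * j ∧ κ * j ≤ j / 24000 ∧
      (0 : ℝ) < j := fun j hj => by
    obtain ⟨f0, f1, f2, f3⟩ := E.facts j (G j hj).a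
    have := (G j hj).a
    exact ⟨this, f1, by linarith, by linarith⟩
  have gb : ∀ j, j0 ≤ j → ∀ (K : ℝ) (A : ℕ), A ≤ 4 → K ≤ 2 / c → K * (j : ℝ) ^ A ≤ p2 (δ / 8 * j) := by
    intro j hj K A hA hK
    obtain ⟨f0, f1, f2, f3⟩ := fx j hj
    have := (G j hj).b
    rw [← hc.out] at this
    exact le_trans (mul_le_mul hK (pow_le_pow_right₀ (by linarith) hA) (by positivity)
      (by positivity)) this
  have hθ : 0 ≤ 1 / 2 - δ := by first | linarith only [f0, f1, f2, f3, d0, dk, k1] | linarith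
  have hdiv : ∀ j, 0 < pw (1 / 2 - δ) j ∧ pw (1 / 2 - δ) j ∣ 2 ^ j := fun j =>
    ⟨pw_pos _ _, pow_dvd_pow 2 (Nat.floor_le_of_le (by
      linarith only [mul_nonneg d0.le (Nat.cast_nonneg (α := ℝ) j), Nat.cast_nonneg (α := ℝ) j]))⟩
  have hY : ∀ j, j0 ≤ j → 2 ^ (j + 1) ≤ pw (1 / 2 + κ) j ^ 2 := fun j hj => by
    obtain ⟨f0, f1, f2, f3⟩ := fx j hj
    exact nat_le (p2_cast _).le (by push_cast; exact ge_pow2 (pw_ge _ j) 2) (by push_cast; first | linarith only [f0, f1, f2, f3, d0, dk, k1] | linarith)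
  have ht2 : ∀ j, j0 ≤ j → 2 ≤ pw (κ / 4) j := fun j hj => by
    obtain ⟨f0, f1, f2, f3⟩ := fx j hj
    exact nat_le (x := 1) (by rw [p2_one]; norm_num) (pw_ge _ j) (by first | linarith only [f0, f1, f2, f3, d0, dk, k1] | linarith)
  set P := mk κ δ e0 e1 r0 j0 with hP
  have Pre : P.Pre := ⟨hdiv, fun L hL => ⟨hL.1, hL.2.1⟩, hY, fun j _ => pw_pos _ _⟩
  have hBn : ∀ j, j0 ≤ j → ((P.Bset j).card : ℝ) ≤ p2 (3 * δ * j) := by
    intro j hj
    obtain ⟨f0, f1, f2, f3⟩ := fx j hj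
    refine (hC j (pw (1 / 2 - δ) j) (by exact_mod_cast (show (11 : ℝ) ≤ j by first | linarith only [f0, f1, f2, f3, d0, dk, k1] | linarith))
      (nat_le (by push_cast; exact gb j hj 1000 2 (by norm_num) (by linarith only [cK.out])) (pw_ge _ j)
        (by first | linarith only [f0, f1, f2, f3, d0, dk, k1] | linarith))
      (nat_le (by push_cast; exact le_pow2 (pw_le hθ j) (by positivity) 2) (p2_cast j).ge
        (by push_cast; first | linarith only [f0, f1, f2, f3, d0, dk, k1] | linarith)) _ (fun L hL => ?_)).trans ?_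
    · obtain ⟨a1, a2⟩ := Finset.mem_filter.1 hL
      obtain ⟨a3, a4⟩ := mem_Ico.1 a1
      have a5 := lg_eq a3 a4
      have a6 := Par.cell_top (P := P) hdiv a2.1
      have a7 := a2.1.2
      have a8 := a2.2.2
      rw [a5] at a6 a7 a8
      exact ⟨a3, a6, a7, a8⟩
    · have a1 : C * (j : ℝ) ^ 4 ≤ p2 (δ / 2 * j - (2 : ℕ)) := by
        rw [p2_sub, p2_nat]; linarith [(G j hj).d]
      exact p2_le_of (le_div2 (le_mul2 a1 (le_refl (p2 ((1 + 2 * (δ / 4)) * j))) (p2_pos _).le)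
        (ge_pow2 (pw_ge _ j) 2)) (by push_cast; first | linarith only [f0, f1, f2, f3, d0, dk, k1] | linarith)
  have hsp := Par.sparse_bound Pre κ e0 (by first | linarith only [f0, f1, f2, f3, d0, dk, k1] | linarith) e00.le
    (by exact_mod_cast (show (2 : ℝ) ≤ j0 by obtain ⟨f0, f1, f2, f3⟩ := fx j0 le_rfl; first | linarith only [f0, f1, f2, f3, d0, dk, k1] | linarith))
    (fun j hj => by
      obtain ⟨f0, f1, f2, f3⟩ := fx j hj
      have a1 : (pw (1 / 2 + κ) j : ℝ) ^ (κ - 1) ≤ p2 (((1 / 2 + κ) * j - 1) * (κ - 1)) := by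
        rw [← p2_rpow]
        exact Real.rpow_le_rpow_of_nonpos (p2_pos _) (pw_ge _ j) (by first | linarith only [f0, f1, f2, f3, d0, dk, k1] | linarith)
      have a2 : κ ^ 2 * j ≤ κ * j / 100 := by
        linarith only [mul_le_mul_of_nonneg_right k1 (mul_pos k0 f3).le, mul_pos k0 f3]
      have a3 := gb j hj (1 / e0) 2 (by norm_num) (by
        rw [div_le_div_iff₀ e00 c0]; linarith only [c1.out, e00])
      refine (p2_le_of (le_mul2 (le_mul2 (hBn j hj) (pw_le hθ j) (by positivity)) a1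
        (by positivity)) (show _ ≤ 0 - δ / 8 * j by first | linarith only [f0, f1, f2, f3, d0, dk, k1] | linarith)).trans ?_
      refine (ge_div2 p2_zero.le a3 (by positivity)).trans_eq ?_
      field_simp)
  have hN : ∀ j, e1 / 16000 / 64 * P.N j = c * pw (1 / 2 - δ) j / (j : ℝ) ^ 3 := fun j => by
    rw [hc.out]; show e1 / 16000 / 64 * (e0 * pw (1 / 2 - δ) j / (j : ℝ) ^ 3) = _; ring
  have hη : ∀ j, j0 ≤ j → ∀ u v : ℝ, v ≤ p2 (δ / 8 * j) → 0 < v → u ≤ p2 (δ / 4 * (j + 1)) →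
      u * P.η j ≤ pw (1 / 2 - δ) j / v := by
    intro j hj u v h1 h2 h3
    obtain ⟨f0, f1, f2, f3⟩ := fx j hj
    have a1 := (p2_le_of (le_mul2 h3 (le_refl (p2 (-(δ / 2 * j)))) (p2_pos _).le)
      (show _ ≤ 0 - δ / 8 * j by first | linarith only [f0, f1, f2, f3, d0, dk, k1] | linarith)).trans (ge_div2 p2_zero.le h1 h2)
    have a2 := mul_le_mul_of_nonneg_left a1 (Nat.cast_nonneg (pw (1 / 2 - δ) j) : (0 : ℝ) ≤ _)
    rw [mul_one_div] at a2
    refine le_trans (le_of_eq ?_) a2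
    show u * (pw (1 / 2 - δ) j * p2 (-(δ / 2 * j))) = _
    ring
  have one_le : ∀ j : ℕ, (1 : ℝ) ≤ p2 (δ / 4 * (j + 1)) := fun j => one_le_p2 (by positivity)
  refine
    { hdiv := hdiv
      hB := Pre.hB
      hj0 := by
        exact_mod_cast (show (6 : ℝ) ≤ j0 by obtain ⟨f0, f1, f2, f3⟩ := fx j0 le_rfl; first | linarith only [f0, f1, f2, f3, d0, dk, k1] | linarith)
      he0 := e00
      he0' := e01.out
      he1 := e10
      hr0 := q3.out
      he1' := q1.out.le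
      hβ := by show 0 ≤ 1 - δ / 2; first | linarith only [f0, f1, f2, f3, d0, dk, k1] | linarith
      hβ' := by show 1 - δ / 2 ≤ 1; first | linarith only [f0, f1, f2, f3, d0, dk, k1] | linarith
      hω := by show 0 ≤ δ / 4; first | linarith only [f0, f1, f2, f3, d0, dk, k1] | linarith
      hCb := by show 0 ≤ 12 / κ; positivity
      small := q2.out.le
      ht2 := ht2
      hth := fun j hj => by
        obtain ⟨f0, f1, f2, f3⟩ := fx j hj
        exact nat_le (by push_cast; exact le_pow2 (pw_le (a := κ / 4) (by positivity) j) (by positivity) 2)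
          (pw_ge (1 / 2 - δ) j) (by push_cast; first | linarith only [f0, f1, f2, f3, d0, dk, k1] | linarith)
      ht8 := fun j hj => by
        obtain ⟨f0, f1, f2, f3⟩ := fx j hj
        exact nat_le (by push_cast; exact le_pow2 (pw_le (a := κ / 4) (by positivity) j) (by positivity) 8)
          (p2_cast j).ge (by push_cast; first | linarith only [f0, f1, f2, f3, d0, dk, k1] | linarith)
      hh2 := fun j hj => by
        obtain ⟨f0, f1, f2, f3⟩ := fx j hj
        exact nat_le (by push_cast; exact le_mul2 p2_one.ge (pw_le hθ j) (by positivity))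
          (p2_cast j).ge (by first | linarith only [f0, f1, f2, f3, d0, dk, k1] | linarith)
      hY := hY
      hr := fun j hj => by
        obtain ⟨f0, f1, f2, f3⟩ := fx j hj
        refine nat_le (p2_cast _).le (by rw [Nat.cast_pow]; exact ge_pow2 (H_ge κ j) r0) ?_
        have a1 := mul_le_mul_of_nonneg_right ((div_le_iff₀ k0).1 hr0.out) f3.le
        have a2 := mul_le_mul_of_nonneg_left (show 8 ≤ κ * j by first | linarith only [f0, f1, f2, f3, d0, dk, k1] | linarith) (Nat.cast_nonneg (α := ℝ) r0)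
        push_cast
        first | linarith only [f0, f1, f2, f3, d0, dk, k1] | linarith
      hV := fun j hj => (p2_pos _).trans_le (G j hj).c
      good := fun L h1 h2 h3 => not_lt.1 (fun h4 => h3 ⟨h1, h2, h4⟩)
      pool := fun L hL => ?_
      roughc := fun L h1 h2 k h3 h4 j' h5 h6 _ => ?_
      bt := fun L h1 h2 k h3 h4 => ?_
      cnt := fun L h1 h2 => ?_
      sparse := fun M => le_trans (Finset.sum_le_sum (fun p hp => ?_)) (hsp M)
      E1 := fun j hj => ?_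
      E2 := fun j hj => ?_
      E3 := fun j hj => ?_
      E4 := fun j hj => ?_
      E4' := fun j hj => ?_
      E5 := fun j hj => ?_
      E6 := ?_ }
  · have a1 := Par.cell_top (P := P) hdiv hL.1
    rw [pow_succ, mul_comm] at a1
    refine (pool_ok E F (lg L) L (G _ hL.2.1).a (by
      simpa using gb _ hL.2.1 1 1 (by norm_num) (by linarith only [cK.out])) (G _ hL.2.1).c
      (lg_le (by have := hL.1.1; omega)) a1).trans (Nat.cast_le.2 (Finset.card_le_card ?_))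
    intro n hn
    obtain ⟨b1, b2, p, b3, b4, b5⟩ := Finset.mem_filter.1 hn
    have b6 := Par.cell_lg (P := P) hdiv hL.1 b1
    have b7 := Par.cell_base (P := P) hdiv hL.1 b1
    refine Finset.mem_filter.2 ⟨b1, p, ?_, ?_, b3, b4, ?_⟩
    · rw [b7]; exact hL
    · rw [b6]; exact b2
    · rw [b6]; exact b5
  · refine le_trans (le_of_eq ?_) (sieve3 E F (lg L) j' L k (G _ h2).a h6 (G _ h5).c h1.1
      (by omega) h4 (P.rough j') (fun m _ hm q hq hd => by
        obtain ⟨b1, b2⟩ := Nat.mem_primesLE.1 hq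
        exact absurd (hm q b2 hd) (not_lt.2 b1)))
    congr 2
  · obtain ⟨f0, f1, f2, f3⟩ := fx _ h2
    have k0' : 0 ≤ κ := k0.le
    have a1 := sieve3 E F (lg L) (lg L) L k (G _ h2).a le_rfl (G _ h2).c h1.1 (by omega) h4
      Nat.Prime (fun m h5 hm q hq hd => by
        obtain ⟨b1, b2⟩ := Nat.mem_primesLE.1 hq
        have b3 := (Nat.prime_dvd_prime_iff_eq b2 hm).1 hd
        have b4 := (lg_le (n := L) (by have := h1.1; omega)).trans (mem_Ico.1 h5).1
        have b5 : 2 * (k * m) ≤ 2 ^ lg L := nat_le (by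
          push_cast
          exact le_mul2 p2_one.ge (le_mul2 ((Nat.cast_le.2 h4).trans (H_le k0' _))
            ((Nat.cast_le.2 (b3 ▸ b1)).trans (H_le k0' _)) (by positivity)) (by positivity))
          (p2_cast _).ge (by first | linarith only [f0, f1, f2, f3, d0, dk, k1] | linarith)
        have := Nat.one_le_two_pow (n := lg L)
        omega)
    have a2 := mul_le_mul_of_nonneg_left (V_small E (lg L) f0)
      (by positivity : (0 : ℝ) ≤ 3 * (pw (1 / 2 - δ) (lg L) / k))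
    refine le_trans (le_of_eq ?_) ((a1.trans a2).trans_eq ?_)
    · congr 2
      ext m
      simp only [Finset.mem_filter]
      rfl
    · show _ = 12 / κ * (pw (1 / 2 - δ) (lg L) / k) / lg L
      ring
  · obtain ⟨f0, f1, f2, f3⟩ := fx _ h2
    have a0 := gb _ h2 9 1 (by norm_num) (by linarith only [cK.out])
    rw [pow_one] at a0
    refine (Par.cnt_bound Pre κ k0.le (fun M => (hsp M).trans (by linarith only [e01.out])) L h1 h2 (ht2 _ h2)
      (p2 ((1 / 2 - 2 * δ) * lg L - 1)) (p2_pos _).le (fun j' h3 h4 => ?_)).trans ?_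
    · by_cases h5 : (1 - 10 * δ) * lg L ≤ j'
      · exact Or.inr (pair_arith κ δ d0 dk (by first | linarith only [f0, f1, f2, f3, d0, dk, k1] | linarith) (lg L) j' f0 h5 h4 _ (hBn j' h3)
          (p2_le_of a0 (by first | linarith only [f0, f1, f2, f3, d0, dk, k1] | linarith)))
      · refine Or.inl (p2_le_of (le_mul2 (hBn j' h3) (pw_le hθ j') (by positivity)) ?_)
        have b1 : (j' : ℝ) ≤ lg L := by first | linarith only [f0, f1, f2, f3, d0, dk, k1] | linarith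
        have b2 := mul_le_mul_of_nonneg_left b1 d0.le
        first | linarith only [f0, f1, f2, f3, d0, dk, k1] | linarith
    · set j := lg L
      have b1 : (pw (κ / 4) j : ℝ) ^ (-κ) ≤ p2 ((κ / 4 * j - 1) * (-κ)) := by
        rw [← p2_rpow]
        exact Real.rpow_le_rpow_of_nonpos (p2_pos _) (pw_ge _ j) (by first | linarith only [f0, f1, f2, f3, d0, dk, k1] | linarith)
      have b2 : κ ^ 2 * j = 100 * (δ * j) := by rw [← hδ.out]; ring
      have b3 := p2_le_of (le_mul2 p2_one.ge b1 (by positivity))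
        (show _ ≤ -(δ / 2 * j) - 1 by first | linarith only [f0, f1, f2, f3, d0, dk, k1] | linarith)
      have b4 := (p2_le_of (le_mul2 ((show 2 * (j : ℝ) + 2 ≤ 9 * j by first | linarith only [f0, f1, f2, f3, d0, dk, k1] | linarith).trans a0)
        (le_refl (p2 ((1 / 2 - 2 * δ) * j - 1))) (p2_pos _).le)
        (show _ ≤ (1 / 2 - δ) * j - 1 + (-(δ / 2 * j) - 1) by first | linarith only [f0, f1, f2, f3, d0, dk, k1] | linarith)).trans
        (ge_mul2 (pw_ge (1 / 2 - δ) j) le_rfl)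
      have b5 := mul_le_mul_of_nonneg_left b3 (Nat.cast_nonneg (pw (1 / 2 - δ) j) : (0 : ℝ) ≤ _)
      rw [p2_sub (-(δ / 2 * j)), p2_one] at b4 b5
      show (2 * (j : ℝ) + 2) * _ + 2 * (pw (1 / 2 - δ) j : ℝ) * (pw (κ / 4) j : ℝ) ^ (-κ) ≤
        pw (1 / 2 - δ) j * p2 (-(δ / 2 * j))
      linarith only [b4, b5]
  · have : (1 : ℝ) ≤ p := by exact_mod_cast (mem_Icc.1 (Finset.mem_filter.1 hp).1).1
    exact div_le_div_of_nonneg_right (Real.rpow_le_rpow_of_exponent_le this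
      (by show δ / 4 ≤ κ; first | linarith only [f0, f1, f2, f3, d0, dk, k1] | linarith)) (by first | linarith only [f0, f1, f2, f3, d0, dk, k1] | linarith)
  · obtain ⟨f0, f1, f2, f3⟩ := fx j hj
    have a1 : p2 (((1 / 2 + κ) * j - 1) * (δ / 4)) ≤ (pw (1 / 2 + κ) j : ℝ) ^ (δ / 4) := by
      rw [← p2_rpow]
      exact Real.rpow_le_rpow (p2_pos _).le (pw_ge _ j) (by positivity)
    have a2 : 0 ≤ κ * δ * j := by positivity
    refine le_trans ?_ ((G j hj).e.trans (p2_ge_of (ge_mul2 (G j hj).c a1) (by first | linarith only [f0, f1, f2, f3, d0, dk, k1] | linarith)))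
    rw [mul_assoc, pow_mul, ← mul_pow]
    refine mul_le_mul_of_nonneg_left (pow_le_pow_left₀ (by positivity) ?_ _) (by norm_num)
    show ((j : ℝ) + 2) ^ 2 / e0 ≤ _
    rw [div_mul_eq_mul_div]
    have a3 : (2 : ℝ) ≤ j := by linarith only [f0, f1, f2]
    exact div_le_div_of_nonneg_right (by nlinarith only [a3]) e00.le
  · obtain ⟨f0, f1, f2, f3⟩ := fx j hj
    refine le_trans ?_ (hN j).ge
    have a1 := Real.log_le_log (p2_pos _) (pw_ge (κ / 4) j)
    rw [p2_log] at a1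
    have a2 := mul_le_mul_of_nonneg_left Real.log_two_gt_d9.le
      (show 0 ≤ κ / 4 * j - 1 by first | linarith only [f0, f1, f2, f3, d0, dk, k1] | linarith)
    have a3 : κ * j / 8 ≤ ell (pw (κ / 4) j) := by unfold ell; first | linarith only [f0, f1, f2, f3, d0, dk, k1] | linarith
    have a4 := (G j hj).f
    rw [← hc.out, div_le_iff₀ (by positivity)] at a4
    refine (div_le_div_of_nonneg_left (by positivity) (by positivity)
      (pow_le_pow_left₀ (by positivity) a3 4)).trans ?_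
    rw [div_le_div_iff₀ (by positivity) (by positivity)]
    have a5 := mul_le_mul_of_nonneg_left a4
      (by positivity : (0 : ℝ) ≤ pw (1 / 2 - δ) j * (j : ℝ) ^ 3 / 4096)
    show 4 * (pw (1 / 2 - δ) j : ℝ) * (j : ℝ) ^ 3 ≤ _
    first | linarith only [f0, f1, f2, f3, d0, dk, k1] | linarith
  · obtain ⟨f0, f1, f2, f3⟩ := fx j hj
    refine le_trans (hη j hj _ (1 / c * (j : ℝ) ^ 3) (gb j hj _ 3 (by norm_num) (by gcongr; norm_num))
      (by positivity) ?_) (le_trans (le_of_eq (by field_simp)) (hN j).ge)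
    rw [← p2_nat, p2_rpow]
    refine p2_mono (le_of_eq ?_)
    show ((j + 1 : ℕ) : ℝ) * (δ / 4) = _
    push_cast; ring
  · obtain ⟨f0, f1, f2, f3⟩ := fx j hj
    have := hη j hj 1 (4000 * j) (by simpa using gb j hj 4000 1 (by norm_num) cK.out) (by positivity)
      (one_le j)
    rwa [one_mul] at this
  · obtain ⟨f0, f1, f2, f3⟩ := fx j hj
    have a1 := p2_ge_of (G j hj).c (show -(δ / 2 * j) + (3 : ℕ) ≤ _ by push_cast; first | linarith only [f0, f1, f2, f3, d0, dk, k1] | linarith)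
    rw [p2_addn] at a1
    have a2 := mul_le_mul_of_nonneg_left a1 (Nat.cast_nonneg (pw (1 / 2 - δ) j) : (0 : ℝ) ≤ _)
    show (pw (1 / 2 - δ) j : ℝ) * p2 (-(δ / 2 * j)) ≤
      pw (1 / 2 - δ) j * V (pw (κ / 4) j ^ 4).primesLE / 8
    first | linarith only [f0, f1, f2, f3, d0, dk, k1] | linarith
  · obtain ⟨f0, f1, f2, f3⟩ := fx j hj
    have a1 := (gb j hj (1 / c) 3 (by norm_num) (by gcongr; norm_num)).trans
      (p2_ge_of (pw_ge (1 / 2 - δ) j) (by first | linarith only [f0, f1, f2, f3, d0, dk, k1] | linarith))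
    have a2 : 1 ≤ c * pw (1 / 2 - δ) j / (j : ℝ) ^ 3 := by
      rw [le_div_iff₀ (by positivity)]
      rw [div_mul_eq_mul_div, div_le_iff₀ c0] at a1
      first | linarith only [f0, f1, f2, f3, d0, dk, k1] | linarith
    have a3 := hN j
    show 2 ≤ e1 / 16000 * P.N j / 8
    first | linarith only [f0, f1, f2, f3, d0, dk, k1] | linarith
  · obtain ⟨f0, f1, f2, f3⟩ := fx j0 le_rfl
    have a1 : ∑ n ∈ (Ico 1 (2 ^ j0) : Finset ℕ), (n : ℝ) ^ (δ / 4) * (n : ℝ) ^ (-(1 - δ / 2)) ≤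
        p2 (3 * δ / 4 * j0) * (1 + j0) := by
      refine le_trans (le_of_eq (Finset.sum_congr rfl (fun n hn => ?_))) (harm j0 _ (by positivity))
      rw [← Real.rpow_add (by exact_mod_cast (mem_Ico.1 hn).1)]
      congr 1; ring
    have a2 := gb j0 le_rfl (2 / c) 4 le_rfl le_rfl
    have a3 : (1 + j0) * (1 / c * (j0 : ℝ) ^ 3) ≤ p2 (δ / 8 * j0) := by
      refine le_trans ?_ a2
      have : 2 / c * (j0 : ℝ) ^ 4 = (2 * j0) * (1 / c * (j0 : ℝ) ^ 3) := by ring
      rw [this]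
      exact mul_le_mul_of_nonneg_right (by first | linarith only [f0, f1, f2, f3, d0, dk, k1] | linarith) (by positivity)
    have a4 := p2_le_of (le_div2 (le_mul2 (le_refl (p2 (3 * δ / 4 * j0))) a3 (by positivity))
      (le_refl (p2 (2 * j0 : ℕ)))) (show _ ≤ ((2 * j0 + 1 : ℕ) : ℝ) * (-(1 - δ / 2)) by
        push_cast; first | linarith only [f0, f1, f2, f3, d0, dk, k1] | linarith)
    rw [← p2_rpow (2 * j0 + 1 : ℕ), p2_nat, p2_nat] at a4
    have a5 := hN (2 * j0)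
    show (pw (1 / 2 - δ) (2 * j0) : ℝ) / 2 ^ (2 * j0) *
      ∑ n ∈ (Ico 1 (2 ^ j0) : Finset ℕ), (n : ℝ) ^ (δ / 4) * (n : ℝ) ^ (-(1 - δ / 2)) ≤
      e1 / 16000 * P.N (2 * j0) * ((2 : ℝ) ^ (2 * j0 + 1)) ^ (-(1 - δ / 2)) / 8
    have a6 : e1 / 16000 * P.N (2 * j0) = 8 * (c * pw (1 / 2 - δ) (2 * j0) / (j0 : ℝ) ^ 3) := by
      have : e1 / 16000 * P.N (2 * j0) = 64 * (e1 / 16000 / 64 * P.N (2 * j0)) := by ring
      rw [this, a5]; push_cast; ring
    rw [a6]
    refine (mul_le_mul_of_nonneg_left a1 (by positivity)).trans ?_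
    have a7 := mul_le_mul_of_nonneg_left a4
      (by positivity : (0 : ℝ) ≤ c * pw (1 / 2 - δ) (2 * j0) / (j0 : ℝ) ^ 3)
    refine le_trans (le_of_eq ?_) (a7.trans_eq (by ring))
    field_simp

/-- Under the Riemann hypothesis there is a real completely multiplicative function whose partial
sums decay faster than `x ^ (-1/2)` by a power. -/
theorem rh_case (hRH : Zt.RH) : ∃ F : ℕ → ℝ, F 1 = 1 ∧
    (∀ m n : ℕ, m ≠ 0 → n ≠ 0 → F (m * n) = F m * F n) ∧ (∀ n : ℕ, 2 ≤ n → |F n| < 1) ∧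
    ∃ a : ℝ, 1 / 2 < a ∧ ∀ᶠ x : ℕ in atTop, |∑ n ∈ Ico 1 x, F n| ≤ 2 * (x : ℝ) ^ (-a) := by
  obtain ⟨s, s1, F⟩ := fundamental
  have s1' : (1 : ℝ) ≤ s := by exact_mod_cast s1
  set σ : ℝ := 1 / 24000 / s with hσ
  set κ : ℝ := σ / s with hκ
  have σ0 : 0 < σ := by positivity
  have κ0 : 0 < κ := by positivity
  have σ1 : σ ≤ 1 / 24000 := div_le_self (by norm_num) s1'
  have κ1 : κ ≤ σ := div_le_self σ0.le s1'
  set δ : ℝ := κ ^ 2 / 100 with hδ
  have E : Ex s κ δ σ := ⟨by positivity, by rw [hδ]; nlinarith, κ1, σ1,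
    by rw [hκ]; field_simp, by rw [hσ]; field_simp⟩
  have d0 := E.d0
  have d1 : δ ≤ 1 / 100 := by linarith [E.dk]
  obtain ⟨C, -, hC⟩ := Zt.bad_cells hRH (δ / 4) (by positivity) (by linarith)
  obtain ⟨j0, G⟩ := eventually_atTop.1 (ev_good κ δ _ _ C ⌈4 / κ⌉₊ κ0 d0)
  obtain ⟨f, f1, f2, f3, f4⟩ := Par.construct
    (hyp_mk E F (by rw [hδ]; ring) (Nat.le_ceil _) rfl rfl hC G)
  refine ⟨f, f1, f2, fun n hn => ?_, 1 / 2 + δ / 4, by linarith, ?_⟩
  · refine (f3 n (by omega)).trans_lt ?_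
    have : (1 : ℝ) < n := by exact_mod_cast hn
    rw [← Real.rpow_add (by linarith)]
    refine Real.rpow_lt_one_of_one_lt_of_neg this ?_
    show δ / 4 + -(1 - δ / 2) < 0
    linarith
  · filter_upwards [eventually_ge_atTop (2 ^ (2 * j0 + 1))] with x hx
    have x0 : 0 < x := lt_of_lt_of_le Nat.one_le_two_pow hx
    have h1 := lg_mono hx
    rw [lg_eq le_rfl (Nat.pow_lt_pow_right (by norm_num) (Nat.lt_succ_self _))] at h1
    refine (f4 x h1).trans ?_
    rw [← p2_nat, ← p2_nat, p2_rpow, p2_rpow, ← p2_add]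
    have h2 : p2 (((lg x + 1 : ℕ) : ℝ) * -(1 / 2 + δ / 4)) ≤ (x : ℝ) ^ (-(1 / 2 + δ / 4)) := by
      rw [← p2_rpow, ← p2_cast]
      exact Real.rpow_le_rpow_of_nonpos (by exact_mod_cast x0) (by exact_mod_cast (lt_lg x).le)
        (by linarith)
    refine (le_mul2 (pw_le (a := 1 / 2 - δ) (by linarith) _) le_rfl (p2_pos _).le).trans
      (p2_ge_of (ge_mul2 p2_one.le h2) ?_)
    show (1 / 2 - δ) * lg x + (((lg x + 1 : ℕ) : ℝ) * (δ / 4) + lg x * -(1 - δ / 2)) ≤ _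
    push_cast
    linarith

end Pool.Agent.H59.MO
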