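import Mathlib
import Pool.Agent.H59.MOA3

/-! From power saving bounds to the required limits. -/

set_option autoImplicit false

namespace Pool.Agent.H59.MO

open Finset Filter Topology

lemma lim_of_bound (f : ℕ → ℂ) (C a b : ℝ) (hb : 0 ≤ b) (ha : b < a)
    (h : ∀ᶠ N : ℕ in atTop, ‖∑ n ∈ Icc 1 N, f n‖ ≤ C * ((N : ℝ) + 1) ^ (-a)) :
    Tendsto (fun N : ℕ => ∑ n ∈ Icc 1 N, f n) atTop (𝓝 0) ∧
      Tendsto (fun x : ℝ => x ^ b * ‖∑ n ∈ Icc 1 ⌊x⌋₊, f n‖) atTop (𝓝 0) := by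
  have t : ∀ c : ℝ, 0 < c → Tendsto (fun N : ℕ => C * ((N : ℝ) + 1) ^ (-c)) atTop (𝓝 0) := by
    intro c hc
    have := ((tendsto_rpow_neg_atTop hc).comp
      (tendsto_atTop_add_const_right _ 1 tendsto_natCast_atTop_atTop)).const_mul C
    simpa using this
  refine ⟨squeeze_zero_norm' h (t a (by linarith)), ?_⟩
  refine squeeze_zero' ?_ ?_ ((t (a - b) (by linarith)).comp tendsto_nat_floor_atTop)
  · filter_upwards [eventually_ge_atTop 0] with x hx
    positivity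
  · filter_upwards [tendsto_nat_floor_atTop.eventually h, eventually_ge_atTop 0] with x h1 hx
    have h2 : x ^ b ≤ ((⌊x⌋₊ : ℝ) + 1) ^ b :=
      Real.rpow_le_rpow hx (Nat.lt_floor_add_one x).le hb
    refine (mul_le_mul h2 h1 (norm_nonneg _) (by positivity)).trans_eq ?_
    simp only [Function.comp]
    rw [mul_left_comm, ← Real.rpow_add (by positivity)]
    congr 2; ring

/-- The complex form of the construction under the Riemann hypothesis. -/
theorem rh_complex (hRH : Zt.RH) : ∃ f : ℕ → ℂ, f 1 = 1 ∧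
    (∀ m n : ℕ, 0 < m → 0 < n → f (m * n) = f m * f n) ∧ (∀ n : ℕ, 2 ≤ n → ‖f n‖ < 1) ∧
    ∃ a : ℝ, 1 / 2 < a ∧ ∀ᶠ N : ℕ in atTop, ‖∑ n ∈ Icc 1 N, f n‖ ≤ 2 * ((N : ℝ) + 1) ^ (-a) := by
  obtain ⟨F, h1, h2, h3, a, h4, h5⟩ := rh_case hRH
  refine ⟨fun n => F n, by simp [h1], fun m n hm hn => by simp [h2 m n hm.ne' hn.ne'],
    fun n hn => by simpa using h3 n hn, a, h4, ?_⟩
  filter_upwards [(tendsto_add_atTop_nat 1).eventually h5] with N hN
  rw [← Complex.ofReal_sum, Complex.norm_real, Real.norm_eq_abs, ← Finset.Ico_add_one_right_eq_Icc]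
  simpa using hN

end Pool.Agent.H59.MO
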