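import Mathlib

/-! Algebra of multidimensional sieve weights. -/

set_option autoImplicit false
set_option linter.unusedSectionVars false

namespace Pool.Agent.H59.MT

open Finset

variable {ι M : Type} [Fintype ι] [DecidableEq ι] [Fintype M] [DecidableEq M] (ν l : M → ℝ)

/-- Weight of a state. -/
noncomputable def mu (r : M → Option ι) : ℝ := ∏ x, if r x = none then 1 else ν x

/-- Size of a coordinate. -/
noncomputable def sz (i : ι) (r : M → Option ι) : ℝ := ∑ x, if r x = some i then l x else 0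

/-- Total size. -/
noncomputable def tot (r : M → Option ι) : ℝ := ∑ x, if r x = none then 0 else l x

/-- Deleting a coordinate. -/
def pj (m : ι) (r : M → Option ι) : M → Option ι := fun x => if r x = some m then none else r x

/-- Free places. -/
def fr (s : M → Option ι) : Finset M := univ.filter fun x => s x = none

/-- Adding a coordinate. -/
def ad (m : ι) (s : M → Option ι) (e : Finset M) : M → Option ι :=
  fun x => if x ∈ e then some m else s x

/-- States without a coordinate. -/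
def Fr (m : ι) : Finset (M → Option ι) := univ.filter fun s => ∀ x, s x ≠ some m

/-- One dimensional sums. -/
noncomputable def aa (B : Finset M) (f : ℝ → ℝ) : ℝ :=
  ∑ e ∈ B.powerset, (∏ x ∈ e, ν x) * f (∑ x ∈ e, l x)

/-- The point mass. -/
noncomputable def d0 (t : ℝ) : ℝ := if t ≤ 0 then 1 else 0

section ad

variable {m : ι} {s : M → Option ι} {e : Finset M}

lemma hfr (he : e ∈ (fr s).powerset) {x : M} (hx : x ∈ e) : s x = none := by
  simpa [fr] using mem_powerset.1 he hx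

lemma pj_ad (hs : s ∈ Fr m) (he : e ∈ (fr s).powerset) : pj m (ad m s e) = s := by
  funext x
  have := (mem_filter.1 hs).2 x
  by_cases h : x ∈ e
  · simp [pj, ad, h, hfr he h]
  · simp [pj, ad, h, this]

lemma fib (m : ι) (F : (M → Option ι) → ℝ) :
    ∑ r, F r = ∑ s ∈ Fr m, ∑ e ∈ (fr s).powerset, F (ad m s e) := by
  rw [sum_sigma']
  refine sum_nbij' (fun r => ⟨pj m r, univ.filter fun x => r x = some m⟩) (fun z => ad m z.1 z.2)
    (fun r _ => ?_) (by simp) (fun r _ => ?_) (fun z hz => ?_) (fun r _ => ?_)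
  · refine mem_sigma.2 ⟨mem_filter.2 ⟨mem_univ _, fun x => ?_⟩, mem_powerset.2 fun x hx => ?_⟩
    · simp only [pj]; split_ifs <;> simp [*]
    · simp_all [fr, pj]
  · funext x; by_cases h : r x = some m <;> simp [ad, pj, h]
  · obtain ⟨h1, h2⟩ := mem_sigma.1 hz
    refine Sigma.ext (pj_ad h1 h2) (heq_of_eq ?_)
    ext x
    have := (mem_filter.1 h1).2 x
    by_cases h : x ∈ z.2 <;> simp [ad, h, this]
  · congr 1; funext x; by_cases h : r x = some m <;> simp [ad, pj, h]

lemma prod_ad (he : e ∈ (fr s).powerset) (φ : M → Option ι → ℝ) (h : ∀ x, φ x none = 1) :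
    ∏ x, φ x (ad m s e x) = (∏ x, φ x (s x)) * ∏ x ∈ e, φ x (some m) := by
  rw [← Fintype.prod_ite_mem e, ← prod_mul_distrib]
  refine prod_congr rfl fun x _ => ?_
  by_cases hx : x ∈ e
  · simp [ad, hx, hfr he hx, h]
  · simp [ad, hx]

lemma sum_ad (he : e ∈ (fr s).powerset) (φ : M → Option ι → ℝ) (h : ∀ x, φ x none = 0) :
    ∑ x, φ x (ad m s e x) = ∑ x, φ x (s x) + ∑ x ∈ e, φ x (some m) := by
  rw [← Fintype.sum_ite_mem e, ← sum_add_distrib]
  refine sum_congr rfl fun x _ => ?_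
  by_cases hx : x ∈ e
  · simp [ad, hx, hfr he hx, h]
  · simp [ad, hx]

lemma mu_ad (he : e ∈ (fr s).powerset) : mu ν (ad m s e) = mu ν s * ∏ x ∈ e, ν x := by
  simpa [mu] using prod_ad (m := m) he (fun x a => if a = none then 1 else ν x) (by simp)

lemma tot_ad (he : e ∈ (fr s).powerset) : tot l (ad m s e) = tot l s + ∑ x ∈ e, l x := by
  simpa [tot] using sum_ad (m := m) he (fun x a => if a = none then 0 else l x) (by simp)

lemma sz_ad (hs : s ∈ Fr m) (he : e ∈ (fr s).powerset) : sz l m (ad m s e) = ∑ x ∈ e, l x := by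
  have := sum_ad (m := m) he (fun x a => if a = some m then l x else 0) (by simp)
  simpa [sz, (mem_filter.1 hs).2] using this

lemma sz_ad' (he : e ∈ (fr s).powerset) {i : ι} (hi : i ≠ m) : sz l i (ad m s e) = sz l i s := by
  simpa [sz, hi.symm] using sum_ad (m := m) he (fun x a => if a = some i then l x else 0) (by simp)

end ad

lemma tot_eq (r : M → Option ι) : tot l r = ∑ i, sz l i r := by
  unfold tot sz
  rw [sum_comm]
  refine sum_congr rfl fun x _ => ?_
  cases r x <;> simp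

/-- Standing assumptions. -/
structure Std (ν l : M → ℝ) (κ : ℝ) : Prop where
  n0 : ∀ x, 0 < ν x
  l1 : ∀ x, 1 ≤ l x
  nk : ∀ x, ν x ≤ κ

variable {ν l} {κ : ℝ}

lemma Std.mu0 (h : Std ν l κ) (r : M → Option ι) : 0 < mu ν r :=
  prod_pos fun x _ => by split_ifs; exacts [one_pos, h.n0 x]

lemma Std.p0 (h : Std ν l κ) (e : Finset M) : 0 < ∏ x ∈ e, ν x := prod_pos fun x _ => h.n0 x

lemma Std.s0 (h : Std ν l κ) (e : Finset M) : 0 ≤ ∑ x ∈ e, l x :=
  sum_nonneg fun x _ => zero_le_one.trans (h.l1 x)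

lemma Std.sz0 (h : Std ν l κ) (i : ι) (r : M → Option ι) : 0 ≤ sz l i r :=
  sum_nonneg fun x _ => by split_ifs; exacts [zero_le_one.trans (h.l1 x), le_rfl]

lemma Std.ex (h : Std ν l κ) (c σ : ℝ) (c0 : 0 ≤ c) (r : M → Option ι) (hr : tot l r ≤ σ) :
    ∏ x, (if r x = none then 1 else 1 + c) ≤ Real.exp (c * σ) := by
  refine le_trans ?_ (Real.exp_le_exp.2 (mul_le_mul_of_nonneg_left hr c0))
  rw [tot, mul_sum, Real.exp_sum]
  refine prod_le_prod (fun x _ => by positivity) fun x _ => ?_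
  split_ifs
  · simp
  · nlinarith [Real.add_one_le_exp (c * l x), h.l1 x]

lemma Std.aa0 (h : Std ν l κ) (B : Finset M) {f : ℝ → ℝ} (f0 : ∀ t, 0 ≤ f t) : f 0 ≤ aa ν l B f := by
  simpa [aa] using single_le_sum (f := fun e : Finset M => (∏ x ∈ e, ν x) * f (∑ x ∈ e, l x))
    (fun e _ => mul_nonneg (h.p0 e).le (f0 _)) (empty_mem_powerset B)

lemma Std.aa_mono (h : Std ν l κ) {B C : Finset M} (hB : B ⊆ C) {f g : ℝ → ℝ}
    (g0 : ∀ t, 0 ≤ g t) (fg : ∀ t, 0 ≤ t → f t ≤ g t) : aa ν l B f ≤ aa ν l C g :=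
  (sum_le_sum fun e _ => mul_le_mul_of_nonneg_left (fg _ (h.s0 e)) (h.p0 e).le).trans
    (sum_le_sum_of_subset_of_nonneg (powerset_mono.2 hB) fun e _ _ => mul_nonneg (h.p0 e).le (g0 _))

lemma aa_ins {B : Finset M} {x : M} (hx : x ∉ B) (f : ℝ → ℝ) :
    aa ν l (insert x B) f = aa ν l B f + ν x * aa ν l B fun t => f (l x + t) := by
  unfold aa
  rw [sum_powerset_insert hx, mul_sum]
  congr 1
  refine sum_congr rfl fun e he => ?_
  have : x ∉ e := fun h => hx (mem_powerset.1 he h)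
  rw [prod_insert this, sum_insert this, mul_assoc]

lemma Std.aa_le (h : Std ν l κ) (B C : Finset M) {f : ℝ → ℝ} (f0 : ∀ t, 0 ≤ f t)
    (fa : Antitone f) : aa ν l (C ∪ B) f ≤ (∏ x ∈ C, (1 + ν x)) * aa ν l B f := by
  induction C using Finset.induction_on with
  | empty => simp
  | insert x C hx ih =>
    have n := h.n0 x
    have a := (f0 0).trans (h.aa0 (C ∪ B) f0)
    rw [prod_insert hx, insert_union, mul_assoc]
    refine le_trans ?_ (mul_le_mul_of_nonneg_left ih (by linarith))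
    by_cases hb : x ∈ C ∪ B
    · rw [insert_eq_of_mem hb]; nlinarith
    · rw [aa_ins hb, add_mul, one_mul]
      exact add_le_add_right (mul_le_mul_of_nonneg_left
        (h.aa_mono Subset.rfl f0 fun t _ => fa (by linarith [h.l1 x])) n.le) _

lemma Std.cmp (h : Std ν l κ) (k0 : 0 ≤ κ) {σ : ℝ} {s : M → Option ι} (hs : tot l s ≤ σ)
    {f : ℝ → ℝ} (f0 : ∀ t, 0 ≤ f t) (fa : Antitone f) :
    aa ν l univ f ≤ Real.exp (κ * σ) * aa ν l (fr s) f := by
  have := h.aa_le (fr s) (fr s)ᶜ f0 fa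
  rw [union_comm, union_compl] at this
  refine this.trans (mul_le_mul_of_nonneg_right (le_trans ?_ (h.ex κ σ k0 s hs))
    ((f0 0).trans (h.aa0 _ f0)))
  rw [← Fintype.prod_ite_mem]
  refine prod_le_prod (fun x _ => by have := h.n0 x; positivity) fun x _ => ?_
  by_cases a : s x = none <;> simp [fr, a, h.nk x]

lemma Std.aa_d0 (h : Std ν l κ) (B : Finset M) : aa ν l B d0 = 1 := by
  rw [aa, sum_eq_single_of_mem ∅ (empty_mem_powerset B)]
  · simp [d0]
  · intro e _ he
    rw [d0, if_neg, mul_zero]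
    exact not_le.2 (sum_pos (fun x _ => one_pos.trans_le (h.l1 x)) (nonempty_iff_ne_empty.2 he))

lemma d0_nonneg (t : ℝ) : 0 ≤ d0 t := by unfold d0; positivity

lemma d0_anti : Antitone d0 := fun s t h => by
  unfold d0; split_ifs <;> first | simp | linarith

variable (ν l) in
/-- Product sums. -/
noncomputable def WW (f : ι → ℝ → ℝ) : ℝ := ∑ r : M → Option ι, mu ν r * ∏ i, f i (sz l i r)

lemma WW_eq (m : ι) (f : ι → ℝ → ℝ) : WW ν l f =
    ∑ s ∈ Fr m, mu ν s * (∏ i ∈ univ.erase m, f i (sz l i s)) * aa ν l (fr s) (f m) := by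
  rw [WW, fib m]
  refine sum_congr rfl fun s hs => ?_
  rw [aa, mul_sum]
  refine sum_congr rfl fun e he => ?_
  rw [mu_ad ν he, ← mul_prod_erase _ _ (mem_univ m), sz_ad l hs he,
    prod_congr (s₁ := univ.erase m) rfl fun i hi => by rw [sz_ad' l he (ne_of_mem_erase hi)]]
  ring

lemma Std.WW_up (h : Std ν l κ) (m : ι) (f : ι → ℝ → ℝ) : WW ν l (Function.update f m d0) =
    ∑ s ∈ Fr m, mu ν s * (∏ i ∈ univ.erase m, f i (sz l i s)) := by
  rw [WW_eq m]
  refine sum_congr rfl fun s _ => ?_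
  rw [Function.update_self, h.aa_d0, mul_one]
  congr 1
  exact prod_congr rfl fun i hi => by rw [Function.update_of_ne (ne_of_mem_erase hi)]

lemma Std.WW_d0 (h : Std ν l κ) : WW ν l (fun _ : ι => d0) = 1 := by
  rw [WW, sum_eq_single_of_mem (fun _ => none) (mem_univ _)]
  · simp [mu, sz, d0]
  · intro r _ hr
    obtain ⟨x, hx⟩ := Function.ne_iff.1 hr
    obtain ⟨i, hi⟩ := Option.ne_none_iff_exists'.1 hx
    rw [prod_eq_zero (mem_univ i), mul_zero]
    refine if_neg (not_le.2 (lt_of_lt_of_le ?_ (single_le_sum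
      (f := fun x => if r x = some i then l x else 0) (fun x _ => ?_) (mem_univ x))))
    · simpa [hi] using one_pos.trans_le (h.l1 x)
    · split_ifs; exacts [zero_le_one.trans (h.l1 x), le_rfl]

lemma up_ind (P : (ι → ℝ → ℝ) → Prop) (Q : Finset ι → (ι → ℝ → ℝ) → Prop)
    (hP : ∀ f m, P f → P (Function.update f m d0)) (h0 : Q ∅ fun _ => d0)
    (h1 : ∀ I m f, m ∉ I → P f → Q I (Function.update f m d0) → Q (insert m I) f)
    (f : ι → ℝ → ℝ) (hf : P f) : Q univ f := by
  suffices ∀ I : Finset ι, ∀ f, P f → (∀ i ∉ I, f i = d0) → Q I f from this _ f hf (by simp)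
  intro I
  induction I using Finset.induction_on with
  | empty => intro f _ h; rwa [show f = fun _ => d0 from funext fun i => h i (by simp)]
  | insert m I hm ih =>
    intro f hf h
    refine h1 I m f hm hf (ih _ (hP f m hf) fun i hi => ?_)
    by_cases a : i = m
    · simp [a]
    · rw [Function.update_of_ne a, h i (by simp [a, hi])]

lemma Std.WW_le (h : Std ν l κ) (f : ι → ℝ → ℝ) (f0 : ∀ i t, 0 ≤ t → 0 ≤ f i t) :
    WW ν l f ≤ ∏ i, aa ν l univ (f i) := by
  refine up_ind (fun f => ∀ i t, 0 ≤ t → 0 ≤ f i t)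
    (fun I f => WW ν l f ≤ ∏ i ∈ I, aa ν l univ (f i)) (fun f m hf i t ht => ?_)
    (by simp [h.WW_d0]) (fun I m f hm hf ih => ?_) f f0
  · by_cases a : i = m
    · simp [a, d0_nonneg]
    · simp [a, hf i t ht]
  · have z : ∀ e : Finset M, 0 ≤ (∏ x ∈ e, ν x) * f m (∑ x ∈ e, l x) := fun e =>
      mul_nonneg (h.p0 e).le (hf _ _ (h.s0 e))
    rw [prod_congr rfl fun i hi => by rw [Function.update_of_ne (ne_of_mem_of_not_mem hi hm)],
      h.WW_up] at ih
    rw [prod_insert hm, WW_eq m, mul_comm]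
    refine le_trans ?_ (mul_le_mul_of_nonneg_right ih (sum_nonneg fun e _ => z e))
    rw [sum_mul]
    exact sum_le_sum fun s _ => mul_le_mul_of_nonneg_left (sum_le_sum_of_subset_of_nonneg
      (powerset_mono.2 (subset_univ _)) fun e _ _ => z e)
      (mul_nonneg (h.mu0 s).le (prod_nonneg fun i _ => hf _ _ (h.sz0 i s)))

lemma Std.WW_ge (h : Std ν l κ) (k0 : 0 ≤ κ) (τ : ℝ) (t0 : 0 ≤ τ) (f : ι → ℝ → ℝ)
    (f0 : ∀ i, (∀ t, 0 ≤ f i t) ∧ Antitone (f i) ∧ ∀ t, f i t ≠ 0 → t ≤ τ) :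
    ∏ i, aa ν l univ (f i) ≤
      Real.exp (κ * (Fintype.card ι * τ)) ^ Fintype.card ι * WW ν l f := by
  set E := Real.exp (κ * (Fintype.card ι * τ))
  refine up_ind (fun f => ∀ i, (∀ t, 0 ≤ f i t) ∧ Antitone (f i) ∧ ∀ t, f i t ≠ 0 → t ≤ τ)
    (fun I f => ∏ i ∈ I, aa ν l univ (f i) ≤ E ^ I.card * WW ν l f) (fun f m hf i => ?_)
    (by simp [h.WW_d0]) (fun I m f hm hf ih => ?_) f f0
  · by_cases a : i = m
    · rw [a, Function.update_self]
      exact ⟨d0_nonneg, d0_anti, fun t ht => by by_contra c; exact ht (if_neg (by linarith))⟩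
    · simpa [a] using hf i
  · rw [prod_congr rfl fun i hi => by rw [Function.update_of_ne (ne_of_mem_of_not_mem hi hm)],
      h.WW_up] at ih
    rw [prod_insert hm, WW_eq m, card_insert_of_notMem hm, pow_succ, mul_comm, mul_assoc]
    refine (mul_le_mul_of_nonneg_right ih (((hf m).1 0).trans (h.aa0 _ (hf m).1))).trans ?_
    rw [mul_assoc, sum_mul, mul_sum _ _ E]
    refine mul_le_mul_of_nonneg_left (sum_le_sum fun s hs => ?_) (by positivity)
    by_cases z : ∏ i ∈ univ.erase m, f i (sz l i s) = 0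
    · simp [z]
    · rw [mul_left_comm]
      refine mul_le_mul_of_nonneg_left (h.cmp k0 ?_ (hf m).1 (hf m).2.1)
        (mul_nonneg (h.mu0 s).le (prod_nonneg fun i _ => (hf i).1 _))
      rw [tot_eq, ← card_univ, ← nsmul_eq_mul]
      refine sum_le_card_nsmul _ _ _ fun i _ => ?_
      by_cases a : i = m
      · simpa [a, sz, (mem_filter.1 hs).2] using t0
      · exact (hf i).2.2 _ (prod_ne_zero_iff.1 z i (by simp [a]))

end Pool.Agent.H59.MT
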