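import Mathlib
import Pool.Agent.H59.MT6

/-! Majorants, quadratic forms and change of basis. -/

set_option autoImplicit false
set_option linter.unusedSectionVars false

namespace Pool.Agent.H59.MT

open Finset

variable {ι M : Type} [Fintype ι] [DecidableEq ι] [Fintype M] [DecidableEq M] (ν l : M → ℝ)

/-- Fibre sums. -/
noncomputable def YY (m : ι) (y : (M → Option ι) → ℝ) (s : M → Option ι) : ℝ :=
  ∑ e ∈ (fr s).powerset, (∏ x ∈ e, ν x) * y (ad m s e)

/-- Replacing one coordinate by a Selberg majorant. -/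
noncomputable def TT (m : ι) (χ : ℝ → ℝ) (y : (M → Option ι) → ℝ) (r : M → Option ι) : ℝ :=
  χ (sz l m r) * YY ν m y (pj m r) / aa ν l (fr (pj m r)) χ

/-- Domination by a product. -/
def Dom (y : (M → Option ι) → ℝ) (c : ℝ) (f : ι → ℝ → ℝ) (σ : ℝ) : Prop :=
  ∀ r, 0 ≤ y r ∧ y r ≤ c * ∏ i, f i (sz l i r) ∧ (y r ≠ 0 → tot l r ≤ σ)

variable {ν l} {κ : ℝ}

lemma Std.TT_sum (h : Std ν l κ) (m : ι) {χ : ℝ → ℝ} (c0 : ∀ t, 0 ≤ χ t) (c1 : 0 < χ 0)
    (y : (M → Option ι) → ℝ) (φ : M → Option ι → ℝ) (h0 : ∀ x, φ x none = 1)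
    (h1 : ∀ x, φ x (some m) = 1) :
    ∑ r, mu ν r * TT ν l m χ y r * ∏ x, φ x (r x) = ∑ r, mu ν r * y r * ∏ x, φ x (r x) := by
  rw [fib m, fib m]
  refine sum_congr rfl fun s hs => ?_
  have a := (c1.trans_le (h.aa0 (fr s) c0)).ne'
  trans mu ν s * YY ν m y s * ∏ x, φ x (s x)
  · rw [← mul_div_cancel_right₀ (_ * ∏ x, _) a, mul_div_right_comm]
    nth_rewrite 2 [aa]
    rw [mul_sum]
    refine sum_congr rfl fun e he => ?_
    rw [TT, mu_ad ν he, pj_ad hs he, sz_ad l hs he, prod_ad he φ h0]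
    simp only [h1, prod_const_one]; ring
  · rw [YY, mul_sum, sum_mul]
    refine sum_congr rfl fun e he => ?_
    rw [mu_ad ν he, prod_ad he φ h0]
    simp only [h1, prod_const_one]; ring

lemma dec (m : ι) (r : M → Option ι) : ∃ s ∈ Fr m, ∃ e ∈ (fr s).powerset, r = ad m s e := by
  refine ⟨pj m r, mem_filter.2 ⟨mem_univ _, fun x => ?_⟩, univ.filter fun x => r x = some m,
    mem_powerset.2 fun x hx => ?_, ?_⟩
  · simp only [pj]; split_ifs <;> simp [*]
  · simp_all [fr, pj]
  · funext x; by_cases h : r x = some m <;> simp [ad, pj, h]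

lemma prod_sz {m : ι} {s : M → Option ι} {e : Finset M} (hs : s ∈ Fr m)
    (he : e ∈ (fr s).powerset) (f : ι → ℝ → ℝ) : ∏ i, f i (sz l i (ad m s e)) =
      f m (∑ x ∈ e, l x) * ∏ i ∈ univ.erase m, f i (sz l i s) := by
  rw [← mul_prod_erase _ _ (mem_univ m), sz_ad l hs he,
    prod_congr (s₁ := univ.erase m) rfl fun i hi => by rw [sz_ad' l he (ne_of_mem_erase hi)]]

lemma Std.TT_dom (h : Std ν l κ) (k0 : 0 ≤ κ) (m : ι) {χ : ℝ → ℝ} (c0 : ∀ t, 0 ≤ χ t)
    (c1 : 0 < χ 0) (ca : Antitone χ) {τ σ c : ℝ} (ct : ∀ t, χ t ≠ 0 → t ≤ τ) (hc : 0 ≤ c)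
    {y : (M → Option ι) → ℝ} {f : ι → ℝ → ℝ} (f0 : ∀ i t, 0 ≤ f i t) (hy : Dom l y c f σ) :
    Dom l (TT ν l m χ y) (c * aa ν l univ (f m) * Real.exp (κ * σ) / aa ν l univ χ)
      (Function.update f m χ) (σ + τ) := by
  intro r
  obtain ⟨s, hs, e, he, rfl⟩ := dec m r
  have a := c1.trans_le (h.aa0 (fr s) c0)
  have b := c1.trans_le (h.aa0 univ c0)
  have p0 : 0 ≤ ∏ i ∈ univ.erase m, f i (sz l i s) := prod_nonneg fun i _ => f0 _ _
  have Y0 : 0 ≤ YY ν m y s := sum_nonneg fun e _ => mul_nonneg (h.p0 e).le (hy _).1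
  have g0 := (f0 m 0).trans (h.aa0 univ (f0 m))
  have Y1 : YY ν m y s ≤ c * aa ν l univ (f m) * ∏ i ∈ univ.erase m, f i (sz l i s) := by
    refine le_trans ?_ (mul_le_mul_of_nonneg_right (mul_le_mul_of_nonneg_left
      (h.aa_mono (subset_univ (fr s)) (f0 m) fun _ _ => le_rfl) hc) p0)
    rw [aa, mul_sum, sum_mul]
    refine sum_le_sum fun e he => (mul_le_mul_of_nonneg_left (hy _).2.1 (h.p0 e).le).trans_eq ?_
    rw [prod_sz hs he]; ring
  have Y2 : YY ν m y s ≠ 0 → tot l s ≤ σ := fun hY => by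
    obtain ⟨e, he, hz⟩ := exists_ne_zero_of_sum_ne_zero hY
    have := (hy _).2.2 (right_ne_zero_of_mul hz)
    rw [tot_ad l he] at this
    linarith [h.s0 e]
  rw [TT, pj_ad hs he, sz_ad l hs he, prod_sz hs he, Function.update_self, tot_ad l he,
    prod_congr (s₁ := univ.erase m) rfl fun i hi => by
      rw [Function.update_of_ne (ne_of_mem_erase hi)]]
  have := c0 (∑ x ∈ e, l x)
  refine ⟨by positivity, ?_, fun hz => ?_⟩
  · by_cases z : YY ν m y s = 0
    · rw [z, mul_zero, zero_div]; positivity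
    · have := h.cmp k0 (Y2 z) c0 ca
      rw [div_mul_eq_mul_div, div_le_div_iff₀ a b]
      calc _ ≤ χ (∑ x ∈ e, l x) * (c * aa ν l univ (f m) * ∏ i ∈ univ.erase m, f i (sz l i s)) *
            (Real.exp (κ * σ) * aa ν l (fr s) χ) := by gcongr
        _ = _ := by ring
  · have := (div_ne_zero_iff.1 hz).1
    exact add_le_add (Y2 (right_ne_zero_of_mul this)) (ct _ (left_ne_zero_of_mul this))

lemma Std.dom_sq (h : Std ν l κ) {σ c : ℝ} {y : (M → Option ι) → ℝ} {f : ι → ℝ → ℝ}
    (hy : Dom l y c f σ) :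
    ∑ r, mu ν r * y r ^ 2 ≤ c ^ 2 * ∏ i, aa ν l univ fun t => f i t ^ 2 := by
  refine le_trans ?_ (mul_le_mul_of_nonneg_left
    (h.WW_le (fun i t => f i t ^ 2) fun _ _ _ => sq_nonneg _) (sq_nonneg c))
  rw [WW, mul_sum]
  refine sum_le_sum fun r _ => ?_
  rw [mul_left_comm, prod_pow, ← mul_pow]
  exact mul_le_mul_of_nonneg_left (pow_le_pow_left₀ (hy r).1 (hy r).2.1 2) (h.mu0 r).le

lemma schur {J : Type} [Fintype J] (C : J → ℝ) (A H : J → J → ℝ) (h : ∀ u v, |A u v| ≤ H u v)
    (hs : ∀ u v, H u v = H v u) : |∑ u, ∑ v, C u * C v * A u v| ≤ ∑ u, C u ^ 2 * ∑ v, H u v := by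
  have e : ∑ u, ∑ v, C v ^ 2 * H u v = ∑ u, ∑ v, C u ^ 2 * H u v := by
    rw [sum_comm]; simp only [hs]
  have : |∑ u, ∑ v, C u * C v * A u v| ≤
      (∑ u, ∑ v, C u ^ 2 * H u v + ∑ u, ∑ v, C v ^ 2 * H u v) / 2 := by
    rw [← sum_add_distrib, sum_div]
    refine (abs_sum_le_sum_abs _ _).trans (sum_le_sum fun u _ => ?_)
    rw [← sum_add_distrib, sum_div]
    refine (abs_sum_le_sum_abs _ _).trans (sum_le_sum fun v _ => ?_)
    rw [abs_mul, abs_mul, ← sq_abs (C u), ← sq_abs (C v)]
    have := mul_le_mul_of_nonneg_left (h u v) (mul_nonneg (abs_nonneg (C u)) (abs_nonneg (C v)))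
    nlinarith [mul_nonneg (sq_nonneg (|C u| - |C v|)) ((abs_nonneg _).trans (h u v))]
  simp only [mul_sum]
  linarith

/-- Local correlation matrix. -/
def mm (n : ℝ) (a b : Option ι) : ℝ :=
  if a = b then (if a = none then 1 else n - 1) else if a = none ∨ b = none then 0 else -1

lemma Std.quad (h : Std ν l κ) (n : M → ℝ) {c σ : ℝ} (c0 : 0 ≤ c) (n1 : ∀ x, 0 ≤ n x - 1)
    (hn : ∀ x, Fintype.card ι ≤ c * (n x - 1)) (hc : Real.exp (c * σ) ≤ 3 / 2)
    (C : (M → Option ι) → ℝ) (hC : ∀ u, C u ≠ 0 → tot l u ≤ σ) :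
    |∑ u, ∑ v, C u * C v * ∏ x, mm (n x) (u x) (v x) -
      ∑ u, C u ^ 2 * ∏ x, if u x = none then 1 else n x - 1| ≤
      (∑ u, C u ^ 2 * ∏ x, if u x = none then 1 else n x - 1) / 2 := by
  set D : (M → Option ι) → ℝ := fun u => ∏ x, if u x = none then 1 else n x - 1 with hD
  have D0 : ∀ u, 0 ≤ D u := fun u => prod_nonneg fun x _ => by split_ifs; exacts [zero_le_one, n1 x]
  have := schur C (fun u v => ∏ x, mm (n x) (u x) (v x) - if u = v then D u else 0)
    (fun u v => ∏ x, |mm (n x) (u x) (v x)| - if u = v then D u else 0) (fun u v => by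
      split_ifs with a
      · subst a
        rw [← abs_prod, show ∏ x, mm (n x) (u x) (u x) = D u by simp [mm, hD], abs_of_nonneg (D0 u)]
        simp
      · simp [abs_prod]) fun u v => by
      congr 1
      · refine prod_congr rfl fun x _ => ?_
        by_cases a : u x = v x
        · rw [a]
        · simp [mm, a, Ne.symm a, or_comm]
      · by_cases a : u = v
        · simp [a]
        · simp [a, Ne.symm a]
  simp only [mul_sub, sum_sub_distrib, mul_ite, mul_zero, sum_ite_eq, mem_univ, if_true,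
    ← sq] at this
  refine this.trans ?_
  rw [← sum_sub_distrib, sum_div]
  refine sum_le_sum fun u _ => ?_
  by_cases z : C u = 0
  · simp [z]
  have : ∑ v : M → Option ι, ∏ x, |mm (n x) (u x) (v x)| ≤ D u * (3 / 2) := by
    rw [← Fintype.piFinset_univ, ← prod_univ_sum (fun _ => univ) fun x b => |mm (n x) (u x) b|]
    refine le_trans ?_ (mul_le_mul_of_nonneg_left ((h.ex c σ c0 u (hC u z)).trans hc) (D0 u))
    rw [hD, ← prod_mul_distrib]
    refine prod_le_prod (fun x _ => by positivity) fun x _ => ?_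
    cases a : u x with
    | none => simp [mm, Fintype.sum_option]
    | some i =>
      have : ∑ j : ι, |mm (n x) (some i) (some j)| ≤ ∑ j : ι, ((if i = j then n x - 1 else 0) + 1) :=
        sum_le_sum fun j _ => by by_cases b : i = j <;> simp [mm, b, abs_of_nonneg (n1 x)]
      simp only [sum_add_distrib, sum_ite_eq, mem_univ, if_true, sum_const, card_univ,
        nsmul_eq_mul] at this
      rw [Fintype.sum_option]
      simp only [mm, reduceCtorEq, if_false, or_true, if_true, abs_zero] at this ⊢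
      linarith [hn x]
  nlinarith [mul_le_mul_of_nonneg_left this (sq_nonneg (C u))]

lemma push (τ : M → Option ι → Option ι) (Y : (M → Option ι) → ℝ) (β : M → Option ι → ℝ) :
    ∑ r : M → Option ι, Y (fun x => τ x (r x)) * ∏ x, β x (r x) =
      ∑ s, Y s * ∏ x, ∑ a, if τ x a = s x then β x a else 0 := by
  simp only [prod_univ_sum, Fintype.piFinset_univ, mul_sum]
  rw [sum_comm]
  refine sum_congr rfl fun r _ => ?_
  rw [sum_eq_single_of_mem (fun x => τ x (r x)) (mem_univ _)]
  · simp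
  · intro s _ hs
    obtain ⟨x, hx⟩ := Function.ne_iff.1 hs
    rw [prod_eq_zero (mem_univ x) (if_neg hx.symm), mul_zero]

/-- Change of basis. -/
def bb (m : ι) (v : ℝ) (a c : Option ι) : ℝ :=
  if c = none then (if a = none ∨ a = some m then 1 else -v) else
    if a = c ∧ a ≠ some m then 1 + v else 0

variable (ν) in
/-- New coefficients. -/
noncomputable def CC (m : ι) (y : (M → Option ι) → ℝ) (u : M → Option ι) : ℝ :=
  ∑ r, mu ν r * y r * ∏ x, bb m (ν x) (r x) (u x)

lemma CC_sum (m : ι) (y : (M → Option ι) → ℝ) (φ ξ : M → Option ι → ℝ)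
    (h : ∀ x a, φ x a = ∑ c, bb m (ν x) a c * ξ x c) :
    ∑ r, mu ν r * y r * ∏ x, φ x (r x) = ∑ u, CC ν m y u * ∏ x, ξ x (u x) := by
  simp only [h, prod_univ_sum, Fintype.piFinset_univ, mul_sum, CC, sum_mul, prod_mul_distrib,
    mul_assoc]
  rw [sum_comm]

lemma Std.CC_supp (h : Std ν l κ) (m : ι) {y : (M → Option ι) → ℝ} {σ : ℝ}
    (hy : ∀ r, y r ≠ 0 → tot l r ≤ σ) (u : M → Option ι) (hu : CC ν m y u ≠ 0) : tot l u ≤ σ := by
  obtain ⟨r, _, hr⟩ := exists_ne_zero_of_sum_ne_zero hu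
  refine le_trans (sum_le_sum fun x _ => ?_) (hy r (right_ne_zero_of_mul (left_ne_zero_of_mul hr)))
  have := prod_ne_zero_iff.1 (right_ne_zero_of_mul hr) x (mem_univ x)
  have := h.l1 x
  by_cases a : u x = none
  · rw [if_pos a]; split_ifs <;> linarith
  · have : r x = u x := by by_contra c; simp_all [bb]
    rw [this]

lemma Std.CC_abs (h : Std ν l κ) (m : ι) {y : (M → Option ι) → ℝ} {B : ℝ} (k1 : κ ≤ 1)
    (hy : ∀ r, |y r| ≤ B) (u : M → Option ι) :
    |CC ν m y u| ≤ B * (∏ x, (1 + Fintype.card ι * ν x)) * mu ν u := by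
  have B0 := (abs_nonneg _).trans (hy u)
  refine (abs_sum_le_sum_abs _ _).trans ((sum_le_sum (g := fun r : M → Option ι =>
    B * ∏ x, (if r x = none then 1 else ν x) * |bb m (ν x) (r x) (u x)|) fun r _ => ?_).trans ?_)
  · rw [abs_mul, abs_mul, abs_prod, prod_mul_distrib, abs_of_pos (h.mu0 r), mul_comm (mu ν r),
      mul_assoc]
    exact mul_le_mul_of_nonneg_right (hy r) (mul_nonneg (h.mu0 r).le (by positivity))
  · rw [← mul_sum, ← Fintype.piFinset_univ, ← prod_univ_sum (fun _ => univ)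
      fun x a => (if a = none then 1 else ν x) * |bb m (ν x) a (u x)|, mul_assoc, mu,
      ← prod_mul_distrib]
    refine mul_le_mul_of_nonneg_left (prod_le_prod (fun x _ => by have := h.n0 x; positivity)
      fun x _ => ?_) B0
    have n := h.n0 x
    have n1 := (h.nk x).trans k1
    rw [Fintype.sum_option]
    cases u x with
    | none =>
      have := sum_le_card_nsmul univ (fun i : ι => ν x * |bb m (ν x) (some i) none|) (ν x)
        fun i _ => mul_le_of_le_one_right n.le (by
          by_cases a : i = m <;> simp [bb, a, abs_of_pos n, n1])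
      simpa [bb] using this
    | some j =>
      have : ∑ i : ι, ν x * |bb m (ν x) (some i) (some j)| ≤ ∑ i, if i = j then ν x * (1 + ν x) else 0 :=
        sum_le_sum fun i _ => by
          by_cases a : i = j <;> by_cases b : j = m <;>
            simp [bb, a, b, abs_of_pos (show 0 < 1 + ν x by linarith)] <;> positivity
      have k : (1 : ℝ) ≤ Fintype.card ι := by exact_mod_cast Fintype.card_pos_iff.2 ⟨j⟩
      simp only [sum_ite_eq', mem_univ, if_true] at this
      simp only [reduceCtorEq, if_false, if_true, show bb m (ν x) none (some j) = 0 by simp [bb],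
        abs_zero]
      nlinarith [mul_le_mul_of_nonneg_right k (mul_pos n n).le]

lemma Std.CC_ge (h : Std ν l κ) (m : ι) {y : (M → Option ι) → ℝ} (y0 : ∀ r, 0 ≤ y r)
    (ya : ∀ r s, (∀ x, s x = r x ∨ s x = none) → y r ≤ y s)
    (hv : ∏ x, (1 + Fintype.card ι * ν x ^ 2) ≤ 3 / 2) {u : M → Option ι} (hu : u ∈ Fr m) :
    mu ν u * (∏ x, if u x = none then 1 else 1 + ν x) * YY ν m y u / 2 ≤ CC ν m y u := by
  set w : M → Option ι → ℝ := fun x a => if a = none then 1 else ν x with hw
  have w0 : ∀ x a, 0 ≤ w x a := fun x a => by have := h.n0 x; simp only [hw]; positivity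
  set b : M → Option ι → ℝ := fun x a => bb m (ν x) a (u x) with hb
  have um := (mem_filter.1 hu).2
  have a1 : mu ν u * (∏ x, if u x = none then 1 else 1 + ν x) * YY ν m y u ≤
      ∑ r, y r * ∏ x, w x (r x) * max (b x (r x)) 0 := by
    rw [fib m]
    refine le_trans (le_of_eq ?_) (single_le_sum (f := fun s => ∑ e ∈ (fr s).powerset,
      y (ad m s e) * ∏ x, w x (ad m s e x) * max (b x (ad m s e x)) 0)
      (fun s _ => sum_nonneg fun e _ => mul_nonneg (y0 _) (prod_nonneg fun x _ =>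
        mul_nonneg (w0 _ _) (le_max_right _ _))) hu)
    rw [YY, mul_sum]
    refine sum_congr rfl fun e he => ?_
    rw [prod_mul_distrib, show ∏ x, w x (ad m u e x) = _ from mu_ad ν he,
      show ∏ x, max (b x (ad m u e x)) 0 = ∏ x, if u x = none then 1 else 1 + ν x from
        prod_congr rfl fun x _ => ?_]
    · ring
    · have := h.n0 x
      by_cases a : x ∈ e
      · simp [ad, a, hb, bb, hfr he a]
      · by_cases c : u x = none <;> simp [ad, a, hb, bb, c, um x]
        linarith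
  have a2 : ∑ r, y r * ∏ x, w x (r x) * |b x (r x)| ≤
      3 / 2 * ∑ r, y r * ∏ x, w x (r x) * max (b x (r x)) 0 := by
    refine (sum_le_sum fun r _ => mul_le_mul_of_nonneg_right (ya r
      (fun x => if u x = none ∧ r x ≠ some m then none else r x) fun x => by split_ifs <;> simp)
      (prod_nonneg fun x _ => mul_nonneg (w0 _ _) (abs_nonneg _))).trans ?_
    rw [push (fun x a => if u x = none ∧ a ≠ some m then none else a) y fun x a => w x a * |b x a|,
      mul_sum]
    refine sum_le_sum fun s _ => ?_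
    rw [mul_left_comm]
    refine mul_le_mul_of_nonneg_left (le_trans ?_ (mul_le_mul_of_nonneg_right hv
      (prod_nonneg fun x _ => mul_nonneg (w0 _ _) (le_max_right _ _)))) (y0 s)
    rw [← prod_mul_distrib]
    refine prod_le_prod (fun x _ => sum_nonneg fun a _ => by
      split_ifs <;> first | exact le_rfl | exact mul_nonneg (w0 _ _) (abs_nonneg _)) fun x _ => ?_
    have n := h.n0 x
    have k : 0 ≤ Fintype.card ι * ν x ^ 2 := by positivity
    by_cases c : u x = none
    · cases s x with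
      | none =>
        have := sum_le_card_nsmul univ (fun i : ι => if i = m then 0 else ν x * ν x) (ν x ^ 2)
          fun i _ => by split_ifs <;> nlinarith
        rw [Fintype.sum_option]
        simp only [card_univ, nsmul_eq_mul] at this
        refine le_trans (add_le_add (le_of_eq (?_ : _ = (1 : ℝ)))
          ((sum_congr rfl fun i _ => ?_).trans_le this)) (le_of_eq ?_)
        · simp [c, hw, hb, bb]
        · by_cases a : i = m <;> simp [c, hw, hb, bb, a, abs_of_pos n]
        · simp [c, hw, hb, bb]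
      | some j =>
        rw [sum_eq_single_of_mem (some m) (mem_univ _) fun a _ ha => by simp [c, ha]]
        by_cases a : m = j
        · simp [c, hw, hb, bb, a, k, n]
        · rw [if_neg (by simp [a])]
          exact mul_nonneg (by linarith) (mul_nonneg (w0 _ _) (le_max_right _ _))
    · have z : 0 ≤ b x (s x) := by simp only [hb, bb, c, if_false]; split_ifs <;> linarith
      simp only [c, false_and, if_false, sum_ite_eq', mem_univ, if_true, abs_of_nonneg z,
        max_eq_left z]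
      exact le_mul_of_one_le_left (mul_nonneg (w0 _ _) z) (by linarith)
  have a3 : 2 * ∑ r, y r * ∏ x, w x (r x) * max (b x (r x)) 0 -
      ∑ r, y r * ∏ x, w x (r x) * |b x (r x)| ≤ CC ν m y u := by
    rw [CC, mul_sum, ← sum_sub_distrib]
    refine sum_le_sum fun r _ => ?_
    have : 2 * ∏ x, max (b x (r x)) 0 - ∏ x, |b x (r x)| ≤ ∏ x, b x (r x) := by
      by_cases c : ∀ x, 0 ≤ b x (r x)
      · simp only [max_eq_left (c _), abs_of_nonneg (c _)]; linarith
      · obtain ⟨x, hx⟩ := not_forall.1 c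
        rw [prod_eq_zero (mem_univ x) (max_eq_right (not_le.1 hx).le), ← abs_prod]
        linarith [neg_abs_le (∏ x, b x (r x))]
    have := mul_le_mul_of_nonneg_left this (mul_nonneg (h.mu0 r).le (y0 r))
    simp only [prod_mul_distrib]
    rw [show ∏ x, w x (r x) = mu ν r from rfl]
    linarith
  linarith

end Pool.Agent.H59.MT
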