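import Mathlib
import Pool.Agent.H59.MT1

/-! A crude large sieve and a mean value bound for twisted von Mangoldt sums. -/

set_option autoImplicit false

namespace Pool.Agent.H59.MT

open Finset Complex ArithmeticFunction

variable {J : Type}

lemma ls (X : Finset J) (χ : J → ℕ → ℂ) (h1 : ∀ j ∈ X, ∀ m, ‖χ j m‖ ≤ 1) (I : Finset ℕ) (e : ℝ)
    (e0 : 0 ≤ e)
    (h2 : ∀ j ∈ X, ∀ i ∈ X, j ≠ i → ‖∑ m ∈ I, χ j m * (starRingEnd ℂ) (χ i m)‖ ≤ e) (a : ℕ → ℝ) :
    ∑ j ∈ X, ‖∑ m ∈ I, χ j m * a m‖ ^ 2 ≤ (I.card + X.card * e) * ∑ m ∈ I, a m ^ 2 := by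
  classical
  set A : J → ℂ := fun j => ∑ m ∈ I, χ j m * a m with hA
  set B : ℕ → ℂ := fun m => ∑ j ∈ X, (starRingEnd ℂ) (A j) * χ j m with hB
  set S := ∑ j ∈ X, ‖A j‖ ^ 2 with hS
  have S0 : 0 ≤ S := sum_nonneg fun _ _ => by positivity
  have e1 : (S : ℂ) = ∑ m ∈ I, a m * B m := by
    simp only [hS, hB, mul_sum]
    rw [sum_comm, ofReal_sum]
    refine sum_congr rfl fun j _ => ?_
    rw [ofReal_pow, ← conj_mul', hA, mul_sum]
    exact sum_congr rfl fun m _ => by ring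
  have e2 : S ≤ ∑ m ∈ I, |a m| * ‖B m‖ := by
    have := (congrArg norm e1).le.trans (norm_sum_le _ _)
    simpa only [Complex.norm_of_nonneg S0, norm_mul, norm_real, Real.norm_eq_abs] using this
  have e3 : ((∑ m ∈ I, ‖B m‖ ^ 2 : ℝ) : ℂ) = ∑ j ∈ X, ∑ i ∈ X, (starRingEnd ℂ) (A j) * A i *
      ∑ m ∈ I, χ j m * (starRingEnd ℂ) (χ i m) := by
    simp only [ofReal_sum, ofReal_pow, ← mul_conj', hB, map_sum, sum_mul_sum, map_mul, conj_conj]
    simp only [mul_sum]
    rw [sum_comm]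
    refine sum_congr rfl fun j _ => ?_
    rw [sum_comm]
    exact sum_congr rfl fun i _ => sum_congr rfl fun m _ => by ring
  have e4 : ∑ m ∈ I, ‖B m‖ ^ 2 ≤ (I.card + X.card * e) * S := by
    have := (congrArg norm e3).le.trans (norm_sum_le_of_le _ fun j hj => norm_sum_le_of_le _
      (n := fun i => (if j = i then I.card * ‖A j‖ ^ 2 else 0) +
        e * (‖A j‖ ^ 2 / 2 + ‖A i‖ ^ 2 / 2)) fun i hi => by
        rw [norm_mul, norm_mul, norm_conj]
        split_ifs with h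
        · subst h
          have := norm_sum_le_of_le I (n := fun _ => (1 : ℝ))
            (f := fun m => χ j m * (starRingEnd ℂ) (χ j m)) fun m _ => by
              rw [norm_mul, norm_conj]; exact mul_le_one₀ (h1 j hj m) (norm_nonneg _) (h1 j hj m)
          rw [sum_const, nsmul_eq_mul, mul_one] at this
          refine le_add_of_le_of_nonneg ?_ (by positivity)
          rw [← sq, mul_comm]
          exact mul_le_mul_of_nonneg_right this (by positivity)
        · rw [zero_add, mul_comm]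
          exact mul_le_mul (h2 j hj i hi h) (by nlinarith [sq_nonneg (‖A j‖ - ‖A i‖)])
            (by positivity) e0)
    rw [Complex.norm_of_nonneg (sum_nonneg fun _ _ => by positivity)] at this
    refine this.trans_eq ?_
    simp only [sum_add_distrib, sum_ite_eq, ← mul_sum, ← sum_div, sum_const, nsmul_eq_mul]
    rw [sum_congr rfl fun j hj => if_pos hj, ← mul_sum, ← hS]
    ring
  have e5 := sum_mul_sq_le_sq_mul_sq I (fun m => |a m|) fun m => ‖B m‖
  simp only [sq_abs] at e5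
  have a0 : 0 ≤ ∑ m ∈ I, a m ^ 2 := sum_nonneg fun _ _ => by positivity
  rcases S0.eq_or_lt with h | h
  · rw [← h]; positivity
  · refine le_of_mul_le_mul_right ?_ h
    nlinarith [pow_le_pow_left₀ S0 e2 2, mul_le_mul_of_nonneg_left e4 a0]

lemma dyad (X : Finset J) (t : J → ℕ → ℕ → ℂ) (α β : ℕ → ℝ) (α0 : ∀ m, 0 ≤ α m) (β0 : ∀ m, 0 ≤ β m)
    (M K : ℕ) (hR : ∀ s s' c c', s' - s ≤ M → c' - c ≤ K →
      ∑ j ∈ X, ‖∑ m ∈ Ico s s', ∑ k ∈ Ioc c c', t j m k‖ ≤ ∑ m ∈ Ico s s', α m + ∑ k ∈ Ioc c c', β k)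
    (φ : ℕ → ℕ) (hφ : ∀ m m', 1 ≤ m → m ≤ m' → φ m' ≤ φ m) (i : ℕ) :
    ∀ s c, 1 ≤ s → 2 ^ i ≤ M → φ s - c ≤ K → (∀ m, s ≤ m → m < s + 2 ^ i → c ≤ φ m) →
      ∑ j ∈ X, ‖∑ m ∈ Ico s (s + 2 ^ i), ∑ k ∈ Ioc c (φ m), t j m k‖ ≤
        (i + 1) * (∑ m ∈ Ico s (s + 2 ^ i), α m + ∑ k ∈ Ioc c (φ s), β k) := by
  induction i with
  | zero =>
    intro s c _ h1 h2 _
    have := hR s (s + 1) c (φ s) (by simpa using h1) h2
    simpa using this
  | succ i ih =>
    intro s c s1 h1 h2 h3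
    have p0 : 0 < 2 ^ i := by positivity
    rw [pow_succ] at h1 h3 ⊢
    set s' := s + 2 ^ i with hs'
    have e : s + 2 ^ i * 2 = s' + 2 ^ i := by omega
    have c1 : c ≤ φ s' := h3 s' (by omega) (by omega)
    have c2 : φ s' ≤ φ s := hφ s s' s1 (by omega)
    have a1 := ih s (φ s') s1 (by omega) (by omega) fun m m1 m2 => hφ m s' (by omega) (by omega)
    have a2 := ih s' c (by omega) (by omega) (by omega) fun m m1 m2 => h3 m (by omega) (by omega)
    have a3 := hR s s' c (φ s') (by omega) (by omega)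
    rw [e, ← sum_Ico_consecutive α (show s ≤ s' by omega) (show s' ≤ s' + 2 ^ i by omega),
      ← sum_Ioc_consecutive β c1 c2]
    refine (sum_le_sum (g := fun j => ‖∑ m ∈ Ico s s', ∑ k ∈ Ioc c (φ s'), t j m k‖ +
      ‖∑ m ∈ Ico s s', ∑ k ∈ Ioc (φ s') (φ m), t j m k‖ +
      ‖∑ m ∈ Ico s' (s' + 2 ^ i), ∑ k ∈ Ioc c (φ m), t j m k‖) fun j _ => ?_).trans ?_
    · rw [← sum_Ico_consecutive _ (show s ≤ s' by omega) (show s' ≤ s' + 2 ^ i by omega)]
      refine (norm_add_le _ _).trans (add_le_add_left (le_trans (le_of_eq ?_) (norm_add_le _ _)) _)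
      rw [← sum_add_distrib]
      exact congrArg _ (sum_congr rfl fun m hm => (sum_Ioc_consecutive _ c1
        (hφ m s' (s1.trans (mem_Ico.1 hm).1) (mem_Ico.1 hm).2.le)).symm)
    · rw [sum_add_distrib, sum_add_distrib]
      have b1 : 0 ≤ ∑ m ∈ Ico s' (s' + 2 ^ i), α m := sum_nonneg fun _ _ => α0 _
      have b2 : 0 ≤ ∑ k ∈ Ioc (φ s') (φ s), β k := sum_nonneg fun _ _ => β0 _
      push_cast
      linarith

lemma PS.ioc {χ : ℕ → ℂ} {f : ℝ} (h : PS χ f) (c d : ℕ) : ‖∑ n ∈ Ioc c d, χ n‖ ≤ 2 * f := by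
  rcases le_total c d with hcd | hcd
  · rw [eq_sub_of_add_eq' (sum_Ioc_consecutive χ (Nat.zero_le c) hcd)]
    linarith [norm_sub_le (∑ n ∈ Ioc 0 d, χ n) (∑ n ∈ Ioc 0 c, χ n), h c, h d]
  · rw [Ioc_eq_empty (by omega)]; simp [h.nonneg]

lemma PS.ico {χ : ℕ → ℂ} {f : ℝ} (h : PS χ f) (h1 : ‖χ 0‖ ≤ f) (c d : ℕ) :
    ‖∑ n ∈ Ico c d, χ n‖ ≤ 2 * f := by
  rcases c with _ | c
  · rcases d with _ | d
    · simp [h.nonneg]
    · rw [sum_eq_sum_Ico_succ_bot (by omega), show Ico (0 + 1) (d + 1) = Ioc 0 d by ext; simp; omega]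
      linarith [norm_add_le (χ 0) (∑ n ∈ Ioc 0 d, χ n), h d]
  · rw [show Ico (c + 1) d = Ioc c (d - 1) by ext; simp; omega]
    exact h.ioc _ _

lemma type2 (X : Finset J) (χ : J → ℕ → ℂ) (h1 : ∀ j ∈ X, ∀ m, ‖χ j m‖ ≤ 1) (f : ℝ) (f1 : 1 ≤ f)
    (h2 : ∀ j ∈ X, ∀ i ∈ X, j ≠ i → PS (fun m => χ j m * (starRingEnd ℂ) (χ i m)) f)
    (U : ℕ) (hU : X.card * (2 * f) ≤ U) (a b : ℕ → ℝ) (l : ℝ) (x : ℕ) (a1 : ∀ m, a m ^ 2 ≤ 1)
    (a2 : ∀ m ≤ U, a m = 0) (b1 : ∀ m ≤ x, b m ^ 2 ≤ l) (b2 : ∀ m ≤ U, b m = 0) (r : ℕ) :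
    ∑ j ∈ X, ‖∑ m ∈ Ico 1 (2 ^ r), ∑ k ∈ Ioc 0 (x / m), χ j m * a m * (χ j k * b k)‖ ≤
      r ^ 2 * (2 * x * (1 + l)) := by
  have l0 : 0 ≤ l := (sq_nonneg _).trans (b1 0 (Nat.zero_le _))
  induction r with
  | zero => simp
  | succ r ih =>
    have p0 : 0 < 2 ^ r := by positivity
    have key : ∑ j ∈ X, ‖∑ m ∈ Ico (2 ^ r) (2 ^ r + 2 ^ r), ∑ k ∈ Ioc 0 (x / m),
        χ j m * a m * (χ j k * b k)‖ ≤ (r + 1) * (2 * x * (1 + l)) := by
      set M := 2 ^ r with hM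
      set K := x / M with hK
      by_cases hz : 2 * M ≤ U ∨ K ≤ U
      · refine (sum_eq_zero fun j _ => norm_eq_zero.2 (sum_eq_zero fun m hm =>
          sum_eq_zero fun k hk => ?_)).le.trans (by positivity)
        rcases hz with hz | hz
        · rw [a2 m (by have := (mem_Ico.1 hm).2; omega)]; simp
        · rw [b2 k ((mem_Ioc.1 hk).2.trans ((Nat.div_le_div_left (mem_Ico.1 hm).1 p0).trans hz))]
          simp
      have M1 : (U : ℝ) ≤ 2 * M := by exact_mod_cast (by omega : U ≤ 2 * M)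
      have K1 : (U : ℝ) ≤ K := by exact_mod_cast (by omega : U ≤ K)
      have K0 : (0 : ℝ) < K := by exact_mod_cast (by omega : 0 < K)
      have M0 : (0 : ℝ) < M := by exact_mod_cast p0
      have MK : (K : ℝ) * M ≤ x := by exact_mod_cast Nat.div_mul_le_self x M
      refine (dyad X _ (fun m => 2 * K * a m ^ 2) (fun k => M * b k ^ 2) (fun _ => by positivity)
        (fun _ => by positivity) M K (fun s s' c c' g1 g2 => ?_) (fun m => x / m)
        (fun m m' g1 g2 => Nat.div_le_div_left g2 g1) r M 0 p0 le_rfl le_rfl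
        fun _ _ _ => Nat.zero_le _).trans (mul_le_mul_of_nonneg_left ?_ (by positivity))
      · have q1 := ls X χ h1 (Ico s s') (2 * f) (by linarith) (fun j hj i hi h =>
          (h2 j hj i hi h).ico (by
            rw [norm_mul, norm_conj]
            exact (mul_le_one₀ (h1 j hj 0) (norm_nonneg _) (h1 i hi 0)).trans f1) _ _) a
        have q2 := ls X χ h1 (Ioc c c') (2 * f) (by linarith)
          (fun j hj i hi h => (h2 j hj i hi h).ioc _ _) b
        have g3 : ((Ico s s').card : ℝ) ≤ M := by rw [Nat.card_Ico]; exact_mod_cast g1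
        have g4 : ((Ioc c c').card : ℝ) ≤ K := by rw [Nat.card_Ioc]; exact_mod_cast g2
        have A0 : 0 ≤ ∑ m ∈ Ico s s', a m ^ 2 := sum_nonneg fun _ _ => by positivity
        have B0 : 0 ≤ ∑ m ∈ Ioc c c', b m ^ 2 := sum_nonneg fun _ _ => by positivity
        have q3 := q1.trans (mul_le_mul_of_nonneg_right (show _ ≤ 4 * (M : ℝ) by linarith) A0)
        have q4 := q2.trans (mul_le_mul_of_nonneg_right (show _ ≤ 2 * (K : ℝ) by linarith) B0)
        simp only [← sum_mul_sum, norm_mul]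
        simp only [← mul_sum]
        refine (sum_le_sum (g := fun j => K / (2 * M) * ‖∑ m ∈ Ico s s', χ j m * a m‖ ^ 2 +
          M / (2 * K) * ‖∑ m ∈ Ioc c c', χ j m * b m‖ ^ 2) fun j _ => ?_).trans ?_
        · generalize ‖∑ m ∈ Ico s s', χ j m * a m‖ = u
          generalize ‖∑ m ∈ Ioc c c', χ j m * b m‖ = v
          rw [← sub_nonneg, show K / (2 * M) * u ^ 2 + M / (2 * K) * v ^ 2 - u * v =
            (K * u - M * v) ^ 2 / (2 * M * K) by field_simp; ring]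
          positivity
        · rw [sum_add_distrib, ← mul_sum, ← mul_sum]
          refine (add_le_add (mul_le_mul_of_nonneg_left q3 (by positivity))
            (mul_le_mul_of_nonneg_left q4 (by positivity))).trans_eq ?_
          field_simp; ring
      · have g1 := sum_le_card_nsmul (Ico M (M + 2 ^ r)) (fun m => 2 * (K : ℝ) * a m ^ 2) (2 * K : ℝ)
          fun m _ => mul_le_of_le_one_right (by positivity) (a1 m)
        have g2 := sum_le_card_nsmul (Ioc 0 (x / M)) (fun m => (M : ℝ) * b m ^ 2) (M * l : ℝ)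
          fun m hm => mul_le_mul_of_nonneg_left
            (b1 m ((mem_Ioc.1 hm).2.trans (Nat.div_le_self _ _))) M0.le
        simp only [Nat.card_Ico, Nat.card_Ioc, add_tsub_cancel_left, tsub_zero, nsmul_eq_mul, ← hM,
          ← hK] at g1 g2 ⊢
        nlinarith [mul_le_mul_of_nonneg_right MK l0]
    refine (sum_le_sum (g := fun j => ‖∑ m ∈ Ico 1 (2 ^ r), ∑ k ∈ Ioc 0 (x / m),
      χ j m * a m * (χ j k * b k)‖ + ‖∑ m ∈ Ico (2 ^ r) (2 ^ r + 2 ^ r), ∑ k ∈ Ioc 0 (x / m),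
        χ j m * a m * (χ j k * b k)‖) fun j _ => ?_).trans ?_
    · rw [pow_succ, mul_two, ← sum_Ico_consecutive _ (show 1 ≤ 2 ^ r from p0) (Nat.le_add_right _ _)]
      exact norm_add_le _ _
    · rw [sum_add_distrib]
      push_cast
      have : (0 : ℝ) ≤ r * (2 * x * (1 + l)) := by positivity
      nlinarith

lemma tw_mul {χ : ℕ → ℂ} (c : CM χ) (F G : ArithmeticFunction ℝ) (x : ℕ) :
    ∑ n ∈ Ioc 0 x, χ n * ((F * G) n : ℝ) =
      ∑ m ∈ Ioc 0 x, ∑ k ∈ Ioc 0 (x / m), χ m * F m * (χ k * G k) := by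
  obtain ⟨F', hF⟩ : ∃ F' : ArithmeticFunction ℂ, ∀ n, F' n = χ n * F n :=
    ⟨⟨fun n => χ n * F n, by simp⟩, fun _ => rfl⟩
  obtain ⟨G', hG⟩ : ∃ G' : ArithmeticFunction ℂ, ∀ n, G' n = χ n * G n :=
    ⟨⟨fun n => χ n * G n, by simp⟩, fun _ => rfl⟩
  have := sum_Ioc_mul_eq_sum_sum F' G' x
  simp only [mul_sum, ArithmeticFunction.mul_apply, hF, hG] at this
  rw [← this]
  refine sum_congr rfl fun n _ => ?_
  rw [ArithmeticFunction.mul_apply, ofReal_sum, mul_sum]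
  refine sum_congr rfl fun y hy => ?_
  rw [← (Nat.mem_divisorsAntidiagonal.1 hy).1, c.mul]; push_cast; ring

lemma logsum {χ : ℕ → ℂ} {f : ℝ} (h : PS χ f) (y : ℕ) :
    ‖∑ k ∈ Ioc 0 y, χ k * (Real.log k : ℝ)‖ ≤ 2 * f * Real.log y := by
  have key : ‖∑ k ∈ Ioc 0 y, χ k * (Real.log k : ℝ) - (∑ k ∈ Ioc 0 y, χ k) * (Real.log y : ℝ)‖ ≤
      f * Real.log y := by
    induction y with
    | zero => simp
    | succ y ih =>
      have m : Real.log y ≤ Real.log (y + 1 : ℕ) := by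
        rcases Nat.eq_zero_or_pos y with rfl | hy
        · simp
        · exact Real.log_le_log (by exact_mod_cast hy) (by push_cast; linarith)
      rw [sum_Ioc_succ_top (Nat.zero_le y), sum_Ioc_succ_top (Nat.zero_le y)]
      have e : ∀ A S c u v : ℂ, A + c * v - (S + c) * v = (A - S * u) - S * (v - u) := by
        intros; ring
      rw [e _ _ _ (Real.log y : ℝ), ← ofReal_sub]
      refine (norm_sub_le _ _).trans ?_
      rw [norm_mul, Complex.norm_of_nonneg (sub_nonneg.2 m)]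
      linarith [mul_le_mul_of_nonneg_right (h y) (sub_nonneg.2 m)]
  have := norm_le_norm_add_norm_sub' (∑ k ∈ Ioc 0 y, χ k * (Real.log k : ℝ))
    ((∑ k ∈ Ioc 0 y, χ k) * (Real.log y : ℝ))
  rw [norm_mul, Complex.norm_of_nonneg (Real.log_natCast_nonneg y)] at this
  linarith [mul_le_mul_of_nonneg_right (h y) (Real.log_natCast_nonneg y)]

/-- Truncation. -/
def lo (U : ℕ) (F : ArithmeticFunction ℝ) : ArithmeticFunction ℝ :=
  ⟨fun n => if n ≤ U then F n else 0, by simp⟩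

/-- Complementary truncation. -/
def hi (U : ℕ) (F : ArithmeticFunction ℝ) : ArithmeticFunction ℝ :=
  ⟨fun n => if n ≤ U then 0 else F n, by simp⟩

lemma lo_hi (U : ℕ) (F : ArithmeticFunction ℝ) : lo U F + hi U F = F := by
  ext n
  rw [ArithmeticFunction.add_apply]
  simp only [lo, hi, coe_mk]
  split_ifs <;> simp

lemma lo_sum {χ : ℕ → ℂ} (c : CM χ) (U x : ℕ) (F : ArithmeticFunction ℝ) (g : ℕ → ℂ) (A B : ℝ)
    (A0 : 0 ≤ A) (B0 : 0 ≤ B) (hF : ∀ m ≤ x, |F m| ≤ A) (hg : ∀ m, ‖g m‖ ≤ B) :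
    ‖∑ m ∈ Ioc 0 x, χ m * lo U F m * g m‖ ≤ U * (A * B) := by
  refine (norm_sum_le_of_le _ (n := fun m => if m ∈ Ioc 0 U then A * B else 0) fun m hm => ?_).trans ?_
  · simp only [lo, coe_mk, mem_Ioc, (mem_Ioc.1 hm).1, true_and]
    split_ifs
    · rw [norm_mul, norm_mul, norm_real]
      exact mul_le_mul ((mul_le_of_le_one_left (norm_nonneg _) (c.le m)).trans
        (hF m (mem_Ioc.1 hm).2)) (hg m) (norm_nonneg _) A0
    · simp
  · rw [sum_ite_mem, sum_const, nsmul_eq_mul]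
    refine mul_le_mul_of_nonneg_right ?_ (by positivity)
    exact_mod_cast (card_le_card inter_subset_right).trans_eq (by simp)

theorem vaughan (X : Finset J) (χ : J → ℕ → ℂ) (c : ∀ j ∈ X, CM (χ j)) (f : ℝ) (f1 : 1 ≤ f)
    (h1 : ∀ j ∈ X, PS (χ j) f)
    (h2 : ∀ j ∈ X, ∀ i ∈ X, j ≠ i → PS (fun m => χ j m * (starRingEnd ℂ) (χ i m)) f)
    (U : ℕ) (U1 : 1 ≤ U) (hU : X.card * (2 * f) ≤ U) (x r : ℕ) (hr : x < 2 ^ r) :
    ∑ j ∈ X, ‖∑ n ∈ Ioc 0 x, χ j n * (Λ n : ℝ)‖ ≤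
      2 * U ^ 3 * Real.log x + r ^ 2 * (2 * x * (1 + Real.log x ^ 2)) := by
  set l := Real.log x with hl
  have l0 : 0 ≤ l := Real.log_natCast_nonneg x
  have ll : ∀ m ≤ x, Real.log m ≤ l := fun m hm => by
    rcases Nat.eq_zero_or_pos m with rfl | h
    · simpa using l0
    · exact Real.log_le_log (by exact_mod_cast h) (by exact_mod_cast hm)
  set μ' : ArithmeticFunction ℝ := (moebius : ArithmeticFunction ℝ) with hμ
  set z : ArithmeticFunction ℝ := (zeta : ArithmeticFunction ℝ) with hz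
  have m1 : ∀ m, |μ' m| ≤ 1 := fun m => by
    rw [hμ, intCoe_apply]; exact_mod_cast abs_moebius_le_one
  have e0 : Λ + lo U μ' * (lo U Λ * z) = lo U Λ + lo U μ' * ArithmeticFunction.log +
      hi U μ' * (hi U Λ * z) := by
    have a : μ' * z = 1 := coe_moebius_mul_coe_zeta
    rw [← vonMangoldt_mul_zeta, ← hz]
    linear_combination (-hi U Λ) * a - hi U Λ * z * lo_hi U μ' - (1 - lo U μ' * z) * lo_hi U Λ
  have e : ∀ n, Λ n = lo U Λ n + (lo U μ' * ArithmeticFunction.log) n - (lo U μ' * (lo U Λ * z)) n +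
      (hi U μ' * (hi U Λ * z)) n := fun n => by
    have := congrArg (fun F : ArithmeticFunction ℝ => F n) e0
    simp only [ArithmeticFunction.add_apply] at this
    linarith
  have L1 : ∀ m ≤ x, |Λ m| ≤ l := fun m hm => by
    rw [abs_of_nonneg vonMangoldt_nonneg]; exact vonMangoldt_le_log.trans (ll m hm)
  have t2 := type2 X χ (fun j hj => (c j hj).le) f f1 h2 U hU (hi U μ') (hi U Λ * z :)
    (l ^ 2) x (fun m => by
      simp only [hi, coe_mk]
      split_ifs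
      · simp
      · rw [sq_le_one_iff_abs_le_one]; exact m1 m)
    (fun m hm => by simp [hi, hm]) (fun m hm => by
      rw [hz, coe_mul_zeta_apply]
      have g : ∀ i, 0 ≤ hi U Λ i ∧ hi U Λ i ≤ Λ i := fun i => by
        simp only [hi, coe_mk]; split_ifs <;> simp [vonMangoldt_nonneg]
      refine pow_le_pow_left₀ (sum_nonneg fun i _ => (g i).1) ?_ 2
      exact (sum_le_sum fun i _ => (g i).2).trans (vonMangoldt_sum.trans_le (ll m hm)))
    (fun m hm => by
      rw [hz, coe_mul_zeta_apply]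
      exact sum_eq_zero fun i hi' => by simp [hi, (Nat.divisor_le hi').trans hm]) r
  have U' : (1 : ℝ) ≤ U := by exact_mod_cast U1
  refine (sum_le_sum (g := fun j => 4 * U ^ 2 * f * l + ‖∑ m ∈ Ico 1 (2 ^ r), ∑ k ∈ Ioc 0 (x / m),
    χ j m * hi U μ' m * (χ j k * (hi U Λ * z :) k)‖) fun j hj => ?_).trans ?_
  · have cj := c j hj
    have b1 := lo_sum cj U x Λ (fun _ => 1) l 1 l0 zero_le_one L1 (by simp)
    have b2 := lo_sum cj U x μ' (fun m => ∑ k ∈ Ioc 0 (x / m), χ j k * (Real.log k : ℝ)) 1 (2 * f * l)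
      zero_le_one (by positivity) (fun m _ => m1 m) fun m => (logsum (h1 j hj) _).trans
        (mul_le_mul_of_nonneg_left (ll _ (Nat.div_le_self _ _)) (by positivity))
    have b3 := lo_sum cj U x μ' (fun m => ∑ k ∈ Ioc 0 (x / m), χ j k * ((lo U Λ * z) k : ℝ)) 1
      (U * (l * f)) zero_le_one (by positivity) (fun m _ => m1 m) fun m => by
        rw [tw_mul cj]
        simp only [← mul_sum]
        refine lo_sum cj U _ Λ _ l f l0 (by linarith)
          (fun k hk => L1 k (hk.trans (Nat.div_le_self _ _))) fun k => ?_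
        rw [sum_congr rfl (g := χ j) fun i hi => by
          simp [hz, natCoe_apply, zeta_apply, (mem_Ioc.1 hi).1.ne']]
        exact h1 j hj _
    have b4 : ∑ m ∈ Ioc 0 x, ∑ k ∈ Ioc 0 (x / m),
        χ j m * hi U μ' m * (χ j k * (hi U Λ * z :) k) = ∑ m ∈ Ico 1 (2 ^ r),
        ∑ k ∈ Ioc 0 (x / m), χ j m * hi U μ' m * (χ j k * (hi U Λ * z :) k) :=
      sum_subset (fun m hm => by simp only [mem_Ioc, mem_Ico] at *; omega) fun m h1 h2 => by
        rw [Nat.div_eq_of_lt (by simp only [mem_Ioc, mem_Ico] at *; omega)]; simp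
    rw [← b4, ← tw_mul cj]
    simp only [mul_sum, mul_one, ← log_apply] at b1 b2 b3
    rw [← tw_mul cj] at b2 b3
    conv_lhs => simp only [e]
    simp only [ofReal_add, ofReal_sub, mul_add, mul_sub, sum_add_distrib,
      sum_sub_distrib]
    refine (norm_add_le _ _).trans (add_le_add_left ((norm_sub_le _ _).trans ((add_le_add
      ((norm_add_le _ _).trans (add_le_add b1 b2)) b3).trans ?_)) _)
    have q : 0 ≤ U * l := by positivity
    nlinarith [mul_nonneg q (sub_nonneg.2 f1), mul_nonneg (mul_nonneg q (sub_nonneg.2 U'))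
      (show 0 ≤ f by linarith)]
  · rw [sum_add_distrib, sum_const, nsmul_eq_mul]
    nlinarith [mul_le_mul_of_nonneg_right hU (show 0 ≤ (U : ℝ) ^ 2 * l by positivity)]

end Pool.Agent.H59.MT
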