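import Mathlib
import Pool.Agent.H59.MT3
import Pool.Agent.H59.MT4

/-! Products of local functions and of local characters. -/

set_option autoImplicit false

namespace Pool.Agent.H59.MT

open Finset Complex ArithmeticFunction

section per

variable {K : Type} [RCLike K]

lemma affine (g : ℕ → K) (a b u : ℕ) (hb : 0 < b) (hab : Nat.Coprime b a)
    (hg : Function.Periodic g b) : ∑ v ∈ range b, g (v * a + u) = ∑ v ∈ range b, g v := by
  have hinj : Set.InjOn (fun v => (v * a + u) % b) (range b : Finset ℕ) := by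
    intro v hv v' hv' h
    have h1 : v * a + u ≡ v' * a + u [MOD b] := h
    exact Nat.ModEq.eq_of_lt_of_lt (Nat.ModEq.cancel_right_of_coprime hab
      (Nat.ModEq.add_right_cancel' u h1)) (by simpa using hv) (by simpa using hv')
  have himg : (range b).image (fun v => (v * a + u) % b) = range b := by
    apply eq_of_subset_of_card_le
    · intro y hy
      obtain ⟨v, _, rfl⟩ := mem_image.1 hy
      exact mem_range.2 (Nat.mod_lt _ hb)
    · rw [card_image_of_injOn hinj]
  conv_rhs => rw [← himg, sum_image hinj]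
  exact sum_congr rfl (fun v _ => (hg.map_mod_nat _).symm)

lemma crt2 (f g : ℕ → K) (a b : ℕ) (hb : 0 < b) (hab : Nat.Coprime b a)
    (hf : Function.Periodic f a) (hg : Function.Periodic g b) :
    ∑ x ∈ range (b * a), f x * g x = (∑ x ∈ range a, f x) * ∑ x ∈ range b, g x := by
  have e : ∀ (F : ℕ → K) (b : ℕ),
      ∑ x ∈ range (b * a), F x = ∑ v ∈ range b, ∑ u ∈ range a, F (v * a + u) := fun F b => by
    induction b with
    | zero => simp
    | succ b ih => rw [Nat.succ_mul, sum_range_add, ih, sum_range_succ]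
  rw [e, sum_comm, sum_mul]
  refine sum_congr rfl (fun u _ => ?_)
  rw [← affine g a b u hb hab hg, mul_sum]
  refine sum_congr rfl (fun v _ => ?_)
  congr 1
  rw [add_comm]
  exact hf.nat_mul v u

variable {T : Type} [DecidableEq T]

lemma pper (q : T → ℕ) (φ : T → ℕ → K) (hp : ∀ x, Function.Periodic (φ x) (q x)) (A : Finset T) :
    Function.Periodic (fun t => ∏ x ∈ A, φ x t) (∏ x ∈ A, q x) := fun t =>
  prod_congr rfl fun x hx => by
    obtain ⟨c, hc⟩ := dvd_prod_of_mem q hx
    rw [hc, mul_comm]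
    exact (hp x).nat_mul c t

lemma crt (q : T → ℕ) (hq : ∀ x, (q x).Prime) (hi : Function.Injective q) (φ : T → ℕ → K)
    (hp : ∀ x, Function.Periodic (φ x) (q x)) (A : Finset T) :
    ∑ t ∈ range (∏ x ∈ A, q x), ∏ x ∈ A, φ x t = ∏ x ∈ A, ∑ t ∈ range (q x), φ x t := by
  induction A using Finset.induction_on with
  | empty => simp
  | insert a S ha ih =>
    simp_rw [prod_insert ha]
    rw [← ih, mul_comm (q a)]
    exact crt2 (φ a) (fun t => ∏ x ∈ S, φ x t) _ _ (prod_pos fun x _ => (hq x).pos)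
      (Nat.Coprime.prod_left fun x hx => (Nat.coprime_primes (hq x) (hq a)).2
        fun h => ha (hi h ▸ hx)) (hp a) (pper q φ hp S)

lemma per0 (G : ℕ → K) (N : ℕ) (hN : 0 < N) (hp : Function.Periodic G N)
    (h0 : ∑ t ∈ range N, G t = 0) (B : ℝ) (hb : ∀ t, ‖G t‖ ≤ B) (a k : ℕ) :
    ‖∑ t ∈ range k, G (a + t)‖ ≤ N * B := by
  induction k using Nat.strong_induction_on with
  | _ k ih =>
    rcases lt_or_ge k N with h | h
    · refine (norm_sum_le_of_le _ fun t _ => hb _).trans ?_
      rw [sum_const, card_range, nsmul_eq_mul]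
      exact mul_le_mul_of_nonneg_right (by exact_mod_cast h.le) ((norm_nonneg _).trans (hb 0))
    · obtain ⟨j, rfl⟩ := Nat.exists_eq_add_of_le' h
      have := affine G 1 N (a + j) hN (by simp) hp
      have e : ∑ v ∈ range N, G (a + (j + v)) = ∑ v ∈ range N, G (v * 1 + (a + j)) :=
        sum_congr rfl fun v _ => by congr 1; omega
      rw [sum_range_add, e, this, h0, add_zero]
      exact ih j (by omega)

lemma per [Fintype T] (q : T → ℕ) (hq : ∀ x, (q x).Prime) (hi : Function.Injective q)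
    (φ : T → ℕ → K) (hp : ∀ x, Function.Periodic (φ x) (q x)) (A : Finset T) (β : T → ℝ)
    (h1 : ∀ x ∉ A, ∀ t, φ x t = 1) (hb : ∀ x ∈ A, ∀ t, ‖φ x t‖ ≤ β x) (a k : ℕ) :
    ‖∑ t ∈ range k, ∏ x, φ x (a + t) - k * ∏ x, ((∑ t ∈ range (q x), φ x t) / q x)‖ ≤
      2 * ∏ x ∈ A, (q x * β x) := by
  have q0 : ∀ x, (q x : K) ≠ 0 := fun x => by exact_mod_cast (hq x).ne_zero
  have e1 : ∀ t, ∏ x, φ x t = ∏ x ∈ A, φ x t := fun t =>
    (prod_subset (subset_univ A) fun x _ hx => h1 x hx t).symm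
  have e2 : ∏ x, ((∑ t ∈ range (q x), φ x t) / q x) =
      ∏ x ∈ A, ((∑ t ∈ range (q x), φ x t) / q x) :=
    (prod_subset (subset_univ A) fun x _ hx => by simp [h1 x hx, q0 x]).symm
  simp only [e1, e2]
  set m := ∏ x ∈ A, ((∑ t ∈ range (q x), φ x t) / q x) with hm
  have := per0 (fun t => ∏ x ∈ A, φ x t - m) _ (prod_pos fun x _ => (hq x).pos)
    (fun t => congrArg (· - m) (pper q φ hp A t)) (by
      rw [sum_sub_distrib, crt q hq hi φ hp, sum_const, card_range, nsmul_eq_mul, hm, Nat.cast_prod,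
        ← prod_mul_distrib, sub_eq_zero]
      exact prod_congr rfl fun x _ => (mul_div_cancel₀ _ (q0 x)).symm) (2 * ∏ x ∈ A, β x)
    (fun t => by
      refine (norm_sub_le _ _).trans ?_
      rw [two_mul, hm, norm_prod, norm_prod]
      refine add_le_add (prod_le_prod (fun _ _ => norm_nonneg _) fun x hx => hb x hx t)
        (prod_le_prod (fun _ _ => norm_nonneg _) fun x hx => ?_)
      rw [norm_div, RCLike.norm_natCast, div_le_iff₀ (by exact_mod_cast (hq x).pos)]
      refine (norm_sum_le_of_le _ fun t _ => hb x hx t).trans_eq ?_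
      rw [sum_const, card_range, nsmul_eq_mul, mul_comm]) a k
  rw [sum_sub_distrib, sum_const, card_range, nsmul_eq_mul] at this
  refine this.trans_eq ?_
  rw [prod_mul_distrib, Nat.cast_prod]; ring

end per

variable {T : Type} [Fintype T] [DecidableEq T] (q : T → ℕ) [hq : ∀ x, Fact (q x).Prime]

/-- Families of local characters. -/
abbrev Ch := (x : T) → DirichletCharacter ℂ (q x)

open Classical in
/-- The primitive character attached to a family. -/
noncomputable def ev (ψ : Ch q) (n : ℕ) : ℂ := ∏ x, if ψ x = 1 then 1 else ψ x n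

open Classical in
/-- The conductor. -/
noncomputable def cond (ψ : Ch q) : ℝ := ∏ x, if ψ x = 1 then 1 else (q x : ℝ)

lemma q_one (x : T) : (1 : ℝ) ≤ q x := by exact_mod_cast (hq x).out.pos

lemma cond_one (ψ : Ch q) : 1 ≤ cond q ψ :=
  one_le_prod fun x _ => by split_ifs; exacts [le_rfl, q_one q x]

lemma ev_cm (ψ : Ch q) : CM (ev q ψ) := by
  refine ⟨prod_eq_one fun x _ => by simp, fun m n => ?_, fun n => ?_⟩
  · rw [ev, ev, ev, ← prod_mul_distrib]
    exact prod_congr rfl fun x _ => by split_ifs <;> simp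
  · rw [ev, norm_prod]
    exact prod_le_one (fun _ _ => norm_nonneg _) fun x _ => by
      split_ifs; exacts [by simp, (ψ x).norm_le_one _]

lemma ev_conj (ψ : Ch q) (n : ℕ) : (starRingEnd ℂ) (ev q ψ n) = ev q ψ⁻¹ n := by
  rw [ev, ev, map_prod]
  refine prod_congr rfl fun x _ => ?_
  simp only [Pi.inv_apply, inv_eq_one]
  split_ifs
  · simp
  · exact MulChar.star_apply' _ _

lemma cond_inv (ψ : Ch q) : cond q ψ⁻¹ = cond q ψ := by simp [cond]

lemma sum_zmod (p : ℕ) [NeZero p] {M : Type} [AddCommMonoid M] (f : ZMod p → M) :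
    ∑ t ∈ range p, f t = ∑ a, f a := by
  refine sum_nbij' (fun t => (t : ZMod p)) ZMod.val (by simp) (fun a _ => mem_range.2 a.val_lt)
    (fun t ht => ZMod.val_cast_of_lt (mem_range.1 ht)) (by simp) (by simp)

lemma ps_mul (hi : Function.Injective q) (ψ ξ : Ch q) (h : ψ * ξ ≠ 1) :
    PS (fun n => ev q ψ n * ev q ξ n) (2 * (cond q ψ * cond q ξ)) := by
  classical
  intro N
  obtain ⟨y, hy⟩ := Function.ne_iff.1 h
  have := per q (fun x => (hq x).out) hi
    (fun x n => (if ψ x = 1 then 1 else ψ x n) * (if ξ x = 1 then 1 else ξ x n))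
    (fun x n => by simp) (univ.filter fun x => ¬ (ψ x = 1 ∧ ξ x = 1)) (fun _ => 1)
    (fun x hx t => by simp only [mem_filter, mem_univ, true_and, not_not] at hx; simp [hx])
    (fun x _ t => by
      rw [norm_mul]
      refine mul_le_one₀ ?_ (norm_nonneg _) ?_ <;> split_ifs
      exacts [by simp, (ψ x).norm_le_one _, by simp, (ξ x).norm_le_one _]) 1 N
  rw [prod_eq_zero (mem_univ y) (by
    rw [sum_congr rfl (g := fun t : ℕ => (ψ y * ξ y) t) fun t _ => by
      have : ψ y * ξ y ≠ 1 := hy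
      by_cases a : ψ y = 1 <;> by_cases b : ξ y = 1 <;> simp_all, sum_zmod (q y) (ψ y * ξ y),
      MulChar.sum_eq_zero_of_ne_one (show ψ y * ξ y ≠ 1 from hy), zero_div]), mul_zero, sub_zero] at this
  rw [show Ioc 0 N = Ico 1 (1 + N) by ext; simp; omega, sum_Ico_eq_sum_range, Nat.add_sub_cancel_left]
  simp only [ev, cond, ← prod_mul_distrib]
  refine this.trans (mul_le_mul_of_nonneg_left ?_ (by norm_num))
  rw [prod_filter]
  refine prod_le_prod (fun x _ => by positivity) fun x _ => ?_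
  have := q_one q x
  by_cases a : ψ x = 1 <;> by_cases b : ξ x = 1 <;> simp [a, b]
  nlinarith

lemma ps_ev (hi : Function.Injective q) (ψ : Ch q) (h : ψ ≠ 1) : PS (ev q ψ) (2 * cond q ψ) := by
  have := ps_mul q hi ψ 1 (by simpa using h)
  simp only [show ∀ n, ev q 1 n = 1 from fun n => by simp [ev],
    show cond q 1 = 1 by simp [cond], mul_one] at this
  exact this

lemma PS.mono {χ : ℕ → ℂ} {f g : ℝ} (h : PS χ f) (hg : f ≤ g) : PS χ g := fun N => (h N).trans hg

lemma count (hi : Function.Injective q) (Q : ℝ) (Q0 : 0 ≤ Q) (X : Finset (Ch q))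
    (hX : ∀ ψ ∈ X, cond q ψ ≤ Q) : (X.card : ℝ) ≤ 3 * Q ^ 3 := by
  classical
  have a : ∑ ψ : Ch q, ∏ x, (if ψ x = 1 then 1 else ((q x : ℝ) ^ 3)⁻¹) ≤ 3 := by
    rw [← Fintype.piFinset_univ, ← prod_univ_sum (fun _ => univ)
      fun x (χ : DirichletCharacter ℂ (q x)) => if χ = 1 then 1 else ((q x : ℝ) ^ 3)⁻¹]
    refine (prod_le_prod (g := fun x => 1 + ((q x : ℝ) ^ 2)⁻¹)
      (fun x _ => sum_nonneg fun _ _ => by positivity) fun x _ => ?_).trans
      ((Real.prod_one_add_le_exp_sum _ fun x => by positivity).trans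
        ((Real.exp_le_exp.2 (show _ ≤ 1 from ?_)).trans
          (Real.exp_one_lt_d9.le.trans (by norm_num))))
    · refine (sum_le_sum (g := fun χ => (if χ = 1 then 1 else 0) + ((q x : ℝ) ^ 3)⁻¹)
        fun χ _ => by split_ifs <;> simp).trans ?_
      rw [sum_add_distrib, sum_ite_eq', if_pos (mem_univ _), sum_const, card_univ,
        ← Nat.card_eq_fintype_card, DirichletCharacter.card_eq_totient_of_hasEnoughRootsOfUnity,
        nsmul_eq_mul]
      have h1 : ((q x).totient : ℝ) ≤ q x := by exact_mod_cast Nat.totient_le _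
      have := q_one q x
      refine add_le_add_right ((mul_le_mul_of_nonneg_right h1 (by positivity)).trans_eq ?_) _
      field_simp
    · rw [← sum_image (s := univ) (g := q) (f := fun p : ℕ => ((p : ℝ) ^ 2)⁻¹) hi.injOn]
      obtain ⟨M, hM⟩ := (univ.image q).bddAbove
      refine (sum_le_sum_of_subset_of_nonneg (t := Ioc 1 (M + 1)) (fun p hp => ?_)
        fun _ _ _ => by positivity).trans
        ((sum_Ioc_inv_sq_le_sub one_ne_zero (by omega)).trans (by simp; positivity))
      obtain ⟨x, _, rfl⟩ := mem_image.1 hp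
      exact mem_Ioc.2 ⟨(hq x).out.one_lt, (hM hp).trans (Nat.le_succ _)⟩
  refine le_trans ?_ (mul_le_mul_of_nonneg_right a (by positivity))
  rw [sum_mul, card_eq_sum_ones, Nat.cast_sum]
  refine (sum_le_sum fun ψ hψ => ?_).trans (sum_le_sum_of_subset_of_nonneg (subset_univ X)
    fun ψ _ _ => mul_nonneg (prod_nonneg fun _ _ => by positivity) (by positivity))
  have e : ∏ x, (if ψ x = 1 then 1 else ((q x : ℝ) ^ 3)⁻¹) = (cond q ψ ^ 3)⁻¹ := by
    rw [cond, ← prod_pow, ← prod_inv_distrib]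
    exact prod_congr rfl fun x _ => by split_ifs <;> simp
  have := cond_one q ψ
  rw [e, Nat.cast_one, inv_mul_eq_div, one_le_div (by positivity)]
  exact pow_le_pow_left₀ (by linarith) (hX ψ hψ) 3

/-- Local Fourier coefficients on the units. -/
noncomputable def fc (p : ℕ) [NeZero p] (φ : ZMod p → ℝ) (χ : DirichletCharacter ℂ p) : ℂ :=
  (∑ a, φ a * χ a⁻¹) / (p - 1)

lemma expand (φ : (x : T) → ZMod (q x) → ℝ) (n : ℕ) (hn : ∀ x, (n : ZMod (q x)) ≠ 0) :
    ((∏ x, φ x n : ℝ) : ℂ) = ∑ ψ : Ch q, (∏ x, fc (q x) (φ x) (ψ x)) * ev q ψ n := by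
  classical
  have e : ∀ ψ : Ch q, ev q ψ n = ∏ x, ψ x n := fun ψ => prod_congr rfl fun x _ => by
    split_ifs with h
    · rw [h, MulChar.one_apply (hn x).isUnit]
    · rfl
  simp only [e, ← prod_mul_distrib]
  rw [← Fintype.piFinset_univ, ← prod_univ_sum (fun _ => univ)
    (fun x (χ : DirichletCharacter ℂ (q x)) => fc (q x) (φ x) χ * χ n), ofReal_prod]
  refine prod_congr rfl fun x _ => ?_
  have q1 : (q x : ℂ) - 1 ≠ 0 := sub_ne_zero.2 (by exact_mod_cast (hq x).out.one_lt.ne')
  simp only [fc, div_mul_eq_mul_div, ← sum_div, sum_mul, mul_assoc]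
  rw [sum_comm, eq_div_iff q1, sum_eq_single (n : ZMod (q x))]
  · rw [← mul_sum, DirichletCharacter.sum_char_inv_mul_char_eq ℂ (hn x).isUnit, if_pos rfl,
      Nat.totient_prime (hq x).out, Nat.cast_pred (hq x).out.pos]
  · intro a _ ha
    by_cases a0 : a = 0
    · simp [a0, MulChar.map_zero]
    · rw [← mul_sum, DirichletCharacter.sum_char_inv_mul_char_eq ℂ (Ne.isUnit a0), if_neg ha,
        mul_zero]
  · simp

end Pool.Agent.H59.MT
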