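import Mathlib
import Pool.Agent.H59.MT5

/-! A weak Bombieri-Vinogradov type estimate. -/

set_option autoImplicit false
set_option linter.unusedSectionVars false

namespace Pool.Agent.H59.MT

open Finset Complex ArithmeticFunction

variable {T : Type} [Fintype T] [DecidableEq T] (q : T → ℕ) [hq : ∀ x, Fact (q x).Prime]

/-- Twisted sums over primes. -/
noncomputable def th (a b : ℕ) (ψ : Ch q) : ℂ :=
  ∑ n ∈ Ico a b with n.Prime, ev q ψ n * (Real.log n : ℝ)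

/-- The averaged estimate. -/
def BV (E : Finset T) (Q θ η : ℝ) (a b : ℕ) : Prop :=
  ∀ (c : Ch q → ℂ) (B : ℝ), (∀ ψ, ‖c ψ‖ ≤ B * cond q ψ ^ (-θ)) →
    (∀ ψ, c ψ ≠ 0 → cond q ψ ≤ Q ∧ ∀ x ∈ E, ψ x = 1) →
      ‖∑ ψ, c ψ * th q a b ψ - c 1 * th q a b 1‖ ≤ B * η

lemma th_le (a b : ℕ) (hb : 1 ≤ b) (ψ : Ch q) : ‖th q a b ψ‖ ≤
    ‖∑ n ∈ Ico a b, ev q ψ n * (Λ n : ℝ)‖ + 2 * √b * Real.log b := by
  rw [← sum_filter_add_sum_filter_not (Ico a b) Nat.Prime]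
  have e : th q a b ψ = ∑ n ∈ Ico a b with n.Prime, ev q ψ n * (Λ n : ℝ) :=
    sum_congr rfl fun n hn => by rw [vonMangoldt_apply_prime (mem_filter.1 hn).2]
  rw [← e]
  refine (norm_le_add_norm_add _ (∑ n ∈ Ico a b with ¬ n.Prime, ev q ψ n * (Λ n : ℝ))).trans
    (add_le_add_right ((norm_sum_le_of_le (n := fun n => Λ n) _ fun n _ => ?_).trans ?_) _)
  · rw [norm_mul, norm_real, Real.norm_of_nonneg vonMangoldt_nonneg]
    exact mul_le_of_le_one_left vonMangoldt_nonneg ((ev_cm q ψ).le n)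
  · refine le_trans ?_ (Chebyshev.psi_sub_theta_le (x := b) (by exact_mod_cast hb))
    rw [Chebyshev.psi_sub_theta_eq_sum_not_prime, Nat.floor_natCast]
    rw [← sum_filter_ne_zero]
    refine sum_le_sum_of_subset_of_nonneg (fun n hn => ?_) fun _ _ _ => vonMangoldt_nonneg
    simp only [mem_filter, mem_Ico, mem_Ioc] at hn ⊢
    exact ⟨⟨Nat.pos_of_ne_zero fun h => hn.2 (by simp [h]), hn.1.1.2.le⟩, hn.1.2⟩

theorem bv (hi : Function.Injective q) {L : ℝ} (hL : 10 ^ 13 ≤ L) (hC : CL ≤ L) :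
    ∃ E : Finset T, E.card ≤ 1 ∧ ∀ (a b U r : ℕ) (Q θ : ℝ), 0 < a → a ≤ b → L ^ 7 ≤ Real.log a →
      Real.log b ≤ Real.exp L → Real.log b - Real.log a ≤ 1 → 0 ≤ θ → 1 ≤ Q → 12 * Q ^ 5 ≤ U →
      b < 2 ^ r → BV q E Q θ (3 * Real.exp (L / 2) ^ 3 * (b * Real.exp (-3 * L)) +
        Real.exp (L / 2) ^ (-θ) *
          (2 * (2 * U ^ 3 * Real.log b + r ^ 2 * (2 * b * (1 + Real.log b ^ 2)))) +
        3 * Q ^ 3 * (2 * √b * Real.log b)) a b := by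
  classical
  set Q0 := Real.exp (L / 2) with hQ0
  have Q1 : 1 ≤ Q0 := Real.one_le_exp (by linarith)
  have e2 : 2 * (Q0 * Q0) ≤ Real.exp (2 * L) := by
    rw [hQ0, ← Real.exp_add, add_halves, two_mul L, Real.exp_add]
    nlinarith [Real.add_one_le_exp L, Real.exp_pos L]
  have p1 : ∀ ψ : Ch q, ψ ≠ 1 → cond q ψ ≤ Q0 → PS (ev q ψ) (Real.exp (2 * L)) := fun ψ a b =>
    (ps_ev q hi ψ a).mono (by nlinarith)
  have p2 : ∀ (ψ ξ : Ch q) (R : ℝ), ψ * ξ ≠ 1 → cond q ψ ≤ R → cond q ξ ≤ R →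
      PS (fun n => ev q ψ n * ev q ξ n) (2 * (R * R)) := fun ψ ξ R a b c =>
    (ps_mul q hi ψ ξ a).mono (by have := cond_one q ψ; have := cond_one q ξ; gcongr; linarith)
  obtain ⟨E, E1, hE⟩ : ∃ E : Finset T, E.card ≤ 1 ∧ ∀ ψ : Ch q, ψ ≠ 1 → cond q ψ ≤ Q0 →
      (∀ x ∈ E, ψ x = 1) → ¬ Bad (ev q ψ) L := by
    by_cases h : ∃ ξ : Ch q, ξ ≠ 1 ∧ cond q ξ ≤ Q0 ∧ Bad (ev q ξ) L
    · obtain ⟨ξ, x1, x2, x3⟩ := h
      obtain ⟨y, hy⟩ := Function.ne_iff.1 x1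
      refine ⟨{y}, by simp, fun ψ a b c => ?_⟩
      have c := c y (by simp)
      refine page (ev_cm q ξ) (ev_cm q ψ) (by linarith) (p1 ξ x1 x2) (p1 ψ a b)
        ((p2 ξ ψ Q0 (fun h => hy ?_) x2 b).mono e2) ?_ x3
      · simpa [c] using congrFun h y
      · simp only [ev_conj]
        refine (p2 ξ ψ⁻¹ Q0 (fun h => hy ?_) x2 (by rwa [cond_inv])).mono e2
        simpa [c] using congrFun h y
    · exact ⟨∅, by simp, fun ψ a b _ c => h ⟨ψ, a, b, c⟩⟩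
  refine ⟨E, E1, fun a b U r Q θ a0 ab h1 h2 h3 t0 hQ hU hr c B hB hc => ?_⟩
  set X := univ.filter fun ψ : Ch q => ψ ≠ 1 ∧ c ψ ≠ 0 with hX
  have mX : ∀ ψ ∈ X, ψ ≠ 1 ∧ cond q ψ ≤ Q ∧ ∀ x ∈ E, ψ x = 1 := fun ψ h =>
    ⟨(mem_filter.1 h).2.1, hc ψ (mem_filter.1 h).2.2⟩
  have B0 : 0 ≤ B := by simpa [cond] using (norm_nonneg _).trans (hB 1)
  have cB : ∀ ψ R, 1 ≤ R → R ≤ cond q ψ → ‖c ψ‖ ≤ B * R ^ (-θ) := fun ψ R a b => (hB ψ).trans
    (mul_le_mul_of_nonneg_left (Real.rpow_le_rpow_of_nonpos (by linarith) b (by linarith)) B0)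
  have cB1 : ∀ ψ, ‖c ψ‖ ≤ B := fun ψ => by simpa using cB ψ 1 le_rfl (cond_one q ψ)
  have lb : 0 ≤ Real.log b := Real.log_natCast_nonneg b
  have e : ∑ ψ, c ψ * th q a b ψ - c 1 * th q a b 1 = ∑ ψ ∈ X, c ψ * th q a b ψ := by
    rw [← sum_erase_eq_sub (mem_univ 1)]
    exact (sum_subset (fun ψ h => by simp [(mX ψ h).1]) fun ψ h1 h2 => by simp_all).symm
  set S : Ch q → ℝ := fun ψ => ‖∑ n ∈ Ico a b, ev q ψ n * (Λ n : ℝ)‖ with hS
  have cX := count q hi Q (by linarith) X fun ψ h => (mX ψ h).2.1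
  have s1 : ∑ ψ ∈ X with cond q ψ ≤ Q0, ‖c ψ‖ * S ψ ≤ B * (3 * Q0 ^ 3 * (b * Real.exp (-3 * L))) := by
    refine (sum_le_card_nsmul _ _ (B * (b * Real.exp (-3 * L))) fun ψ h => ?_).trans ?_
    · obtain ⟨h, h'⟩ := mem_filter.1 h
      exact mul_le_mul (cB1 ψ) (sw (ev_cm q ψ) (p1 ψ (mX ψ h).1 h') hL hC
        (hE ψ (mX ψ h).1 h' (mX ψ h).2.2) a b a0 ab h1 h2 h3) (norm_nonneg _) B0
    · rw [nsmul_eq_mul, mul_left_comm]
      exact mul_le_mul_of_nonneg_left (mul_le_mul_of_nonneg_right (count q hi Q0 (by linarith) _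
        fun ψ h => (mem_filter.1 h).2) (by positivity)) B0
  have v : ∀ x : ℕ, x ≤ b → ∑ ψ ∈ X, ‖∑ n ∈ Ioc 0 x, ev q ψ n * (Λ n : ℝ)‖ ≤
      2 * U ^ 3 * Real.log b + r ^ 2 * (2 * b * (1 + Real.log b ^ 2)) := fun x hx => by
    have U1 : (1 : ℝ) ≤ U := by nlinarith [one_le_pow₀ (n := 5) hQ]
    refine (vaughan X (ev q) (fun ψ _ => ev_cm q ψ) (2 * (Q * Q)) (by nlinarith)
      (fun ψ h => (ps_ev q hi ψ (mX ψ h).1).mono (by nlinarith [(mX ψ h).2.1]))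
      (fun ψ h ξ h' ne => ?_) U (by exact_mod_cast U1) (le_trans ?_ hU) x r (by omega)).trans ?_
    · simp only [ev_conj]
      exact p2 ψ ξ⁻¹ Q (by rwa [Ne, mul_inv_eq_one]) (mX ψ h).2.1 (by rw [cond_inv]; exact (mX ξ h').2.1)
    · exact (mul_le_mul_of_nonneg_right cX (by positivity)).trans_eq (by ring)
    · have := Real.log_natCast_nonneg x
      have : Real.log x ≤ Real.log b := by
        rcases x.eq_zero_or_pos with z | z
        · simpa [z] using lb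
        · gcongr
      gcongr
  have s2 : ∑ ψ ∈ X with ¬ cond q ψ ≤ Q0, ‖c ψ‖ * S ψ ≤ B * (Q0 ^ (-θ) *
      (2 * (2 * U ^ 3 * Real.log b + r ^ 2 * (2 * b * (1 + Real.log b ^ 2))))) := by
    refine (sum_le_sum fun ψ h => mul_le_mul_of_nonneg_right
      (cB ψ Q0 Q1 (not_le.1 (mem_filter.1 h).2).le) (norm_nonneg _)).trans ?_
    rw [← mul_sum, mul_assoc]
    refine mul_le_mul_of_nonneg_left (mul_le_mul_of_nonneg_left
      ((sum_le_sum_of_subset_of_nonneg (filter_subset _ _) fun _ _ _ => norm_nonneg _).trans ?_)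
      (by positivity)) B0
    rw [two_mul]
    refine le_trans ?_ (add_le_add (v (b - 1) (by omega)) (v (a - 1) (by omega)))
    rw [← sum_add_distrib]
    refine sum_le_sum fun ψ _ => le_trans (le_of_eq ?_) (norm_sub_le _ _)
    rw [← sum_Ioc_consecutive _ (Nat.zero_le (a - 1)) (show a - 1 ≤ b - 1 by omega),
      add_sub_cancel_left, show Ioc (a - 1) (b - 1) = Ico a b by ext; simp; omega]
  rw [e]
  refine (norm_sum_le_of_le (n := fun ψ => ‖c ψ‖ * S ψ + B * (2 * √b * Real.log b)) _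
    fun ψ _ => ?_).trans ?_
  · rw [norm_mul]
    refine (mul_le_mul_of_nonneg_left (th_le q a b (by omega) ψ) (norm_nonneg _)).trans ?_
    rw [mul_add]
    exact add_le_add_right (mul_le_mul_of_nonneg_right (cB1 ψ) (by positivity)) _
  · rw [sum_add_distrib, ← sum_filter_add_sum_filter_not X fun ψ => cond q ψ ≤ Q0, sum_const,
      nsmul_eq_mul, mul_add B, mul_add B]
    refine add_le_add (add_le_add s1 s2) ?_
    rw [mul_left_comm]
    exact mul_le_mul_of_nonneg_left (mul_le_mul_of_nonneg_right cX (by positivity)) B0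

end Pool.Agent.H59.MT
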