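import Mathlib
import Pool.Agent.H59.MT7
import Pool.Agent.H59.MT8

/-! Local computations and the upper bound for sieve sums. -/

set_option autoImplicit false
set_option linter.unusedSectionVars false

namespace Pool.Agent.H59.MT

open Finset

variable {ι M S : Type} [Fintype ι] [DecidableEq ι] [Fintype M] [DecidableEq M]
  [Fintype S] [DecidableEq S]

open Classical in
/-- Local factor. -/
noncomputable def ph (n : ℝ) (P : ι → Prop) (a : Option ι) : ℝ :=
  a.elim 1 fun i => if P i then 1 - n else 1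

lemma ph_abs {n : ℝ} (hn : 1 ≤ n) (P : ι → Prop) (a : Option ι) : |ph n P a| ≤ n := by
  cases a with
  | none => simpa [ph]
  | some i => simp only [ph, Option.elim]; split_ifs <;> rw [abs_le] <;> constructor <;> linarith

section loc

variable (Ω : Finset ℕ) {ρ : ι → ℕ} (hρ : Function.Injective ρ) {P : ℕ → ι → Prop}
  (hP : ∀ t ∈ Ω, ∀ i, P t i ↔ t = ρ i)

include hP in
lemma ph_eq (n : ℝ) (a : Option ι) {t : ℕ} (ht : t ∈ Ω) :
    ph n (P t) a = 1 - n * if a.map ρ = some t then 1 else 0 := by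
  cases a with
  | none => simp [ph]
  | some i =>
    simp only [ph, Option.elim, hP t ht, Option.map_some, Option.some.injEq, eq_comm (a := t)]
    split_ifs <;> simp

lemma ind1 (a : Option ι) : ∑ t ∈ Ω, (if a.map ρ = some t then (1 : ℝ) else 0) =
    if ∃ i, a = some i ∧ ρ i ∈ Ω then 1 else 0 := by
  cases a <;> simp

include hρ in
lemma ind2 (a b : Option ι) (t : ℕ) :
    (if a.map ρ = some t then (1 : ℝ) else 0) * (if b.map ρ = some t then 1 else 0) =
      if a = b then (if a.map ρ = some t then 1 else 0) else 0 := by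
  by_cases h : a = b
  · subst h; split_ifs <;> simp_all
  · rw [if_neg h]
    split_ifs with c d <;> simp
    exact h (Option.map_injective hρ (c.trans d.symm))

include hρ hP in
lemma loc1 (a b : Option ι) (ha : ∀ i, a = some i → ρ i ∈ Ω) (hb : ∀ i, b = some i → ρ i ∈ Ω) :
    ∑ t ∈ Ω, ph Ω.card (P t) a * ph Ω.card (P t) b = Ω.card * mm Ω.card a b := by
  rw [sum_congr rfl (g := fun t => 1 - Ω.card * (if a.map ρ = some t then 1 else 0) -
    Ω.card * (if b.map ρ = some t then 1 else 0) + (Ω.card : ℝ) ^ 2 *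
      if a = b then (if a.map ρ = some t then 1 else 0) else 0) fun t ht => by
    rw [ph_eq Ω hP _ a ht, ph_eq Ω hP _ b ht, ← ind2 hρ]; ring]
  simp only [sum_add_distrib, sum_sub_distrib, ← mul_sum, ind1, sum_ite_irrel]
  cases a <;> cases b <;> simp_all [mm]
  split_ifs <;> ring

include hρ hP in
lemma loc2 {n : ℝ} (hn : 0 ≤ n) (a b : Option ι) :
    ∑ t ∈ Ω, |ph n (P t) a * ph n (P t) b - 1| ≤ (if a = none then 0 else n) +
      (if b = none then 0 else n) + if a = b then (if a = none then 0 else n ^ 2) else 0 := by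
  refine (sum_le_sum (g := fun t => n * (if a.map ρ = some t then 1 else 0) +
    n * (if b.map ρ = some t then 1 else 0) + n ^ 2 *
      if a = b then (if a.map ρ = some t then 1 else 0) else 0) fun t ht => ?_).trans ?_
  · rw [ph_eq Ω hP _ a ht, ph_eq Ω hP _ b ht, ← ind2 hρ, abs_le]
    split_ifs <;> constructor <;> nlinarith
  · simp only [sum_add_distrib, ← mul_sum, ind1, sum_ite_irrel]
    have := sq_nonneg n
    cases a <;> cases b <;> simp <;> split_ifs <;> simp [*] <;> linarith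

end loc

lemma roots {p d : ℕ} (hp : p.Prime) (hd : ¬ p ∣ d) (c : ι → ℕ) :
    ∃ ρ : ι → ℕ, (∀ i, ρ i < p) ∧ ∀ t ∈ range p, ∀ i, p ∣ d * t + c i ↔ t = ρ i := by
  haveI := Fact.mk hp
  have d0 : (d : ZMod p) ≠ 0 := by rwa [Ne, ZMod.natCast_eq_zero_iff]
  refine ⟨fun i => (-(c i : ZMod p) / d).val, fun i => ZMod.val_lt _, fun t ht i => ?_⟩
  rw [← ZMod.natCast_eq_zero_iff, eq_comm (a := t), ← ZMod.val_cast_of_lt (mem_range.1 ht),
    (ZMod.val_injective p).eq_iff, div_eq_iff d0, ZMod.val_cast_of_lt (mem_range.1 ht)]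
  push_cast
  constructor <;> intro h <;> linear_combination -h

lemma roots' {p d : ℕ} (hp : p.Prime) (hd : ¬ p ∣ d) {c : ι → ℕ} (hc : Function.Injective c)
    (cp : ∀ i, c i < p) : ∃ ρ : ι → ℕ, Function.Injective ρ ∧ (∀ i, ρ i < p) ∧
      ∀ t ∈ range p, ∀ i, p ∣ d * t + c i ↔ t = ρ i := by
  obtain ⟨ρ, h1, h2⟩ := roots hp hd c
  refine ⟨ρ, fun i j h => hc ?_, h1, h2⟩
  have a := (h2 _ (mem_range.2 (h1 i)) i).2 rfl
  have b := (h2 _ (mem_range.2 (h1 i)) j).2 h
  exact Nat.ModEq.eq_of_lt_of_lt (Nat.ModEq.add_left_cancel' _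
    ((Nat.modEq_zero_iff_dvd.2 a).trans (Nat.modEq_zero_iff_dvd.2 b).symm)) (cp i) (cp j)

lemma per2 {T : Type} [Fintype T] [DecidableEq T] (q : T → ℕ) (hq : ∀ x, (q x).Prime)
    (hi : Function.Injective q) (φ : T → ℕ → ℝ) (hp : ∀ x, Function.Periodic (φ x) (q x))
    (γ : T → ℝ) (g1 : ∀ x, 1 ≤ γ x) (h : ∀ x, (∀ t, φ x t = 1) ∨ ∀ t, q x * |φ x t| ≤ γ x)
    (a k : ℕ) : |∑ t ∈ range k, ∏ x, φ x (a + t) -
      k * ∏ x, ((∑ t ∈ range (q x), φ x t) / q x)| ≤ 2 * ∏ x, γ x := by
  classical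
  have q0 : ∀ x, (0 : ℝ) < q x := fun x => by exact_mod_cast (hq x).pos
  refine (per q hq hi φ hp (univ.filter fun x => ¬ ∀ t, φ x t = 1) (fun x => γ x / q x)
    (fun x hx => by simpa using hx) (fun x hx t => ?_) a k).trans ?_
  · rw [le_div_iff₀' (q0 x)]
    exact (h x).resolve_left (mem_filter.1 hx).2 t
  · rw [prod_filter]
    refine mul_le_mul_of_nonneg_left (prod_le_prod (fun x _ => ?_) fun x _ => ?_) zero_le_two
    · have := g1 x; have := q0 x; positivity
    · split_ifs; exacts [g1 x, (mul_div_cancel₀ _ (q0 x).ne').le]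

/-- The sieve sum. -/
noncomputable def SS (q : M → ℕ) (ν : M → ℝ) (d : ℕ) (c : ι → ℕ) (y : (M → Option ι) → ℝ)
    (t : ℕ) : ℝ := ∑ r, mu ν r * y r * ∏ x, ph (q x) (fun i => q x ∣ d * t + c i) (r x)

/-- Arithmetic assumptions. -/
structure Ar (q : S ⊕ M → ℕ) (ν l : M → ℝ) (κ : ℝ) (d : ℕ) (c : ι → ℕ) : Prop
    extends Std ν l κ where
  pr : ∀ x, (q x).Prime
  inj : Function.Injective q
  nu : ∀ x, ν x * (q (.inr x) - 1) = 1
  lg : ∀ x, Real.log (q (.inr x)) ≤ l x
  hd : ∀ x, ¬ q (.inr x) ∣ d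
  ci : Function.Injective c
  cp : ∀ x i, c i < q (.inr x)
  k2 : κ ≤ 1 / 2

variable {q : S ⊕ M → ℕ} {ν l : M → ℝ} {κ : ℝ} {d : ℕ} {c : ι → ℕ}

lemma ph_per (p : ℕ) (n : ℝ) (a : Option ι) (t : ℕ) :
    ph n (fun i => p ∣ d * (t + p) + c i) a = ph n (fun i => p ∣ d * t + c i) a := by
  congr 1; funext i
  rw [mul_add, add_right_comm, Nat.dvd_add_left (dvd_mul_left p d)]

lemma Ar.q3 (h : Ar q ν l κ d c) (x : M) : (3 : ℝ) ≤ q (.inr x) := by
  nlinarith [h.nu x, h.n0 x, (h.nk x).trans h.k2]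

lemma Ar.quad' (h : Ar q ν l κ d c) (k0 : 0 ≤ κ) (n : M → ℝ) (hn : ∀ x, q (.inr x) - 1 ≤ n x) {σ : ℝ}
    (hs : Real.exp (2 * Fintype.card ι * κ * σ) ≤ 3 / 2)
    (C : (M → Option ι) → ℝ) (hC : ∀ u, C u ≠ 0 → tot l u ≤ σ) :
    |∑ u, ∑ v, C u * C v * ∏ x, mm (n x) (u x) (v x) -
      ∑ u, C u ^ 2 * ∏ x, if u x = none then 1 else n x - 1| ≤
      (∑ u, C u ^ 2 * ∏ x, if u x = none then 1 else n x - 1) / 2 := by
  refine h.quad n (by positivity) (fun x => by linarith [hn x, h.q3 x]) (fun x => ?_) hs C hC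
  have : 1 ≤ 2 * κ * (n x - 1) := by
    nlinarith [h.nu x, h.n0 x, h.nk x, h.q3 x, hn x, mul_le_mul (h.nk x)
      (show (q (.inr x) : ℝ) - 1 ≤ 2 * (n x - 1) by linarith [hn x, h.q3 x])
      (by linarith [h.q3 x]) k0]
  nlinarith [mul_le_mul_of_nonneg_left this (Nat.cast_nonneg (α := ℝ) (Fintype.card ι))]

lemma sum_mu : ∑ r : M → Option ι, mu ν r = ∏ x, (1 + Fintype.card ι * ν x) := by
  simp only [mu]
  rw [← Fintype.piFinset_univ, ← prod_univ_sum (fun _ => univ)
    fun x (a : Option ι) => if a = none then 1 else ν x]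
  simp [Fintype.sum_option]

theorem Ar.upper (h : Ar q ν l κ d c) (k0 : 0 ≤ κ) (α : S → ℕ → ℝ)
    (ap : ∀ x, Function.Periodic (α x) (q (.inl x))) (a0 : ∀ x t, 0 ≤ α x t)
    (a1 : ∀ x t, α x t ≤ q (.inl x)) {σ : ℝ} (hs : Real.exp (2 * Fintype.card ι * κ * σ) ≤ 3 / 2)
    (y : (M → Option ι) → ℝ) (hy : ∀ r, y r ≠ 0 → tot l r ≤ σ) (a k : ℕ) :
    ∑ t ∈ range k, (∏ x, α x (a + t)) * SS (fun x => q (.inr x)) ν d c y (a + t) ^ 2 ≤
      (3 / 2 * k * ∏ x, (∑ t ∈ range (q (.inl x)), α x t) / q (.inl x) +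
        2 * (∏ x, (q (.inl x) : ℝ)) ^ 2 * Real.exp (6 * σ) * ∏ x, (1 + Fintype.card ι * ν x)) *
          ∑ r, mu ν r * y r ^ 2 := by
  set C : (M → Option ι) → ℝ := fun r => mu ν r * y r with hC
  set A := ∏ x, (∑ t ∈ range (q (.inl x)), α x t) / q (.inl x) with hA
  set G := 2 * (∏ x, (q (.inl x) : ℝ)) ^ 2 * Real.exp (6 * σ) with hG
  have A0 : 0 ≤ A := prod_nonneg fun x _ => div_nonneg (sum_nonneg fun _ _ => a0 _ _) (by positivity)
  have q1 : ∀ x, (1 : ℝ) ≤ q x := fun x => by exact_mod_cast (h.pr x).pos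
  have Cs : ∀ u, C u ≠ 0 → tot l u ≤ σ := fun u hu => hy u (right_ne_zero_of_mul hu)
  set φ : (M → Option ι) → (M → Option ι) → S ⊕ M → ℕ → ℝ := fun r s x t => x.elim (α · t)
    fun x => ph (q (.inr x)) (fun i => q (.inr x) ∣ d * t + c i) (r x) *
      ph (q (.inr x)) (fun i => q (.inr x) ∣ d * t + c i) (s x) with hφ
  have key : ∀ r s, C r * C s * ∑ t ∈ range k, ∏ x, φ r s x (a + t) ≤
      k * A * (C r * C s * ∏ x, mm (q (.inr x)) (r x) (s x)) + G * (|C r| * |C s|) := by
    intro r s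
    by_cases z : C r * C s = 0
    · rw [z]; simp; positivity
    have := per2 q h.pr h.inj (φ r s) (fun x t => by
        cases x with
        | inl x => exact ap x t
        | inr x => simp only [hφ, Sum.elim_inr, ph_per])
      (Sum.elim (fun x => (q (.inl x) : ℝ) ^ 2) fun x => Real.exp
        (3 * ((if r x = none then 0 else l x) + if s x = none then 0 else l x))) (fun x => by
        cases x with
        | inl x => exact one_le_pow₀ (q1 _)
        | inr x => exact Real.one_le_exp (by have := h.l1 x; split_ifs <;> linarith)) (fun x => by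
        cases x with
        | inl x => exact Or.inr fun t => by
                    simp only [hφ, Sum.elim_inl, abs_of_nonneg (a0 _ _), sq]
                    exact mul_le_mul_of_nonneg_left (a1 x t) (by positivity)
        | inr x =>
          by_cases b : r x = none ∧ s x = none
          · exact Or.inl fun t => by simp [hφ, b, ph]
          · refine Or.inr fun t => ?_
            have e : (q (.inr x) : ℝ) * (q (.inr x) * q (.inr x)) = Real.exp (3 * Real.log (q (.inr x))) := by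
              rw [mul_comm 3, Real.exp_mul, Real.exp_log (by linarith [q1 (.inr x)])]; norm_cast; ring
            simp only [hφ, Sum.elim_inr, abs_mul]
            refine (mul_le_mul_of_nonneg_left (mul_le_mul (ph_abs (q1 _) _ _) (ph_abs (q1 _) _ _)
              (abs_nonneg _) (by positivity)) (by positivity)).trans (e.trans_le (Real.exp_le_exp.2 ?_))
            have := h.lg x; have := h.l1 x
            split_ifs <;> first | linarith | tauto) a k
    rw [Fintype.prod_sum_type, Fintype.prod_sum_type] at this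
    simp only [Sum.elim_inl, Sum.elim_inr, ← Real.exp_sum, ← mul_sum, sum_add_distrib] at this
    have e : ∏ x, (∑ t ∈ range (q (.inr x)), φ r s (.inr x) t) / q (.inr x) =
        ∏ x, mm (q (.inr x)) (r x) (s x) := prod_congr rfl fun x _ => by
      obtain ⟨ρ, r1, r2, r3⟩ := roots' (h.pr _) (h.hd x) h.ci (h.cp x)
      have := loc1 (range (q (.inr x))) r1 r3 (r x) (s x) (fun i _ => mem_range.2 (r2 i))
        fun i _ => mem_range.2 (r2 i)
      rw [card_range] at this
      simp only [hφ, Sum.elim_inr]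
      rw [this, mul_div_cancel_left₀ _ (by linarith [q1 (.inr x)])]
    rw [e, show ∏ x, (∑ t ∈ range (q (.inl x)), φ r s (.inl x) t) / q (.inl x) = A from rfl] at this
    replace this := this.trans (show _ ≤ G by
      rw [hG, mul_assoc, prod_pow]
      have := Cs r (left_ne_zero_of_mul z); have := Cs s (right_ne_zero_of_mul z)
      simp only [tot] at *
      gcongr 2 * (_ * Real.exp ?_); linarith)
    have := mul_le_mul_of_nonneg_left this (abs_nonneg (C r * C s))
    rw [← abs_mul, abs_mul (C r)] at this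
    linarith [le_abs_self (C r * C s * (∑ t ∈ range k, ∏ x, φ r s x (a + t) -
      k * (A * ∏ x, mm (q (.inr x)) (r x) (s x))))]
  have e1 : ∑ t ∈ range k, (∏ x, α x (a + t)) * SS (fun x => q (.inr x)) ν d c y (a + t) ^ 2 =
      ∑ r, ∑ s, C r * C s * ∑ t ∈ range k, ∏ x, φ r s x (a + t) := by
    simp only [SS, sq, sum_mul_sum]
    simp only [mul_sum]
    rw [sum_comm]
    refine sum_congr rfl fun r _ => sum_comm.trans (sum_congr rfl fun s _ => sum_congr rfl
      fun t _ => ?_)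
    simp only [Fintype.prod_sum_type, hφ, Sum.elim_inl, Sum.elim_inr, prod_mul_distrib, hC]; ring
  have e2 : ∑ u, C u ^ 2 * ∏ x, (if u x = none then 1 else (q (.inr x) : ℝ) - 1) =
      ∑ r, mu ν r * y r ^ 2 := sum_congr rfl fun u _ => by
    have : mu ν u * ∏ x, (if u x = none then 1 else (q (.inr x) : ℝ) - 1) = 1 := by
      rw [mu, ← prod_mul_distrib]
      exact prod_eq_one fun x _ => by split_ifs <;> simp [h.nu x]
    linear_combination mu ν u * y u ^ 2 * this
  have q2 := h.quad' k0 (fun x => q (.inr x)) (fun x => by linarith) hs C Cs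
  rw [e2] at q2
  have cs : (∑ r, |C r|) ^ 2 ≤ (∏ x, (1 + Fintype.card ι * ν x)) * ∑ r, mu ν r * y r ^ 2 := by
    rw [← sum_mu]
    exact sum_sq_le_sum_mul_sum_of_sq_eq_mul _ (fun r _ => (h.mu0 r).le)
      (fun r _ => mul_nonneg (h.mu0 r).le (sq_nonneg _)) fun r _ => by rw [sq_abs, hC]; ring
  rw [e1]
  refine (sum_le_sum fun r _ => sum_le_sum fun s _ => key r s).trans ?_
  simp only [sum_add_distrib, ← mul_sum, ← sum_mul]
  have := mul_le_mul_of_nonneg_left (le_of_abs_le q2) (show 0 ≤ k * A by positivity)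
  have := mul_le_mul_of_nonneg_left cs (show 0 ≤ G by positivity)
  linarith

end Pool.Agent.H59.MT
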