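import Mathlib
import Pool.Agent.H59.MT9

/-! The lower bound for primes against sieve weights. -/

set_option autoImplicit false
set_option linter.unusedSectionVars false

namespace Pool.Agent.H59.MT

open Finset

section fc

variable {p h ρ : ℕ} [hp : Fact p.Prime] (r0 : ρ < p) (hρ : ∀ t ∈ range p, p ∣ t + h ↔ t = ρ)
include r0 hρ

lemma fc_eq (φ : ℕ → ℝ) (χ : DirichletCharacter ℂ p) : fc p (fun a => φ (a - h).val) χ =
    (∑ t ∈ (range p).erase ρ, φ t * χ ((t + h : ℕ) : ZMod p)⁻¹) / (p - 1) := by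
  rw [fc, ← Equiv.sum_comp (Equiv.addRight (h : ZMod p)), ← sum_zmod, sum_erase]
  · congr 1
    exact sum_congr rfl fun t ht => by simp [ZMod.val_cast_of_lt (mem_range.1 ht)]
  · rw [(ZMod.natCast_eq_zero_iff _ _).2 ((hρ ρ (mem_range.2 r0)).2 rfl)]
    simp [MulChar.map_zero]

lemma fc_one (φ : ℕ → ℝ) : fc p (fun a => φ (a - h).val) 1 =
    (((∑ t ∈ (range p).erase ρ, φ t) / (p - 1) : ℝ) : ℂ) := by
  rw [fc_eq r0 hρ]
  push_cast
  congr 1
  refine sum_congr rfl fun t ht => ?_
  obtain ⟨a, b⟩ := mem_erase.1 ht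
  rw [MulChar.one_apply (Ne.isUnit (inv_ne_zero (by
    rwa [← Nat.cast_add, Ne, ZMod.natCast_eq_zero_iff, hρ t b]))), mul_one]

open Classical in
lemma fc_le (φ : ℕ → ℝ) (χ : DirichletCharacter ℂ p) (k : ℝ) :
    ‖fc p (fun a => φ (a - h).val) χ‖ ≤ (if χ = 1 then |k| else 0) +
      (∑ t ∈ (range p).erase ρ, |φ t - k|) / (p - 1) := by
  have p1 : (0 : ℝ) < p - 1 := sub_pos.2 (by exact_mod_cast hp.out.one_lt)
  have e : fc p (fun a => φ (a - h).val) χ = k * fc p (fun _ => 1) χ +
      fc p (fun a => φ (a - h).val - k) χ := by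
    simp only [fc, ← mul_div_assoc, ← add_div, mul_sum, ← sum_add_distrib]
    congr 1
    exact sum_congr rfl fun a _ => by push_cast; ring
  rw [e]
  refine (norm_add_le _ _).trans (add_le_add (le_of_eq ?_) ?_)
  · split_ifs with c
    · rw [c, fc_one r0 hρ fun _ => 1]
      simp [card_erase_of_mem (mem_range.2 r0), Nat.cast_pred hp.out.pos, p1.ne']
    · rw [fc, ← Equiv.sum_comp (Equiv.inv (ZMod p))]
      simp [MulChar.sum_eq_zero_of_ne_one c]
  · rw [fc_eq r0 hρ fun t => φ t - k, norm_div, show (p : ℂ) - 1 = ((p - 1 : ℝ) : ℂ) by simp,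
      Complex.norm_real, Real.norm_of_nonneg p1.le]
    refine div_le_div_of_nonneg_right (norm_sum_le_of_le _ fun t _ => ?_) p1.le
    rw [norm_mul, Complex.norm_real]
    exact mul_le_of_le_one_right (abs_nonneg _) (χ.norm_le_one _)

end fc

variable {ι M S : Type} [Fintype ι] [DecidableEq ι] [Fintype M] [DecidableEq M]
  [Fintype S] [DecidableEq S] {q : S ⊕ M → ℕ} {ν l : M → ℝ} {κ : ℝ} {d : ℕ} {c : ι → ℕ}

lemma CC_Fr {m : ι} {y : (M → Option ι) → ℝ} {u : M → Option ι} (hu : CC ν m y u ≠ 0) :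
    u ∈ Fr m := by
  obtain ⟨r, _, hr⟩ := exists_ne_zero_of_sum_ne_zero hu
  refine mem_filter.2 ⟨mem_univ _, fun x hx => ?_⟩
  simpa [bb, hx] using prod_ne_zero_iff.1 (right_ne_zero_of_mul hr) x (mem_univ x)

lemma ph_bb {m : ι} {v n : ℝ} (h : v * (n - 1) = 1) {P : ι → Prop} (hP : ¬ P m) (a : Option ι) :
    ph n P a = ∑ c, bb m v a c * ph (n - 1) P c := by
  rw [Fintype.sum_option]
  cases a with
  | none => simp [ph, bb]
  | some i =>
    rw [sum_eq_single_of_mem i (mem_univ _) fun j _ hj => by simp [bb, hj.symm]]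
    by_cases b : i = m
    · simp [ph, bb, b, hP]
    · by_cases e : P i <;> simp [ph, bb, b, e]
      linarith

theorem Ar.lower (h : Ar q ν l κ d c) [∀ x, Fact (q x).Prime] (k0 : 0 ≤ κ) (m : ι) (g : ℕ)
    (hg : c m = d * g) (α : S → ℕ → ℝ)
    (ap : ∀ x, Function.Periodic (α x) (q (.inl x))) (a0 : ∀ x t, 0 ≤ α x t)
    (a1 : ∀ x, ∑ t ∈ range (q (.inl x)), α x t = q (.inl x)) (δ ω ζ : S → ℝ) {θ σ B η : ℝ}
    (a2 : ∀ x, ∃ k, ∑ t ∈ range (q (.inl x)), |α x t - k| ≤ q (.inl x) * δ x)
    (a3 : ∀ x, δ x ≤ ω x * (q (.inl x) : ℝ) ^ (-θ)) (a4 : ∀ x, 1 ≤ ω x) (a5 : ∀ x, 0 ≤ ζ x)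
    (a6 : ∀ x t, q (.inl x) ∣ t + g → ζ x * (q (.inl x) - 1) ≤ q (.inl x) - α x t)
    (hs : Real.exp (2 * Fintype.card ι * κ * σ) ≤ 3 / 2)
    (hv : ∏ x, (1 + Fintype.card ι * ν x ^ 2) ≤ 3 / 2) (hk : ∀ x, Fintype.card ι * ν x ≤ 1)
    (ht : ∀ x, 5 * (Fintype.card ι * ν x) ≤ (q (.inr x) : ℝ) ^ (-θ))
    (y : (M → Option ι) → ℝ) (hy : ∀ r, y r ≠ 0 → tot l r ≤ σ) (y0 : ∀ r, 0 ≤ y r)
    (y1 : ∀ r, y r ≤ B) (ya : ∀ r s, (∀ x, s x = r x ∨ s x = none) → y r ≤ y s)
    (E : Finset (S ⊕ M)) (hE : ∀ x ∈ E, x.elim (δ · = 0) (σ < l ·)) (a b : ℕ) (ga : g ≤ a)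
    (qa : ∀ x, q x < a) (bv : BV q E ((∏ x, (q (.inl x) : ℝ)) * Real.exp (2 * σ)) θ η a b) :
    (∏ x, ζ x) * ((∑ u ∈ Fr m, mu ν u * YY ν m y u ^ 2) / 8) * ∑ n ∈ Ico a b with n.Prime, Real.log n -
      (B * ∏ x, (1 + Fintype.card ι * ν x)) ^ 2 * (∏ x, q (.inl x) / (q (.inl x) - 1) * ω x) *
        (∏ x, (1 + 8 * (Fintype.card ι * ν x))) * η ≤ ∑ n ∈ Ico a b with n.Prime,
      (∏ x, α x (n - g)) * SS (fun x => q (.inr x)) ν d c y (n - g) ^ 2 * Real.log n := by
  classical
  set C := CC ν m y with hC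
  set φ : (M → Option ι) → (M → Option ι) → S ⊕ M → ℕ → ℝ := fun r s x t => x.elim (α · t)
    fun x => ph (q (.inr x) - 1) (fun i => q (.inr x) ∣ d * t + c i) (r x) *
      ph (q (.inr x) - 1) (fun i => q (.inr x) ∣ d * t + c i) (s x) with hφ
  set F : (M → Option ι) → (M → Option ι) → (x : S ⊕ M) → DirichletCharacter ℂ (q x) → ℂ :=
    fun u v x χ => fc (q x) (fun a => φ u v x (a - g).val) χ with hF
  set cf : Ch q → ℂ := fun ψ => ∑ u, ∑ v, (C u * C v : ℝ) * ∏ x, F u v x (ψ x) with hcf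
  have q1 : ∀ x, (0 : ℝ) < q x - 1 := fun x => sub_pos.2 (by exact_mod_cast (h.pr x).one_lt)
  have dv : ∀ x t, q (.inr x) ∣ d * t + c m ↔ q (.inr x) ∣ t + g := fun x t => by
    rw [hg, ← mul_add, (h.pr _).dvd_mul, or_iff_right (h.hd x)]
  choose ρ r1 r2 r3 using fun x => roots' (h.pr _) (h.hd x) h.ci (h.cp x)
  have r4 : ∀ x, ∀ t ∈ range (q (.inr x)), q (.inr x) ∣ t + g ↔ t = ρ x m := fun x t ht => by
    rw [← dv, r3 x t ht]
  choose τ t1 t2 using fun x => roots (d := 1) (h.pr (.inl x))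
    (by simpa using (h.pr _).one_lt.ne') fun _ : Unit => g
  have t3 : ∀ x, ∀ t ∈ range (q (.inl x)), q (.inl x) ∣ t + g ↔ t = τ x () := fun x t ht => by
    simpa using t2 x t ht ()
  have cd : ∀ x, (((range (q (.inr x))).erase (ρ x m)).card : ℝ) = q (.inr x) - 1 := fun x => by
    rw [card_erase_of_mem (mem_range.2 (r2 x m)), card_range, Nat.cast_pred (h.pr _).pos]
  have r5 : ∀ x, ∀ t ∈ (range (q (.inr x))).erase (ρ x m), ∀ i,
      q (.inr x) ∣ d * t + c i ↔ t = ρ x i := fun x t ht => r3 x t (mem_of_mem_erase ht)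
  have Cs := h.CC_supp m hy
  have e1 : ((∑ n ∈ Ico a b with n.Prime, (∏ x, α x (n - g)) *
      SS (fun x => q (.inr x)) ν d c y (n - g) ^ 2 * Real.log n : ℝ) : ℂ) =
      ∑ ψ, cf ψ * th q a b ψ := by
    simp only [th, mul_sum]
    rw [sum_comm, Complex.ofReal_sum]
    refine sum_congr rfl fun n hn => ?_
    obtain ⟨hn, np⟩ := mem_filter.1 hn
    have an := (mem_Ico.1 hn).1
    have nd : ∀ x, ¬ q x ∣ n := fun x hx => by
      have := (Nat.prime_dvd_prime_iff_eq (h.pr x) np).1 hx
      have := qa x; omega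
    simp only [← mul_assoc, ← sum_mul]
    rw [Complex.ofReal_mul, SS, CC_sum m y
      (fun x a => ph _ (fun i => q (.inr x) ∣ d * (n - g) + c i) a) (fun x a => ph _ _ a) fun x a =>
      ph_bb (h.nu x) (by rw [dv, Nat.sub_add_cancel (by omega)]; exact nd _) a]
    congr 1
    simp only [hcf, sum_mul, sq, sum_mul_sum]
    simp only [mul_sum, Complex.ofReal_sum]
    rw [eq_comm, sum_comm]
    refine sum_congr rfl fun u _ => sum_comm.trans (sum_congr rfl fun v _ => ?_)
    simp only [mul_assoc, ← mul_sum, hF]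
    rw [← expand q _ n fun x => by rw [Ne, ZMod.natCast_eq_zero_iff]; exact nd x,
      ← Complex.ofReal_mul, Complex.ofReal_inj, prod_congr rfl (g := fun x => φ u v x (n - g))
        fun x _ => ?_]
    · simp only [Fintype.prod_sum_type, hφ, Sum.elim_inl, Sum.elim_inr, prod_mul_distrib, hC]; ring
    · rw [← Nat.cast_sub (by omega), ZMod.val_natCast]
      refine Function.Periodic.map_mod_nat (f := φ u v x) (fun t => ?_) _
      cases x with
      | inl x => exact ap x t
      | inr x => simp only [hφ, Sum.elim_inr, ph_per]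
  set A : S → ℝ := fun x => (∑ t ∈ (range (q (.inl x))).erase (τ x ()), α x t) / (q (.inl x) - 1)
  have e2 : cf 1 = (((∏ x, A x) * ∑ u, ∑ v, C u * C v * ∏ x, mm (q (.inr x) - 1) (u x) (v x) : ℝ) : ℂ) := by
    simp only [hcf, mul_sum, Complex.ofReal_sum]
    refine sum_congr rfl fun u _ => sum_congr rfl fun v _ => ?_
    by_cases z : C u * C v = 0
    · simp [z]
    rw [mul_left_comm, Complex.ofReal_mul (C u * C v), Fintype.prod_sum_type,
      Complex.ofReal_mul (∏ x, A x), Complex.ofReal_prod, Complex.ofReal_prod]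
    congr 2
    · exact prod_congr rfl fun x _ => fc_one (t1 x ()) (t3 x) (α x)
    · refine prod_congr rfl fun x _ => (fc_one (r2 x m) (r4 x) (φ u v (.inr x))).trans ?_
      have w : ∀ u, C u ≠ 0 → ∀ i, u x = some i → ρ x i ∈ (range (q (.inr x))).erase (ρ x m) :=
        fun u hu i hi => mem_erase.2 ⟨fun e => (mem_filter.1 (CC_Fr hu)).2 x (by rw [hi, r1 x e]),
          mem_range.2 (r2 x i)⟩
      have := loc1 _ (r1 x) (r5 x) (u x) (v x) (w u (left_ne_zero_of_mul z))
        (w v (right_ne_zero_of_mul z))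
      rw [cd] at this
      simp only [hφ, Sum.elim_inr]
      rw [this, mul_div_cancel_left₀ _ (q1 _).ne']
  have e3 : th q a b 1 = ((∑ n ∈ Ico a b with n.Prime, Real.log n : ℝ) : ℂ) := by simp [th, ev]
  have FS : ∀ u v x χ, ‖F u v (.inl x) χ‖ ≤ q (.inl x) / (q (.inl x) - 1) *
      if χ = 1 then 1 else δ x := fun u v x χ => by
    split_ifs with b
    · refine (fc_le (t1 x ()) (t3 x) (α x) χ 0).trans ?_
      simp only [abs_zero, ite_self, zero_add, sub_zero, mul_one, abs_of_nonneg (a0 _ _)]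
      refine div_le_div_of_nonneg_right (le_trans ?_ (a1 x).le) (q1 _).le
      exact sum_le_sum_of_subset_of_nonneg (erase_subset _ _) fun _ _ _ => a0 _ _
    · obtain ⟨k, hk⟩ := a2 x
      refine (fc_le (t1 x ()) (t3 x) (α x) χ k).trans ?_
      rw [if_neg b, zero_add, div_mul_eq_mul_div]
      refine div_le_div_of_nonneg_right (le_trans ?_ hk) (q1 _).le
      exact sum_le_sum_of_subset_of_nonneg (erase_subset _ _) fun _ _ _ => abs_nonneg _
  set G : (x : M) → DirichletCharacter ℂ (q (.inr x)) → Option ι → Option ι → ℝ := fun x χ a b =>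
    (if χ = 1 then 1 else 0) + ((if a = none then 0 else 1) + (if b = none then 0 else 1) +
      if a = b then (if a = none then 0 else (q (.inr x) : ℝ) - 1) else 0) with hG
  have FM : ∀ u v x χ, ‖F u v (.inr x) χ‖ ≤ G x χ (u x) (v x) := fun u v x χ => by
    refine (fc_le (r2 x m) (r4 x) (φ u v (.inr x)) χ 1).trans (add_le_add (by simp) ?_)
    rw [div_le_iff₀ (q1 _)]
    refine (loc2 _ (r1 x) (r5 x) (q1 _).le (u x) (v x)).trans_eq ?_
    split_ifs <;> ring
  have := bv cf ((B * ∏ x, (1 + Fintype.card ι * ν x)) ^ 2 *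
    (∏ x, q (.inl x) / (q (.inl x) - 1) * ω x) * (∏ x, (1 + 8 * (Fintype.card ι * ν x))))
    (fun ψ => ?_) fun ψ hψ => ?_
  · rw [← e1, e2, e3, ← Complex.ofReal_mul, ← Complex.ofReal_sub, Complex.norm_real] at this
    refine le_trans (sub_le_sub_right (mul_le_mul_of_nonneg_right (mul_le_mul
      (prod_le_prod (fun x _ => a5 x) fun x _ => ?_) ?_ ?_ ?_) ?_) _)
      (sub_le_comm.1 (by rw [← neg_sub]; exact neg_le.1 (neg_le_of_abs_le this)))
    · rw [le_div_iff₀ (q1 _), sum_erase_eq_sub (mem_range.2 (t1 x ())), a1]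
      exact a6 x _ ((t3 x _ (mem_range.2 (t1 x ()))).2 rfl)
    · have q2 := neg_le_of_abs_le (h.quad' k0 (fun x => q (.inr x) - 1) (fun x => le_rfl) hs C Cs)
      have q3 : ∀ x, 0 ≤ (q (.inr x) : ℝ) - 1 - 1 := fun x => by linarith [h.q3 x]
      have D0 : ∀ u : M → Option ι, 0 ≤ ∏ x, if u x = none then 1 else (q (.inr x) : ℝ) - 1 - 1 :=
        fun u => prod_nonneg fun x _ => by split_ifs; exacts [zero_le_one, q3 x]
      suffices (∑ u ∈ Fr m, mu ν u * YY ν m y u ^ 2) / 4 ≤
        ∑ u, C u ^ 2 * ∏ x, if u x = none then 1 else (q (.inr x) : ℝ) - 1 - 1 by linarith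
      rw [sum_div]
      refine (sum_le_sum fun u hu => ?_).trans (sum_le_sum_of_subset_of_nonneg (subset_univ (Fr m))
        fun u _ _ => mul_nonneg (sq_nonneg _) (D0 u))
      have Y0 : 0 ≤ YY ν m y u := sum_nonneg fun e _ => mul_nonneg (h.p0 e).le (y0 _)
      have m0 := h.mu0 u
      have P0 : 0 ≤ ∏ x, if u x = none then 1 else 1 + ν x :=
        prod_nonneg fun x _ => by have := h.n0 x; positivity
      refine le_trans ?_ (mul_le_mul_of_nonneg_right (pow_le_pow_left₀ (by positivity)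
        (h.CC_ge m y0 ya hv hu) 2) (D0 u))
      have : 1 ≤ mu ν u * (∏ x, if u x = none then 1 else 1 + ν x) ^ 2 *
          ∏ x, if u x = none then 1 else (q (.inr x) : ℝ) - 1 - 1 := by
        rw [mu, ← prod_pow, ← prod_mul_distrib, ← prod_mul_distrib]
        refine one_le_prod fun x _ => ?_
        split_ifs
        · simp
        · have n := h.n0 x
          have := (h.nk x).trans h.k2
          rw [mul_right_comm, mul_sub (ν x), h.nu]
          nlinarith [mul_pos n n, mul_pos n (mul_pos n n)]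
      nlinarith [mul_le_mul_of_nonneg_left this (mul_nonneg m0.le (sq_nonneg (YY ν m y u)))]
    · exact div_nonneg (sum_nonneg fun u _ => mul_nonneg (h.mu0 u).le (sq_nonneg _)) (by norm_num)
    · exact prod_nonneg fun x _ => div_nonneg (sum_nonneg fun _ _ => a0 _ _) (q1 _).le
    · exact sum_nonneg fun n _ => Real.log_natCast_nonneg n
  · set W := B * ∏ x, (1 + Fintype.card ι * ν x)
    have CW := h.CC_abs m (h.k2.trans (by norm_num)) fun r => (abs_of_nonneg (y0 r)).trans_le (y1 r)
    have W0 : 0 ≤ W := mul_nonneg ((y0 fun _ => none).trans (y1 _))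
      (prod_nonneg fun x _ => by have := h.n0 x; positivity)
    have G0 : ∀ x χ a b, 0 ≤ G x χ a b := fun x χ a b => by
      have := q1 (.inr x); simp only [hG]; positivity
    have i0 : ∀ x, 0 ≤ if ψ x = 1 then 1 else (q x : ℝ) ^ (-θ) := fun x => by positivity
    have S0 : ∀ x, 0 ≤ q (.inl x) / (q (.inl x) - 1) * ω x := fun x => by
      have := q1 (.inl x); have := a4 x; positivity
    set PS := ∏ x, q (.inl x) / (q (.inl x) - 1) * ω x *
      if ψ (.inl x) = 1 then 1 else (q (.inl x) : ℝ) ^ (-θ) with hPS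
    have PS0 : 0 ≤ PS := prod_nonneg fun x _ => mul_nonneg (S0 x) (i0 _)
    refine (norm_sum_le_of_le _ fun u _ => norm_sum_le_of_le (n := fun v : M → Option ι => W ^ 2 * PS *
      ∏ x, (if u x = none then 1 else ν x) * ((if v x = none then 1 else ν x) *
        G x (ψ (.inr x)) (u x) (v x))) _ fun v _ => ?_).trans ?_
    · rw [norm_mul, Complex.norm_real, Real.norm_eq_abs, abs_mul, norm_prod, Fintype.prod_sum_type]
      refine (mul_le_mul (mul_le_mul (CW u) (CW v) (abs_nonneg _) (mul_nonneg W0 (h.mu0 u).le))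
        (mul_le_mul (b := PS) (prod_le_prod (fun _ _ => norm_nonneg _) fun x _ => (FS u v x _).trans ?_)
          (prod_le_prod (fun _ _ => norm_nonneg _) fun x _ => FM u v x _) (by positivity) PS0)
        (by positivity) (mul_nonneg (mul_nonneg W0 (h.mu0 u).le)
          (mul_nonneg W0 (h.mu0 v).le))).trans_eq ?_
      · rw [mul_assoc]
        refine mul_le_mul_of_nonneg_left ?_ (div_nonneg (by positivity) (q1 _).le)
        split_ifs
        exacts [by simpa using a4 x, a3 x]
      · simp only [prod_mul_distrib, mu]; ring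
    · simp only [← mul_sum]
      have e : cond q ψ ^ (-θ) = ∏ x, if ψ x = 1 then 1 else (q x : ℝ) ^ (-θ) := by
        rw [cond, ← Real.finset_prod_rpow _ _ fun x _ => by positivity]
        exact prod_congr rfl fun x _ => by split_ifs <;> simp
      have : ∑ u : M → Option ι, ∑ v : M → Option ι, ∏ x, (if u x = none then 1 else ν x) *
          ((if v x = none then 1 else ν x) * G x (ψ (.inr x)) (u x) (v x)) ≤
          ∏ x, (1 + 8 * (Fintype.card ι * ν x)) *
            if ψ (.inr x) = 1 then 1 else (q (.inr x) : ℝ) ^ (-θ) := by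
        refine le_trans (le_of_eq ?_) (prod_le_prod (f := fun x => ∑ a, ∑ b,
          (if a = none then 1 else ν x) * ((if b = none then 1 else ν x) * G x (ψ (.inr x)) a b))
          (fun x _ => sum_nonneg fun a _ => sum_nonneg fun b _ => by
            have := h.n0 x; have := G0 x (ψ (.inr x)) a b; positivity) fun x _ => ?_)
        · simp only [prod_univ_sum, Fintype.piFinset_univ]
        · have n := h.n0 x
          have k := hk x
          have t := ht x
          have u := h.nu x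
          have k' : 0 ≤ Fintype.card ι * ν x := by positivity
          simp only [hG, Fintype.sum_option, reduceCtorEq, if_true, if_false, mul_add,
            sum_add_distrib, Option.some.injEq, mul_ite, mul_zero, sum_ite_eq, mem_univ, sum_const,
            card_univ, nsmul_eq_mul, u]
          split_ifs <;> nlinarith [mul_nonneg k' ((by linarith : 0 ≤ 5 * (Fintype.card ι * ν x)).trans t)]
      refine (mul_le_mul_of_nonneg_left this (by positivity)).trans_eq ?_
      simp only [e, Fintype.prod_sum_type, hPS, prod_mul_distrib]; ring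
  · obtain ⟨u, _, hu⟩ := exists_ne_zero_of_sum_ne_zero hψ
    obtain ⟨v, _, hv⟩ := exists_ne_zero_of_sum_ne_zero hu
    have z := Complex.ofReal_ne_zero.1 (left_ne_zero_of_mul hv)
    have tu := Cs u (left_ne_zero_of_mul z)
    have tv := Cs v (right_ne_zero_of_mul z)
    have nz := fun x => norm_pos_iff.2 (prod_ne_zero_iff.1 (right_ne_zero_of_mul hv) x (mem_univ x))
    have w : ∀ x, u x = none → v x = none → ψ (.inr x) = 1 := fun x a b => by
      by_contra e
      simpa [hG, a, b, e] using (nz _).trans_le (FM u v x _)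
    have l0 : ∀ (u : M → Option ι) x, 0 ≤ if u x = none then 0 else l x := fun u x => by
      have := h.l1 x; split_ifs <;> linarith
    refine ⟨?_, fun x hx => ?_⟩
    · rw [cond, Fintype.prod_sum_type]
      refine mul_le_mul (prod_le_prod (fun x _ => by positivity) fun x _ => ?_) (le_trans ?_
        (Real.exp_le_exp.2 (show tot l u + tot l v ≤ _ by linarith))) (by positivity) (by positivity)
      · split_ifs; exacts [q_one q _, le_rfl]
      · rw [tot, tot, ← sum_add_distrib, Real.exp_sum]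
        refine prod_le_prod (fun x _ => by positivity) fun x _ => ?_
        have := l0 u x; have := l0 v x
        by_cases e : ψ (.inr x) = 1
        · rw [if_pos e]; exact Real.one_le_exp (by linarith)
        · rw [if_neg e, ← Real.log_le_iff_le_exp (by linarith [q1 (.inr x)])]
          have := h.lg x
          split_ifs at * <;> first | linarith | exact absurd (w x ‹_› ‹_›) e
    · have := hE x hx
      cases x with
      | inl x =>
        by_contra e
        simpa [e, show δ x = 0 from this] using (nz _).trans_le (FS u v x _)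
      | inr x =>
        have s : ∀ u : M → Option ι, tot l u ≤ σ → u x = none := fun u hu => by
          by_contra e
          have := single_le_sum (fun x _ => l0 u x) (mem_univ x)
          rw [if_neg e] at this
          exact absurd (this.trans hu) (not_le.2 ‹_›)
        exact w x (s u tu) (s v tv)

end Pool.Agent.H59.MT
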