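import Mathlib
import Pool.Agent.H59.MT7

/-! The choice of weights. -/

set_option autoImplicit false
set_option linter.unusedSectionVars false

namespace Pool.Agent.H59.MT

open Finset

variable {ι M : Type} [Fintype ι] [DecidableEq ι] [Fintype M] [DecidableEq M] {ν l : M → ℝ} {κ : ℝ}

/-- Cutoff. -/
noncomputable def chi (τ t : ℝ) : ℝ := if t ≤ τ then 1 else 0

lemma chi0 (τ t : ℝ) : 0 ≤ chi τ t := by unfold chi; positivity

lemma chi_anti (τ : ℝ) : Antitone (chi τ) := fun s t h => by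
  unfold chi; split_ifs <;> first | simp | linarith

lemma chi_supp (τ t : ℝ) (h : chi τ t ≠ 0) : t ≤ τ := by by_contra c; exact h (if_neg c)

lemma chi_sq (τ : ℝ) : (fun t => chi τ t ^ 2) = chi τ := by funext t; simp [chi]

lemma aa_sum {J : Type} (B : Finset M) (s : Finset J) (a : J → ℝ) (f : J → ℝ → ℝ) :
    aa ν l B (fun t => ∑ j ∈ s, a j * f j t) = ∑ j ∈ s, a j * aa ν l B (f j) := by
  simp only [aa, mul_sum]
  rw [sum_comm]
  exact sum_congr rfl fun _ _ => sum_congr rfl fun _ _ => by ring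

lemma aa_mul (B : Finset M) (a : ℝ) (f : ℝ → ℝ) : aa ν l B (fun t => a * f t) = a * aa ν l B f := by
  simp only [aa, mul_sum, mul_left_comm]

lemma Std.H_up (h : Std ν l κ) (B : Finset M) (t : ℝ) (hB : ∀ x, l x ≤ t → x ∈ B) :
    aa ν l univ (chi t) ≤ ∏ x ∈ B, (1 + ν x) := by
  rw [prod_one_add, aa, ← sum_subset (powerset_mono.2 (subset_univ B)) fun e _ he => ?_]
  · exact sum_le_sum fun e _ => mul_le_of_le_one_right (h.p0 e).le (by unfold chi; split_ifs <;> simp)
  · obtain ⟨x, hx, xb⟩ := not_subset.1 (mt mem_powerset.2 he)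
    rw [chi, if_neg fun c => xb (hB x (le_trans ?_ c)), mul_zero]
    exact single_le_sum (fun x _ => zero_le_one.trans (h.l1 x)) hx

lemma Std.H_low (h : Std ν l κ) (B : Finset M) {t : ℝ} (t0 : 0 < t)
    (hB : ∑ x ∈ B, l x * ν x ≤ t / 2) : (∏ x ∈ B, (1 + ν x)) / 2 ≤ aa ν l univ (chi t) := by
  have a : ∀ B : Finset M, aa ν l B (fun _ => 1) = ∏ x ∈ B, (1 + ν x) := fun B => by
    simp [aa, prod_one_add]
  have p : ∀ B : Finset M, 0 ≤ ∏ x ∈ B, (1 + ν x) := fun B =>
    prod_nonneg fun x _ => by linarith [h.n0 x]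
  have b : ∀ B : Finset M, aa ν l B id ≤ (∏ x ∈ B, (1 + ν x)) * ∑ x ∈ B, l x * ν x := fun B => by
    induction B using Finset.induction_on with
    | empty => simp [aa]
    | insert x B hx ih =>
      have e : aa ν l B (fun t => id (l x + t)) = l x * ∏ x ∈ B, (1 + ν x) + aa ν l B id := by
        rw [← a, ← aa_mul]; simp only [aa, ← sum_add_distrib, id]
        exact sum_congr rfl fun _ _ => by ring
      rw [aa_ins hx, e, prod_insert hx, sum_insert hx]
      have n := h.n0 x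
      nlinarith [mul_le_mul_of_nonneg_left ih n.le, mul_nonneg (mul_nonneg (p B) (mul_pos n n).le)
        (zero_le_one.trans (h.l1 x))]
  have c := h.aa_mono (subset_univ B) (f := fun s => 1 - t⁻¹ * s) (chi0 t) fun s hs => by
    unfold chi; split_ifs with c
    · have : 0 ≤ t⁻¹ * s := by positivity
      linarith
    · rw [sub_nonpos, le_inv_mul_iff₀ t0]; linarith
  have e : aa ν l B (fun s => 1 - t⁻¹ * s) = ∏ x ∈ B, (1 + ν x) - t⁻¹ * aa ν l B id := by
    rw [← a, ← aa_mul]; simp only [aa, ← sum_sub_distrib, id]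
    exact sum_congr rfl fun _ _ => by ring
  have := (b B).trans (mul_le_mul_of_nonneg_left hB (p B))
  have : t⁻¹ * aa ν l B id ≤ (∏ x ∈ B, (1 + ν x)) / 2 := by rw [inv_mul_le_iff₀ t0]; linarith
  linarith

/-- The one dimensional profile. -/
noncomputable def gg (J : ℕ) (u t : ℝ) : ℝ := ∑ j ∈ range J, (1 / 2) ^ j * chi (u * 2 ^ j) t

lemma gg0 (J : ℕ) (u t : ℝ) : 0 ≤ gg J u t := sum_nonneg fun _ _ => mul_nonneg (by positivity) (chi0 _ _)

lemma gg_anti (J : ℕ) (u : ℝ) : Antitone (gg J u) := fun _ _ h =>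
  sum_le_sum fun _ _ => mul_le_mul_of_nonneg_left (chi_anti _ h) (by positivity)

lemma gg_ge {J : ℕ} (hJ : 1 ≤ J) (u t : ℝ) : chi u t ≤ gg J u t := by
  simpa [gg] using single_le_sum (f := fun j => (1 / 2 : ℝ) ^ j * chi (u * 2 ^ j) t)
    (fun _ _ => mul_nonneg (by positivity) (chi0 _ _)) (mem_range.2 hJ)

lemma gg_le (J : ℕ) (u t : ℝ) : gg J u t = 0 ∨ ∃ i < J, t ≤ u * 2 ^ i ∧ gg J u t ≤ 2 * (1 / 2) ^ i := by
  by_cases h : ∃ i < J, t ≤ u * 2 ^ i
  · refine Or.inr ⟨_, (Nat.find_spec h).1, (Nat.find_spec h).2, ?_⟩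
    refine le_trans ?_ ((geom_sum_Ico_le_of_lt_one (m := Nat.find h) (n := J) (x := (1 / 2 : ℝ))
      (by norm_num) (by norm_num)).trans_eq (by ring))
    rw [gg, ← sum_subset (s₁ := Ico (Nat.find h) J) (fun j hj => mem_range.2 (mem_Ico.1 hj).2)
      fun j hj hn => ?_]
    · exact sum_le_sum fun j _ => mul_le_of_le_one_right (by positivity)
        (by unfold chi; split_ifs <;> simp)
    · rw [chi, if_neg fun c => hn (mem_Ico.2 ⟨Nat.find_min' h ⟨mem_range.1 hj, c⟩, mem_range.1 hj⟩),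
        mul_zero]
  · exact Or.inl (sum_eq_zero fun j hj => by
      rw [chi, if_neg fun c => h ⟨j, mem_range.1 hj, c⟩, mul_zero])

lemma gg_two (J : ℕ) (u t : ℝ) : gg J u t ≤ 2 := by
  obtain h | ⟨i, _, _, h⟩ := gg_le J u t
  · linarith
  · linarith [pow_le_one₀ (n := i) (show (0 : ℝ) ≤ 1 / 2 by norm_num) (by norm_num)]

lemma gg_supp (J : ℕ) {u : ℝ} (u0 : 0 ≤ u) (t : ℝ) (h : gg J u t ≠ 0) : t ≤ u * 2 ^ J := by
  obtain ⟨i, a, b, _⟩ := (gg_le J u t).resolve_left h
  exact b.trans (by gcongr; norm_num)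

lemma gg_mul (J : ℕ) {u : ℝ} (u0 : 0 ≤ u) (t : ℝ) : t * gg J u t ≤ 2 * u := by
  obtain h | ⟨i, _, a, h⟩ := gg_le J u t
  · rw [h]; linarith
  · refine (mul_le_mul a h (gg0 _ _ _) (by positivity)).trans_eq ?_
    rw [mul_mul_mul_comm, ← mul_pow]; norm_num; ring

lemma gg_sq (J : ℕ) (u t : ℝ) :
    gg J u t ^ 2 ≤ ∑ j ∈ range J, 4 * (1 / 4) ^ j * chi (u * 2 ^ j) t := by
  have z : ∀ j ∈ range J, 0 ≤ 4 * (1 / 4) ^ j * chi (u * 2 ^ j) t := fun _ _ =>
    mul_nonneg (by positivity) (chi0 _ _)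
  obtain h | ⟨i, a, b, h⟩ := gg_le J u t
  · simpa [h] using sum_nonneg z
  · refine le_trans ?_ (single_le_sum z (mem_range.2 a))
    refine (pow_le_pow_left₀ (gg0 _ _ _) h 2).trans_eq ?_
    rw [chi, if_pos b, mul_pow, ← pow_mul, mul_comm i, pow_mul]; norm_num

lemma Std.G (h : Std ν l κ) {J : ℕ} (hJ : 1 ≤ J) {u V C : ℝ} (u0 : 0 < u) (V0 : 0 < V) (C0 : 0 ≤ C)
    (hH : ∀ t, u ≤ t → t ≤ u * 2 ^ J → V * t ≤ aa ν l univ (chi t) ∧ aa ν l univ (chi t) ≤ C * V * t) :
    J * V * u ≤ aa ν l univ (gg J u) ∧ aa ν l univ (fun t => gg J u t ^ 2) ≤ 8 * C * V * u ∧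
      aa ν l univ (fun t => t * gg J u t ^ 2) ≤
        2 * C * J * u * aa ν l univ (fun t => gg J u t ^ 2) := by
  have a : ∀ j ∈ range J, _ := fun j hj => hH (u * 2 ^ j) (le_mul_of_one_le_right u0.le
    (one_le_pow₀ one_le_two)) (by gcongr; exacts [one_le_two, (mem_range.1 hj).le])
  have e : ∀ j : ℕ, (1 / 2 : ℝ) ^ j * 2 ^ j = 1 := fun j => by rw [← mul_pow]; norm_num
  have g : aa ν l univ (gg J u) = _ := aa_sum univ (range J) _ _
  refine ⟨?_, ?_, ?_⟩
  · rw [g, mul_assoc, ← card_range J, ← nsmul_eq_mul, card_range]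
    refine le_trans (by simp) (card_nsmul_le_sum _ _ (V * u) fun j hj => le_trans (le_of_eq ?_)
      (mul_le_mul_of_nonneg_left (a j hj).1 (by positivity)))
    linear_combination -(V * u) * e j
  · refine (h.aa_mono Subset.rfl (fun t => (sq_nonneg _).trans (gg_sq J u t))
      fun t _ => gg_sq J u t).trans ?_
    rw [aa_sum]
    refine (sum_le_sum (g := fun j => 4 * C * V * u * (1 / 2) ^ j) fun j hj =>
      (mul_le_mul_of_nonneg_left (a j hj).2 (by positivity)).trans_eq ?_).trans ?_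
    · rw [show (1 / 4 : ℝ) = 1 / 2 * (1 / 2) by norm_num, mul_pow]
      linear_combination 4 * C * V * u * (1 / 2) ^ j * e j
    · rw [← mul_sum]
      exact (mul_le_mul_of_nonneg_left (sum_geometric_two_le J) (by positivity)).trans_eq (by ring)
  · have b : aa ν l univ (gg J u) ≤ J * (C * V * u) := by
      rw [g, ← nsmul_eq_mul]
      refine (sum_le_card_nsmul _ _ (C * V * u) fun j hj => (mul_le_mul_of_nonneg_left (a j hj).2
        (by positivity)).trans_eq ?_).trans (by simp)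
      linear_combination (C * V * u) * e j
    have c : V * u ≤ aa ν l univ (fun t => gg J u t ^ 2) := by
      refine (hH u le_rfl (le_mul_of_one_le_right u0.le (one_le_pow₀ one_le_two))).1.trans ?_
      rw [← chi_sq]
      exact h.aa_mono Subset.rfl (fun _ => sq_nonneg _) fun t _ =>
        pow_le_pow_left₀ (chi0 _ _) (gg_ge hJ u t) 2
    refine (h.aa_mono Subset.rfl (g := fun t => 2 * u * gg J u t) (fun t => mul_nonneg
      (by positivity) (gg0 _ _ _)) fun t _ => ?_).trans ?_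
    · rw [sq, ← mul_assoc]; exact mul_le_mul_of_nonneg_right (gg_mul J u0.le t) (gg0 _ _ _)
    · rw [aa_mul]
      calc _ ≤ 2 * u * (J * (C * V * u)) := by gcongr
        _ = 2 * C * J * u * (V * u) := by ring
        _ ≤ _ := by gcongr

variable (l) in
/-- The weights. -/
noncomputable def yy (f : ι → ℝ → ℝ) (σ : ℝ) (r : M → Option ι) : ℝ :=
  if tot l r ≤ σ then ∏ i, f i (sz l i r) else 0

lemma yy_dom {f : ι → ℝ → ℝ} (f0 : ∀ i t, 0 ≤ f i t) (σ : ℝ) : Dom l (yy l f σ) 1 f σ := fun r => by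
  have := prod_nonneg fun i (_ : i ∈ univ) => f0 i (sz l i r)
  unfold yy; split_ifs with h <;> simp [*]

lemma Std.yy_anti (h : Std ν l κ) {f : ι → ℝ → ℝ} (f0 : ∀ i t, 0 ≤ f i t) (fa : ∀ i, Antitone (f i))
    (σ : ℝ) (r s : M → Option ι) (e : ∀ x, s x = r x ∨ s x = none) : yy l f σ r ≤ yy l f σ s := by
  have a : ∀ i, sz l i s ≤ sz l i r := fun i => sum_le_sum fun x _ => by
    have := h.l1 x
    rcases e x with e | e <;> simp only [e, reduceCtorEq, if_false, le_refl]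
    split_ifs <;> linarith
  by_cases c : tot l r ≤ σ
  · rw [yy, yy, if_pos c, if_pos (le_trans (by
      rw [tot_eq, tot_eq]; exact sum_le_sum fun i _ => a i) c)]
    exact prod_le_prod (fun _ _ => f0 _ _) fun i _ => fa i (a i)
  · rw [yy, if_neg c]; exact (yy_dom f0 σ s).1

lemma prod_up (A : (ℝ → ℝ) → ℝ) (f : ι → ℝ → ℝ) (m : ι) (χ : ℝ → ℝ) :
    ∏ i, A (Function.update f m χ i) = A χ * ∏ i ∈ univ.erase m, A (f i) := by
  rw [← mul_prod_erase _ _ (mem_univ m), Function.update_self,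
    prod_congr rfl fun i hi => by rw [Function.update_of_ne (ne_of_mem_erase hi)]]

lemma Std.low (h : Std ν l κ) (k0 : 0 ≤ κ) {f : ι → ℝ → ℝ} {τ σ γ : ℝ} (t0 : 0 ≤ τ)
    (f0 : ∀ i, (∀ t, 0 ≤ f i t) ∧ Antitone (f i) ∧ ∀ t, f i t ≠ 0 → t ≤ τ) (ts : τ ≤ σ / 2)
    (s0 : 0 < σ) (g0 : 0 ≤ γ)
    (hγ : ∀ j, aa ν l univ (fun t => t * f j t ^ 2) ≤ γ * aa ν l univ fun t => f j t ^ 2)
    (kg : Fintype.card ι * γ ≤ σ / 8) (e1 : Real.exp (κ * σ) ≤ 2)
    (e2 : Real.exp (κ * (Fintype.card ι * τ)) ^ Fintype.card ι ≤ 2) (m : ι) :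
    aa ν l univ (f m) ^ 2 * (∏ i ∈ univ.erase m, aa ν l univ fun t => f i t ^ 2) / 16 ≤
      ∑ u ∈ Fr m, mu ν u * YY ν m (yy l f σ) u ^ 2 := by
  set F : ι → ℝ → ℝ := fun i t => f i t ^ 2 with hF
  set P := ∏ i ∈ univ.erase m, aa ν l univ (F i) with hP
  have A0 : ∀ i, 0 ≤ aa ν l univ (F i) := fun i => (sq_nonneg _).trans (h.aa0 _ fun _ => sq_nonneg _)
  have w1 := h.WW_ge k0 τ t0 (Function.update F m d0) fun i => by
    by_cases a : i = m
    · rw [a, Function.update_self]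
      exact ⟨d0_nonneg, d0_anti, fun t ht => by by_contra c; exact ht (if_neg (by linarith))⟩
    · rw [Function.update_of_ne a]
      exact ⟨fun _ => sq_nonneg _, fun s t e => pow_le_pow_left₀ ((f0 i).1 _) ((f0 i).2.1 e) 2,
        fun t ht => (f0 i).2.2 t fun c => ht (by simp [hF, c])⟩
  rw [prod_up (aa ν l univ), h.aa_d0, one_mul, h.WW_up] at w1
  have z : ∀ u : M → Option ι, 0 ≤ mu ν u * ∏ i ∈ univ.erase m, F i (sz l i u) := fun u =>
    mul_nonneg (h.mu0 u).le (prod_nonneg fun _ _ => sq_nonneg _)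
  replace w1 := w1.trans (mul_le_mul_of_nonneg_right e2 (sum_nonneg fun u _ => z u))
  have w2 : ∑ u ∈ Fr m, (mu ν u * ∏ i ∈ univ.erase m, F i (sz l i u)) * tot l u ≤ σ / 8 * P := by
    have P0 : 0 ≤ P := prod_nonneg fun i _ => A0 i
    refine le_trans ?_ (mul_le_mul_of_nonneg_right kg P0)
    simp only [tot_eq, mul_sum]
    rw [sum_comm, mul_assoc, ← nsmul_eq_mul]
    refine sum_le_card_nsmul _ _ _ fun j _ => ?_
    by_cases a : j = m
    · rw [sum_eq_zero fun u hu => by simp [a, sz, (mem_filter.1 hu).2]]; positivity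
    have jm : j ∈ univ.erase m := by simp [a]
    have := h.WW_le (Function.update (Function.update F j fun t => t * F j t) m d0) fun i t ht => by
      by_cases a : i = m
      · simp [a, d0_nonneg]
      · by_cases b : i = j <;> simp [a, b, hF, ‹¬ j = m›] <;> positivity
    rw [prod_up (aa ν l univ), h.aa_d0, one_mul, h.WW_up, ← mul_prod_erase _ _ jm,
      Function.update_self, prod_congr (s₁ := (univ.erase m).erase j) rfl fun i hi => by
        rw [Function.update_of_ne (ne_of_mem_erase hi)]] at this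
    refine (sum_congr rfl fun u _ => ?_).trans_le (this.trans ?_)
    · rw [← mul_prod_erase _ _ jm, ← mul_prod_erase _ _ jm, Function.update_self,
        prod_congr (s₁ := (univ.erase m).erase j) (f := fun i => Function.update F j _ i _) rfl
          fun i hi => by rw [Function.update_of_ne (ne_of_mem_erase hi)]]
      ring
    · rw [hP, ← mul_prod_erase _ _ jm, ← mul_assoc]
      exact mul_le_mul_of_nonneg_right (hγ j) (prod_nonneg fun i _ => A0 i)
  set G := aa ν l univ (f m)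
  have G0 : 0 ≤ G := ((f0 m).1 0).trans (h.aa0 _ (f0 m).1)
  have w3 : ∑ u ∈ Fr m, G ^ 2 / 4 * ((mu ν u * ∏ i ∈ univ.erase m, F i (sz l i u)) -
      2 / σ * ((mu ν u * ∏ i ∈ univ.erase m, F i (sz l i u)) * tot l u)) ≤
      ∑ u ∈ Fr m, mu ν u * YY ν m (yy l f σ) u ^ 2 := sum_le_sum fun u hu => by
    have tu : 0 ≤ tot l u := by rw [tot_eq]; exact sum_nonneg fun i _ => h.sz0 i u
    have m0 := h.mu0 u
    by_cases c : tot l u ≤ σ / 2
    · have p0 : 0 ≤ ∏ i ∈ univ.erase m, f i (sz l i u) := prod_nonneg fun i _ => (f0 i).1 _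
      have e : YY ν m (yy l f σ) u = (∏ i ∈ univ.erase m, f i (sz l i u)) * aa ν l (fr u) (f m) := by
        rw [YY, aa, mul_sum]
        refine sum_congr rfl fun e he => ?_
        rw [yy, prod_sz hu he, tot_ad l he]
        split_ifs with b
        · ring
        · rw [show f m (∑ x ∈ e, l x) = 0 by by_contra d; linarith [(f0 m).2.2 _ d]]; ring
      have a := (h.cmp k0 (show tot l u ≤ σ by linarith) (f0 m).1 (f0 m).2.1).trans
        (mul_le_mul_of_nonneg_right e1 (((f0 m).1 0).trans (h.aa0 _ (f0 m).1)))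
      have b := mul_le_mul_of_nonneg_left (pow_le_pow_left₀ G0 a 2) (z u)
      have : 0 ≤ G ^ 2 / 4 * (2 / σ * ((mu ν u * ∏ i ∈ univ.erase m, F i (sz l i u)) * tot l u)) := by
        have := z u; positivity
      rw [e, mul_pow, ← prod_pow]
      linarith
    · refine le_trans (mul_nonpos_of_nonneg_of_nonpos (by positivity) ?_) (by positivity)
      rw [mul_left_comm, sub_nonpos]
      refine le_mul_of_one_le_right (z u) ?_
      rw [div_mul_eq_mul_div, one_le_div s0]; linarith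
  rw [← mul_sum, sum_sub_distrib, ← mul_sum] at w3
  have w4 := mul_le_mul_of_nonneg_left w2 (show 0 ≤ 2 / σ by positivity)
  rw [show 2 / σ * (σ / 8 * P) = P / 4 by field_simp; ring] at w4
  refine le_trans ?_ w3
  nlinarith [sq_nonneg G]

end Pool.Agent.H59.MT
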