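import Mathlib
import Pool.Agent.H59.MT10
import Pool.Agent.H59.MT11

/-! The abstract form of the moment estimates. -/

set_option autoImplicit false
set_option linter.unusedSectionVars false

namespace Pool.Agent.H59.MT

open Finset

variable {ι M S : Type} [Fintype ι] [DecidableEq ι] [Fintype M] [DecidableEq M]
  [Fintype S] [DecidableEq S] {q : S ⊕ M → ℕ} {ν l : M → ℝ} {κ : ℝ} {d : ℕ}

lemma e3 {t : ℝ} (h : t ≤ 1 / 3) : Real.exp t ≤ 3 / 2 :=
  (Real.exp_le_exp.2 h).trans ((Real.exp_bound_div_one_sub_of_interval (by norm_num)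
    (by norm_num)).trans (by norm_num))

lemma Std.SS_TT (h : Std ν l κ) (p : M → ℕ) (c : ι → ℕ) (m : ι) {τ : ℝ} (t0 : 0 ≤ τ)
    (y : (M → Option ι) → ℝ) (t : ℕ) (ht : ∀ x, ¬ p x ∣ d * t + c m) :
    SS p ν d c (TT ν l m (chi τ) y) t = SS p ν d c y t :=
  h.TT_sum m (chi0 τ) (by simp [chi, t0]) y (fun x a => ph (p x) (fun i => p x ∣ d * t + c i) a)
    (fun x => rfl) fun x => by simp [ph, ht x]

lemma pp_up (A : (ℝ → ℝ) → ℝ) (f : ι → ℝ → ℝ) (m : ι) (χ : ℝ → ℝ) :
    (∏ i, A (Function.update f m χ i)) * A (f m) = A χ * ∏ i, A (f i) := by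
  rw [prod_up, ← mul_prod_erase _ _ (mem_univ m)]; ring

/-- Offsets. -/
def cc (d : ℕ) (g : ι → ℕ) (j : ℕ) (i : Option ι) : ℕ := i.elim j fun i => d * g i

theorem acore [∀ x, Fact (q x).Prime] (g : ι → ℕ) (h : Ar q ν l κ d (cc d g 0)) (k0 : 0 ≤ κ)
    {J N : ℕ} {K σ V C u x ε θ η Z : ℝ} (hK : K = Fintype.card (Option ι)) (hJ : 1 ≤ J)
    (JK : 2 ^ J ≤ K) (s1 : 1 ≤ σ) (V0 : 0 < V) (C1 : 1 ≤ C) (hu : u = σ / (16 * C * J * K))
    (hH : ∀ t, u ≤ t → t ≤ σ → V * t ≤ aa ν l univ (chi t) ∧ aa ν l univ (chi t) ≤ C * V * t)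
    (sm : 18 * K ^ 2 * κ * σ ≤ 1) (sn : ∑ x, ν x ≤ σ) (N0 : 0 < N) (x0 : 0 < x) (e0 : ε ≤ 1 / 2)
    (he : 2 * (∏ x, (q (.inl x) : ℝ)) ^ 2 * Real.exp (18 * σ) * ∏ x, (1 + K * ν x) ≤ ε * N)
    (α : S → ℕ → ℝ) (ap : ∀ x, Function.Periodic (α x) (q (.inl x))) (a0 : ∀ x t, 0 ≤ α x t)
    (a1 : ∀ x, ∑ t ∈ range (q (.inl x)), α x t = q (.inl x)) (δ ω ζ : S → ℝ)
    (a2 : ∀ x, ∃ k, ∑ t ∈ range (q (.inl x)), |α x t - k| ≤ q (.inl x) * δ x)
    (a3 : ∀ x, δ x ≤ ω x * (q (.inl x) : ℝ) ^ (-θ)) (a4 : ∀ x, 1 ≤ ω x) (a5 : ∀ x, 0 ≤ ζ x)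
    (a6 : ∀ i x t, q (.inl x) ∣ t + g i → ζ x * (q (.inl x) - 1) ≤ q (.inl x) - α x t)
    (ht : ∀ x, 5 * (K * ν x) ≤ (q (.inr x) : ℝ) ^ (-θ)) (Z1 : 1 ≤ Z) (hZ : Z ≤ ∏ x, ζ x)
    (E : Finset (S ⊕ M)) (hE : ∀ x ∈ E, x.elim (δ · = 0) (σ < l ·)) (qa : ∀ x, q x < 2 * N)
    (bv : ∀ i, BV q E ((∏ x, (q (.inl x) : ℝ)) * Real.exp (2 * σ)) θ η (2 * N + g i) (5 * N + g i))
    (hη : (2 ^ Fintype.card (Option ι) * ∏ x, (1 + K * ν x)) ^ 2 *
      (∏ x, q (.inl x) / (q (.inl x) - 1) * ω x) * (∏ x, (1 + 8 * (K * ν x))) * η ≤ N / 1024)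
    (hΘ : ∀ i, (N : ℝ) / 2 ≤ ∑ n ∈ Ico (2 * N + g i) (5 * N + g i) with n.Prime, Real.log n)
    (hx : ∀ i, Real.log (5 * N + g i : ℕ) ≤ 2 * x) :
    ∃ (W : ℕ → ℝ) (T μ : ℝ), 0 < T ∧ Z * V * σ / x / (10 ^ 6 * C ^ 2) * (J / K) ≤ μ ∧
      ∑ t ∈ Ico (2 * N) (5 * N), (∏ x, α x t) * W t ^ 2 ≤ T ∧
      (∀ i, μ * T ≤ ∑ t ∈ Ico (2 * N) (5 * N) with (t + g i).Prime, (∏ x, α x t) * W t ^ 2) ∧
      (∀ i j, i ≠ j → ∑ t ∈ Ico (2 * N) (5 * N) with (t + g i).Prime ∧ (t + g j).Prime,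
        (∏ x, α x t) * W t ^ 2 ≤ (12000 / (Z * V * σ / x)) ^ 2 * μ ^ 2 * T) ∧
      ∀ j, Ar q ν l κ d (cc d g j) → ∀ β : S → ℕ → ℝ, (∀ x, Function.Periodic (β x) (q (.inl x))) →
        (∀ x t, 0 ≤ β x t) → (∀ x t, β x t ≤ 1) →
        ∑ t ∈ Ico (2 * N) (5 * N) with ∀ x, ¬ q (.inr x) ∣ d * t + j,
          (∏ x, α x t * β x t) * W t ^ 2 ≤ 3 / (V * σ) *
            (∏ x, (∑ t ∈ range (q (.inl x)), α x t * β x t) / q (.inl x) + ε) * T := by
  have J1 : (1 : ℝ) ≤ J := by exact_mod_cast hJ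
  have K1 : 1 ≤ K := (one_le_pow₀ one_le_two).trans JK
  have u0 : 0 < u := by rw [hu]; positivity
  have N1 : (0 : ℝ) < N := by exact_mod_cast N0
  have ts : u * 2 ^ J ≤ σ / 2 := by
    rw [hu, div_mul_eq_mul_div, div_le_div_iff₀ (by positivity) two_pos]
    nlinarith [mul_le_mul_of_nonneg_left JK (show 0 ≤ σ by linarith),
      mul_le_mul_of_nonneg_right (one_le_mul_of_one_le_of_one_le C1 J1) (show 0 ≤ σ * K by positivity)]
  have ks : 0 ≤ κ * σ := by positivity
  have m1 : K * (κ * σ) ≤ K ^ 2 * (κ * σ) := by gcongr; nlinarith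
  have m2 : κ * σ ≤ K * (κ * σ) := le_mul_of_one_le_left ks K1
  obtain ⟨g1, g2, g3⟩ := h.G hJ u0 V0 (by linarith) fun t a b => hH t a (by linarith)
  set f : Option ι → ℝ → ℝ := fun i => i.elim d0 fun _ => gg J u with hf
  have f0 : ∀ i, (∀ t, 0 ≤ f i t) ∧ Antitone (f i) ∧ ∀ t, f i t ≠ 0 → t ≤ u * 2 ^ J := fun i => by
    cases i with
    | none => exact ⟨d0_nonneg, d0_anti, fun t ht => le_trans (not_not.1 fun c => ht (if_neg c))
                (by positivity)⟩
    | some i => exact ⟨gg0 J u, gg_anti J u, gg_supp J u0.le⟩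
  set A : (ℝ → ℝ) → ℝ := fun φ => aa ν l univ fun t => φ t ^ 2 with hA
  set G1 := aa ν l univ (gg J u)
  set G2 := A (gg J u)
  have Ad : A d0 = 1 := by
    rw [← h.aa_d0 univ, hA]; simp only; congr 1; funext t; simp [d0]
  have z : 1 ≤ gg J u 0 := by simpa [chi, u0.le] using gg_ge hJ u 0
  have G11 : 1 ≤ G1 := z.trans (h.aa0 _ (gg0 J u))
  have G21 : 1 ≤ G2 := (one_le_pow₀ z).trans (h.aa0 (f := fun t => gg J u t ^ 2) _ fun _ => sq_nonneg _)
  have G12 : G2 ≤ 2 * G1 := by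
    rw [← aa_mul]
    exact h.aa_mono Subset.rfl (fun t => by linarith [gg0 J u t]) fun t _ => by
      nlinarith [gg0 J u t, gg_two J u t]
  have A1 : ∀ i, 1 ≤ A (f i) := fun i => by cases i; exacts [Ad.ge, G21]
  set P := ∏ i, A (f i) with hP
  have P1 : 1 ≤ P := one_le_prod fun i _ => A1 i
  set H := aa ν l univ (chi σ)
  have AH : A (chi σ) = H := by simp only [hA, chi_sq]; rfl
  have H1 := (hH σ (by nlinarith [one_le_pow₀ (n := J) (one_le_two (α := ℝ))]) le_rfl).1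
  have H0 : 0 < H := lt_of_lt_of_le (by positivity) H1
  set y := yy l f σ
  have yd : Dom l y 1 f σ := yy_dom (fun i => (f0 i).1) σ
  have a7 : ∀ x t, α x t ≤ q (.inl x) := fun x t => by
    rw [← a1, ← (ap x).map_mod_nat]
    exact single_le_sum (fun t _ => a0 x t) (mem_range.2 (Nat.mod_lt _ (h.pr _).pos))
  have up : ∀ (c : Option ι → ℕ) (β : S → ℕ → ℝ) (y : (M → Option (Option ι)) → ℝ) (b σ' : ℝ)
      (f : Option ι → ℝ → ℝ), Ar q ν l κ d c → (∀ x, Function.Periodic (β x) (q (.inl x))) →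
      (∀ x t, 0 ≤ β x t) → (∀ x t, β x t ≤ q (.inl x)) → σ' ≤ 3 * σ → Dom l y b f σ' →
      ∑ t ∈ Ico (2 * N) (5 * N), (∏ x, β x t) * SS (fun x => q (.inr x)) ν d c y t ^ 2 ≤
        (9 / 2 * ∏ x, (∑ t ∈ range (q (.inl x)), β x t) / q (.inl x) + ε) * N *
          (b ^ 2 * ∏ i, A (f i)) := fun c β y b σ' f hc b1 b2 b3 hs hy => by
    have := hc.upper k0 β b1 b2 b3 (σ := 3 * σ) (e3 (by rw [← hK]; linarith)) y
      (fun r hr => ((hy r).2.2 hr).trans hs) (2 * N) (5 * N - 2 * N)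
    have p0 : 0 ≤ ∏ x, (∑ t ∈ range (q (.inl x)), β x t) / q (.inl x) :=
      prod_nonneg fun x _ => div_nonneg (sum_nonneg fun _ _ => b2 _ _) (by positivity)
    have e1 : 0 ≤ ε * N := le_trans (mul_nonneg (by positivity)
      (prod_nonneg fun x _ => by have := h.n0 x; positivity)) he
    rw [sum_Ico_eq_sum_range]
    refine this.trans (mul_le_mul ?_ (h.dom_sq hy)
      (sum_nonneg fun r _ => mul_nonneg (h.mu0 r).le (sq_nonneg _)) (by rw [add_mul]; positivity))
    rw [← hK, show 5 * N - 2 * N = 3 * N by omega, show 6 * (3 * σ) = 18 * σ by ring]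
    push_cast; linarith
  have mean : ∏ x, (∑ t ∈ range (q (.inl x)), α x t) / q (.inl x) = 1 :=
    prod_eq_one fun x _ => by rw [a1, div_self (by exact_mod_cast (h.pr _).ne_zero)]
  have nd : ∀ i t, t ∈ Ico (2 * N) (5 * N) → (t + g i).Prime →
      ∀ x, ¬ q (.inr x) ∣ d * t + cc d g 0 (some i) := fun i t ht hp x hx => by
    rw [show d * t + cc d g 0 (some i) = d * (t + g i) by simp [cc, mul_add], (h.pr _).dvd_mul,
      or_iff_right (h.hd x), Nat.prime_dvd_prime_iff_eq (h.pr _) hp] at hx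
    have := qa (.inr x); have := (mem_Ico.1 ht).1; omega
  have w0 : ∀ (β : S → ℕ → ℝ), (∀ x t, 0 ≤ β x t) → ∀ (t : ℕ) (s : ℝ), 0 ≤ (∏ x, β x t) * s ^ 2 :=
    fun β b t s => mul_nonneg (prod_nonneg fun x _ => b x t) (sq_nonneg _)
  have c1 : 0 < chi σ 0 := by rw [chi, if_pos (by linarith)]; exact one_pos
  have E1 : Real.exp (κ * σ) ≤ 3 / 2 := e3 (by linarith)
  refine ⟨SS (fun x => q (.inr x)) ν d (cc d g 0) y, 5 * N * P, Z * G1 ^ 2 / (5120 * x * G2),
    by positivity, ?_, ?_, fun i => ?_, fun i j ij => ?_, fun j hj β b1 b2 b3 => ?_⟩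
  · rw [le_div_iff₀ (by positivity)]
    calc _ ≤ Z * V * σ / x / (10 ^ 6 * C ^ 2) * (J / K) * (5120 * x * (8 * C * V * u)) := by gcongr
      _ = 0.65536 * (Z * (J * V * u) ^ 2) := by rw [hu]; field_simp; norm_num
      _ ≤ 1 * (Z * G1 ^ 2) := by gcongr; norm_num
      _ = _ := one_mul _
  · refine (up _ α y 1 σ f h ap a0 a7 (by linarith) yd).trans ?_
    rw [mean, one_pow, one_mul]
    gcongr; linarith
  · have l1 := h.low k0 (by positivity) f0 ts (by linarith) (γ := 2 * C * J * u) (by positivity)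
      (fun j => by
        cases j with
        | none => refine le_trans (h.aa_mono Subset.rfl (g := fun t => 0 * t) (by simp) fun t ht => ?_)
                    (by rw [aa_mul, zero_mul]; have := A1 none; positivity)
                  simp only [hf, Option.elim, d0]; split_ifs <;> simp; linarith
        | some j => exact g3) (by rw [← hK, hu]; field_simp; norm_num) (by linarith) (by
          rw [← Real.exp_nat_mul, ← hK]
          refine (e3 ?_).trans (by norm_num)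
          nlinarith [mul_le_mul_of_nonneg_left ts (show 0 ≤ K ^ 2 * κ by positivity)]) (some i)
    have l2 := h.lower k0 (some i) (g i) rfl α ap a0 a1 δ ω ζ a2 a3 a4 a5 (a6 i) (σ := σ)
      (e3 (by rw [← hK]; linarith)) (by
        rw [← hK]
        refine (Real.prod_one_add_le_exp_sum _ fun x => by positivity).trans (e3 ?_)
        refine le_trans (sum_le_sum (g := fun x => K * κ * ν x) fun x _ => ?_) ?_
        · rw [mul_assoc, sq]; have := h.n0 x; have := h.nk x; gcongr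
        · rw [← mul_sum]; nlinarith [mul_le_mul_of_nonneg_left sn (show 0 ≤ K * κ by positivity)])
      (fun x => by
        rw [← hK]
        nlinarith [mul_le_mul_of_nonneg_left (h.nk x) (show 0 ≤ K by linarith),
          mul_le_mul_of_nonneg_left s1 (show 0 ≤ K * κ by positivity)]) (by rwa [← hK]) y
      (fun r => (yd r).2.2) (fun r => (yd r).1) (B := 2 ^ Fintype.card (Option ι)) (fun r => by
        refine (yd r).2.1.trans ?_
        rw [one_mul, ← card_univ, ← prod_const]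
        refine prod_le_prod (fun i _ => (f0 i).1 _) fun i _ => ?_
        cases i with
        | none => simp only [hf, Option.elim, d0]; split_ifs <;> norm_num
        | some i => exact gg_two _ _ _)
      (h.yy_anti (fun i => (f0 i).1) (fun i => (f0 i).2.1) σ) E hE _ _ (by omega)
      (fun x => by have := qa x; omega) (bv i)
    rw [← hK] at l2
    have l3 : ∑ n ∈ Ico (2 * N + g i) (5 * N + g i) with n.Prime, (∏ x, α x (n - g i)) *
        SS (fun x => q (.inr x)) ν d (cc d g 0) y (n - g i) ^ 2 * Real.log n ≤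
        2 * x * ∑ t ∈ Ico (2 * N) (5 * N) with (t + g i).Prime, (∏ x, α x t) *
          SS (fun x => q (.inr x)) ν d (cc d g 0) y t ^ 2 := by
      rw [sum_filter, ← sum_Ico_add', ← sum_filter, mul_sum]
      refine sum_le_sum fun t ht => ?_
      rw [Nat.add_sub_cancel, mul_comm (2 * x)]
      refine mul_le_mul_of_nonneg_left (le_trans (Real.log_le_log ?_ ?_) (hx i)) (w0 α a0 _ _)
      · exact_mod_cast (mem_filter.1 ht).2.pos
      · have := (mem_Ico.1 (mem_filter.1 ht).1).2; exact_mod_cast (by omega)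
    set P' := ∏ j ∈ univ.erase (some i), A (f j)
    have e : P = G2 * P' := (mul_prod_erase _ _ (mem_univ (some i))).symm
    have P2 : 1 ≤ P' := one_le_prod fun i _ => A1 i
    have l4 : Z * (G1 ^ 2 * P' / 16 / 8) * (N / 2) ≤ _ := mul_le_mul (mul_le_mul hZ
      (div_le_div_of_nonneg_right l1 (by norm_num)) (by positivity) (by linarith)) (hΘ i)
      (by positivity) (mul_nonneg (by linarith) (le_trans (by positivity)
        (div_le_div_of_nonneg_right l1 (by norm_num))))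
    have l5 : (1 : ℝ) * N ≤ Z * (G1 ^ 2 * P') * N := by
      gcongr
      exact one_le_mul_of_one_le_of_one_le Z1 (one_le_mul_of_one_le_of_one_le (one_le_pow₀ G11) P2)
    refine le_of_mul_le_mul_left ?_ (show 0 < 2 * x by positivity)
    rw [e, show 2 * x * (Z * G1 ^ 2 / (5120 * x * G2) * (5 * N * (G2 * P'))) =
      Z * (G1 ^ 2 * P') * N / 512 by field_simp; norm_num]
    linarith
  · have d1 := h.TT_dom k0 (some i) (chi0 σ) c1 (chi_anti σ) (chi_supp σ) zero_le_one
      (fun i => (f0 i).1) yd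
    have d2 := h.TT_dom k0 (some j) (chi0 σ) c1 (chi_anti σ) (chi_supp σ) (by
      change 0 ≤ 1 * G1 * _ / H; positivity) (fun k t => by
        by_cases a : k = some i
        · simp [a, chi0]
        · simp [a, (f0 k).1]) d1
    have p1 := pp_up A f (some i) (chi σ)
    have p2 := pp_up A (Function.update f (some i) (chi σ)) (some j) (chi σ)
    have := up _ α _ _ _ _ h ap a0 a7 (by linarith) d2
    rw [Function.update_of_ne (by simpa using ij.symm)] at p2 this
    refine le_trans ?_ (this.trans ?_)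
    · rw [sum_congr rfl fun t ht => by
        rw [← h.SS_TT _ _ (some i) (show 0 ≤ σ by linarith) y t (nd i t (mem_filter.1 ht).1
          (mem_filter.1 ht).2.1), ← h.SS_TT _ _ (some j) (show 0 ≤ σ by linarith) _ t
          (nd j t (mem_filter.1 ht).1 (mem_filter.1 ht).2.2)]]
      exact sum_le_sum_of_subset_of_nonneg (filter_subset _ _) fun t _ _ => w0 α a0 _ _
    · have E2 : Real.exp (κ * (σ + σ)) ≤ 3 / 2 := e3 (by linarith)
      rw [mean, eq_div_of_mul_eq (show G2 ≠ 0 by positivity) p2,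
        eq_div_of_mul_eq (show G2 ≠ 0 by positivity) p1, AH]
      calc _ ≤ 5 * N * ((1 * G1 * (3 / 2) / H * G1 * (3 / 2) / H) ^ 2 * (H * (H * P / G2) / G2)) := by
            gcongr; exacts [by linarith, le_rfl, le_rfl]
        _ = (11520 / (Z * H / x)) ^ 2 * (Z * G1 ^ 2 / (5120 * x * G2)) ^ 2 * (5 * N * P) := by
            field_simp; norm_num
        _ ≤ _ := by rw [mul_assoc Z V]; gcongr; norm_num
  · have d1 := h.TT_dom k0 none (chi0 σ) c1 (chi_anti σ) (chi_supp σ) zero_le_one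
      (fun i => (f0 i).1) yd
    have p1 := pp_up A f none (chi σ)
    have ab : ∀ x t, 0 ≤ α x t * β x t := fun x t => mul_nonneg (a0 x t) (b2 x t)
    have := up _ (fun x t => α x t * β x t) _ _ _ _ hj (fun x t => by simp only [ap x t, b1 x t]) ab
      (fun x t => (mul_le_of_le_one_right (a0 x t) (b3 x t)).trans (a7 x t)) (by linarith) d1
    refine le_trans ?_ (this.trans ?_)
    · refine le_trans (le_of_eq (sum_congr rfl fun t ht => ?_))
        (sum_le_sum_of_subset_of_nonneg (filter_subset _ _) fun t _ _ => w0 _ ab _ _)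
      rw [h.SS_TT _ _ none (show 0 ≤ σ by linarith) y t (mem_filter.1 ht).2]
      congr 2
      refine sum_congr rfl fun r _ => ?_
      by_cases c : ∃ x, r x = some none
      · obtain ⟨x, hx⟩ := c
        have := (yd r).2.1
        rw [prod_eq_zero (mem_univ none) (if_neg (not_le.2 (lt_of_lt_of_le (by
          simpa [hx] using one_pos.trans_le (h.l1 x)) (single_le_sum (f := fun x =>
          if r x = some none then l x else 0) (fun x _ => by
            have := h.l1 x; split_ifs <;> linarith) (mem_univ x))))), mul_zero] at this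
        simp [le_antisymm this (yd r).1]
      · congr 1
        refine prod_congr rfl fun x _ => ?_
        rcases e : r x with _ | _ | i
        exacts [rfl, (c ⟨x, e⟩).elim, rfl]
    · have p0 : 0 ≤ ∏ x, (∑ t ∈ range (q (.inl x)), α x t * β x t) / q (.inl x) :=
        prod_nonneg fun x _ => div_nonneg (sum_nonneg fun _ _ => ab _ _) (by positivity)
      have e1 : 0 ≤ ε := nonneg_of_mul_nonneg_left (le_trans (mul_nonneg (by positivity)
        (prod_nonneg fun x _ => by have := h.n0 x; positivity)) he) N1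
      rw [show A (f none) = 1 from Ad, mul_one, AH] at p1
      rw [p1, show aa ν l univ (f none) = 1 from h.aa_d0 _]
      set m := ∏ x, (∑ t ∈ range (q (.inl x)), α x t * β x t) / q (.inl x)
      calc _ ≤ 5 * (m + ε) * N * ((1 * 1 * (3 / 2) / H) ^ 2 * (H * P)) := by gcongr; linarith
        _ = 9 / 4 / H * (m + ε) * (5 * N * P) := by field_simp; ring
        _ ≤ _ := by gcongr; norm_num

end Pool.Agent.H59.MT
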