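import Mathlib
import Pool.Agent.H59.MT12
import Pool.Agent.H59.EG4

/-! Estimates for the concrete parameters. -/

set_option autoImplicit false
set_option linter.unusedSectionVars false

namespace Pool.Agent.H59.MT

open Finset Filter

/-- Inverse Mertens product. -/
noncomputable def PV (s : Finset ℕ) : ℝ := ∏ p ∈ s, (1 + 1 / ((p : ℝ) - 1))

lemma p2 {n p : ℕ} (h : p ∈ n.primesLE) : (2 : ℝ) ≤ p := by
  exact_mod_cast (Nat.mem_primesLE.1 h).2.two_le

lemma PV_eq (n : ℕ) : PV n.primesLE = (BH.V n.primesLE)⁻¹ := by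
  rw [PV, BH.V, ← prod_inv_distrib]
  refine prod_congr rfl fun p hp => ?_
  have := p2 hp
  have : (p : ℝ) - 1 ≠ 0 := by linarith
  field_simp; ring

lemma PV_ge {n : ℕ} (h : 2 ≤ n) : Real.log n ≤ PV n.primesLE := by
  rw [PV_eq, le_inv_comm₀ (Real.log_pos (by exact_mod_cast h))
    (BH.V_pos _ fun q hq => (Nat.mem_primesLE.1 hq).2), ← one_div]
  exact BH.V_le n h

lemma PV_le {n : ℕ} (h : 2 ≤ n) : PV n.primesLE ≤ Real.exp 7 * Real.log n := by
  rw [PV_eq]
  refine (inv_anti₀ (Real.exp_pos _) (EG.Vlow n h)).trans ?_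
  rw [← Real.exp_neg, neg_neg, ← Real.exp_log (Real.log_pos (show (1 : ℝ) < n by exact_mod_cast h)),
    ← Real.exp_add, Real.exp_le_exp]
  linarith [EG.mert n h]

lemma PV_f {n p : ℕ} (h : p ∈ n.primesLE) : 1 ≤ 1 + 1 / ((p : ℝ) - 1) ∧ 1 + 1 / ((p : ℝ) - 1) ≤ 2 := by
  have := p2 h
  have : 1 / ((p : ℝ) - 1) ≤ 1 := by rw [div_le_one (by linarith)]; linarith
  have : 0 ≤ 1 / ((p : ℝ) - 1) := div_nonneg zero_le_one (by linarith)
  constructor <;> linarith

lemma PV_er (n p : ℕ) : PV n.primesLE ≤ 2 * PV (n.primesLE.erase p) := by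
  have : 1 ≤ PV (n.primesLE.erase p) := one_le_prod fun _ h => (PV_f (mem_of_mem_erase h)).1
  by_cases h : p ∈ n.primesLE
  · rw [PV, ← mul_prod_erase _ _ h]
    exact mul_le_mul_of_nonneg_right (PV_f h).2 (zero_le_one.trans this)
  · rw [erase_eq_of_notMem h] at this ⊢; linarith

/-- The sieving primes. -/
def PM (a b : ℕ) : Finset ℕ := b.primesLE \ a.primesLE

lemma mem_PM {a b p : ℕ} : p ∈ PM a b ↔ p.Prime ∧ a < p ∧ p ≤ b := by
  simp only [PM, Finset.mem_sdiff, Nat.mem_primesLE]; grind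

lemma sub_prod (s : Finset ℕ) (P : ℕ → Prop) [DecidablePred P] (F : ℕ → ℝ) :
    ∏ x ∈ univ.filter fun x : s => P x, F x = ∏ p ∈ s.filter P, F p := by
  rw [prod_filter, prod_filter, prod_coe_sort s fun p => if P p then F p else 1]

lemma Hb {a b p1 : ℕ} {κ σ t : ℝ} (h : Std (fun x : PM a b => 1 / ((x : ℝ) - 1))
    (fun x => if x.1 = p1 then 2 * σ else Real.log x) κ) (a2 : 2 ≤ a) (hb : b = ⌊Real.exp σ⌋₊)
    (h1 : Real.log a ≤ t) (h2 : 24 ≤ t) (h3 : t ≤ σ) :
    1 / (32 * Real.exp 7 * Real.log a) * t ≤ aa (fun x : PM a b => 1 / ((x : ℝ) - 1))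
      (fun x => if x.1 = p1 then 2 * σ else Real.log x) univ (chi t) ∧
    aa (fun x : PM a b => 1 / ((x : ℝ) - 1)) (fun x => if x.1 = p1 then 2 * σ else Real.log x)
      univ (chi t) ≤ 32 * Real.exp 7 ^ 2 * (1 / (32 * Real.exp 7 * Real.log a)) * t := by
  have la : 0 < Real.log a := Real.log_pos (by exact_mod_cast a2)
  have fl : ∀ s : ℝ, 1 ≤ s → 2 ≤ ⌊Real.exp s⌋₊ ∧ Real.log ⌊Real.exp s⌋₊ ≤ s ∧
      s - 1 ≤ Real.log ⌊Real.exp s⌋₊ := fun s hs => by
    have a : 2 ≤ Real.exp s := by linarith [Real.add_one_le_exp s]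
    have b : 2 ≤ ⌊Real.exp s⌋₊ := Nat.le_floor (by exact_mod_cast a)
    have c : (0 : ℝ) < ⌊Real.exp s⌋₊ := by positivity
    refine ⟨b, (Real.log_le_iff_le_exp c).2 (Nat.floor_le (by linarith)),
      (Real.le_log_iff_exp_le c).2 ?_⟩
    rw [Real.exp_sub, div_le_iff₀ (Real.exp_pos _)]
    nlinarith [Real.add_one_le_exp 1, Nat.lt_floor_add_one (Real.exp s), (Nat.one_le_cast (α := ℝ)).2 (show 1 ≤ ⌊Real.exp s⌋₊ by omega)]
  constructor
  · obtain ⟨f1, f2, f3⟩ := fl (t / 4) (by linarith)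
    set T := ⌊Real.exp (t / 4)⌋₊
    have Tb : T ≤ b := hb ▸ Nat.floor_le_floor (Real.exp_le_exp.2 (by linarith))
    have sub : (PM a b).filter (fun p => p ≤ T ∧ p ≠ p1) ⊆ T.primesLE := fun p hp => by
      simp only [mem_filter, mem_PM, Nat.mem_primesLE] at hp ⊢; tauto
    refine le_trans ?_ (h.H_low (univ.filter fun x => x.1 ≤ T ∧ x.1 ≠ p1) (by linarith) ?_)
    · rw [sub_prod (PM a b) (fun p => p ≤ T ∧ p ≠ p1) fun p => 1 + 1 / ((p : ℝ) - 1)]
      change _ ≤ PV _ / 2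
      have e1 := (PV_ge f1).trans (PV_er T p1)
      have e2 : PV (T.primesLE.erase p1) ≤
          PV a.primesLE * PV ((PM a b).filter fun p => p ≤ T ∧ p ≠ p1) := by
        rw [PV, PV, PV, ← prod_union (disjoint_left.2 fun p a b => by
          exact (Finset.mem_sdiff.1 (mem_filter.1 b).1).2 a)]
        refine prod_le_prod_of_subset_of_one_le (fun p hp => ?_)
          (fun p hp => zero_le_one.trans (PV_f (mem_of_mem_erase hp)).1) fun p hp _ => ?_
        · simp only [mem_union, mem_erase, mem_filter, mem_PM, Nat.mem_primesLE] at hp ⊢; grind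
        · exact (mem_union.1 hp).elim (fun h => (PV_f h).1) fun h => (PV_f (sub h)).1
      have e3 := mul_le_mul_of_nonneg_right (PV_le a2) (show 0 ≤ PV ((PM a b).filter
        fun p => p ≤ T ∧ p ≠ p1) from prod_nonneg fun p h => zero_le_one.trans (PV_f (sub h)).1)
      rw [div_mul_eq_mul_div, div_le_iff₀ (by positivity)]
      linarith
    · refine le_trans (sum_le_sum (g := fun x : PM a b => 3 / 2 * (Real.log x / x)) fun x hx => ?_) ?_
      · have : (3 : ℝ) ≤ x := by exact_mod_cast (show 3 ≤ x.1 by have := (mem_PM.1 x.2).2.1; omega)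
        rw [if_neg (mem_filter.1 hx).2.2, mul_one_div, ← mul_div_assoc,
          div_le_div_iff₀ (by linarith) (by linarith)]
        nlinarith [Real.log_natCast_nonneg x]
      · rw [sum_filter, sum_coe_sort (PM a b) fun p => if p ≤ T ∧ p ≠ p1 then
          3 / 2 * (Real.log p / p) else 0, ← sum_filter, ← mul_sum]
        have := (sum_le_sum_of_subset_of_nonneg sub fun p _ _ => by
          have := Real.log_natCast_nonneg p; positivity).trans (BH.mertens T (by omega))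
        linarith
  · obtain ⟨f1, f2, -⟩ := fl t (by linarith)
    set T := ⌊Real.exp t⌋₊ with hT
    have Tb : T ≤ b := hb ▸ Nat.floor_le_floor (Real.exp_le_exp.2 h3)
    have aT : a ≤ T := Nat.le_floor ((Real.log_le_iff_le_exp (by positivity)).1 h1)
    refine (h.H_up (univ.filter fun x => x.1 ≤ T) t fun x hx => ?_).trans ?_
    · refine mem_filter.2 ⟨mem_univ _, Nat.le_floor ((Real.log_le_iff_le_exp ?_).1 ?_)⟩
      · exact_mod_cast (mem_PM.1 x.2).1.pos
      · split_ifs at hx <;> linarith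
    · rw [sub_prod (PM a b) (fun p => p ≤ T) fun p => 1 + 1 / ((p : ℝ) - 1),
        show (PM a b).filter (fun p => p ≤ T) = T.primesLE \ a.primesLE by
          ext p; simp only [mem_filter, mem_PM, Finset.mem_sdiff, Nat.mem_primesLE]; grind]
      have e : PV (T.primesLE \ a.primesLE) * PV a.primesLE = PV T.primesLE :=
        prod_sdiff fun p hp => by simp only [Nat.mem_primesLE] at hp ⊢; grind
      have e1 := mul_le_mul_of_nonneg_left (PV_ge a2) (show 0 ≤ PV (T.primesLE \ a.primesLE) from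
        prod_nonneg fun p h => zero_le_one.trans (PV_f (Finset.mem_sdiff.1 h).1).1)
      have e2 := (PV_le f1).trans (mul_le_mul_of_nonneg_left f2 (Real.exp_pos _).le)
      change PV _ ≤ _
      rw [show 32 * Real.exp 7 ^ 2 * (1 / (32 * Real.exp 7 * Real.log a)) * t =
        Real.exp 7 * t / Real.log a by field_simp, le_div_iff₀ la]
      linarith

lemma evl (A : ℝ) : ∀ᶠ N : ℕ in atTop, 0 < N ∧ A ≤ Real.log (Real.log N) ∧
    Real.log (Real.log N) ^ 42 ≤ Real.log N := by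
  have t1 : Tendsto (fun N : ℕ => Real.log N) atTop atTop :=
    Real.tendsto_log_atTop.comp tendsto_natCast_atTop_atTop
  have t2 := Real.tendsto_log_atTop.comp t1
  filter_upwards [eventually_gt_atTop 0, t2.eventually_ge_atTop A, t2.eventually_gt_atTop 0,
    t1.eventually_gt_atTop 0,
    ((Real.tendsto_exp_div_pow_atTop 42).comp t2).eventually_ge_atTop 1] with N a b c d e
  refine ⟨a, b, ?_⟩
  simp only [Function.comp] at c e
  rwa [one_le_div (by positivity), Real.exp_log d] at e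

lemma eta_bd {N x l Q b U r : ℝ} (hN : N = Real.exp x) (hx : x = Real.exp l) (l1 : 100 ≤ l)
    (l2 : l ^ 42 ≤ x) (Q0 : 0 ≤ Q) (hQ : Q ≤ Real.exp (x / 40)) (b1 : 1 ≤ b) (hb : b ≤ 6 * N)
    (lb : Real.log b ≤ 2 * x) (U0 : 0 ≤ U) (hU : U ≤ 12 * Q ^ 5 + 1) (r0 : 0 ≤ r) (hr : r ≤ 4 * x) :
    3 * Real.exp (l ^ 6 / 2) ^ 3 * (b * Real.exp (-3 * l ^ 6)) +
      Real.exp (l ^ 6 / 2) ^ (-(1 / l ^ 3)) *
        (2 * (2 * U ^ 3 * Real.log b + r ^ 2 * (2 * b * (1 + Real.log b ^ 2)))) +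
      3 * Q ^ 3 * (2 * √b * Real.log b) ≤ 3000 * x ^ 4 * (Real.exp (-(l ^ 3 / 2)) * N) := by
  have p : ∀ a b : ℕ, a ≤ b → l ^ a ≤ l ^ b := fun a b h => pow_le_pow_right₀ (by linarith) h
  have l3 : 10 ^ 6 ≤ l ^ 3 := le_trans (by norm_num) (pow_le_pow_left₀ (by norm_num) l1 3)
  have l4 : 10 ^ 6 * l ^ 3 ≤ x := by nlinarith [p 6 42 (by norm_num)]
  set X := Real.exp (x / 8) with hX
  have X1 : 10 ^ 4 * x ≤ X := by
    have := Real.pow_div_factorial_le_exp (x / 8) (by linarith) 2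
    norm_num at this; nlinarith
  have NX : N = X ^ 8 := by rw [hN, hX, ← Real.exp_nat_mul]; congr 1; push_cast; ring
  have Q5 : Q ^ 5 ≤ X := by
    refine (pow_le_pow_left₀ Q0 hQ 5).trans_eq ?_
    rw [← Real.exp_nat_mul]; congr 1; push_cast; ring
  have Q3 : Q ^ 3 ≤ X := by
    refine (pow_le_pow_left₀ Q0 hQ 3).trans ?_
    rw [← Real.exp_nat_mul, Real.exp_le_exp]; push_cast; linarith
  have lb0 := Real.log_nonneg b1
  have x1 : 1 ≤ x := by linarith
  have x4 : 1 ≤ x ^ 4 := one_le_pow₀ x1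
  have X0 : 1 ≤ X := by linarith
  set e := Real.exp (-(l ^ 3 / 2)) with he
  have e0 : 0 < e := Real.exp_pos _
  have eX : 1 ≤ e * X := by rw [he, hX, ← Real.exp_add]; exact Real.one_le_exp (by linarith)
  have N0 : 0 < N := by rw [hN]; positivity
  have t1 : 3 * Real.exp (l ^ 6 / 2) ^ 3 * (b * Real.exp (-3 * l ^ 6)) ≤ 18 * (e * N) := by
    have : Real.exp (l ^ 6 / 2) ^ 3 * Real.exp (-3 * l ^ 6) ≤ e := by
      rw [← Real.exp_nat_mul, ← Real.exp_add, Real.exp_le_exp]; push_cast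
      linarith [p 3 6 (by norm_num)]
    nlinarith [mul_le_mul this hb (by linarith) e0.le]
  have t2 : Real.exp (l ^ 6 / 2) ^ (-(1 / l ^ 3)) = e := by
    rw [← Real.exp_mul, he]; congr 1; field_simp
  have t3 : 2 * U ^ 3 * Real.log b ≤ N := by
    calc _ ≤ 2 * (13 * X) ^ 3 * (2 * x) := by gcongr; linarith
      _ = X ^ 3 * (8788 * x) := by ring
      _ ≤ X ^ 7 * X := by gcongr; exacts [by norm_num, by linarith]
      _ = N := by rw [NX]; ring
  have t4 : r ^ 2 * (2 * b * (1 + Real.log b ^ 2)) ≤ 960 * x ^ 4 * N := by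
    calc _ ≤ (4 * x) ^ 2 * (2 * (6 * N) * (x ^ 2 + (2 * x) ^ 2)) := by gcongr; exact one_le_pow₀ x1
      _ = _ := by ring
  have t5 : 3 * Q ^ 3 * (2 * √b * Real.log b) ≤ e * N := by
    have : √b ≤ 3 * X ^ 4 := Real.sqrt_le_iff.2 ⟨by positivity, by rw [mul_pow, ← pow_mul, ← NX]; linarith⟩
    calc _ ≤ 3 * X * (2 * (3 * X ^ 4) * (2 * x)) := by gcongr
      _ = 1 * (X ^ 5 * (36 * x)) := by ring
      _ ≤ e * X * (X ^ 6 * X) := by gcongr; exacts [by norm_num, by linarith]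
      _ = e * N := by rw [NX]; ring
  rw [t2]
  have := mul_le_mul_of_nonneg_left (add_le_add t3 t4) e0.le
  nlinarith [mul_le_mul_of_nonneg_right x4 (mul_pos e0 N0).le]

lemma th_ge {N g : ℕ} {x : ℝ} (hN : N = Real.exp x) (x1 : 10 ^ 4 ≤ x) (g1 : 0 < g) (hg : g ≤ x) :
    (N : ℝ) / 2 ≤ ∑ n ∈ Ico (2 * N + g) (5 * N + g) with n.Prime, Real.log n := by
  have e : Chebyshev.theta (5 * N : ℕ) ≤ Chebyshev.theta (2 * N + g - 1 : ℕ) +
      ∑ n ∈ Ico (2 * N + g) (5 * N + g) with n.Prime, Real.log n := by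
    simp only [Chebyshev.theta, Nat.floor_natCast]
    rw [← sum_union (disjoint_left.2 fun n a b => by
      simp only [mem_filter, mem_Ioc, mem_Ico] at a b; omega)]
    refine sum_le_sum_of_subset_of_nonneg (fun n hn => ?_) fun n _ _ => Real.log_natCast_nonneg n
    simp only [mem_union, mem_filter, mem_Ioc, mem_Ico] at hn ⊢; grind
  have a := Chebyshev.theta_ge (5 * N)
  have b := (Chebyshev.theta_mono (show ((2 * N + g - 1 : ℕ) : ℝ) ≤ 2 * N + x by
    have : ((2 * N + g - 1 : ℕ) : ℝ) ≤ (2 * N + g : ℕ) := by gcongr; omega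
    push_cast at this; linarith)).trans (Chebyshev.theta_le_log4_mul_x (by positivity))
  set X := Real.exp (x / 2) with hX
  have X1 : 1000 * x ≤ X := by
    have := Real.pow_div_factorial_le_exp (x / 2) (by linarith) 2
    norm_num at this; nlinarith
  have NX : N = X ^ 2 := by rw [hN, hX, ← Real.exp_nat_mul]; congr 1; push_cast; ring
  have N1 : (6 : ℝ) ≤ N := by nlinarith
  have c : Real.log (5 * N + 1) ≤ 2 * x := by
    rw [Real.log_le_iff_le_exp (by positivity), two_mul, Real.exp_add, ← hN]; nlinarith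
  have d : Real.log (5 * N) ≤ 2 * x := (Real.log_le_log (by positivity) (by linarith)).trans c
  have f : √(5 * N) ≤ 3 * X := Real.sqrt_le_iff.2 ⟨by positivity, by nlinarith⟩
  have f' := mul_le_mul f d (Real.log_nonneg (by linarith)) (by positivity)
  rw [show Real.log 4 = 2 * Real.log 2 by rw [← Real.log_rpow two_pos]; norm_num] at b
  push_cast at a e
  nlinarith [Real.log_two_gt_d9, Real.log_two_lt_d9]

end Pool.Agent.H59.MT
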