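import Mathlib
import Pool.Agent.H59.MT13

/-! Moment estimates for primes in tuples against a product measure. -/

set_option autoImplicit false
set_option linter.unusedSectionVars false

namespace Pool.Agent.H59.MT

open Finset Filter

/-- Small primes without the exceptional one. -/
noncomputable def SP (N p1 : ℕ) : Finset ℕ := (⌊Real.log N / 100⌋₊.primesLE).erase p1

/-- Sieving primes. -/
noncomputable def MP (N : ℕ) : Finset ℕ := PM ⌈Real.log N ^ 3⌉₊ ⌊Real.exp (Real.log N / 200)⌋₊

lemma er_prod (s : Finset ℕ) (p1 : ℕ) (F : ℕ → ℝ) :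
    ∏ x : s, (if x.1 = p1 then 1 else F x) = ∏ p ∈ s.erase p1, F p := by
  rw [prod_coe_sort s fun p => if p = p1 then 1 else F p, ← filter_ne', prod_filter]
  simp

theorem core : ∃ c0 C0 : ℝ, 0 < c0 ∧ 0 < C0 ∧ ∀ (ι : Type) [Fintype ι] [DecidableEq ι]
    (J d D : ℕ) (g : ι → ℕ), 1 ≤ J → 2 ^ J ≤ Fintype.card ι → 0 < d → Function.Injective g →
    (∀ i, 0 < g i) → ∀ᶠ N : ℕ in atTop, ∃ p1 : ℕ, ∀ α : ℕ → ℕ → ℝ,
    (∀ p ∈ SP N p1, Function.Periodic (α p) p ∧ (∀ t, 0 ≤ α p t) ∧ ∑ t ∈ range p, α p t = p ∧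
      (∀ i t, p ∣ t + g i → α p t = 0) ∧ (D < p → ∃ k,
        ∑ t ∈ range p, |α p t - k| ≤ p * (1 - 1 / Real.log (Real.log N) ^ 2))) →
    ∃ (W : ℕ → ℝ) (T μ : ℝ), 0 < T ∧ c0 * (J / Fintype.card ι) ≤ μ ∧
      ∑ t ∈ Ico (2 * N) (5 * N), (∏ p ∈ SP N p1, α p t) * W t ^ 2 ≤ T ∧
      (∀ i, μ * T ≤ ∑ t ∈ Ico (2 * N) (5 * N) with (t + g i).Prime,
        (∏ p ∈ SP N p1, α p t) * W t ^ 2) ∧
      (∀ i j, i ≠ j → ∑ t ∈ Ico (2 * N) (5 * N) with (t + g i).Prime ∧ (t + g j).Prime,
        (∏ p ∈ SP N p1, α p t) * W t ^ 2 ≤ C0 * μ ^ 2 * T) ∧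
      ∀ j : ℕ, j ≤ Real.log N ^ 2 → (∀ i, j ≠ d * g i) → ∀ β : ℕ → ℕ → ℝ,
        (∀ p, Function.Periodic (β p) p) → (∀ p t, 0 ≤ β p t) → (∀ p t, β p t ≤ 1) →
        ∑ t ∈ Ico (2 * N) (5 * N) with ∀ p ∈ MP N, ¬ p ∣ d * t + j,
          (∏ p ∈ SP N p1, α p t * β p t) * W t ^ 2 ≤ C0 * (Real.log (Real.log N) / Real.log N) *
            (∏ p ∈ SP N p1, (∑ t ∈ range p, α p t * β p t) / p + 1 / √N) * T := by
  set C := 32 * Real.exp 7 ^ 2 with hC
  set v := 1 / (102400 * Real.exp 7) with hv
  have e7 : 1 ≤ Real.exp 7 := Real.one_le_exp (by norm_num)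
  have C1 : 1 ≤ C := by nlinarith
  refine ⟨v / (10 ^ 6 * C ^ 2) / 2, (12000 / v) ^ 2 + 76800 * Real.exp 7, by positivity,
    by positivity, fun ι _ _ J d D g hJ JK d0 gi g0 => ?_⟩
  set K : ℝ := (Fintype.card (Option ι) : ℝ) with hK
  have KK : K = Fintype.card ι + 1 := by simp [hK]
  have JK' : (2 : ℝ) ^ J ≤ Fintype.card ι := by exact_mod_cast JK
  have J1 : (1 : ℝ) ≤ J := by exact_mod_cast hJ
  have k1 : (1 : ℝ) ≤ Fintype.card ι := (one_le_pow₀ one_le_two).trans JK'
  have K1 : 1 ≤ K := by linarith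
  filter_upwards [evl (10 ^ 13 + |CL| + 12800 * C * J * K + 100 * K + 4 * D + ∑ i, (g i : ℝ) + d)]
    with N ⟨N0, hA, l42⟩
  unfold SP MP
  set x := Real.log N with hx
  set l := Real.log x with hl
  have gs : ∀ i, (g i : ℝ) ≤ ∑ i, (g i : ℝ) := fun i =>
    single_le_sum (f := fun i => (g i : ℝ)) (fun _ _ => by positivity) (mem_univ i)
  obtain ⟨A1, A2, A3, A4, A5, A6⟩ : 10 ^ 13 ≤ l ∧ CL ≤ l ∧ 12800 * C * J * K ≤ l ∧
      100 * K + 4 * D + 100 ≤ l ∧ (∀ i, (g i : ℝ) ≤ l) ∧ (d : ℝ) ≤ l := by
    have : 0 ≤ ∑ i, (g i : ℝ) := by positivity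
    have : 0 ≤ 12800 * C * J * K := by positivity
    have := abs_nonneg CL
    have := le_abs_self CL
    have : (0 : ℝ) ≤ D := by positivity
    have : (0 : ℝ) ≤ d := by positivity
    refine ⟨?_, ?_, ?_, ?_, fun i => (gs i).trans ?_, ?_⟩ <;> linarith
  clear hA
  have D0 : (0 : ℝ) ≤ D := by positivity
  have lp : ∀ a b : ℕ, a ≤ b → l ^ a ≤ l ^ b := fun a b h => pow_le_pow_right₀ (by linarith) h
  have l2x : l * l ≤ x := by linarith [lp 2 42 (by norm_num)]
  have lx : 10 ^ 13 * l ≤ x := by nlinarith only [l2x, A1]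
  have x1 : 10 ^ 13 ≤ x := by linarith
  have xp : ∀ a b : ℕ, a ≤ b → x ^ a ≤ x ^ b := fun a b h => pow_le_pow_right₀ (by linarith) h
  have x3 : x ≤ x ^ 3 := by simpa using xp 1 3 (by norm_num)
  have eN : (N : ℝ) = Real.exp x := (Real.exp_log (by positivity)).symm
  have ex : x = Real.exp l := (Real.exp_log (by linarith)).symm
  have xN : x ≤ N := by linarith [Real.add_one_le_exp x]
  set y := ⌊x / 100⌋₊ with hy
  set a := ⌈x ^ 3⌉₊ with ha
  set σ := x / 200 with hσ
  set b := ⌊Real.exp σ⌋₊ with hb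
  have y1 : (y : ℝ) ≤ x / 100 := Nat.floor_le (by positivity)
  have y2 : 2 ≤ y := Nat.le_floor (by push_cast; linarith)
  have y3 : l / 2 ≤ Real.log y := by
    have : √x ≤ y := Real.sqrt_le_iff.2 ⟨by positivity, by
      nlinarith only [x1, pow_le_pow_left₀ (by positivity)
        (show x / 200 ≤ y by linarith [Nat.lt_floor_add_one (x / 100)]) 2]⟩
    rw [hl, ← Real.log_sqrt (by linarith)]
    exact Real.log_le_log (by positivity) this
  have y4 : Real.log y ≤ l := Real.log_le_log (by positivity) (by linarith)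
  have a1 : x ^ 3 ≤ a := Nat.le_ceil _
  have a2 : 2 ≤ a := by exact_mod_cast (show (2 : ℝ) ≤ a by linarith)
  have a3 : Real.log a ≤ 4 * l := by
    rw [hl, show (4 : ℝ) = (4 : ℕ) by norm_num, ← Real.log_pow]
    refine Real.log_le_log (by positivity) ((Nat.ceil_lt_add_one (by positivity)).le.trans ?_)
    nlinarith only [x1, x3]
  have a0 : 0 < Real.log a := Real.log_pos (by exact_mod_cast a2)
  have b1 : (b : ℝ) ≤ Real.exp σ := Nat.floor_le (by positivity)
  have b2 : 2 ≤ b := Nat.le_floor (by push_cast; linarith [Real.add_one_le_exp σ])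
  have mM : ∀ z : PM a b, x ^ 3 + 1 ≤ z.1 ∧ Real.log z.1 ≤ σ := fun z => by
    obtain ⟨p, q, r⟩ := mem_PM.1 z.2
    have : (a : ℝ) + 1 ≤ z.1 := by exact_mod_cast q
    exact ⟨by linarith, (Real.log_le_iff_le_exp (by linarith)).2 (le_trans (by exact_mod_cast r) b1)⟩
  have mS : ∀ z : y.primesLE, (z.1 : ℝ) ≤ x / 100 := fun z =>
    le_trans (by exact_mod_cast (Nat.mem_primesLE.1 z.2).1) y1
  set q : y.primesLE ⊕ PM a b → ℕ := Sum.elim (·.1) (·.1) with hq
  have pr : ∀ z, (q z).Prime := by
    rintro (z | z); exacts [(Nat.mem_primesLE.1 z.2).2, (mem_PM.1 z.2).1]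
  have qi : Function.Injective q := by
    have : ∀ (z : y.primesLE) (w : PM a b), z.1 ≠ w.1 := fun z w e => by
      have := mS z; have := (mM w).1; rw [← e] at this; linarith
    rintro (z | z) (w | w) e
    exacts [congrArg _ (Subtype.ext e), (this _ _ e).elim, (this _ _ e.symm).elim,
      congrArg _ (Subtype.ext e)]
  have : ∀ z, Fact (q z).Prime := fun z => ⟨pr z⟩
  obtain ⟨E, E1, bv⟩ := bv q qi (L := l ^ 6) (by linarith [lp 1 6 (by norm_num)])
    (by linarith [lp 1 6 (by norm_num)])
  obtain ⟨p1, hp1⟩ : ∃ p1, ∀ z ∈ E, q z = p1 := by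
    rcases E.eq_empty_or_nonempty with h | ⟨z, hz⟩
    · simp [h]
    · exact ⟨q z, fun w hw => by rw [card_le_one.1 E1 w hw z hz]⟩
  refine ⟨p1, fun α hα => ?_⟩
  set ν : PM a b → ℝ := fun z => 1 / ((z : ℝ) - 1) with hν
  set L : PM a b → ℝ := fun z => if z.1 = p1 then 2 * σ else Real.log z with hL
  have std : Std ν L (1 / x ^ 3) := by
    refine ⟨fun z => one_div_pos.2 (by linarith [(mM z).1]), fun z => ?_, fun z =>
      one_div_le_one_div_of_le (by positivity) (by linarith [(mM z).1])⟩
    simp only [hL]; split_ifs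
    · linarith
    · rw [Real.le_log_iff_exp_le (by linarith [(mM z).1])]
      linarith [(mM z).1, Real.exp_one_lt_d9]
  have ar : ∀ j : ℕ, j ≤ x ^ 2 → (∀ i, j ≠ d * g i) → Ar q ν L (1 / x ^ 3) d (cc d g j) := by
    refine fun j h1 h2 => ⟨std, pr, qi, fun z => one_div_mul_cancel (by
      change (z.1 : ℝ) - 1 ≠ 0; linarith [(mM z).1]), fun z => ?_, fun z => Nat.not_dvd_of_pos_of_lt d0
      (by exact_mod_cast (show (d : ℝ) < z.1 by linarith [(mM z).1])), ?_, fun z i => ?_,
      one_div_le_one_div_of_le two_pos (by linarith)⟩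
    · simp only [hL]; split_ifs; exacts [(mM z).2.trans (by linarith), le_rfl]
    · rintro (_ | i) (_ | k) e
      exacts [rfl, (h2 _ e).elim, (h2 _ e.symm).elim,
        congrArg _ (gi (Nat.eq_of_mul_eq_mul_left d0 e))]
    · have := (mM z).1
      have := xp 2 3 (by norm_num)
      cases i with
      | none => exact_mod_cast (show (j : ℝ) < z.1 by linarith)
      | some i => exact_mod_cast (show (d : ℝ) * g i < z.1 by
                    linarith [mul_le_mul A6 (A5 i) (by positivity) (by linarith)])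
  have sn : ∑ z, ν z ≤ 4 * l := by
    rw [hν, sum_coe_sort (PM a b) fun p => 1 / ((p : ℝ) - 1)]
    refine (sum_le_sum (g := fun p : ℕ => 2 * (1 / (p : ℝ))) fun p hp => ?_).trans ?_
    · have := p2 (Finset.mem_sdiff.1 hp).1
      rw [mul_one_div, div_le_div_iff₀ (by linarith) (by linarith)]; linarith
    · rw [← mul_sum]
      have := (sum_le_sum_of_subset_of_nonneg (sdiff_subset (t := a.primesLE))
        fun p _ _ => by positivity).trans (EG.mert b b2)
      have b3 : Real.log b ≤ x := (Real.log_le_iff_le_exp (by positivity)).2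
        (b1.trans (Real.exp_le_exp.2 (by linarith)))
      have := Real.log_le_log (Real.log_pos (by exact_mod_cast b2)) b3
      change 2 * ∑ p ∈ b.primesLE \ a.primesLE, _ ≤ _
      linarith
  have pn : ∀ c, 0 ≤ c → ∏ z, (1 + c * ν z) ≤ Real.exp (4 * c * l) := fun c c0 =>
    (Real.prod_one_add_le_exp_sum _ fun z => mul_nonneg c0 (std.n0 z).le).trans (by
      rw [← mul_sum, Real.exp_le_exp]; linarith [mul_le_mul_of_nonneg_left sn c0])
  have p4 : ∀ n : ℕ, ∏ p ∈ n.primesLE, (p : ℝ) ≤ Real.exp (1.4 * n) := fun n => by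
    rw [← Nat.cast_prod, mul_comm, Real.exp_nat_mul]
    refine le_trans (b := 4 ^ n) (by exact_mod_cast primorial_le_four_pow n) (by
      gcongr; rw [show (1.4 : ℝ) = 0.7 + 0.7 by norm_num, Real.exp_add]
      nlinarith only [(Real.log_le_iff_le_exp two_pos).1 (show _ ≤ 0.7 by linarith [Real.log_two_lt_d9])])
  set P := ∏ z : y.primesLE, (q (.inl z) : ℝ) with hP
  have P1 : 1 ≤ P := one_le_prod fun z _ => q_one q _
  have P2 : P ≤ Real.exp (0.014 * x) := (prod_coe_sort _ fun p : ℕ => (p : ℝ)).trans_le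
    ((p4 y).trans (Real.exp_le_exp.2 (by linarith)))
  set Q := P * Real.exp (2 * σ) with hQ
  have Q1 : 1 ≤ Q := one_le_mul_of_one_le_of_one_le P1 (Real.one_le_exp (by linarith))
  have Q2 : Q ≤ Real.exp (x / 40) := (mul_le_mul_of_nonneg_right P2 (by positivity)).trans (by
    rw [← Real.exp_add, Real.exp_le_exp]; linarith)
  have lb : ∀ i, ((5 * N + g i : ℕ) : ℝ) ≤ 6 * N ∧ Real.log (5 * N + g i : ℕ) ≤ 2 * x := fun i => by
    have : ((5 * N + g i : ℕ) : ℝ) ≤ 6 * N := by push_cast; linarith [A5 i]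
    refine ⟨this, ?_⟩
    rw [Real.log_le_iff_le_exp (by positivity), two_mul, Real.exp_add, ← eN]
    nlinarith only [this, xN, x1]
  have mem : ∀ z : y.primesLE, z.1 ≠ p1 → z.1 ∈ y.primesLE.erase p1 := fun z h => mem_erase.2 ⟨h, z.2⟩
  have t0 : 0 < 1 / l ^ 3 := by positivity
  have t1 : 1 / l ^ 3 ≤ 1 / 2 := one_div_le_one_div_of_le two_pos (by linarith [lp 1 3 (by norm_num)])
  obtain ⟨W, T, μ, r1, r2, r3, r4, r5, r6⟩ := acore g (ar 0 (by simpa using sq_nonneg x) fun i =>
    (Nat.mul_pos d0 (g0 i)).ne) (by positivity) (N := N) (σ := σ) (x := x) (ε := 1 / √N)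
    (V := 1 / (32 * Real.exp 7 * Real.log a)) (θ := 1 / l ^ 3) (Z := l / 4)
    (η := 3000 * x ^ 4 * (Real.exp (-(l ^ 3 / 2)) * N)) hK hJ (by linarith) (by linarith)
    (by positivity) C1 rfl (fun t h1 h2 => by
      have : 4 * l ≤ t := le_trans (by
        rw [le_div_iff₀ (by positivity)]; nlinarith only [A3, l2x, A1, hσ]) h1
      exact Hb std a2 rfl (by linarith) (by linarith) h2) (by
      rw [mul_assoc, one_div_mul_eq_div, ← mul_div_assoc, div_le_one (by positivity)]
      nlinarith only [pow_le_pow_left₀ (by linarith) (show K ≤ x by linarith) 2, x1, hσ]) (by linarith) N0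
    (by linarith) (one_div_le_one_div_of_le two_pos (Real.le_sqrt_of_sq_le (by linarith))) (by
      rw [one_div_mul_eq_div, Real.div_sqrt, eN, ← Real.exp_half]
      calc _ ≤ Real.exp 1 * Real.exp (0.014 * x) ^ 2 * Real.exp (18 * σ) * Real.exp (4 * K * l) := by
            gcongr
            exacts [prod_nonneg fun z _ => by have := std.n0 z; positivity,
              by linarith [Real.add_one_le_exp 1], pn K (by linarith)]
        _ ≤ _ := by
            rw [← Real.exp_nat_mul, ← Real.exp_add, ← Real.exp_add, ← Real.exp_add, Real.exp_le_exp]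
            push_cast; nlinarith only [A4, D0, l2x, A1, x1, hσ])
    (fun z t => if z.1 = p1 then 1 else α z t) (fun z t => by
      split_ifs with h; exacts [rfl, (hα z (mem z h)).1 t]) (fun z t => by
      split_ifs with h; exacts [zero_le_one, (hα z (mem z h)).2.1 t]) (fun z => by
      split_ifs with h; exacts [by simp, (hα z (mem z h)).2.2.1])
    (fun z => if z.1 = p1 then 0 else if z.1 ≤ D then 1 else 1 - 1 / l ^ 2)
    (fun z => if z.1 ≤ D then z else 1) (fun z => if z.1 = p1 then 1 else 1 + 1 / (z - 1)) (fun z => by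
      split_ifs with h h'
      · exact ⟨1, by simp⟩
      · exact ⟨0, by simp [abs_of_nonneg ((hα z (mem z h)).2.1 _), hq, (hα z (mem z h)).2.2.1]⟩
      · exact (hα z (mem z h)).2.2.2.2 (by omega)) (fun z => by
      have z2 := p2 z.2
      change _ ≤ _ * (z.1 : ℝ) ^ _
      split_ifs with h h' h'
      · positivity
      · positivity
      · rw [← Real.rpow_one_add' (by linarith) (by linarith)]
        exact Real.one_le_rpow (by linarith) (by linarith)
      · rw [one_mul, Real.rpow_def_of_pos (by linarith)]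
        refine le_trans ?_ (Real.add_one_le_exp _)
        have : Real.log z.1 ≤ l := Real.log_le_log (by linarith) (by linarith [mS z])
        have := mul_le_mul_of_nonneg_right this t0.le
        rw [show l * (1 / l ^ 3) = 1 / l ^ 2 by field_simp] at this
        linarith) (fun z => by split_ifs; exacts [by linarith [p2 z.2], le_rfl])
    (fun z => by split_ifs; exacts [zero_le_one, zero_le_one.trans (PV_f z.2).1]) (fun i z t h => by
      have z2 := p2 z.2
      change _ * ((z.1 : ℝ) - 1) ≤ z.1 - _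
      split_ifs with h'
      · simp
      · rw [(hα z (mem z h')).2.2.2.1 i t h, add_mul, one_div_mul_cancel (by linarith)]; linarith)
    (fun z => by
      have z1 := (mM z).1
      change 5 * (K * (1 / ((z.1 : ℝ) - 1))) ≤ (z.1 : ℝ) ^ _
      refine le_trans ?_ (Real.rpow_le_rpow_of_exponent_le (by linarith) (neg_le_neg t1))
      rw [Real.rpow_neg (by linarith), ← Real.sqrt_eq_rpow, mul_one_div, ← mul_div_assoc,
        ← one_div, div_le_div_iff₀ (by linarith) (Real.sqrt_pos.2 (by linarith))]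
      have : 10 * K ≤ √z.1 := Real.le_sqrt_of_sq_le (by
        nlinarith only [A4, D0, K1, l2x, x3, z1])
      nlinarith only [Real.mul_self_sqrt (show (0 : ℝ) ≤ z.1 by linarith), this, K1,
        (show (2 : ℝ) ≤ z.1 by linarith)]) (by linarith) (by
      rw [er_prod _ _ fun p => 1 + 1 / ((p : ℝ) - 1)]
      change _ ≤ PV _
      linarith [(PV_ge y2).trans (PV_er y p1)])
    E (by
      rintro (z | z) hz
      · exact if_pos (hp1 _ hz)
      · exact (show σ < 2 * σ by linarith).trans_eq (if_pos (hp1 _ hz)).symm) (by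
      rintro (z | z)
      · exact_mod_cast (show (z.1 : ℝ) < 2 * N by linarith [mS z])
      · have := (Real.log_le_iff_le_exp (by linarith [(mM z).1])).1 ((mM z).2.trans
          (show σ ≤ x by linarith))
        exact_mod_cast (show (z.1 : ℝ) < 2 * N by linarith)) (fun i c B h1 h2 => by
      have aN : x ≤ Real.log (2 * N + g i : ℕ) := Real.log_le_log (by positivity) (by
        push_cast; linarith [Nat.cast_nonneg (α := ℝ) (g i)])
      refine (bv _ _ ⌈12 * Q ^ 5⌉₊ (Nat.log 2 (5 * N + g i) + 1) Q _ (by omega) (by omega)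
        (by rw [← pow_mul]; exact l42.trans aN) ((lb i).2.trans ?_) ?_ t0.le Q1 (Nat.le_ceil _)
        (Nat.lt_pow_succ_log_self one_lt_two _) c B h1 h2).trans (mul_le_mul_of_nonneg_left
          (eta_bd eN ex (by linarith) l42 (by linarith) Q2 (by exact_mod_cast (by omega)) (lb i).1
          (lb i).2 (by positivity) (Nat.ceil_lt_add_one (by positivity)).le (by positivity) ?_)
          (by simpa [cond] using (norm_nonneg _).trans (h1 1)))
      · refine le_trans ?_ (Real.exp_le_exp.2 (show l + 1 ≤ _ by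
          nlinarith only [lp 2 6 (by norm_num), A1]))
        rw [Real.exp_add, ← ex]; nlinarith only [Real.add_one_le_exp 1, x1]
      · rw [← Real.log_div (by positivity) (by positivity), Real.log_le_iff_le_exp (by positivity),
          div_le_iff₀ (by positivity)]
        push_cast
        nlinarith only [Real.exp_one_gt_d9, Nat.cast_nonneg (α := ℝ) (g i), Nat.cast_nonneg (α := ℝ) N]
      · have := Real.log_le_log (by positivity) (show ((2 : ℝ) ^ Nat.log 2 (5 * N + g i)) ≤
          (5 * N + g i : ℕ) by exact_mod_cast Nat.pow_log_le_self 2 (by omega))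
        rw [Real.log_pow] at this
        push_cast
        nlinarith only [(lb i).2, Real.log_two_gt_d9, this, x1,
          Nat.cast_nonneg (α := ℝ) (Nat.log 2 (5 * N + g i))])
    (by
      have u1 : (2 : ℝ) ^ Fintype.card (Option ι) ≤ Real.exp (K * l) := by
        rw [hK, Real.exp_nat_mul]; gcongr; linarith [Real.add_one_le_exp l]
      have u2 : ∏ z : y.primesLE, (q (.inl z) : ℝ) / (q (.inl z) - 1) * (if z.1 ≤ D then (z : ℝ) else 1)
          ≤ Real.exp (2 * l) * Real.exp (2 * D * l) := by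
        rw [prod_mul_distrib]
        refine mul_le_mul ((prod_congr rfl fun z _ => ?_).trans_le
          ((prod_coe_sort _ fun p : ℕ => 1 + 1 / ((p : ℝ) - 1)).trans_le ((PV_le y2).trans ?_)))
          ?_ (by positivity) (by positivity)
        · have : (z.1 : ℝ) - 1 ≠ 0 := by linarith [p2 z.2]
          change (z.1 : ℝ) / (z.1 - 1) = _; field_simp; ring
        · rw [two_mul, Real.exp_add]
          gcongr; exacts [by linarith, by linarith]
        · rw [prod_coe_sort _ fun p : ℕ => if p ≤ D then (p : ℝ) else 1, ← prod_filter]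
          refine (prod_le_prod_of_subset_of_one_le (t := D.primesLE) (fun p hp => ?_)
            (fun _ _ => by positivity) fun p hp _ => by linarith [p2 hp]).trans
            ((p4 D).trans (Real.exp_le_exp.2 (by nlinarith only [D0, A1])))
          simp only [mem_filter, Nat.mem_primesLE] at hp ⊢; tauto
      have u3 := pn (8 * K) (by linarith)
      simp only [mul_assoc 8 K] at u3
      have z0 : ∀ c, 0 ≤ c → 0 ≤ ∏ z, (1 + c * ν z) := fun c c0 =>
        prod_nonneg fun z _ => by have := std.n0 z; positivity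
      calc _ ≤ (Real.exp (K * l) * Real.exp (4 * K * l)) ^ 2 *
            (Real.exp (2 * l) * Real.exp (2 * D * l)) * Real.exp (4 * (8 * K) * l) *
            (Real.exp l * Real.exp l ^ 4 * (Real.exp (-(l ^ 3 / 2)) * N)) := by
            gcongr
            exacts [by simpa only [mul_assoc 8 K] using z0 (8 * K) (by linarith),
              prod_nonneg fun z _ => mul_nonneg (div_nonneg (by positivity) (by
                change 0 ≤ (z.1 : ℝ) - 1; linarith [p2 z.2])) (by positivity),
              mul_nonneg (by positivity) (z0 K (by linarith)), z0 K (by linarith), pn K (by linarith),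
              by linarith, ex.le]
        _ = Real.exp ((42 * K + 2 * D + 7) * l - l ^ 3 / 2) * N := by
            simp only [← Real.exp_add, ← Real.exp_nat_mul, ← mul_assoc]; congr 2; push_cast; ring
        _ ≤ Real.exp (-l) * N := by
            gcongr; nlinarith only [lp 2 3 (by norm_num), A4, A1, K1]
        _ ≤ _ := by
            rw [Real.exp_neg, ← ex, inv_mul_eq_div]; gcongr; linarith)
    (fun i => th_ge eN (by linarith) (g0 i) (by linarith [A5 i])) fun i => (lb i).2
  have vv : v ≤ l / 4 * (1 / (32 * Real.exp 7 * Real.log a)) * σ / x := by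
    rw [show l / 4 * (1 / (32 * Real.exp 7 * Real.log a)) * σ / x =
      l / (25600 * Real.exp 7 * Real.log a) by rw [hσ]; field_simp; norm_num,
      div_le_div_iff₀ (by positivity) (by positivity)]
    nlinarith only [a3, e7]
  simp only [fun t => er_prod y.primesLE p1 (α · t)] at r3 r4 r5
  refine ⟨W, T, μ, r1, le_trans ?_ r2, r3, r4, fun i j h => (r5 i j h).trans ?_,
    fun j h1 h2 β c1 c2 c3 => ?_⟩
  · rw [div_mul_eq_mul_div, mul_div_assoc, div_div (J : ℝ)]
    gcongr; linarith
  · gcongr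
    refine le_trans ?_ (le_add_of_nonneg_right (by positivity))
    gcongr
  · have := r6 j (ar j h1 h2) (fun z t => if z.1 = p1 then 1 else β z t) (fun z t => by
      split_ifs; exacts [rfl, c1 z t]) (fun z t => by split_ifs; exacts [zero_le_one, c2 z t])
      fun z t => by split_ifs; exacts [le_rfl, c3 z t]
    have e : ∀ (z : y.primesLE) t, (if z.1 = p1 then 1 else α z t) * (if z.1 = p1 then 1 else β z t) =
      if z.1 = p1 then 1 else α z t * β z t := fun z t => by split_ifs <;> simp
    simp only [e, fun t => er_prod y.primesLE p1 fun p => α p t * β p t] at this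
    rw [prod_congr rfl (g := fun z : y.primesLE => if z.1 = p1 then 1 else
      (∑ t ∈ range z, α z t * β z t) / z) fun z _ => by
        split_ifs; exacts [by simp [(pr _).ne_zero], rfl],
      er_prod _ _ fun p => (∑ t ∈ range p, α p t * β p t) / p] at this
    refine le_trans (le_of_eq (sum_congr (filter_congr fun t _ => ?_) fun _ _ => rfl)) (this.trans ?_)
    · simp [hq]
    · have : 0 ≤ ∏ p ∈ y.primesLE.erase p1, (∑ t ∈ range p, α p t * β p t) / p :=
        prod_nonneg fun p hp => div_nonneg (sum_nonneg fun t _ =>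
          mul_nonneg ((hα p hp).2.1 t) (c2 p t)) (by positivity)
      gcongr
      refine le_trans ?_ (mul_le_mul_of_nonneg_right (le_add_of_nonneg_left (by positivity))
        (by positivity))
      rw [show 3 / (1 / (32 * Real.exp 7 * Real.log a) * σ) =
        19200 * Real.exp 7 * Real.log a / x by rw [hσ]; field_simp; norm_num, ← mul_div_assoc]
      gcongr ?_ / _; nlinarith only [a3, e7]

end Pool.Agent.H59.MT
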