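import Mathlib
import Pool.Agent.H59.MT14

/-! Uniform local measures, and cells containing primes. -/

set_option autoImplicit false
set_option linter.unusedSectionVars false

namespace Pool.Agent.H59.MT

open Finset Filter

variable {ι : Type} [Fintype ι] [DecidableEq ι] (g : ι → ℕ)

/-- Allowed residues. -/
def al (p : ℕ) : Finset ℕ := (range p).filter fun t => ∀ i, ¬ p ∣ t + g i

/-- Uniform measure on allowed residues. -/
noncomputable def UU (p t : ℕ) : ℝ := if ∀ i, ¬ p ∣ t + g i then p / (al g p).card else 0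

variable {p : ℕ}

lemma al_card (hp : p.Prime) :
    ((range p).filter fun t => ¬ ∀ i, ¬ p ∣ t + g i).card ≤ Fintype.card ι := by
  obtain ⟨ρ, -, h⟩ := roots (d := 1) hp (by simpa using hp.one_lt.ne') g
  refine (card_le_card (t := univ.image ρ) fun t ht => ?_).trans card_image_le
  obtain ⟨a, b⟩ := mem_filter.1 ht
  obtain ⟨i, hi⟩ := not_forall.1 b
  exact mem_image.2 ⟨i, mem_univ _, ((h t a i).1 (by simpa using hi)).symm⟩

lemma al_card' (hp : p.Prime) : p ≤ (al g p).card + Fintype.card ι := by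
  have := card_filter_add_card_filter_not (s := range p) fun t => ∀ i, ¬ p ∣ t + g i
  have := al_card g hp
  rw [card_range] at *
  unfold al; omega

lemma al_pos (hp : p.Prime) (hg : ∀ i, (Fintype.card ι).factorial ∣ g i) : 0 < (al g p).card := by
  rcases le_or_gt p (Fintype.card ι) with h | h
  · refine card_pos.2 ⟨1, mem_filter.2 ⟨mem_range.2 hp.one_lt, fun i hi => ?_⟩⟩
    exact hp.one_lt.ne' (Nat.dvd_one.1 ((Nat.dvd_add_left
      ((Nat.dvd_factorial hp.pos h).trans (hg i))).1 hi))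
  · have := al_card' g hp; omega

lemma UU_per : Function.Periodic (UU g p) p := fun t => by
  simp only [UU, add_right_comm t p, Nat.dvd_add_self_right]

lemma UU0 (t : ℕ) : 0 ≤ UU g p t := by unfold UU; positivity

lemma UU_sum (h : 0 < (al g p).card) : ∑ t ∈ range p, UU g p t = p := by
  simp only [UU]
  rw [← sum_filter, sum_const, nsmul_eq_mul]
  exact mul_div_cancel₀ _ (by exact_mod_cast h.ne')

lemma UU_z (i : ι) (t : ℕ) (h : p ∣ t + g i) : UU g p t = 0 := if_neg fun c => c i h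

lemma UU_dev (hp : p.Prime) (h : 3 * Fintype.card ι ≤ p) :
    ∑ t ∈ range p, |UU g p t - p / (al g p).card| ≤ p / 2 := by
  have a : (p : ℝ) ≤ (al g p).card + Fintype.card ι := by exact_mod_cast al_card' g hp
  have b : (3 : ℝ) * Fintype.card ι ≤ p := by exact_mod_cast h
  have c : (0 : ℝ) < p := by exact_mod_cast hp.pos
  rw [← sum_filter_add_sum_filter_not (range p) fun t => ∀ i, ¬ p ∣ t + g i,
    sum_eq_zero fun t ht => by rw [UU, if_pos (mem_filter.1 ht).2, sub_self, abs_zero], zero_add,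
    sum_congr rfl fun t ht => by rw [UU, if_neg (mem_filter.1 ht).2, zero_sub, abs_neg], sum_const,
    nsmul_eq_mul, abs_of_nonneg (by positivity)]
  refine (mul_le_mul_of_nonneg_right (Nat.cast_le.2 (al_card g hp)) (by positivity)).trans ?_
  rw [← mul_div_assoc, div_le_div_iff₀ (by linarith) two_pos]
  nlinarith

lemma cell (I : Finset ℕ) (w : ℕ → ℝ) (w0 : ∀ t, 0 ≤ w t) (P : ℕ → ι → Prop)
    [∀ t i, Decidable (P t i)] {T μ C : ℝ} (T0 : 0 ≤ T) (C0 : 0 ≤ C) (B : Finset ι)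
    (hB : 1 ≤ B.card * μ) (h1 : ∀ i, μ * T ≤ ∑ t ∈ I with P t i, w t)
    (h2 : ∀ i j, i ≠ j → ∑ t ∈ I with P t i ∧ P t j, w t ≤ C * μ ^ 2 * T) :
    1 / (1 + C) ^ 2 * T ≤ ∑ t ∈ I with ∃ i ∈ B, P t i, w t := by
  set b := B.card * μ with hb
  set a := 1 / ((1 + C) * b) with ha
  have a0 : 0 < a := by positivity
  have a1 : a ≤ 1 := by rw [ha, div_le_one (by positivity)]; nlinarith
  set Z : ℕ → ℝ := fun t => ∑ i ∈ B, if P t i then 1 else 0 with hZ
  have z1 : b * T ≤ ∑ t ∈ I, w t * Z t := by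
    simp only [hZ, mul_sum, mul_ite, mul_one, mul_zero]
    rw [sum_comm, hb, mul_assoc, ← nsmul_eq_mul]
    exact card_nsmul_le_sum _ _ _ fun i _ => by rw [← sum_filter]; exact h1 i
  have z2 : ∑ t ∈ I, w t * Z t ^ 2 ≤ ∑ t ∈ I, w t * Z t + C * b ^ 2 * T := by
    simp only [hZ, sq, sum_mul_sum]
    simp only [mul_sum]
    rw [sum_comm, sum_comm (s := I), show C * (b * b) * T = ∑ i ∈ B, ∑ j ∈ B, C * μ ^ 2 * T by
      simp [hb]; ring, ← sum_add_distrib]
    refine sum_le_sum fun i hi => ?_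
    rw [sum_comm, ← add_sum_erase _ _ hi]
    refine add_le_add (sum_le_sum fun t _ => by split_ifs <;> simp) ((sum_le_sum fun j hj => le_trans (le_of_eq ?_)
      (h2 i j (ne_of_mem_erase hj).symm)).trans (sum_le_sum_of_subset_of_nonneg (erase_subset _ _)
        fun _ _ _ => by positivity))
    rw [sum_filter]
    exact sum_congr rfl fun t _ => by by_cases P t i <;> by_cases P t j <;> simp [*]
  have z3 : ∑ t ∈ I, (2 * a * (w t * Z t) - a ^ 2 * (w t * Z t ^ 2)) ≤
      ∑ t ∈ I with ∃ i ∈ B, P t i, w t := by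
    rw [sum_filter]
    refine sum_le_sum fun t _ => ?_
    split_ifs with h
    · nlinarith [mul_nonneg (w0 t) (sq_nonneg (1 - a * Z t))]
    · rw [show Z t = 0 from sum_eq_zero fun i hi => if_neg fun c => h ⟨i, hi, c⟩]; simp
  rw [sum_sub_distrib, ← mul_sum, ← mul_sum] at z3
  have e : 1 / (1 + C) ^ 2 * T = a * (b * T) - a ^ 2 * (C * b ^ 2 * T) := by
    rw [ha]; field_simp; ring
  have := mul_le_mul_of_nonneg_left z2 (sq_nonneg a)
  have := mul_le_mul_of_nonneg_left z1 (show 0 ≤ 2 * a - a ^ 2 by nlinarith)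
  have : 0 ≤ (a - a ^ 2) * (b * T) := mul_nonneg (by nlinarith) (by positivity)
  linarith

lemma shifts (Q : ℕ → Prop) (hQ : ∀ L, ∃ n, ∀ z, n ≤ z → z ≤ n + L → Q z) {M : ℕ} (M0 : 0 < M)
    (D A : ℕ) : ∃ F : Finset ℕ, F.card = A ∧ (∀ s ∈ F, M ∣ s) ∧ ∀ s ∈ F, ∀ r ∈ F, s < r →
      ∀ u ≤ D, ∀ v ≤ D, s + u < r + v ∧ Q (r + v - (s + u)) := by
  induction A with
  | zero => exact ⟨∅, by simp⟩
  | succ A ih =>
    obtain ⟨F, f1, f2, f3⟩ := ih
    obtain ⟨S, hS⟩ := F.bddAbove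
    obtain ⟨n, hn⟩ := hQ (S + D + M + D)
    have a := Nat.lt_mul_div_succ (n + S + D) M0
    have b := Nat.mul_div_le (n + S + D) M
    set x := M * ((n + S + D) / M + 1) with hx
    have c : x ≤ n + S + D + M := by rw [hx, mul_add]; omega
    have hS' : ∀ s ∈ F, s ≤ S := fun s h => hS h
    refine ⟨insert x F, by rw [card_insert_of_notMem fun h => by have := hS' _ h; omega, f1],
      by simpa using ⟨dvd_mul_right _ _, f2⟩, fun s hs r hr sr u hu v hv => ?_⟩
    rcases mem_insert.1 hs with e | hs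
    · rcases mem_insert.1 hr with e' | hr
      · omega
      · have := hS' _ hr; omega
    · rcases mem_insert.1 hr with e' | hr
      · have := hS' _ hs
        exact ⟨by omega, hn _ (by omega) (by omega)⟩
      · exact f3 s hs r hr sr u hu v hv

lemma tree {k : ℕ} (c : ℕ → Fin k) (hc : ∀ (i : Fin k) L, ∃ n, ∀ z, n ≤ z → z ≤ n + L →
    ∀ p : ℕ, p.Prime → (p + z).Prime → c p = i → c (p + z) ≠ i) {M A : ℕ} (M0 : 0 < M) (A0 : 0 < A)
    (B j : ℕ) (hj : j ≤ k) : ∃ H : Finset ℕ, H.card = B * A ^ j ∧ (∀ h ∈ H, 0 < h ∧ M ∣ h) ∧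
      ∀ (π : ℕ → ℕ) (w : ℕ → ℝ) (I : Finset ℕ) (T δ : ℝ), (∀ t, 0 ≤ w t) → ∑ t ∈ I, w t ≤ T →
        (∀ C ⊆ H, C.card = B → δ * T ≤ ∑ t ∈ I with ∃ h ∈ C, (π t + h).Prime, w t) →
        (δ - j / A) * T ≤ ∑ t ∈ I with ∃ h ∈ H, (π t + h).Prime ∧ j ≤ (c (π t + h)).1, w t := by
  induction j with
  | zero =>
    have e : ((range B).image fun b => M * (b + 1)).card = B := by
      rw [card_image_of_injective _ fun a b h => by simpa [M0.ne'] using h, card_range]
    refine ⟨_, by simpa using e, by simp [M0], fun π w I T δ _ _ h => ?_⟩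
    simpa using h _ Subset.rfl e
  | succ j ih =>
    obtain ⟨H, h1, h2, h3⟩ := ih (by omega)
    obtain ⟨D, hD⟩ := H.bddAbove
    obtain ⟨F, f1, f2, f3⟩ := shifts _ (hc ⟨j, hj⟩) M0 D A
    have inj : Set.InjOn (fun z : ℕ × ℕ => z.1 + z.2) (F ×ˢ H : Finset _) := by
      rintro ⟨s, u⟩ a ⟨r, v⟩ b e
      obtain ⟨a1, a2⟩ := mem_product.1 a
      obtain ⟨b1, b2⟩ := mem_product.1 b
      have := fun h => (f3 s a1 r b1 h u (hD a2) v (hD b2)).1
      have := fun h => (f3 r b1 s a1 h v (hD b2) u (hD a2)).1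
      simp only [Prod.mk.injEq] at *; omega
    have mem : ∀ s ∈ F, ∀ u ∈ H, s + u ∈ (F ×ˢ H).image fun z => z.1 + z.2 := fun s a u b =>
      mem_image.2 ⟨(s, u), mem_product.2 ⟨a, b⟩, rfl⟩
    refine ⟨(F ×ˢ H).image fun z => z.1 + z.2, by
      rw [card_image_of_injOn inj, card_product, f1, h1]; ring, fun h hh => ?_,
      fun π w I T δ w0 wT hC => ?_⟩
    · obtain ⟨z, hz, rfl⟩ := mem_image.1 hh
      obtain ⟨a, b⟩ := mem_product.1 hz
      exact ⟨Nat.add_pos_right _ (h2 _ b).1, dvd_add (f2 _ a) (h2 _ b).2⟩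
    have a := card_nsmul_le_sum F _ _ fun s hs => h3 (fun t => π t + s) w I T δ w0 wT
      fun C c1 c2 => by
        simpa [add_assoc] using hC (C.image (s + ·)) (image_subset_iff.2 fun u hu => mem s hs u (c1 hu))
          (by rw [card_image_of_injective _ (add_right_injective s), c2])
    have A1 : (0 : ℝ) < A := by exact_mod_cast A0
    simp only [sum_filter] at a ⊢
    rw [sum_comm, f1, nsmul_eq_mul] at a
    refine le_of_mul_le_mul_left ?_ A1
    rw [show A * ((δ - (j + 1 : ℕ) / A) * T) = A * ((δ - j / A) * T) - T by push_cast; field_simp; ring,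
      mul_sum, sub_le_iff_le_add]
    refine a.trans (le_trans ?_ (add_le_add_right wT _))
    rw [← sum_add_distrib]
    refine sum_le_sum fun t _ => ?_
    rw [← sum_filter, sum_const, nsmul_eq_mul]
    split_ifs with h
    · refine le_add_of_le_of_nonneg (mul_le_mul_of_nonneg_right ?_ (w0 t)) (w0 t)
      exact_mod_cast f1 ▸ card_filter_le _ _
    · rw [mul_zero, zero_add]
      refine mul_le_of_le_one_left (w0 t) (Nat.cast_le_one.2 (card_le_one.2 ?_))
      have key : ∀ s ∈ F, ∀ u ∈ H, (π t + s + u).Prime → j ≤ (c (π t + s + u)).1 →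
          c (π t + s + u) = ⟨j, hj⟩ := fun s a u b p e => Fin.ext (le_antisymm (by
        by_contra x
        exact h ⟨s + u, mem s a u b, by rw [← add_assoc]; exact ⟨p, not_le.1 x⟩⟩) e)
      suffices ∀ s ∈ F.filter fun s => ∃ h ∈ H, (π t + s + h).Prime ∧ j ≤ (c (π t + s + h)).1,
          ∀ r ∈ F.filter fun s => ∃ h ∈ H, (π t + s + h).Prime ∧ j ≤ (c (π t + s + h)).1, ¬ s < r from
        fun s a r b => le_antisymm (not_lt.1 (this r b s a)) (not_lt.1 (this s a r b))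
      intro s a r b sr
      obtain ⟨a, u, u1, u2, u3⟩ := mem_filter.1 a
      obtain ⟨b, v, v1, v2, v3⟩ := mem_filter.1 b
      obtain ⟨x, y⟩ := f3 s a r b sr u (hD u1) v (hD v1)
      have e : π t + s + u + (r + v - (s + u)) = π t + r + v := by omega
      exact y _ u2 (e ▸ v2) (key s a u u1 u2 u3) (e ▸ key r b v v1 v2 v3)

theorem syn (k : ℕ) (c : ℕ → Fin k) (hc : ∀ (i : Fin k) L, ∃ n, ∀ z, n ≤ z → z ≤ n + L →
    ∀ p : ℕ, p.Prime → (p + z).Prime → c p = i → c (p + z) ≠ i) : False := by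
  obtain ⟨c0, C, c1, C1, core⟩ := core
  obtain ⟨A, hA⟩ := exists_nat_gt (k * (1 + C) ^ 2)
  have A0 : 0 < A := by exact_mod_cast (show (0 : ℝ) < A from lt_of_le_of_lt (by positivity) hA)
  obtain ⟨J, hJ⟩ := exists_nat_gt (A ^ k / c0)
  have J0 : 0 < J := by exact_mod_cast (show (0 : ℝ) < J from lt_of_le_of_lt (by positivity) hJ)
  obtain ⟨H, h1, h2, h3⟩ := tree c hc (2 ^ J * A ^ k).factorial_pos A0 (2 ^ J) k le_rfl
  have hK : Fintype.card H = 2 ^ J * A ^ k := by simpa using h1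
  obtain ⟨N, ⟨p1, hN⟩, -, hl, -⟩ := ((core H J 1 (3 * Fintype.card H) (·.1) J0
    (hK ▸ Nat.le_mul_of_pos_right _ (by positivity)) one_pos Subtype.val_injective
    fun h => (h2 _ h.2).1).and (evl 2)).exists
  obtain ⟨W, T, μ, T0, m1, m2, m3, m4, -⟩ := hN (UU fun h : H => h.1) fun p hp => by
    have hp := (Nat.mem_primesLE.1 (mem_of_mem_erase hp)).2
    refine ⟨UU_per _, UU0 _, UU_sum _ (al_pos _ hp fun h => hK ▸ (h2 _ h.2).2), UU_z _,
      fun h => ⟨_, (UU_dev _ hp h.le).trans ?_⟩⟩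
    have : 1 / Real.log (Real.log N) ^ 2 ≤ 1 / 2 := one_div_le_one_div_of_le two_pos (by nlinarith)
    nlinarith [Nat.cast_nonneg (α := ℝ) p]
  have w0 := fun t => mul_nonneg (prod_nonneg fun p (_ : p ∈ SP N p1) =>
    UU0 (fun h : H => h.1) (p := p) t) (sq_nonneg (W t))
  have := h3 id _ _ T (1 / (1 + C) ^ 2) w0 m2 fun B b1 b2 => by
    refine (cell _ _ w0 (fun t (h : H) => (t + h).Prime) T0.le C1.le (B.subtype (· ∈ H)) ?_ m3
      m4).trans_eq (sum_congr (filter_congr fun t _ => ?_) fun _ _ => rfl)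
    · rw [card_subtype, filter_true_of_mem b1, b2]
      refine le_trans ?_ (mul_le_mul_of_nonneg_left m1 (by positivity))
      rw [div_lt_iff₀ c1] at hJ
      rw [hK]; push_cast; field_simp; linarith
    · exact ⟨fun ⟨h, a, b⟩ => ⟨h, mem_subtype.1 a, b⟩, fun ⟨h, a, b⟩ =>
        ⟨⟨h, b1 a⟩, mem_subtype.2 a, b⟩⟩
  rw [filter_false_of_mem fun t _ ⟨h, _, _, e⟩ => absurd (c _).2 (not_lt.2 e), sum_empty] at this
  refine absurd this (not_le.2 (mul_pos (sub_pos.2 ?_) T0))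
  rw [div_lt_div_iff₀ (by positivity) (by positivity)]; linarith

end Pool.Agent.H59.MT
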