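import Mathlib

/-! Increments of the logarithm of the number of divisors of factorials. -/

set_option autoImplicit false

namespace Pool.Agent.H59.MT

open Finset Filter
open scoped ArithmeticFunction.sigma

/-- Logarithm of the number of divisors of the factorial. -/
noncomputable def LT (n : ℕ) : ℝ := Real.log (σ 0 n.factorial)

lemma tau_eq {n : ℕ} (hn : n ≠ 0) {S : Finset ℕ} (hS : n.primeFactors ⊆ S) :
    Real.log (σ 0 n) = ∑ p ∈ S, Real.log (n.factorization p + 1) := by
  rw [ArithmeticFunction.sigma_zero_apply, Nat.card_divisors hn, Nat.cast_prod,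
    Real.log_prod fun _ _ => by positivity]
  push_cast
  exact sum_subset hS fun p _ h => by
    rw [Finsupp.notMem_support_iff.1 (by rwa [Nat.support_factorization])]; simp

lemma LT_succ (n : ℕ) : LT (n + 1) - LT n = ∑ p ∈ (n + 1).primeFactors,
    Real.log (1 + (n + 1).factorization p / (n.factorial.factorization p + 1)) := by
  have e := Nat.primeFactors_mul n.succ_ne_zero n.factorial_ne_zero
  rw [LT, LT, Nat.factorial_succ, tau_eq (by positivity) Subset.rfl, tau_eq n.factorial_ne_zero
    (e ▸ subset_union_right), ← sum_sub_distrib, Nat.factorization_mul n.succ_ne_zero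
    n.factorial_ne_zero, eq_comm]
  refine sum_subset_zero_on_sdiff (e ▸ subset_union_left) (fun p h => ?_) fun p _ => ?_
  · simp [Finsupp.notMem_support_iff.1 (show p ∉ (n + 1).factorization.support from
      (Finset.mem_sdiff.1 h).2)]
  · rw [← Real.log_div (by positivity) (by positivity)]
    congr 1; simp; field_simp; ring

lemma LT_mono : Monotone LT := monotone_nat_of_le_succ fun n => sub_nonneg.1 (by
  rw [LT_succ]; exact sum_nonneg fun p _ => Real.log_nonneg (le_add_of_nonneg_right (by positivity)))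

lemma vfac {p c n : ℕ} (hp : p.Prime) (h : n + 1 = p * c) :
    n.factorial.factorization p + 1 + c.factorization p = c.factorial.factorization p + c := by
  have c0 : c ≠ 0 := by rintro rfl; simp at h
  rw [← Nat.factorization_factorial_mul hp, ← h, Nat.factorial_succ, Nat.factorization_mul
    (n.add_one_ne_zero) n.factorial_ne_zero, h, Nat.factorization_mul hp.ne_zero c0]
  simp [hp.factorization_self]; omega

lemma LT_ge {p d n : ℕ} (hp : p.Prime) (h : n + 1 = p * d) (hd : d < p) :
    Real.log (1 + 1 / d) ≤ LT (n + 1) - LT n := by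
  have d0 : d ≠ 0 := by rintro rfl; simp at h
  have a := vfac hp h
  have b : d.factorization p = 0 := Nat.factorization_eq_zero_of_lt hd
  rw [Nat.factorization_factorial_eq_zero_of_lt hd, b] at a
  rw [LT_succ]
  refine le_trans (le_of_eq ?_) (single_le_sum (fun p _ => Real.log_nonneg (le_add_of_nonneg_right
    (by positivity))) (Nat.mem_primeFactors.2 ⟨hp, ⟨d, h⟩, n.succ_ne_zero⟩))
  rw [h, Nat.factorization_mul hp.ne_zero d0, show (n.factorial.factorization p + 1 : ℝ) = d by
    exact_mod_cast (by omega)]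
  simp [hp.factorization_self, b]

/-- Sum of prime factors. -/
noncomputable def sop (m : ℕ) : ℝ := m.factorization.sum fun p v => (v : ℝ) * p

lemma LT_le (n : ℕ) : LT (n + 1) - LT n ≤ sop (n + 1) / (n + 1 : ℕ) := by
  rw [LT_succ, sop, Finsupp.sum, Nat.support_factorization, sum_div]
  refine sum_le_sum fun p hp => (Real.log_le_sub_one_of_pos (by positivity)).trans ?_
  obtain ⟨hp, ⟨c, h⟩, -⟩ := Nat.mem_primeFactors.1 hp
  have c0 : c ≠ 0 := by rintro rfl; simp at h
  have a := vfac hp h
  have b := (Nat.factorization_le_iff_dvd c0 c.factorial_ne_zero).2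
    (Nat.dvd_factorial (Nat.pos_of_ne_zero c0) le_rfl) p
  have : (c : ℝ) ≤ n.factorial.factorization p + 1 := by exact_mod_cast (by omega)
  have := hp.pos
  rw [add_sub_cancel_left]
  nth_rewrite 3 [h]
  rw [Nat.cast_mul, mul_comm (p : ℝ), mul_div_mul_right _ _ (by positivity)]
  gcongr

lemma sop_le {m : ℕ} {R : ℝ} (R0 : 0 ≤ R) (h : ∀ p ∈ m.primeFactors, (p : ℝ) ≤ R) :
    sop m ≤ 2 * Real.log m * R := by
  rw [Real.log_nat_eq_sum_factorization, sop, Finsupp.sum, Finsupp.sum, mul_sum, sum_mul]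
  refine sum_le_sum fun p hp => ?_
  have : Real.log 2 ≤ Real.log p := Real.log_le_log two_pos (by
    exact_mod_cast (Nat.prime_of_mem_primeFactors hp).two_le)
  calc _ ≤ (m.factorization p : ℝ) * (1 * R) := by gcongr; simpa using h p hp
    _ ≤ (m.factorization p : ℝ) * (2 * Real.log p * R) := by
      gcongr; linarith [Real.log_two_gt_d9]
    _ = _ := by ring

lemma LT_le2 {n M : ℕ} (M0 : 0 < M) (hM : M ^ 2 ≤ n + 1) {B : ℝ} (B0 : 0 ≤ B)
    (hB : ∀ p c : ℕ, p.Prime → n + 1 = p * c → c < M → 1 / (c : ℝ) ≤ B) :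
    LT (n + 1) - LT n ≤ 2 * Real.log (n + 1 : ℕ) / M + B := by
  refine (LT_le n).trans ?_
  have m0 : 0 < n + 1 := n.succ_pos
  generalize n + 1 = m at *
  have l0 := Real.log_natCast_nonneg m
  by_cases h : ∃ p c : ℕ, p.Prime ∧ m = p * c ∧ c < M
  · obtain ⟨p, c, hp, e, cM⟩ := h
    have c0 : c ≠ 0 := by rintro rfl; omega
    have p0 := hp.pos
    have s : sop m = p + sop c := by
      rw [sop, e, Nat.factorization_mul hp.ne_zero c0, Finsupp.sum_add_index' (by simp)
        (by intros; push_cast; ring), hp.factorization, Finsupp.sum_single_index (by simp)]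
      simp [sop]
    rw [s, add_div, add_comm]
    refine add_le_add ?_ (le_trans (le_of_eq ?_) (hB p c hp e cM))
    · have := sop_le (m := c) (R := M) (by positivity) fun q hq => by
        exact_mod_cast (Nat.le_of_mem_primeFactors hq).trans cM.le
      have lc : Real.log c ≤ Real.log m := by gcongr; exact e ▸ Nat.le_mul_of_pos_left c p0
      have hM : (M : ℝ) ^ 2 ≤ m := by exact_mod_cast hM
      rw [div_le_div_iff₀ (by positivity) (by positivity)]
      calc _ ≤ 2 * Real.log m * M * M := by gcongr; exact this.trans (by gcongr)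
        _ = 2 * Real.log m * M ^ 2 := by ring
        _ ≤ _ := by gcongr
    · rw [e]; push_cast; field_simp
  · refine le_add_of_le_of_nonneg ?_ B0
    rw [div_le_iff₀ (by positivity)]
    refine (sop_le (R := m / M) (by positivity) fun p hp => ?_).trans_eq (by ring)
    obtain ⟨hp, ⟨c, e⟩, -⟩ := Nat.mem_primeFactors.1 hp
    rw [le_div_iff₀ (by positivity), e]
    exact_mod_cast Nat.mul_le_mul_left p (not_lt.1 fun a => h ⟨p, c, hp, e, a⟩)

lemma ivt (V : ℕ → ℝ) {y η : ℝ} (a k : ℕ) (h0 : y ≤ V a) (h1 : V (a + k) < y)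
    (h : ∀ j < k, V (a + j) - V (a + j + 1) ≤ η) : ∃ n, |V n - y| ≤ η := by
  induction k with
  | zero => exact absurd h0 (not_le.2 h1)
  | succ k ih =>
    by_cases c : V (a + k) < y
    · exact ih c fun j hj => h j (by omega)
    · have := h k (by omega)
      exact ⟨a + k + 1, abs_le.2 ⟨by linarith, by rw [← add_assoc] at h1; linarith⟩⟩

open Classical in
lemma rankin (z L : ℕ) {s : ℝ} (s1 : 1 / 2 ≤ s) :
    (((Icc 1 L).filter fun j => ∀ p : ℕ, p.Prime → p ∣ j → p ≤ z).card : ℝ) ≤
      L ^ s * Real.exp (4 * ∑ p ∈ z.primesLE, (p : ℝ) ^ (-s)) := by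
  let f : ℕ →* ℝ := ⟨⟨fun n => (n : ℝ) ^ (-s), by simp⟩, fun a b => by
    simp [Real.mul_rpow (Nat.cast_nonneg a) (Nat.cast_nonneg b)]⟩
  have b : ∀ {p : ℕ}, p.Prime → 0 ≤ f p ∧ f p ≤ 3 / 4 := fun {p} hp => by
    have p2 : (2 : ℝ) ≤ p := by exact_mod_cast hp.two_le
    refine ⟨Real.rpow_nonneg (by linarith) _, (Real.rpow_le_rpow_of_exponent_le (by linarith)
      (neg_le_neg s1)).trans ((Real.rpow_le_rpow_of_nonpos two_pos p2 (by norm_num)).trans ?_)⟩
    rw [Real.rpow_neg zero_le_two, ← Real.sqrt_eq_rpow, inv_le_comm₀ (by positivity) (by norm_num)]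
    exact Real.le_sqrt_of_sq_le (by norm_num)
  have h := (EulerProduct.summable_and_hasSum_smoothNumbers_prod_primesBelow_geometric (f := f)
    (fun hp => by rw [Real.norm_of_nonneg (b hp).1]; linarith [(b hp).2]) (z + 1)).2
  set S := (Icc 1 L).filter fun j => ∀ p : ℕ, p.Prime → p ∣ j → p ≤ z
  have := sum_le_hasSum (S.subtype (· ∈ (z + 1).smoothNumbers)) (fun n _ =>
    Real.rpow_nonneg (Nat.cast_nonneg _) _) h
  rw [sum_subtype_of_mem (s := S) (fun n : ℕ => (n : ℝ) ^ (-s)) fun n hn =>
    Nat.mem_smoothNumbers'.2 fun p a b => Nat.lt_succ_of_le ((mem_filter.1 hn).2 p a b)] at this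
  refine le_trans ?_ (mul_le_mul_of_nonneg_left (this.trans ?_) (by positivity))
  · rw [mul_sum, card_eq_sum_ones, Nat.cast_sum]
    refine sum_le_sum fun j hj => ?_
    obtain ⟨j1, j2⟩ := mem_Icc.1 (mem_filter.1 hj).1
    rw [Real.rpow_neg (by positivity), ← div_eq_mul_inv, Nat.cast_one, one_le_div (by positivity)]
    gcongr
  · rw [mul_sum, Real.exp_sum]
    refine prod_le_prod (fun p hp => inv_nonneg.2 (by
      linarith [(b (Nat.prime_of_mem_primesBelow hp)).2])) fun p hp => ?_
    obtain ⟨c, d⟩ := b (Nat.prime_of_mem_primesBelow hp)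
    refine le_trans ?_ (Real.add_one_le_exp _)
    change _ ≤ 4 * f p + 1
    rw [inv_le_iff_one_le_mul₀ (by linarith)]
    nlinarith

end Pool.Agent.H59.MT
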