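import Mathlib
import Pool.Agent.H59.MT15
import Pool.Agent.H59.MT16

/-! A randomised Rankin construction. -/

set_option autoImplicit false
set_option linter.unusedSectionVars false

namespace Pool.Agent.H59.MT

open Finset Filter

variable {ι : Type} [Fintype ι] [DecidableEq ι] (g : ι → ℕ)

/-- The local measures. -/
noncomputable def AL (z : ℕ) (κ : ℝ) (p t : ℕ) : ℝ :=
  if p ≤ z then UU g p t else (1 - κ) * (if p ∣ t then (p : ℝ) else 0) + κ * UU g p t

/-- The local savings. -/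
noncomputable def BE (d j p t : ℕ) : ℝ := if p ∣ d * t + j then 1 / p else 1

lemma BE0 (d j p t : ℕ) : 0 ≤ BE d j p t := by unfold BE; positivity

lemma BE1 (d j p t : ℕ) : BE d j p t ≤ 1 := by
  unfold BE; split_ifs; exacts [by simpa using Nat.cast_inv_le_one p, le_rfl]

lemma BE_per (d j p : ℕ) : Function.Periodic (BE d j p) p := fun t => by
  simp only [BE, mul_add, add_right_comm _ (d * p), Nat.dvd_add_left (dvd_mul_left p d)]

lemma mean_le {α : ℕ → ℝ} {p : ℕ} (p0 : 0 < p) (a0 : ∀ t, 0 ≤ α t) (a1 : ∑ t ∈ range p, α t = p)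
    (d j : ℕ) : (∑ t ∈ range p, α t * BE d j p t) / p ≤ 1 ∧ ∀ u < p, p ∣ d * u + j →
      (∑ t ∈ range p, α t * BE d j p t) / p ≤ 1 - α u * (1 - 1 / p) / p := by
  have b := fun t => mul_le_of_le_one_right (a0 t) (BE1 d j p t)
  refine ⟨(div_le_one (by positivity)).2 (a1 ▸ sum_le_sum fun t _ => b t), fun u hu h => ?_⟩
  rw [one_sub_div (by positivity)]
  refine div_le_div_of_nonneg_right ?_ (by positivity)
  have := sum_le_sum fun t (_ : t ∈ (range p).erase u) => b t
  rw [← add_sum_erase _ _ (mem_range.2 hu)] at a1 ⊢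
  rw [BE, if_pos h]
  linarith

variable {p z : ℕ} {κ : ℝ}

lemma AL0 (k0 : 0 ≤ κ) (k1 : κ ≤ 1) (t : ℕ) : 0 ≤ AL g z κ p t := by
  have := UU0 g (p := p) t
  have := sub_nonneg.2 k1
  unfold AL; positivity

lemma one_sum (hp : 0 < p) : ∑ t ∈ range p, (if p ∣ t then (p : ℝ) else 0) = p := by
  rw [sum_eq_single_of_mem 0 (mem_range.2 hp) fun t ht h =>
    if_neg (Nat.not_dvd_of_pos_of_lt (Nat.pos_of_ne_zero h) (mem_range.1 ht)), if_pos (dvd_zero p)]

lemma AL_sum (hp : p.Prime) (hg : ∀ i, (Fintype.card ι).factorial ∣ g i) :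
    ∑ t ∈ range p, AL g z κ p t = p := by
  have := UU_sum g (al_pos g hp hg)
  by_cases h : p ≤ z <;> simp only [AL, h, if_true, if_false, sum_add_distrib, ← mul_sum, this,
    one_sum hp.pos]
  ring

lemma AL_ok (hp : p.Prime) (hg : ∀ i, (Fintype.card ι).factorial ∣ g i) (g0 : ∀ i, 0 < g i)
    (gz : ∀ i, g i ≤ z) (k0 : 0 ≤ κ) (k1 : κ ≤ 1) : Function.Periodic (AL g z κ p) p ∧
    (∀ t, 0 ≤ AL g z κ p t) ∧ ∑ t ∈ range p, AL g z κ p t = p ∧
    (∀ i t, p ∣ t + g i → AL g z κ p t = 0) ∧ (3 * Fintype.card ι < p → ∃ k,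
      ∑ t ∈ range p, |AL g z κ p t - k| ≤ p * (1 - κ / 2)) := by
  refine ⟨fun t => by simp only [AL, UU_per g t, Nat.dvd_add_self_right], AL0 g k0 k1,
    AL_sum g hp hg, fun i t h => ?_, fun h => ?_⟩
  · rw [AL, UU_z g i t h]
    split_ifs with a b <;> simp
    have := Nat.le_of_dvd (g0 i) ((Nat.dvd_add_right b).1 h)
    have := gz i; omega
  · have a := UU_dev g hp h.le
    have p0 : (0 : ℝ) ≤ p := by positivity
    by_cases b : p ≤ z
    · exact ⟨p / (al g p).card, by simp only [AL, b, if_true]; nlinarith⟩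
    · refine ⟨κ * (p / (al g p).card), (sum_le_sum (g := fun t => (1 - κ) *
        (if p ∣ t then (p : ℝ) else 0) + κ * |UU g p t - p / (al g p).card|) fun t _ => ?_).trans ?_⟩
      · rw [AL, if_neg b, add_sub_assoc, ← mul_sub]
        refine (abs_add_le _ _).trans_eq ?_
        rw [abs_mul κ, abs_of_nonneg k0, abs_of_nonneg (mul_nonneg (by linarith) (by positivity))]
      · rw [sum_add_distrib, ← mul_sum, ← mul_sum, one_sum hp.pos]; nlinarith

lemma su {s t : Finset ℕ} {f : ℕ → ℝ} (h : ∀ n, 0 ≤ f n) :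
    ∑ n ∈ s ∪ t, f n ≤ ∑ n ∈ s, f n + ∑ n ∈ t, f n := by
  rw [← sum_union_inter]; exact le_add_of_nonneg_right (sum_nonneg fun n _ => h n)

lemma om (m : ℕ) : (m.primeFactors.card : ℝ) ≤ 2 * Real.log m := by
  rw [Real.log_nat_eq_sum_factorization, Finsupp.sum, mul_sum, card_eq_sum_ones, Nat.cast_sum]
  refine sum_le_sum fun p hp => ?_
  have : Real.log 2 ≤ Real.log p := Real.log_le_log two_pos (by
    exact_mod_cast (Nat.prime_of_mem_primeFactors hp).two_le)
  have : (1 : ℝ) ≤ m.factorization p := by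
    exact_mod_cast Nat.pos_of_ne_zero (Finsupp.mem_support_iff.1 hp)
  push_cast; nlinarith [Real.log_two_gt_d9]

lemma small (hg : ∀ i, (Fintype.card ι).factorial ∣ g i) (k0 : 0 ≤ κ) (k1 : κ ≤ 1) {d j y w p1 : ℕ}
    {R : ℝ} (d0 : 0 < d) (dw : d ≤ w) (w2 : 2 ≤ w) (z2 : 2 ≤ z) (zy : z ≤ y) (hj : ∀ i, j ≠ d * g i)
    (jR : j ≤ R) (gR : ∀ i, (d * g i : ℕ) ≤ R) (hw : 1 + 2 * (Fintype.card ι * Real.log R) ≤ 2 * w) :
    ∏ p ∈ y.primesLE.erase p1, (∑ t ∈ range p, AL g z κ p t * BE d j p t) / p ≤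
      Real.exp (-(Real.log (Real.log z) - Real.log (Real.log w) - 9) / 2) := by
  set n := ∏ i, ((d * g i : ℕ) - j : ℤ).natAbs with hn
  have n1 : ∀ i, 0 < ((d * g i : ℕ) - j : ℤ).natAbs := fun i => by have := hj i; omega
  have n2 : Real.log n ≤ Fintype.card ι * Real.log R := by
    rw [hn, Nat.cast_prod, Real.log_prod fun i _ => by exact_mod_cast (n1 i).ne', ← nsmul_eq_mul]
    refine sum_le_card_nsmul _ _ _ fun i _ => Real.log_le_log (by exact_mod_cast n1 i) ?_
    rw [Nat.cast_natAbs, Int.cast_abs, Int.cast_sub, Int.cast_natCast, Int.cast_natCast, abs_le]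
    constructor <;> linarith [gR i, Nat.cast_nonneg (α := ℝ) j, Nat.cast_nonneg (α := ℝ) (d * g i)]
  set B := (y.primesLE.erase p1).filter fun p => w < p ∧ p ≤ z ∧ ¬ p ∣ n with hB
  have a : ∑ p ∈ z.primesLE, 1 / (p : ℝ) ≤ ∑ p ∈ w.primesLE, 1 / (p : ℝ) + ∑ p ∈ B, 1 / (p : ℝ) +
      ∑ p ∈ (insert p1 n.primeFactors).filter (w < ·), 1 / (p : ℝ) := by
    refine (sum_le_sum_of_subset_of_nonneg (fun p hp => ?_) fun _ _ _ => by positivity).trans
      ((su fun _ => by positivity).trans (add_le_add_left (su fun _ => by positivity) _))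
    have : n ≠ 0 := prod_ne_zero_iff.2 fun i _ => (n1 i).ne'
    simp only [hB, mem_union, mem_filter, mem_erase, mem_insert, Nat.mem_primesLE,
      Nat.mem_primeFactors] at hp ⊢
    grind
  have b : ∑ p ∈ (insert p1 n.primeFactors).filter (w < ·), 1 / (p : ℝ) ≤ 2 := by
    refine (sum_le_card_nsmul _ _ (1 / (w : ℝ)) fun p hp => one_div_le_one_div_of_le (by positivity)
      (by exact_mod_cast (mem_filter.1 hp).2.le)).trans ?_
    have : (((insert p1 n.primeFactors).filter (w < ·)).card : ℝ) ≤ n.primeFactors.card + 1 := by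
      exact_mod_cast (card_filter_le _ _).trans (card_insert_le _ _)
    rw [nsmul_eq_mul, mul_one_div, div_le_iff₀ (by positivity)]
    linarith [om n]
  have c := (Real.log_le_iff_le_exp (Real.log_pos (by exact_mod_cast z2))).2 (EG.loglog z z2)
  refine le_trans ?_ (Real.exp_le_exp.2 (show ∑ p ∈ B, -(1 / (p : ℝ)) / 2 ≤ _ by
    rw [← sum_div, sum_neg_distrib]; linarith [EG.mert w w2]))
  rw [Real.exp_sum, hB, prod_filter]
  refine prod_le_prod (fun p _ => div_nonneg (sum_nonneg fun t _ => mul_nonneg (AL0 g k0 k1 t)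
    (BE0 _ _ _ _)) (by positivity)) fun p hp => ?_
  have p2 := p2 (mem_of_mem_erase hp)
  have hp := (Nat.mem_primesLE.1 (mem_of_mem_erase hp)).2
  obtain ⟨m1, m2⟩ := mean_le hp.pos (AL0 g (z := z) k0 k1) (AL_sum g hp hg) d j
  split_ifs with h
  · obtain ⟨ρ, r1, r2⟩ := roots hp (Nat.not_dvd_of_pos_of_lt d0 (by omega)) fun _ : Unit => j
    have r3 := (r2 _ (mem_range.2 (r1 ())) ()).2 rfl
    refine (m2 _ (r1 ()) r3).trans (le_trans ?_ (Real.add_one_le_exp _))
    have : 1 ≤ AL g z κ p (ρ ()) := by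
      rw [AL, if_pos h.2.1, UU, if_pos fun i hi => h.2.2 (dvd_trans ?_ (dvd_prod_of_mem _ (mem_univ i))),
        one_le_div (by exact_mod_cast al_pos g hp hg)]
      · exact_mod_cast (card_filter_le _ _).trans_eq (card_range p)
      · rw [← Int.natCast_dvd]
        have := dvd_sub (Int.natCast_dvd_natCast.2 (hi.mul_left d)) (Int.natCast_dvd_natCast.2 r3)
        rwa [show ((d * (ρ () + g i) : ℕ) - (d * ρ () + j : ℕ) : ℤ) = (d * g i : ℕ) - j by
          push_cast; ring] at this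
    have e : 1 / (p : ℝ) ≤ 1 / 2 := one_div_le_one_div_of_le two_pos p2
    have : 1 / 2 / (p : ℝ) ≤ AL g z κ p (ρ ()) * (1 - 1 / p) / p := by gcongr; nlinarith
    rw [div_right_comm] at this
    linarith
  · exact m1

theorem msum (hg : ∀ i, (Fintype.card ι).factorial ∣ g i) {d : ℕ} (d0 : 0 < d) {ε : ℝ} (e0 : 0 < ε) :
    ∀ᶠ N : ℕ in atTop, ∃ z : ℕ, (∀ i, g i ≤ z) ∧ ∀ p1,
      ∑ j ∈ Icc 1 ⌊2 * Real.log N⌋₊ with ∀ i, j ≠ d * g i, ∏ p ∈ SP N p1, (∑ t ∈ range p,
        AL g z (2 / Real.log (Real.log N) ^ 2) p t * BE d j p t) / p ≤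
        ε * (Real.log N / Real.log (Real.log N)) := by
  classical
  set K : ℝ := (Fintype.card ι : ℝ)
  have K0 : 0 ≤ K := by positivity
  filter_upwards [evl ((100 + 400 / ε + 960 * K + Real.exp (10 - 2 * Real.log (ε / 4800)) +
    ∑ i, (g i : ℝ) + d) ^ 4)] with N ⟨N0, hA, l42⟩
  unfold SP
  set x := Real.log N
  set l := Real.log x with hl
  have l0 : 0 ≤ l := le_trans (by positivity) hA
  set u := √(√l)
  have ul : u ^ 4 = l := by
    rw [show 4 = 2 * 2 by rfl, pow_mul, Real.sq_sqrt (by positivity), Real.sq_sqrt l0]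
  have hA := (pow_le_pow_iff_left₀ (by positivity) (by positivity) four_ne_zero).1 (hA.trans_eq ul.symm)
  obtain ⟨A1, A2, A3, A4, A5, A6⟩ : 100 ≤ u ∧ 400 / ε ≤ u ∧ 960 * K ≤ u ∧
      Real.exp (10 - 2 * Real.log (ε / 4800)) ≤ u ∧ (∀ i, (g i : ℝ) ≤ u) ∧ (d : ℝ) ≤ u := by
    have : 0 ≤ ∑ i, (g i : ℝ) := by positivity
    have : 0 ≤ 400 / ε := by positivity
    have := Real.exp_pos (10 - 2 * Real.log (ε / 4800))
    have : (0 : ℝ) ≤ d := by positivity
    refine ⟨?_, ?_, ?_, ?_, fun i => (single_le_sum (f := fun i => (g i : ℝ))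
      (fun _ _ => by positivity) (mem_univ i)).trans ?_, ?_⟩ <;> linarith
  clear hA
  have up : ∀ a b : ℕ, a ≤ b → u ^ a ≤ u ^ b := fun a b h => pow_le_pow_right₀ (by linarith) h
  have u2 : 100 * u ≤ u ^ 2 := by nlinarith only [A1]
  have u4 : 100 * u ^ 2 ≤ l := by nlinarith only [A1, u2, ul]
  have lx : l * l ≤ x := by
    linarith [pow_le_pow_right₀ (show 1 ≤ l by linarith) (show 2 ≤ 42 by norm_num)]
  have lx' : 100 * l ≤ x := by nlinarith only [lx, u4, u2, A1]
  have ex : x = Real.exp l := (Real.exp_log (by linarith)).symm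
  have fl : ∀ s : ℝ, 1 ≤ s → 2 ≤ ⌊Real.exp s⌋₊ ∧ Real.log ⌊Real.exp s⌋₊ ≤ s ∧
      Real.exp s / 2 ≤ ⌊Real.exp s⌋₊ := fun s hs => by
    have a : 2 ≤ Real.exp s := by linarith [Real.add_one_le_exp s]
    have b : 2 ≤ ⌊Real.exp s⌋₊ := Nat.le_floor (by exact_mod_cast a)
    exact ⟨b, (Real.log_le_iff_le_exp (by positivity)).2 (Nat.floor_le (by linarith)),
      by linarith [Nat.lt_floor_add_one (Real.exp s)]⟩
  obtain ⟨z2, z3, z4⟩ := fl (u ^ 2) (by linarith)
  obtain ⟨w2, w3, w4⟩ := fl u (by linarith)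
  set z := ⌊Real.exp (u ^ 2)⌋₊
  set w := ⌊Real.exp u⌋₊
  set y := ⌊x / 100⌋₊
  set L := ⌊2 * x⌋₊
  have L1 : (L : ℝ) ≤ 2 * x := Nat.floor_le (by linarith)
  have y1 : x / 100 < y + 1 := Nat.lt_floor_add_one _
  have z5 : l ^ 2 ≤ z := by
    have := Real.pow_div_factorial_le_exp (u ^ 2) (by positivity) 5
    rw [← ul]; norm_num at this
    nlinarith only [this, z4, u2, A1, pow_nonneg (show 0 ≤ u by linarith) 8]
  have w5 : 4 * K * l + u ≤ w := by
    have := Real.pow_div_factorial_le_exp u (by positivity) 6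
    rw [← ul]; norm_num at this
    linarith [up 2 5 (by norm_num), mul_le_mul_of_nonneg_right A3 (pow_nonneg (show 0 ≤ u by
      linarith) 4), mul_le_mul_of_nonneg_right A1 (pow_nonneg (show 0 ≤ u by linarith) 5)]
  have zy : z ≤ y := Nat.floor_le_floor (by
    rw [ex, le_div_iff₀ (by norm_num)]
    refine le_trans ?_ (Real.exp_le_exp.2 (show u ^ 2 + 99 ≤ l by linarith))
    rw [Real.exp_add]; gcongr; linarith [Real.add_one_le_exp 99])
  have l1 : 1 ≤ l := by linarith
  have k0 : 0 ≤ 2 / l ^ 2 := by positivity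
  have k1 : 2 / l ^ 2 ≤ 1 := by rw [div_le_one (by positivity)]; nlinarith only [u4, u2, A1]
  refine ⟨z, fun i => by exact_mod_cast (A5 i).trans (show u ≤ z by nlinarith only [z5, u4, u2, A1]),
    fun p1 => ?_⟩
  set Y := L.primesLE.filter (y < ·) with hY
  refine (sum_le_sum (g := fun j => 3 / l ^ 2 + (if ∀ p : ℕ, p.Prime → p ∣ j → p ≤ z then 1 else 0) +
    (if z < p1 ∧ p1 ∣ j then 1 else 0) + ε / 4800 * ∑ q ∈ Y, if q ∣ j then 1 else 0)
    fun j hj => ?_).trans ((sum_le_sum_of_subset_of_nonneg (filter_subset _ _)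
      fun _ _ _ => by positivity).trans ?_)
  · obtain ⟨hj, hj'⟩ := mem_filter.1 hj
    obtain ⟨j1, j2⟩ := mem_Icc.1 hj
    have pr : ∀ p ∈ y.primesLE.erase p1, p.Prime := fun p hp =>
      (Nat.mem_primesLE.1 (mem_of_mem_erase hp)).2
    have m := fun p hp => mean_le (pr p hp).pos (AL0 g (z := z) k0 k1) (AL_sum g (pr p hp) hg) d j
    have m0 : ∀ p, 0 ≤ (∑ t ∈ range p, AL g z (2 / l ^ 2) p t * BE d j p t) / p := fun p =>
      div_nonneg (sum_nonneg fun t _ => mul_nonneg (AL0 g k0 k1 t) (BE0 _ _ _ _)) (by positivity)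
    have m1 := prod_le_one (fun p _ => m0 p) fun p hp => (m p hp).1
    have i1 : (0 : ℝ) ≤ if ∀ p : ℕ, p.Prime → p ∣ j → p ≤ z then 1 else 0 := by positivity
    have i2 : (0 : ℝ) ≤ if z < p1 ∧ p1 ∣ j then 1 else 0 := by positivity
    have i3 : 0 ≤ ε / 4800 * ∑ q ∈ Y, if q ∣ j then 1 else 0 := by positivity
    have i4 : 0 ≤ 3 / l ^ 2 := by positivity
    by_cases c1 : ∀ p : ℕ, p.Prime → p ∣ j → p ≤ z
    · rw [if_pos c1]; linarith
    by_cases c2 : z < p1 ∧ p1 ∣ j
    · rw [if_pos c2]; linarith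
    simp only [not_forall, not_le] at c1
    obtain ⟨p, hp, pj, zp⟩ := c1
    rcases le_or_gt p y with c | c
    · have hp' : p ∈ y.primesLE.erase p1 := mem_erase.2 ⟨fun e => c2 (e ▸ ⟨zp, pj⟩),
        Nat.mem_primesLE.2 ⟨c, hp⟩⟩
      rw [← mul_prod_erase _ _ hp']
      refine (mul_le_of_le_one_right (m0 p) (prod_le_one (fun p _ => m0 p)
        fun p hp => (m p (mem_of_mem_erase hp)).1)).trans (((m p hp').2 0 hp.pos (by simpa)).trans ?_)
      have p0 : (0 : ℝ) < p := by exact_mod_cast hp.pos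
      have e1 : 1 / (p : ℝ) ≤ 1 / l ^ 2 := one_div_le_one_div_of_le (by positivity)
        (z5.trans (by exact_mod_cast zp.le))
      have e2 : 1 / (p : ℝ) ≤ 1 := by simpa using Nat.cast_inv_le_one p
      have e3 : (1 - 2 / l ^ 2) * p * (1 - 1 / p) / p ≤ AL g z (2 / l ^ 2) p 0 * (1 - 1 / p) / p := by
        rw [AL, if_neg (by omega), if_pos (dvd_zero p)]
        gcongr; exact le_add_of_nonneg_right (mul_nonneg k0 (UU0 g 0))
      rw [mul_right_comm, mul_div_cancel_right₀ _ p0.ne'] at e3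
      have : 3 / l ^ 2 = 2 / l ^ 2 + 1 / l ^ 2 := by ring
      nlinarith only [e3, this, e1, i1, i2, i3, mul_nonneg k0 (one_div_pos.2 p0).le]
    · refine (small g hg k0 k1 (R := 2 * x) d0 (by
        exact_mod_cast (show (d : ℝ) ≤ w by nlinarith only [A6, w5, K0, l0])) w2 z2 zy hj'
        (le_trans (by exact_mod_cast j2) L1) (fun i => by
          push_cast; nlinarith only [mul_le_mul A6 (A5 i) (by positivity) (by linarith), u4, lx', l0])
        (by
          rw [Real.log_mul two_ne_zero (by linarith)]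
          nlinarith only [w5, K0, l1, A1, Real.log_two_lt_d9])).trans ?_
      have e1 : Real.log (Real.log w) ≤ Real.log u :=
        Real.log_le_log (Real.log_pos (by exact_mod_cast w2)) w3
      have e2 : 2 * Real.log u - 1 ≤ Real.log (Real.log z) := by
        have := Real.log_le_log (by positivity) z4
        rw [Real.log_div (by positivity) two_ne_zero, Real.log_exp] at this
        have := Real.log_le_log (by positivity) (show u ^ 2 / 2 ≤ Real.log z by
          linarith [Real.log_two_lt_d9])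
        rw [Real.log_div (by positivity) two_ne_zero, Real.log_pow] at this
        push_cast at this; linarith [Real.log_two_lt_d9]
      have e3 := (Real.le_log_iff_exp_le (by linarith)).2 A4
      have e4 : (1 : ℝ) ≤ ∑ q ∈ Y, if q ∣ j then 1 else 0 := by
        simpa [pj] using single_le_sum (f := fun q => if q ∣ j then (1 : ℝ) else 0)
          (fun _ _ => by positivity) (show p ∈ Y from mem_filter.2 ⟨Nat.mem_primesLE.2
            ⟨(Nat.le_of_dvd j1 pj).trans j2, hp⟩, c⟩)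
      have e5 := (Real.le_log_iff_exp_le (show 0 < ε / 4800 by positivity)).1
        (show -(Real.log (Real.log z) - Real.log (Real.log w) - 9) / 2 ≤ _ by linarith)
      linarith [le_mul_of_one_le_right (show 0 ≤ ε / 4800 by positivity) e4]
  have cn : ∀ q : ℕ, ∑ j ∈ Icc 1 L, (if q ∣ j then (1 : ℝ) else 0) ≤ 2 * x / q := fun q => by
    rw [sum_boole, show Icc 1 L = Ioc 0 L from rfl, Nat.Ioc_filter_dvd_card_eq_div]
    exact Nat.cast_div_le.trans (by gcongr)
  have x0 : 0 < x := by linarith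
  have xl : 0 < x / l := by positivity
  have el : 400 ≤ ε * u ^ 2 := by rw [div_le_iff₀ e0] at A2; nlinarith only [A2, u2, A1, e0]
  have t0 : 2 * x / l ^ 2 ≤ ε / 20 * (x / l) := by
    rw [show 2 * x / l ^ 2 = 2 / l * (x / l) by field_simp]
    gcongr ?_ * _
    rw [div_le_div_iff₀ (by linarith) (by norm_num)]; nlinarith only [el, u4, e0]
  have t1 : ∑ j ∈ Icc 1 L, 3 / l ^ 2 ≤ 3 * (2 * x / l ^ 2) := by
    rw [sum_const, Nat.card_Icc, nsmul_eq_mul, Nat.add_sub_cancel]
    exact (mul_le_mul_of_nonneg_right L1 (by positivity)).trans_eq (by ring)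
  have t2 : ∑ j ∈ Icc 1 L, (if ∀ p : ℕ, p.Prime → p ∣ j → p ≤ z then (1 : ℝ) else 0) ≤
      ε / 4 * (x / l) := by
    have s0 : 1 / u ^ 2 ≤ 1 / 2 := one_div_le_one_div_of_le two_pos (by linarith)
    rw [sum_boole]
    refine (rankin z L (s := 1 - 1 / u ^ 2) (by linarith)).trans ?_
    have a : (L : ℝ) ^ (1 - 1 / u ^ 2) ≤ 2 * x * Real.exp (-u ^ 2) := by
      refine (Real.rpow_le_rpow (by positivity) L1 (by linarith)).trans ?_
      rw [sub_eq_add_neg, Real.rpow_add (by linarith), Real.rpow_one]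
      gcongr
      refine (Real.rpow_le_rpow_of_nonpos (by linarith) (show x ≤ _ by linarith)
        (neg_nonpos.2 (by positivity))).trans_eq ?_
      rw [ex, ← Real.exp_mul, ← ul]; congr 1; field_simp
    have b : ∑ p ∈ z.primesLE, (p : ℝ) ^ (-(1 - 1 / u ^ 2)) ≤ 3 * (2 * u + 5) := by
      refine (sum_le_sum (g := fun p : ℕ => 3 * (1 / (p : ℝ))) fun p hp => ?_).trans ?_
      · have := p2 hp
        rw [neg_sub, Real.rpow_sub_one (by linarith), mul_one_div]
        gcongr
        rw [Real.rpow_def_of_pos (by linarith)]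
        refine (Real.exp_le_exp.2 ?_).trans (Real.exp_one_lt_d9.le.trans (by norm_num))
        rw [mul_one_div, div_le_one (by positivity)]
        exact le_trans (Real.log_le_log (by linarith) (by
          exact_mod_cast (Nat.mem_primesLE.1 hp).1)) z3
      · rw [← mul_sum]
        have := Real.log_le_log (Real.log_pos (by exact_mod_cast z2)) z3
        rw [Real.log_pow] at this
        push_cast at this
        linarith [EG.mert z z2, Real.log_le_sub_one_of_pos (show 0 < u by linarith)]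
    have c := Real.pow_div_factorial_le_exp (u ^ 2 / 2) (by positivity) 3
    calc _ ≤ 2 * x * Real.exp (-u ^ 2) * Real.exp (u ^ 2 / 2) := by gcongr; linarith
      _ = 2 * l / Real.exp (u ^ 2 / 2) * (x / l) := by
        rw [mul_assoc, ← Real.exp_add, show -u ^ 2 + u ^ 2 / 2 = -(u ^ 2 / 2) by ring, Real.exp_neg]
        field_simp
      _ ≤ _ := by
        gcongr ?_ * _
        rw [div_le_iff₀ (by positivity), ← ul]
        norm_num at c
        nlinarith only [mul_le_mul_of_nonneg_left c e0.le, el, pow_nonneg (show 0 ≤ u by linarith) 4]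
  have t3 : ∑ j ∈ Icc 1 L, (if z < p1 ∧ p1 ∣ j then (1 : ℝ) else 0) ≤ 2 * x / l ^ 2 := by
    by_cases c : z < p1
    · simp only [c, true_and]
      refine (cn p1).trans ?_
      gcongr; exact z5.trans (by exact_mod_cast c.le)
    · simp only [c, false_and, if_false, sum_const_zero]; positivity
  have t4 : ∑ j ∈ Icc 1 L, ∑ q ∈ Y, (if q ∣ j then (1 : ℝ) else 0) ≤ 1200 * (x / l) := by
    have yq : ∀ q ∈ Y, x / 100 ≤ q := fun q hq => y1.le.trans (by exact_mod_cast (mem_filter.1 hq).2)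
    rw [sum_comm]
    refine (sum_le_sum (g := fun q : ℕ => 400 / l * Real.log q) fun q hq => (cn q).trans ?_).trans ?_
    · have a := yq q hq
      have : l / 2 ≤ Real.log q := by
        rw [hl, ← Real.log_sqrt (by linarith)]
        exact Real.log_le_log (by positivity) (le_trans (Real.sqrt_le_iff.2 ⟨by positivity, by
          nlinarith only [lx', u4, u2, A1]⟩) a)
      refine le_trans (b := 400 / l * (l / 2)) ?_ (by gcongr)
      rw [div_le_iff₀ (by linarith)]; field_simp; linarith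
    · rw [← mul_sum]
      have := (sum_le_sum_of_subset_of_nonneg (filter_subset (y < ·) L.primesLE) fun q _ _ =>
        Real.log_natCast_nonneg q).trans ((Chebyshev.theta_eq_sum_primesLE_log L).ge.trans
          (Chebyshev.theta_le_log4_mul_x (by positivity)))
      rw [show Real.log 4 = 2 * Real.log 2 by rw [← Real.log_rpow two_pos]; norm_num] at this
      calc _ ≤ 400 / l * (3 * x) := by
            gcongr; nlinarith only [this, L1, Real.log_two_lt_d9, Nat.cast_nonneg (α := ℝ) L]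
        _ = _ := by ring
  simp only [sum_add_distrib, ← mul_sum]
  nlinarith only [t0, t1, t2, t3, mul_le_mul_of_nonneg_left t4 e0.le, mul_pos e0 xl]

end Pool.Agent.H59.MT
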