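import Mathlib
import Pool.Agent.H59.MT17

/-! Density of the divisor ratios of factorials. -/

set_option autoImplicit false

namespace Pool.Agent.H59.MT

open Finset Filter
open scoped ArithmeticFunction.sigma

/-- Increment. -/
noncomputable def DL (m : ℕ) : ℝ := LT m - LT (m - 1)

lemma DL0 (m : ℕ) : 0 ≤ DL m := sub_nonneg.2 (LT_mono (Nat.sub_le _ _))

lemma DL_sum (n u v : ℕ) (h : u ≤ v) : ∑ j ∈ Ioc u v, DL (n + j) = LT (n + v) - LT (n + u) := by
  induction v, h using Nat.le_induction with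
  | base => simp
  | succ v h ih => rw [sum_Ioc_succ_top h, ih, DL, ← add_assoc, Nat.add_sub_cancel]; ring

lemma DL_le {m M : ℕ} (M0 : 0 < M) (hM : M ^ 2 ≤ m) {B : ℝ} (B0 : 0 ≤ B)
    (hB : ∀ p c : ℕ, p.Prime → m = p * c → c < M → 1 / (c : ℝ) ≤ B) :
    DL m ≤ 2 * Real.log m / M + B := by
  obtain ⟨n, rfl⟩ := Nat.exists_eq_add_one.2 ((pow_pos M0 2).trans_le hM)
  exact LT_le2 M0 hM B0 hB

lemma DL_ge {p d : ℕ} (hp : p.Prime) (d0 : 0 < d) (hd : d < p) : Real.log (1 + 1 / d) ≤ DL (p * d) := by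
  obtain ⟨n, h⟩ := Nat.exists_eq_add_one.2 (Nat.mul_pos hp.pos d0)
  rw [h]; exact LT_ge hp h.symm hd

theorem dens (f : ℕ → ℝ) (f1 : Monotone f) (f2 : ∀ n, f n ≤ Real.log n) (f3 : Tendsto f atTop atTop)
    {y η : ℝ} (e0 : 0 < η) (ey : η < y) : ∃ n, |LT (n + ⌊f n⌋₊) - LT n - y| ≤ η := by
  obtain ⟨c0, C, c1, C1, core⟩ := core
  obtain ⟨d, hd⟩ := exists_nat_gt (2 / η)
  have d1 : (0 : ℝ) < d := lt_trans (by positivity) hd
  have d0 : 0 < d := by exact_mod_cast d1
  have d2 : 1 / (d : ℝ) ≤ η / 2 := by rw [div_lt_iff₀ e0] at hd; rw [div_le_iff₀ d1]; linarith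
  have a0 : 0 < Real.log (1 + 1 / d) := Real.log_pos (lt_add_of_pos_right _ (by positivity))
  set m := y / Real.log (1 + 1 / d) with hm
  have m0 : 0 < m := div_pos (by linarith) a0
  obtain ⟨J, hJ⟩ := exists_nat_gt ((m + 1) / c0)
  have J0 : 0 < J := by exact_mod_cast (show (0 : ℝ) < J from lt_trans (by positivity) hJ)
  set k := 2 ^ J
  have k0 : (0 : ℝ) < k := by positivity
  set g : Fin k → ℕ := fun i => k.factorial * (i + 1) with hg
  have g0 : ∀ i, 0 < g i := fun i => by positivity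
  have g1 : ∀ i, (Fintype.card (Fin k)).factorial ∣ g i := fun i => by simp [hg]
  set G := d * (k.factorial * k) with hG
  have g2 : ∀ i, d * g i ≤ G := fun i => Nat.mul_le_mul_left _ (Nat.mul_le_mul_left _ i.2)
  have gi : Function.Injective g := fun i j h => Fin.ext (by
    simpa [hg, k.factorial_ne_zero] using h)
  obtain ⟨N, ⟨⟨⟨p1, hN⟩, z, gz, hz⟩, N0, hA, l42⟩, fN⟩ := ((((core (Fin k) J d
    (3 * Fintype.card (Fin k)) g J0 (by simp [k]) d0 gi g0).and (msum g g1 d0
    (ε := η / (3 * k * C)) (by positivity))).and (evl (100 + 24 * k / η + 12 * k * C / η + G + d))).and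
    (f3.eventually_ge_atTop G)).exists
  specialize hz p1
  set x := Real.log N
  set l := Real.log x with hl
  obtain ⟨A1, A2, A3, A4, A5⟩ : 100 ≤ l ∧ 24 * k / η ≤ l ∧ 12 * k * C / η ≤ l ∧ (G : ℝ) ≤ l ∧
      (d : ℝ) ≤ l := by
    have : 0 ≤ 24 * k / η := by positivity
    have : 0 ≤ 12 * k * C / η := by positivity
    have : (0 : ℝ) ≤ G := by positivity
    refine ⟨?_, ?_, ?_, ?_, ?_⟩ <;> linarith
  have lx : l * l * l ≤ x := by
    linarith [pow_le_pow_right₀ (show 1 ≤ l by linarith) (show 3 ≤ 42 by norm_num)]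
  have l2 : 100 * l ≤ l * l := by nlinarith only [A1]
  have l3 : 100 * (l * l) ≤ x := by nlinarith only [A1, l2, lx]
  have eN : (N : ℝ) = Real.exp x := (Real.exp_log (by positivity)).symm
  have xN : x ≤ N := by linarith [Real.add_one_le_exp x]
  have κ0 : 0 ≤ 2 / l ^ 2 := by positivity
  have κ1 : 2 / l ^ 2 ≤ 1 := by rw [div_le_one (by positivity)]; linarith
  obtain ⟨W, T, μ, T0, m1, m2, m3, -, m4⟩ := hN (AL g z (2 / l ^ 2)) fun p hp => by
    have := AL_ok g (Nat.mem_primesLE.1 (mem_of_mem_erase hp)).2 g1 g0 gz κ0 κ1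
    rwa [show 2 / l ^ 2 / 2 = 1 / l ^ 2 by ring] at this
  set L := ⌊2 * x⌋₊
  set M := ⌈x ^ 3⌉₊ with hM
  set I := Ico (2 * N) (5 * N)
  set w : ℕ → ℝ := fun t => (∏ p ∈ SP N p1, AL g z (2 / l ^ 2) p t) * W t ^ 2 with hw
  have w0 : ∀ t, 0 ≤ w t := fun t => mul_nonneg (prod_nonneg fun p _ => AL0 g κ0 κ1 t) (sq_nonneg _)
  have x0 : 0 < x := by linarith
  have L1 : (L : ℝ) ≤ 2 * x := Nat.floor_le (by linarith)
  have M1 : x ^ 3 ≤ M := Nat.le_ceil _
  have M0 : 0 < M := Nat.ceil_pos.2 (by positivity)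
  have M2 : (M : ℝ) ^ 2 ≤ N := by
    have := Real.pow_div_factorial_le_exp x x0.le 7
    have := pow_le_pow_left₀ (by positivity) (show (M : ℝ) ≤ 2 * x ^ 3 by
      linarith [Nat.ceil_lt_add_one (show 0 ≤ x ^ 3 by positivity),
        one_le_pow₀ (n := 3) (show 1 ≤ x by linarith)]) 2
    norm_num at *
    linarith [mul_le_mul_of_nonneg_right (show 10 ^ 6 ≤ x by linarith) (pow_pos x0 6).le]
  have lo : ∀ t ∈ I, 2 * N ≤ d * t := fun t ht => (mem_Ico.1 ht).1.trans (Nat.le_mul_of_pos_left t d0)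
  have hi : ∀ t ∈ I, ∀ j ≤ L, Real.log (d * t + j : ℕ) ≤ x + x / 2 := fun t ht j hj => by
    have a : (t : ℝ) ≤ 5 * N := by exact_mod_cast (mem_Ico.1 ht).2.le
    have b : (j : ℝ) ≤ L := by exact_mod_cast hj
    have := lo t ht
    rw [Real.log_le_iff_le_exp (by exact_mod_cast (by omega)), Real.exp_add, ← eN]
    push_cast
    nlinarith only [a, b, L1, xN, mul_le_mul A5 a (by positivity) (by linarith), l2, l3, A1,
      Real.add_one_le_exp (x / 2)]
  have big : ∀ t ∈ I, ∀ j p c : ℕ, d * t + j = p * c → c < M → Real.exp (x / 200) < p ∧ x < p :=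
    fun t ht j p c e h => by
    have a : 2 * (N : ℝ) ≤ p * M := by
      have := lo t ht; have := Nat.mul_le_mul_left p h.le; exact_mod_cast (by omega)
    have b : Real.exp (x / 200) ^ 2 ≤ N := by
      rw [← Real.exp_nat_mul, eN, Real.exp_le_exp]; push_cast; linarith
    have c : Real.exp (x / 200) < p := by
      by_contra n
      have := pow_le_pow_left₀ (by positivity) a 2
      have := mul_le_mul ((pow_le_pow_left₀ (by positivity) (not_lt.1 n) 2).trans b) M2
        (by positivity) (by positivity)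
      nlinarith
    have := Real.pow_div_factorial_le_exp (x / 200) (by positivity) 2
    norm_num at this
    exact ⟨c, by nlinarith only [this, c, l2, l3, A1]⟩
  have dl : ∀ t ∈ I, ∀ j ≤ L, ∀ B, 0 ≤ B → (∀ p c : ℕ, p.Prime → d * t + j = p * c → c < M →
      1 / (c : ℝ) ≤ B) → DL (d * t + j) ≤ 4 / x ^ 2 + B := fun t ht j hj B B0 hB => by
    refine (DL_le M0 (le_trans (by exact_mod_cast M2) (by have := lo t ht; omega)) B0 hB).trans
      (add_le_add_left ?_ _)
    calc _ ≤ 2 * (2 * x) / x ^ 3 := by gcongr; linarith [hi t ht j hj]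
      _ = _ := by field_simp; norm_num
  set S := (Icc 1 L).filter fun j => ∀ i, j ≠ d * g i
  have bad : ∑ t ∈ I, w t * ∑ j ∈ S, DL (d * t + j) ≤ η / k * T := by
    simp only [mul_sum]
    rw [sum_comm]
    refine (sum_le_sum (g := fun j => 4 / x ^ 2 * T + C * (l / x) * (∏ p ∈ SP N p1, (∑ t ∈ range p,
      AL g z (2 / l ^ 2) p t * BE d j p t) / p + 1 / √N) * T) fun j hj => ?_).trans ?_
    · obtain ⟨hj, hj'⟩ := mem_filter.1 hj
      have j2 := (mem_Icc.1 hj).2
      refine le_trans ?_ (add_le_add (mul_le_mul_of_nonneg_left m2 (by positivity))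
        (m4 j (((Nat.cast_le.2 j2).trans L1).trans (by nlinarith only [l2, l3, A1])) hj' (BE d j)
          (BE_per d j) (BE0 d j) (BE1 d j)))
      rw [sum_filter, mul_sum, ← sum_add_distrib]
      refine sum_le_sum fun t ht => (mul_le_mul_of_nonneg_left (dl t ht j j2
        (if ∀ p ∈ MP N, ¬ p ∣ d * t + j then ∏ p ∈ SP N p1, BE d j p t else 0) (by
          have := prod_nonneg fun p (_ : p ∈ SP N p1) => BE0 d j p t
          positivity) fun p c hp e h => ?_) (w0 t)).trans_eq ?_
      · obtain ⟨b1, b2⟩ := big t ht j p c e h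
        have c0 : 0 < c := Nat.pos_of_ne_zero (by rintro rfl; have := lo t ht; omega)
        have sp : ∀ r : ℕ, r.Prime → (r : ℝ) < p → r ∣ d * t + j → r ∣ c := fun r hr rp a =>
          (hr.dvd_mul.1 (e ▸ a)).resolve_left fun a =>
            rp.ne (by rw [(Nat.prime_dvd_prime_iff_eq hr hp).1 a])
        rw [if_pos fun r hr a => by
          obtain ⟨r1, r2, r3⟩ := mem_PM.1 hr
          have := Nat.le_of_dvd c0 (sp r r1 (lt_of_le_of_lt ((Nat.cast_le.2 r3).trans
            (Nat.floor_le (by positivity))) b1) a)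
          change M < r at r2; omega]
        simp only [BE]
        rw [← prod_filter, prod_div_distrib, prod_const_one, ← Nat.cast_prod]
        have pr : ∀ r ∈ (SP N p1).filter (· ∣ d * t + j), r ≤ ⌊x / 100⌋₊ ∧ r.Prime := fun r hr =>
          Nat.mem_primesLE.1 (mem_of_mem_erase (mem_filter.1 hr).1)
        refine one_div_le_one_div_of_le (Nat.cast_pos.2 (prod_pos fun r hr => (pr r hr).2.pos))
          (Nat.cast_le.2 (Nat.le_of_dvd c0 (prod_primes_dvd _ (fun r hr => (pr r hr).2.prime)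
            fun r hr => sp r (pr r hr).2 ?_ (mem_filter.1 hr).2)))
        linarith [((Nat.cast_le (α := ℝ)).2 (pr r hr).1).trans (Nat.floor_le (by positivity))]
      · simp only [hw, prod_mul_distrib]; split_ifs <;> ring
    · have cs : (S.card : ℝ) ≤ 2 * x := le_trans (by
        exact_mod_cast (card_filter_le _ _).trans (by simp)) L1
      have sN : x / 2 ≤ √N := by rw [eN, ← Real.exp_half]; linarith [Real.add_one_le_exp (x / 2)]
      simp only [sum_add_distrib, ← sum_mul, ← mul_sum, sum_const, nsmul_eq_mul]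
      rw [← add_mul]
      refine mul_le_mul_of_nonneg_right ?_ T0.le
      rw [div_le_iff₀ e0] at A2 A3
      calc _ ≤ 2 * x * (4 / x ^ 2) + C * (l / x) * (η / (3 * k * C) * (x / l) + 2 * x * (1 / (x / 2))) := by
            gcongr ?_ * _ + _ * (?_ + ?_ * (1 / ?_))
            refine le_of_eq_of_le ?_ hz
            congr!
        _ = 8 / x + η / k / 3 + 4 * C * l / x := by field_simp; ring
        _ ≤ η / k / 3 + η / k / 3 + η / k / 3 := by
            gcongr ?_ + _ + ?_ <;> rw [div_div, div_le_div_iff₀ x0 (by positivity)]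
            · nlinarith only [A2, e0, l2, l3, A1]
            · nlinarith only [mul_le_mul_of_nonneg_right A3 (show 0 ≤ l by linarith), e0, l2, l3, A1]
        _ = _ := by ring
  obtain ⟨t, ht, t1, t2⟩ : ∃ t ∈ I, m ≤ (univ.filter fun i => (t + g i).Prime).card ∧
      ∑ j ∈ S, DL (d * t + j) ≤ η := by
    by_contra c
    have a : ∑ t ∈ I, w t * (univ.filter fun i => (t + g i).Prime).card ≤
        ∑ t ∈ I, (m * w t + k / η * (w t * ∑ j ∈ S, DL (d * t + j))) := sum_le_sum fun t ht => by
      rw [mul_left_comm (k / η), mul_comm m, ← mul_add]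
      refine mul_le_mul_of_nonneg_left ?_ (w0 t)
      have b : 0 ≤ ∑ j ∈ S, DL (d * t + j) := sum_nonneg fun _ _ => DL0 _
      by_cases h : m ≤ (univ.filter fun i => (t + g i).Prime).card
      · refine le_add_of_nonneg_of_le m0.le (le_trans (b := (k : ℝ)) (by
          exact_mod_cast (card_filter_le _ _).trans (card_fin k).le) ?_)
        rw [div_mul_eq_mul_div, mul_div_assoc]
        exact le_mul_of_one_le_right k0.le ((one_le_div e0).2 (not_le.1 fun h' => c ⟨t, ht, h, h'⟩).le)
      · exact le_add_of_le_of_nonneg (not_le.1 h).le (by positivity)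
    have b : k * (μ * T) ≤ ∑ t ∈ I, w t * (univ.filter fun i => (t + g i).Prime).card := by
      simp only [card_filter, Nat.cast_sum, mul_sum]
      rw [sum_comm]
      refine le_trans (by simp) (card_nsmul_le_sum _ _ (μ * T) fun i _ => (m3 i).trans_eq ?_)
      rw [sum_filter]
      exact sum_congr rfl fun t _ => by split_ifs <;> simp [hw]
    rw [sum_add_distrib, ← mul_sum, ← mul_sum] at a
    have e := mul_le_mul_of_nonneg_left bad (show 0 ≤ k / η by positivity)
    rw [show k / η * (η / k * T) = T by field_simp] at e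
    rw [Fintype.card_fin, ← mul_div_assoc, div_le_iff₀ k0] at m1
    rw [div_lt_iff₀ c1] at hJ
    nlinarith only [a, b, e, mul_le_mul_of_nonneg_left m2 m0.le, mul_le_mul_of_nonneg_right m1 T0.le,
      mul_lt_mul_of_pos_right hJ T0]
  have hGL : G ≤ L := Nat.le_floor (by linarith)
  refine ivt (fun n => LT (n + ⌊f n⌋₊) - LT n) (d * t) G ?_ ?_ fun j hj => ?_
  · have := LT_mono (Nat.add_le_add_left (Nat.le_floor (fN.trans
      (f1 (show N ≤ d * t by have := lo t ht; omega)))) (d * t))
    have e := DL_sum (d * t) 0 G (Nat.zero_le _)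
    rw [add_zero] at e
    refine le_trans ?_ (e.trans_le (sub_le_sub_right this _))
    refine le_trans ?_ (sum_le_sum_of_subset_of_nonneg (s := (univ.filter fun i =>
      (t + g i).Prime).image fun i => d * g i) (image_subset_iff.2 fun i _ => mem_Ioc.2
        ⟨Nat.mul_pos d0 (g0 i), g2 i⟩) fun _ _ _ => DL0 _)
    rw [sum_image fun i _ j _ h => gi (Nat.eq_of_mul_eq_mul_left d0 h)]
    rw [hm, div_le_iff₀ a0, ← nsmul_eq_mul] at t1
    refine t1.trans (card_nsmul_le_sum _ _ _ fun i hi => ?_)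
    rw [← mul_add, mul_comm]
    refine DL_ge (mem_filter.1 hi).2 d0 ?_
    have : d < N := by exact_mod_cast (show (d : ℝ) < N by linarith)
    have := (mem_Ico.1 ht).1; omega
  · have : G + ⌊f (d * t + G)⌋₊ ≤ L := Nat.le_floor (by
      have := (f2 _).trans (hi t ht G hGL)
      rcases le_total 0 (f (d * t + G)) with h | h
      · push_cast; linarith [Nat.floor_le h]
      · rw [Nat.floor_of_nonpos h]; push_cast; linarith)
    have := LT_mono (Nat.add_le_add_left this (d * t))
    rw [← add_assoc] at this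
    refine lt_of_le_of_lt (((sub_le_sub_right this _).trans_eq (DL_sum _ _ _ hGL).symm).trans
      ((sum_le_sum_of_subset_of_nonneg (fun j hj => ?_) fun _ _ _ => DL0 _).trans t2)) ey
    obtain ⟨a, b⟩ := mem_Ioc.1 hj
    exact mem_filter.2 ⟨mem_Icc.2 ⟨by omega, b⟩, fun i e => by have := g2 i; omega⟩
  · have := LT_mono (add_le_add (Nat.le_succ (d * t + j))
      (Nat.floor_le_floor (f1 (Nat.le_succ (d * t + j)))))
    suffices DL (d * t + (j + 1)) ≤ η by
      rw [DL, ← add_assoc, Nat.add_sub_cancel] at this; simp only [Nat.succ_eq_add_one] at *; linarith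
    by_cases c : ∀ i, j + 1 ≠ d * g i
    · exact (single_le_sum (f := fun j => DL (d * t + j)) (fun _ _ => DL0 _)
        (show j + 1 ∈ S from mem_filter.2 ⟨mem_Icc.2 ⟨by omega, by omega⟩, c⟩)).trans t2
    · obtain ⟨i, hi⟩ := not_forall.1 c
      refine (dl t ht (j + 1) (by omega) (1 / d) (by positivity) fun p c hp e h => ?_).trans ?_
      · have c0 : 0 < c := Nat.pos_of_ne_zero (by rintro rfl; omega)
        have : d < p := by exact_mod_cast (show (d : ℝ) < p by linarith [(big t ht _ p c e h).2])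
        refine one_div_le_one_div_of_le d1 (Nat.cast_le.2 (Nat.le_of_dvd c0
          ((Nat.coprime_of_lt_prime d0.ne' this hp).symm.dvd_of_dvd_mul_left ?_)))
        rw [← e, not_not.1 hi, ← mul_add]; exact dvd_mul_right _ _
      · have : 4 / x ^ 2 ≤ η / 2 := by
          rw [div_le_iff₀ e0] at A2
          have : (1 : ℝ) ≤ k := by exact_mod_cast Nat.one_le_two_pow
          rw [div_le_div_iff₀ (by positivity) two_pos]
          nlinarith only [A2, this, e0, mul_le_mul_of_nonneg_left (show l ≤ x ^ 2 by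
            nlinarith only [l2, l3, A1]) e0.le]
        linarith

theorem closure_tau (f : ℕ → ℝ) (f1 : Monotone f) (f2 : ∀ n, f n ≤ Real.log n)
    (f3 : Tendsto f atTop atTop) : Set.Ioi (1 : ℝ) ⊆ closure (Set.range fun n =>
      (σ 0 (n + ⌊f n⌋₊).factorial : ℝ) / (σ 0 n.factorial : ℝ)) := fun x hx => by
  have x1 : 1 < x := hx
  have y0 := Real.log_pos x1
  have : Real.log x ∈ closure (Set.range fun n => LT (n + ⌊f n⌋₊) - LT n) :=
    Metric.mem_closure_iff.2 fun ε e0 => by
      obtain ⟨n, hn⟩ := dens f f1 f2 f3 (y := Real.log x) (η := min ε (Real.log x) / 2)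
        (by positivity) (by linarith [min_le_right ε (Real.log x)])
      exact ⟨_, ⟨n, rfl⟩, by rw [dist_comm, Real.dist_eq]; linarith [min_le_left ε (Real.log x)]⟩
  rw [← Real.exp_log (show 0 < x by linarith)]
  refine map_mem_closure Real.continuous_exp this ?_
  rintro _ ⟨n, rfl⟩
  have p : ∀ n : ℕ, (0 : ℝ) < σ 0 n.factorial := fun n => by
    exact_mod_cast ArithmeticFunction.sigma_pos 0 _ n.factorial_ne_zero
  exact ⟨n, by simp only [LT, Real.exp_sub, Real.exp_log (p _)]⟩

end Pool.Agent.H59.MT
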