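import Mathlib

set_option autoImplicit false
open Finset Filter Topology

namespace Pool.Agent.H59.PD

/-- forward partition function of a one-dimensional hard-core system -/
def v {R : Type} [CommSemiring R] (X : ℕ → R) (d : ℕ → ℕ) : ℕ → R
  | 0 => 1
  | n+1 => v X d n + X n * v X d (n - d n)
termination_by n => n
decreasing_by all_goals omega

lemma v_zero {R : Type} [CommSemiring R] (X : ℕ → R) (d : ℕ → ℕ) : v X d 0 = 1 := by
  rw [v]

lemma v_succ {R : Type} [CommSemiring R] (X : ℕ → R) (d : ℕ → ℕ) (n : ℕ) :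
    v X d (n+1) = v X d n + X n * v X d (n - d n) := by
  rw [v]

def VS (d : ℕ → ℕ) (n : ℕ) : Finset (Finset ℕ) :=
  (range n).powerset.filter (fun S => ∀ i ∈ S, ∀ j ∈ S, j < i → j + d i < i)

lemma mem_VS (d : ℕ → ℕ) (n : ℕ) (S : Finset ℕ) :
    S ∈ VS d n ↔ (∀ i ∈ S, i < n) ∧ ∀ i ∈ S, ∀ j ∈ S, j < i → j + d i < i := by
  simp [VS, subset_iff]

lemma v_eq_sum {R : Type} [CommSemiring R] (X : ℕ → R) (d : ℕ → ℕ) (n : ℕ) :
    v X d n = ∑ S ∈ VS d n, ∏ i ∈ S, X i := by
  induction n using Nat.strong_induction_on with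
  | _ n ih =>
  rcases n with _ | n
  · have : VS d 0 = {∅} := by
      ext S; simp only [mem_VS, mem_singleton]
      constructor
      · rintro ⟨h, _⟩; ext i; simpa using fun hi => absurd (h i hi) (by omega)
      · rintro rfl; simp
    rw [v_zero, this]; simp
  · rw [v_succ, ih n (by omega), ih (n - d n) (by omega)]
    have h1 : VS d (n+1) = VS d n ∪ (VS d (n - d n)).image (insert n) := by
      ext S
      simp only [mem_union, mem_image, mem_VS]
      constructor
      · rintro ⟨h1, h2⟩
        by_cases hn : n ∈ S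
        · right
          refine ⟨S.erase n, ⟨?_, ?_⟩, insert_erase hn⟩
          · intro i hi
            rw [mem_erase] at hi
            have := h1 i hi.2
            have := h2 n hn i hi.2 (by omega)
            omega
          · intro i hi j hj hji
            exact h2 i (mem_of_mem_erase hi) j (mem_of_mem_erase hj) hji
        · left
          refine ⟨fun i hi => ?_, h2⟩
          have := h1 i hi
          have : i ≠ n := fun h => hn (h ▸ hi)
          omega
      · rintro (⟨h1, h2⟩ | ⟨T, ⟨h1, h2⟩, rfl⟩)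
        · exact ⟨fun i hi => by have := h1 i hi; omega, h2⟩
        · constructor
          · intro i hi
            rw [mem_insert] at hi
            rcases hi with rfl | hi
            · omega
            · have := h1 i hi; omega
          · intro i hi j hj hji
            rw [mem_insert] at hi hj
            rcases hi with rfl | hi
            · rcases hj with rfl | hj
              · omega
              · have := h1 j hj; omega
            · rcases hj with rfl | hj
              · have := h1 i hi; omega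
              · exact h2 i hi j hj hji
    have hnot : ∀ T ∈ VS d (n - d n), n ∉ T := by
      intro T hT hn
      have := ((mem_VS _ _ _).1 hT).1 n hn
      omega
    rw [h1, sum_union, sum_image, mul_sum]
    · congr 1
      refine sum_congr rfl fun T hT => ?_
      rw [prod_insert (hnot T hT)]
    · intro T hT T' hT' h
      have h1 := hnot T hT
      have h2 := hnot T' hT'
      have : (insert n T).erase n = (insert n T').erase n := by rw [h]
      rwa [erase_insert h1, erase_insert h2] at this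
    · rw [disjoint_left]
      intro S hS hS'
      obtain ⟨T, _, rfl⟩ := mem_image.1 hS'
      have := ((mem_VS _ _ _).1 hS).1 n (mem_insert_self _ _)
      omega

lemma v_congr {R : Type} [CommSemiring R] {X X' : ℕ → R} {d d' : ℕ → ℕ} (n : ℕ)
    (hX : ∀ i < n, X i = X' i) (hd : ∀ i < n, d i = d' i) : v X d n = v X' d' n := by
  induction n using Nat.strong_induction_on with
  | _ n ih =>
  rcases n with _ | n
  · rw [v_zero, v_zero]
  · rw [v_succ, v_succ, ← hX n (by omega), ← hd n (by omega),
      ih n (by omega) (fun i hi => hX i (by omega)) (fun i hi => hd i (by omega)),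
      ih (n - d n) (by omega) (fun i hi => hX i (by omega)) (fun i hi => hd i (by omega))]

lemma v_shift {R : Type} [CommSemiring R] (X : ℕ → R) (d : ℕ → ℕ) (h0 : X 0 = 0) (n : ℕ) :
    v X d (n+1) = v (fun i => X (i+1)) (fun i => d (i+1)) n := by
  induction n using Nat.strong_induction_on with
  | _ n ih =>
  rcases n with _ | n
  · rw [v_succ, v_zero, v_zero, h0]; simp
  · rw [v_succ, v_succ (fun i => X (i+1)), ih n (by omega)]
    congr 2
    by_cases h : d (n+1) ≤ n
    · rw [show n + 1 - d (n+1) = (n - d (n+1)) + 1 by omega, ih _ (by omega)]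
    · rw [show n + 1 - d (n+1) = 0 by omega, show n - d (n+1) = 0 by omega, v_zero, v_zero]

section real
variable {X : ℕ → ℝ} {d : ℕ → ℕ}

lemma v_one_le (hX : ∀ i, 0 ≤ X i) (n : ℕ) : 1 ≤ v X d n := by
  induction n using Nat.strong_induction_on with
  | _ n ih =>
  rcases n with _ | n
  · rw [v_zero]
  · rw [v_succ]
    have := ih n (by omega)
    have := ih (n - d n) (by omega)
    have := hX n
    nlinarith

lemma v_pos (hX : ∀ i, 0 ≤ X i) (n : ℕ) : 0 < v X d n := lt_of_lt_of_le one_pos (v_one_le hX n)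

lemma v_mono (hX : ∀ i, 0 ≤ X i) : Monotone (v X d) := by
  refine monotone_nat_of_le_succ fun n => ?_
  rw [v_succ]
  have := v_pos (d := d) hX (n - d n)
  have := hX n
  nlinarith

lemma v_le_two (hX : ∀ i, 0 ≤ X i) (hX1 : ∀ i, X i ≤ 1) (n : ℕ) : v X d (n+1) ≤ 2 * v X d n := by
  rw [v_succ]
  have h1 := v_mono (d := d) hX (show n - d n ≤ n by omega)
  have := v_pos (d := d) hX (n - d n)
  have := hX1 n
  nlinarith

lemma v_le_pow (hX : ∀ i, 0 ≤ X i) (hX1 : ∀ i, X i ≤ 1) (n k : ℕ) :
    v X d (n+k) ≤ 2 ^ k * v X d n := by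
  induction k with
  | zero => simp
  | succ k ih =>
    have := v_le_two (d := d) hX hX1 (n+k)
    rw [pow_succ]
    rw [show n + (k+1) = n + k + 1 by ring]
    nlinarith

end real

/-- oscillation bound for an averaging recurrence -/
lemma avg_block (B : ℕ) (U ω η : ℕ → ℝ) (d : ℕ → ℕ) (hd : ∀ n, d n < B)
    (hω : ∀ n, 0 ≤ ω n ∧ ω n ≤ 1/2)
    (hU : ∀ n, U (n+1) = (1 - ω n) * U n + ω n * U (n - d n) + η n)
    (p : ℕ) (m : ℝ) (hm : ∀ l < B, m ≤ U (p - l)) (i : ℕ) :
    (∀ l < B, m - ∑ j ∈ range i, |η (p+j)| ≤ U (p + i - l)) ∧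
    m + (1/2)^i * (U p - m) - ∑ j ∈ range i, |η (p+j)| ≤ U (p + i) := by
  induction i with
  | zero => simpa using hm
  | succ i ih =>
    obtain ⟨h1, h2⟩ := ih
    have hB : 0 < B := by have := hd 0; omega
    have hp := hm 0 hB
    simp only [Nat.sub_zero] at hp
    have key : m + (1/2)^(i+1) * (U p - m) - ∑ j ∈ range (i+1), |η (p+j)| ≤ U (p + (i+1)) := by
      rw [show p + (i+1) = p + i + 1 by ring, hU, sum_range_succ, pow_succ]
      have h3 := h1 _ (hd (p+i))
      have h4 := neg_abs_le (η (p+i))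
      obtain ⟨h5, h6⟩ := hω (p+i)
      have h7 : 0 ≤ (1/2:ℝ)^i * (U p - m) := mul_nonneg (by positivity) (by linarith)
      nlinarith
    refine ⟨fun l hl => ?_, key⟩
    rcases l with _ | l
    · have h7 : 0 ≤ (1/2:ℝ)^(i+1) * (U p - m) := mul_nonneg (by positivity) (by linarith)
      simp only [Nat.sub_zero]
      linarith
    · rw [show p + (i+1) - (l+1) = p + i - l by omega, sum_range_succ]
      have := h1 l (by omega)
      have := abs_nonneg (η (p+i))
      linarith

noncomputable def th (B : ℕ) : ℝ := 1 - (1/2)^B / B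

lemma th_pos {B : ℕ} (hB : 0 < B) : 1/2 ≤ th B := by
  unfold th
  have h1 : (1/2:ℝ)^B ≤ (1/2)^1 := pow_le_pow_of_le_one (by norm_num) (by norm_num) hB
  have h2 : (1:ℝ) ≤ B := by exact_mod_cast hB
  have : (1/2:ℝ)^B / B ≤ (1/2)^B := div_le_self (by positivity) h2
  linarith

lemma th_lt {B : ℕ} (hB : 0 < B) : th B < 1 := by
  unfold th
  have h2 : (0:ℝ) < B := by exact_mod_cast hB
  have : 0 < (1/2:ℝ)^B / B := by positivity
  linarith

lemma th_pow {B : ℕ} (hB : 0 < B) : 1 - (1/2:ℝ)^B ≤ th B ^ B := by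
  have h := one_add_mul_le_pow (a := -((1/2:ℝ)^B / B)) (by have := th_pos hB; unfold th at this; linarith) B
  have h2 : (0:ℝ) < B := by exact_mod_cast hB
  have e : 1 + (B:ℝ) * -((1/2:ℝ)^B / B) = 1 - (1/2)^B := by field_simp; ring
  rw [e] at h
  simpa [th, sub_eq_add_neg] using h

lemma avg_osc (B : ℕ) (U ω η : ℕ → ℝ) (d : ℕ → ℕ) (hd : ∀ n, d n < B)
    (hω : ∀ n, 0 ≤ ω n ∧ ω n ≤ 1/2)
    (hU : ∀ n, U (n+1) = (1 - ω n) * U n + ω n * U (n - d n) + η n) (n : ℕ) :
    ∀ l < B, ∀ l' < B, U (n - l) - U (n - l') ≤ 4 * ∑ i ∈ range n, th B ^ (n - i) * |η i| := by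
  have hB : 0 < B := by have := hd 0; omega
  have ht0 := th_pos hB
  have ht1 := th_lt hB
  have htB := th_pow hB
  have hh : (1/2:ℝ)^B ≤ (1/2)^1 := pow_le_pow_of_le_one (by norm_num) (by norm_num) hB
  -- block step
  have blk : ∀ (p : ℕ) (E : ℝ), (∀ l < B, ∀ l' < B, U (p - l) - U (p - l') ≤ E) →
      ∀ i, 1 ≤ i → i ≤ B → ∀ i', 1 ≤ i' → i' ≤ B → ∀ k, i ≤ k → i' ≤ k →
      U (p + i) - U (p + i') ≤ (1 - (1/2)^B) * E + 2 * ∑ j ∈ range k, |η (p+j)| := by
    intro p E hE i hi1 hi i' hi1' hi' k hk hk'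
    obtain ⟨l0, hl0, hmin⟩ := exists_min_image (range B) (fun l => U (p - l)) ⟨0, by simpa⟩
    obtain ⟨l1, hl1, hmax⟩ := exists_max_image (range B) (fun l => U (p - l)) ⟨0, by simpa⟩
    have a1 := (avg_block B U ω η d hd hω hU p (U (p - l0))
      (fun l hl => hmin l (mem_range.2 hl)) i').2
    have a2 := (avg_block B (fun n => - U n) ω (fun n => - η n) d hd hω
      (fun n => by simp only [hU]; ring) p (- U (p - l1))
      (fun l hl => by have := hmax l (mem_range.2 hl); simpa using this) i).2
    simp only [abs_neg] at a2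
    have b1 : ∑ j ∈ range i, |η (p+j)| ≤ ∑ j ∈ range k, |η (p+j)| :=
      sum_le_sum_of_subset_of_nonneg (range_mono hk) (fun _ _ _ => abs_nonneg _)
    have b2 : ∑ j ∈ range i', |η (p+j)| ≤ ∑ j ∈ range k, |η (p+j)| :=
      sum_le_sum_of_subset_of_nonneg (range_mono hk') (fun _ _ _ => abs_nonneg _)
    have c1 : (1/2:ℝ)^B ≤ (1/2)^i := pow_le_pow_of_le_one (by norm_num) (by norm_num) hi
    have c2 : (1/2:ℝ)^B ≤ (1/2)^i' := pow_le_pow_of_le_one (by norm_num) (by norm_num) hi'
    have d1 := hmin 0 (by simpa)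
    have d2 := hmax 0 (by simpa)
    simp only [Nat.sub_zero] at d1 d2
    have e1 := hE l1 (mem_range.1 hl1) l0 (mem_range.1 hl0)
    have f1 : (1/2:ℝ)^B * (U p - U (p - l0)) ≤ (1/2)^i' * (U p - U (p - l0)) :=
      mul_le_mul_of_nonneg_right c2 (by linarith)
    have f2 : (1/2:ℝ)^B * (U (p - l1) - U p) ≤ (1/2)^i * (U (p - l1) - U p) :=
      mul_le_mul_of_nonneg_right c1 (by linarith)
    have f3 : (1 - (1/2:ℝ)^B) * (U (p - l1) - U (p - l0)) ≤ (1 - (1/2)^B) * E :=
      mul_le_mul_of_nonneg_left e1 (by linarith)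
    nlinarith
  induction n using Nat.strong_induction_on with
  | _ n ih =>
  intro l hl l' hl'
  by_cases hn : B ≤ n
  · obtain ⟨p, rfl⟩ := Nat.exists_eq_add_of_le' hn
    have := blk p _ (ih p (by omega)) (B - l) (by omega) (by omega) (B - l') (by omega) (by omega)
      B (by omega) (by omega)
    rw [show p + B - l = p + (B - l) by omega, show p + B - l' = p + (B - l') by omega]
    refine this.trans ?_
    rw [sum_range_add]
    have g1 : (1 - (1/2:ℝ)^B) * (4 * ∑ i ∈ range p, th B ^ (p - i) * |η i|) ≤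
        4 * ∑ i ∈ range p, th B ^ (p + B - i) * |η i| := by
      rw [mul_left_comm, mul_sum]
      refine mul_le_mul_of_nonneg_left (sum_le_sum fun i hi => ?_) (by norm_num)
      rw [show p + B - i = B + (p - i) by have := mem_range.1 hi; omega, pow_add, mul_assoc]
      exact mul_le_mul_of_nonneg_right htB (by positivity)
    have g2 : 2 * ∑ j ∈ range B, |η (p+j)| ≤
        4 * ∑ j ∈ range B, th B ^ (p + B - (p + j)) * |η (p + j)| := by
      rw [mul_sum, mul_sum]
      refine sum_le_sum fun j hj => ?_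
      have : th B ^ B ≤ th B ^ (p + B - (p + j)) :=
        pow_le_pow_of_le_one (by linarith) ht1.le (by omega)
      have := abs_nonneg (η (p+j))
      nlinarith
    linarith
  · have z : ∀ i ≤ n, |U i - U 0| ≤ ∑ j ∈ range n, |η j| := by
      intro i hi
      have a1 := (avg_block B U ω η d hd hω hU 0 (U 0) (fun l _ => by simp) i).2
      have a2 := (avg_block B (fun n => - U n) ω (fun n => - η n) d hd hω
        (fun n => by simp only [hU]; ring) 0 (- U 0) (fun l _ => by simp) i).2
      simp only [abs_neg, zero_add, sub_self, mul_zero, add_zero] at a1 a2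
      have b1 : ∑ j ∈ range i, |η j| ≤ ∑ j ∈ range n, |η j| :=
        sum_le_sum_of_subset_of_nonneg (range_mono hi) (fun _ _ _ => abs_nonneg _)
      rw [abs_le]; constructor <;> linarith
    have z1 := abs_le.1 (z (n - l) (by omega))
    have z2 := abs_le.1 (z (n - l') (by omega))
    have g2 : 2 * ∑ j ∈ range n, |η j| ≤ 4 * ∑ j ∈ range n, th B ^ (n - j) * |η j| := by
      rw [mul_sum, mul_sum]
      refine sum_le_sum fun j hj => ?_
      have : th B ^ B ≤ th B ^ (n - j) :=
        pow_le_pow_of_le_one (by linarith) ht1.le (by omega)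
      have := abs_nonneg (η j)
      nlinarith
    linarith [z1.2, z2.1]

end Pool.Agent.H59.PD
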