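import Pool.Agent.H59.PD1

set_option autoImplicit false
open Finset Filter Topology

namespace Pool.Agent.H59.PD

lemma om_aux {x p p' : ℝ} (hx : 0 ≤ x) (hx1 : x ≤ 1) (hp : 0 < p) (hpp : p ≤ p') (hp1 : p' ≤ 1) :
    0 ≤ Real.log (1 + x * p') - Real.log (1 + x * p) ∧
    Real.log (1 + x * p') - Real.log (1 + x * p) ≤ (Real.log p' - Real.log p) / 2 := by
  have h1 : 0 < 1 + x * p := by positivity
  have hp' : 0 < p' := by linarith
  have h2 : 0 < 1 + x * p' := by positivity
  constructor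
  · have := Real.log_le_log h1 (show 1 + x * p ≤ 1 + x * p' by nlinarith)
    linarith
  · have h3 : (1 + x * p')^2 * p ≤ (1 + x * p)^2 * p' := by
      have : (1 + x * p)^2 * p' - (1 + x * p')^2 * p = (p' - p) * (1 - x^2 * p * p') := by ring
      have h4 : x^2 * p * p' ≤ 1 := by
        have : x^2 ≤ 1 := by nlinarith
        have : p * p' ≤ 1 := by nlinarith
        have : 0 ≤ p * p' := by positivity
        nlinarith
      nlinarith
    have := Real.log_le_log (by positivity) h3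
    rw [Real.log_mul (by positivity) hp.ne', Real.log_mul (by positivity) hp'.ne', Real.log_pow,
      Real.log_pow] at this
    push_cast at this
    linarith

lemma om_ex {x p p' : ℝ} (hx : 0 ≤ x) (hx1 : x ≤ 1) (hp : 0 < p) (hp' : 0 < p') (h1 : p ≤ 1)
    (h1' : p' ≤ 1) : ∃ ω : ℝ, (0 ≤ ω ∧ ω ≤ 1/2) ∧
      Real.log (1 + x * p) - Real.log (1 + x * p') = ω * (Real.log p - Real.log p') := by
  rcases lt_trichotomy p p' with h | h | h
  · obtain ⟨a, b⟩ := om_aux hx hx1 hp h.le h1'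
    have hl : 0 < Real.log p' - Real.log p := by have := Real.log_lt_log hp h; linarith
    refine ⟨(Real.log (1 + x * p') - Real.log (1 + x * p)) / (Real.log p' - Real.log p),
      ⟨by positivity, by rw [div_le_iff₀ hl]; linarith⟩, ?_⟩
    field_simp; ring
  · subst h; exact ⟨0, ⟨le_rfl, by norm_num⟩, by simp⟩
  · obtain ⟨a, b⟩ := om_aux hx hx1 hp' h.le h1
    have hl : 0 < Real.log p - Real.log p' := by have := Real.log_lt_log hp' h; linarith
    refine ⟨(Real.log (1 + x * p) - Real.log (1 + x * p')) / (Real.log p - Real.log p'),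
      ⟨by positivity, by rw [div_le_iff₀ hl]; linarith⟩, ?_⟩
    field_simp

lemma log_lip {a b : ℝ} (ha : 0 ≤ a) (hb : 0 ≤ b) :
    |Real.log (1 + a) - Real.log (1 + b)| ≤ |a - b| := by
  have key : ∀ a b : ℝ, 0 ≤ a → 0 ≤ b → Real.log (1 + a) - Real.log (1 + b) ≤ |a - b| := by
    intro a b ha hb
    rw [← Real.log_div (by positivity) (by positivity)]
    refine (Real.log_le_sub_one_of_pos (by positivity)).trans ?_
    rw [div_sub_one (by positivity), div_le_iff₀ (by positivity)]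
    have := le_abs_self (a - b)
    have := abs_nonneg (a - b)
    nlinarith
  rw [abs_le]
  have := key a b ha hb
  have := key b a hb ha
  rw [abs_sub_comm] at this
  constructor <;> linarith

def In01 (x : ℕ → ℝ) : Prop := ∀ i, 0 ≤ x i ∧ x i ≤ 1

lemma v_log_succ {X : ℕ → ℝ} (d : ℕ → ℕ) (hX : In01 X) (n : ℕ) :
    Real.log (v X d (n+1)) = Real.log (v X d n) +
      Real.log (1 + X n * (v X d (n - d n) / v X d n)) := by
  have h0 : ∀ i, 0 ≤ X i := fun i => (hX i).1
  have h1 := v_pos (d := d) h0 n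
  have h2 := v_pos (d := d) h0 (n - d n)
  have := h0 n
  rw [← Real.log_mul h1.ne' (by positivity), v_succ]
  congr 1; field_simp

lemma v_lip {B : ℕ} (hB : 2 ≤ B) {X X' : ℕ → ℝ} {d : ℕ → ℕ} (hd : ∀ n, d n < B) (hX : In01 X)
    (hX' : In01 X') (n : ℕ) :
    |(Real.log (v X d (n+1)) - Real.log (v X d n)) - (Real.log (v X' d (n+1)) - Real.log (v X' d n))|
      ≤ 4 * ∑ i ∈ range (n+1), th B ^ (n + 1 - i) * |X i - X' i| := by
  have h0 : ∀ i, 0 ≤ X i := fun i => (hX i).1
  have h0' : ∀ i, 0 ≤ X' i := fun i => (hX' i).1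
  set p : ℕ → ℝ := fun n => v X d (n - d n) / v X d n with hp
  set p' : ℕ → ℝ := fun n => v X' d (n - d n) / v X' d n with hp'
  have pp : ∀ n, 0 < p n := fun n => div_pos (v_pos h0 _) (v_pos h0 _)
  have pp' : ∀ n, 0 < p' n := fun n => div_pos (v_pos h0' _) (v_pos h0' _)
  have p1 : ∀ n, p n ≤ 1 := fun n => (div_le_one (v_pos h0 _)).2 (v_mono h0 (by omega))
  have p1' : ∀ n, p' n ≤ 1 := fun n => (div_le_one (v_pos h0' _)).2 (v_mono h0' (by omega))
  choose ω hω hω2 using fun n => om_ex (hX' n).1 (hX' n).2 (pp n) (pp' n) (p1 n) (p1' n)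
  set η : ℕ → ℝ := fun n => Real.log (1 + X n * p n) - Real.log (1 + X' n * p n) with hη
  set U : ℕ → ℝ := fun n => Real.log (v X d n) - Real.log (v X' d n) with hU
  have hrec : ∀ n, U (n+1) = (1 - ω n) * U n + ω n * U (n - d n) + η n := by
    intro n
    have e1 := v_log_succ d hX n
    have e2 := v_log_succ d hX' n
    have e3 := hω2 n
    have e4 : Real.log (p n) = Real.log (v X d (n - d n)) - Real.log (v X d n) :=
      Real.log_div (v_pos h0 _).ne' (v_pos h0 _).ne'
    have e5 : Real.log (p' n) = Real.log (v X' d (n - d n)) - Real.log (v X' d n) :=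
      Real.log_div (v_pos h0' _).ne' (v_pos h0' _).ne'
    simp only [hU, hη]
    rw [e1, e2]
    rw [e4, e5] at e3
    change _ + Real.log (1 + X n * p n) - (_ + Real.log (1 + X' n * p' n)) = _
    linarith
  have hηb : ∀ i, |η i| ≤ |X i - X' i| := by
    intro i
    refine (log_lip (mul_nonneg (h0 i) (pp i).le) (mul_nonneg (h0' i) (pp i).le)).trans ?_
    rw [← sub_mul, abs_mul, abs_of_pos (pp i)]
    exact mul_le_of_le_one_right (abs_nonneg _) (p1 i)
  have o1 := avg_osc B U ω η d hd hω hrec (n+1) 0 (by omega) 1 (by omega)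
  have o2 := avg_osc B U ω η d hd hω hrec (n+1) 1 (by omega) 0 (by omega)
  have hth : 0 ≤ th B := by have := th_pos (show 0 < B by omega); linarith
  have hs : ∑ i ∈ range (n+1), th B ^ (n + 1 - i) * |η i| ≤
      ∑ i ∈ range (n+1), th B ^ (n + 1 - i) * |X i - X' i| :=
    sum_le_sum fun i _ => mul_le_mul_of_nonneg_left (hηb i) (by positivity)
  simp only [Nat.sub_zero, Nat.add_sub_cancel, hU] at o1 o2
  rw [abs_le]; constructor <;> linarith

/-- log ratio with look-back depth `N` -/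
noncomputable def lN (x : ℕ → ℝ) (δ : ℕ → ℕ) (N : ℕ) : ℝ :=
  Real.log (v (fun n => x (N - n)) (fun n => δ (N - n)) (N+1)) -
    Real.log (v (fun n => x (N - n)) (fun n => δ (N - n)) N)

lemma lN_lip {B : ℕ} (hB : 2 ≤ B) {x x' : ℕ → ℝ} {δ : ℕ → ℕ} (hd : ∀ n, δ n < B) (hx : In01 x)
    (hx' : In01 x') (N : ℕ) :
    |lN x δ N - lN x' δ N| ≤ 4 * ∑ i ∈ range (N+1), th B ^ i * |x i - x' i| := by
  have := v_lip hB (X := fun n => x (N - n)) (X' := fun n => x' (N - n)) (d := fun n => δ (N - n))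
    (fun n => hd _) (fun n => hx _) (fun n => hx' _) N
  refine this.trans (mul_le_mul_of_nonneg_left ?_ (by norm_num))
  rw [← sum_range_reflect]
  have ht0 := th_pos (show 0 < B by omega)
  have ht1 := th_lt (show 0 < B by omega)
  refine sum_le_sum fun i hi => ?_
  have hi := mem_range.1 hi
  rw [show N - (N + 1 - 1 - i) = i by omega]
  exact mul_le_mul_of_nonneg_right (pow_le_pow_of_le_one (by linarith) ht1.le (by omega))
    (abs_nonneg _)

lemma lN_succ_zero {x : ℕ → ℝ} (δ : ℕ → ℕ) (N : ℕ) (h : x (N+1) = 0) :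
    lN x δ (N+1) = lN x δ N := by
  unfold lN
  rw [v_shift (fun n => x (N + 1 - n)) _ (by simpa using h) (N+1),
    v_shift (fun n => x (N + 1 - n)) _ (by simpa using h) N]
  simp only [Nat.add_sub_add_right]

lemma lN_congr {x x' : ℕ → ℝ} (δ : ℕ → ℕ) (N : ℕ) (h : ∀ i ≤ N, x i = x' i) :
    lN x δ N = lN x' δ N := by
  unfold lN
  rw [v_congr (X' := fun n => x' (N - n)) (d' := fun n => δ (N - n)) (N+1)
    (fun i _ => h _ (by omega)) (fun _ _ => rfl),
    v_congr (X' := fun n => x' (N - n)) (d' := fun n => δ (N - n)) N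
    (fun i _ => h _ (by omega)) (fun _ _ => rfl)]

lemma lN_cauchy {B : ℕ} (hB : 2 ≤ B) {x : ℕ → ℝ} {δ : ℕ → ℕ} (hd : ∀ n, δ n < B) (hx : In01 x) :
    CauchySeq (lN x δ) := by
  have ht0 := th_pos (show 0 < B by omega)
  have ht1 := th_lt (show 0 < B by omega)
  refine cauchySeq_of_le_geometric (th B) 4 ht1 fun N => ?_
  set x' : ℕ → ℝ := fun i => if i ≤ N then x i else 0 with hx'
  have hx01 : In01 x' := fun i => by
    simp only [hx']; split_ifs
    · exact hx i
    · simp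
  have e1 : lN x δ N = lN x' δ (N+1) := by
    rw [lN_succ_zero δ N (by simp [hx'])]
    exact lN_congr δ N fun i hi => by simp [hx', hi]
  rw [e1, Real.dist_eq]
  refine (lN_lip hB hd hx01 hx (N+1)).trans (mul_le_mul_of_nonneg_left ?_ (by norm_num))
  rw [sum_range_succ, sum_eq_zero (fun i hi => by
    have := mem_range.1 hi
    simp [hx', show i ≤ N by omega])]
  have h1 : |x' (N+1) - x (N+1)| ≤ 1 := by
    simp only [hx', show ¬ (N + 1 ≤ N) by omega, if_false, zero_sub, abs_neg]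
    rw [abs_of_nonneg (hx _).1]; exact (hx _).2
  have h2 : th B ^ (N+1) ≤ th B ^ N := pow_le_pow_of_le_one (by linarith) ht1.le (by omega)
  have h3 : 0 ≤ th B ^ (N+1) := by positivity
  nlinarith

noncomputable def LL (x : ℕ → ℝ) (δ : ℕ → ℕ) : ℝ := limUnder atTop (lN x δ)

lemma LL_tend {B : ℕ} (hB : 2 ≤ B) {x : ℕ → ℝ} {δ : ℕ → ℕ} (hd : ∀ n, δ n < B) (hx : In01 x) :
    Tendsto (lN x δ) atTop (𝓝 (LL x δ)) := (lN_cauchy hB hd hx).tendsto_limUnder

lemma LL_lip {B : ℕ} (hB : 2 ≤ B) {x x' : ℕ → ℝ} {δ : ℕ → ℕ} (hd : ∀ n, δ n < B) (hx : In01 x)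
    (hx' : In01 x') {E : ℝ} (hE : ∀ N, ∑ i ∈ range N, th B ^ i * |x i - x' i| ≤ E) :
    |LL x δ - LL x' δ| ≤ 4 * E := by
  have := ((LL_tend hB hd hx).sub (LL_tend hB hd hx')).abs
  refine le_of_tendsto' this fun N => (lN_lip hB hd hx hx' N).trans ?_
  have := hE (N+1); linarith

lemma LL_fin {B : ℕ} (hB : 2 ≤ B) {x : ℕ → ℝ} {δ : ℕ → ℕ} (hd : ∀ n, δ n < B) (hx : In01 x)
    (N : ℕ) (h : ∀ i, N < i → x i = 0) : LL x δ = lN x δ N := by
  have e : ∀ k, lN x δ (N + k) = lN x δ N := by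
    intro k
    induction k with
    | zero => rfl
    | succ k ih => rw [← add_assoc, lN_succ_zero δ _ (h _ (by omega)), ih]
  refine tendsto_nhds_unique (LL_tend hB hd hx) (tendsto_const_nhds.congr' ?_)
  filter_upwards [eventually_ge_atTop N] with n hn
  obtain ⟨k, rfl⟩ := Nat.exists_eq_add_of_le hn
  rw [e]

lemma lN_rec {x : ℕ → ℝ} (δ : ℕ → ℕ) (hx : In01 x) (N : ℕ) (hN : δ 0 ≤ N) :
    lN x δ N = Real.log (1 + x 0 * Real.exp (- ∑ l ∈ range (δ 0),
      lN (fun i => x (i + (l+1))) (fun i => δ (i + (l+1))) (N - (l+1)))) := by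
  set X : ℕ → ℝ := fun n => x (N - n)
  set d : ℕ → ℕ := fun n => δ (N - n)
  have hX : In01 X := fun n => hx _
  have h0 : ∀ i, 0 ≤ X i := fun i => (hX i).1
  have key : ∀ k ≤ N, ∑ l ∈ range k, lN (fun i => x (i + (l+1))) (fun i => δ (i + (l+1))) (N - (l+1))
      = Real.log (v X d N) - Real.log (v X d (N - k)) := by
    intro k hk
    induction k with
    | zero => simp
    | succ k ih =>
      rw [sum_range_succ, ih (by omega)]
      unfold lN
      rw [v_congr (X' := X) (d' := d) (N - (k+1) + 1)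
        (fun i hi => by simp only [X]; congr 1; omega) (fun i hi => by simp only [d]; congr 1; omega),
        v_congr (X' := X) (d' := d) (N - (k+1))
        (fun i hi => by simp only [X]; congr 1; omega) (fun i hi => by simp only [d]; congr 1; omega),
        show N - (k+1) + 1 = N - k by omega]
      ring
  rw [key _ hN, neg_sub, Real.exp_sub, Real.exp_log (v_pos h0 _), Real.exp_log (v_pos h0 _)]
  have := v_log_succ d hX N
  unfold lN
  change Real.log (v X d (N+1)) - Real.log (v X d N) = _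
  rw [this]
  simp [X, d]

lemma LL_rec {B : ℕ} (hB : 2 ≤ B) {x : ℕ → ℝ} {δ : ℕ → ℕ} (hd : ∀ n, δ n < B) (hx : In01 x) :
    LL x δ = Real.log (1 + x 0 * Real.exp (- ∑ l ∈ range (δ 0),
      LL (fun i => x (i + (l+1))) (fun i => δ (i + (l+1))))) := by
  refine tendsto_nhds_unique (LL_tend hB hd hx) ?_
  have h1 : Tendsto (fun N => ∑ l ∈ range (δ 0),
      lN (fun i => x (i + (l+1))) (fun i => δ (i + (l+1))) (N - (l+1))) atTop
      (𝓝 (∑ l ∈ range (δ 0), LL (fun i => x (i + (l+1))) (fun i => δ (i + (l+1))))) := by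
    refine tendsto_finsetSum _ fun l _ => ?_
    exact (LL_tend hB (fun n => hd _) (fun n => hx _)).comp (tendsto_sub_atTop_nat (l+1))
  have h2 := (((Real.continuous_exp.tendsto _).comp h1.neg).const_mul (x 0)).const_add 1
  have h3 := h2.log (by have := (hx 0).1; positivity)
  refine h3.congr' ?_
  filter_upwards [eventually_ge_atTop (δ 0)] with N hN
  rw [lN_rec δ hx N hN]; rfl

lemma LL_nonneg {B : ℕ} (hB : 2 ≤ B) {x : ℕ → ℝ} {δ : ℕ → ℕ} (hd : ∀ n, δ n < B) (hx : In01 x) :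
    0 ≤ LL x δ := by
  rw [LL_rec hB hd hx]
  have := (hx 0).1
  exact Real.log_nonneg (by simp; positivity)

lemma LL_le {B : ℕ} (hB : 2 ≤ B) {x : ℕ → ℝ} {δ : ℕ → ℕ} (hd : ∀ n, δ n < B) (hx : In01 x) :
    LL x δ ≤ x 0 := by
  rw [LL_rec hB hd hx]
  have h0 := (hx 0).1
  refine (Real.log_le_sub_one_of_pos (by positivity)).trans ?_
  have : Real.exp (- ∑ l ∈ range (δ 0), LL (fun i => x (i + (l+1))) (fun i => δ (i + (l+1)))) ≤ 1 := by
    rw [Real.exp_le_one_iff, neg_nonpos]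
    exact sum_nonneg fun l _ => LL_nonneg hB (fun n => hd _) (fun n => hx _)
  nlinarith

lemma LL_ge {B : ℕ} (hB : 2 ≤ B) {x : ℕ → ℝ} {δ : ℕ → ℕ} (hd : ∀ n, δ n < B) (hx : In01 x) :
    x 0 * Real.exp (-B) / 2 ≤ LL x δ := by
  rw [LL_rec hB hd hx]
  obtain ⟨h0, h1⟩ := hx 0
  set S := ∑ l ∈ range (δ 0), LL (fun i => x (i + (l+1))) (fun i => δ (i + (l+1)))
  have hS : S ≤ B := by
    have : S ≤ ∑ l ∈ range (δ 0), (1:ℝ) :=
      sum_le_sum fun l _ => (LL_le hB (fun n => hd _) (fun n => hx _)).trans (hx _).2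
    simp at this
    have h2 : (δ 0 : ℝ) ≤ B := by exact_mod_cast (hd 0).le
    linarith
  have hS0 : 0 ≤ S := sum_nonneg fun l _ => LL_nonneg hB (fun n => hd _) (fun n => hx _)
  have e1 : Real.exp (-B) ≤ Real.exp (-S) := Real.exp_le_exp.2 (by linarith)
  have e2 : Real.exp (-S) ≤ 1 := Real.exp_le_one_iff.2 (by linarith)
  set y := x 0 * Real.exp (-S)
  have y0 : 0 ≤ y := by positivity
  have y1 : y ≤ 1 := by simp only [y]; nlinarith [Real.exp_pos (-S)]
  have e3 : x 0 * Real.exp (-B) ≤ y := mul_le_mul_of_nonneg_left e1 h0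
  have e4 := Real.one_sub_inv_le_log_of_pos (show 0 < 1 + y by positivity)
  have e5 : y / 2 ≤ 1 - (1 + y)⁻¹ := by
    rw [show 1 - (1 + y)⁻¹ = y / (1 + y) by field_simp; ring]
    exact div_le_div_of_nonneg_left y0 (by positivity) (by linarith)
  linarith

end Pool.Agent.H59.PD
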