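import Pool.Agent.H59.PD2

set_option autoImplicit false
open Finset Filter Topology Asymptotics MeasureTheory

namespace Pool.Agent.H59.PD

lemma diff_approx {f : ℝ × ℝ → ℝ} {p0 : ℝ × ℝ}
    (h : ∀ e : ℝ, 0 < e → ∃ g : ℝ × ℝ → ℝ, DifferentiableAt ℝ g p0 ∧ ∀ p, |f p - g p| ≤ e * ‖p - p0‖) :
    DifferentiableAt ℝ f p0 := by
  choose g hg hfg using fun n : ℕ => h (1 / ((n:ℝ) + 1)) (by positivity)
  set L : ℕ → (ℝ × ℝ →L[ℝ] ℝ) := fun n => fderiv ℝ (g n) p0
  have g0 : ∀ n, g n p0 = f p0 := fun n => by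
    have := hfg n p0; simp at this; linarith
  have hL : ∀ n m, ‖L n - L m‖ ≤ 1 / ((n:ℝ) + 1) + 1 / ((m:ℝ) + 1) := by
    intro n m
    refine ((hg n).hasFDerivAt.sub (hg m).hasFDerivAt).le_of_lip' (by positivity) ?_
    refine Eventually.of_forall fun p => ?_
    have a := abs_le.1 (hfg n p)
    have b := abs_le.1 (hfg m p)
    simp only [Pi.sub_apply, g0, sub_self, sub_zero, Real.norm_eq_abs]
    rw [abs_le]; constructor <;> linarith [a.1, a.2, b.1, b.2]
  have hc : CauchySeq L := by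
    refine cauchySeq_of_le_tendsto_0 (fun N : ℕ => 2 * (1 / ((N:ℝ) + 1))) (fun n m N hn hm => ?_) ?_
    · rw [dist_eq_norm]
      have a : 1 / ((n:ℝ) + 1) ≤ 1 / ((N:ℝ) + 1) := Nat.one_div_le_one_div hn
      have b : 1 / ((m:ℝ) + 1) ≤ 1 / ((N:ℝ) + 1) := Nat.one_div_le_one_div hm
      linarith [hL n m]
    · simpa using tendsto_one_div_add_atTop_nhds_zero_nat.const_mul (2:ℝ)
  obtain ⟨L0, hL0⟩ := cauchySeq_tendsto_of_complete hc
  refine ⟨L0, ?_⟩
  rw [hasFDerivAt_iff_isLittleO, isLittleO_iff]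
  intro c hc
  obtain ⟨n, hn1, hn2⟩ := (((tendsto_one_div_add_atTop_nhds_zero_nat (𝕜 := ℝ)).eventually
    (gt_mem_nhds (show (0:ℝ) < c / 3 by positivity))).and
    (hL0.eventually (Metric.ball_mem_nhds L0 (show (0:ℝ) < c / 3 by positivity)))).exists
  have h3 := (hg n).hasFDerivAt
  rw [hasFDerivAt_iff_isLittleO, isLittleO_iff] at h3
  filter_upwards [h3 (show (0:ℝ) < c / 3 by positivity)] with p hp
  have a := abs_le.1 (hfg n p)
  have b : |(L n - L0) (p - p0)| ≤ c / 3 * ‖p - p0‖ := by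
    refine ((L n - L0).le_opNorm _).trans (mul_le_mul_of_nonneg_right ?_ (norm_nonneg _))
    rw [dist_eq_norm] at hn2; exact hn2.le
  have b := abs_le.1 b
  rw [Real.norm_eq_abs, g0] at hp
  have hp := abs_le.1 hp
  have e : 1 / ((n:ℝ) + 1) * ‖p - p0‖ ≤ c / 3 * ‖p - p0‖ :=
    mul_le_mul_of_nonneg_right hn1.le (norm_nonneg _)
  simp only [ContinuousLinearMap.sub_apply] at b
  rw [Real.norm_eq_abs, abs_le]
  change _ ≤ g n p - f p0 - L n (p - p0) ∧ g n p - f p0 - L n (p - p0) ≤ _ at hp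
  constructor <;> linarith [a.1, a.2, b.1, b.2, hp.1, hp.2]

lemma LL_diff {B : ℕ} (hB : 2 ≤ B) {δ : ℕ → ℕ} (hd : ∀ n, δ n < B) (x : ℝ × ℝ → ℕ → ℝ)
    (p0 : ℝ × ℝ) (hx : ∀ p, In01 (x p)) (hdx : ∀ i, DifferentiableAt ℝ (fun p => x p i) p0) (N : ℕ)
    (hN : ∀ p i, N ≤ i → x p i = x p0 i) (r : ℕ) : ∀ q, N ≤ q + r →
    DifferentiableAt ℝ (fun p => LL (fun i => x p (i + q)) (fun i => δ (i + q))) p0 := by
  induction r with
  | zero =>
    intro q hq
    have : (fun p => LL (fun i => x p (i + q)) (fun i => δ (i + q))) =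
        fun _ => LL (fun i => x p0 (i + q)) (fun i => δ (i + q)) := by
      funext p; congr 1; funext i; exact hN p _ (by omega)
    rw [this]; exact differentiableAt_const _
  | succ r ih =>
    intro q hq
    have : (fun p => LL (fun i => x p (i + q)) (fun i => δ (i + q))) =
        fun p => Real.log (1 + x p q * Real.exp (- ∑ l ∈ range (δ q),
          LL (fun i => x p (i + (l + 1 + q))) (fun i => δ (i + (l + 1 + q))))) := by
      funext p
      rw [LL_rec hB (fun n => hd _) (fun n => hx p _)]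
      simp only [zero_add, add_assoc]
    rw [this]
    refine DifferentiableAt.log ?_ (by have := (hx p0 q).1; positivity)
    refine ((hdx q).mul (DifferentiableAt.exp (DifferentiableAt.neg ?_))).const_add 1
    exact DifferentiableAt.fun_sum fun l _ => ih _ (by omega)

lemma exp_lip {a b g : ℝ} (ha : g ≤ a) (hb : g ≤ b) :
    |Real.exp (-a) - Real.exp (-b)| ≤ Real.exp (-g) * |a - b| := by
  have key : ∀ a b : ℝ, g ≤ a → a ≤ b → |Real.exp (-a) - Real.exp (-b)| ≤ Real.exp (-g) * |a - b| := by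
    intro a b ha hab
    have h1 : Real.exp (-b) ≤ Real.exp (-a) := Real.exp_le_exp.2 (by linarith)
    have h2 : Real.exp (-a) ≤ Real.exp (-g) := Real.exp_le_exp.2 (by linarith)
    rw [abs_of_nonneg (by linarith), abs_of_nonpos (by linarith)]
    have h3 : Real.exp (-b) = Real.exp (-a) * Real.exp (a - b) := by
      rw [← Real.exp_add]; congr 1; ring
    have h4 := Real.add_one_le_exp (a - b)
    have h5 := Real.exp_pos (-a)
    rw [h3]; nlinarith
  rcases le_total a b with h | h
  · exact key a b ha h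
  · rw [abs_sub_comm, abs_sub_comm a]; exact key b a hb h

lemma sum_poly {θ : ℝ} (h0 : 0 ≤ θ) (h1 : θ < 1) (c : ℝ) :
    Summable (fun i : ℕ => θ ^ i * (c + i)) := by
  have a := summable_pow_mul_geometric_of_norm_lt_one 1 (show ‖θ‖ < 1 by rwa [Real.norm_of_nonneg h0])
  have b := (summable_geometric_of_lt_one h0 h1).mul_right c
  refine (a.add b).congr fun i => by ring

noncomputable def W (D : ℤ → ℕ) (ε : ℤ) (j : ℤ) (p : ℝ × ℝ) : ℝ :=
  LL (fun i => Real.exp (-|p.1 + ε * i * p.2|)) (fun i => D (j + ε * i))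

lemma in01_exp (a : ℕ → ℝ) : In01 (fun i => Real.exp (-|a i|)) := fun i =>
  ⟨(Real.exp_pos _).le, Real.exp_le_one_iff.2 (by simp)⟩

lemma W_diff {B : ℕ} (hB : 2 ≤ B) {D : ℤ → ℕ} (hD : ∀ m, D m < B) {ε : ℤ} (hε : |(ε:ℝ)| = 1)
    (j : ℤ) {s : ℝ} (hs : 0 < s) : DifferentiableAt ℝ (W D ε j) (s, 0) := by
  have ht0 := th_pos (show 0 < B by omega)
  have ht1 := th_lt (show 0 < B by omega)
  have hsum := sum_poly (θ := th B) (by linarith) ht1 1
  have htail : Tendsto (fun N : ℕ => ∑' i : ℕ, if i < N then (0:ℝ) else th B ^ i * (1 + i)) atTop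
      (𝓝 (∑' _ : ℕ, (0:ℝ))) := by
    refine tendsto_tsum_of_dominated_convergence hsum (fun k => ?_) (Eventually.of_forall fun N k => ?_)
    · refine tendsto_const_nhds.congr' ?_
      filter_upwards [eventually_gt_atTop k] with N hN
      simp [hN]
    · split_ifs
      · simp; positivity
      · rw [Real.norm_of_nonneg (by positivity)]
  rw [tsum_zero] at htail
  refine diff_approx fun e he => ?_
  obtain ⟨N, hN⟩ := (htail.eventually (gt_mem_nhds (show (0:ℝ) < e / 4 by positivity))).exists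
  set x : ℝ × ℝ → ℕ → ℝ := fun p i => Real.exp (-|if i < N then p.1 + ε * i * p.2 else s|) with hx
  refine ⟨fun p => LL (fun i => x p (i + 0)) (fun i => D (j + ε * ((i + 0 : ℕ) : ℤ))), ?_, fun p => ?_⟩
  · refine LL_diff hB (δ := fun i => D (j + ε * i)) (fun n => hD _) x _ (fun p => in01_exp _)
      (fun i => ?_) N (fun p i hi => by simp [hx, show ¬ i < N by omega]) N 0 (by omega)
    simp only [hx]
    refine DifferentiableAt.exp (DifferentiableAt.neg (DifferentiableAt.abs ?_ ?_))
    · split_ifs <;> fun_prop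
    · simp [hs.ne']
  · simp only [add_zero]
    have := LL_lip hB (δ := fun i => D (j + ε * i)) (fun n => hD _)
      (in01_exp fun i => p.1 + ε * i * p.2) (in01_exp fun i => if i < N then p.1 + ε * i * p.2 else s)
      (E := (∑' i : ℕ, if i < N then (0:ℝ) else th B ^ i * (1 + i)) * ‖p - (s, 0)‖) (fun n => by
        rw [← tsum_mul_right]
        have hs2 : Summable (fun i : ℕ => if i < N then (0:ℝ) else th B ^ i * (1 + i)) :=
          Summable.of_nonneg_of_le (fun i => by split_ifs <;> positivity)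
            (fun i => by split_ifs <;> [positivity; exact le_rfl]) hsum
        have hs3 : ∀ i : ℕ, 0 ≤ (if i < N then (0:ℝ) else th B ^ i * (1 + i)) * ‖p - (s, 0)‖ :=
          fun i => by split_ifs <;> positivity
        refine le_trans (sum_le_sum fun i _ => ?_) (Summable.sum_le_tsum _ (fun i _ => hs3 i)
          (Summable.mul_right _ hs2))
        split_ifs with hi
        · simp
        · rw [mul_assoc (th B ^ i)]
          refine mul_le_mul_of_nonneg_left ?_ (by positivity)
          refine (exp_lip (abs_nonneg _) (abs_nonneg _)).trans ?_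
          simp only [neg_zero, Real.exp_zero, one_mul]
          refine (abs_abs_sub_abs_le_abs_sub _ _).trans ?_
          have h1 : |p.1 - s| ≤ ‖p - (s, 0)‖ := norm_fst_le (p - (s, 0))
          have h2 : |p.2| ≤ ‖p - (s, 0)‖ := by
            have := norm_snd_le (p - (s, 0))
            rwa [Prod.snd_sub, sub_zero] at this
          rw [show p.1 + ε * i * p.2 - s = (p.1 - s) + ε * i * p.2 by ring]
          refine (abs_add_le _ _).trans ?_
          rw [abs_mul, abs_mul, hε, Nat.abs_cast]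
          have : (0:ℝ) ≤ i := by positivity
          nlinarith)
    refine this.trans ?_
    have := norm_nonneg (p - (s, 0))
    nlinarith

lemma W_dom {B : ℕ} (hB : 2 ≤ B) {D : ℤ → ℕ} (hD : ∀ m, D m < B) {ε : ℤ} (hε : |(ε:ℝ)| = 1)
    (M : ℕ) : ∃ C t0 : ℝ, 0 < C ∧ 0 < t0 ∧ ∀ t, 0 ≤ t → t ≤ t0 → ∀ (j : ℤ) (κ a a' : ℝ), 0 ≤ κ →
      κ ≤ a → κ ≤ a' → |a - a'| ≤ M * t → |W D ε j (a, t) - W D ε j (a', 0)| ≤ C * t * Real.exp (-κ) := by
  have ht0 := th_pos (show 0 < B by omega)
  have ht1 := th_lt (show 0 < B by omega)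
  set θ' := (1 + th B) / 2
  have hsum := sum_poly (θ := θ') (by positivity) (by simp only [θ']; linarith) M
  have hS : 0 ≤ ∑' i : ℕ, θ' ^ i * ((M:ℝ) + i) := tsum_nonneg fun i => by positivity
  refine ⟨4 * (∑' i : ℕ, θ' ^ i * ((M:ℝ) + i)) + 1, Real.log (θ' / th B), by positivity,
    Real.log_pos (by rw [one_lt_div (by linarith)]; simp only [θ']; linarith), ?_⟩
  intro t h0 h1 j κ a a' hκ ha ha' haa
  have he : th B * Real.exp t ≤ θ' := by
    have := Real.exp_le_exp.2 h1
    rw [Real.exp_log (by positivity), le_div_iff₀ (by linarith)] at this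
    linarith
  have := LL_lip hB (δ := fun i => D (j + ε * i)) (fun n => hD _)
    (in01_exp fun i => a + ε * i * t) (in01_exp fun i => a' + ε * i * 0)
    (E := (∑' i : ℕ, θ' ^ i * ((M:ℝ) + i)) * (t * Real.exp (-κ))) (fun n => by
      rw [← tsum_mul_right]
      refine le_trans (sum_le_sum fun i _ => ?_) (Summable.sum_le_tsum _ (fun i _ => by positivity)
        (Summable.mul_right _ hsum))
      have hi : (0:ℝ) ≤ i := by positivity
      have e1 : |(ε:ℝ) * i * t| = i * t := by
        rw [abs_mul, abs_mul, hε, Nat.abs_cast, abs_of_nonneg h0, one_mul]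
      have b1 : κ - i * t ≤ |a + ε * i * t| := by
        have := neg_abs_le ((ε:ℝ) * i * t); have := le_abs_self (a + ε * i * t); linarith
      have b2 : κ - i * t ≤ |a' + ε * i * 0| := by
        have := le_abs_self (a' + ε * i * 0); nlinarith
      have b3 := exp_lip b1 b2
      have b4 : |(|a + ε * i * t| - |a' + ε * i * 0|)| ≤ (M + i) * t := by
        refine (abs_abs_sub_abs_le_abs_sub _ _).trans ?_
        rw [show a + ε * i * t - (a' + ε * i * 0) = (a - a') + ε * i * t by ring]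
        refine (abs_add_le _ _).trans ?_
        rw [e1]; linarith
      have b5 : Real.exp (-(κ - i * t)) = Real.exp t ^ i * Real.exp (-κ) := by
        rw [← Real.exp_nat_mul, ← Real.exp_add]; congr 1; ring
      have b6 : (th B * Real.exp t) ^ i ≤ θ' ^ i := pow_le_pow_left₀ (by positivity) he i
      calc _ ≤ th B ^ i * (Real.exp (-(κ - i * t)) * ((M + i) * t)) := by
            refine mul_le_mul_of_nonneg_left (b3.trans ?_) (by positivity)
            exact mul_le_mul_of_nonneg_left b4 (by positivity)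
        _ = (th B * Real.exp t) ^ i * ((M + i) * (t * Real.exp (-κ))) := by
            rw [b5, mul_pow]; ring
        _ ≤ θ' ^ i * ((M + i) * (t * Real.exp (-κ))) :=
            mul_le_mul_of_nonneg_right b6 (by positivity)
        _ = _ := by ring)
  refine this.trans ?_
  have : 0 ≤ t * Real.exp (-κ) := by positivity
  nlinarith

lemma W_cont {B : ℕ} (hB : 2 ≤ B) {D : ℤ → ℕ} (hD : ∀ m, D m < B) (ε : ℤ) (j : ℤ) :
    Continuous fun s : ℝ => W D ε j (s, 0) := by
  have ht0 := th_pos (show 0 < B by omega)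
  have ht1 := th_lt (show 0 < B by omega)
  refine LipschitzWith.continuous (K := Real.toNNReal (4 * (1 - th B)⁻¹))
    (LipschitzWith.of_dist_le' fun a b => ?_)
  have := LL_lip hB (δ := fun i => D (j + ε * i)) (fun n => hD _)
    (in01_exp fun i => a + ε * i * 0) (in01_exp fun i => b + ε * i * 0)
    (E := (1 - th B)⁻¹ * |a - b|) (fun n => by
      rw [← tsum_geometric_of_lt_one (by linarith) ht1, ← tsum_mul_right]
      refine le_trans (sum_le_sum fun i _ => ?_) (Summable.sum_le_tsum _ (fun i _ => by positivity)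
        (Summable.mul_right _ (summable_geometric_of_lt_one (by linarith) ht1)))
      refine mul_le_mul_of_nonneg_left ?_ (by positivity)
      refine (exp_lip (abs_nonneg _) (abs_nonneg _)).trans ?_
      simpa using abs_abs_sub_abs_le_abs_sub a b)
  rw [Real.dist_eq, Real.dist_eq, mul_assoc]
  exact this

lemma dq {f : ℝ × ℝ → ℝ} {L : ℝ × ℝ →L[ℝ] ℝ} {p0 w : ℝ × ℝ} (hf : HasFDerivAt f L p0)
    (p p' : ℝ → ℝ × ℝ) (C : ℝ)
    (h : ∀ᶠ t in 𝓝[>] (0:ℝ), ‖p t - p0‖ ≤ C * t ∧ ‖p' t - p0‖ ≤ C * t ∧ p t - p' t = t • w) :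
    Tendsto (fun t => (f (p t) - f (p' t)) / t) (𝓝[>] 0) (𝓝 (L w)) := by
  have key : ∀ q : ℝ → ℝ × ℝ, (∀ᶠ t in 𝓝[>] (0:ℝ), ‖q t - p0‖ ≤ C * t) →
      Tendsto (fun t => (f (q t) - f p0 - L (q t - p0)) / t) (𝓝[>] 0) (𝓝 0) := by
    intro q hq
    have h1 : Tendsto q (𝓝[>] 0) (𝓝 p0) := by
      rw [tendsto_iff_norm_sub_tendsto_zero]
      refine squeeze_zero' (Eventually.of_forall fun _ => norm_nonneg _) hq ?_
      have : Tendsto (fun t : ℝ => C * t) (𝓝 0) (𝓝 (C * 0)) := tendsto_id.const_mul C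
      simpa using this.mono_left nhdsWithin_le_nhds
    have h2 := (hasFDerivAt_iff_isLittleO.1 hf).comp_tendsto h1
    have h3 : (fun t => q t - p0) =O[𝓝[>] (0:ℝ)] fun t => t := by
      refine IsBigO.of_bound C ?_
      filter_upwards [hq, self_mem_nhdsWithin] with t h1 h2
      rwa [Real.norm_of_nonneg (le_of_lt h2)]
    exact (h2.trans_isBigO h3).tendsto_div_nhds_zero
  have := ((key p (h.mono fun t ht => ht.1)).sub (key p' (h.mono fun t ht => ht.2.1))).add_const (L w)
  simp only [sub_self, zero_add] at this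
  refine this.congr' ?_
  filter_upwards [h, self_mem_nhdsWithin] with t ht h0
  have h0 : t ≠ 0 := ne_of_gt h0
  have : L (p t - p0) - L (p' t - p0) = t * L w := by
    rw [← map_sub, sub_sub_sub_cancel_right, ht.2.2, map_smul, smul_eq_mul]
  field_simp
  linarith

end Pool.Agent.H59.PD
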