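import Pool.Agent.H59.PD3

set_option autoImplicit false
open Finset Filter Topology Asymptotics MeasureTheory

namespace Pool.Agent.H59.PD

noncomputable def HH (D : ℤ → ℕ) (ε : ℤ) (M : ℕ) (s : ℝ) : ℝ :=
  ∑ j ∈ range M, W D ε (j+1) (s, 0)

noncomputable def AA (D : ℤ → ℕ) (ε : ℤ) (M : ℕ) : ℝ := (∫ s in Set.Ioi (0:ℝ), HH D ε M s) / M

noncomputable def qq (D : ℤ → ℕ) (ε : ℤ) (M : ℕ) (t : ℝ) (i : ℕ) (u : ℝ) : ℝ :=
  ∑ j ∈ range M, (W D ε (j+1) (((i:ℝ) * M + j + 1) * t, t) - W D ε (j+1) ((i + u) * (M * t), 0)) / t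

noncomputable def Et (D : ℤ → ℕ) (ε : ℤ) (M : ℕ) (t : ℝ) (i : ℕ) : ℝ :=
  ∫ u in (0:ℝ)..1, qq D ε M t i u

noncomputable def GG (D : ℤ → ℕ) (ε : ℤ) (M : ℕ) (s : ℝ) : ℝ :=
  ∫ u in (0:ℝ)..1, ∑ j ∈ range M, fderiv ℝ (W D ε (j+1)) (s, 0) ((j:ℝ) + 1 - u * M, 1)

variable {B : ℕ} {D : ℤ → ℕ} {ε : ℤ} {M : ℕ}

lemma HH_cont (hB : 2 ≤ B) (hD : ∀ m, D m < B) : Continuous (HH D ε M) :=
  continuous_finsetSum _ fun _ _ => W_cont hB hD ε _

lemma W_bd (hB : 2 ≤ B) (hD : ∀ m, D m < B) (j : ℤ) {s : ℝ} (hs : 0 ≤ s) :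
    Real.exp (-s) * Real.exp (-B) / 2 ≤ W D ε j (s, 0) ∧ W D ε j (s, 0) ≤ Real.exp (-s) := by
  have a := LL_ge hB (δ := fun i => D (j + ε * i)) (fun n => hD _) (in01_exp fun i => s + ε * i * 0)
  have b := LL_le hB (δ := fun i => D (j + ε * i)) (fun n => hD _) (in01_exp fun i => s + ε * i * 0)
  simp only [mul_zero, add_zero, abs_of_nonneg hs] at a b
  simp only [W, mul_zero, add_zero, abs_of_nonneg hs]
  exact ⟨a, b⟩

lemma HH_bd (hB : 2 ≤ B) (hD : ∀ m, D m < B) {s : ℝ} (hs : 0 ≤ s) :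
    M * (Real.exp (-s) * Real.exp (-B) / 2) ≤ HH D ε M s ∧ HH D ε M s ≤ M * Real.exp (-s) := by
  constructor
  · have := sum_le_sum fun j (_ : j ∈ range M) => (W_bd (ε := ε) hB hD ((j:ℤ)+1) hs).1
    simpa [HH] using this
  · have := sum_le_sum fun j (_ : j ∈ range M) => (W_bd (ε := ε) hB hD ((j:ℤ)+1) hs).2
    simpa [HH] using this

lemma HH_int (hB : 2 ≤ B) (hD : ∀ m, D m < B) {a : ℝ} (ha : 0 ≤ a) :
    IntegrableOn (HH D ε M) (Set.Ioi a) := by
  refine Integrable.mono' ((integrableOn_exp_neg_Ioi a).const_mul M)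
    (HH_cont hB hD).aestronglyMeasurable ?_
  refine (ae_restrict_iff' measurableSet_Ioi).2 (Eventually.of_forall fun s hs => ?_)
  have hs : 0 ≤ s := ha.trans (le_of_lt hs)
  obtain ⟨h1, h2⟩ := HH_bd (ε := ε) (M := M) hB hD hs
  rw [Real.norm_of_nonneg (le_trans (by positivity) h1)]; exact h2

lemma AA_pos (hB : 2 ≤ B) (hD : ∀ m, D m < B) (hM : 0 < M) : 0 < AA D ε M := by
  have hM' : (0:ℝ) < M := by exact_mod_cast hM
  refine div_pos (lt_of_lt_of_le ?_ (setIntegral_mono_on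
    (f := fun s => (M * Real.exp (-B) / 2) * Real.exp (-s))
    ((integrableOn_exp_neg_Ioi 0).const_mul _) (HH_int hB hD le_rfl) measurableSet_Ioi
    (fun s hs => ?_))) hM'
  · rw [integral_const_mul, integral_exp_neg_Ioi_zero]; positivity
  · have := (HH_bd (ε := ε) (M := M) hB hD (le_of_lt hs)).1
    linarith

lemma HH_tail (hB : 2 ≤ B) (hD : ∀ m, D m < B) {a : ℝ} (ha : 0 ≤ a) :
    |∫ s in Set.Ioi a, HH D ε M s| ≤ M * Real.exp (-a) := by
  rw [abs_of_nonneg (setIntegral_nonneg measurableSet_Ioi fun s hs =>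
    le_trans (by positivity) (HH_bd hB hD (ha.trans (le_of_lt hs))).1)]
  refine (setIntegral_mono_on (HH_int hB hD ha) ((integrableOn_exp_neg_Ioi a).const_mul M)
    measurableSet_Ioi (fun s hs => (HH_bd hB hD (ha.trans (le_of_lt hs))).2)).trans ?_
  rw [integral_const_mul, integral_exp_neg_Ioi]

lemma qq_cont (hB : 2 ≤ B) (hD : ∀ m, D m < B) (t : ℝ) (i : ℕ) : Continuous (qq D ε M t i) := by
  refine continuous_finsetSum _ fun j _ => (continuous_const.sub ?_).div_const _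
  exact (W_cont hB hD ε _).comp (by fun_prop : Continuous fun u : ℝ => (i + u) * (M * t))

lemma qq_bd (hB : 2 ≤ B) (hD : ∀ m, D m < B) (hε : |(ε:ℝ)| = 1) : ∃ C t0 : ℝ, 0 ≤ C ∧ 0 < t0 ∧
    ∀ t, 0 < t → t ≤ t0 → ∀ (i : ℕ) (u : ℝ), 0 ≤ u → u ≤ 1 →
      |qq D ε M t i u| ≤ C * Real.exp (-(i * (M * t))) := by
  obtain ⟨C, t0, hC, ht0, h⟩ := W_dom hB hD hε M
  refine ⟨M * C, t0, by positivity, ht0, fun t h0 h1 i u hu0 hu1 => ?_⟩
  refine (abs_sum_le_sum_abs _ _).trans ?_
  refine (sum_le_card_nsmul _ _ (C * Real.exp (-(i * (M * t)))) fun j hj => ?_).trans ?_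
  · have hj : (j:ℝ) + 1 ≤ M := by exact_mod_cast mem_range.1 hj
    have hj0 : (0:ℝ) ≤ j := by positivity
    have hM : (0:ℝ) ≤ M := by positivity
    rw [abs_div, abs_of_pos h0, div_le_iff₀ h0]
    refine (h t h0.le h1 _ (i * (M * t)) _ _ (by positivity) (by nlinarith)
      (by nlinarith [mul_nonneg hu0 (mul_nonneg hM h0.le)]) ?_).trans (le_of_eq (by ring))
    rw [show ((i:ℝ) * M + j + 1) * t - (i + u) * (M * t) = (j + 1 - u * M) * t by ring, abs_mul,
      abs_of_pos h0]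
    refine mul_le_mul_of_nonneg_right ?_ h0.le
    rw [abs_le]; constructor <;> nlinarith
  · simp [mul_assoc]

lemma fl_bd {s τ : ℝ} (hs : 0 ≤ s) (hτ : 0 < τ) :
    (⌊s / τ⌋₊ : ℝ) * τ ≤ s ∧ s < (⌊s / τ⌋₊ + 1) * τ := by
  constructor
  · rw [← le_div_iff₀ hτ]; exact Nat.floor_le (by positivity)
  · rw [← div_lt_iff₀ hτ]; exact Nat.lt_floor_add_one _

lemma Et_tend (hB : 2 ≤ B) (hD : ∀ m, D m < B) (hε : |(ε:ℝ)| = 1) (hM : 0 < M) {s : ℝ} (hs : 0 < s) :
    Tendsto (fun t => Et D ε M t ⌊s / (M * t)⌋₊) (𝓝[>] 0) (𝓝 (GG D ε M s)) := by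
  obtain ⟨C, t0, hC, ht0, h⟩ := qq_bd (M := M) hB hD hε
  have hM' : (0:ℝ) < M := by exact_mod_cast hM
  refine intervalIntegral.tendsto_integral_filter_of_dominated_convergence (fun _ => C)
    (Eventually.of_forall fun t => (qq_cont hB hD t _).aestronglyMeasurable) ?_
    intervalIntegrable_const (Eventually.of_forall fun u hu => ?_)
  · filter_upwards [Ioc_mem_nhdsGT ht0] with t ht
    refine Eventually.of_forall fun u hu => ?_
    rw [Set.uIoc_of_le zero_le_one] at hu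
    refine (h t ht.1 ht.2 _ u hu.1.le hu.2).trans (mul_le_of_le_one_right hC ?_)
    have := ht.1
    rw [Real.exp_le_one_iff, neg_nonpos]; positivity
  · rw [Set.uIoc_of_le zero_le_one] at hu
    refine tendsto_finsetSum _ fun j hj => ?_
    have hj : (j:ℝ) + 1 ≤ M := by exact_mod_cast mem_range.1 hj
    have hj0 : (0:ℝ) ≤ j := by positivity
    have hM1 : (1:ℝ) ≤ M := by linarith
    refine dq (W_diff hB hD hε _ hs).hasFDerivAt
      (fun t => (((⌊s / (M * t)⌋₊ : ℝ) * M + j + 1) * t, t))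
      (fun t => ((⌊s / (M * t)⌋₊ + u) * (M * t), 0)) M ?_
    filter_upwards [self_mem_nhdsWithin] with t ht
    have ht : 0 < t := ht
    obtain ⟨h1, h2⟩ := fl_bd hs.le (mul_pos hM' ht)
    obtain ⟨u0, u1⟩ := hu
    have hMt := mul_pos hM' ht
    refine ⟨?_, ?_, ?_⟩
    · simp only [Prod.mk_sub_mk, sub_zero, Prod.norm_mk, Real.norm_eq_abs, max_le_iff, abs_le]
      refine ⟨⟨?_, ?_⟩, ?_, ?_⟩ <;> nlinarith
    · simp only [Prod.mk_sub_mk, sub_zero, Prod.norm_mk, Real.norm_eq_abs, max_le_iff, abs_le]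
      refine ⟨⟨?_, ?_⟩, ?_, ?_⟩ <;> nlinarith
    · simp only [Prod.mk_sub_mk, sub_zero, Prod.smul_mk, smul_eq_mul, mul_one]
      congr 1; ring

lemma block_id (hB : 2 ≤ B) (hD : ∀ m, D m < B) (hM : 0 < M) {t : ℝ} (ht : 0 < t) (i : ℕ) :
    ∑ j ∈ range M, W D ε (j+1) (((i:ℝ) * M + j + 1) * t, t) =
      t * Et D ε M t i + (∫ s in ((i:ℝ) * (M * t))..(((i+1:ℕ):ℝ) * (M * t)), HH D ε M s) / (M * t) := by
  have hM' : (0:ℝ) < M := by exact_mod_cast hM
  have e1 : ∀ u, qq D ε M t i u = (∑ j ∈ range M, W D ε (j+1) (((i:ℝ) * M + j + 1) * t, t)) / t -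
      HH D ε M (M * t * u + i * (M * t)) / t := by
    intro u
    rw [qq, HH, ← sub_div, ← sum_sub_distrib, sum_div, show M * t * u + i * (M * t) = (i + u) * (M * t) by ring]
  have e2 := intervalIntegral.smul_integral_comp_mul_add (a := 0) (b := 1) (HH D ε M) (M * t) (i * (M * t))
  have hc : Continuous fun u : ℝ => HH D ε M (M * t * u + i * (M * t)) / t :=
    ((HH_cont hB hD).comp (by fun_prop)).div_const _
  rw [Et, intervalIntegral.integral_congr (fun u _ => e1 u), intervalIntegral.integral_sub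
    intervalIntegrable_const (hc.intervalIntegrable _ _), intervalIntegral.integral_div]
  simp only [mul_zero, zero_add, mul_one, smul_eq_mul] at e2
  rw [show ((i+1:ℕ):ℝ) * (M * t) = M * t + i * (M * t) by push_cast; ring, ← e2]
  simp only [intervalIntegral.integral_const, sub_zero, smul_eq_mul, one_mul,
    intervalIntegral.integral_div]
  generalize ∑ j ∈ range M, W D ε (j+1) (((i:ℝ) * M + j + 1) * t, t) = Z
  field_simp
  ring

noncomputable def stepf (a : ℕ → ℝ) (τ : ℝ) (n : ℕ) (s : ℝ) : ℝ :=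
  ∑ i ∈ range n, (Set.Ico (i * τ) ((i + 1) * τ)).indicator (fun _ => a i) s

lemma stepf_int (a : ℕ → ℝ) (τ : ℝ) (n : ℕ) : Integrable (stepf a τ n) :=
  integrable_finsetSum _ fun i _ => (integrable_indicator_iff measurableSet_Ico).2
    (integrableOn_const (by simp))

lemma stepf_integral (a : ℕ → ℝ) {τ : ℝ} (hτ : 0 < τ) (n : ℕ) :
    ∫ s, stepf a τ n s = τ * ∑ i ∈ range n, a i := by
  unfold stepf
  rw [integral_finsetSum _ fun i _ => (integrable_indicator_iff measurableSet_Ico).2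
    (integrableOn_const (by simp)), mul_sum]
  refine sum_congr rfl fun i _ => ?_
  rw [integral_indicator_const _ measurableSet_Ico, Real.volume_real_Ico_of_le (by nlinarith)]
  simp only [smul_eq_mul]; ring

lemma stepf_neg (a : ℕ → ℝ) {τ : ℝ} (hτ : 0 < τ) (n : ℕ) {s : ℝ} (hs : s < 0) :
    stepf a τ n s = 0 :=
  sum_eq_zero fun i _ => Set.indicator_of_notMem (fun h => by
    have := h.1; have : 0 ≤ (i:ℝ) * τ := by positivity
    linarith) _

lemma stepf_eq (a : ℕ → ℝ) {τ : ℝ} (hτ : 0 < τ) (n : ℕ) {s : ℝ} (hs : 0 ≤ s) :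
    stepf a τ n s = if ⌊s / τ⌋₊ < n then a ⌊s / τ⌋₊ else 0 := by
  have key : ∀ i : ℕ, (Set.Ico (i * τ) ((i + 1) * τ)).indicator (fun _ => a i) s =
      if i = ⌊s / τ⌋₊ then a i else 0 := by
    intro i
    split_ifs with h
    · rw [Set.indicator_of_mem (by rw [h]; exact fl_bd hs hτ)]
    · refine Set.indicator_of_notMem (fun hm => h ?_) _
      symm
      rw [Nat.floor_eq_iff (by positivity), le_div_iff₀ hτ, div_lt_iff₀ hτ]
      exact hm
  simp only [stepf, key, sum_ite_eq', mem_range]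

lemma blocks_tend (hB : 2 ≤ B) (hD : ∀ m, D m < B) (hε : |(ε:ℝ)| = 1) (hM : 0 < M) :
    ∃ c : ℝ, ∀ {ι : Type} (l : Filter ι) [l.IsCountablyGenerated] (t : ι → ℝ) (n : ι → ℕ),
      Tendsto t l (𝓝[>] 0) → Tendsto (fun x => n x * t x) l atTop →
      Tendsto (fun x => Real.exp (-(n x * (M * t x))) / t x) l (𝓝 0) →
      Tendsto (fun x => ∑ i ∈ range (n x), ∑ j ∈ range M,
        W D ε (j+1) (((i:ℝ) * M + j + 1) * t x, t x) - AA D ε M / t x) l (𝓝 c) := by
  refine ⟨(∫ s, if 0 < s then GG D ε M s else 0) / M, fun l _ t n ht hn he => ?_⟩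
  obtain ⟨C, t0, hC, ht0, h⟩ := qq_bd (M := M) hB hD hε
  have hM' : (0:ℝ) < M := by exact_mod_cast hM
  have hM1 : (1:ℝ) ≤ M := by exact_mod_cast hM
  have hev : ∀ᶠ x in l, t x ∈ Set.Ioc 0 t0 := ht (Ioc_mem_nhdsGT ht0)
  have hE : ∀ t, 0 < t → t ≤ t0 → ∀ i : ℕ, |Et D ε M t i| ≤ C * Real.exp (-(i * (M * t))) := by
    intro t h0 h1 i
    have := intervalIntegral.norm_integral_le_of_norm_le_const (a := 0) (b := 1)
      (f := qq D ε M t i) (C := C * Real.exp (-(i * (M * t)))) (fun u hu => by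
        rw [Set.uIoc_of_le zero_le_one] at hu
        exact h t h0 h1 i u hu.1.le hu.2)
    simpa [Et] using this
  have main : Tendsto (fun x => ∫ s, stepf (Et D ε M (t x)) (M * t x) (n x) s) l
      (𝓝 (∫ s, if 0 < s then GG D ε M s else 0)) := by
    refine tendsto_integral_filter_of_dominated_convergence
      ((Set.Ici (0:ℝ)).indicator fun s => C * Real.exp (M * t0) * Real.exp (-s))
      (Eventually.of_forall fun x => (stepf_int _ _ _).aestronglyMeasurable) ?_ ?_ ?_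
    · filter_upwards [hev] with x hx
      refine Eventually.of_forall fun s => ?_
      have hτ := mul_pos hM' hx.1
      rcases lt_or_ge s 0 with hs | hs
      · rw [stepf_neg _ hτ _ hs, Set.indicator_of_notMem (by simpa using hs)]; simp
      · rw [stepf_eq _ hτ _ hs, Set.indicator_of_mem (by simpa using hs)]
        split_ifs
        · refine (hE _ hx.1 hx.2 _).trans ?_
          rw [mul_assoc, ← Real.exp_add]
          refine mul_le_mul_of_nonneg_left (Real.exp_le_exp.2 ?_) hC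
          have := (fl_bd hs hτ).2
          have := mul_le_mul_of_nonneg_left hx.2 hM'.le
          linarith
        · simp; positivity
    · rw [integrable_indicator_iff measurableSet_Ici, integrableOn_Ici_iff_integrableOn_Ioi]
      exact (integrableOn_exp_neg_Ioi 0).const_mul _
    · have : ∀ᵐ s : ℝ, s ≠ 0 := by simp [ae_iff]
      filter_upwards [this] with s hs
      rcases lt_or_gt_of_ne hs with hs | hs
      · rw [if_neg (by linarith)]
        refine tendsto_const_nhds.congr' ?_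
        filter_upwards [hev] with x hx
        rw [stepf_neg _ (mul_pos hM' hx.1) _ hs]
      · rw [if_pos hs]
        refine ((Et_tend hB hD hε hM hs).comp ht).congr' ?_
        filter_upwards [hev, hn.eventually_gt_atTop s] with x hx hx2
        have hτ := mul_pos hM' hx.1
        rw [stepf_eq _ hτ _ hs.le, if_pos]
        · rfl
        · rw [Nat.floor_lt (by positivity), div_lt_iff₀ hτ]
          have : (0:ℝ) ≤ n x * t x := by have := hx.1; positivity
          nlinarith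
  have tail : Tendsto (fun x => (∫ s in Set.Ioi ((n x : ℝ) * (M * t x)), HH D ε M s) / (M * t x)) l
      (𝓝 0) := by
    refine squeeze_zero_norm' ?_ he
    filter_upwards [hev] with x hx
    have h0 := hx.1
    rw [Real.norm_eq_abs, abs_div, abs_of_pos (mul_pos hM' h0), div_le_iff₀ (mul_pos hM' h0)]
    refine (HH_tail hB hD (by positivity)).trans (le_of_eq ?_)
    field_simp
  have := (main.div_const M).sub tail
  rw [sub_zero] at this
  refine this.congr' ?_
  filter_upwards [hev] with x hx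
  have h0 := hx.1
  have hτ := mul_pos hM' h0
  rw [stepf_integral _ hτ, sum_congr rfl fun i _ => block_id hB hD hM h0 i, sum_add_distrib,
    ← mul_sum, ← sum_div, intervalIntegral.sum_integral_adjacent_intervals
      (a := fun i : ℕ => (i:ℝ) * (M * t x))
      (fun k _ => (HH_cont hB hD).intervalIntegrable _ _)]
  have e := intervalIntegral.integral_interval_add_Ioi (HH_int (ε := ε) (M := M) hB hD le_rfl)
    (HH_int (ε := ε) (M := M) hB hD (show (0:ℝ) ≤ n x * (M * t x) by positivity))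
  simp only [Nat.cast_zero, zero_mul, AA]
  rw [← e]
  field_simp
  ring

end Pool.Agent.H59.PD
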