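import Pool.Agent.H59.PD4

set_option autoImplicit false
open Finset Filter Topology Asymptotics MeasureTheory

namespace Pool.Agent.H59.PD

noncomputable def yy (u : ℤ → ℝ) (t : ℝ) (m : ℤ) : ℝ := u m * Real.exp (-|m * t|)

noncomputable def Lg (D : ℤ → ℕ) (ε : ℤ) (y : ℤ → ℝ) (k : ℤ) : ℝ :=
  LL (fun i => y (k + ε * i)) (fun i => D (k + ε * i))

variable {B : ℕ} {D : ℤ → ℕ} {ε : ℤ} {M : ℕ}

lemma yy01 {u : ℤ → ℝ} (hu : ∀ m, 0 ≤ u m ∧ u m ≤ 1) (t : ℝ) (g : ℕ → ℤ) :
    In01 fun i => yy u t (g i) := fun i => by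
  have h1 := hu (g i)
  have h2 : Real.exp (-|g i * t|) ≤ 1 := Real.exp_le_one_iff.2 (neg_nonpos.2 (abs_nonneg _))
  have h3 := Real.exp_pos (-|g i * t|)
  simp only [yy]
  exact ⟨by nlinarith, by nlinarith⟩

lemma Lg_W (hper : ∀ m, D (m + M) = D m) (t : ℝ) (i j : ℕ) :
    Lg D ε (yy (fun _ => 1) t) (((i * M + j : ℕ) : ℤ) + 1) = W D ε (j+1) (((i:ℝ) * M + j + 1) * t, t) := by
  unfold Lg W
  congr 1
  · funext l; simp only [yy, one_mul]; congr 3; push_cast; ring
  · funext l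
    have := (show Function.Periodic D (M:ℤ) from hper).nat_mul i (j + 1 + ε * l)
    rw [← this]; congr 1; push_cast; ring

lemma Lg_t (hB : 2 ≤ B) (hD : ∀ m, D m < B) (hε : |(ε:ℝ)| = 1) {u : ℤ → ℝ}
    (hu : ∀ m, 0 ≤ u m ∧ u m ≤ 1) (k : ℤ) :
    Tendsto (fun t => Lg D ε (yy u t) k) (𝓝 0) (𝓝 (Lg D ε (yy u 0) k)) := by
  have ht0 := th_pos (show 0 < B by omega)
  have ht1 := th_lt (show 0 < B by omega)
  have hsum := sum_poly (θ := th B) (by linarith) ht1 |(k:ℝ)|
  rw [tendsto_iff_norm_sub_tendsto_zero]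
  refine squeeze_zero (g := fun t => 4 * ((∑' i : ℕ, th B ^ i * (|(k:ℝ)| + i)) * |t|))
    (fun _ => norm_nonneg _) (fun t => ?_) ?_
  · refine LL_lip hB (fun n => hD _) (yy01 hu t _) (yy01 hu 0 _) fun n => ?_
    rw [← tsum_mul_right]
    refine le_trans (sum_le_sum fun i _ => ?_) (Summable.sum_le_tsum _ (fun i _ => by positivity)
      (Summable.mul_right _ hsum))
    rw [mul_assoc (th B ^ i)]
    refine mul_le_mul_of_nonneg_left ?_ (by positivity)
    simp only [yy]
    rw [← mul_sub, abs_mul, abs_of_nonneg (hu _).1]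
    refine (mul_le_of_le_one_left (abs_nonneg _) (hu _).2).trans ?_
    refine (exp_lip (abs_nonneg _) (abs_nonneg _)).trans ?_
    simp only [neg_zero, Real.exp_zero, one_mul, mul_zero, abs_zero, sub_zero, abs_abs, abs_mul]
    refine mul_le_mul_of_nonneg_right ?_ (abs_nonneg _)
    push_cast
    refine (abs_add_le _ _).trans ?_
    rw [abs_mul, hε, Nat.abs_cast, one_mul]
  · have : Continuous fun t : ℝ => 4 * ((∑' i : ℕ, th B ^ i * (|(k:ℝ)| + i)) * |t|) := by fun_prop
    simpa using this.tendsto 0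

lemma beta_bd (hB : 2 ≤ B) (hD : ∀ m, D m < B) (hε : |(ε:ℝ)| = 1) {u : ℤ → ℝ}
    (hu : ∀ m, 0 ≤ u m ∧ u m ≤ 1) (c0 : ℕ) (hu1 : ∀ m : ℤ, c0 < m → u m = 1) (t : ℝ) (k : ℕ) :
    |Lg D ε (yy u t) (k+1) - Lg D ε (yy (fun _ => 1) t) (k+1)| ≤
      4 * (th B ^ (k - c0) / (1 - th B)) := by
  have ht0 := th_pos (show 0 < B by omega)
  have ht1 := th_lt (show 0 < B by omega)
  have hε' : |ε| = 1 := by exact_mod_cast hε
  refine LL_lip hB (fun n => hD _) (yy01 hu t _) (yy01 (by simp) t _) fun n => ?_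
  refine le_trans ?_ (geom_sum_Ico_le_of_lt_one (m := k - c0) (n := n) (by linarith) ht1)
  rw [← sum_subset (s₁ := Ico (k - c0) n)]
  · refine sum_le_sum fun i _ => mul_le_of_le_one_right (by positivity) ?_
    have a := yy01 hu t (fun i => k + 1 + ε * i) i
    have b := yy01 (u := fun _ => 1) (by simp) t (fun i => k + 1 + ε * i) i
    rw [abs_le]; constructor <;> linarith [a.1, a.2, b.1, b.2]
  · intro i hi; simp only [mem_Ico, mem_range] at hi ⊢; exact hi.2
  · intro i hi hi2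
    simp only [mem_Ico, mem_range] at hi hi2
    have : (c0:ℤ) < k + 1 + ε * i := by
      have : -(i:ℤ) ≤ ε * i := by
        have := neg_abs_le (ε * i); rwa [abs_mul, hε', one_mul, Nat.abs_cast] at this
      omega
    simp [yy, hu1 _ this]

lemma trunc_bd (hB : 2 ≤ B) (hD : ∀ m, D m < B) {u : ℤ → ℝ}
    (hu : ∀ m, 0 ≤ u m ∧ u m ≤ 1) {t : ℝ} (ht : 0 ≤ t) (K : ℕ) (k : ℤ) :
    |Lg D ε (yy (fun m => if m ≤ K then u m else 0) t) k - Lg D ε (yy u t) k| ≤
      4 * ((1 - th B)⁻¹ * Real.exp (-(K * t))) := by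
  have ht0 := th_pos (show 0 < B by omega)
  have ht1 := th_lt (show 0 < B by omega)
  refine LL_lip hB (fun n => hD _) (yy01 (fun m => by split_ifs <;> simp [hu m]) t _)
    (yy01 hu t _) fun n => ?_
  rw [← tsum_geometric_of_lt_one (by linarith) ht1, ← tsum_mul_right]
  refine le_trans (sum_le_sum fun i _ => ?_) (Summable.sum_le_tsum _ (fun i _ => by positivity)
    (Summable.mul_right _ (summable_geometric_of_lt_one (by linarith) ht1)))
  refine mul_le_mul_of_nonneg_left ?_ (by positivity)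
  simp only [yy]
  split_ifs with h
  · simp; positivity
  · rw [zero_mul, zero_sub, abs_neg, abs_of_nonneg (mul_nonneg (hu _).1 (Real.exp_pos _).le)]
    refine (mul_le_of_le_one_left (Real.exp_pos _).le (hu _).2).trans (Real.exp_le_exp.2 ?_)
    have h : (K:ℝ) ≤ ((k + ε * i : ℤ) : ℝ) := by exact_mod_cast (not_le.1 h).le
    have := le_abs_self (((k + ε * i : ℤ) : ℝ) * t)
    nlinarith

lemma sum_blocks (f : ℕ → ℝ) (n M : ℕ) :
    ∑ k ∈ range (n * M), f k = ∑ i ∈ range n, ∑ j ∈ range M, f (i * M + j) := by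
  induction n with
  | zero => simp
  | succ n ih => rw [add_mul, one_mul, sum_range_add, ih, sum_range_succ]

theorem real_asym (hB : 2 ≤ B) (hD : ∀ m, D m < B) (hε : |(ε:ℝ)| = 1) (hM : 0 < M)
    (hper : ∀ m, D (m + M) = D m) {u : ℤ → ℝ}
    (hu : ∀ m, 0 ≤ u m ∧ u m ≤ 1) (c0 : ℕ) (hu1 : ∀ m : ℤ, c0 < m → u m = 1) :
    ∃ c : ℝ, ∀ c1 : ℝ, 0 < c1 → ∀ {ι : Type} (l : Filter ι) [l.IsCountablyGenerated] (t : ι → ℝ)
      (n : ι → ℕ), Tendsto t l (𝓝[>] 0) → (∀ᶠ x in l, c1 ≤ n x * t x ^ 2) →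
      Tendsto (fun x => ∑ k ∈ range (n x * M),
        Lg D ε (yy (fun m => if m ≤ (n x * M : ℕ) then u m else 0) (t x)) (k+1) - AA D ε M / t x)
        l (𝓝 c) := by
  obtain ⟨c, hc⟩ := blocks_tend hB hD hε hM
  have ht0 := th_pos (show 0 < B by omega)
  have ht1 := th_lt (show 0 < B by omega)
  have hM' : (0:ℝ) < M := by exact_mod_cast hM
  have hM1 : (1:ℝ) ≤ M := by exact_mod_cast hM
  refine ⟨0 + (∑' k : ℕ, (Lg D ε (yy u 0) (k+1) - Lg D ε (yy (fun _ => 1) 0) (k+1))) + c,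
    fun c1 hc1 ι l _ t n ht hn => ?_⟩
  have hpos : ∀ᶠ x in l, 0 < t x := ht self_mem_nhdsWithin
  have ht' : Tendsto t l (𝓝 0) := ht.mono_right nhdsWithin_le_nhds
  have hinv : Tendsto (fun x => c1 * (t x)⁻¹) l atTop :=
    (tendsto_inv_nhdsGT_zero.comp ht).const_mul_atTop hc1
  have hy : Tendsto (fun x => n x * t x) l atTop := by
    refine tendsto_atTop_mono' _ ?_ hinv
    filter_upwards [hpos, hn] with x h1 h2
    rw [← div_eq_mul_inv, div_le_iff₀ h1]; nlinarith
  have hy1 := (Real.tendsto_pow_mul_exp_neg_atTop_nhds_zero 1).comp hy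
  have hy2 := (Real.tendsto_pow_mul_exp_neg_atTop_nhds_zero 2).comp hy
  have hexp : ∀ᶠ x in l, Real.exp (-(n x * (M * t x))) ≤ Real.exp (-(n x * t x)) := by
    filter_upwards [hpos] with x h1
    refine Real.exp_le_exp.2 ?_
    have : (0:ℝ) ≤ n x * t x := by positivity
    nlinarith
  have h3 := hc l t n ht hy (by
    refine squeeze_zero' ?_ ?_ (by simpa using hy1.div_const c1)
    · filter_upwards [hpos] with x h1; positivity
    · filter_upwards [hpos, hn, hexp] with x h1 h2 h3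
      rw [div_le_div_iff₀ h1 hc1]
      have := Real.exp_pos (-(n x * t x))
      nlinarith)
  have hn' : Tendsto (fun x => n x * M) l atTop := by
    have : Tendsto (fun x => (n x : ℝ)) l atTop := by
      refine tendsto_atTop_mono' _ ?_ hy
      filter_upwards [ht (Ioc_mem_nhdsGT one_pos)] with x hx
      exact mul_le_of_le_one_right (by positivity) hx.2
    exact tendsto_atTop_mono (fun x => Nat.le_mul_of_pos_right _ hM)
      (tendsto_natCast_atTop_iff.1 this)
  have h2 : Tendsto (fun x => ∑ k ∈ range (n x * M),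
      (Lg D ε (yy u (t x)) (k+1) - Lg D ε (yy (fun _ => 1) (t x)) (k+1))) l
      (𝓝 (∑' k : ℕ, (Lg D ε (yy u 0) (k+1) - Lg D ε (yy (fun _ => 1) 0) (k+1)))) := by
    have := tendsto_tsum_of_dominated_convergence (𝓕 := l)
      (f := fun x (k : ℕ) => if k < n x * M then
        Lg D ε (yy u (t x)) (k+1) - Lg D ε (yy (fun _ => 1) (t x)) (k+1) else 0)
      (g := fun k : ℕ => Lg D ε (yy u 0) (k+1) - Lg D ε (yy (fun _ => 1) 0) (k+1))
      (bound := fun k => 4 * (th B ^ (k - c0) / (1 - th B)))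
      (by
        have hs : Summable fun k : ℕ => th B ^ (k - c0) := by
          rw [← summable_nat_add_iff c0]
          simpa using summable_geometric_of_lt_one (by linarith) ht1
        exact (hs.div_const (1 - th B)).mul_left 4)
      (fun k => by
        have a1 := (Lg_t hB hD hε hu ((k:ℤ)+1)).comp ht'
        have a2 := (Lg_t hB hD hε (u := fun _ => 1) (by simp) ((k:ℤ)+1)).comp ht'
        refine (a1.sub a2).congr' ?_
        filter_upwards [hn'.eventually_gt_atTop k] with x hx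
        simp [hx])
      (Eventually.of_forall fun x k => by
        split_ifs
        · exact beta_bd hB hD hε hu c0 hu1 _ k
        · have : 0 < 1 - th B := by linarith
          simp; positivity)
    refine this.congr fun x => ?_
    rw [tsum_eq_sum (s := range (n x * M)) (fun k hk => by simp at hk; simp [hk])]
    exact sum_congr rfl fun k hk => by simp [mem_range.1 hk]
  have h1 : Tendsto (fun x => ∑ k ∈ range (n x * M),
      (Lg D ε (yy (fun m => if m ≤ (n x * M : ℕ) then u m else 0) (t x)) (k+1) -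
        Lg D ε (yy u (t x)) (k+1))) l (𝓝 0) := by
    refine squeeze_zero_norm' ?_ (by simpa using hy2.const_mul (M * 4 * (1 - th B)⁻¹ / c1))
    filter_upwards [hpos, hn, hexp] with x h1 h2 h3
    refine (norm_sum_le _ _).trans ((sum_le_card_nsmul _ _ _
      fun k _ => trunc_bd hB hD hu h1.le (n x * M) _).trans ?_)
    have : 0 < 1 - th B := by linarith
    rw [card_range, nsmul_eq_mul]
    push_cast
    rw [mul_assoc (n x : ℝ) M (t x)]
    have e1 : (n x : ℝ) ≤ (n x * t x)^2 / c1 := by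
      rw [le_div_iff₀ hc1]
      have : (0:ℝ) ≤ n x := by positivity
      nlinarith
    calc _ = (M * 4 * (1 - th B)⁻¹) * (n x * Real.exp (-(n x * (M * t x)))) := by ring
      _ ≤ (M * 4 * (1 - th B)⁻¹) * ((n x * t x)^2 / c1 * Real.exp (-(n x * t x))) := by gcongr
      _ = _ := by ring
  refine ((h1.add h2).add h3).congr fun x => ?_
  have e : ∑ i ∈ range (n x), ∑ j ∈ range M, W D ε (j+1) (((i:ℝ) * M + j + 1) * t x, t x) =
      ∑ k ∈ range (n x * M), Lg D ε (yy (fun _ => 1) (t x)) (k+1) := by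
    rw [sum_blocks]
    exact sum_congr rfl fun i _ => sum_congr rfl fun j _ => (Lg_W hper _ i j).symm
  rw [e, sum_sub_distrib, sum_sub_distrib]
  ring

end Pool.Agent.H59.PD
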