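import Pool.Agent.H59.PD2

set_option autoImplicit false
open Finset Filter Topology

namespace Pool.Agent.H59.PD

lemma damp_step {B : ℕ} {X : ℕ → ℂ} {x : ℕ → ℝ} {d : ℕ → ℕ} (hd : ∀ n, d n < B) (hx : In01 x)
    (hX : ∀ n, ‖X n‖ = x n) {γ : ℝ} (hγ : 0 ≤ γ) {n : ℕ}
    (hQ : ∀ i, n - 2 * B ≤ i → ‖v X d i‖ ≤ γ * v x d i) :
    ∀ i, n + 1 ≤ i → ‖v X d i‖ ≤ γ * (1 - (1 + x n - ‖1 + X n‖) / 4 ^ B) * v x d i := by
  have h0 : ∀ i, 0 ≤ x i := fun i => (hx i).1
  have h1 : ∀ i, x i ≤ 1 := fun i => (hx i).2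
  have tel : ∀ m, n - B ≤ m → ∀ k, ‖v X d (m + k) - v X d m‖ ≤ γ * (v x d (m + k) - v x d m) := by
    intro m hm k
    induction k with
    | zero => simp
    | succ k ih =>
      rw [← add_assoc, v_succ, v_succ, add_sub_right_comm]
      refine (norm_add_le _ _).trans ?_
      rw [norm_mul, hX]
      have := hQ (m + k - d (m + k)) (by have := hd (m+k); omega)
      have := mul_le_mul_of_nonneg_left this (h0 (m+k))
      nlinarith
  set m := n - d n with hm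
  set δ := 1 + x n - ‖1 + X n‖ with hδ
  have hδ0 : 0 ≤ δ := by
    have := norm_add_le 1 (X n); rw [hX, norm_one] at this; linarith
  have hδ2 : δ ≤ 2 := by have := norm_nonneg (1 + X n); have := h1 n; linarith
  have hB : 0 < B := by have := hd 0; omega
  have h4 : (4:ℝ) ≤ 4 ^ B := by
    calc (4:ℝ) = 4 ^ 1 := by norm_num
      _ ≤ 4 ^ B := pow_le_pow_right₀ (by norm_num) hB
  have s2 : ‖v X d (n+1)‖ ≤ γ * v x d (n+1) - γ * v x d m * δ := by
    have t1 := tel m (by have := hd n; omega) (n - m)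
    rw [show m + (n - m) = n by omega] at t1
    have t2 := hQ m (by have := hd n; omega)
    rw [v_succ, v_succ, ← hm, show v X d n + X n * v X d m = (v X d n - v X d m) + (1 + X n) * v X d m by ring]
    refine (norm_add_le _ _).trans ?_
    rw [norm_mul]
    have := mul_le_mul_of_nonneg_left t2 (norm_nonneg (1 + X n))
    rw [hδ]; nlinarith
  intro i
  induction i using Nat.strong_induction_on with
  | _ i ih =>
  intro hi
  by_cases hi2 : i ≤ n + B
  · have t1 := tel (n+1) (by omega) (i - (n+1))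
    rw [show n + 1 + (i - (n+1)) = i by omega] at t1
    have t2 := norm_add_le (v X d i - v X d (n+1)) (v X d (n+1))
    rw [sub_add_cancel] at t2
    have t3 : v x d i ≤ 4 ^ B * v x d m := by
      calc v x d i ≤ v x d (m + 2 * B) := v_mono h0 (by have := hd n; omega)
        _ ≤ 2 ^ (2 * B) * v x d m := v_le_pow h0 h1 _ _
        _ = _ := by rw [pow_mul]; norm_num
    have t4 : γ * (δ / 4 ^ B) * v x d i ≤ γ * (δ / 4 ^ B) * (4 ^ B * v x d m) :=
      mul_le_mul_of_nonneg_left t3 (by positivity)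
    have t5 : γ * (δ / 4 ^ B) * (4 ^ B * v x d m) = γ * v x d m * δ := by field_simp
    nlinarith
  · obtain ⟨k, rfl⟩ : ∃ k, i = k + 1 := ⟨i - 1, by omega⟩
    rw [v_succ, v_succ]
    refine (norm_add_le _ _).trans ?_
    rw [norm_mul, hX]
    have a1 := ih k (by omega) (by omega)
    have a2 := ih (k - d k) (by omega) (by have := hd k; omega)
    have := mul_le_mul_of_nonneg_left a2 (h0 k)
    nlinarith

lemma damp_iter {B : ℕ} {X : ℕ → ℂ} {x : ℕ → ℝ} {d : ℕ → ℕ} (hd : ∀ n, d n < B) (hx : In01 x)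
    (hX : ∀ n, ‖X n‖ = x n) (n0 J : ℕ) : ∀ i, n0 + J * (2 * B + 1) - 2 * B ≤ i →
    ‖v X d i‖ ≤ Real.exp (-(∑ j ∈ range J,
      (1 + x (n0 + j * (2 * B + 1)) - ‖1 + X (n0 + j * (2 * B + 1))‖)) / 4 ^ B) * v x d i := by
  induction J with
  | zero =>
    intro i _
    simp only [range_zero, sum_empty, neg_zero, zero_div, Real.exp_zero, one_mul]
    rw [v_eq_sum, v_eq_sum]
    refine (norm_sum_le _ _).trans (le_of_eq (sum_congr rfl fun S _ => ?_))
    rw [norm_prod]; exact prod_congr rfl fun i _ => hX i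
  | succ J ih =>
    intro i hi
    refine (damp_step hd hx hX (Real.exp_pos _).le ih i (by rw [add_mul] at hi; omega)).trans ?_
    refine mul_le_mul_of_nonneg_right ?_ (v_pos (fun i => (hx i).1) _).le
    rw [sum_range_succ, neg_add, add_div, Real.exp_add]
    refine mul_le_mul_of_nonneg_left ?_ (Real.exp_pos _).le
    rw [neg_div]
    linarith [Real.add_one_le_exp (-((1 + x (n0 + J * (2 * B + 1)) - ‖1 + X (n0 + J * (2 * B + 1))‖) / 4 ^ B))]

lemma delta_ge {x φ : ℝ} (h0 : 0 ≤ x) (h1 : x ≤ 1) :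
    x * (1 - Real.cos φ) / 2 ≤ 1 + x - ‖1 + (x:ℂ) * Complex.exp (φ * Complex.I)‖ := by
  have hc1 := Real.cos_le_one φ
  have hc2 := Real.neg_one_le_cos φ
  have e : ‖1 + (x:ℂ) * Complex.exp (φ * Complex.I)‖ ^ 2 = 1 + 2 * x * Real.cos φ + x ^ 2 := by
    rw [Complex.sq_norm, Complex.normSq_apply]
    simp [Complex.exp_ofReal_mul_I_re, Complex.exp_ofReal_mul_I_im]
    nlinarith [Real.sin_sq_add_cos_sq φ]
  have k0 : 0 ≤ x * (1 - Real.cos φ) / 2 := by nlinarith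
  have k1 : x * (1 - Real.cos φ) / 2 ≤ 1 := by nlinarith
  have : ‖1 + (x:ℂ) * Complex.exp (φ * Complex.I)‖ ≤ 1 + x - x * (1 - Real.cos φ) / 2 := by
    rw [← sq_le_sq₀ (norm_nonneg _) (by linarith), e]
    nlinarith
  linarith

lemma cos_tri (a b : ℝ) : 1 - Real.cos (a - b) ≤ 2 * (1 - Real.cos a) + 2 * (1 - Real.cos b) := by
  rw [Real.cos_sub]
  nlinarith [Real.sin_sq_add_cos_sq a, Real.sin_sq_add_cos_sq b,
    sq_nonneg (Real.cos a + Real.cos b - 2), sq_nonneg (Real.sin a + Real.sin b)]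

lemma decay {B : ℕ} {x φ : ℕ → ℝ} {d : ℕ → ℕ} (hd : ∀ n, d n < B) (hx : In01 x) (n0 J h K : ℕ)
    (hK : n0 + h + J * (2 * B + 1) ≤ K) {ξ c : ℝ} (hξ0 : 0 ≤ ξ)
    (hξ : ∀ n, n0 ≤ n → n < n0 + h + J * (2 * B + 1) → ξ ≤ x n)
    (hc : ∀ n, Real.cos (φ (n + h) - φ n) = c) :
    ‖v (fun n => (x n : ℂ) * Complex.exp (φ n * Complex.I)) d K‖ ≤
      Real.exp (-(ξ * J * (1 - c) / 8) / 4 ^ B) * v x d K := by
  have hX : ∀ n, ‖(x n : ℂ) * Complex.exp (φ n * Complex.I)‖ = x n := fun n => by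
    rw [norm_mul, Complex.norm_exp_ofReal_mul_I, mul_one, Complex.norm_real, Real.norm_of_nonneg (hx n).1]
  have key : ∀ n1, n0 ≤ n1 → n1 ≤ n0 + h →
      J * (1 - c) / 4 ≤ ∑ j ∈ range J, (1 - Real.cos (φ (n1 + j * (2 * B + 1)))) →
      ‖v (fun n => (x n : ℂ) * Complex.exp (φ n * Complex.I)) d K‖ ≤
      Real.exp (-(ξ * J * (1 - c) / 8) / 4 ^ B) * v x d K := by
    intro n1 h1 h2 h3
    refine (damp_iter hd hx hX n1 J K (by omega)).trans ?_
    refine mul_le_mul_of_nonneg_right (Real.exp_le_exp.2 ?_) (v_pos (fun i => (hx i).1) _).le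
    refine div_le_div_of_nonneg_right (neg_le_neg ?_) (by positivity)
    calc ξ * J * (1 - c) / 8 = ξ / 2 * (J * (1 - c) / 4) := by ring
      _ ≤ ξ / 2 * ∑ j ∈ range J, (1 - Real.cos (φ (n1 + j * (2 * B + 1)))) :=
        mul_le_mul_of_nonneg_left h3 (by positivity)
      _ ≤ _ := by
        rw [mul_sum]
        refine sum_le_sum fun j hj => le_trans ?_ (delta_ge (hx _).1 (hx _).2)
        have hj := mem_range.1 hj
        have hj2 : (j + 1) * (2 * B + 1) ≤ J * (2 * B + 1) := Nat.mul_le_mul_right _ hj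
        have := hξ (n1 + j * (2 * B + 1)) (by omega) (by rw [add_mul] at hj2; omega)
        have := Real.cos_le_one (φ (n1 + j * (2 * B + 1)))
        nlinarith
  have hs : J * (1 - c) ≤ 2 * ∑ j ∈ range J, (1 - Real.cos (φ (n0 + h + j * (2 * B + 1)))) +
      2 * ∑ j ∈ range J, (1 - Real.cos (φ (n0 + j * (2 * B + 1)))) := by
    rw [mul_sum, mul_sum, ← sum_add_distrib]
    have := card_nsmul_le_sum (range J) (fun j => 2 * (1 - Real.cos (φ (n0 + h + j * (2 * B + 1)))) +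
      2 * (1 - Real.cos (φ (n0 + j * (2 * B + 1))))) (1 - c) fun j _ => by
      have := cos_tri (φ (n0 + j * (2 * B + 1) + h)) (φ (n0 + j * (2 * B + 1)))
      rw [hc, show n0 + j * (2 * B + 1) + h = n0 + h + j * (2 * B + 1) by ring] at this
      exact this
    rwa [card_range, nsmul_eq_mul] at this
  by_cases h1 : J * (1 - c) / 4 ≤ ∑ j ∈ range J, (1 - Real.cos (φ (n0 + j * (2 * B + 1))))
  · exact key n0 le_rfl (by omega) h1
  · exact key (n0 + h) (by omega) le_rfl (by linarith)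

lemma choose_h {θ t : ℝ} (hθ : |θ| ≤ Real.pi) (ht : 0 < t) (ht1 : t ≤ 1 / 8) :
    ∃ h : ℕ, (h:ℝ) ≤ 1 / (4 * t) ∧ min (θ ^ 2 / t ^ 2) 1 / 512 ≤ 1 - Real.cos (θ * h) := by
  rcases eq_or_ne θ 0 with rfl | h0
  · exact ⟨0, by simp; positivity, by simp⟩
  have ha : 0 < |θ| := abs_pos.2 h0
  have hp := Real.pi_gt_three
  have hp4 := Real.pi_lt_four
  have fl : ∀ y : ℝ, 1 ≤ y → y / 2 ≤ ⌊y⌋₊ := fun y hy => by
    have h1 := Nat.lt_floor_add_one y
    have h2 : (1:ℝ) ≤ ⌊y⌋₊ := by exact_mod_cast Nat.le_floor (by simpa using hy)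
    linarith
  have a1 := Nat.floor_le (show 0 ≤ Real.pi / |θ| by positivity)
  have a2 := fl (Real.pi / |θ|) (by rwa [one_le_div ha])
  have b1 := Nat.floor_le (show 0 ≤ 1 / (4 * t) by positivity)
  have b2 := fl (1 / (4 * t)) (by rw [one_le_div (by positivity)]; linarith)
  have main : ∀ h : ℕ, (h:ℝ) ≤ Real.pi / |θ| → (θ * h) ^ 2 / 8 ≤ 1 - Real.cos (θ * h) := by
    intro h hh
    have : |θ * h| ≤ Real.pi := by
      rw [abs_mul, Nat.abs_cast]; rw [le_div_iff₀ ha] at hh; linarith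
    have h2 := Real.cos_le_one_sub_mul_cos_sq this
    have h3 : 1 / 8 ≤ 2 / Real.pi ^ 2 := by rw [div_le_div_iff₀ (by norm_num) (by positivity)]; nlinarith
    nlinarith [sq_nonneg (θ * h)]
  rcases le_total ⌊Real.pi / |θ|⌋₊ ⌊1 / (4 * t)⌋₊ with h | h
  · refine ⟨⌊Real.pi / |θ|⌋₊, le_trans (by exact_mod_cast h) b1, le_trans ?_ (main _ a1)⟩
    have c1 : Real.pi / 2 ≤ |θ| * ⌊Real.pi / |θ|⌋₊ := by
      have := mul_le_mul_of_nonneg_left a2 ha.le
      rwa [show |θ| * (Real.pi / |θ| / 2) = Real.pi / 2 by field_simp] at this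
    have c2 : (θ * ⌊Real.pi / |θ|⌋₊) ^ 2 = (|θ| * ⌊Real.pi / |θ|⌋₊) ^ 2 := by
      rw [mul_pow, mul_pow, sq_abs]
    have := min_le_right (θ ^ 2 / t ^ 2) 1
    rw [c2]; nlinarith
  · refine ⟨⌊1 / (4 * t)⌋₊, b1, le_trans ?_ (main _ (le_trans (by exact_mod_cast h) a1))⟩
    have c1 : (1 / (4 * t) / 2) ^ 2 ≤ (⌊1 / (4 * t)⌋₊ : ℝ) ^ 2 := pow_le_pow_left₀ (by positivity) b2 2
    have c2 : (1 / (4 * t) / 2) ^ 2 = 1 / t ^ 2 / 64 := by field_simp; norm_num
    have := min_le_left (θ ^ 2 / t ^ 2) 1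
    rw [mul_pow]
    have c3 : θ ^ 2 * (1 / t ^ 2 / 64) ≤ θ ^ 2 * (⌊1 / (4 * t)⌋₊ : ℝ) ^ 2 :=
      mul_le_mul_of_nonneg_left (c2 ▸ c1) (sq_nonneg _)
    have c4 : θ ^ 2 * (1 / t ^ 2 / 64) = θ ^ 2 / t ^ 2 / 64 := by ring
    have : 0 ≤ θ ^ 2 / t ^ 2 := by positivity
    linarith

lemma three {f : ℂ → ℂ} (hf : Differentiable ℂ f) (w : ℝ) {a b : ℝ}
    (ha : ∀ u : ℝ, |u| ≤ 8 * |w| → ‖f u‖ ≤ a) (hb : ∀ z : ℂ, ‖z‖ ≤ 8 * |w| → ‖f z‖ ≤ b) :
    ‖f (w * Complex.I)‖ ≤ a ^ (1/2:ℝ) * b ^ (1/2:ℝ) := by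
  set g : ℂ → ℂ := fun z => (15 / 2 * w : ℝ) * Complex.I * z / ((2 - z) * (2 + z)) with hg
  have hn : ∀ z : ℂ, 0 ≤ z.re → z.re ≤ 1 → 1 ≤ ‖2 - z‖ ∧ ‖z‖ ≤ ‖2 + z‖ ∧ 0 < ‖2 + z‖ := by
    intro z h0 h1
    refine ⟨le_trans ?_ (Complex.re_le_norm _), ?_, lt_of_lt_of_le ?_ (Complex.re_le_norm _)⟩
    · simp; linarith
    · rw [← sq_le_sq₀ (norm_nonneg _) (norm_nonneg _), Complex.sq_norm, Complex.sq_norm,
        Complex.normSq_apply, Complex.normSq_apply]
      simp; nlinarith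
    · simp; linarith
  have hgb : ∀ z : ℂ, 0 ≤ z.re → z.re ≤ 1 → ‖g z‖ ≤ 8 * |w| := by
    intro z h0 h1
    obtain ⟨n1, n2, n3⟩ := hn z h0 h1
    simp only [hg, norm_div, norm_mul, Complex.norm_real, Complex.norm_I, Real.norm_eq_abs, abs_mul]
    rw [div_le_iff₀ (by positivity), abs_of_pos (by norm_num : (0:ℝ) < 15),
      abs_of_pos (by norm_num : (0:ℝ) < 2)]
    have := abs_nonneg w
    have := norm_nonneg z
    have : ‖z‖ ≤ ‖2 - z‖ * ‖2 + z‖ := by nlinarith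
    nlinarith
  have hdiff : DifferentiableOn ℂ (fun z => f (g z)) (Complex.HadamardThreeLines.verticalClosedStrip 0 1) := by
    refine hf.comp_differentiableOn (DifferentiableOn.div (by fun_prop) (by fun_prop) fun z hz => ?_)
    obtain ⟨n1, n2, n3⟩ := hn z hz.1 hz.2
    exact mul_ne_zero (norm_pos_iff.1 (by linarith)) (norm_pos_iff.1 n3)
  have key := Complex.HadamardThreeLines.norm_le_interp_of_mem_verticalClosedStrip₀₁'
    (fun z => f (g z)) (z := (1/2 : ℝ)) (a := a) (b := b) (by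
      simp [Complex.HadamardThreeLines.verticalClosedStrip]; norm_num)
    (by
      refine DifferentiableOn.diffContOnCl ?_
      rwa [Complex.HadamardThreeLines.verticalStrip, Complex.closure_preimage_re,
        closure_Ioo zero_ne_one])
    ⟨b, by rintro _ ⟨z, hz, rfl⟩; exact hb _ (hgb z hz.1 hz.2)⟩
    (fun z hz => by
      have hz : z.re = 0 := hz
      have e : g z = ((g z).re : ℝ) := by
        have : z = (z.im : ℝ) * Complex.I := by apply Complex.ext <;> simp [hz]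
        have e2 : g z = ((-(15 / 2 * w) * z.im / (4 + z.im ^ 2) : ℝ) : ℂ) := by
          rw [this]; simp only [hg]
          have : ((2:ℂ) - z.im * Complex.I) * (2 + z.im * Complex.I) = 4 + z.im ^ 2 := by
            ring_nf; simp
          rw [this]; simp
          congr 1
          linear_combination (15 / 2 * w * z.im) * Complex.I_mul_I
        rw [e2, Complex.ofReal_re]
      rw [e]
      exact ha _ ((Complex.abs_re_le_norm _).trans (hgb z hz.ge (by linarith))))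
    (fun z hz => by
      have hz : z.re = 1 := hz
      exact hb _ (hgb z (by linarith) hz.le))
  have e : g (1/2 : ℝ) = w * Complex.I := by
    simp only [hg]; push_cast; field_simp; ring
  simp only [e, Complex.ofReal_re] at key
  convert key using 3; norm_num

end Pool.Agent.H59.PD
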