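import Pool.Agent.H59.PD6

set_option autoImplicit false
open Finset Filter Topology MeasureTheory

namespace Pool.Agent.H59.PD

noncomputable def rr (n : ℕ) : ℝ := (n:ℝ) ^ (-(1/4:ℝ))

lemma rr_pos {n : ℕ} (hn : 0 < n) : 0 < rr n := Real.rpow_pos_of_pos (by exact_mod_cast hn) _

lemma rr_pow {n : ℕ} (k : ℕ) : rr n ^ k = (n:ℝ) ^ (-(k/4:ℝ)) := by
  rw [rr, ← Real.rpow_natCast, ← Real.rpow_mul (by positivity)]; congr 1; ring

lemma rr4 {n : ℕ} (hn : 0 < n) : (n:ℝ) = (rr n ^ 4)⁻¹ := by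
  rw [rr_pow]; norm_num; rw [Real.rpow_neg_one, inv_inv]

lemma rr2 {n : ℕ} (hn : 0 < n) : √(n:ℝ) = (rr n ^ 2)⁻¹ := by
  have := rr_pos hn
  rw [Real.sqrt_eq_iff_mul_self_eq (by positivity) (by positivity), rr4 hn]
  simp only [← rr4 hn]; rw [← mul_inv, ← pow_add, ← rr4 hn]

lemma rr_tend : Tendsto rr atTop (𝓝[>] 0) := by
  refine tendsto_nhdsWithin_iff.2 ⟨?_, ?_⟩
  · exact (tendsto_rpow_neg_atTop (by norm_num)).comp tendsto_natCast_atTop_atTop
  · filter_upwards [eventually_gt_atTop 0] with n hn using rr_pos hn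

lemma orthZ (m : ℤ) : ∫ θ in (-Real.pi)..Real.pi, Complex.exp (m * Complex.I * θ) =
    if m = 0 then 2 * (Real.pi : ℂ) else 0 := by
  split_ifs with h
  · subst h; simp; ring
  · rw [integral_exp_mul_complex (mul_ne_zero (by exact_mod_cast h) Complex.I_ne_zero)]
    have : Complex.exp (m * Complex.I * Real.pi) = Complex.exp (m * Complex.I * (-Real.pi : ℝ)) := by
      rw [show (m:ℂ) * Complex.I * Real.pi = m * Complex.I * (-Real.pi : ℝ) + m * (2 * Real.pi * Complex.I) by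
        push_cast; ring, Complex.exp_add, Complex.exp_int_mul_two_pi_mul_I, mul_one]
    rw [this]; simp

lemma alg {a κ r u : ℝ} (ha : a = 2 * κ ^ 2) (hκ : 0 < κ) (hr : 0 < r) (hq : 0 < a + u * κ * r) :
    -(a ^ 2 / (a * r ^ 2)) + u * (κ * r ^ 3) * (r ^ 4)⁻¹ = -(a ^ 2 / (r ^ 2 * (a + u * κ * r))) +
      (-(u ^ 2 / 2) * (u * κ * r / (a + u * κ * r)) + u ^ 2 / 2) := by
  have h0 : 0 < a := by rw [ha]; positivity
  obtain ⟨q, hq'⟩ : ∃ q, q = a + u * κ * r := ⟨_, rfl⟩
  rw [← hq'] at hq ⊢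
  field_simp
  rw [hq', ha]; ring

section
variable {α : Type} (𝒮 : ℕ → Finset α) (N : ℕ → α → ℕ)

noncomputable def Pr (n : ℕ) (t : ℝ) : ℝ := ∑ S ∈ 𝒮 n, Real.exp (-(N n S * t))
noncomputable def Pc (n : ℕ) (w : ℂ) : ℂ := ∑ S ∈ 𝒮 n, Complex.exp (-(N n S * w))

lemma Pc_real (n : ℕ) (t : ℝ) : Pc 𝒮 N n t = Pr 𝒮 N n t := by simp [Pc, Pr]

lemma Pc_norm (n : ℕ) (w : ℂ) : ‖Pc 𝒮 N n w‖ ≤ Pr 𝒮 N n w.re := by
  refine (norm_sum_le _ _).trans (le_of_eq (sum_congr rfl fun S _ => ?_))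
  rw [Complex.norm_exp]; simp

lemma Pc_inv (n : ℕ) (t : ℝ) :
    ∫ θ in (-Real.pi)..Real.pi, Pc 𝒮 N n (t + θ * Complex.I) * Complex.exp (θ * Complex.I * n) =
      (2 * Real.pi * ((𝒮 n).filter (fun S => N n S = n)).card * Real.exp (-(n * t)) : ℝ) := by
  have e : ∀ θ : ℝ, Pc 𝒮 N n (t + θ * Complex.I) * Complex.exp (θ * Complex.I * n) =
      ∑ S ∈ 𝒮 n, Complex.exp (-(N n S * t)) * Complex.exp (((n:ℤ) - N n S : ℤ) * Complex.I * θ) := by
    intro θ
    rw [Pc, sum_mul]
    refine sum_congr rfl fun S _ => ?_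
    rw [← Complex.exp_add, ← Complex.exp_add]; congr 1; push_cast; ring
  simp only [e]
  rw [intervalIntegral.integral_finsetSum (fun S _ => Continuous.intervalIntegrable (by fun_prop) _ _)]
  simp only [intervalIntegral.integral_const_mul, orthZ]
  rw [card_filter]
  push_cast
  rw [mul_sum, sum_mul]
  refine sum_congr rfl fun S _ => ?_
  by_cases h : N n S = n
  · simp [h]; ring
  · rw [if_neg h, if_neg (by omega)]; simp

theorem llt (A c : ℝ) (hA : 0 < A) (hpos : ∀ n t, 0 < Pr 𝒮 N n t)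
    (H1 : ∀ c1 : ℝ, 0 < c1 → ∀ (l : Filter (ℕ × ℝ)) [l.IsCountablyGenerated] (t : ℕ × ℝ → ℝ)
      (n : ℕ × ℝ → ℕ), Tendsto t l (𝓝[>] 0) → (∀ᶠ x in l, c1 ≤ n x * t x ^ 2) →
      Tendsto (fun x => Real.log (Pr 𝒮 N (n x) (t x)) - A / t x) l (𝓝 c))
    (H2 : ∃ c2 t0 : ℝ, 0 < c2 ∧ 0 < t0 ∧ ∀ (n : ℕ) (t θ : ℝ), 0 < t → t ≤ t0 → 1 ≤ n * t →
      |θ| ≤ Real.pi → ‖Pc 𝒮 N n (t + θ * Complex.I)‖ ≤
        Real.exp (-(c2 / t * min (θ ^ 2 / t ^ 2) 1)) * Pr 𝒮 N n t) :
    ∃ a β : ℝ, 0 < a ∧ Tendsto (fun n : ℕ => (((𝒮 n).filter (fun S => N n S = n)).card : ℝ) /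
      ((n : ℝ) ^ (-(3 / 4 : ℝ)) * Real.exp (β * √n))) atTop (𝓝 a) := by
  obtain ⟨a, ha, rfl⟩ : ∃ a, 0 < a ∧ A = a ^ 2 := ⟨√A, Real.sqrt_pos.2 hA, (Real.sq_sqrt hA.le).symm⟩
  obtain ⟨κ, hκ, rfl⟩ : ∃ κ, 0 < κ ∧ a = 2 * κ ^ 2 :=
    ⟨√(a / 2), Real.sqrt_pos.2 (by positivity), by rw [Real.sq_sqrt (by positivity)]; ring⟩
  set a := 2 * κ ^ 2 with hadef
  set t : ℕ → ℝ := fun n => a * rr n ^ 2 with ht
  set τ : ℕ → ℝ := fun n => κ * rr n ^ 3 with hτ
  set φr : ℕ → ℝ → ℝ := fun n u => Pr 𝒮 N n (t n + u * τ n) *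
    Real.exp (-(a ^ 2 / t n) + u * τ n * n) with hφr
  set φ : ℕ → ℂ → ℂ := fun n w => Pc 𝒮 N n (t n + w * τ n) *
    Complex.exp (-(a ^ 2 / t n : ℝ) + w * τ n * n) with hφ
  have hr0 : Tendsto rr atTop (𝓝 0) := rr_tend.mono_right nhdsWithin_le_nhds
  have φreal : ∀ n (u : ℝ), φ n u = φr n u := by
    intro n u
    simp only [hφ, hφr]
    rw [show (t n : ℂ) + u * τ n = ((t n + u * τ n : ℝ) : ℂ) by push_cast; ring, Pc_real]
    push_cast; ring_nf
  have φnorm : ∀ n (w : ℂ), ‖φ n w‖ ≤ φr n w.re := by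
    intro n w
    simp only [hφ, hφr]
    rw [norm_mul, Complex.norm_exp]
    refine mul_le_mul ((Pc_norm 𝒮 N n _).trans (le_of_eq (by simp))) (le_of_eq ?_)
      (Real.exp_pos _).le (hpos _ _).le
    congr 1
    simp only [Complex.add_re, Complex.neg_re, Complex.ofReal_re, Complex.mul_re, Complex.ofReal_im,
      Complex.natCast_re, Complex.natCast_im, mul_zero, sub_zero]
  have unif : ∀ R η : ℝ, 0 < η → ∀ᶠ n in atTop, ∀ u : ℝ, |u| ≤ R →
      |φr n u - Real.exp c * Real.exp (u ^ 2 / 2)| ≤ η := by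
    intro R η hη
    set l : Filter (ℕ × ℝ) := atTop ×ˢ 𝓟 {u | |u| ≤ R} with hl
    have hu : ∀ᶠ x in l, |x.2| ≤ R := tendsto_snd.eventually (eventually_principal.2 fun _ h => h)
    have hn : ∀ᶠ x in l, 0 < x.1 := tendsto_fst.eventually (eventually_gt_atTop 0)
    have hrl : Tendsto (fun x : ℕ × ℝ => rr x.1) l (𝓝 0) := hr0.comp tendsto_fst
    have hρ : Tendsto (fun x : ℕ × ℝ => x.2 * κ * rr x.1) l (𝓝 0) := by
      refine squeeze_zero_norm' ?_ (by simpa using hrl.const_mul (R * κ))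
      filter_upwards [hu, hn] with x h1 h2
      have := rr_pos h2
      rw [Real.norm_eq_abs, abs_mul, abs_mul, abs_of_pos hκ, abs_of_pos this]; gcongr
    have hρ2 : ∀ᶠ x in l, a / 2 < a + x.2 * κ * rr x.1 :=
      (hρ.const_add a).eventually (lt_mem_nhds (by linarith))
    have e1 : ∀ x : ℕ × ℝ, t x.1 + x.2 * τ x.1 = rr x.1 ^ 2 * (a + x.2 * κ * rr x.1) := by
      intro x; simp only [ht, hτ]; ring
    have h1 := H1 (a ^ 2 / 4) (by positivity) l (fun x => t x.1 + x.2 * τ x.1) (fun x => x.1)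
      (tendsto_nhdsWithin_iff.2 ⟨by
        simp only [e1]; simpa using (hrl.pow 2).mul (hρ.const_add a), by
        filter_upwards [hn, hρ2] with x h1 h2
        have := rr_pos h1
        have : 0 < a + x.2 * κ * rr x.1 := by linarith
        rw [e1, Set.mem_Ioi]; positivity⟩)
      (by
        filter_upwards [hn, hρ2] with x h1 h2
        have := rr_pos h1
        rw [e1]; nth_rewrite 1 [rr4 h1]
        rw [show (rr x.1 ^ 4)⁻¹ * (rr x.1 ^ 2 * (a + x.2 * κ * rr x.1)) ^ 2 =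
          (a + x.2 * κ * rr x.1) ^ 2 by field_simp]
        nlinarith)
    have h2 : Tendsto (fun x : ℕ × ℝ => -(x.2 ^ 2 / 2) * (x.2 * κ * rr x.1 / (a + x.2 * κ * rr x.1)))
        l (𝓝 0) := by
      have h3 := (hρ.div (hρ.const_add a) (by simpa using ha.ne')).norm.const_mul (R ^ 2 / 2)
      refine squeeze_zero_norm' ?_ (by simpa using h3)
      filter_upwards [hu] with x h1
      have : x.2 ^ 2 ≤ R ^ 2 := by rw [← sq_abs]; exact pow_le_pow_left₀ (abs_nonneg _) h1 2
      rw [norm_mul, norm_neg, Real.norm_of_nonneg (by positivity)]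
      simp only [norm_div, norm_mul, Real.norm_eq_abs]
      gcongr
    have h3 := ((Real.continuous_exp.tendsto _).comp (h1.add h2)).sub_const (Real.exp c)
    simp only [add_zero, sub_self] at h3
    have h4 := h3.abs.eventually (gt_mem_nhds
      (show |(0:ℝ)| < η / Real.exp (R ^ 2 / 2) by simp; positivity))
    have h5 : ∀ᶠ x in l, |φr x.1 x.2 - Real.exp c * Real.exp (x.2 ^ 2 / 2)| ≤ η := by
      filter_upwards [h4, hu, hn, hρ2] with x g1 g2 g3 g4
      have hr := rr_pos g3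
      have g5 : 0 < a + x.2 * κ * rr x.1 := by linarith
      have g6 : φr x.1 x.2 = Real.exp (Real.log (Pr 𝒮 N x.1 (t x.1 + x.2 * τ x.1)) -
          a ^ 2 / (t x.1 + x.2 * τ x.1) + -(x.2 ^ 2 / 2) * (x.2 * κ * rr x.1 / (a + x.2 * κ * rr x.1))) *
          Real.exp (x.2 ^ 2 / 2) := by
        simp only [hφr]
        rw [← Real.exp_add, sub_eq_add_neg, add_assoc, add_assoc, Real.exp_add (Real.log _),
          Real.exp_log (hpos _ _)]
        congr 2
        rw [e1]; simp only [ht, hτ]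
        rw [rr4 g3]
        exact alg hadef hκ hr g5
      rw [g6, ← sub_mul, abs_mul, abs_of_pos (Real.exp_pos (x.2 ^ 2 / 2))]
      rw [lt_div_iff₀ (Real.exp_pos _)] at g1
      have : x.2 ^ 2 ≤ R ^ 2 := by rw [← sq_abs]; exact pow_le_pow_left₀ (abs_nonneg _) g2 2
      refine le_trans ?_ g1.le
      exact mul_le_mul_of_nonneg_left (Real.exp_le_exp.2 (by linarith)) (abs_nonneg _)
    exact eventually_prod_principal_iff.1 h5
  have pw : ∀ w : ℝ, Tendsto (fun n => φ n (w * Complex.I)) atTop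
      (𝓝 ((Real.exp c * Real.exp (-(1/2) * w ^ 2) : ℝ) : ℂ)) := by
    intro w
    rw [Metric.tendsto_nhds]
    intro η hη
    set b := 1 + 2 * (Real.exp c * Real.exp ((8 * |w|) ^ 2 / 2)) with hb
    have hb0 : 0 < b := by positivity
    filter_upwards [unif (8 * |w|) 1 one_pos, unif (8 * |w|) (η ^ 2 / (4 * b)) (by positivity)]
      with n h1 h2
    have := three (f := fun z => φ n z - Real.exp c * Complex.exp (z ^ 2 / 2))
      (by simp only [hφ, Pc]; fun_prop) w (a := η ^ 2 / (4 * b)) (b := b) (fun u hu => by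
        rw [φreal]
        refine le_trans (le_of_eq ?_) (h2 u hu)
        rw [← Real.norm_eq_abs, ← Complex.norm_real]; push_cast; rfl) (fun z hz => by
        refine (norm_sub_le _ _).trans ?_
        have g1 := (Complex.abs_re_le_norm z).trans hz
        have g2 := (abs_le.1 (h1 _ g1)).2
        have g3 := φnorm n z
        have g4 : Real.exp (z.re ^ 2 / 2) ≤ Real.exp ((8 * |w|) ^ 2 / 2) := by
          have : z.re ^ 2 ≤ (8 * |w|) ^ 2 := by rw [← sq_abs]; exact pow_le_pow_left₀ (abs_nonneg _) g1 2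
          exact Real.exp_le_exp.2 (by linarith)
        have g5 : ‖Complex.exp (z ^ 2 / 2)‖ ≤ Real.exp ((8 * |w|) ^ 2 / 2) := by
          refine (Complex.norm_exp_le_exp_norm _).trans (Real.exp_le_exp.2 ?_)
          rw [norm_div, norm_pow]
          have := pow_le_pow_left₀ (norm_nonneg _) hz 2
          simp only [Complex.norm_ofNat]; linarith
        rw [norm_mul (Real.exp c : ℂ), Complex.norm_real, Real.norm_of_nonneg (Real.exp_pos _).le]
        have := Real.exp_pos c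
        nlinarith)
    rw [← Real.mul_rpow (by positivity) hb0.le, show η ^ 2 / (4 * b) * b = (η / 2) ^ 2 by
      field_simp; norm_num, ← Real.sqrt_eq_rpow, Real.sqrt_sq (by positivity)] at this
    rw [dist_eq_norm]
    refine lt_of_le_of_lt (le_trans (le_of_eq ?_) this) (by linarith)
    congr 2
    push_cast
    congr 2
    rw [mul_pow, Complex.I_sq]; ring
  obtain ⟨c2, t0, hc2, ht0, H2⟩ := H2
  have httend : Tendsto t atTop (𝓝 0) := by simpa using (hr0.pow 2).const_mul a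
  set Cb : ℝ := (Real.exp c + 1) * (max (1 + 2 * a ^ 2 / c2) ((1 + 32 * a ^ 2) * 6 / c2 ^ 3)) with hCb
  have dom : ∀ᶠ n in atTop, ∀ w : ℝ, |w * τ n| ≤ Real.pi → ‖φ n (w * Complex.I)‖ ≤ Cb * (1 + w ^ 2)⁻¹ := by
    filter_upwards [unif 0 1 one_pos, eventually_gt_atTop 0, httend.eventually (gt_mem_nhds ht0),
      httend.eventually (gt_mem_nhds one_pos),
      (hr0.pow 2).eventually (gt_mem_nhds (show 0 ^ 2 < a by simpa using ha))] with n h1 h2 h3 h4 h5
    intro w hw
    have hr := rr_pos h2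
    have htp : 0 < t n := by simp only [ht]; positivity
    have g1 := (abs_le.1 (h1 0 (by simp))).2
    simp only [hφr, zero_mul, add_zero, ne_eq, OfNat.ofNat_ne_zero, not_false_eq_true, zero_pow,
      zero_div, Real.exp_zero, mul_one] at g1
    have g2 := H2 n (t n) (w * τ n) htp h3.le (by
      rw [rr4 h2]; simp only [ht, ← rr4 h2]
      rw [rr4 h2, show (rr n ^ 4)⁻¹ * (a * rr n ^ 2) = a / rr n ^ 2 by field_simp, one_le_div (by positivity)]
      exact h5.le) hw
    have g3 : ‖φ n (w * Complex.I)‖ = ‖Pc 𝒮 N n (t n + (w * τ n : ℝ) * Complex.I)‖ *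
        Real.exp (-(a ^ 2 / t n)) := by
      simp only [hφ]
      rw [norm_mul, Complex.norm_exp]
      congr 2
      · congr 1; push_cast; ring
      · simp only [Complex.add_re, Complex.neg_re, Complex.ofReal_re, Complex.mul_re, Complex.ofReal_im,
          Complex.natCast_re, Complex.natCast_im, Complex.I_re, Complex.I_im, Complex.mul_im]
        ring
    have e1 : (w * τ n) ^ 2 / t n ^ 2 = w ^ 2 * t n / (2 * a ^ 2) := by
      simp only [ht, hτ]; field_simp; rw [hadef]; ring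
    have g4 : Real.exp (-(c2 / t n * min ((w * τ n) ^ 2 / t n ^ 2) 1)) * (1 + w ^ 2) ≤
        max (1 + 2 * a ^ 2 / c2) ((1 + 32 * a ^ 2) * 6 / c2 ^ 3) := by
      rcases le_total ((w * τ n) ^ 2 / t n ^ 2) 1 with h | h
      · refine le_trans ?_ (le_max_left _ _)
        rw [min_eq_left h, e1, show c2 / t n * (w ^ 2 * t n / (2 * a ^ 2)) = c2 / (2 * a ^ 2) * w ^ 2 by
          field_simp, Real.exp_neg, inv_mul_le_iff₀ (Real.exp_pos _)]
        have k1 := Real.add_one_le_exp (c2 / (2 * a ^ 2) * w ^ 2)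
        have k2 : (c2 / (2 * a ^ 2) * w ^ 2 + 1) * (1 + 2 * a ^ 2 / c2) =
            1 + w ^ 2 + (c2 / (2 * a ^ 2) * w ^ 2 + 2 * a ^ 2 / c2) := by field_simp; ring
        have k3 : 0 ≤ c2 / (2 * a ^ 2) * w ^ 2 + 2 * a ^ 2 / c2 := by positivity
        have k4 : 0 ≤ 1 + 2 * a ^ 2 / c2 := by positivity
        nlinarith
      · refine le_trans ?_ (le_max_right _ _)
        rw [min_eq_right h, mul_one, Real.exp_neg, inv_mul_le_iff₀ (Real.exp_pos _)]
        have k1 := Real.pow_div_factorial_le_exp (c2 / t n) (by positivity) 3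
        have k2 : (w * τ n) ^ 2 ≤ 16 := by
          rw [← sq_abs]; have := Real.pi_lt_four; have := abs_nonneg (w * τ n); nlinarith
        have k3 : (w * τ n) ^ 2 = w ^ 2 * t n ^ 3 / (2 * a ^ 2) := by
          simp only [ht, hτ]; field_simp; rw [hadef]; ring
        rw [k3, div_le_iff₀ (by positivity)] at k2
        have k4 : t n ^ 3 ≤ 1 := pow_le_one₀ htp.le h4.le
        have k5 : 1 + w ^ 2 ≤ (1 + 32 * a ^ 2) / t n ^ 3 := by
          rw [le_div_iff₀ (by positivity)]; nlinarith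
        refine k5.trans ?_
        calc (1 + 32 * a ^ 2) / t n ^ 3 = (c2 / t n) ^ 3 / (Nat.factorial 3) * ((1 + 32 * a ^ 2) * 6 / c2 ^ 3) := by
              simp only [Nat.factorial]; field_simp; norm_num
          _ ≤ _ := mul_le_mul_of_nonneg_right k1 (by positivity)
    rw [g3, ← div_eq_mul_inv, le_div_iff₀ (by positivity), hCb]
    have k0 := hpos n (t n)
    calc _ ≤ Real.exp (-(c2 / t n * min ((w * τ n) ^ 2 / t n ^ 2) 1)) * Pr 𝒮 N n (t n) *
          Real.exp (-(a ^ 2 / t n)) * (1 + w ^ 2) := by gcongr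
      _ = (Pr 𝒮 N n (t n) * Real.exp (-(a ^ 2 / t n))) *
          (Real.exp (-(c2 / t n * min ((w * τ n) ^ 2 / t n ^ 2) 1)) * (1 + w ^ 2)) := by ring
      _ ≤ _ := mul_le_mul (by linarith) g4 (by positivity) (by positivity)
  have hτt : Tendsto (fun n => Real.pi / τ n) atTop atTop := by
    have : Tendsto τ atTop (𝓝[>] 0) := tendsto_nhdsWithin_iff.2 ⟨by
      simpa using (hr0.pow 3).const_mul κ, by
      filter_upwards [eventually_gt_atTop 0] with n hn
      have := rr_pos hn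
      simp only [hτ, Set.mem_Ioi]; positivity⟩
    exact (tendsto_inv_nhdsGT_zero.comp this).const_mul_atTop Real.pi_pos
  have hCb0 : 0 ≤ Cb := by positivity
  have main : Tendsto (fun n => ∫ w : ℝ, (Set.Ioc (-(Real.pi / τ n)) (Real.pi / τ n)).indicator
      (fun w : ℝ => φ n (w * Complex.I)) w) atTop
      (𝓝 (∫ w : ℝ, ((Real.exp c * Real.exp (-(1/2) * w ^ 2) : ℝ) : ℂ))) := by
    refine tendsto_integral_filter_of_dominated_convergence (fun w => Cb * (1 + w ^ 2)⁻¹)
      (Eventually.of_forall fun n => AEStronglyMeasurable.indicator (Continuous.aestronglyMeasurable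
        (by simp only [hφ, Pc]; fun_prop)) measurableSet_Ioc) ?_
      (integrable_inv_one_add_sq.const_mul _) (Eventually.of_forall fun w => ?_)
    · filter_upwards [dom, eventually_gt_atTop 0] with n h1 h2
      refine Eventually.of_forall fun w => ?_
      have hr := rr_pos h2
      have hτp : 0 < τ n := by simp only [hτ]; positivity
      by_cases hw : w ∈ Set.Ioc (-(Real.pi / τ n)) (Real.pi / τ n)
      · rw [Set.indicator_of_mem hw]
        refine h1 w ?_
        rw [abs_mul, abs_of_pos hτp, ← le_div_iff₀ hτp]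
        exact abs_le.2 ⟨hw.1.le, hw.2⟩
      · rw [Set.indicator_of_notMem hw, norm_zero]; positivity
    · refine (pw w).congr' ?_
      filter_upwards [hτt.eventually_gt_atTop |w|] with n hn
      rw [Set.indicator_of_mem (show w ∈ Set.Ioc _ _ from ⟨(abs_lt.1 hn).1, (abs_lt.1 hn).2.le⟩)]
  rw [integral_complex_ofReal, integral_const_mul, integral_gaussian] at main
  have main2 := ((Complex.continuous_re.tendsto _).comp main).mul_const (κ / (2 * Real.pi))
  refine ⟨_, 2 * a, ?_, main2.congr' ?_⟩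
  · have := Real.pi_pos
    simp only [Complex.ofReal_re]
    positivity
  filter_upwards [eventually_gt_atTop 0] with n hn
  have hr := rr_pos hn
  have hτp : 0 < τ n := by simp only [hτ]; positivity
  have hp := Real.pi_pos
  have e1 := intervalIntegral.smul_integral_comp_mul_left (a := -(Real.pi / τ n)) (b := Real.pi / τ n)
    (fun θ : ℝ => Pc 𝒮 N n (t n + θ * Complex.I) * Complex.exp (θ * Complex.I * n)) (τ n)
  rw [show τ n * -(Real.pi / τ n) = -Real.pi by field_simp, show τ n * (Real.pi / τ n) = Real.pi by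
    field_simp, Pc_inv] at e1
  have e2 : ∫ w in (-(Real.pi / τ n))..(Real.pi / τ n), φ n (w * Complex.I) =
      ((2 * Real.pi * ((𝒮 n).filter (fun S => N n S = n)).card * Real.exp (-(n * t n)) *
        Real.exp (-(a ^ 2 / t n)) / τ n : ℝ) : ℂ) := by
    rw [Complex.ofReal_div, Complex.ofReal_mul, ← e1, eq_div_iff (by exact_mod_cast hτp.ne'),
      Complex.real_smul, mul_assoc, mul_comm, ← intervalIntegral.integral_mul_const]
    congr 1
    refine intervalIntegral.integral_congr fun w _ => ?_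
    simp only [hφ]
    rw [Complex.exp_add, Complex.ofReal_exp]
    push_cast; ring_nf
  simp only [Function.comp]
  rw [integral_indicator measurableSet_Ioc, ← intervalIntegral.integral_of_le
    (by have : 0 < Real.pi / τ n := by positivity
        linarith), e2, Complex.ofReal_re]
  have e3 : (n:ℝ) ^ (-(3/4:ℝ)) = rr n ^ 3 := by rw [rr_pow]; norm_num
  have e4 : Real.exp (-(n * t n)) * Real.exp (-(a ^ 2 / t n)) = (Real.exp (2 * a * √n))⁻¹ := by
    rw [← Real.exp_add, ← Real.exp_neg, rr2 hn]; congr 1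
    simp only [ht]; nth_rewrite 1 [rr4 hn]; field_simp; ring
  rw [mul_assoc _ (Real.exp _), e4, e3]
  simp only [hτ]
  field_simp

end

end Pool.Agent.H59.PD
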