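import Pool.Agent.H59.PD5
import Pool.Agent.H59.PD7

set_option autoImplicit false
open Finset Filter Topology

namespace Pool.Agent.H59.PD

def sg (f K i : ℕ) : ℕ := if f = 0 then i + 1 else K - i
def ep (f : ℕ) : ℤ := if f = 0 then -1 else 1

open Classical in
noncomputable def SS (f : ℕ) (D : ℤ → ℕ) (C : Set ℕ) (M n : ℕ) : Finset (Finset ℕ) :=
  (VS (fun i => D (sg f (n * M) i)) (n * M)).filter (fun S => ∀ i ∈ S, sg f (n * M) i ∉ C)

def NN (f M n : ℕ) (S : Finset ℕ) : ℕ := ∑ i ∈ S, sg f (n * M) i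

open Classical in
noncomputable def xx (f : ℕ) (C : Set ℕ) (K : ℕ) (t : ℝ) (i : ℕ) : ℝ :=
  if sg f K i ∉ C then Real.exp (-(sg f K i * t)) else 0

open Classical in
noncomputable def uu (C : Set ℕ) (m : ℤ) : ℝ := if 0 < m ∧ m.toNat ∉ C then 1 else 0

variable {B : ℕ} {D : ℤ → ℕ} {M f : ℕ} {C : Set ℕ}

lemma ep_abs : |((ep f : ℤ) : ℝ)| = 1 := by unfold ep; split_ifs <;> simp

lemma xx01 (K : ℕ) {t : ℝ} (ht : 0 ≤ t) : In01 (xx f C K t) := fun i => by
  unfold xx; split_ifs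
  · simp
  · exact ⟨(Real.exp_pos _).le, Real.exp_le_one_iff.2 (by simp; positivity)⟩

lemma uu01 (m : ℤ) : 0 ≤ uu C m ∧ uu C m ≤ 1 := by unfold uu; split_ifs <;> simp

lemma Pr_eq (n : ℕ) (t : ℝ) : Pr (SS f D C M) (NN f M) n t =
    v (xx f C (n * M) t) (fun i => D (sg f (n * M) i)) (n * M) := by
  classical
  rw [v_eq_sum, Pr, SS, sum_filter]
  refine sum_congr rfl fun S _ => ?_
  simp only [xx]
  rw [prod_ite_zero]
  congr 1
  rw [← Real.exp_sum, NN]; push_cast; rw [sum_mul, sum_neg_distrib]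

lemma Pc_eq (n : ℕ) (t θ : ℝ) : Pc (SS f D C M) (NN f M) n (t + θ * Complex.I) =
    v (fun i => (xx f C (n * M) t i : ℂ) * Complex.exp
      ((-(((if f = 0 then 1 else (n * M : ℕ) : ℝ) - ep f * i) * θ) : ℝ) * Complex.I))
      (fun i => D (sg f (n * M) i)) (n * M) := by
  classical
  rw [v_congr (X' := fun i => if sg f (n * M) i ∉ C then
      Complex.exp (-(sg f (n * M) i * (t + θ * Complex.I))) else 0) (n * M) (fun i hi => ?_)
      (fun _ _ => rfl), v_eq_sum, Pc, SS, sum_filter]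
  · refine sum_congr rfl fun S _ => ?_
    rw [prod_ite_zero]
    congr 1
    rw [← Complex.exp_sum, NN]; push_cast; rw [sum_mul, sum_neg_distrib]
  · have e : ((if f = 0 then 1 else (n * M : ℕ) : ℝ) - ep f * i) = sg f (n * M) i := by
      unfold ep sg; split_ifs
      · push_cast; ring
      · rw [Nat.cast_sub hi.le]; push_cast; ring
    rw [e]; unfold xx
    split_ifs
    · simp
    · rw [Complex.ofReal_exp, ← Complex.exp_add]; congr 1; push_cast; ring

lemma log_Pr (hB : 2 ≤ B) (hD : ∀ m, D m < B) (n : ℕ) {t : ℝ} (ht : 0 ≤ t) :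
    Real.log (Pr (SS f D C M) (NN f M) n t) = ∑ k ∈ range (n * M),
      Lg D (ep f) (yy (fun m => if m ≤ (n * M : ℕ) then uu C m else 0) t) (k+1) := by
  rw [Pr_eq]
  generalize n * M = K
  set y := yy (fun m => if m ≤ (K : ℕ) then uu C m else 0) t with hy
  have h01 : ∀ m : ℤ, 0 ≤ (if m ≤ (K : ℕ) then uu C m else 0) ∧
      (if m ≤ (K : ℕ) then uu C m else 0) ≤ 1 := fun m => by split_ifs <;> simp [uu01]
  have key : ∀ i ∈ range K, Real.log (v (xx f C K t) (fun i => D (sg f K i)) (i+1)) -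
      Real.log (v (xx f C K t) (fun i => D (sg f K i)) i) = Lg D (ep f) y (sg f K i) := by
    intro i hi
    have hi := mem_range.1 hi
    have e : ∀ j ≤ i, (sg f K i : ℤ) + ep f * ((i - j : ℕ) : ℤ) = sg f K j := by
      intro j hj; unfold sg ep; split_ifs <;> omega
    have e2 : ∀ j ≤ i, xx f C K t j = y (sg f K j) := by
      intro j hj
      have h1 : 0 < sg f K j ∧ sg f K j ≤ K := by unfold sg; split_ifs <;> omega
      simp only [hy, yy, xx, uu]
      rw [if_pos (show (sg f K j : ℤ) ≤ K by exact_mod_cast h1.2), abs_of_nonneg (by positivity)]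
      have h2 : (0:ℤ) < sg f K j := by exact_mod_cast h1.1
      by_cases hc : sg f K j ∈ C
      · rw [if_neg (not_not.2 hc), if_neg (fun h => h.2 (by simpa using hc)), zero_mul]
      · rw [if_pos hc, if_pos ⟨h2, by simpa using hc⟩, one_mul, Int.cast_natCast]
    rw [Lg, LL_fin hB (fun n => hD _) (yy01 h01 t _) i, lN]
    · congr 2
      · exact v_congr _ (fun j hj => by rw [e j (by omega), e2 j (by omega)])
          (fun j hj => by rw [e j (by omega)])
      · exact v_congr _ (fun j hj => by rw [e j (by omega), e2 j (by omega)])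
          (fun j hj => by rw [e j (by omega)])
    · intro l hl
      simp only [yy, uu, mul_eq_zero]
      left
      have : (sg f K i : ℤ) + ep f * l ≤ 0 ∨ (K:ℤ) < (sg f K i : ℤ) + ep f * l := by
        unfold sg ep; split_ifs <;> omega
      split_ifs <;> first | rfl | omega
  have := sum_range_sub (fun i => Real.log (v (xx f C K t) (fun i => D (sg f K i)) i)) K
  rw [v_zero, Real.log_one, sub_zero, sum_congr rfl key] at this
  rw [← this]
  by_cases hf : f = 0
  · simp [sg, hf]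
  · rw [← sum_range_reflect]
    refine sum_congr rfl fun i hi => ?_
    have := mem_range.1 hi
    congr 1; simp only [sg, hf, if_false]; omega

lemma dec2 (hD : ∀ m, D m < B) (hM : 0 < M) (c0 : ℕ) (hC : ∀ m ∈ C, m ≤ c0) :
    ∃ c2 t0 : ℝ, 0 < c2 ∧ 0 < t0 ∧ ∀ (n : ℕ) (t θ : ℝ), 0 < t → t ≤ t0 → 1 ≤ n * t →
      |θ| ≤ Real.pi → ‖Pc (SS f D C M) (NN f M) n (t + θ * Complex.I)‖ ≤
        Real.exp (-(c2 / t * min (θ ^ 2 / t ^ 2) 1)) * Pr (SS f D C M) (NN f M) n t := by
  set L : ℕ := 2 * B + 1 with hL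
  have hL1 : (1:ℝ) ≤ L := by exact_mod_cast (by omega : 1 ≤ L)
  have hc1 : (1:ℝ) ≤ c0 + 1 := by simp
  refine ⟨Real.exp (-1) / (8 * L * 512 * 8 * 4 ^ B), 1 / (8 * (c0 + 1) * L), by positivity,
    by positivity, fun n t θ ht ht0 hn hθ => ?_⟩
  rw [le_div_iff₀ (by positivity)] at ht0
  have q1 : t * (8 * L) ≤ 1 := by nlinarith [mul_pos ht (show (0:ℝ) < L by linarith)]
  have q2 : t * (8 * (c0 + 1)) ≤ 1 := by nlinarith [mul_pos ht (show (0:ℝ) < c0 + 1 by linarith)]
  obtain ⟨h, hh1, hh2⟩ := choose_h hθ ht (by nlinarith)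
  set J := ⌊1 / (4 * t * L)⌋₊ with hJ
  have J1 : (J:ℝ) ≤ 1 / (4 * t * L) := Nat.floor_le (by positivity)
  have J2 : 1 / (8 * t * L) ≤ J := by
    have h1 := Nat.lt_floor_add_one (1 / (4 * t * L))
    have h2 : (1:ℝ) ≤ J := by
      exact_mod_cast Nat.le_floor (by rw [Nat.cast_one, one_le_div (by positivity)]; linarith)
    have : 1 / (8 * t * L) = 1 / (4 * t * L) / 2 := by field_simp; norm_num
    rw [← hJ] at h1; linarith
  have J3 : ((h + J * L : ℕ) : ℝ) * t ≤ 1 / 2 := by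
    rw [le_div_iff₀ (by positivity)] at J1 hh1
    push_cast; nlinarith
  set T := ⌊1 / t⌋₊ with hT
  have T1 : (T:ℝ) * t ≤ 1 := by rw [← le_div_iff₀ ht]; exact Nat.floor_le (by positivity)
  have T2 : 1 < (T + 1 : ℝ) * t := by rw [← div_lt_iff₀ ht]; exact Nat.lt_floor_add_one _
  have T3 : T ≤ n * M := by
    have : (T:ℝ) ≤ n := le_of_mul_le_mul_right (by linarith) ht
    exact le_trans (by exact_mod_cast this) (Nat.le_mul_of_pos_right _ hM)
  have T4 : c0 + (h + J * L) ≤ T := by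
    have : ((c0 + (h + J * L) : ℕ) : ℝ) ≤ T := by
      refine le_of_mul_le_mul_right ?_ ht
      rw [Nat.cast_add]; nlinarith
    exact_mod_cast this
  rw [Pc_eq, Pr_eq]
  refine (decay (fun n => hD _) (xx01 _ ht.le) (if f = 0 then c0 else n * M - T) J h (n * M)
    (by rw [← hL]; split_ifs <;> omega) (Real.exp_pos (-1)).le (c := Real.cos (θ * h)) (fun i h1 h2 => ?_)
    (fun i => ?_)).trans ?_
  · have h3 : c0 < sg f (n * M) i ∧ sg f (n * M) i ≤ T := by
      rw [← hL] at h2; unfold sg; split_ifs at h1 h2 ⊢ <;> omega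
    unfold xx
    rw [if_pos (fun hc => by have := hC _ hc; omega)]
    refine Real.exp_le_exp.2 ?_
    have : (sg f (n * M) i : ℝ) ≤ T := by exact_mod_cast h3.2
    nlinarith
  · rw [← Real.cos_abs, ← Real.cos_abs (θ * h)]
    congr 1
    rw [show ∀ s : ℝ, -((s - ep f * (i + h : ℕ)) * θ) - -((s - ep f * i) * θ) = ep f * (θ * h) by
      intro s; push_cast; ring, abs_mul, ep_abs, one_mul]
  · refine mul_le_mul_of_nonneg_right (Real.exp_le_exp.2 ?_) (v_pos (fun i => (xx01 _ ht.le i).1) _).le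
    rw [neg_div, neg_le_neg_iff]
    have m0 : 0 ≤ min (θ ^ 2 / t ^ 2) 1 := le_min (by positivity) zero_le_one
    calc _ = Real.exp (-1) * (1 / (8 * t * L)) * (min (θ ^ 2 / t ^ 2) 1 / 512) / 8 / 4 ^ B := by
          field_simp
      _ ≤ _ := by gcongr

theorem asym (hB : 2 ≤ B) (hD : ∀ m, D m < B) (hM : 0 < M) (hper : ∀ m, D (m + M) = D m)
    (c0 : ℕ) (hC : ∀ m ∈ C, m ≤ c0) :
    ∃ a β : ℝ, 0 < a ∧ Tendsto (fun n : ℕ =>
      (((SS f D C M n).filter (fun S => NN f M n S = n)).card : ℝ) /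
      ((n : ℝ) ^ (-(3 / 4 : ℝ)) * Real.exp (β * √n))) atTop (𝓝 a) := by
  obtain ⟨c, hc⟩ := real_asym (ε := ep f) hB hD ep_abs hM hper (u := uu C) uu01 c0 (fun m hm => by
    unfold uu
    rw [if_pos ⟨by omega, fun h => by have := hC _ h; omega⟩])
  refine llt _ _ (AA D (ep f) M) c (AA_pos hB hD hM) (fun n t => ?_) (fun c1 hc1 l _ t n ht hn => ?_)
    (dec2 hD hM c0 hC)
  · rw [Pr_eq]
    exact v_pos (fun i => by unfold xx; split_ifs <;> positivity) _
  · refine (hc c1 hc1 l t n ht hn).congr' ?_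
    filter_upwards [ht self_mem_nhdsWithin] with x hx
    rw [log_Pr hB hD _ (le_of_lt hx)]

end Pool.Agent.H59.PD
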