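import Mathlib
import Pool.Agent.H59.MT15

/-! Two primes in a tuple (Maynard), and sums and differences of boundedly many primes. -/

set_option autoImplicit false

namespace Pool.Agent.H59.PP

open Finset Filter Pool.Agent.H59.MT

theorem two : ∃ K : ℕ, ∀ G : Finset ℕ, G.card = K → (∀ g ∈ G, 0 < g ∧ K.factorial ∣ g) → ∀ X : ℕ,
    ∃ t, X < t ∧ ∃ g ∈ G, ∃ g' ∈ G, g < g' ∧ (t + g).Prime ∧ (t + g').Prime := by
  obtain ⟨c0, C, c1, C1, core⟩ := core
  obtain ⟨J, hJ⟩ := exists_nat_gt (1 / c0)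
  have J0 : 0 < J := by exact_mod_cast (show (0 : ℝ) < J from lt_of_le_of_lt (by positivity) hJ)
  refine ⟨2 ^ J, fun H h1 h2 X => ?_⟩
  have hK : Fintype.card H = 2 ^ J := by simpa using h1
  obtain ⟨N, ⟨⟨p1, hN⟩, -, hl, -⟩, hX⟩ := (((core H J 1 (3 * Fintype.card H) (·.1) J0
    hK.ge one_pos Subtype.val_injective
    fun h => (h2 _ h.2).1).and (evl 2)).and (eventually_gt_atTop X)).exists
  obtain ⟨W, T, μ, T0, m1, m2, m3, -, -⟩ := hN (UU fun h : H => h.1) fun p hp => by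
    have hp := (Nat.mem_primesLE.1 (mem_of_mem_erase hp)).2
    refine ⟨UU_per _, UU0 _, UU_sum _ (al_pos _ hp fun h => hK ▸ (h2 _ h.2).2), UU_z _,
      fun h => ⟨_, (UU_dev _ hp h.le).trans ?_⟩⟩
    have : 1 / Real.log (Real.log N) ^ 2 ≤ 1 / 2 := one_div_le_one_div_of_le two_pos (by nlinarith)
    nlinarith [Nat.cast_nonneg (α := ℝ) p]
  have w0 := fun t => mul_nonneg (prod_nonneg fun p (_ : p ∈ SP N p1) =>
    UU0 (fun h : H => h.1) (p := p) t) (sq_nonneg (W t))
  by_contra hc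
  push Not at hc
  set w := fun t => (∏ p ∈ SP N p1, UU (fun h : H => h.1) p t) * W t ^ 2 with hw
  have a : ∑ i : H, ∑ t ∈ Ico (2 * N) (5 * N) with (t + i.1).Prime, w t ≤ T := by
    simp only [sum_filter]
    rw [sum_comm]
    refine le_trans (sum_le_sum fun t ht => ?_) m2
    rw [← sum_filter, sum_const, nsmul_eq_mul]
    have : (univ.filter fun i : H => (t + i.1).Prime).card ≤ 1 := by
      refine card_le_one.2 fun a ha b hb => Subtype.ext ?_
      have tX : X < t := by have := (mem_Ico.1 ht).1; omega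
      have ha := (mem_filter.1 ha).2
      have hb := (mem_filter.1 hb).2
      rcases lt_trichotomy a.1 b.1 with h | h | h
      · exact absurd hb (hc t tX _ a.2 _ b.2 h ha)
      · exact h
      · exact absurd ha (hc t tX _ b.2 _ a.2 h hb)
    have : ((univ.filter fun i : H => (t + i.1).Prime).card : ℝ) ≤ 1 := by exact_mod_cast this
    nlinarith [w0 t]
  have b := card_nsmul_le_sum univ _ _ fun (i : H) _ => m3 i
  rw [card_univ, nsmul_eq_mul] at b
  have k0 : (0 : ℝ) < Fintype.card H := by rw [hK]; positivity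
  have c : c0 * J ≤ Fintype.card H * μ := by
    have := mul_le_mul_of_nonneg_left m1 k0.le
    rwa [show (Fintype.card H : ℝ) * (c0 * (J / Fintype.card H)) = c0 * J by field_simp] at this
  rw [div_lt_iff₀ c1] at hJ
  nlinarith

/-- `a` is a difference of two sums of at most `c` distinct, arbitrarily large primes. -/
def Rep (c a : ℕ) : Prop := ∀ X : ℕ, ∃ U V : Finset ℕ, (∀ p ∈ U, p.Prime ∧ X < p) ∧
  (∀ p ∈ V, p.Prime ∧ X < p) ∧ U.card ≤ c ∧ V.card ≤ c ∧ ∑ p ∈ U, p = a + ∑ p ∈ V, p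

lemma dis {U V : Finset ℕ} {X : ℕ} (h : ∑ p ∈ U, p ≤ X) (h' : ∀ p ∈ V, p.Prime ∧ X < p) :
    Disjoint U V := disjoint_left.2 fun p a b => by
  have := single_le_sum (f := fun p : ℕ => p) (fun _ _ => Nat.zero_le _) a
  have := (h' p b).2
  omega

lemma Rep.mono {c c' a : ℕ} (h : Rep c a) (hc : c ≤ c') : Rep c' a := fun X =>
  let ⟨U, V, a, b, c, d, e⟩ := h X
  ⟨U, V, a, b, c.trans hc, d.trans hc, e⟩

lemma Rep.add {c c' a b : ℕ} (h : Rep c a) (h' : Rep c' b) : Rep (c + c') (a + b) := fun X => by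
  obtain ⟨U, V, u, v, u1, v1, e⟩ := h X
  obtain ⟨U', V', u', v', u1', v1', e'⟩ := h' (X + ∑ p ∈ U, p)
  refine ⟨U ∪ U', V ∪ V', fun p hp => ?_, fun p hp => ?_, (card_union_le _ _).trans (by omega),
    (card_union_le _ _).trans (by omega), ?_⟩
  · rcases mem_union.1 hp with hp | hp
    · exact u p hp
    · exact ⟨(u' p hp).1, by have := (u' p hp).2; omega⟩
  · rcases mem_union.1 hp with hp | hp
    · exact v p hp
    · exact ⟨(v' p hp).1, by have := (v' p hp).2; omega⟩
  · rw [sum_union (dis (by omega) u'), sum_union (dis (by omega) v')]; omega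

lemma Rep.mul {a : ℕ} (h : Rep 1 a) (k : ℕ) : Rep k (k * a) := by
  induction k with
  | zero => exact fun X => ⟨∅, ∅, by simp⟩
  | succ k ih => rw [add_mul, one_mul]; exact ih.add h

lemma rep_mul : ∃ W c : ℕ, 0 < W ∧ ∀ m, Rep c (W * m) := by
  obtain ⟨K, hK⟩ := two
  have W0 := K.factorial_pos
  refine ⟨K.factorial * K.factorial, K.factorial, by positivity, fun m => ?_⟩
  rcases m.eq_zero_or_pos with rfl | m0
  · exact fun X => ⟨∅, ∅, by simp⟩
  set d := K.factorial * m with hd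
  have d0 : 0 < d := by positivity
  have : ∃ j ∈ Icc 1 K, Rep 1 (j * d) := by
    by_contra hc
    simp only [Rep, not_exists, not_and, not_forall] at hc
    choose! X hX using hc
    obtain ⟨t, ht, g, hg, g', hg', l, p1, p2⟩ := hK ((range K).image fun i => (i + 1) * d)
      (by rw [card_image_of_injective _ fun a b h => by simpa [d0.ne'] using h, card_range])
      (fun g hg => by
        obtain ⟨i, -, rfl⟩ := mem_image.1 hg
        exact ⟨by positivity, Dvd.dvd.mul_left (dvd_mul_right _ _) _⟩) (∑ j ∈ Icc 1 K, X j)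
    obtain ⟨i, hi, rfl⟩ := mem_image.1 hg
    obtain ⟨j, hj, rfl⟩ := mem_image.1 hg'
    have ij : i < j := by simpa [d0] using l
    have hm : j - i ∈ Icc 1 K := by have := mem_range.1 hj; rw [mem_Icc]; omega
    have := single_le_sum (f := X) (fun _ _ => Nat.zero_le _) hm
    refine hX _ hm {t + (j + 1) * d} {t + (i + 1) * d} (by simp [p2]; omega) (by simp [p1]; omega)
      (by simp) (by simp) ?_
    obtain ⟨k, rfl⟩ := Nat.exists_eq_add_of_lt ij
    simp only [sum_singleton, show i + k + 1 - i = k + 1 by omega]; ring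
  obtain ⟨j, hj, h⟩ := this
  obtain ⟨k, hk⟩ := Nat.dvd_factorial (mem_Icc.1 hj).1 (mem_Icc.1 hj).2
  have := (h.mul k).mono (show k ≤ K.factorial from hk ▸ Nat.le_mul_of_pos_left _ (mem_Icc.1 hj).1)
  rwa [show k * (j * d) = K.factorial * K.factorial * m by rw [hd]; nth_rw 2 [hk]; ring] at this

lemma ones {W : ℕ} (W0 : 0 < W) (r X : ℕ) : ∃ Z : Finset ℕ, (∀ p ∈ Z, p.Prime ∧ X < p) ∧
    Z.card = r ∧ ∑ p ∈ Z, p ≡ r [MOD W] := by
  induction r with
  | zero => exact ⟨∅, by simp [Nat.ModEq]⟩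
  | succ r ih =>
    obtain ⟨Z, a, b, c⟩ := ih
    obtain ⟨p, h1, h2, h3⟩ := Nat.forall_exists_prime_gt_and_modEq (X + ∑ p ∈ Z, p) W0.ne'
      (Nat.coprime_one_left W)
    have n : p ∉ Z := fun h => by
      have := single_le_sum (f := fun p : ℕ => p) (fun _ _ => Nat.zero_le _) h
      omega
    refine ⟨insert p Z, fun q hq => ?_, by rw [card_insert_of_notMem n, b], ?_⟩
    · rcases mem_insert.1 hq with rfl | hq
      · exact ⟨h2, by omega⟩
      · exact a q hq
    · rw [sum_insert n, add_comm]; exact c.add h3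

lemma rep_all (M : ℕ) (M0 : 0 < M) : ∃ c : ℕ, ∀ s X : ℕ, ∃ U V : Finset ℕ,
    (∀ p ∈ U, p.Prime) ∧ (∀ p ∈ V, p.Prime ∧ X < p) ∧ U.card ≤ c ∧ V.card ≤ c ∧
    ∑ p ∈ U, p = s + ∑ p ∈ V, p ∧ M ∣ ∑ p ∈ V, p ∧ X < ∑ p ∈ V, p := by
  obtain ⟨W, c, W0, h⟩ := rep_mul
  refine ⟨2 * W + c + M, fun s X => ?_⟩
  obtain ⟨Z, z1, z2, z3⟩ := ones W0 (s % W + W) s
  have zs : s ≤ ∑ p ∈ Z, p := by
    obtain ⟨p, hp⟩ : Z.Nonempty := card_pos.1 (by omega)
    have := single_le_sum (f := fun p : ℕ => p) (fun _ _ => Nat.zero_le _) hp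
    have := (z1 p hp).2
    omega
  obtain ⟨m, hm⟩ : W ∣ ∑ p ∈ Z, p - s := (Nat.modEq_iff_dvd' zs).1 (by
    refine Nat.ModEq.trans ?_ z3.symm
    simp [Nat.ModEq])
  obtain ⟨U, V, u, v, u1, v1, e⟩ := h m (X + ∑ p ∈ Z, p)
  set S := ∑ p ∈ U, p with hS
  obtain ⟨Y, y1, y2, y3⟩ := ones M0 (M - S % M) (X + ∑ p ∈ Z, p + S)
  have lt := Nat.mod_lt S M0
  have lt' := Nat.mod_lt s W0
  have d1 : Disjoint Z V := dis (by omega) v
  have d2 : Disjoint (Z ∪ V) Y := dis (by rw [sum_union d1]; omega) y1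
  have d3 : Disjoint U Y := dis (by omega) y1
  refine ⟨(Z ∪ V) ∪ Y, U ∪ Y, fun p hp => ?_, fun p hp => ?_,
    (card_union_le _ _).trans (by have := card_union_le Z V; omega),
    (card_union_le _ _).trans (by omega), by rw [sum_union d2, sum_union d1, sum_union d3]; omega,
    ?_, ?_⟩
  · simp only [mem_union] at hp
    rcases hp with (hp | hp) | hp
    exacts [(z1 p hp).1, (v p hp).1, (y1 p hp).1]
  · rcases mem_union.1 hp with hp | hp
    · exact ⟨(u p hp).1, by have := (u p hp).2; omega⟩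
    · exact ⟨(y1 p hp).1, by have := (y1 p hp).2; omega⟩
  · rw [sum_union d3, ← hS, ← Nat.modEq_zero_iff_dvd]
    refine (((Nat.mod_modEq S M).symm.add y3).trans ?_)
    rw [show S % M + (M - S % M) = M by omega]; simp [Nat.ModEq]
  · obtain ⟨p, hp⟩ : Y.Nonempty := card_pos.1 (by omega)
    have := single_le_sum (f := fun p : ℕ => p) (fun _ _ => Nat.zero_le _) hp
    have := (y1 p hp).2
    rw [sum_union d3]
    omega

theorem straddle : ∃ c : ℕ, ∀ s h X : ℕ, ∃ q q' : ℕ, q.Prime ∧ q'.Prime ∧ q + h ≤ q' ∧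
    ∃ U : Finset ℕ, (∀ p ∈ U, p.Prime) ∧ U.card ≤ c ∧ ∑ p ∈ U, p + q = s + q' ∧
    X + ∑ p ∈ U, p < q := by
  obtain ⟨K, hK⟩ := two
  obtain ⟨c, hc⟩ := rep_all _ K.factorial_pos
  refine ⟨c * K, fun s h X => ?_⟩
  have : ∀ n, ∃ (G : Finset ℕ) (m : ℕ), G.card = n ∧ (∀ g ∈ insert m G, 0 < g ∧ K.factorial ∣ g) ∧
      (∀ g ∈ G, g < m) ∧ ∀ g ∈ G, ∀ g' ∈ insert m G, g < g' → g + h ≤ g' ∧ ∃ U : Finset ℕ,
        (∀ p ∈ U, p.Prime) ∧ U.card ≤ c * n ∧ ∑ p ∈ U, p + g = s + g' := by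
    intro n
    induction n with
    | zero => exact ⟨∅, K.factorial, by simp [K.factorial_pos]⟩
    | succ n ih =>
      obtain ⟨G, m, g1, g2, g3, g4⟩ := ih
      obtain ⟨U, V, u, v, u1, v1, e, dv, lt⟩ := hc s (s + m + h)
      have nm : m ∉ G := fun h => lt_irrefl _ (g3 m h)
      have cn : c * (n + 1) = c * n + c := by ring
      refine ⟨insert m G, m + ∑ p ∈ V, p, by rw [card_insert_of_notMem nm, g1], fun g hg => ?_,
        fun g hg => ?_, fun g hg g' hg' l => ?_⟩
      · rcases mem_insert.1 hg with rfl | hg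
        · exact ⟨by omega, dvd_add (g2 m (mem_insert_self _ _)).2 dv⟩
        · exact g2 g hg
      · rcases mem_insert.1 hg with rfl | hg
        · omega
        · have := g3 g hg; omega
      · rcases mem_insert.1 hg' with rfl | hg'
        · rcases mem_insert.1 hg with rfl | hg
          · exact ⟨by omega, U, u, by omega, by omega⟩
          · obtain ⟨a, U', b, c', d⟩ := g4 g hg m (mem_insert_self _ _) (g3 g hg)
            refine ⟨by omega, U' ∪ V, fun p hp => ?_, (card_union_le _ _).trans (by omega), ?_⟩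
            · rcases mem_union.1 hp with hp | hp
              exacts [b p hp, (v p hp).1]
            · rw [sum_union (dis (by omega) v)]; omega
        · rcases mem_insert.1 hg with rfl | hg
          · rcases mem_insert.1 hg' with rfl | hg'
            · omega
            · have := g3 _ hg'; omega
          · obtain ⟨a, U', b, c', d⟩ := g4 g hg g' hg' l
            exact ⟨a, U', b, by omega, d⟩
  obtain ⟨G, m, g1, g2, g3, g4⟩ := this K
  obtain ⟨t, ht, g, hg, g', hg', l, p1, p2⟩ := hK G g1 (fun g hg => g2 g (mem_insert_of_mem hg))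
    (X + s + m)
  obtain ⟨a, U, b, c', d⟩ := g4 g hg g' (mem_insert_of_mem hg') l
  have := g3 g' hg'
  exact ⟨_, _, p1, p2, by omega, U, b, c', by omega, by omega⟩

end Pool.Agent.H59.PP
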