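import Mathlib
import Pool.Agent.H59.PP1

/-! Products of integers with a given sum; sums of primes whose least product needs many parts. -/

set_option autoImplicit false

namespace Pool.Agent.H59.PP

open Finset

lemma sq_le_two_pow {y : ℕ} (h : 4 ≤ y) : y ^ 2 ≤ 2 ^ y := by
  induction y, h using Nat.le_induction with
  | base => norm_num
  | succ n hn ih => rw [pow_succ 2]; nlinarith

lemma pw {r y : ℕ} (y4 : 4 ≤ y) (h2 : 2 ≤ r) (h : r ≤ y) : y ^ r ≤ r ^ y := by
  rcases h2.eq_or_lt with rfl | h3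
  · exact sq_le_two_pow y4
  have e3 : Real.exp 1 ≤ (r : ℝ) :=
    Real.exp_one_lt_d9.le.trans (le_trans (by norm_num) (Nat.cast_le.2 h3 : ((3 : ℕ) : ℝ) ≤ r))
  have ry : (r : ℝ) ≤ y := Nat.cast_le.2 h
  have := Real.log_div_self_antitoneOn e3 (e3.trans ry) ry
  have r0 : (0 : ℝ) < r := by positivity
  have y0 : (0 : ℝ) < y := by linarith
  simp only at this
  rw [div_le_div_iff₀ y0 r0] at this
  have : Real.log ((y : ℝ) ^ r) ≤ Real.log ((r : ℝ) ^ y) := by
    rw [Real.log_pow, Real.log_pow]; linarith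
  exact_mod_cast (Real.log_le_log_iff (by positivity) (by positivity)).1 this

lemma phi0 {y : ℕ} (y4 : 4 ≤ y) (R : Finset ℕ) (h : ∀ r ∈ R, 2 ≤ r ∧ r ≤ y) {k : ℕ}
    (hk : k * y ≤ ∑ r ∈ R, r) : y ^ k ≤ ∏ r ∈ R, r := by
  have a : y ^ (∑ r ∈ R, r) ≤ (∏ r ∈ R, r) ^ y := by
    rw [← prod_pow_eq_pow_sum, ← prod_pow]
    exact prod_le_prod' fun r hr => pw y4 (h r hr).1 (h r hr).2
  have b : (y ^ k) ^ y ≤ y ^ (∑ r ∈ R, r) := by
    rw [← pow_mul]; exact Nat.pow_le_pow_right (by omega) hk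
  exact (Nat.pow_le_pow_iff_left (by omega)).1 (b.trans a)

lemma phi {y : ℕ} (y4 : 4 ≤ y) (R : Finset ℕ) (h : ∀ r ∈ R, 2 ≤ r ∧ r ≤ y) :
    ∀ k u : ℕ, u ≤ y → k * y + u ≤ ∑ r ∈ R, r → y ^ k * u ≤ 2 * ∏ r ∈ R, r := by
  induction R using Finset.induction_on with
  | empty =>
    intro k u _ h
    simp only [sum_empty] at h
    rw [show u = 0 by omega]; simp
  | insert r R hr ih =>
    intro k u uy hk
    have h' : ∀ r ∈ R, 2 ≤ r ∧ r ≤ y := fun x hx => h x (mem_insert_of_mem hx)
    obtain ⟨r2, ry⟩ := h r (mem_insert_self _ _)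
    rw [sum_insert hr] at hk
    rw [prod_insert hr]
    set P := ∏ r ∈ R, r with hP
    rcases lt_or_ge u r with l | l
    · rcases k with _ | k
      · have : 1 ≤ P := Nat.one_le_iff_ne_zero.2 (prod_ne_zero_iff.2 fun x hx => by
          have := h' x hx; omega)
        rw [pow_zero]; nlinarith
      · obtain ⟨a, rfl⟩ := Nat.exists_eq_add_of_le ry
        have := ih h' k (a + u) (by omega) (by rw [add_mul] at hk; omega)
        have b : (r + a) * u ≤ (a + u) * r := by nlinarith
        calc (r + a) ^ (k + 1) * u = (r + a) ^ k * ((r + a) * u) := by ring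
          _ ≤ (r + a) ^ k * ((a + u) * r) := Nat.mul_le_mul_left _ b
          _ = (r + a) ^ k * (a + u) * r := by ring
          _ ≤ 2 * P * r := Nat.mul_le_mul_right _ this
          _ = _ := by ring
    · obtain ⟨a, rfl⟩ := Nat.exists_eq_add_of_le l
      rcases lt_or_ge a 2 with a2 | a2
      · have := phi0 y4 R h' (k := k) (by omega)
        calc y ^ k * (r + a) ≤ P * (2 * r) := Nat.mul_le_mul this (by omega)
          _ = _ := by ring
      · have := ih h' k a (by omega) (by omega)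
        have b : r + a ≤ a * r := by nlinarith
        calc y ^ k * (r + a) ≤ y ^ k * (a * r) := Nat.mul_le_mul_left _ b
          _ = y ^ k * a * r := by ring
          _ ≤ 2 * P * r := Nat.mul_le_mul_right _ this
          _ = _ := by ring

lemma np {q d : ℕ} (hq : q.Prime) (h : d ∣ q) (h2 : 2 ≤ d) (h3 : d < q) : False := by
  rcases (Nat.dvd_prime hq).1 h with h | h <;> omega

lemma isolated (G X : ℕ) : ∃ P, X < P ∧ P.Prime ∧ ∀ q, q.Prime → P ≤ q + G → q ≤ P + G → q = P := by
  obtain ⟨M, hM⟩ : ∃ M, (G + 3).factorial = M + 1 := ⟨_, (Nat.succ_pred_eq_of_pos (Nat.factorial_pos _)).symm⟩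
  have dv : ∀ d, 0 < d → d ≤ G + 3 → d ∣ M + 1 := fun d a b => hM ▸ Nat.dvd_factorial a b
  have M2 : G + 3 ≤ M + 1 := hM ▸ Nat.self_le_factorial _
  have cop : (M + 2).Coprime ((M + 1) * M) := by
    refine Nat.Coprime.mul_right (by simp [show M + 2 = (M + 1) + 1 by ring]) ?_
    rw [add_comm, Nat.coprime_add_self_left, Nat.coprime_two_left, ← Nat.not_even_iff_odd,
      ← Nat.even_add_one]
    exact even_iff_two_dvd.2 (dv 2 two_pos (by omega))
  obtain ⟨P, p1, p2, p3⟩ := Nat.forall_exists_prime_gt_and_modEq (X + 2 * G + 2 * M + 10)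
    (show (M + 1) * M ≠ 0 from Nat.mul_ne_zero (by omega) (by omega)) cop
  obtain ⟨k, hk⟩ := (Nat.modEq_iff_dvd' (by omega)).1 p3.symm
  have e : P = M + 2 + (M + 1) * M * k := by omega
  refine ⟨P, by omega, p2, fun q hq a b => ?_⟩
  by_contra hne
  rcases lt_or_gt_of_ne hne with l | l
  · obtain ⟨j, hj⟩ := Nat.exists_eq_add_of_lt l
    rcases j with _ | _ | j
    · refine np hq (d := 2) ?_ le_rfl (by omega)
      rw [show q = (M + 1) * (1 + M * k) by nlinarith]
      exact (dv 2 two_pos (by omega)).mul_right _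
    · exact np hq (d := M) ⟨1 + (M + 1) * k, by nlinarith⟩ (by omega) (by omega)
    · refine np hq (d := j + 2) ?_ (by omega) (by omega)
      have : q + (j + 2) = (M + 1) * (1 + M * k) := by nlinarith
      exact (Nat.dvd_add_left dvd_rfl).1 (this ▸ (dv _ (by omega) (by omega)).mul_right _)
  · obtain ⟨j, hj⟩ := Nat.exists_eq_add_of_lt l
    refine np hq (d := j + 2) ?_ (by omega) (by omega)
    rw [show q = (M + 1) * (1 + M * k) + (j + 2) by nlinarith]
    exact dvd_add ((dv _ (by omega) (by omega)).mul_right _) dvd_rfl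

lemma chain (K : ℕ) : ∃ R0 : Finset ℕ, (∀ p ∈ R0, p.Prime) ∧ ∀ R : Finset ℕ, (∀ p ∈ R, p.Prime) →
    ∑ p ∈ R, p = ∑ p ∈ R0, p → ∏ p ∈ R, p ≤ ∏ p ∈ R0, p → K ≤ R.card := by
  induction K with
  | zero => exact ⟨∅, by simp⟩
  | succ K ih =>
    obtain ⟨R0, a, b⟩ := ih
    set t := ∑ p ∈ R0, p with ht
    set Q := ∏ p ∈ R0, p with hQ
    obtain ⟨P, p1, p2, p3⟩ := isolated (t + 4 * Q + 1) (2 * (t + 4 * Q + 1) + 8)
    have n : P ∉ R0 := fun h => by
      have := single_le_sum (f := fun p : ℕ => p) (fun _ _ => Nat.zero_le _) h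
      omega
    refine ⟨insert P R0, fun q hq => ?_, fun R r1 r2 r3 => ?_⟩
    · rcases mem_insert.1 hq with rfl | hq
      exacts [p2, a q hq]
    rw [sum_insert n] at r2
    rw [prod_insert n] at r3
    by_cases hP : P ∈ R
    · rw [← add_sum_erase _ _ hP] at r2
      rw [← mul_prod_erase _ _ hP] at r3
      have := b (R.erase P) (fun q hq => r1 q (mem_of_mem_erase hq)) (by omega)
        (Nat.le_of_mul_le_mul_left r3 p2.pos)
      have := card_erase_add_one hP
      omega
    · obtain ⟨y, hy⟩ : ∃ y, P = y + (4 * Q + 1) := ⟨P - (4 * Q + 1), by omega⟩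
      have := phi (y := y) (by omega) R (fun r hr => ⟨(r1 r hr).two_le, by
        have := single_le_sum (f := fun p : ℕ => p) (fun _ _ => Nat.zero_le _) hr
        by_contra hc
        exact hP (p3 r (r1 r hr) (by omega) (by omega) ▸ hr)⟩) 1 (4 * Q + 1) (by omega) (by omega)
      rw [pow_one] at this
      have c : P ≤ 2 * y := by omega
      nlinarith

lemma noadd {y Q : ℕ} (hy : 18 * Q + 4 < y) (R A : Finset ℕ) (h : ∀ r ∈ R, 2 ≤ r ∧ r ≤ y)
    (hA : ∀ a ∈ A, y + 6 * Q < a) (hs : ∑ a ∈ A, a ≤ ∑ r ∈ R, r)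
    (hp : ∏ r ∈ R, r ≤ Q * ∏ a ∈ A, a) : A = ∅ := by
  by_contra hne
  obtain ⟨a0, ha0⟩ := nonempty_iff_ne_empty.2 hne
  have y0 : (0 : ℝ) < y := Nat.cast_pos.2 (by omega)
  set E := ∑ a ∈ A, (a - y) with hE
  have e1 : ∑ a ∈ A, a = A.card * y + E := by
    rw [hE, card_eq_sum_ones, sum_mul, ← sum_add_distrib]
    exact sum_congr rfl fun a ha => by have := hA a ha; omega
  have e2 : 6 * Q < E := by
    have := single_le_sum (f := fun a : ℕ => a - y) (fun _ _ => Nat.zero_le _) ha0
    have := hA a0 ha0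
    omega
  set k := E / y with hk
  have e3 : E = k * y + E % y := by rw [hk, mul_comm, Nat.div_add_mod]
  have e4 : E % y < y := Nat.mod_lt _ (by omega)
  have e5 : ∏ a ∈ A, a ≤ y ^ A.card * 3 ^ (k + 1) := by
    have : (∏ a ∈ A, (a : ℝ)) ≤ y ^ A.card * 3 ^ (k + 1) := by
      calc (∏ a ∈ A, (a : ℝ)) ≤ ∏ a ∈ A, (y * Real.exp (((a - y : ℕ) : ℝ) / y)) := by
            refine prod_le_prod (fun _ _ => by positivity) fun a ha => ?_
            have := Real.add_one_le_exp (((a - y : ℕ) : ℝ) / y)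
            rw [Nat.cast_sub (by have := hA a ha; omega)] at this ⊢
            calc (a : ℝ) = y * ((a - y) / y + 1) := by field_simp; ring
              _ ≤ _ := mul_le_mul_of_nonneg_left this y0.le
        _ = y ^ A.card * Real.exp (E / y) := by
            rw [prod_mul_distrib, prod_const, ← Real.exp_sum, ← sum_div, hE, Nat.cast_sum]
        _ ≤ y ^ A.card * Real.exp 1 ^ (k + 1) := by
            rw [← Real.exp_nat_mul, mul_one]
            gcongr
            rw [div_le_iff₀ y0]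
            exact_mod_cast (by nlinarith : E ≤ (k + 1) * y)
        _ ≤ _ := by gcongr; exact Real.exp_one_lt_d9.le.trans (by norm_num)
    rw [← Nat.cast_prod] at this
    exact_mod_cast this
  have yp : 0 < y ^ A.card := pow_pos (by omega) _
  rcases k.eq_zero_or_pos with k0 | k0
  · have := phi (by omega) R h A.card E (by rw [k0] at e3; omega) (by omega)
    rw [k0] at e5
    have b := hp.trans (Nat.mul_le_mul_left Q e5)
    have c := Nat.mul_lt_mul_of_pos_left e2 yp
    have d : Q * (y ^ A.card * 3 ^ (0 + 1)) * 2 = y ^ A.card * (6 * Q) := by ring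
    omega
  · have := phi0 (by omega) R h (k := A.card + k) (by rw [add_mul]; omega)
    obtain ⟨l, hl⟩ := Nat.exists_eq_add_of_le' k0
    rw [hl] at e5 this
    have b : 3 ^ l ≤ y ^ l := Nat.pow_le_pow_left (by omega) _
    have c := this.trans (hp.trans (Nat.mul_le_mul_left Q e5))
    have d : y ^ A.card * (y ^ l * y) ≤ y ^ A.card * (3 ^ l * (9 * Q)) := by
      calc _ = y ^ (A.card + (l + 1)) := by ring
        _ ≤ _ := c
        _ = _ := by ring
    have := Nat.le_of_mul_le_mul_left d yp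
    have : 0 < 3 ^ l := by positivity
    nlinarith

end Pool.Agent.H59.PP
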