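import Mathlib

set_option autoImplicit false

namespace Pool.Agent.H59.RB
open Filter

def Rep3 (S : Set ℕ) (n : ℕ) : Prop := ∃ x ∈ S, ∃ y ∈ S, ∃ z ∈ S, x + y + z = n

lemma seq (A : Set ℕ) (Inv : Finset ℕ → Prop) (h0 : Inv ∅)
    (hs : ∀ F, Inv F → ∀ M, ∃ b ∈ A, M < b ∧ Inv (insert b F) ∧
      ∀ n, b ≤ n → Rep3 (A \ (↑(insert b F) : Set ℕ)) n) :
    ∃ B ⊆ A, B.Infinite ∧ ∃ N, ∀ n, N ≤ n → Rep3 (A \ B) n := by
  classical
  choose! g hgA hgM hgI hgR using hs
  let s : ℕ → Finset ℕ × ℕ := fun j => Nat.rec (∅, 0)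
    (fun _ t => (insert (g t.1 t.2) t.1, g t.1 t.2)) j
  have s0 : s 0 = (∅, 0) := rfl
  have ss : ∀ j, s (j + 1) = (insert (g (s j).1 (s j).2) (s j).1, g (s j).1 (s j).2) := fun j => rfl
  have hI : ∀ j, Inv (s j).1 := by
    intro j
    induction j with
    | zero => exact h0
    | succ j ih => rw [ss]; exact hgI _ ih _
  let b : ℕ → ℕ := fun j => (s (j + 1)).2
  have hb : ∀ j, b j = g (s j).1 (s j).2 := fun j => rfl
  have hmono : StrictMono b := by
    apply strictMono_nat_of_lt_succ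
    intro j
    rw [hb (j + 1)]
    exact hgM _ (hI (j + 1)) _
  have hmem : ∀ j i, i < j → b i ∈ (s j).1 := by
    intro j
    induction j with
    | zero => intro i hi; omega
    | succ j ih =>
      intro i hi
      rw [ss]
      rcases Nat.lt_succ_iff_lt_or_eq.1 hi with h | h
      · exact Finset.mem_insert_of_mem (ih i h)
      · rw [h, hb]; exact Finset.mem_insert_self _ _
  refine ⟨Set.range b, ?_, Set.infinite_range_of_injective hmono.injective, b 0, ?_⟩
  · rintro _ ⟨j, rfl⟩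
    rw [hb]; exact hgA _ (hI j) _
  · intro n hn
    have hex : ∃ j, n < b (j + 1) := ⟨n, lt_of_lt_of_le (Nat.lt_succ_self n) (hmono.id_le (n + 1))⟩
    let j := Nat.find hex
    have hj1 : n < b (j + 1) := Nat.find_spec hex
    have hj2 : b j ≤ n := by
      rcases Nat.eq_zero_or_pos j with h | h
      · rw [h]; exact hn
      · have := Nat.find_min hex (m := j - 1) (by omega)
        rw [show j - 1 + 1 = j by omega] at this
        omega
    obtain ⟨x, hx, y, hy, z, hz, hxyz⟩ := hgR _ (hI j) (s j).2 n (by rw [← hb]; exact hj2)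
    have key : ∀ w, w ≤ n → w ∈ A \ (↑(insert (g (s j).1 (s j).2) (s j).1) : Set ℕ) →
        w ∈ A \ Set.range b := by
      intro w hw hwA
      refine ⟨hwA.1, ?_⟩
      rintro ⟨i, rfl⟩
      apply hwA.2
      have hi : i < j + 1 := by
        by_contra hh
        have := hmono.monotone (show j + 1 ≤ i by omega)
        omega
      have := hmem (j + 1) i hi
      rw [ss] at this
      exact this
    exact ⟨x, key x (by omega) hx, y, key y (by omega) hy, z, key z (by omega) hz, hxyz⟩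

/-- the translation structure yields a removable infinite set -/
lemma trans_case (A : Set ℕ) (N0 : ℕ) (hA : ∀ m, N0 ≤ m → ∃ u ∈ A, ∃ v ∈ A, u + v = m)
    (𝒟 ℰ : Filter ℕ) [𝒟.NeBot] [ℰ.NeBot] (hD : 𝒟 ≤ atTop) (hE : ℰ ≤ atTop) (x : ℕ) (hx : x ∈ A)
    (h : ∀ᶠ D in 𝒟, x + D ∈ A ∧ ∀ᶠ E in ℰ, x + D + E ∈ A ∧ ∀ᶠ D' in 𝒟, x + D + E + D' ∈ A) :
    ∃ B ⊆ A, B.Infinite ∧ ∃ N, ∀ n, N ≤ n → Rep3 (A \ B) n := by
  classical
  obtain ⟨D0, hp, hpE⟩ := h.exists
  set p := x + D0 with hpdef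
  apply seq A (fun F => ∀ a ∈ F, p < a ∧ ∀ᶠ D in 𝒟, a + D ∈ A) (by simp)
  intro F hF M
  obtain ⟨β, hβp, hβF⟩ : ∃ β, p ≤ β ∧ ∀ a ∈ F, a ≤ β :=
    ⟨p + F.sup id, by omega, fun a ha => le_add_left (Finset.le_sup (f := id) ha)⟩
  have hall : ∀ᶠ D in 𝒟, ∀ a ∈ F, a + D ∈ A :=
    (Filter.eventually_all_finset F).2 (fun a ha => (hF a ha).2)
  obtain ⟨D1, ⟨⟨hy1, hy1E⟩, hF1⟩, hD1⟩ := ((h.and hall).and (hD (eventually_gt_atTop β))).exists
  obtain ⟨D2, ⟨⟨hy2, hy2E⟩, hF2⟩, hD2⟩ :=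
    ((h.and hall).and (hD (eventually_gt_atTop (D1 + 2 * β)))).exists
  obtain ⟨E, ⟨⟨⟨hbA, hbD⟩, h1E⟩, h2E⟩, hEl⟩ :=
    (((hpE.and hy1E).and hy2E).and (hE (eventually_gt_atTop (M + x + D2 + 3 * β + N0)))).exists
  refine ⟨p + E, hbA, by omega, ?_, ?_⟩
  · intro a ha
    rcases Finset.mem_insert.1 ha with rfl | ha
    · exact ⟨by omega, hbD⟩
    · exact hF a ha
  · intro n hn
    have nm : ∀ w, w ∈ A → w ≠ p + E → (w ≤ p ∨ β < w) →
        w ∈ A \ (↑(insert (p + E) F) : Set ℕ) := by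
      intro w hw h1 h2
      refine ⟨hw, ?_⟩
      intro hh
      rcases Finset.mem_insert.1 (Finset.mem_coe.1 hh) with h | h
      · exact h1 h
      · have := (hF w h).1
        have := hβF w h
        omega
    have one : ∀ D, β < D → D ≤ D2 → x + D ∈ A → x + D + E ∈ A → (∀ a ∈ F, a + D ∈ A) →
        ∀ u ∈ A, ∀ v ∈ A, x + D + u + v = n → v ∉ insert (p + E) F →
        Rep3 (A \ (↑(insert (p + E) F) : Set ℕ)) n := by
      intro D h1 h2 h3 h4 h5 u hu v hv hs hvn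
      have hv' : v ∈ A \ (↑(insert (p + E) F) : Set ℕ) := ⟨hv, fun hh => hvn (Finset.mem_coe.1 hh)⟩
      by_cases hun : u ∈ insert (p + E) F
      · rcases Finset.mem_insert.1 hun with rfl | huF
        · exact ⟨p, nm p hp (by omega) (Or.inl le_rfl), x + D + E, nm _ h4 (by omega) (by omega),
            v, hv', by omega⟩
        · have := hβF u huF
          exact ⟨x, nm x hx (by omega) (by omega), u + D, nm _ (h5 u huF) (by omega) (by omega),
            v, hv', by omega⟩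
      · exact ⟨x + D, nm _ h3 (by omega) (by omega), u, ⟨hu, fun hh => hun (Finset.mem_coe.1 hh)⟩,
          v, hv', hs⟩
    obtain ⟨u1, hu1, v1, hv1, e1⟩ := hA (n - (x + D1)) (by omega)
    obtain ⟨u2, hu2, v2, hv2, e2⟩ := hA (n - (x + D2)) (by omega)
    by_cases a1 : v1 ∈ insert (p + E) F
    swap
    · exact one D1 hD1 (by omega) hy1 h1E.1 hF1 u1 hu1 v1 hv1 (by omega) a1
    by_cases a2 : u1 ∈ insert (p + E) F
    swap
    · exact one D1 hD1 (by omega) hy1 h1E.1 hF1 v1 hv1 u1 hu1 (by omega) a2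
    by_cases a3 : v2 ∈ insert (p + E) F
    swap
    · exact one D2 (by omega) le_rfl hy2 h2E.1 hF2 u2 hu2 v2 hv2 (by omega) a3
    by_cases a4 : u2 ∈ insert (p + E) F
    swap
    · exact one D2 (by omega) le_rfl hy2 h2E.1 hF2 v2 hv2 u2 hu2 (by omega) a4
    exfalso
    have c : ∀ w ∈ insert (p + E) F, w = p + E ∨ w ≤ β := by
      intro w hw
      rcases Finset.mem_insert.1 hw with h | h
      · exact Or.inl h
      · exact Or.inr (hβF w h)
    rcases c _ a1 with b1 | b1 <;> rcases c _ a2 with b2 | b2 <;> rcases c _ a3 with b3 | b3 <;>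
      rcases c _ a4 with b4 | b4 <;> omega

end Pool.Agent.H59.RB
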