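import Mathlib
import Pool.Agent.H59.RB1

set_option autoImplicit false

namespace Pool.Agent.H59.RB
open Filter

noncomputable def plus (U V : Ultrafilter ℕ) : Ultrafilter ℕ :=
  U.bind fun a => V.map (fun d => a + d)

lemma ev_plus (U V : Ultrafilter ℕ) (p : ℕ → Prop) :
    (∀ᶠ m in (plus U V : Filter ℕ), p m) ↔ ∀ᶠ a in (U : Filter ℕ), ∀ᶠ d in (V : Filter ℕ), p (a + d) :=
  Iff.rfl

lemma le_top_iff (f : Filter ℕ) : f ≤ atTop ↔ ∀ M, Set.Ici M ∈ f := by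
  constructor
  · intro h M
    exact h (Filter.Ici_mem_atTop M)
  · intro h s hs
    obtain ⟨M, hM⟩ := Filter.mem_atTop_sets.1 hs
    exact Filter.mem_of_superset (h M) hM

lemma plus_assoc (U V W : Ultrafilter ℕ) : plus (plus U V) W = plus U (plus V W) := by
  apply Ultrafilter.coe_inj.1
  apply Filter.ext'
  intro p
  simp only [ev_plus, add_assoc]

lemma plus_top (U V : Ultrafilter ℕ) (hV : (V : Filter ℕ) ≤ atTop) :
    (plus U V : Filter ℕ) ≤ atTop := by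
  rw [le_top_iff]
  intro M
  have : ∀ᶠ m in (plus U V : Filter ℕ), M ≤ m := by
    rw [ev_plus]
    refine Eventually.of_forall fun a => ?_
    filter_upwards [hV (eventually_ge_atTop M)] with d hd
    have : M ≤ d := hd
    omega
  exact this

/-- finitely many translation ultrafilters covering all large elements -/
lemma cover_case {ι : Type} [Finite ι] (A : Set ℕ) (N0 X0 : ℕ)
    (hA : ∀ m, N0 ≤ m → ∃ u ∈ A, ∃ v ∈ A, u + v = m) (x0 : ℕ) (hx0 : x0 ∈ A) (hx0' : X0 ≤ x0)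
    (𝒟 : ι → Ultrafilter ℕ) (hD : ∀ i, (𝒟 i : Filter ℕ) ≤ atTop)
    (hc : ∀ x ∈ A, X0 ≤ x → ∃ i, ∀ᶠ D in (𝒟 i : Filter ℕ), x + D ∈ A) :
    ∃ B ⊆ A, B.Infinite ∧ ∃ N, ∀ n, N ≤ n → Rep3 (A \ B) n := by
  classical
  have hcol : ∀ U : Ultrafilter ℕ, (∀ᶠ x in (U : Filter ℕ), x ∈ A ∧ X0 ≤ x) →
      ∃ i, ∀ᶠ x in (U : Filter ℕ), ∀ᶠ D in (𝒟 i : Filter ℕ), x + D ∈ A := by
    intro U hU
    apply (Ultrafilter.eventually_exists_iff).1
    filter_upwards [hU] with x hx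
    exact hc x hx.1 hx.2
  have : Nonempty ι := ⟨(hc x0 hx0 hx0').choose⟩
  choose! col hcol using hcol
  let P : ℕ → Ultrafilter ℕ := fun n => Nat.rec (pure x0) (fun _ U => plus U (𝒟 (col U))) n
  have Ps : ∀ n, P (n + 1) = plus (P n) (𝒟 (col (P n))) := fun n => rfl
  have hP : ∀ n : ℕ, ∀ᶠ x in (P n).toFilter, x ∈ A ∧ X0 ≤ x := by
    intro n
    induction n with
    | zero => exact ⟨hx0, hx0'⟩
    | succ n ih =>
      rw [Ps, ev_plus]
      filter_upwards [hcol _ ih, ih] with x h1 h2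
      filter_upwards [h1] with D hD'
      exact ⟨hD', by omega⟩
  have hE : ∀ r d, ∃ E : Ultrafilter ℕ, (E : Filter ℕ) ≤ atTop ∧ P (r + d + 1) = plus (P r) E := by
    intro r d
    induction d with
    | zero => exact ⟨_, hD _, Ps r⟩
    | succ d ih =>
      obtain ⟨E, _, h2⟩ := ih
      refine ⟨plus E (𝒟 (col (P (r + d + 1)))), plus_top _ _ (hD _), ?_⟩
      rw [← plus_assoc, ← h2]
      exact Ps (r + d + 1)
  obtain ⟨r, t, hrt, hcc⟩ : ∃ r t : ℕ, r < t ∧ col (P (2 * r)) = col (P (2 * t)) := by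
    obtain ⟨r, t, h1, h2⟩ := Finite.exists_ne_map_eq_of_infinite (fun r : ℕ => col (P (2 * r)))
    rcases lt_or_gt_of_ne h1 with h | h
    · exact ⟨r, t, h, h2⟩
    · exact ⟨t, r, h, h2.symm⟩
  obtain ⟨E, hE1, hE2⟩ := hE (2 * r + 1) (2 * t - 2 * r - 2)
  rw [show 2 * r + 1 + (2 * t - 2 * r - 2) + 1 = 2 * t by omega] at hE2
  have a1 := (hP (2 * t)).and (hcol _ (hP (2 * t)))
  rw [← hcc] at a1
  generalize hi : col (P (2 * r)) = i at a1
  rw [hE2, ev_plus] at a1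
  have a2 := (hP (2 * r + 1)).and a1
  rw [Ps, ev_plus, hi] at a2
  have a3 := (hP (2 * r)).and a2
  obtain ⟨x, hx, hx'⟩ := @Filter.Eventually.exists _ _ _ (P (2 * r)).neBot' a3
  apply trans_case A N0 hA (𝒟 i) E (hD i) hE1 x hx.1
  filter_upwards [hx'] with D hD'
  refine ⟨hD'.1.1, ?_⟩
  filter_upwards [hD'.2] with e he
  exact ⟨he.1.1, he.2⟩

/-- finitely many reflection ultrafilters -/
lemma refl_case {ι : Type} [Finite ι] (A : Set ℕ) (N0 X0 : ℕ)
    (hA : ∀ m, N0 ≤ m → ∃ u ∈ A, ∃ v ∈ A, u + v = m) (x0 : ℕ) (hx0 : x0 ∈ A) (hx0' : X0 ≤ x0)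
    (𝒞 : ι → Ultrafilter ℕ) (hC : ∀ i, (𝒞 i : Filter ℕ) ≤ atTop)
    (hc : ∀ x ∈ A, X0 ≤ x → ∃ i, ∀ᶠ c in (𝒞 i : Filter ℕ), c - x ∈ A) :
    ∃ B ⊆ A, B.Infinite ∧ ∃ N, ∀ n, N ≤ n → Rep3 (A \ B) n := by
  let 𝒟 : ι × ι → Ultrafilter ℕ := fun ij => (𝒞 ij.1).bind fun c => (𝒞 ij.2).map (fun c' => c' - c)
  have ev : ∀ ij (p : ℕ → Prop), (∀ᶠ D in (𝒟 ij : Filter ℕ), p D) ↔
      ∀ᶠ c in (𝒞 ij.1 : Filter ℕ), ∀ᶠ c' in (𝒞 ij.2 : Filter ℕ), p (c' - c) := fun _ _ => Iff.rfl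
  apply cover_case A N0 X0 hA x0 hx0 hx0' 𝒟
  · intro ij
    rw [le_top_iff]
    intro M
    have : ∀ᶠ m in (𝒟 ij : Filter ℕ), M ≤ m := by
      rw [ev]
      refine Eventually.of_forall fun c => ?_
      filter_upwards [hC ij.2 (eventually_ge_atTop (M + c))] with d hd
      have : M + c ≤ d := hd
      omega
    exact this
  · intro x hx hx'
    obtain ⟨i, hi⟩ := hc x hx hx'
    have h1 : ∀ᶠ c in (𝒞 i : Filter ℕ), ∃ j, x ≤ c ∧ ∀ᶠ c' in (𝒞 j : Filter ℕ), c' - (c - x) ∈ A := by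
      filter_upwards [hi, hC i (eventually_ge_atTop (X0 + x))] with c h1 h2
      have h2' : X0 + x ≤ c := h2
      obtain ⟨j, hj⟩ := hc (c - x) h1 (by omega)
      exact ⟨j, by omega, hj⟩
    obtain ⟨j, hj⟩ := (Ultrafilter.eventually_exists_iff).1 h1
    refine ⟨(i, j), ?_⟩
    rw [ev]
    filter_upwards [hj] with c hc'
    filter_upwards [hc'.2, hC j (eventually_ge_atTop c)] with c' h1 h2
    have h2' : c ≤ c' := h2
    have := hc'.1
    rw [show x + (c' - c) = c' - (c - x) by omega]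
    exact h1

theorem order_two (A : Set ℕ) (N0 : ℕ) (hA : ∀ m, N0 ≤ m → ∃ u ∈ A, ∃ v ∈ A, u + v = m) :
    ∃ B ⊆ A, B.Infinite ∧ ∃ N, ∀ n, N ≤ n → Rep3 (A \ B) n := by
  classical
  have hunb : ∀ M, ∃ a ∈ A, M ≤ a := by
    intro M
    obtain ⟨u, hu, v, hv, h⟩ := hA (N0 + 2 * M) (by omega)
    by_cases h' : M ≤ u
    · exact ⟨u, hu, h'⟩
    · exact ⟨v, hv, by omega⟩
  obtain ⟨a0, ha0, -⟩ := hunb 0
  let Safe : Finset ℕ → Prop := fun F => ∀ n, N0 + a0 ≤ n → Rep3 (A \ (↑F : Set ℕ)) n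
  have hS0 : Safe ∅ := by
    intro n hn
    obtain ⟨u, hu, v, hv, h⟩ := hA (n - a0) (by omega)
    exact ⟨a0, by simpa using ha0, u, by simpa using hu, v, by simpa using hv, by omega⟩
  by_cases hleaf : ∀ F, Safe F → ∀ M, ∃ b ∈ A, M < b ∧ Safe (insert b F)
  · apply seq A Safe hS0
    intro F hF M
    obtain ⟨b, hb, hM, hS⟩ := hleaf F hF (M + N0 + a0)
    exact ⟨b, hb, by omega, hS, fun n hn => hS n (by omega)⟩
  push Not at hleaf
  obtain ⟨F, hF, M, hM⟩ := hleaf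
  have hn : ∀ b ∈ A, M < b → ∃ n, b ≤ n ∧ ¬ Rep3 (A \ (↑(insert b F) : Set ℕ)) n := by
    intro b hb hMb
    have := hM b hb hMb
    simp only [Safe] at this
    push Not at this
    obtain ⟨n, hn1, hn2⟩ := this
    refine ⟨n, ?_, hn2⟩
    by_contra hlt
    obtain ⟨x, hx, y, hy, z, hz, h⟩ := hF n hn1
    have key : ∀ w, w ≤ n → w ∈ A \ (↑F : Set ℕ) → w ∈ A \ (↑(insert b F) : Set ℕ) := by
      intro w hw hwA
      refine ⟨hwA.1, fun hh => ?_⟩
      rcases Finset.mem_insert.1 (Finset.mem_coe.1 hh) with h | h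
      · omega
      · exact hwA.2 h
    exact hn2 ⟨x, key x (by omega) hx, y, key y (by omega) hy, z, key z (by omega) hz, h⟩
  choose! nb hnb1 hnb2 using hn
  have hne : (atTop ⊓ 𝓟 A : Filter ℕ).NeBot := by
    rw [← Filter.frequently_mem_iff_neBot, Filter.frequently_atTop]
    intro M
    obtain ⟨a, ha, h⟩ := hunb M
    exact ⟨a, h, ha⟩
  let U : Ultrafilter ℕ := Ultrafilter.of (atTop ⊓ 𝓟 A)
  have hU : (U : Filter ℕ) ≤ atTop ⊓ 𝓟 A := Ultrafilter.of_le _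
  have hUt : (U : Filter ℕ) ≤ atTop := hU.trans inf_le_left
  have hUA : ∀ᶠ b in (U : Filter ℕ), b ∈ A := (hU.trans inf_le_right) (Filter.mem_principal_self A)
  let cen : Option F → ℕ → ℕ := fun κ b => match κ with
    | none => nb b - b
    | some f => nb b - f
  have hmain : ∀ x ∈ A, x ∉ F → ∃ κ : Option F,
      ∀ᶠ b in (U : Filter ℕ), x ≤ cen κ b ∧ cen κ b - x ∈ A := by
    intro x hx hxF
    apply (Ultrafilter.eventually_exists_iff).1
    filter_upwards [hUA, hUt (eventually_gt_atTop (M + x + N0))] with b hb hb'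
    have hb'' : M + x + N0 < b := hb'
    have h1 := hnb1 b hb (by omega)
    have h2 := hnb2 b hb (by omega)
    have one : ∀ u ∈ A, ∀ v ∈ A, u + v = nb b - x → u ∈ insert b F →
        ∃ κ : Option F, x ≤ cen κ b ∧ cen κ b - x ∈ A := by
      intro u _ v hv h hu'
      rcases Finset.mem_insert.1 hu' with h' | h'
      · refine ⟨none, ?_⟩
        simp only [cen]
        rw [show nb b - b - x = v by omega]
        exact ⟨by omega, hv⟩
      · refine ⟨some ⟨u, h'⟩, ?_⟩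
        simp only [cen]
        rw [show nb b - u - x = v by omega]
        exact ⟨by omega, hv⟩
    obtain ⟨u, hu, v, hv, h⟩ := hA (nb b - x) (by omega)
    by_cases c1 : u ∈ insert b F
    · exact one u hu v hv h c1
    by_cases c2 : v ∈ insert b F
    · exact one v hv u hu (by omega) c2
    exfalso
    refine h2 ⟨x, ⟨hx, fun hh => ?_⟩, u, ⟨hu, fun hh => c1 (Finset.mem_coe.1 hh)⟩,
      v, ⟨hv, fun hh => c2 (Finset.mem_coe.1 hh)⟩, by omega⟩
    rcases Finset.mem_insert.1 (Finset.mem_coe.1 hh) with h | h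
    · omega
    · exact hxF h
  let C : Option F → Ultrafilter ℕ := fun κ => U.map (cen κ)
  have hbd : ∀ κ, ∃ c0, ¬ ((C κ : Filter ℕ) ≤ atTop) → ∀ᶠ b in (U : Filter ℕ), cen κ b < c0 := by
    intro κ
    by_cases h : (C κ : Filter ℕ) ≤ atTop
    · exact ⟨0, fun h' => absurd h h'⟩
    · rw [le_top_iff] at h
      push Not at h
      obtain ⟨c0, h⟩ := h
      refine ⟨c0, fun _ => ?_⟩
      have h' : ¬ ∀ᶠ b in (U : Filter ℕ), c0 ≤ cen κ b := h
      rw [← Ultrafilter.eventually_not] at h'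
      filter_upwards [h'] with b hb
      omega
  choose c0 hc0 using hbd
  let X0 := F.sup id + 1 + Finset.univ.sup c0
  obtain ⟨x0, hx0, hx0'⟩ := hunb X0
  apply refl_case (ι := {κ : Option F // (C κ : Filter ℕ) ≤ atTop}) A N0 X0 hA x0 hx0 hx0'
    (fun κ => C κ.1) (fun κ => κ.2)
  intro x hx hxX
  have hxF : x ∉ F := by
    intro h
    have : x ≤ F.sup id := Finset.le_sup (f := id) h
    omega
  obtain ⟨κ, hκ⟩ := hmain x hx hxF
  have ht : (C κ : Filter ℕ) ≤ atTop := by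
    by_contra hh
    obtain ⟨b, h1, h2⟩ := (hκ.and (hc0 κ hh)).exists
    have : c0 κ ≤ Finset.univ.sup c0 := Finset.le_sup (f := c0) (Finset.mem_univ κ)
    omega
  refine ⟨⟨κ, ht⟩, ?_⟩
  have : ∀ᶠ b in (U : Filter ℕ), cen κ b - x ∈ A := hκ.mono fun b hb => hb.2
  exact this

end Pool.Agent.H59.RB
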