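import Mathlib

set_option autoImplicit false

namespace Pool.Agent.H59.RD
open Polynomial

/-- local condition: `1` generates the cokernel of the Sylvester map -/
def Good {A : Type*} [CommRing A] (m n : ℕ) (f g : A[X]) : Prop :=
  ∀ h : A[X], h.degree < ((m + n : ℕ) : WithBot ℕ) → ∃ a b : A[X], ∃ c : A,
    a.degree < (n : WithBot ℕ) ∧ b.degree < (m : WithBot ℕ) ∧ h = f * a + g * b + C c

def InN (m n : ℕ) (f g : ℤ[X]) (N : ℤ) : Prop :=
  ∃ a b : ℤ[X], a.degree < (n : WithBot ℕ) ∧ b.degree < (m : WithBot ℕ) ∧ f * a + g * b = C N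

lemma lift_deg (p : ℕ) (h : (ZMod p)[X]) :
    ∃ q : ℤ[X], q.map (Int.castRingHom (ZMod p)) = h ∧ q.degree = h.degree := by
  apply mem_lifts_and_degree_eq
  rw [mem_lifts]
  exact map_surjective _ (ZMod.ringHom_surjective _) h

lemma deg_comb {A : Type*} [CommRing A] {m n : ℕ} {f g a b : A[X]} (hf : f.natDegree ≤ m)
    (hg : g.natDegree ≤ n) (ha : a.degree < (n : WithBot ℕ)) (hb : b.degree < (m : WithBot ℕ)) :
    (f * a + g * b).degree < ((m + n : ℕ) : WithBot ℕ) := by
  have := (sylvesterMap f g hf hg (⟨b, mem_degreeLT.2 hb⟩, ⟨a, mem_degreeLT.2 ha⟩)).2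
  rw [mem_degreeLT] at this
  simpa using this

lemma good_of_int {m n : ℕ} {f g : ℤ[X]} (H : Good m n f g) (p : ℕ) :
    Good m n (f.map (Int.castRingHom (ZMod p))) (g.map (Int.castRingHom (ZMod p))) := by
  intro h hh
  obtain ⟨q, rfl, hq⟩ := lift_deg p h
  obtain ⟨a, b, c, ha, hb, e⟩ := H q (hq ▸ hh)
  refine ⟨a.map (Int.castRingHom (ZMod p)), b.map (Int.castRingHom (ZMod p)), (c : ZMod p),
    degree_map_le.trans_lt ha, degree_map_le.trans_lt hb, ?_⟩
  rw [e]; simp

lemma int_of_good {m n : ℕ} (hmn : 0 < m + n) {f g : ℤ[X]} (hf : f.natDegree ≤ m)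
    (hg : g.natDegree ≤ n) (hr : resultant f g m n ≠ 0)
    (H : ∀ p : ℕ, p.Prime →
      Good m n (f.map (Int.castRingHom (ZMod p))) (g.map (Int.castRingHom (ZMod p)))) :
    Good m n f g := by
  have hC : ∀ c : ℤ, (C c).degree < ((m + n : ℕ) : WithBot ℕ) := fun c =>
    degree_C_le.trans_lt (by exact_mod_cast hmn)
  have key : ∀ k : ℕ, k ≠ 0 → ∀ h : ℤ[X], h.degree < ((m + n : ℕ) : WithBot ℕ) →
      ∃ a b h' : ℤ[X], ∃ c : ℤ, a.degree < (n : WithBot ℕ) ∧ b.degree < (m : WithBot ℕ) ∧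
        h'.degree < ((m + n : ℕ) : WithBot ℕ) ∧ h = f * a + g * b + C c + C (k : ℤ) * h' := by
    intro k
    induction k using induction_on_primes with
    | zero => intro h; exact absurd rfl h
    | one =>
      intro _ h hh
      exact ⟨0, 0, h, 0, by simp, by simp, hh, by simp⟩
    | prime_mul p k hp ih =>
      intro hk h hh
      have hk0 : k ≠ 0 := by rintro rfl; simp at hk
      obtain ⟨a0, b0, c0, ha0, hb0, e0⟩ := H p hp (h.map (Int.castRingHom (ZMod p)))
        (degree_map_le.trans_lt hh)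
      obtain ⟨a, rfl, ha⟩ := lift_deg p a0
      obtain ⟨b, rfl, hb⟩ := lift_deg p b0
      obtain ⟨c, rfl⟩ := ZMod.intCast_surjective c0
      have hD : C (p : ℤ) ∣ h - (f * a + g * b + C c) := by
        rw [C_dvd_iff_dvd_coeff]
        intro i
        rw [← ZMod.intCast_zmod_eq_zero_iff_dvd]
        have : (h - (f * a + g * b + C c)).map (Int.castRingHom (ZMod p)) = 0 := by
          rw [Polynomial.map_sub, e0]; simp
        have h2 := congrArg (fun q => q.coeff i) this
        simpa only [coeff_map, eq_intCast, coeff_zero] using h2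
      obtain ⟨h1, e1⟩ := hD
      have hp0 : (p : ℤ) ≠ 0 := by exact_mod_cast hp.ne_zero
      have hd1 : h1.degree < ((m + n : ℕ) : WithBot ℕ) := by
        rw [← degree_C_mul (p := h1) hp0, ← e1]
        refine (degree_sub_le _ _).trans_lt (max_lt hh ?_)
        exact (degree_add_le _ _).trans_lt (max_lt (deg_comb hf hg (ha ▸ ha0) (hb ▸ hb0)) (hC c))
      obtain ⟨a', b', h', c', ha', hb', hh', e'⟩ := ih hk0 h1 hd1
      refine ⟨a + C (p : ℤ) * a', b + C (p : ℤ) * b', h', c + p * c', ?_, ?_, hh', ?_⟩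
      · exact (degree_add_le _ _).trans_lt (max_lt (ha ▸ ha0) (by rwa [degree_C_mul hp0]))
      · exact (degree_add_le _ _).trans_lt (max_lt (hb ▸ hb0) (by rwa [degree_C_mul hp0]))
      · have : h = (f * a + g * b + C c) + C (p : ℤ) * h1 := by rw [← e1]; ring
        rw [this, e']; simp only [Nat.cast_mul, map_mul, map_add]; ring
  intro h hh
  obtain ⟨a, b, h', c, ha, hb, hh', e⟩ := key (resultant f g m n).natAbs (by simpa using hr) h hh
  let Y := adjSylvester (m := m) (n := n) f g ⟨h', mem_degreeLT.2 hh'⟩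
  have hY : ((sylvesterMap f g hf hg Y)).1 = _ :=
    congrArg Subtype.val (LinearMap.congr_fun (sylveserMap_comp_adjSylvester f g hf hg)
      ⟨h', mem_degreeLT.2 hh'⟩)
  have hY' : f * Y.2 + g * Y.1 = C (resultant f g m n) * h' := by
    simpa [Algebra.smul_def] using hY
  have d2 : (Y.2 : ℤ[X]).degree < (n : WithBot ℕ) := mem_degreeLT.1 Y.2.2
  have d1 : (Y.1 : ℤ[X]).degree < (m : WithBot ℕ) := mem_degreeLT.1 Y.1.2
  rcases Int.natAbs_eq (resultant f g m n) with h1 | h1
  · refine ⟨a + Y.2, b + Y.1, c, (degree_add_le _ _).trans_lt (max_lt ha d2),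
      (degree_add_le _ _).trans_lt (max_lt hb d1), ?_⟩
    rw [e, ← h1, ← hY']; ring
  · refine ⟨a - Y.2, b - Y.1, c, (degree_sub_le _ _).trans_lt (max_lt ha d2),
      (degree_sub_le _ _).trans_lt (max_lt hb d1), ?_⟩
    have h2 : ((resultant f g m n).natAbs : ℤ) = - resultant f g m n := by omega
    rw [e, h2, map_neg, neg_mul, ← hY']; ring

lemma sInf_eq_iff {m n : ℕ} (hmn : 0 < m + n) {f g : ℤ[X]} (hf : f.natDegree ≤ m)
    (hg : g.natDegree ≤ n) (hr : resultant f g m n ≠ 0) :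
    sInf {N : ℕ | 0 < N ∧ InN m n f g N} = (resultant f g m n).natAbs ↔ Good m n f g := by
  classical
  set S := sylvesterMap f g hf hg with hS
  have hinj : Function.Injective S := by
    rw [← LinearMap.ker_eq_bot, Submodule.eq_bot_iff]
    intro x hx
    have := LinearMap.congr_fun (adjSylvester_comp_sylveserMap f g hf hg) x
    rw [LinearMap.comp_apply, ← hS, LinearMap.mem_ker.1 hx, map_zero] at this
    simp only [LinearMap.smul_apply, LinearMap.id_apply] at this
    exact (smul_eq_zero.1 this.symm).resolve_left hr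
  let b₁ := ((degreeLT.basis ℤ m).prod (degreeLT.basis ℤ n)).reindex finSumFinEquiv
  let b₂ := degreeLT.basis ℤ (m + n)
  haveI : Module.Free ℤ (degreeLT ℤ (m + n)) := Module.Free.of_basis b₂
  haveI : Module.Finite ℤ (degreeLT ℤ (m + n)) := Module.Finite.of_basis b₂
  have hcard : Nat.card (degreeLT ℤ (m + n) ⧸ LinearMap.range S) = (resultant f g m n).natAbs := by
    rw [← Submodule.natAbs_det_basis_change b₂ (LinearMap.range S)
      (b₁.map (LinearEquiv.ofInjective S hinj))]
    congr 1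
    rw [Module.Basis.det_apply, resultant, ← toMatrix_sylvesterMap' f g hf hg]
    congr 1
    ext i j
    simp [Module.Basis.toMatrix_apply, LinearMap.toMatrix_apply, b₁, b₂, hS]
  haveI : Finite (degreeLT ℤ (m + n) ⧸ LinearMap.range S) :=
    Nat.finite_of_card_ne_zero (by rw [hcard]; simpa using hr)
  have h1 : (1 : ℤ[X]) ∈ degreeLT ℤ (m + n) := by
    rw [mem_degreeLT]; exact degree_one_le.trans_lt (by exact_mod_cast hmn)
  set e : degreeLT ℤ (m + n) ⧸ LinearMap.range S := Submodule.Quotient.mk ⟨1, h1⟩ with he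
  have hN : ∀ N : ℕ, InN m n f g N ↔ N • e = 0 := by
    intro N
    rw [he, ← natCast_zsmul, ← Submodule.Quotient.mk_smul, Submodule.Quotient.mk_eq_zero,
      LinearMap.mem_range]
    constructor
    · rintro ⟨a, b, ha, hb, e1⟩
      refine ⟨(⟨b, mem_degreeLT.2 hb⟩, ⟨a, mem_degreeLT.2 ha⟩), Subtype.ext ?_⟩
      simpa [hS] using e1
    · rintro ⟨⟨b, a⟩, e1⟩
      refine ⟨a, b, mem_degreeLT.1 a.2, mem_degreeLT.1 b.2, ?_⟩
      simpa [hS] using congrArg Subtype.val e1
  have hs : sInf {N : ℕ | 0 < N ∧ InN m n f g N} = addOrderOf e := by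
    apply le_antisymm
    · exact Nat.sInf_le ⟨addOrderOf_pos e, (hN _).2 (addOrderOf_nsmul_eq_zero e)⟩
    · have := Nat.sInf_mem (s := {N : ℕ | 0 < N ∧ InN m n f g N})
        ⟨_, addOrderOf_pos e, (hN _).2 (addOrderOf_nsmul_eq_zero e)⟩
      exact addOrderOf_le_of_nsmul_eq_zero this.1 ((hN _).1 this.2)
  rw [hs, ← hcard, ← Nat.card_zmultiples, AddSubgroup.card_eq_iff_eq_top, AddSubgroup.eq_top_iff']
  constructor
  · intro H h hh
    obtain ⟨c, hc⟩ := AddSubgroup.mem_zmultiples_iff.1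
      (H (Submodule.Quotient.mk ⟨h, mem_degreeLT.2 hh⟩))
    rw [he, ← Submodule.Quotient.mk_smul, eq_comm, Submodule.Quotient.eq] at hc
    obtain ⟨⟨b, a⟩, e1⟩ := hc
    refine ⟨a, b, c, mem_degreeLT.1 a.2, mem_degreeLT.1 b.2, ?_⟩
    have := congrArg Subtype.val e1
    simp [hS] at this
    rw [this]; simp
  · intro H x
    obtain ⟨⟨h, hh⟩, rfl⟩ := Submodule.Quotient.mk_surjective _ x
    obtain ⟨a, b, c, ha, hb, e1⟩ := H h (mem_degreeLT.1 hh)
    rw [AddSubgroup.mem_zmultiples_iff]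
    refine ⟨c, ?_⟩
    rw [he, ← Submodule.Quotient.mk_smul, eq_comm, Submodule.Quotient.eq]
    refine ⟨(⟨b, mem_degreeLT.2 hb⟩, ⟨a, mem_degreeLT.2 ha⟩), Subtype.ext ?_⟩
    simp [hS, e1]

lemma bad_a {K : Type*} [Field K] {m n : ℕ} (hmn : 2 ≤ m + n) {f g : K[X]}
    (hf : f.degree < (m : WithBot ℕ)) (hg : g.degree < (n : WithBot ℕ)) : ¬ Good m n f g := by
  intro H
  obtain ⟨a, b, c, ha, hb, e⟩ := H (X ^ (m + n - 1)) (by
    rw [degree_X_pow]; exact_mod_cast (by omega : m + n - 1 < m + n))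
  have := congrArg (fun q => q.coeff (m + n - 1)) e
  simp only [coeff_X_pow_self, coeff_add] at this
  have h1 : ∀ u v : K[X], ∀ i j : ℕ, u.degree < (i : WithBot ℕ) → v.degree < (j : WithBot ℕ) →
      (u * v).coeff (i + j - 1) = 0 := by
    intro u v i j hu hv
    by_cases hu0 : u = 0
    · simp [hu0]
    by_cases hv0 : v = 0
    · simp [hv0]
    rw [← natDegree_lt_iff_degree_lt hu0] at hu
    rw [← natDegree_lt_iff_degree_lt hv0] at hv
    apply coeff_eq_zero_of_natDegree_lt
    have := natDegree_mul_le (p := u) (q := v)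
    omega
  rw [h1 f a m n hf ha, show m + n - 1 = n + m - 1 by omega, h1 g b n m hg hb,
    coeff_C_ne_zero (by omega)] at this
  simp at this

lemma bad_b {K : Type*} [Field K] {m n : ℕ} (hmn : 2 ≤ m + n) {f g h : K[X]}
    (hh : 2 ≤ h.natDegree) (hf : h ∣ f) (hg : h ∣ g) : ¬ Good m n f g := by
  intro H
  obtain ⟨a, b, c, ha, hb, e⟩ := H X (by
    rw [degree_X]; exact_mod_cast (by omega : 1 < m + n))
  have : h ∣ X - C c := by
    have : X - C c = f * a + g * b := by rw [e]; ring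
    rw [this]; exact dvd_add (hf.mul_right _) (hg.mul_right _)
  have := natDegree_le_of_dvd this (X_sub_C_ne_zero c)
  rw [natDegree_X_sub_C] at this
  omega

lemma good_aux {K : Type*} [Field K] {m n : ℕ} (hm : 1 ≤ m) {f g : K[X]}
    (hf : f.natDegree = m) (hg : g.natDegree ≤ n)
    (H : ∀ h : K[X], h ∣ f → h ∣ g → h.natDegree ≤ 1) : Good m n f g := by
  classical
  intro h hh
  have hf0 : f ≠ 0 := by rintro rfl; simp at hf; omega
  set d := EuclideanDomain.gcd f g with hd
  have hd0 : d ≠ 0 := fun h0 => hf0 (EuclideanDomain.gcd_eq_zero_iff.1 h0).1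
  have hd1 := H d (EuclideanDomain.gcd_dvd_left _ _) (EuclideanDomain.gcd_dvd_right _ _)
  have hr : (h % d).degree ≤ 0 := by
    have := EuclideanDomain.mod_lt h hd0
    have h2 : (h % d).degree < d.degree := this
    have h3 : d.degree ≤ 1 := degree_le_of_natDegree_le hd1
    have := h2.trans_le h3
    exact Nat.WithBot.lt_one_iff_le_zero.1 this
  have hc := eq_C_of_degree_le_zero hr
  set c := (h % d).coeff 0
  have hbez := EuclideanDomain.gcd_eq_gcd_ab f g
  have e1 : h = d * (h / d) + C c := by rw [← hc, EuclideanDomain.div_add_mod]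
  set b0 := EuclideanDomain.gcdB f g * (h / d)
  have e2 : b0 = f * (b0 / f) + b0 % f := (EuclideanDomain.div_add_mod _ _).symm
  have hb : (b0 % f).degree < (m : WithBot ℕ) := by
    have h2 : (b0 % f).degree < f.degree := EuclideanDomain.mod_lt b0 hf0
    rwa [degree_eq_natDegree hf0, hf] at h2
  set a := EuclideanDomain.gcdA f g * (h / d) + g * (b0 / f)
  have e3 : h = f * a + g * (b0 % f) + C c := by
    have : g * b0 = g * (f * (b0 / f) + b0 % f) := by rw [← e2]
    have h4 : d * (h / d) = f * (EuclideanDomain.gcdA f g * (h / d)) + g * b0 := by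
      conv_lhs => rw [show d * (h / d) = (f * EuclideanDomain.gcdA f g + g * EuclideanDomain.gcdB f g) * (h / d) by rw [← hbez]]
      simp only [b0]; ring
    rw [e1, h4, this]; simp only [a]; ring
  refine ⟨a, b0 % f, c, ?_, hb, e3⟩
  have h5 : (f * a).degree < ((m + n : ℕ) : WithBot ℕ) := by
    have : f * a = h - (f * 0 + g * (b0 % f)) - C c := by rw [e3]; ring
    rw [this]
    refine (degree_sub_le _ _).trans_lt (max_lt ((degree_sub_le _ _).trans_lt (max_lt hh ?_)) ?_)
    · exact deg_comb hf.le hg (by simp) hb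
    · exact degree_C_le.trans_lt (by exact_mod_cast (by omega : 0 < m + n))
  by_cases ha0 : a = 0
  · simp [ha0]
  rw [← natDegree_lt_iff_degree_lt (mul_ne_zero hf0 ha0), natDegree_mul hf0 ha0] at h5
  rw [← natDegree_lt_iff_degree_lt ha0]; omega

lemma Good.symm {A : Type*} [CommRing A] {m n : ℕ} {f g : A[X]} (H : Good m n f g) :
    Good n m g f := by
  intro h hh
  obtain ⟨a, b, c, ha, hb, e⟩ := H h (by rwa [add_comm])
  exact ⟨b, a, c, hb, ha, by rw [e]; ring⟩

lemma bad_cases {K : Type*} [Field K] {m n : ℕ} (hm : 1 ≤ m) (hn : 1 ≤ n) {f g : K[X]}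
    (hf : f.natDegree ≤ m) (hg : g.natDegree ≤ n) (H : ¬ Good m n f g) :
    (f.degree < (m : WithBot ℕ) ∧ g.degree < (n : WithBot ℕ)) ∨
      ∃ h : K[X], h.Monic ∧ 2 ≤ h.natDegree ∧ h ∣ f ∧ h ∣ g ∧ (f ≠ 0 ∨ g ≠ 0) := by
  classical
  by_contra hc
  push Not at hc
  obtain ⟨h1, h2⟩ := hc
  have key : (f ≠ 0 ∨ g ≠ 0) → ∀ h : K[X], h ∣ f → h ∣ g → h.natDegree ≤ 1 := by
    intro hne h hf' hg'
    by_contra hlt
    have h0 : h ≠ 0 := by rintro rfl; simp at hlt
    have := h2 (h * C h.leadingCoeff⁻¹) (monic_mul_leadingCoeff_inv h0)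
      (by rw [natDegree_mul_leadingCoeff_inv _ h0]; omega)
      (by rwa [IsUnit.mul_right_dvd (isUnit_C.2 (by simpa using h0))])
      (by rwa [IsUnit.mul_right_dvd (isUnit_C.2 (by simpa using h0))])
    tauto
  by_cases hfm : f.degree < (m : WithBot ℕ)
  · have hg' := h1 hfm
    have hg0 : g ≠ 0 := by rintro rfl; simp at hg'
    have : g.natDegree = n := le_antisymm hg (by
      rw [degree_eq_natDegree hg0] at hg'; exact_mod_cast hg')
    exact H (good_aux hn this hf (fun h a b => key (Or.inr hg0) h b a)).symm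
  · push Not at hfm
    have hf0 : f ≠ 0 := by rintro rfl; simp at hfm
    have : f.natDegree = m := le_antisymm hf (by
      rw [degree_eq_natDegree hf0] at hfm; exact_mod_cast hfm)
    exact H (good_aux hm this hg (key (Or.inl hf0)))

end Pool.Agent.H59.RD
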