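import Pool.Agent.H59.RD1

set_option autoImplicit false

namespace Pool.Agent.H59.RD
open Polynomial Finset

section vecs
variable {A : Type*} [CommRing A]

def ext {N : ℕ} (x : Fin N → A) (k : ℕ) : A := if h : k < N then x ⟨k, h⟩ else 0

noncomputable def fP (m : ℕ) {N : ℕ} (x : Fin N → A) : A[X] :=
  ∑ i ∈ range (m + 1), monomial i (ext x (i + 1))

noncomputable def gT (m n : ℕ) {N : ℕ} (x : Fin N → A) : A[X] :=
  ∑ j ∈ range n, monomial (j + 1) (ext x (m + 2 + j))

noncomputable def gP (m n : ℕ) {N : ℕ} (x : Fin N → A) : A[X] := gT m n x + C (ext x 0)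

def vec (m N : ℕ) (f g : A[X]) : Fin N → A := fun k =>
  if k.1 = 0 then g.coeff 0 else if k.1 ≤ m + 1 then f.coeff (k.1 - 1) else g.coeff (k.1 - m - 1)

lemma coeff_fP (m : ℕ) {N : ℕ} (x : Fin N → A) (i : ℕ) :
    (fP m x).coeff i = if i ≤ m then ext x (i + 1) else 0 := by
  simp [fP, coeff_monomial, Nat.lt_succ_iff]

lemma coeff_gT (m n : ℕ) {N : ℕ} (x : Fin N → A) (j : ℕ) :
    (gT m n x).coeff j = if j ≠ 0 ∧ j ≤ n then ext x (m + 1 + j) else 0 := by
  rcases j with _ | j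
  · simp [gT, coeff_monomial]
  · simp only [gT, finset_sum_coeff, coeff_monomial, add_left_inj, sum_ite_eq', mem_range]
    simp only [ne_eq, Nat.add_eq_zero_iff, one_ne_zero, and_false, not_false_eq_true, true_and,
      Nat.succ_le_iff]
    rw [show m + 1 + (j + 1) = m + 2 + j by ring]

lemma coeff_gP (m n : ℕ) {N : ℕ} (x : Fin N → A) (j : ℕ) :
    (gP m n x).coeff j = if j = 0 then ext x 0 else if j ≤ n then ext x (m + 1 + j) else 0 := by
  rw [gP, coeff_add, coeff_gT, coeff_C]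
  by_cases h : j = 0 <;> simp [h]

lemma natDegree_fP (m : ℕ) {N : ℕ} (x : Fin N → A) : (fP m x).natDegree ≤ m := by
  rw [natDegree_le_iff_coeff_eq_zero]; intro i hi; rw [coeff_fP, if_neg (by omega)]

lemma natDegree_gT (m n : ℕ) {N : ℕ} (x : Fin N → A) : (gT m n x).natDegree ≤ n := by
  rw [natDegree_le_iff_coeff_eq_zero]; intro i hi; rw [coeff_gT, if_neg (by omega)]

lemma natDegree_gP (m n : ℕ) {N : ℕ} (x : Fin N → A) : (gP m n x).natDegree ≤ n := by
  rw [natDegree_le_iff_coeff_eq_zero]; intro i hi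
  rw [coeff_gP, if_neg (by omega), if_neg (by omega)]

lemma vec_fP (m n : ℕ) (x : Fin (m + n + 2) → A) : vec m (m + n + 2) (fP m x) (gP m n x) = x := by
  funext k
  obtain ⟨k, hk⟩ := k
  simp only [vec, coeff_fP, coeff_gP]
  split_ifs with h1 h2 h3 h4 h5
  · subst h1; simp [ext]
  · rw [show k - 1 + 1 = k by omega]; simp [ext, hk]
  · omega
  · omega
  · rw [show m + 1 + (k - m - 1) = k by omega]; simp [ext, hk]
  · omega

lemma fP_vec (m n : ℕ) {f : A[X]} (g : A[X]) (hf : f.natDegree ≤ m) :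
    fP m (vec m (m + n + 2) f g) = f := by
  ext i
  rw [coeff_fP]
  split_ifs with h
  · simp [ext, vec, show i + 1 < m + n + 2 by omega, h]
  · exact (coeff_eq_zero_of_natDegree_lt (by omega)).symm

lemma gP_vec (m n : ℕ) (f : A[X]) {g : A[X]} (hg : g.natDegree ≤ n) :
    gP m n (vec m (m + n + 2) f g) = g := by
  ext j
  rw [coeff_gP]
  split_ifs with h h2
  · simp [ext, vec, h]
  · simp only [ext, vec, show m + 1 + j < m + n + 2 by omega, dite_true]
    rw [if_neg (by omega), if_neg (by omega)]; congr 1; omega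
  · exact (coeff_eq_zero_of_natDegree_lt (by omega)).symm

variable {B : Type*} [CommRing B]

lemma ext_map (φ : A →+* B) {N : ℕ} (x : Fin N → A) (k : ℕ) :
    ext (fun i => φ (x i)) k = φ (ext x k) := by
  unfold ext; split_ifs <;> simp

lemma fP_map (φ : A →+* B) (m : ℕ) {N : ℕ} (x : Fin N → A) :
    fP m (fun i => φ (x i)) = (fP m x).map φ := by
  ext i; rw [coeff_map, coeff_fP, coeff_fP, ext_map]; split_ifs <;> simp

lemma gT_map (φ : A →+* B) (m n : ℕ) {N : ℕ} (x : Fin N → A) :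
    gT m n (fun i => φ (x i)) = (gT m n x).map φ := by
  ext i; rw [coeff_map, coeff_gT, coeff_gT, ext_map]; split_ifs <;> simp

lemma gP_map (φ : A →+* B) (m n : ℕ) {N : ℕ} (x : Fin N → A) :
    gP m n (fun i => φ (x i)) = (gP m n x).map φ := by
  rw [gP, gP, gT_map, ext_map]; simp

end vecs

section counts
variable {K : Type*} [Field K] [Fintype K]

def D (K : Type*) [Field K] (k : ℕ) : Set K[X] := {a | a.degree < (k : WithBot ℕ)}

lemma D_card (k : ℕ) : (D K k).ncard = Fintype.card K ^ k := by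
  have : D K k = (degreeLT K k : Set K[X]) := by ext a; simp [D, mem_degreeLT]
  rw [this, ← Nat.card_coe_set_eq]
  have := Nat.card_congr (degreeLTEquiv K k).toEquiv
  rw [Nat.card_fun] at this
  simpa using this

lemma D_fin (k : ℕ) : (D K k).Finite :=
  Set.finite_of_ncard_ne_zero (by rw [D_card]; positivity)

omit [Fintype K] in
lemma mem_D {k : ℕ} {a : K[X]} : a ∈ D K k ↔ a = 0 ∨ a.natDegree < k := by
  by_cases h : a = 0
  · simp [D, h]
  · simp [D, h, natDegree_lt_iff_degree_lt h]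

omit [Fintype K] in
lemma D_mono (k : ℕ) : D K k ⊆ D K (k + 1) := by
  intro x hx
  rcases mem_D.1 hx with h | h
  · exact mem_D.2 (Or.inl h)
  · exact mem_D.2 (Or.inr (by omega))

def BadP (K : Type*) [Field K] (m n : ℕ) : Set (K[X] × K[X]) :=
  {x | x ∈ D K (m + 1) ×ˢ D K (n + 1) ∧ ¬ Good m n x.1 x.2}

def BadV (K : Type*) [Field K] (m n : ℕ) : Set (Fin (m + n + 2) → K) :=
  {z | ¬ Good m n (fP m z) (gP m n z)}

lemma BadP_fin (m n : ℕ) : (BadP K m n).Finite :=
  ((D_fin _).prod (D_fin _)).subset fun _ h => h.1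

omit [Fintype K] in
lemma BadV_card (m n : ℕ) : (BadV K m n).ncard = (BadP K m n).ncard := by
  apply Set.ncard_congr (fun z _ => (fP m z, gP m n z))
  · intro z hz
    refine ⟨⟨mem_D.2 (Or.inr ?_), mem_D.2 (Or.inr ?_)⟩, hz⟩
    · exact Nat.lt_succ_of_le (natDegree_fP m z)
    · exact Nat.lt_succ_of_le (natDegree_gP m n z)
  · intro a b _ _ h
    rw [Prod.mk.injEq] at h
    rw [← vec_fP m n a, h.1, h.2, vec_fP]
  · rintro ⟨f, g⟩ ⟨⟨hf, hg⟩, hb⟩
    have hf' : f.natDegree ≤ m := by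
      rcases mem_D.1 hf with h | h
      · simp at h; simp [h]
      · exact Nat.le_of_lt_succ h
    have hg' : g.natDegree ≤ n := by
      rcases mem_D.1 hg with h | h
      · simp at h; simp [h]
      · exact Nat.le_of_lt_succ h
    refine ⟨vec m (m + n + 2) f g, ?_, ?_⟩
    · simp only [BadV, Set.mem_setOf_eq]; rwa [fP_vec m n g hf', gP_vec m n f hg']
    · rw [fP_vec m n g hf', gP_vec m n f hg']

lemma BadP_le {m n : ℕ} (hm : 1 ≤ m) (hn : 1 ≤ n) :
    (BadP K m n).ncard ≤ (m + n + 1) * Fintype.card K ^ (m + n) := by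
  classical
  let T : ℕ → Set (K[X] × K[X]) := fun k => if k < 2 then D K m ×ˢ D K n else
    (fun y : K[X] × K[X] × K[X] => ((X ^ k + y.1) * y.2.1, (X ^ k + y.1) * y.2.2)) ''
      (D K k ×ˢ D K (m + 1 - k) ×ˢ D K (n + 1 - k))
  have hTf : ∀ k, (T k).Finite := by
    intro k; simp only [T]; split_ifs
    · exact (D_fin _).prod (D_fin _)
    · exact ((D_fin _).prod ((D_fin _).prod (D_fin _))).image _
  have hsub : BadP K m n ⊆ ⋃ k ∈ range (max m n + 1), T k := by
    rintro ⟨f, g⟩ ⟨⟨hf, hg⟩, hb⟩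
    have hf' : f.natDegree ≤ m := by
      rcases mem_D.1 hf with h | h
      · simp at h; simp [h]
      · exact Nat.le_of_lt_succ h
    have hg' : g.natDegree ≤ n := by
      rcases mem_D.1 hg with h | h
      · simp at h; simp [h]
      · exact Nat.le_of_lt_succ h
    simp only [Set.mem_iUnion]
    rcases bad_cases hm hn hf' hg' hb with h | ⟨h, hmon, h2, ⟨a, ha⟩, ⟨b, hb'⟩, hne⟩
    · exact ⟨0, by simp, by simpa [T, D] using h⟩
    · have hda : a = 0 ∨ h.natDegree + a.natDegree ≤ m := by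
        by_cases h0 : a = 0
        · exact Or.inl h0
        · right; rw [← hmon.natDegree_mul' h0, ← ha]; exact hf'
      have hdb : b = 0 ∨ h.natDegree + b.natDegree ≤ n := by
        by_cases h0 : b = 0
        · exact Or.inl h0
        · right; rw [← hmon.natDegree_mul' h0, ← hb']; exact hg'
      refine ⟨h.natDegree, ?_, ?_⟩
      · rw [mem_range]
        rcases hda with h0 | h0
        · rcases hdb with h1 | h1
          · simp [ha, hb', h0, h1] at hne
          · omega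
        · omega
      · simp only [T, if_neg (not_lt.2 h2)]
        refine ⟨(h - X ^ h.natDegree, a, b), ⟨?_, mem_D.2 ?_, mem_D.2 ?_⟩, ?_⟩
        · have := degree_sub_lt (p := h) (q := X ^ h.natDegree)
            (by rw [degree_X_pow, degree_eq_natDegree hmon.ne_zero]) hmon.ne_zero
            (by simp [hmon.leadingCoeff])
          rwa [degree_eq_natDegree hmon.ne_zero] at this
        · rcases hda with h0 | h0
          · exact Or.inl h0
          · right; dsimp only; omega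
        · rcases hdb with h0 | h0
          · exact Or.inl h0
          · right; dsimp only; omega
        · simp [ha, hb']
  have hT : ∀ k ∈ range (max m n + 1), (T k).ncard ≤ Fintype.card K ^ (m + n) := by
    intro k hk
    rw [mem_range] at hk
    simp only [T]; split_ifs with h2
    · rw [Set.ncard_prod, D_card, D_card, pow_add]
    · refine (Set.ncard_image_le ((D_fin _).prod ((D_fin _).prod (D_fin _)))).trans ?_
      rw [Set.ncard_prod, Set.ncard_prod, D_card, D_card, D_card, ← pow_add, ← pow_add]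
      exact Nat.pow_le_pow_right Fintype.card_pos (by omega)
  calc _ ≤ (⋃ k ∈ range (max m n + 1), T k).ncard :=
        Set.ncard_le_ncard hsub (Set.Finite.biUnion (finite_toSet _) fun k _ => hTf k)
    _ ≤ ∑ k ∈ range (max m n + 1), (T k).ncard := Finset.set_ncard_biUnion_le _ _
    _ ≤ ∑ k ∈ range (max m n + 1), Fintype.card K ^ (m + n) := sum_le_sum hT
    _ ≤ _ := by
        rw [sum_const, card_range, smul_eq_mul]
        exact Nat.mul_le_mul_right _ (by omega)

lemma BadP_ge (m n : ℕ) :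
    2 * Fintype.card K ^ (m + n + 4) ≤
      (BadP K (m + 2) (n + 2)).ncard + Fintype.card K ^ (m + n + 2) := by
  classical
  have hex : ∀ y : K[X] × K[X], ∃ d a b : K[X], (y.1 ≠ 0 ∨ y.2 ≠ 0) →
      d.Monic ∧ y.1 = d * a ∧ y.2 = d * b ∧ IsCoprime a b := by
    rintro ⟨u, v⟩
    by_cases h : u ≠ 0 ∨ v ≠ 0
    · have h0 : gcd u v ≠ 0 := by rw [Ne, _root_.gcd_eq_zero_iff]; tauto
      refine ⟨gcd u v, u / gcd u v, v / gcd u v, fun _ => ⟨?_, ?_, ?_, ?_⟩⟩
      · rw [← _root_.normalize_gcd]; exact monic_normalize h0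
      · exact (EuclideanDomain.mul_div_cancel' h0 (gcd_dvd_left _ _)).symm
      · exact (EuclideanDomain.mul_div_cancel' h0 (gcd_dvd_right _ _)).symm
      · exact isCoprime_div_gcd_div_gcd_of_gcd_ne_zero h0
    · exact ⟨0, 0, 0, fun h' => absurd h' h⟩
  choose d a b hd using hex
  let U : Set (K[X] × K[X]) := (D K (m + 1) ×ˢ D K (n + 1)) \ (D K m ×ˢ D K n)
  have hU0 : ∀ y ∈ U, y.1 ≠ 0 ∨ y.2 ≠ 0 := by
    rintro ⟨u, v⟩ ⟨_, h2⟩
    by_contra hc
    push Not at hc
    obtain ⟨rfl, rfl⟩ := hc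
    exact h2 ⟨mem_D.2 (Or.inl rfl), mem_D.2 (Or.inl rfl)⟩
  let hh : K[X] × (K[X] × K[X]) → K[X] := fun y => X ^ 2 * d y.2 + y.1
  have hmon : ∀ y ∈ D K 2 ×ˢ U, (hh y).Monic ∧ (hh y).natDegree = (d y.2).natDegree + 2 := by
    rintro ⟨r, y⟩ ⟨hr, hy⟩
    have hdm := (hd y (hU0 y hy)).1
    have h1 : (X ^ 2 * d y : K[X]).Monic := (monic_X_pow 2).mul hdm
    have h2 : (X ^ 2 * d y : K[X]).natDegree = (d y).natDegree + 2 := by
      rw [(monic_X_pow 2).natDegree_mul hdm, natDegree_X_pow, add_comm]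
    have h3 : r.degree < (X ^ 2 * d y : K[X]).degree := by
      rw [degree_eq_natDegree h1.ne_zero, h2]
      exact lt_of_lt_of_le hr (by exact_mod_cast Nat.le_add_left _ _)
    exact ⟨h1.add_of_left h3, by
      simp only [hh]; rw [natDegree_add_eq_left_of_degree_lt h3, h2]⟩
  let F : K[X] × (K[X] × K[X]) → K[X] × K[X] := fun y => (hh y * a y.2, hh y * b y.2)
  have hdeg : ∀ y ∈ D K 2 ×ˢ U, ∀ (c : K[X]) (k : ℕ),
      hh y * c ∈ D K (k + 2) ↔ d y.2 * c ∈ D K k := by
    intro y hy c k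
    obtain ⟨h1, h2⟩ := hmon y hy
    have hdm := (hd y.2 (hU0 y.2 hy.2)).1
    by_cases hc : c = 0
    · simp [hc, mem_D]
    · rw [mem_D, mem_D, h1.natDegree_mul' hc, hdm.natDegree_mul' hc, h2]
      simp only [mul_eq_zero, h1.ne_zero, hdm.ne_zero, hc, or_self, false_or]
      omega
  have hinj : Set.InjOn F (D K 2 ×ˢ U) := by
    intro y hy y' hy' e
    simp only [F, Prod.mk.injEq] at e
    obtain ⟨hm1, e1, e2, c1⟩ := hd y.2 (hU0 y.2 hy.2)
    obtain ⟨hm2, e1', e2', c2⟩ := hd y'.2 (hU0 y'.2 hy'.2)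
    have dv : ∀ {h h' u v u' v' : K[X]}, IsCoprime u v → h * u = h' * u' → h * v = h' * v' →
        h' ∣ h := by
      rintro h h' u v u' v' ⟨s, t, hst⟩ q1 q2
      refine ⟨s * u' + t * v', ?_⟩
      calc h = s * (h * u) + t * (h * v) := by linear_combination (-h) * hst
        _ = _ := by rw [q1, q2]; ring
    have hhe : hh y = hh y' := eq_of_monic_of_associated (hmon y hy).1 (hmon y' hy').1
      (associated_of_dvd_dvd (dv c2 e.1.symm e.2.symm) (dv c1 e.1 e.2))
    have ea : a y.2 = a y'.2 := mul_left_cancel₀ (hmon y hy).1.ne_zero (by rw [e.1, hhe])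
    have eb : b y.2 = b y'.2 := mul_left_cancel₀ (hmon y hy).1.ne_zero (by rw [e.2, hhe])
    have hr : y.1 = y'.1 ∧ d y.2 = d y'.2 := by
      have h1 : X ^ 2 * (d y.2 - d y'.2) = y'.1 - y.1 := by
        simp only [hh] at hhe; linear_combination hhe
      have h2 : (y'.1 - y.1).degree < ((2 : ℕ) : WithBot ℕ) :=
        (degree_sub_le _ _).trans_lt (max_lt hy'.1 hy.1)
      have h3 : y'.1 - y.1 = 0 := eq_zero_of_dvd_of_degree_lt ⟨_, h1.symm⟩ (by
        rwa [degree_X_pow])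
      rw [h3, mul_eq_zero] at h1
      exact ⟨(sub_eq_zero.1 h3).symm, sub_eq_zero.1 (h1.resolve_left (by simp))⟩
    exact Prod.ext hr.1 (Prod.ext (by rw [e1, e1', hr.2, ea]) (by rw [e2, e2', hr.2, eb]))
  have hUc : U.ncard + Fintype.card K ^ (m + n) = Fintype.card K ^ (m + n + 2) := by
    have := Set.ncard_diff_add_ncard_of_subset (s := D K m ×ˢ D K n)
      (t := D K (m + 1) ×ˢ D K (n + 1)) (Set.prod_mono (D_mono _) (D_mono _))
      ((D_fin _).prod (D_fin _))
    rw [Set.ncard_prod, Set.ncard_prod, D_card, D_card, D_card, D_card] at this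
    simp only [U]; rw [pow_add, this]; ring
  have hsub : (D K (m + 2) ×ˢ D K (n + 2)) ∪ F '' (D K 2 ×ˢ U) ⊆ BadP K (m + 2) (n + 2) := by
    rintro x (hx | ⟨y, hy, rfl⟩)
    · exact ⟨⟨D_mono _ hx.1, D_mono _ hx.2⟩, bad_a (by omega) hx.1 hx.2⟩
    · obtain ⟨hm1, e1, e2, c1⟩ := hd y.2 (hU0 y.2 hy.2)
      refine ⟨⟨(hdeg y hy _ (m + 1)).2 (e1 ▸ hy.2.1.1), (hdeg y hy _ (n + 1)).2 (e2 ▸ hy.2.1.2)⟩,
        bad_b (h := hh y) (by omega) (by rw [(hmon y hy).2]; omega) (dvd_mul_right _ _)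
          (dvd_mul_right _ _)⟩
  have hdis : Disjoint (D K (m + 2) ×ˢ D K (n + 2)) (F '' (D K 2 ×ˢ U)) := by
    rw [Set.disjoint_left]
    rintro x hx ⟨y, hy, rfl⟩
    obtain ⟨hm1, e1, e2, c1⟩ := hd y.2 (hU0 y.2 hy.2)
    exact hy.2.2 ⟨e1 ▸ (hdeg y hy _ m).1 hx.1, e2 ▸ (hdeg y hy _ n).1 hx.2⟩
  have hUf : U.Finite := ((D_fin _).prod (D_fin _)).subset Set.diff_subset
  have h1 := Set.ncard_le_ncard hsub (BadP_fin _ _)
  rw [Set.ncard_union_eq hdis ((D_fin _).prod (D_fin _)) (((D_fin _).prod hUf).image _),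
    hinj.ncard_image, Set.ncard_prod, Set.ncard_prod, D_card, D_card, D_card] at h1
  have h2 : Fintype.card K ^ 2 * U.ncard + Fintype.card K ^ (m + n + 2) =
      Fintype.card K ^ (m + n + 4) := by
    rw [show m + n + 4 = 2 + (m + n + 2) by ring, pow_add _ 2, ← hUc]
    rw [hUc]; nth_rewrite 2 [← hUc]; ring
  have h3 : Fintype.card K ^ (m + 2) * Fintype.card K ^ (n + 2) = Fintype.card K ^ (m + n + 4) := by
    ring
  omega

end counts

end Pool.Agent.H59.RD
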