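import Pool.Agent.H59.RD2

set_option autoImplicit false

namespace Pool.Agent.H59.RD
open Polynomial Finset Filter Topology

section univ
variable {A B : Type*} [CommRing A] [CommRing B]

noncomputable def FT (m n : ℕ) {N : ℕ} (x : Fin N → A) : A[X] :=
  resultant ((fP m x).map C) ((gT m n x).map C + C X) m n

noncomputable def Phi (m n : ℕ) {N : ℕ} (x : Fin N → A) : A :=
  resultant (FT m n x) (derivative (FT m n x)) m (m - 1)

noncomputable def Psi (m n : ℕ) {N : ℕ} (x : Fin N → A) : A :=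
  resultant (fP m x) (gP m n x) m n

lemma FT_map (φ : A →+* B) (m n : ℕ) {N : ℕ} (x : Fin N → A) :
    FT m n (fun i => φ (x i)) = (FT m n x).map φ := by
  have h : ∀ u : A[X], (u.map φ).map (C : B →+* B[X]) = (u.map C).map (mapRingHom φ) := by
    intro u; ext i : 1; simp
  have h2 := resultant_map_map ((fP m x).map C) ((gT m n x).map C + C X) m n (mapRingHom φ)
  rw [FT, FT, fP_map, gT_map, h, h]
  rw [Polynomial.map_add, Polynomial.map_C, coe_mapRingHom, Polynomial.map_X] at h2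
  exact h2

lemma Phi_map (φ : A →+* B) (m n : ℕ) {N : ℕ} (x : Fin N → A) :
    Phi m n (fun i => φ (x i)) = φ (Phi m n x) := by
  rw [Phi, Phi, FT_map, derivative_map, resultant_map_map]

lemma Psi_map (φ : A →+* B) (m n : ℕ) {N : ℕ} (x : Fin N → A) :
    Psi m n (fun i => φ (x i)) = φ (Psi m n x) := by
  rw [Psi, Psi, fP_map, gP_map, resultant_map_map]

lemma FT_update (m n : ℕ) {N : ℕ} (x : Fin (N + 1) → A) (t : A) :
    FT m n (Function.update x 0 t) = FT m n x := by
  have h : ∀ k, ext (Function.update x 0 t) (k + 1) = ext x (k + 1) := by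
    intro k; unfold ext; split_ifs with h
    · rw [Function.update_of_ne]; simp [Fin.ext_iff]
    · rfl
  have h1 : fP m (Function.update x 0 t) = fP m x := by simp only [fP, h]
  have h2 : gT m n (Function.update x 0 t) = gT m n x := by
    simp only [gT, show ∀ j, m + 2 + j = (m + 1 + j) + 1 by omega, h]
  rw [FT, FT, h1, h2]

end univ

lemma FT_eq {L : Type*} [Field L] [IsAlgClosed L] (m n : ℕ) {N : ℕ} (x : Fin N → L)
    (hf : (fP m x).natDegree = m) :
    FT m n x = C ((fP m x).leadingCoeff ^ n) *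
      ((fP m x).roots.map fun a => X + C ((gT m n x).eval a)).prod := by
  have hs : (fP m x).Splits := IsAlgClosed.splits _
  have hinj : Function.Injective (C : L →+* L[X]) := C_injective
  have h1 := resultant_eq_prod_eval ((fP m x).map C) ((gT m n x).map C + C X) n
    ((natDegree_add_le _ _).trans (max_le (natDegree_map_le.trans (natDegree_gT m n x))
      (by rw [natDegree_C]; omega))) (hs.map _)
  rw [natDegree_map_eq_of_injective hinj, hf, leadingCoeff_map_of_injective hinj,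
    ← roots_map_of_injective_of_card_eq_natDegree hinj hs.natDegree_eq_card_roots.symm,
    Multiset.map_map] at h1
  rw [FT, h1, map_pow]
  congr 2
  apply Multiset.map_congr rfl
  intro a _
  simp [eval_map, eval₂_at_apply, add_comm]

lemma big {K : Type*} [Field K] {m n N : ℕ} (hm : 1 ≤ m) (x : Fin N → K)
    (hf : (fP m x).natDegree = m) {h : K[X]} (h2 : 2 ≤ h.natDegree) (hf' : h ∣ fP m x)
    (hg' : h ∣ gP m n x) :
    Phi m n x = 0 ∧ FT m n x ≠ 0 ∧ (FT m n x).natDegree ≤ m ∧ (FT m n x).eval (ext x 0) = 0 := by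
  classical
  let L := AlgebraicClosure K
  let φ : K →+* L := algebraMap K L
  have hφ : Function.Injective φ := φ.injective
  set y : Fin N → L := fun i => φ (x i) with hy
  have hfy : (fP m y).natDegree = m := by rw [hy, fP_map, natDegree_map_eq_of_injective hφ, hf]
  have hf0 : fP m y ≠ 0 := by intro h0; rw [h0] at hfy; simp at hfy; omega
  have hF := FT_eq m n y hfy
  have hFm : FT m n y = (FT m n x).map φ := FT_map φ m n x
  have hne : FT m n y ≠ 0 := by
    rw [hF]
    refine mul_ne_zero (by simpa using fun h0 => absurd h0 hf0) (Multiset.prod_ne_zero ?_)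
    intro h0
    obtain ⟨a, _, ha⟩ := Multiset.mem_map.1 h0
    exact X_add_C_ne_zero _ ha
  have hdeg : (FT m n y).natDegree ≤ m := by
    rw [hF]
    refine (natDegree_C_mul_le _ _).trans ((natDegree_multiset_prod_le _).trans ?_)
    rw [Multiset.map_map]
    simp only [Function.comp_def, natDegree_X_add_C, Multiset.map_const', Multiset.sum_replicate,
      smul_eq_mul, mul_one]
    exact (card_roots' _).trans hfy.le
  have hdv : (X - C (ext y 0)) ^ 2 ∣ FT m n y := by
    have hh0 : h.map φ ∣ fP m y := by rw [hy, fP_map]; exact Polynomial.map_dvd φ hf'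
    have hh1 : h.map φ ∣ gP m n y := by rw [hy, gP_map]; exact Polynomial.map_dvd φ hg'
    have hle := roots.le_of_dvd hf0 hh0
    have hc : 2 ≤ Multiset.card (h.map φ).roots := by
      rw [← (IsAlgClosed.splits (h.map φ)).natDegree_eq_card_roots,
        natDegree_map_eq_of_injective hφ]; exact h2
    rw [hF]
    refine Dvd.dvd.mul_left ((pow_dvd_pow _ hc).trans ?_) _
    refine dvd_trans ?_ (Multiset.prod_dvd_prod_of_le (Multiset.map_le_map hle))
    rw [Multiset.map_congr rfl (g := fun _ => X - C (ext y 0)), Multiset.map_const',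
      Multiset.prod_replicate]
    intro a ha
    have h3 : (gP m n y).eval a = 0 := (isRoot_of_mem_roots ha).dvd hh1
    rw [gP, eval_add, eval_C] at h3
    rw [eq_neg_of_add_eq_zero_left h3, map_neg, sub_eq_add_neg]
  obtain ⟨w, hw⟩ := hdv
  have e1 : (FT m n y).eval (ext y 0) = 0 := by rw [hw]; simp
  have e2 : (derivative (FT m n y)).eval (ext y 0) = 0 := by rw [hw]; simp [derivative_pow]
  refine ⟨hφ ?_, fun h0 => hne (by rw [hFm, h0]; simp), ?_, hφ ?_⟩
  · rw [← Phi_map, map_zero]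
    obtain ⟨a, b, -, -, e⟩ := exists_mul_add_mul_eq_C_resultant (m := m) (n := m - 1) (FT m n y)
      (derivative (FT m n y)) hdeg ((natDegree_derivative_le _).trans (by omega))
      (Or.inl (by omega))
    have := congrArg (eval (ext y 0)) e
    rw [eval_add, eval_mul, eval_mul, e1, e2, eval_C] at this
    rw [Phi, ← this]; simp
  · rwa [hFm, natDegree_map_eq_of_injective hφ] at hdeg
  · rw [hFm, hy, ext_map, eval_map, eval₂_at_apply] at e1
    rw [e1, map_zero]

noncomputable def PhiU (m n : ℕ) : MvPolynomial (Fin (m + n + 2)) ℤ :=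
  Phi m n fun i => MvPolynomial.X i

noncomputable def PsiU (m n : ℕ) : MvPolynomial (Fin (m + n + 2)) ℤ :=
  Psi m n fun i => MvPolynomial.X i

lemma eval_PhiU (m n : ℕ) (x : Fin (m + n + 2) → ℤ) :
    MvPolynomial.eval x (PhiU m n) = Phi m n x := by
  rw [PhiU, ← Phi_map]; simp

lemma eval_PsiU (m n : ℕ) (x : Fin (m + n + 2) → ℤ) :
    MvPolynomial.eval x (PsiU m n) = Psi m n x := by
  rw [PsiU, ← Psi_map]; simp

lemma PhiU_ne {m n : ℕ} (hm : 1 ≤ m) (hn : 1 ≤ n) : PhiU m n ≠ 0 := by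
  intro h0
  set x : Fin (m + n + 2) → ℂ := vec m (m + n + 2) (X ^ m - C 1) (-X) with hx
  have h1 : Phi m n x = 0 := by
    have := Phi_map (MvPolynomial.eval₂Hom (Int.castRingHom ℂ) x) m n
      (fun i : Fin (m + n + 2) => MvPolynomial.X i)
    rw [← PhiU, h0, map_zero] at this
    simpa using this
  have hd : (X ^ m - C 1 : ℂ[X]).natDegree = m := natDegree_X_pow_sub_C
  have hf : fP m x = X ^ m - C 1 := fP_vec m n _ hd.le
  have hg : gP m n x = -X := gP_vec m n _ (by simpa using hn)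
  have h3 : ext x 0 = 0 := by simp [ext, hx, vec]
  rw [gP, h3, map_zero, add_zero] at hg
  have hmon : (X ^ m - C 1 : ℂ[X]).Monic := monic_X_pow_sub_C _ (by omega)
  have hF : FT m n x = X ^ m - C 1 := by
    rw [FT_eq m n x (by rw [hf, hd]), hf, hg, hmon.leadingCoeff, one_pow]
    rw [show ∀ u : ℂ[X], C 1 * u = u from fun u => by simp]
    conv_rhs => rw [(IsAlgClosed.splits (X ^ m - C 1 : ℂ[X])).eq_prod_roots_of_monic hmon]
    congr 1
    apply Multiset.map_congr rfl
    intro a _; simp [sub_eq_add_neg]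
  have hsep : (X ^ m - C 1 : ℂ[X]).Separable :=
    separable_X_pow_sub_C 1 (by exact_mod_cast (by omega : m ≠ 0)) one_ne_zero
  have := resultant_ne_zero _ _ hsep
  rw [natDegree_derivative, hd] at this
  rw [Phi, hF] at h1
  exact this h1

lemma PsiU_ne {m n : ℕ} (hm : 1 ≤ m) : PsiU m n ≠ 0 := by
  intro h0
  set x : Fin (m + n + 2) → ℂ := vec m (m + n + 2) (X ^ m - C 1) (X ^ n) with hx
  have h1 : Psi m n x = 0 := by
    have := Psi_map (MvPolynomial.eval₂Hom (Int.castRingHom ℂ) x) m n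
      (fun i : Fin (m + n + 2) => MvPolynomial.X i)
    rw [← PsiU, h0, map_zero] at this
    simpa using this
  have hd : (X ^ m - C 1 : ℂ[X]).natDegree = m := natDegree_X_pow_sub_C
  have hf : fP m x = X ^ m - C 1 := fP_vec m n _ hd.le
  have hg : gP m n x = X ^ n := gP_vec m n _ (by simp)
  have hc : IsCoprime (X ^ m - C 1 : ℂ[X]) (X ^ n) := by
    apply IsCoprime.pow_right
    refine ⟨-1, X ^ (m - 1), ?_⟩
    rw [← pow_succ, show m - 1 + 1 = m by omega]; simp
  have := resultant_ne_zero _ _ hc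
  rw [hd, natDegree_X_pow] at this
  rw [Psi, hf, hg] at h1
  exact this h1

lemma size {N : ℕ} (P : MvPolynomial (Fin N) ℤ) : ∃ c d : ℕ, ∀ H : ℕ, 1 ≤ H →
    ∀ x : Fin N → ℤ, (∀ i, |x i| ≤ H) → |MvPolynomial.eval x P| ≤ c * (H : ℤ) ^ d := by
  induction P using MvPolynomial.induction_on with
  | C a => exact ⟨a.natAbs, 0, fun H _ x _ => by simp⟩
  | add p q hp hq =>
    obtain ⟨c, d, h⟩ := hp
    obtain ⟨c', d', h'⟩ := hq
    refine ⟨c + c', d + d', fun H hH x hx => ?_⟩
    have h1 : (1 : ℤ) ≤ H := by exact_mod_cast hH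
    have h2 : (H : ℤ) ^ d ≤ H ^ (d + d') := pow_le_pow_right₀ h1 (by omega)
    have h3 : (H : ℤ) ^ d' ≤ H ^ (d + d') := pow_le_pow_right₀ h1 (by omega)
    rw [map_add]
    refine (abs_add_le _ _).trans ((add_le_add (h H hH x hx) (h' H hH x hx)).trans ?_)
    push_cast; rw [add_mul]; gcongr
  | mul_X p i hp =>
    obtain ⟨c, d, h⟩ := hp
    refine ⟨c, d + 1, fun H hH x hx => ?_⟩
    rw [map_mul, MvPolynomial.eval_X, abs_mul, pow_succ, ← mul_assoc]
    exact mul_le_mul (h H hH x hx) (hx i) (abs_nonneg _) (by positivity)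

lemma few_primes {z : ℤ} (hz : z ≠ 0) {c d H : ℕ} (hH : 2 ≤ H) (hc : c ≤ H)
    (hb : |z| ≤ c * (H : ℤ) ^ d) : #{p ∈ z.natAbs.primeFactors | H < p} ≤ d + 1 := by
  have h1 : H ^ #{p ∈ z.natAbs.primeFactors | H < p} ≤
      ∏ p ∈ {p ∈ z.natAbs.primeFactors | H < p}, p :=
    pow_card_le_prod _ _ _ fun p hp => (mem_filter.1 hp).2.le
  have h2 : ∏ p ∈ {p ∈ z.natAbs.primeFactors | H < p}, p ≤ z.natAbs :=
    Nat.le_of_dvd (Int.natAbs_pos.2 hz)
      ((prod_dvd_prod_of_subset _ _ _ (filter_subset _ _)).trans (Nat.prod_primeFactors_dvd _))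
  have h3 : z.natAbs ≤ H ^ (d + 1) := by
    have : (z.natAbs : ℤ) ≤ (H : ℤ) ^ (d + 1) := by
      rw [Int.natCast_natAbs, pow_succ']
      exact hb.trans (by gcongr)
    exact_mod_cast this
  exact (Nat.pow_le_pow_iff_right (by omega)).1 (h1.trans (h2.trans h3))

lemma cnt (a b : ℤ) (hab : a ≤ b) (Q : ℕ) [NeZero Q] (r : ZMod Q) :
    |(#((Ioc a b).filter fun t : ℤ => (t : ZMod Q) = r) : ℝ) - (#(Ioc a b) : ℝ) / Q| ≤ 1 := by
  obtain ⟨v, rfl⟩ := ZMod.intCast_surjective r
  have hQ : (0 : ℤ) < Q := by exact_mod_cast Nat.pos_of_ne_zero (NeZero.ne Q)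
  have h := Int.Ioc_filter_modEq_card a b hQ v
  simp only [← ZMod.intCast_eq_intCast_iff] at h
  have hQ' : (0 : ℚ) < ((Q : ℤ) : ℚ) := by exact_mod_cast hQ
  have hm : ⌊((a : ℚ) - v) / ((Q : ℤ) : ℚ)⌋ ≤ ⌊((b : ℚ) - v) / ((Q : ℤ) : ℚ)⌋ := by
    apply Int.floor_le_floor; gcongr
  rw [max_eq_left (by omega)] at h
  have h1 : (#((Ioc a b).filter fun t : ℤ => (t : ZMod Q) = v) : ℚ) = ⌊((b : ℚ) - v) / ((Q : ℤ) : ℚ)⌋ -
      ⌊((a : ℚ) - v) / ((Q : ℤ) : ℚ)⌋ := by exact_mod_cast h
  have h2 : (#(Ioc a b) : ℚ) = b - a := by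
    rw [Int.card_Ioc]
    have : ((b - a).toNat : ℤ) = b - a := Int.toNat_of_nonneg (by omega)
    exact_mod_cast this
  have h3 : |(#((Ioc a b).filter fun t : ℤ => (t : ZMod Q) = v) : ℚ) - (#(Ioc a b) : ℚ) / Q| ≤ 1 := by
    rw [h1, h2]
    have e : ((b : ℚ) - a) / Q = (b - v) / ((Q : ℤ) : ℚ) - (a - v) / ((Q : ℤ) : ℚ) := by
      push_cast; ring
    rw [e, abs_le]
    have := Int.floor_le (((b : ℚ) - v) / ((Q : ℤ) : ℚ))
    have := Int.lt_floor_add_one (((b : ℚ) - v) / ((Q : ℤ) : ℚ))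
    have := Int.floor_le (((a : ℚ) - v) / ((Q : ℤ) : ℚ))
    have := Int.lt_floor_add_one (((a : ℚ) - v) / ((Q : ℤ) : ℚ))
    constructor <;> linarith
  have h4 := (Rat.cast_le (K := ℝ)).2 h3
  push_cast at h4
  exact h4

open Classical in
lemma card_cast {N : ℕ} (J : Fin N → Finset ℤ) (Q : ℕ) [NeZero Q] (S : Set (Fin N → ZMod Q)) :
    #{x ∈ Fintype.piFinset J | (fun i => (x i : ZMod Q)) ∈ S} =
      ∑ z ∈ S.toFinset, ∏ i, #((J i).filter fun t : ℤ => (t : ZMod Q) = z i) := by
  rw [card_eq_sum_card_fiberwise (f := fun x i => (x i : ZMod Q)) (t := S.toFinset)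
    (fun x hx => by simpa using (mem_filter.1 hx).2)]
  refine sum_congr rfl fun z hz => ?_
  rw [← Fintype.card_piFinset]
  refine congrArg Finset.card ?_
  ext x
  simp only [mem_filter, Fintype.mem_piFinset, funext_iff]
  constructor
  · rintro ⟨⟨h1, _⟩, h3⟩ i; exact ⟨h1 i, h3 i⟩
  · intro h
    refine ⟨⟨fun i => (h i).1, ?_⟩, fun i => (h i).2⟩
    rw [show (fun i => (x i : ZMod Q)) = z from funext fun i => (h i).2]
    simpa using hz

end Pool.Agent.H59.RD
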