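import Pool.Agent.H59.RD3

set_option autoImplicit false

namespace Pool.Agent.H59.RD
open Polynomial Finset Filter Topology

noncomputable def I (m n H : ℕ) (k : Fin (m + n + 2)) : Finset ℤ :=
  Ioc (if k.1 = m + 1 ∨ k.1 = m + n + 1 then 0 else -(H : ℤ) - 1) H

noncomputable def box (m n H : ℕ) : Finset (Fin (m + n + 2) → ℤ) := Fintype.piFinset (I m n H)

def GP (m n p : ℕ) (x : Fin (m + n + 2) → ℤ) : Prop :=
  Good m n (fP m fun i => (x i : ZMod p)) (gP m n fun i => (x i : ZMod p))

open Classical in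
noncomputable def dens (m n H : ℕ) (P : (Fin (m + n + 2) → ℤ) → Prop) : ℝ :=
  (#((box m n H).filter P) : ℝ) / #(box m n H)

variable {m n : ℕ}

lemma dens_eq (H : ℕ) (P : (Fin (m + n + 2) → ℤ) → Prop) [DecidablePred P] :
    dens m n H P = (#((box m n H).filter P) : ℝ) / #(box m n H) := by
  unfold dens; congr

lemma I_ge (H : ℕ) (k : Fin (m + n + 2)) : H ≤ #(I m n H k) := by
  rw [I, Int.card_Ioc]; split_ifs <;> omega

lemma I_abs {H : ℕ} {k : Fin (m + n + 2)} {t : ℤ} (h : t ∈ I m n H k) : |t| ≤ H := by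
  rw [I, mem_Ioc] at h; rw [abs_le]; split_ifs at h <;> omega

lemma box_card (H : ℕ) : (#(box m n H) : ℝ) = ∏ i, (#(I m n H i) : ℝ) := by
  rw [box, Fintype.card_piFinset]; push_cast; rfl

lemma box_pos {H : ℕ} (hH : 1 ≤ H) : (0 : ℝ) < #(box m n H) := by
  rw [box_card]
  exact prod_pos fun i _ => by exact_mod_cast lt_of_lt_of_le hH (I_ge H i)

lemma dens_nonneg (H : ℕ) (P : (Fin (m + n + 2) → ℤ) → Prop) : 0 ≤ dens m n H P := by
  unfold dens; positivity

lemma dens_mono {H : ℕ} {P Q : (Fin (m + n + 2) → ℤ) → Prop}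
    (h : ∀ x ∈ box m n H, P x → Q x) : dens m n H P ≤ dens m n H Q := by
  classical
  unfold dens
  refine div_le_div_of_nonneg_right (Nat.cast_le.2 (card_le_card ?_)) (Nat.cast_nonneg _)
  intro x hx
  rw [mem_filter] at hx ⊢
  exact ⟨hx.1, h x hx.1 hx.2⟩

lemma dens_or (H : ℕ) (P Q : (Fin (m + n + 2) → ℤ) → Prop) :
    dens m n H (fun x => P x ∨ Q x) ≤ dens m n H P + dens m n H Q := by
  classical
  unfold dens
  rw [← add_div]
  gcongr
  norm_cast
  refine le_trans (card_le_card ?_) (card_union_le _ _)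
  intro x hx
  simp only [mem_filter, mem_union] at hx ⊢
  tauto

lemma dens_not {H : ℕ} (hH : 1 ≤ H) (P : (Fin (m + n + 2) → ℤ) → Prop) :
    dens m n H (fun x => ¬ P x) = 1 - dens m n H P := by
  classical
  have h0 := box_pos (m := m) (n := n) hH
  have h := card_filter_add_card_filter_not (s := box m n H) P
  have h' : (#((box m n H).filter P) : ℝ) + #((box m n H).filter fun x => ¬ P x) =
    #(box m n H) := by exact_mod_cast h
  rw [dens_eq, dens_eq, eq_sub_iff_add_eq, ← add_div, div_eq_one_iff_eq h0.ne', add_comm]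
  exact h'

lemma dens_cast (H Q : ℕ) [NeZero Q] (S : Set (Fin (m + n + 2) → ZMod Q)) :
    dens m n H (fun x => (fun i => (x i : ZMod Q)) ∈ S) = ∑ z ∈ (Set.toFinite S).toFinset,
      ∏ i, (#((I m n H i).filter fun t : ℤ => (t : ZMod Q) = z i) : ℝ) / #(I m n H i) := by
  classical
  have h := card_cast (I m n H) Q S
  have h2 : (Set.toFinite S).toFinset = S.toFinset := Set.toFinite_toFinset S
  simp only [prod_div_distrib]
  rw [dens_eq, ← sum_div, box_card, h2]
  congr 1
  have h3 := congrArg (Nat.cast : ℕ → ℝ) h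
  push_cast at h3
  exact h3

lemma cntI (H Q : ℕ) [NeZero Q] (i : Fin (m + n + 2)) (r : ZMod Q) :
    |(#((I m n H i).filter fun t : ℤ => (t : ZMod Q) = r) : ℝ) - (#(I m n H i) : ℝ) / Q| ≤ 1 :=
  cnt _ _ (by split_ifs <;> omega) Q r

lemma dens_cast_tendsto (Q : ℕ) [NeZero Q] (S : Set (Fin (m + n + 2) → ZMod Q)) :
    Tendsto (fun H => dens m n H (fun x => (fun i => (x i : ZMod Q)) ∈ S)) atTop
      (𝓝 (S.ncard * (1 / Q : ℝ) ^ (m + n + 2))) := by
  simp only [dens_cast]
  have : (S.ncard * (1 / Q : ℝ) ^ (m + n + 2)) =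
      ∑ z ∈ (Set.toFinite S).toFinset, ∏ i : Fin (m + n + 2), (1 / Q : ℝ) := by
    rw [Set.ncard_eq_toFinset_card S (Set.toFinite S)]; simp
  rw [this]
  refine tendsto_finset_sum _ fun z _ => tendsto_finset_prod _ fun i _ => ?_
  rw [tendsto_iff_norm_sub_tendsto_zero]
  refine squeeze_zero' (Eventually.of_forall fun _ => norm_nonneg _) ?_
    tendsto_one_div_atTop_nhds_zero_nat
  filter_upwards [eventually_ge_atTop 1] with H hH
  have h1 := cntI (m := m) (n := n) H Q i (z i)
  have h2 : (H : ℝ) ≤ #(I m n H i) := by exact_mod_cast I_ge H i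
  have h3 : (0 : ℝ) < H := by exact_mod_cast hH
  have h4 : (0 : ℝ) < #(I m n H i) := by linarith
  have e : ∀ c : ℝ, c / #(I m n H i) - 1 / Q = (c - #(I m n H i) / Q) / #(I m n H i) := by
    intro c; field_simp
  rw [Real.norm_eq_abs, e, abs_div, abs_of_pos h4]
  gcongr

lemma dens_cast_le {H Q : ℕ} [NeZero Q] (hQ : Q ≤ H) (S : Set (Fin (m + n + 2) → ZMod Q)) :
    dens m n H (fun x => (fun i => (x i : ZMod Q)) ∈ S) ≤ S.ncard * (2 / Q : ℝ) ^ (m + n + 2) := by
  rw [dens_cast]
  have : (S.ncard * (2 / Q : ℝ) ^ (m + n + 2)) =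
      ∑ z ∈ (Set.toFinite S).toFinset, ∏ i : Fin (m + n + 2), (2 / Q : ℝ) := by
    rw [Set.ncard_eq_toFinset_card S (Set.toFinite S)]; simp [div_pow]
  rw [this]
  refine sum_le_sum fun z _ => prod_le_prod (fun i _ => by positivity) fun i _ => ?_
  have h1 := (abs_le.1 (cntI (m := m) (n := n) H Q i (z i))).2
  have h2 : (Q : ℝ) ≤ #(I m n H i) := by exact_mod_cast hQ.trans (I_ge H i)
  have h3 : (0 : ℝ) < Q := by exact_mod_cast Nat.pos_of_ne_zero (NeZero.ne Q)
  have h4 : (1 : ℝ) ≤ #(I m n H i) / Q := by rwa [le_div_iff₀ h3, one_mul]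
  rw [div_le_iff₀ (by linarith)]
  have : (2 / Q : ℝ) * #(I m n H i) = 2 * (#(I m n H i) / Q) := by ring
  linarith

lemma dens_zero {P : MvPolynomial (Fin (m + n + 2)) ℤ} (hP : P ≠ 0) :
    Tendsto (fun H => dens m n H (fun x => MvPolynomial.eval x P = 0)) atTop (𝓝 0) := by
  have h0 : Tendsto (fun H : ℕ => (∑ i, (P.degreeOf i : ℝ)) / H) atTop (𝓝 0) :=
    tendsto_const_div_atTop_nhds_zero_nat _
  refine squeeze_zero' (Eventually.of_forall fun _ => dens_nonneg _ _) ?_ h0
  filter_upwards [eventually_ge_atTop 1] with H hH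
  have h := (NNRat.cast_le (K := ℝ)).2 (MvPolynomial.schwartz_zippel_sum_degreeOf hP (I m n H))
  push_cast at h
  unfold dens
  rw [box_card, sum_div]
  refine le_trans (le_of_eq ?_) (h.trans (sum_le_sum fun i _ => ?_))
  · congr
  · have h2 : (H : ℝ) ≤ #(I m n H i) := by exact_mod_cast I_ge H i
    have h3 : (0 : ℝ) < H := by exact_mod_cast hH
    gcongr

lemma mid (hm : 1 ≤ m) (hn : 1 ≤ n) {M : ℕ} (hM : 1 ≤ M) (H : ℕ) :
    dens m n H (fun x => ∃ p : ℕ, p.Prime ∧ M < p ∧ p ≤ H ∧ ¬ GP m n p x) ≤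
      (m + n + 1) * 2 ^ (m + n + 2) / M := by
  classical
  have h1 : ∀ s : Finset ℕ, dens m n H (fun x => ∃ p ∈ s, p.Prime ∧ ¬ GP m n p x) ≤
      ∑ p ∈ s, dens m n H (fun x => p.Prime ∧ ¬ GP m n p x) := by
    intro s
    induction s using Finset.induction_on with
    | empty => simp [dens]
    | insert a s ha ih =>
      rw [sum_insert ha]
      refine le_trans (dens_mono ?_) ((dens_or H _ _).trans (add_le_add le_rfl ih))
      intro x _ hx
      simpa using hx
  have h2 : ∀ p ∈ Ioc M H, dens m n H (fun x => p.Prime ∧ ¬ GP m n p x) ≤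
      (m + n + 1) * 2 ^ (m + n + 2) * ((p : ℝ) ^ 2)⁻¹ := by
    intro p hp
    by_cases hpp : p.Prime
    · haveI := Fact.mk hpp
      refine le_trans (dens_mono (fun x _ hx => hx.2))
        ((dens_cast_le (mem_Ioc.1 hp).2 (BadV (ZMod p) m n)).trans ?_)
      have h3 := BadP_le (K := ZMod p) hm hn
      rw [← BadV_card, ZMod.card] at h3
      have h4 : ((BadV (ZMod p) m n).ncard : ℝ) ≤ (m + n + 1) * (p : ℝ) ^ (m + n) := by
        exact_mod_cast h3
      have h5 : (0 : ℝ) < p := by exact_mod_cast hpp.pos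
      refine (mul_le_mul_of_nonneg_right h4 (by positivity)).trans (le_of_eq ?_)
      rw [div_pow]; field_simp; ring
    · simp only [hpp, false_and, dens, filter_false, card_empty]
      simp only [Nat.cast_zero, zero_div]; positivity
  refine le_trans (dens_mono ?_) ((h1 (Ioc M H)).trans ((sum_le_sum h2).trans ?_))
  · rintro x _ ⟨p, a, b, c, d⟩
    exact ⟨p, mem_Ioc.2 ⟨b, c⟩, a, d⟩
  · rw [← mul_sum, div_eq_mul_inv]
    gcongr
    by_cases h : M ≤ H
    · refine (sum_Ioc_inv_sq_le_sub (by omega) h).trans ?_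
      have : (0 : ℝ) ≤ (H : ℝ)⁻¹ := by positivity
      linarith
    · rw [Ioc_eq_empty (by omega)]; simp

lemma root_cnt {H p : ℕ} (hp : p.Prime) (hH : H < p) (G : (ZMod p)[X]) (k : Fin (m + n + 2))
    [DecidablePred fun t : ℤ => G ≠ 0 ∧ G.natDegree ≤ m ∧ G.eval (t : ZMod p) = 0] :
    #((I m n H k).filter fun t : ℤ => G ≠ 0 ∧ G.natDegree ≤ m ∧ G.eval (t : ZMod p) = 0) ≤
      m * 3 := by
  classical
  haveI := Fact.mk hp
  by_cases h : G ≠ 0 ∧ G.natDegree ≤ m
  · refine le_trans (card_le_card (t := G.roots.toFinset.biUnion fun r =>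
      (I m n H k).filter fun t : ℤ => (t : ZMod p) = r) ?_) (card_biUnion_le.trans ?_)
    · intro t ht
      rw [mem_filter] at ht
      simp only [mem_biUnion, mem_filter, Multiset.mem_toFinset]
      exact ⟨t, (mem_roots h.1).2 ht.2.2.2, ht.1, rfl⟩
    · refine (sum_le_card_nsmul _ _ 3 fun r _ => ?_).trans ?_
      · have h1 := (abs_le.1 (cntI (m := m) (n := n) H p k r)).2
        have h2 : #(I m n H k) ≤ 2 * p := by rw [I, Int.card_Ioc]; split_ifs <;> omega
        have h3 : (#(I m n H k) : ℝ) / p ≤ 2 := by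
          rw [div_le_iff₀ (by exact_mod_cast hp.pos)]; exact_mod_cast h2
        have : (#((I m n H k).filter fun t : ℤ => (t : ZMod p) = r) : ℝ) ≤ 3 := by linarith
        exact_mod_cast this
      · rw [smul_eq_mul]
        exact Nat.mul_le_mul_right _ ((Multiset.toFinset_card_le _).trans
          ((card_roots' _).trans h.2))
  · rw [filter_false_of_mem (fun t _ ht => h ⟨ht.1, ht.2.1⟩)]; simp

lemma large (hm : 1 ≤ m) (hn : 1 ≤ n) :
    Tendsto (fun H => dens m n H (fun x => ∃ p : ℕ, p.Prime ∧ H < p ∧ ¬ GP m n p x)) atTop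
      (𝓝 0) := by
  classical
  obtain ⟨c, d, hcd⟩ := size (PhiU m n)
  have h0 := (dens_zero (PhiU_ne hm hn)).add
    (tendsto_const_div_atTop_nhds_zero_nat (((d + 1) * (m * 3) : ℕ) : ℝ))
  rw [add_zero] at h0
  refine squeeze_zero' (Eventually.of_forall fun _ => dens_nonneg _ _) ?_ h0
  filter_upwards [eventually_ge_atTop 2, eventually_ge_atTop c] with H hH hc
  let R : (Fin (m + n + 2) → ℤ) → ℕ → ℤ → Prop := fun x p t =>
    FT m n (fun i => (x i : ZMod p)) ≠ 0 ∧ (FT m n (fun i => (x i : ZMod p))).natDegree ≤ m ∧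
      (FT m n (fun i => (x i : ZMod p))).eval (t : ZMod p) = 0
  let W : (Fin (m + n + 2) → ℤ) → Prop := fun x => Phi m n x ≠ 0 ∧
    ∃ p ∈ {p ∈ (Phi m n x).natAbs.primeFactors | H < p}, R x p (x 0)
  refine le_trans (dens_mono (Q := fun x => MvPolynomial.eval x (PhiU m n) = 0 ∨ W x) ?_)
    ((dens_or H _ _).trans (add_le_add le_rfl ?_))
  · rintro x hx ⟨p, hp, hHp, hb⟩
    rw [eval_PhiU]
    by_cases hz : Phi m n x = 0
    · exact Or.inl hz
    right
    haveI := Fact.mk hp
    have hx1 := Fintype.mem_piFinset.1 hx ⟨m + 1, by omega⟩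
    simp only [I, true_or, if_true, mem_Ioc] at hx1
    have hlc : (fP m fun i => (x i : ZMod p)).coeff m ≠ 0 := by
      rw [coeff_fP, if_pos le_rfl, ext, dif_pos (by omega), Ne,
        ZMod.intCast_zmod_eq_zero_iff_dvd]
      intro hd
      have := Int.le_of_dvd hx1.1 hd
      omega
    have hf : (fP m fun i => (x i : ZMod p)).natDegree = m :=
      le_antisymm (natDegree_fP _ _) (le_natDegree_of_ne_zero hlc)
    rcases bad_cases hm hn (natDegree_fP _ _) (natDegree_gP _ _ _) hb with h | ⟨h, -, h2, h3, h4, -⟩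
    · exact absurd (coeff_eq_zero_of_degree_lt h.1) hlc
    obtain ⟨a1, a2, a3, a4⟩ := big hm _ hf h2 h3 h4
    refine ⟨hz, p, mem_filter.2 ⟨Nat.mem_primeFactors.2 ⟨hp, ?_, by simpa using hz⟩, hHp⟩,
      a2, a3, by simpa [ext] using a4⟩
    rw [← Int.natCast_dvd, ← ZMod.intCast_zmod_eq_zero_iff_dvd, ← a1]
    exact (Phi_map (Int.castRingHom (ZMod p)) m n x).symm
  · have hH1 : 1 ≤ H := by omega
    have hb := box_pos (m := m) (n := n) hH1
    have hH0 : (0 : ℝ) < H := by exact_mod_cast hH1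
    rw [dens_eq, div_le_div_iff₀ hb hH0]
    have hu : ∀ (x : Fin (m + n + 2) → ℤ) (p : ℕ) (t : ℤ),
        FT m n (fun i => (Function.update x 0 t i : ZMod p)) = FT m n (fun i => (x i : ZMod p)) := by
      intro x p t
      rw [← FT_update m n (fun i => (x i : ZMod p)) (t : ZMod p)]
      congr 1
      funext i
      by_cases hi : i = 0
      · subst hi; simp
      · simp [Function.update_of_ne hi]
    have hu2 : ∀ (x : Fin (m + n + 2) → ℤ) (t : ℤ), Phi m n (Function.update x 0 t) = Phi m n x := by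
      intro x t; rw [Phi, Phi, FT_update]
    have h1 := card_le_mul_card_image (f := fun x => Function.update x 0 0)
      ((box m n H).filter W) ((d + 1) * (m * 3)) (by
        intro y hy
        obtain ⟨x0, hx0, rfl⟩ := mem_image.1 hy
        rw [mem_filter] at hx0
        have hfew := few_primes hx0.2.1 hH hc (by
          rw [← eval_PhiU]
          exact hcd H hH1 x0 fun i => I_abs (Fintype.mem_piFinset.1 hx0.1 i))
        refine le_trans (card_le_card_of_injOn (fun x => x 0)
          (t := {p ∈ (Phi m n x0).natAbs.primeFactors | H < p}.biUnion fun p =>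
            (I m n H 0).filter fun t => R x0 p t) ?_ ?_) (card_biUnion_le.trans ?_)
        · intro x hx
          rw [mem_coe, mem_filter, mem_filter] at hx
          obtain ⟨⟨hxb, -, p, hp, hR⟩, he⟩ := hx
          have e1 : Phi m n x = Phi m n x0 := by rw [← hu2 x 0, he, hu2]
          have e2 : FT m n (fun i => (x i : ZMod p)) = FT m n (fun i => (x0 i : ZMod p)) := by
            rw [← hu x p 0, he, hu]
          rw [mem_coe, mem_biUnion]
          refine ⟨p, e1 ▸ hp, mem_filter.2 ⟨Fintype.mem_piFinset.1 hxb 0, ?_⟩⟩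
          simpa only [R, e2] using hR
        · intro x hx x' hx' e
          rw [mem_coe, mem_filter] at hx hx'
          funext i
          by_cases hi : i = 0
          · subst hi; exact e
          · have := congrFun (hx.2.trans hx'.2.symm) i
            simpa [Function.update_of_ne hi] using this
        · refine (sum_le_card_nsmul _ _ (m * 3) fun p hp => ?_).trans ?_
          · rw [mem_filter] at hp
            exact root_cnt (Nat.prime_of_mem_primeFactors hp.1) hp.2 _ 0
          · rw [smul_eq_mul]; exact Nat.mul_le_mul_right _ hfew)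
    have h2 : #(((box m n H).filter W).image fun x => Function.update x 0 0) * H ≤
        #(box m n H) := by
      have h3 : ((box m n H).filter W).image (fun x => Function.update x 0 0) ⊆
          Fintype.piFinset (Function.update (I m n H) 0 {0}) := by
        intro y hy
        obtain ⟨x0, hx0, rfl⟩ := mem_image.1 hy
        rw [Fintype.mem_piFinset]
        intro i
        by_cases hi : i = 0
        · subst hi; simp
        · simp only [Function.update_of_ne hi]
          exact Fintype.mem_piFinset.1 (mem_filter.1 hx0).1 i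
      refine (Nat.mul_le_mul (card_le_card h3) (I_ge (m := m) (n := n) H 0)).trans (le_of_eq ?_)
      rw [box, Fintype.card_piFinset, Fintype.card_piFinset,
        Fin.prod_univ_succ (fun i => #(I m n H i)), Fin.prod_univ_succ]
      simp only [Function.update_of_ne (Fin.succ_ne_zero _), Function.update_self, card_singleton]
      ring
    have h4 : #((box m n H).filter W) * H ≤ (d + 1) * (m * 3) * #(box m n H) :=
      (Nat.mul_le_mul_right _ h1).trans (by rw [mul_assoc]; exact Nat.mul_le_mul_left _ h2)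
    have h5 : (#((box m n H).filter W) : ℝ) * H ≤ (((d + 1) * (m * 3) : ℕ) : ℝ) * #(box m n H) := by
      exact_mod_cast h4
    exact h5

end Pool.Agent.H59.RD
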