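import Pool.Agent.H59.RD4

set_option autoImplicit false

namespace Pool.Agent.H59.RD
open Polynomial Finset Filter Topology

lemma good_le (m n p : ℕ) [Fact p.Prime] :
    (BadV (ZMod p) (m + 2) (n + 2))ᶜ.ncard + 2 * p ^ (m + n + 4) ≤
      p ^ (m + n + 6) + p ^ (m + n + 2) := by
  have h1 := BadP_ge (K := ZMod p) m n
  rw [← BadV_card, ZMod.card] at h1
  have h2 := Set.ncard_add_ncard_compl (BadV (ZMod p) (m + 2) (n + 2))
  rw [Nat.card_fun, Nat.card_zmod, Nat.card_eq_fintype_card, Fintype.card_fin] at h2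
  have h3 : p ^ (m + 2 + (n + 2) + 2) = p ^ (m + n + 6) := by ring
  omega

lemma key6 : ∀ a b : ZMod 6, (ZMod.cast a : ZMod 2) = ZMod.cast b →
    (ZMod.cast a : ZMod 3) = ZMod.cast b → a = b := by decide

lemma six (m n : ℕ) : ∃ δ : ℝ, δ ≤ 4 / 9 ∧ Tendsto (fun H => dens (m + 2) (n + 2) H
    (fun x => GP (m + 2) (n + 2) 2 x ∧ GP (m + 2) (n + 2) 3 x)) atTop (𝓝 δ) := by
  haveI : Fact (Nat.Prime 3) := ⟨Nat.prime_three⟩
  let S : Set (Fin (m + 2 + (n + 2) + 2) → ZMod 6) := {z |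
    (fun i => (ZMod.cast (z i) : ZMod 2)) ∈ (BadV (ZMod 2) (m + 2) (n + 2))ᶜ ∧
    (fun i => (ZMod.cast (z i) : ZMod 3)) ∈ (BadV (ZMod 3) (m + 2) (n + 2))ᶜ}
  have h := dens_cast_tendsto (m := m + 2) (n := n + 2) 6 S
  refine ⟨_, ?_, h.congr fun H => ?_⟩
  · have h1 : S.ncard ≤ ((BadV (ZMod 2) (m + 2) (n + 2))ᶜ ×ˢ
        (BadV (ZMod 3) (m + 2) (n + 2))ᶜ).ncard := by
      refine Set.ncard_le_ncard_of_injOn (fun z => (fun i => (ZMod.cast (z i) : ZMod 2),
        fun i => (ZMod.cast (z i) : ZMod 3))) (fun z hz => hz) ?_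
      intro z _ z' _ e
      rw [Prod.mk.injEq] at e
      funext i
      exact key6 _ _ (congrFun e.1 i) (congrFun e.2 i)
    rw [Set.ncard_prod] at h1
    have h2 := good_le m n 2
    have h3 := good_le m n 3
    have h2' : (BadV (ZMod 2) (m + 2) (n + 2))ᶜ.ncard ≤ 36 * 2 ^ (m + n) := by
      simp only [pow_add _ (m + n)] at h2; omega
    have h3' : (BadV (ZMod 3) (m + 2) (n + 2))ᶜ.ncard ≤ 576 * 3 ^ (m + n) := by
      simp only [pow_add _ (m + n)] at h3; omega
    have h4 : S.ncard ≤ 20736 * 6 ^ (m + n) := by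
      refine h1.trans ((Nat.mul_le_mul h2' h3').trans (le_of_eq ?_))
      rw [show 6 = 2 * 3 by rfl, mul_pow]; ring
    have h5 : (S.ncard : ℝ) ≤ 20736 * 6 ^ (m + n) := by exact_mod_cast h4
    refine (mul_le_mul_of_nonneg_right h5 (by positivity)).trans (le_of_eq ?_)
    rw [show m + 2 + (n + 2) + 2 = m + n + 6 by ring, pow_add _ (m + n) 6]
    simp only [Nat.cast_ofNat, one_div, inv_pow]
    field_simp; norm_num
  · congr 1
    funext x
    simp only [S, Set.mem_setOf_eq, Set.mem_compl_iff, BadV, not_not, GP,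
      ZMod.cast_intCast (R := ZMod 2) (show 2 ∣ 6 by norm_num),
      ZMod.cast_intCast (R := ZMod 3) (show 3 ∣ 6 by norm_num)]

lemma fin_dens (m n M : ℕ) : ∃ δ : ℝ, Tendsto (fun H => dens m n H
    (fun x => ∀ p : ℕ, p.Prime → p ≤ M → GP m n p x)) atTop (𝓝 δ) := by
  haveI : NeZero M.factorial := ⟨M.factorial_ne_zero⟩
  let S : Set (Fin (m + n + 2) → ZMod M.factorial) := {z | ∀ p : ℕ, p.Prime → p ≤ M →
    Good m n (fP m fun i => (ZMod.cast (z i) : ZMod p)) (gP m n fun i => (ZMod.cast (z i) : ZMod p))}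
  refine ⟨_, (dens_cast_tendsto (m := m) (n := n) M.factorial S).congr fun H => ?_⟩
  congr 1
  funext x
  simp only [S, Set.mem_setOf_eq, GP, eq_iff_iff]
  refine forall_congr' fun p => forall_congr' fun hp => forall_congr' fun hM => ?_
  simp only [ZMod.cast_intCast (R := ZMod p) (Nat.dvd_factorial hp.pos hM)]

theorem main {m n : ℕ} (hm : 2 ≤ m) (hn : 2 ≤ n) : ∃ L : ℝ, L ≤ 4 / 9 ∧
    Tendsto (fun H => dens m n H (fun x => Psi m n x ≠ 0 ∧ ∀ p : ℕ, p.Prime → GP m n p x) /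
      dens m n H (fun x => Psi m n x ≠ 0)) atTop (𝓝 L) := by
  have hz := dens_zero (PsiU_ne (m := m) (n := n) (by omega))
  simp only [eval_PsiU] at hz
  have hs : Tendsto (fun H => dens m n H (fun x => Psi m n x ≠ 0)) atTop (𝓝 1) := by
    have := (tendsto_const_nhds (x := (1 : ℝ))).sub hz
    rw [sub_zero] at this
    refine this.congr' ?_
    filter_upwards [eventually_ge_atTop 1] with H hH
    exact (dens_not hH _).symm
  set e : ℕ → ℝ := fun H =>
    dens m n H (fun x => Psi m n x ≠ 0 ∧ ∀ p : ℕ, p.Prime → GP m n p x) with he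
  have hl := hz.add (large (m := m) (n := n) (by omega) (by omega))
  rw [add_zero] at hl
  have hc : CauchySeq e := by
    rw [Metric.cauchySeq_iff]
    intro ε hε
    obtain ⟨M, hM1, hM⟩ : ∃ M : ℕ, 1 ≤ M ∧ ((m : ℝ) + n + 1) * 2 ^ (m + n + 2) / M < ε / 8 :=
      ((eventually_ge_atTop 1).and ((tendsto_const_div_atTop_nhds_zero_nat _).eventually
        (gt_mem_nhds (by positivity)))).exists
    obtain ⟨δ, hδ⟩ := fin_dens m n M
    have h1 : ∀ᶠ H in atTop, |e H - δ| < ε / 2 := by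
      filter_upwards [hl.eventually (gt_mem_nhds (show (0 : ℝ) < ε / 8 by positivity)),
        (Metric.tendsto_nhds.1 hδ) (ε / 8) (by positivity)] with H a b
      rw [Real.dist_eq, abs_lt] at b
      have c1 : e H ≤ dens m n H (fun x => ∀ p : ℕ, p.Prime → p ≤ M → GP m n p x) :=
        dens_mono fun x _ hx p hp _ => hx.2 p hp
      have c2 := mid (m := m) (n := n) (by omega) (by omega) hM1 H
      have c3 : dens m n H (fun x => ∀ p : ℕ, p.Prime → p ≤ M → GP m n p x) ≤ e H +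
          (dens m n H (fun x => ∃ p : ℕ, p.Prime ∧ M < p ∧ p ≤ H ∧ ¬ GP m n p x) +
          (dens m n H (fun x => Psi m n x = 0) +
          dens m n H (fun x => ∃ p : ℕ, p.Prime ∧ H < p ∧ ¬ GP m n p x))) := by
        refine le_trans (dens_mono ?_) ((dens_or H _ _).trans (add_le_add le_rfl
          ((dens_or H _ _).trans (add_le_add le_rfl (dens_or H _ _)))))
        intro x _ hx
        by_contra hcon
        push Not at hcon
        obtain ⟨k1, k2, k3, k4⟩ := hcon
        obtain ⟨p, hp, hb⟩ := k1 k3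
        by_cases q1 : p ≤ M
        · exact hb (hx p hp q1)
        by_cases q2 : p ≤ H
        · exact hb (k2 p hp (by omega) q2)
        · exact hb (k4 p hp (by omega))
      rw [abs_lt]; constructor <;> linarith
    obtain ⟨N, hN⟩ := eventually_atTop.1 h1
    refine ⟨N, fun a ha b hb => ?_⟩
    have := abs_lt.1 (hN a ha)
    have := abs_lt.1 (hN b hb)
    rw [Real.dist_eq, abs_lt]; constructor <;> linarith
  obtain ⟨L, hL⟩ := cauchySeq_tendsto_of_complete hc
  refine ⟨L, ?_, by have := hL.div hs one_ne_zero; rw [div_one] at this; exact this⟩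
  obtain ⟨m, rfl⟩ := Nat.exists_eq_add_of_le' hm
  obtain ⟨n, rfl⟩ := Nat.exists_eq_add_of_le' hn
  obtain ⟨δ, h1, h2⟩ := six m n
  exact le_trans (le_of_tendsto_of_tendsto' hL h2 fun H =>
    dens_mono fun x _ hx => ⟨hx.2 2 Nat.prime_two, hx.2 3 Nat.prime_three⟩) h1

/-- the box describes pairs of polynomials -/
lemma mem_box {m n H : ℕ} (hn : 1 ≤ n) (x : Fin (m + n + 2) → ℤ) : x ∈ box m n H ↔
    ((fP m x).natDegree = m ∧ 0 < (fP m x).leadingCoeff ∧ ∀ i, |(fP m x).coeff i| ≤ H) ∧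
    ((gP m n x).natDegree = n ∧ 0 < (gP m n x).leadingCoeff ∧ ∀ i, |(gP m n x).coeff i| ≤ H) := by
  rw [box, Fintype.mem_piFinset]
  have e1 : (fP m x).coeff m = x ⟨m + 1, by omega⟩ := by
    rw [coeff_fP, if_pos le_rfl, ext, dif_pos]
  have e2 : (gP m n x).coeff n = x ⟨m + n + 1, by omega⟩ := by
    rw [coeff_gP, if_neg (by omega), if_pos le_rfl, show m + 1 + n = m + n + 1 by ring, ext, dif_pos]
  constructor
  · intro h
    have h1 := h ⟨m + 1, by omega⟩
    have h2 := h ⟨m + n + 1, by omega⟩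
    simp only [I, true_or, or_true, if_true, mem_Ioc] at h1 h2
    have h3 : ∀ k, |ext x k| ≤ H := by
      intro k; unfold ext; split_ifs
      · exact I_abs (h _)
      · simp
    have d1 : (fP m x).natDegree = m :=
      le_antisymm (natDegree_fP _ _) (le_natDegree_of_ne_zero (by rw [e1]; exact h1.1.ne'))
    have d2 : (gP m n x).natDegree = n :=
      le_antisymm (natDegree_gP _ _ _) (le_natDegree_of_ne_zero (by rw [e2]; exact h2.1.ne'))
    refine ⟨⟨d1, by rw [leadingCoeff, d1, e1]; exact h1.1, fun i => ?_⟩,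
      ⟨d2, by rw [leadingCoeff, d2, e2]; exact h2.1, fun i => ?_⟩⟩
    · rw [coeff_fP]; split_ifs
      · exact h3 _
      · simp
    · rw [coeff_gP]; split_ifs
      · exact h3 _
      · exact h3 _
      · simp
  · rintro ⟨⟨a1, a2, a3⟩, b1, b2, b3⟩ k
    rw [leadingCoeff, a1, e1] at a2
    rw [leadingCoeff, b1, e2] at b2
    have h3 : |x k| ≤ H := by
      rw [← vec_fP m n x, vec]; split_ifs
      · exact b3 _
      · exact a3 _
      · exact b3 _
    rw [abs_le] at h3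
    rw [I, mem_Ioc]
    split_ifs with h
    · refine ⟨?_, h3.2⟩
      rcases h with h | h
      · rwa [show k = ⟨m + 1, by omega⟩ from Fin.ext h]
      · rwa [show k = ⟨m + n + 1, by omega⟩ from Fin.ext h]
    · omega

lemma cop_iff {m n : ℕ} (hm : 1 ≤ m) {f g : ℤ[X]} (hf : f.natDegree = m) (hg : g.natDegree = n) :
    (∀ z : ℂ, ¬ (aeval z f = 0 ∧ aeval z g = 0)) ↔ resultant f g m n ≠ 0 := by
  have hi : Function.Injective (algebraMap ℤ ℂ) := (algebraMap ℤ ℂ).injective_int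
  have h1 := resultant_eq_zero_iff (f := f.map (algebraMap ℤ ℂ)) (g := g.map (algebraMap ℤ ℂ))
  rw [natDegree_map_eq_of_injective hi, natDegree_map_eq_of_injective hi, hf, hg,
    resultant_map_map, map_eq_zero_iff _ hi,
    isCoprime_iff_aeval_ne_zero_of_isAlgClosed ℂ ℂ] at h1
  have hf0 : f.map (algebraMap ℤ ℂ) ≠ 0 := by
    rw [Ne, Polynomial.map_eq_zero_iff hi]; rintro rfl; simp at hf; omega
  rw [Ne, h1]
  simp only [aeval_map_algebraMap, hf0, ne_eq, not_false_eq_true, true_or, true_and, not_not]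
  refine forall_congr' fun z => ?_
  tauto

lemma inN_iff {m n : ℕ} (hm : 1 ≤ m) (hn : 1 ≤ n) {f g : ℤ[X]} (hf : f.natDegree = m)
    (hg : g.natDegree = n) {N : ℕ} (hN : 0 < N) :
    (∃ p q : ℚ[X], p * f.map (Int.castRingHom ℚ) + q * g.map (Int.castRingHom ℚ) = 1 ∧
      p.degree < g.degree ∧ q.degree < f.degree ∧ (∀ i, ∃ z : ℤ, (N : ℚ) * p.coeff i = z) ∧
      (∀ i, ∃ z : ℤ, (N : ℚ) * q.coeff i = z)) ↔ InN m n f g N := by
  have hi : Function.Injective (Int.castRingHom ℚ) := (Int.castRingHom ℚ).injective_int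
  have hf0 : f ≠ 0 := by rintro rfl; simp at hf; omega
  have hg0 : g ≠ 0 := by rintro rfl; simp at hg; omega
  have hN' : (N : ℚ) ≠ 0 := by exact_mod_cast hN.ne'
  rw [degree_eq_natDegree hf0, degree_eq_natDegree hg0, hf, hg]
  constructor
  · rintro ⟨p, q, e, hp, hq, ip, iq⟩
    have lift : ∀ u : ℚ[X], (∀ i, ∃ z : ℤ, (N : ℚ) * u.coeff i = z) →
        ∃ a : ℤ[X], a.map (Int.castRingHom ℚ) = C (N : ℚ) * u ∧ a.degree = u.degree := by
      intro u hu
      obtain ⟨a, h1, h2⟩ := mem_lifts_and_degree_eq (f := Int.castRingHom ℚ) (p := C (N : ℚ) * u)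
        (by
          rw [lifts_iff_coeff_lifts]
          intro i
          obtain ⟨z, hz⟩ := hu i
          exact ⟨z, by simp [hz]⟩)
      exact ⟨a, h1, by rw [h2, degree_C_mul hN']⟩
    obtain ⟨a, a1, a2⟩ := lift p ip
    obtain ⟨b, b1, b2⟩ := lift q iq
    refine ⟨a, b, a2 ▸ hp, b2 ▸ hq, map_injective _ hi ?_⟩
    rw [Polynomial.map_add, Polynomial.map_mul, Polynomial.map_mul, a1, b1, Polynomial.map_C]
    simp only [eq_intCast, Int.cast_natCast]
    linear_combination (C (N : ℚ)) * e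
  · rintro ⟨a, b, ha, hb, e⟩
    have e' := congrArg (Polynomial.map (Int.castRingHom ℚ)) e
    rw [Polynomial.map_add, Polynomial.map_mul, Polynomial.map_mul, Polynomial.map_C] at e'
    simp only [eq_intCast, Int.cast_natCast] at e'
    have hC : C (N : ℚ)⁻¹ * C (N : ℚ) = 1 := by rw [← map_mul, inv_mul_cancel₀ hN', map_one]
    refine ⟨C (N : ℚ)⁻¹ * a.map (Int.castRingHom ℚ), C (N : ℚ)⁻¹ * b.map (Int.castRingHom ℚ),
      ?_, ?_, ?_, fun i => ⟨a.coeff i, ?_⟩, fun i => ⟨b.coeff i, ?_⟩⟩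
    · linear_combination (C (N : ℚ)⁻¹) * e' + hC
    · rw [degree_C_mul (inv_ne_zero hN')]; exact degree_map_le.trans_lt ha
    · rw [degree_C_mul (inv_ne_zero hN')]; exact degree_map_le.trans_lt hb
    · simp [hN']
    · simp [hN']

open Classical in
lemma ncard_eq {m n H : ℕ} (P : (Fin (m + n + 2) → ℤ) → Prop) (T : Set (ℤ[X] × ℤ[X]))
    (h1 : ∀ y ∈ T, y.1.natDegree = m ∧ y.2.natDegree = n)
    (h2 : ∀ x, (fP m x, gP m n x) ∈ T ↔ x ∈ box m n H ∧ P x) :
    T.ncard = #((box m n H).filter P) := by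
  rw [← Set.ncard_coe_finset]
  symm
  apply Set.ncard_congr (fun z _ => (fP m z, gP m n z))
  · intro z hz
    exact (h2 z).2 (by simpa using hz)
  · intro a b _ _ h
    rw [Prod.mk.injEq] at h
    rw [← vec_fP m n a, h.1, h.2, vec_fP]
  · rintro ⟨f, g⟩ hy
    obtain ⟨hf, hg⟩ := h1 _ hy
    have e : (fP m (vec m (m + n + 2) f g), gP m n (vec m (m + n + 2) f g)) = (f, g) := by
      rw [fP_vec m n g hf.le, gP_vec m n f hg.le]
    exact ⟨vec m (m + n + 2) f g, by simpa using (h2 _).1 (e ▸ hy), e⟩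

end Pool.Agent.H59.RD
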