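import Mathlib

/-! Weyl differencing for phases with a constant higher difference. -/

set_option autoImplicit false
open Finset

namespace Pool.Agent.H59.SN

noncomputable def E (x : ℝ) : ℂ := Complex.exp (Complex.I * (2 * Real.pi * x : ℝ))

lemma E_add (x y : ℝ) : E (x + y) = E x * E y := by
  unfold E; rw [← Complex.exp_add]; congr 1; push_cast; ring

lemma E_norm (x : ℝ) : ‖E x‖ = 1 := by unfold E; rw [Complex.norm_exp_I_mul_ofReal]

lemma E_conj (x : ℝ) : (starRingEnd ℂ) (E x) = E (-x) := by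
  unfold E; rw [← Complex.exp_conj, map_mul, Complex.conj_I, Complex.conj_ofReal]; congr 1
  push_cast; ring

lemma E_int (k : ℤ) : E k = 1 := by
  unfold E
  rw [← Complex.exp_int_mul_two_pi_mul_I k]; congr 1; push_cast; ring

lemma E_re (x : ℝ) : (E x).re = Real.cos (2 * Real.pi * x) := by
  unfold E; rw [mul_comm, Complex.exp_ofReal_mul_I_re]

lemma E_sub_one {a : ℝ} (h0 : 0 ≤ a) (h1 : a ≤ 1 / 2) : 4 * a ≤ ‖E a - 1‖ := by
  unfold E
  rw [Complex.norm_exp_I_mul_ofReal_sub_one, Real.norm_eq_abs]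
  have p := Real.pi_pos
  have := Real.mul_le_sin (x := 2 * Real.pi * a / 2) (by positivity) (by nlinarith)
  have e : 2 / Real.pi * (2 * Real.pi * a / 2) = 2 * a := by field_simp
  linarith [le_abs_self (2 * Real.sin (2 * Real.pi * a / 2))]

/-- constant `k`-th difference -/
def P : ℕ → ℝ → (ℕ → ℝ) → Prop
  | 0, a, φ => ∀ n, φ n = a
  | k + 1, a, φ => P k a fun n => φ (n + 1) - φ n

lemma P.shift {k : ℕ} {a : ℝ} {φ : ℕ → ℝ} (h : P k a φ) (c : ℕ) : P k a fun n => φ (n + c) := by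
  induction k generalizing φ with
  | zero => exact fun n => h _
  | succ k ih => simpa only [P, add_right_comm _ 1 c] using ih h

lemma P.lin {k : ℕ} {a : ℝ} {φ : ℕ → ℝ} (h : P (k + 1) a φ) (c e : ℝ) :
    P (k + 1) (c * a) fun n => c * φ n + e := by
  induction k generalizing φ e with
  | zero => intro n; have := h n; dsimp only at this ⊢; rw [← this]; ring
  | succ k ih =>
    have := ih (φ := fun n => φ (n + 1) - φ n) h 0
    unfold P
    convert this using 2 with n; ring

lemma P.diff {k : ℕ} {a : ℝ} {φ : ℕ → ℝ} (h : P (k + 1) a φ) (c : ℕ) :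
    P k (c * a) fun n => φ (n + c) - φ n := by
  induction k generalizing φ with
  | zero =>
    intro n
    induction c with
    | zero => simp
    | succ c ih => have := h (n + c); dsimp only at this ih ⊢; rw [← add_assoc]; push_cast; linarith
  | succ k ih =>
    have := ih (φ := fun n => φ (n + 1) - φ n) h
    unfold P
    convert this using 2 with n
    simp only [add_right_comm n 1 c]; ring

lemma P_iff (k : ℕ) (a : ℝ) (φ : ℕ → ℝ) : P k a φ ↔ ∀ n, (fwdDiff 1)^[k] φ n = a := by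
  induction k generalizing φ with
  | zero => rfl
  | succ k ih => rw [Function.iterate_succ_apply, P, ih]; rfl

lemma P_poly (f : Polynomial ℝ) :
    P f.natDegree (f.leadingCoeff * f.natDegree.factorial) fun n => f.eval (n : ℝ) := by
  rw [P_iff]
  intro n
  have := congrFun f.fwdDiff_iter_degree_eq_factorial (n : ℝ)
  rw [fwdDiff_iter_eq_sum_shift] at this ⊢
  simpa using this

lemma geom {a : ℝ} {φ : ℕ → ℝ} (h : P 1 a φ) (h0 : 0 ≤ a) (h1 : a ≤ 1 / 2) (M : ℕ) :
    a * ‖∑ n ∈ range M, E (φ n)‖ ≤ 1 / 2 := by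
  have e : (E a - 1) * ∑ n ∈ range M, E (φ n) = E (φ M) - E (φ 0) := by
    rw [← sum_range_sub (fun n => E (φ n)), mul_sum]
    refine sum_congr rfl fun n _ => ?_
    have := h n
    dsimp only at this
    rw [show φ (n + 1) = a + φ n by linarith, E_add]; ring
  have e2 := norm_sub_le (E (φ M)) (E (φ 0))
  rw [← e, norm_mul, E_norm, E_norm] at e2
  nlinarith [mul_le_mul_of_nonneg_right (E_sub_one h0 h1) (norm_nonneg (∑ n ∈ range M, E (φ n)))]

lemma second (x : ℕ → ℕ → ℝ) (J M : ℕ) (B : ℝ) (B0 : 0 ≤ B)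
    (h : ∀ i j, i < j → j < J → ‖∑ n ∈ range M, E (x j n - x i n)‖ ≤ B) :
    ∑ n ∈ range M, ‖∑ j ∈ range J, E (x j n)‖ ^ 2 ≤ J * M + J ^ 2 * B := by
  have e : ((∑ n ∈ range M, ‖∑ j ∈ range J, E (x j n)‖ ^ 2 : ℝ) : ℂ) =
      ∑ j ∈ range J, ∑ i ∈ range J, ∑ n ∈ range M, E (x j n - x i n) := by
    push_cast
    simp only [← Complex.mul_conj', map_sum, sum_mul_sum, E_conj, ← E_add, ← sub_eq_add_neg]
    rw [sum_comm]
    exact sum_congr rfl fun j _ => sum_comm
  have e2 := congrArg norm e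
  rw [Complex.norm_real, Real.norm_of_nonneg (by positivity)] at e2
  rw [e2]
  refine (norm_sum_le_of_le _ (n := fun _ => M + J * B) fun j hj => ?_).trans_eq (by simp; ring)
  refine (norm_sum_le_of_le _ (n := fun i => (if i = j then (M : ℝ) else 0) + B)
    fun i hi => ?_).trans_eq (by simp [sum_add_distrib, mem_range.1 hj])
  rcases lt_trichotomy i j with c | rfl | c
  · rw [if_neg c.ne, zero_add]; exact h i j c (mem_range.1 hj)
  · rw [if_pos rfl]
    refine (norm_sum_le_of_le _ (n := fun _ => 1) fun n _ => (E_norm _).le).trans ?_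
    simpa using B0
  · rw [if_neg c.ne', zero_add, ← Complex.norm_conj, map_sum]
    simpa only [E_conj, neg_sub] using h j i c (mem_range.1 hi)

lemma shift_sum (φ : ℕ → ℝ) (M c : ℕ) :
    ‖∑ n ∈ range M, E (φ n) - ∑ n ∈ range M, E (φ (n + c))‖ ≤ 2 * c := by
  have e : ∑ n ∈ range M, E (φ n) - ∑ n ∈ range M, E (φ (n + c)) =
      ∑ n ∈ range c, E (φ n) - ∑ n ∈ range c, E (φ (M + n)) := by
    have a := sum_range_add (fun n => E (φ n)) M c
    have b := sum_range_add (fun n => E (φ n)) c M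
    rw [add_comm c M, a] at b
    simp only [add_comm c] at b
    linear_combination b
  have b : ∀ f : ℕ → ℝ, ‖∑ n ∈ range c, E (f n)‖ ≤ c := fun f =>
    (norm_sum_le_of_le _ (n := fun _ => 1) fun n _ => (E_norm _).le).trans_eq (by simp)
  rw [e]
  linarith [norm_sub_le (∑ n ∈ range c, E (φ n)) (∑ n ∈ range c, E (φ (M + n))), b φ,
    b fun n => φ (M + n)]

theorem weyl (J G M : ℕ) (h1 : J * G * J ≤ M) (k : ℕ) : ∀ (a η : ℝ) (φ : ℕ → ℝ), P (k + 1) a φ →
    0 ≤ a → 0 < η → η ≤ 1 → 1 ≤ η ^ 2 ^ k * J → a * (J * G) ^ k ≤ 1 / 2 → J ≤ a * G ^ k * M →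
    ‖∑ n ∈ range M, E (φ n)‖ ≤ (1 + 4 * k) * η * M := by
  have M0 : (0 : ℝ) ≤ M := Nat.cast_nonneg _
  induction k with
  | zero =>
    intro a η φ h a0 η0 η1 h2 h3 h4
    simp only [pow_zero, mul_one, pow_one, Nat.cast_zero, mul_zero, add_zero, one_mul] at *
    have := geom h a0 h3 M
    have b : 1 ≤ η * (a * M) := h2.trans (mul_le_mul_of_nonneg_left h4 η0.le)
    nlinarith [mul_le_mul_of_nonneg_left b (norm_nonneg (∑ n ∈ range M, E (φ n))),
      mul_le_mul_of_nonneg_left this (mul_nonneg η0.le M0)]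
  | succ k ih =>
    intro a η φ h a0 η0 η1 h2 h3 h4
    have J0 : (0 : ℝ) ≤ J := Nat.cast_nonneg _
    have G0 : (0 : ℝ) ≤ G := Nat.cast_nonneg _
    have k0 : (0 : ℝ) ≤ k := Nat.cast_nonneg _
    have e1 : 1 ≤ η ^ 2 * J := h2.trans (mul_le_mul_of_nonneg_right
      (pow_le_pow_of_le_one η0.le η1 (Nat.le_self_pow (by omega) 2)) J0)
    have J1 : (0 : ℝ) < J := by by_contra c; nlinarith [sq_nonneg η]
    have s := second (fun j n => φ (n + j * G)) J M ((1 + 4 * k) * η ^ 2 * M) (by positivity)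
      fun i j ij jJ => by
        obtain ⟨c, rfl⟩ := Nat.exists_eq_add_of_lt ij
        have c1 : ((c + 1 : ℕ) : ℝ) ≤ J := by exact_mod_cast (by omega : c + 1 ≤ J)
        have c0 : (1 : ℝ) ≤ (c + 1 : ℕ) := by exact_mod_cast (by omega : 1 ≤ c + 1)
        have := ih _ (η ^ 2) _ ((h.shift (i * G)).diff ((c + 1) * G)) (by positivity)
          (by positivity) (pow_le_one₀ η0.le η1) (by rwa [← pow_mul, ← pow_succ']) (by
            refine le_trans ?_ h3
            rw [pow_succ, Nat.cast_mul]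
            have : 0 ≤ (G : ℝ) * a * (J * G) ^ k := by positivity
            nlinarith) (by
            refine h4.trans ?_
            rw [pow_succ, Nat.cast_mul]
            have : 0 ≤ (G : ℝ) * a * G ^ k * M := by positivity
            nlinarith)
        convert this using 5 with n
        ring_nf
    set T := ∑ n ∈ range M, ∑ j ∈ range J, E (φ (n + j * G)) with hT
    have t1 : ‖T‖ ≤ (3 + 4 * k) * η * M * J := by
      refine (norm_sum_le _ _).trans (le_of_sq_le_sq ?_ (by positivity))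
      refine sq_sum_le_card_mul_sum_sq.trans ?_
      rw [card_range]
      refine (mul_le_mul_of_nonneg_left s M0).trans ?_
      have b1 := mul_le_mul_of_nonneg_right e1 (show 0 ≤ (M : ℝ) ^ 2 * J by positivity)
      have b2 : 0 ≤ (η * M * J) ^ 2 := sq_nonneg _
      nlinarith [mul_nonneg b2 k0, mul_nonneg b2 (sq_nonneg (k : ℝ))]
    have t2 : ‖(J : ℂ) * ∑ n ∈ range M, E (φ n) - T‖ ≤ J * (2 * (J * G)) := by
      rw [hT, sum_comm, ← nsmul_eq_mul, ← card_range J, ← sum_const, card_range, ← sum_sub_distrib]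
      refine (norm_sum_le_of_le _ (n := fun _ => 2 * (J * G : ℝ)) fun j hj => ?_).trans_eq (by simp)
      refine (shift_sum φ M (j * G)).trans ?_
      have : (j : ℝ) ≤ J := by exact_mod_cast (mem_range.1 hj).le
      push_cast; nlinarith
    have t3 := norm_le_norm_add_norm_sub' ((J : ℂ) * ∑ n ∈ range M, E (φ n)) T
    rw [norm_mul, Complex.norm_natCast] at t3
    have h1' : (J : ℝ) * G * J ≤ M := by exact_mod_cast h1
    have e2 : 1 ≤ η * J := e1.trans (mul_le_mul_of_nonneg_right (by nlinarith) J0)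
    refine le_of_mul_le_mul_left ?_ J1
    push_cast
    nlinarith [mul_le_mul_of_nonneg_right e2 M0]

/-- Counting values in a short arc. -/
theorem arc (g : ℕ → ℕ) (φ : ℕ → ℝ) (M R T v : ℕ) (hφ : ∀ n < M, φ n = g n) (R0 : 0 < R)
    (hT : 12 ≤ T) (B : ℝ) (B0 : 0 ≤ B)
    (h : ∀ c : ℕ, 1 ≤ c → c ≤ T → ∀ e, ‖∑ n ∈ range M, E (c / (R * T) * φ n + e)‖ ≤ B) :
    (((range M).filter fun n => g n / R % T = v).card : ℝ) ≤ 48 * M / T + 4 * B := by
  set H := T / 6 with hH
  have T0 : (0 : ℝ) < T := by exact_mod_cast (by omega : 0 < T)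
  have R1 : (0 : ℝ) < R := by exact_mod_cast R0
  have H1 : (6 : ℝ) * H ≤ T := by exact_mod_cast (by omega : 6 * H ≤ T)
  have H2 : (T : ℝ) ≤ 12 * H := by exact_mod_cast (by omega : T ≤ 12 * H)
  have H0 : (0 : ℝ) < H := by linarith
  have s := second (fun j n => j * (φ n / (R * T) - v / T)) H M B B0 fun i j ij jH => by
    obtain ⟨c, rfl⟩ := Nat.exists_eq_add_of_lt ij
    convert h (c + 1) (by omega) (by omega) (-((c + 1) * (v / T))) using 4 with n
    push_cast; ring
  have l : ∀ n ∈ (range M).filter fun n => g n / R % T = v,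
      (H / 2 : ℝ) ^ 2 ≤ ‖∑ j ∈ range H, E (j * (φ n / (R * T) - v / T))‖ ^ 2 := fun n hn => by
    obtain ⟨n1, n2⟩ := mem_filter.1 hn
    refine pow_le_pow_left₀ (by positivity) (le_trans ?_ (Complex.re_le_norm _)) 2
    have g1 : (g n : ℝ) = R * (T * (g n / R / T : ℕ) + v) + (g n % R : ℕ) := by
      rw [← n2]; exact_mod_cast (by rw [Nat.div_add_mod, Nat.div_add_mod])
    have g2 : ((g n % R : ℕ) : ℝ) ≤ R := by exact_mod_cast (Nat.mod_lt _ R0).le
    have g0 : (0 : ℝ) ≤ (g n % R : ℕ) := Nat.cast_nonneg _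
    rw [Complex.re_sum]
    refine le_trans (by simp; ring_nf; rfl) (card_nsmul_le_sum _ _ (1 / 2 : ℝ) fun j hj => ?_)
    have j1 : (j : ℝ) ≤ H := by exact_mod_cast (mem_range.1 hj).le
    have j0 : (0 : ℝ) ≤ j := Nat.cast_nonneg _
    have e : j * (φ n / (R * T) - v / T) =
        (((j * (g n / R / T) : ℕ) : ℤ) : ℝ) + j * (g n % R : ℕ) / (R * T) := by
      rw [hφ n (mem_range.1 n1), Int.cast_natCast, Nat.cast_mul]
      nth_rw 1 [g1]
      field_simp; ring
    rw [e, E_add, E_int, one_mul, E_re, ← Real.cos_pi_div_three]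
    have p := Real.pi_pos
    have b : (j : ℝ) * (g n % R : ℕ) / (R * T) ≤ 1 / 6 := by
      rw [div_le_iff₀ (by positivity)]
      nlinarith [mul_le_mul j1 g2 g0 H0.le]
    exact Real.cos_le_cos_of_nonneg_of_le_pi (by positivity) (by linarith) (by nlinarith)
  have l2 := (card_nsmul_le_sum _ _ _ l).trans ((sum_le_sum_of_subset_of_nonneg (filter_subset _ _)
    fun _ _ _ => by positivity).trans s)
  rw [nsmul_eq_mul] at l2
  have l3 : (M : ℝ) ≤ H * (12 * M / T) := by
    rw [← mul_div_assoc, le_div_iff₀ T0]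
    nlinarith [mul_le_mul_of_nonneg_right H2 (Nat.cast_nonneg (α := ℝ) M)]
  refine le_of_mul_le_mul_right ?_ (show (0 : ℝ) < (H / 2) ^ 2 by positivity)
  have : 48 * (M : ℝ) / T = 4 * (12 * M / T) := by ring
  rw [this]
  nlinarith [mul_le_mul_of_nonneg_left l3 H0.le]

end Pool.Agent.H59.SN
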