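import Mathlib
import Pool.Agent.H59.SN2
import Pool.Agent.H59.MT4

/-! Exponential sums linking an integer and its digital reverse. -/

set_option autoImplicit false
open Finset

namespace Pool.Agent.H59.SN

/-- distance to the nearest integer -/
noncomputable def nr (x : ℝ) : ℝ := |x - round x|

lemma nr0 (x : ℝ) : 0 ≤ nr x := abs_nonneg _

lemma nr_comb (x y : ℝ) (b : ℕ) : nr (b * y - x) ≤ nr x + b * nr y := by
  refine (round_le _ (b * round y - round x)).trans ?_
  rw [show b * y - x - ((b * round y - round x : ℤ) : ℝ) = b * (y - round y) - (x - round x) by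
    push_cast; ring, add_comm]
  refine (abs_sub _ _).trans_eq ?_
  rw [abs_mul, Nat.abs_cast]; rfl

lemma nr_mul (x : ℝ) (b : ℕ) (h : b * nr x ≤ 1 / 2) : b * nr x ≤ nr (b * x) := by
  have e : b * nr x = |b * (x - round x)| := by rw [abs_mul, Nat.abs_cast]; rfl
  rw [e] at h ⊢
  rw [nr, show b * x - round (b * x) = b * (x - round x) - ((round (b * x) - b * round x : ℤ) : ℝ) by
    push_cast; ring]
  generalize b * (x - round x) = y at *
  generalize round (b * x) - b * round x = z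
  rcases eq_or_ne z 0 with rfl | hz
  · simp
  · have : (1 : ℝ) ≤ |(z : ℝ)| := by exact_mod_cast Int.one_le_abs hz
    linarith [abs_sub_abs_le_abs_sub (z : ℝ) y, abs_sub_comm (z : ℝ) y]

lemma nr_rat (q : ℚ) (u : ℕ) (h1 : q.den ≠ 1) (h2 : u.Coprime q.den) : 1 / (q.den : ℝ) ≤ nr (u * q) := by
  have d0 : (0 : ℝ) < q.den := by exact_mod_cast q.den_pos
  have e : (u : ℝ) * q - round ((u : ℝ) * q) = ((u * q.num - round ((u : ℝ) * q) * q.den : ℤ) : ℝ) / q.den := by
    nth_rw 1 [Rat.cast_def]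
    push_cast; field_simp
  rw [nr, e, abs_div, Nat.abs_cast]
  refine div_le_div_of_nonneg_right ?_ d0.le
  generalize round ((u : ℝ) * q) = z
  have hk : u * q.num - z * q.den ≠ 0 := fun k => h1 (by
    have a : (q.den : ℤ) ∣ u * q.num := ⟨z, by linear_combination k⟩
    have c : (u * q.num.natAbs).Coprime q.den := Nat.Coprime.mul_left h2 q.reduced
    have a2 := Int.natAbs_dvd_natAbs.2 a
    rw [Int.natAbs_mul, Int.natAbs_natCast, Int.natAbs_natCast] at a2
    exact c.symm.eq_one_of_dvd a2)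
  exact_mod_cast Int.one_le_abs hk

lemma E_nr (x : ℝ) : 4 * nr x ≤ ‖E x - 1‖ := by
  have e : E x = E (x - round x) := by
    rw [sub_eq_add_neg, E_add, ← Int.cast_neg, E_int, mul_one]
  have h := abs_sub_round x
  rw [e, nr]
  rcases abs_cases (x - round x) with ⟨a, b⟩ | ⟨a, b⟩
  · rw [a] at h ⊢; exact E_sub_one b h
  · rw [a] at h ⊢
    rw [← Complex.norm_conj, map_sub, E_conj, map_one]
    exact E_sub_one (by linarith) h

lemma E_zero : E 0 = 1 := by simp [E]

lemma geo_eq (γ : ℝ) (N : ℕ) : (E γ - 1) * ∑ m ∈ range N, E (m * γ) = E (N * γ) - 1 := by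
  have := sum_range_sub (fun m : ℕ => E (m * γ)) N
  rw [Nat.cast_zero, zero_mul, E_zero] at this
  rw [← this, mul_sum]
  refine sum_congr rfl fun m _ => ?_
  rw [Nat.cast_succ, add_mul, one_mul, E_add]; ring

lemma geo (γ : ℝ) (N : ℕ) : nr γ * ‖∑ m ∈ range N, E (m * γ)‖ ≤ 1 := by
  have e := norm_sub_le (E (N * γ)) 1
  rw [← geo_eq, norm_mul, E_norm, norm_one] at e
  nlinarith [mul_le_mul_of_nonneg_right (E_nr γ) (norm_nonneg (∑ m ∈ range N, E (m * γ))),
    mul_nonneg (nr0 γ) (norm_nonneg (∑ m ∈ range N, E (m * γ)))]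

/-- orthogonality -/
lemma orth {N : ℕ} (hN : 0 < N) (k : ℤ) :
    ∑ m ∈ range N, E (m * (k / N)) = if (N : ℤ) ∣ k then (N : ℂ) else 0 := by
  have N0 : (N : ℝ) ≠ 0 := by positivity
  split_ifs with h
  · obtain ⟨c, rfl⟩ := h
    rw [sum_congr rfl (g := fun _ => 1) fun m _ => ?_]
    · simp
    · rw [← E_int (m * c)]; congr 1; push_cast; field_simp
  · have e := geo_eq (k / N) N
    rw [mul_div_cancel₀ _ N0, E_int, sub_self] at e
    refine (mul_eq_zero.1 e).resolve_left fun c => h ?_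
    have := E_nr (k / N)
    rw [c, norm_zero] at this
    have z : (k : ℝ) / N - round ((k : ℝ) / N) = 0 := abs_eq_zero.1 (le_antisymm (by
      change nr _ ≤ 0; linarith) (abs_nonneg _))
    refine ⟨round ((k : ℝ) / N), ?_⟩
    rw [sub_eq_zero, div_eq_iff N0] at z
    exact_mod_cast z.trans (mul_comm _ _)

/-- one digit -/
noncomputable def Ph (b : ℕ) (t : ℝ) : ℂ := ∑ e ∈ range b, E (e * t)

lemma Ph_le (b : ℕ) (t : ℝ) : ‖Ph b t‖ ≤ b :=
  (norm_sum_le_of_le _ (n := fun _ => 1) fun _ _ => (E_norm _).le).trans_eq (by simp)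

lemma Ph_lt {b : ℕ} (hb : 2 ≤ b) {t δ : ℝ} (h0 : 0 ≤ δ) (h : δ ≤ nr t) : ‖Ph b t‖ ≤ b - 4 * δ ^ 2 := by
  obtain ⟨c, rfl⟩ := Nat.exists_eq_add_of_le hb
  have a1 : ‖∑ e ∈ range c, E ((2 + e : ℕ) * t)‖ ≤ c :=
    (norm_sum_le_of_le _ (n := fun _ => 1) fun _ _ => (E_norm _).le).trans_eq (by simp)
  have a2 := parallelogram_law_with_norm ℝ (E t) 1
  have a3 := pow_le_pow_left₀ (by linarith) ((show 4 * δ ≤ 4 * nr t by linarith).trans (E_nr t)) 2
  have a5 : nr t ≤ 1 / 2 := abs_sub_round t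
  rw [E_norm, norm_one] at a2
  have a4 : ‖E t + 1‖ ≤ 2 - 4 * δ ^ 2 :=
    le_of_sq_le_sq (by nlinarith [sq_nonneg (δ ^ 2)]) (by nlinarith)
  rw [Ph, sum_range_add, sum_range_succ, sum_range_one]
  refine (norm_add_le _ _).trans ?_
  simp only [Nat.cast_zero, zero_mul, E_zero, Nat.cast_one, one_mul]
  rw [add_comm 1]; push_cast at a1 ⊢; linarith

/-- digital linear form -/
noncomputable def ds (b L : ℕ) (θ : ℕ → ℝ) (n : ℕ) : ℝ := ∑ i ∈ range L, (n / b ^ i % b : ℕ) * θ i

lemma ds_prod {b : ℕ} (hb : 0 < b) (L : ℕ) (θ : ℕ → ℝ) :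
    ∑ n ∈ range (b ^ L), E (ds b L θ n) = ∏ i ∈ range L, Ph b (θ i) := by
  induction L generalizing θ with
  | zero => simp [ds, E_zero]
  | succ L ih =>
    have s : ∀ (f : ℕ → ℂ) (c : ℕ), ∑ x ∈ range (c * b), f x =
        ∑ v ∈ range c, ∑ u ∈ range b, f (v * b + u) := fun f c => by
      induction c with
      | zero => simp
      | succ c ih => rw [Nat.succ_mul, sum_range_add, ih, sum_range_succ]
    rw [pow_succ, s, prod_range_succ', ← ih, Ph, sum_mul_sum]
    refine sum_congr rfl fun v _ => sum_congr rfl fun u hu => ?_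
    have h1 : (v * b + u) / b = v := by
      rw [add_comm, Nat.add_mul_div_right _ _ hb, Nat.div_eq_of_lt (mem_range.1 hu), zero_add]
    rw [← E_add, ds, ds, sum_range_succ']
    simp only [pow_succ', ← Nat.div_div_eq_div_mul, h1, pow_zero, Nat.div_one, Nat.mul_add_mod_of_lt
      (mem_range.1 hu)]

lemma dig_sum (b L n : ℕ) : ∑ i ∈ range L, n / b ^ i % b * b ^ i = n % b ^ L := by
  induction L with
  | zero => simp [Nat.mod_one]
  | succ L ih => rw [sum_range_succ, ih, Nat.mod_pow_succ, mul_comm]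

lemma ds_lin {b L n : ℕ} (h : n < b ^ L) (x : ℕ → ℝ) (β : ℝ) :
    ds b L (fun i => x i + β * b ^ i) n = ds b L x n + n * β := by
  have := congrArg (fun t : ℕ => (t : ℝ) * β) (dig_sum b L n)
  simp only [Nat.mod_eq_of_lt h] at this
  rw [← this, ds, ds, Nat.cast_sum, sum_mul, ← sum_add_distrib]
  exact sum_congr rfl fun i _ => by push_cast; ring

/-- The mixed sum. -/
noncomputable def FF (b L : ℕ) (a β : ℝ) : ℝ := ∏ i ∈ range L, ‖Ph b (a / b ^ i + β * b ^ i)‖

lemma prod_le0 {b : ℕ} (θ : ℕ → ℝ) (s : Finset ℕ) : ∏ i ∈ s, ‖Ph b (θ i)‖ ≤ b ^ s.card :=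
  (Finset.prod_le_prod (g := fun _ => (b : ℝ)) (fun _ _ => norm_nonneg _) fun _ _ => Ph_le _ _).trans_eq
    (prod_const _)

lemma prod_le {b : ℕ} (θ : ℕ → ℝ) (L : ℕ) : ∏ i ∈ range L, ‖Ph b (θ i)‖ ≤ b ^ L :=
  (prod_le0 θ _).trans_eq (by rw [card_range])

lemma FF_sup {b : ℕ} (hb : 2 ≤ b) (a : ℝ) (q : ℚ) (k : ℕ) (h1 : q.den ≠ 1)
    (h2 : (b * (b ^ 2 - 1)).Coprime q.den) (h3 : q.den ≤ b ^ k) (L : ℕ) :
    FF b L a q ≤ b ^ L * (1 - 1 / (b ^ 3 * (b + 1) ^ 2)) ^ (L / (k + 2)) := by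
  have b2 : (2 : ℝ) ≤ b := by exact_mod_cast hb
  set θ : ℕ → ℝ := fun i => a / b ^ i + q * b ^ i with hθ
  set z : ℕ → ℝ := fun i => ((b ^ 2 - 1) * b ^ i : ℕ) * (q : ℝ) with hz
  set ρ : ℝ := 1 - 1 / (b ^ 3 * (b + 1) ^ 2) with hρ
  have ρ0 : 0 ≤ ρ := by
    rw [hρ, sub_nonneg, div_le_one (by positivity)]
    exact one_le_mul_of_one_le_of_one_le (one_le_pow₀ (by linarith)) (one_le_pow₀ (by linarith))
  have z1 : ∀ i, z i = b * θ (i + 1) - θ i := fun i => by
    simp only [hz, hθ]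
    rw [Nat.cast_mul, Nat.cast_sub (Nat.one_le_pow _ _ (by omega))]
    push_cast; field_simp; ring
  have z2 : ∀ i, z (i + 1) = b * z i := fun i => by simp only [hz]; push_cast; ring
  have z3 : ∀ i, 1 / (q.den : ℝ) ≤ nr (z i) := fun i => nr_rat q _ h1
    ((Nat.Coprime.coprime_mul_left h2).mul_left ((Nat.Coprime.coprime_mul_right h2).pow_left i))
  have w : ∀ j, ∃ i < k + 2, 1 / (2 * b * (b + 1)) ≤ nr (θ (j + i)) := fun j => by
    by_contra c
    push Not at c
    have c2 : ∀ i ≤ k, b * nr (z (j + i)) < 1 / 2 := fun i hi => by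
      have := nr_comb (θ (j + i)) (θ (j + i + 1)) b
      rw [← z1] at this
      have e : (b : ℝ) * ((b + 1) * (1 / (2 * b * (b + 1)))) = 1 / 2 := by field_simp
      rw [← e]
      refine mul_lt_mul_of_pos_left (this.trans_lt ?_) (by linarith)
      rw [add_assoc]
      nlinarith [c i (by omega), mul_lt_mul_of_pos_left (c (i + 1) (by omega)) (show (0 : ℝ) < b by linarith)]
    have c3 : ∀ i ≤ k, b ^ i * (1 / (q.den : ℝ)) ≤ nr (z (j + i)) := fun i => by
      induction i with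
      | zero => simpa using z3 j
      | succ i ih =>
        intro hi
        rw [← add_assoc, z2, pow_succ', mul_assoc]
        exact (mul_le_mul_of_nonneg_left (ih (by omega)) (by linarith)).trans
          (nr_mul _ _ (c2 i (by omega)).le)
    have c4 : (1 : ℝ) ≤ b ^ k * (1 / q.den) := by
      rw [mul_one_div, one_le_div (by exact_mod_cast q.den_pos)]; exact_mod_cast h3
    nlinarith [c2 k le_rfl, c3 k le_rfl]
  have w2 : ∀ m, ∏ i ∈ range (m * (k + 2)), ‖Ph b (θ i)‖ ≤ b ^ (m * (k + 2)) * ρ ^ m := fun m => by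
    induction m with
    | zero => simp
    | succ m ih =>
      obtain ⟨i, i1, i2⟩ := w (m * (k + 2))
      have a1 := Ph_lt hb (by positivity) i2
      have a2 : (b : ℝ) - 4 * (1 / (2 * b * (b + 1))) ^ 2 = b * ρ := by rw [hρ]; field_simp; ring
      have a3 := prod_le0 (b := b) (fun i => θ (m * (k + 2) + i)) ((range (k + 2)).erase i)
      rw [card_erase_of_mem (mem_range.2 i1), card_range] at a3
      rw [Nat.succ_mul, prod_range_add, ← mul_prod_erase _ _ (mem_range.2 i1)]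
      refine (mul_le_mul ih (mul_le_mul (a1.trans_eq a2) a3 (by positivity) (by positivity))
        (by positivity) (by positivity)).trans_eq ?_
      rw [show k + 2 - 1 = k + 1 from rfl]; ring
  rw [FF]
  nth_rw 1 2 [← Nat.div_add_mod' L (k + 2)]
  rw [prod_range_add, pow_add]
  exact (mul_le_mul (w2 _) (prod_le (fun i => θ (L / (k + 2) * (k + 2) + i)) _) (by positivity)
    (by positivity)).trans_eq (by ring)

lemma FF_ls {b : ℕ} (hb : 2 ≤ b) (X : Finset ℚ) (Q k : ℕ) (h1 : X.card ≤ Q ^ 2) (h2 : Q ^ 4 ≤ b ^ k)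
    (c : ℚ) (h3 : ∀ q ∈ X, c ≤ q ∧ q < c + 1 ∧ q.den ≤ Q ∧ b.Coprime q.den) (a : ℝ) (r : ℕ)
    (A : ℚ → ℝ) {M : ℝ} (M0 : 0 ≤ M) (h4 : ∀ q ∈ X, A q * FF b r a q ≤ M) :
    ∑ q ∈ X, A q * FF b (r + k + k) a q ≤ 2 * M * (b ^ k) ^ 2 := by
  have key : ∀ j : ℕ, ∑ q ∈ X, (∏ i ∈ range k,
      ‖Ph b (a / b ^ (j + i) + q * b ^ (j + i))‖) ^ 2 ≤ 2 * (b ^ k) ^ 2 := fun j => by
    have := MT.ls X (fun q m => E (ds b k (fun i => a / b ^ (j + i)) m + m * (q * b ^ j)))
      (fun _ _ _ => (E_norm _).le) (range (b ^ k)) (Q ^ 2) (by positivity) (fun q hq r hr qr => by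
        obtain ⟨q0, q1, q2, q3⟩ := h3 q hq
        obtain ⟨r0, r1, r2, r3⟩ := h3 r hr
        have d1 : (q - r).den ∣ q.den * r.den := Rat.sub_den_dvd q r
        have d2 := nr_rat (q - r) (b ^ j) (fun c => qr (by
          have e := Rat.coe_int_num_of_den_eq_one c
          have e1 : ((q - r).num : ℚ) < 1 := by linarith
          have e2 : (-1 : ℚ) < (q - r).num := by linarith
          have : (q - r).num = 0 := by
            have : (q - r).num < 1 := by exact_mod_cast e1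
            have : -1 < (q - r).num := by exact_mod_cast e2
            omega
          exact sub_eq_zero.1 (Rat.num_eq_zero.1 this)))
          (((q3.mul_right r3).coprime_dvd_right d1).pow_left j)
        have d3 : ((q - r).den : ℝ) ≤ Q ^ 2 := by
          exact_mod_cast (Nat.le_of_dvd (Nat.mul_pos q.den_pos r.den_pos) d1).trans
            (sq Q ▸ Nat.mul_le_mul q2 r2)
        have d4 := geo ((b ^ j : ℕ) * ((q - r : ℚ) : ℝ)) (b ^ k)
        have d0 : (0 : ℝ) < (q - r).den := by exact_mod_cast (q - r).den_pos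
        rw [sum_congr rfl (g := fun m : ℕ => E (m * ((b ^ j : ℕ) * ((q - r : ℚ) : ℝ)))) fun m _ => by
          rw [E_conj, ← E_add]; congr 1; push_cast; ring]
        refine le_trans ?_ d3
        rw [div_le_iff₀ d0] at d2
        nlinarith [mul_le_mul_of_nonneg_right d2 (norm_nonneg (∑ m ∈ range (b ^ k),
          E (m * ((b ^ j : ℕ) * ((q - r : ℚ) : ℝ))))), mul_le_mul_of_nonneg_right d4 d0.le])
      fun _ => 1
    simp only [Complex.ofReal_one, mul_one, one_pow, sum_const, card_range, nsmul_eq_mul] at this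
    refine le_trans (le_of_eq (sum_congr rfl fun q _ => ?_)) (this.trans ?_)
    · rw [← norm_prod, sum_congr rfl fun m hm => by rw [← ds_lin (mem_range.1 hm)],
        ds_prod (by omega)]
      simp only [pow_add, mul_assoc]
    · have a1 : (X.card : ℝ) ≤ Q ^ 2 := by exact_mod_cast h1
      have a2 : (Q : ℝ) ^ 4 ≤ b ^ k := by exact_mod_cast h2
      have a3 : (0 : ℝ) ≤ b ^ k := by positivity
      push_cast
      nlinarith [mul_le_mul_of_nonneg_right a1 (sq_nonneg (Q : ℝ))]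
  have k1 := add_le_add (key r) (key (r + k))
  rw [← sum_add_distrib] at k1
  refine le_trans (sum_le_sum fun q hq => ?_) (((mul_sum ..).symm.trans_le
    (mul_le_mul_of_nonneg_left k1 (show (0 : ℝ) ≤ M / 2 by positivity))).trans_eq (by ring))
  have := h4 q hq
  rw [FF] at this ⊢
  rw [prod_range_add, prod_range_add, mul_assoc, ← mul_assoc]
  refine (mul_le_mul_of_nonneg_right this (by positivity)).trans ?_
  rw [div_mul_comm, mul_comm _ M]
  exact mul_le_mul_of_nonneg_left (by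
    nlinarith [sq_nonneg (∏ i ∈ range k, ‖Ph b (a / b ^ (r + i) + q * b ^ (r + i))‖ -
    ∏ i ∈ range k, ‖Ph b (a / b ^ (r + k + i) + q * b ^ (r + k + i))‖)]) M0

end Pool.Agent.H59.SN
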