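import Mathlib
import Pool.Agent.H59.RP1

/-! An enveloping sieve in Fourier form. -/

set_option autoImplicit false
open Finset ArithmeticFunction.Moebius

namespace Pool.Agent.H59.SN

/-- harmonic sum -/
noncomputable def Hs (D : ℕ) : ℝ := ∑ x ∈ Icc 1 D, 1 / (x : ℝ)

lemma Hs0 (D : ℕ) : 0 ≤ Hs D := sum_nonneg fun _ _ => by positivity

lemma Hs_eq (D : ℕ) : Hs D = harmonic D := by
  simp [Hs, harmonic_eq_sum_Icc]

lemma hs0 (D : ℕ) {e : ℕ} (he : 0 < e) :
    ∑ x ∈ Icc 1 D, (if e ∣ x then 1 / (x : ℝ) else 0) ≤ Hs D / e := by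
  rw [← sum_filter]
  refine (sum_le_sum_of_subset_of_nonneg (t := (Icc 1 D).image (e * ·)) (fun x hx => ?_)
    fun _ _ _ => by positivity).trans ((sum_image_le_of_nonneg fun _ _ => by positivity).trans_eq ?_)
  · obtain ⟨h1, c, rfl⟩ := mem_filter.1 hx
    obtain ⟨h2, h3⟩ := mem_Icc.1 h1
    exact mem_image.2 ⟨c, mem_Icc.2 ⟨Nat.pos_of_mul_pos_left h2, (Nat.le_mul_of_pos_left c he).trans h3⟩, rfl⟩
  · rw [Hs, sum_div]
    exact sum_congr rfl fun _ _ => by push_cast; ring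

lemma hs1 (D y : ℕ) {r : ℕ} (hr : 0 < r) :
    ∑ x ∈ Icc 1 D, (if r ∣ y * x then 1 / (x : ℝ) else 0) ≤ Hs D * r.gcd y / r := by
  obtain ⟨c, hc⟩ := Nat.gcd_dvd_left r y
  have g0 := Nat.gcd_pos_of_pos_left y hr
  refine (sum_le_sum fun x _ => ?_).trans ((hs0 D (e := c) (Nat.pos_of_mul_pos_left (hc ▸ hr))).trans_eq ?_)
  · split_ifs with h1 h2
    · rfl
    · refine (h2 (Nat.dvd_of_mul_dvd_mul_left g0 ?_)).elim
      rw [← hc]; exact Nat.dvd_gcd_mul_iff_dvd_mul.2 h1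
    · positivity
    · rfl
  · generalize r.gcd y = g at *
    subst hc; push_cast; field_simp

lemma hs2 (D : ℕ) {r : ℕ} (hr : 0 < r) :
    ∑ x ∈ Icc 1 D, (r.gcd x : ℝ) / x ≤ r.divisors.card * Hs D := by
  refine (sum_le_sum (g := fun x : ℕ => ∑ e ∈ r.divisors, (e : ℝ) * if e ∣ x then 1 / (x : ℝ) else 0)
    fun x _ => ?_).trans ?_
  · refine le_trans (le_of_eq ?_) (single_le_sum (a := r.gcd x) (fun _ _ => by positivity)
      (Nat.mem_divisors.2 ⟨Nat.gcd_dvd_left _ _, hr.ne'⟩))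
    rw [if_pos (Nat.gcd_dvd_right _ _)]; ring
  · rw [sum_comm, ← nsmul_eq_mul]
    refine sum_le_card_nsmul _ _ _ fun e he => ?_
    have e0 := Nat.pos_of_mem_divisors he
    rw [← mul_sum]
    exact (mul_le_mul_of_nonneg_left (hs0 D e0) (by positivity)).trans_eq (by field_simp)

lemma hs3 (D : ℕ) {r : ℕ} (hr : 0 < r) :
    ∑ d ∈ Icc 1 D ×ˢ Icc 1 D, (if r ∣ d.1.lcm d.2 then (d.1.gcd d.2 : ℝ) / (d.1 * d.2) else 0) ≤
      Hs D ^ 3 * (r.divisors.card ^ 2 / r) := by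
  set f : (ℕ × ℕ) × ℕ → ℝ := fun x => 1 / (x.1.1 * x.1.2) * if r ∣ x.1.1 * x.1.2 * x.2 then 1 / (x.2 : ℝ) else 0
    with hf
  have f0 : ∀ x, 0 ≤ f x := fun x => by simp only [hf]; positivity
  set i : ℕ × ℕ → (ℕ × ℕ) × ℕ := fun d => ((d.1 / d.1.gcd d.2, d.2 / d.1.gcd d.2), d.1.gcd d.2) with hi
  have k : ∀ d : ℕ × ℕ, (i d).1.1 * (i d).2 = d.1 ∧ (i d).1.2 * (i d).2 = d.2 := fun d =>
    ⟨Nat.div_mul_cancel (Nat.gcd_dvd_left _ _), Nat.div_mul_cancel (Nat.gcd_dvd_right _ _)⟩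
  calc _ = ∑ d ∈ Icc 1 D ×ˢ Icc 1 D, f (i d) := sum_congr rfl fun d hd => by
        obtain ⟨k1, k2⟩ := k d
        have g0 : 0 < (i d).2 := Nat.gcd_pos_of_pos_left _ (mem_Icc.1 (mem_product.1 hd).1).1
        have k3 : d.1.lcm d.2 = (i d).1.1 * (i d).1.2 * (i d).2 := by
          refine Nat.eq_of_mul_eq_mul_left g0 ((Nat.gcd_mul_lcm _ _).trans ?_)
          nth_rw 1 [← k1, ← k2]; ring
        rw [k3, show d.1.gcd d.2 = (i d).2 from rfl]
        simp only [hf]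
        generalize i d = x at *
        rw [← k1, ← k2]
        split_ifs
        · push_cast; field_simp
        · simp
    _ = ∑ x ∈ (Icc 1 D ×ˢ Icc 1 D).image i, f x := (sum_image fun d _ e _ h => by
        have := k d
        rw [h] at this
        exact Prod.ext (this.1.symm.trans (k e).1) (this.2.symm.trans (k e).2)).symm
    _ ≤ ∑ x ∈ (Icc 1 D ×ˢ Icc 1 D) ×ˢ Icc 1 D, f x := sum_le_sum_of_subset_of_nonneg (fun x hx => by
        obtain ⟨d, hd, rfl⟩ := mem_image.1 hx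
        obtain ⟨k1, k2⟩ := k d
        simp only [mem_product, mem_Icc] at hd ⊢
        generalize i d = x at *
        rw [← k1, ← k2] at hd
        have a1 := Nat.pos_of_mul_pos_left hd.1.1
        have a2 := Nat.pos_of_mul_pos_right hd.1.1
        have a3 := Nat.pos_of_mul_pos_right hd.2.1
        refine ⟨⟨⟨a2, ?_⟩, a3, ?_⟩, a1, ?_⟩ <;> nlinarith) fun x _ _ => f0 x
    _ ≤ ∑ x ∈ Icc 1 D ×ˢ Icc 1 D, Hs D / r * ((r.gcd x.1 : ℝ) / x.1 * (r.gcd x.2 / x.2)) := by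
        rw [sum_product]
        refine sum_le_sum fun x _ => ?_
        simp only [hf]
        rw [← mul_sum]
        refine (mul_le_mul_of_nonneg_left (hs1 D _ hr) (by positivity)).trans ?_
        have : (r.gcd (x.1 * x.2) : ℝ) ≤ r.gcd x.1 * r.gcd x.2 := by
          exact_mod_cast Nat.le_of_dvd (Nat.mul_pos (Nat.gcd_pos_of_pos_left _ hr)
            (Nat.gcd_pos_of_pos_left _ hr)) (Nat.gcd_mul_right_dvd_mul_gcd _ _ _)
        have := mul_le_mul_of_nonneg_left this (show 0 ≤ 1 / (x.1 * x.2 : ℝ) * Hs D / r by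
          have := Hs0 D; positivity)
        convert this using 1 <;> ring
    _ ≤ _ := by
        rw [← mul_sum, sum_product]
        dsimp only
        rw [← sum_mul_sum]
        have := Hs0 D
        refine (mul_le_mul_of_nonneg_left (mul_self_le_mul_self (sum_nonneg fun _ _ => by positivity)
          (hs2 D hr)) (by positivity)).trans_eq (by ring)

lemma tau {r : ℕ} (hr : 0 < r) (h : (Nat.factorial 16).Coprime r) : r.divisors.card ^ 4 ≤ r := by
  rw [Nat.card_divisors hr.ne', ← prod_pow]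
  nth_rw 3 [← Nat.factorization_prod_pow_eq_self hr.ne']
  refine prod_le_prod' fun p hp => ?_
  have p1 := Nat.prime_of_mem_primeFactors hp
  have : 16 ≤ p := by
    by_contra c
    exact p1.one_lt.ne' (Nat.eq_one_of_dvd_coprimes h (Nat.dvd_factorial p1.pos (by omega))
      (Nat.dvd_of_mem_primeFactors hp))
  refine (Nat.pow_le_pow_left Nat.lt_two_pow_self 4).trans ?_
  rw [← pow_mul, mul_comm, pow_mul]
  exact Nat.pow_le_pow_left this _

/-- Farey fractions -/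
def Fr (D : ℕ) : Finset ℚ := ((range D ×ˢ Icc 1 D).image fun x : ℕ × ℕ => (x.1 / x.2 : ℚ)).filter
  fun q => 0 ≤ q ∧ q < 1 ∧ q.den ≤ D

lemma num_eq {q : ℚ} (h0 : 0 ≤ q) (h1 : q < 1) : ∃ a < q.den, (a / q.den : ℚ) = q := by
  obtain ⟨a, ha⟩ := Int.eq_ofNat_of_zero_le (Rat.num_nonneg.2 h0)
  have e : (a / q.den : ℚ) = q := by
    nth_rw 2 [← Rat.num_div_den q]; rw [ha]; simp
  refine ⟨a, ?_, e⟩
  rw [← e, div_lt_one (by exact_mod_cast q.den_pos)] at h1
  exact_mod_cast h1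

lemma mem_Fr {D : ℕ} {q : ℚ} : q ∈ Fr D ↔ 0 ≤ q ∧ q < 1 ∧ q.den ≤ D := by
  refine ⟨fun h => (mem_filter.1 h).2, fun h => mem_filter.2 ⟨?_, h⟩⟩
  obtain ⟨a, a1, a2⟩ := num_eq h.1 h.2.1
  exact mem_image.2 ⟨(a, q.den), mem_product.2 ⟨mem_range.2 (a1.trans_le h.2.2),
    mem_Icc.2 ⟨q.den_pos, h.2.2⟩⟩, a2⟩

lemma card_Fr (D : ℕ) : (Fr D).card ≤ D ^ 2 :=
  (card_filter_le _ _).trans (card_image_le.trans_eq (by simp [sq]))

lemma Fr_dvd {D d : ℕ} (d0 : 0 < d) (hd : d ≤ D) :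
    (Fr D).filter (·.den ∣ d) = (range d).image fun a : ℕ => (a / d : ℚ) := by
  have d1 : (0 : ℚ) < d := by exact_mod_cast d0
  ext q
  simp only [mem_filter, mem_Fr, mem_image, mem_range]
  constructor
  · rintro ⟨⟨h0, h1, _⟩, c, rfl⟩
    obtain ⟨a, a1, a2⟩ := num_eq h0 h1
    have c0 := Nat.pos_of_mul_pos_left d0
    refine ⟨a * c, Nat.mul_lt_mul_of_pos_right a1 c0, ?_⟩
    push_cast
    rw [mul_div_mul_right _ _ (by exact_mod_cast c0.ne'), a2]
  · rintro ⟨a, a1, rfl⟩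
    have : (a / d : ℚ).den ∣ d := by
      have := Rat.den_dvd a d
      rw [Rat.divInt_eq_div, Int.cast_natCast, Int.cast_natCast] at this
      exact Int.natCast_dvd_natCast.1 this
    exact ⟨⟨by positivity, (div_lt_one d1).2 (by exact_mod_cast a1), (Nat.le_of_dvd d0 this).trans hd⟩, this⟩

lemma ram {D n : ℕ} (hn : n.Prime) (h : D < n) {d : ℕ} (d0 : 0 < d) (hd : d ≤ D) :
    ∑ q ∈ (Fr D).filter (·.den = d), E (n * q) = μ d := by
  have := (ArithmeticFunction.sum_eq_iff_sum_smul_moebius_eq_on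
    (f := fun d => ∑ q ∈ (Fr D).filter (·.den = d), E (n * q)) (g := fun d => if d = 1 then 1 else 0)
    (Set.Icc 1 D) (fun a c ac hc => ⟨Nat.pos_of_dvd_of_pos ac hc.1, (Nat.le_of_dvd hc.1 ac).trans hc.2⟩)).1
    (fun d d0 hd => by
      have d1 : (d : ℚ) ≠ 0 := by exact_mod_cast d0.ne'
      simp only [sum_filter]
      rw [sum_comm]
      simp only [sum_ite_eq, Nat.mem_divisors, ne_eq, d0.ne', not_false_eq_true, and_true]
      rw [← sum_filter, Fr_dvd d0 hd.2, sum_image fun a _ c _ e => by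
        exact_mod_cast (div_left_inj' d1).1 e]
      refine (sum_congr rfl fun a _ => ?_).trans ((orth d0 n).trans ?_)
      · congr 1; push_cast; ring
      · simp only [Int.natCast_dvd_natCast, Nat.dvd_prime hn, show d ≠ n by have := hd.2; omega, or_false]
        split_ifs with e <;> simp [e]) d d0 ⟨d0, hd⟩
  rw [← this, sum_eq_single_of_mem (d, 1) (by simp [d0.ne'])]
  · simp
  · rintro ⟨a, c⟩ ha hc
    rw [if_neg, smul_zero]
    rintro rfl
    exact hc (by simpa [d0.ne'] using ha)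

/-- frequencies -/
def Xs (W D : ℕ) : Finset ℚ := (Fr D).filter fun q => Squarefree q.den ∧ W.Coprime q.den

/-- Selberg sum -/
noncomputable def Gs (W D : ℕ) : ℝ :=
  ∑ d ∈ (Icc 1 D).filter fun d => Squarefree d ∧ W.Coprime d, 1 / (d : ℝ)

/-- weights -/
noncomputable def wt (q : ℚ) : ℝ := μ q.den / q.den

/-- square root of the majorant -/
noncomputable def us (W D n : ℕ) : ℂ := ∑ q ∈ Xs W D, wt q * E (n * q)

lemma fib {M : Type} [AddCommMonoid M] (W D : ℕ) (f : ℚ → M) : ∑ q ∈ Xs W D, f q =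
    ∑ d ∈ (Icc 1 D).filter fun d => Squarefree d ∧ W.Coprime d,
      ∑ q ∈ (Fr D).filter (·.den = d), f q := by
  rw [← sum_fiberwise_of_maps_to (g := Rat.den)
    (t := (Icc 1 D).filter fun d => Squarefree d ∧ W.Coprime d) fun q hq => ?_]
  · refine sum_congr rfl fun d hd => sum_congr ?_ fun _ _ => rfl
    rw [Xs, filter_filter]
    exact filter_congr fun q _ => ⟨fun h => h.2, fun h => ⟨h ▸ (mem_filter.1 hd).2, h⟩⟩
  · exact mem_filter.2 ⟨mem_Icc.2 ⟨q.den_pos, (mem_Fr.1 (mem_filter.1 hq).1).2.2⟩, (mem_filter.1 hq).2⟩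

lemma us_prime (W : ℕ) {D n : ℕ} (hn : n.Prime) (h : D < n) : us W D n = Gs W D := by
  rw [us, fib, Gs, Complex.ofReal_sum]
  refine sum_congr rfl fun d hd => ?_
  obtain ⟨h1, h2, _⟩ := mem_filter.1 hd
  have : (μ d : ℂ) ^ 2 = 1 := by exact_mod_cast ArithmeticFunction.moebius_sq_eq_one_of_squarefree h2
  rw [sum_congr rfl (g := fun q : ℚ => (μ d / d : ℂ) * E (n * q)) fun q hq => by
    rw [wt, (mem_filter.1 hq).2]; push_cast; rfl, ← mul_sum, ram hn h (mem_Icc.1 h1).1 (mem_Icc.1 h1).2]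
  push_cast
  rw [← this]; ring

lemma wt_le (q : ℚ) : |wt q| ≤ 1 / q.den := by
  rw [wt, abs_div, Nat.abs_cast]
  exact div_le_div_of_nonneg_right (by exact_mod_cast ArithmeticFunction.abs_moebius_le_one) (by positivity)

lemma G0_le (W D : ℕ) : ∑ q ∈ Xs W D, wt q ^ 2 ≤ Gs W D := by
  rw [fib]
  refine sum_le_sum fun d hd => ?_
  obtain ⟨d0, d1⟩ := mem_Icc.1 (mem_filter.1 hd).1
  refine (sum_le_card_nsmul _ _ ((1 / d : ℝ) ^ 2) fun q hq => ?_).trans ?_
  · rw [← sq_abs, ← (mem_filter.1 hq).2]; exact pow_le_pow_left₀ (abs_nonneg _) (wt_le q) 2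
  · have : (((Fr D).filter (·.den = d)).card : ℝ) ≤ d := by
      exact Nat.cast_le.2 <| (card_le_card (monotone_filter_right _ fun q _ h => Eq.dvd h)).trans
        ((congrArg card (Fr_dvd d0 d1)).trans_le (card_image_le.trans_eq (card_range d)))
    rw [nsmul_eq_mul]
    exact (mul_le_mul_of_nonneg_right this (by positivity)).trans_eq (by field_simp)

lemma Gs_ge {W : ℕ} (hW : 0 < W) (D : ℕ) : Real.log (D / W) / W ≤ 2 * Gs W D := by
  have W0 : (0 : ℝ) < W := by exact_mod_cast hW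
  calc _ ≤ Hs (D / W) / W := by
        refine div_le_div_of_nonneg_right ?_ W0.le
        rw [Hs_eq]
        refine le_trans ?_ (log_add_one_le_harmonic _)
        rcases Nat.eq_zero_or_pos D with rfl | D0
        · simp
        · refine Real.log_le_log (by positivity) ?_
          rw [div_le_iff₀ W0]
          exact_mod_cast (Nat.lt_mul_div_succ D hW).le.trans_eq (mul_comm _ _)
    _ ≤ ∑ j ∈ Icc 1 (D / W), 1 / ((W * (j - 1) + 1 : ℕ) : ℝ) := by
        rw [Hs, sum_div]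
        refine sum_le_sum fun j hj => ?_
        obtain ⟨i, rfl⟩ := Nat.exists_eq_add_of_le' (mem_Icc.1 hj).1
        rw [div_div, Nat.add_sub_cancel]
        refine one_div_le_one_div_of_le (by positivity) ?_
        have : (1 : ℝ) ≤ W := by exact_mod_cast hW
        push_cast; nlinarith
    _ = ∑ m ∈ (Icc 1 (D / W)).image fun j : ℕ => (W * (j - 1) + 1 : ℕ), 1 / ((m : ℕ) : ℝ) :=
        (sum_image (f := fun m : ℕ => 1 / (m : ℝ)) fun i hi j hj e => by
          have := Nat.eq_of_mul_eq_mul_left hW (Nat.add_right_cancel e)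
          have := (mem_Icc.1 hi).1
          have := (mem_Icc.1 hj).1
          omega).symm
    _ ≤ ∑ m ∈ (((Icc 1 D).filter fun d => Squarefree d ∧ W.Coprime d) ×ˢ Ioo 0 (D + 1)).image
          fun x : ℕ × ℕ => (x.2 ^ 2 * x.1 : ℕ), 1 / ((m : ℕ) : ℝ) := sum_le_sum_of_subset_of_nonneg (fun m hm => by
        obtain ⟨j, hj, rfl⟩ := mem_image.1 hm
        obtain ⟨i, rfl⟩ := Nat.exists_eq_add_of_le' (mem_Icc.1 hj).1
        obtain ⟨a, c, e, sq⟩ := Nat.sq_mul_squarefree (W * (i + 1 - 1) + 1)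
        refine mem_image.2 ⟨(a, c), ?_, e⟩
        rw [Nat.add_sub_cancel] at e
        have h1 := (Nat.le_div_iff_mul_le hW).1 (mem_Icc.1 hj).2
        have h2 : 0 < c ^ 2 * a := by omega
        have h3 := Nat.pos_of_mul_pos_left h2
        have h4 := Nat.pos_of_ne_zero fun k : c = 0 => by simp [k] at h2
        have h5 : W.Coprime (c ^ 2 * a) := by rw [e]; simp
        simp only [mem_product, mem_filter, mem_Icc, mem_Ioo]
        refine ⟨⟨⟨h3, ?_⟩, sq, h5.coprime_mul_left_right⟩, h4, ?_⟩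
        · nlinarith [Nat.le_mul_of_pos_left a (pow_pos h4 2)]
        · nlinarith [Nat.le_mul_of_pos_right (c ^ 2) h3]) fun _ _ _ => by positivity
    _ ≤ _ := by
        refine (sum_image_le_of_nonneg fun _ _ => by positivity).trans ?_
        rw [sum_product, Gs, mul_sum]
        refine sum_le_sum fun d _ => ?_
        have := mul_le_mul_of_nonneg_right (sum_Ioo_inv_sq_le (α := ℝ) 0 (D + 1))
          (show (0 : ℝ) ≤ 1 / d by positivity)
        rw [sum_mul] at this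
        refine le_trans (le_of_eq (sum_congr rfl fun _ _ => ?_)) (this.trans_eq (by simp))
        push_cast; ring

lemma cnt (S : Finset ℚ) (γ : ℚ) {d e : ℕ} (d0 : 0 < d)
    (h : ∀ q ∈ S, 0 ≤ q ∧ q < 1 ∧ q.den = d ∧ (q - γ).den = e) : S.card ≤ d.gcd e := by
  have g0 : (0 : ℚ) < d.gcd e := by exact_mod_cast Nat.gcd_pos_of_pos_left e d0
  refine (card_le_card_of_injOn (t := range (d.gcd e)) (fun q : ℚ => ⌊q * d.gcd e⌋₊) (fun q hq => ?_)
    fun q hq r hr k => ?_).trans_eq (card_range _)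
  · obtain ⟨h0, h1, -⟩ := h q hq
    exact mem_range.2 ((Nat.floor_lt (by positivity)).2 (by nlinarith))
  · obtain ⟨q0, q1, q2, q3⟩ := h q hq
    obtain ⟨r0, r1, r2, r3⟩ := h r hr
    have a1 := Rat.mul_den_eq_num q
    have a2 := Rat.mul_den_eq_num r
    have a3 := Rat.mul_den_eq_num (q - γ)
    have a4 := Rat.mul_den_eq_num (r - γ)
    rw [q2] at a1; rw [r2] at a2; rw [q3] at a3; rw [r3] at a4
    have a5 : ((d.gcd e : ℕ) : ℚ) = d * d.gcdA e + e * d.gcdB e := by exact_mod_cast Nat.gcd_eq_gcd_ab d e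
    have a6 : (q - r) * d.gcd e = (((q.num - r.num) * d.gcdA e +
        ((q - γ).num - (r - γ).num) * d.gcdB e : ℤ) : ℚ) := by
      push_cast; rw [a5, ← a1, ← a2, ← a3, ← a4]; ring
    generalize (q.num - r.num) * d.gcdA e + ((q - γ).num - (r - γ).num) * d.gcdB e = z at a6
    have b1 := Nat.floor_le (show 0 ≤ q * d.gcd e by positivity)
    have b2 := Nat.floor_le (show 0 ≤ r * d.gcd e by positivity)
    have b3 := Nat.lt_floor_add_one (q * d.gcd e)
    have b4 := Nat.lt_floor_add_one (r * d.gcd e)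
    dsimp only at k
    rw [k] at b1 b3
    have c1 : z < 1 := by exact_mod_cast show (z : ℚ) < 1 by linarith
    have c2 : -1 < z := by exact_mod_cast show -1 < (z : ℚ) by linarith
    obtain rfl : z = 0 := by omega
    exact sub_eq_zero.1 ((mul_eq_zero.1 (a6.trans Int.cast_zero)).resolve_right g0.ne')

lemma As_le (W D : ℕ) (γ : ℚ) : ∑ x ∈ (Xs W D).offDiag with x.1 - x.2 = γ, |wt x.1| * |wt x.2| ≤
    Hs D ^ 3 * (γ.den.divisors.card ^ 2 / γ.den) := by
  refine le_trans ?_ (hs3 D γ.den_pos)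
  have m : ∀ q ∈ Xs W D, _ := fun q hq => mem_Fr.1 (mem_filter.1 hq).1
  rw [← sum_fiberwise_of_maps_to (g := fun x : ℚ × ℚ => (x.1.den, x.2.den)) (t := Icc 1 D ×ˢ Icc 1 D)
    fun x hx => ?_]
  · refine sum_le_sum fun d hd => ?_
    set S := filter (fun x : ℚ × ℚ => (x.1.den, x.2.den) = d)
      (filter (fun x => x.1 - x.2 = γ) (Xs W D).offDiag) with hS
    have k : ∀ x ∈ S, (0 ≤ x.1 ∧ x.1 < 1 ∧ x.1.den = d.1 ∧ x.2.den = d.2) ∧ x.2 = x.1 - γ := fun x hx => by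
      simp only [hS, mem_filter, mem_offDiag] at hx
      obtain ⟨⟨⟨h1, -⟩, h2⟩, rfl⟩ := hx
      exact ⟨⟨(m _ h1).1, (m _ h1).2.1, rfl, rfl⟩, by rw [← h2]; ring⟩
    split_ifs with c
    · refine (sum_le_card_nsmul _ _ (1 / d.1 * (1 / d.2) : ℝ) fun x hx => ?_).trans ?_
      · rw [← (k x hx).1.2.2.1, ← (k x hx).1.2.2.2]
        exact mul_le_mul (wt_le _) (wt_le _) (abs_nonneg _) (by positivity)
      · have : (S.card : ℝ) ≤ d.1.gcd d.2 := by
          rw [← card_image_of_injOn (f := Prod.fst) fun x hx y hy e =>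
            Prod.ext e (by rw [(k x hx).2, (k y hy).2, e])]
          exact_mod_cast cnt _ γ (mem_Icc.1 (mem_product.1 hd).1).1 fun q hq => by
            obtain ⟨x, hx, rfl⟩ := mem_image.1 hq
            exact (k x hx).2 ▸ (k x hx).1
        rw [nsmul_eq_mul]
        exact (mul_le_mul_of_nonneg_right this (by positivity)).trans_eq (by ring)
    · refine (sum_eq_zero fun x hx => (c ?_).elim).le
      rw [← (k x hx).1.2.2.1, ← (k x hx).1.2.2.2, show γ = x.1 - x.2 by rw [(k x hx).2]; ring]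
      exact Rat.sub_den_dvd_lcm _ _
  · obtain ⟨h1, h2, -⟩ := mem_offDiag.1 (mem_filter.1 hx).1
    exact mem_product.2 ⟨mem_Icc.2 ⟨x.1.den_pos, (m _ h1).2.2⟩, mem_Icc.2 ⟨x.2.den_pos, (m _ h2).2.2⟩⟩

lemma us_sq (W D n : ℕ) : ((‖us W D n‖ ^ 2 - ∑ q ∈ Xs W D, wt q ^ 2 : ℝ) : ℂ) =
    ∑ x ∈ (Xs W D).offDiag, (wt x.1 * wt x.2 : ℝ) * E (n * (x.1 - x.2 : ℚ)) := by
  rw [Complex.ofReal_sub, Complex.ofReal_pow, ← Complex.mul_conj', us, map_sum, sum_mul_sum,
    ← sum_product', ← diag_union_offDiag, sum_union (disjoint_diag_offDiag _), sum_diag,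
    Complex.ofReal_sum, sub_eq_iff_eq_add']
  congr 1 <;> refine sum_congr rfl fun x _ => ?_ <;>
    rw [map_mul, E_conj, Complex.conj_ofReal, mul_mul_mul_comm, ← E_add]
  · simp [E_zero, sq]
  · push_cast; ring_nf

theorem T_le {b W D k r m : ℕ} (hb : 2 ≤ b) (hW : b * (b ^ 2 - 1) * Nat.factorial 16 ∣ W)
    (h2 : (D ^ 2) ^ 4 ≤ b ^ k) (h3 : Hs D ^ 3 / b ^ m ≤ 1 / 4)
    (h4 : Hs D ^ 3 * (1 - 1 / (b ^ 3 * (b + 1) ^ 2)) ^ (r / (2 * m + 2)) ≤ 1 / 4) (a : ℝ) :
    ‖∑ n ∈ range (b ^ (r + k + k)), ((‖us W D n‖ ^ 2 - ∑ q ∈ Xs W D, wt q ^ 2 : ℝ) : ℂ) *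
      E (ds b (r + k + k) (fun i => a / b ^ i) n)‖ ≤ b ^ (r + k + k) := by
  set O := (Xs W D).offDiag with hO
  set Y := O.image fun x => x.1 - x.2 with hY
  set A : ℚ → ℝ := fun γ => ∑ x ∈ O with x.1 - x.2 = γ, |wt x.1| * |wt x.2| with hA
  have y1 : Y.card ≤ (D ^ 2) ^ 2 := card_image_le.trans (((offDiag_card _).trans_le (Nat.sub_le _ _)).trans (by
    rw [← sq]
    exact Nat.pow_le_pow_left ((card_filter_le _ _).trans (card_Fr D)) 2))
  have y2 : ∀ γ ∈ Y, -1 < γ ∧ γ < 1 ∧ γ.den ≠ 1 ∧ γ.den ≤ D ^ 2 ∧ W.Coprime γ.den := fun γ h => by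
    obtain ⟨x, hx, rfl⟩ := mem_image.1 h
    obtain ⟨h1, h2, h3⟩ := mem_offDiag.1 hx
    obtain ⟨h1, -, c1⟩ := mem_filter.1 h1
    obtain ⟨h2, -, c2⟩ := mem_filter.1 h2
    rw [mem_Fr] at h1 h2
    have d1 := Rat.sub_den_dvd x.1 x.2
    refine ⟨by linarith, by linarith, fun c => h3 ?_, (Nat.le_of_dvd (Nat.mul_pos x.1.den_pos x.2.den_pos)
      d1).trans (sq D ▸ Nat.mul_le_mul h1.2.2 h2.2.2), (c1.mul_right c2).coprime_dvd_right d1⟩
    have e := Rat.coe_int_num_of_den_eq_one c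
    have e1 : (x.1 - x.2).num < 1 := by exact_mod_cast show ((x.1 - x.2).num : ℚ) < 1 by linarith
    have e2 : -1 < (x.1 - x.2).num := by exact_mod_cast show -1 < ((x.1 - x.2).num : ℚ) by linarith
    exact sub_eq_zero.1 (Rat.num_eq_zero.1 (by omega))
  have y3 : ∀ γ ∈ Y, A γ * FF b r a γ ≤ b ^ r / 4 := fun γ h => by
    obtain ⟨-, -, c1, -, c2⟩ := y2 γ h
    have c3 := c2.coprime_dvd_left hW
    have t : (γ.den.divisors.card : ℝ) ^ 4 ≤ γ.den := by
      exact_mod_cast tau γ.den_pos c3.coprime_mul_left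
    have d1 : (1 : ℝ) ≤ γ.den := by exact_mod_cast γ.den_pos
    have H0 : 0 ≤ Hs D ^ 3 := pow_nonneg (Hs0 D) 3
    have F0 : 0 ≤ FF b r a γ := prod_nonneg fun _ _ => norm_nonneg _
    refine (mul_le_mul_of_nonneg_right (As_le W D γ) F0).trans ?_
    rcases le_total γ.den (b ^ (2 * m)) with c | c
    · refine (mul_le_mul (mul_le_of_le_one_right H0 ((div_le_one (by linarith)).2
        (le_of_sq_le_sq (by nlinarith) (by linarith)))) (FF_sup hb a γ _ c1 c3.coprime_mul_right c r)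
        F0 H0).trans ?_
      rw [mul_left_comm]
      exact (mul_le_mul_of_nonneg_left h4 (by positivity)).trans_eq (by ring)
    · have c4 : ((b : ℝ) ^ m) ^ 2 ≤ γ.den := by rw [← pow_mul, mul_comm]; exact_mod_cast c
      have c5 : (γ.den.divisors.card : ℝ) ^ 2 / γ.den ≤ 1 / b ^ m := by
        rw [div_le_div_iff₀ (by linarith) (by positivity), one_mul]
        refine le_of_sq_le_sq ?_ (by linarith)
        rw [mul_pow, ← pow_mul, sq (γ.den : ℝ)]
        exact mul_le_mul t c4 (by positivity) (by linarith)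
      refine (mul_le_mul ((mul_le_mul_of_nonneg_left c5 H0).trans ((mul_one_div _ _).trans_le h3))
        (prod_le _ r) F0 (by norm_num)).trans_eq (by ring)
  have y4 : ∀ γ ∈ Y, b.Coprime γ.den := fun γ h =>
    ((y2 γ h).2.2.2.2.coprime_dvd_left hW).coprime_mul_right.coprime_mul_right
  have z1 := FF_ls hb (Y.filter (0 ≤ ·)) _ k ((card_filter_le _ _).trans y1) h2 0 (fun q hq => by
    obtain ⟨h, h0⟩ := mem_filter.1 hq
    exact ⟨h0, by linarith [(y2 q h).2.1], (y2 q h).2.2.2.1, y4 q h⟩) a r A (by positivity)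
    fun q hq => y3 q (mem_filter.1 hq).1
  have z2 := FF_ls hb (Y.filter (¬ 0 ≤ ·)) _ k ((card_filter_le _ _).trans y1) h2 (-1) (fun q hq => by
    obtain ⟨h, h0⟩ := mem_filter.1 hq
    exact ⟨(y2 q h).1.le, by linarith [not_le.1 h0], (y2 q h).2.2.2.1, y4 q h⟩) a r A (by positivity)
    fun q hq => y3 q (mem_filter.1 hq).1
  have z3 := add_le_add z1 z2
  rw [sum_filter_add_sum_filter_not] at z3
  refine le_trans ?_ (z3.trans_eq (by ring))
  simp only [us_sq, sum_mul, hA]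
  rw [sum_comm, ← sum_fiberwise_of_maps_to (t := Y) (g := fun x => x.1 - x.2)
    fun x hx => mem_image_of_mem _ hx]
  refine norm_sum_le_of_le _ fun γ _ => norm_sum_le_of_le _ fun x hx => le_of_eq ?_
  rw [(mem_filter.1 hx).2, sum_congr rfl fun n hn => by
    rw [mul_assoc, ← E_add, add_comm, ← ds_lin (mem_range.1 hn)], ← mul_sum, ds_prod (by omega),
    norm_mul, norm_prod, Complex.norm_real, Real.norm_eq_abs, abs_mul, FF]

end Pool.Agent.H59.SN
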