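import Mathlib
import Pool.Agent.Lead.Sel.Rs2
import Pool.Agent.H49.SelZB2
import Pool.Agent.H49.SelLD
import Pool.Agent.H61.SelC
import Pool.Agent.H55.SelHoh5

/-! Primes in short intervals: a lower bound of the right order. -/

set_option autoImplicit false
open MeasureTheory Finset Filter Topology Pool.Agent.Lead.Sel ArithmeticFunction Chebyshev
open Pool.Agent.H55.Hoh

namespace Pool.Agent.H59.SN

theorem short' (hRS : RS) (hVB : VB) (hZB : ZB) (hVM : VM) (hPW : PW) (hFJ : FJ) :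
    ∃ u0 v0 : ℝ, 1 ≤ u0 ∧ ∀ v, v0 ≤ v → ∃ T, Real.exp (v / (40 * u0)) ≤ 2 * T ∧
      T ≤ Real.exp (v / (40 * u0)) ∧
      ∀ a b : ℕ, (∀ n : ℕ, |Real.log n - v| < 1 / T → n ∈ Ioc a b) →
        Real.exp (v - 3) / 128 ≤ T * ∑ n ∈ Ioc a b, Λ n := by
  obtain ⟨C1, -, z1, h1⟩ := hRS
  obtain ⟨C2, -, z2, h2⟩ := hZB
  obtain ⟨C3, -, h3⟩ := hVM
  obtain ⟨c, hc, -, C4, -, z4, h4⟩ := hPW
  obtain ⟨v1, h5⟩ := main_term
  obtain ⟨C, hC, c1, c2, c3, c4⟩ : ∃ C : ℝ, 1 ≤ C ∧ C1 ≤ C ∧ C2 ≤ C ∧ C3 ≤ C ∧ C4 ≤ C :=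
    ⟨max 1 (max C1 (max C2 (max C3 C4))), by simp⟩
  obtain ⟨u0, A, K, K1, η, p1, p2, p3, p4, p5, p6, p7, p8, p9⟩ :=
    params hc hC (show 0 < Real.exp (-2) / 640 by positivity)
  obtain ⟨l0, h6⟩ := eventually_atTop.1 ((small_lin (show (0 : ℝ) < 1 / 40 by norm_num) p7).and
    ((eventually_ge_atTop (8 * K)).and (eventually_ge_atTop ((z1 : ℝ) + z2 + z4 + 8))))
  have hu0 : 0 < u0 := by linarith
  refine ⟨u0, max v1 (2 * u0 * max l0 1), by linarith, fun v hv => ?_⟩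
  have a1 : max l0 1 ≤ v / (2 * u0) := by
    rw [le_div_iff₀ (by positivity), mul_comm]; exact (le_max_right _ _).trans hv
  have a2 : v / u0 = 2 * (v / (2 * u0)) := by field_simp
  have a3 : 1 ≤ v / (2 * u0) := (le_max_right _ _).trans a1
  set z := ⌊Real.exp (v / u0)⌋₊ with hz
  have a4 : Real.exp (v / (2 * u0)) ≤ z := by
    have b1 := Nat.lt_floor_add_one (Real.exp (v / u0))
    have b2 := Real.add_one_le_exp (v / (2 * u0))
    rw [← hz, a2, two_mul, Real.exp_add] at b1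
    nlinarith
  have a5 : (0 : ℝ) < z := (Real.exp_pos _).trans_le a4
  obtain ⟨l, hl⟩ : ∃ l, l = Real.log z := ⟨_, rfl⟩
  have a6 : v / (2 * u0) ≤ l := hl ▸ (Real.le_log_iff_exp_le a5).2 a4
  have a7 : l ≤ v / u0 := hl ▸ (Real.log_le_iff_le_exp a5).2 (Nat.floor_le (Real.exp_pos _).le)
  obtain ⟨b1, b2, b3⟩ := h6 l ((le_max_left _ _).trans (a1.trans a6))
  have a8 : l ≤ z := hl ▸ (Real.log_le_sub_one_of_pos a5).trans (by linarith)
  have n1 : (0 : ℝ) ≤ z1 := Nat.cast_nonneg _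
  have n2 : (0 : ℝ) ≤ z2 := Nat.cast_nonneg _
  have n4 : (0 : ℝ) ≤ z4 := Nat.cast_nonneg _
  have hz2 : 2 ≤ z := by exact_mod_cast (show (2 : ℝ) ≤ z by linarith)
  have hl0 : 0 < l := by linarith
  have hv0 : 0 < v := by by_contra h; have := div_nonpos_of_nonpos_of_nonneg (not_lt.1 h) hu0.le
                         linarith
  have a9 : v / u0 ≤ v := div_le_self hv0.le (by linarith)
  obtain ⟨T, hT⟩ : ∃ T, T = Real.exp (l / 40) := ⟨_, rfl⟩
  rw [show 1 / 40 * l = l / 40 by ring, ← hT] at b1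
  have hT0 : 0 < T := hT ▸ Real.exp_pos _
  have hT8 : 8 ≤ T := by nlinarith
  refine ⟨T, ?_, ?_, fun a b hab => ?_⟩
  · have b4 : Real.exp (v / u0) ≤ 2 * z := by
      have := Nat.lt_floor_add_one (Real.exp (v / u0))
      rw [← hz] at this
      have : (2 : ℝ) ≤ z := by exact_mod_cast hz2
      linarith
    have b5 : v / u0 ≤ Real.log 2 + l := by
      rw [hl, ← Real.log_mul (by norm_num) a5.ne']
      exact (Real.le_log_iff_exp_le (by positivity)).2 b4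
    have b6 : 0 < Real.log 2 := Real.log_pos (by norm_num)
    rw [hT, ← Real.exp_log (show (0 : ℝ) < 2 by norm_num), ← Real.exp_add, Real.exp_le_exp,
      show v / (40 * u0) = v / u0 / 40 by field_simp]
    linarith
  · rw [hT, Real.exp_le_exp, show v / (40 * u0) = v / u0 / 40 by field_simp]; linarith
  have u1 : u0 ≤ v / l := by rw [le_div_iff₀ hl0, mul_comm, ← le_div_iff₀ hu0]; exact a7
  have u2 : v / l ≤ 2 * u0 := by
    rw [div_le_iff₀ hl0, mul_comm, ← div_le_iff₀ (by positivity)]; exact a6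
  have s1 : 1 < 1 + 1 / v := by simpa using hv0
  have s2 : 1 + 1 / v ≤ 2 := by have := (div_le_one hv0).2 (show 1 ≤ v by linarith); linarith
  have hΛ : Ms (1 + 1 / v) Λ (C * v) := by
    obtain ⟨d1, d2⟩ := h3 _ s1 s2
    unfold Ms
    simp only [abs_of_nonneg vonMangoldt_nonneg]
    refine ⟨d1, d2.trans ?_⟩
    rw [add_sub_cancel_left, div_div_eq_mul_div, div_one]; gcongr
  have hM : Ms (1 + 1 / v) (rough z) (2 * (v / l)) := by
    unfold Ms
    simp only [abs_of_nonneg (rough_nonneg z _)]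
    refine ⟨Summable.of_nonneg_of_le (fun n => mul_nonneg (rough_nonneg z n) (by positivity))
      (fun n => mul_le_of_le_one_left (by positivity) (rough_le z n))
      (Real.summable_nat_rpow.2 (by linarith)), ((h2 z (by
        exact_mod_cast (show (z2 : ℝ) ≤ z by linarith))).2 _ s1 s2).trans ?_⟩
    rw [add_sub_cancel_left, ← hl, show 1 / (l * (1 / v)) = v / l by field_simp]; linarith
  have key := bound (N := ⌊Real.exp (v + l)⌋₊) hC (RSz.mono (h1 z (by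
      exact_mod_cast (show (z1 : ℝ) ≤ z by linarith))) c1) hz2 hVB hFJ hc
    (fun v y0 K1 t q1 q2 q3 q4 q5 => (h4 z (by exact_mod_cast (show (z4 : ℝ) ≤ z by linarith))
      v y0 K1 t q1 q2 q3 q4 q5).trans (mul_le_mul_of_nonneg_right c4 (by
        have : 0 ≤ v := le_trans (by rw [← hl]; positivity) q1
        rw [← hl]; positivity)))
    hl hT rfl p5 (by linarith) (by linarith) p3 b1 p8 hT8 (div_mul_cancel₀ v hl0.ne').symm
    (p2.trans u1) (p4.trans u1) p6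
    (fun m hm => (Real.le_log_iff_exp_le ((Real.exp_pos _).trans (Nat.lt_of_floor_lt hm))).2
      (Nat.lt_of_floor_lt hm).le)
    (fun n hn => ((Real.log_le_iff_le_exp (by exact_mod_cast (mem_Ioc.1 hn).1)).2
      ((Nat.le_floor_iff (Real.exp_pos _).le).1 (mem_Ioc.1 hn).2)).trans (by linarith)) hΛ hM
  have k1 := (abs_le.1 (key.trans (p9 _ u1 u2))).1
  have k2 : 8 ≤ 1 / (K / l) := by rw [one_div_div, le_div_iff₀ (by linarith)]; exact b2
  have k3 : 1 / (K / l) ≤ l := by rw [one_div_div]; exact div_le_self hl0.le (by linarith)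
  have k4 := h5 v (K / l) z ⌊Real.exp (v + l)⌋₊ ((le_max_left _ _).trans hv) (by positivity) k2
    (by linarith) (Nat.floor_mono (Real.exp_le_exp.2 a9))
    (Nat.floor_mono (Real.exp_le_exp.2 (by linarith)))
  have k5 := upper (z := z) (N := ⌊Real.exp (v + l)⌋₊) hv0 (by linarith) hab
  have k6 : D (1 + 1 / v) (fun y => tr T y + -1 * tr (K / l) y) ⌊Real.exp (v + l)⌋₊ (Lam z) v =
      D (1 + 1 / v) (tr T) ⌊Real.exp (v + l)⌋₊ (Lam z) v -
        D (1 + 1 / v) (tr (K / l)) ⌊Real.exp (v + l)⌋₊ (Lam z) v := by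
    unfold D; rw [← sum_sub_distrib]; exact sum_congr rfl fun n _ => by ring
  have k7 : Real.exp (-2) = Real.exp (1 - v) * Real.exp (v - 3) := by
    rw [← Real.exp_add]; congr 1; ring
  refine le_of_mul_le_mul_left ?_ (Real.exp_pos (1 - v))
  rw [← mul_div_assoc, ← k7, ← mul_assoc]; linarith

theorem short2 : ∃ u0 v0 : ℝ, 1 ≤ u0 ∧ ∀ v, v0 ≤ v → ∃ T, Real.exp (v / (40 * u0)) ≤ 2 * T ∧
      T ≤ Real.exp (v / (40 * u0)) ∧
      ∀ a b : ℕ, (∀ n : ℕ, |Real.log n - v| < 1 / T → n ∈ Ioc a b) →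
        Real.exp (v - 3) / 128 ≤ T * ∑ n ∈ Ioc a b, Λ n :=
  have z : ZB := Pool.Agent.H49.Sel.zb rs vb
  short' rs vb z Pool.Agent.H61.SelA.vm
    (Pool.Agent.H61.SelC.pw (Pool.Agent.H49.Sel.ld z) Pool.Agent.H61.SelA.vm)
    Pool.Agent.H61.SelA.fj

theorem tile : ∃ (N0 A0 : ℕ) (c : ℝ), 4 ≤ N0 ∧ 0 < c ∧ ∀ (A H : ℕ) (z : ℝ), A0 ≤ A → H ≤ A →
    1 ≤ z → z ^ N0 ≤ A → 8 * A ≤ z * H → c * H ≤ ∑ n ∈ Ioc A (A + H), Λ n := by
  obtain ⟨u0, v0, hu, h⟩ := short2
  refine ⟨⌈40 * u0⌉₊, ⌈Real.exp (max v0 1)⌉₊, Real.exp (-4) / 2048,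
    by exact_mod_cast (show (4 : ℝ) ≤ ⌈40 * u0⌉₊ by linarith [Nat.le_ceil (40 * u0)]),
    by positivity, fun A H z h1 h2 h3 h4 h5 => ?_⟩
  have a1 : Real.exp (max v0 1) ≤ A := Nat.ceil_le.1 h1
  have a0 : (0 : ℝ) < A := (Real.exp_pos _).trans_le a1
  obtain ⟨α, hα⟩ : ∃ α, α = Real.log A := ⟨_, rfl⟩
  have a2 : max v0 1 ≤ α := hα ▸ (Real.le_log_iff_exp_le a0).2 a1
  have a3 : Real.exp α = A := by rw [hα, Real.exp_log a0]
  have u : 0 < 40 * u0 := by linarith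
  obtain ⟨δ, hδ⟩ : ∃ δ, δ = Real.exp (-(α / (40 * u0))) := ⟨_, rfl⟩
  have d0 : 0 < δ := hδ ▸ Real.exp_pos _
  have d1 : z * δ ≤ 1 := by
    have b1 : 40 * u0 * Real.log z ≤ α := by
      have := Real.log_le_log (by positivity) h4
      rw [Real.log_pow, ← hα] at this
      exact (mul_le_mul_of_nonneg_right (Nat.le_ceil _) (Real.log_nonneg h3)).trans this
    rw [hδ, ← Real.exp_log (show 0 < z by linarith), ← Real.exp_add, Real.exp_le_one_iff,
      ← sub_eq_add_neg, sub_nonpos, le_div_iff₀ u]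
    linarith
  have H1 : (H : ℝ) ≤ A := by exact_mod_cast h2
  have H0 : (0 : ℝ) ≤ H := Nat.cast_nonneg _
  have d2 : 1 ≤ H / (8 * A * δ) := by
    rw [le_div_iff₀ (by positivity)]
    nlinarith [mul_le_mul_of_nonneg_right h5 d0.le, mul_le_mul_of_nonneg_right d1 H0]
  set K := ⌊H / (8 * A * δ)⌋₊ with hK
  have k1 : (K : ℝ) * (8 * A * δ) ≤ H := (le_div_iff₀ (by positivity)).1 (Nat.floor_le (by linarith))
  have k2 : (H : ℝ) ≤ 2 * K * (8 * A * δ) := by
    have := Nat.lt_floor_add_one (H / (8 * A * δ))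
    have k3 : (1 : ℝ) ≤ K := Nat.one_le_cast.2 ((Nat.one_le_floor_iff _).2 d2)
    rw [← div_le_iff₀ (by positivity)]; linarith
  have k4 : 4 * K * δ ≤ H / (2 * A) := by rw [le_div_iff₀ (by positivity)]; linarith
  have k5 : (H : ℝ) / (2 * A) ≤ 1 / 2 := by rw [div_le_iff₀ (by positivity)]; linarith
  have key : ∀ i : ℕ, i ≤ K → i * (A * δ * Real.exp (-4) / 128) ≤
      ∑ n ∈ Ioc A ⌊Real.exp (α + 4 * i * δ)⌋₊, Λ n := by
    intro i
    induction i with
    | zero => intro _; simpa using sum_nonneg fun _ _ => vonMangoldt_nonneg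
    | succ i ih =>
      intro hi
      have i0 : (0 : ℝ) ≤ i := Nat.cast_nonneg _
      have i1 : (i : ℝ) + 1 ≤ K := by exact_mod_cast hi
      have i2 : 0 ≤ i * δ := by positivity
      obtain ⟨T, t1, t2, t3⟩ := h (α + (4 * i + 2) * δ) (by nlinarith [le_max_left v0 1])
      have t0 : 0 < T := by linarith [Real.exp_pos ((α + (4 * i + 2) * δ) / (40 * u0))]
      have t4 : 1 / T ≤ 2 * δ := by
        rw [div_le_iff₀ t0]
        have : 1 ≤ δ * Real.exp ((α + (4 * i + 2) * δ) / (40 * u0)) := by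
          rw [hδ, ← Real.exp_add, ← hδ, Real.one_le_exp_iff, add_div]
          have : 0 ≤ (4 * i + 2) * δ / (40 * u0) := by positivity
          linarith
        nlinarith
      have t5 : T * δ ≤ Real.exp 1 := by
        refine (mul_le_mul_of_nonneg_right t2 d0.le).trans ?_
        rw [hδ, ← Real.exp_add, ← hδ, Real.exp_le_exp, add_div]
        have : (4 * i + 2) * δ / (40 * u0) ≤ 1 := by rw [div_le_one u]; nlinarith
        linarith
      have m1 : A ≤ ⌊Real.exp (α + 4 * i * δ)⌋₊ :=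
        Nat.le_floor (by rw [← a3, Real.exp_le_exp]; linarith)
      have m2 : ⌊Real.exp (α + 4 * i * δ)⌋₊ ≤ ⌊Real.exp (α + 4 * (i + 1 : ℕ) * δ)⌋₊ :=
        Nat.floor_mono (Real.exp_le_exp.2 (by push_cast; linarith))
      have t6 := t3 ⌊Real.exp (α + 4 * i * δ)⌋₊ ⌊Real.exp (α + 4 * (i + 1 : ℕ) * δ)⌋₊ fun n hn => by
        obtain ⟨b1, b2⟩ := abs_lt.1 (hn.trans_le t4)
        have b3 : (0 : ℝ) < n := by
          rcases Nat.eq_zero_or_pos n with rfl | h0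
          · rw [Nat.cast_zero, Real.log_zero] at b1; linarith [le_max_right v0 1]
          · exact_mod_cast h0
        rw [mem_Ioc, Nat.floor_lt (Real.exp_pos _).le, Nat.le_floor_iff (Real.exp_pos _).le,
          ← Real.lt_log_iff_exp_lt b3, ← Real.log_le_iff_le_exp b3]
        push_cast
        constructor <;> linarith
      rw [← sum_Ioc_consecutive _ m1 m2]
      have := ih (by omega)
      set S := ∑ n ∈ Ioc ⌊Real.exp (α + 4 * i * δ)⌋₊ ⌊Real.exp (α + 4 * (i + 1 : ℕ) * δ)⌋₊, Λ n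
      have S0 : 0 ≤ S := sum_nonneg fun _ _ => vonMangoldt_nonneg
      have e1 : A * Real.exp (-4) * Real.exp 1 ≤ Real.exp (α + (4 * i + 2) * δ - 3) := by
        rw [← a3, ← Real.exp_add, ← Real.exp_add, Real.exp_le_exp]; linarith
      have e2 : A * δ * Real.exp (-4) / 128 ≤ S := by
        refine le_of_mul_le_mul_right ?_ (Real.exp_pos 1)
        nlinarith [mul_le_mul_of_nonneg_right t5 S0, mul_le_mul_of_nonneg_right e1 d0.le,
          mul_le_mul_of_nonneg_right t6 d0.le]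
      push_cast at this ⊢
      linarith
  have m3 : ⌊Real.exp (α + 4 * K * δ)⌋₊ ≤ A + H := by
    refine Nat.floor_le_of_le ?_
    rw [Real.exp_add, a3]
    have b1 : Real.exp (4 * K * δ) ≤ Real.exp (H / (2 * A)) := Real.exp_le_exp.2 k4
    have b0 : (0 : ℝ) ≤ H / (2 * A) := by positivity
    have b2 := Real.exp_bound_div_one_sub_of_interval b0 (by linarith)
    have b3 : 1 / (1 - (H : ℝ) / (2 * A)) ≤ 1 + 2 * (H / (2 * A)) := by
      rw [div_le_iff₀ (by linarith)]; nlinarith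
    have b4 : (A : ℝ) * (1 + 2 * (H / (2 * A))) = A + H := by field_simp
    push_cast
    rw [← b4]
    exact mul_le_mul_of_nonneg_left (b1.trans (b2.trans b3)) a0.le
  refine le_trans ?_ ((key K le_rfl).trans (sum_le_sum_of_subset_of_nonneg
    (Ioc_subset_Ioc_right m3) fun _ _ _ => vonMangoldt_nonneg))
  nlinarith [mul_le_mul_of_nonneg_right k2 (Real.exp_pos (-4)).le]

/-- Hoheisel type lower bound of the right order. -/
theorem hoheisel : ∃ (N0 A0 : ℕ) (c : ℝ), 0 < c ∧ ∀ (A H : ℕ) (z : ℝ), A0 ≤ A → H ≤ A →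
    1 ≤ z → z ^ N0 ≤ A → 8 * A ≤ z * H →
    c * H ≤ ((Ioc A (A + H)).filter Nat.Prime).card * Real.log (2 * A) := by
  obtain ⟨N0, A0, c, hN, hc, h⟩ := tile
  obtain ⟨C, hC⟩ := psi_sub_theta_le_mul_sqrt
  refine ⟨N0, max A0 ⌈(|C| / c + 1) ^ 4⌉₊, c / 2, by positivity, fun A H z h1 h2 h3 h4 h5 => ?_⟩
  have k := h A H z ((le_max_left _ _).trans h1) h2 h3 h4 h5
  have a1 : (|C| / c + 1) ^ 4 ≤ A := Nat.ceil_le.1 ((le_max_right _ _).trans h1)
  have a0 : (0 : ℝ) < A := lt_of_lt_of_le (by positivity) a1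
  have H1 : (H : ℝ) ≤ A := by exact_mod_cast h2
  obtain ⟨y, y0, hy⟩ : ∃ y : ℝ, 0 ≤ y ∧ y ^ 4 = A :=
    ⟨√(√A), by positivity, by
      rw [show 4 = 2 * 2 from rfl, pow_mul, Real.sq_sqrt (by positivity), Real.sq_sqrt a0.le]⟩
  have y1 : |C| / c + 1 ≤ y := le_of_pow_le_pow_left₀ (by norm_num) y0 (hy ▸ a1)
  have y2 : z ≤ y := le_of_pow_le_pow_left₀ (by norm_num) y0
    (hy ▸ (pow_le_pow_right₀ h3 hN).trans h4)
  have y3 : |C| ≤ c * y := by rw [← div_le_iff₀' hc]; linarith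
  have y4 : 0 < y := by linarith
  have y5 : √((A + H : ℕ) : ℝ) ≤ 2 * y ^ 2 := Real.sqrt_le_iff.2 ⟨by positivity, by
    push_cast; nlinarith⟩
  have y6 : 8 * y ^ 3 ≤ H := by
    refine le_of_mul_le_mul_left ?_ y4
    nlinarith [mul_le_mul_of_nonneg_right y2 (Nat.cast_nonneg (α := ℝ) H)]
  have y7 : C * √((A + H : ℕ) : ℝ) ≤ c / 2 * H := by
    refine (mul_le_mul_of_nonneg_right (le_abs_self C) (by positivity)).trans
      ((mul_le_mul y3 y5 (by positivity) (by positivity)).trans ?_)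
    nlinarith [mul_le_mul_of_nonneg_left y6 hc.le, mul_pos hc (pow_pos y4 3)]
  have e1 : ψ ((A + H : ℕ) : ℝ) = ψ (A : ℝ) + ∑ n ∈ Ioc A (A + H), Λ n := by
    rw [Chebyshev.psi, Chebyshev.psi, Nat.floor_natCast, Nat.floor_natCast,
      sum_Ioc_consecutive _ (Nat.zero_le _) (Nat.le_add_right _ _)]
  have e2 : θ ((A + H : ℕ) : ℝ) = θ (A : ℝ) + ∑ n ∈ Ioc A (A + H), H55.Hoh.lp n := by
    rw [theta_lp, theta_lp, Nat.floor_natCast, Nat.floor_natCast,
      sum_Ioc_consecutive _ (Nat.zero_le _) (Nat.le_add_right _ _)]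
  have e3 : ∑ n ∈ Ioc A (A + H), H55.Hoh.lp n ≤
      ((Ioc A (A + H)).filter Nat.Prime).card * Real.log (2 * A) := by
    unfold H55.Hoh.lp
    rw [← sum_filter, ← nsmul_eq_mul]
    refine sum_le_card_nsmul _ _ _ fun n hn => ?_
    obtain ⟨b1, b2⟩ := mem_Ioc.1 (mem_filter.1 hn).1
    exact Real.log_le_log (by exact_mod_cast (by omega : 0 < n))
      (by exact_mod_cast (by omega : n ≤ 2 * A))
  linarith [hC ((A + H : ℕ) : ℝ), theta_le_psi (A : ℝ)]

end Pool.Agent.H59.SN
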