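import Mathlib
import Pool.Agent.H59.RP2
import Pool.Agent.H59.SN1

/-! Sums of two reversed primes have positive lower density. -/

set_option autoImplicit false
open Finset Filter

namespace Pool.Agent.H59.SN

lemma orth2 {N x y : ℕ} (hx : x < N) (hy : y < N) :
    ∑ m ∈ range N, E (x * (m / N)) * E (-(y * (m / N))) = if x = y then (N : ℂ) else 0 := by
  refine (sum_congr rfl fun m _ => ?_).trans ((orth (by omega) (x - y)).trans (if_congr ?_ rfl rfl))
  · rw [← E_add]; congr 1; push_cast; ring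
  · exact ⟨fun h => (Nat.ModEq.eq_of_lt_of_lt (Nat.modEq_iff_dvd.2 h) hy hx).symm, fun h => by simp [h]⟩

lemma pars {N : ℕ} (S : Finset ℕ) (h : ∀ x ∈ S, x < N) :
    ∑ m ∈ range N, ‖∑ x ∈ S, E (x * (m / N))‖ ^ 2 = N * S.card := by
  refine Complex.ofReal_injective ?_
  push_cast
  simp only [← Complex.mul_conj', map_sum, E_conj, sum_mul_sum]
  rw [sum_comm, mul_comm, ← nsmul_eq_mul, ← sum_const]
  refine sum_congr rfl fun x hx => ?_
  rw [sum_comm, sum_congr rfl fun y hy => orth2 (h x hx) (h y hy), sum_ite_eq, if_pos hx]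

lemma four {N : ℕ} (hN : 0 < N) (R B I : Finset ℕ) (hR : ∀ x ∈ R, x < N) (hB : ∀ x ∈ B, x < N) (v : ℕ → ℕ)
    (f : ℕ → ℝ) (hv : ∀ r ∈ R, ∀ n ∈ I, r + v n < N) {s t : ℝ} (ht : 0 < t)
    (h : ∀ α : ℝ, ‖∑ n ∈ I, f n * E (v n * α)‖ ≤ s) :
    ∑ r ∈ R, ∑ n ∈ I, (if r + v n ∈ B then f n else 0) ≤ s * (t * R.card + B.card / t) / 2 := by
  have N0 : (0 : ℝ) < N := by exact_mod_cast hN
  have e : ((N * ∑ r ∈ R, ∑ n ∈ I, (if r + v n ∈ B then f n else 0) : ℝ) : ℂ) =
      ∑ m ∈ range N, (∑ x ∈ R, E (x * (m / N))) * (∑ n ∈ I, f n * E (v n * (m / N))) *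
        (starRingEnd ℂ) (∑ x ∈ B, E (x * (m / N))) := by
    simp only [sum_mul_sum]
    simp only [sum_mul]
    simp only [map_sum, E_conj, mul_sum, Complex.ofReal_sum]
    rw [sum_comm (s := range N)]
    refine sum_congr rfl fun r hr => ?_
    rw [sum_comm]
    refine sum_congr rfl fun n hn => ?_
    rw [sum_comm, sum_congr rfl (g := fun y => if r + v n = y then (f n * N : ℂ) else 0) fun y hy => ?_, sum_ite_eq]
    · split_ifs <;> simp [mul_comm]
    · rw [← mul_ite_zero, ← orth2 (hv r hr n hn) (hB y hy), mul_sum]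
      refine sum_congr rfl fun m _ => ?_
      rw [Nat.cast_add, add_mul, E_add]; ring
  refine le_of_mul_le_mul_left ((le_abs_self _).trans ?_) N0
  rw [← Real.norm_eq_abs, ← Complex.norm_real, e]
  refine (norm_sum_le_of_le _ (n := fun m : ℕ => s / 2 * (t * ‖∑ x ∈ R, E (x * (m / N))‖ ^ 2 +
    ‖∑ x ∈ B, E (x * (m / N))‖ ^ 2 / t)) fun m _ => ?_).trans_eq ?_
  · rw [norm_mul, norm_mul, Complex.norm_conj]
    have := h (m / N)
    have s0 := (norm_nonneg _).trans this
    generalize ‖∑ x ∈ R, E (x * (m / N))‖₊ = a at *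
    refine (mul_le_mul_of_nonneg_right (mul_le_mul_of_nonneg_left this (norm_nonneg _))
      (norm_nonneg _)).trans ?_
    generalize ‖∑ x ∈ R, E (x * (m / N))‖ = a
    generalize ‖∑ x ∈ B, E (x * (m / N))‖ = c
    obtain ⟨d, rfl⟩ : ∃ d, c = t * d := ⟨c / t, by field_simp⟩
    rw [show (t * d) ^ 2 / t = t * d ^ 2 by field_simp]
    nlinarith [mul_nonneg (mul_nonneg s0 ht.le) (sq_nonneg (a - d))]
  · rw [← mul_sum, sum_add_distrib, ← mul_sum, ← sum_div, pars R hR, pars B hB]; ring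

/-- reversal of `L` digits -/
def rv (b L n : ℕ) : ℕ := ∑ i ∈ range L, n / b ^ i % b * b ^ (L - 1 - i)

lemma rv_succ (b L n : ℕ) : rv b (L + 1) n = rv b L (n / b) + b ^ L * (n % b) := by
  rw [rv, sum_range_succ', rv]
  congr 1
  · refine sum_congr rfl fun i _ => ?_
    rw [pow_succ', Nat.div_div_eq_div_mul]; congr 2; omega
  · simp [mul_comm]

lemma rv_lt {b : ℕ} (hb : 0 < b) (L n : ℕ) : rv b L n < b ^ L := by
  induction L generalizing n with
  | zero => simp [rv]
  | succ L ih =>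
    rw [rv_succ, pow_succ]
    nlinarith [ih (n / b), Nat.mul_le_mul_left (b ^ L) (Nat.mod_lt n hb)]

lemma rv_inj {b : ℕ} (hb : 0 < b) (L : ℕ) {n m : ℕ} (hn : n < b ^ L) (hm : m < b ^ L)
    (h : rv b L n = rv b L m) : n = m := by
  induction L generalizing n m with
  | zero => rw [pow_zero] at hn hm; omega
  | succ L ih =>
    rw [rv_succ, rv_succ] at h
    have e := congrArg (· % b ^ L) h
    simp only [Nat.add_mul_mod_self_left, Nat.mod_eq_of_lt (rv_lt hb L _)] at e
    rw [e] at h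
    rw [pow_succ'] at hn hm
    rw [← Nat.div_add_mod n b, ← Nat.div_add_mod m b, ih (Nat.div_lt_of_lt_mul hn) (Nat.div_lt_of_lt_mul hm) e,
      Nat.eq_of_mul_eq_mul_left (pow_pos hb L) (Nat.add_left_cancel h)]

lemma rv_eq {b : ℕ} (hb : 2 ≤ b) (n : ℕ) :
    Nat.ofDigits b (Nat.digits b n).reverse = rv b (Nat.digits b n).length n := by
  induction n using Nat.strong_induction_on with
  | _ n ih =>
    rcases Nat.eq_zero_or_pos n with rfl | h
    · simp [rv]
    · rw [Nat.digits_def' hb h, List.reverse_cons, Nat.ofDigits_append, ih _ (Nat.div_lt_self h hb),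
        List.length_cons, rv_succ, List.length_reverse, Nat.ofDigits_singleton]

lemma rv_ds {b : ℕ} (hb : 0 < b) (L n : ℕ) (α : ℝ) :
    ds b L (fun i => α * b ^ (L - 1) / b ^ i) n = rv b L n * α := by
  rw [ds, rv, Nat.cast_sum, sum_mul]
  refine sum_congr rfl fun i hi => ?_
  have : (b : ℝ) ^ (L - 1) = b ^ (L - 1 - i) * b ^ i := by
    rw [← pow_add]; congr 1; have := mem_range.1 hi; omega
  rw [this]; push_cast; field_simp

theorem dens {b : ℕ} (hb : 2 ≤ b) : ∃ (c : ℝ) (j0 : ℕ), 0 < c ∧ ∀ j, j0 ≤ j → ∃ B : Finset ℕ,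
    (∀ x ∈ B, x < 2 * b ^ (17 * j) ∧ ∃ p q : ℕ, p.Prime ∧ q.Prime ∧ x =
      Nat.ofDigits b (Nat.digits b p).reverse + Nat.ofDigits b (Nat.digits b q).reverse) ∧
    c * b ^ (17 * j) ≤ B.card := by
  obtain ⟨N0, A0, c0, c1, hoh⟩ := hoheisel
  have b2 : (2 : ℝ) ≤ b := by exact_mod_cast hb
  have b0 : 0 < b := by omega
  obtain ⟨W, hW⟩ : ∃ W, W = b * (b ^ 2 - 1) * Nat.factorial 16 := ⟨_, rfl⟩
  obtain ⟨K, hK⟩ : ∃ K, K = 8 ^ N0 := ⟨_, rfl⟩
  have W0 : 0 < W := hW ▸ Nat.mul_pos (Nat.mul_pos b0 (Nat.sub_pos_of_lt (by nlinarith))) (Nat.factorial_pos _)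
  have W1 : (0 : ℝ) < W := by exact_mod_cast W0
  set ρ : ℝ := 1 - 1 / (b ^ 3 * (b + 1) ^ 2) with hρ
  have ρ1 : ρ < 1 := sub_lt_self _ (by positivity)
  have ρ0 : 1 / 2 ≤ ρ := by
    have : 1 / (b ^ 3 * (b + 1) ^ 2 : ℝ) ≤ 1 / 2 := one_div_le_one_div_of_le two_pos (b2.trans
      ((le_self_pow₀ (by linarith) three_ne_zero).trans
        (le_mul_of_one_le_right (by positivity) (one_le_pow₀ (by linarith)))))
    linarith
  have tt := (tendsto_pow_const_mul_const_pow_of_abs_lt_one 6 (r := ρ)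
    (abs_lt.2 ⟨by linarith, ρ1⟩)).const_mul ((20 * b : ℝ) ^ 3)
  rw [mul_zero] at tt
  obtain ⟨m0, hm0⟩ := eventually_atTop.1 (tt.eventually (ge_mem_nhds (show (0 : ℝ) < 1 / 4 by norm_num)))
  set c := c0 / (136 * W * b ^ 2) with hc
  have c2 : 0 < c := by positivity
  refine ⟨c / (2 + 1 / c ^ 2), 4 * (m0 + 1) ^ 2 + 8 * W + A0 + K, by positivity, fun j hj => ?_⟩
  obtain ⟨e, he⟩ : ∃ e, 17 * j = e + 1 := ⟨17 * j - 1, by omega⟩
  set m := (j / 4).sqrt with hm
  have m1 : m0 + 1 ≤ m := Nat.le_sqrt'.2 (by omega)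
  have m2 : m ^ 2 ≤ j / 4 := Nat.sqrt_le' _
  have m3 : j / 4 < (m + 1) ^ 2 := Nat.lt_succ_sqrt' _
  have m4 : m ≤ j / (2 * m + 2) := (Nat.le_div_iff_mul_le (by omega)).2 (by
    have := Nat.mul_div_le j 4; nlinarith)
  have m5 : j + 1 ≤ 20 * m ^ 2 := by
    have : j < 4 * (j / 4 + 1) := by omega
    nlinarith
  have lb : Real.log b ≤ b := by linarith [Real.log_le_sub_one_of_pos (show (0 : ℝ) < b by linarith)]
  have H1 : Hs (b ^ j) ^ 3 * ρ ^ m ≤ 1 / 4 := by
    refine le_trans ?_ (hm0 m (by omega))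
    rw [← mul_assoc, show (20 * b : ℝ) ^ 3 * m ^ 6 = (20 * m ^ 2 * b) ^ 3 by ring]
    refine mul_le_mul_of_nonneg_right (pow_le_pow_left₀ (Hs0 _) ?_ 3) (by positivity)
    have : (j : ℝ) + 1 ≤ 20 * m ^ 2 := by exact_mod_cast m5
    rw [Hs_eq]
    refine (harmonic_le_one_add_log _).trans ?_
    rw [Nat.cast_pow, Real.log_pow]
    nlinarith [mul_le_mul_of_nonneg_left lb (Nat.cast_nonneg j)]
  have H0 : 0 ≤ Hs (b ^ j) ^ 3 := pow_nonneg (Hs0 _) 3
  have T := T_le (W := W) (D := b ^ j) (k := 8 * j) (r := j) (m := m) hb hW.symm.dvd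
    (le_of_eq (by ring)) (le_trans (by
      rw [div_eq_mul_one_div, ← one_div_pow]
      exact mul_le_mul_of_nonneg_left (pow_le_pow_left₀ (by positivity)
        ((one_div_le_one_div_of_le two_pos b2).trans ρ0) m) H0) H1)
    ((mul_le_mul_of_nonneg_left (pow_le_pow_of_le_one (by linarith) ρ1.le m4) H0).trans H1)
  rw [show j + 8 * j + 8 * j = 17 * j by ring] at T
  set L := 17 * j with hL
  set G := Gs W (b ^ j) with hG
  have j1 : (8 * W : ℝ) ≤ j := by exact_mod_cast show 8 * W ≤ j by omega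
  have G1 : j / (8 * W) ≤ G := by
    have := Gs_ge W0 (b ^ j)
    rw [Real.log_div (by positivity) W1.ne', Nat.cast_pow, Real.log_pow, div_le_iff₀ W1] at this
    rw [div_le_iff₀ (by positivity)]
    nlinarith [Real.log_le_sub_one_of_pos W1, mul_le_mul_of_nonneg_left
      (Real.log_two_gt_d9.le.trans (Real.log_le_log two_pos b2)) (Nat.cast_nonneg (α := ℝ) j)]
  have G2 : 1 ≤ G := le_trans ((one_le_div (by positivity)).2 j1) G1
  have A1 : j ≤ b ^ e := (show j ≤ e by omega).trans (Nat.lt_pow_self hb).le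
  set Pr := (Ioc (b ^ e) (b ^ e + b ^ e)).filter Nat.Prime with hP
  have P1 : ∀ p ∈ Pr, p.Prime ∧ b ^ e < p ∧ p < b ^ L := fun p hp => by
    obtain ⟨h1, h2⟩ := mem_filter.1 hp
    obtain ⟨h3, h4⟩ := mem_Ioc.1 h1
    refine ⟨h2, h3, lt_of_le_of_ne (by rw [he, pow_succ]; nlinarith) fun k => ?_⟩
    have := (k ▸ h2).eq_one_of_pow
    omega
  have P2 : c * b ^ L ≤ G * Pr.card := by
    have := hoh (b ^ e) (b ^ e) 8 (by omega) le_rfl (by norm_num)
      (by exact_mod_cast hK ▸ show K ≤ b ^ e by omega) le_rfl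
    have l2 : Real.log (2 * (b ^ e : ℕ)) ≤ 17 * j * b := by
      refine (Real.log_le_log (y := b ^ L) (by positivity) ?_).trans ?_
      · rw [he, pow_succ', Nat.cast_pow]; gcongr
      · rw [Real.log_pow, hL]; push_cast; gcongr
    have := this.trans (mul_le_mul_of_nonneg_left l2 (by positivity))
    refine le_trans ?_ (mul_le_mul_of_nonneg_right G1 (by positivity))
    rw [hc, he, pow_succ, div_mul_eq_mul_div, div_mul_eq_mul_div, div_le_div_iff₀ (by positivity) (by positivity)]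
    push_cast at this
    convert mul_le_mul_of_nonneg_right this (show (0 : ℝ) ≤ b * (8 * W) by positivity) using 1 <;> ring
  set R := Pr.image (rv b L) with hR
  have R1 : R.card = Pr.card := card_image_of_injOn fun p hp q hq => rv_inj b0 L (P1 p hp).2.2 (P1 q hq).2.2
  have R2 : ∀ x ∈ R, x < b ^ L := fun x hx => by
    obtain ⟨p, _, rfl⟩ := mem_image.1 hx; exact rv_lt b0 _ _
  set B := image₂ (· + ·) R R with hB
  have B1 : ∀ x ∈ B, x < 2 * b ^ L := fun x hx => by
    obtain ⟨p, hp, q, hq, rfl⟩ := mem_image₂.1 hx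
    linarith [R2 p hp, R2 q hq]
  refine ⟨B, fun x hx => ⟨B1 x hx, ?_⟩, ?_⟩
  · obtain ⟨_, hp', _, hq', rfl⟩ := mem_image₂.1 hx
    obtain ⟨p, hp, rfl⟩ := mem_image.1 hp'
    obtain ⟨q, hq, rfl⟩ := mem_image.1 hq'
    have k : ∀ p ∈ Pr, Nat.ofDigits b (Nat.digits b p).reverse = rv b L p := fun p hp => by
      obtain ⟨h1, h2, h3⟩ := P1 p hp
      rw [rv_eq hb, Nat.digits_len b p hb h1.ne_zero, Nat.log_eq_of_pow_le_of_lt_pow h2.le (he ▸ h3), he]
    exact ⟨p, q, (P1 p hp).1, (P1 q hq).1, by rw [k p hp, k q hq]⟩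
  have F := four (N := 2 * b ^ L) (by positivity) R B (range (b ^ L))
    (fun x hx => by linarith [R2 x hx]) B1 (rv b L) _
    (fun r hr n _ => by linarith [R2 r hr, rv_lt b0 L n]) c2 fun α => by
      simpa only [rv_ds b0] using T (α * b ^ (L - 1))
  have F2 := (card_nsmul_le_sum R _ (G ^ 2 * Pr.card - G * B.card) fun r hr => ?_).trans F
  · rw [nsmul_eq_mul, R1] at F2
    have P0 : (0 : ℝ) ≤ Pr.card := by positivity
    have B0 : (0 : ℝ) ≤ B.card := by positivity
    have x0 : (0 : ℝ) < b ^ L := by positivity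
    generalize (Pr.card : ℝ) = z at *
    generalize (B.card : ℝ) = β at *
    generalize (b : ℝ) ^ L = x at *
    have y0 := (mul_pos c2 x0).trans_le P2
    have a1 : c * x * z ≤ G * z * (G * z) := mul_le_mul P2 (by nlinarith) P0 y0.le
    have a2 : x * (β / c) ≤ G * z * (1 / c ^ 2 * β) := by
      refine le_trans (le_of_eq ?_) (mul_le_mul_of_nonneg_right P2 (by positivity))
      field_simp
    rw [div_mul_eq_mul_div, div_le_iff₀ (by positivity)]
    refine P2.trans (le_of_mul_le_mul_left ?_ y0)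
    nlinarith only [a1, a2, F2]
  · simp only [sub_eq_add_neg (‖_‖ ^ 2), ite_add_zero, sum_add_distrib]
    refine add_le_add ?_ ?_
    · refine le_trans (le_of_eq ?_) (sum_le_sum_of_subset_of_nonneg (s := Pr)
        (fun p hp => mem_range.2 (P1 p hp).2.2) fun _ _ _ => by positivity)
      rw [mul_comm, ← nsmul_eq_mul, ← sum_const]
      refine sum_congr rfl fun p hp => ?_
      rw [if_pos (mem_image₂_of_mem hr (mem_image_of_mem _ hp)), us_prime W (P1 p hp).1
        ((Nat.pow_le_pow_right b0 (by omega)).trans_lt (P1 p hp).2.1), Complex.norm_real,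
        Real.norm_eq_abs, sq_abs]
    · rw [← sum_filter, sum_const, nsmul_eq_mul, mul_neg, neg_le_neg_iff, mul_comm]
      refine mul_le_mul (G0_le _ _) (Nat.cast_le.2 (card_le_card_of_injOn (fun n => r + rv b L n)
        (fun n hn => (mem_filter.1 hn).2) fun n hn m hm e => rv_inj b0 L
          (mem_range.1 (mem_filter.1 hn).1) (mem_range.1 (mem_filter.1 hm).1) (Nat.add_left_cancel e)))
        (by positivity) (by linarith)

open Classical in
/-- number of missed integers -/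
noncomputable def ms (A : Set ℕ) (n : ℕ) : ℝ := ∑ x ∈ range n, if x + 1 ∈ A then 0 else 1

lemma ms_add {A B C : Set ℕ} (A0 : 0 ∈ A) (B0 : 0 ∈ B) (h : ∀ a ∈ A, ∀ c ∈ B, a + c ∈ C) {τ : ℝ}
    (hB : ∀ n, ms B n ≤ τ * n) (n : ℕ) : ms C n ≤ τ * ms A n := by
  classical
  induction n using Nat.strong_induction_on with
  | _ n ih =>
    by_cases c : n ∈ A
    · rcases n with _ | n
      · simp [ms]
      · have := ih n (by omega)
        rw [ms, ms] at this ⊢
        rwa [sum_range_succ, sum_range_succ, if_pos c, if_pos (show n + 1 ∈ C from h _ c 0 B0), add_zero,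
          add_zero]
    · have a1 : Nat.findGreatest (· ∈ A) n ∈ A := Nat.findGreatest_spec (P := (· ∈ A)) n.zero_le A0
      have a2 := fun k => Nat.findGreatest_is_greatest (P := (· ∈ A)) (n := n) (k := k)
      obtain ⟨t, ht⟩ := Nat.exists_eq_add_of_le (Nat.findGreatest_le (P := (· ∈ A)) n)
      generalize Nat.findGreatest (· ∈ A) n = a at *
      subst ht
      have := ih a (lt_of_le_of_ne (by omega) fun k => c (k ▸ a1))
      have e := hB t
      rw [ms] at e
      rw [ms, ms] at this ⊢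
      rw [sum_range_add, sum_range_add, mul_add, sum_congr (s₁ := range t) rfl (g := fun _ => 1) fun x hx =>
        if_neg (a2 (a + x + 1) (by omega) (by have := mem_range.1 hx; omega))]
      refine add_le_add this ((sum_le_sum fun x _ => ?_).trans (e.trans_eq (by simp)))
      split_ifs with h1 h2 h2
      · rfl
      · norm_num
      · exact (h1 (h _ a1 _ h2)).elim
      · rfl

theorem schn {A : Set ℕ} (A0 : 0 ∈ A) {τ : ℝ} (τ0 : 0 ≤ τ) (τ1 : τ < 1) (hA : ∀ n, ms A n ≤ τ * n)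
    (S : ℕ → Set ℕ) (S0 : ∀ k, 0 ∈ S k) (h : ∀ k, ∀ x ∈ S k, ∀ a ∈ A, x + a ∈ S (k + 1)) :
    ∃ k, ∀ N, ∃ x ∈ S k, ∃ y ∈ S k, x + y = N := by
  classical
  have k1 : ∀ k n, ms (S k) n ≤ τ ^ k * n := fun k n => by
    induction k with
    | zero => exact (sum_le_card_nsmul _ _ 1 fun _ _ => by split_ifs <;> norm_num).trans_eq (by simp)
    | succ k ih =>
      rw [pow_succ', mul_assoc]
      exact (ms_add (S0 k) A0 (h k) hA n).trans (mul_le_mul_of_nonneg_left ih τ0)
  obtain ⟨k, hk⟩ := exists_pow_lt_of_lt_one (show (0 : ℝ) < 1 / 2 by norm_num) τ1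
  refine ⟨k, fun N => ?_⟩
  by_contra c
  push Not at c
  set f : ℕ → ℝ := fun x => if x ∈ S k then 0 else 1 with hf
  have e1 : ∑ x ∈ range (N + 1), f x = ms (S k) N := by
    rw [sum_range_succ', ms]; simp [hf, S0]
  have e2 := card_nsmul_le_sum (range (N + 1)) (fun x => f x + f (N + 1 - 1 - x)) 1 fun x hx => by
    simp only [hf]
    split_ifs with h1 h2
    · exact (c _ h1 _ h2 (by have := mem_range.1 hx; omega)).elim
    all_goals norm_num
  rw [sum_add_distrib, sum_range_reflect, e1] at e2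
  simp only [card_range, nsmul_eq_mul] at e2
  push_cast at e2
  nlinarith [k1 k N, mul_le_mul_of_nonneg_right hk.le (Nat.cast_nonneg (α := ℝ) N)]

lemma ms_le (A : Set ℕ) (B : Finset ℕ) (n : ℕ) (h : ∀ x ∈ B, x < n ∧ x + 1 ∈ A) : ms A n ≤ n - B.card := by
  classical
  rw [ms, sum_ite, sum_const_zero, zero_add, sum_const, nsmul_one, le_sub_iff_add_le']
  exact_mod_cast (Nat.add_le_add_right (card_le_card fun x hx => mem_filter.2
    ⟨mem_range.2 (h x hx).1, (h x hx).2⟩) _).trans_eq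
    ((card_filter_add_card_filter_not _).trans (card_range n))

end Pool.Agent.H59.SN
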