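import Mathlib
import Pool.Agent.H59.RP3
import Pool.Agent.H55.PNT

/-! Uniformity in the base for sums of reversed primes. -/

set_option autoImplicit false
open Finset Filter

namespace Pool.Agent.H59.SN

lemma tot {n k : ℕ} (h0 : 0 < n) (h : n < 2 ^ k) : n ≤ n.totient * k := by
  have a : ∀ S : Finset ℕ, (∀ p ∈ S, 2 ≤ p) → ∏ p ∈ S, p ≤ (S.card + 1) * ∏ p ∈ S, (p - 1) := fun S => by
    induction S using Finset.induction_on_max with
    | empty => simp
    | insert a S h1 ih =>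
      intro h2
      have a0 : a ∉ S := fun c => (h1 a c).false
      have := card_le_card (s := S) (t := Ico 2 a) fun p hp => mem_Ico.2 ⟨h2 p (mem_insert_of_mem hp), h1 p hp⟩
      have a2 := h2 a (mem_insert_self _ _)
      rw [Nat.card_Ico] at this
      rw [prod_insert a0, prod_insert a0, card_insert_of_notMem a0, ← mul_assoc]
      refine (Nat.mul_le_mul_left a (ih fun p hp => h2 p (mem_insert_of_mem hp))).trans ?_
      rw [← mul_assoc]
      obtain ⟨c, rfl⟩ := Nat.exists_eq_add_of_le' a2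
      exact Nat.mul_le_mul_right _ (by
        rw [show c + 2 - 1 = c + 1 from rfl]; rw [Nat.add_sub_cancel] at this; nlinarith)
  have a1 := fun p (hp : p ∈ n.primeFactors) => (Nat.prime_of_mem_primeFactors hp).two_le
  have a2 := (Nat.pow_lt_pow_iff_right one_lt_two).1 ((pow_card_le_prod _ _ 2 a1).trans_lt
    ((Nat.le_of_dvd h0 (Nat.prod_primeFactors_dvd n)).trans_lt h))
  have a3 := Nat.mul_le_mul_left n.totient (a _ a1)
  rw [Nat.totient_mul_prod_primeFactors, ← mul_assoc] at a3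
  exact (Nat.le_of_mul_le_mul_right a3 (prod_pos fun p hp => Nat.sub_pos_of_lt (a1 p hp))).trans
    (Nat.mul_le_mul_left _ a2)

lemma Gs_ge2 {W : ℕ} (hW : 0 < W) (D : ℕ) : W.totient / W * Real.log (D / W) ≤ 2 * Gs W D := by
  have W0 : (0 : ℝ) < W := by exact_mod_cast hW
  have k : ∀ J : ℕ, W.totient / W * Hs J ≤ ∑ m ∈ (Ico 1 (1 + J * W)).filter W.Coprime, 1 / (m : ℝ) := fun J => by
    induction J with
    | zero => simp [Hs]
    | succ J ih =>
      rw [sum_filter] at ih ⊢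
      rw [Hs, sum_Icc_succ_top (by omega), mul_add, Nat.succ_mul, ← add_assoc,
        ← sum_Ico_consecutive _ (Nat.le_add_right _ _) (Nat.le_add_right (1 + J * W) W)]
      refine add_le_add ih ?_
      rw [← sum_filter]
      refine le_trans (le_of_eq ?_) (card_nsmul_le_sum _ _ (1 / ((W * (J + 1) : ℕ) : ℝ)) fun m hm => ?_)
      · rw [Nat.filter_coprime_Ico_eq_totient, nsmul_eq_mul]; push_cast; field_simp
      · have := mem_Ico.1 (mem_filter.1 hm).1
        exact one_div_le_one_div_of_le (by exact_mod_cast show 0 < m by omega)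
          (by exact_mod_cast show m ≤ W * (J + 1) by nlinarith)
  calc _ ≤ W.totient / W * Hs (D / W) := by
        refine mul_le_mul_of_nonneg_left ?_ (by positivity)
        rw [Hs_eq]
        refine le_trans ?_ (log_add_one_le_harmonic _)
        rcases Nat.eq_zero_or_pos D with rfl | D0
        · simp
        · refine Real.log_le_log (by positivity) ?_
          rw [div_le_iff₀ W0]
          exact_mod_cast (Nat.lt_mul_div_succ D hW).le.trans_eq (mul_comm _ _)
    _ ≤ _ := k _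
    _ ≤ ∑ m ∈ (((Icc 1 D).filter fun d => Squarefree d ∧ W.Coprime d) ×ˢ Ioo 0 (D + 1)).image
          fun x : ℕ × ℕ => (x.2 ^ 2 * x.1 : ℕ), 1 / ((m : ℕ) : ℝ) := sum_le_sum_of_subset_of_nonneg (fun m hm => by
        obtain ⟨h6, h5⟩ := mem_filter.1 hm
        obtain ⟨a, c, rfl, sq⟩ := Nat.sq_mul_squarefree m
        refine mem_image.2 ⟨(a, c), ?_, rfl⟩
        have h1 := Nat.div_mul_le_self D W
        obtain ⟨h2, h7⟩ := mem_Ico.1 h6
        have h3 := Nat.pos_of_mul_pos_left h2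
        have h4 := Nat.pos_of_ne_zero fun k : c = 0 => by simp [k] at h2
        simp only [mem_product, mem_filter, mem_Icc, mem_Ioo]
        refine ⟨⟨⟨h3, ?_⟩, sq, h5.coprime_mul_left_right⟩, h4, ?_⟩
        · nlinarith [Nat.le_mul_of_pos_left a (pow_pos h4 2)]
        · nlinarith [Nat.le_mul_of_pos_right (c ^ 2) h3]) fun _ _ _ => by positivity
    _ ≤ _ := by
        refine (sum_image_le_of_nonneg fun _ _ => by positivity).trans ?_
        rw [sum_product, Gs, mul_sum]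
        refine sum_le_sum fun d _ => ?_
        have := mul_le_mul_of_nonneg_right (sum_Ioo_inv_sq_le (α := ℝ) 0 (D + 1))
          (show (0 : ℝ) ≤ 1 / d by positivity)
        rw [sum_mul] at this
        refine le_trans (le_of_eq (sum_congr rfl fun _ _ => ?_)) (this.trans_eq (by simp))
        push_cast; ring

theorem dens2 : ∃ K1 : ℕ, 0 < K1 ∧ ∀ b κ : ℕ, 2 ≤ b → b < 2 ^ κ → ∃ j0 : ℕ, ∀ j, j0 ≤ j → ∃ B : Finset ℕ,
    (∀ x ∈ B, x < 2 * b ^ (17 * j) ∧ ∃ p q : ℕ, p.Prime ∧ q.Prime ∧ x =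
      Nat.ofDigits b (Nat.digits b p).reverse + Nat.ofDigits b (Nat.digits b q).reverse) ∧
    b ^ (17 * j) ≤ K1 * κ * B.card := by
  obtain ⟨N0, A0, c0, c1, hoh⟩ := hoheisel
  refine ⟨⌈30000 / c0⌉₊, by positivity, fun b κ hb hκ => ?_⟩
  have b2 : (2 : ℝ) ≤ b := by exact_mod_cast hb
  have b0 : 0 < b := by omega
  have κ1 : 1 ≤ κ := Nat.pos_of_ne_zero fun h => by rw [h] at hκ; omega
  have κ0 : (0 : ℝ) < κ := by exact_mod_cast κ1
  obtain ⟨W, hW⟩ : ∃ W, W = b * (b ^ 2 - 1) * Nat.factorial 16 := ⟨_, rfl⟩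
  obtain ⟨K, hK⟩ : ∃ K, K = 8 ^ N0 := ⟨_, rfl⟩
  have W0 : 0 < W := hW ▸ Nat.mul_pos (Nat.mul_pos b0 (Nat.sub_pos_of_lt (by nlinarith))) (Nat.factorial_pos _)
  have W1 : (0 : ℝ) < W := by exact_mod_cast W0
  have W2 : (W : ℝ) ≤ W.totient * (48 * κ : ℕ) := by
    refine Nat.cast_mul (α := ℝ) _ _ ▸ Nat.cast_le.2 (tot W0 ?_)
    calc W ≤ b * b ^ 2 * 2 ^ 45 := hW.trans_le (Nat.mul_le_mul (Nat.mul_le_mul_left _ (Nat.sub_le _ _))
          (by norm_num [Nat.factorial]))
      _ = b ^ 3 * 2 ^ 45 := by ring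
      _ < (2 ^ κ) ^ 3 * 2 ^ (45 * κ) := Nat.mul_lt_mul_of_lt_of_le (Nat.pow_lt_pow_left hκ (by omega))
        (Nat.pow_le_pow_right two_pos (by omega)) (by positivity)
      _ = _ := by ring
  set ρ : ℝ := 1 - 1 / (b ^ 3 * (b + 1) ^ 2) with hρ
  have ρ1 : ρ < 1 := sub_lt_self _ (by positivity)
  have ρ0 : 1 / 2 ≤ ρ := by
    have : 1 / (b ^ 3 * (b + 1) ^ 2 : ℝ) ≤ 1 / 2 := one_div_le_one_div_of_le two_pos (b2.trans
      ((le_self_pow₀ (by linarith) three_ne_zero).trans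
        (le_mul_of_one_le_right (by positivity) (one_le_pow₀ (by linarith)))))
    linarith
  have tt := (tendsto_pow_const_mul_const_pow_of_abs_lt_one 6 (r := ρ)
    (abs_lt.2 ⟨by linarith, ρ1⟩)).const_mul ((20 * b : ℝ) ^ 3)
  rw [mul_zero] at tt
  obtain ⟨m0, hm0⟩ := eventually_atTop.1 (tt.eventually (ge_mem_nhds (show (0 : ℝ) < 1 / 4 by norm_num)))
  set c := c0 / (9792 * κ) with hc
  have c2 : 0 < c := by positivity
  obtain ⟨J, hJ⟩ := exists_nat_ge (384 * κ / c ^ 2)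
  refine ⟨4 * (m0 + 1) ^ 2 + 8 * W + A0 + K + J, fun j hj => ?_⟩
  obtain ⟨e, he⟩ : ∃ e, 17 * j = e + 1 := ⟨17 * j - 1, by omega⟩
  set m := (j / 4).sqrt with hm
  have m1 : m0 + 1 ≤ m := Nat.le_sqrt'.2 (by omega)
  have m2 : m ^ 2 ≤ j / 4 := Nat.sqrt_le' _
  have m3 : j / 4 < (m + 1) ^ 2 := Nat.lt_succ_sqrt' _
  have m4 : m ≤ j / (2 * m + 2) := (Nat.le_div_iff_mul_le (by omega)).2 (by
    have := Nat.mul_div_le j 4; nlinarith)
  have m5 : j + 1 ≤ 20 * m ^ 2 := by
    have : j < 4 * (j / 4 + 1) := by omega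
    nlinarith
  have lb : Real.log b ≤ b := by linarith [Real.log_le_sub_one_of_pos (show (0 : ℝ) < b by linarith)]
  have l0 : 1 / 2 ≤ Real.log b := by linarith [Real.log_two_gt_d9, Real.log_le_log two_pos b2]
  have H1 : Hs (b ^ j) ^ 3 * ρ ^ m ≤ 1 / 4 := by
    refine le_trans ?_ (hm0 m (by omega))
    rw [← mul_assoc, show (20 * b : ℝ) ^ 3 * m ^ 6 = (20 * m ^ 2 * b) ^ 3 by ring]
    refine mul_le_mul_of_nonneg_right (pow_le_pow_left₀ (Hs0 _) ?_ 3) (by positivity)
    have : (j : ℝ) + 1 ≤ 20 * m ^ 2 := by exact_mod_cast m5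
    rw [Hs_eq]
    refine (harmonic_le_one_add_log _).trans ?_
    rw [Nat.cast_pow, Real.log_pow]
    nlinarith [mul_le_mul_of_nonneg_left lb (Nat.cast_nonneg j)]
  have H0 : 0 ≤ Hs (b ^ j) ^ 3 := pow_nonneg (Hs0 _) 3
  have T := T_le (W := W) (D := b ^ j) (k := 8 * j) (r := j) (m := m) hb hW.symm.dvd
    (le_of_eq (by ring)) (le_trans (by
      rw [div_eq_mul_one_div, ← one_div_pow]
      exact mul_le_mul_of_nonneg_left (pow_le_pow_left₀ (by positivity)
        ((one_div_le_one_div_of_le two_pos b2).trans ρ0) m) H0) H1)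
    ((mul_le_mul_of_nonneg_left (pow_le_pow_of_le_one (by linarith) ρ1.le m4) H0).trans H1)
  rw [show j + 8 * j + 8 * j = 17 * j by ring] at T
  set L := 17 * j with hL
  set G := Gs W (b ^ j) with hG
  have j1 : (8 * W : ℝ) ≤ j := by exact_mod_cast show 8 * W ≤ j by omega
  have j2 : (J : ℝ) ≤ j := by exact_mod_cast show J ≤ j by omega
  have G1 : j * Real.log b ≤ 192 * κ * G := by
    have := Gs_ge2 W0 (b ^ j)
    rw [Real.log_div (by positivity) W1.ne', Nat.cast_pow, Real.log_pow, div_mul_eq_mul_div,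
      div_le_iff₀ W1] at this
    have a : j * Real.log b / 2 ≤ j * Real.log b - Real.log W := by
      nlinarith only [Real.log_le_sub_one_of_pos W1, mul_le_mul_of_nonneg_left l0 (Nat.cast_nonneg (α := ℝ) j),
        j1, W1]
    have a2 := (mul_le_mul_of_nonneg_left a (Nat.cast_nonneg W.totient)).trans this
    push_cast at W2
    refine le_of_mul_le_mul_left ?_ W1
    nlinarith only [mul_le_mul_of_nonneg_left a2 κ0.le, mul_le_mul_of_nonneg_right W2
      (show 0 ≤ j * Real.log b by positivity)]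
  have G2 : 1 ≤ G * c ^ 2 := by
    rw [div_le_iff₀ (by positivity)] at hJ
    refine le_of_mul_le_mul_left ?_ κ0
    nlinarith only [hJ, mul_le_mul_of_nonneg_right j2 (sq_nonneg c), mul_le_mul_of_nonneg_right
      ((mul_le_mul_of_nonneg_left l0 (Nat.cast_nonneg j)).trans G1) (sq_nonneg c)]
  have G0 : 0 < G := (pos_iff_pos_of_mul_pos (one_pos.trans_le G2)).2 (by positivity)
  have A1 : j ≤ b ^ e := (show j ≤ e by omega).trans (Nat.lt_pow_self hb).le
  have A2 : 2 * b ^ e ≤ b ^ L := by rw [he, pow_succ']; exact Nat.mul_le_mul_right _ hb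
  obtain ⟨A, hA⟩ : ∃ A, A = b ^ L / 2 := ⟨_, rfl⟩
  set Pr := (Ioc A (A + A)).filter Nat.Prime with hP
  have P1 : ∀ p ∈ Pr, p.Prime ∧ b ^ e < p ∧ p < b ^ L := fun p hp => by
    obtain ⟨h1, h2⟩ := mem_filter.1 hp
    obtain ⟨h3, h4⟩ := mem_Ioc.1 h1
    refine ⟨h2, by omega, lt_of_le_of_ne (by omega) fun k => ?_⟩
    have := (k ▸ h2).eq_one_of_pow
    omega
  have P2 : c * b ^ L ≤ G * Pr.card := by
    have := hoh A A 8 (by omega) le_rfl (by norm_num)
      (by exact_mod_cast hK ▸ show K ≤ A by omega) le_rfl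
    have l2 : Real.log (2 * A) ≤ 17 * (j * Real.log b) := by
      refine (Real.log_le_log (y := b ^ L) (by exact_mod_cast show 0 < 2 * A by omega)
        (by exact_mod_cast show 2 * A ≤ b ^ L by omega)).trans ?_
      rw [Real.log_pow, hL]; push_cast; linarith
    have := this.trans (mul_le_mul_of_nonneg_left (l2.trans (mul_le_mul_of_nonneg_left G1 (by norm_num)))
      (by positivity))
    have l3 : (b : ℝ) ^ L ≤ 3 * A := by exact_mod_cast show b ^ L ≤ 3 * A by omega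
    rw [hc, div_mul_eq_mul_div, div_le_iff₀ (by positivity)]
    nlinarith only [this, mul_le_mul_of_nonneg_left l3 c1.le]
  set R := Pr.image (rv b L) with hR
  have R1 : R.card = Pr.card := card_image_of_injOn fun p hp q hq => rv_inj b0 L (P1 p hp).2.2 (P1 q hq).2.2
  have R2 : ∀ x ∈ R, x < b ^ L := fun x hx => by
    obtain ⟨p, _, rfl⟩ := mem_image.1 hx; exact rv_lt b0 _ _
  set B := image₂ (· + ·) R R with hB
  have B1 : ∀ x ∈ B, x < 2 * b ^ L := fun x hx => by
    obtain ⟨p, hp, q, hq, rfl⟩ := mem_image₂.1 hx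
    linarith [R2 p hp, R2 q hq]
  refine ⟨B, fun x hx => ⟨B1 x hx, ?_⟩, ?_⟩
  · obtain ⟨_, hp', _, hq', rfl⟩ := mem_image₂.1 hx
    obtain ⟨p, hp, rfl⟩ := mem_image.1 hp'
    obtain ⟨q, hq, rfl⟩ := mem_image.1 hq'
    have k : ∀ p ∈ Pr, Nat.ofDigits b (Nat.digits b p).reverse = rv b L p := fun p hp => by
      obtain ⟨h1, h2, h3⟩ := P1 p hp
      rw [rv_eq hb, Nat.digits_len b p hb h1.ne_zero, Nat.log_eq_of_pow_le_of_lt_pow h2.le (he ▸ h3), he]
    exact ⟨p, q, (P1 p hp).1, (P1 q hq).1, by rw [k p hp, k q hq]⟩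
  have F := four (N := 2 * b ^ L) (by positivity) R B (range (b ^ L))
    (fun x hx => by linarith [R2 x hx]) B1 (rv b L) _
    (fun r hr n _ => by linarith [R2 r hr, rv_lt b0 L n]) (show 0 < G * c / 2 by positivity) fun α => by
      simpa only [rv_ds b0] using T (α * b ^ (L - 1))
  have F2 := (card_nsmul_le_sum R _ (G ^ 2 * Pr.card - G * B.card) fun r hr => ?_).trans F
  · rw [nsmul_eq_mul, R1] at F2
    rw [← Nat.cast_le (α := ℝ)]
    push_cast
    have P0 : (0 : ℝ) ≤ Pr.card := by positivity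
    have B0 : (0 : ℝ) ≤ B.card := by positivity
    have x0 : (0 : ℝ) < b ^ L := by positivity
    generalize (Pr.card : ℝ) = z at *
    generalize (B.card : ℝ) = β at *
    generalize (b : ℝ) ^ L = x at *
    have y0 := (mul_pos c2 x0).trans_le P2
    have a1 : c * x * (G * z) ≤ G * z * (G * z) := mul_le_mul_of_nonneg_right P2 y0.le
    have a2 : x * (β / (G * c / 2)) ≤ G * z * (2 * β) := by
      refine le_trans ?_ (mul_le_mul_of_nonneg_right P2 (by positivity))
      rw [← mul_div_assoc, div_le_iff₀ (by positivity)]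
      nlinarith only [mul_le_mul_of_nonneg_left G2 (mul_nonneg x0.le B0)]
    have a3 : 3 * (G * z) ≤ 8 * β := le_of_mul_le_mul_left (by nlinarith only [a1, a2, F2]) y0
    have a4 := (div_le_iff₀ c1).1 (Nat.le_ceil (30000 / c0))
    rw [hc, div_mul_eq_mul_div, div_le_iff₀ (by positivity)] at P2
    refine le_of_mul_le_mul_left ?_ c1
    nlinarith only [P2, mul_le_mul_of_nonneg_right a3 κ0.le, mul_le_mul_of_nonneg_right a4
      (mul_nonneg κ0.le B0), mul_nonneg κ0.le B0]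
  · simp only [sub_eq_add_neg (‖_‖ ^ 2), ite_add_zero, sum_add_distrib]
    refine add_le_add ?_ ?_
    · refine le_trans (le_of_eq ?_) (sum_le_sum_of_subset_of_nonneg (s := Pr)
        (fun p hp => mem_range.2 (P1 p hp).2.2) fun _ _ _ => by positivity)
      rw [mul_comm, ← nsmul_eq_mul, ← sum_const]
      refine sum_congr rfl fun p hp => ?_
      rw [if_pos (mem_image₂_of_mem hr (mem_image_of_mem _ hp)), us_prime W (P1 p hp).1
        ((Nat.pow_le_pow_right b0 (by omega)).trans_lt (P1 p hp).2.1), Complex.norm_real,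
        Real.norm_eq_abs, sq_abs]
    · rw [← sum_filter, sum_const, nsmul_eq_mul, mul_neg, neg_le_neg_iff, mul_comm]
      refine mul_le_mul (G0_le _ _) (Nat.cast_le.2 (card_le_card_of_injOn (fun n => r + rv b L n)
        (fun n hn => (mem_filter.1 hn).2) fun n hn m hm e => rv_inj b0 L
          (mem_range.1 (mem_filter.1 hn).1) (mem_range.1 (mem_filter.1 hm).1) (Nat.add_left_cancel e)))
        (by positivity) G0.le

theorem schn2 {A : Set ℕ} (A0 : 0 ∈ A) {τ : ℝ} (τ0 : 0 ≤ τ) (hA : ∀ n, ms A n ≤ τ * n)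
    (S : ℕ → Set ℕ) (S0 : ∀ k, 0 ∈ S k) (h : ∀ k, ∀ x ∈ S k, ∀ a ∈ A, x + a ∈ S (k + 1))
    {k : ℕ} (hk : τ ^ k ≤ 1 / 2) (N : ℕ) : ∃ x ∈ S k, ∃ y ∈ S k, x + y = N := by
  classical
  have k1 : ∀ k n, ms (S k) n ≤ τ ^ k * n := fun k n => by
    induction k with
    | zero => exact (sum_le_card_nsmul _ _ 1 fun _ _ => by split_ifs <;> norm_num).trans_eq (by simp)
    | succ k ih =>
      rw [pow_succ', mul_assoc]
      exact (ms_add (S0 k) A0 (h k) hA n).trans (mul_le_mul_of_nonneg_left ih τ0)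
  by_contra c
  push Not at c
  set f : ℕ → ℝ := fun x => if x ∈ S k then 0 else 1 with hf
  have e1 : ∑ x ∈ range (N + 1), f x = ms (S k) N := by
    rw [sum_range_succ', ms]; simp [hf, S0]
  have e2 := card_nsmul_le_sum (range (N + 1)) (fun x => f x + f (N + 1 - 1 - x)) 1 fun x hx => by
    simp only [hf]
    split_ifs with h1 h2
    · exact (c _ h1 _ h2 (by have := mem_range.1 hx; omega)).elim
    all_goals norm_num
  rw [sum_add_distrib, sum_range_reflect, e1] at e2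
  simp only [card_range, nsmul_eq_mul] at e2
  push_cast at e2
  nlinarith [k1 k N, mul_le_mul_of_nonneg_right hk (Nat.cast_nonneg (α := ℝ) N)]

lemma loc (B : Finset ℕ) {M k : ℕ} (M0 : 0 < M) (k0 : 0 < k) (hB : ∀ x ∈ B, x < M) (h : 2 * M ≤ k * B.card) :
    ∃ x Y, x ∈ B ∧ M ≤ k * Y ∧ ∀ A : Set ℕ, (∀ z, Y < z → z ∈ A) → (∀ z, x + z ∈ B → z + 1 ∈ A) →
      ∀ n, ms A n ≤ (1 - 1 / k) * n := by
  classical
  have k1 : (1 : ℝ) ≤ k := by exact_mod_cast k0
  set g : ℕ → ℝ := fun z => if z ∈ B then 1 else 0 with hg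
  obtain ⟨x, x1, x2⟩ := exists_min_image (range (M + 1)) (fun x => k * ∑ z ∈ range x, g z - x) ⟨0, by simp⟩
  obtain ⟨Y, rfl⟩ := Nat.exists_eq_add_of_le (Nat.le_of_lt_succ (mem_range.1 x1))
  have a : ∀ y ≤ Y, (y : ℝ) ≤ k * ∑ z ∈ range y, g (x + z) := fun y hy => by
    have := x2 (x + y) (mem_range.2 (by omega))
    rw [sum_range_add, mul_add] at this; push_cast at this; linarith
  have a1 : x + Y ≤ k * Y := by
    have e : ∑ z ∈ range (x + Y), g z = B.card := by
      rw [hg, sum_boole, filter_mem_eq_inter, inter_eq_right.2 fun z hz => mem_range.2 (hB z hz)]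
    have e2 : ∑ z ∈ range Y, g (x + z) ≤ Y :=
      (sum_le_card_nsmul _ _ 1 fun _ _ => by simp only [hg]; split_ifs <;> norm_num).trans_eq (by simp)
    have e3 := x2 0 (by simp)
    have e4 : (2 * (x + Y) : ℝ) ≤ k * B.card := by exact_mod_cast h
    rw [sum_range_add] at e
    simp only [range_zero, sum_empty] at e3
    rw [← Nat.cast_le (α := ℝ)]; push_cast at e3 ⊢
    rw [← e] at e4
    nlinarith [mul_le_mul_of_nonneg_left e2 (zero_le_one.trans k1)]
  refine ⟨x, Y, ?_, a1, fun A h1 h2 n => ?_⟩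
  · have := a 1 (Nat.pos_of_mul_pos_left (M0.trans_le a1))
    by_contra c
    rw [sum_range_one] at this
    simp [hg, c] at this; linarith
  · have u : ∀ y ≤ Y, ms A y ≤ (1 - 1 / k) * y := fun y hy => by
      refine (sum_le_sum (g := fun z => 1 - g (x + z)) fun z _ => ?_).trans ?_
      · simp only [hg]
        split_ifs with c1 c2 c2
        · norm_num
        · norm_num
        · exact (c1 (h2 z c2)).elim
        · norm_num
      · have := (div_le_iff₀' (by linarith)).2 (a y hy)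
        rw [sum_sub_distrib, sum_const, card_range, nsmul_one, sub_mul, one_mul, one_div_mul_eq_div]
        linarith
    rcases le_total n Y with c | c
    · exact u n c
    · obtain ⟨t, rfl⟩ := Nat.exists_eq_add_of_le c
      have := u Y le_rfl
      rw [ms] at this ⊢
      rw [sum_range_add, sum_eq_zero (s := range t) fun z _ => if_pos (h1 _ (by omega)), add_zero]
      exact this.trans (mul_le_mul_of_nonneg_left (by simp) (sub_nonneg.2 ((div_le_one (by linarith)).2 k1)))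

lemma half {k : ℕ} (k0 : 0 < k) : (1 - 1 / k : ℝ) ^ k ≤ 1 / 2 := by
  have := Real.one_sub_div_pow_le_exp_neg (n := k) (t := 1) (by exact_mod_cast k0)
  refine this.trans ?_
  rw [Real.exp_neg, one_div]
  exact inv_anti₀ two_pos (by linarith [Real.add_one_le_exp 1])

lemma gre (Q : ℕ → ℕ → Prop) (Q0 : ∀ K, Q K 0) (Q1 : ∀ {K L M N}, Q K M → Q L N → Q (K + L) (M + N))
    (P : ℕ → ℕ → Prop) (w Z : ℕ) (h0 : ∀ T, P 0 T → T < Z)
    (h : ∀ n T, P (n + 1) T → Z ≤ T → ∃ r, Q w r ∧ r ≤ T ∧ P n (T - r)) (n T : ℕ) (hP : P n T) :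
    ∃ S, Q (n * w) S ∧ S ≤ T ∧ T < S + Z := by
  induction n generalizing T with
  | zero => exact ⟨0, Q0 _, T.zero_le, by simpa using h0 T hP⟩
  | succ n ih =>
    rcases lt_or_ge T Z with c | c
    · exact ⟨0, Q0 _, T.zero_le, by simpa⟩
    · obtain ⟨r, r1, r2, r3⟩ := h n T hP c
      obtain ⟨S, S1, S2, S3⟩ := ih _ r3
      exact ⟨S + r, Nat.succ_mul n w ▸ Q1 S1 r1, by omega, by omega⟩

lemma qex : ∃ K : ℕ, ∀ b κ A : ℕ, 0 < b → b < 2 ^ κ → K * (κ + 1) ≤ A →
    ∃ q : ℕ, q.Prime ∧ A < q ∧ q ≤ 2 * A ∧ q.Coprime b := by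
  obtain ⟨N0, A0, c, c0, hoh⟩ := hoheisel
  obtain ⟨K, hK⟩ : ∃ K, K = 8 ^ N0 := ⟨_, rfl⟩
  obtain ⟨J, hJ⟩ := exists_nat_ge (2 / c)
  refine ⟨A0 + K + J + 2, fun b κ A b0 h1 h2 => ?_⟩
  have a1 := (Nat.le_mul_of_pos_right _ κ.succ_pos).trans h2
  have := hoh A A 8 (by omega) le_rfl (by norm_num) (by exact_mod_cast hK ▸ show K ≤ A by omega) le_rfl
  by_contra c1
  push Not at c1
  set S := (Ioc A (A + A)).filter Nat.Prime with hS
  have m : ∀ p ∈ S, p.Prime ∧ A < p ∧ p ≤ 2 * A := fun p hp => by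
    simp only [hS, mem_filter, mem_Ioc] at hp; exact ⟨hp.2, hp.1.1, by omega⟩
  have a2 : ((A ^ S.card : ℕ) : ℝ) ≤ (2 ^ κ : ℕ) := Nat.cast_le.2 <| (pow_card_le_prod _ _ A fun p hp =>
    (m p hp).2.1.le).trans ((Nat.le_of_dvd b0 (Finset.prod_primes_dvd _ (fun p hp => (m p hp).1.prime)
      fun p hp => by
        by_contra c2
        exact c1 p (m p hp).1 (m p hp).2.1 (m p hp).2.2 ((m p hp).1.coprime_iff_not_dvd.2 c2))).trans h1.le)
  have a3 : (2 : ℝ) ≤ A := by exact_mod_cast show 2 ≤ A by omega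
  have a4 := Real.log_le_log (by push_cast; positivity) a2
  have a5 : (J : ℝ) * (κ + 1) ≤ A := by exact_mod_cast (Nat.mul_le_mul_right _ (by omega)).trans h2
  rw [Real.log_mul two_ne_zero (by positivity)] at this
  rw [Nat.cast_pow, Nat.cast_pow, Real.log_pow, Real.log_pow, Nat.cast_ofNat] at a4
  rw [div_le_iff₀ c0] at hJ
  nlinarith [mul_le_mul_of_nonneg_left (Real.log_le_log two_pos a3) (Nat.cast_nonneg S.card),
    mul_le_mul_of_nonneg_left Real.log_two_lt_d9.le (Nat.cast_nonneg κ),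
    mul_le_mul_of_nonneg_left a5 c0.le, mul_le_mul_of_nonneg_right hJ (show (0 : ℝ) ≤ κ + 1 by positivity),
    Nat.cast_nonneg (α := ℝ) κ]

lemma ap_ex {b d : ℕ} (hb : 0 < b) (h : d.Coprime b) :
    ∀ᶠ x : ℕ in atTop, ∃ p : ℕ, p.Prime ∧ p % b = d % b ∧ x < p ∧ p ≤ 2 * x := by
  haveI : NeZero b := ⟨hb.ne'⟩
  have t := H55.PNT.theta_ap ((ZMod.isUnit_iff_coprime d b).2 h)
  have f0 : (0 : ℝ) < (b.totient : ℝ)⁻¹ := by have := Nat.totient_pos.2 hb; positivity
  have t1 := t.comp tendsto_natCast_atTop_atTop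
  have t2 := (t1.comp (tendsto_id.const_mul_atTop' two_pos)).const_mul 2
  filter_upwards [t1.eventually_lt t2 (by linarith), eventually_gt_atTop 0] with x h1 x0
  by_contra c
  push Not at c
  simp only [Function.comp, id, Nat.floor_natCast] at h1
  rw [show filter (fun p : ℕ => p.Prime ∧ (p : ZMod b) = d) (Icc 1 (2 * x)) =
    filter (fun p : ℕ => p.Prime ∧ (p : ZMod b) = d) (Icc 1 x) by
      ext p
      simp only [mem_filter, mem_Icc, ZMod.natCast_eq_natCast_iff']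
      exact ⟨fun k => ⟨⟨k.1.1, not_lt.1 fun a => (c p k.2.1 k.2.2 a).not_ge k.1.2⟩, k.2⟩,
        fun k => ⟨⟨k.1.1, by omega⟩, k.2⟩⟩] at h1
  exact h1.ne (by push_cast; field_simp)

lemma rev_ex {b : ℕ} (hb : 2 ≤ b) : ∃ l0, ∀ l, l0 ≤ l → ∀ d < b, d.Coprime b → ∃ p : ℕ, p.Prime ∧
    d * b ^ l ≤ Nat.ofDigits b (Nat.digits b p).reverse ∧
    Nat.ofDigits b (Nat.digits b p).reverse < (d + 1) * b ^ l := by
  obtain ⟨l0, h⟩ := eventually_atTop.1 ((eventually_all_finset ((range b).filter (·.Coprime b))).2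
    fun d hd => ap_ex (by omega) (mem_filter.1 hd).2)
  refine ⟨l0 + 1, fun l hl d d1 d2 => ?_⟩
  obtain ⟨p, p1, p2, p3, p4⟩ := h (b ^ l) ((show l0 ≤ l by omega).trans (Nat.lt_pow_self hb).le) d
    (mem_filter.2 ⟨mem_range.2 d1, d2⟩)
  refine ⟨p, p1, ?_⟩
  rw [rv_eq hb, Nat.digits_len b p hb p1.ne_zero, Nat.log_eq_of_pow_le_of_lt_pow p3.le
    (lt_of_le_of_ne (by rw [pow_succ]; nlinarith) fun k => by
      have := (k ▸ p1).eq_one_of_pow; omega), rv_succ, p2, Nat.mod_eq_of_lt d1]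
  constructor <;> nlinarith [rv_lt (show 0 < b by omega) l (p / b)]

end Pool.Agent.H59.SN
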