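import Mathlib
import Pool.Agent.H59.Zt1

/-! `ζ` is not of subpolynomial growth on the line `re s = 0.496`. -/

set_option autoImplicit false

namespace Pool.Agent.H59.Zt

open Finset Filter Topology Complex Complex.HadamardThreeLines

theorem zb : ∃ C : ℝ, 0 < C ∧ ∀ s : ℂ, 2 / 5 ≤ s.re →
    ‖riemannZeta₁ s‖ ≤ C * (‖s‖ + 1) ^ 2 := by
  set K := ∑' n : ℕ, ((n : ℝ) + 1) ^ (-(2 / 5 : ℝ) - 1) with hK
  have K0 : 0 ≤ K := tsum_nonneg (fun n => by positivity)
  refine ⟨1 + K, by linarith, fun s hs => ?_⟩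
  rw [zeta1_eq s (by linarith)]
  have h1 : ‖∑' n, tm n s‖ ≤ (‖s‖ + 1) ^ 2 * K :=
    tsum_of_norm_bounded ((summ (2 / 5) (by norm_num)).hasSum.mul_left _) (fun n => by
      refine (tm_bound n s (by linarith)).trans ?_
      have a3 : ‖s - 1‖ ≤ ‖s‖ + 1 := by simpa using norm_sub_le s 1
      refine mul_le_mul (by nlinarith [norm_nonneg s, norm_nonneg (s - 1)]) ?_ (by positivity)
        (by positivity)
      exact Real.rpow_le_rpow_of_exponent_le (by linarith [Nat.cast_nonneg (α := ℝ) n])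
        (by linarith))
  have h2 := norm_add_le 1 (∑' n, tm n s)
  rw [norm_one] at h2
  nlinarith [norm_nonneg s]

lemma z_near (s : ℂ) (hs : 2 ≤ s.re) : ‖riemannZeta s - 1‖ ≤ 2 / 3 := by
  have h4 := Complex.summable_one_div_nat_cpow.2 (show 1 < s.re by linarith)
  have h5 := h4.sum_add_tsum_nat_add 2
  rw [← zeta_eq_tsum_one_div_nat_cpow (by linarith)] at h5
  have s0 : s ≠ 0 := by rintro rfl; norm_num at hs
  simp only [Finset.sum_range_succ, Finset.sum_range_zero, Nat.cast_zero, Nat.cast_one, one_cpow,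
    zero_cpow s0, div_zero, zero_add, div_one] at h5
  have h6 := (hasSum_nat_add_iff' 2).2 hasSum_zeta_two
  have h7 : ‖∑' i : ℕ, 1 / ((i + 2 : ℕ) : ℂ) ^ s‖ ≤ _ := tsum_of_norm_bounded h6 (fun n => by
    rw [norm_div, norm_one, norm_natCast_cpow_of_pos (by omega), ← Real.rpow_two]
    exact one_div_le_one_div_of_le (by positivity)
      (Real.rpow_le_rpow_of_exponent_le (by norm_cast; omega) hs))
  simp only [Finset.sum_range_succ, Finset.sum_range_zero] at h7
  rw [← h5, add_sub_cancel_left]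
  have h9 := Real.pi_lt_d2
  have h10 := Real.pi_pos
  norm_num at h7 ⊢; nlinarith

lemma z_up : ∃ K : ℝ, 0 < K ∧ ∀ s : ℂ, 6 / 5 ≤ s.re → ‖riemannZeta s‖ ≤ K := by
  have h := Real.summable_one_div_nat_rpow.2 (by norm_num : (1 : ℝ) < 6 / 5)
  refine ⟨|∑' n : ℕ, 1 / (n : ℝ) ^ (6 / 5 : ℝ)| + 1, by positivity, fun s hs => ?_⟩
  rw [zeta_eq_tsum_one_div_nat_cpow (by linarith)]
  refine (tsum_of_norm_bounded h.hasSum fun n => ?_).trans (by linarith [le_abs_self (∑' n : ℕ, 1 / (n : ℝ) ^ (6 / 5 : ℝ))])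
  rcases Nat.eq_zero_or_pos n with rfl | hn
  · have s0 : s ≠ 0 := by rintro rfl; norm_num at hs
    simp [zero_cpow s0]
  rw [norm_div, norm_one, norm_natCast_cpow_of_pos hn]
  exact one_div_le_one_div_of_le (by positivity)
    (Real.rpow_le_rpow_of_exponent_le (by exact_mod_cast hn) hs)

lemma gc (k : ℕ) (t : ℝ) :
    ‖Gamma (1 / 2 + t * I)‖ * ‖cos (Real.pi * (1 / 2 + t * I + k) / 2)‖ = √(Real.pi / 2) := by
  set w : ℂ := 1 / 2 + t * I with hw
  set z : ℂ := Real.pi * (w + k) / 2 with hz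
  have c1 : (starRingEnd ℂ) w = 1 - w := by
    rw [hw]; apply Complex.ext <;> simp; norm_num
  have h1 : ((‖Gamma w‖ ^ 2 : ℝ) : ℂ) = Real.pi / cos (Real.pi * t * I) := by
    rw [← Complex.normSq_eq_norm_sq, ← mul_conj, ← Gamma_conj, c1, Gamma_mul_Gamma_one_sub,
      show Real.pi * w = Real.pi * t * I + Real.pi / 2 by rw [hw]; ring, sin_add_pi_div_two]
  have h2 : ((‖cos z‖ ^ 2 : ℝ) : ℂ) = cos (Real.pi * t * I) / 2 := by
    rw [← Complex.normSq_eq_norm_sq, ← mul_conj, ← cos_conj]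
    have c2 : (starRingEnd ℂ) z = Real.pi * (1 - w + k) / 2 := by
      rw [hz, ← c1]; simp only [map_div₀, map_mul, map_add, conj_ofReal, map_natCast, map_ofNat]
    have c3 := cos_add_cos (z + (starRingEnd ℂ) z) (z - (starRingEnd ℂ) z)
    have c4 : cos (z + (starRingEnd ℂ) z) = 0 := by
      rw [c2, hz, cos_eq_zero_iff]
      exact ⟨k, by push_cast; ring⟩
    have c5 : z - (starRingEnd ℂ) z = Real.pi * t * I := by rw [c2, hz, hw]; ring
    rw [c4, zero_add, show (z + (starRingEnd ℂ) z + (z - (starRingEnd ℂ) z)) / 2 = z by ring,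
      show (z + (starRingEnd ℂ) z - (z - (starRingEnd ℂ) z)) / 2 = (starRingEnd ℂ) z by ring,
      c5] at c3
    rw [c3]; ring
  have h3 : cos (Real.pi * t * I) ≠ 0 := by
    rw [cos_mul_I, ← ofReal_mul, ← ofReal_cosh]
    exact_mod_cast (Real.cosh_pos _).ne'
  have h4 : (‖Gamma w‖ * ‖cos z‖) ^ 2 = Real.pi / 2 := by
    have : (((‖Gamma w‖ * ‖cos z‖) ^ 2 : ℝ) : ℂ) = ((Real.pi / 2 : ℝ) : ℂ) := by
      rw [mul_pow, ofReal_mul, h1, h2]; push_cast; field_simp
    exact_mod_cast this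
  rw [← h4, Real.sqrt_sq (by positivity)]

lemma fe (s : ℂ) (hs : 0 < s.re) (h1 : s ≠ 1) : ‖riemannZeta (1 - s)‖ =
    2 * (2 * Real.pi) ^ (-s.re) * (‖Gamma s‖ * ‖cos (Real.pi * s / 2)‖) * ‖riemannZeta s‖ := by
  rw [riemannZeta_one_sub (fun n hn => by
    rw [hn] at hs; simp at hs; linarith [Nat.cast_nonneg (α := ℝ) n]) h1]
  simp only [norm_mul]
  rw [show (2 * Real.pi : ℂ) = ((2 * Real.pi : ℝ) : ℂ) by push_cast; ring,
    norm_cpow_eq_rpow_re_of_pos (by positivity), neg_re, Complex.norm_ofNat]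
  ring

lemma gam2 (t : ℝ) : Gamma (1 / 2 + t * I + (2 : ℕ)) =
    (1 / 2 + t * I + 1) * ((1 / 2 + t * I) * Gamma (1 / 2 + t * I)) := by
  have n0 : (1 / 2 + t * I : ℂ) ≠ 0 := fun h => by simpa using congrArg re h
  have n1 : (1 / 2 + t * I + 1 : ℂ) ≠ 0 := fun h => by
    have := congrArg re h; simp at this; norm_num at this
  rw [← Gamma_add_one _ n0, ← Gamma_add_one _ n1]; congr 1; push_cast; ring

lemma low (t : ℝ) : 2 * (2 * Real.pi) ^ (-(5 / 2) : ℝ) * √(Real.pi / 2) / 3 * t ^ 2 ≤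
    ‖riemannZeta (-3 / 2 - t * I)‖ := by
  have e : (1 / 2 + t * I + (2 : ℕ) : ℂ).re = 5 / 2 := by simp; norm_num
  have h := fe (1 / 2 + t * I + (2 : ℕ)) (by rw [e]; norm_num)
    (fun h => by rw [h] at e; norm_num at e)
  have h2 := z_near _ (by rw [e]; norm_num : (2 : ℝ) ≤ (1 / 2 + t * I + (2 : ℕ) : ℂ).re)
  have h3 := norm_sub_norm_le 1 (riemannZeta (1 / 2 + t * I + (2 : ℕ)))
  rw [norm_one, norm_sub_rev] at h3
  rw [e, gam2, norm_mul, norm_mul, mul_assoc ‖_‖, mul_assoc ‖_‖, gc,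
    show (1 - (1 / 2 + t * I + (2 : ℕ)) : ℂ) = -3 / 2 - t * I by push_cast; ring] at h
  have a1 : |t| ≤ ‖(1 / 2 + t * I + 1 : ℂ)‖ := by simpa using abs_im_le_norm (1 / 2 + t * I + 1)
  have a2 : |t| ≤ ‖(1 / 2 + t * I : ℂ)‖ := by simpa using abs_im_le_norm (1 / 2 + t * I)
  rw [h, ← sq_abs]
  calc _ = 2 * (2 * Real.pi) ^ (-(5 / 2) : ℝ) * (|t| * (|t| * √(Real.pi / 2))) * (1 / 3) := by ring
    _ ≤ _ := by gcongr; linarith

lemma upp : ∃ C : ℝ, 0 < C ∧ ∀ z : ℂ, z.re = -5 / 2 →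
    ‖riemannZeta z‖ ≤ C * (|z.im| + 3) ^ 3 := by
  refine ⟨2 * (2 * Real.pi) ^ (-(7 / 2) : ℝ) * √(Real.pi / 2) * 2, by positivity, fun z hz => ?_⟩
  set t := -z.im with ht
  have e : (1 / 2 + t * I + (3 : ℕ) : ℂ).re = 7 / 2 := by simp; norm_num
  have h := fe (1 / 2 + t * I + (3 : ℕ)) (by rw [e]; norm_num)
    (fun h => by rw [h] at e; norm_num at e)
  have h2 := z_near _ (by rw [e]; norm_num : (2 : ℝ) ≤ (1 / 2 + t * I + (3 : ℕ) : ℂ).re)
  have h3 := norm_sub_norm_le (riemannZeta (1 / 2 + t * I + (3 : ℕ))) 1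
  rw [norm_one] at h3
  have g3 : Gamma (1 / 2 + t * I + (3 : ℕ)) =
      (1 / 2 + t * I + (2 : ℕ)) * Gamma (1 / 2 + t * I + (2 : ℕ)) := by
    rw [← Gamma_add_one _ (fun h => by have := congrArg re h; simp at this; norm_num at this)]
    congr 1; push_cast; ring
  rw [e, g3, gam2, norm_mul, norm_mul, norm_mul, mul_assoc ‖_‖, mul_assoc ‖_‖, mul_assoc ‖_‖, gc,
    show (1 - (1 / 2 + t * I + (3 : ℕ)) : ℂ) = z by
      apply Complex.ext <;> simp [ht, hz]; norm_num] at h
  have a : ∀ w : ℂ, |w.re| ≤ 3 → w.im = t → ‖w‖ ≤ |z.im| + 3 := fun w w1 w2 => by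
    have := norm_le_abs_re_add_abs_im w
    rw [w2, ht, abs_neg] at this; linarith
  have a1 := a (1 / 2 + t * I + (2 : ℕ)) (by simp; norm_num [abs_le]) (by simp)
  have a2 := a (1 / 2 + t * I + 1) (by simp; norm_num [abs_le]) (by simp)
  have a3 := a (1 / 2 + t * I) (by simp; norm_num [abs_le]) (by simp)
  rw [h]
  calc _ ≤ 2 * (2 * Real.pi) ^ (-(7 / 2) : ℝ) * ((|z.im| + 3) * ((|z.im| + 3) *
        ((|z.im| + 3) * √(Real.pi / 2)))) * 2 := by gcongr; linarith
    _ = _ := by ring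

lemma norm_gam (s : ℂ) (hs : 0 < s.re) : ‖Gamma s‖ ≤ Real.Gamma s.re := by
  rw [Gamma_eq_integral hs, Real.Gamma_eq_integral hs, GammaIntegral]
  refine (MeasureTheory.norm_integral_le_integral_norm _).trans_eq
    (MeasureTheory.setIntegral_congr_fun measurableSet_Ioi fun x hx => ?_)
  simp only [norm_mul, norm_real, Real.norm_eq_abs, abs_of_pos (Real.exp_pos _)]
  rw [norm_cpow_eq_rpow_re_of_pos hx]; simp

lemma norm_cos' (z : ℂ) : ‖cos z‖ ≤ Real.exp |z.im| := by
  rw [Complex.cos, norm_div, Complex.norm_ofNat, div_le_iff₀ (by norm_num)]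
  refine (norm_add_le _ _).trans ?_
  rw [norm_exp, norm_exp]
  have a1 : Real.exp (z * I).re ≤ Real.exp |z.im| := by simpa using neg_le_abs z.im
  have a2 : Real.exp (-z * I).re ≤ Real.exp |z.im| := by simpa using le_abs_self z.im
  linarith

lemma apr : ∃ C : ℝ, ∀ z : ℂ, -5 / 2 ≤ z.re → z.re ≤ 1 / 2 →
    ‖riemannZeta z‖ ≤ C * Real.exp (4 * |z.im|) := by
  obtain ⟨C1, h1⟩ := (isCompact_Icc.reProdIm isCompact_Icc : IsCompact
    (Set.Icc (-5 / 2 : ℝ) (1 / 2) ×ℂ Set.Icc (-1 : ℝ) 1)).exists_bound_of_continuousOn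
    (f := riemannZeta) fun z hz => (differentiableAt_riemannZeta (by
      rintro rfl; have := hz.1.2; norm_num at this)).continuousAt.continuousWithinAt
  obtain ⟨C2, h2⟩ := (isCompact_Icc (a := (1 / 2 : ℝ)) (b := 7 / 2)).exists_bound_of_continuousOn
    (f := Real.Gamma) fun x hx => (Real.differentiableAt_Gamma fun m hm => by
      linarith [hx.1, Nat.cast_nonneg (α := ℝ) m]).continuousAt.continuousWithinAt
  obtain ⟨C3, C0, h3⟩ := zb
  have c2 : 0 ≤ C2 := (norm_nonneg _).trans (h2 1 (by norm_num))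
  refine ⟨|C1| + 2 * C2 * (C3 * 25), fun z z1 z2 => ?_⟩
  have e1 : 1 ≤ Real.exp (4 * |z.im|) := Real.one_le_exp (by positivity)
  by_cases hz : |z.im| ≤ 1
  · have := h1 z ⟨⟨z1, z2⟩, abs_le.1 hz⟩
    have : 0 ≤ 2 * C2 * (C3 * 25) := by positivity
    nlinarith [le_abs_self C1, abs_nonneg C1]
  rw [not_le] at hz
  have r1 : (1 - z).re = 1 - z.re := by simp
  have n1 : 1 - z ≠ 1 := fun h => by
    have := congrArg im h
    simp at this; rw [this] at hz; norm_num at hz
  have h := fe (1 - z) (by linarith) n1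
  rw [sub_sub_cancel] at h
  have b1 : (2 * Real.pi) ^ (-(1 - z).re) ≤ 1 :=
    Real.rpow_le_one_of_one_le_of_nonpos (by linarith [Real.pi_gt_three]) (by linarith)
  have b2 : ‖Gamma (1 - z)‖ ≤ C2 := (norm_gam _ (by linarith)).trans
    ((le_abs_self _).trans (h2 _ ⟨by linarith, by linarith⟩))
  have b3 : ‖cos (Real.pi * (1 - z) / 2)‖ ≤ Real.exp (2 * |z.im|) := by
    refine (norm_cos' _).trans (Real.exp_le_exp.2 ?_)
    have : (Real.pi * (1 - z) / 2 : ℂ).im = -(Real.pi / 2) * z.im := by simp; ring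
    rw [this, abs_mul, abs_neg, abs_of_pos (by positivity)]
    gcongr; linarith [Real.pi_lt_four]
  have b4 : ‖riemannZeta (1 - z)‖ ≤ C3 * (25 * Real.exp (2 * |z.im|)) := by
    rw [riemannZeta_eq_inv_sub_mul n1, norm_mul, norm_inv]
    have d1 : 1 ≤ ‖1 - z - 1‖ := by
      have := abs_im_le_norm (1 - z - 1)
      simp only [sub_im, one_im, zero_sub, sub_zero, abs_neg] at this; linarith
    have d2 : ‖1 - z‖ + 1 ≤ 5 * Real.exp |z.im| := by
      have := norm_le_abs_re_add_abs_im (1 - z)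
      rw [abs_of_pos (by linarith)] at this
      simp only [sub_im, one_im, zero_sub, abs_neg] at this
      linarith [Real.add_one_le_exp |z.im|]
    calc _ ≤ 1 * (C3 * (5 * Real.exp |z.im|) ^ 2) := by
          gcongr
          · exact inv_le_one_of_one_le₀ d1
          · exact (h3 _ (by linarith)).trans (by gcongr)
      _ = _ := by rw [mul_pow, ← Real.exp_nat_mul]; norm_num
  rw [h]
  calc _ ≤ 2 * 1 * (C2 * Real.exp (2 * |z.im|)) * (C3 * (25 * Real.exp (2 * |z.im|))) := by gcongr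
    _ = 2 * C2 * (C3 * 25) * Real.exp (4 * |z.im|) := by
        rw [show 4 * |z.im| = 2 * |z.im| + 2 * |z.im| by ring, Real.exp_add]; ring
    _ ≤ _ := by gcongr; linarith [abs_nonneg C1]

theorem not_small (C : ℝ) : ¬ ∀ z : ℂ, z.re = 62 / 125 →
    ‖riemannZeta z‖ ≤ C * (|z.im| + 5) ^ (1 / 1000 : ℝ) := by
  intro hC
  obtain ⟨C1, c1, h1⟩ := upp
  obtain ⟨C2, h2⟩ := apr
  have c0 : 0 ≤ C := by
    have := (norm_nonneg _).trans (hC (62 / 125) (by norm_num))
    exact nonneg_of_mul_nonneg_left this (by positivity)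
  set c := 2 * (2 * Real.pi) ^ (-(5 / 2) : ℝ) * √(Real.pi / 2) / 3 with hc
  have cp : 0 < c := by positivity
  set θ : ℝ := 250 / 749 with hθ
  set K := (C1 * Real.exp 9) ^ (1 - θ) * (C * Real.exp 1) ^ θ with hK
  have key : ∀ T : ℝ, 0 ≤ T → c * T ^ 2 ≤ K * (T + 5) ^ (1.9995 : ℝ) := by
    intro T hT
    set F : ℂ → ℂ := fun z => riemannZeta z * cexp ((z - T * I) ^ 2) with hF
    have nF : ∀ z, ‖F z‖ = ‖riemannZeta z‖ * Real.exp (z.re ^ 2 - |z.im - T| ^ 2) := fun z => by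
      rw [hF]; simp only [norm_mul, norm_exp, sq_abs]; congr 2; simp [sq]
    have tri : ∀ y : ℝ, |y| ≤ T + |y - T| := fun y => by
      have := abs_add_le T (y - T)
      rwa [add_sub_cancel, abs_of_nonneg hT] at this
    have t3 := norm_le_interp_of_mem_verticalClosedStrip' (f := F) (z := -3 / 2 - (-T : ℝ) * I)
      (l := -5 / 2) (u := 62 / 125) (a := C1 * Real.exp 9 * (T + 5) ^ 3)
      (b := C * Real.exp 1 * (T + 5) ^ (1 / 1000 : ℝ)) (by norm_num)
      (by simp [verticalClosedStrip]; norm_num)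
      (DifferentiableOn.diffContOnCl fun z hz => by
        rw [verticalStrip, closure_preimage_re, closure_Ioo (by norm_num)] at hz
        exact ((differentiableAt_riemannZeta (by
          rintro rfl; have := hz.2; norm_num at this)).mul (by fun_prop)).differentiableWithinAt)
      ⟨|C2| * Real.exp (4 * T + 11), by
        rintro _ ⟨z, hz, rfl⟩
        have z1 : -5 / 2 ≤ z.re := hz.1
        have z2 : z.re ≤ 62 / 125 := hz.2
        simp only [Function.comp, nF]
        calc _ ≤ |C2| * Real.exp (4 * |z.im|) * Real.exp (z.re ^ 2 - |z.im - T| ^ 2) := by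
              gcongr
              exact (h2 z z1 (by linarith)).trans (by gcongr; exact le_abs_self _)
          _ ≤ _ := by
              rw [mul_assoc, ← Real.exp_add]
              refine mul_le_mul_of_nonneg_left (Real.exp_le_exp.2 ?_) (abs_nonneg _)
              nlinarith [tri z.im, sq_nonneg (|z.im - T| - 2)]⟩
      (fun z hz => by
        have z1 : z.re = -5 / 2 := hz
        have d1 : |z.im| + 3 ≤ (T + 5) * Real.exp |z.im - T| := by
          nlinarith [tri z.im, Real.add_one_le_exp |z.im - T|, abs_nonneg (z.im - T)]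
        rw [nF]
        calc _ ≤ C1 * ((T + 5) * Real.exp |z.im - T|) ^ 3 *
              Real.exp (z.re ^ 2 - |z.im - T| ^ 2) := by
              gcongr
              exact (h1 z z1).trans (by gcongr)
          _ = C1 * Real.exp (3 * |z.im - T| + (z.re ^ 2 - |z.im - T| ^ 2)) * (T + 5) ^ 3 := by
              rw [Real.exp_add, mul_pow, ← Real.exp_nat_mul]; push_cast; ring
          _ ≤ _ := by
              gcongr
              rw [z1]; nlinarith [sq_nonneg (|z.im - T| - 3 / 2)])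
      (fun z hz => by
        have z1 : z.re = 62 / 125 := hz
        have d0 := Real.one_le_exp (abs_nonneg (z.im - T))
        have d1 : |z.im| + 5 ≤ (T + 5) * Real.exp |z.im - T| := by
          nlinarith [tri z.im, Real.add_one_le_exp |z.im - T|, abs_nonneg (z.im - T)]
        have d2 : (|z.im| + 5) ^ (1 / 1000 : ℝ) ≤
            (T + 5) ^ (1 / 1000 : ℝ) * Real.exp |z.im - T| := by
          refine (Real.rpow_le_rpow (by positivity) d1 (by norm_num)).trans ?_
          rw [Real.mul_rpow (by positivity) (by positivity)]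
          gcongr
          exact Real.rpow_le_self_of_one_le d0 (by norm_num)
        rw [nF]
        calc _ ≤ C * ((T + 5) ^ (1 / 1000 : ℝ) * Real.exp |z.im - T|) *
              Real.exp (z.re ^ 2 - |z.im - T| ^ 2) := by
              gcongr
              exact (hC z z1).trans (by gcongr)
          _ = C * Real.exp (|z.im - T| + (z.re ^ 2 - |z.im - T| ^ 2)) *
              (T + 5) ^ (1 / 1000 : ℝ) := by rw [Real.exp_add]; ring
          _ ≤ _ := by
              gcongr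
              rw [z1]; nlinarith [sq_nonneg (|z.im - T| - 1 / 2)])
    have e1 : ((-3 / 2 - (-T : ℝ) * I : ℂ).re - -5 / 2) / (62 / 125 - -5 / 2) = θ := by
      simp [hθ]; norm_num
    have e2 := low (-T)
    rw [e1, nF, Real.mul_rpow (by positivity) (by positivity),
      Real.mul_rpow (x := C * Real.exp 1) (by positivity) (by positivity), ← Real.rpow_natCast,
      ← Real.rpow_natCast (T + 5), ← Real.rpow_mul (by positivity), ← Real.rpow_mul (by positivity),
      mul_mul_mul_comm, ← Real.rpow_add (by positivity)] at t3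
    have e3 : 1 ≤ Real.exp ((-3 / 2 - (-T : ℝ) * I : ℂ).re ^ ((2 : ℕ) : ℝ) -
        |(-3 / 2 - (-T : ℝ) * I : ℂ).im - T| ^ 2) := Real.one_le_exp (by simp; positivity)
    rw [neg_sq] at e2
    refine (e2.trans (le_mul_of_one_le_right (norm_nonneg _) e3)).trans (t3.trans ?_)
    gcongr
    · linarith
    · rw [hθ]; norm_num
  have t1 : Tendsto (fun T : ℝ => K * (2 : ℝ) ^ (1.9995 : ℝ) * T ^ (-(0.0005 : ℝ))) atTop
      (𝓝 (K * (2 : ℝ) ^ (1.9995 : ℝ) * 0)) :=
    (tendsto_rpow_neg_atTop (by norm_num)).const_mul _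
  rw [mul_zero] at t1
  obtain ⟨T, T1, T2⟩ := ((t1.eventually (gt_mem_nhds cp)).and (eventually_ge_atTop 5)).exists
  have K0 : 0 ≤ K := by positivity
  have T0 : 0 < T := by linarith
  have a1 := (key T T0.le).trans (mul_le_mul_of_nonneg_left
    (Real.rpow_le_rpow (by positivity) (by linarith : T + 5 ≤ 2 * T) (by norm_num)) K0)
  rw [Real.mul_rpow (by norm_num) T0.le, show (1.9995 : ℝ) = -0.0005 + (2 : ℕ) by norm_num,
    Real.rpow_add T0, Real.rpow_natCast, ← mul_assoc, ← mul_assoc] at a1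
  rw [show (1.9995 : ℝ) = -0.0005 + (2 : ℕ) by norm_num] at T1
  exact absurd (le_of_mul_le_mul_right a1 (by positivity)) (not_le.2 T1)

end Pool.Agent.H59.Zt
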