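import Mathlib
import Pool.Agent.H59.Zt5

/-! For real `a ≤ 0` the function `ζ - a` has a zero with real part `> 0.49`. -/

set_option autoImplicit false

namespace Pool.Agent.H59.Zt

open Finset Filter Topology Complex Complex.HadamardThreeLines

lemma circles (g : ℂ → ℂ) (r1 r3 R A B : ℝ) (h1 : 0 < r1) (h13 : r1 < r3) (h3 : r3 < R)
    (hg : DifferentiableOn ℂ g (Metric.ball 0 R)) (hA : ∀ z, ‖z‖ ≤ r1 → ‖g z‖ ≤ A)
    (hB : ∀ z, ‖z‖ ≤ r3 → ‖g z‖ ≤ B) (z : ℂ) (z1 : r1 ≤ ‖z‖) (z3 : ‖z‖ ≤ r3) :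
    ‖g z‖ ≤ A ^ (1 - (Real.log ‖z‖ - Real.log r1) / (Real.log r3 - Real.log r1)) *
      B ^ ((Real.log ‖z‖ - Real.log r1) / (Real.log r3 - Real.log r1)) := by
  have z0 : 0 < ‖z‖ := by linarith
  have l13 := Real.log_lt_log h1 h13
  have ex : ∀ (w : ℂ) (r : ℝ), 0 < r → w.re ≤ Real.log r → ‖cexp w‖ ≤ r := fun w r r0 hw => by
    rw [norm_exp]; exact (Real.le_log_iff_exp_le r0).1 hw
  have := norm_le_interp_of_mem_verticalClosedStrip' (f := fun w => g (cexp w))
    (z := Complex.log z) (l := Real.log r1) (u := Real.log r3) (a := A) (b := B) l13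
    (by
      simp only [verticalClosedStrip, Set.mem_preimage, log_re]
      exact ⟨Real.log_le_log h1 z1, Real.log_le_log z0 z3⟩)
    (DifferentiableOn.diffContOnCl fun w hw => by
      rw [verticalStrip, closure_preimage_re, closure_Ioo l13.ne] at hw
      have := ex w r3 (by linarith) hw.2
      exact ((hg.differentiableAt (Metric.isOpen_ball.mem_nhds (by simp; linarith))).comp w
        differentiableAt_exp).differentiableWithinAt)
    ⟨B, by rintro _ ⟨w, hw, rfl⟩; exact hB _ (ex w r3 (by linarith) hw.2)⟩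
    (fun w hw => hA _ (ex w r1 h1 (le_of_eq hw))) (fun w hw => hB _ (ex w r3 (by linarith) (le_of_eq hw)))
  rwa [exp_log (norm_pos_iff.1 z0), log_re] at this

lemma young (θ a c ε : ℝ) (h0 : 0 ≤ θ) (h1 : θ < 1) (ha : 0 < a) (hc : 0 < c) (hε : 0 < ε) :
    ∃ D : ℝ, ∀ L : ℝ, 0 < L → a ^ (1 - θ) * (c * L) ^ θ ≤ ε * L + D := by
  refine ⟨a * (c / ε) ^ (θ / (1 - θ)), fun L hL => ?_⟩
  have d0 : 0 < a * (c / ε) ^ (θ / (1 - θ)) := by positivity
  have := Real.geom_mean_le_arith_mean2_weighted (w₁ := 1 - θ) (w₂ := θ) (by linarith) h0 d0.le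
    (mul_pos hε hL).le (by ring)
  rw [Real.mul_rpow ha.le (by positivity), ← Real.rpow_mul (by positivity),
    div_mul_cancel₀ _ (by linarith), mul_assoc, ← Real.mul_rpow (by positivity) (by positivity),
    show c / ε * (ε * L) = c * L by field_simp] at this
  nlinarith [mul_pos hε hL]

theorem apoint (a : ℝ) (ha : a ≤ 0) :
    ∃ s : ℂ, 49 / 100 < s.re ∧ riemannZeta₁ s - a * (s - 1) = 0 := by
  by_contra hne
  push Not at hne
  set G : ℂ → ℂ := fun s => riemannZeta₁ s - a * (s - 1) with hG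
  have Gd : Differentiable ℂ G := differentiable_riemannZeta₁.sub (by fun_prop)
  have Ge : ∀ s, s ≠ 1 → G s = (s - 1) * (riemannZeta s - a) := fun s h1 => by
    rw [riemannZeta_eq_inv_sub_mul h1, mul_sub, mul_inv_cancel_left₀ (sub_ne_zero.2 h1), hG]; ring
  obtain ⟨C, C0, hC⟩ := zb
  obtain ⟨K, K0, hK⟩ := z_up
  have a0 : 0 ≤ -a := by linarith
  have na : ‖(a : ℂ)‖ = -a := by rw [norm_real, Real.norm_eq_abs, abs_of_nonpos ha]
  set θ : ℝ := (Real.log (188 / 125) - Real.log (2 / 5)) / (Real.log (1507 / 1000) - Real.log (2 / 5))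
    with hθ
  have l1 : Real.log (2 / 5) < Real.log (188 / 125) := Real.log_lt_log (by norm_num) (by norm_num)
  have l2 : Real.log (188 / 125) < Real.log (1507 / 1000) :=
    Real.log_lt_log (by norm_num) (by norm_num)
  set M0 := |Real.log (6 * (K - a))| + 1 with hM0
  set c1 := |Real.log (3 * (C - a))| + 2 with hc1
  obtain ⟨D, hD⟩ := young θ (2 * M0) (1005 * c1) (1 / 1000) (div_nonneg (by linarith) (by linarith))
    ((div_lt_one (by linarith)).2 (by linarith)) (by positivity) (by positivity) (by norm_num)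
  refine not_small (-a + 2 * (2 - a) * Real.exp D) fun s hs => ?_
  set t := s.im with ht
  set s0 : ℂ := 2 + t * I with hs0
  have re0 : s0.re = 2 := by simp [hs0]
  have hb : ∀ z ∈ Metric.ball s0 (151 / 100), 49 / 100 < z.re ∧ ‖z‖ ≤ |t| + 4 := by
    intro z hz
    rw [mem_ball_iff_norm] at hz
    have a1 := (abs_le.1 (abs_re_le_norm (z - s0))).1
    rw [sub_re, re0] at a1
    have a2 : ‖s0‖ ≤ 2 + |t| := by
      refine (norm_add_le _ _).trans ?_
      simp
    have a3 := norm_add_le (z - s0) s0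
    rw [sub_add_cancel] at a3
    constructor <;> linarith
  obtain ⟨g, g0, hg⟩ := (DifferentiableOn.isExactOn_ball (f := fun s => deriv G s / G s) (c := s0)
    (r := 151 / 100) (fun z hz => ((Gd.deriv z).div (Gd z)
      (hne z (hb z hz).1)).differentiableWithinAt)).with_val_at s0 0
  have hc : ∀ z ∈ Metric.ball s0 (151 / 100), ‖G z‖ = ‖G s0‖ * Real.exp (g z).re := by
    intro z hz
    have a1 : ∀ w ∈ Metric.ball s0 (151 / 100), HasDerivAt (fun w => G w * cexp (-g w)) 0 w := by
      intro w hw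
      refine ((Gd w).hasDerivAt.mul (hg w hw).neg.cexp).congr_deriv ?_
      have : G w ≠ 0 := hne w (hb w hw).1
      simp only [Pi.neg_apply]; field_simp; ring
    have := Metric.isOpen_ball.is_const_of_deriv_eq_zero
      (convex_ball s0 (151 / 100)).isPreconnected
      (fun w hw => (a1 w hw).differentiableAt.differentiableWithinAt)
      (fun w hw => (a1 w hw).deriv) hz (Metric.mem_ball_self (by norm_num))
    simp only [g0, neg_zero, exp_zero, mul_one] at this
    rw [← this, norm_mul, norm_exp, neg_re, mul_assoc, ← Real.exp_add]; simp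
  have n1 : 1 ≤ ‖s0 - 1‖ := by
    have := re_le_norm (s0 - 1)
    simp only [sub_re, one_re, re0] at this; linarith
  have zn := z_near s0 re0.ge
  have e0 : ‖G s0‖ = ‖s0 - 1‖ * ‖riemannZeta s0 - a‖ := by
    rw [Ge s0 (by rintro h; rw [h] at re0; norm_num at re0), norm_mul]
  have b1 : 1 / 3 ≤ ‖riemannZeta s0 - a‖ := by
    have d1 := re_le_norm (riemannZeta s0 - a)
    have d2 := (abs_le.1 (abs_re_le_norm (riemannZeta s0 - 1))).1
    simp only [sub_re, one_re, ofReal_re] at d1 d2
    linarith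
  have b2 : ‖riemannZeta s0 - a‖ ≤ 2 - a := by
    have d1 := norm_sub_le (riemannZeta s0) a
    have d2 := norm_sub_norm_le (riemannZeta s0) 1
    rw [norm_one] at d2; linarith
  have L1 : 1 ≤ Real.log (|t| + 5) := by
    rw [Real.le_log_iff_exp_le (by positivity)]
    linarith [Real.exp_one_lt_d9, abs_nonneg t]
  have hre : ∀ z ∈ Metric.ball s0 (151 / 100), (g z).re ≤ c1 * Real.log (|t| + 5) := by
    intro z hz
    have a3 := hC z (by linarith [(hb z hz).1])
    have a4 : (‖z‖ + 1) ^ 2 ≤ (|t| + 5) ^ 2 :=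
      pow_le_pow_left₀ (by positivity) (by linarith [(hb z hz).2]) 2
    have a5 := Real.exp_pos (g z).re
    have a2 : ‖G z‖ ≤ (C - a) * (|t| + 5) ^ 2 := by
      have d1 := norm_sub_le (riemannZeta₁ z) (a * (z - 1))
      have d2 := norm_sub_le z 1
      rw [norm_mul, na] at d1
      rw [norm_one] at d2
      have d3 : ‖z - 1‖ ≤ (|t| + 5) ^ 2 := by nlinarith [norm_nonneg z]
      nlinarith [mul_le_mul_of_nonneg_left d3 a0, mul_le_mul_of_nonneg_left a4 C0.le]
    have a6 : Real.exp (g z).re ≤ 3 * (C - a) * (|t| + 5) ^ 2 := by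
      rw [hc z hz, e0] at a2
      have : 1 / 3 ≤ ‖s0 - 1‖ * ‖riemannZeta s0 - a‖ := by nlinarith
      nlinarith
    have ca : 0 < C - a := by linarith
    have a7 := (Real.le_log_iff_exp_le (by positivity)).2 a6
    rw [Real.log_mul (by positivity) (by positivity), Real.log_pow] at a7
    have a8 := le_abs_self (Real.log (3 * (C - a)))
    have a9 := abs_nonneg (Real.log (3 * (C - a)))
    push_cast at a7
    nlinarith
  have hre2 : ∀ z ∈ Metric.ball s0 (4 / 5), (g z).re ≤ M0 := by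
    intro z hz
    have hz' := Metric.ball_subset_ball (by norm_num : (4 / 5 : ℝ) ≤ 151 / 100) hz
    rw [mem_ball_iff_norm] at hz
    have a1 := (abs_le.1 (abs_re_le_norm (z - s0))).1
    rw [sub_re, re0] at a1
    have a2 := hc z hz'
    rw [Ge z (by rintro rfl; norm_num at a1; linarith), norm_mul, e0] at a2
    have a3 : ‖riemannZeta z - a‖ ≤ K - a := by
      linarith [norm_sub_le (riemannZeta z) a, hK z (by linarith)]
    have a4 : ‖z - 1‖ ≤ 2 * ‖s0 - 1‖ := by
      have := norm_add_le (z - s0) (s0 - 1)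
      rw [sub_add_sub_cancel] at this; linarith
    have a5 := Real.exp_pos (g z).re
    have ka : 0 < K - a := by linarith
    have a6 : Real.exp (g z).re ≤ 6 * (K - a) := by
      have d1 := mul_le_mul a4 a3 (norm_nonneg _) (by positivity)
      have d2 : ‖s0 - 1‖ * (1 / 3 * Real.exp (g z).re) ≤ ‖s0 - 1‖ * (2 * (K - a)) := by
        calc _ ≤ ‖s0 - 1‖ * (‖riemannZeta s0 - a‖ * Real.exp (g z).re) := by gcongr
          _ ≤ _ := by linarith
      linarith [le_of_mul_le_mul_left d2 (by linarith)]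
    linarith [(Real.le_log_iff_exp_le (by positivity)).2 a6,
      le_abs_self (Real.log (6 * (K - a)))]
  have gd : ∀ R ≤ (151 / 100 : ℝ), DifferentiableOn ℂ (fun w => g (s0 + w)) (Metric.ball 0 R) :=
    fun R hR w hw => ((hg _ (Metric.ball_subset_ball hR (by simpa using hw))).differentiableAt.comp
      w (by fun_prop)).differentiableWithinAt
  have bc : ∀ R M r : ℝ, R ≤ 151 / 100 → 0 < M → r < R →
      (∀ z ∈ Metric.ball s0 R, (g z).re ≤ M) → ∀ w : ℂ, ‖w‖ ≤ r →
      ‖g (s0 + w)‖ ≤ 2 * M * r / (R - r) := by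
    intro R M r h1 h2 h3 h4 w hw
    have w0 := norm_nonneg w
    have r0 : 0 ≤ r := w0.trans hw
    refine (Complex.borelCaratheodory_zero (f := fun w => g (s0 + w)) (R := R) (z := w) h2
      (gd R h1) (fun w hw => h4 _ (by simpa using hw)) (by linarith)
      (by rw [mem_ball_zero_iff]; linarith) (by simp [g0])).trans ?_
    gcongr
  have nz : ‖s - s0‖ = 188 / 125 := by
    rw [show s - s0 = ((-(188 / 125) : ℝ) : ℂ) by
      apply Complex.ext <;> simp [hs0, hs, ht]; norm_num, norm_real]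
    norm_num
  have c3 := circles (fun w => g (s0 + w)) (2 / 5) (1507 / 1000) (151 / 100) (2 * M0)
    (1005 * c1 * Real.log (|t| + 5)) (by norm_num) (by norm_num) (by norm_num) (gd _ le_rfl)
    (fun z hz => (bc (4 / 5) M0 (2 / 5) (by norm_num) (by positivity) (by norm_num) hre2 z hz).trans
      (le_of_eq (by ring)))
    (fun z hz => (bc (151 / 100) _ (1507 / 1000) le_rfl (by positivity) (by norm_num) hre z hz).trans
      (by
        have : 0 < c1 * Real.log (|t| + 5) := by positivity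
        norm_num; linarith))
    (s - s0) (by rw [nz]; norm_num) (by rw [nz]; norm_num)
  simp only [add_sub_cancel, nz] at c3
  have c4 := (re_le_norm _).trans (c3.trans (hD _ (by linarith)))
  have c5 := hc s (by rw [mem_ball_iff_norm, nz]; norm_num)
  rw [Ge s (by rintro rfl; norm_num at hs), norm_mul, e0] at c5
  have c6 : ‖s0 - 1‖ ≤ 2 * ‖s - 1‖ := by
    refine le_of_sq_le_sq ?_ (by positivity) |> fun h => h
    rw [mul_pow, Complex.sq_norm, Complex.sq_norm, normSq_apply, normSq_apply]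
    simp only [sub_re, sub_im, one_re, one_im, re0, hs, ← ht]
    have : s0.im = t := by simp [hs0]
    rw [this]; nlinarith [mul_self_nonneg t]
  have c7 : Real.exp (g s).re ≤ Real.exp D * (|t| + 5) ^ (1 / 1000 : ℝ) := by
    rw [Real.rpow_def_of_pos (by positivity), ← Real.exp_add]
    exact Real.exp_le_exp.2 (by linarith)
  have c8 : 1 ≤ (|t| + 5) ^ (1 / 1000 : ℝ) :=
    Real.one_le_rpow (by linarith [abs_nonneg t]) (by norm_num)
  have c9 : ‖riemannZeta s - a‖ ≤ 2 * (2 - a) * (Real.exp D * (|t| + 5) ^ (1 / 1000 : ℝ)) := by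
    refine le_of_mul_le_mul_left (a := ‖s - 1‖) ?_ (by linarith)
    rw [c5]
    have : 0 ≤ 2 - a := by linarith
    calc _ ≤ 2 * ‖s - 1‖ * (2 - a) * (Real.exp D * (|t| + 5) ^ (1 / 1000 : ℝ)) := by gcongr
      _ = _ := by ring
  have c10 := norm_add_le (riemannZeta s - a) a
  rw [sub_add_cancel, na] at c10
  nlinarith [mul_le_mul_of_nonneg_left c8 a0]

lemma real_ne (x : ℝ) (hx : 49 / 100 < x) :
    riemannZeta₁ x - ((-101 / 100 : ℝ) : ℂ) * (x - 1) ≠ 0 := by
  intro h
  have h0 := congrArg re h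
  simp only [sub_re, mul_re, ofReal_re, ofReal_im, one_re, sub_im, one_im, zero_re] at h0
  rcases lt_trichotomy x 1 with h1 | rfl | h1
  · set u := 1 - x with hu
    have u0 : 0 < u := by linarith
    have sm := summ_tm x (by simp; linarith)
    have e : ∀ n : ℕ, (tm n x).re = -u * ((n : ℝ) + 1) ^ (-x) - ((n : ℝ) + 1) ^ u +
        ((n : ℝ) + 2) ^ u := fun n => by
      rw [← ofReal_re (_ + _)]
      congr 1
      rw [tm, hu]
      push_cast [ofReal_cpow (by positivity : (0 : ℝ) ≤ n + 1),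
        ofReal_cpow (by positivity : (0 : ℝ) ≤ n + 2)]
      ring
    have b : ∀ n : ℕ, -u * (((n : ℝ) + 2) ^ (-x) - ((n : ℝ) + 3) ^ (-x)) ≤ (tm (n + 1) x).re := by
      intro n
      have n3 : (0 : ℝ) < n + 3 := by positivity
      have d1 := rpow_one_add_le_one_add_mul_self (s := -1 / ((n : ℝ) + 3)) (p := u)
        (by rw [le_div_iff₀ n3]; linarith [Nat.cast_nonneg (α := ℝ) n]) u0.le (by linarith)
      rw [show 1 + -1 / ((n : ℝ) + 3) = (n + 2) / (n + 3) by field_simp; ring,
        Real.div_rpow (by positivity) n3.le, div_le_iff₀ (by positivity)] at d1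
      have d2 : ((n : ℝ) + 3) ^ (-x) = ((n : ℝ) + 3) ^ u / (n + 3) := by
        rw [← Real.rpow_sub_one n3.ne', hu]; congr 1; ring
      rw [e]
      push_cast
      rw [show (n : ℝ) + 1 + 1 = n + 2 by ring, show (n : ℝ) + 1 + 2 = n + 3 by ring, d2]
      have : (1 + u * (-1 / ((n : ℝ) + 3))) * ((n : ℝ) + 3) ^ u =
          ((n : ℝ) + 3) ^ u - u * (((n : ℝ) + 3) ^ u / (n + 3)) := by ring
      linarith
    have s1 := (re_tsum ((summable_nat_add_iff 1).2 sm))
    have s2 : -u * (2 : ℝ) ^ (-x) ≤ ∑' n, (tm (n + 1) x).re := by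
      refine ge_of_tendsto' (reCLM.summable
        ((summable_nat_add_iff 1).2 sm)).hasSum.tendsto_sum_nat fun N => ?_
      refine le_trans ?_ (sum_le_sum fun n _ => b n)
      have := sum_range_sub' (fun n : ℕ => ((n : ℝ) + 2) ^ (-x)) N
      simp only [Nat.cast_add, Nat.cast_one, add_assoc, Nat.cast_zero, zero_add] at this
      norm_num at this
      rw [← mul_sum, sum_sub_distrib, this]
      have : 0 ≤ ((N : ℝ) + 2) ^ (-x) := by positivity
      nlinarith
    rw [zeta1_eq x (by simp; linarith), sm.tsum_eq_zero_add, add_re, add_re, s1, e] at h0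
    have d3 : (2 : ℝ) ^ (-x) = 2 ^ u / 2 := by
      rw [← Real.rpow_sub_one two_ne_zero, hu]; congr 1; ring
    have d4 : 1 + 0.69 * u + (0.69 * u) ^ 2 / 2 ≤ (2 : ℝ) ^ u := by
      rw [Real.rpow_def_of_pos two_pos]
      refine (Real.quadratic_le_exp_of_nonneg (by positivity)).trans (Real.exp_le_exp.2 ?_)
      nlinarith [Real.log_two_gt_d9]
    simp only [Nat.cast_zero, zero_add, Real.one_rpow, one_re] at h0
    rw [d3] at s2
    have u1 : u < 51 / 100 := by linarith
    have d5 := mul_le_mul_of_nonneg_right d4 (by linarith : 0 ≤ 1 - u / 2)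
    nlinarith [mul_pos u0 u0, mul_pos u0 (mul_pos u0 u0)]
  · simp at h
  · have n1 : (x : ℂ) ≠ 1 := by exact_mod_cast h1.ne'
    have d1 := riemannZeta_re_pos_of_one_lt h1
    rw [riemannZeta_eq_inv_sub_mul n1, show ((x : ℂ) - 1)⁻¹ = (((x - 1)⁻¹ : ℝ) : ℂ) by push_cast; rfl,
      re_ofReal_mul] at d1
    have := (mul_pos_iff_of_pos_left (inv_pos.2 (by linarith : 0 < x - 1))).1 d1
    linarith

end Pool.Agent.H59.Zt
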