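import Mathlib
import Pool.Agent.H59.Land2
import Pool.Agent.H59.Zt6

/-! Left eigenvectors of the Redheffer matrix. -/

set_option autoImplicit false

namespace Pool.Agent.H59.Red

open Finset Filter Topology Complex LSeries Pool.Agent.H59.Zt Pool.Agent.H59.Land

/-- The candidate left eigenvector. -/
noncomputable def c (l : ℝ) (m : ℕ) : ℝ :=
  if m = 1 then 1 else (l - 1)⁻¹ * ∑ d ∈ (Nat.properDivisors m).attach, c l d.1
decreasing_by exact (Nat.mem_properDivisors.1 d.2).2

lemma c_one (l : ℝ) : c l 1 = 1 := by rw [c]; simp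

lemma c_rec (l : ℝ) (m : ℕ) (h : m ≠ 1) : c l m = (l - 1)⁻¹ * ∑ d ∈ m.properDivisors, c l d := by
  rw [c, if_neg h, sum_attach _ (c l)]

/-- The function whose zeros are eigenvalues. -/
noncomputable def F (n : ℕ) (l : ℝ) : ℝ := ∑ m ∈ range n, c l (m + 1) - l

lemma c_cont (m : ℕ) : ContinuousOn (fun l => c l m) {l | l ≠ 1} := by
  induction m using Nat.strong_induction_on with
  | _ m ih =>
    by_cases h : m = 1
    · simp only [h, c_one]; exact continuousOn_const
    · simp only [c_rec _ m h]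
      exact ((continuousOn_id.sub continuousOn_const).inv₀ fun x hx => sub_ne_zero.2 hx).mul
        (continuousOn_finsetSum _ fun d hd => ih d (Nat.mem_properDivisors.1 hd).2)

lemma F_cont (n : ℕ) : ContinuousOn (F n) {l | l ≠ 1} :=
  (continuousOn_finsetSum _ fun m _ => c_cont (m + 1)).sub continuousOn_id

lemma c_abs (l : ℝ) (m : ℕ) (h : m ≠ 1) :
    |c l m| ≤ |l - 1|⁻¹ * ∑ d ∈ m.properDivisors, |c l d| := by
  rw [c_rec l m h, abs_mul, abs_inv]
  exact mul_le_mul_of_nonneg_left (abs_sum_le_sum_abs _ _) (by positivity)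

lemma c_le_one (l : ℝ) (n : ℕ) (hl : (n : ℝ) ≤ |l - 1|) (m : ℕ) (hm : m ≤ n) : |c l m| ≤ 1 := by
  induction m using Nat.strong_induction_on with
  | _ m ih =>
    by_cases h : m = 1
    · simp [h, c_one]
    · refine (c_abs l m h).trans (inv_mul_le_one_of_le₀ ?_ (abs_nonneg _))
      have a1 := sum_le_card_nsmul m.properDivisors (fun d => |c l d|) 1 fun d hd =>
        ih d (Nat.mem_properDivisors.1 hd).2 (by linarith [(Nat.mem_properDivisors.1 hd).2])
      have a2 : m.properDivisors.card ≤ n := by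
        refine (card_le_card (t := range m) fun d hd =>
          mem_range.2 (Nat.mem_properDivisors.1 hd).2).trans (by simpa)
      have a3 : (m.properDivisors.card : ℝ) ≤ n := by exact_mod_cast a2
      simp only [nsmul_eq_mul, mul_one] at a1
      linarith

lemma S_le (l : ℝ) (n : ℕ) (hl : (n : ℝ) ≤ |l - 1|) : |∑ m ∈ range n, c l (m + 1)| ≤ n := by
  refine (abs_sum_le_sum_abs _ _).trans ?_
  simpa using sum_le_card_nsmul (range n) (fun m => |c l (m + 1)|) 1 fun m hm =>
    c_le_one l n hl _ (mem_range.1 hm)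

lemma F_left (n : ℕ) : 0 < F n (-(n + 1)) := by
  have := (abs_le.1 (S_le (-(n + 1)) n (by
    rw [abs_of_nonpos (by linarith [Nat.cast_nonneg (α := ℝ) n])]; linarith))).1
  unfold F; linarith

lemma F_right (n : ℕ) : F n (n + 1) < 0 := by
  have := (abs_le.1 (S_le (n + 1) n (by simp))).2
  unfold F; linarith

lemma c_two (m : ℕ) (hm : 0 < m) : 1 ≤ c 2 m := by
  induction m using Nat.strong_induction_on with
  | _ m ih =>
    by_cases h : m = 1
    · simp [h, c_one]
    · rw [c_rec _ m h]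
      have := single_le_sum (f := c 2) (s := m.properDivisors) (a := 1) (fun d hd => by
        linarith [ih d (Nat.mem_properDivisors.1 hd).2 (Nat.pos_of_mem_properDivisors hd)])
        (Nat.one_mem_properDivisors_iff_one_lt.2 (by omega))
      rw [c_one] at this
      norm_num; exact this

lemma F_two (n : ℕ) (hn : 3 ≤ n) : 0 < F n 2 := by
  have := card_nsmul_le_sum (range n) (fun m => c 2 (m + 1)) 1 fun m _ => c_two _ (by omega)
  have a : (3 : ℝ) ≤ n := by exact_mod_cast hn
  simp only [card_range, nsmul_eq_mul, mul_one] at this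
  unfold F; linarith

lemma swap (n : ℕ) (g : ℕ → ℕ → ℝ) : ∑ m ∈ Ioc 1 n, ∑ d ∈ m.properDivisors, g d m =
    ∑ d ∈ Ioc 0 n, ∑ e ∈ Ioc 1 (n / d), g d (d * e) := by
  rw [sum_sigma', sum_sigma']
  refine sum_nbij' (fun p => ⟨p.2, p.1 / p.2⟩) (fun p => ⟨p.1 * p.2, p.1⟩) ?_ ?_ ?_ ?_ ?_
  · rintro ⟨m, d⟩ h
    simp only [mem_sigma, mem_Ioc] at h ⊢
    have a1 := Nat.pos_of_mem_properDivisors h.2
    have a2 := Nat.one_lt_div_of_mem_properDivisors h.2
    have a3 := (Nat.mem_properDivisors.1 h.2).2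
    exact ⟨⟨a1, by omega⟩, a2, Nat.div_le_div_right h.1.2⟩
  · rintro ⟨d, e⟩ h
    simp only [mem_sigma, mem_Ioc, Nat.mem_properDivisors] at h ⊢
    have a1 := (Nat.le_div_iff_mul_le h.1.1).1 h.2.2
    refine ⟨⟨by nlinarith, by linarith⟩, Dvd.intro _ rfl, by nlinarith⟩
  · rintro ⟨m, d⟩ h
    simp only [mem_sigma] at h
    simp [Nat.mul_div_cancel' (Nat.mem_properDivisors.1 h.2).1]
  · rintro ⟨d, e⟩ h
    simp only [mem_sigma, mem_Ioc] at h
    simp [Nat.mul_div_cancel_left e h.1.1]
  · rintro ⟨m, d⟩ h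
    simp only [mem_sigma] at h
    simp [Nat.mul_div_cancel' (Nat.mem_properDivisors.1 h.2).1]

lemma split (n : ℕ) (hn : 1 ≤ n) (f : ℕ → ℝ) : ∑ d ∈ Ioc 0 n, f d = f 1 + ∑ d ∈ Ioc 1 n, f d := by
  rw [← sum_Ioc_consecutive f (Nat.zero_le 1) hn]; simp

lemma F_mid (n : ℕ) (hn : 2 ^ 20 ≤ n) : F n (-(√n / 2)) < 0 := by
  set K := √(n : ℝ) / 2 with hK
  have n1 : (2 : ℝ) ^ 20 ≤ n := by exact_mod_cast hn
  have k1 : 512 ≤ K := by
    have := Real.le_sqrt_of_sq_le (x := 1024) (y := n) (by linarith)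
    linarith
  have k2 : 4 * K ^ 2 = n := by
    rw [hK, div_pow, Real.sq_sqrt (by positivity)]; ring
  set w := (K + 1)⁻¹ with hw
  have w0 : 0 < w := by positivity
  have w1 : w * (K + 1) = 1 := inv_mul_cancel₀ (by positivity)
  have e1 : (-K - 1)⁻¹ = -w := by rw [hw, ← inv_neg]; ring
  have e2 : |-K - 1|⁻¹ = w := by rw [← abs_inv, e1, abs_neg, abs_of_pos w0]
  set H := ∑ e ∈ Ioc 1 n, (e : ℝ)⁻¹ with hH
  have h1 : w * H ≤ 1 / 4 := by
    have a1 := harmonic_le_one_add_log n
    rw [harmonic_eq_sum_Icc, show Icc 1 n = Ioc 0 n by ext; simp; omega] at a1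
    push_cast at a1
    rw [split n (by omega)] at a1
    set q := √(2 * K) with hq
    have q1 : 32 ≤ q := Real.le_sqrt_of_sq_le (by linarith)
    have q2 : q ^ 2 = 2 * K := Real.sq_sqrt (by positivity)
    have a2 : Real.log n ≤ 4 * q := by
      rw [show (n : ℝ) = q ^ 4 by rw [← k2, show q ^ 4 = (q ^ 2) ^ 2 by ring, q2]; ring,
        Real.log_pow]
      have := Real.log_le_sub_one_of_pos (by linarith : 0 < q)
      push_cast; linarith
    have a3 : H ≤ (K + 1) / 4 := by
      simp only [Nat.cast_one, inv_one] at a1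
      nlinarith
    nlinarith
  set T := ∑ d ∈ Ioc 1 n, |c (-K) d| / d with hT
  have t1 : T ≤ w * ((1 + T) * H) := by
    calc T ≤ ∑ m ∈ Ioc 1 n, w * ∑ d ∈ m.properDivisors, |c (-K) d| / m := by
          refine sum_le_sum fun m hm => ?_
          have := c_abs (-K) m (by have := (mem_Ioc.1 hm).1; omega)
          rw [e2] at this
          rw [← sum_div, ← mul_div_assoc]
          gcongr
      _ ≤ _ := by
          rw [← mul_sum, swap n fun d m => |c (-K) d| / m]
          refine mul_le_mul_of_nonneg_left ?_ w0.le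
          have := split n (by omega) fun d => |c (-K) d| / d
          simp only [c_one, abs_one, Nat.cast_one, div_one] at this
          rw [hT, ← this, sum_mul]
          refine sum_le_sum fun d _ => ?_
          rw [hH, mul_sum]
          refine le_trans (le_of_eq (sum_congr rfl fun e _ => ?_))
            (sum_le_sum_of_subset_of_nonneg (Ioc_subset_Ioc_right (Nat.div_le_self n d))
              fun e _ _ => by positivity)
          push_cast; ring
  have T0 : 0 ≤ T := sum_nonneg fun d _ => by positivity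
  have t2 : T ≤ 1 / 3 := by nlinarith
  have s1 : ∑ m ∈ Ioc 1 n, c (-K) m = -w * ∑ m ∈ Ioc 1 n, ∑ d ∈ m.properDivisors, c (-K) d := by
    rw [mul_sum]
    refine sum_congr rfl fun m hm => ?_
    rw [c_rec _ m (by have := (mem_Ioc.1 hm).1; omega), e1]
  have s2 : n - 1 - n * T ≤ ∑ m ∈ Ioc 1 n, ∑ d ∈ m.properDivisors, c (-K) d := by
    rw [swap n fun d _ => c (-K) d, split n (by omega), hT, mul_sum, sub_eq_add_neg,
      ← sum_neg_distrib]
    refine add_le_add (by simp [c_one, Nat.cast_sub (by omega : 1 ≤ n)]) (sum_le_sum fun d _ => ?_)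
    simp only [sum_const, Nat.card_Ioc, nsmul_eq_mul]
    have a1 : ((n / d - 1 : ℕ) : ℝ) ≤ n / d :=
      (Nat.cast_le.2 (Nat.sub_le _ _)).trans Nat.cast_div_le
    have a2 := mul_le_mul_of_nonneg_left (neg_abs_le (c (-K) d)) (Nat.cast_nonneg (n / d - 1))
    have a3 := mul_le_mul_of_nonneg_right a1 (abs_nonneg (c (-K) d))
    have : (n : ℝ) * (|c (-K) d| / d) = n / d * |c (-K) d| := by ring
    linarith
  have s3 : ∑ m ∈ range n, c (-K) (m + 1) = ∑ m ∈ Ioc 0 n, c (-K) m := by
    rw [range_eq_Ico, sum_Ico_add' (c (-K)) 0 n 1]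
    exact sum_congr (by ext; simp; omega) fun _ _ => rfl
  rw [F, s3, split n (by omega), c_one, s1]
  have s4 : (K + 1) ^ 2 < n - 1 - n * T := by nlinarith
  nlinarith [mul_lt_mul_of_pos_left (s4.trans_le s2) w0]

lemma c_sq (l : ℝ) (hl : 2 ≤ |l - 1|) (m : ℕ) : |c l m| ≤ (m : ℝ) ^ 2 := by
  induction m using Nat.strong_induction_on with
  | _ m ih =>
    by_cases h : m = 1
    · simp [h, c_one]
    rcases Nat.eq_zero_or_pos m with rfl | m0
    · simp [c_rec l 0]
    refine (c_abs l m h).trans ?_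
    have a1 : ∑ d ∈ m.properDivisors, |c l d| ≤ ∑ d ∈ m.divisors, (d : ℝ) ^ 2 :=
      (sum_le_sum fun d hd => ih d (Nat.mem_properDivisors.1 hd).2).trans
        (sum_le_sum_of_subset_of_nonneg Nat.properDivisors_subset_divisors
          fun _ _ _ => by positivity)
    rw [← Nat.sum_div_divisors m fun d => (d : ℝ) ^ 2] at a1
    have a2 : ∑ d ∈ m.divisors, ((m / d : ℕ) : ℝ) ^ 2 ≤ ∑ d ∈ Ioc 0 m, (m : ℝ) ^ 2 * ((d : ℝ) ^ 2)⁻¹ :=
      (sum_le_sum fun d _ => by
        rw [← div_eq_mul_inv, ← div_pow]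
        exact pow_le_pow_left₀ (by positivity) Nat.cast_div_le 2).trans
        (sum_le_sum_of_subset_of_nonneg (fun d hd => mem_Ioc.2
          ⟨Nat.pos_of_mem_divisors hd, Nat.divisor_le hd⟩) fun _ _ _ => by positivity)
    rw [← mul_sum, split m m0] at a2
    have a3 := sum_Ioc_inv_sq_le_sub (α := ℝ) (k := 1) (n := m) one_ne_zero m0
    have a4 : (0 : ℝ) ≤ (m : ℝ)⁻¹ := by positivity
    simp only [Nat.cast_one, inv_one, one_pow] at a2 a3
    rw [inv_mul_le_iff₀ (by linarith)]
    nlinarith [sq_nonneg (m : ℝ)]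

lemma c_div (l : ℝ) (hl : l ≠ 1) (m : ℕ) (h0 : m ≠ 0) (h : m ≠ 1) :
    ∑ d ∈ m.divisors, c l d = l * c l m := by
  rw [← Nat.insert_self_properDivisors h0, sum_insert Nat.self_notMem_properDivisors, c_rec l m h]
  have := sub_ne_zero.2 hl
  field_simp; ring

theorem F_often (N : ℕ) : ∃ n ≥ N, 0 < F n (-101 / 100) := by
  by_contra hne
  push Not at hne
  set a : ℝ := -101 / 100 with ha
  have cs := c_sq a (by rw [ha]; norm_num [abs_of_neg])
  have hC : ∀ n ≠ 0, |a - ∑ m ∈ range n, c a (m + 1)| ≤ 3 * (n : ℝ) ^ (3 : ℝ) := by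
    intro n hn
    have n1 : (1 : ℝ) ≤ n := by exact_mod_cast Nat.pos_of_ne_zero hn
    have a1 := sum_le_card_nsmul (range n) (fun m => |c a (m + 1)|) ((n : ℝ) ^ 2) fun m hm =>
      (cs _).trans (pow_le_pow_left₀ (by positivity) (Nat.cast_le.2 (mem_range.1 hm)) 2)
    have a2 := abs_sum_le_sum_abs (fun m => c a (m + 1)) (range n)
    have a3 := abs_sub a (∑ m ∈ range n, c a (m + 1))
    have a4 : |a| ≤ 2 := by rw [ha]; norm_num [abs_le]
    simp only [card_range, nsmul_eq_mul] at a1
    rw [show (3 : ℝ) = (3 : ℕ) from rfl, Real.rpow_natCast]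
    have : 1 ≤ (n : ℝ) ^ 3 := one_le_pow₀ n1
    push_cast
    nlinarith
  set G : ℂ → ℂ := fun s => riemannZeta₁ s - a * (s - 1) with hG
  have Gd : Differentiable ℂ G := differentiable_riemannZeta₁.sub (by fun_prop)
  obtain ⟨s, hs, h0⟩ := apoint a (by norm_num [ha])
  have := (osc' _ N (fun n hn => by have := hne n hn; unfold F at this; linarith) 3 3 hC
    (49 / 100) 3 (by norm_num) G (fun s => a * G s - (1 - a) * (s - 1)) Gd.differentiableOn
    (Differentiable.differentiableOn (by fun_prop)) real_ne (fun s hs => by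
      have sm : LSeriesSummable (fun n => (c a n : ℂ)) s :=
        LSeriesSummable_of_le_const_mul_rpow hs ⟨1, fun n _ => by
          rw [norm_real, one_mul, show (3 : ℝ) - 1 = 2 by norm_num, Real.rpow_two]; exact cs n⟩
      have s1 : 1 < s.re := by linarith
      have e1 := LSeries_convolution' sm (LSeriesSummable_one_iff.2 s1)
      have e2 : LSeries (LSeries.convolution (fun n => (c a n : ℂ)) 1) s =
          LSeries ((a : ℂ) • (fun n => (c a n : ℂ)) + (1 - (a : ℂ)) • delta) s := by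
        refine LSeries_congr (fun {n} hn => ?_) s
        simp only [convolution_def, Pi.one_apply, mul_one, Pi.add_apply, Pi.smul_apply, smul_eq_mul,
          delta]
        rw [Nat.sum_divisorsAntidiagonal fun x _ => (c a x : ℂ)]
        split_ifs with h
        · simp [h, c_one]
        · rw [← ofReal_sum, c_div a (by norm_num [ha]) n hn h]; simp
      have sd : LSeriesSummable delta s := LSeriesSummable_of_bounded_of_one_lt_re (m := 1)
        (fun n _ => by simp only [delta]; split_ifs <;> simp) s1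
      rw [e2, LSeries_add (sm.smul _) (sd.smul _), LSeries_smul,
        LSeries_smul, LSeries_delta, LSeries_one_eq_riemannZeta s1,
        riemannZeta_eq_inv_sub_mul (by rintro rfl; simp at s1)] at e1
      have : s - 1 ≠ 0 := sub_ne_zero.2 (by rintro rfl; simp at s1)
      rw [M_sum (c a) a 3 3 s hs hC (by linarith) sm, hG]
      simp only [Pi.one_apply] at e1
      field_simp at e1
      linear_combination e1)).2 s hs
  simp only [show G s = 0 from h0, mul_zero, zero_sub, zero_eq_neg, mul_eq_zero, sub_eq_zero]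
    at this
  rcases this with h | rfl
  · have := congrArg re h
    norm_num [ha] at this
  · simp at h0

end Pool.Agent.H59.Red
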