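import Mathlib

set_option autoImplicit false

namespace Pool.Agent.H59.SD

open Finset Module

variable {G : Type*} [AddCommGroup G] [Module (ZMod 2) G] [Fintype G]
variable {ι : Type*} [Fintype ι]

lemma z2 (t : ZMod 2) : t = 0 ∨ t = 1 := by revert t; decide

lemma rank_inf_ker (W : Submodule (ZMod 2) G) (f : G →ₗ[ZMod 2] ZMod 2) :
    finrank (ZMod 2) W ≤ finrank (ZMod 2) (W ⊓ LinearMap.ker f : Submodule (ZMod 2) G) + 1 := by
  have h1 := Submodule.finrank_sup_add_finrank_inf_eq W (LinearMap.ker f)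
  have h2 := LinearMap.finrank_range_add_finrank_ker f
  have h3 : finrank (ZMod 2) (LinearMap.range f) ≤ 1 := by
    have := Submodule.finrank_le (LinearMap.range f)
    simpa using this
  have h4 := Submodule.finrank_le (W ⊔ LinearMap.ker f)
  omega

lemma rank_inf_ker_eq (W : Submodule (ZMod 2) G) (f : G →ₗ[ZMod 2] ZMod 2)
    (h : ¬ W ≤ LinearMap.ker f) :
    finrank (ZMod 2) W = finrank (ZMod 2) (W ⊓ LinearMap.ker f : Submodule (ZMod 2) G) + 1 := by
  have h1 := rank_inf_ker W f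
  have h2 : W ⊓ LinearMap.ker f < W := lt_of_le_of_ne inf_le_left fun e => h (inf_eq_left.1 e)
  have := Submodule.finrank_lt_finrank_of_lt h2
  omega

open Classical in
lemma card_sub (W : Submodule (ZMod 2) G) :
    (univ.filter (· ∈ W)).card = 2 ^ finrank (ZMod 2) W := by
  have h := Module.card_eq_pow_finrank (K := ZMod 2) (V := W)
  rw [ZMod.card] at h
  rw [← h, Fintype.card_subtype]

open Classical in
/-- contraction counting of light vectors -/
lemma count (χ : ι → G →ₗ[ZMod 2] ZMod 2) (w : ι → ℝ) (hw : ∀ i, 0 ≤ w i) (I : Finset ι)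
    (W0 : Submodule (ZMod 2) G) (hI : ∀ i ∈ I, W0 ≤ LinearMap.ker (χ i)) (d : ℝ) (hd : 0 < d)
    (hm : ∀ W : Submodule (ZMod 2) G, W0 ≤ W →
      d * ((finrank (ZMod 2) W : ℝ) - finrank (ZMod 2) W0) ≤
        ∑ i ∈ I.filter (fun i => ¬ W ≤ LinearMap.ker (χ i)), w i)
    (a : ℕ) (L : Finset G) (hL : ∀ s ∈ L, ∑ i ∈ I.filter (fun i => χ i s ≠ 0), w i ≤ a * d)
    (j : ℕ) : ∀ W : Submodule (ZMod 2) G, W0 ≤ W →
      finrank (ZMod 2) W = finrank (ZMod 2) W0 + a + j →
      ((L.filter (· ∈ W)).card : ℝ) ≤ 2 ^ (finrank (ZMod 2) W0 + a) * ((a + j).choose a : ℕ) := by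
  induction j with
  | zero =>
    intro W _ h2
    have h3 : (L.filter (· ∈ W)).card ≤ (univ.filter (· ∈ W)).card :=
      card_le_card (filter_subset_filter _ (subset_univ _))
    rw [card_sub, h2] at h3
    simp only [add_zero, Nat.choose_self, Nat.cast_one, mul_one] at h3 ⊢
    exact_mod_cast h3
  | succ j ih =>
    intro W h1 h2
    set J := I.filter (fun i => ¬ W ≤ LinearMap.ker (χ i)) with hJ
    set m := ∑ i ∈ J, w i with hmm
    set B : ℝ := 2 ^ (finrank (ZMod 2) W0 + a) * ((a + j).choose a : ℕ) with hB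
    set N : ℝ := ((L.filter (· ∈ W)).card : ℝ) with hN
    have h3 : d * (a + j + 1) ≤ m := by
      have := hm W h1
      rw [h2] at this
      push_cast at this
      calc d * (a + j + 1) = d * ((finrank (ZMod 2) W0 : ℝ) + a + (j + 1) - finrank (ZMod 2) W0) := by
            ring
        _ ≤ m := this
    have h4 : ∑ i ∈ J, w i * ((L.filter (· ∈ W ⊓ LinearMap.ker (χ i))).card : ℝ) ≤ m * B := by
      rw [hmm, Finset.sum_mul]
      refine Finset.sum_le_sum fun i hi => mul_le_mul_of_nonneg_left ?_ (hw i)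
      obtain ⟨hi1, hi2⟩ := Finset.mem_filter.1 hi
      refine ih _ (le_inf h1 (hI i hi1)) ?_
      have := rank_inf_ker_eq W (χ i) hi2
      omega
    have h5 : N * (m - a * d) ≤
        ∑ i ∈ J, w i * ((L.filter (· ∈ W ⊓ LinearMap.ker (χ i))).card : ℝ) := by
      have e : ∀ i, w i * ((L.filter (· ∈ W ⊓ LinearMap.ker (χ i))).card : ℝ) =
          ∑ s ∈ L.filter (· ∈ W), if χ i s = 0 then w i else 0 := by
        intro i
        rw [← Finset.sum_filter, Finset.sum_const, Finset.filter_filter, nsmul_eq_mul, mul_comm]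
        congr 2
        exact congrArg _ (Finset.filter_congr fun x _ => by simp)
      simp_rw [e]
      rw [Finset.sum_comm, hN, ← nsmul_eq_mul, ← Finset.sum_const]
      refine Finset.sum_le_sum fun s hs => ?_
      have h6 := hL s (Finset.mem_filter.1 hs).1
      have h7 : ∑ i ∈ J.filter (fun i => χ i s ≠ 0), w i ≤
          ∑ i ∈ I.filter (fun i => χ i s ≠ 0), w i :=
        Finset.sum_le_sum_of_subset_of_nonneg
          (filter_subset_filter _ (filter_subset _ _)) fun i _ _ => hw i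
      have h8 := Finset.sum_filter_add_sum_filter_not J (fun i => χ i s = 0) w
      rw [← Finset.sum_filter]
      linarith
    have hN0 : 0 ≤ N := by positivity
    have hm0 : 0 < m := lt_of_lt_of_le (by positivity) h3
    have h9 : N * (j + 1) ≤ B * (a + j + 1) := by
      have h10 : m * (j + 1) ≤ (m - a * d) * (a + j + 1) := by
        have : (a : ℝ) * (d * (a + j + 1)) ≤ a * m := mul_le_mul_of_nonneg_left h3 (by positivity)
        nlinarith
      have h11 : m * (N * (j + 1)) ≤ m * (B * (a + j + 1)) := by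
        calc m * (N * (j + 1)) = N * (m * (j + 1)) := by ring
          _ ≤ N * ((m - a * d) * (a + j + 1)) := mul_le_mul_of_nonneg_left h10 hN0
          _ = N * (m - a * d) * (a + j + 1) := by ring
          _ ≤ m * B * (a + j + 1) := mul_le_mul_of_nonneg_right (h5.trans h4) (by positivity)
          _ = _ := by ring
      exact le_of_mul_le_mul_left h11 hm0
    have h12 : ((a + j).choose a : ℝ) * (a + j + 1) = ((a + (j + 1)).choose a : ℕ) * (j + 1) := by
      have := Nat.choose_mul_succ_eq (a + j) a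
      rw [show a + j + 1 - a = j + 1 by omega] at this
      rw [← add_assoc]
      exact_mod_cast this
    have h13 : N * (j + 1) ≤
        2 ^ (finrank (ZMod 2) W0 + a) * ((a + (j + 1)).choose a : ℕ) * (j + 1) := by
      rw [mul_assoc, ← h12, ← mul_assoc]
      exact h9
    exact le_of_mul_le_mul_right h13 (by positivity)

open Classical in
lemma shrink (χ : ι → G →ₗ[ZMod 2] ZMod 2) (w : ι → ℝ) (hw : ∀ i, 0 ≤ w i) (I : Finset ι)
    (W0 : Submodule (ZMod 2) G) (hI : ∀ i ∈ I, W0 ≤ LinearMap.ker (χ i))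
    (hm : 1 / 2 ≤ ∑ i ∈ I, w i) (δ : ℝ) (hδ : 0 ≤ δ) (F : Finset G)
    (hF : ∀ x ∈ F, ∑ i ∈ I.filter (fun i => χ i x = 0), w i ≤ δ) (k : ℕ) :
    ∃ V : Submodule (ZMod 2) G, W0 ≤ V ∧ finrank (ZMod 2) G ≤ finrank (ZMod 2) V + k ∧
      ((F.filter (· ∈ V)).card : ℝ) ≤ (2 * δ) ^ k * F.card := by
  induction k with
  | zero => exact ⟨⊤, le_top, by simp, by simp⟩
  | succ k ih =>
    obtain ⟨V, h1, h2, h3⟩ := ih
    have hne : I.Nonempty := by
      rcases I.eq_empty_or_nonempty with h | h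
      · rw [h] at hm; norm_num at hm
      · exact h
    obtain ⟨i, hi, hmin⟩ := I.exists_min_image
      (fun i => ((F.filter (· ∈ V ⊓ LinearMap.ker (χ i))).card : ℝ)) hne
    refine ⟨V ⊓ LinearMap.ker (χ i), le_inf h1 (hI i hi), ?_, ?_⟩
    · have := rank_inf_ker V (χ i); omega
    · set N := ((F.filter (· ∈ V ⊓ LinearMap.ker (χ i))).card : ℝ)
      have e : ∀ i, w i * ((F.filter (· ∈ V ⊓ LinearMap.ker (χ i))).card : ℝ) =
          ∑ s ∈ F.filter (· ∈ V), if χ i s = 0 then w i else 0 := by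
        intro i
        rw [← Finset.sum_filter, Finset.sum_const, Finset.filter_filter, nsmul_eq_mul, mul_comm]
        congr 2
        exact congrArg _ (Finset.filter_congr fun x _ => by simp)
      have h4 : (∑ i ∈ I, w i) * N ≤ ((F.filter (· ∈ V)).card : ℝ) * δ := by
        calc (∑ i ∈ I, w i) * N = ∑ i ∈ I, w i * N := Finset.sum_mul _ _ _
          _ ≤ ∑ l ∈ I, w l * ((F.filter (· ∈ V ⊓ LinearMap.ker (χ l))).card : ℝ) :=
            Finset.sum_le_sum fun l hl => mul_le_mul_of_nonneg_left (hmin l hl) (hw l)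
          _ = ∑ s ∈ F.filter (· ∈ V), ∑ l ∈ I, if χ l s = 0 then w l else 0 := by
            simp_rw [e]; exact Finset.sum_comm
          _ ≤ ∑ s ∈ F.filter (· ∈ V), δ := Finset.sum_le_sum fun s hs => by
            rw [← Finset.sum_filter]; exact hF s (Finset.mem_filter.1 hs).1
          _ = _ := by rw [Finset.sum_const, nsmul_eq_mul]
      have hN : 0 ≤ N := by positivity
      have h5 : 1 / 2 * N ≤ (∑ i ∈ I, w i) * N := mul_le_mul_of_nonneg_right hm hN
      have h6 := mul_le_mul_of_nonneg_right h3 hδ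
      rw [pow_succ]
      nlinarith

lemma choose_bound (n a : ℕ) (δ : ℝ) (hδ : 0 < δ) (ha : 4 * n * δ ≤ a) :
    (n.choose a : ℝ) * (4 * δ) ^ a ≤ 3 ^ a := by
  have h1 : (n.choose a : ℝ) ≤ (n : ℝ) ^ a / a.factorial := Nat.choose_le_pow_div a n
  have h2 : (a : ℝ) ^ a / a.factorial ≤ Real.exp a := Real.pow_div_factorial_le_exp _ (by positivity) a
  have h3 : Real.exp a ≤ 3 ^ a := by
    rw [← Real.exp_one_pow]
    exact pow_le_pow_left₀ (by positivity) Real.exp_one_lt_three.le a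
  calc (n.choose a : ℝ) * (4 * δ) ^ a ≤ (n : ℝ) ^ a / a.factorial * (4 * δ) ^ a := by gcongr
    _ = (4 * n * δ) ^ a / a.factorial := by rw [div_mul_eq_mul_div, ← mul_pow]; congr 2; ring
    _ ≤ (a : ℝ) ^ a / a.factorial := by gcongr
    _ ≤ _ := h2.trans h3

open Classical in
theorem hitting (χ : ι → G →ₗ[ZMod 2] ZMod 2) (w : ι → ℝ) (hw : ∀ i, 0 ≤ w i)
    (hs : ∑ i, w i = 1) (hn : 1 ≤ finrank (ZMod 2) G) (δ : ℝ) (hδ : 0 < δ) (hδ' : δ < 1 / 6)
    (a : ℕ) (ha1 : 1 ≤ a) (ha : 4 * (finrank (ZMod 2) G : ℝ) * δ ≤ a) (S : Finset G)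
    (hS : ∀ x ∈ S, ∑ i ∈ univ.filter (fun i => χ i x = 0), w i ≤ δ) :
    ∃ V : Submodule (ZMod 2) G, finrank (ZMod 2) G ≤ finrank (ZMod 2) V + 2 * a ∧
      ∀ x ∈ S, x ∉ V := by
  rcases S.eq_empty_or_nonempty with rfl | ⟨x0, hx0⟩
  · exact ⟨⊤, by simp, by simp⟩
  set n := finrank (ZMod 2) G with hnn
  have hn0 : (0 : ℝ) < n := by exact_mod_cast hn
  set d : ℝ := 1 / (2 * n) with hd
  have hd0 : 0 < d := by positivity
  set μ : Submodule (ZMod 2) G → ℝ :=
    fun W => ∑ i ∈ univ.filter (fun i => ¬ W ≤ LinearMap.ker (χ i)), w i with hμ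
  obtain ⟨W0, hW0⟩ := Finite.exists_min fun W : Submodule (ZMod 2) G => μ W - d * finrank (ZMod 2) W
  set I := univ.filter (fun i => W0 ≤ LinearMap.ker (χ i)) with hIdef
  have hI : ∀ i ∈ I, W0 ≤ LinearMap.ker (χ i) := fun i hi => (Finset.mem_filter.1 hi).2
  have hr : finrank (ZMod 2) W0 ≤ n := Submodule.finrank_le W0
  have hm : 1 / 2 ≤ ∑ i ∈ I, w i := by
    have h1 := hW0 ⊥
    have h2 : μ ⊥ = 0 := by simp [hμ]
    have h3 := Finset.sum_filter_add_sum_filter_not univ (fun i => W0 ≤ LinearMap.ker (χ i)) w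
    have h4 : d * finrank (ZMod 2) W0 ≤ d * n := by gcongr
    have h5 : d * n = 1 / 2 := by rw [hd]; field_simp
    simp only [h2, finrank_bot, Nat.cast_zero, mul_zero, sub_zero] at h1
    change _ + μ W0 = _ at h3
    linarith
  have hm2 : ∀ W : Submodule (ZMod 2) G, W0 ≤ W →
      d * ((finrank (ZMod 2) W : ℝ) - finrank (ZMod 2) W0) ≤
        ∑ i ∈ I.filter (fun i => ¬ W ≤ LinearMap.ker (χ i)), w i := by
    intro W hW
    have h1 := hW0 W
    have h3 := Finset.sum_filter_add_sum_filter_not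
      (univ.filter (fun i => ¬ W ≤ LinearMap.ker (χ i))) (fun i => W0 ≤ LinearMap.ker (χ i)) w
    have e1 : (univ.filter (fun i => ¬ W ≤ LinearMap.ker (χ i))).filter
        (fun i => W0 ≤ LinearMap.ker (χ i)) = I.filter (fun i => ¬ W ≤ LinearMap.ker (χ i)) := by
      ext i; simp only [hIdef, Finset.mem_filter, Finset.mem_univ, true_and]; tauto
    have e2 : (univ.filter (fun i => ¬ W ≤ LinearMap.ker (χ i))).filter
        (fun i => ¬ W0 ≤ LinearMap.ker (χ i)) =
        univ.filter (fun i => ¬ W0 ≤ LinearMap.ker (χ i)) := by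
      ext i; simp only [Finset.mem_filter, Finset.mem_univ, true_and]
      exact ⟨fun h => h.2, fun h => ⟨fun h' => h (hW.trans h'), h⟩⟩
    rw [e1, e2] at h3
    change _ + μ W0 = μ W at h3
    linarith
  set F := univ.filter (fun x : G => ∑ i ∈ I.filter (fun i => χ i x = 0), w i ≤ δ) with hFdef
  have hF : ∀ x ∈ F, ∑ i ∈ I.filter (fun i => χ i x = 0), w i ≤ δ :=
    fun x hx => (Finset.mem_filter.1 hx).2
  have hSF : ∀ x ∈ S, x ∈ F := fun x hx => Finset.mem_filter.2 ⟨mem_univ _,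
    (Finset.sum_le_sum_of_subset_of_nonneg (filter_subset_filter _ (subset_univ _))
      fun i _ _ => hw i).trans (hS x hx)⟩
  set L := F.image (· + x0) with hLdef
  have hLc : L.card = F.card := Finset.card_image_of_injective _ (add_left_injective x0)
  have hL : ∀ s ∈ L, ∑ i ∈ I.filter (fun i => χ i s ≠ 0), w i ≤ a * d := by
    intro s hs'
    obtain ⟨x, hx, rfl⟩ := Finset.mem_image.1 hs'
    have h1 := hF x hx
    have h2 := hF x0 (hSF x0 hx0)
    have h3 : ∑ i ∈ I.filter (fun i => χ i (x + x0) ≠ 0), w i ≤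
        ∑ i ∈ I.filter (fun i => χ i x = 0), w i + ∑ i ∈ I.filter (fun i => χ i x0 = 0), w i := by
      simp only [Finset.sum_filter, ← Finset.sum_add_distrib]
      refine Finset.sum_le_sum fun i _ => ?_
      have := hw i
      rw [map_add]
      rcases z2 (χ i x) with h | h <;> rcases z2 (χ i x0) with h' | h' <;> simp [h, h', this]
      rw [if_pos (by decide)]
    have h4 : 2 * δ ≤ a * d := by
      rw [hd, mul_one_div, le_div_iff₀ (by positivity)]; linarith
    linarith
  have hc : (F.card : ℝ) * (4 * δ) ^ a ≤ 2 ^ (finrank (ZMod 2) W0 + a) * 3 ^ a := by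
    rw [← hLc]
    by_cases h : finrank (ZMod 2) W0 + a ≤ n
    · obtain ⟨j, hj⟩ := Nat.exists_eq_add_of_le h
      have h1 := count χ w hw I W0 hI d hd0 hm2 a L hL j ⊤ le_top (by rw [finrank_top]; exact hj)
      simp only [Submodule.mem_top, Finset.filter_true] at h1
      have h2 := choose_bound n a δ hδ ha
      have h3 : (((a + j).choose a : ℕ) : ℝ) ≤ n.choose a := by
        exact_mod_cast Nat.choose_le_choose a (by omega)
      calc (L.card : ℝ) * (4 * δ) ^ a
          ≤ 2 ^ (finrank (ZMod 2) W0 + a) * (n.choose a) * (4 * δ) ^ a := by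
            gcongr; exact h1.trans (by gcongr)
        _ = 2 ^ (finrank (ZMod 2) W0 + a) * ((n.choose a) * (4 * δ) ^ a) := by ring
        _ ≤ _ := by gcongr
    · have h1 : L.card ≤ (univ.filter (· ∈ (⊤ : Submodule (ZMod 2) G))).card :=
        card_le_card fun x _ => by simp
      rw [card_sub, finrank_top] at h1
      have h2 : (L.card : ℝ) ≤ 2 ^ (finrank (ZMod 2) W0 + a) := by
        have : (2 : ℕ) ^ n ≤ 2 ^ (finrank (ZMod 2) W0 + a) := Nat.pow_le_pow_right two_pos (by omega)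
        exact_mod_cast h1.trans this
      gcongr
      linarith
  obtain ⟨V, h1, h2, h3⟩ := shrink χ w hw I W0 hI hm δ hδ.le F hF (2 * a)
  refine ⟨V, h2, fun x hx hxV => ?_⟩
  have h4 : (univ.filter (· ∈ W0)).card ≤ (F.filter (· ∈ V)).card := by
    refine Finset.card_le_card_of_injOn (fun u => x + u) (fun u hu => ?_)
      fun u _ v _ h => add_left_cancel h
    have hu' : u ∈ W0 := by simpa using hu
    simp only [Finset.coe_filter, Set.mem_setOf_eq]
    refine ⟨Finset.mem_filter.2 ⟨mem_univ _, ?_⟩, V.add_mem hxV (h1 hu')⟩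
    refine le_trans (le_of_eq (Finset.sum_congr ?_ fun _ _ => rfl)) (hF x (hSF x hx))
    refine Finset.filter_congr fun i hi => ?_
    have : χ i u = 0 := hI i hi hu'
    rw [map_add, this, add_zero]
  rw [card_sub] at h4
  have h5 : (2 : ℝ) ^ finrank (ZMod 2) W0 ≤ (2 * δ) ^ (2 * a) * F.card :=
    le_trans (by exact_mod_cast h4) h3
  have h6 : (2 * δ) ^ (2 * a) * F.card = δ ^ a * (F.card * (4 * δ) ^ a) := by
    rw [pow_mul, show (2 * δ) ^ 2 = δ * (4 * δ) by ring, mul_pow]; ring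
  have h7 : δ ^ a * (F.card * (4 * δ) ^ a) ≤ δ ^ a * (2 ^ (finrank (ZMod 2) W0 + a) * 3 ^ a) := by
    gcongr
  have h8 : δ ^ a * (2 ^ (finrank (ZMod 2) W0 + a) * 3 ^ a) =
      2 ^ finrank (ZMod 2) W0 * (6 * δ) ^ a := by
    rw [pow_add, show 6 * δ = δ * 2 * 3 by ring, mul_pow, mul_pow]; ring
  have h9 : (6 * δ) ^ a < 1 := pow_lt_one₀ (by positivity) (by linarith) (by omega)
  have h10 : (0 : ℝ) < 2 ^ finrank (ZMod 2) W0 := by positivity
  nlinarith

end Pool.Agent.H59.SD
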