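import Pool.Agent.H59.SD1

set_option autoImplicit false

namespace Pool.Agent.H59.SD

open Finset Module Pointwise

variable {G : Type*} [AddCommGroup G] [Module (ZMod 2) G] [Fintype G]

noncomputable def sg (t : ZMod 2) : ℝ := if t = 0 then 1 else -1

lemma sg_add (s t : ZMod 2) : sg (s + t) = sg s * sg t := by
  have h : (1 + 1 : ZMod 2) = 0 := by decide
  rcases z2 s with rfl | rfl <;> rcases z2 t with rfl | rfl <;> simp [sg, h]

omit [Fintype G] in
lemma add_self (y : G) : y + y = 0 := by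
  have h : (1 + 1 : ZMod 2) = 0 := by decide
  rw [← one_smul (ZMod 2) y, ← add_smul, h, zero_smul]

omit [Fintype G] in
lemma orth [Fintype (G →ₗ[ZMod 2] ZMod 2)] (z : G) (hz : z ≠ 0) :
    ∑ γ : G →ₗ[ZMod 2] ZMod 2, sg (γ z) = 0 := by
  have h : ¬ ∀ φ : Module.Dual (ZMod 2) G, φ z = 0 := fun h =>
    hz ((Module.forall_dual_apply_eq_zero_iff (ZMod 2) z).1 h)
  push Not at h
  obtain ⟨φ, hφ⟩ := h
  have h1 := Equiv.sum_comp (Equiv.addRight (φ : G →ₗ[ZMod 2] ZMod 2))
    (fun γ : G →ₗ[ZMod 2] ZMod 2 => sg (γ z))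
  have h2 : sg (φ z) = -1 := if_neg hφ
  simp only [Equiv.coe_addRight, LinearMap.add_apply, sg_add, h2, mul_neg, mul_one,
    Finset.sum_neg_distrib] at h1
  linarith

open Classical in
lemma parseval [Fintype (G →ₗ[ZMod 2] ZMod 2)] (f : G → ℝ) :
    ∑ γ : G →ₗ[ZMod 2] ZMod 2, (∑ y, f y * sg (γ y)) ^ 2 =
      Fintype.card (G →ₗ[ZMod 2] ZMod 2) * ∑ y, f y ^ 2 := by
  have e : ∀ γ : G →ₗ[ZMod 2] ZMod 2, (∑ y, f y * sg (γ y)) ^ 2 =
      ∑ y, ∑ z, f y * f z * sg (γ (y + z)) := by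
    intro γ
    rw [sq, Finset.sum_mul_sum]
    refine Finset.sum_congr rfl fun y _ => Finset.sum_congr rfl fun z _ => ?_
    rw [map_add, sg_add]; ring
  simp_rw [e]
  rw [Finset.sum_comm, Finset.mul_sum]
  refine Finset.sum_congr rfl fun y _ => ?_
  rw [Finset.sum_comm, Finset.sum_eq_single y]
  · simp [add_self, sg, sq]
  · intro z _ hz
    rw [← Finset.mul_sum, orth, mul_zero]
    intro h
    exact hz (add_left_cancel (h.trans (add_self y).symm))
  · simp

lemma shift (F : G → ℝ) (x : G) (γ : G →ₗ[ZMod 2] ZMod 2) :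
    ∑ y, (F (y + x) + F y) * sg (γ y) = (sg (γ x) + 1) * ∑ y, F y * sg (γ y) := by
  have h1 := Equiv.sum_comp (Equiv.addRight x) (fun y => F (y + x) * sg (γ y))
  simp only [Equiv.coe_addRight, add_assoc, add_self, add_zero, map_add, sg_add] at h1
  simp only [add_mul, Finset.sum_add_distrib, one_mul, ← h1, Finset.mul_sum]
  congr 1
  exact Finset.sum_congr rfl fun y _ => by ring

/-- an almost antisymmetric function gives a subspace avoiding `S` -/
theorem avoid (F : G → ℝ) (hF : 0 < ∑ y, F y ^ 2) (hn : 1 ≤ finrank (ZMod 2) G) (δ : ℝ)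
    (hδ : 0 < δ) (hδ' : δ < 1 / 6) (a : ℕ) (ha1 : 1 ≤ a)
    (ha : 4 * (finrank (ZMod 2) G : ℝ) * δ ≤ a) (S : Finset G)
    (hS : ∀ x ∈ S, ∑ y, (F (y + x) + F y) ^ 2 ≤ 4 * δ * ∑ y, F y ^ 2) :
    ∃ V : Submodule (ZMod 2) G, finrank (ZMod 2) G ≤ finrank (ZMod 2) V + 2 * a ∧
      ∀ x ∈ S, x ∉ V := by
  classical
  haveI : Finite (G →ₗ[ZMod 2] ZMod 2) := DFunLike.finite _
  haveI : Fintype (G →ₗ[ZMod 2] ZMod 2) := Fintype.ofFinite _
  set D : ℝ := (Fintype.card (G →ₗ[ZMod 2] ZMod 2) : ℝ) with hD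
  have hD0 : 0 < D := by rw [hD]; exact_mod_cast Fintype.card_pos
  set T := ∑ y, F y ^ 2 with hT
  refine hitting (fun γ : G →ₗ[ZMod 2] ZMod 2 => γ)
    (fun γ => (∑ y, F y * sg (γ y)) ^ 2 / (D * T)) (fun γ => by positivity) ?_ hn δ hδ hδ' a ha1 ha
    S fun x hx => ?_
  · rw [← Finset.sum_div, parseval, div_self (by positivity)]
  · have h1 := parseval (fun y => F (y + x) + F y)
    simp only [shift] at h1
    rw [← Finset.sum_div, div_le_iff₀ (by positivity)]
    have h2 : 4 * ∑ γ ∈ univ.filter (fun γ : G →ₗ[ZMod 2] ZMod 2 => γ x = 0),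
        (∑ y, F y * sg (γ y)) ^ 2 =
        ∑ γ : G →ₗ[ZMod 2] ZMod 2, ((sg (γ x) + 1) * ∑ y, F y * sg (γ y)) ^ 2 := by
      rw [Finset.sum_filter, Finset.mul_sum]
      refine Finset.sum_congr rfl fun γ _ => ?_
      by_cases h : γ x = 0
      · simp only [h, sg, if_true]; ring
      · simp [h, sg]
    have h3 := mul_le_mul_of_nonneg_left (hS x hx) hD0.le
    rw [h1] at h2
    convert_to ∑ γ ∈ univ.filter (fun γ : G →ₗ[ZMod 2] ZMod 2 => γ x = 0),
        (∑ y, F y * sg (γ y)) ^ 2 ≤ δ * (D * T)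
    linarith

lemma alt (c : ℕ → ℝ) (h0 : 0 ≤ c 0) (hc : ∀ j, c j ≤ c (j + 1)) (L : ℕ) :
    0 ≤ (-1) ^ L * ∑ j ∈ range (L + 1), (-1) ^ j * c j ∧
      (-1) ^ L * ∑ j ∈ range (L + 1), (-1) ^ j * c j ≤ c L := by
  induction L with
  | zero => simp [h0]
  | succ L ih =>
    have e : (-1 : ℝ) ^ (L + 1) * ∑ j ∈ range (L + 1 + 1), (-1) ^ j * c j =
        c (L + 1) - (-1) ^ L * ∑ j ∈ range (L + 1), (-1) ^ j * c j := by
      rw [Finset.sum_range_succ, mul_add, ← mul_assoc, ← mul_pow]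
      simp only [mul_neg, mul_one, neg_neg, one_pow, one_mul, pow_succ]
      ring
    rw [e]
    have := hc L
    constructor <;> linarith [ih.1, ih.2]

lemma alt2 (a b : ℕ → ℝ) (ha : 0 ≤ a 0) (hb : 0 ≤ b 0) (h1 : ∀ j, a j ≤ b (j + 1))
    (h2 : ∀ j, b j ≤ a (j + 1)) (L : ℕ) :
    (∑ j ∈ range (L + 1), (-1) ^ j * b j + ∑ j ∈ range (L + 1), (-1) ^ j * a j) ^ 2 ≤
      2 * a L ^ 2 + 2 * b L ^ 2 := by
  have k1 := alt (fun j => if Even j then a j else b j) (by simpa using ha) (fun j => by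
    by_cases h : Even j <;> simp [h, Nat.even_add_one, h1, h2]) L
  have k2 := alt (fun j => if Even j then b j else a j) (by simpa using hb) (fun j => by
    by_cases h : Even j <;> simp [h, Nat.even_add_one, h1, h2]) L
  set u := ∑ j ∈ range (L + 1), (-1 : ℝ) ^ j * (if Even j then a j else b j)
  set v := ∑ j ∈ range (L + 1), (-1 : ℝ) ^ j * (if Even j then b j else a j)
  have e : ∑ j ∈ range (L + 1), (-1) ^ j * b j + ∑ j ∈ range (L + 1), (-1) ^ j * a j = u + v := by
    simp only [u, v, ← Finset.sum_add_distrib]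
    exact Finset.sum_congr rfl fun j _ => by split_ifs <;> ring
  have e2 : (u + v) ^ 2 = ((-1) ^ L * u + (-1) ^ L * v) ^ 2 := by
    rw [← mul_add, mul_pow, ← pow_mul, mul_comm L 2, pow_mul]; simp
  rw [e, e2]
  have k3 : (-1) ^ L * u + (-1) ^ L * v ≤ a L + b L := by
    have := add_le_add k1.2 k2.2
    by_cases h : Even L <;> simp only [h, if_true, if_false] at this <;> linarith
  have k4 := pow_le_pow_left₀ (add_nonneg k1.1 k2.1) k3 2
  nlinarith [sq_nonneg (a L - b L)]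

open Classical in
/-- the depth function -/
theorem depth (A S : Finset G) (hA : A.Nonempty) (hS : S.Nonempty)
    (hd : ∀ a ∈ A, ∀ x ∈ S, a + x ∉ A) (κ : ℝ) (hκ : ((A + S).card : ℝ) ≤ κ * A.card)
    (m : ℕ) (hm : κ ^ (2 * m + 1) ≤ 3 / 2) :
    ∃ F : G → ℝ, 0 < ∑ y, F y ^ 2 ∧
      ∀ x ∈ S, ∑ y, (F (y + x) + F y) ^ 2 ≤ 4 * (3 / ((m : ℝ) + 1) ^ 2) * ∑ y, F y ^ 2 := by
  have hA' : A ∈ A.powerset.erase ∅ := mem_erase_of_ne_of_mem hA.ne_empty (mem_powerset_self _)
  obtain ⟨X, hX, hmin⟩ :=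
    exists_min_image (A.powerset.erase ∅) (fun C => ((C + S).card : ℝ) / C.card) ⟨A, hA'⟩
  rw [mem_erase, mem_powerset, ← nonempty_iff_ne_empty] at hX
  obtain ⟨hX, hXA⟩ := hX
  have hX0 : (0 : ℝ) < X.card := by exact_mod_cast hX.card_pos
  have hA0 : (0 : ℝ) < A.card := by exact_mod_cast hA.card_pos
  have hXS : ((X + S).card : ℝ) ≤ κ * X.card := by
    have := hmin A hA'
    rw [← div_le_iff₀ hX0]
    exact this.trans ((div_le_iff₀ hA0).2 hκ)
  have hP : ∀ A' ⊆ X, (X + S).card * A'.card ≤ (A' + S).card * X.card := by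
    intro A' h
    rcases A'.eq_empty_or_nonempty with rfl | h'
    · simp
    have := hmin A' (mem_erase_of_ne_of_mem h'.ne_empty (mem_powerset.2 (h.trans hXA)))
    rw [div_le_div_iff₀ hX0 (by exact_mod_cast h'.card_pos)] at this
    exact_mod_cast this
  set E : ℕ → Finset G := fun j => j • S + X with hE
  have hE0 : E 0 = X := by simp [hE]
  have hEs : ∀ j, E (j + 1) = E j + S := fun j => by
    simp only [hE, succ_nsmul]; exact add_right_comm _ _ _
  have hκ0 : 0 ≤ κ := by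
    by_contra h
    push Not at h
    nlinarith [Nat.cast_nonneg (α := ℝ) (X + S).card]
  have hEc : ∀ j, ((E j).card : ℝ) ≤ κ ^ j * X.card := by
    intro j
    induction j with
    | zero => simp [hE0]
    | succ j ih =>
      have h1 := pluennecke_petridis_inequality_add (j • S) hP
      have h2 : ((E (j + 1)).card : ℝ) * X.card ≤ (X + S).card * (E j).card := by
        rw [hEs]; exact_mod_cast h1
      have h3 : ((X + S).card : ℝ) * (E j).card ≤ κ * X.card * (κ ^ j * X.card) := by gcongr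
      refine le_of_mul_le_mul_right (h2.trans (h3.trans (le_of_eq ?_))) hX0
      ring
  have hstep : ∀ j y, ∀ x ∈ S, y ∈ E j → y + x ∈ E (j + 1) := fun j y x hx hy => by
    rw [hEs]; exact add_mem_add hy hx
  obtain ⟨x0, hx0⟩ := hS
  have h2step : ∀ j k y, y ∈ E j → y ∈ E (j + 2 * k) := by
    intro j k y hy
    induction k with
    | zero => simpa using hy
    | succ k ih =>
      have := hstep _ _ x0 hx0 (hstep _ _ x0 hx0 ih)
      rw [add_assoc y, add_self, add_zero] at this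
      exact this
  set ind : ℕ → G → ℝ := fun j y => if y ∈ E j then 1 else 0 with hind
  have hT : ((m : ℝ) + 1) ^ 2 * (X.card / 2) ≤
      ∑ y, (∑ j ∈ range (2 * m + 1 + 1), (-1) ^ j * ind j y) ^ 2 := by
    have h1 : ∀ y ∈ X \ E (2 * m + 1), ∀ k ≤ m + 1,
        ∑ j ∈ range (2 * k), (-1) ^ j * ind j y = k := by
      intro y hy k hk
      obtain ⟨hy1, hy2⟩ := mem_sdiff.1 hy
      induction k with
      | zero => simp
      | succ k ih =>
        rw [mul_add, mul_one, Finset.sum_range_succ, Finset.sum_range_succ, ih (by omega)]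
        have k1 : y ∈ E (2 * k) := by simpa using h2step 0 k y (hE0 ▸ hy1)
        have k2 : y ∉ E (2 * k + 1) := fun h => hy2 (by
          have := h2step _ (m - k) y h
          rwa [show 2 * k + 1 + 2 * (m - k) = 2 * m + 1 by omega] at this)
        simp [hind, k1, k2]
    have h2 : (X.card : ℝ) / 2 ≤ (X \ E (2 * m + 1)).card := by
      have k1 : X ∩ E (2 * m + 1) ⊆ E (2 * m + 1) \ E 1 := by
        intro y hy
        obtain ⟨hy1, hy2⟩ := mem_inter.1 hy
        refine mem_sdiff.2 ⟨hy2, fun h => ?_⟩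
        rw [show (1 : ℕ) = 0 + 1 from rfl, hEs, hE0] at h
        obtain ⟨u, hu, x, hx, rfl⟩ := mem_add.1 h
        exact hd u (hXA hu) x hx (hXA hy1)
      have k2 : E 1 ⊆ E (2 * m + 1) := fun y hy => by
        have := h2step 1 m y hy
        rwa [add_comm] at this
      have k3 := card_le_card k1
      have k4 := card_sdiff_add_card_eq_card k2
      have k5 : X.card ≤ (E 1).card := by
        rw [show (1 : ℕ) = 0 + 1 from rfl, hEs, hE0]
        exact card_le_card_add_right ⟨x0, hx0⟩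
      have k6 := card_sdiff_add_card_inter X (E (2 * m + 1))
      have k7 := hEc (2 * m + 1)
      have k8 : κ ^ (2 * m + 1) * X.card ≤ 3 / 2 * X.card := by gcongr
      have k9 : 2 * X.card ≤ (X \ E (2 * m + 1)).card + (E (2 * m + 1)).card := by omega
      have k10 : 2 * (X.card : ℝ) ≤ (X \ E (2 * m + 1)).card + (E (2 * m + 1)).card := by
        exact_mod_cast k9
      linarith
    calc ((m : ℝ) + 1) ^ 2 * (X.card / 2) ≤ ((m : ℝ) + 1) ^ 2 * (X \ E (2 * m + 1)).card := by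
          gcongr
      _ = ∑ y ∈ X \ E (2 * m + 1), (∑ j ∈ range (2 * m + 1 + 1), (-1) ^ j * ind j y) ^ 2 := by
          rw [mul_comm, ← nsmul_eq_mul, ← Finset.sum_const]
          refine Finset.sum_congr rfl fun y hy => ?_
          rw [show 2 * m + 1 + 1 = 2 * (m + 1) by ring, h1 y hy (m + 1) le_rfl]
          push_cast; rfl
      _ ≤ _ := Finset.sum_le_sum_of_subset_of_nonneg (subset_univ _) fun _ _ _ => sq_nonneg _
  refine ⟨fun y => ∑ j ∈ range (2 * m + 1 + 1), (-1) ^ j * ind j y,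
    lt_of_lt_of_le (by positivity) hT, fun x hx => ?_⟩
  have hi0 : ∀ j y, 0 ≤ ind j y := fun j y => by simp only [hind]; split_ifs <;> norm_num
  have hi1 : ∀ j y z, (y ∈ E j → z ∈ E (j + 1)) → ind j y ≤ ind (j + 1) z := fun j y z h => by
    by_cases hy : y ∈ E j
    · simp [hind, hy, h hy]
    · have := hi0 (j + 1) z
      simpa [hind, hy] using this
  have hsum : ∑ y, ind (2 * m + 1) y ^ 2 = (E (2 * m + 1)).card := by
    simp [hind]
  have hsum2 : ∑ y, ind (2 * m + 1) (y + x) ^ 2 = (E (2 * m + 1)).card := by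
    rw [← hsum]
    exact Equiv.sum_comp (Equiv.addRight x) (fun y => ind (2 * m + 1) y ^ 2)
  have h1 : ∑ y, (∑ j ∈ range (2 * m + 1 + 1), (-1) ^ j * ind j (y + x) +
      ∑ j ∈ range (2 * m + 1 + 1), (-1) ^ j * ind j y) ^ 2 ≤ 4 * (E (2 * m + 1)).card := by
    refine (Finset.sum_le_sum fun y _ => alt2 (fun j => ind j y) (fun j => ind j (y + x))
      (hi0 _ _) (hi0 _ _) (fun j => hi1 j _ _ (hstep j y x hx)) (fun j => hi1 j _ _ fun h => ?_)
      (2 * m + 1)).trans (le_of_eq ?_)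
    · have := hstep j _ x hx h
      rwa [add_assoc, add_self, add_zero] at this
    · rw [Finset.sum_add_distrib, ← Finset.mul_sum, ← Finset.mul_sum, hsum, hsum2]; ring
  have k7 := hEc (2 * m + 1)
  have k8 : κ ^ (2 * m + 1) * X.card ≤ 3 / 2 * X.card := by gcongr
  refine h1.trans (le_trans ?_ (mul_le_mul_of_nonneg_left hT (by positivity)))
  have e : 4 * (3 / ((m : ℝ) + 1) ^ 2) * (((m : ℝ) + 1) ^ 2 * (X.card / 2)) = 6 * X.card := by
    field_simp; ring
  rw [e]
  linarith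

end Pool.Agent.H59.SD
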