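import Pool.Agent.H59.SD2

set_option autoImplicit false

namespace Pool.Agent.H59.SD

open Finset Module Pointwise

theorem quad (n : ℕ) (ε : ℝ) (hε : 0 < ε) (A : Finset (Fin n → ZMod 2)) (hA : A.Nonempty)
    (hd : (1 / 2 - ε) * 2 ^ n ≤ (A.card : ℝ)) :
    ∃ V : Submodule (ZMod 2) (Fin n → ZMod 2), (∀ v ∈ V, v ∈ A + A) ∧
      (n : ℝ) - finrank (ZMod 2) V ≤ 90000 * (ε ^ 2 * n) + 2 := by
  have hr : finrank (ZMod 2) (Fin n → ZMod 2) = n := by simp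
  have hcard : Fintype.card (Fin n → ZMod 2) = 2 ^ n := by simp
  by_cases h : n = 0 ∨ 1 / 300 ≤ ε
  · refine ⟨⊥, fun v hv => ?_, ?_⟩
    · obtain ⟨a, ha⟩ := hA
      rw [(Submodule.mem_bot _).1 hv, ← add_self a]
      exact add_mem_add ha ha
    · rcases h with rfl | h
      · simp
      · have h1 : (1 / 300 : ℝ) ^ 2 ≤ ε ^ 2 := by gcongr
        have h2 : (0 : ℝ) ≤ n := by positivity
        simp only [finrank_bot, Nat.cast_zero, sub_zero]
        nlinarith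
  push Not at h
  obtain ⟨hn, hε'⟩ := h
  set S := (A + A)ᶜ with hS
  rcases S.eq_empty_or_nonempty with h0 | hSne
  · refine ⟨⊤, fun v _ => ?_, ?_⟩
    · by_contra hv
      have : v ∈ S := mem_compl.2 hv
      rw [h0] at this
      simp at this
    · rw [finrank_top, hr, sub_self]; positivity
  have hdis : ∀ a ∈ A, ∀ x ∈ S, a + x ∉ A := fun a ha x hx h => mem_compl.1 hx (by
    have := add_mem_add ha h
    rwa [← add_assoc, add_self, zero_add] at this)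
  have hκ : ∀ T : Finset (Fin n → ZMod 2), (∀ y ∈ T, ∃ a ∈ A, ∃ x ∈ S, a + x = y) →
      (T.card : ℝ) ≤ (1 + 5 * ε) * A.card := by
    intro T hT
    have h1 : T ⊆ Aᶜ := fun y hy => by
      obtain ⟨a, ha, x, hx, rfl⟩ := hT y hy
      exact mem_compl.2 (hdis a ha x hx)
    have h2 := card_le_card h1
    have h3 := card_add_card_compl A
    rw [hcard] at h3
    have h4 : (T.card : ℝ) + A.card ≤ 2 ^ n := by
      have : T.card + A.card ≤ 2 ^ n := by omega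
      exact_mod_cast this
    have h5 : (0 : ℝ) < 2 ^ n := by positivity
    have h6 : (2 + 5 * ε) * ((1 / 2 - ε) * 2 ^ n) ≤ (2 + 5 * ε) * A.card := by gcongr
    have h7 : 1 * (2 : ℝ) ^ n ≤ (2 + 5 * ε) * (1 / 2 - ε) * 2 ^ n := by
      gcongr; nlinarith
    nlinarith
  set m := ⌊1 / (60 * ε)⌋₊ with hm
  have hm1 : (m : ℝ) ≤ 1 / (60 * ε) := Nat.floor_le (by positivity)
  have hm2 : 1 / (60 * ε) < m + 1 := Nat.lt_floor_add_one _
  have hm3 : (1 + 5 * ε) ^ (2 * m + 1) ≤ 3 / 2 := by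
    have h1 : (1 + 5 * ε) ^ (2 * m + 1) ≤ Real.exp (5 * ε) ^ (2 * m + 1) :=
      pow_le_pow_left₀ (by positivity) (by linarith [Real.add_one_le_exp (5 * ε)]) _
    rw [← Real.exp_nat_mul] at h1
    have h2 : ((2 * m + 1 : ℕ) : ℝ) * (5 * ε) ≤ 1 / 3 := by
      rw [le_div_iff₀ (by positivity)] at hm1
      push_cast; nlinarith
    have h3 := Real.exp_bound_div_one_sub_of_interval (x := 1 / 3) (by norm_num) (by norm_num)
    have h4 := Real.exp_le_exp.2 h2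
    norm_num at h3 ⊢
    norm_num at h1 h4
    linarith [Real.exp_le_exp.2 h4]
  obtain ⟨F, hF, hFS⟩ := depth A S hA hSne hdis _ (hκ _ fun y hy => (@mem_add _ (_) _ _ _ _).1 hy) m hm3
  set δ : ℝ := 3 / ((m : ℝ) + 1) ^ 2 with hδ
  have hδ0 : 0 < δ := by positivity
  have hδ1 : δ ≤ 10800 * ε ^ 2 := by
    rw [div_lt_iff₀ (by positivity)] at hm2
    rw [hδ, div_le_iff₀ (by positivity)]
    have : 1 ^ 2 ≤ ((m + 1) * (60 * ε)) ^ 2 := by gcongr
    nlinarith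
  have hδ2 : δ < 1 / 6 := by
    have : ε ^ 2 ≤ (1 / 300) ^ 2 := by gcongr
    nlinarith
  have hn0 : (0 : ℝ) < n := by exact_mod_cast Nat.pos_of_ne_zero hn
  obtain ⟨V, h1, h2⟩ := avoid F hF (by rw [hr]; omega) δ hδ0 hδ2 ⌈4 * (n : ℝ) * δ⌉₊
    (Nat.ceil_pos.2 (by positivity)) (by rw [hr]; exact Nat.le_ceil _) S hFS
  refine ⟨V, fun v hv => ?_, ?_⟩
  · by_contra h
    exact h2 v (mem_compl.2 h) hv
  · rw [hr] at h1
    have h3 : (n : ℝ) ≤ finrank (ZMod 2) V + 2 * (⌈4 * (n : ℝ) * δ⌉₊ : ℝ) := by exact_mod_cast h1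
    have h4 := Nat.ceil_lt_add_one (show 0 ≤ 4 * (n : ℝ) * δ by positivity)
    have h5 : (n : ℝ) * δ ≤ n * (10800 * ε ^ 2) := by gcongr
    have h6 : 0 ≤ ε ^ 2 * n := by positivity
    nlinarith

/-- density at least `1/2 - K/√n` -/
theorem near_half2 (K : ℝ) (hK : 0 < K) : ∃ C : ℕ, ∀ n : ℕ, 1 ≤ n →
    ∀ A : Finset (Fin n → ZMod 2), A.Nonempty →
      (1 / 2 : ℝ) - K / Real.sqrt (n : ℝ) ≤ (A.card : ℝ) / (2 : ℝ) ^ n →
        ∃ V : Submodule (ZMod 2) (Fin n → ZMod 2),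
          n ≤ finrank (ZMod 2) V + C ∧ ∀ v ∈ V, v ∈ A + A := by
  refine ⟨⌈90000 * K ^ 2 + 2⌉₊, fun n hn A hA h => ?_⟩
  have hn0 : (0 : ℝ) < n := by exact_mod_cast hn
  have hs : 0 < Real.sqrt n := Real.sqrt_pos.2 hn0
  obtain ⟨V, h1, h2⟩ := quad n (K / Real.sqrt n) (by positivity) A hA
    ((le_div_iff₀ (by positivity)).1 h)
  refine ⟨V, ?_, h1⟩
  rw [div_pow, Real.sq_sqrt hn0.le, div_mul_cancel₀ _ hn0.ne'] at h2
  have h3 := Nat.le_ceil (90000 * K ^ 2 + 2)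
  have : (n : ℝ) ≤ finrank (ZMod 2) V + (⌈90000 * K ^ 2 + 2⌉₊ : ℝ) := by linarith
  exact_mod_cast this

end Pool.Agent.H59.SD
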