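import Mathlib

/-! Few lattice points on an arc of a hyperbola. -/

set_option autoImplicit false

namespace Pool.Agent.H59.SG

open Finset

lemma slope {A C α x x' W W' a : ℝ} (hα : α ^ 2 = A) (α0 : 0 < α) (hK : 16 < A * C) (W0 : 0 < W)
    (W0' : 0 < W') (h : W ^ 2 + 8 * x = A * x ^ 2 + C) (h' : W' ^ 2 + 8 * x' = A * x' ^ 2 + C)
    (l : x < x') (a0 : 0 < a) (ha : a ≤ A * x - 4) :
    W' - W < α * (x' - x) ∧ (α - α * (A * C) / (2 * a ^ 2)) * (x' - x) ≤ W' - W := by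
  have A0 : 0 < A := by rw [← hα]; positivity
  have ha' : a ≤ A * x' - 4 := by nlinarith
  have key : ∀ u V : ℝ, 0 < V → V ^ 2 + 8 * u = A * u ^ 2 + C → a ≤ A * u - 4 →
      A * u - 4 < α * V ∧ (α * V - (A * u - 4)) * (2 * a) ≤ A * C := fun u V V0 e hu => by
    have e2 : (α * V) ^ 2 = (A * u - 4) ^ 2 + (A * C - 16) := by
      rw [mul_pow, hα]; linear_combination A * e
    have b : A * u - 4 < α * V := lt_of_pow_lt_pow_left₀ 2 (by positivity) (by linarith)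
    exact ⟨b, by nlinarith⟩
  obtain ⟨b1, c1⟩ := key x W W0 h ha
  obtain ⟨b2, c2⟩ := key x' W' W0' h' ha'
  have e : (W' - W) * (W + W') = (x' - x) * (A * x - 4 + (A * x' - 4)) := by
    linear_combination h' - h
  have d : 0 < x' - x := by linarith
  have S : 0 < W + W' := by linarith
  constructor
  · refine lt_of_mul_lt_mul_right ?_ S.le
    rw [e]; nlinarith
  · refine le_of_mul_le_mul_right ?_ S
    rw [e]
    have f : α * (W + W') - (A * x - 4 + (A * x' - 4)) ≤ A * C / a := by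
      rw [le_div_iff₀ a0]; nlinarith
    have g : A * C / a ≤ α * (A * C) / (2 * a ^ 2) * (W + W') := by
      rw [div_mul_eq_mul_div, div_le_div_iff₀ a0 (by positivity)]
      have : 2 * a ≤ α * (W + W') := by nlinarith
      have := mul_le_mul_of_nonneg_left this (show 0 ≤ A * C * a by positivity)
      nlinarith
    nlinarith

lemma gap {A C G x1 x2 x3 W1 W2 W3 : ℕ} (hA : 8 ≤ A) (hC : 3 ≤ C) (hG : 4 * C ^ 2 ≤ G ^ 4 * A)
    (x0 : 1 ≤ x1) (l1 : x1 < x2) (l2 : x2 < x3) (h1 : W1 ^ 2 + 8 * x1 = A * x1 ^ 2 + C)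
    (h2 : W2 ^ 2 + 8 * x2 = A * x2 ^ 2 + C) (h3 : W3 ^ 2 + 8 * x3 = A * x3 ^ 2 + C) :
    x1 + G * x1 ≤ G * x3 := by
  have pos : ∀ x W : ℕ, 1 ≤ x → W ^ 2 + 8 * x = A * x ^ 2 + C → (0 : ℝ) < W := fun x W a b => by
    have : 0 < W := by
      by_contra h
      rw [show W = 0 by omega] at b
      nlinarith [Nat.mul_le_mul hA (show x ≤ x ^ 2 by nlinarith)]
    exact_mod_cast this
  have p1 := pos _ _ x0 h1
  have p2 := pos _ _ (by omega) h2
  have p3 := pos _ _ (by omega) h3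
  have A8 : (8 : ℝ) ≤ A := by exact_mod_cast hA
  have C3 : (3 : ℝ) ≤ C := by exact_mod_cast hC
  have X1 : (1 : ℝ) ≤ x1 := by exact_mod_cast x0
  have L1 : (x1 : ℝ) < x2 := by exact_mod_cast l1
  have L2 : (x2 : ℝ) < x3 := by exact_mod_cast l2
  have H1 : (W1 : ℝ) ^ 2 + 8 * x1 = A * x1 ^ 2 + C := by exact_mod_cast h1
  have H2 : (W2 : ℝ) ^ 2 + 8 * x2 = A * x2 ^ 2 + C := by exact_mod_cast h2
  have H3 : (W3 : ℝ) ^ 2 + 8 * x3 = A * x3 ^ 2 + C := by exact_mod_cast h3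
  have HG : 4 * (C : ℝ) ^ 2 ≤ G ^ 4 * A := by exact_mod_cast hG
  set α := √(A : ℝ) with hα
  have α2 : α ^ 2 = A := Real.sq_sqrt (by linarith)
  have α0 : 0 < α := Real.sqrt_pos.2 (by linarith)
  have a0 : (0 : ℝ) < A * x1 / 2 := by positivity
  have ha : (A : ℝ) * x1 / 2 ≤ A * x1 - 4 := by nlinarith
  obtain ⟨s1, t1⟩ := slope α2 α0 (by nlinarith) p1 p2 H1 H2 L1 a0 ha
  obtain ⟨s2, t2⟩ := slope α2 α0 (by nlinarith) p1 p3 H1 H3 (L1.trans L2) a0 ha
  set η := α * (A * C) / (2 * ((A : ℝ) * x1 / 2) ^ 2) with hη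
  have η0 : 0 < η := by positivity
  set Δ : ℤ := (x2 - x1 : ℤ) * (W3 - W1) - (x3 - x1) * (W2 - W1) with hΔ
  have eΔ : (Δ : ℝ) = (x2 - x1 : ℝ) * (W3 - W1) - (x3 - x1) * (W2 - W1) := by
    rw [hΔ]; push_cast; ring
  have d1 : (0 : ℝ) < x2 - x1 := by linarith
  have d2 : (0 : ℝ) < x3 - x1 := by linarith
  have n0 : Δ ≠ 0 := fun h => by
    rw [h, Int.cast_zero] at eΔ
    set s := ((W2 : ℝ) - W1) / (x2 - x1) with hs
    have e2 : (W2 : ℝ) = W1 + s * (x2 - x1) := by rw [hs]; field_simp; ring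
    have e3 : (W3 : ℝ) = W1 + s * (x3 - x1) := by
      refine mul_left_cancel₀ d1.ne' ?_
      linear_combination -eΔ + (x3 - x1) * e2
    rw [e2] at H2 s1
    rw [e3] at H3
    have f2 : s * (2 * W1 + s * (x2 - x1)) + 8 = A * (x1 + x2) := by
      refine mul_left_cancel₀ d1.ne' ?_
      linear_combination H2 - H1
    have f3 : s * (2 * W1 + s * (x3 - x1)) + 8 = A * (x1 + x3) := by
      refine mul_left_cancel₀ d2.ne' ?_
      linear_combination H3 - H1
    have g : s ^ 2 = A := by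
      refine mul_left_cancel₀ (show (x3 : ℝ) - x2 ≠ 0 by linarith) ?_
      linear_combination f3 - f2
    have s0 : 0 < s := by
      by_contra hc
      have : s * (2 * W1 + s * (x2 - x1)) ≤ 0 :=
        mul_nonpos_of_nonpos_of_nonneg (not_lt.1 hc) (by linarith)
      nlinarith
    have : s < α := by nlinarith
    nlinarith
  have b : (1 : ℝ) ≤ |(Δ : ℝ)| := by exact_mod_cast Int.one_le_abs n0
  have c : |(Δ : ℝ)| ≤ η * (x3 - x1) ^ 2 := by
    have := mul_le_mul_of_nonneg_left (show (x2 : ℝ) - x1 ≤ x3 - x1 by linarith)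
      (show 0 ≤ η * (x3 - x1) by positivity)
    rw [abs_le, eΔ]
    constructor <;> nlinarith
  have e : η * (α * x1 ^ 2) = 2 * C := by
    rw [hη, ← α2]; field_simp
  have f : 2 * (C : ℝ) ≤ G ^ 2 * α := le_of_pow_le_pow_left₀ two_ne_zero (by positivity)
    (by rw [mul_pow, mul_pow, α2]; linarith)
  have g : (x1 : ℝ) ^ 2 ≤ (G * (x3 - x1)) ^ 2 := by
    refine le_of_mul_le_mul_left ?_ α0
    calc α * (x1 : ℝ) ^ 2 ≤ α * x1 ^ 2 * (η * (x3 - x1) ^ 2) :=
          le_mul_of_one_le_right (by positivity) (b.trans c)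
      _ = 2 * C * (x3 - x1) ^ 2 := by rw [← e]; ring
      _ ≤ G ^ 2 * α * (x3 - x1) ^ 2 := by gcongr
      _ = _ := by ring
  have := le_of_pow_le_pow_left₀ two_ne_zero (by positivity) g
  have : (x1 : ℝ) + G * x1 ≤ G * x3 := by linarith
  exact_mod_cast this

open Classical in
lemma conic {A C G J : ℕ} (hA : 8 ≤ A) (hC : 3 ≤ C) (hG : 4 * C ^ 2 ≤ G ^ 4 * A) :
    ((Ico 1 (2 ^ J)).filter fun x => ∃ W, W ^ 2 + 8 * x = A * x ^ 2 + C).card ≤ 2 * (J * (2 * G)) := by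
  have G0 : 0 < G := by
    by_contra h
    rw [show G = 0 by omega] at hG
    nlinarith
  refine (card_le_mul_card_image (f := fun x => (Nat.log 2 x, x * G / 2 ^ Nat.log 2 x)) _ 2
    fun c _ => ?_).trans (Nat.mul_le_mul_left _ ?_)
  · by_contra hc
    have key : ∀ x1 x2 x3, x1 < x2 → x2 < x3 → ∀ S : Finset ℕ, S = ((Ico 1 (2 ^ J)).filter fun x =>
        ∃ W, W ^ 2 + 8 * x = A * x ^ 2 + C).filter (fun x => (Nat.log 2 x, x * G / 2 ^ Nat.log 2 x)
        = c) → x1 ∈ S → x2 ∈ S → x3 ∈ S → False := by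
      rintro x1 x2 x3 l1 l2 S rfl h1 h2 h3
      simp only [mem_filter, mem_Ico] at h1 h2 h3
      obtain ⟨⟨a1, W1, b1⟩, c1⟩ := h1
      obtain ⟨⟨-, W2, b2⟩, -⟩ := h2
      obtain ⟨⟨-, W3, b3⟩, c3⟩ := h3
      have g := gap hA hC hG a1.1 l1 l2 b1 b2 b3
      obtain ⟨e1, e2⟩ := Prod.mk.inj (c1.trans c3.symm)
      rw [← e1] at e2
      have p := Nat.pow_log_le_self 2 (show x1 ≠ 0 by omega)
      have q := Nat.lt_mul_div_succ (x3 * G) (show 0 < 2 ^ Nat.log 2 x1 by positivity)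
      have r := Nat.mul_div_le (x1 * G) (2 ^ Nat.log 2 x1)
      rw [← e2, mul_add] at q
      nlinarith
    obtain ⟨a, b, c, ha, hb, hc, ab, ac, bc⟩ := two_lt_card_iff.1 (not_le.1 hc)
    rcases lt_or_gt_of_ne ab with h | h <;> rcases lt_or_gt_of_ne ac with h' | h' <;>
      rcases lt_or_gt_of_ne bc with h'' | h''
    exacts [key _ _ _ h h'' _ rfl ha hb hc, key _ _ _ h' h'' _ rfl ha hc hb, by omega,
      key _ _ _ h' h _ rfl hc ha hb, key _ _ _ h h' _ rfl hb ha hc, by omega,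
      key _ _ _ h'' h' _ rfl hb hc ha, key _ _ _ h'' h _ rfl hc hb ha]
  · refine (card_le_card (t := range J ×ˢ range (2 * G)) fun c hc => ?_).trans (by simp)
    obtain ⟨x, hx, rfl⟩ := mem_image.1 hc
    have hx := mem_Ico.1 (mem_filter.1 hx).1
    refine mem_product.2 ⟨mem_range.2 (Nat.log_lt_of_lt_pow (by omega) hx.2), mem_range.2 ?_⟩
    have := Nat.lt_pow_succ_log_self (b := 2) one_lt_two x
    rw [Nat.div_lt_iff_lt_mul (by positivity)]
    rw [pow_succ] at this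
    nlinarith

end Pool.Agent.H59.SG
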