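import Mathlib
import Pool.Agent.H59.SG1
import Pool.Agent.H68.LampNT

/-! Counting the `n` for which `σ₂ = σₙ` has a solution with at most three distinct entries. -/

set_option autoImplicit false

namespace Pool.Agent.H59.SG

open Finset

/-- The equation for the tuple with `m` ones, `k` entries `x` and `l` entries `y`. -/
def E (m k x l y : ℕ) : Prop :=
  2 * (x ^ k * y ^ l) + (m + k * x ^ 2 + l * y ^ 2) = (m + k * x + l * y) ^ 2

lemma E.symm {m k x l y : ℕ} (h : E m k x l y) : E m l y k x := by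
  unfold E at *; linear_combination h

lemma E.uniq {m m' k x l y : ℕ} (hk : 1 ≤ k) (hx : 1 ≤ x) (h : E m k x l y) (h' : E m' k x l y) :
    m = m' := by
  unfold E at *
  have : 1 ≤ k * x := Nat.mul_pos hk hx
  rcases lt_trichotomy m m' with c | c | c
  · obtain ⟨d, rfl⟩ := Nat.exists_eq_add_of_lt c
    nlinarith [Nat.zero_le (l * y)]
  · exact c
  · obtain ⟨d, rfl⟩ := Nat.exists_eq_add_of_lt c
    nlinarith [Nat.zero_le (l * y)]

/-- The number of ones, as a function of the other data. -/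
noncomputable def sol (k x l y : ℕ) : ℕ := sInf {m | E m k x l y}

lemma E.sol_eq {m k x l y : ℕ} (hk : 1 ≤ k) (hx : 1 ≤ x) (h : E m k x l y) : sol k x l y = m :=
  E.uniq hk hx (Nat.sInf_mem (s := {m | E m k x l y}) ⟨m, h⟩) h

lemma sq2 (a b : ℕ) : (a + b) ^ 2 ≤ 2 * a ^ 2 + 2 * b ^ 2 := by
  zify; nlinarith [sq_nonneg ((a : ℤ) - b)]

lemma aux {m x y M Y : ℕ} (e : 2 * y * x ^ 2 + m + 2 * x ^ 2 = (m + 2 * x) ^ 2 + 2 * y * (m + 2 * x))
    (ms : m ≤ M) (h1 : 8 * M ^ 2 ≤ Y * x ^ 2) (h2 : 8 * M ≤ x ^ 2) (h3 : 64 ≤ Y) (h4 : Y ≤ y)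
    (h5 : 64 ≤ x) : False := by
  have i6 : 4 * (m + 2 * x) ≤ x ^ 2 := by nlinarith
  have i7 := sq2 m (2 * x)
  have i8 := Nat.mul_le_mul_left y i6
  have i9 := Nat.mul_le_mul_right (x ^ 2) h4
  have i10 := Nat.mul_le_mul_right (x ^ 2) (h3.trans h4)
  have i11 := Nat.pow_le_pow_left ms 2
  have : 0 < x ^ 2 := by positivity
  linarith

section
variable {s m k x l y : ℕ} (s8 : 8 ≤ s) (m1 : 1 ≤ m) (ms : m ≤ s ^ 72) (hx : 2 ≤ x) (hy : 2 ≤ y)
include s8 m1 ms hx hy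

lemma pw (a b : ℕ) (h : a < b) : 8 * s ^ a ≤ s ^ b :=
  le_trans (by rw [pow_succ]; nlinarith [Nat.zero_le (s ^ a)])
    (Nat.pow_le_pow_right (by omega) (show a + 1 ≤ b from h))

lemma one (ks : k ≤ s) (k1 : 1 ≤ k) (h : E m k x 1 y) :
    (k = 2 ∧ y ≤ s ^ 37) ∨ (x ≤ s ^ 54 ∧ x ^ k ≤ s ^ 146 ∧ m + k * x < x ^ k ∧
      x ^ k - (m + k * x) ∣ x ^ k * x ^ k + k * x - (x ^ k + k * x ^ 2) ∧
      x ^ k + k * x ^ 2 < x ^ k * x ^ k + k * x ∧ k * x ≤ x ^ k + k * x ^ 2) := by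
  unfold E at h
  set u := m + k * x with hu
  set P := x ^ k with hP
  have e : 2 * y * P + m + k * x ^ 2 = u ^ 2 + 2 * y * u := by linear_combination h
  have kx : x ≤ k * x := Nat.le_mul_of_pos_left _ k1
  have a : m + k * x ^ 2 < u ^ 2 := by
    have : k * x ^ 2 ≤ (k * x) ^ 2 := by nlinarith
    nlinarith
  have b : u < P := by
    by_contra hc
    nlinarith [Nat.mul_le_mul_left (2 * y) (not_lt.1 hc)]
  obtain ⟨D, hD⟩ := Nat.exists_eq_add_of_lt b
  have e' : 2 * y * (D + 1) + m + k * x ^ 2 = u ^ 2 := by rw [hD] at e; linarith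
  have c : P + k * x ^ 2 < P * P + k * x := by nlinarith
  have d : P - u ∣ P * P + k * x - (P + k * x ^ 2) := by
    rw [show P - u = D + 1 by omega]
    refine ⟨2 * y + 2 * u + D, ?_⟩
    rw [hD]
    refine Nat.sub_eq_of_eq_add ?_
    nlinarith
  have q : k * x ≤ P + k * x ^ 2 := by nlinarith
  have p1 := pw s8 m1 ms hx hy
  rcases (show k = 1 ∨ k = 2 ∨ 3 ≤ k by omega) with rfl | rfl | k3
  · rw [pow_one] at hP; omega
  · by_cases hY : y ≤ s ^ 37
    · exact Or.inl ⟨rfl, hY⟩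
    have x54 : x ≤ s ^ 54 := by
      by_contra hc
      have hc := (not_le.1 hc).le
      have i1 : s ^ 108 ≤ x ^ 2 := by
        rw [show s ^ 108 = (s ^ 54) ^ 2 by ring]; exact Nat.pow_le_pow_left hc 2
      have i4 : 64 ≤ s ^ 37 := le_trans (show 64 ≤ s ^ 2 from Nat.pow_le_pow_left s8 2)
        (Nat.pow_le_pow_right (by omega) (show 2 ≤ 37 by norm_num))
      refine aux e ms ?_ ((p1 72 108 (by norm_num)).trans i1) i4 (not_le.1 hY).le
        (le_trans (i4.trans (Nat.pow_le_pow_right (by omega) (by norm_num))) hc)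
      calc _ = 8 * s ^ 144 := by ring
        _ ≤ s ^ 145 := p1 _ _ (by norm_num)
        _ = s ^ 37 * s ^ 108 := by ring
        _ ≤ _ := Nat.mul_le_mul_left _ i1
    refine Or.inr ⟨x54, ?_, b, d, c, q⟩
    calc P ≤ (s ^ 54) ^ 2 := Nat.pow_le_pow_left x54 2
      _ ≤ _ := by rw [← pow_mul]; exact Nat.pow_le_pow_right (by omega) (by norm_num)
  · have f : P ≤ u ^ 2 := by nlinarith
    have g : x ^ 3 ≤ P := Nat.pow_le_pow_right (by omega) k3
    have u1 : u ≤ s ^ 72 + s * x := add_le_add ms (Nat.mul_le_mul_right _ ks)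
    have x49 : x ≤ s ^ 49 := by
      by_contra hc
      have hc := (not_le.1 hc).le
      have i1 : 8 * (s ^ 72) ^ 2 ≤ x ^ 3 := by
        calc _ = 8 * s ^ 144 := by ring
          _ ≤ s ^ 147 := p1 _ _ (by norm_num)
          _ = (s ^ 49) ^ 3 := by ring
          _ ≤ _ := Nat.pow_le_pow_left hc 3
      have i2 : 8 * (s * x) ^ 2 ≤ x ^ 3 := by
        calc _ = 8 * s ^ 2 * x ^ 2 := by ring
          _ ≤ x * x ^ 2 := Nat.mul_le_mul_right _ ((p1 2 49 (by norm_num)).trans hc)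
          _ = _ := by ring
      have i3 := Nat.pow_le_pow_left u1 2
      have : 0 < x ^ 3 := by positivity
      have := sq2 (s ^ 72) (s * x)
      omega
    refine Or.inr ⟨x49.trans (Nat.pow_le_pow_right (by omega) (by norm_num)), f.trans ?_, b, d, c, q⟩
    have i1 : s * x ≤ s ^ 72 := (Nat.mul_le_mul_left _ x49).trans (by
      rw [← pow_succ']; exact Nat.pow_le_pow_right (by omega) (by norm_num))
    have := p1 72 73 (by norm_num)
    calc u ^ 2 ≤ (s ^ 73) ^ 2 := Nat.pow_le_pow_left (by omega) 2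
      _ = _ := by ring

lemma two (ks : k ≤ s) (ls : l ≤ s) (k2 : 2 ≤ k) (l2 : 2 ≤ l) (h : E m k x l y) :
    (k = 2 ∧ y ≤ s ^ 37) ∨ (l = 2 ∧ x ≤ s ^ 37) ∨ x * y ≤ s ^ 60 := by
  by_contra hc
  push Not at hc
  obtain ⟨c1, c2, c3⟩ := hc
  have p1 := pw s8 m1 ms hx hy
  unfold E at h
  have xy : x + y ≤ x * y := by nlinarith
  have P2 : (x * y) ^ 2 ≤ x ^ k * y ^ l := by
    rw [mul_pow]
    exact Nat.mul_le_mul (Nat.pow_le_pow_right (by omega) k2) (Nat.pow_le_pow_right (by omega) l2)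
  by_cases hkl : k = 2 ∧ l = 2
  · obtain ⟨rfl, rfl⟩ := hkl
    have a := c1 rfl
    have b := c2 rfl
    have i1 : 8 * s ^ 72 ≤ x * y := (p1 72 74 (by norm_num)).trans (by
      rw [show s ^ 74 = s ^ 37 * s ^ 37 by ring]; exact Nat.mul_le_mul b.le a.le)
    have i4 : 8 ≤ s ^ 37 := s8.trans (Nat.le_self_pow (by norm_num) _)
    have i5 := Nat.mul_le_mul_left x (i4.trans a.le)
    have i6 := Nat.mul_le_mul_right y (i4.trans b.le)
    have i2 : m + 2 * x + 2 * y ≤ x * y := by omega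
    have := Nat.pow_le_pow_left i2 2
    omega
  · have i0 : s ^ 37 ≤ s ^ 60 := Nat.pow_le_pow_right (by omega) (by norm_num)
    have P3 : (x * y) ^ 2 * s ^ 37 ≤ x ^ k * y ^ l := by
      have w : ∀ {k l x y : ℕ}, 2 ≤ x → 2 ≤ y → 2 ≤ k → 3 ≤ l → s ^ 37 ≤ y →
          (x * y) ^ 2 * s ^ 37 ≤ x ^ k * y ^ l := fun {k l x y} a b c d e => by
        calc _ ≤ (x * y) ^ 2 * y := Nat.mul_le_mul_left _ e
          _ = x ^ 2 * y ^ 3 := by ring
          _ ≤ _ := Nat.mul_le_mul (Nat.pow_le_pow_right (by omega) c)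
            (Nat.pow_le_pow_right (by omega) d)
      rcases k2.eq_or_lt with e | e
      · exact w hx hy k2 (by omega) (c1 e.symm).le
      rcases l2.eq_or_lt with e' | e'
      · rw [mul_comm x, mul_comm (x ^ k)]; exact w hy hx l2 e (c2 e'.symm).le
      calc _ ≤ (x * y) ^ 2 * (x * y) := Nat.mul_le_mul_left _ (by omega)
        _ = x ^ 3 * y ^ 3 := by ring
        _ ≤ _ := Nat.mul_le_mul (Nat.pow_le_pow_right (by omega) e)
          (Nat.pow_le_pow_right (by omega) e')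
    have i1 : m ≤ s ^ 12 * (x * y) := ms.trans (by
      rw [show s ^ 72 = s ^ 12 * s ^ 60 by ring]; exact Nat.mul_le_mul_left _ c3.le)
    have i2 : k * x + l * y ≤ s ^ 12 * (x * y) := by
      have : s ≤ s ^ 12 := Nat.le_self_pow (by norm_num) _
      calc _ ≤ s * x + s * y := add_le_add (Nat.mul_le_mul_right _ ks) (Nat.mul_le_mul_right _ ls)
        _ = s * (x + y) := by ring
        _ ≤ _ := Nat.mul_le_mul this xy
    have i3 : (m + k * x + l * y) ^ 2 ≤ (2 * (s ^ 12 * (x * y))) ^ 2 :=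
      Nat.pow_le_pow_left (by omega) 2
    have i4 := Nat.mul_le_mul_left ((x * y) ^ 2) (p1 24 37 (by norm_num))
    have e : (2 * (s ^ 12 * (x * y))) ^ 2 * 2 = (x * y) ^ 2 * (8 * s ^ 24) := by ring
    omega

lemma con (ls : l ≤ s) (l1 : 1 ≤ l) (ys : y ≤ s ^ 37) (h : E m 2 x l y) : x < s ^ 74 ∧
    ∃ W, W ^ 2 + 8 * x = 8 * (y ^ l + 1) * x ^ 2 + (4 * (l * y * (y - 1)) + 1) := by
  unfold E at h
  have p1 := pw s8 m1 ms hx hy
  constructor
  · by_contra hc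
    have hc := not_lt.1 hc
    have a := p1 72 74 (by norm_num)
    have b : l * y ≤ s ^ 72 := (Nat.mul_le_mul ls ys).trans (by
      rw [← pow_succ']; exact Nat.pow_le_pow_right (by omega) (by norm_num))
    have c : 2 ≤ y ^ l := hy.trans (Nat.le_self_pow (by omega) _)
    have d : (4 * (m + 2 * x + l * y)) ^ 2 ≤ (9 * x) ^ 2 := Nat.pow_le_pow_left (by omega) 2
    have e := Nat.mul_le_mul_left (x ^ 2) c
    nlinarith [Nat.zero_le (l * y ^ 2)]
  · obtain ⟨z, rfl⟩ := Nat.exists_eq_add_of_le' (show 1 ≤ y by omega)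
    obtain ⟨n, rfl⟩ := Nat.exists_eq_add_of_le' m1
    refine ⟨2 * (n + 2 * x + l * (z + 1)) + 1, ?_⟩
    rw [Nat.add_sub_cancel]
    zify at h ⊢
    linear_combination -4 * h

end

open Classical in
theorem count (N : ℕ) : ∃ M : ℕ, ((range (M + 1)).filter fun n => ∃ m k x l y, 1 ≤ m ∧ 1 ≤ k ∧
    1 ≤ l ∧ 2 ≤ x ∧ 2 ≤ y ∧ n = m + k + l ∧ 2 ^ (k + l) ≤ 4 * n ^ 2 ∧ E m k x l y).card + N ≤ M := by
  obtain ⟨C, C1, hC⟩ := H68.RF.div_bound 584 (by norm_num)
  obtain ⟨C', -, hC'⟩ := H68.RF.pow_le' 2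
  obtain ⟨j, hj⟩ : ∃ j, j = 146 * C' + C ^ 2 + N + 8 := ⟨_, rfl⟩
  obtain ⟨s, hs⟩ : ∃ s, s = 2 ^ j := ⟨_, rfl⟩
  have js : j < s := hs ▸ Nat.lt_two_pow_self
  have j2 : 146 * j ≤ s := by
    have := hC' j
    rw [← hs] at this
    by_contra hc
    rcases C'.eq_zero_or_pos with h | h
    · rw [h] at this; nlinarith
    have : j ^ 2 ≤ C' * (146 * j) := this.trans (Nat.mul_le_mul_left _ (by omega))
    nlinarith
  have s8 : 8 ≤ s := by omega
  have tau : ∀ F, F ≤ s ^ 292 → F.divisors.card ≤ s := fun F hF => by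
    refine (Nat.pow_le_pow_iff_left (show 584 ≠ 0 by norm_num)).1 ((hC F).trans ?_)
    calc C ^ 584 * F = (C ^ 2) ^ 292 * F := by ring
      _ ≤ s ^ 292 * s ^ 292 := Nat.mul_le_mul (Nat.pow_le_pow_left (by omega) _) hF
      _ = _ := by ring
  set U1 := (Icc 1 s ×ˢ Icc 2 (s ^ 37)).biUnion fun p => ((Ico 1 (2 ^ (74 * j))).filter fun x =>
    ∃ W, W ^ 2 + 8 * x = 8 * (p.2 ^ p.1 + 1) * x ^ 2 + (4 * (p.1 * p.2 * (p.2 - 1)) + 1)).image
    fun x => sol 2 x p.1 p.2 + 2 + p.1 with hU1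
  set U2 := ((Icc 1 s ×ˢ Icc 1 (s ^ 54)).filter fun p => p.2 ^ p.1 * p.2 ^ p.1 + p.1 * p.2 -
    (p.2 ^ p.1 + p.1 * p.2 ^ 2) ≤ s ^ 292).biUnion fun p => (p.2 ^ p.1 * p.2 ^ p.1 + p.1 * p.2 -
    (p.2 ^ p.1 + p.1 * p.2 ^ 2)).divisors.image fun D => p.2 ^ p.1 - D - p.1 * p.2 + p.1 + 1 with hU2
  set U3 := ((Icc 1 s ×ˢ Icc 1 s) ×ˢ Icc 1 (s ^ 60)).biUnion fun p => p.2.divisors.image
    fun x => sol p.1.1 x p.1.2 (p.2 / x) + p.1.1 + p.1.2 with hU3
  have c1 : U1.card ≤ s * s ^ 37 * (2 * (s * (2 * s ^ 29))) := by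
    refine (card_biUnion_le_card_mul _ _ (2 * (s * (2 * s ^ 29))) fun p hp => ?_).trans
      (Nat.mul_le_mul_right _ (by simp [Nat.mul_le_mul_left]))
    simp only [mem_product, mem_Icc] at hp
    obtain ⟨⟨a, b⟩, c, d⟩ := hp
    have e : p.2 ≤ p.2 ^ p.1 := Nat.le_self_pow (by omega) _
    have f : 1 * 2 * 1 ≤ p.1 * p.2 * (p.2 - 1) := Nat.mul_le_mul (Nat.mul_le_mul a c) (by omega)
    refine card_image_le.trans ((conic (G := s ^ 29) (by omega) (by omega) ?_).trans (by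
      gcongr; omega))
    have g : 4 * (p.1 * p.2 * (p.2 - 1)) + 1 ≤ 4 * (s * p.2 ^ 2) := by
      obtain ⟨z, hz⟩ := Nat.exists_eq_add_of_le' (show 1 ≤ p.2 by omega)
      rw [hz, Nat.add_sub_cancel]
      nlinarith [Nat.mul_le_mul_right ((z + 1) * z) b]
    calc _ ≤ 4 * (4 * (s * p.2 ^ 2)) ^ 2 := by gcongr
      _ = 8 * s ^ 2 * p.2 ^ 3 * (8 * p.2) := by ring
      _ ≤ 8 * s ^ 2 * (s ^ 37) ^ 3 * (8 * (p.2 ^ p.1 + 1)) := by gcongr; omega
      _ = 8 * s ^ 113 * (8 * (p.2 ^ p.1 + 1)) := by ring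
      _ ≤ s ^ 116 * (8 * (p.2 ^ p.1 + 1)) := Nat.mul_le_mul_right _
        (pw s8 le_rfl (Nat.one_le_pow _ _ (by omega)) le_rfl le_rfl _ _ (by norm_num))
      _ = _ := by ring
  have c2 : U2.card ≤ s * s ^ 54 * s :=
    (card_biUnion_le_card_mul _ _ s fun p hp => card_image_le.trans (tau _ (mem_filter.1 hp).2)).trans
      (Nat.mul_le_mul_right _ ((card_filter_le _ _).trans (by simp)))
  have c3 : U3.card ≤ s * s * s ^ 60 * s :=
    (card_biUnion_le_card_mul _ _ s fun p hp => card_image_le.trans (tau _ ((mem_Icc.1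
      (mem_product.1 hp).2).2.trans (Nat.pow_le_pow_right (by omega) (by norm_num))))).trans
      (Nat.mul_le_mul_right _ (by simp))
  refine ⟨s ^ 72, le_trans (Nat.add_le_add_right (card_le_card (t := U1 ∪ U2 ∪ U3) ?_) _) ?_⟩
  · intro n hn
    obtain ⟨hn, m, k, x, l, y, m1, k1, l1, hx, hy, rfl, hr, h⟩ := mem_filter.1 hn
    have ms : m + k + l ≤ s ^ 72 := by have := mem_range.1 hn; omega
    have kl : k + l ≤ s := by
      have : 2 ^ (k + l) ≤ 2 ^ (144 * j + 2) := hr.trans (by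
        calc 4 * (m + k + l) ^ 2 ≤ 4 * (s ^ 72) ^ 2 := by gcongr
          _ = _ := by rw [hs, ← pow_mul, ← pow_mul, pow_add, mul_comm 4]; ring_nf)
      have := (Nat.pow_le_pow_iff_right one_lt_two).1 this
      omega
    have ms' : m ≤ s ^ 72 := by omega
    clear hr c1 c2 c3 hn
    have I : ∀ {x l y : ℕ}, 2 ≤ x → 2 ≤ y → 1 ≤ l → l ≤ s → y ≤ s ^ 37 → E m 2 x l y →
        m + 2 + l ∈ U1 := fun {x l y} hx hy l1 ls ys h => by
      obtain ⟨a, b⟩ := con s8 m1 ms' hx hy ls l1 ys h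
      refine mem_biUnion.2 ⟨(l, y), mem_product.2 ⟨mem_Icc.2 ⟨l1, ls⟩, mem_Icc.2 ⟨hy, ys⟩⟩, mem_image.2 ⟨x, mem_filter.2 ⟨mem_Ico.2
        ⟨by omega, ?_⟩, b⟩, by rw [h.sol_eq one_le_two (by omega)]⟩⟩
      rwa [hs, ← pow_mul, mul_comm] at a
    have II : ∀ {k x y : ℕ}, 2 ≤ x → 2 ≤ y → 1 ≤ k → k ≤ s → E m k x 1 y →
        m + k + 1 ∈ U1 ∪ U2 := fun {k x y} hx hy k1 ks h => by
      rcases one s8 m1 ms' hx hy ks k1 h with ⟨rfl, a⟩ | ⟨a, b, c, d, e, f⟩
      · exact mem_union_left _ (I hx hy le_rfl (by omega) a h)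
      refine mem_union_right _ (mem_biUnion.2 ⟨(k, x), mem_filter.2 ⟨mem_product.2
        ⟨mem_Icc.2 ⟨k1, ks⟩, mem_Icc.2 ⟨one_le_two.trans hx, a⟩⟩, ?_⟩,
        mem_image.2 ⟨_, Nat.mem_divisors.2 ⟨d, by simp only; omega⟩, by simp only; omega⟩⟩)
      have : x ^ k * x ^ k ≤ s ^ 292 := (Nat.mul_le_mul b b).trans_eq (by rw [← pow_add])
      simp only; omega
    rcases l1.eq_or_lt with rfl | l2
    · exact mem_union_left _ (II hx hy k1 (by omega) h)
    rcases k1.eq_or_lt with rfl | k2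
    · rw [add_right_comm]; exact mem_union_left _ (II hy hx l1 (by omega) h.symm)
    rcases two s8 m1 ms' hx hy (by omega) (by omega) k2 l2 h with ⟨rfl, a⟩ | ⟨rfl, a⟩ | a
    · exact mem_union_left _ (mem_union_left _ (I hx hy l1 (by omega) a h))
    · rw [add_right_comm]
      exact mem_union_left _ (mem_union_left _ (I hy hx k1 (by omega) a h.symm))
    · refine mem_union_right _ (mem_biUnion.2 ⟨((k, l), x * y), by
        simp only [mem_product, mem_Icc]; refine ⟨by omega, by nlinarith, a⟩,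
        mem_image.2 ⟨x, Nat.mem_divisors.2 ⟨dvd_mul_right _ _, by positivity⟩, ?_⟩⟩)
      simp only
      rw [Nat.mul_div_cancel_left _ (by omega), h.sol_eq k1 (by omega)]
  · have a := card_union_le (U1 ∪ U2) U3
    have b := card_union_le U1 U2
    have p1 := pw s8 le_rfl (Nat.one_le_pow _ _ (by omega)) le_rfl le_rfl
    have e1 : s * s ^ 37 * (2 * (s * (2 * s ^ 29))) = 4 * s ^ 68 := by ring
    have e2 : s * s ^ 54 * s = s ^ 56 := by ring
    have e3 : s * s * s ^ 60 * s = s ^ 63 := by ring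
    have := p1 68 72 (by norm_num)
    have := p1 56 68 (by norm_num)
    have := p1 63 68 (by norm_num)
    have := p1 1 68 (by norm_num)
    rw [pow_one] at this
    omega

end Pool.Agent.H59.SG
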