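import Mathlib
import Pool.Agent.H59.SN2
import Pool.Agent.H59.Digits
import Pool.Agent.H59.FracSum

/-! Digit blocks of polynomial values on a short interval. -/

set_option autoImplicit false
open Finset Filter Pool.Agent.H59.Digits

namespace Pool.Agent.H59.SN

/-- indicator of the digit zero -/
noncomputable def z0 (y : ℕ) : ℝ := if y = 0 then 1 else 0

lemma F0 (b t x : ℕ) : 0 ≤ F b z0 t x := sum_nonneg fun _ _ => by unfold z0; positivity

lemma mgf {b : ℕ} (hb : 2 ≤ b) (s : ℝ) (r : ℕ) :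
    ∑ v ∈ range (b ^ r), Real.exp (-s * F b z0 r v) = (b - 1 + Real.exp (-s)) ^ r := by
  induction r with
  | zero => simp [F]
  | succ r ih =>
    rw [pow_succ, sum_range_mul', pow_succ, ← ih, sum_mul]
    refine sum_congr rfl fun v _ => ?_
    rw [sum_congr rfl fun u hu => by rw [F_succ b z0 r v u (mem_range.1 hu), mul_add, Real.exp_add],
      ← sum_mul, mul_comm]
    obtain ⟨c, rfl⟩ : ∃ c, b = c + 1 := ⟨b - 1, by omega⟩
    rw [sum_range_succ']
    simp [z0]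

lemma ld {b : ℕ} (hb : 2 ≤ b) {η : ℝ} (h0 : 0 < η) (h1 : η ≤ 1) (r : ℕ) :
    (((range (b ^ r)).filter fun v => F b z0 r v < (1 / b - η) * r).card : ℝ) ≤
      b ^ r * Real.exp (-(η ^ 2 / 2) * r) := by
  have b2 : (2 : ℝ) ≤ b := by exact_mod_cast hb
  have a1 := card_nsmul_le_sum ((range (b ^ r)).filter fun v => F b z0 r v < (1 / b - η) * r)
    (fun v => Real.exp (-η * F b z0 r v)) (Real.exp (-η * ((1 / b - η) * r))) fun v hv =>
      Real.exp_le_exp.2 (by nlinarith [(mem_filter.1 hv).2])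
  have a2 := a1.trans ((sum_le_sum_of_subset_of_nonneg (filter_subset _ _)
    fun _ _ _ => (Real.exp_pos _).le).trans_eq (mgf hb η r))
  have a3 : Real.exp (-η) ≤ 1 - η + η ^ 2 := by
    have := Real.add_one_le_exp η
    rw [Real.exp_neg, inv_le_comm₀ (Real.exp_pos _) (by nlinarith), inv_le_iff_one_le_mul₀ (by nlinarith)]
    nlinarith [mul_le_mul_of_nonneg_right this (show 0 ≤ 1 - η + η ^ 2 by nlinarith), pow_pos h0 3]
  have a4 : b - 1 + Real.exp (-η) ≤ b * Real.exp ((η ^ 2 - η) / b) := by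
    have := mul_le_mul_of_nonneg_left (Real.add_one_le_exp ((η ^ 2 - η) / b)) (show (0 : ℝ) ≤ b by linarith)
    rw [mul_add, mul_div_cancel₀ _ (by linarith)] at this
    linarith
  have a5 := a2.trans (pow_le_pow_left₀ (by linarith [Real.exp_pos (-η)]) a4 r)
  rw [nsmul_eq_mul, mul_pow, ← Real.exp_nat_mul, ← le_div_iff₀ (Real.exp_pos _), mul_div_assoc,
    ← Real.exp_sub] at a5
  refine a5.trans (mul_le_mul_of_nonneg_left (Real.exp_le_exp.2 ?_) (by positivity))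
  have a6 : η ^ 2 / b ≤ η ^ 2 / 2 := div_le_div_of_nonneg_left (by positivity) (by norm_num) b2
  have : r * ((η ^ 2 - η) / b) - -η * ((1 / b - η) * r) = r * (η ^ 2 / b - η ^ 2) := by ring
  rw [this]
  nlinarith [mul_le_mul_of_nonneg_left a6 (Nat.cast_nonneg (α := ℝ) r)]

lemma F_blocks (b r J x : ℕ) : F b z0 (J * r) x = ∑ j ∈ range J, F b z0 r (x / b ^ (j * r)) := by
  induction J with
  | zero => simp [F]
  | succ J ih => rw [Nat.succ_mul, F_add, ih, sum_range_succ]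

lemma F_top {b : ℕ} (hb : 2 ≤ b) (u : ℕ) : (u : ℝ) ≤ F b z0 (u + 1) (b ^ u) := by
  rw [F_add]
  refine le_trans (le_of_eq ?_) (le_add_of_nonneg_right (F0 _ _ _))
  rw [F, sum_congr rfl (g := fun _ => 1) fun i hi => ?_]
  · simp
  · rw [Nat.pow_div (mem_range.1 hi).le (by omega), z0, if_pos]
    exact Nat.mod_eq_zero_of_dvd (dvd_pow_self _ (by have := mem_range.1 hi; omega))

lemma pb0 (q : Polynomial ℝ) (h : 0 < q.leadingCoeff) : ∃ C : ℝ, 1 ≤ C ∧ ∀ᶠ x : ℝ in atTop,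
    x ^ q.natDegree ≤ C * q.eval x ∧ q.eval x ≤ C * x ^ q.natDegree := by
  refine ⟨1 + 2 / q.leadingCoeff + 2 * q.leadingCoeff, by
    have : 0 ≤ 2 / q.leadingCoeff := by positivity
    linarith, ?_⟩
  filter_upwards [q.isEquivalent_atTop_lead.isLittleO.bound (show (0 : ℝ) < 1 / 2 by norm_num),
    eventually_ge_atTop 0] with x hx x0
  have p : 0 ≤ x ^ q.natDegree := by positivity
  rw [Pi.sub_apply, Real.norm_eq_abs, Real.norm_of_nonneg (by positivity), abs_le] at hx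
  have e : 2 / q.leadingCoeff * q.leadingCoeff = 2 := by field_simp
  have d : 0 < 2 / q.leadingCoeff := by positivity
  have p2 := mul_nonneg h.le p
  have p3 : q.leadingCoeff * x ^ q.natDegree ≤ 2 * q.eval x := by linarith [hx.1]
  constructor
  · have := mul_le_mul_of_nonneg_left p3 d.le
    rw [← mul_assoc, e] at this
    nlinarith
  · nlinarith [hx.2, mul_nonneg d.le p]

/-- growth data -/
structure Gr (φ : ℕ → ℝ) (D n0 : ℕ) (C : ℝ) : Prop where
  c : 1 ≤ C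
  lo : ∀ n, n0 ≤ n → (n : ℝ) ^ (D + 1) ≤ C * φ n
  up : ∀ n, n0 ≤ n → φ n ≤ C * (n : ℝ) ^ (D + 1)
  dl : ∀ n m, n0 ≤ n → n ≤ m → (n : ℝ) ^ D * (m - n) ≤ C * (φ m - φ n)
  du : ∀ n m, n0 ≤ n → n ≤ m → φ m - φ n ≤ C * ((m : ℝ) ^ D * (m - n))

lemma pb (f : Polynomial ℝ) (D : ℕ) (hD : f.natDegree = D + 1) (h : 0 < f.leadingCoeff) :
    ∃ n0 C, 1 ≤ n0 ∧ Gr (fun n => f.eval (n : ℝ)) D n0 C := by
  have d1 : f.derivative.natDegree = D := by rw [Polynomial.natDegree_derivative, hD]; rfl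
  have d2 : 0 < f.derivative.leadingCoeff := by
    rw [Polynomial.leadingCoeff, d1, Polynomial.coeff_derivative, ← hD]
    exact mul_pos h (by positivity)
  obtain ⟨C1, c1, h1⟩ := pb0 f h
  obtain ⟨C2, c2, h2⟩ := pb0 _ d2
  obtain ⟨x0, h3⟩ := eventually_atTop.1 (h1.and h2)
  rw [d1, hD] at h3
  have k : ∀ n : ℕ, ⌈x0⌉₊ + 1 ≤ n → x0 ≤ n := fun n hn => Nat.ceil_le.1 (by omega)
  have mv : ∀ n m : ℕ, n ≤ m → ∃ ξ : ℝ, n ≤ ξ ∧ ξ ≤ m ∧
      f.eval (m : ℝ) - f.eval (n : ℝ) = f.derivative.eval ξ * (m - n) := fun n m nm => by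
    rcases nm.eq_or_lt with rfl | nm
    · exact ⟨n, le_rfl, le_rfl, by simp⟩
    have a : (n : ℝ) < m := by exact_mod_cast nm
    obtain ⟨ξ, ⟨b1, b2⟩, b3⟩ := exists_hasDerivAt_eq_slope (fun x => f.eval x) _ a
      f.continuous.continuousOn fun x _ => f.hasDerivAt x
    exact ⟨ξ, b1.le, b2.le, by rw [b3, div_mul_cancel₀ _ (by linarith)]⟩
  refine ⟨⌈x0⌉₊ + 1, C1 * C2, by omega, one_le_mul_of_one_le_of_one_le c1 c2, fun n hn => ?_,
    fun n hn => ?_, fun n m hn nm => ?_, fun n m hn nm => ?_⟩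
  · have := (h3 n (k n hn)).1.1
    have p : (0 : ℝ) ≤ n ^ (D + 1) := by positivity
    nlinarith [mul_le_mul_of_nonneg_left c2 (p.trans this)]
  · have := (h3 n (k n hn)).1.2
    have p : (0 : ℝ) ≤ C1 * n ^ (D + 1) := by positivity
    nlinarith [mul_le_mul_of_nonneg_left c2 p]
  · obtain ⟨ξ, b1, b2, b3⟩ := mv n m nm
    have := (pow_le_pow_left₀ (by positivity) b1 D).trans (h3 ξ ((k n hn).trans b1)).2.1
    have p : (0 : ℝ) ≤ n ^ D := by positivity
    rw [b3, ← mul_assoc]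
    exact mul_le_mul_of_nonneg_right (by nlinarith [mul_le_mul_of_nonneg_left c1 (p.trans this)])
      (by linarith)
  · obtain ⟨ξ, b1, b2, b3⟩ := mv n m nm
    have := (h3 ξ ((k n hn).trans b1)).2.2.trans (mul_le_mul_of_nonneg_left
      (pow_le_pow_left₀ ((Nat.cast_nonneg n).trans b1) b2 D) (by linarith))
    have p : (0 : ℝ) ≤ C2 * m ^ D := by positivity
    rw [b3, ← mul_assoc]
    exact mul_le_mul_of_nonneg_right (by nlinarith [mul_le_mul_of_nonneg_left c1 p]) (by linarith)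

/-- local data on the interval where `g` lies in `[X, X + S)` -/
structure Loc (g : ℕ → ℕ) (D : ℕ) (C C' Y W : ℝ) (X S a H : ℕ) : Prop where
  y1 : Y ≤ 3 * C * a
  y2 : (a + 1 + H : ℝ) ≤ 3 * C * Y
  w1 : W ≤ 2 * C' * H
  w2 : H ≤ 2 * C' * W
  lt : ∀ n < a + 1 + H, g n < X + S
  ge : ∀ n < H, X ≤ g (a + 1 + n)
  dl : ∀ n m, n ≤ m → m < H → Y ^ D * (m - n) ≤ C' * (g (a + 1 + m) - g (a + 1 + n) : ℝ)

lemma loc {g : ℕ → ℕ} {φ : ℕ → ℝ} {D n0 : ℕ} {C : ℝ} (h : Gr φ D n0 C) (n1 : 1 ≤ n0)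
    (hφ : ∀ n, 1 ≤ n → φ n = g n) {Y W : ℝ} {X S : ℕ} (hX : (X : ℝ) = Y ^ (D + 1))
    (hS : (S : ℝ) = Y ^ D * W) (hW : 2 * (C * (3 * C) ^ D) ≤ W) (hY : W ≤ Y)
    (h0 : ∑ n ∈ range (n0 + 1), g n < X) : ∃ a H, Loc g D C (C * (3 * C) ^ D) Y W X S a H := by
  have c := h.c
  set C' := C * (3 * C) ^ D with hC'
  have c1 : 1 ≤ C' := one_le_mul_of_one_le_of_one_le c (one_le_pow₀ (by linarith))
  have Y1 : 1 ≤ Y := by linarith
  have ex : ∀ V : ℕ, ∃ n, V ≤ g n := fun V => by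
    obtain ⟨n, hn⟩ := exists_nat_ge (C * V + n0)
    have a0 : 0 ≤ C * V := by positivity
    have a1 : n0 ≤ n := by exact_mod_cast (show (n0 : ℝ) ≤ n by linarith)
    have a2 := h.lo n a1
    have a3 : (n : ℝ) ≤ n ^ (D + 1) := le_self_pow₀ (by exact_mod_cast n1.trans a1) (by omega)
    rw [hφ n (n1.trans a1)] at a2
    have a4 : (0 : ℝ) ≤ n0 := Nat.cast_nonneg _
    exact ⟨n, by exact_mod_cast le_of_mul_le_mul_left (show C * V ≤ C * g n by linarith) (by linarith)⟩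
  have A1 := Nat.find_spec (ex X)
  have A2 : ∀ n < Nat.find (ex X), g n < X := fun n hn => not_le.1 (Nat.find_min (ex X) hn)
  have B1 := Nat.find_spec (ex (X + S))
  have B2 : ∀ n < Nat.find (ex (X + S)), g n < X + S := fun n hn =>
    not_le.1 (Nat.find_min (ex (X + S)) hn)
  have AB : Nat.find (ex X) ≤ Nat.find (ex (X + S)) := Nat.find_min' _ (by omega)
  have A3 : n0 < Nat.find (ex X) := by
    by_contra k
    have := single_le_sum (f := g) (fun _ _ => Nat.zero_le _)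
      (mem_range.2 (show Nat.find (ex X) < n0 + 1 by omega))
    omega
  obtain ⟨a, ha⟩ : ∃ a, Nat.find (ex X) = a + 1 := ⟨_, (Nat.sub_add_cancel (by omega)).symm⟩
  obtain ⟨H, hH⟩ := Nat.exists_eq_add_of_le AB
  rw [ha] at hH A1 A2 A3
  rw [hH] at B1 B2
  have a0 : n0 ≤ a := by omega
  have a1 : (1 : ℝ) ≤ a := by exact_mod_cast n1.trans a0
  have y1 : Y ≤ 3 * C * a := by
    have b1 := h.up (a + 1) (by omega)
    rw [hφ _ (by omega)] at b1
    have b2 : (X : ℝ) ≤ g (a + 1) := by exact_mod_cast A1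
    have b3 : Y ^ (D + 1) ≤ (C * (a + 1 : ℕ)) ^ (D + 1) := by
      rw [mul_pow, ← hX]
      exact b2.trans (b1.trans (mul_le_mul_of_nonneg_right (le_self_pow₀ c (by omega)) (by positivity)))
    have := le_of_pow_le_pow_left₀ (by omega) (by positivity) b3
    push_cast at this
    nlinarith
  have SX : (S : ℝ) ≤ X := by rw [hS, hX, pow_succ]; gcongr
  have y2 : (a + 1 + H : ℝ) ≤ 3 * C * Y := by
    have b1 := h.lo (a + H) (by omega)
    rw [hφ _ (by omega)] at b1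
    have b2 : (g (a + H) : ℝ) ≤ X + S := by exact_mod_cast (B2 (a + H) (by omega)).le
    have b3 : ((a + H : ℕ) : ℝ) ^ (D + 1) ≤ (2 * C * Y) ^ (D + 1) := by
      rw [mul_pow, ← hX]
      refine b1.trans (le_trans ?_ (mul_le_mul_of_nonneg_right
        (le_self_pow₀ (show 1 ≤ 2 * C by linarith) (by omega)) (by positivity)))
      nlinarith
    have := le_of_pow_le_pow_left₀ (by omega) (by positivity) b3
    push_cast at this
    nlinarith
  have dl : ∀ n m : ℕ, a ≤ n → n ≤ m → Y ^ D * (m - n) ≤ C' * (g m - g n : ℝ) := fun n m an nm => by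
    have b1 := h.dl n m (by omega) nm
    rw [hφ _ (by omega), hφ _ (by omega)] at b1
    have b2 : (a : ℝ) ≤ n := by exact_mod_cast an
    have b3 : (n : ℝ) ≤ m := by exact_mod_cast nm
    have b4 : Y ^ D ≤ (3 * C) ^ D * n ^ D := by
      rw [← mul_pow]; exact pow_le_pow_left₀ (by linarith) (by nlinarith) D
    calc _ ≤ (3 * C) ^ D * n ^ D * (m - n) := mul_le_mul_of_nonneg_right b4 (by linarith)
      _ ≤ (3 * C) ^ D * (C * (g m - g n)) := by rw [mul_assoc]; gcongr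
      _ = _ := by rw [hC']; ring
  have p : 0 < Y ^ D := by positivity
  refine ⟨a, H, y1, y2, ?_, ?_, B2, fun n _ => ?_, fun n m nm _ => ?_⟩
  · have b1 := h.du a (a + 1 + H) a0 (by omega)
    rw [hφ _ (by omega), hφ _ (by omega)] at b1
    have b2 : (X + S : ℝ) ≤ g (a + 1 + H) := by exact_mod_cast B1
    have b3 : (g a : ℝ) ≤ X := by exact_mod_cast (A2 a (by omega)).le
    have b4 : ((a + 1 + H : ℕ) : ℝ) ^ D ≤ (3 * C) ^ D * Y ^ D := by
      rw [← mul_pow]; exact pow_le_pow_left₀ (by positivity) (by push_cast; exact y2) D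
    have b5 : Y ^ D * W ≤ Y ^ D * (C' * (1 + H)) := by
      calc _ ≤ C * (((a + 1 + H : ℕ) : ℝ) ^ D * ((a + 1 + H : ℕ) - a)) := by linarith
        _ ≤ C * ((3 * C) ^ D * Y ^ D * (1 + H)) := by
          rw [show ((a + 1 + H : ℕ) : ℝ) - a = 1 + H by push_cast; ring]; gcongr
        _ = _ := by rw [hC']; ring
    have := le_of_mul_le_mul_left b5 p
    nlinarith
  · rcases Nat.eq_zero_or_pos H with rfl | H0
    · simp only [Nat.cast_zero]; nlinarith
    have b1 := dl (a + 1) (a + H) (by omega) (by omega)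
    have b2 : (g (a + H) : ℝ) ≤ X + S := by exact_mod_cast (B2 (a + H) (by omega)).le
    have b3 : (X : ℝ) ≤ g (a + 1) := by exact_mod_cast A1
    have b5 : Y ^ D * (H - 1) ≤ Y ^ D * (C' * W) := by
      push_cast at b1
      nlinarith [mul_le_mul_of_nonneg_left (show (g (a + H) : ℝ) - g (a + 1) ≤ Y ^ D * W by linarith)
        (show 0 ≤ C' by linarith)]
    have := le_of_mul_le_mul_left b5 p
    nlinarith
  · have b1 := dl (a + 1) (a + 1 + n) (by omega) (by omega)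
    have b2 : 0 ≤ Y ^ D * ((a + 1 + n : ℕ) - (a + 1 : ℕ) : ℝ) := by push_cast; simp; positivity
    have b3 := nonneg_of_mul_nonneg_right (b2.trans b1) (by linarith)
    exact A1.trans (by exact_mod_cast sub_nonneg.1 b3)
  · simpa using dl (a + 1 + n) (a + 1 + m) (by omega) (by omega)

end Pool.Agent.H59.SN
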