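import Mathlib
import Pool.Agent.H59.SN1
import Pool.Agent.H59.SN3

/-! Excess of zeros among the digits of polynomial values at primes in a short interval. -/

set_option autoImplicit false
open Finset Filter Pool.Agent.H59.Digits

namespace Pool.Agent.H59.SN

lemma ex_e {D κ M n j : ℕ} (hM : κ + 3 + D + D * (2 * κ + 1) ≤ M) (hn : D + 1 ≤ n) (h1 : M ≤ j)
    (h2 : j < 2 * M * (n + 1) * D) :
    ∃ e, 2 * κ + e + 1 ≤ 2 * M * n ∧ (κ + e) * D + 1 ≤ j ∧ κ + j + 2 ≤ e * D + 2 * M * n := by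
  have D0 : 0 < D := Nat.pos_of_ne_zero (by rintro rfl; simp at h2)
  have a1 := Nat.div_add_mod (j - 1) D
  have a2 := Nat.mod_lt (j - 1) D0
  have a3 : κ ≤ (j - 1) / D := (Nat.le_div_iff_mul_le D0).2 (by
    have : D * (2 * κ + 1) = 2 * (κ * D) + D := by ring
    omega)
  have a4 : 2 * M * 1 ≤ 2 * M * n := Nat.mul_le_mul_left _ (by omega)
  obtain ⟨e, he⟩ := Nat.exists_eq_add_of_le a3
  rw [he] at a1
  by_cases c : 2 * κ + e + 1 ≤ 2 * M * n
  · refine ⟨e, c, by rw [mul_comm]; omega, ?_⟩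
    have : D * (κ + e) = D * κ + e * D := by ring
    have : D * (2 * κ + 1) = 2 * (D * κ) + D := by ring
    omega
  · obtain ⟨e', h⟩ := Nat.exists_eq_add_of_le (show 2 * κ + 1 ≤ 2 * M * n by omega)
    refine ⟨e', by omega, ?_, ?_⟩
    · have := Nat.mul_le_mul_left D (show κ + e' ≤ κ + e by omega)
      rw [mul_comm]; omega
    · have b1 : 2 * M * (n + 1) * D = D * (2 * κ + 1) + e' * D + 2 * M * D := by
        rw [mul_add, mul_one, h]; ring
      have b2 := Nat.mul_le_mul_left (2 * M) hn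
      rw [mul_add, mul_one] at b2
      omega

lemma blk {g : ℕ → ℕ} {φ : ℕ → ℝ} {D M n t a H : ℕ} {γ C C' : ℝ} (hP : P (D + 1) γ φ) (γ0 : 0 < γ)
    (hφ : ∀ n, 1 ≤ n → φ n = g n)
    (hL : Loc g D C C' (t ^ (2 * M * (n + 1))) (t ^ (2 * M * n))
      (t ^ (2 * M) * t ^ (2 * M * (n + 1) * D + 2 * M * n))
      (t ^ (2 * M * (n + 1) * D + 2 * M * n)) a H)
    (c1 : 1 ≤ C') (t1 : 12 ≤ t) (t2 : 2 * C' ≤ t) (t3 : 2 * γ ≤ t) (t4 : 2 * C' / γ ≤ t)
    (hM : 2 ^ D + 3 + D + D * (2 * 2 ^ D + 1) ≤ M) (hn : D + 1 ≤ n) (j : ℕ) (h1 : M ≤ j)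
    (h2 : j < 2 * M * (n + 1) * D + 2 * M * n) (v : ℕ) :
    (((range H).filter fun m => g (a + 1 + m) / t ^ j % t = v).card : ℝ) ≤
      (52 + 16 * D + 4 * C' ^ 2) * H / t := by
  have T1 : (12 : ℝ) ≤ t := by exact_mod_cast t1
  have T0 : (0 : ℝ) < t := by linarith
  have H0 : (0 : ℝ) ≤ H := Nat.cast_nonneg _
  have pw : ∀ i k : ℕ, i ≤ k → (t : ℝ) ^ i ≤ t ^ k := fun i k h => pow_le_pow_right₀ (by linarith) h
  rcases lt_or_ge j (2 * M * (n + 1) * D) with c | c
  · obtain ⟨e, e1, e2, e3⟩ := ex_e hM hn h1 c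
    have w := hL.w1
    refine (arc (fun m => g (a + 1 + m)) (fun m => φ (m + (a + 1))) H (t ^ j) t v
      (fun m _ => by rw [add_comm, hφ _ (by omega)]) (by positivity) t1
      ((1 + 4 * D) * (1 / t) * H) (by positivity) fun c c0 c2 x => ?_).trans ?_
    · have c0' : (1 : ℝ) ≤ c := by exact_mod_cast c0
      have c2' : (c : ℝ) ≤ t := by exact_mod_cast c2
      refine weyl (t ^ 2 ^ D) (t ^ e) H ?_ D _ _ _ ((hP.shift (a + 1)).lin _ x) (by positivity)
        (by positivity) (by rw [div_le_one T0]; linarith) ?_ ?_ ?_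
      · have := pw _ _ e1
        have b : (2 * C') * (t ^ 2 ^ D * t ^ e * t ^ 2 ^ D) ≤ (2 * C') * H := by
          refine le_trans ?_ (this.trans w)
          rw [← pow_add, ← pow_add, pow_succ, mul_comm, show 2 ^ D + e + 2 ^ D = 2 * 2 ^ D + e by ring]
          gcongr
        exact_mod_cast le_of_mul_le_mul_left b (by linarith)
      · rw [Nat.cast_pow, ← mul_pow, one_div_mul_cancel T0.ne', one_pow]
      · have := pw _ _ e2
        push_cast
        rw [← pow_add, ← pow_mul, div_mul_eq_mul_div, div_mul_eq_mul_div, div_le_iff₀ (by positivity)]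
        rw [pow_succ] at this
        have p : (0 : ℝ) ≤ t ^ ((2 ^ D + e) * D) := by positivity
        nlinarith [mul_le_mul (mul_le_mul c2' t3 (by positivity) T0.le) (le_refl _) p (by positivity)]
      · have := pw _ _ e3
        push_cast
        rw [← pow_mul, div_mul_eq_mul_div, div_mul_eq_mul_div, div_mul_eq_mul_div,
          le_div_iff₀ (by positivity)]
        rw [div_le_iff₀ γ0] at t4
        rw [pow_add _ (e * D), show 2 ^ D + j + 2 = 2 ^ D + j + 1 + 1 from rfl, pow_succ, pow_succ,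
          pow_add] at this
        have p : (0 : ℝ) ≤ t ^ (e * D) := by positivity
        have q : (0 : ℝ) ≤ t ^ 2 ^ D * t ^ j * t := by positivity
        refine le_of_mul_le_mul_left ?_ (show 0 < 2 * C' by linarith)
        calc _ ≤ (t * γ) * (t ^ 2 ^ D * t ^ j * t) := by rw [mul_assoc ((t : ℝ) ^ 2 ^ D)]; gcongr
          _ = γ * (t ^ 2 ^ D * t ^ j * t * t) := by ring
          _ ≤ γ * (t ^ (e * D) * (2 * C' * H)) := by
            refine mul_le_mul_of_nonneg_left (this.trans ?_) γ0.le; gcongr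
          _ = 2 * C' * (1 * γ * t ^ (e * D) * H) := by ring
          _ ≤ _ := by gcongr
    · have : 0 ≤ C' ^ 2 * H / t := by positivity
      ring_nf at this ⊢; linarith
  · obtain ⟨e, he⟩ := Nat.exists_eq_add_of_lt h2
    set Y : ℝ := t ^ (2 * M * (n + 1)) with hY
    have Y0 : 0 < Y ^ D := by positivity
    have y1 : Y ^ D ≤ t ^ j := by rw [hY, ← pow_mul]; exact pw _ _ c
    have y2 : (t : ℝ) ^ e * t ^ j * t = Y ^ D * t ^ (2 * M * n) := by
      rw [hY, ← pow_mul, ← pow_add, ← pow_add, he, ← pow_succ, add_comm e]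
    have tp : ∀ i, 0 < t ^ i := fun i => by positivity
    have mp : Set.MapsTo (fun m => g (a + 1 + m) / t ^ (j + 1))
        ((range H).filter fun m => g (a + 1 + m) / t ^ j % t = v : Finset ℕ)
        (Ico (t ^ (2 * M) * t ^ e) (t ^ (2 * M) * t ^ e + t ^ e) : Finset ℕ) := fun m hm => by
      have m1 := mem_range.1 (mem_filter.1 hm).1
      have b1 := hL.ge m m1
      have b2 := hL.lt (a + 1 + m) (by omega)
      rw [he, show j + e + 1 = e + (j + 1) by ring, pow_add, ← mul_assoc] at b1 b2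
      exact mem_coe.2 (mem_Ico.2 ⟨(Nat.le_div_iff_mul_le (tp _)).2 b1,
        (Nat.div_lt_iff_lt_mul (tp _)).2 (by rwa [add_mul])⟩)
    rw [card_eq_sum_card_fiberwise mp, Nat.cast_sum]
    refine (sum_le_card_nsmul _ _ (2 * C' * t ^ j / Y ^ D) fun w _ => ?_).trans ?_
    · refine (FracSum.card_spaced _ (C' * t ^ j / Y ^ D) (by positivity) fun k hk l hl kl => ?_).trans ?_
      · simp only [mem_filter, mem_range] at hk hl
        have b1 : g (a + 1 + k) / t ^ j = g (a + 1 + l) / t ^ j := by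
          rw [← Nat.div_add_mod (g (a + 1 + k) / t ^ j) t, ← Nat.div_add_mod (g (a + 1 + l) / t ^ j) t,
            Nat.div_div_eq_div_mul, Nat.div_div_eq_div_mul, ← pow_succ, hk.2, hl.2, hk.1.2, hl.1.2]
        have b2 := Nat.div_add_mod (g (a + 1 + k)) (t ^ j)
        have b3 := Nat.div_add_mod (g (a + 1 + l)) (t ^ j)
        have b4 := Nat.mod_lt (g (a + 1 + l)) (tp j)
        rw [b1] at b2
        have b5 : (g (a + 1 + l) : ℝ) ≤ g (a + 1 + k) + t ^ j := by
          exact_mod_cast (by linarith only [b2, b3, b4, Nat.zero_le (g (a + 1 + k) % t ^ j)] :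
            g (a + 1 + l) ≤ g (a + 1 + k) + t ^ j)
        rw [le_div_iff₀ Y0, mul_comm]
        exact (hL.dl k l kl hl.1.1).trans (mul_le_mul_of_nonneg_left (by linarith) (by linarith))
      · have : 1 ≤ C' * t ^ j / Y ^ D := by rw [le_div_iff₀ Y0]; nlinarith
        rw [mul_assoc, mul_div_assoc 2]; linarith
    · rw [Nat.card_Ico, Nat.add_sub_cancel_left, nsmul_eq_mul, le_div_iff₀ T0, Nat.cast_pow,
        show (t : ℝ) ^ e * (2 * C' * t ^ j / Y ^ D) * t = 2 * C' * (t ^ e * t ^ j * t) / Y ^ D by ring,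
        y2, div_le_iff₀ Y0]
      have := mul_le_mul_of_nonneg_left hL.w1 (show 0 ≤ 2 * C' by linarith)
      have D0 : (0 : ℝ) ≤ D * H := by positivity
      nlinarith [mul_le_mul_of_nonneg_left (show 2 * C' * t ^ (2 * M * n) ≤
        (52 + 16 * D + 4 * C' ^ 2) * H by nlinarith) Y0.le]

lemma ev {b : ℕ} (hb : 2 ≤ b) (K : ℝ) :
    ∀ᶠ r : ℕ in atTop, K ≤ (b ^ r : ℕ) ∧ K * r ≤ (b ^ r : ℕ) := by
  have := (tendsto_pow_const_div_const_pow_of_one_lt 1 (show (1 : ℝ) < b by exact_mod_cast hb)).const_mul |K|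
  rw [mul_zero] at this
  filter_upwards [this.eventually (ge_mem_nhds one_pos), eventually_ge_atTop 1] with r h1 h2
  rw [← mul_div_assoc, div_le_one (by positivity), pow_one] at h1
  have : (1 : ℝ) ≤ r := by exact_mod_cast h2
  push_cast
  constructor <;> nlinarith [le_abs_self K, abs_nonneg K]

lemma ev2 {η c : ℝ} (h : 0 < η) (hc : 0 < c) (K : ℝ) :
    ∀ᶠ r : ℕ in atTop, K * (r ^ 2 * Real.exp (-η * r)) ≤ c :=
  tendsto_natCast_atTop_atTop.eventually (H55.Hoh.small_pow 2 h hc)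

theorem core {b : ℕ} (hb : 2 ≤ b) {g : ℕ → ℕ} {φ : ℕ → ℝ} {D n0 : ℕ} {γ C : ℝ}
    (hP : P (D + 1) γ φ) (γ0 : 0 < γ) (hφ : ∀ n, 1 ≤ n → φ n = g n) (h : Gr φ D n0 C) (n1 : 1 ≤ n0)
    (n2 : ℕ) : ∃ (A H L : ℕ) (y : ℝ), n2 ≤ A ∧ (∀ n < A + H, g n < b ^ (L + 1)) ∧
      (∀ n < H, b ^ L ≤ g (A + n)) ∧
      (∀ n : ℕ, 3 ≤ n → n ≤ (A + H) * (L + 1) → √(2 * n * Real.log (Real.log n)) ≤ y) ∧
      4 * y < ∑ n ∈ (range H).filter fun n => (A + n).Prime,
        (F b z0 (L + 1) (g (A + n)) - (L + 1) / b) := by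
  classical
  obtain ⟨N0, A0, c, hc, hoh⟩ := hoheisel
  have c0 := h.c
  obtain ⟨C', hC'⟩ : ∃ C', C' = C * (3 * C) ^ D := ⟨_, rfl⟩
  have c1 : 1 ≤ C' := hC' ▸ one_le_mul_of_one_le_of_one_le c0 (one_le_pow₀ (by linarith))
  obtain ⟨M, hM⟩ : ∃ M, M = 2 ^ D + 3 + D + D * (2 * 2 ^ D + 1) := ⟨_, rfl⟩
  obtain ⟨N, hN⟩ : ∃ N, N = N0 + D + 2 := ⟨_, rfl⟩
  obtain ⟨n, hn⟩ : ∃ n, n = 2 * N + 1 := ⟨_, rfl⟩
  obtain ⟨J, hJ⟩ : ∃ J, J = 2 * M * (n + 1) * D + 2 * M * n := ⟨_, rfl⟩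
  obtain ⟨K, hK⟩ : ∃ K : ℝ, K = 52 + 16 * D + 4 * C' ^ 2 := ⟨_, rfl⟩
  obtain ⟨η, hη⟩ : ∃ η : ℝ, η = 1 / (8 * (D + 1) * (n + 1)) := ⟨_, rfl⟩
  obtain ⟨Λ, hΛ⟩ : ∃ Λ : ℝ, Λ = (2 * M * (n + 2) + J + 2) * b := ⟨_, rfl⟩
  have η0 : 0 < η := by rw [hη]; positivity
  obtain ⟨r, ⟨t1, -⟩, ⟨t2, -⟩, ⟨t3, -⟩, ⟨t4, -⟩, ⟨t5, -⟩, ⟨t6, -⟩, ⟨-, t7⟩, ⟨-, t8⟩, t9, r2⟩ :=
    ((ev hb 12).and ((ev hb (48 * C * C')).and ((ev hb (2 * γ)).and ((ev hb (2 * C' / γ)).and
    ((ev hb ((∑ n ∈ range (n0 + 1), g n + 1 : ℕ))).and ((ev hb (3 * C * (A0 + n2 : ℕ))).and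
    ((ev hb (3 * C * Λ)).and ((ev hb (64 * Λ * C' / c)).and
    ((ev2 (show 0 < η ^ 2 / 2 by positivity) hc (2 * Λ * Λ * J * K)).and
    (eventually_ge_atTop 2)))))))))).exists
  obtain ⟨t, ht⟩ : ∃ t, t = b ^ r := ⟨_, rfl⟩
  rw [← ht] at t1 t2 t3 t4 t5 t6 t7 t8
  have b2 : (2 : ℝ) ≤ b := by exact_mod_cast hb
  have r2' : (2 : ℝ) ≤ r := by exact_mod_cast r2
  have M3 : 3 ≤ M := by have := Nat.zero_le (2 ^ D); omega
  have M3' : (3 : ℝ) ≤ M := by exact_mod_cast M3
  have J0 : (0 : ℝ) ≤ J := Nat.cast_nonneg _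
  have n0' : (0 : ℝ) ≤ n := Nat.cast_nonneg _
  obtain ⟨z, hz⟩ : ∃ z : ℝ, z = t ^ (2 * M) := ⟨_, rfl⟩
  have tz : (t : ℝ) ≤ z := hz ▸ le_self_pow₀ (by linarith) (by omega)
  have z1 : 1 ≤ z := by linarith
  have cc : 0 ≤ C * C' := by positivity
  have cc1 : C ≤ C * C' := by nlinarith only [c0, c1]
  have cc2 : C' ≤ C * C' := by nlinarith only [c0, c1]
  have pw : ∀ i k : ℕ, i ≤ k → z ^ i ≤ z ^ k := fun i k h => pow_le_pow_right₀ z1 h
  have zn : z ≤ z ^ n := le_self_pow₀ z1 (by omega)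
  obtain ⟨a, H, hL⟩ := loc h n1 hφ (Y := t ^ (2 * M * (n + 1))) (W := t ^ (2 * M * n))
    (X := t ^ (2 * M) * t ^ J) (S := t ^ J) (by push_cast; rw [hJ]; ring) (by push_cast; rw [hJ]; ring)
    (by rw [← hC', pow_mul, ← hz]; linarith) (pow_le_pow_right₀ (by linarith)
      (Nat.mul_le_mul_left _ (by omega))) (by
      have a1 : ∑ n ∈ range (n0 + 1), g n + 1 ≤ t := by exact_mod_cast t5
      have a2 : t ≤ t ^ (2 * M + J) := Nat.le_self_pow (by omega) t
      rw [← pow_add]; omega)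
  rw [← hC'] at hL
  have bl := blk hP γ0 hφ (hJ ▸ hL) c1 (by exact_mod_cast t1) (by linarith) t3 t4 hM.ge (by omega)
  rw [← hJ, ← hK] at bl
  obtain ⟨y1, y2, w1, w2, lt, ge, -⟩ := hL
  rw [pow_mul, ← hz] at y1 y2 w1 w2
  rw [pow_succ] at y1 y2
  set W := z ^ n with hW
  have W0 : 0 < W := by positivity
  have a0 : (0 : ℝ) ≤ a := Nat.cast_nonneg _
  have H0 : (0 : ℝ) ≤ H := Nat.cast_nonneg _
  have a1 : A0 + n2 ≤ a := by
    have : 3 * C * (A0 + n2 : ℕ) ≤ 3 * C * a := by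
      linarith only [t6, tz, zn, y1, le_mul_of_one_le_right W0.le z1]
    exact_mod_cast le_of_mul_le_mul_left this (by linarith)
  have Λ1 : (J + 2 * M + 2) * r ≤ Λ * r ∧ (2 * M * (n + 2)) * (r * b) ≤ Λ * r := by
    rw [hΛ]
    have : 0 ≤ (M : ℝ) * n := by positivity
    constructor
    · exact mul_le_mul_of_nonneg_right (by nlinarith only [this, b2, J0, M3']) (by linarith)
    · nlinarith only [mul_nonneg (mul_nonneg (show (0 : ℝ) ≤ J + 2 by linarith) (show (0 : ℝ) ≤ b by linarith))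
        (show (0 : ℝ) ≤ r by linarith)]
  have Λ0 : 0 < Λ * r := by rw [hΛ]; positivity
  have lz : Real.log (z ^ (n + 2)) ≤ Λ * r := by
    refine le_trans ?_ Λ1.2
    rw [hz, ← pow_mul, ht, Nat.cast_pow, Real.log_pow, Real.log_pow]
    push_cast
    gcongr
    linarith [Real.log_le_sub_one_of_pos (show (0 : ℝ) < b by linarith)]
  have e2 : z ^ (n + 2) = W * z * z := by rw [hW]; ring
  have hp := hoh a H (z ^ 2) (by omega) (by
      have : 3 * C * H ≤ 3 * C * a := by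
        nlinarith only [y1, mul_le_mul_of_nonneg_left w2 (show 0 ≤ 3 * C by linarith),
          mul_le_mul_of_nonneg_left (t2.trans tz) W0.le, mul_nonneg cc W0.le]
      exact_mod_cast le_of_mul_le_mul_left this (by linarith)) (one_le_pow₀ z1) (by
      rw [← pow_mul]
      have := pw (2 * N0) n (by omega)
      refine le_of_mul_le_mul_left ?_ (show 0 < 3 * C by linarith)
      linarith only [y1, mul_le_mul (show 3 * C ≤ z by linarith) this (by positivity) (by linarith)]) (by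
      refine le_of_mul_le_mul_left ?_ (show 0 < 2 * C' by linarith)
      have i1 := mul_le_mul_of_nonneg_left (show (a : ℝ) ≤ 3 * C * (W * z) by linarith)
        (show 0 ≤ 16 * C' by linarith)
      have i2 := mul_le_mul_of_nonneg_right (t2.trans tz) (show 0 ≤ W * z by positivity)
      linarith only [i1, i2, mul_le_mul_of_nonneg_left w1 (sq_nonneg z)])
  have hX : b ^ ((J + 2 * M) * r) = t ^ (2 * M) * t ^ J := by rw [ht]; ring
  refine ⟨a + 1, H, (J + 2 * M) * r, 2 * z ^ (N + 2), by omega, fun m hm => (lt m hm).trans_le ?_,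
    fun m hm => hX ▸ ge m hm, fun m m3 hm => ?_, ?_⟩
  · rw [pow_succ, hX]
    have : 1 * t ^ J ≤ t ^ (2 * M) * t ^ J := Nat.mul_le_mul_right _ (Nat.one_le_pow _ _ (by
      rw [ht]; positivity))
    have := Nat.mul_le_mul_left (t ^ (2 * M) * t ^ J) hb
    omega
  · have m0 : (3 : ℝ) ≤ m := by exact_mod_cast m3
    have m1 : (m : ℝ) ≤ z ^ (n + 2) := by
      have : (m : ℝ) ≤ (a + 1 + H) * ((J + 2 * M) * r + 1) := by exact_mod_cast hm
      refine this.trans ((mul_le_mul y2 (show _ ≤ Λ * r by linarith [Λ1.1]) (by positivity)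
        (by positivity)).trans ?_)
      rw [e2]
      linarith only [mul_le_mul_of_nonneg_left (t7.trans tz) (show 0 ≤ W * z by positivity)]
    have m2 : Real.log (Real.log m) ≤ z := by
      have i1 := Real.log_le_sub_one_of_pos (Real.log_pos (show (1 : ℝ) < m by linarith))
      have i2 := Real.log_le_log (by linarith) m1
      nlinarith only [i1, i2, lz, t7, tz, c0, Λ0]
    refine Real.sqrt_le_iff.2 ⟨by positivity, ?_⟩
    have i3 : z ^ (n + 2) * z = (z ^ (N + 2)) ^ 2 := by rw [hn]; ring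
    have i4 : m * Real.log (Real.log m) ≤ z ^ (n + 2) * z :=
      (mul_le_mul_of_nonneg_left m2 (by linarith)).trans (mul_le_mul_of_nonneg_right m1 (by linarith))
    linarith only [i3, i4, sq_nonneg (z ^ (N + 2))]
  have η1 : η * J ≤ M / 4 := by
    rw [hη, hJ, div_mul_eq_mul_div, div_le_iff₀ (by positivity)]
    push_cast; linarith only [M3']
  have η2 : η ≤ 1 := by
    rw [hη, div_le_one (by positivity)]
    have : (0 : ℝ) ≤ D := Nat.cast_nonneg _
    linarith only [mul_nonneg this n0', this, n0']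
  have MJ : M ≤ J := by
    have := Nat.mul_le_mul_left (2 * M) (show 1 ≤ n by omega)
    omega
  set Bv := (range (b ^ r)).filter fun v => F b z0 r v < (1 / b - η) * r with hBv
  set Bad := (Ico M J).biUnion fun j => Bv.biUnion fun v =>
    (range H).filter fun m => g (a + 1 + m) / t ^ j % t = v with hBad
  have K0 : 0 ≤ K := by rw [hK]; positivity
  have bad : (Bad.card : ℝ) ≤ J * (K * H * Real.exp (-(η ^ 2 / 2) * r)) := by
    refine (Nat.cast_le.2 card_biUnion_le).trans ?_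
    rw [Nat.cast_sum]
    refine (sum_le_card_nsmul _ _ (K * H * Real.exp (-(η ^ 2 / 2) * r)) fun j hj => ?_).trans ?_
    · refine (Nat.cast_le.2 card_biUnion_le).trans ?_
      rw [Nat.cast_sum]
      refine (sum_le_card_nsmul _ _ _ fun v _ => bl j (mem_Ico.1 hj).1 (mem_Ico.1 hj).2 v).trans ?_
      rw [nsmul_eq_mul]
      refine (mul_le_mul_of_nonneg_right (ld hb η0 η2 r) (by positivity)).trans_eq ?_
      rw [ht]; push_cast; field_simp
    · rw [nsmul_eq_mul, Nat.card_Ico]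
      exact mul_le_mul_of_nonneg_right (by exact_mod_cast Nat.sub_le _ _) (by positivity)
  set Q := (range H).filter fun n => (a + 1 + n).Prime with hQ
  have ib : 1 / (b : ℝ) ≤ 1 / 2 := one_div_le_one_div_of_le (by norm_num) b2
  have ib0 : 0 < 1 / (b : ℝ) := by positivity
  have pt : ∀ m ∈ Q, 1 - (if m ∈ Bad then Λ * r else 0) ≤
      F b z0 ((J + 2 * M) * r + 1) (g (a + 1 + m)) - (((J + 2 * M) * r : ℕ) + 1) / b := fun m hm => by
    have m1 := mem_range.1 (mem_filter.1 hm).1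
    rw [div_eq_mul_one_div]
    push_cast
    split_ifs with k
    · have := F0 b ((J + 2 * M) * r + 1) (g (a + 1 + m))
      have i : 0 ≤ ((J : ℝ) + 2 * M) * r + 1 := by positivity
      linarith only [mul_le_mul_of_nonneg_left ib i, Λ1.1, this, r2', i]
    have i1 : g (a + 1 + m) / b ^ (J * r) = b ^ (2 * M * r) := by
      have u1 := ge m m1
      have u2 := lt (a + 1 + m) (by omega)
      rw [mul_comm J, mul_comm _ r, pow_mul, pow_mul, ← ht]
      exact Nat.div_eq_of_lt_le u1 (by rwa [add_mul, one_mul])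
    have i2 : ∑ j ∈ Ico M J, (1 / b - η) * r ≤
        ∑ j ∈ range J, F b z0 r (g (a + 1 + m) / b ^ (j * r)) := by
      refine (sum_le_sum fun j hj => ?_).trans (sum_le_sum_of_subset_of_nonneg
        (fun j hj => mem_range.2 (mem_Ico.1 hj).2) fun _ _ _ => F0 _ _ _)
      by_contra k2
      refine k (mem_biUnion.2 ⟨j, hj, mem_biUnion.2 ⟨_, mem_filter.2 ⟨mem_range.2 ?_, ?_⟩,
        mem_filter.2 ⟨mem_range.2 m1, rfl⟩⟩⟩)
      · rw [← ht]; exact Nat.mod_lt _ (by rw [ht]; positivity)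
      · rw [ht, F_mod, ← pow_mul, mul_comm r]; exact not_le.1 k2
    rw [sum_const, Nat.card_Ico, nsmul_eq_mul, Nat.cast_sub MJ, ← F_blocks] at i2
    have i3 := F_top hb (2 * M * r)
    rw [add_mul, add_assoc, F_add, i1]
    push_cast at i3
    have i4 := mul_le_mul_of_nonneg_right η1 (show (0 : ℝ) ≤ r by linarith)
    have i5 : 6 ≤ (M : ℝ) * r := by nlinarith only [M3', r2']
    have i6 := mul_le_mul_of_nonneg_left ib (show (0 : ℝ) ≤ M * r by linarith)
    have i7 : 0 ≤ η * (M * r) := by positivity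
    linarith only [i2, i3, i4, i5, i6, i7, ib]
  refine lt_of_lt_of_le ?_ (sum_le_sum pt)
  have s1 : ∑ m ∈ Q, (if m ∈ Bad then Λ * r else 0) ≤ Bad.card * (Λ * r) := by
    rw [← sum_filter, sum_const, nsmul_eq_mul]
    exact mul_le_mul_of_nonneg_right (Nat.cast_le.2 (card_le_card fun m hm => (mem_filter.1 hm).2)) Λ0.le
  have s2 : ((Ioc a (a + H)).filter Nat.Prime).card ≤ Q.card :=
    card_le_card_of_injOn (fun p => p - (a + 1)) (fun p hp => by
      obtain ⟨p1, p2⟩ := mem_filter.1 hp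
      rw [mem_Ioc] at p1
      exact mem_coe.2 (mem_filter.2 ⟨mem_range.2 (by dsimp only; omega), by
        rwa [Nat.add_sub_cancel' (by omega)]⟩)) fun p hp q hq e => by
      have p1 := mem_Ioc.1 (mem_filter.1 hp).1
      have p2 := mem_Ioc.1 (mem_filter.1 hq).1
      dsimp only at e; omega
  have s3 : c * H ≤ Q.card * (Λ * r) := by
    have a2 : 0 < 3 * C * a := lt_of_lt_of_le (by positivity) y1
    have a3 : (0 : ℝ) < a := by by_contra k; nlinarith only [k, a2, c0]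
    refine hp.trans (mul_le_mul (Nat.cast_le.2 s2) ((Real.log_le_log (by linarith) ?_).trans lz)
      (Real.log_nonneg ?_) (by positivity))
    · rw [e2]
      linarith only [y2, H0, mul_le_mul_of_nonneg_left (show 6 * C ≤ z by linarith)
        (show 0 ≤ W * z by positivity)]
    · have : 1 ≤ a := by exact_mod_cast a3
      exact_mod_cast (by omega : 1 ≤ 2 * a)
  rw [sum_sub_distrib, sum_const, nsmul_eq_mul, mul_one]
  refine lt_of_mul_lt_mul_right ?_ Λ0.le
  have s4 := mul_le_mul_of_nonneg_right (s1.trans (mul_le_mul_of_nonneg_right bad Λ0.le)) Λ0.le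
  have s5 := mul_le_mul_of_nonneg_right t9 H0
  have s6 : z ^ (N + 2) * z ≤ W := by rw [← pow_succ]; exact pw _ _ (by omega)
  have s7 : 64 * Λ * C' * r ≤ c * z := by
    rw [div_mul_eq_mul_div, div_le_iff₀ hc] at t8
    linarith only [t8, mul_le_mul_of_nonneg_right tz hc.le]
  have s8 : 0 < z ^ (N + 2) := by positivity
  have s9 : C' * (32 * z ^ (N + 2) * (Λ * r)) ≤ C' * (c * H) := by
    linarith only [mul_le_mul_of_nonneg_right s7 s8.le, mul_le_mul_of_nonneg_left (s6.trans w1) hc.le]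
  have s10 := le_of_mul_le_mul_left s9 (by linarith)
  linarith only [mul_pos s8 Λ0, s3, s4, s5, s10, mul_le_mul_of_nonneg_right s1 Λ0.le]

end Pool.Agent.H59.SN
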