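import Mathlib

set_option autoImplicit false

namespace Pool.Agent.H59.US
open Finset

/-- ordered representations j = a + a' from B -/
def R (B : Finset ℕ) (j : ℕ) : ℕ := ((B ×ˢ B).filter (fun p => p.1 + p.2 = j)).card

/-- doubles -/
def D (B : Finset ℕ) (j : ℕ) : ℕ := (B.filter (fun a => 2 * a = j)).card

lemma R_le_card (B : Finset ℕ) (j : ℕ) : R B j ≤ B.card := by
  unfold R
  apply Finset.card_le_card_of_injOn (fun p => p.1)
  · intro p hp
    simp only [coe_filter, mem_product, Set.mem_setOf_eq] at hp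
    exact hp.1.1
  · intro p hp q hq h
    simp only [coe_filter, mem_product, Set.mem_setOf_eq] at hp hq
    simp only at h
    ext
    · exact h
    · omega

lemma R_mono {C B : Finset ℕ} (h : C ⊆ B) (j : ℕ) : R C j ≤ R B j := by
  unfold R
  apply card_le_card
  intro p hp
  simp only [mem_filter, mem_product] at hp ⊢
  exact ⟨⟨h hp.1.1, h hp.1.2⟩, hp.2⟩

/-- weighted count of sums -/
lemma wsum (B C X V : Finset ℕ) (hC : C ⊆ B) (h2 : ∀ j, j ∉ X → R B j ≤ 2)
    (hV : ∀ a ∈ C, ∀ b ∈ C, a + b ∈ V) (w : ℕ → ℝ) (hw0 : ∀ j, 0 ≤ w j) (hw1 : ∀ j, w j ≤ 1) :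
    ∑ p ∈ C ×ˢ C, w (p.1 + p.2) ≤ 2 * ∑ v ∈ V, w v + X.card * C.card := by
  have h1 : ∑ p ∈ C ×ˢ C, w (p.1 + p.2) = ∑ v ∈ V, (R C v : ℝ) * w v := by
    rw [← Finset.sum_fiberwise_of_maps_to (s := C ×ˢ C) (t := V) (g := fun p => p.1 + p.2)]
    · apply sum_congr rfl
      intro v _
      rw [Finset.sum_congr rfl (g := fun _ => w v)]
      · simp [R]
      · intro p hp
        rw [(mem_filter.1 hp).2]
    · intro p hp
      rw [mem_product] at hp
      exact hV _ hp.1 _ hp.2
  rw [h1]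
  have h3 : ∀ v ∈ V, (R C v : ℝ) * w v ≤ 2 * w v + (if v ∈ X then (C.card : ℝ) else 0) := by
    intro v _
    by_cases hv : v ∈ X
    · rw [if_pos hv]
      have a1 : (R C v : ℝ) ≤ C.card := by exact_mod_cast R_le_card C v
      have a0 : (0 : ℝ) ≤ R C v := Nat.cast_nonneg _
      nlinarith [hw0 v, hw1 v]
    · rw [if_neg hv]
      have a1 : (R C v : ℝ) ≤ 2 := by exact_mod_cast (R_mono hC v).trans (h2 v hv)
      nlinarith [hw0 v]
  refine (sum_le_sum h3).trans ?_
  rw [sum_add_distrib, ← mul_sum]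
  have h4 : ∑ v ∈ V, (if v ∈ X then (C.card : ℝ) else 0) ≤ X.card * C.card := by
    rw [← Finset.sum_filter, sum_const, nsmul_eq_mul]
    apply mul_le_mul_of_nonneg_right _ (Nat.cast_nonneg _)
    exact_mod_cast card_le_card (fun x hx => (mem_filter.1 hx).2)
  linarith

lemma csum (B C X V : Finset ℕ) (hC : C ⊆ B) (h2 : ∀ j, j ∉ X → R B j ≤ 2)
    (hV : ∀ a ∈ C, ∀ b ∈ C, a + b ∈ V) :
    C.card * C.card ≤ 2 * V.card + X.card * C.card := by
  have := wsum B C X V hC h2 hV (fun _ => 1) (fun _ => zero_le_one) (fun _ => le_rfl)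
  simp only [sum_const, card_product, nsmul_eq_mul, mul_one] at this
  exact_mod_cast this

/-- triple symmetry -/
lemma triple (B : Finset ℕ) (n : ℕ) :
    ∑ a ∈ B, ∑ b ∈ B, ∑ c ∈ B, (if a + b + c = n then (3 * (a : ℤ) - n) else 0) = 0 := by
  have e12 : ∑ a ∈ B, ∑ b ∈ B, ∑ c ∈ B, (if a + b + c = n then (a : ℤ) else 0)
      = ∑ a ∈ B, ∑ b ∈ B, ∑ c ∈ B, (if a + b + c = n then (b : ℤ) else 0) := by
    rw [sum_comm]
    refine sum_congr rfl fun a _ => sum_congr rfl fun b _ => sum_congr rfl fun c _ => ?_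
    rw [add_comm b a]
  have e23 : ∑ a ∈ B, ∑ b ∈ B, ∑ c ∈ B, (if a + b + c = n then (b : ℤ) else 0)
      = ∑ a ∈ B, ∑ b ∈ B, ∑ c ∈ B, (if a + b + c = n then (c : ℤ) else 0) := by
    refine sum_congr rfl fun a _ => ?_
    rw [sum_comm]
    refine sum_congr rfl fun b _ => sum_congr rfl fun c _ => ?_
    rw [add_right_comm a c b]
  have h : ∀ a b c : ℕ, (if a + b + c = n then (3 * (a : ℤ) - n) else 0)
      = 2 * (if a + b + c = n then (a : ℤ) else 0) - (if a + b + c = n then (b : ℤ) else 0)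
        - (if a + b + c = n then (c : ℤ) else 0) := by
    intro a b c
    split_ifs with h
    · rw [← h]; push_cast; ring
    · simp
  simp only [h, sum_sub_distrib, ← mul_sum]
  rw [← e23, ← e12]; ring

lemma inner (B : Finset ℕ) (n a : ℕ) (x : ℤ) :
    ∑ b ∈ B, ∑ c ∈ B, (if a + b + c = n then x else 0)
      = if a ≤ n then x * R B (n - a) else 0 := by
  rw [← Finset.sum_product' (f := fun b c => if a + b + c = n then x else 0), ← Finset.sum_filter]
  split_ifs with h
  · rw [sum_const, nsmul_eq_mul, mul_comm]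
    unfold R
    have : (B ×ˢ B).filter (fun p => a + p.1 + p.2 = n) = (B ×ˢ B).filter (fun p => p.1 + p.2 = n - a) := by
      apply filter_congr
      intro p _
      omega
    rw [this]
  · have : (B ×ˢ B).filter (fun p => a + p.1 + p.2 = n) = ∅ := by
      apply filter_false_of_mem
      intro p _
      omega
    rw [this]; simp

def P (B : Finset ℕ) (n : ℕ) : Finset (ℕ × ℕ) := (B ×ˢ B).filter (fun p => p.1 + 2 * p.2 = n)
def L (B : Finset ℕ) (n : ℕ) : Finset ℕ := B.filter (fun a => a ≤ n)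

lemma ident (B X : Finset ℕ) (M n : ℕ) (hn : n ≤ M)
    (hex : ∀ j, j ≤ M → j ∉ X → R B j + D B j = 2)
    (hg : ∀ a ∈ B, a ≤ n → n - a ∉ X) :
    2 * (3 * (∑ a ∈ L B n, (a : ℤ)) - n * (L B n).card) = ∑ p ∈ P B n, (3 * (p.1 : ℤ) - n) := by
  have t := triple B n
  simp only [inner] at t
  rw [← Finset.sum_filter] at t
  have h1 : ∑ a ∈ B.filter (fun a => a ≤ n), (3 * (a : ℤ) - n) * R B (n - a)
      = ∑ a ∈ L B n, (2 * (3 * (a : ℤ) - n) - (3 * (a : ℤ) - n) * D B (n - a)) := by
    apply sum_congr rfl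
    intro a ha
    have ha' := mem_filter.1 ha
    have := hex (n - a) (by omega) (hg a ha'.1 ha'.2)
    have h' : (R B (n - a) : ℤ) = 2 - D B (n - a) := by omega
    rw [h']; ring
  rw [h1, sum_sub_distrib] at t
  have h2 : ∑ a ∈ L B n, (3 * (a : ℤ) - n) * D B (n - a) = ∑ p ∈ P B n, (3 * (p.1 : ℤ) - n) := by
    unfold P L D
    rw [Finset.sum_filter, Finset.sum_filter, Finset.sum_product]
    apply sum_congr rfl
    intro a _
    simp only
    rw [← Finset.sum_filter, sum_const, nsmul_eq_mul]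
    split_ifs with h
    · have : B.filter (fun b => a + 2 * b = n) = B.filter (fun b => 2 * b = n - a) := by
        apply filter_congr
        intro b _
        omega
      rw [this, mul_comm]
    · have : B.filter (fun b => a + 2 * b = n) = ∅ := by
        apply filter_false_of_mem
        intro b _
        omega
      rw [this]; simp
  rw [h2, ← mul_sum, sum_sub_distrib, ← mul_sum, sum_const, nsmul_eq_mul] at t
  linarith

end Pool.Agent.H59.US
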