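import Mathlib
import Pool.Agent.H59.US1

set_option autoImplicit false

namespace Pool.Agent.H59.US
open Finset

lemma geom_le (r : ℝ) (h0 : 0 ≤ r) (h1 : r < 1) (m : ℕ) :
    ∑ v ∈ range m, r ^ v ≤ 1 / (1 - r) := by
  have h : (∑ v ∈ range m, r ^ v) * (1 - r) = 1 - r ^ m := by
    have := geom_sum_mul_neg r m
    linarith
  rw [le_div_iff₀ (by linarith), h]
  have := pow_nonneg h0 m
  linarith

/-- many n have at most one representation a + 2a' -/
lemma many (B X : Finset ℕ) (M : ℕ) (hM : 900 ≤ M) (hB : ∀ a ∈ B, a ≤ M)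
    (h2 : ∀ j, j ∉ X → R B j ≤ 2) (hek : 225 * (X.card * B.card) ≤ M) :
    M ≤ 60 * ((range (M + 1)).filter (fun n => (P B n).card ≤ 1)).card := by
  set u : ℝ := M / 9 with hu
  have hM' : (900 : ℝ) ≤ M := by exact_mod_cast hM
  have hu100 : 100 ≤ u := by rw [hu]; linarith
  have hu0 : 0 < u := by linarith
  set r : ℝ := 1 - 1 / u with hr
  have hiu : 1 / u ≤ 1 / 100 := one_div_le_one_div_of_le (by norm_num) hu100
  have hiu0 : 0 < 1 / u := by positivity
  have hr0 : 0 ≤ r := by rw [hr]; linarith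
  have hr1 : r < 1 := by rw [hr]; linarith
  have hek' : (X.card : ℝ) * B.card ≤ 4 / 100 * u := by
    have : (225 : ℝ) * (X.card * B.card) ≤ M := by exact_mod_cast hek
    rw [hu]; linarith
  have hV : ∀ a ∈ B, ∀ b ∈ B, a + b ∈ range (2 * M + 1) := by
    intro a ha b hb
    have := hB a ha
    have := hB b hb
    rw [mem_range]; omega
  have key : ∀ x : ℝ, 0 ≤ x → x < 1 → (∑ a ∈ B, x ^ a) ^ 2 ≤ 2 * (1 / (1 - x)) + 4 / 100 * u := by
    intro x h0 h1
    have := wsum B B X _ subset_rfl h2 hV (fun j => x ^ j) (fun j => pow_nonneg h0 j)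
      (fun j => pow_le_one₀ h0 h1.le)
    have e : (∑ a ∈ B, x ^ a) ^ 2 = ∑ p ∈ B ×ˢ B, x ^ (p.1 + p.2) := by
      rw [sq, sum_mul_sum, sum_product]
      simp only [pow_add]
    have g := geom_le x h0 h1 (2 * M + 1)
    rw [e]
    linarith
  have k1 := key r hr0 hr1
  have hr2 : r ^ 2 < 1 := by nlinarith
  have k2 := key (r ^ 2) (by positivity) hr2
  have e1 : 1 / (1 - r) = u := by rw [hr]; field_simp; ring
  have e2 : 2 * (1 / (1 - r ^ 2)) ≤ u + 1 := by
    have hp : 0 < 1 - r ^ 2 := by linarith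
    rw [mul_one_div, div_le_iff₀ hp, hr]
    have : (u + 1) * (1 - (1 - 1 / u) ^ 2) = 2 + (1 / u) * (1 - 1 / u) := by
      field_simp; ring
    rw [this]
    have : 0 ≤ (1 / u) * (1 - 1 / u) := mul_nonneg hiu0.le (by linarith)
    linarith
  rw [e1] at k1
  set F1 := ∑ a ∈ B, r ^ a with hF1
  set F2 := ∑ a ∈ B, (r ^ 2) ^ a with hF2
  have hF1' : 0 ≤ F1 := sum_nonneg fun a _ => pow_nonneg hr0 a
  have hF2' : 0 ≤ F2 := sum_nonneg fun a _ => pow_nonneg (by positivity) a
  have hprod : F1 * F2 ≤ 3 / 2 * u := by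
    have a1 : F1 ^ 2 ≤ 204 / 100 * u := by linarith
    have a2 : F2 ^ 2 ≤ 105 / 100 * u := by linarith
    have a3 : (F1 * F2) ^ 2 ≤ (3 / 2 * u) ^ 2 := by
      calc (F1 * F2) ^ 2 = F1 ^ 2 * F2 ^ 2 := by ring
        _ ≤ (204 / 100 * u) * (105 / 100 * u) :=
          mul_le_mul a1 a2 (by positivity) (by positivity)
        _ ≤ (3 / 2 * u) ^ 2 := by nlinarith
    exact (abs_le_of_sq_le_sq' a3 (by positivity)).2
  have hrho : ∑ n ∈ range (M + 1), ((P B n).card : ℝ) * r ^ n ≤ F1 * F2 := by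
    have e : F1 * F2 = ∑ p ∈ B ×ˢ B, r ^ (p.1 + 2 * p.2) := by
      rw [hF1, hF2, sum_mul_sum, sum_product]
      simp only [pow_add, pow_mul]
    rw [e]
    have : ∀ n ∈ range (M + 1), ((P B n).card : ℝ) * r ^ n
        = ∑ p ∈ (B ×ˢ B).filter (fun p => p.1 + 2 * p.2 = n), r ^ (p.1 + 2 * p.2) := by
      intro n _
      rw [Finset.sum_congr rfl (g := fun _ => r ^ n)]
      · simp [P]
      · intro p hp
        rw [(mem_filter.1 hp).2]
    rw [sum_congr rfl this]
    apply Finset.sum_fiberwise_le_sum_of_sum_fiber_nonneg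
    intro y _
    exact sum_nonneg fun p _ => pow_nonneg hr0 _
  have hgeo : 9 / 10 * u ≤ ∑ n ∈ range (M + 1), r ^ n := by
    have h : (∑ v ∈ range (M + 1), r ^ v) * (1 - r) = 1 - r ^ (M + 1) := by
      have := geom_sum_mul_neg r (M + 1)
      linarith
    have hb : (1 : ℝ) + (M + 1 : ℕ) * (1 / u) ≤ (1 + 1 / u) ^ (M + 1) :=
      one_add_mul_le_pow (by linarith) _
    have hb2 : (10 : ℝ) ≤ 1 + (M + 1 : ℕ) * (1 / u) := by
      have : (M : ℝ) * (1 / u) = 9 := by
        rw [hu]; field_simp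
      push_cast
      nlinarith
    have hb3 : r ^ (M + 1) * (1 + 1 / u) ^ (M + 1) ≤ 1 := by
      rw [← mul_pow]
      apply pow_le_one₀ (by positivity)
      rw [hr]; nlinarith
    have hb4 : r ^ (M + 1) ≤ 1 / 10 := by
      have := pow_nonneg hr0 (M + 1)
      nlinarith
    have h1r : 1 - r = 1 / u := by rw [hr]; ring
    rw [h1r] at h
    have : ∑ v ∈ range (M + 1), r ^ v = (1 - r ^ (M + 1)) * u := by
      rw [← h]; field_simp
    rw [this]; nlinarith
  have hsplit : ∑ n ∈ range (M + 1), r ^ n ≤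
      ∑ n ∈ range (M + 1), ((if (P B n).card ≤ 1 then (1 : ℝ) else 0)
        + 1 / 2 * (((P B n).card : ℝ) * r ^ n)) := by
    apply sum_le_sum
    intro n _
    have p0 := pow_nonneg hr0 n
    have p1 : r ^ n ≤ 1 := pow_le_one₀ hr0 hr1.le
    split_ifs with h
    · have : 0 ≤ ((P B n).card : ℝ) * r ^ n := by positivity
      linarith
    · have : (2 : ℝ) ≤ (P B n).card := by exact_mod_cast (by omega : 2 ≤ (P B n).card)
      nlinarith
  rw [sum_add_distrib, ← mul_sum, ← Finset.sum_filter, sum_const, nsmul_eq_mul, mul_one] at hsplit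
  have : (M : ℝ) ≤ 60 * ((range (M + 1)).filter (fun n => (P B n).card ≤ 1)).card := by
    have : (M : ℝ) = 9 * u := by rw [hu]; ring
    linarith
  exact_mod_cast this

/-- an affine family inside B is short -/
lemma cls (B X J : Finset ℕ) (h2 : ∀ j, j ∉ X → R B j ≤ 2) (t W κ σ T : ℕ)
    (hJ : ∀ n ∈ J, t ≤ n ∧ n < t + W) (hφ : ∀ n ∈ J, ∃ a ∈ B, 3 * a + 3 * σ = n * (1 + κ))
    (hT : 4 * W ≤ T * T) : J.card ≤ X.card + T := by
  let φ : ℕ → ℕ := fun n => (n * (1 + κ) - 3 * σ) / 3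
  have hφ1 : ∀ n ∈ J, φ n ∈ B ∧ 3 * φ n + 3 * σ = n * (1 + κ) := by
    intro n hn
    obtain ⟨a, ha, h⟩ := hφ n hn
    have : φ n = a := by simp only [φ]; omega
    rw [this]; exact ⟨ha, h⟩
  have hinj : Set.InjOn φ J := by
    intro n hn m hm h
    have a := (hφ1 n hn).2
    have b := (hφ1 m hm).2
    rw [h] at a
    have : n * (1 + κ) = m * (1 + κ) := by omega
    exact Nat.eq_of_mul_eq_mul_right (by omega) this
  have hc : (J.image φ).card = J.card := card_image_of_injOn hinj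
  let ψ : ℕ → ℕ := fun s => (s * (1 + κ) - 6 * σ) / 3
  have h := csum B (J.image φ) X ((Ico (2 * t) (2 * t + 2 * W)).image ψ)
    (by
      intro a ha
      obtain ⟨n, hn, rfl⟩ := mem_image.1 ha
      exact (hφ1 n hn).1) h2
    (by
      intro a ha b hb
      obtain ⟨n, hn, rfl⟩ := mem_image.1 ha
      obtain ⟨m, hm, rfl⟩ := mem_image.1 hb
      refine mem_image.2 ⟨n + m, ?_, ?_⟩
      · have := hJ n hn
        have := hJ m hm
        rw [mem_Ico]; omega
      · have a := (hφ1 n hn).2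
        have b := (hφ1 m hm).2
        have : (n + m) * (1 + κ) = n * (1 + κ) + m * (1 + κ) := by ring
        simp only [ψ]
        omega)
  have hv : ((Ico (2 * t) (2 * t + 2 * W)).image ψ).card ≤ 2 * W := by
    refine card_image_le.trans ?_
    rw [Nat.card_Ico]; omega
  rw [hc] at h
  by_contra hcon
  push Not at hcon
  obtain ⟨d, hd⟩ : ∃ d, J.card = X.card + T + 1 + d := ⟨J.card - (X.card + T + 1), by omega⟩
  rw [hd] at h
  nlinarith

end Pool.Agent.H59.US
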