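import Mathlib
import Pool.Agent.H59.US2

set_option autoImplicit false

namespace Pool.Agent.H59.US
open Finset

lemma L_mono (B : Finset ℕ) {n m : ℕ} (h : n ≤ m) : L B n ⊆ L B m := by
  intro a ha
  simp only [L, mem_filter] at ha ⊢
  exact ⟨ha.1, by omega⟩

lemma key_eq (B : Finset ℕ) (W : ℕ) {n m : ℕ}
    (h : (L B n).card + n / W = (L B m).card + m / W) : L B n = L B m ∧ n / W = m / W := by
  wlog hnm : n ≤ m generalizing n m
  · obtain ⟨a, b⟩ := this h.symm (by omega)
    exact ⟨a.symm, b.symm⟩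
  have a := card_le_card (L_mono B hnm)
  have b : n / W ≤ m / W := Nat.div_le_div_right hnm
  exact ⟨eq_of_subset_of_card_le (L_mono B hnm) (by omega), by omega⟩

def G (B X : Finset ℕ) (M : ℕ) : Finset ℕ :=
  (range (M + 1)).filter (fun n => (P B n).card ≤ 1 ∧ ∀ a ∈ B, a ≤ n → n - a ∉ X)

lemma fiber (B X : Finset ℕ) (M W T c : ℕ) (hW : 0 < W) (h2 : ∀ j, j ∉ X → R B j ≤ 2)
    (hex : ∀ j, j ≤ M → j ∉ X → R B j + D B j = 2) (hT : 4 * W ≤ T * T) :
    (((G B X M).filter (fun n => 0 < (L B n).card)).filter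
      (fun n => (L B n).card + n / W = c)).card ≤ 1 + X.card + T := by
  set F := ((G B X M).filter (fun n => 0 < (L B n).card)).filter
      (fun n => (L B n).card + n / W = c) with hF
  rcases F.eq_empty_or_nonempty with h | ⟨n0, hn0⟩
  · rw [h]; simp
  have hmem : ∀ n ∈ F, n ≤ M ∧ (P B n).card ≤ 1 ∧ (∀ a ∈ B, a ≤ n → n - a ∉ X) ∧
      0 < (L B n).card ∧ (L B n).card + n / W = c := by
    intro n hn
    simp only [hF, G, mem_filter, mem_range] at hn
    exact ⟨by omega, hn.1.1.2.1, hn.1.1.2.2, hn.1.2, hn.2⟩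
  have hk : ∀ n ∈ F, L B n = L B n0 ∧ n / W = n0 / W := fun n hn =>
    key_eq B W (by rw [(hmem n hn).2.2.2.2, (hmem n0 hn0).2.2.2.2])
  have hκ : 0 < (L B n0).card := (hmem n0 hn0).2.2.2.1
  have hid : ∀ n ∈ F, 2 * (3 * (((∑ a ∈ L B n0, a : ℕ)) : ℤ) - n * (L B n0).card)
      = ∑ p ∈ P B n, (3 * (p.1 : ℤ) - n) := by
    intro n hn
    have := ident B X M n (hmem n hn).1 hex (hmem n hn).2.2.1
    rw [(hk n hn).1] at this
    rw [← this]; push_cast; rfl
  set κ := (L B n0).card
  set σ := ∑ a ∈ L B n0, a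
  have hs := Finset.card_filter_add_card_filter_not (s := F) (fun n => (P B n).card = 0)
  have h0 : (F.filter (fun n => (P B n).card = 0)).card ≤ 1 := by
    rw [card_le_one]
    intro n hn m hm
    have hn' := mem_filter.1 hn
    have hm' := mem_filter.1 hm
    have a := hid n hn'.1
    have b := hid m hm'.1
    rw [card_eq_zero.1 hn'.2] at a
    rw [card_eq_zero.1 hm'.2] at b
    simp only [sum_empty] at a b
    have : (n : ℤ) * κ = m * κ := by linarith
    have : n * κ = m * κ := by exact_mod_cast this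
    exact Nat.eq_of_mul_eq_mul_right hκ this
  have h1 : (F.filter (fun n => ¬ (P B n).card = 0)).card ≤ X.card + T := by
    apply cls B X _ h2 (n0 / W * W) W κ σ T _ _ hT
    · intro n hn
      have hn' := mem_filter.1 hn
      rw [← (hk n hn'.1).2]
      have a := Nat.div_mul_le_self n W
      have b := Nat.lt_div_mul_add (a := n) hW
      exact ⟨a, b⟩
    · intro n hn
      have hn' := mem_filter.1 hn
      have a := hid n hn'.1
      have b := (hmem n hn'.1).2.1
      obtain ⟨p, hp⟩ := card_eq_one.1 (by omega : (P B n).card = 1)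
      have hp' : p ∈ P B n := by rw [hp]; exact mem_singleton_self p
      rw [hp, sum_singleton] at a
      simp only [P, mem_filter, mem_product] at hp'
      refine ⟨p.2, hp'.1.2, ?_⟩
      have e : (p.1 : ℤ) + 2 * p.2 = n := by exact_mod_cast hp'.2
      have : (3 : ℤ) * p.2 + 3 * σ = n * (1 + κ) := by linarith
      exact_mod_cast this
  omega

lemma G_upper (B X : Finset ℕ) (M W T : ℕ) (hW : 0 < W) (h2 : ∀ j, j ∉ X → R B j ≤ 2)
    (hex : ∀ j, j ≤ M → j ∉ X → R B j + D B j = 2) (hT : 4 * W ≤ T * T) :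
    (G B X M).card ≤ X.card + (1 + X.card + T) * (B.card + M / W + 1) := by
  have hs := Finset.card_filter_add_card_filter_not (s := G B X M) (fun n => 0 < (L B n).card)
  have h0 : ((G B X M).filter (fun n => ¬ 0 < (L B n).card)).card ≤ X.card := by
    apply card_le_card
    intro n hn
    simp only [G, mem_filter, mem_range] at hn
    by_contra hx
    have h := hex n (by omega) hx
    have hL : L B n = ∅ := card_eq_zero.1 (by omega)
    have hno : ∀ a ∈ B, ¬ a ≤ n := by
      intro a ha hle
      have : a ∈ L B n := mem_filter.2 ⟨ha, hle⟩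
      rw [hL] at this
      exact absurd this (notMem_empty a)
    have r0 : R B n = 0 := by
      unfold R
      rw [card_eq_zero]
      apply filter_false_of_mem
      intro p hp
      have := hno p.1 (mem_product.1 hp).1
      omega
    have d0 : D B n = 0 := by
      unfold D
      rw [card_eq_zero]
      apply filter_false_of_mem
      intro p hp
      have := hno p hp
      omega
    omega
  have h1 : ((G B X M).filter (fun n => 0 < (L B n).card)).card
      ≤ (1 + X.card + T) * (range (B.card + M / W + 1)).card := by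
    apply Finset.card_le_mul_card_image_of_maps_to (f := fun n => (L B n).card + n / W)
    · intro n hn
      simp only [G, mem_filter, mem_range] at hn ⊢
      have a : (L B n).card ≤ B.card := card_filter_le _ _
      have b : n / W ≤ M / W := Nat.div_le_div_right (by omega)
      omega
    · intro c _
      exact fiber B X M W T c hW h2 hex hT
  rw [card_range] at h1
  omega

lemma G_lower (B X : Finset ℕ) (M : ℕ) :
    ((range (M + 1)).filter (fun n => (P B n).card ≤ 1)).card ≤ (G B X M).card + X.card * B.card := by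
  have : (range (M + 1)).filter (fun n => (P B n).card ≤ 1)
      ⊆ G B X M ∪ (X ×ˢ B).image (fun p => p.1 + p.2) := by
    intro n hn
    simp only [G, mem_filter, mem_union, mem_image, mem_product] at hn ⊢
    by_cases h : ∀ a ∈ B, a ≤ n → n - a ∉ X
    · exact Or.inl ⟨hn.1, hn.2, h⟩
    · push Not at h
      obtain ⟨a, ha, hle, hx⟩ := h
      exact Or.inr ⟨(n - a, a), ⟨hx, ha⟩, by simp only; omega⟩
  refine (card_le_card this).trans ((card_union_le _ _).trans ?_)
  have := card_image_le (s := X ×ˢ B) (f := fun p => p.1 + p.2)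
  rw [card_product] at this
  omega

theorem core (B X : Finset ℕ) (M : ℕ) (hM : 10 ^ 14 ≤ M) (hB : ∀ a ∈ B, a ≤ M)
    (h2 : ∀ j, j ∉ X → R B j ≤ 2) (hex : ∀ j, j ≤ M → j ∉ X → R B j + D B j = 2) :
    M < 10 ^ 6 * X.card ^ 2 := by
  by_contra hcon
  push Not at hcon
  set e := X.card with he
  set k := B.card with hk
  obtain ⟨s, hs1, hs2⟩ : ∃ s, s * s ≤ M ∧ M < (s + 1) * (s + 1) :=
    ⟨Nat.sqrt M, Nat.sqrt_le M, Nat.lt_succ_sqrt M⟩
  have hs7 : 10 ^ 7 ≤ s := by
    by_contra h
    have : s + 1 ≤ 10 ^ 7 := by omega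
    have := Nat.mul_le_mul this this
    omega
  have hes : 1000 * e ≤ s := by
    by_contra h
    have : s + 1 ≤ 1000 * e := by omega
    have := Nat.mul_le_mul this this
    nlinarith
  obtain ⟨T, hT1, hT2⟩ : ∃ T, 1000 * T ≤ s ∧ s < 1000 * (T + 1) := ⟨s / 1000, by omega, by omega⟩
  have hT4 : 10 ^ 4 ≤ T := by omega
  have heT : e ≤ T := by omega
  have hkk := csum B B X (range (2 * M + 1)) subset_rfl h2 (by
    intro a ha b hb
    have := hB a ha
    have := hB b hb
    rw [mem_range]; omega)
  rw [card_range, ← hk, ← he] at hkk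
  have hk3 : k ≤ 3 * s := by
    by_contra h
    obtain ⟨d, hd⟩ : ∃ d, k = 3 * s + 1 + d := ⟨k - (3 * s + 1), by omega⟩
    have : e * k ≤ s * k := Nat.mul_le_mul_right _ (by omega)
    rw [hd] at hkk this
    nlinarith
  have hek : e * k ≤ 3 * (s * T) := by
    have := Nat.mul_le_mul heT hk3
    nlinarith
  have hsT : 1000 * (s * T) ≤ s * s := by nlinarith
  have m1 := many B X M (by omega) hB h2 (by rw [← he, ← hk]; omega)
  have m2 := G_lower B X M
  have m3 := G_upper B X M s T (by omega) h2 hex (by nlinarith)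
  rw [← he, ← hk] at m2 m3
  have hMs : M / s ≤ s + 2 := by
    apply Nat.div_le_of_le_mul
    nlinarith
  have m4 : (1 + e + T) * (k + M / s + 1) ≤ (1 + 2 * T) * (4 * s + 3) :=
    Nat.mul_le_mul (by omega) (by omega)
  have m5 : (1 + 2 * T) * (4 * s + 3) = 8 * (s * T) + 4 * s + 6 * T + 3 := by ring
  have m6 : 10 ^ 4 * s ≤ s * T := by nlinarith
  omega

end Pool.Agent.H59.US
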