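import Mathlib
import Pool.Agent.H59.US3

set_option autoImplicit false

namespace Pool.Agent.H59.US
open Finset

/-- n has exactly one representation as an unordered sum of two elements of A -/
def Uq (A : Set ℕ) (n : ℕ) : Prop :=
  ∃ a b : ℕ, a ∈ A ∧ b ∈ A ∧ a + b = n ∧
    ∀ x ∈ A, ∀ y ∈ A, x + y = n → (x = a ∧ y = b) ∨ (x = b ∧ y = a)

theorem main (A : Set ℕ) (N : ℕ) (hN : 2 * 10 ^ 14 ≤ N) (X : Finset ℕ)
    (hX : ∀ j, j ≤ N → j ∉ X → Uq A j) : N ≤ 2 * 10 ^ 6 * X.card ^ 2 := by
  classical
  set M := N / 2 with hM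
  set B := (range (M + 1)).filter (fun a => a ∈ A) with hB
  have hmem : ∀ a, a ∈ B ↔ a ≤ M ∧ a ∈ A := by
    intro a
    simp only [hB, mem_filter, mem_range, Nat.lt_succ_iff]
  have hsub : ∀ j a b, (∀ x ∈ A, ∀ y ∈ A, x + y = j → (x = a ∧ y = b) ∨ (x = b ∧ y = a)) →
      (B ×ˢ B).filter (fun p => p.1 + p.2 = j) ⊆ {(a, b), (b, a)} := by
    intro j a b h p hp
    simp only [mem_filter, mem_product, hmem] at hp
    rcases h p.1 hp.1.1.2 p.2 hp.1.2.2 hp.2 with h | h
    · have : p = (a, b) := Prod.ext h.1 h.2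
      simp [this]
    · have : p = (b, a) := Prod.ext h.1 h.2
      simp [this]
  have := core B X M (by omega) (fun a ha => ((hmem a).1 ha).1) ?_ ?_
  · omega
  · intro j hj
    by_cases hjN : j ≤ N
    · obtain ⟨a, b, _, _, _, h⟩ := hX j hjN hj
      exact (card_le_card (hsub j a b h)).trans card_le_two
    · have : R B j = 0 := by
        unfold R
        rw [card_eq_zero]
        apply filter_false_of_mem
        intro p hp
        simp only [mem_product, hmem] at hp
        omega
      omega
  · intro j hjM hj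
    obtain ⟨a, b, ha, hb, hab, h⟩ := hX j (by omega) hj
    have haB : a ∈ B := (hmem a).2 ⟨by omega, ha⟩
    have hbB : b ∈ B := (hmem b).2 ⟨by omega, hb⟩
    have hR : (B ×ˢ B).filter (fun p => p.1 + p.2 = j) = {(a, b), (b, a)} := by
      apply Subset.antisymm (hsub j a b h)
      intro p hp
      simp only [mem_insert, mem_singleton] at hp
      rcases hp with rfl | rfl
      · simp [haB, hbB, hab]
      · simp [haB, hbB, add_comm b a, hab]
    unfold R D
    rw [hR]
    by_cases hab' : a = b
    · subst hab'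
      have : B.filter (fun x => 2 * x = j) = {a} := by
        ext x
        simp only [mem_filter, mem_singleton]
        constructor
        · intro hx; omega
        · rintro rfl; exact ⟨haB, by omega⟩
      rw [this]; simp
    · have : B.filter (fun x => 2 * x = j) = ∅ := by
        apply filter_false_of_mem
        intro x hx h2
        have hxA := ((hmem x).1 hx).2
        rcases h x hxA x hxA (by omega) with h | h <;> omega
      rw [this, card_pair (by simp [hab'])]; simp

/-- real form: any set Y containing all exceptional n in [1,N] has at least sqrt N / 2000 elements -/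
theorem main_real (A : Set ℕ) (N : ℕ) (hN : 2 * 10 ^ 14 ≤ N) (Y : Finset ℕ)
    (hY : ∀ j, 1 ≤ j → j ≤ N → j ∉ Y → Uq A j) : Real.sqrt N / 2000 ≤ Y.card := by
  have h := main A N hN (insert 0 Y) (by
    intro j hj hj'
    rw [mem_insert, not_or] at hj'
    exact hY j (by omega) hj hj'.2)
  have hc := card_insert_le 0 Y
  set y := Y.card
  have h1 : N ≤ 2 * 10 ^ 6 * (y + 1) ^ 2 :=
    h.trans (Nat.mul_le_mul_left _ (Nat.pow_le_pow_left hc 2))
  have h2 : 1000 ≤ y := by
    by_contra hh
    have : (y + 1) ^ 2 ≤ 1000 ^ 2 := Nat.pow_le_pow_left (by omega) 2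
    omega
  have h3 : N ≤ (2000 * y) ^ 2 := by nlinarith
  rw [div_le_iff₀ (by norm_num), Real.sqrt_le_left (by positivity)]
  have : (N : ℝ) ≤ ((2000 * y) ^ 2 : ℕ) := by exact_mod_cast h3
  push_cast at this
  linarith

end Pool.Agent.H59.US
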